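import Pool.Agent.Lib.MP_2194ec_nt.GAL.R.Bas
import Pool.Agent.Lib.MP_2194ec_nt.GAL.R.Bez
import Pool.Agent.Lib.MP_2194ec_nt.GAL.R.Bif
import Pool.Agent.Lib.MP_2194ec_nt.GAL.R.Bih
import Pool.Agent.Lib.MP_2194ec_nt.LW.DefsVH

set_option autoImplicit false

/-!
# Periodic curves of `z ^ p + c`: the generic point of a periodic form, statements
-/

namespace Pool.DynLehmer.UN
open MvPolynomial NumberField Pool.DynLehmer Pool.DynLehmer.SB Pool.DynLehmer.SP
  Pool.DynLehmer.GS Pool.DynLehmer.LP Pool.DynLehmer.LW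
open scoped Classical

/-- the forms of `z ^ p + c` -/
noncomputable def uniF {K : Type} [Field K] (p : ℕ) (c : K) : Fin 2 → MvPolynomial (Fin 2) K :=
  ![X 0 ^ p + C c * X 1 ^ p, X 1 ^ p]

/-- Row GENA: the generic point of an irreducible form. -/
def GenaStatement : Prop :=
  ∀ (K : Type) [Field K] [CharZero K] (d₁ d₂ : ℕ) (G : MvPolynomial (Fin 2 ⊕ Fin 2) K),
    1 ≤ d₁ → 1 ≤ d₂ → Irreducible G → BiHom d₁ d₂ G →
    ∃ (L : Type) (_ : Field L) (_ : Algebra K L) (x y : L), IsAlgClosed L ∧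
      Algebra.IsAlgebraic (IntermediateField.adjoin K {x}) L ∧ Transcendental K x ∧
      Transcendental K y ∧ ∀ (d₁ d₂ : ℕ) (H : MvPolynomial (Fin 2 ⊕ Fin 2) K), BiHom d₁ d₂ H →
        (GS.ev ![x, 1] ![y, 1] H = 0 ↔ G ∣ H)

/-- Row GENB: the endomorphism. -/
def GenbStatement : Prop :=
  ∀ (K : Type) [Field K] [CharZero K] (p : ℕ) (c : K), 2 ≤ p →
    ∀ (e : ℕ) (G : MvPolynomial (Fin 2 ⊕ Fin 2) K), PerForm (uniF p c) e G →
    ∀ (L : Type) [Field L] [Algebra K L] [IsAlgClosed L] (x y : L),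
      Algebra.IsAlgebraic (IntermediateField.adjoin K {x}) L → Transcendental K x →
      Transcendental K y →
      (∀ (d₁ d₂ : ℕ) (H : MvPolynomial (Fin 2 ⊕ Fin 2) K), BiHom d₁ d₂ H →
        (GS.ev ![x, 1] ![y, 1] H = 0 ↔ G ∣ H)) →
    ∃ (φ : L →ₐ[K] L) (m : ℕ), 1 ≤ m ∧
      φ x = (fun z => z ^ p + algebraMap K L c)^[m] x ∧
      φ y = (fun z => z ^ p + algebraMap K L c)^[m] y

/-- Row GEN (from GENA, GENB): the generic point of a periodic form. -/
def GenStatement : Prop :=
  ∀ (K : Type) [Field K] [CharZero K] (p : ℕ) (c : K), 2 ≤ p →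
    ∀ (e : ℕ) (G : MvPolynomial (Fin 2 ⊕ Fin 2) K), PerForm (uniF p c) e G →
    ∃ (L : Type) (_ : Field L) (_ : Algebra K L) (_ : IsAlgClosed L) (φ : L →ₐ[K] L) (m : ℕ)
      (x y : L), 1 ≤ m ∧ Transcendental K x ∧ Transcendental K y ∧
      ¬ AlgebraicIndependent K ![x, y] ∧
      φ x = (fun z => z ^ p + algebraMap K L c)^[m] x ∧
      φ y = (fun z => z ^ p + algebraMap K L c)^[m] y ∧
      ∀ (d₁ d₂ : ℕ) (H : MvPolynomial (Fin 2 ⊕ Fin 2) K), BiHom d₁ d₂ H →
        (GS.ev ![x, 1] ![y, 1] H = 0 ↔ G ∣ H)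

end Pool.DynLehmer.UN

/-! # Row GENA: the generic point of an irreducible form in two pairs of variables -/

namespace Pool.DynLehmer.UN
open MvPolynomial Pool.DynLehmer Pool.DynLehmer.GS
open scoped Classical

namespace Gena69

variable {K : Type} [Field K]

theorem bi_unique {a b c d : ℕ} {G : MvPolynomial (Fin 2 ⊕ Fin 2) K} (hG : BiHom a b G)
    (hG' : BiHom c d G) (h0 : G ≠ 0) : a = c ∧ b = d := by
  obtain ⟨t, ht⟩ : G.support.Nonempty := by
    rw [Finset.nonempty_iff_ne_empty]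
    intro h
    exact h0 (support_eq_empty.1 h)
  have h1 := hG t ht
  have h2 := hG' t ht
  exact ⟨h1.1.symm.trans h2.1, h1.2.symm.trans h2.2⟩

theorem le_of_dvd {a b c d : ℕ} {G H : MvPolynomial (Fin 2 ⊕ Fin 2) K} (hG : BiHom a b G)
    (hH : BiHom c d H) (h0 : H ≠ 0) (h : G ∣ H) : a ≤ c ∧ b ≤ d := by
  obtain ⟨c', d', h1, h2, h3⟩ := BiHom.of_dvd hH h0 h
  have hG0 : G ≠ 0 := fun hz => h0 (zero_dvd_iff.1 (hz ▸ h))
  obtain ⟨h4, h5⟩ := bi_unique hG h3 hG0
  omega

/-- values under homomorphisms -/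
theorem ev_hom {N N' : Type} [Field N] [Algebra K N] [Field N'] [Algebra K N'] (φ : N →ₐ[K] N')
    (P P' : Fin 2 → N) (H : MvPolynomial (Fin 2 ⊕ Fin 2) K) :
    φ (GS.ev P P' H) = GS.ev (fun i => φ (P i)) (fun i => φ (P' i)) H := by
  unfold GS.ev
  have h : φ.comp (aeval (Sum.elim P P')) =
      aeval (Sum.elim (fun i => φ (P i)) (fun i => φ (P' i))) := by
    refine MvPolynomial.algHom_ext fun i => ?_
    rw [aeval_X]
    rcases i with i | i
    · show φ (aeval (Sum.elim P P') (X (Sum.inl i))) = _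
      rw [aeval_X]; rfl
    · show φ (aeval (Sum.elim P P') (X (Sum.inr i))) = _
      rw [aeval_X]; rfl
  exact DFunLike.congr_fun h H

theorem ev_vec {N N' : Type} [Field N] [Algebra K N] [Field N'] [Algebra K N'] (φ : N →ₐ[K] N')
    (x y : N) (H : MvPolynomial (Fin 2 ⊕ Fin 2) K) :
    φ (GS.ev ![x, 1] ![y, 1] H) = GS.ev ![φ x, 1] ![φ y, 1] H := by
  rw [ev_hom]
  congr 1
  · funext i; fin_cases i
    · rfl
    · exact map_one φ
  · funext i; fin_cases i
    · rfl
    · exact map_one φ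

theorem ev_inl {N : Type} [Field N] [Algebra K N] (P P' : Fin 2 → N) (F : MvPolynomial (Fin 2) K) :
    GS.ev P P' (rename Sum.inl F) = aeval P F := by
  unfold GS.ev
  rw [aeval_rename]
  rfl

theorem ev_inr {N : Type} [Field N] [Algebra K N] (P P' : Fin 2 → N) (F : MvPolynomial (Fin 2) K) :
    GS.ev P P' (rename Sum.inr F) = aeval P' F := by
  unfold GS.ev
  rw [aeval_rename]
  rfl

theorem bihom_rinl {n : ℕ} {F : MvPolynomial (Fin 2) K} (hF : F.IsHomogeneous n) :
    BiHom n 0 (rename Sum.inl F : MvPolynomial (Fin 2 ⊕ Fin 2) K) := by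
  intro t ht
  obtain ⟨s, rfl, hs⟩ := coeff_rename_ne_zero _ _ _ (mem_support_iff.1 ht)
  have h1 := hF hs
  rw [Finsupp.weight_apply, Finsupp.sum_fintype _ _ (by simp), Fin.sum_univ_two] at h1
  simp only [Pi.one_apply, smul_eq_mul, mul_one] at h1
  refine ⟨?_, ?_⟩
  · rw [Finsupp.mapDomain_apply Sum.inl_injective, Finsupp.mapDomain_apply Sum.inl_injective]
    exact h1
  · rw [Finsupp.mapDomain_of_notMem_range _ _ (by simp),
      Finsupp.mapDomain_of_notMem_range _ _ (by simp), add_zero]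

theorem bihom_rinr {n : ℕ} {F : MvPolynomial (Fin 2) K} (hF : F.IsHomogeneous n) :
    BiHom 0 n (rename Sum.inr F : MvPolynomial (Fin 2 ⊕ Fin 2) K) := by
  intro t ht
  obtain ⟨s, rfl, hs⟩ := coeff_rename_ne_zero _ _ _ (mem_support_iff.1 ht)
  have h1 := hF hs
  rw [Finsupp.weight_apply, Finsupp.sum_fintype _ _ (by simp), Fin.sum_univ_two] at h1
  simp only [Pi.one_apply, smul_eq_mul, mul_one] at h1
  refine ⟨?_, ?_⟩
  · rw [Finsupp.mapDomain_of_notMem_range _ _ (by simp),
      Finsupp.mapDomain_of_notMem_range _ _ (by simp), add_zero]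
  · rw [Finsupp.mapDomain_apply Sum.inr_injective, Finsupp.mapDomain_apply Sum.inr_injective]
    exact h1

/-- The generic point, first form: `M` is the field of rational functions of the curve. -/
theorem exists_point {d₁ d₂ : ℕ} {G : MvPolynomial (Fin 2 ⊕ Fin 2) K} (h1 : 1 ≤ d₁) (h2 : 1 ≤ d₂)
    (hG : Irreducible G) (hb : BiHom d₁ d₂ G) :
    ∃ (M : Type) (_ : Field M) (_ : Algebra K M) (x y : M),
      ∀ (e₁ e₂ : ℕ) (H : MvPolynomial (Fin 2 ⊕ Fin 2) K), BiHom e₁ e₂ H →
        (GS.ev ![x, 1] ![y, 1] H = 0 ↔ G ∣ H) := by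
  have hp : Prime G := hG.prime
  have hI : (Ideal.span {G} : Ideal (MvPolynomial (Fin 2 ⊕ Fin 2) K)).IsPrime :=
    (Ideal.span_singleton_prime hG.ne_zero).2 hp
  set B := MvPolynomial (Fin 2 ⊕ Fin 2) K ⧸ (Ideal.span {G}) with hB
  have : IsDomain B := Ideal.Quotient.isDomain _
  set π : MvPolynomial (Fin 2 ⊕ Fin 2) K →ₐ[K] FractionRing B :=
    (IsScalarTower.toAlgHom K B (FractionRing B)).comp (Ideal.Quotient.mkₐ K (Ideal.span {G}))
    with hπ
  have hker : ∀ H, π H = 0 ↔ G ∣ H := by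
    intro H
    show algebraMap B (FractionRing B) (Ideal.Quotient.mk (Ideal.span {G}) H) = 0 ↔ _
    rw [map_eq_zero_iff _ (IsFractionRing.injective B (FractionRing B)),
      Ideal.Quotient.eq_zero_iff_mem, Ideal.mem_span_singleton]
  have ha : π (X (Sum.inl 1)) ≠ 0 := by
    intro h
    have h3 := le_of_dvd hb (bihom_inl (K := K) 1) (X_ne_zero _) ((hker _).1 h)
    omega
  have hb' : π (X (Sum.inr 1)) ≠ 0 := by
    intro h
    have h3 := le_of_dvd hb (bihom_inr (K := K) 1) (X_ne_zero _) ((hker _).1 h)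
    omega
  refine ⟨FractionRing B, inferInstance, inferInstance, π (X (Sum.inl 0)) / π (X (Sum.inl 1)),
    π (X (Sum.inr 0)) / π (X (Sum.inr 1)), fun e₁ e₂ H hH => ?_⟩
  rw [← hker H]
  have h3 : π H = GS.ev (π (X (Sum.inl 1)) • ![π (X (Sum.inl 0)) / π (X (Sum.inl 1)), 1])
      (π (X (Sum.inr 1)) • ![π (X (Sum.inr 0)) / π (X (Sum.inr 1)), 1]) H := by
    unfold GS.ev
    have h4 : π = aeval (Sum.elim (π (X (Sum.inl 1)) • ![π (X (Sum.inl 0)) / π (X (Sum.inl 1)), 1])
        (π (X (Sum.inr 1)) • ![π (X (Sum.inr 0)) / π (X (Sum.inr 1)), 1])) := by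
      refine MvPolynomial.algHom_ext fun i => ?_
      rw [aeval_X]
      rcases i with i | i
      · fin_cases i
        · show _ = π (X (Sum.inl 1)) * (π (X (Sum.inl 0)) / π (X (Sum.inl 1)))
          rw [mul_div_cancel₀ _ ha]
          rfl
        · show _ = π (X (Sum.inl 1)) * 1
          rw [mul_one]
          rfl
      · fin_cases i
        · show _ = π (X (Sum.inr 1)) * (π (X (Sum.inr 0)) / π (X (Sum.inr 1)))
          rw [mul_div_cancel₀ _ hb']
          rfl
        · show _ = π (X (Sum.inr 1)) * 1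
          rw [mul_one]
          rfl
    exact DFunLike.congr_fun h4 H
  rw [h3, Bas.ev_smul hH, mul_eq_zero, or_iff_right]
  exact mul_ne_zero (pow_ne_zero _ ha) (pow_ne_zero _ hb')

theorem trans_inl {d₁ d₂ : ℕ} {G : MvPolynomial (Fin 2 ⊕ Fin 2) K} (h2 : 1 ≤ d₂)
    (hb : BiHom d₁ d₂ G) {M : Type} [Field M] [Algebra K M] {x y : M}
    (h : ∀ (e₁ e₂ : ℕ) (H : MvPolynomial (Fin 2 ⊕ Fin 2) K), BiHom e₁ e₂ H →
        (GS.ev ![x, 1] ![y, 1] H = 0 ↔ G ∣ H)) {n : ℕ} {F : MvPolynomial (Fin 2) K}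
    (hF : F.IsHomogeneous n) (h0 : aeval ![x, 1] F = 0) : F = 0 := by
  by_contra hne
  have h3 : rename Sum.inl F ≠ (0 : MvPolynomial (Fin 2 ⊕ Fin 2) K) := by
    intro hz
    exact hne (rename_injective _ Sum.inl_injective (hz.trans (map_zero _).symm))
  rw [← ev_inl ![x, 1] ![y, 1] F, h n 0 _ (bihom_rinl hF)] at h0
  have := le_of_dvd hb (bihom_rinl hF) h3 h0
  omega

theorem trans_inr {d₁ d₂ : ℕ} {G : MvPolynomial (Fin 2 ⊕ Fin 2) K} (h1 : 1 ≤ d₁)
    (hb : BiHom d₁ d₂ G) {M : Type} [Field M] [Algebra K M] {x y : M}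
    (h : ∀ (e₁ e₂ : ℕ) (H : MvPolynomial (Fin 2 ⊕ Fin 2) K), BiHom e₁ e₂ H →
        (GS.ev ![x, 1] ![y, 1] H = 0 ↔ G ∣ H)) {n : ℕ} {F : MvPolynomial (Fin 2) K}
    (hF : F.IsHomogeneous n) (h0 : aeval ![y, 1] F = 0) : F = 0 := by
  by_contra hne
  have h3 : rename Sum.inr F ≠ (0 : MvPolynomial (Fin 2 ⊕ Fin 2) K) := by
    intro hz
    exact hne (rename_injective _ Sum.inr_injective (hz.trans (map_zero _).symm))
  rw [← ev_inr ![x, 1] ![y, 1] F, h 0 n _ (bihom_rinr hF)] at h0
  have := le_of_dvd hb (bihom_rinr hF) h3 h0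
  omega

theorem aeval_hom {M : Type} [Field M] [Algebra K M] (x : M) (f : Polynomial K) :
    aeval ![x, 1] (f.homogenize f.natDegree) = Polynomial.aeval x f := by
  rw [Polynomial.aeval_homogenize_of_eq_one le_rfl]
  · rfl
  · rfl

theorem transcendental_of {M : Type} [Field M] [Algebra K M] {x : M}
    (h : ∀ (n : ℕ) (F : MvPolynomial (Fin 2) K), F.IsHomogeneous n → aeval ![x, 1] F = 0 → F = 0) :
    Transcendental K x := by
  rintro ⟨f, hf, h0⟩
  rw [← aeval_hom] at h0
  have h1 := h _ _ (Polynomial.isHomogeneous_homogenize f) h0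
  rw [Polynomial.homogenize_eq_zero_iff le_rfl] at h1
  exact hf h1

/-- the second coordinate is algebraic over the first one -/
theorem algebraic_of {d₁ d₂ : ℕ} {G : MvPolynomial (Fin 2 ⊕ Fin 2) K} (h2 : 1 ≤ d₂)
    (hG : G ≠ 0) (hb : BiHom d₁ d₂ G) {M : Type} [Field M] [Algebra K M] {x y : M}
    (h : ∀ (e₁ e₂ : ℕ) (H : MvPolynomial (Fin 2 ⊕ Fin 2) K), BiHom e₁ e₂ H →
        (GS.ev ![x, 1] ![y, 1] H = 0 ↔ G ∣ H)) :
    IsAlgebraic (IntermediateField.adjoin K {x}) y := by
  set E := IntermediateField.adjoin K {x} with hE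
  set x' : E := ⟨x, IntermediateField.mem_adjoin_simple_self K x⟩ with hx'
  have hcomp : (algebraMap E M).comp (Bez.phi (K := K) ![x', 1]) = Bez.phi ![x, 1] := by
    have h3 : (IsScalarTower.toAlgHom K E M).comp (aeval ![x', 1]) =
        (aeval ![x, 1] : MvPolynomial (Fin 2) K →ₐ[K] M) := by
      refine MvPolynomial.algHom_ext fun i => ?_
      rw [aeval_X]
      show algebraMap E M (aeval ![x', 1] (X i)) = _
      rw [aeval_X]
      fin_cases i
      · rfl
      · exact map_one _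
    exact congrArg (fun φ : MvPolynomial (Fin 2) K →ₐ[K] M => (φ : MvPolynomial (Fin 2) K →+* M)) h3
  have h0 : GS.ev ![x, 1] ![y, 1] G = 0 := (h d₁ d₂ G hb).2 dvd_rfl
  have hne1 : (![y, 1] : Fin 2 → M) 1 ≠ 0 := one_ne_zero
  rw [Bez.ev_fin hb _ _ hne1] at h0
  have h4 : (![y, 1] : Fin 2 → M) 1 = 1 := rfl
  have h5 : (![y, 1] : Fin 2 → M) 0 = y := rfl
  rw [h4, h5, one_pow, one_mul, div_one] at h0
  refine ⟨(Bez.dh G).map (Bez.phi ![x', 1]), ?_, ?_⟩
  · intro hz
    have h6 : (Bez.dh G).map (Bez.phi ![x, 1] : Bez.A K →+* M) = 0 := by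
      rw [← hcomp, ← Polynomial.map_map, hz, Polynomial.map_zero]
    have h7 : Bez.dh G = 0 := by
      ext1 l
      rw [Polynomial.coeff_zero]
      refine trans_inl h2 hb h (Bez.hom_coeff hb l) ?_
      have h8 := congrArg (fun f => Polynomial.coeff f l) h6
      simp only [Polynomial.coeff_map, Polynomial.coeff_zero] at h8
      exact h8
    have h9 := Bez.homog_dh hb
    rw [h7, Polynomial.homogenize_zero] at h9
    exact hG ((map_eq_zero_iff _ Bez.e.injective).1 h9.symm)
  · rw [← Polynomial.eval_map_algebraMap, Polynomial.map_map]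
    rw [hcomp]
    exact h0

/-- Row GENA. -/
theorem gena (d₁ d₂ : ℕ) (G : MvPolynomial (Fin 2 ⊕ Fin 2) K) (h1 : 1 ≤ d₁) (h2 : 1 ≤ d₂)
    (hG : Irreducible G) (hb : BiHom d₁ d₂ G) :
    ∃ (L : Type) (_ : Field L) (_ : Algebra K L) (x y : L), IsAlgClosed L ∧
      Algebra.IsAlgebraic (IntermediateField.adjoin K {x}) L ∧ Transcendental K x ∧
      Transcendental K y ∧ ∀ (d₁ d₂ : ℕ) (H : MvPolynomial (Fin 2 ⊕ Fin 2) K), BiHom d₁ d₂ H →
        (GS.ev ![x, 1] ![y, 1] H = 0 ↔ G ∣ H) := by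
  obtain ⟨M, _, _, x, y, h⟩ := exists_point h1 h2 hG hb
  have hx : Transcendental K x := transcendental_of fun n F hF h0 => trans_inl h2 hb h hF h0
  have hy : Transcendental K y := transcendental_of fun n F hF h0 => trans_inr h1 hb h hF h0
  have hxy := algebraic_of h2 hG.ne_zero hb h
  set E := IntermediateField.adjoin K {x} with hE
  set x' : E := ⟨x, IntermediateField.mem_adjoin_simple_self K x⟩ with hx'
  let F' : IntermediateField E M := algebraicClosure E M
  have hyF : y ∈ F' := mem_algebraicClosure_iff.2 hxy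
  let j : F' →ₐ[E] AlgebraicClosure E := IsAlgClosed.lift
  let jK : F' →ₐ[K] AlgebraicClosure E := j.restrictScalars K
  have hjK : ∀ z, jK z = j z := fun z => rfl
  let vK : F' →ₐ[K] M := F'.val.restrictScalars K
  have hjx : jK (algebraMap E F' x') = algebraMap E (AlgebraicClosure E) x' := j.commutes x'
  have hev : ∀ H : MvPolynomial (Fin 2 ⊕ Fin 2) K,
      (GS.ev ![algebraMap E (AlgebraicClosure E) x', 1] ![jK ⟨y, hyF⟩, 1] H = 0 ↔
        GS.ev ![x, 1] ![y, 1] H = 0) := by
    intro H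
    have h3 := map_eq_zero_iff jK (RingHom.injective (jK : F' →+* AlgebraicClosure E))
      (x := GS.ev ![algebraMap E F' x', 1] ![⟨y, hyF⟩, 1] H)
    have h4 := map_eq_zero_iff vK (RingHom.injective (vK : F' →+* M))
      (x := GS.ev ![algebraMap E F' x', 1] ![⟨y, hyF⟩, 1] H)
    rw [ev_vec jK, hjx] at h3
    rw [ev_vec vK] at h4
    rw [h3, ← h4]
    rfl
  refine ⟨AlgebraicClosure E, inferInstance, inferInstance, algebraMap E (AlgebraicClosure E) x',
    jK ⟨y, hyF⟩, inferInstance, ?_, ?_, ?_, fun e₁ e₂ H hH => ?_⟩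
  · -- algebraic over the field generated by the image of `x`
    set xL := algebraMap E (AlgebraicClosure E) x' with hxL
    set E1 := IntermediateField.adjoin K {xL} with hE1
    have hmem : ∀ e : E, algebraMap E (AlgebraicClosure E) e ∈ E1 := by
      have h3 : ∀ (z : M) (hz : z ∈ E), algebraMap E (AlgebraicClosure E) ⟨z, hz⟩ ∈ E1 := by
        intro z hz
        refine IntermediateField.adjoin_induction (F := K) (s := {x})
          (p := fun z hz => algebraMap E (AlgebraicClosure E) ⟨z, hz⟩ ∈ E1) ?_ ?_ ?_ ?_ ?_ hz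
        · intro w hw
          obtain rfl : w = x := hw
          exact IntermediateField.mem_adjoin_simple_self K xL
        · intro a
          have h4 : algebraMap E (AlgebraicClosure E)
              ⟨algebraMap K M a, (IntermediateField.adjoin K {x}).algebraMap_mem a⟩ =
              algebraMap K (AlgebraicClosure E) a := by
            rw [IsScalarTower.algebraMap_apply K E (AlgebraicClosure E)]
            rfl
          rw [h4]
          exact E1.algebraMap_mem a
        · intro a b ha hb ha' hb'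
          have h4 : (⟨a + b, add_mem ha hb⟩ : E) = ⟨a, ha⟩ + ⟨b, hb⟩ := rfl
          rw [h4, map_add]
          exact add_mem ha' hb'
        · intro a ha ha'
          have h4 : (⟨a⁻¹, inv_mem ha⟩ : E) = (⟨a, ha⟩ : E)⁻¹ := rfl
          rw [h4, map_inv₀]
          exact inv_mem ha'
        · intro a b ha hb ha' hb'
          have h4 : (⟨a * b, mul_mem ha hb⟩ : E) = ⟨a, ha⟩ * ⟨b, hb⟩ := rfl
          rw [h4, map_mul]
          exact mul_mem ha' hb'
      exact fun e => h3 e.1 e.2
    let ψ : E →+* E1 := RingHom.codRestrict (algebraMap E (AlgebraicClosure E)) E1.toSubring hmem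
    have hψ : (algebraMap E1 (AlgebraicClosure E)).comp ψ = algebraMap E (AlgebraicClosure E) := by
      ext e
      rfl
    refine ⟨fun z => ?_⟩
    obtain ⟨f, hf, h0⟩ := Algebra.IsAlgebraic.isAlgebraic (R := E) z
    refine ⟨f.map ψ, ?_, ?_⟩
    · rw [Ne, Polynomial.map_eq_zero_iff ψ.injective]
      exact hf
    · rw [← Polynomial.eval_map_algebraMap, Polynomial.map_map, hψ, Polynomial.eval_map_algebraMap]
      exact h0
  · rw [← hjx]
    intro hc
    rw [isAlgebraic_algHom_iff jK (RingHom.injective (jK : F' →+* AlgebraicClosure E)), ← isAlgebraic_algHom_iff vK (RingHom.injective (vK : F' →+* M))] at hc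
    exact hx hc
  · intro hc
    rw [isAlgebraic_algHom_iff jK (RingHom.injective (jK : F' →+* AlgebraicClosure E)), ← isAlgebraic_algHom_iff vK (RingHom.injective (vK : F' →+* M))] at hc
    exact hy hc
  · rw [hev H]
    exact h e₁ e₂ H hH

end Gena69

end Pool.DynLehmer.UN

/-!
# The endomorphism of the generic point of a periodic form (row GENB)
-/

namespace Pool.DynLehmer.UN
open Pool.DynLehmer Pool.DynLehmer.GS
open scoped Classical
open scoped IntermediateField.algebraAdjoinAdjoin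

namespace Gb

/-- Extension of a homomorphism of fields to an algebraic extension, with a given value. -/
theorem lift {E L₁ L₂ : Type} [Field E] [Field L₁] [Field L₂] [IsAlgClosed L₂] (i₁ : E →+* L₁)
    (i₂ : E →+* L₂) (halg : @Algebra.IsAlgebraic E L₁ _ _ i₁.toAlgebra) (y : L₁) (y' : L₂)
    (h : ∀ f : Polynomial E, f.eval₂ i₁ y = 0 → f.eval₂ i₂ y' = 0) :
    ∃ φ : L₁ →+* L₂, (∀ e, φ (i₁ e) = i₂ e) ∧ φ y = y' := by
  let _ := i₁.toAlgebra
  let _ := i₂.toAlgebra
  have h1 : Polynomial.aeval y' (minpoly E y) = 0 := h _ (minpoly.aeval E y)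
  obtain ⟨φ, hφ⟩ := IntermediateField.exists_algHom_of_splits_of_aeval (F := E) (E := L₁)
    (K := L₂) (fun s => ⟨(Algebra.IsAlgebraic.isAlgebraic s).isIntegral, IsAlgClosed.splits _⟩) h1
  exact ⟨φ.toRingHom, fun e => φ.commutes e, hφ⟩

section
variable {K : Type} [Field K] {L : Type} [Field L] [Algebra K L]

/-- the embedding of the rational functions -/
noncomputable def io {z : L} (hz : Transcendental K z) : RatFunc K →ₐ[K] L :=
  IsFractionRing.liftAlgHom (K := RatFunc K) (g := (Polynomial.aeval z : Polynomial K →ₐ[K] L))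
    (transcendental_iff_injective.1 hz)

theorem io_map {z : L} (hz : Transcendental K z) (f : Polynomial K) :
    io hz (algebraMap (Polynomial K) (RatFunc K) f) = Polynomial.aeval z f := by
  rw [io, IsFractionRing.liftAlgHom_apply, IsFractionRing.lift_algebraMap]
  rfl

theorem io_X {z : L} (hz : Transcendental K z) : io hz RatFunc.X = z := by
  rw [← RatFunc.algebraMap_X, io_map, Polynomial.aeval_X]

theorem io_alg {z : L} (hz : Transcendental K z)
    (halg : Algebra.IsAlgebraic (IntermediateField.adjoin K {z}) L) :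
    @Algebra.IsAlgebraic (RatFunc K) L _ _ (io hz).toRingHom.toAlgebra := by
  let _ := (io hz).toRingHom.toAlgebra
  have hle : IntermediateField.adjoin K {z} ≤ (io hz).fieldRange := by
    rw [IntermediateField.adjoin_le_iff, Set.singleton_subset_iff]
    exact ⟨RatFunc.X, io_X hz⟩
  have hmem : ∀ f : Polynomial K, Polynomial.aeval z f ∈ IntermediateField.adjoin K {z} :=
    fun f => IntermediateField.algebra_adjoin_le_adjoin K {z}
      (Polynomial.aeval_mem_adjoin_singleton K z)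
  have hge : (io hz).fieldRange ≤ IntermediateField.adjoin K {z} := by
    rintro _ ⟨e, rfl⟩
    show io hz e ∈ IntermediateField.adjoin K {z}
    rw [← RatFunc.num_div_denom e, map_div₀, io_map, io_map]
    exact div_mem (hmem _) (hmem _)
  refine ⟨fun w => ?_⟩
  obtain ⟨f, hf, hfw⟩ := halg.isAlgebraic w
  -- the coefficients are in the range
  let ρ : RatFunc K →+* (IntermediateField.adjoin K {z}) :=
    (io hz).toRingHom.codRestrict _ fun e => hge ⟨e, rfl⟩
  have hρ : Function.Surjective ρ := by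
    rintro ⟨u, hu⟩
    obtain ⟨e, he⟩ := hle hu
    exact ⟨e, Subtype.ext he⟩
  obtain ⟨g, hg⟩ := Polynomial.map_surjective ρ hρ f
  refine ⟨g, ?_, ?_⟩
  · rintro rfl
    rw [Polynomial.map_zero] at hg
    exact hf hg.symm
  · rw [← hfw, ← hg]
    show Polynomial.eval₂ (io hz).toRingHom w g =
      Polynomial.eval₂ (algebraMap (IntermediateField.adjoin K {z}) L) w (g.map ρ)
    rw [Polynomial.eval₂_map]
    rfl

/-- Every polynomial in two variables is a biform at the points `(u, 1)`, `(w, 1)`. -/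
theorem homog (h : Polynomial (Polynomial K)) : ∃ (d₁ d₂ : ℕ)
    (H : MvPolynomial (Fin 2 ⊕ Fin 2) K), BiHom d₁ d₂ H ∧
    ∀ u w : L, GS.ev ![u, 1] ![w, 1] H =
      h.eval₂ (Polynomial.aeval u : Polynomial K →ₐ[K] L).toRingHom w := by
  set d₂ := h.natDegree with hd₂
  set d₁ := (Finset.range (d₂ + 1)).sup fun j => (h.coeff j).natDegree with hd₁
  refine ⟨d₁, d₂, ∑ j ∈ Finset.range (d₂ + 1), ∑ i ∈ Finset.range (d₁ + 1),
    MvPolynomial.C ((h.coeff j).coeff i) * ((MvPolynomial.X (Sum.inl 0) ^ i *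
      MvPolynomial.X (Sum.inl 1) ^ (d₁ - i)) * (MvPolynomial.X (Sum.inr 0) ^ j *
      MvPolynomial.X (Sum.inr 1) ^ (d₂ - j))), ?_, ?_⟩
  · refine BiHom.sum _ fun j hj => BiHom.sum _ fun i hi => BiHom.C_mul ?_ _
    rw [Finset.mem_range] at hi hj
    have h1 := ((bihom_inl (K := K) 0).pow i).mul ((bihom_inl (K := K) 1).pow (d₁ - i))
    have h2 := ((bihom_inr (K := K) 0).pow j).mul ((bihom_inr (K := K) 1).pow (d₂ - j))
    have h3 := h1.mul h2
    have e1 : i * 1 + (d₁ - i) * 1 + (j * 0 + (d₂ - j) * 0) = d₁ := by omega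
    have e2 : i * 0 + (d₁ - i) * 0 + (j * 1 + (d₂ - j) * 1) = d₂ := by omega
    rw [e1, e2] at h3
    exact h3
  · intro u w
    rw [GS.ev, map_sum, Polynomial.eval₂_eq_sum_range]
    refine Finset.sum_congr rfl fun j hj => ?_
    have hlt : (h.coeff j).natDegree < d₁ + 1 :=
      Nat.lt_succ_of_le (Finset.le_sup (f := fun j => (h.coeff j).natDegree) hj)
    show _ = Polynomial.aeval u (h.coeff j) * w ^ j
    rw [Polynomial.aeval_eq_sum_range' hlt, map_sum, Finset.sum_mul]
    refine Finset.sum_congr rfl fun i _ => ?_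
    rw [map_mul, map_mul, map_mul, map_mul, map_pow, map_pow, map_pow, map_pow,
      MvPolynomial.aeval_X, MvPolynomial.aeval_X, MvPolynomial.aeval_X, MvPolynomial.aeval_X,
      MvPolynomial.algHom_C, Algebra.smul_def]
    show algebraMap K L ((h.coeff j).coeff i) * (u ^ i * 1 ^ (d₁ - i) * (w ^ j * 1 ^ (d₂ - j))) = _
    rw [one_pow, one_pow, mul_one, mul_one, mul_assoc]

/-- The endomorphism which maps `x` to `x'` and `y` to `y'`. -/
theorem endo [IsAlgClosed L] {x y x' y' : L}
    (halg : Algebra.IsAlgebraic (IntermediateField.adjoin K {x}) L) (hx : Transcendental K x)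
    (hx' : Transcendental K x') (hrel : ∀ h : Polynomial (Polynomial K),
      h.eval₂ (Polynomial.aeval x : Polynomial K →ₐ[K] L).toRingHom y = 0 →
      h.eval₂ (Polynomial.aeval x' : Polynomial K →ₐ[K] L).toRingHom y' = 0) :
    ∃ φ : L →ₐ[K] L, φ x = x' ∧ φ y = y' := by
  have key : ∀ f : Polynomial (RatFunc K), f.eval₂ (io hx).toRingHom y = 0 →
      f.eval₂ (io hx').toRingHom y' = 0 := by
    intro f hf
    obtain ⟨b, hb, hbf⟩ := IsLocalization.integerNormalization_spec
      (nonZeroDivisors (Polynomial K)) f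
    set h := IsLocalization.integerNormalization (nonZeroDivisors (Polynomial K)) f with hh
    have e1 : ∀ (z : L) (hz : Transcendental K z) (w : L),
        h.eval₂ (Polynomial.aeval z : Polynomial K →ₐ[K] L).toRingHom w =
          Polynomial.aeval z b * f.eval₂ (io hz).toRingHom w := by
      intro z hz w
      have e2 : (Polynomial.aeval z : Polynomial K →ₐ[K] L).toRingHom =
          (io hz).toRingHom.comp (algebraMap (Polynomial K) (RatFunc K)) := by
        ext g
        · exact (io_map hz (Polynomial.C g)).symm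
        · exact (io_map hz Polynomial.X).symm
      rw [e2, ← Polynomial.eval₂_map, hbf, Algebra.smul_def, Polynomial.eval₂_mul]
      congr 1
      show Polynomial.eval₂ (io hz).toRingHom w (Polynomial.C (algebraMap _ (RatFunc K) b)) = _
      rw [Polynomial.eval₂_C]
      exact io_map hz b
    have h1 := hrel h (by rw [e1 x hx, hf, mul_zero])
    rw [e1 x' hx'] at h1
    rcases mul_eq_zero.1 h1 with h2 | h2
    · exfalso
      exact nonZeroDivisors.ne_zero hb
        ((injective_iff_map_eq_zero _).1 (transcendental_iff_injective.1 hx') b h2)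
    · exact h2
  obtain ⟨φ, hφ, hφy⟩ := lift (io hx).toRingHom (io hx').toRingHom (io_alg hx halg) y y' key
  refine ⟨{ φ with commutes' := fun r => ?_ }, ?_, hφy⟩
  · have h1 := hφ (algebraMap K (RatFunc K) r)
    have h2 : (io hx).toRingHom (algebraMap K (RatFunc K) r) = algebraMap K L r :=
      (io hx).commutes r
    have h3 : (io hx').toRingHom (algebraMap K (RatFunc K) r) = algebraMap K L r :=
      (io hx').commutes r
    rw [h2, h3] at h1
    exact h1
  · have h1 := hφ RatFunc.X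
    have h2 : (io hx).toRingHom RatFunc.X = x := io_X hx
    have h3 : (io hx').toRingHom RatFunc.X = x' := io_X hx'
    rw [h2, h3] at h1
    exact h1

theorem trans_it {p : ℕ} (hp : 2 ≤ p) (c : K) {z : L} (hz : Transcendental K z) (k : ℕ) :
    Transcendental K ((fun z => z ^ p + algebraMap K L c)^[k] z) := by
  induction k with
  | zero => exact hz
  | succ k ih =>
    rw [Function.iterate_succ_apply']
    intro h
    refine ih (IsAlgebraic.of_pow (n := p) (by omega) ?_)
    have h1 := h.sub (isAlgebraic_algebraMap (A := L) c)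
    simpa using h1

theorem act_it {p : ℕ} (c : K) (z : L) (k : ℕ) :
    (gAct (uniF p c) L)^[k] ![z, 1] = ![(fun z => z ^ p + algebraMap K L c)^[k] z, 1] := by
  induction k with
  | zero => rfl
  | succ k ih =>
    rw [Function.iterate_succ_apply', ih, Function.iterate_succ_apply']
    funext i
    fin_cases i
    · show MvPolynomial.aeval _ (MvPolynomial.X 0 ^ p + MvPolynomial.C c * MvPolynomial.X 1 ^ p) = _
      rw [map_add, map_mul, map_pow, map_pow, MvPolynomial.aeval_X, MvPolynomial.aeval_X,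
        MvPolynomial.algHom_C]
      show _ ^ p + algebraMap K L c * 1 ^ p = _
      rw [one_pow, mul_one]
      rfl
    · show MvPolynomial.aeval _ (MvPolynomial.X 1 ^ p) = _
      rw [map_pow, MvPolynomial.aeval_X]
      show (1 : L) ^ p = 1
      exact one_pow p

end

end Gb

open Gb

/-- Row GENB: the endomorphism of the generic point. -/
theorem genb : GenbStatement := by
  intro K _ _ p c hp e G hG L _ _ _ x y halg hx hy hev
  obtain ⟨k, hk, hGk⟩ := hG.per
  obtain ⟨d₁, d₂, -, -, -, -, hGb⟩ := hG.hom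
  have hG0 : GS.ev ![x, 1] ![y, 1] G = 0 := (hev d₁ d₂ G hGb).2 dvd_rfl
  have hG1 : GS.ev ((gAct (uniF p c) L)^[k] ![x, 1]) ((gAct (uniF p c) L)^[k] ![y, 1]) G = 0 := by
    rw [← Bif.ev_it]
    obtain ⟨Q, hQ⟩ := hGk
    rw [hQ, GS.ev, map_mul]
    rw [GS.ev] at hG0
    rw [hG0, zero_mul]
  rw [act_it, act_it] at hG1
  have hrel : ∀ h : Polynomial (Polynomial K),
      h.eval₂ (Polynomial.aeval x : Polynomial K →ₐ[K] L).toRingHom y = 0 →
      h.eval₂ (Polynomial.aeval ((fun z => z ^ p + algebraMap K L c)^[k] x) :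
        Polynomial K →ₐ[K] L).toRingHom ((fun z => z ^ p + algebraMap K L c)^[k] y) = 0 := by
    intro h hh
    obtain ⟨a₁, a₂, H, hH, hH'⟩ := homog (L := L) h
    rw [← hH'] at hh ⊢
    obtain ⟨Q, hQ⟩ := (hev a₁ a₂ H hH).1 hh
    rw [hQ, GS.ev, map_mul]
    rw [GS.ev] at hG1
    rw [hG1, zero_mul]
  obtain ⟨φ, h1, h2⟩ := endo halg hx (trans_it hp c hx k) hrel
  exact ⟨φ, k, hk, h1, h2⟩

end Pool.DynLehmer.UN
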