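import Mathlib

set_option autoImplicit false

/-!
# Periodic pairs of `z ^ p + c`: statements of the rows
-/

namespace Pool.DynLehmer.UN
open Polynomial IntermediateField

/-- `g` is integral over `k[u]` -/
def Itg (k : Type) {L : Type} [Field k] [Field L] [Algebra k L] (u g : L) : Prop :=
  ((aeval u : k[X] →ₐ[k] L) : k[X] →+* L).IsIntegralElem g

/-- Row P3: a field with a derivation which preserves the integral elements is rational. -/
def P3Statement : Prop :=
  ∀ (k L : Type) [Field k] [IsAlgClosed k] [CharZero k] [Field L] [Algebra k L] (u : L)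
    (D : Derivation k L L), Transcendental k u → FiniteDimensional (adjoin k {u}) L → D u = 1 →
    (∀ g, Itg k u g → Itg k u (D g)) → adjoin k {u} = ⊤

/-- Row TOWER (P2 + P3): a tower of Kummer extensions `E j = E (j + 1) (u j)`,
`u (j + 1) = u j ^ p + c`, with an isomorphism of period `M`, is rational. -/
def TowerStatement : Prop :=
  ∀ (k N : Type) [Field k] [IsAlgClosed k] [CharZero k] [Field N] [Algebra k N] (p : ℕ) (c : k)
    (M : ℕ) (φ : N →ₐ[k] N) (E : ℕ → IntermediateField k N) (u : ℕ → N), p.Prime → c ≠ 0 →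
    ¬ (p = 2 ∧ c = -2) → 1 ≤ M → Transcendental k (u 0) →
    FiniteDimensional (adjoin k {u 0}) N → E 0 = ⊤ →
    (∀ j, u (j + 1) = u j ^ p + algebraMap k N c) →
    (∀ j, E j = E (j + 1) ⊔ adjoin k {u j}) → (∀ j, u (j + 1) ∈ E (j + 1)) →
    (∀ j, u j ∉ E (j + 1)) → (∀ j, E (j + M) = (E j).map φ) → (∀ j, u (j + M) = φ (u j)) →
    ∀ j, E j = adjoin k {u j}

/-- PAIR: two transcendental points with a periodic relation. `φ` is given by: all relations
between `x` and `y` hold for `f^M x` and `f^M y`. -/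
def PairStatement : Prop :=
  ∀ (k N : Type) [Field k] [IsAlgClosed k] [CharZero k] [Field N] [Algebra k N] (p : ℕ) (c : k)
    (M : ℕ) (x y : N), p.Prime → c ≠ 0 → ¬ (p = 2 ∧ c = -2) → 1 ≤ M → Transcendental k x →
    Transcendental k y → IsAlgebraic (adjoin k {x}) y →
    (∀ G : MvPolynomial (Fin 2) k, MvPolynomial.aeval ![x, y] G = 0 →
      MvPolynomial.aeval ![(fun z => z ^ p + algebraMap k N c)^[M] x,
        (fun z => z ^ p + algebraMap k N c)^[M] y] G = 0) →
    ∃ l : ℕ, y = (fun z => z ^ p + algebraMap k N c)^[l] x ∨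
      x = (fun z => z ^ p + algebraMap k N c)^[l] y

end Pool.DynLehmer.UN

/-!
# Periodic pairs of `z ^ p + c`: the intermediate statement between TOWER and PAIR
-/

namespace Pool.DynLehmer.UN
open Polynomial IntermediateField

/-- Row PAIRA (from TOWER): some iterate of `y` is a rational function of `x`. -/
def PairaStatement : Prop :=
  ∀ (k N : Type) [Field k] [IsAlgClosed k] [CharZero k] [Field N] [Algebra k N] (p : ℕ) (c : k)
    (M : ℕ) (x y : N), p.Prime → c ≠ 0 → ¬ (p = 2 ∧ c = -2) → 1 ≤ M → Transcendental k x →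
    Transcendental k y → IsAlgebraic (adjoin k {x}) y →
    (∀ G : MvPolynomial (Fin 2) k, MvPolynomial.aeval ![x, y] G = 0 →
      MvPolynomial.aeval ![(fun z => z ^ p + algebraMap k N c)^[M] x,
        (fun z => z ^ p + algebraMap k N c)^[M] y] G = 0) →
    ∃ n : ℕ, (fun z => z ^ p + algebraMap k N c)^[n] y ∈ adjoin k {x}

end Pool.DynLehmer.UN

/-!
# Row P2 of the periodic pairs: splitting over Laurent series
-/

namespace Pool.DynLehmer.UN
open Polynomial IntermediateField

/-- a power series as an element of the algebraic closure of the Laurent series -/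
noncomputable def pus {k : Type} [Field k] (s : PowerSeries k) :
    AlgebraicClosure (LaurentSeries k) :=
  algebraMap (LaurentSeries k) (AlgebraicClosure (LaurentSeries k)) (HahnSeries.ofPowerSeries ℤ k s)

/-- Every embedding of `L` with `u ↦ a + s`, `s` of order `1`, has its image in the Laurent
series. -/
def SpF (k L : Type) [Field k] [Field L] [Algebra k L] (u : L) (a : k) : Prop :=
  ∀ s : PowerSeries k, s.order = 1 → ∀ h : L →+* AlgebraicClosure (LaurentSeries k),
    (∀ b : k, h (algebraMap k L b) = pus (PowerSeries.C b)) → h u = pus (PowerSeries.C a + s) →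
    ∀ z : L, ∃ l : LaurentSeries k, h z = algebraMap _ (AlgebraicClosure (LaurentSeries k)) l

/-- Row P2R: `p`-th roots of power series. -/
def P2rStatement : Prop :=
  ∀ (k : Type) [Field k] [CharZero k] (p : ℕ) (a : k) (s : PowerSeries k), 1 ≤ p → a ≠ 0 →
    s.order = 1 → (∃ r : PowerSeries k, r.order = 1 ∧
      (PowerSeries.C a + r) ^ p = PowerSeries.C (a ^ p) + s) ∧
    ∃ r : PowerSeries k, r.order = 1 ∧ (PowerSeries.C a + s) ^ p = PowerSeries.C (a ^ p) + r

/-- Row P2A (from P2R): one step of the tower. -/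
def P2aStatement : Prop :=
  ∀ (k E' E : Type) [Field k] [IsAlgClosed k] [CharZero k] [Field E'] [Field E] [Algebra k E']
    [Algebra k E] [Algebra E' E] [IsScalarTower k E' E] (q : ℕ) (c : k) (u : E) (u' : E'),
    1 ≤ q → algebraMap E' E u' = u ^ q + algebraMap k E c → adjoin E' {u} = ⊤ →
    (minpoly E' u).natDegree = q →
    ∀ a : k, a ≠ 0 → (SpF k E u a ↔ SpF k E' u' (a ^ q + c))

/-- Row P2H: Hensel for power series: a polynomial whose reduction is separable of the same
degree has all its roots in the power series. -/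
def P2hStatement : Prop :=
  ∀ (k : Type) [Field k] [IsAlgClosed k] (P : (PowerSeries k)[X]),
    (P.map (PowerSeries.constantCoeff (R := k))).natDegree = P.natDegree →
    (P.map (PowerSeries.constantCoeff (R := k))).Separable →
    ∀ z : AlgebraicClosure (LaurentSeries k),
      P.eval₂ ((algebraMap (LaurentSeries k) (AlgebraicClosure (LaurentSeries k))).comp
        (HahnSeries.ofPowerSeries ℤ k)) z = 0 → ∃ s : PowerSeries k, z = pus s

/-- Row P2B (from P2H): almost all points split. -/
def P2bStatement : Prop :=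
  ∀ (k L : Type) [Field k] [IsAlgClosed k] [CharZero k] [Field L] [Algebra k L] (u : L),
    Transcendental k u → FiniteDimensional (adjoin k {u}) L → {a : k | ¬ SpF k L u a}.Finite

/-- Row P2C: counting. -/
def P2cStatement : Prop :=
  ∀ (k : Type) [Field k] [IsAlgClosed k] [CharZero k] (q : ℕ) (c : k) (M : ℕ) (B : ℕ → Set k),
    2 ≤ q → c ≠ 0 → ¬ (q = 2 ∧ c = -2) → 1 ≤ M → (∀ j, (B j).Finite) →
    (∀ j, B (j + M) = B j) → (∀ (j : ℕ) (a : k), a ≠ 0 → (a ∈ B j ↔ a ^ q + c ∈ B (j + 1))) →
    ∀ j, B j = ∅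

/-- Row P2E: the derivation exists. -/
def P2eStatement : Prop :=
  ∀ (k L : Type) [Field k] [CharZero k] [Field L] [Algebra k L] (u : L),
    Transcendental k u → FiniteDimensional (adjoin k {u}) L → ∃ D : Derivation k L L, D u = 1

/-- Row P2D: if all points split, then the derivation preserves the integral elements. -/
def P2dStatement : Prop :=
  ∀ (k L : Type) [Field k] [IsAlgClosed k] [CharZero k] [Field L] [Algebra k L] (u : L)
    (D : Derivation k L L), Transcendental k u → FiniteDimensional (adjoin k {u}) L → D u = 1 →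
    (∀ a : k, SpF k L u a) → ∀ g, Itg k u g → Itg k u (D g)

/-- Row P2M: transport. -/
def P2mStatement : Prop :=
  ∀ (k L L' : Type) [Field k] [Field L] [Algebra k L] [Field L'] [Algebra k L'] (e : L ≃ₐ[k] L')
    (u : L) (a : k), SpF k L u a ↔ SpF k L' (e u) a

/-- Row TOWERQ (from P2A, P2B, P2C, P2E, P2D, P2M, P3): as TOWER, for every degree `q`. -/
def TowerqStatement : Prop :=
  ∀ (k N : Type) [Field k] [IsAlgClosed k] [CharZero k] [Field N] [Algebra k N] (q : ℕ) (c : k)
    (M : ℕ) (φ : N →ₐ[k] N) (E : ℕ → IntermediateField k N) (u : ℕ → N), 2 ≤ q → c ≠ 0 →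
    ¬ (q = 2 ∧ c = -2) → 1 ≤ M → Transcendental k (u 0) →
    FiniteDimensional (adjoin k {u 0}) N → E 0 = ⊤ →
    (∀ j, u (j + 1) = u j ^ q + algebraMap k N c) →
    (∀ j, E j = E (j + 1) ⊔ adjoin k {u j}) → (∀ j, u (j + 1) ∈ E (j + 1)) →
    (∀ j, (minpoly (E (j + 1)) (u j)).natDegree = q) → (∀ j, E (j + M) = (E j).map φ) →
    (∀ j, u (j + M) = φ (u j)) →
    ∀ j, E j = adjoin k {u j}

/-- As `PairStatement`, for every degree `q`. -/
def PairqStatement : Prop :=
  ∀ (k N : Type) [Field k] [IsAlgClosed k] [CharZero k] [Field N] [Algebra k N] (q : ℕ) (c : k)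
    (M : ℕ) (x y : N), 2 ≤ q → c ≠ 0 → ¬ (q = 2 ∧ c = -2) → 1 ≤ M → Transcendental k x →
    Transcendental k y → IsAlgebraic (adjoin k {x}) y →
    (∀ G : MvPolynomial (Fin 2) k, MvPolynomial.aeval ![x, y] G = 0 →
      MvPolynomial.aeval ![(fun z => z ^ q + algebraMap k N c)^[M] x,
        (fun z => z ^ q + algebraMap k N c)^[M] y] G = 0) →
    ∃ l : ℕ, y = (fun z => z ^ q + algebraMap k N c)^[l] x ∨
      x = (fun z => z ^ q + algebraMap k N c)^[l] y

/-- As `PairaStatement` (row P1), for every degree `q`. -/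
def PairaqStatement : Prop :=
  ∀ (k N : Type) [Field k] [IsAlgClosed k] [CharZero k] [Field N] [Algebra k N] (q : ℕ) (c : k)
    (M : ℕ) (x y : N), 2 ≤ q → c ≠ 0 → ¬ (q = 2 ∧ c = -2) → 1 ≤ M → Transcendental k x →
    Transcendental k y → IsAlgebraic (adjoin k {x}) y →
    (∀ G : MvPolynomial (Fin 2) k, MvPolynomial.aeval ![x, y] G = 0 →
      MvPolynomial.aeval ![(fun z => z ^ q + algebraMap k N c)^[M] x,
        (fun z => z ^ q + algebraMap k N c)^[M] y] G = 0) →
    ∃ n : ℕ, (fun z => z ^ q + algebraMap k N c)^[n] y ∈ adjoin k {x}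

end Pool.DynLehmer.UN
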