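import Mathlib
import Pool.Agent.Lib.MP_2194ec_nt.GAL.R.Alg
import Pool.Agent.Lib.MP_2194ec_nt.UN.Props

set_option autoImplicit false

/-!
# The derivation of the field of Hahn series with rational exponents

`dd` is the derivation `d / du`, `u = 1 / t`, of the Hahn series in `t`.
-/

namespace Pool.DynLehmer.UN.P51
open Polynomial

variable {k : Type} [Field k]

/-- The derivation `t d / dt`. -/
noncomputable def ee (f : HahnSeries ℚ k) : HahnSeries ℚ k where
  coeff r := (r : k) * f.coeff r
  isPWO_support' := f.isPWO_support.mono (by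
    intro r hr h0
    apply hr
    show (r : k) * f.coeff r = 0
    rw [h0, mul_zero])

theorem ee_coeff (f : HahnSeries ℚ k) (r : ℚ) : (ee f).coeff r = (r : k) * f.coeff r := rfl

theorem ee_supp (f : HahnSeries ℚ k) : (ee f).support ⊆ f.support := by
  intro r hr h0
  apply hr
  show (r : k) * f.coeff r = 0
  rw [h0, mul_zero]

theorem ee_add (f g : HahnSeries ℚ k) : ee (f + g) = ee f + ee g := by
  ext r
  rw [ee_coeff, HahnSeries.coeff_add, HahnSeries.coeff_add, ee_coeff, ee_coeff, mul_add]

theorem ee_mul [CharZero k] (f g : HahnSeries ℚ k) : ee (f * g) = f * ee g + g * ee f := by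
  ext r
  rw [ee_coeff, HahnSeries.coeff_add, mul_comm g (ee f), HahnSeries.coeff_mul,
    HahnSeries.coeff_mul_right' g.isPWO_support (ee_supp g),
    HahnSeries.coeff_mul_left' f.isPWO_support (ee_supp f), ← Finset.sum_add_distrib,
    Finset.mul_sum]
  refine Finset.sum_congr rfl fun ij hij => ?_
  rw [Finset.mem_antidiagonal] at hij
  rw [ee_coeff, ee_coeff, ← hij.2.2]
  push_cast
  ring

/-- The derivation `d / du`, `u = 1 / t`. -/
noncomputable def dd (f : HahnSeries ℚ k) : HahnSeries ℚ k := -(HahnSeries.single 1 1 * ee f)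

theorem dd_coeff (f : HahnSeries ℚ k) (r : ℚ) :
    (dd f).coeff r = -(((r - 1 : ℚ) : k) * f.coeff (r - 1)) := by
  have h : (HahnSeries.single (1 : ℚ) (1 : k) * ee f).coeff r = (ee f).coeff (r - 1) := by
    have := HahnSeries.coeff_single_mul_add (r := (1 : k)) (x := ee f) (a := r - 1) (b := (1 : ℚ))
    rw [sub_add_cancel, one_mul] at this
    exact this
  show (-(HahnSeries.single (1 : ℚ) (1 : k) * ee f)).coeff r = _
  rw [HahnSeries.coeff_neg, h, ee_coeff]

theorem dd_add (f g : HahnSeries ℚ k) : dd (f + g) = dd f + dd g := by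
  unfold dd
  rw [ee_add]
  ring

theorem dd_mul [CharZero k] (f g : HahnSeries ℚ k) : dd (f * g) = f * dd g + g * dd f := by
  unfold dd
  rw [ee_mul]
  ring

theorem dd_C (c : k) : dd (HahnSeries.C c : HahnSeries ℚ k) = 0 := by
  ext r
  rw [dd_coeff, HahnSeries.coeff_zero]
  by_cases h : r - 1 = 0
  · rw [h, Rat.cast_zero, zero_mul, neg_zero]
  · rw [HahnSeries.C_apply, HahnSeries.coeff_single_of_ne h, mul_zero, neg_zero]

theorem dd_u [CharZero k] : dd (HahnSeries.single (-1 : ℚ) (1 : k)) = 1 := by
  ext r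
  rw [dd_coeff]
  by_cases h : r = 0
  · rw [h, zero_sub, HahnSeries.coeff_single_same, HahnSeries.coeff_one]
    simp
  · rw [HahnSeries.coeff_single_of_ne (fun h1 => h (by linarith)), mul_zero, neg_zero,
      HahnSeries.coeff_one, if_neg h]

/-- A series with derivative zero is constant. -/
theorem dd_zero [CharZero k] {f : HahnSeries ℚ k} (h : dd f = 0) : f = HahnSeries.C (f.coeff 0) := by
  ext r
  by_cases hr : r = 0
  · rw [hr, HahnSeries.C_apply, HahnSeries.coeff_single_same]
  · rw [HahnSeries.C_apply, HahnSeries.coeff_single_of_ne hr]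
    have h1 := dd_coeff f (r + 1)
    rw [h, HahnSeries.coeff_zero, add_sub_cancel_right] at h1
    have h2 : (r : k) * f.coeff r = 0 := by
      rw [← neg_eq_zero, ← h1]
    exact (mul_eq_zero.mp h2).resolve_left (by exact_mod_cast hr)

/-- The coefficients below `m` are zero. -/
def Van (f : HahnSeries ℚ k) (m : ℚ) : Prop := ∀ r < m, f.coeff r = 0

theorem Van.mono {f : HahnSeries ℚ k} {m n : ℚ} (h : Van f m) (hn : n ≤ m) : Van f n :=
  fun r hr => h r (hr.trans_le hn)

theorem van_exists (f : HahnSeries ℚ k) : ∃ m, Van f m :=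
  ⟨f.order, fun _ hr => HahnSeries.coeff_eq_zero_of_lt_order hr⟩

theorem Van.dd {f : HahnSeries ℚ k} {m : ℚ} (h : Van f m) : Van (dd f) (m + 1) := by
  intro r hr
  rw [dd_coeff, h (r - 1) (by linarith), mul_zero, neg_zero]

theorem Van.mul {f g : HahnSeries ℚ k} {m n : ℚ} (hf : Van f m) (hg : Van g n) :
    Van (f * g) (m + n) := by
  intro r hr
  rw [HahnSeries.coeff_mul]
  refine Finset.sum_eq_zero fun ij hij => ?_
  rw [Finset.mem_antidiagonal] at hij
  by_cases h1 : ij.1 < m
  · rw [hf _ h1, zero_mul]
  · rw [hg _ (by linarith [hij.2.2]), mul_zero]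

theorem van_one : Van (1 : HahnSeries ℚ k) 0 := by
  intro r hr
  rw [HahnSeries.coeff_one, if_neg hr.ne]

theorem van_prod {ι : Type} (s : Finset ι) (f : ι → HahnSeries ℚ k) (m : ℚ)
    (h : ∀ i ∈ s, Van (f i) m) : Van (∏ i ∈ s, f i) (s.card * m) := by
  classical
  induction s using Finset.induction_on with
  | empty => simpa using van_one
  | insert a s ha ih =>
    rw [Finset.prod_insert ha, Finset.card_insert_of_notMem ha]
    have h1 := (h a (Finset.mem_insert_self a s)).mul
      (ih fun i hi => h i (Finset.mem_insert_of_mem hi))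
    refine h1.mono (le_of_eq ?_)
    push_cast
    ring

/-- The iterates of the derivation. -/
theorem van_iter {f : HahnSeries ℚ k} {m : ℚ} (h : Van f m) (n : ℕ) :
    Van (dd^[n] f) (m + n) := by
  induction n with
  | zero => simpa using h
  | succ n ih =>
    rw [Function.iterate_succ_apply']
    refine ih.dd.mono (le_of_eq ?_)
    push_cast
    ring

/-- A polynomial in `u = 1 / t` is not small. -/
theorem coeff_poly (q : k[X]) (n : ℕ) :
    (∑ i ∈ q.support, HahnSeries.C (q.coeff i) * HahnSeries.single (-1 : ℚ) (1 : k) ^ i).coeff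
      (-(n : ℚ)) = q.coeff n := by
  have h1 : ∀ i : ℕ, (HahnSeries.C (q.coeff i) * HahnSeries.single (-1 : ℚ) (1 : k) ^ i) =
      HahnSeries.single (-(i : ℚ)) (q.coeff i) := by
    intro i
    rw [HahnSeries.single_pow, one_pow, HahnSeries.C_apply, HahnSeries.single_mul_single,
      zero_add, mul_one, nsmul_eq_mul, mul_neg, mul_one]
  rw [HahnSeries.coeff_sum]
  simp_rw [h1]
  by_cases hn : n ∈ q.support
  · rw [Finset.sum_eq_single_of_mem n hn, HahnSeries.coeff_single_same]
    intro i _ hi
    exact HahnSeries.coeff_single_of_ne (fun h => hi (by exact_mod_cast (neg_injective h).symm))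
  · rw [Finset.sum_eq_zero, (Polynomial.notMem_support_iff.mp hn)]
    intro i hi
    refine HahnSeries.coeff_single_of_ne (fun h => hn ?_)
    have h2 : n = i := by exact_mod_cast neg_injective h
    rw [h2]
    exact hi

end Pool.DynLehmer.UN.P51

/-!
# Row P3: a field with a derivation which preserves the integral elements is rational
-/

namespace Pool.DynLehmer.UN.P51
open Polynomial IntermediateField

/-- A derivation which is zero at `u` is zero on the algebraic extensions of `k (u)`. -/
theorem der_zero {k L H : Type} [Field k] [Field L] [CharZero L] [Field H] [Algebra k L]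
    (ι : L →+* H) (Δ : L → H) (hadd : ∀ x y, Δ (x + y) = Δ x + Δ y)
    (hmul : ∀ x y, Δ (x * y) = ι x * Δ y + ι y * Δ x) (hk : ∀ c : k, Δ (algebraMap k L c) = 0)
    (u : L) (hu : Δ u = 0) (hal : Algebra.IsAlgebraic (adjoin k {u}) L) (x : L) : Δ x = 0 := by
  have h0 : Δ 0 = 0 := by
    have := hk 0
    rwa [map_zero] at this
  have h1 : Δ 1 = 0 := by
    have := hk 1
    rwa [map_one] at this
  let F : IntermediateField k L :=
    { carrier := {x | Δ x = 0}
      mul_mem' := by
        intro a b ha hb
        show Δ (a * b) = 0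
        rw [hmul, show Δ a = 0 from ha, show Δ b = 0 from hb, mul_zero, mul_zero, add_zero]
      add_mem' := by
        intro a b ha hb
        show Δ (a + b) = 0
        rw [hadd, show Δ a = 0 from ha, show Δ b = 0 from hb, add_zero]
      algebraMap_mem' := hk
      inv_mem' := by
        intro a ha
        show Δ a⁻¹ = 0
        by_cases ha0 : a = 0
        · rw [ha0, inv_zero]
          exact h0
        · have h2 := hmul a a⁻¹
          rw [mul_inv_cancel₀ ha0, h1, show Δ a = 0 from ha, mul_zero, add_zero] at h2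
          exact (mul_eq_zero.mp h2.symm).resolve_left (by
            rw [map_eq_zero_iff ι ι.injective]
            exact ha0) }
  have hF : ∀ y : F, Δ (algebraMap F L y) = 0 := fun y => y.2
  have hle : adjoin k {u} ≤ F := by
    rw [adjoin_simple_le_iff]
    exact hu
  have halF : Algebra.IsAlgebraic F L := by
    refine ⟨fun y => ?_⟩
    obtain ⟨P, hP0, hP⟩ := hal.isAlgebraic y
    let j : adjoin k {u} →+* F := (inclusion hle).toRingHom
    refine ⟨P.map j, (Polynomial.map_ne_zero_iff j.injective).mpr hP0, ?_⟩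
    rw [aeval_def, eval₂_map]
    rw [aeval_def] at hP
    exact hP
  have hpow : ∀ n : ℕ, Δ (x ^ n) = ι (n * x ^ (n - 1)) * Δ x := by
    intro n
    induction n with
    | zero => rw [pow_zero, h1, Nat.cast_zero, zero_mul, map_zero, zero_mul]
    | succ n ih =>
      rw [pow_succ, hmul, ih]
      rcases n with _ | n
      · simp
      · simp only [Nat.add_sub_cancel, map_mul, map_pow, Nat.cast_add, Nat.cast_one, map_add,
          map_natCast, map_one]
        ring
  have hpoly : ∀ P : F[X], Δ (aeval x P) = ι (aeval x (derivative P)) * Δ x := by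
    intro P
    induction P using Polynomial.induction_on' with
    | add p q hp hq => rw [map_add, hadd, hp, hq, derivative_add, map_add, map_add, add_mul]
    | monomial n a =>
      rw [aeval_monomial, hmul, hF, mul_zero, add_zero, hpow, derivative_monomial,
        aeval_monomial, map_mul, map_mul (algebraMap F L), map_natCast (algebraMap F L)]
      simp only [map_mul, map_pow, map_natCast]
      ring
  have h2 := hpoly (minpoly F x)
  rw [minpoly.aeval, h0] at h2
  refine (mul_eq_zero.mp h2.symm).resolve_left ?_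
  rw [map_eq_zero_iff ι ι.injective]
  have hint : IsIntegral F x := (halF.isAlgebraic x).isIntegral
  have : CharZero F := (algebraMap F L).charZero
  intro h3
  have h4 : minpoly F x ∣ derivative (minpoly F x) := minpoly.dvd F x h3
  have h5 : (minpoly F x).natDegree ≠ 0 := (minpoly.natDegree_pos hint).ne'
  have h6 : derivative (minpoly F x) ≠ 0 := by
    intro h7
    exact h5 (derivative_eq_zero.mp h7)
  have h7 := natDegree_le_of_dvd h4 h6
  have h8 := natDegree_derivative_lt h5
  omega

/-- An embedding in the field of Hahn series which maps `u` to `1 / t` commutes with the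
derivations. -/
theorem der_comm {k L : Type} [Field k] [CharZero k] [Field L] [Algebra k L]
    (ι : L →+* HahnSeries ℚ k) (hC : ∀ c, ι (algebraMap k L c) = HahnSeries.C c) (u : L)
    (hu : ι u = HahnSeries.single (-1) 1) (D : Derivation k L L) (hD : D u = 1)
    (hal : Algebra.IsAlgebraic (adjoin k {u}) L) (x : L) : dd (ι x) = ι (D x) := by
  have : CharZero L := charZero_of_injective_algebraMap (algebraMap k L).injective
  have h := der_zero (k := k) ι (fun x => dd (ι x) - ι (D x))
    (fun x y => by
      simp only [map_add, dd_add]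
      ring)
    (fun x y => by
      simp only [map_mul, dd_mul, Derivation.leibniz, smul_eq_mul, map_add]
      ring)
    (fun c => by
      show dd (ι (algebraMap k L c)) - ι (D (algebraMap k L c)) = 0
      rw [hC, dd_C, Derivation.map_algebraMap, map_zero, sub_zero]) u
    (by
      show dd (ι u) - ι (D u) = 0
      rw [hu, dd_u, hD, map_one, sub_self]) hal x
  exact sub_eq_zero.mp h

theorem iter_comm {k L : Type} [Field k] [CharZero k] [Field L] [Algebra k L]
    (ι : L →+* HahnSeries ℚ k) (hC : ∀ c, ι (algebraMap k L c) = HahnSeries.C c) (u : L)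
    (hu : ι u = HahnSeries.single (-1) 1) (D : Derivation k L L) (hD : D u = 1)
    (hal : Algebra.IsAlgebraic (adjoin k {u}) L) (n : ℕ) (x : L) :
    ι (D^[n] x) = dd^[n] (ι x) := by
  induction n with
  | zero => rfl
  | succ n ih =>
    rw [Function.iterate_succ_apply', Function.iterate_succ_apply', ← ih,
      der_comm ι hC u hu D hD hal]

/-- The embedding of `k (u)` in a field with an element `s` which is transcendental over `k`. -/
theorem emb_exists {k L N : Type} [Field k] [Field L] [Algebra k L] [Field N] [Algebra k N] (u : L)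
    (hu : Transcendental k u) (s : N) (hs : Transcendental k s) :
    ∃ j : adjoin k {u} →ₐ[k] N, j (AdjoinSimple.gen k u) = s := by
  refine ⟨(IntermediateField.val (adjoin k {s})).comp
    ((RatFunc.algEquivOfTranscendental s hs).toAlgHom.comp
      (RatFunc.algEquivOfTranscendental u hu).symm.toAlgHom), ?_⟩
  show ((RatFunc.algEquivOfTranscendental s hs)
    ((RatFunc.algEquivOfTranscendental u hu).symm (AdjoinSimple.gen k u)) : N) = s
  rw [RatFunc.algEquivOfTranscendental_symm_gen, RatFunc.algEquivOfTranscendental_X]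

/-- An element of `k (u)` which is integral over `k [u]` is a polynomial in `u`. -/
theorem int_poly {k L : Type} [Field k] [Field L] [Algebra k L] (u : L)
    (hu : Transcendental k u) (y : adjoin k {u}) (hy : Itg k u (y : L)) :
    ∃ q : k[X], y = aeval (AdjoinSimple.gen k u) q := by
  let e := RatFunc.algEquivOfTranscendental u hu
  obtain ⟨P, hP, hP0⟩ := hy
  have h1 : IsIntegral k[X] (e.symm y) := by
    refine ⟨P, hP, ?_⟩
    have h2 : eval₂ (aeval (AdjoinSimple.gen k u) : k[X] →ₐ[k] adjoin k {u}).toRingHom y P = 0 := by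
      apply (algebraMap (adjoin k {u}) L).injective
      rw [map_zero, hom_eval₂]
      have h3 : (algebraMap (adjoin k {u}) L).comp
          (aeval (AdjoinSimple.gen k u) : k[X] →ₐ[k] adjoin k {u}).toRingHom =
          ((aeval u : k[X] →ₐ[k] L) : k[X] →+* L) := by
        ext z
        · simp [IntermediateField.algebraMap_apply]
        · simp [IntermediateField.algebraMap_apply]
      rw [h3]
      exact hP0
    have h4 := congrArg e.symm h2
    rw [map_zero] at h4
    rw [← h4]
    have h5 := hom_eval₂ P (aeval (AdjoinSimple.gen k u) : k[X] →ₐ[k] adjoin k {u}).toRingHom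
      e.symm.toRingEquiv.toRingHom y
    refine Eq.trans ?_ h5.symm
    congr 1
    ext z
    · simp
    · simp only [RingHom.comp_apply]
      simp
      exact (RatFunc.algEquivOfTranscendental_symm_gen u hu).symm
  obtain ⟨q, hq⟩ := IsIntegrallyClosed.isIntegral_iff.mp h1
  refine ⟨q, ?_⟩
  rw [← RatFunc.algEquivOfTranscendental_algebraMap u hu q, hq]
  exact (e.apply_symm_apply y).symm

/-- The embeddings in the field of Hahn series. -/
theorem germs {k L : Type} [Field k] [IsAlgClosed k] [CharZero k] [Field L] [Algebra k L] (u : L)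
    (hu : Transcendental k u) (hfin : FiniteDimensional (adjoin k {u}) L) :
    ∃ (S : Type) (_ : Fintype S) (_ : Nonempty S) (f : S → (L →+* HahnSeries ℚ k)),
      (∀ σ (c : k), f σ (algebraMap k L c) = HahnSeries.C c) ∧
      (∀ σ, f σ u = HahnSeries.single (-1) 1) ∧
      ∀ x, Itg k u x → ∃ q : k[X], (∏ σ, f σ x = ∑ i ∈ q.support,
        HahnSeries.C (q.coeff i) * HahnSeries.single (-1 : ℚ) (1 : k) ^ i) ∧ (q = 0 → x = 0) := by
  classical
  have : CharZero L := charZero_of_injective_algebraMap (algebraMap k L).injective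
  have : CharZero (adjoin k {u}) := (algebraMap (adjoin k {u}) L).charZero
  obtain ⟨N, _, _, hN, ⟨G⟩⟩ := Pool.DynLehmer.GS.alg k
  have hs : G.ι G.τ⁻¹ = HahnSeries.single (-1) 1 := by
    rw [map_inv₀, G.hτ, HahnSeries.inv_single, inv_one]
  have haev : ∀ q : k[X], G.ι (aeval G.τ⁻¹ q) =
      ∑ i ∈ q.support, HahnSeries.C (q.coeff i) * HahnSeries.single (-1 : ℚ) (1 : k) ^ i := by
    intro q
    rw [aeval_eq_sum_range' (lt_add_one q.natDegree), map_sum]
    rw [← Finset.sum_subset (s₁ := q.support)]
    · refine Finset.sum_congr rfl fun i _ => ?_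
      rw [Algebra.smul_def, map_mul, G.hC, map_pow, hs]
    · intro i hi
      rw [Finset.mem_range]
      exact Nat.lt_succ_of_le (le_natDegree_of_mem_supp i hi)
    · intro i _ hi
      rw [notMem_support_iff.mp hi, zero_smul, map_zero]
  have hst : Transcendental k G.τ⁻¹ := by
    rw [transcendental_iff]
    intro q hq
    have h1 := haev q
    rw [hq, map_zero] at h1
    ext n
    rw [← coeff_poly q n, ← h1, HahnSeries.coeff_zero, coeff_zero]
  obtain ⟨j, hj⟩ := emb_exists u hu G.τ⁻¹ hst
  let _ : Algebra (adjoin k {u}) N := j.toRingHom.toAlgebra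
  have hjN : ∀ y, algebraMap (adjoin k {u}) N y = j y := fun _ => rfl
  have hal : Algebra.IsAlgebraic (adjoin k {u}) L := Algebra.IsAlgebraic.of_finite _ _
  let f : (L →ₐ[adjoin k {u}] N) → (L →+* HahnSeries ℚ k) := fun σ => G.ι.comp σ.toRingHom
  have hf : ∀ σ x, f σ x = G.ι (σ x) := fun _ _ => rfl
  have hfC : ∀ σ (c : k), f σ (algebraMap k L c) = HahnSeries.C c := by
    intro σ c
    rw [hf, ← G.hC, IsScalarTower.algebraMap_apply k (adjoin k {u}) L, AlgHom.commutes, hjN,
      AlgHom.commutes]
  have hfu : ∀ σ, f σ u = HahnSeries.single (-1) 1 := by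
    intro σ
    rw [hf, ← hs, ← hj, ← hjN, ← σ.commutes]
    rfl
  have hcard : 0 < Fintype.card (L →ₐ[adjoin k {u}] N) := by
    rw [AlgHom.card (adjoin k {u}) L N]
    exact Module.finrank_pos
  refine ⟨L →ₐ[adjoin k {u}] N, inferInstance, Fintype.card_pos_iff.mp hcard, f, hfC, hfu, ?_⟩
  intro x hx
  have hnorm : Itg k u (Algebra.norm (adjoin k {u}) x : adjoin k {u}) := by
    let a1 : Algebra k[X] L := ((aeval u : k[X] →ₐ[k] L) : k[X] →+* L).toAlgebra
    let a2 : Algebra k[X] (adjoin k {u}) :=
      ((aeval (AdjoinSimple.gen k u) : k[X] →ₐ[k] adjoin k {u}) : k[X] →+* adjoin k {u}).toAlgebra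
    have a3 : IsScalarTower k[X] (adjoin k {u}) L := IsScalarTower.of_algebraMap_eq (by
      intro q
      show aeval u q = algebraMap (adjoin k {u}) L (aeval (AdjoinSimple.gen k u) q)
      rw [← aeval_algebraMap_apply]
      rfl)
    have h1 : IsIntegral k[X] x := hx
    have h2 : IsIntegral k[X] (Algebra.norm (adjoin k {u}) x) := Algebra.isIntegral_norm _ h1
    exact h2.algebraMap (B := L)
  obtain ⟨q, hq⟩ := int_poly u hu _ hnorm
  have h1 := Algebra.norm_eq_prod_embeddings (adjoin k {u}) N x
  refine ⟨q, ?_, ?_⟩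
  · rw [← haev]
    rw [hjN, hq] at h1
    have h3 : j (aeval (AdjoinSimple.gen k u) q) = aeval G.τ⁻¹ q := by
      rw [← aeval_algHom_apply, hj]
    rw [← h3, h1, map_prod]
    rfl
  · intro h4
    rw [h4, map_zero, Algebra.norm_eq_zero_iff] at hq
    exact hq

/-- The iterates of the derivation of an integral element are zero. -/
theorem nilp {k L : Type} [Field k] [IsAlgClosed k] [CharZero k] [Field L] [Algebra k L] (u : L)
    (D : Derivation k L L) (hu : Transcendental k u) (hfin : FiniteDimensional (adjoin k {u}) L)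
    (hD : D u = 1) (hI : ∀ g, Itg k u g → Itg k u (D g)) (g : L) (hg : Itg k u g) :
    ∃ n : ℕ, D^[n] g = 0 := by
  classical
  obtain ⟨S, _, _, f, hfC, hfu, hnorm⟩ := germs u hu hfin
  have hal : Algebra.IsAlgebraic (adjoin k {u}) L := Algebra.IsAlgebraic.of_finite _ _
  have hpos : ∃ n : ℕ, ∀ σ, Van (f σ (D^[n] g)) 1 := by
    have h1 : ∀ σ, ∃ n : ℕ, ∀ m : ℕ, n ≤ m → Van (f σ (D^[m] g)) 1 := by
      intro σ
      obtain ⟨r, hr⟩ := van_exists (f σ g)
      obtain ⟨n, hn⟩ := exists_nat_gt (1 - r)
      refine ⟨n, fun m hm => ?_⟩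
      rw [iter_comm (f σ) (hfC σ) u (hfu σ) D hD hal]
      refine (van_iter hr m).mono ?_
      have : (n : ℚ) ≤ m := by exact_mod_cast hm
      linarith
    choose n hn using h1
    exact ⟨∑ σ, n σ, fun σ => hn σ _ (Finset.single_le_sum (f := n) (fun _ _ => Nat.zero_le _)
      (Finset.mem_univ σ))⟩
  obtain ⟨n, hn⟩ := hpos
  refine ⟨n, ?_⟩
  have hIn : Itg k u (D^[n] g) := by
    clear hn
    induction n with
    | zero => exact hg
    | succ n ih =>
      rw [Function.iterate_succ_apply']
      exact hI _ ih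
  obtain ⟨q, hq, hq0⟩ := hnorm _ hIn
  have h3 : Van (∏ σ, f σ (D^[n] g)) 1 := by
    refine (van_prod Finset.univ (fun σ => f σ (D^[n] g)) 1 fun σ _ => hn σ).mono ?_
    have h4 : 0 < (Finset.univ : Finset S).card := by
      rw [Finset.card_univ]
      exact Fintype.card_pos
    have h5 : (1 : ℚ) ≤ ((Finset.univ : Finset S).card : ℚ) := by exact_mod_cast h4
    linarith
  refine hq0 ?_
  ext n
  rw [← coeff_poly q n, ← hq, coeff_zero]
  refine h3 _ ?_
  have : (0 : ℚ) ≤ n := Nat.cast_nonneg n
  linarith

/-- An element which is killed by a power of the derivation is a polynomial in `u`. -/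
theorem slice {k L : Type} [Field k] [IsAlgClosed k] [CharZero k] [Field L] [Algebra k L] (u : L)
    (D : Derivation k L L) (hD : D u = 1) (hker : ∀ x, D x = 0 → ∃ c : k, x = algebraMap k L c)
    (n : ℕ) (g : L) (hg : D^[n] g = 0) : ∃ q : k[X], g = aeval u q := by
  induction n generalizing g with
  | zero => exact ⟨0, by rw [map_zero]; exact hg⟩
  | succ n ih =>
    rw [Function.iterate_succ_apply] at hg
    obtain ⟨q, hq⟩ := ih (D g) hg
    obtain ⟨Q, hQ⟩ : ∃ Q : k[X], derivative Q = q := by
      refine ⟨∑ i ∈ q.support, monomial (i + 1) (q.coeff i / ((i : k) + 1)), ?_⟩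
      rw [derivative_sum]
      conv_rhs => rw [q.as_sum_support]
      refine Finset.sum_congr rfl fun i _ => ?_
      rw [derivative_monomial, Nat.add_sub_cancel]
      congr 1
      have : (i : k) + 1 ≠ 0 := by exact_mod_cast Nat.succ_ne_zero i
      push_cast
      field_simp
    obtain ⟨c, hc⟩ := hker (g - aeval u Q) (by
      rw [map_sub, hq, Derivation.map_aeval, hD, hQ, smul_eq_mul, mul_one, sub_self])
    refine ⟨Q + C c, ?_⟩
    rw [map_add, aeval_C, ← hc]
    ring

/-- Row P3. -/
theorem p3 : P3Statement := by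
  intro k L _ _ _ _ _ u D hu hfin hD hI
  classical
  have : CharZero L := charZero_of_injective_algebraMap (algebraMap k L).injective
  have hal : Algebra.IsAlgebraic (adjoin k {u}) L := Algebra.IsAlgebraic.of_finite _ _
  have hker : ∀ x, D x = 0 → ∃ c : k, x = algebraMap k L c := by
    intro x hx
    obtain ⟨S, _, ⟨σ⟩, f, hfC, hfu, -⟩ := germs u hu hfin
    have h1 := der_comm (f σ) (hfC σ) u (hfu σ) D hD hal x
    rw [hx, map_zero] at h1
    exact ⟨_, (f σ).injective ((dd_zero h1).trans (hfC σ _).symm)⟩
  let a1 : Algebra k[X] L := ((aeval u : k[X] →ₐ[k] L) : k[X] →+* L).toAlgebra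
  let a2 : Algebra k[X] (adjoin k {u}) :=
    ((aeval (AdjoinSimple.gen k u) : k[X] →ₐ[k] adjoin k {u}) : k[X] →+* adjoin k {u}).toAlgebra
  have a3 : IsScalarTower k[X] (adjoin k {u}) L := IsScalarTower.of_algebraMap_eq (by
    intro q
    show aeval u q = algebraMap (adjoin k {u}) L (aeval (AdjoinSimple.gen k u) q)
    rw [← aeval_algebraMap_apply]
    rfl)
  have a4 : IsFractionRing k[X] (adjoin k {u}) :=
    IsLocalization.isLocalization_of_algEquiv _ (AlgEquiv.ofRingEquiv
      (f := (RatFunc.algEquivOfTranscendental u hu).toRingEquiv)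
      (fun q => RatFunc.algEquivOfTranscendental_algebraMap u hu q) :
        RatFunc k ≃ₐ[k[X]] adjoin k {u})
  have a5 : Algebra.IsAlgebraic k[X] L := IsFractionRing.comap_isAlgebraic_iff.mpr hal
  rw [eq_top_iff]
  intro x _
  obtain ⟨y, hy, hyx⟩ := (a5.isAlgebraic x).exists_integral_multiple
  have h1 : Itg k u (aeval u y * x) := hyx
  obtain ⟨n, hn⟩ := nilp u D hu hfin hD hI _ h1
  obtain ⟨q, hq⟩ := slice u D hD hker n _ hn
  have h2 : aeval u y ≠ 0 := by
    rw [transcendental_iff] at hu
    exact fun h3 => hy (hu y h3)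
  have h3 : x = aeval u q / aeval u y := by
    rw [eq_div_iff h2, ← hq, mul_comm]
  have h4 : ∀ r : k[X], aeval u r ∈ adjoin k {u} := by
    intro r
    rw [← AdjoinSimple.algebraMap_gen k u, aeval_algebraMap_apply]
    exact (aeval (AdjoinSimple.gen k u) r).2
  rw [h3]
  exact div_mem (h4 q) (h4 y)

end Pool.DynLehmer.UN.P51
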