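import Pool.Agent.Lib.MP_2194ec_nt.UN.OrbRamification

/-! ROW LUR (helper85): the theorem of Luroth for an abstract field of rational functions. If
`L` is a field over `k` with an element which is transcendental over `k`, and if `L` embeds over `k`
in a field `L' = k (t)` with `t` transcendental, then `L = k (t₀)` for a transcendental `t₀`. -/

open IntermediateField

namespace Pool.DynLehmer.UN.Lur85

/-- The theorem of Luroth for a field embedded in the field of rational functions of Mathlib. -/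
theorem lur_rf {k L : Type} [Field k] [Field L] [Algebra k L] (σ : L →ₐ[k] RatFunc k)
    (u : L) (hu : Transcendental k u) :
    ∃ t₀ : L, Transcendental k t₀ ∧ adjoin k {t₀} = ⊤ := by
  have hE : σ.fieldRange ≠ ⊥ := by
    intro h
    have h1 : σ u ∈ σ.fieldRange := ⟨u, rfl⟩
    rw [h, mem_bot] at h1
    obtain ⟨c, hc⟩ := h1
    apply hu
    have h2 : algebraMap k L c = u := by
      apply σ.injective
      exact (σ.commutes c).trans hc
    rw [← h2]
    exact isAlgebraic_algebraMap c
  obtain ⟨t₀, ht₀⟩ : RatFunc.Luroth.generator σ.fieldRange ∈ σ.fieldRange :=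
    RatFunc.Luroth.generator_mem
  have ht₀' : σ t₀ = RatFunc.Luroth.generator σ.fieldRange := ht₀
  refine ⟨t₀, ?_, ?_⟩
  · have h1 := RatFunc.Luroth.transcendental_generator hE
    rw [← ht₀'] at h1
    intro h2
    exact h1 (h2.algHom σ)
  · have h1 : (adjoin k {t₀}).map σ = (⊤ : IntermediateField k L).map σ := by
      rw [adjoin_map, Set.image_singleton, ht₀', ← RatFunc.Luroth.eq_adjoin_generator,
        ← AlgHom.fieldRange_eq_map]
    exact IntermediateField.map_injective σ h1

/-- The theorem of Luroth. -/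
theorem lur {k L L' : Type} [Field k] [Field L] [Field L'] [Algebra k L] [Algebra k L']
    (ι : L →ₐ[k] L') (t : L') (ht : adjoin k {t} = ⊤) (htr : Transcendental k t)
    (u : L) (hu : Transcendental k u) :
    ∃ t₀ : L, Transcendental k t₀ ∧ adjoin k {t₀} = ⊤ := by
  refine lur_rf ((((RatFunc.algEquivOfTranscendental t htr).symm.toAlgHom.comp
    (equivOfEq ht).symm.toAlgHom).comp (topEquiv (F := k) (E := L')).symm.toAlgHom).comp ι) u hu

end Pool.DynLehmer.UN.Lur85

/-!
# Fields with at most three ramified points over `k(u)`: covers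
-/

namespace Pool.DynLehmer.UN.Cov21
open Polynomial IntermediateField R47 Ra21

/-- `L` is contained in a field `k(t)` of degree at most `D` over `k(u)`. -/
def Rat (k L : Type) [Field k] [Field L] [Algebra k L] (u : L) (D : ℕ) : Prop :=
  ∃ (L' : Type) (_ : Field L') (_ : Algebra k L') (ι : L →ₐ[k] L') (t : L'),
    adjoin k {t} = ⊤ ∧ Transcendental k t ∧
    relfinrank (adjoin k {ι u}) (⊤ : IntermediateField k L') ≠ 0 ∧
    relfinrank (adjoin k {ι u}) (⊤ : IntermediateField k L') ≤ D

theorem aeval_ne {k L : Type} [Field k] [Field L] [Algebra k L] {A B : k[X]}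
    (hcop : IsCoprime A B) {u' t : L} (h : u' * aeval t B = aeval t A) : aeval t B ≠ 0 := by
  intro h0
  obtain ⟨f, g, hfg⟩ := hcop
  have h1 := congrArg (aeval t) hfg
  rw [map_add, map_mul, map_mul, ← h, h0, mul_zero, mul_zero, mul_zero, add_zero, map_one] at h1
  exact zero_ne_one h1

theorem den_ne {k : Type} [Field k] {A B : k[X]} (hcop : IsCoprime A B)
    (h1 : 1 ≤ max A.natDegree B.natDegree) : B ≠ 0 := by
  rintro rfl
  rw [isCoprime_zero_right] at hcop
  rw [natDegree_zero, natDegree_eq_zero_of_isUnit hcop] at h1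
  simp at h1

/-- `[k(t) : k(A(t)/B(t))]` -/
theorem rel_AB {k L : Type} [Field k] [Field L] [Algebra k L] {A B : k[X]}
    (hcop : IsCoprime A B) (h1 : 1 ≤ max A.natDegree B.natDegree) {u' t : L}
    (ht : Transcendental k t) (h : u' * aeval t B = aeval t A) :
    relfinrank (adjoin k {u'}) (adjoin k {t}) = max A.natDegree B.natDegree := by
  have hB := den_ne hcop h1
  have h2 : u' = rv (algebraMap k[X] (RatFunc k) A / algebraMap k[X] (RatFunc k) B) t := by
    rw [rv_quot A B hcop hB, eq_div_iff (aeval_ne hcop h), h]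
  rw [h2, rel_f _ ht, dg_quot A B hcop hB]

theorem mem_AB {k L : Type} [Field k] [Field L] [Algebra k L] {A B : k[X]}
    (hcop : IsCoprime A B) (h1 : 1 ≤ max A.natDegree B.natDegree) {u' t : L}
    (h : u' * aeval t B = aeval t A) : adjoin k {u'} ≤ adjoin k {t} := by
  have hB := den_ne hcop h1
  have h2 : u' = rv (algebraMap k[X] (RatFunc k) A / algebraMap k[X] (RatFunc k) B) t := by
    rw [rv_quot A B hcop hB, eq_div_iff (aeval_ne hcop h), h]
  rw [adjoin_simple_le_iff, h2]
  exact rv_mem _ _ _ (mem_adjoin_simple_self k t)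

theorem rel_map {k L L' : Type} [Field k] [Field L] [Algebra k L] [Field L'] [Algebra k L']
    (ι : L →ₐ[k] L') (u : L) :
    relfinrank (adjoin k {ι u}) ι.fieldRange = relfinrank (adjoin k {u}) ⊤ := by
  have h1 : adjoin k {ι u} = (adjoin k {u}).map ι := by
    rw [adjoin_map, Set.image_singleton]
  have h2 : ι.fieldRange = (⊤ : IntermediateField k L).map ι := by
    rw [AlgHom.fieldRange_eq_map]
  rw [h1, h2, relfinrank_map_map]

theorem rel_fin {k L : Type} [Field k] [Field L] [Algebra k L] (E : IntermediateField k L) :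
    relfinrank E ⊤ ≠ 0 ↔ FiniteDimensional E L := by
  rw [relfinrank_top_right]
  constructor
  · intro h
    exact Module.finite_of_finrank_pos (Nat.pos_of_ne_zero h)
  · intro h
    exact Module.finrank_pos.ne'

/-- composite with a field `k(t)`, `u = A(t) / B(t)` -/
theorem step {k L : Type} [Field k] [IsAlgClosed k] [CharZero k] [Field L] [Algebra k L] (u : L)
    (hu : Transcendental k u) (hfin : FiniteDimensional (adjoin k {u}) L) (A B : k[X])
    (hcop : IsCoprime A B) (h1 : 1 ≤ max A.natDegree B.natDegree) :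
    ∃ (L' : Type) (_ : Field L') (_ : Algebra k L') (t : L'), Transcendental k t ∧
      FiniteDimensional (adjoin k {t}) L' ∧
      (∀ (e : ℕ) (x : Option k), 1 ≤ e → SpO k L u (ld A B x * e) (rmap A B x) →
        SpO k L' t e x) ∧
      ∀ D, Rat k L' t D → Rat k L u (max A.natDegree B.natDegree * D) := by
  let Ω := AlgebraicClosure L
  set q := max A.natDegree B.natDegree with hq
  let p : L[X] := A.map (algebraMap k L) - C u * B.map (algebraMap k L)
  have hpq : p.coeff q ≠ 0 := by
    have h2 : p.coeff q = algebraMap k L (A.coeff q) - u * algebraMap k L (B.coeff q) := by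
      show (A.map (algebraMap k L) - C u * B.map (algebraMap k L)).coeff q = _
      rw [coeff_sub, coeff_map, coeff_C_mul, coeff_map]
    rw [h2]
    intro h3
    have h4 : B.coeff q = 0 := by
      by_contra h4
      apply hu
      have h5 : u = algebraMap k L (A.coeff q / B.coeff q) := by
        rw [map_div₀, eq_div_iff (by rwa [Ne, FaithfulSMul.algebraMap_eq_zero_iff])]
        linear_combination -h3
      rw [h5]
      exact isAlgebraic_algebraMap _
    have h5 : A.coeff q = 0 := by
      rw [h4, map_zero, mul_zero, sub_zero, FaithfulSMul.algebraMap_eq_zero_iff] at h3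
      exact h3
    rcases le_total A.natDegree B.natDegree with h6 | h6
    · have h7 : q = B.natDegree := max_eq_right h6
      rw [h7] at h4
      rw [leadingCoeff_eq_zero.1 h4, natDegree_zero] at h7
      omega
    · have h7 : q = A.natDegree := max_eq_left h6
      rw [h7] at h5
      rw [leadingCoeff_eq_zero.1 h5, natDegree_zero] at h7
      omega
  have hpd : p.degree ≠ 0 := by
    intro h2
    have h3 := natDegree_eq_zero_iff_degree_le_zero.2 h2.le
    have h4 := le_natDegree_of_ne_zero hpq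
    omega
  obtain ⟨t, ht⟩ := IsAlgClosed.exists_aeval_eq_zero Ω p hpd
  have hp0 : p ≠ 0 := fun h => hpq (by rw [h, coeff_zero])
  have htint : IsIntegral L t := IsAlgebraic.isIntegral ⟨p, hp0, ht⟩
  let L' := (adjoin L {t} : IntermediateField L Ω)
  let t' : L' := AdjoinSimple.gen L t
  have hpt : aeval t' p = 0 := by
    apply Subtype.ext
    rw [AdjoinSimple.coe_aeval_gen_apply]
    exact ht
  have hAB : algebraMap L L' u * aeval t' B = aeval t' A := by
    have h2 : aeval t' p = aeval t' A - algebraMap L L' u * aeval t' B := by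
      show aeval t' (A.map (algebraMap k L) - C u * B.map (algebraMap k L)) = _
      rw [map_sub, map_mul, aeval_C, aeval_map_algebraMap, aeval_map_algebraMap]
    rw [hpt] at h2
    linear_combination h2
  have htop : adjoin L {t'} = ⊤ := by
    apply lift_injective
    rw [lift_adjoin_simple, lift_top]
    rfl
  have hBne : aeval t' B ≠ 0 := aeval_ne hcop hAB
  have htr : Transcendental k t' := by
    intro h2
    apply hu
    have h3 : Algebra.IsAlgebraic k (adjoin k {t'}) := isAlgebraic_adjoin_simple h2.isIntegral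
    have h4 : algebraMap L L' u ∈ adjoin k {t'} :=
      mem_AB hcop h1 hAB (mem_adjoin_simple_self k _)
    have h5 := (h3.isAlgebraic ⟨_, h4⟩).algHom (adjoin k {t'}).val
    exact (isAlgebraic_algebraMap_iff (algebraMap L L').injective).1 h5
  let ι : L →ₐ[k] L' := IsScalarTower.toAlgHom k L L'
  have hfinL : FiniteDimensional L L' := adjoin.finiteDimensional htint
  have hr1 : relfinrank ι.fieldRange ⊤ ≠ 0 := by
    rw [rel_fin]
    let e : L ≃+* ι.fieldRange :=
      { toFun := fun z => ⟨ι z, ⟨z, rfl⟩⟩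
        invFun := fun z => z.2.choose
        left_inv := fun z => ι.injective (Exists.choose_spec (⟨z, rfl⟩ : ∃ y, ι y = ι z))
        right_inv := fun z => Subtype.ext z.2.choose_spec
        map_mul' := fun a b => Subtype.ext (map_mul ι a b)
        map_add' := fun a b => Subtype.ext (map_add ι a b) }
    exact Module.Finite.of_equiv_equiv (A₁ := L) (B₁ := L') (A₂ := ι.fieldRange) (B₂ := L')
      e (RingEquiv.refl L') (by
        ext z
        rfl)
  have hr2 : relfinrank (adjoin k {ι u}) ⊤ ≠ 0 := by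
    have h3 : adjoin k {ι u} ≤ ι.fieldRange := by
      rw [adjoin_simple_le_iff]
      exact ⟨u, rfl⟩
    rw [← relfinrank_mul_relfinrank h3 le_top]
    refine mul_ne_zero ?_ hr1
    rw [rel_map, rel_fin]
    exact hfin
  have hABι : ι u * aeval t' B = aeval t' A := hAB
  have hr3 : relfinrank (adjoin k {t'}) ⊤ ≠ 0 := by
    rw [← relfinrank_mul_relfinrank (mem_AB hcop h1 hABι) le_top] at hr2
    exact right_ne_zero_of_mul hr2
  refine ⟨L', inferInstance, inferInstance, t', htr, (rel_fin _).1 hr3, ?_, ?_⟩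
  · intro e x he h
    exact (chartE A B t' u htr hu hcop h1 hAB htop e he x).1 h
  · rintro D ⟨L'', i1, i2, κ, s, hs1, hs2, hs3, hs4⟩
    refine ⟨L'', i1, i2, κ.comp ι, s, hs1, hs2, ?_⟩
    have h3 : κ (ι u) * aeval (κ t') B = aeval (κ t') A := by
      rw [aeval_algHom_apply, aeval_algHom_apply, ← map_mul, hABι]
    have h4 : Transcendental k (κ t') := by
      intro h5
      exact htr ((isAlgebraic_algHom_iff κ κ.injective).1 h5)
    have h5 := rel_AB hcop h1 h4 h3
    have h6 := relfinrank_mul_relfinrank (mem_AB hcop h1 h3)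
      (le_top : adjoin k {κ t'} ≤ ⊤)
    rw [h5] at h6
    rw [AlgHom.comp_apply, ← h6]
    exact ⟨mul_ne_zero (by omega) hs3, Nat.mul_le_mul_left _ hs4⟩

theorem mult_eq {k : Type} [Field k] {P Q : k[X]} {a : k} {m : ℕ} (h : P = (X - C a) ^ m * Q)
    (hQ : Q.eval a ≠ 0) : P.rootMultiplicity a = m := by
  have hQ0 : Q ≠ 0 := by
    rintro rfl
    exact hQ eval_zero
  rw [h, rootMultiplicity_mul (mul_ne_zero (pow_ne_zero _ (X_sub_C_ne_zero a)) hQ0),
    rootMultiplicity_X_sub_C_pow, rootMultiplicity_eq_zero hQ, add_zero]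

theorem comb_ne {k : Type} [Field k] {A B : k[X]} (hcop : IsCoprime A B)
    (h1 : 1 ≤ max A.natDegree B.natDegree) {b c : k} (hbc : b ≠ 0 ∨ c ≠ 0) :
    C b * A - C c * B ≠ 0 := by
  intro h0
  obtain ⟨f, g, hfg⟩ := hcop
  rcases hbc with hb | hc
  · have h2 : A = C (c / b) * B := by
      have h3 : C b * A = C c * B := sub_eq_zero.1 h0
      apply mul_left_cancel₀ (C_ne_zero.2 hb)
      rw [h3, ← mul_assoc, ← C_mul, mul_div_cancel₀ _ hb]
    have h3 : IsUnit B := by
      refine IsUnit.of_mul_eq_one (f * C (c / b) + g) ?_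
      rw [← hfg, h2]
      ring
    have h4 : B.natDegree = 0 := natDegree_eq_zero_of_isUnit h3
    have h5 : A.natDegree ≤ B.natDegree := by
      rw [h2]
      exact natDegree_C_mul_le _ _
    omega
  · have h2 : B = C (b / c) * A := by
      have h3 : C b * A = C c * B := sub_eq_zero.1 h0
      apply mul_left_cancel₀ (C_ne_zero.2 hc)
      rw [← h3, ← mul_assoc, ← C_mul, mul_div_cancel₀ _ hc]
    have h3 : IsUnit A := by
      refine IsUnit.of_mul_eq_one (f + g * C (b / c)) ?_
      rw [← hfg, h2]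
      ring
    have h4 : A.natDegree = 0 := natDegree_eq_zero_of_isUnit h3
    have h5 : B.natDegree ≤ A.natDegree := by
      rw [h2]
      exact natDegree_C_mul_le _ _
    omega

theorem ld_pos {k : Type} [Field k] {A B : k[X]} (hcop : IsCoprime A B)
    (h1 : 1 ≤ max A.natDegree B.natDegree) (x : Option k) : 1 ≤ ld A B x := by
  cases x with
  | some a =>
    show 1 ≤ (C (B.eval a) * A - C (A.eval a) * B).rootMultiplicity a
    refine (rootMultiplicity_pos (comb_ne hcop h1 ?_)).2 (by
      simp only [IsRoot, eval_sub, eval_mul, eval_C]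
      ring)
    by_contra hcon
    push Not at hcon
    obtain ⟨f, g, hfg⟩ := hcop
    have h2 := congrArg (eval a) hfg
    rw [eval_add, eval_mul, eval_mul, hcon.1, hcon.2, mul_zero, mul_zero, add_zero, eval_one] at h2
    exact zero_ne_one h2
  | none =>
    set q := max A.natDegree B.natDegree with hq
    show 1 ≤ (C (B.coeff q) * reflect q A - C (A.coeff q) * reflect q B).rootMultiplicity 0
    have h0 : B.coeff q ≠ 0 ∨ A.coeff q ≠ 0 := by
      by_contra hcon
      push Not at hcon
      rcases le_total A.natDegree B.natDegree with h6 | h6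
      · have h7 : q = B.natDegree := max_eq_right h6
        have h8 := hcon.1
        rw [h7] at h8
        rw [leadingCoeff_eq_zero.1 h8, natDegree_zero] at h7
        omega
      · have h7 : q = A.natDegree := max_eq_left h6
        have h8 := hcon.2
        rw [h7] at h8
        rw [leadingCoeff_eq_zero.1 h8, natDegree_zero] at h7
        omega
    refine (rootMultiplicity_pos ?_).2 (by
      simp only [IsRoot, eval_sub, eval_mul, eval_C, eval_zero_reflect]
      ring)
    intro h2
    apply comb_ne hcop h1 h0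
    have h3 := congrArg (reflect q) h2
    rw [reflect_sub, reflect_C_mul, reflect_C_mul, reflect_zero] at h3
    have h4 : ∀ P : k[X], reflect q (reflect q P) = P := by
      intro P
      ext n
      rw [coeff_reflect, coeff_reflect, revAt_invol]
    rw [h4, h4] at h3
    exact h3

/-! ### Moebius transformations -/

section
variable {k : Type} [Field k] (α β γ δ : k)

theorem moe_max (h : α * δ - β * γ ≠ 0) :
    max (C α * X + C β : k[X]).natDegree (C γ * X + C δ : k[X]).natDegree = 1 := by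
  apply le_antisymm (max_le (natDegree_linear_le) (natDegree_linear_le))
  by_cases hα : α = 0
  · have hγ : γ ≠ 0 := by
      rintro rfl
      apply h
      rw [hα]
      ring
    exact le_max_of_le_right (natDegree_linear hγ).ge
  · exact le_max_of_le_left (natDegree_linear hα).ge

theorem moe_cop (h : α * δ - β * γ ≠ 0) :
    IsCoprime (C α * X + C β : k[X]) (C γ * X + C δ) := by
  refine ⟨C (-γ / (α * δ - β * γ)), C (α / (α * δ - β * γ)), ?_⟩
  have h1 : C (-γ / (α * δ - β * γ)) * (C α * X + C β) + C (α / (α * δ - β * γ)) *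
      (C γ * X + C δ) = C ((-γ / (α * δ - β * γ)) * β + (α / (α * δ - β * γ)) * δ) +
        C ((-γ / (α * δ - β * γ)) * α + (α / (α * δ - β * γ)) * γ) * X := by
    simp only [C_add, C_mul]
    ring
  rw [h1]
  have h2 : (-γ / (α * δ - β * γ)) * β + (α / (α * δ - β * γ)) * δ = 1 := by
    rw [div_mul_eq_mul_div, div_mul_eq_mul_div, ← add_div, div_eq_one_iff_eq h]
    ring
  have h3 : (-γ / (α * δ - β * γ)) * α + (α / (α * δ - β * γ)) * γ = 0 := by
    rw [div_mul_eq_mul_div, div_mul_eq_mul_div, ← add_div, div_eq_zero_iff]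
    left
    ring
  rw [h2, h3]
  simp

theorem moe_ld (h : α * δ - β * γ ≠ 0) (x : Option k) :
    ld (C α * X + C β) (C γ * X + C δ) x = 1 := by
  cases x with
  | some a =>
    refine mult_eq (Q := C (α * δ - β * γ)) ?_ (by rwa [eval_C])
    simp only [eval_add, eval_mul, eval_C, eval_X]
    simp only [C_add, C_mul, C_sub]
    ring
  | none =>
    show rootMultiplicity 0 (C _ * reflect _ _ - C _ * reflect _ _) = 1
    rw [moe_max α β γ δ h]
    refine mult_eq (Q := C (-(α * δ - β * γ))) ?_ (by rwa [eval_C, neg_ne_zero])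
    have hr : ∀ a b : k, reflect 1 (C a * X + C b) = C a + C b * X := by
      intro a b
      rw [reflect_add, reflect_C_mul]
      have h1 : reflect 1 (X : k[X]) = 1 := by
        have := reflect_monomial (R := k) 1 1
        rw [revAt_le le_rfl, Nat.sub_self, pow_zero, pow_one] at this
        exact this
      have h2 : reflect 1 (C b : k[X]) = C b * X := by
        rw [reflect_C, pow_one]
      rw [h1, h2, mul_one]
    rw [hr, hr]
    have h3 : ∀ a b : k, (C a * X + C b : k[X]).coeff 1 = a := by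
      intro a b
      rw [coeff_add, coeff_C_mul_X]
      simp
    rw [h3, h3]
    simp only [C_mul, C_sub, C_neg, C_0]
    ring

theorem moe_some (c : k) : rmap (C α * X + C β) (C γ * X + C δ) (some c) =
    open scoped Classical in
    if γ * c + δ = 0 then none else some ((α * c + β) / (γ * c + δ)) := by
  have h : ∀ a b : k, (C a * X + C b : k[X]).eval c = a * c + b := by
    intro a b
    simp
  simp only [rmap]
  rw [h, h]

theorem moe_none (h : α * δ - β * γ ≠ 0) : rmap (C α * X + C β) (C γ * X + C δ) none =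
    open scoped Classical in if γ = 0 then none else some (α / γ) := by
  have h3 : ∀ a b : k, (C a * X + C b : k[X]).coeff 1 = a := by
    intro a b
    rw [coeff_add, coeff_C_mul_X]
    simp
  simp only [rmap]
  rw [moe_max α β γ δ h, h3, h3]

theorem moe_inj (h : α * δ - β * γ ≠ 0) :
    Function.Injective (rmap (C α * X + C β) (C γ * X + C δ)) := by
  intro x y hxy
  cases x with
  | some c =>
    cases y with
    | some d =>
      rw [moe_some, moe_some] at hxy
      congr 1
      split_ifs at hxy with h1 h2 h2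
      · have hγ : γ ≠ 0 := by
          rintro rfl
          apply h
          rw [zero_mul, zero_add] at h1
          rw [h1]
          ring
        apply mul_left_cancel₀ hγ
        linear_combination h1 - h2
      · rw [Option.some_inj, div_eq_div_iff h1 h2] at hxy
        apply mul_left_cancel₀ h
        linear_combination hxy
    | none =>
      rw [moe_some, moe_none _ _ _ _ h] at hxy
      split_ifs at hxy with h1 h2 h2
      · exfalso
        apply h
        rw [h2, zero_mul, zero_add] at h1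
        rw [h1, h2]
        ring
      · exfalso
        rw [Option.some_inj, div_eq_div_iff h1 h2] at hxy
        apply h
        linear_combination -hxy
  | none =>
    cases y with
    | some d =>
      rw [moe_some, moe_none _ _ _ _ h] at hxy
      split_ifs at hxy with h1 h2 h2
      · exfalso
        apply h
        rw [h1, zero_mul, zero_add] at h2
        rw [h1, h2]
        ring
      · exfalso
        rw [Option.some_inj, div_eq_div_iff h1 h2] at hxy
        apply h
        linear_combination hxy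
    | none => rfl

theorem moe_exists (x₁ x₂ x₃ : Option k) (h12 : x₁ ≠ x₂) (h13 : x₁ ≠ x₃) (h23 : x₂ ≠ x₃) :
    ∃ α β γ δ : k, α * δ - β * γ ≠ 0 ∧
      rmap (C α * X + C β) (C γ * X + C δ) (some 0) = x₁ ∧
      rmap (C α * X + C β) (C γ * X + C δ) (some 1) = x₂ ∧
      rmap (C α * X + C β) (C γ * X + C δ) none = x₃ := by
  rcases x₃ with _ | c
  · rcases x₁ with _ | a
    · exact absurd rfl h13
    rcases x₂ with _ | b
    · exact absurd rfl h23
    have hab : b - a ≠ 0 := fun h => h12 (by rw [sub_eq_zero.1 h])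
    refine ⟨b - a, a, 0, 1, by simpa using hab, ?_, ?_, ?_⟩
    · rw [moe_some]
      simp
    · rw [moe_some]
      simp
    · rw [moe_none _ _ _ _ (by simpa using hab)]
      simp
  · rcases x₁ with _ | a
    · rcases x₂ with _ | b
      · exact absurd rfl h12
      have hbc : b - c ≠ 0 := fun h => h23 (by rw [sub_eq_zero.1 h])
      have hd : c * 0 - (b - c) * 1 ≠ 0 := by
        rw [mul_zero, zero_sub, mul_one]
        exact neg_ne_zero.2 hbc
      refine ⟨c, b - c, 1, 0, hd, ?_, ?_, ?_⟩
      · rw [moe_some]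
        simp
      · rw [moe_some]
        simp
      · rw [moe_none _ _ _ _ hd]
        simp
    · have hac : c - a ≠ 0 := fun h => h13 (by rw [sub_eq_zero.1 h])
      rcases x₂ with _ | b
      · have hd : c * (-1) - (-a) * 1 ≠ 0 := by
          intro h0
          apply hac
          linear_combination -h0
        refine ⟨c, -a, 1, -1, hd, ?_, ?_, ?_⟩
        · rw [moe_some]
          simp
        · rw [moe_some]
          simp
        · rw [moe_none _ _ _ _ hd]
          simp
      · have hab : a - b ≠ 0 := fun h => h12 (by rw [sub_eq_zero.1 h])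
        have hbc : b - c ≠ 0 := fun h => h23 (by rw [sub_eq_zero.1 h])
        have hd : (c * (a - b)) * (b - c) - (a * (b - c)) * (a - b) ≠ 0 := by
          have : (c * (a - b)) * (b - c) - (a * (b - c)) * (a - b) =
              (c - a) * ((a - b) * (b - c)) := by ring
          rw [this]
          exact mul_ne_zero hac (mul_ne_zero hab hbc)
        refine ⟨c * (a - b), a * (b - c), a - b, b - c, hd, ?_, ?_, ?_⟩
        · rw [moe_some, if_neg (by simpa using hbc)]
          congr 1
          rw [mul_zero, mul_zero, zero_add, zero_add, mul_div_assoc, div_self hbc, mul_one]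
        · have h1 : (a - b) * 1 + (b - c) ≠ 0 := by
            intro h0
            apply hac
            linear_combination -h0
          rw [moe_some, if_neg h1]
          congr 1
          rw [div_eq_iff h1]
          ring
        · rw [moe_none _ _ _ _ hd, if_neg hab]
          congr 1
          rw [mul_div_assoc, div_self hab, mul_one]

end

/-! ### Three points -/

/-- the three points in standard position -/
theorem norm3 {k L : Type} [Field k] [IsAlgClosed k] [CharZero k] [Field L] [Algebra k L] (u : L)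
    (hu : Transcendental k u) (hfin : FiniteDimensional (adjoin k {u}) L) (x₁ x₂ x₃ : Option k)
    (h12 : x₁ ≠ x₂) (h13 : x₁ ≠ x₃) (h23 : x₂ ≠ x₃) (a b c : ℕ) (ha : 1 ≤ a) (hb : 1 ≤ b)
    (hc : 1 ≤ c) (h1 : SpO k L u a x₁) (h2 : SpO k L u b x₂) (h3 : SpO k L u c x₃)
    (h : ∀ x, x ≠ x₁ → x ≠ x₂ → x ≠ x₃ → SpO k L u 1 x) :
    ∃ (L' : Type) (_ : Field L') (_ : Algebra k L') (t : L'), Transcendental k t ∧
      FiniteDimensional (adjoin k {t}) L' ∧ SpO k L' t a (some 0) ∧ SpO k L' t b (some 1) ∧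
      SpO k L' t c none ∧ (∀ x, x ≠ some 0 → x ≠ some 1 → x ≠ none → SpO k L' t 1 x) ∧
      ∀ D, Rat k L' t D → Rat k L u D := by
  obtain ⟨α, β, γ, δ, hd, e1, e2, e3⟩ := moe_exists x₁ x₂ x₃ h12 h13 h23
  have hm := moe_max α β γ δ hd
  obtain ⟨L', i1, i2, t, ht, hft, hS, hR⟩ := step u hu hfin _ _ (moe_cop α β γ δ hd) hm.ge
  have key : ∀ (e : ℕ) (x : Option k), 1 ≤ e →
      SpO k L u e (rmap (C α * X + C β) (C γ * X + C δ) x) → SpO k L' t e x := by
    intro e x he h
    refine hS e x he ?_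
    rw [moe_ld α β γ δ hd, one_mul]
    exact h
  have hinj := moe_inj α β γ δ hd
  refine ⟨L', i1, i2, t, ht, hft, key a _ ha (by rwa [e1]), key b _ hb (by rwa [e2]),
    key c _ hc (by rwa [e3]), ?_, ?_⟩
  · intro x hx1 hx2 hx3
    refine key 1 x le_rfl (h _ ?_ ?_ ?_)
    · rw [← e1]
      exact hinj.ne hx1
    · rw [← e2]
      exact hinj.ne hx2
    · rw [← e3]
      exact hinj.ne hx3
  · intro D hD
    have h4 := hR D hD
    rwa [hm, one_mul] at h4

/-- Two ramified points. -/
theorem cyc {k L : Type} [Field k] [IsAlgClosed k] [CharZero k] [Field L] [Algebra k L] (u : L)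
    (hu : Transcendental k u) (hfin : FiniteDimensional (adjoin k {u}) L) (x₁ x₂ : Option k)
    (h12 : x₁ ≠ x₂) (n : ℕ) (hn : 1 ≤ n) (h1 : SpO k L u n x₁)
    (h : ∀ x, x ≠ x₁ → x ≠ x₂ → SpO k L u 1 x) : Rat k L u n := by
  obtain ⟨x₃, hx₃⟩ : ∃ x₃ : Option k, x₃ ∉ ({x₁, x₂} : Set (Option k)) :=
    (Set.toFinite ({x₁, x₂} : Set (Option k))).exists_notMem
  simp only [Set.mem_insert_iff, Set.mem_singleton_iff, not_or] at hx₃
  obtain ⟨e, he, h2⟩ := exists_spO u hu hfin x₂
  obtain ⟨L', i1, i2, t, ht, hft, s1, s2, s3, s4, hR⟩ := norm3 u hu hfin x₁ x₃ x₂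
    (Ne.symm hx₃.1) h12 hx₃.2 n 1 e hn le_rfl he h1 (h x₃ hx₃.1 hx₃.2) h2
    (fun x hx1 _ hx2 => h x hx1 hx2)
  apply hR
  obtain ⟨L'', j1, j2, ι, s, hs, hs2⟩ := y6 p2r p2e p2d p3 k L' t 0 n ht hft hn
    (by
      intro b hb
      by_cases hb1 : b = 1
      · rw [hb1]
        exact s2
      · exact s4 (some b) (fun h => hb (Option.some_inj.1 h)) (fun h => hb1 (Option.some_inj.1 h))
          (by simp)) s1
  have h5 : ι t = s ^ n := by rw [hs, map_zero, zero_add]
  have h6 : Transcendental k s := by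
    intro h7
    apply ht
    have h8 := h7.pow n
    rw [← h5] at h8
    exact (isAlgebraic_algHom_iff ι ι.injective).1 h8
  have hcop : IsCoprime (X ^ n : k[X]) 1 := isCoprime_one_right
  have hm : max (X ^ n : k[X]).natDegree (1 : k[X]).natDegree = n := by simp
  have h7 := rel_AB (u' := ι t) hcop (by rw [hm]; exact hn) h6 (by simp [h5])
  rw [hm] at h7
  refine ⟨L'', j1, j2, ι, s, hs2, h6, ?_, ?_⟩
  · rw [← hs2, h7]
    omega
  · rw [← hs2, h7]

theorem spO_ld {k L : Type} [Field k] [IsAlgClosed k] [CharZero k] [Field L] [Algebra k L] {u : L}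
    (hu : Transcendental k u) (hfin : FiniteDimensional (adjoin k {u}) L) {A B : k[X]}
    (hcop : IsCoprime A B) (h1 : 1 ≤ max A.natDegree B.natDegree) (x : Option k) {e : ℕ}
    (he : 1 ≤ e) (h : SpO k L u e (rmap A B x)) : SpO k L u (ld A B x * e) (rmap A B x) := by
  rw [mul_comm]
  exact spO_mul u hu hfin _ he (ld_pos hcop h1 x) h

theorem rmap_some {k : Type} [Field k] (A B : k[X]) {c : k} (h : B.eval c ≠ 0) :
    rmap A B (some c) = some (A.eval c / B.eval c) := by
  simp only [rmap]
  rw [if_neg h]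

/-- Two points of index two and a third point. -/
theorem dih {k L : Type} [Field k] [IsAlgClosed k] [CharZero k] [Field L] [Algebra k L] (u : L)
    (hu : Transcendental k u) (hfin : FiniteDimensional (adjoin k {u}) L) (x₁ x₂ x₃ : Option k)
    (h12 : x₁ ≠ x₂) (h13 : x₁ ≠ x₃) (h23 : x₂ ≠ x₃) (n : ℕ) (hn : 1 ≤ n)
    (h1 : SpO k L u 2 x₁) (h2 : SpO k L u 2 x₂) (h3 : SpO k L u n x₃)
    (h : ∀ x, x ≠ x₁ → x ≠ x₂ → x ≠ x₃ → SpO k L u 1 x) : Rat k L u (2 * n) := by
  obtain ⟨L', i1, i2, t, ht, hft, s1, s2, s3, s4, hR⟩ := norm3 u hu hfin x₁ x₂ x₃ h12 h13 h23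
    2 2 n (by norm_num) (by norm_num) hn h1 h2 h3 h
  apply hR
  -- u = (t + 1) ^ 2 / (4 t)
  let A : k[X] := (X + 1) ^ 2
  let B : k[X] := C 4 * X
  have h4 : (4 : k) ≠ 0 := by norm_num
  have hA2 : A.natDegree = 2 := by
    show ((X + 1) ^ 2 : k[X]).natDegree = 2
    rw [natDegree_pow, show (X + 1 : k[X]) = X + C 1 by simp, natDegree_X_add_C]
  have hB1 : B.natDegree = 1 := natDegree_C_mul_X 4 h4
  have hm : max A.natDegree B.natDegree = 2 := by
    rw [hA2, hB1]
    rfl
  have hcop : IsCoprime A B := by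
    refine ⟨1, -C (1 / 4) * (X + 2), ?_⟩
    show 1 * (X + 1) ^ 2 + -C (1 / 4) * (X + 2) * (C 4 * X) = 1
    have : (C (1 / 4) * C 4 : k[X]) = 1 := by
      rw [← C_mul, one_div, inv_mul_cancel₀ h4, C_1]
    linear_combination -(X + 2) * X * this
  have hAe : ∀ c : k, A.eval c = (c + 1) ^ 2 := by
    intro c
    simp [A]
  have hBe : ∀ c : k, B.eval c = 4 * c := by
    intro c
    simp [B]
  obtain ⟨L'', j1, j2, s, hs, hfs, hS, hR'⟩ := step t ht hft A B hcop (by rw [hm]; norm_num)
  rw [hm] at hR'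
  apply hR'
  have h1m : 1 ≤ max A.natDegree B.natDegree := by rw [hm]; norm_num
  refine cyc s hs hfs (some 0) none (by simp) n hn ?_ ?_
  · refine hS n _ hn (spO_ld ht hft hcop h1m _ hn ?_)
    have : rmap A B (some 0) = none := by
      simp only [rmap]
      rw [if_pos (by rw [hBe, mul_zero])]
    rw [this]
    exact s3
  · intro x hx0 hxn
    rcases x with _ | c
    · exact absurd rfl hxn
    have hc : c ≠ 0 := fun h => hx0 (by rw [h])
    have hBc : B.eval c ≠ 0 := by
      rw [hBe]
      exact mul_ne_zero h4 hc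
    apply hS 1 _ le_rfl
    have hr := rmap_some A B hBc
    by_cases hc1 : c = -1
    · have hld : ld A B (some c) = 2 := by
        refine mult_eq (Q := C (-4)) ?_ (by rw [eval_C]; exact neg_ne_zero.2 h4)
        rw [hAe, hBe, hc1]
        show C (4 * -1) * (X + 1) ^ 2 - C ((-1 + 1) ^ 2) * (C 4 * X) = _
        simp only [C_mul, C_neg, C_1, neg_add_cancel]
        simp
        ring
      rw [hld, mul_one, hr, hAe, hc1, neg_add_cancel]
      simpa using s1
    by_cases hc2 : c = 1
    · have hld : ld A B (some c) = 2 := by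
        refine mult_eq (Q := C 4) ?_ (by rw [eval_C]; exact h4)
        rw [hAe, hBe, hc2]
        show C (4 * 1) * (X + 1) ^ 2 - C ((1 + 1) ^ 2) * (C 4 * X) = _
        have e1 : ((1 : k) + 1) ^ 2 = 4 := by norm_num
        have e2 : (C 4 : k[X]) = 4 := map_ofNat C 4
        rw [mul_one, e1, C_1, e2]
        ring
      have hv : A.eval c / B.eval c = 1 := by
        rw [hAe, hBe, hc2]
        norm_num
      rw [hld, mul_one, hr, hv]
      exact s2
    · refine spO_ld ht hft hcop h1m _ le_rfl ?_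
      rw [hr]
      refine s4 _ ?_ ?_ (by simp)
      · intro h5
        have h6 := Option.some_inj.1 h5
        rw [div_eq_zero_iff, hAe] at h6
        rcases h6 with h6 | h6
        · apply hc1
          have h7 := pow_eq_zero_iff (two_ne_zero) |>.1 h6
          linear_combination h7
        · exact hBc h6
      · intro h5
        have h6 := Option.some_inj.1 h5
        rw [div_eq_one_iff_eq hBc, hAe, hBe] at h6
        apply hc2
        have h7 : (c - 1) ^ 2 = 0 := by linear_combination h6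
        have h8 := pow_eq_zero_iff (two_ne_zero) |>.1 h7
        linear_combination h8

/-- facts on `X ^ m / 1` -/
theorem pow_facts {k : Type} [Field k] (m : ℕ) (hm : 1 ≤ m) :
    IsCoprime (X ^ m : k[X]) 1 ∧ max (X ^ m : k[X]).natDegree (1 : k[X]).natDegree = m ∧
    (∀ c : k, rmap (X ^ m : k[X]) 1 (some c) = some (c ^ m)) ∧
    rmap (X ^ m : k[X]) 1 none = none ∧ ld (X ^ m : k[X]) 1 (some 0) = m ∧
    ld (X ^ m : k[X]) 1 none = m := by
  have hmax : max (X ^ m : k[X]).natDegree (1 : k[X]).natDegree = m := by simp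
  have hco : (1 : k[X]).coeff m = 0 := by
    rw [coeff_one, if_neg (by omega)]
  refine ⟨isCoprime_one_right, hmax, ?_, ?_, ?_, ?_⟩
  · intro c
    rw [rmap_some _ _ (by simp)]
    simp
  · simp only [rmap]
    rw [hmax, if_pos hco]
  · refine mult_eq (Q := 1) ?_ (by simp)
    simp
    omega
  · show rootMultiplicity 0 (C _ * reflect _ _ - C _ * reflect _ _) = m
    rw [hmax]
    refine mult_eq (Q := -1) ?_ (by simp)
    have h1 : reflect m (1 : k[X]) = X ^ m := by
      have := reflect_C (R := k) 1 m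
      rwa [C_1, one_mul] at this
    rw [h1, hco]
    simp

/-- Indices two, three, three. -/
theorem tet {k L : Type} [Field k] [IsAlgClosed k] [CharZero k] [Field L] [Algebra k L] (u : L)
    (hu : Transcendental k u) (hfin : FiniteDimensional (adjoin k {u}) L) (x₁ x₂ x₃ : Option k)
    (h12 : x₁ ≠ x₂) (h13 : x₁ ≠ x₃) (h23 : x₂ ≠ x₃)
    (h1 : SpO k L u 2 x₁) (h2 : SpO k L u 3 x₂) (h3 : SpO k L u 3 x₃)
    (h : ∀ x, x ≠ x₁ → x ≠ x₂ → x ≠ x₃ → SpO k L u 1 x) : Rat k L u 12 := by
  obtain ⟨L', i1, i2, t, ht, hft, s1, s2, s3, s4, hR⟩ := norm3 u hu hfin x₂ x₁ x₃ h12.symm h23 h13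
    3 2 3 (by norm_num) (by norm_num) (by norm_num) h2 h1 h3 (fun x a b c => h x b a c)
  apply hR
  obtain ⟨hcop, hm, hrs, hrn, hl0, hln⟩ := pow_facts (k := k) 3 (by norm_num)
  have h1m : 1 ≤ max (X ^ 3 : k[X]).natDegree (1 : k[X]).natDegree := by rw [hm]; norm_num
  obtain ⟨L'', j1, j2, w, hw, hfw, hS, hR'⟩ := step t ht hft _ _ hcop h1m
  rw [hm] at hR'
  apply hR' 4
  obtain ⟨s, hs⟩ := IsAlgClosed.exists_pow_nat_eq (-3 : k) (n := 2) (by norm_num)
  have hs0 : s ≠ 0 := by
    rintro rfl
    norm_num at hs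
  have h2k : (2 : k) ≠ 0 := two_ne_zero
  have hs3 : s ≠ 3 := by
    rintro rfl
    norm_num at hs
  have hs3' : s ≠ -3 := by
    rintro rfl
    norm_num at hs
  have g1 : (1 : k) ≠ (-1 + s) / 2 := by
    intro h0
    rw [eq_div_iff h2k] at h0
    apply hs3
    linear_combination -h0
  have g2 : (1 : k) ≠ (-1 - s) / 2 := by
    intro h0
    rw [eq_div_iff h2k] at h0
    apply hs3'
    linear_combination h0
  have g3 : (-1 + s) / 2 ≠ (-1 - s) / 2 := by
    intro h0
    rw [div_left_inj' h2k] at h0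
    apply hs0
    have h5 : 2 * s = 0 := by linear_combination h0
    exact (mul_eq_zero.1 h5).resolve_left h2k
  have hcube : ∀ c : k, c ^ 3 = 1 → SpO k L'' w 2 (some c) := by
    intro c hc
    refine hS 2 _ (by norm_num) (spO_ld ht hft hcop h1m _ (by norm_num) ?_)
    rw [hrs, hc]
    exact s2
  have c1 : ((-1 + s) / 2) ^ 3 = 1 := by
    have h6 : (-1 + s) ^ 3 = 8 := by linear_combination (s - 3) * hs
    rw [div_pow, h6]
    norm_num
  have c2 : ((-1 - s) / 2) ^ 3 = 1 := by
    have h6 : (-1 - s) ^ 3 = 8 := by linear_combination (-s - 3) * hs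
    rw [div_pow, h6]
    norm_num
  refine dih w hw hfw (some 1) (some ((-1 + s) / 2)) (some ((-1 - s) / 2))
    (fun h0 => g1 (Option.some_inj.1 h0)) (fun h0 => g2 (Option.some_inj.1 h0))
    (fun h0 => g3 (Option.some_inj.1 h0)) 2 (by norm_num) (hcube 1 (one_pow 3)) (hcube _ c1)
    (hcube _ c2) ?_
  intro x n1 n2 n3
  apply hS 1 x le_rfl
  rcases x with _ | c
  · rw [hln, hrn]
    exact s3
  by_cases hc : c = 0
  · rw [hc, hl0, hrs, zero_pow (by norm_num)]
    exact s1
  · refine spO_ld ht hft hcop h1m _ le_rfl ?_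
    rw [hrs]
    refine s4 _ ?_ ?_ (by simp)
    · intro h5
      exact hc (pow_eq_zero_iff (by norm_num) |>.1 (Option.some_inj.1 h5))
    · intro h5
      have h6 := Option.some_inj.1 h5
      have h7 : (c - 1) * ((c - (-1 + s) / 2) * (c - (-1 - s) / 2)) = 0 := by
        linear_combination h6 + (1 / 4) * (1 - c) * hs
      rcases mul_eq_zero.1 h7 with h8 | h8
      · exact n1 (by rw [sub_eq_zero.1 h8])
      rcases mul_eq_zero.1 h8 with h8 | h8
      · exact n2 (by rw [sub_eq_zero.1 h8])
      · exact n3 (by rw [sub_eq_zero.1 h8])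

/-- Indices two, three, four. -/
theorem oct {k L : Type} [Field k] [IsAlgClosed k] [CharZero k] [Field L] [Algebra k L] (u : L)
    (hu : Transcendental k u) (hfin : FiniteDimensional (adjoin k {u}) L) (x₁ x₂ x₃ : Option k)
    (h12 : x₁ ≠ x₂) (h13 : x₁ ≠ x₃) (h23 : x₂ ≠ x₃)
    (h1 : SpO k L u 2 x₁) (h2 : SpO k L u 3 x₂) (h3 : SpO k L u 4 x₃)
    (h : ∀ x, x ≠ x₁ → x ≠ x₂ → x ≠ x₃ → SpO k L u 1 x) : Rat k L u 24 := by
  obtain ⟨L', i1, i2, t, ht, hft, s1, s2, s3, s4, hR⟩ := norm3 u hu hfin x₁ x₂ x₃ h12 h13 h23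
    2 3 4 (by norm_num) (by norm_num) (by norm_num) h1 h2 h3 h
  apply hR
  obtain ⟨hcop, hm, hrs, hrn, hl0, hln⟩ := pow_facts (k := k) 2 (by norm_num)
  have h1m : 1 ≤ max (X ^ 2 : k[X]).natDegree (1 : k[X]).natDegree := by rw [hm]; norm_num
  obtain ⟨L'', j1, j2, w, hw, hfw, hS, hR'⟩ := step t ht hft _ _ hcop h1m
  rw [hm] at hR'
  apply hR' 12
  have h2k : (2 : k) ≠ 0 := two_ne_zero
  have g1 : (1 : k) ≠ -1 := by
    intro h0
    apply h2k
    linear_combination h0
  have hsq : ∀ c : k, c ^ 2 = 1 → SpO k L'' w 3 (some c) := by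
    intro c hc
    refine hS 3 _ (by norm_num) (spO_ld ht hft hcop h1m _ (by norm_num) ?_)
    rw [hrs, hc]
    exact s2
  refine tet w hw hfw none (some 1) (some (-1)) (by simp) (by simp)
    (fun h0 => g1 (Option.some_inj.1 h0)) ?_ (hsq 1 (one_pow 2)) (hsq (-1) (by norm_num)) ?_
  · apply hS 2 _ (by norm_num)
    rw [hln, hrn]
    exact s3
  intro x n1 n2 n3
  apply hS 1 x le_rfl
  rcases x with _ | c
  · exact absurd rfl n1
  by_cases hc : c = 0
  · rw [hc, hl0, hrs, zero_pow (by norm_num)]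
    exact s1
  · refine spO_ld ht hft hcop h1m _ le_rfl ?_
    rw [hrs]
    refine s4 _ ?_ ?_ (by simp)
    · intro h5
      exact hc (pow_eq_zero_iff (by norm_num) |>.1 (Option.some_inj.1 h5))
    · intro h5
      have h6 := Option.some_inj.1 h5
      have h7 : (c - 1) * (c + 1) = 0 := by linear_combination h6
      rcases mul_eq_zero.1 h7 with h8 | h8
      · exact n2 (by rw [sub_eq_zero.1 h8])
      · exact n3 (by rw [eq_neg_of_add_eq_zero_left h8])

/-- Indices two, three, five. -/
theorem ico {k L : Type} [Field k] [IsAlgClosed k] [CharZero k] [Field L] [Algebra k L] (u : L)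
    (hu : Transcendental k u) (hfin : FiniteDimensional (adjoin k {u}) L) (x₁ x₂ x₃ : Option k)
    (h12 : x₁ ≠ x₂) (h13 : x₁ ≠ x₃) (h23 : x₂ ≠ x₃)
    (h1 : SpO k L u 2 x₁) (h2 : SpO k L u 3 x₂) (h3 : SpO k L u 5 x₃)
    (h : ∀ x, x ≠ x₁ → x ≠ x₂ → x ≠ x₃ → SpO k L u 1 x) : Rat k L u 60 := by
  obtain ⟨L', i1, i2, t, ht, hft, s1, s2, s3, s4, hR⟩ := norm3 u hu hfin x₂ x₁ x₃ h12.symm h23 h13
    3 2 5 (by norm_num) (by norm_num) (by norm_num) h2 h1 h3 (fun x a b c => h x b a c)
  apply hR
  let A : k[X] := X ^ 3 * (2 * X ^ 2 - 5 * X + 20)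
  let B : k[X] := C (-108)
  have h108 : (-108 : k) ≠ 0 := by norm_num
  have h2k : (2 : k) ≠ 0 := two_ne_zero
  have h4k : (4 : k) ≠ 0 := by norm_num
  have hAe : ∀ c : k, A.eval c = c ^ 3 * (2 * c ^ 2 - 5 * c + 20) := by
    intro c
    simp [A]
  have hBe : ∀ c : k, B.eval c = -108 := by
    intro c
    simp [B]
  have hA' : A = C 2 * X ^ 5 + C (-5) * X ^ 4 + C 20 * X ^ 3 := by
    show X ^ 3 * (2 * X ^ 2 - 5 * X + 20) = _
    rw [map_neg, show (C 2 : k[X]) = 2 from map_ofNat C 2, show (C 5 : k[X]) = 5 from map_ofNat C 5,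
      show (C 20 : k[X]) = 20 from map_ofNat C 20]
    ring
  have hA5 : A.natDegree = 5 := by
    rw [hA']
    compute_degree!
  have hB0 : B.natDegree = 0 := natDegree_C _
  have hm : max A.natDegree B.natDegree = 5 := by
    rw [hA5, hB0]
    rfl
  have hcop : IsCoprime A B := by
    exact ⟨0, C (-1 / 108), by
      show 0 * A + C (-1 / 108) * C (-108) = 1
      rw [zero_mul, zero_add, ← C_mul, ← C_1]
      congr 1
      norm_num⟩
  have h1m : 1 ≤ max A.natDegree B.natDegree := by rw [hm]; norm_num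
  obtain ⟨L'', j1, j2, w, hw, hfw, hS, hR'⟩ := step t ht hft A B hcop h1m
  rw [hm] at hR'
  apply hR' 12
  have hrs : ∀ c : k, rmap A B (some c) = some (c ^ 3 * (2 * c ^ 2 - 5 * c + 20) / (-108)) := by
    intro c
    rw [rmap_some A B (by rw [hBe]; exact h108), hAe, hBe]
  have hB5 : B.coeff 5 = 0 := by
    show (C (-108) : k[X]).coeff 5 = 0
    rw [coeff_C, if_neg (by norm_num)]
  have hA5c : A.coeff 5 = 2 := by
    rw [hA']
    simp [coeff_X_pow]
  have hrn : rmap A B none = none := by
    simp only [rmap]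
    rw [hm, if_pos hB5]
  have hln : ld A B none = 5 := by
    show rootMultiplicity 0 (C _ * reflect _ _ - C _ * reflect _ _) = 5
    rw [hm, hB5, hA5c]
    refine mult_eq (Q := C 216) ?_ (by simp)
    have h5 : reflect 5 B = C (-108) * X ^ 5 := by
      show reflect 5 (C (-108) : k[X]) = _
      rw [reflect_C]
    rw [h5]
    simp only [C_0, zero_mul, zero_sub, sub_zero]
    rw [← mul_assoc, ← C_mul, ← neg_mul, ← C_neg, mul_comm]
    congr 2
    norm_num
  have hl0 : ld A B (some 0) = 3 := by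
    refine mult_eq (Q := C (-108) * (2 * X ^ 2 - 5 * X + 20)) ?_ (by simp)
    rw [hAe, hBe]
    show C (-108) * (X ^ 3 * (2 * X ^ 2 - 5 * X + 20)) - _ = _
    simp
    ring
  obtain ⟨s, hs⟩ := IsAlgClosed.exists_pow_nat_eq (-135 : k) (n := 2) (by norm_num)
  have hs0 : s ≠ 0 := by
    rintro rfl
    norm_num at hs
  have g1 : (-3 / 2 : k) ≠ (5 + s) / 4 := by
    intro h0
    rw [div_eq_div_iff h2k h4k] at h0
    have h5 : s = -11 := by
      apply mul_left_cancel₀ h2k
      linear_combination -h0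
    rw [h5] at hs
    norm_num at hs
  have g2 : (-3 / 2 : k) ≠ (5 - s) / 4 := by
    intro h0
    rw [div_eq_div_iff h2k h4k] at h0
    have h5 : s = 11 := by
      apply mul_left_cancel₀ h2k
      linear_combination h0
    rw [h5] at hs
    norm_num at hs
  have g3 : (5 + s) / 4 ≠ (5 - s) / 4 := by
    intro h0
    rw [div_left_inj' h4k] at h0
    apply hs0
    have h5 : 2 * s = 0 := by linear_combination h0
    exact (mul_eq_zero.1 h5).resolve_left h2k
  have hroot : ∀ c : k, 2 * c ^ 2 - 5 * c + 20 = 0 → SpO k L'' w 3 (some c) := by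
    intro c hc
    refine hS 3 _ (by norm_num) (spO_ld ht hft hcop h1m _ (by norm_num) ?_)
    rw [hrs, hc, mul_zero, zero_div]
    exact s1
  refine tet w hw hfw (some (-3 / 2)) (some ((5 + s) / 4)) (some ((5 - s) / 4))
    (fun h0 => g1 (Option.some_inj.1 h0)) (fun h0 => g2 (Option.some_inj.1 h0))
    (fun h0 => g3 (Option.some_inj.1 h0)) ?_ (hroot _ ?_) (hroot _ ?_) ?_
  · refine hS 2 _ (by norm_num) (spO_ld ht hft hcop h1m _ (by norm_num) ?_)
    rw [hrs]
    have h5 : (-3 / 2 : k) ^ 3 * (2 * (-3 / 2) ^ 2 - 5 * (-3 / 2) + 20) / (-108) = 1 := by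
      norm_num
    rw [h5]
    exact s2
  · linear_combination (1 / 8) * hs
  · linear_combination (1 / 8) * hs
  intro x n1 n2 n3
  apply hS 1 x le_rfl
  rcases x with _ | c
  · rw [hln, hrn]
    exact s3
  by_cases hc : c = 0
  · rw [hc, hl0, hrs]
    simpa using s1
  by_cases hc2 : c ^ 2 - 2 * c + 6 = 0
  · have hv : c ^ 3 * (2 * c ^ 2 - 5 * c + 20) = -108 := by
      linear_combination (2 * c + 3) * (c ^ 2 - 2 * c + 6) * hc2
    have hc1 : c ≠ 1 := by
      rintro rfl
      norm_num at hc2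
    have hc3 : 2 * c + 3 ≠ 0 := by
      intro h0
      have h5 : (4 : k) * (c ^ 2 - 2 * c + 6) = (2 * c + 3) * (2 * c - 7) + 45 := by ring
      rw [hc2, h0] at h5
      norm_num at h5
    have hld : ld A B (some c) = 2 := by
      refine mult_eq (Q := C (-108) * ((X - C (2 - c)) ^ 2 * (2 * X + 3))) ?_ ?_
      · rw [hAe, hBe, hv]
        show C (-108) * (X ^ 3 * (2 * X ^ 2 - 5 * X + 20)) - C (-108) * C (-108) = _
        have h6 : (X - C c) * (X - C (2 - c)) = (X ^ 2 - 2 * X + 6 : k[X]) := by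
          have h7 : C (c * (2 - c)) = (6 : k[X]) := by
            rw [show c * (2 - c) = 6 by linear_combination -hc2]
            exact map_ofNat C 6
          rw [C_mul, C_sub, show (C 2 : k[X]) = 2 from map_ofNat C 2] at h7
          rw [C_sub, show (C 2 : k[X]) = 2 from map_ofNat C 2]
          linear_combination h7
        have h7 : (C (-108) : k[X]) = -108 := by
          rw [map_neg]
          congr 1
        have h8 : (X - C c) ^ 2 * (C (-108) * ((X - C (2 - c)) ^ 2 * (2 * X + 3))) =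
            C (-108) * (((X - C c) * (X - C (2 - c))) ^ 2 * (2 * X + 3)) := by ring
        rw [h8, h6, h7]
        ring
      · simp only [eval_mul, eval_C, eval_pow, eval_sub, eval_add, eval_X, eval_ofNat]
        refine mul_ne_zero h108 (mul_ne_zero (pow_ne_zero _ ?_) hc3)
        intro h0
        apply hc1
        apply mul_left_cancel₀ h2k
        linear_combination h0
    rw [hld, hrs, hv, div_self h108]
    exact s2
  · refine spO_ld ht hft hcop h1m _ le_rfl ?_
    rw [hrs]
    refine s4 _ ?_ ?_ (by simp)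
    · intro h5
      have h6 := Option.some_inj.1 h5
      rw [div_eq_zero_iff] at h6
      have h7 := h6.resolve_right h108
      rcases mul_eq_zero.1 h7 with h8 | h8
      · exact hc (pow_eq_zero_iff (by norm_num) |>.1 h8)
      · have h9 : (c - (5 + s) / 4) * (c - (5 - s) / 4) = 0 := by
          linear_combination (1 / 2) * h8 - (1 / 16) * hs
        rcases mul_eq_zero.1 h9 with h9 | h9
        · exact n2 (by rw [sub_eq_zero.1 h9])
        · exact n3 (by rw [sub_eq_zero.1 h9])
    · intro h5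
      have h6 := Option.some_inj.1 h5
      rw [div_eq_one_iff_eq h108] at h6
      have h7 : (c ^ 2 - 2 * c + 6) ^ 2 * (2 * c + 3) = 0 := by linear_combination h6
      rcases mul_eq_zero.1 h7 with h8 | h8
      · exact hc2 (pow_eq_zero_iff (by norm_num) |>.1 h8)
      · apply n1
        congr 1
        rw [eq_div_iff h2k]
        linear_combination h8

/-- A subfield of a rational field. -/
theorem of_rat {k L : Type} [Field k] [Field L] [Algebra k L] (u : L) (hu : Transcendental k u)
    (D : ℕ) (h : Rat k L u D) : Module.finrank (adjoin k {u}) L ≤ D ∧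
      ∃ t : L, Transcendental k t ∧ adjoin k {t} = ⊤ := by
  obtain ⟨L', i1, i2, ι, t, ht, htr, h0, hD⟩ := h
  refine ⟨?_, Lur85.lur ι t ht htr u hu⟩
  have h3 : adjoin k {ι u} ≤ ι.fieldRange := by
    rw [adjoin_simple_le_iff]
    exact ⟨u, rfl⟩
  have h4 := relfinrank_mul_relfinrank h3 (le_top : ι.fieldRange ≤ ⊤)
  rw [← h4] at h0 hD
  rw [rel_map, relfinrank_top_right] at h0 hD
  exact (Nat.le_mul_of_pos_right _ (Nat.pos_of_ne_zero (right_ne_zero_of_mul h0))).trans hD

theorem rat_mono {k L : Type} [Field k] [Field L] [Algebra k L] {u : L} {D D' : ℕ} (h : D ≤ D')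
    (hR : Rat k L u D) : Rat k L u D' := by
  obtain ⟨L', i1, i2, ι, t, ht, htr, h0, hD⟩ := hR
  exact ⟨L', i1, i2, ι, t, ht, htr, h0, hD.trans h⟩

/-- **Row COV**: the spherical signatures. -/
theorem bdd_types {k L : Type} [Field k] [IsAlgClosed k] [CharZero k] [Field L] [Algebra k L]
    (u : L) (hu : Transcendental k u) (hfin : FiniteDimensional (adjoin k {u}) L) (Q : ℕ)
    (r : Option k → ℕ) (hpos : ∀ x, 1 ≤ r x) (hr : ∀ x, SpO k L u (r x) x)
    (h : (∃ a b, r a ≤ Q ∧ ∀ c, c ≠ a → c ≠ b → r c = 1) ∨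
      ((∀ x, r x ≤ Q) ∧ ∃ a b c, a ≠ b ∧ a ≠ c ∧ b ≠ c ∧
        (∀ x, x ≠ a → x ≠ b → x ≠ c → r x = 1) ∧ r a = 2 ∧
        (r b = 2 ∨ (r b = 3 ∧ (r c = 3 ∨ r c = 4 ∨ r c = 5))))) :
    Module.finrank (adjoin k {u}) L ≤ max 60 (2 * Q) ∧
      ∃ t : L, Transcendental k t ∧ adjoin k {t} = ⊤ := by
  apply of_rat u hu
  rcases h with ⟨a, b, ha, hab⟩ | ⟨hQ, a, b, c, h12, h13, h23, hx, h2, hbc⟩
  · refine rat_mono (D := r a) (by omega) ?_
    by_cases hne : a = b
    · obtain ⟨x₃, hx₃⟩ : ∃ x₃ : Option k, x₃ ∉ ({a} : Set (Option k)) :=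
        (Set.toFinite ({a} : Set (Option k))).exists_notMem
      rw [Set.mem_singleton_iff] at hx₃
      refine cyc u hu hfin a x₃ (Ne.symm hx₃) (r a) (hpos a) (hr a) fun x h1 _ => ?_
      have h3 := hr x
      rwa [hab x h1 (by rwa [← hne])] at h3
    · refine cyc u hu hfin a b hne (r a) (hpos a) (hr a) fun x h1 h2 => ?_
      have h3 := hr x
      rwa [hab x h1 h2] at h3
  · have hx' : ∀ x, x ≠ a → x ≠ b → x ≠ c → SpO k L u 1 x := by
      intro x n1 n2 n3
      have h3 := hr x
      rwa [hx x n1 n2 n3] at h3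
    have ea := hr a
    rw [h2] at ea
    have eb := hr b
    have ec := hr c
    rcases hbc with hb | ⟨hb, hc | hc | hc⟩
    · rw [hb] at eb
      have hc := hQ c
      exact rat_mono (D := 2 * r c) (by omega)
        (dih u hu hfin a b c h12 h13 h23 (r c) (hpos c) ea eb ec hx')
    · rw [hb] at eb
      rw [hc] at ec
      exact rat_mono (D := 12) (by omega) (tet u hu hfin a b c h12 h13 h23 ea eb ec hx')
    · rw [hb] at eb
      rw [hc] at ec
      exact rat_mono (D := 24) (by omega) (oct u hu hfin a b c h12 h13 h23 ea eb ec hx')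
    · rw [hb] at eb
      rw [hc] at ec
      exact rat_mono (D := 60) (by omega) (ico u hu hfin a b c h12 h13 h23 ea eb ec hx')

end Pool.DynLehmer.UN.Cov21

/-!
# The lifts have bounded degree and are rational
-/

namespace Pool.DynLehmer.UN.Orb
open MvPolynomial Pool.DynLehmer Pool.DynLehmer.GS Pool.DynLehmer.UN IntermediateField

theorem bdd60 (hidx : GtidxStatement) : BddStatement := by
  intro k _ _ _ q F hq hF hnp
  refine ⟨max 60 (2 * (2 * q ^ 5)), ?_⟩
  intro L _ _ M u φ hM hG
  obtain ⟨r, hr, hS⟩ := hidx k L q F M u φ hq hF hM hG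
  refine Cov21.bdd_types u hG.tr hG.fin (2 * q ^ 5) (r 0) (hr.pos 0) hS ?_
  have h60 : 1 ≤ q ^ 5 := Nat.one_le_pow _ _ (by omega)
  have hq5 : 2 ^ 5 ≤ q ^ 5 := Nat.pow_le_pow_left hq 5
  rcases O75.types hq hF hM hr hnp 0 with ⟨a, b, hab, hx, ha⟩ |
    ⟨a, b, c, hab, hac, hbc, hx, ha, h⟩
  · exact Or.inl ⟨a, b, ha, fun c h1 h2 => hx c h1 h2⟩
  · refine Or.inr ⟨fun x => ?_, a, b, c, hab, hac, hbc, hx, ha, ?_⟩
    · by_cases h1 : x = a
      · subst h1; omega
      by_cases h2 : x = b
      · subst h2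
        rcases h with ⟨hb, hc⟩ | ⟨hb, hc⟩ <;> omega
      by_cases h3 : x = c
      · subst h3
        rcases h with ⟨hb, hc⟩ | ⟨hb, hc | hc | hc⟩ <;> omega
      have h4 := hx x h1 h2 h3
      omega
    · rcases h with ⟨hb, hc⟩ | ⟨hb, hc⟩
      · exact Or.inl hb
      · exact Or.inr ⟨hb, hc⟩

end Pool.DynLehmer.UN.Orb

set_option linter.unusedSectionVars false

/-!
# Row MAX: the maximal lift
-/

namespace Pool.DynLehmer.UN.X24
open MvPolynomial Pool.DynLehmer Pool.DynLehmer.GS Pool.DynLehmer.UN Pool.DynLehmer.UN.Orb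
open IntermediateField Pool.DynLehmer.UN.Ra72

section
variable {k : Type} [Field k]

/-- the embedding of `L = k(t)` which sends `t` to `t'` -/
theorem exists_hom {L L' : Type} [Field L] [Algebra k L] [Field L'] [Algebra k L'] {t : L} {t' : L'}
    (ht : Transcendental k t) (htop : adjoin k {t} = ⊤) (ht' : Transcendental k t') :
    ∃ ψ : L →ₐ[k] L', ψ t = t' := by
  have h1 : adjoin k {t} = (⊤ : IntermediateField k (RatFunc k)).map (Y1b86.io ht) := by
    rw [← RatFunc.adjoin_X, adjoin_map, Set.image_singleton, Y1b86.io_X]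
  have hsurj : Function.Surjective (Y1b86.io ht) := by
    intro z
    have h2 : z ∈ (⊤ : IntermediateField k (RatFunc k)).map (Y1b86.io ht) := by
      rw [← h1, htop]; exact mem_top
    obtain ⟨w, -, hw⟩ := h2
    exact ⟨w, hw⟩
  let e : RatFunc k ≃ₐ[k] L := AlgEquiv.ofBijective (Y1b86.io ht) ⟨(Y1b86.io ht).injective, hsurj⟩
  have he : e.symm t = RatFunc.X := by
    rw [AlgEquiv.symm_apply_eq]
    exact (Y1b86.io_X ht).symm
  refine ⟨(Y1b86.io ht').comp e.symm.toAlgHom, ?_⟩
  show Y1b86.io ht' (e.symm t) = t'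
  rw [he, Y1b86.io_X]

theorem fr_congr {L : Type} [Field L] [Algebra k L] {A B : Fin 2 → MvPolynomial (Fin 2) k} {c : k}
    (hc : c ≠ 0) (h : ∀ i, A i = C c * B i) (z : L) : fr A z = fr B z := by
  have hc' : algebraMap k L c ≠ 0 := by
    rwa [Ne, map_eq_zero]
  rw [fr, fr, h 0, h 1, map_mul, map_mul, algHom_C, mul_div_mul_left _ _ hc']

/-- the first lift -/
theorem first {q : ℕ} {F : Fin 2 → MvPolynomial (Fin 2) k} (hq : 1 ≤ q) (hF : Mor q F) :
    ∃ φ : RatFunc k →ₐ[k] RatFunc k, GT k (RatFunc k) F 1 RatFunc.X φ := by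
  have hX : Transcendental k (RatFunc.X : RatFunc k) := RatFunc.transcendental_X
  have htr := Rb.trans_fr hF hq hX
  refine ⟨Y1b86.io htr, hX, ?_, ?_, ?_⟩
  · rw [RatFunc.adjoin_X]
    exact Module.Finite.of_surjective (Algebra.linearMap (⊤ : IntermediateField k (RatFunc k))
      (RatFunc k)) fun x => ⟨⟨x, mem_top⟩, rfl⟩
  · rw [Y1b86.io_X]
    rfl
  · rw [RatFunc.adjoin_X, sup_top_eq]

/-- semiconjugate forms at transcendental points -/
theorem semi_fr {q M m : ℕ} {F θ B : Fin 2 → MvPolynomial (Fin 2) k} (hq : 1 ≤ q) (hm : 1 ≤ m)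
    (hF : Mor q F) (hθ : Mor m θ) (hB : Mor (q ^ M) B) {c : k} (hc : c ≠ 0)
    (h : ∀ i, bind₁ B (θ i) = C c * bind₁ θ (itF F M i)) {L : Type} [Field L] [Algebra k L]
    {z : L} (hz : Transcendental k z) : fr θ (fr B z) = (fr F)^[M] (fr θ z) := by
  have hqM : 1 ≤ q ^ M := Nat.one_le_pow _ _ hq
  have h1 := fr_congr hc h z
  rw [fr_comp hθ hB hqM hm hz, fr_comp (Bas.mor_itF hF M) hθ hm hqM hz,
    fr_itF hF hq M (Rb.trans_fr hθ hm hz)] at h1
  exact h1

theorem semi_it {q M m : ℕ} {F θ B : Fin 2 → MvPolynomial (Fin 2) k} (hq : 1 ≤ q) (hm : 1 ≤ m)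
    (hF : Mor q F) (hθ : Mor m θ) (hB : Mor (q ^ M) B) {c : k} (hc : c ≠ 0)
    (h : ∀ i, bind₁ B (θ i) = C c * bind₁ θ (itF F M i)) {L : Type} [Field L] [Algebra k L]
    {z : L} (hz : Transcendental k z) (n : ℕ) :
    fr θ ((fr B)^[n] z) = (fr F)^[M * n] (fr θ z) := by
  have hqM : 1 ≤ q ^ M := Nat.one_le_pow _ _ hq
  induction n with
  | zero => rfl
  | succ n ih =>
    rw [Function.iterate_succ_apply',
      semi_fr hq hm hF hθ hB hc h (Rb.trans_it hB hqM hz n), ih, ← Function.iterate_add_apply,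
      Nat.mul_succ, Nat.add_comm]

/-- the field generated by an image of high order and `u` -/
theorem gen_it {L : Type} [Field L] [Algebra k L] {F : Fin 2 → MvPolynomial (Fin 2) k} {M : ℕ}
    {u t : L} {φ : L →ₐ[k] L} (h : GT k L F M u φ) (ht : adjoin k {t} = ⊤) (n : ℕ) :
    adjoin k {φ^[n] t, u} = ⊤ := by
  induction n with
  | zero =>
    apply top_le_iff.1
    rw [← ht]
    exact adjoin.mono k _ _ (by simp)
  | succ n ih =>
    apply top_le_iff.1
    rw [← h.gen]
    refine sup_le ?_ (adjoin.mono k _ _ (by simp))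
    have h1 : φ.fieldRange = (⊤ : IntermediateField k L).map φ := by
      rw [AlgHom.fieldRange_eq_map]
    rw [h1, ← ih, adjoin_map, Set.image_pair, Function.iterate_succ_apply' (⇑φ) n t]
    refine adjoin_le_iff.2 ?_
    rintro x (rfl | rfl)
    · exact subset_adjoin k _ (by simp)
    · have h2 : adjoin k {u} ≤ adjoin k {φ (φ^[n] t), u} := adjoin.mono k _ _ (by simp)
      apply h2
      rw [h.per]
      exact it_mem (mem_adjoin_simple_self k u) M

/-- the degrees of the lifts -/
def Dg (F : Fin 2 → MvPolynomial (Fin 2) k) : Set ℕ :=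
  {d | ∃ (L : Type) (_ : Field L) (_ : Algebra k L) (M : ℕ) (u : L) (φ : L →ₐ[k] L), 1 ≤ M ∧
    GT k L F M u φ ∧ Module.finrank (adjoin k {u}) L = d}

end

open scoped Classical in
/-- Row MAX. -/
theorem max24 (hb : BddStatement) : MaxStatement := by
  intro k _ _ _ q F hq hF hP
  have hq1 : 1 ≤ q := by omega
  obtain ⟨N, hN⟩ := hb k q F hq hF hP
  have hne : (Dg F).Nonempty := by
    obtain ⟨φ, hφ⟩ := first hq1 hF
    exact ⟨_, RatFunc k, _, _, 1, _, φ, le_refl 1, hφ, rfl⟩
  have hbdd : BddAbove (Dg F) := by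
    refine ⟨N, ?_⟩
    rintro d ⟨L, iL, iA, M, u, φ, hM, hGT, rfl⟩
    exact (hN L M u φ hM hGT).1
  obtain ⟨L, iL, iA, M, u, φ, hM, hGT, hd⟩ := Nat.sSup_mem hne hbdd
  have hmax : ∀ d ∈ Dg F, d ≤ sSup (Dg F) := fun d hd => le_csSup hbdd hd
  set m := sSup (Dg F) with hm
  obtain ⟨-, t, ht, htop⟩ := hN L M u φ hM hGT
  have hqM : 1 ≤ q ^ M := Nat.one_le_pow _ _ hq1
  have hfin := hGT.fin
  have hm1 : 1 ≤ m := by
    rw [← hd]
    exact Module.finrank_pos
  -- the cover
  have hφt : Transcendental k (φ t) := fun h => ht ((isAlgebraic_algHom_iff φ φ.injective).1 h)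
  obtain ⟨D₁, θ, hD₁, hθ, hθt, hr₁⟩ := exists_forms ht hGT.tr (by rw [htop]; exact mem_top)
  obtain ⟨D₂, B, hD₂, hB, hBt, hr₂⟩ := exists_forms ht hφt (by rw [htop]; exact mem_top)
  rw [htop, relfinrank_top_right, hd] at hr₁
  subst hr₁
  have hr₃ : relfinrank (adjoin k {φ u}) (adjoin k {φ t}) = m := by
    have h1 : ∀ z : L, adjoin k {φ z} = (adjoin k {z}).map φ := by
      intro z; rw [adjoin_map, Set.image_singleton]
    rw [h1, h1]
    have h2 := relfinrank_map_map (adjoin k {u}) (adjoin k {t}) φ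
    rw [h2, htop, relfinrank_top_right, hd]
  have hφu : adjoin k {φ u} ≤ adjoin k {u} := by
    refine adjoin_le_iff.2 ?_
    rintro _ rfl
    show φ u ∈ adjoin k {u}
    rw [hGT.per]
    exact it_mem (mem_adjoin_simple_self k u) M
  have hr₄ : relfinrank (adjoin k {φ u}) (adjoin k {u}) = q ^ M := by
    have h1 := relf (Bas.mor_itF hF M) hqM hGT.tr
    rw [fr_itF hF hq1 M hGT.tr] at h1
    rw [hGT.per]
    exact h1
  have hut : adjoin k {φ u} ≤ adjoin k {φ t} := by
    refine adjoin_le_iff.2 ?_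
    rintro _ rfl
    show φ u ∈ adjoin k {φ t}
    rw [← hθt, Rb.map_fr]
    exact fr_mem θ (mem_adjoin_simple_self k _)
  have hD : D₂ = q ^ M := by
    have h1 := relfinrank_mul_relfinrank hφu (le_top : adjoin k {u} ≤ ⊤)
    have h2 := relfinrank_mul_relfinrank hut (le_top : adjoin k {φ t} ≤ ⊤)
    rw [htop] at hr₂
    rw [hr₄, relfinrank_top_right, hd] at h1
    rw [hr₃, hr₂, ← h1, mul_comm] at h2
    exact Nat.eq_of_mul_eq_mul_right hm1 h2
  subst hD
  -- the functional equation
  obtain ⟨c, hc, hcc⟩ : ∃ c : k, c ≠ 0 ∧ ∀ i, bind₁ B (θ i) = C c * bind₁ θ (itF F M i) := by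
    refine prop_of (P := fun i => bind₁ B (θ i)) (Q := fun i => bind₁ θ (itF F M i))
      (mor_comp hθ hB) ?_ (Nat.mul_pos hqM hm1) ht ?_
    · rw [mul_comm]
      exact mor_comp (Bas.mor_itF hF M) hθ
    · rw [fr_comp hθ hB hqM hm1 ht, fr_comp (Bas.mor_itF hF M) hθ hm1 hqM ht, hBt, hθt,
        ← Rb.map_fr, hθt, fr_itF hF hq1 M hGT.tr]
      exact hGT.per
  refine ⟨M, m, θ, B, hM, hm1, hθ, hB, ?_, ?_⟩
  · intro P hP
    have h1 : gAct θ k (gAct B k P) =
        c • (gAct F k)^[M] (gAct θ k P) := by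
      rw [← gAct_comp, ← Bas.gAct_itF, ← gAct_comp]
      funext i
      show aeval P (bind₁ B (θ i)) = c * aeval P (bind₁ θ (itF F M i))
      rw [hcc, map_mul, algHom_C]
      rfl
    exact ⟨c, hc, h1⟩
  · intro L' _ _ M' t' φ' hM' hGT'
    have ht' := hGT'.tr
    have hfin' := hGT'.fin
    have hu' : Transcendental k (fr θ t') := Rb.trans_fr hθ hm1 ht'
    have hle : adjoin k {fr θ t'} ≤ adjoin k {t'} := by
      refine adjoin_le_iff.2 ?_
      rintro _ rfl
      exact fr_mem θ (mem_adjoin_simple_self k t')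
    have hdeg : m * Module.finrank (adjoin k {t'}) L' =
        Module.finrank (adjoin k {fr θ t'}) L' := by
      have h1 := relfinrank_mul_relfinrank hle (le_top : adjoin k {t'} ≤ ⊤)
      rw [relf hθ hm1 ht', relfinrank_top_right, relfinrank_top_right] at h1
      exact h1
    have hpos : 0 < Module.finrank (adjoin k {t'}) L' := Module.finrank_pos
    have hfin'' : FiniteDimensional (adjoin k {fr θ t'}) L' :=
      FiniteDimensional.of_finrank_pos (by rw [← hdeg]; exact Nat.mul_pos hm1 hpos)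
    have hper : φ' (fr θ t') = (fr F)^[M * M'] (fr θ t') := by
      rw [Rb.map_fr, hGT'.per]
      exact semi_it hq1 hm1 hF hθ hB hc hcc ht' M'
    have hgen : φ'.fieldRange ⊔ adjoin k {fr θ t'} = ⊤ := by
      apply top_le_iff.1
      rw [← hGT'.gen]
      refine sup_le le_sup_left ?_
      refine adjoin_le_iff.2 (Set.singleton_subset_iff.2 ?_)
      show t' ∈ φ'.fieldRange ⊔ adjoin k {fr θ t'}
      obtain ⟨ψ, hψ⟩ := exists_hom ht htop ht'
      have h1 : t ∈ adjoin k {φ^[M'] t, u} := by
        rw [gen_it hGT htop M']; exact mem_top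
      have h2 : φ^[M'] t = (fr B)^[M'] t := by
        have h3 := Rb.iter_pt (F := B) (m := 1) φ (z := t) hBt.symm M'
        rw [Nat.mul_one] at h3
        exact h3
      have h3 : ψ t ∈ (adjoin k {φ^[M'] t, u}).map ψ := ⟨t, h1, rfl⟩
      rw [adjoin_map, Set.image_pair, hψ, h2, ← hθt, Rb.map_it, Rb.map_fr, hψ] at h3
      refine (adjoin_le_iff.2 ?_ : adjoin k {(fr B)^[M'] t', fr θ t'} ≤
        φ'.fieldRange ⊔ adjoin k {fr θ t'}) h3
      rintro x (rfl | rfl)
      · apply (le_sup_left : φ'.fieldRange ≤ φ'.fieldRange ⊔ adjoin k {fr θ t'})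
        rw [← hGT'.per]
        exact ⟨t', rfl⟩
      · exact (le_sup_right : adjoin k {fr θ t'} ≤ φ'.fieldRange ⊔ adjoin k {fr θ t'})
          (mem_adjoin_simple_self k _)
    have h1 := hmax _ ⟨L', _, _, M * M', fr θ t', φ', Nat.mul_pos hM hM',
      ⟨hu', hfin'', hper, hgen⟩, rfl⟩
    rw [← hdeg] at h1
    have h2 : Module.finrank (adjoin k {t'}) L' = 1 := by
      have h3 : m * Module.finrank (adjoin k {t'}) L' ≤ m * 1 := by rw [mul_one]; exact h1
      have h4 := Nat.le_of_mul_le_mul_left h3 hm1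
      omega
    apply top_le_iff.1
    rw [← relfinrank_eq_one_iff, relfinrank_top_right]
    exact h2

end Pool.DynLehmer.UN.X24

namespace Pool.DynLehmer.UN.Orb

/-- the maximal lift -/
theorem max_all : MaxStatement := X24.max24 (bdd60 gtidx_all)

end Pool.DynLehmer.UN.Orb
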