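import Pool.Agent.Lib.MP_2194ec_nt.UN.OrbStatements

set_option autoImplicit false

/-!
# Local degrees, ramification indices of the lifts of a map and the orbifold characteristic
-/

section

/-! # Local degrees of a rational map: fibres and the Riemann-Hurwitz formula -/

namespace Pool.DynLehmer.UN.R47
open Polynomial

section

variable {k : Type} [Field k]

theorem rm_C_mul (c : k) (hc : c ≠ 0) (P : k[X]) (a : k) :
    (C c * P).rootMultiplicity a = P.rootMultiplicity a := by
  by_cases hP : P = 0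
  · rw [hP, mul_zero]
  · rw [rootMultiplicity_mul (mul_ne_zero (C_ne_zero.2 hc) hP), rootMultiplicity_C, zero_add]

theorem rm_reflect (f : k[X]) (hf : f ≠ 0) (N : ℕ) (hN : f.natDegree ≤ N) :
    (reflect N f).rootMultiplicity 0 = N - f.natDegree := by
  rw [rootMultiplicity_eq_natTrailingDegree']
  have h1 : (reflect N f).coeff (N - f.natDegree) ≠ 0 := by
    rw [coeff_refl N _ (Nat.sub_le _ _), Nat.sub_sub_self hN]
    exact leadingCoeff_ne_zero.2 hf
  have h0 : reflect N f ≠ 0 := by
    intro h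
    rw [h, coeff_zero] at h1
    exact h1 rfl
  apply le_antisymm
  · exact natTrailingDegree_le_of_ne_zero h1
  · refine le_natTrailingDegree h0 fun m hm => ?_
    rw [coeff_refl N m (by omega)]
    exact coeff_eq_zero_of_natDegree_lt (by omega)

/-- the polynomial of the fibre over a point -/
noncomputable def fibP (A B : k[X]) : Option k → k[X]
  | some b => A - C b * B
  | none => B

theorem cop_eval {A B : k[X]} (h : IsCoprime A B) (a : k) (hA : A.eval a = 0)
    (hB : B.eval a = 0) : False := by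
  obtain ⟨f, g, hfg⟩ := h
  have h1 := congrArg (eval a) hfg
  rw [eval_add, eval_mul, eval_mul, hA, hB, mul_zero, mul_zero, add_zero, eval_one] at h1
  exact zero_ne_one h1

theorem coeff_q {A B : k[X]} (h1 : 1 ≤ max A.natDegree B.natDegree)
    (hB : B.coeff (max A.natDegree B.natDegree) = 0) :
    A.coeff (max A.natDegree B.natDegree) ≠ 0 := by
  intro hA
  rcases le_total A.natDegree B.natDegree with h5 | h5
  · have h6 : max A.natDegree B.natDegree = B.natDegree := max_eq_right h5
    rw [h6] at hB h1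
    have h7 : B = 0 := leadingCoeff_eq_zero.1 hB
    rw [h7, natDegree_zero] at h1
    omega
  · have h6 : max A.natDegree B.natDegree = A.natDegree := max_eq_left h5
    rw [h6] at hA h1
    have h7 : A = 0 := leadingCoeff_eq_zero.1 hA
    rw [h7, natDegree_zero] at h1
    omega

theorem fibP_ne {A B : k[X]} (h : IsCoprime A B) (h1 : 1 ≤ max A.natDegree B.natDegree)
    (y : Option k) : fibP A B y ≠ 0 := by
  cases y with
  | none =>
    intro h0
    have h2 : B = 0 := h0
    rw [h2, isCoprime_zero_right] at h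
    rw [h2, natDegree_zero, natDegree_eq_zero_of_isUnit h] at h1
    simp at h1
  | some b =>
    intro h0
    have h2 : A = C b * B := sub_eq_zero.1 h0
    have h3 : IsUnit B := h.isUnit_of_dvd' ⟨C b, by rw [h2, mul_comm]⟩ dvd_rfl
    have h4 : B.natDegree = 0 := natDegree_eq_zero_of_isUnit h3
    have h5 : A.natDegree ≤ 0 := by
      rw [h2, ← h4]
      exact natDegree_C_mul_le _ _
    rw [h4] at h1
    have h6 : max A.natDegree 0 ≤ 0 := max_le h5 le_rfl
    omega

theorem fibP_deg (A B : k[X]) (y : Option k) :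
    (fibP A B y).natDegree ≤ max A.natDegree B.natDegree := by
  cases y with
  | none => exact le_max_right _ _
  | some b =>
    refine (natDegree_sub_le _ _).trans (max_le (le_max_left _ _) ?_)
    exact (natDegree_C_mul_le _ _).trans (le_max_right _ _)

/-- the finite points of the fibre -/
theorem fib_some {A B : k[X]} (h : IsCoprime A B) (a : k) (y : Option k) :
    rmap A B (some a) = y ↔ (fibP A B y).eval a = 0 := by
  have hr : rmap A B (some a) = open scoped Classical in
    if B.eval a = 0 then none else some (A.eval a / B.eval a) := rfl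
  rw [hr]
  cases y with
  | none =>
    show _ ↔ B.eval a = 0
    split_ifs with h0
    · simp [h0]
    · simp [h0]
  | some b =>
    show _ ↔ (A - C b * B).eval a = 0
    rw [eval_sub, eval_mul, eval_C, sub_eq_zero]
    split_ifs with h0
    · rw [h0, mul_zero]
      constructor
      · intro h2; cases h2
      · intro h2; exact (cop_eval h a h2 h0).elim
    · rw [Option.some_inj, div_eq_iff h0]

theorem fib_none {A B : k[X]} (h1 : 1 ≤ max A.natDegree B.natDegree) (y : Option k) :
    rmap A B none = y ↔ (fibP A B y).coeff (max A.natDegree B.natDegree) = 0 := by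
  have hr : rmap A B none = open scoped Classical in
    if B.coeff (max A.natDegree B.natDegree) = 0 then none else
      some (A.coeff (max A.natDegree B.natDegree) / B.coeff (max A.natDegree B.natDegree)) := rfl
  rw [hr]
  cases y with
  | none =>
    show _ ↔ B.coeff _ = 0
    split_ifs with h0
    · simp [h0]
    · simp [h0]
  | some b =>
    show _ ↔ (A - C b * B).coeff _ = 0
    rw [coeff_sub, coeff_C_mul, sub_eq_zero]
    split_ifs with h0
    · rw [h0, mul_zero]
      constructor
      · intro h2; cases h2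
      · intro h2; exact (coeff_q h1 h0 h2).elim
    · rw [Option.some_inj, div_eq_iff h0]

theorem ld_some {A B : k[X]} (h : IsCoprime A B) (a : k) (y : Option k)
    (hy : rmap A B (some a) = y) : ld A B (some a) = (fibP A B y).rootMultiplicity a := by
  have hr : rmap A B (some a) = open scoped Classical in
    if B.eval a = 0 then none else some (A.eval a / B.eval a) := rfl
  rw [hr] at hy
  show (C (B.eval a) * A - C (A.eval a) * B).rootMultiplicity a = _
  split_ifs at hy with h0
  · subst hy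
    show _ = B.rootMultiplicity a
    have hA : A.eval a ≠ 0 := fun hA => cop_eval h a hA h0
    have h2 : C (B.eval a) * A - C (A.eval a) * B = C (-A.eval a) * B := by
      rw [h0, C_0, zero_mul, zero_sub, C_neg, neg_mul]
    rw [h2, rm_C_mul _ (neg_ne_zero.2 hA)]
  · subst hy
    show _ = (A - C (A.eval a / B.eval a) * B).rootMultiplicity a
    have h2 : C (B.eval a) * A - C (A.eval a) * B =
        C (B.eval a) * (A - C (A.eval a / B.eval a) * B) := by
      rw [mul_sub, ← mul_assoc, ← C_mul, mul_div_cancel₀ _ h0]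
    rw [h2, rm_C_mul _ h0]

theorem ld_none {A B : k[X]} (h : IsCoprime A B) (h1 : 1 ≤ max A.natDegree B.natDegree)
    (y : Option k) (hy : rmap A B none = y) :
    ld A B none = max A.natDegree B.natDegree - (fibP A B y).natDegree := by
  have hr : rmap A B none = open scoped Classical in
    if B.coeff (max A.natDegree B.natDegree) = 0 then none else
      some (A.coeff (max A.natDegree B.natDegree) / B.coeff (max A.natDegree B.natDegree)) := rfl
  rw [hr] at hy
  set q := max A.natDegree B.natDegree with hq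
  rw [← rm_reflect _ (fibP_ne h h1 y) _ (fibP_deg A B y)]
  show (C (B.coeff q) * reflect q A - C (A.coeff q) * reflect q B).rootMultiplicity 0 = _
  split_ifs at hy with h0
  · subst hy
    show _ = (reflect q B).rootMultiplicity 0
    have h2 : C (B.coeff q) * reflect q A - C (A.coeff q) * reflect q B =
        C (-A.coeff q) * reflect q B := by
      rw [h0, C_0, zero_mul, zero_sub, C_neg, neg_mul]
    rw [h2, rm_C_mul _ (neg_ne_zero.2 (coeff_q h1 h0))]
  · subst hy
    show _ = (reflect q (A - C (A.coeff q / B.coeff q) * B)).rootMultiplicity 0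
    have h2 : C (B.coeff q) * reflect q A - C (A.coeff q) * reflect q B =
        C (B.coeff q) * reflect q (A - C (A.coeff q / B.coeff q) * B) := by
      rw [reflect_sub, reflect_C_mul, mul_sub, ← mul_assoc, ← C_mul, mul_div_cancel₀ _ h0]
    rw [h2, rm_C_mul _ h0]

/-- the sum of the local degrees over a fibre -/
theorem fib_sum [IsAlgClosed k] {A B : k[X]} (h : IsCoprime A B)
    (h1 : 1 ≤ max A.natDegree B.natDegree) (y : Option k) :
    ∃ S : Finset (Option k), (∀ x, x ∈ S ↔ rmap A B x = y) ∧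
      ∑ x ∈ S, ld A B x = max A.natDegree B.natDegree := by
  classical
  set H := fibP A B y with hH
  have hH0 : H ≠ 0 := fibP_ne h h1 y
  let S₁ : Finset (Option k) := H.roots.toFinset.map Function.Embedding.some
  have hS₁ : ∀ x, x ∈ S₁ ↔ ∃ a, x = some a ∧ rmap A B (some a) = y := by
    intro x
    simp only [S₁, Finset.mem_map, Multiset.mem_toFinset, mem_roots hH0,
      Function.Embedding.some_apply]
    constructor
    · rintro ⟨a, ha, rfl⟩
      exact ⟨a, rfl, (fib_some h a y).2 ha⟩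
    · rintro ⟨a, rfl, ha⟩
      exact ⟨a, (fib_some h a y).1 ha, rfl⟩
  have hsum : ∑ x ∈ S₁, ld A B x = H.natDegree := by
    rw [Finset.sum_map, (IsAlgClosed.splits H).natDegree_eq_card_roots,
      ← Multiset.toFinset_sum_count_eq]
    refine Finset.sum_congr rfl fun a ha => ?_
    rw [Multiset.mem_toFinset, mem_roots hH0] at ha
    rw [count_roots]
    exact ld_some h a y ((fib_some h a y).2 ha)
  by_cases hn : rmap A B none = y
  · refine ⟨insert none S₁, ?_, ?_⟩
    · intro x
      rw [Finset.mem_insert, hS₁]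
      cases x with
      | none => simp [hn]
      | some a => simp
    · rw [Finset.sum_insert (by rw [hS₁]; rintro ⟨a, ha, -⟩; cases ha), hsum,
        ld_none h h1 y hn]
      exact Nat.sub_add_cancel (fibP_deg A B y)
  · refine ⟨S₁, ?_, ?_⟩
    · intro x
      rw [hS₁]
      cases x with
      | none => simp [hn]
      | some a => simp
    · rw [hsum]
      apply le_antisymm (fibP_deg A B y)
      exact le_natDegree_of_ne_zero fun h0 => hn ((fib_none h1 y).2 h0)

/-- the Wronskian -/
noncomputable def wr (A B : k[X]) : k[X] := derivative A * B - A * derivative B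

theorem rm_aux [CharZero k] (W K : k[X]) (c a : k) (n : ℕ) (hc : c ≠ 0)
    (h : C c * W = (X - C a) ^ n * K) (hK : K.eval a ≠ 0) :
    W ≠ 0 ∧ W.rootMultiplicity a = n := by
  have hK0 : K ≠ 0 := by
    rintro rfl
    exact hK eval_zero
  have h0 : (X - C a) ^ n * K ≠ 0 := mul_ne_zero (pow_ne_zero _ (X_sub_C_ne_zero a)) hK0
  refine ⟨?_, ?_⟩
  · rintro rfl
    rw [mul_zero] at h
    exact h0 h.symm
  · rw [← rm_C_mul c hc W a, h, mul_comm, rootMultiplicity_mul_X_sub_C_pow hK0,
      rootMultiplicity_eq_zero hK, zero_add]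

/-- the local degree at a finite point and the Wronskian -/
theorem wr_some [CharZero k] {A B : k[X]} (h : IsCoprime A B)
    (h1 : 1 ≤ max A.natDegree B.natDegree) (a : k) : 1 ≤ ld A B (some a) ∧ wr A B ≠ 0 ∧
      (wr A B).rootMultiplicity a = ld A B (some a) - 1 := by
  set H := C (B.eval a) * A - C (A.eval a) * B with hH
  have hne : H ≠ 0 := by
    by_cases hB : B.eval a = 0
    · have hA : A.eval a ≠ 0 := fun hA => cop_eval h a hA hB
      have h2 : H = C (-A.eval a) * B := by
        rw [hH, hB, C_0, zero_mul, zero_sub, C_neg, neg_mul]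
      rw [h2]
      exact mul_ne_zero (C_ne_zero.2 (neg_ne_zero.2 hA)) (fibP_ne h h1 none)
    · have h2 : H = C (B.eval a) * (A - C (A.eval a / B.eval a) * B) := by
        rw [hH, mul_sub, ← mul_assoc, ← C_mul, mul_div_cancel₀ _ hB]
      rw [h2]
      exact mul_ne_zero (C_ne_zero.2 hB) (fibP_ne h h1 (some (A.eval a / B.eval a)))
  obtain ⟨hm1, g, hga, hg⟩ := ld_eq A B a hne
  have hld : ld A B (some a) = H.rootMultiplicity a := rfl
  rw [← hH] at hm1 hg
  rw [hld]
  obtain ⟨n, hn⟩ : ∃ n, H.rootMultiplicity a = n + 1 := ⟨_, (Nat.sub_add_cancel hm1).symm⟩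
  rw [hn] at hg ⊢
  have hdH : derivative H = (X - C a) ^ n * (C ((n : k) + 1) * g + (X - C a) * derivative g) := by
    rw [hg, derivative_mul, derivative_X_sub_C_pow]
    simp only [Nat.add_sub_cancel]
    rw [pow_succ]
    push_cast
    ring
  have hn0 : ((n : k) + 1) ≠ 0 := by exact_mod_cast Nat.succ_ne_zero n
  refine ⟨by omega, ?_⟩
  rw [Nat.add_sub_cancel]
  by_cases hB : B.eval a = 0
  · have hA : A.eval a ≠ 0 := fun hA => cop_eval h a hA hB
    refine rm_aux (wr A B) (-((C ((n : k) + 1) * g + (X - C a) * derivative g) * A -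
      (X - C a) * g * derivative A)) (-A.eval a) a n (neg_ne_zero.2 hA) ?_ ?_
    · have h2 : C (-A.eval a) * B = H := by
        rw [hH, hB, C_0, zero_mul, zero_sub, C_neg, neg_mul]
      have h3 : C (-A.eval a) * wr A B = derivative A * H - A * derivative H := by
        rw [← h2, derivative_C_mul]
        unfold wr
        ring
      rw [h3, hdH]
      conv_lhs => rw [hg]
      rw [pow_succ]
      ring
    · rw [eval_neg]
      simp only [eval_sub, eval_mul, eval_add, eval_C, eval_X, sub_self, zero_mul, add_zero,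
        sub_zero]
      exact neg_ne_zero.2 (mul_ne_zero (mul_ne_zero hn0 hga) hA)
  · refine rm_aux (wr A B) ((C ((n : k) + 1) * g + (X - C a) * derivative g) * B -
      (X - C a) * g * derivative B) (B.eval a) a n hB ?_ ?_
    · have h3 : C (B.eval a) * wr A B = derivative H * B - H * derivative B := by
        rw [hH, derivative_sub, derivative_C_mul, derivative_C_mul]
        unfold wr
        ring
      rw [h3, hdH]
      conv_lhs => rw [hg]
      rw [pow_succ]
      ring
    · simp only [eval_sub, eval_mul, eval_add, eval_C, eval_X, sub_self, zero_mul, add_zero,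
        sub_zero]
      exact mul_ne_zero (mul_ne_zero hn0 hga) hB

theorem reflect_der (q : ℕ) (f : k[X]) (hf : f.natDegree ≤ q) (hq : 1 ≤ q) :
    derivative (reflect q f) = reflect (q - 1) (C (q : k) * f - X * derivative f) ∧
      (C (q : k) * f - X * derivative f).natDegree ≤ q - 1 := by
  have hco : ∀ n, (C (q : k) * f - X * derivative f).coeff n = ((q : k) - n) * f.coeff n := by
    intro n
    rw [coeff_sub, coeff_C_mul]
    cases n with
    | zero => simp
    | succ n =>
      rw [coeff_X_mul, coeff_derivative]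
      push_cast
      ring
  constructor
  · ext n
    rw [coeff_derivative]
    by_cases hn : n ≤ q - 1
    · rw [coeff_refl (q - 1) n hn, hco, coeff_refl q (n + 1) (by omega)]
      have h2 : q - (n + 1) = q - 1 - n := by omega
      rw [h2]
      have h3 : ((q - 1 - n : ℕ) : k) = (q : k) - 1 - n := by
        rw [Nat.cast_sub hn, Nat.cast_sub hq, Nat.cast_one]
      rw [h3]
      ring
    · rw [coeff_reflect, coeff_reflect, revAt_eq_self_of_lt (by omega),
        revAt_eq_self_of_lt (by omega), coeff_eq_zero_of_natDegree_lt (by omega : f.natDegree < n + 1),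
        zero_mul, hco]
      rcases Nat.lt_or_ge q n with h2 | h2
      · rw [coeff_eq_zero_of_natDegree_lt (by omega : f.natDegree < n), mul_zero]
      · have h3 : n = q := by omega
        rw [h3, sub_self, zero_mul]
  · rw [natDegree_le_iff_coeff_eq_zero]
    intro n hn
    rw [hco]
    rcases Nat.lt_or_ge q n with h2 | h2
    · rw [coeff_eq_zero_of_natDegree_lt (by omega : f.natDegree < n), mul_zero]
    · have h3 : n = q := by omega
      rw [h3, sub_self, zero_mul]

theorem reflect_X_mul (N : ℕ) (f : k[X]) (hf : f.natDegree ≤ N) :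
    reflect (N + 1) (X * f) = reflect N f := by
  ext n
  by_cases hn : n ≤ N
  · rw [coeff_refl (N + 1) n (by omega), coeff_refl N n hn]
    have h2 : N + 1 - n = (N - n) + 1 := by omega
    rw [h2, coeff_X_mul]
  · rw [coeff_reflect, coeff_reflect, revAt_eq_self_of_lt (by omega : N < n)]
    rcases Nat.lt_or_ge (N + 1) n with h2 | h2
    · rw [revAt_eq_self_of_lt h2, coeff_eq_zero_of_natDegree_lt (by omega : f.natDegree < n)]
      have h4 : (X * f : k[X]).natDegree ≤ 1 + f.natDegree :=
        natDegree_mul_le.trans (Nat.add_le_add_right natDegree_X_le _)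
      exact coeff_eq_zero_of_natDegree_lt (lt_of_le_of_lt h4 (by omega))
    · have h3 : n = N + 1 := by omega
      rw [h3, revAt_le le_rfl, Nat.sub_self, coeff_X_mul_zero,
        coeff_eq_zero_of_natDegree_lt (by omega : f.natDegree < N + 1)]

/-- the Wronskian and infinity -/
theorem wr_none [CharZero k] {A B : k[X]} (h : IsCoprime A B)
    (h1 : 1 ≤ max A.natDegree B.natDegree) : 1 ≤ ld A B none ∧
      (wr A B).natDegree + (ld A B none - 1) = 2 * max A.natDegree B.natDegree - 2 := by
  set q := max A.natDegree B.natDegree with hq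
  have hqA : A.natDegree ≤ q := le_max_left _ _
  have hqB : B.natDegree ≤ q := le_max_right _ _
  obtain ⟨hA1, hA2⟩ := reflect_der q A hqA h1
  obtain ⟨hB1, hB2⟩ := reflect_der q B hqB h1
  have hW : (C (q : k) * A - X * derivative A) * B - A * (C (q : k) * B - X * derivative B) =
      -(X * wr A B) := by
    unfold wr
    ring
  have hWd : (X * wr A B).natDegree ≤ 2 * q - 1 := by
    have h2 : X * wr A B = -((C (q : k) * A - X * derivative A) * B -
        A * (C (q : k) * B - X * derivative B)) := by rw [hW, neg_neg]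
    rw [h2, natDegree_neg]
    refine (natDegree_sub_le _ _).trans (max_le ?_ ?_)
    · exact natDegree_mul_le.trans (by omega)
    · exact natDegree_mul_le.trans (by omega)
  obtain ⟨-, hW0, -⟩ := wr_some h h1 0
  have hWd2 : (wr A B).natDegree ≤ 2 * q - 2 := by
    rw [natDegree_X_mul hW0] at hWd
    omega
  -- the Wronskian of the reversed polynomials
  have hcr : IsCoprime (reflect q A) (reflect q B) ∨ True := Or.inr trivial
  have hwr : wr (reflect q A) (reflect q B) = -reflect (2 * q - 2) (wr A B) := by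
    have e1 : q - 1 + q = 2 * q - 1 := by omega
    have e2 : q + (q - 1) = 2 * q - 1 := by omega
    have h2 := reflect_mul (C (q : k) * A - X * derivative A) B hA2 hqB
    have h3 := reflect_mul A (C (q : k) * B - X * derivative B) hqA hB2
    rw [e1] at h2
    rw [e2] at h3
    show derivative (reflect q A) * reflect q B - reflect q A * derivative (reflect q B) = _
    rw [hA1, hB1, ← h2, ← h3, ← reflect_sub, hW, reflect_neg]
    have e3 : 2 * q - 1 = 2 * q - 2 + 1 := by omega
    rw [e3, reflect_X_mul _ _ hWd2]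
  -- the local degree at zero of the reversed polynomials
  have hcop' : ∀ f g : k[X], (reflect q A).eval 0 = 0 → (reflect q B).eval 0 ≠ 0 ∨
      (reflect q B).eval 0 = 0 := fun _ _ _ => (em _).symm
  have hld : ld A B none = ((C ((reflect q B).eval 0)) * reflect q A -
      C ((reflect q A).eval 0) * reflect q B).rootMultiplicity 0 := by
    rw [eval_zero_reflect, eval_zero_reflect]
    rfl
  set rA := reflect q A
  set rB := reflect q B
  set H := C (rB.eval 0) * rA - C (rA.eval 0) * rB with hH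
  have hlp : 1 ≤ ld A B none := by
    rw [ld_none h h1 _ rfl]
    have h2 := (fib_none h1 (rmap A B none)).1 rfl
    rw [← hq] at h2
    have h3 := fibP_deg A B (rmap A B none)
    rw [← hq] at h3
    have h4 : (fibP A B (rmap A B none)).natDegree ≠ q := by
      intro h5
      rw [← h5] at h2
      exact fibP_ne h h1 _ (leadingCoeff_eq_zero.1 h2)
    omega
  have hne : H ≠ 0 := by
    intro h0
    rw [hld, h0, rootMultiplicity_zero] at hlp
    omega
  obtain ⟨hm1, g, hga, hg⟩ := ld_eq rA rB 0 hne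
  rw [← hH] at hm1 hg
  obtain ⟨n, hn⟩ : ∃ n, H.rootMultiplicity 0 = n + 1 := ⟨_, (Nat.sub_add_cancel hm1).symm⟩
  rw [hn] at hg
  have hdH : derivative H = (X - C 0) ^ n * (C ((n : k) + 1) * g + (X - C 0) * derivative g) := by
    rw [hg, derivative_mul, derivative_X_sub_C_pow]
    simp only [Nat.add_sub_cancel]
    rw [pow_succ]
    push_cast
    ring
  have hn0 : ((n : k) + 1) ≠ 0 := by exact_mod_cast Nat.succ_ne_zero n
  have hrm : (wr rA rB).rootMultiplicity 0 = n := by
    by_cases hB : rB.eval 0 = 0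
    · have hA : rA.eval 0 ≠ 0 := by
        rw [eval_zero_reflect]
        rw [eval_zero_reflect] at hB
        exact coeff_q h1 hB
      refine (rm_aux (wr rA rB) (-((C ((n : k) + 1) * g + (X - C 0) * derivative g) * rA -
        (X - C 0) * g * derivative rA)) (-rA.eval 0) 0 n (neg_ne_zero.2 hA) ?_ ?_).2
      · have h2 : C (-rA.eval 0) * rB = H := by
          rw [hH, hB, C_0, zero_mul, zero_sub, C_neg, neg_mul]
        have h3 : C (-rA.eval 0) * wr rA rB = derivative rA * H - rA * derivative H := by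
          rw [← h2, derivative_C_mul]
          unfold wr
          ring
        rw [h3, hdH]
        conv_lhs => rw [hg]
        rw [pow_succ]
        ring
      · rw [eval_neg]
        simp only [eval_sub, eval_mul, eval_add, eval_C, eval_X, sub_self, zero_mul, add_zero,
          sub_zero]
        exact neg_ne_zero.2 (mul_ne_zero (mul_ne_zero hn0 hga) hA)
    · refine (rm_aux (wr rA rB) ((C ((n : k) + 1) * g + (X - C 0) * derivative g) * rB -
        (X - C 0) * g * derivative rB) (rB.eval 0) 0 n hB ?_ ?_).2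
      · have h3 : C (rB.eval 0) * wr rA rB = derivative H * rB - H * derivative rB := by
          rw [hH, derivative_sub, derivative_C_mul, derivative_C_mul]
          unfold wr
          ring
        rw [h3, hdH]
        conv_lhs => rw [hg]
        rw [pow_succ]
        ring
      · simp only [eval_sub, eval_mul, eval_add, eval_C, eval_X, sub_self, zero_mul, add_zero,
          sub_zero]
        exact mul_ne_zero (mul_ne_zero hn0 hga) hB
  refine ⟨hlp, ?_⟩
  have h5 : (wr rA rB).rootMultiplicity 0 = 2 * q - 2 - (wr A B).natDegree := by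
    rw [hwr]
    have h6 : -reflect (2 * q - 2) (wr A B) = C (-1) * reflect (2 * q - 2) (wr A B) := by
      simp
    rw [h6, rm_C_mul _ (by simp), rm_reflect _ hW0 _ hWd2]
  rw [hld, hn]
  omega

/-- Riemann-Hurwitz -/
theorem rh [IsAlgClosed k] [CharZero k] {A B : k[X]} (h : IsCoprime A B)
    (h1 : 1 ≤ max A.natDegree B.natDegree) : (∀ x, 1 ≤ ld A B x) ∧
    ∃ S : Finset (Option k), (∀ x, x ∉ S → ld A B x = 1) ∧
      ∑ x ∈ S, (ld A B x - 1) = 2 * max A.natDegree B.natDegree - 2 := by
  classical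
  have hpos : ∀ x, 1 ≤ ld A B x := by
    intro x
    cases x with
    | none => exact (wr_none h h1).1
    | some a => exact (wr_some h h1 a).1
  refine ⟨hpos, ?_⟩
  obtain ⟨-, hW0, -⟩ := wr_some h h1 0
  let S₁ : Finset (Option k) := (wr A B).roots.toFinset.map Function.Embedding.some
  refine ⟨insert none S₁, ?_, ?_⟩
  · intro x hx
    cases x with
    | none => exact absurd (Finset.mem_insert_self _ _) hx
    | some a =>
      have h2 : a ∉ (wr A B).roots.toFinset := fun h3 => hx (Finset.mem_insert_of_mem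
        (Finset.mem_map.2 ⟨a, h3, rfl⟩))
      rw [Multiset.mem_toFinset, mem_roots hW0] at h2
      have h3 := (wr_some h h1 a).2.2
      rw [rootMultiplicity_eq_zero h2] at h3
      have h4 := hpos (some a)
      omega
  · have hn : (none : Option k) ∉ S₁ := by
      intro h2
      obtain ⟨a, -, ha⟩ := Finset.mem_map.1 h2
      cases ha
    rw [Finset.sum_insert hn, Finset.sum_map]
    have h2 : ∑ x ∈ (wr A B).roots.toFinset, (ld A B (Function.Embedding.some x) - 1) =
        (wr A B).natDegree := by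
      rw [(IsAlgClosed.splits (wr A B)).natDegree_eq_card_roots,
        ← Multiset.toFinset_sum_count_eq]
      refine Finset.sum_congr rfl fun a _ => ?_
      rw [count_roots]
      exact (wr_some h h1 a).2.2.symm
    rw [h2, add_comm]
    exact (wr_none h h1).2

end

end Pool.DynLehmer.UN.R47

end

section

/-!
# The types of the ramification indices of a tower
-/

namespace Pool.DynLehmer.UN
open scoped Classical

/-- the combinatorial data of a map of degree `q` of the projective line: `e x` is the local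
degree at `x` -/
structure Cov (α : Type) (f : α → α) (e : α → ℕ) (q : ℕ) : Prop where
  two : 2 ≤ q
  pos : ∀ x, 1 ≤ e x
  fib : ∀ b, ∃ S : Finset α, (∀ x, x ∈ S ↔ f x = b) ∧ ∑ x ∈ S, e x = q
  crit : ∃ T : Finset α, (∀ x, e x ≠ 1 → x ∈ T) ∧ ∑ x ∈ T, (e x - 1) = 2 * q - 2

/-- `f` with the local degrees `e` is parabolic; the value `0` stands for infinity -/
def Parab {α : Type} (f : α → α) (e : α → ℕ) : Prop :=
  ∃ ν : α → ℕ, {x | ν x ≠ 1}.Finite ∧ ∀ x, ν (f x) = e x * ν x

/-- the types of the indices: two points, one index at most `n₀`, or (2, 2, n) with `n ≤ n₀`,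
(2, 3, 3), (2, 3, 4), (2, 3, 5) -/
def Types {α : Type} (r : α → ℕ) (n₀ : ℕ) : Prop :=
  (∃ a b, a ≠ b ∧ (∀ x, x ≠ a → x ≠ b → r x = 1) ∧ r a ≤ n₀) ∨
  ∃ a b c, a ≠ b ∧ a ≠ c ∧ b ≠ c ∧ (∀ x, x ≠ a → x ≠ b → x ≠ c → r x = 1) ∧ r a = 2 ∧
    ((r b = 2 ∧ r c ≤ n₀) ∨ (r b = 3 ∧ (r c = 3 ∨ r c = 4 ∨ r c = 5)))

namespace Ty75

variable {α : Type} {f : α → α} {e : α → ℕ} {q : ℕ}

/-- the weighted sum of the `1 - 1 / r` -/
noncomputable def sw (Z : Set α) (r : α → ℕ) : ℚ :=
  ∑ᶠ x, (if x ∈ Z then 0 else 1) * (1 - 1 / (r x : ℚ))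

theorem sw_eq (Z : Set α) {r : α → ℕ} {A : Finset α} (h : ∀ x, r x ≠ 1 → x ∈ A) :
    sw Z r = ∑ x ∈ A, (if x ∈ Z then 0 else 1) * (1 - 1 / (r x : ℚ)) := by
  unfold sw
  refine finsum_eq_sum_of_support_subset _ fun x hx => ?_
  rw [Finset.mem_coe]
  apply h
  intro h1
  rw [Function.mem_support] at hx
  apply hx
  rw [h1]
  simp

theorem surj (hC : Cov α f e q) (b : α) : ∃ x, f x = b := by
  obtain ⟨S, hS, hq⟩ := hC.fib b
  have h2 := hC.two
  rcases S.eq_empty_or_nonempty with rfl | ⟨x, hx⟩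
  · rw [Finset.sum_empty] at hq
    omega
  · exact ⟨x, (hS x).1 hx⟩

theorem le_q (hC : Cov α f e q) (x : α) : e x ≤ q := by
  obtain ⟨S, hS, hq⟩ := hC.fib (f x)
  rw [← hq]
  exact Finset.single_le_sum (fun _ _ => Nat.zero_le _) ((hS x).2 rfl)

theorem tot (hC : Cov α f e q) {x : α} (h : ∀ y, f y = f x → y = x) : e x = q := by
  obtain ⟨S, hS, hq⟩ := hC.fib (f x)
  have h1 : S = {x} := by
    ext y
    rw [hS, Finset.mem_singleton]
    exact ⟨h y, fun h => by rw [h]⟩
  rw [h1, Finset.sum_singleton] at hq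
  exact hq

theorem inj (hC : Cov α f e q) {x y : α} (hx : e x = q) (h : f y = f x) : y = x := by
  by_contra hne
  obtain ⟨S, hS, hq⟩ := hC.fib (f x)
  have h1 : ∑ z ∈ ({x, y} : Finset α), e z ≤ ∑ z ∈ S, e z := by
    refine Finset.sum_le_sum_of_subset fun z hz => ?_
    rw [Finset.mem_insert, Finset.mem_singleton] at hz
    rw [hS]
    rcases hz with rfl | rfl
    · rfl
    · exact h
  rw [Finset.sum_pair (Ne.symm hne), hq, hx] at h1
  have := hC.pos y
  omega

theorem crit_le (hC : Cov α f e q) (S : Finset α) : ∑ x ∈ S, (e x - 1) ≤ 2 * q - 2 := by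
  obtain ⟨T, hT, hq⟩ := hC.crit
  rw [← hq]
  calc ∑ x ∈ S, (e x - 1) ≤ ∑ x ∈ S ∪ T, (e x - 1) :=
        Finset.sum_le_sum_of_subset Finset.subset_union_left
    _ = ∑ x ∈ T, (e x - 1) := by
        refine (Finset.sum_subset Finset.subset_union_right fun x _ hx => ?_).symm
        have : e x = 1 := by
          by_contra h
          exact hx (hT x h)
        omega

theorem tr2 (hC : Cov α f e q) {x y z : α} (hx : e x = q) (hy : e y = q) (hz : e z = q) :
    x = y ∨ x = z ∨ y = z := by
  by_contra h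
  push Not at h
  have h1 := crit_le hC {x, y, z}
  rw [Finset.sum_insert (by simp [h.1, h.2.1]), Finset.sum_pair h.2.2, hx, hy, hz] at h1
  have := hC.two
  omega

/-- The sets of preimages of `a` have at most two elements for five steps. -/
theorem back5 (hC : Cov α f e q) (a : α) (h : ∀ i ≤ 5, ∀ x y z, f^[i] x = a → f^[i] y = a →
    f^[i] z = a → x = y ∨ x = z ∨ y = z) :
    (∀ x, f x = a → x = a) ∨
    ∃ c d, c ≠ d ∧ e c = q ∧ e d = q ∧ (f c = c ∨ f c = d) ∧ (f d = c ∨ f d = d) := by
  by_cases hu : ∀ x y, f^[3] x = a → f^[3] y = a → x = y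
  · obtain ⟨a1, h1⟩ := surj hC a
    obtain ⟨a2, h2⟩ := surj hC a1
    obtain ⟨a3, h3⟩ := surj hC a2
    have h33 : f^[3] a3 = a := by
      show f (f (f a3)) = a
      rw [h3, h2, h1]
    have u3 : ∀ z, f z = a2 → z = a3 := by
      intro z hz
      refine hu z a3 ?_ h33
      show f (f (f z)) = a
      rw [hz, h2, h1]
    have u2 : ∀ z, f z = a1 → z = a2 := by
      intro z hz
      obtain ⟨z', hz'⟩ := surj hC z
      have h4 : z' = a3 := by
        refine hu z' a3 ?_ h33
        show f (f (f z')) = a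
        rw [hz', hz, h1]
      rw [← hz', h4, h3]
    have u1 : ∀ z, f z = a → z = a1 := by
      intro z hz
      obtain ⟨z', hz'⟩ := surj hC z
      obtain ⟨z2, hz2⟩ := surj hC z'
      have h4 : z2 = a3 := by
        refine hu z2 a3 ?_ h33
        show f (f (f z2)) = a
        rw [hz2, hz', hz]
      rw [← hz', ← hz2, h4, h3, h2]
    have e1 : e a1 = q := tot hC fun y hy => u1 y (hy.trans h1)
    have e2 : e a2 = q := tot hC fun y hy => u2 y (hy.trans h2)
    have e3 : e a3 = q := tot hC fun y hy => u3 y (hy.trans h3)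
    have key : a1 = a2 → ∀ x, f x = a → x = a := by
      intro h12 x hx
      have : a = a1 := by
        rw [← h1, h12, h2, h12]
      rw [u1 x hx, ← this]
    rcases tr2 hC e1 e2 e3 with h12 | h13 | h23
    · exact Or.inl (key h12)
    · have ha2 : a = a2 := by rw [← h1, h13, h3]
      by_cases ha1 : a1 = a
      · left
        intro x hx
        rw [u1 x hx, ha1]
      · right
        refine ⟨a, a1, Ne.symm ha1, by rw [ha2]; exact e2, e1, Or.inr (by rw [ha2]; exact h2),
          Or.inl h1⟩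
    · refine Or.inl (key ?_)
      rw [← h2, h23, h3]
      exact h23
  · push Not at hu
    obtain ⟨x, y, hx, hy, hxy⟩ := hu
    obtain ⟨x', hx'⟩ := surj hC x
    obtain ⟨y', hy'⟩ := surj hC y
    obtain ⟨x2, hx2⟩ := surj hC x'
    obtain ⟨y2, hy2⟩ := surj hC y'
    have hne' : x' ≠ y' := fun h0 => hxy (by rw [← hx', ← hy', h0])
    have hne2 : x2 ≠ y2 := fun h0 => hne' (by rw [← hx2, ← hy2, h0])
    have l4 : ∀ z, (f z = x ∨ f z = y) → f^[4] z = a := by
      intro z hz
      rw [Function.iterate_succ_apply]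
      rcases hz with hz | hz
      · rw [hz]; exact hx
      · rw [hz]; exact hy
    have l5 : ∀ z, (f z = x' ∨ f z = y') → f^[5] z = a := by
      intro z hz
      rw [Function.iterate_succ_apply]
      rcases hz with hz | hz
      · rw [hz]; exact l4 x' (Or.inl hx')
      · rw [hz]; exact l4 y' (Or.inr hy')
    have ex' : e x' = q := tot hC fun z hz => by
      rw [hx'] at hz
      rcases h 4 (by norm_num) x' y' z (l4 _ (Or.inl hx')) (l4 _ (Or.inr hy'))
        (l4 _ (Or.inl hz)) with h0 | h0 | h0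
      · exact absurd h0 hne'
      · exact h0.symm
      · exact absurd (by rw [← hz, ← h0, hy']) hxy
    have ey' : e y' = q := tot hC fun z hz => by
      rw [hy'] at hz
      rcases h 4 (by norm_num) x' y' z (l4 _ (Or.inl hx')) (l4 _ (Or.inr hy'))
        (l4 _ (Or.inr hz)) with h0 | h0 | h0
      · exact absurd h0 hne'
      · exact absurd (by rw [← hz, ← h0, hx']) hxy.symm
      · exact h0.symm
    have ex2 : e x2 = q := tot hC fun z hz => by
      rw [hx2] at hz
      rcases h 5 (by norm_num) x2 y2 z (l5 _ (Or.inl hx2)) (l5 _ (Or.inr hy2))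
        (l5 _ (Or.inl hz)) with h0 | h0 | h0
      · exact absurd h0 hne2
      · exact h0.symm
      · exact absurd (by rw [← hz, ← h0, hy2]) hne'
    have ey2 : e y2 = q := tot hC fun z hz => by
      rw [hy2] at hz
      rcases h 5 (by norm_num) x2 y2 z (l5 _ (Or.inl hx2)) (l5 _ (Or.inr hy2))
        (l5 _ (Or.inr hz)) with h0 | h0 | h0
      · exact absurd h0 hne2
      · exact absurd (by rw [← hz, ← h0, hx2]) hne'.symm
      · exact h0.symm
    right
    refine ⟨x', y', hne', ex', ey', ?_⟩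
    rcases tr2 hC ex' ey' ex2 with h0 | h0 | h0
    · exact absurd h0 hne'
    · -- x2 = x'
      have h1 : f x' = x' := by rw [h0]; rw [hx2, h0]
      rcases tr2 hC ex' ey' ey2 with h2 | h2 | h2
      · exact absurd h2 hne'
      · exact absurd (h0.symm.trans h2) hne2
      · exact ⟨Or.inl h1, Or.inr (by rw [h2]; rw [hy2, h2])⟩
    · -- x2 = y'
      have h1 : f y' = x' := by rw [h0]; exact hx2
      rcases tr2 hC ex' ey' ey2 with h2 | h2 | h2
      · exact absurd h2 hne'
      · refine ⟨Or.inr ?_, Or.inl h1⟩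
        rw [h2]
        exact hy2
      · exact absurd (h0.symm.trans h2) hne2

/-- two totally ramified points which are permuted: power maps -/
theorem power (hC : Cov α f e q) {c d : α} (hcd : c ≠ d) (hc : e c = q) (hd : e d = q)
    (h1 : f c = c ∨ f c = d) (h2 : f d = c ∨ f d = d) : Parab f e := by
  have hq := hC.two
  have hne : f c ≠ f d := fun h0 => hcd (inj hC hd h0)
  have hpre : ∀ x, (f x = c ∨ f x = d) → x = c ∨ x = d := by
    intro x hx
    rcases h1 with h1 | h1 <;> rcases h2 with h2 | h2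
    · exact absurd (h1.trans h2.symm) hne
    · rcases hx with hx | hx
      · exact Or.inl (inj hC hc (hx.trans h1.symm))
      · exact Or.inr (inj hC hd (hx.trans h2.symm))
    · rcases hx with hx | hx
      · exact Or.inr (inj hC hd (hx.trans h2.symm))
      · exact Or.inl (inj hC hc (hx.trans h1.symm))
    · exact absurd (h1.trans h2.symm) hne
  have hone : ∀ x, x ≠ c → x ≠ d → e x = 1 := by
    intro x hxc hxd
    have h3 := crit_le hC {x, c, d}
    rw [Finset.sum_insert (by simp [hxc, hxd]), Finset.sum_pair hcd, hc, hd] at h3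
    have := hC.pos x
    omega
  refine ⟨fun x => if x = c ∨ x = d then 0 else 1, ?_, ?_⟩
  · refine (Set.toFinite ({c, d} : Set α)).subset fun x hx => ?_
    rw [Set.mem_insert_iff, Set.mem_singleton_iff]
    by_contra h0
    exact hx (if_neg h0)
  · intro x
    show (if f x = c ∨ f x = d then 0 else 1) = e x * (if x = c ∨ x = d then 0 else 1)
    by_cases hx : x = c ∨ x = d
    · have h3 : f x = c ∨ f x = d := by
        rcases hx with rfl | rfl
        · exact h1
        · exact h2
      rw [if_pos hx, if_pos h3, mul_zero]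
    · rw [if_neg hx, if_neg (fun h0 => hx (hpre x h0))]
      push Not at hx
      rw [hone x hx.1 hx.2]

/-- the count: one step -/
theorem step (hC : Cov α f e q) (Z : Set α) (hZ : ∀ x, f x ∈ Z ↔ x ∈ Z) (χ : ℚ)
    {T : Finset α} (hT : ∀ x, e x ≠ 1 → x ∈ T)
    (hχ : ∑ x ∈ T, (if x ∈ Z then 0 else 1) * ((e x : ℚ) - 1) = χ * ((q : ℚ) - 1))
    {r r' : α → ℕ} (h1 : ∀ x, 1 ≤ r x) (h1' : ∀ x, 1 ≤ r' x)
    (hf : {x | r x ≠ 1}.Finite) (hf' : {x | r' x ≠ 1}.Finite)
    (hst : ∀ x, r' (f x) ≤ e x * r x) :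
    (q : ℚ) * sw Z r' - χ * ((q : ℚ) - 1) ≤ sw Z r ∧
    (sw Z r = (q : ℚ) * sw Z r' - χ * ((q : ℚ) - 1) →
      ∀ x, x ∉ Z → r' (f x) = e x * r x) := by
  choose S hS hSq using hC.fib
  set A := hf.toFinset with hA
  set B := hf'.toFinset with hB
  have hAm : ∀ x, r x ≠ 1 → x ∈ A := fun x hx => by rw [hA, Set.Finite.mem_toFinset]; exact hx
  have hBm : ∀ x, r' x ≠ 1 → x ∈ B := fun x hx => by rw [hB, Set.Finite.mem_toFinset]; exact hx
  set V := (B.biUnion S) ∪ T ∪ A with hV
  have hVA : ∀ x, r x ≠ 1 → x ∈ V := fun x hx => by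
    rw [hV, Finset.mem_union]
    exact Or.inr (hAm x hx)
  have hVT : T ⊆ V := fun x hx => by
    rw [hV, Finset.mem_union, Finset.mem_union]
    exact Or.inl (Or.inr hx)
  have hVB : B.biUnion S ⊆ V := fun x hx => by
    rw [hV, Finset.mem_union, Finset.mem_union]
    exact Or.inl (Or.inl hx)
  have hVout : ∀ x, x ∉ V → r x = 1 ∧ e x = 1 ∧ r' (f x) = 1 := by
    intro x hx
    refine ⟨?_, ?_, ?_⟩
    · by_contra h0
      exact hx (hVA x h0)
    · by_contra h0
      exact hx (hVT (hT x h0))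
    · by_contra h0
      exact hx (hVB (Finset.mem_biUnion.2 ⟨f x, hBm _ h0, (hS _ x).2 rfl⟩))
  obtain ⟨w, hw⟩ : ∃ w : α → ℚ, w = fun x => if x ∈ Z then 0 else 1 := ⟨_, rfl⟩
  have hwf : ∀ x, w (f x) = w x := by
    intro x
    rw [hw]
    simp only [hZ x]
  have hw0 : ∀ x, 0 ≤ w x := by
    intro x
    rw [hw]
    show (0 : ℚ) ≤ if x ∈ Z then 0 else 1
    split_ifs
    · exact le_rfl
    · exact zero_le_one
  have hs : sw Z r = ∑ x ∈ V, w x * (1 - 1 / (r x : ℚ)) := by
    rw [sw_eq Z hVA, hw]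
  have hs' : sw Z r' = ∑ b ∈ B, w b * (1 - 1 / (r' b : ℚ)) := by
    rw [sw_eq Z hBm, hw]
  have hTs : ∑ x ∈ V, w x * (1 - (e x : ℚ)) = -(χ * ((q : ℚ) - 1)) := by
    rw [← hχ, ← Finset.sum_subset hVT fun x _ hx => ?_, ← Finset.sum_neg_distrib]
    · refine Finset.sum_congr rfl fun x _ => ?_
      rw [hw]
      ring
    · have : e x = 1 := by
        by_contra h0
        exact hx (hT x h0)
      rw [this]
      simp
  have hBs : ∑ x ∈ V, w x * ((e x : ℚ) * (1 - 1 / (r' (f x) : ℚ))) = (q : ℚ) * sw Z r' := by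
    rw [← Finset.sum_subset hVB fun x _ hx => ?_]
    · rw [Finset.sum_biUnion ?_, hs', Finset.mul_sum]
      · refine Finset.sum_congr rfl fun b _ => ?_
        have h2 : ∀ x ∈ S b, w x * ((e x : ℚ) * (1 - 1 / (r' (f x) : ℚ))) =
            (e x : ℚ) * (w b * (1 - 1 / (r' b : ℚ))) := by
          intro x hx
          have h3 := (hS b x).1 hx
          rw [h3, ← hwf x, h3]
          ring
        rw [Finset.sum_congr rfl h2, ← Finset.sum_mul, ← Nat.cast_sum, hSq]
      · intro b _ c _ hbc
        rw [Function.onFun, Finset.disjoint_left]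
        intro x hx hx'
        exact hbc (((hS b x).1 hx).symm.trans ((hS c x).1 hx'))
    · have : r' (f x) = 1 := by
        by_contra h0
        exact hx (Finset.mem_biUnion.2 ⟨f x, hBm _ h0, (hS _ x).2 rfl⟩)
      rw [this]
      simp
  have hsum : ∑ x ∈ V, w x * (1 - (e x : ℚ) / (r' (f x) : ℚ)) =
      (q : ℚ) * sw Z r' - χ * ((q : ℚ) - 1) := by
    rw [← hBs, sub_eq_add_neg, ← hTs, ← Finset.sum_add_distrib]
    refine Finset.sum_congr rfl fun x _ => ?_
    ring
  have hterm : ∀ x, (1 : ℚ) - (e x : ℚ) / (r' (f x) : ℚ) ≤ 1 - 1 / (r x : ℚ) := by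
    intro x
    have hr : (0 : ℚ) < r x := by
      have := h1 x
      exact_mod_cast this
    have hr' : (0 : ℚ) < r' (f x) := by
      have := h1' (f x)
      exact_mod_cast this
    have h3 : (r' (f x) : ℚ) ≤ e x * r x := by exact_mod_cast hst x
    have h4 : 1 / (r x : ℚ) ≤ (e x : ℚ) / (r' (f x) : ℚ) := by
      rw [div_le_div_iff₀ hr hr', one_mul]
      exact h3
    linarith
  refine ⟨?_, ?_⟩
  · rw [← hsum, hs]
    exact Finset.sum_le_sum fun x _ => mul_le_mul_of_nonneg_left (hterm x) (hw0 x)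
  · intro heq x hxZ
    by_cases hxV : x ∈ V
    · rw [← hsum, hs] at heq
      have h5 := (Finset.sum_eq_sum_iff_of_le (s := V)
        (f := fun x => w x * (1 - (e x : ℚ) / (r' (f x) : ℚ)))
        (g := fun x => w x * (1 - 1 / (r x : ℚ)))
        (fun x _ => mul_le_mul_of_nonneg_left (hterm x) (hw0 x))).1 heq.symm x hxV
      have hwx : w x = 1 := by
        rw [hw]
        exact if_neg hxZ
      simp only [hwx, one_mul] at h5
      have hr : (0 : ℚ) < r x := by
        have := h1 x
        exact_mod_cast this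
      have hr' : (0 : ℚ) < r' (f x) := by
        have := h1' (f x)
        exact_mod_cast this
      have h6 : (e x : ℚ) / (r' (f x) : ℚ) = 1 / (r x : ℚ) := by linarith
      rw [div_eq_div_iff hr'.ne' hr.ne', one_mul] at h6
      exact_mod_cast h6.symm
    · obtain ⟨h2, h3, h4⟩ := hVout x hxV
      rw [h2, h3, h4]

/-- the weighted sums are smaller than `χ`, unless the map is parabolic -/
theorem lt_chi (hC : Cov α f e q) (hnp : ¬ Parab f e) (Z : Set α) (hZf : Z.Finite)
    (hZ : ∀ x, f x ∈ Z ↔ x ∈ Z) (χ : ℚ)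
    {T : Finset α} (hT : ∀ x, e x ≠ 1 → x ∈ T)
    (hχ : ∑ x ∈ T, (if x ∈ Z then 0 else 1) * ((e x : ℚ) - 1) = χ * ((q : ℚ) - 1))
    {M : ℕ} (hM : 1 ≤ M) {r : ℕ → α → ℕ} (h1 : ∀ j x, 1 ≤ r j x)
    (hfin : ∀ j, {x | r j x ≠ 1}.Finite) (hper : ∀ j, r (j + M) = r j)
    (hst : ∀ j x, r (j + 1) (f x) ≤ e x * r j x) (j : ℕ) : sw Z (r j) < χ := by
  have hq : (2 : ℚ) ≤ q := by exact_mod_cast hC.two
  have hs : ∀ j, (q : ℚ) * (sw Z (r (j + 1)) - χ) ≤ sw Z (r j) - χ := by
    intro j
    have h2 := (step hC Z hZ χ hT hχ (h1 j) (h1 (j + 1)) (hfin j) (hfin (j + 1)) (hst j)).1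
    linarith
  have hpow : ∀ n j, (q : ℚ) ^ n * (sw Z (r (j + n)) - χ) ≤ sw Z (r j) - χ := by
    intro n
    induction n with
    | zero =>
      intro j
      rw [pow_zero, one_mul, add_zero]
    | succ n ih =>
      intro j
      have h2 := hs (j + n)
      have h3 : (q : ℚ) ^ n * ((q : ℚ) * (sw Z (r (j + n + 1)) - χ)) ≤
          (q : ℚ) ^ n * (sw Z (r (j + n)) - χ) :=
        mul_le_mul_of_nonneg_left h2 (by positivity)
      rw [pow_succ, mul_assoc]
      exact h3.trans (ih j)
  have hperm : ∀ n j, r (j + n * M) = r j := by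
    intro n
    induction n with
    | zero => intro j; rw [zero_mul, add_zero]
    | succ n ih => intro j; rw [show j + (n + 1) * M = j + n * M + M by ring, hper, ih]
  have hle : ∀ j, sw Z (r j) - χ ≤ 0 := by
    intro j
    have h2 := hpow M j
    rw [hper] at h2
    have h3 : (1 : ℚ) < (q : ℚ) ^ M := one_lt_pow₀ (by linarith) (by omega)
    by_contra h4
    push Not at h4
    nlinarith
  refine lt_of_le_of_ne (by linarith [hle j]) fun heq => hnp ?_
  have hall : ∀ i, sw Z (r i) - χ = 0 := by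
    intro i
    refine le_antisymm (hle i) ?_
    -- an index `i + n` which is congruent to `j`
    have h2 := hpow (j + i * M - i) i
    have h3 : i + (j + i * M - i) = j + i * M := by
      have : i ≤ i * M := Nat.le_mul_of_pos_right i (by omega)
      omega
    rw [h3, hperm, heq, sub_self, mul_zero] at h2
    exact h2
  have heqs : ∀ i x, x ∉ Z → r (i + 1) (f x) = e x * r i x := by
    intro i
    refine (step hC Z hZ χ hT hχ (h1 i) (h1 (i + 1)) (hfin i) (hfin (i + 1)) (hst i)).2 ?_
    have h2 := hall i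
    have h3 := hall (i + 1)
    have h4 : sw Z (r (i + 1)) = χ := by linarith
    rw [h4]
    linarith
  -- the minimum over the indices
  set m : α → ℕ := fun x => sInf (Set.range fun i => r i x) with hm
  have hmem : ∀ x, ∃ i, r i x = m x := fun x => by
    have h2 : m x ∈ Set.range fun i => r i x := Nat.sInf_mem ⟨r 0 x, 0, rfl⟩
    exact h2
  have hmle : ∀ i x, m x ≤ r i x := fun i x => Nat.sInf_le ⟨i, rfl⟩
  have hm1 : ∀ x, 1 ≤ m x := by
    intro x
    obtain ⟨i, hi⟩ := hmem x
    rw [← hi]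
    exact h1 i x
  have hmf : ∀ x, x ∉ Z → m (f x) = e x * m x := by
    intro x hx
    apply le_antisymm
    · obtain ⟨i, hi⟩ := hmem x
      rw [← hi, ← heqs i x hx]
      exact hmle _ _
    · obtain ⟨i, hi⟩ := hmem (f x)
      rw [← hi, ← hper i, show i + M = (i + M - 1) + 1 by omega, heqs _ x hx]
      exact Nat.mul_le_mul_left _ (hmle _ _)
  refine ⟨fun x => if x ∈ Z then 0 else m x, ?_, ?_⟩
  · refine (hZf.union (hfin 0)).subset fun x hx => ?_
    by_cases hxZ : x ∈ Z
    · exact Or.inl hxZ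
    · refine Or.inr fun h0 => hx ?_
      show (if x ∈ Z then 0 else m x) = 1
      rw [if_neg hxZ]
      have h2 := hmle 0 x
      have h3 := hm1 x
      rw [h0] at h2
      omega
  · intro x
    show (if f x ∈ Z then 0 else m (f x)) = e x * (if x ∈ Z then 0 else m x)
    by_cases hxZ : x ∈ Z
    · rw [if_pos hxZ, if_pos ((hZ x).2 hxZ), mul_zero]
    · rw [if_neg hxZ, if_neg (fun h0 => hxZ ((hZ x).1 h0)), hmf x hxZ]

/-- a lower bound for the sums -/
theorem le_sw {Z : Set α} {r : α → ℕ} (h1 : ∀ x, 1 ≤ r x) (hf : {x | r x ≠ 1}.Finite)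
    (S : Finset α) (hS : ∀ x ∈ S, x ∉ Z) : ∑ x ∈ S, (1 - 1 / (r x : ℚ)) ≤ sw Z r := by
  have h2 : ∀ x, r x ≠ 1 → x ∈ hf.toFinset ∪ S := fun x hx => by
    rw [Finset.mem_union, Set.Finite.mem_toFinset]
    exact Or.inl hx
  rw [sw_eq Z h2]
  have h3 : ∀ x, (0 : ℚ) ≤ 1 - 1 / (r x : ℚ) := by
    intro x
    have hr : (1 : ℚ) ≤ r x := by exact_mod_cast h1 x
    have : 1 / (r x : ℚ) ≤ 1 := by
      rw [div_le_one (by linarith)]
      exact hr
    linarith
  calc ∑ x ∈ S, (1 - 1 / (r x : ℚ)) =
      ∑ x ∈ S, (if x ∈ Z then 0 else 1) * (1 - 1 / (r x : ℚ)) := by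
        refine Finset.sum_congr rfl fun x hx => ?_
        rw [if_neg (hS x hx), one_mul]
    _ ≤ _ := by
        refine Finset.sum_le_sum_of_subset_of_nonneg Finset.subset_union_right fun x _ _ => ?_
        refine mul_nonneg ?_ (h3 x)
        split_ifs
        · exact le_rfl
        · exact zero_le_one

/-- the sum over all points is smaller than `2` -/
theorem lt_two (hC : Cov α f e q) (hnp : ¬ Parab f e)
    {M : ℕ} (hM : 1 ≤ M) {r : ℕ → α → ℕ} (h1 : ∀ j x, 1 ≤ r j x)
    (hfin : ∀ j, {x | r j x ≠ 1}.Finite) (hper : ∀ j, r (j + M) = r j)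
    (hst : ∀ j x, r (j + 1) (f x) ≤ e x * r j x) (j : ℕ) : sw ∅ (r j) < 2 := by
  obtain ⟨T, hT, hq⟩ := hC.crit
  have h2 := hC.two
  refine lt_chi hC hnp ∅ Set.finite_empty (fun x => Iff.rfl) 2 hT ?_ hM h1 hfin hper hst j
  refine Eq.trans (Finset.sum_congr rfl fun x _ => (?_ : _ = ((e x - 1 : ℕ) : ℚ))) ?_
  · rw [if_neg (Set.notMem_empty x), one_mul, Nat.cast_sub (hC.pos x), Nat.cast_one]
  rw [← Nat.cast_sum, hq, Nat.cast_sub (by omega)]
  push_cast
  ring

theorem tot_of (hC : Cov α f e q) {b : α} (hb : ∀ x, f x = b → x = b) : f b = b ∧ e b = q := by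
  obtain ⟨x, hx⟩ := surj hC b
  have h1 := hb x hx
  rw [h1] at hx
  refine ⟨hx, tot hC fun y hy => ?_⟩
  rw [hx] at hy
  exact hb y hy

/-- the sum outside a totally invariant point is smaller than `1` -/
theorem lt_one (hC : Cov α f e q) (hnp : ¬ Parab f e)
    {M : ℕ} (hM : 1 ≤ M) {r : ℕ → α → ℕ} (h1 : ∀ j x, 1 ≤ r j x)
    (hfin : ∀ j, {x | r j x ≠ 1}.Finite) (hper : ∀ j, r (j + M) = r j)
    (hst : ∀ j x, r (j + 1) (f x) ≤ e x * r j x) {b : α} (hb : ∀ x, f x = b → x = b) (j : ℕ) :
    sw {b} (r j) < 1 := by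
  obtain ⟨T, hT, hq⟩ := hC.crit
  have h2 := hC.two
  obtain ⟨hfb, heb⟩ := tot_of hC hb
  have hbT : b ∈ T := hT b (by omega)
  refine lt_chi hC hnp {b} (Set.finite_singleton b) (fun x => ?_) 1 hT ?_ hM h1 hfin hper hst j
  · rw [Set.mem_singleton_iff, Set.mem_singleton_iff]
    exact ⟨hb x, fun h => by rw [h, hfb]⟩
  have h4 : e b - 1 + ∑ x ∈ T.erase b, (e x - 1) = 2 * q - 2 := by
    rw [Finset.add_sum_erase T (fun x => e x - 1) hbT, hq]
  have h5 : ∑ x ∈ T.erase b, (e x - 1) = q - 1 := by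
    rw [heb] at h4
    omega
  rw [← Finset.add_sum_erase T _ hbT, if_pos (Set.mem_singleton b), zero_mul, zero_add]
  refine Eq.trans (Finset.sum_congr rfl fun x hx => (?_ : _ = ((e x - 1 : ℕ) : ℚ))) ?_
  · rw [if_neg (fun h => (Finset.mem_erase.1 hx).1 (Set.mem_singleton_iff.1 h)), one_mul,
      Nat.cast_sub (hC.pos x), Nat.cast_one]
  rw [← Nat.cast_sum, h5, Nat.cast_sub (by omega)]
  push_cast
  ring

/-- three points with index at least three -/
theorem three {r : α → ℕ} (h1 : ∀ x, 1 ≤ r x) (hf : {x | r x ≠ 1}.Finite) (hs : sw ∅ r < 2)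
    {x y z : α} (hx : 3 ≤ r x) (hy : 3 ≤ r y) (hz : 3 ≤ r z) : x = y ∨ x = z ∨ y = z := by
  by_contra h
  push Not at h
  have h2 := le_sw (Z := ∅) h1 hf {x, y, z} (fun _ _ => Set.notMem_empty _)
  rw [Finset.sum_insert (by simp [h.1, h.2.1]), Finset.sum_pair h.2.2] at h2
  have key : ∀ n : ℕ, 3 ≤ n → (2 : ℚ) / 3 ≤ 1 - 1 / (n : ℚ) := by
    intro n hn
    have hn' : (3 : ℚ) ≤ n := by exact_mod_cast hn
    have : 1 / (n : ℚ) ≤ 1 / 3 := one_div_le_one_div_of_le (by norm_num) hn'
    linarith
  have := key _ hx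
  have := key _ hy
  have := key _ hz
  linarith

/-- the indices at the preimages -/
theorem iter (hC : Cov α f e q) {r : ℕ → α → ℕ}
    (hst : ∀ j x, r (j + 1) (f x) ≤ e x * r j x) (i j : ℕ) (x : α) :
    r (j + i) (f^[i] x) ≤ q ^ i * r j x := by
  induction i with
  | zero => simp
  | succ i ih =>
    rw [Function.iterate_succ_apply', ← add_assoc]
    calc r (j + i + 1) (f (f^[i] x)) ≤ e (f^[i] x) * r (j + i) (f^[i] x) := hst _ _
      _ ≤ q * (q ^ i * r j x) := Nat.mul_le_mul (le_q hC _) ih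
      _ = q ^ (i + 1) * r j x := by ring

/-- a point with a large index is totally invariant -/
theorem large (hC : Cov α f e q) (hnp : ¬ Parab f e)
    {M : ℕ} (hM : 1 ≤ M) {r : ℕ → α → ℕ} (h1 : ∀ j x, 1 ≤ r j x)
    (hfin : ∀ j, {x | r j x ≠ 1}.Finite) (hper : ∀ j, r (j + M) = r j)
    (hst : ∀ j x, r (j + 1) (f x) ≤ e x * r j x) {j : ℕ} {a : α} (ha : 2 * q ^ 5 < r j a) :
    ∀ x, f x = a → x = a := by
  have hq := hC.two
  have hperm : ∀ n j, r (j + n * M) = r j := by
    intro n
    induction n with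
    | zero => intro j; rw [zero_mul, add_zero]
    | succ n ih => intro j; rw [show j + (n + 1) * M = j + n * M + M by ring, hper, ih]
  have hbig : ∀ i ≤ 5, ∀ x, f^[i] x = a → 3 ≤ r (j + 5 * M - i) x := by
    intro i hi x hx
    have h2 := iter hC hst i (j + 5 * M - i) x
    rw [hx, Nat.sub_add_cancel (by omega), hperm] at h2
    by_contra h3
    push Not at h3
    have h4 : q ^ i ≤ q ^ 5 := Nat.pow_le_pow_right (by omega) hi
    have h5 : q ^ i * r (j + 5 * M - i) x ≤ q ^ 5 * 2 := Nat.mul_le_mul h4 (by omega)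
    omega
  rcases back5 hC a (fun i hi x y z hx hy hz => three (h1 _) (hfin _)
    (lt_two hC hnp hM h1 hfin hper hst _) (hbig i hi x hx) (hbig i hi y hy)
    (hbig i hi z hz)) with h2 | ⟨c, d, hcd, hc, hd, h3, h4⟩
  · exact h2
  · exact absurd (power hC hcd hc hd h3 h4) hnp

/-- Row BN: the indices are bounded. -/
theorem bounded [Nontrivial α] (hC : Cov α f e q) (hnp : ¬ Parab f e)
    {M : ℕ} (hM : 1 ≤ M) {r : ℕ → α → ℕ} (h1 : ∀ j x, 1 ≤ r j x)
    (hfin : ∀ j, {x | r j x ≠ 1}.Finite) (hper : ∀ j, r (j + M) = r j)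
    (hst : ∀ j x, r (j + 1) (f x) ≤ e x * r j x) (j : ℕ) :
    ((∀ a, r j a ≤ 2 * q ^ 5) ∧ sw ∅ (r j) < 2) ∨
      ∃ a b, a ≠ b ∧ r j a ≤ 2 * q ^ 5 ∧ ∀ x, x ≠ a → x ≠ b → r j x = 1 := by
  by_cases hall : ∀ a, r j a ≤ 2 * q ^ 5
  · exact Or.inl ⟨hall, lt_two hC hnp hM h1 hfin hper hst j⟩
  right
  push Not at hall
  obtain ⟨b, hb⟩ := hall
  have hbt := large hC hnp hM h1 hfin hper hst hb
  have hs := lt_one hC hnp hM h1 hfin hper hst hbt j
  have hq := hC.two
  by_cases hex : ∃ a, a ≠ b ∧ r j a ≠ 1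
  · obtain ⟨a, hab, ha⟩ := hex
    refine ⟨a, b, hab, ?_, ?_⟩
    · by_contra h2
      push Not at h2
      have hat := large hC hnp hM h1 hfin hper hst h2
      obtain ⟨hfa, hea⟩ := tot_of hC hat
      obtain ⟨hfb, heb⟩ := tot_of hC hbt
      exact hnp (power hC hab hea heb (Or.inl hfa) (Or.inr hfb))
    · intro x hxa hxb
      by_contra hx
      have h2 := le_sw (Z := {b}) (h1 j) (hfin j) {x, a} (fun y hy => by
        rw [Finset.mem_insert, Finset.mem_singleton] at hy
        rw [Set.mem_singleton_iff]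
        rcases hy with rfl | rfl
        · exact hxb
        · exact hab)
      rw [Finset.sum_pair hxa] at h2
      have key : ∀ y : α, r j y ≠ 1 → (1 : ℚ) / 2 ≤ 1 - 1 / (r j y : ℚ) := by
        intro y hy
        have hy' : (2 : ℚ) ≤ r j y := by
          have := h1 j y
          have h3 : 2 ≤ r j y := by omega
          exact_mod_cast h3
        have : 1 / (r j y : ℚ) ≤ 1 / 2 := one_div_le_one_div_of_le (by norm_num) hy'
        linarith
      have := key x hx
      have := key a ha
      linarith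
  · push Not at hex
    obtain ⟨a, hab⟩ := exists_ne b
    refine ⟨a, b, hab, ?_, fun x _ hxb => hex x hxb⟩
    rw [hex a hab]
    have : 1 ≤ q ^ 5 := Nat.one_le_pow _ _ (by omega)
    omega

/-- three numbers with `1 / a + 1 / b + 1 / c > 1`, first number `2` -/
theorem arith_two {b c : ℕ} (hb : 2 ≤ b) (hc : 2 ≤ c) (h : (b - 2) * (c - 2) < 4) :
    b = 2 ∨ c = 2 ∨ (b = 3 ∧ (c = 3 ∨ c = 4 ∨ c = 5)) ∨ (c = 3 ∧ (b = 3 ∨ b = 4 ∨ b = 5)) := by
  obtain ⟨b', rfl⟩ : ∃ b', b = b' + 2 := ⟨b - 2, by omega⟩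
  obtain ⟨c', rfl⟩ : ∃ c', c = c' + 2 := ⟨c - 2, by omega⟩
  simp only [Nat.add_sub_cancel] at h
  rcases Nat.lt_or_ge b' 4 with h1 | h1
  · rcases Nat.lt_or_ge c' 4 with h2 | h2
    · interval_cases b' <;> interval_cases c' <;> omega
    · have : b' = 0 := by
        by_contra h0
        have h3 : 1 * 4 ≤ b' * c' := Nat.mul_le_mul (by omega) h2
        omega
      omega
  · have : c' = 0 := by
      by_contra h0
      have h3 : 4 * 1 ≤ b' * c' := Nat.mul_le_mul h1 (by omega)
      omega
    omega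

/-- the signature of three points -/
def Sig (x y z : ℕ) : Prop := x = 2 ∧ (y = 2 ∨ (y = 3 ∧ (z = 3 ∨ z = 4 ∨ z = 5)))

theorem sig_two {b c : ℕ} (hb : 2 ≤ b) (hc : 2 ≤ c) (h : (b - 2) * (c - 2) < 4) :
    Sig 2 b c ∨ Sig 2 c b := by
  unfold Sig
  rcases arith_two hb hc h with h1 | h1 | ⟨h1, h2⟩ | ⟨h1, h2⟩
  · exact Or.inl ⟨rfl, Or.inl h1⟩
  · exact Or.inr ⟨rfl, Or.inl h1⟩
  · exact Or.inl ⟨rfl, Or.inr ⟨h1, h2⟩⟩
  · exact Or.inr ⟨rfl, Or.inr ⟨h1, h2⟩⟩

theorem prod_lt {b c : ℕ} (hb : 2 ≤ b) (hc : 2 ≤ c)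
    (h : (1 : ℚ) < 1 / 2 + 1 / (b : ℚ) + 1 / (c : ℚ)) : (b - 2) * (c - 2) < 4 := by
  obtain ⟨b', rfl⟩ : ∃ b', b = b' + 2 := ⟨b - 2, by omega⟩
  obtain ⟨c', rfl⟩ : ∃ c', c = c' + 2 := ⟨c - 2, by omega⟩
  simp only [Nat.add_sub_cancel]
  push_cast at h
  have hb' : (0 : ℚ) < (b' : ℚ) + 2 := by positivity
  have hc' : (0 : ℚ) < (c' : ℚ) + 2 := by positivity
  have h1 : (b' : ℚ) * c' < 4 := by
    have h2 : 1 / 2 + 1 / ((b' : ℚ) + 2) + 1 / ((c' : ℚ) + 2) - 1 =
        (4 - (b' : ℚ) * c') / (2 * ((b' : ℚ) + 2) * ((c' : ℚ) + 2)) := by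
      field_simp
      ring
    have h3 : 0 < (4 - (b' : ℚ) * c') / (2 * ((b' : ℚ) + 2) * ((c' : ℚ) + 2)) := by
      rw [← h2]
      linarith
    have h4 : 0 < 2 * ((b' : ℚ) + 2) * ((c' : ℚ) + 2) := by positivity
    have h5 := (div_pos_iff_of_pos_right h4).1 h3
    linarith
  exact_mod_cast h1

theorem sig {x y z : ℕ} (hx : 2 ≤ x) (hy : 2 ≤ y) (hz : 2 ≤ z)
    (h : (1 : ℚ) < 1 / (x : ℚ) + 1 / (y : ℚ) + 1 / (z : ℚ)) :
    Sig x y z ∨ Sig x z y ∨ Sig y x z ∨ Sig y z x ∨ Sig z x y ∨ Sig z y x := by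
  have h2 : x = 2 ∨ y = 2 ∨ z = 2 := by
    by_contra h0
    push Not at h0
    have key : ∀ n : ℕ, 3 ≤ n → 1 / (n : ℚ) ≤ 1 / 3 := fun n hn =>
      one_div_le_one_div_of_le (by norm_num) (by exact_mod_cast hn)
    have := key x (by omega)
    have := key y (by omega)
    have := key z (by omega)
    linarith
  rcases h2 with rfl | rfl | rfl
  · have h3 := sig_two hy hz (prod_lt hy hz (by push_cast at h; linarith))
    tauto
  · have h3 := sig_two hx hz (prod_lt hx hz (by push_cast at h; linarith))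
    tauto
  · have h3 := sig_two hx hy (prod_lt hx hy (by push_cast at h; linarith))
    tauto

/-- Row SIG: the spherical signatures. -/
theorem signature [Nontrivial α] {r : α → ℕ} (h1 : ∀ x, 1 ≤ r x) (hf : {x | r x ≠ 1}.Finite)
    (hs : sw ∅ r < 2) : (∃ a b, a ≠ b ∧ ∀ x, x ≠ a → x ≠ b → r x = 1) ∨
    ∃ a b c, a ≠ b ∧ a ≠ c ∧ b ≠ c ∧ (∀ x, x ≠ a → x ≠ b → x ≠ c → r x = 1) ∧
      Sig (r a) (r b) (r c) := by
  have hge : ∀ x, r x ≠ 1 → 2 ≤ r x := fun x hx => by
    have := h1 x
    omega
  have hhalf : ∀ x, r x ≠ 1 → (1 : ℚ) / 2 ≤ 1 - 1 / (r x : ℚ) := by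
    intro y hy
    have hy' : (2 : ℚ) ≤ r y := by exact_mod_cast hge y hy
    have : 1 / (r y : ℚ) ≤ 1 / 2 := one_div_le_one_div_of_le (by norm_num) hy'
    linarith
  set D := hf.toFinset with hD
  have hDm : ∀ x, x ∈ D ↔ r x ≠ 1 := fun x => by rw [hD, Set.Finite.mem_toFinset]; rfl
  have hsum := le_sw (Z := ∅) h1 hf D (fun _ _ => Set.notMem_empty _)
  have hcard : D.card ≤ 3 := by
    by_contra h0
    push Not at h0
    have h2 : ∑ x ∈ D, ((1 : ℚ) / 2) ≤ ∑ x ∈ D, (1 - 1 / (r x : ℚ)) :=
      Finset.sum_le_sum fun x hx => hhalf x ((hDm x).1 hx)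
    rw [Finset.sum_const, nsmul_eq_mul] at h2
    have h3 : (4 : ℚ) ≤ D.card := by exact_mod_cast h0
    linarith
  rcases Nat.lt_or_ge D.card 3 with h3 | h3
  · left
    rcases Nat.lt_or_ge D.card 2 with h4 | h4
    · rcases D.eq_empty_or_nonempty with h5 | ⟨a, ha⟩
      · obtain ⟨a, b, hab⟩ := exists_pair_ne α
        refine ⟨a, b, hab, fun x _ _ => ?_⟩
        by_contra hx
        have := (hDm x).2 hx
        rw [h5] at this
        exact Finset.notMem_empty _ this
      · obtain ⟨b, hb⟩ := exists_ne a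
        refine ⟨a, b, hb.symm, fun x hxa _ => ?_⟩
        by_contra hx
        exact hxa (Finset.card_le_one.1 (by omega) x ((hDm x).2 hx) a ha)
    · obtain ⟨a, b, hab, hDab⟩ := Finset.card_eq_two.1 (by omega : D.card = 2)
      refine ⟨a, b, hab, fun x hxa hxb => ?_⟩
      by_contra hx
      have := (hDm x).2 hx
      rw [hDab, Finset.mem_insert, Finset.mem_singleton] at this
      rcases this with h | h
      · exact hxa h
      · exact hxb h
  · right
    obtain ⟨x, y, z, hxy, hxz, hyz, hDxyz⟩ := Finset.card_eq_three.1 (by omega : D.card = 3)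
    have hout : ∀ w, w ≠ x → w ≠ y → w ≠ z → r w = 1 := by
      intro w h4 h5 h6
      by_contra hw
      have := (hDm w).2 hw
      rw [hDxyz] at this
      simp only [Finset.mem_insert, Finset.mem_singleton] at this
      rcases this with h | h | h
      · exact h4 h
      · exact h5 h
      · exact h6 h
    have hxD : r x ≠ 1 := (hDm x).1 (by rw [hDxyz]; simp)
    have hyD : r y ≠ 1 := (hDm y).1 (by rw [hDxyz]; simp)
    have hzD : r z ≠ 1 := (hDm z).1 (by rw [hDxyz]; simp)
    rw [hDxyz, Finset.sum_insert (by simp [hxy, hxz]), Finset.sum_pair hyz] at hsum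
    have h4 : (1 : ℚ) < 1 / (r x : ℚ) + 1 / (r y : ℚ) + 1 / (r z : ℚ) := by linarith
    rcases sig (hge x hxD) (hge y hyD) (hge z hzD) h4 with h | h | h | h | h | h
    · exact ⟨x, y, z, hxy, hxz, hyz, hout, h⟩
    · exact ⟨x, z, y, hxz, hxy, hyz.symm, fun w a b c => hout w a c b, h⟩
    · exact ⟨y, x, z, hxy.symm, hyz, hxz, fun w a b c => hout w b a c, h⟩
    · exact ⟨y, z, x, hyz, hxy.symm, hxz.symm, fun w a b c => hout w c a b, h⟩
    · exact ⟨z, x, y, hxz.symm, hyz.symm, hxy, fun w a b c => hout w b c a, h⟩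
    · exact ⟨z, y, x, hyz.symm, hxz.symm, hxy.symm, fun w a b c => hout w c b a, h⟩

/-- Row TYPES. -/
theorem types [Nontrivial α] (hC : Cov α f e q) (hnp : ¬ Parab f e)
    {M : ℕ} (hM : 1 ≤ M) {r : ℕ → α → ℕ} (h1 : ∀ j x, 1 ≤ r j x)
    (hfin : ∀ j, {x | r j x ≠ 1}.Finite) (hper : ∀ j, r (j + M) = r j)
    (hst : ∀ j x, r (j + 1) (f x) ≤ e x * r j x) (j : ℕ) : Types (r j) (2 * q ^ 5) := by
  rcases bounded hC hnp hM h1 hfin hper hst j with ⟨hb, hs⟩ | ⟨a, b, hab, ha, hx⟩
  · rcases signature (h1 j) (hfin j) hs with ⟨a, b, hab, hx⟩ | ⟨a, b, c, h2, h3, h4, h5, h6, h7⟩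
    · exact Or.inl ⟨a, b, hab, hx, hb a⟩
    · refine Or.inr ⟨a, b, c, h2, h3, h4, h5, h6, ?_⟩
      rcases h7 with h7 | h7
      · exact Or.inl ⟨h7, hb c⟩
      · exact Or.inr h7
  · exact Or.inl ⟨a, b, hab, hx, ha⟩

end Ty75

end Pool.DynLehmer.UN

end

section

/-!
# The indices of a lift: rows POWP, COMB, BN, SIG
-/

namespace Pool.DynLehmer.UN.Orb
open MvPolynomial Pool.DynLehmer Pool.DynLehmer.GS Pool.DynLehmer.UN
open scoped Classical

namespace O75

variable {k : Type} [Field k] [IsAlgClosed k] [CharZero k]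

/-- the data of a map of the projective line -/
theorem cov {q : ℕ} {F : Fin 2 → MvPolynomial (Fin 2) k} (hq : 2 ≤ q) (hF : Mor q F) :
    Cov (Option k) (pm F) (ldeg F) q := by
  have hd := R96.natDegree_dh hF
  have hc := R96.coprime_dh hF
  have h1 : 1 ≤ max (R96.dh (F 0)).natDegree (R96.dh (F 1)).natDegree := by
    rw [hd]
    omega
  obtain ⟨hpos, T, hT, hTs⟩ := R47.rh hc h1
  refine ⟨hq, hpos, fun b => ?_, T, fun x hx => ?_, ?_⟩
  · obtain ⟨S, hS, hSs⟩ := R47.fib_sum hc h1 b
    exact ⟨S, hS, hSs.trans hd⟩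
  · by_contra h0
    exact hx (hT x h0)
  · rw [hd] at hTs
    exact hTs

theorem wt_eq {P : Type} (r : P → ℕ) (X : Set P) :
    (∑ᶠ a : {a // r a ≠ 1 ∧ a ∉ X}, (1 - 1 / (r a.1 : ℚ))) = Ty75.sw X r := by
  refine (finsum_subtype_eq_finsum_cond (f := fun a : P => (1 : ℚ) - 1 / (r a : ℚ))
    (fun a => r a ≠ 1 ∧ a ∉ X)).trans ?_
  unfold Ty75.sw
  refine finsum_congr fun a => ?_
  rw [finsum_eq_if]
  by_cases h1 : r a = 1
  · rw [h1, if_neg (fun h => h.1 rfl)]
    simp
  · by_cases h2 : a ∈ X
    · rw [if_neg (fun h => h.2 h2), if_pos h2, zero_mul]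
    · rw [if_pos ⟨h1, h2⟩, if_neg h2, one_mul]

theorem wt_eq' {P : Type} (r : P → ℕ) :
    (∑ᶠ a : {a // r a ≠ 1}, (1 - 1 / (r a.1 : ℚ))) = Ty75.sw ∅ r := by
  refine (finsum_subtype_eq_finsum_cond (f := fun a : P => (1 : ℚ) - 1 / (r a : ℚ))
    (fun a => r a ≠ 1)).trans ?_
  unfold Ty75.sw
  refine finsum_congr fun a => ?_
  rw [finsum_eq_if]
  by_cases h1 : r a = 1
  · rw [h1, if_neg (fun h => h rfl)]
    simp
  · rw [if_pos h1, if_neg (Set.notMem_empty a), one_mul]

theorem fin_iter {α : Type} {f : α → α} {e : α → ℕ} {q : ℕ} (hC : Cov α f e q) (b : α) (i : ℕ) :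
    {a | f^[i] a = b}.Finite := by
  induction i with
  | zero =>
    refine (Set.finite_singleton b).subset fun a ha => ?_
    exact ha
  | succ i ih =>
    have h1 : {a | f^[i + 1] a = b} ⊆ ⋃ c ∈ {a | f^[i] a = b}, {a | f a = c} := by
      intro a ha
      rw [Set.mem_iUnion₂]
      exact ⟨f a, ha, rfl⟩
    refine (ih.biUnion fun c _ => ?_).subset h1
    obtain ⟨S, hS, -⟩ := hC.fib c
    exact S.finite_toSet.subset fun a ha => (hS a).2 ha

theorem pair_pre {α : Type} {f : α → α} {e : α → ℕ} {q : ℕ} (hC : Cov α f e q) {c d : α}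
    (hcd : c ≠ d) (hc : e c = q) (hd : e d = q)
    (h1 : f c = c ∨ f c = d) (h2 : f d = c ∨ f d = d) (a : α) :
    (f a = c ∨ f a = d) ↔ (a = c ∨ a = d) := by
  have hne : f c ≠ f d := fun h0 => hcd (Ty75.inj hC hd h0)
  constructor
  · intro hx
    rcases h1 with h1 | h1 <;> rcases h2 with h2 | h2
    · exact absurd (h1.trans h2.symm) hne
    · rcases hx with hx | hx
      · exact Or.inl (Ty75.inj hC hc (hx.trans h1.symm))
      · exact Or.inr (Ty75.inj hC hd (hx.trans h2.symm))
    · rcases hx with hx | hx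
      · exact Or.inr (Ty75.inj hC hd (hx.trans h2.symm))
      · exact Or.inl (Ty75.inj hC hc (hx.trans h1.symm))
    · exact absurd (h1.trans h2.symm) hne
  · rintro (rfl | rfl)
    · exact h1
    · exact h2

/-- Row POWP. -/
theorem powp : PowpStatement := by
  intro k _ _ _ q F hq hF ⟨b, b', hbb, h⟩
  have hC := cov hq hF
  have hb : pm F b = b ∨ pm F b = b' := (h b).2 (Or.inl rfl)
  have hb' : pm F b' = b ∨ pm F b' = b' := (h b').2 (Or.inr rfl)
  have hne : pm F b ≠ pm F b' := by
    intro h0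
    obtain ⟨x, hx⟩ := Ty75.surj hC b
    obtain ⟨y, hy⟩ := Ty75.surj hC b'
    have hx' := (h x).1 (Or.inl hx)
    have hy' := (h y).1 (Or.inr hy)
    have h1 : pm F x = pm F b := by
      rcases hx' with h2 | h2
      · rw [h2]
      · rw [h2, h0]
    have h2 : pm F y = pm F b := by
      rcases hy' with h2 | h2
      · rw [h2]
      · rw [h2, h0]
    exact hbb (hx.symm.trans (h1.trans (h2.symm.trans hy)))
  have eb : ldeg F b = q := Ty75.tot hC fun y hy => by
    have h1 : y = b ∨ y = b' := (h y).1 (by rw [hy]; exact hb)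
    rcases h1 with h1 | h1
    · exact h1
    · exact absurd (by rw [← hy, h1]) hne
  have eb' : ldeg F b' = q := Ty75.tot hC fun y hy => by
    have h1 : y = b ∨ y = b' := (h y).1 (by rw [hy]; exact hb')
    rcases h1 with h1 | h1
    · exact absurd (by rw [← hy, h1]) hne
    · exact h1
  exact Ty75.power hC hbb eb eb' hb hb'

/-- Row COMB. -/
theorem comb : CombStatement := by
  intro k _ _ _ q F b hq hF hnp h
  have hC := cov hq hF
  have key : ∀ i ≤ 5, ∀ x y z, (pm F)^[i] x = b → (pm F)^[i] y = b → (pm F)^[i] z = b →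
      x = y ∨ x = z ∨ y = z := by
    intro i hi x y z hx hy hz
    rcases Nat.eq_zero_or_pos i with rfl | hi0
    · left
      exact Eq.trans (show x = b from hx) (show y = b from hy).symm
    · by_contra h0
      push Not at h0
      have h3 := h i hi0 hi
      have h4 : ({x, y, z} : Finset (Option k)) ⊆ (fin_iter hC b i).toFinset := by
        intro w hw
        rw [Set.Finite.mem_toFinset]
        simp only [Finset.mem_insert, Finset.mem_singleton] at hw
        rcases hw with rfl | rfl | rfl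
        · exact hx
        · exact hy
        · exact hz
      have h5 := Finset.card_le_card h4
      rw [← Set.ncard_eq_toFinset_card _ (fin_iter hC b i),
        Finset.card_insert_of_notMem (by simp [h0.1, h0.2.1]), Finset.card_pair h0.2.2] at h5
      omega
  rcases Ty75.back5 hC b key with h1 | ⟨c, d, hcd, hc, hd, h1, h2⟩
  · intro a
    exact ⟨h1 a, fun h2 => by rw [h2]; exact (Ty75.tot_of hC h1).1⟩
  · exact absurd ⟨c, d, hcd, pair_pre hC hcd hc hd h1 h2⟩ hnp

/-- Row BN. -/
theorem bn : BnStatement := by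
  intro k _ _ _ q F M r hq hF hM hr hnp
  have hC := cov hq hF
  rcases Ty75.bounded hC hnp hM hr.pos hr.fin hr.per hr.le 0 with ⟨h1, h2⟩ | ⟨a, b, -, h1, h2⟩
  · refine Or.inl ⟨h1, ?_⟩
    unfold wt
    rw [wt_eq]
    exact h2
  · exact Or.inr ⟨a, b, h1, h2⟩

/-- Row CHI. -/
theorem chi : ChiStatement := by
  intro k _ _ _ q F M r hq hF hM hr hnp
  have hC := cov hq hF
  refine ⟨fun j => ?_, fun b hb j => ?_⟩
  · unfold wt
    rw [wt_eq]
    exact Ty75.lt_two hC hnp hM hr.pos hr.fin hr.per hr.le j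
  · unfold wt
    rw [wt_eq]
    exact Ty75.lt_one hC hnp hM hr.pos hr.fin hr.per hr.le (fun x hx => (hb x).1 hx) j

/-- Row SIG. -/
theorem sig : SigStatement := by
  intro P r h1 hf ⟨a₀, b₀, hab⟩ hs
  have : Nontrivial P := ⟨a₀, b₀, hab⟩
  rw [wt_eq'] at hs
  rcases Ty75.signature h1 hf hs with h2 | ⟨a, b, c, h2, h3, h4, h5, h6⟩
  · exact Or.inl h2
  · exact Or.inr ⟨a, b, c, h2, h3, h4, h5, h6⟩

/-- Row TYPES: the types of the indices of a lift. -/
theorem types {q : ℕ} {F : Fin 2 → MvPolynomial (Fin 2) k} {M : ℕ} {r : ℕ → Option k → ℕ}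
    (hq : 2 ≤ q) (hF : Mor q F) (hM : 1 ≤ M) (hr : Idx F M r) (hnp : ¬ Para F) (j : ℕ) :
    Types (r j) (2 * q ^ 5) :=
  Ty75.types (cov hq hF) hnp hM hr.pos hr.fin hr.per hr.le j

end O75

end Pool.DynLehmer.UN.Orb

end

section

/-! # Row GTOW: the fields between `L` and `φ(L)` -/

namespace Pool.DynLehmer.UN.Ob51
open MvPolynomial Pool.DynLehmer Pool.DynLehmer.SB Pool.DynLehmer.SP
  Pool.DynLehmer.GS Pool.DynLehmer.LP Pool.DynLehmer.LW Pool.DynLehmer.UN
open IntermediateField

section
variable {k L : Type} [Field k] [Field L] [Algebra k L] {q : ℕ}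
  {F : Fin 2 → MvPolynomial (Fin 2) k}

theorem coprime_dh (hF : Mor q F) : IsCoprime (R96.dh (F 0)) (R96.dh (F 1)) := by
  rw [Polynomial.isCoprime_iff_aeval_ne_zero_of_isAlgClosed k (AlgebraicClosure k)]
  intro a
  by_contra h
  push Not at h
  have h1 : (![a, 1] : Fin 2 → AlgebraicClosure k) ≠ 0 := fun h0 => by
    have h2 : (1 : AlgebraicClosure k) = 0 := congrFun h0 1
    exact one_ne_zero h2
  refine hF.ne (AlgebraicClosure k) ![a, 1] h1 ?_
  funext i
  fin_cases i
  · exact (R96.aeval_dh a (F 0)).trans h.1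
  · exact (R96.aeval_dh a (F 1)).trans h.2

/-- the degree of a map -/
theorem relf (hF : Mor q F) (hq : 1 ≤ q) {x : L} (hx : Transcendental k x) :
    relfinrank (adjoin k {fr F x}) (adjoin k {x}) = q := by
  have hB : R96.dh (F 1) ≠ 0 := by
    intro h
    have h1 := Rb.den_ne hF hq hx
    rw [R96.aeval_dh, h, map_zero] at h1
    exact h1 rfl
  have h1 := Ra21.rel_f (algebraMap _ (RatFunc k) (R96.dh (F 0)) /
    algebraMap _ (RatFunc k) (R96.dh (F 1))) hx
  rw [Ra21.dg_quot _ _ (coprime_dh hF) hB, R96.natDegree_dh hF,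
    Ra21.rv_quot _ _ (coprime_dh hF) hB] at h1
  rw [← h1]
  congr 3
  rw [← R96.aeval_dh, ← R96.aeval_dh]
  rfl

theorem it_mem {E : IntermediateField k L} {z : L} (hz : z ∈ E) (n : ℕ) : (fr F)^[n] z ∈ E := by
  induction n with
  | zero => exact hz
  | succ n ih =>
    rw [Function.iterate_succ_apply']
    exact Ra72.fr_mem F ih

theorem it_le {x : L} {i j : ℕ} (h : i ≤ j) :
    adjoin k {(fr F)^[j] x} ≤ adjoin k {(fr F)^[i] x} := by
  obtain ⟨n, rfl⟩ := Nat.exists_eq_add_of_le h
  refine adjoin_le_iff.2 ?_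
  rintro _ rfl
  rw [add_comm, Function.iterate_add_apply]
  exact it_mem (mem_adjoin_simple_self k _) n

end

theorem gtow : Orb.GtowStatement := by
  intro k L _ _ _ _ q F M u φ hq hF hM hG
  have hφ : ∀ n, φ ((fr F)^[n] u) = (fr F)^[n + M] u := by
    intro n
    rw [Rb.map_it, hG.per, ← Function.iterate_add_apply]
  -- the images of the powers of φ
  let R : ℕ → IntermediateField k L := fun n => (φ ^ n).fieldRange
  let D : ℕ → ℕ → IntermediateField k L := fun a b => R a ⊔ adjoin k {(fr F)^[b] u}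
  have hR : ∀ n, R (n + 1) = (R n).map φ := by
    intro n
    show (φ ^ (n + 1)).fieldRange = (φ ^ n).fieldRange.map φ
    rw [AlgHom.map_fieldRange, pow_succ']
    rfl
  have hR0 : R 0 = ⊤ := by
    show (φ ^ 0).fieldRange = ⊤
    rw [pow_zero, eq_top_iff]
    intro x _
    exact ⟨x, rfl⟩
  have hDmap : ∀ a b, (D a b).map φ = D (a + 1) (b + M) := by
    intro a b
    show (R a ⊔ adjoin k {(fr F)^[b] u}).map φ = R (a + 1) ⊔ adjoin k {(fr F)^[b + M] u}
    rw [IntermediateField.map_sup, ← hR, adjoin_map, Set.image_singleton, hφ]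
  have hR1 : ∀ n, R n = D (n + 1) (n * M) := by
    intro n
    induction n with
    | zero =>
      rw [hR0, eq_comm, Nat.zero_mul]
      show (φ ^ 1).fieldRange ⊔ adjoin k {u} = ⊤
      rw [pow_one]
      exact hG.gen
    | succ n ih => rw [hR, ih, hDmap, Nat.succ_mul]
  have hstab : ∀ a b, b ≤ a * M → D (a + 1) b = D a b := by
    intro a b hab
    show R (a + 1) ⊔ adjoin k {(fr F)^[b] u} = R a ⊔ adjoin k {(fr F)^[b] u}
    rw [hR1 a]
    show _ = (R (a + 1) ⊔ adjoin k {(fr F)^[a * M] u}) ⊔ adjoin k {(fr F)^[b] u}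
    rw [sup_assoc, sup_eq_right.2 (it_le hab)]
  have hstab' : ∀ a b n, b ≤ a * M → D (a + n) b = D a b := by
    intro a b n hab
    induction n with
    | zero => rfl
    | succ n ih =>
      rw [← add_assoc, hstab _ _ (hab.trans (Nat.mul_le_mul_right M (Nat.le_add_right a n))), ih]
  let E : ℕ → IntermediateField k L := fun j => D j j
  have hjM : ∀ j, j ≤ j * M := fun j => Nat.le_mul_of_pos_right j hM
  have hmem : ∀ j, (fr F)^[j] u ∈ E j := fun j =>
    (le_sup_right : adjoin k {(fr F)^[j] u} ≤ E j) (mem_adjoin_simple_self k _)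
  have hle : ∀ j, adjoin k {(fr F)^[j] u} ≤ E j := fun j => le_sup_right
  have hE0 : E 0 = ⊤ := by
    show R 0 ⊔ adjoin k {u} = ⊤
    rw [hR0, top_sup_eq]
  have hsup : ∀ j, E j = E (j + 1) ⊔ adjoin k {(fr F)^[j] u} := by
    intro j
    show D j j = (R (j + 1) ⊔ adjoin k {(fr F)^[j + 1] u}) ⊔ adjoin k {(fr F)^[j] u}
    rw [sup_assoc, sup_eq_right.2 (it_le (Nat.le_succ j)), ← hstab j j (hjM j)]
  have hEmap : ∀ j, E (j + M) = (E j).map φ := by
    intro j
    show D (j + M) (j + M) = (D j j).map φ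
    rw [hDmap]
    obtain ⟨M', rfl⟩ : ∃ M', M = M' + 1 := ⟨M - 1, by omega⟩
    have h1 := hstab' (j + 1) (j + (M' + 1)) M' (by
      have := hjM j
      rw [Nat.succ_mul]
      omega)
    have h2 : j + 1 + M' = j + (M' + 1) := by omega
    rw [h2] at h1
    exact h1
  -- degrees
  have htr : ∀ j, Transcendental k ((fr F)^[j] u) := fun j => Rb.trans_it hF hq hG.tr j
  have hrel : ∀ j, relfinrank (adjoin k {(fr F)^[j + 1] u}) (adjoin k {(fr F)^[j] u}) = q := by
    intro j
    rw [Function.iterate_succ_apply']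
    exact relf hF hq (htr j)
  let n : ℕ → ℕ := fun j => relfinrank (adjoin k {(fr F)^[j] u}) (E j)
  have hn0 : n 0 ≠ 0 := by
    show relfinrank (adjoin k {(fr F)^[0] u}) (E 0) ≠ 0
    rw [hE0, relfinrank_top_right]
    have h1 : FiniteDimensional (adjoin k {(fr F)^[0] u}) L := hG.fin
    exact Module.finrank_pos.ne'
  have hC : ∀ j, q * n j = relfinrank (adjoin k {(fr F)^[j + 1] u}) (E j) := by
    intro j
    rw [← relfinrank_mul_relfinrank (it_le (Nat.le_succ j)) (hle j), hrel]
  have hmono : ∀ j, n j ≤ n (j + 1) := by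
    intro j
    have h1 := Ra21.rel_sup_le (adjoin k {(fr F)^[j + 1] u}) (E (j + 1))
      (adjoin k {(fr F)^[j] u}) (hle (j + 1)) (it_le (Nat.le_succ j))
    rw [← hsup, ← hC, hrel, mul_comm q] at h1
    exact Nat.le_of_mul_le_mul_right h1 hq
  have hnM : ∀ j, n (j + M) = n j := by
    intro j
    show relfinrank (adjoin k {(fr F)^[j + M] u}) (E (j + M)) = _
    have h1 : adjoin k {(fr F)^[j + M] u} = (adjoin k {(fr F)^[j] u}).map φ := by
      rw [adjoin_map, Set.image_singleton, hφ]
    rw [h1, hEmap, relfinrank_map_map]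
  have hmono' : Monotone n := monotone_nat_of_le_succ hmono
  have hconst : ∀ j, n (j + 1) = n j := fun j =>
    le_antisymm ((hmono' (by omega : j + 1 ≤ j + M)).trans (hnM j).le) (hmono j)
  have hpos : ∀ j, 0 < n j := fun j => (Nat.pos_of_ne_zero hn0).trans_le (hmono' (Nat.zero_le j))
  have hq' : ∀ j, relfinrank (E (j + 1)) (E j) = q := by
    intro j
    have hle' : E (j + 1) ≤ E j := by
      rw [hsup j]
      exact le_sup_left
    have h1 := relfinrank_mul_relfinrank (hle (j + 1)) hle'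
    rw [← hC] at h1
    have h2 : n (j + 1) * relfinrank (E (j + 1)) (E j) = q * n j := h1
    rw [hconst, mul_comm q] at h2
    exact Nat.eq_of_mul_eq_mul_left (hpos j) h2
  refine ⟨E, hE0, hsup, hmem, fun j => ?_, hEmap, hφ⟩
  have hle' : E (j + 1) ≤ E j := by
    rw [hsup j]
    exact le_sup_left
  have h1 := Ra21.integral_of_rel (E (j + 1)) (E j) hle' (by rw [hq']; omega)
    ((fr F)^[j] u) (hmem j)
  rw [← Ra21.relfinrank_sup_adjoin _ h1, ← hsup, hq']

end Pool.DynLehmer.UN.Ob51

end

section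

set_option linter.unusedSectionVars false

/-! # Row GTIDX: the minimal indices of a lift -/

namespace Pool.DynLehmer.UN.Gti36
open Pool.DynLehmer Pool.DynLehmer.GS Pool.DynLehmer.UN Pool.DynLehmer.UN.Orb
open Polynomial IntermediateField

/-- the equation of the map in terms of the two polynomials -/
theorem fr_mul {k L : Type} [Field k] [Field L] [Algebra k L] {q : ℕ} (hq : 1 ≤ q)
    {F : Fin 2 → MvPolynomial (Fin 2) k} (hF : Mor q F) {z : L} (hz : Transcendental k z) :
    fr F z * aeval z (R96.dh (F 1)) = aeval z (R96.dh (F 0)) := by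
  have h1 := Rb.den_ne hF hq hz
  rw [← R96.aeval_dh, ← R96.aeval_dh]
  exact div_mul_cancel₀ _ h1

theorem ld_pos {k : Type} [Field k] {A B : k[X]} (hc : IsCoprime A B)
    (hq : 1 ≤ max A.natDegree B.natDegree) (x : Option k) : 1 ≤ ld A B x := by
  have key : ∀ {P Q : k[X]} {c : k}, IsCoprime P Q → P = C c * Q → P.natDegree = 0 ∧
      Q.natDegree = 0 := by
    intro P Q c hPQ hP
    have h1 : IsUnit Q := hPQ.isUnit_of_dvd' ⟨C c, by rw [hP, mul_comm]⟩ dvd_rfl
    have h2 := natDegree_eq_zero_of_isUnit h1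
    refine ⟨?_, h2⟩
    have h3 : P.natDegree ≤ Q.natDegree := by
      rw [hP]
      exact natDegree_C_mul_le _ _
    omega
  have comb : ∀ {α β : k}, (α ≠ 0 ∨ β ≠ 0) → C β * A - C α * B ≠ 0 := by
    intro α β h h0
    rcases eq_or_ne β 0 with rfl | hβ
    · have hα : α ≠ 0 := h.resolve_right (by simp)
      have h1 : B = C 0 * A := by
        rw [C_0, zero_mul, zero_sub, neg_eq_zero, mul_eq_zero, C_eq_zero] at h0
        rw [C_0, zero_mul]
        exact h0.resolve_left hα
      obtain ⟨h2, h3⟩ := key hc.symm h1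
      omega
    · have h1 : A = C (α / β) * B := by
        have h2 : C β * A = C α * B := sub_eq_zero.1 h0
        have h3 : C (β⁻¹) * (C β * A) = C (β⁻¹) * (C α * B) := by rw [h2]
        rw [← mul_assoc, ← mul_assoc, ← C_mul, ← C_mul, inv_mul_cancel₀ hβ, C_1, one_mul] at h3
        rw [h3, div_eq_inv_mul]
      obtain ⟨h2, h3⟩ := key hc h1
      omega
  cases x with
  | some a =>
    have h1 : A.eval a ≠ 0 ∨ B.eval a ≠ 0 := by
      by_contra h
      push Not at h
      obtain ⟨u, v, huv⟩ := hc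
      have := congrArg (eval a) huv
      rw [eval_add, eval_mul, eval_mul, h.1, h.2, mul_zero, mul_zero, add_zero, eval_one] at this
      exact zero_ne_one this
    show 1 ≤ (C (B.eval a) * A - C (A.eval a) * B).rootMultiplicity a
    refine (rootMultiplicity_pos (comb h1)).2 ?_
    rw [IsRoot, eval_sub, eval_mul, eval_mul, eval_C, eval_C]
    ring
  | none =>
    have h1 : A.coeff (max A.natDegree B.natDegree) ≠ 0 ∨
        B.coeff (max A.natDegree B.natDegree) ≠ 0 := by
      rcases le_total A.natDegree B.natDegree with h | h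
      · right
        rw [max_eq_right h] at hq ⊢
        have : B ≠ 0 := by
          rintro rfl
          simp at hq
        exact leadingCoeff_ne_zero.2 this
      · left
        rw [max_eq_left h] at hq ⊢
        have : A ≠ 0 := by
          rintro rfl
          simp at hq
        exact leadingCoeff_ne_zero.2 this
    show 1 ≤ (C (B.coeff (max A.natDegree B.natDegree)) * reflect (max A.natDegree B.natDegree) A -
      C (A.coeff (max A.natDegree B.natDegree)) *
        reflect (max A.natDegree B.natDegree) B).rootMultiplicity 0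
    set n := max A.natDegree B.natDegree with hn
    have e1 : C (B.coeff n) * reflect n A - C (A.coeff n) * reflect n B =
        reflect n (C (B.coeff n) * A - C (A.coeff n) * B) := by
      rw [reflect_sub, reflect_C_mul, reflect_C_mul]
    refine (rootMultiplicity_pos ?_).2 ?_
    · rw [e1, Ne, reflect_eq_zero_iff]
      exact comb h1
    · rw [IsRoot, eval_sub, eval_mul, eval_mul, eval_C, eval_C, R47.eval_zero_reflect,
        R47.eval_zero_reflect]
      ring

/-- Row GTIDX. -/
theorem gtidx (hT : GtowStatement) : GtidxStatement := by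
  intro k L _ _ _ _ _ q F M u φ hq hF hM hG
  obtain ⟨E, hE0, hEs, huE, hdeg, hEM, huM⟩ := hT k L q F M u φ (by omega) hF hM hG
  set A := R96.dh (F 0) with hA
  set B := R96.dh (F 1) with hB
  have hcop : IsCoprime A B := R96.coprime_dh hF
  have hmax : max A.natDegree B.natDegree = q := R96.natDegree_dh hF
  let w : ℕ → L := fun j => (fr F)^[j] u
  have hw : ∀ j, w j = (fr F)^[j] u := fun j => rfl
  have hws : ∀ j, w (j + 1) = fr F (w j) := fun j => Function.iterate_succ_apply' _ _ _
  have htr : ∀ j, Transcendental k (w j) := by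
    intro j
    induction j with
    | zero => exact hG.tr
    | succ j ih =>
      rw [hws]
      exact Rb.trans_fr hF (by omega) ih
  have heq : ∀ j, w (j + 1) * aeval (w j) B = aeval (w j) A := by
    intro j
    rw [hws]
    exact fr_mul (by omega) hF (htr j)
  have hBu : ∀ j, aeval (w j) B ≠ 0 := by
    intro j
    rw [hB, ← R96.aeval_dh]
    exact Rb.den_ne hF (by omega) (htr j)
  have hfinj : ∀ j, FiniteDimensional (adjoin k {w j}) L := by
    intro j
    induction j with
    | zero => exact hG.fin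
    | succ j ih =>
      exact R47.fin_step (w j) (w (j + 1)) A B (by omega) (htr (j + 1)) (hBu j) (heq j) ih
  let U : ∀ j, E j := fun j => ⟨w j, huE j⟩
  have hfinE : ∀ j, FiniteDimensional (adjoin k {U j}) (E j) :=
    fun j => tq_fin_down (E j) (w j) (huE j) (hfinj j)
  have htrE : ∀ j, Transcendental k (U j) := by
    intro j h
    exact htr j (h.algebraMap (A := L))
  have hper : ∀ j e x, SpO k (E (j + M)) (U (j + M)) e x ↔ SpO k (E j) (U j) e x := by
    intro j e x
    let ee : E j ≃ₐ[k] E (j + M) := ((E j).equivMap φ).trans (equivOfEq (hEM j).symm)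
    have heU : ee (U j) = U (j + M) := by
      apply Subtype.ext
      change φ (w j) = w (j + M)
      exact huM j
    rw [← heU]
    exact R47.spO_map ee (U j) e x
  have hle : ∀ j, E (j + 1) ≤ E j := fun j => by
    rw [hEs j]
    exact le_sup_left
  have hchart : ∀ (j : ℕ) (e : ℕ) (x : Option k), 1 ≤ e → SpO k (E j) (U j) e x →
      SpO k (E (j + 1)) (U (j + 1)) (ld A B x * e) (rmap A B x) := by
    intro j e x he hx
    let _ : Algebra (E (j + 1)) (E j) := (inclusion (hle j)).toRingHom.toAlgebra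
    have _ : IsScalarTower k (E (j + 1)) (E j) := IsScalarTower.of_algebraMap_eq (fun x => rfl)
    have _ : IsScalarTower (E (j + 1)) (E j) L := IsScalarTower.of_algebraMap_eq (fun x => rfl)
    have h1 : algebraMap (E (j + 1)) (E j) (U (j + 1)) * aeval (U j) B = aeval (U j) A := by
      apply Subtype.ext
      change w (j + 1) * (algebraMap (E j) L) (aeval (U j) B) =
        (algebraMap (E j) L) (aeval (U j) A)
      rw [← aeval_algebraMap_apply, ← aeval_algebraMap_apply]
      exact heq j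
    have h2 : (minpoly (E (j + 1)) (U j)).natDegree = max A.natDegree B.natDegree := by
      rw [hmax, ← hdeg j]
      congr 1
      exact (minpoly.algebraMap_eq (A := E (j + 1)) (algebraMap (E j) L).injective (U j)).symm
    have h4 : adjoin (E (j + 1)) {U j} = ⊤ := by
      rw [eq_top_iff]
      intro z _
      let S : IntermediateField k L :=
        ((adjoin (E (j + 1)) {U j}).restrictScalars k).map (E j).val
      have hS : E j ≤ S := by
        rw [hEs j]
        refine sup_le ?_ ?_
        · intro w hw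
          refine ⟨algebraMap (E (j + 1)) (E j) ⟨w, hw⟩, ?_, rfl⟩
          exact (adjoin (E (j + 1)) {U j}).algebraMap_mem ⟨w, hw⟩
        · rw [adjoin_le_iff]
          intro w hw
          rw [Set.mem_singleton_iff.1 hw]
          exact ⟨U j, mem_adjoin_simple_self (E (j + 1)) (U j), rfl⟩
      obtain ⟨w, hw, hwz⟩ := hS z.2
      have : w = z := Subtype.ext hwz
      rw [← this]
      exact hw
    exact (R47.chartE A B (U j) (U (j + 1)) (htrE j) (htrE (j + 1)) hcop (by omega) h1 h4 e he
      x).2 h2 hx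
  -- the minimal indices
  let r : ℕ → Option k → ℕ := fun j x => sInf {e | 1 ≤ e ∧ SpO k (E j) (U j) e x}
  have hr : ∀ j x, 1 ≤ r j x ∧ SpO k (E j) (U j) (r j x) x := by
    intro j x
    have hne : {e | 1 ≤ e ∧ SpO k (E j) (U j) e x}.Nonempty :=
      R47.exists_spO (U j) (htrE j) (hfinE j) x
    exact Nat.sInf_mem hne
  refine ⟨r, ⟨fun j a => (hr j a).1, ?_, ?_, ?_⟩, ?_⟩
  · intro j
    refine (R47.spO_finite (U j) (htrE j) (hfinE j)).subset fun a ha h1 => ha ?_
    exact le_antisymm (Nat.sInf_le ⟨le_rfl, h1⟩) (hr j a).1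
  · intro j
    funext a
    show sInf _ = sInf _
    congr 1
    ext e
    exact and_congr_right fun _ => hper j e a
  · intro j a
    refine Nat.sInf_le ⟨?_, hchart j (r j a) a (hr j a).1 (hr j a).2⟩
    exact Nat.mul_pos (ld_pos hcop (by omega) a) (hr j a).1
  · intro a
    have h1 := (hr 0 a).2
    let ee : E 0 ≃ₐ[k] L := (equivOfEq hE0).trans topEquiv
    have heU : ee (U 0) = u := rfl
    have h2 := (R47.spO_map ee (U 0) (r 0 a) a).2 h1
    rw [heU] at h2
    exact h2

end Pool.DynLehmer.UN.Gti36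

end

/-! ### The rows without hypotheses -/

namespace Pool.DynLehmer.UN.Orb

/-- Row GTIDX. -/
theorem gtidx_all : GtidxStatement := Gti36.gtidx Ob51.gtow

end Pool.DynLehmer.UN.Orb
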