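import Pool.Agent.Lib.MP_2194ec_nt.UN.Rational

set_option autoImplicit false

/-! # Local rows with ramification indices -/

namespace Pool.DynLehmer.UN
open Polynomial IntermediateField

/-- the local degree of `A / B` -/
noncomputable def ld {k : Type} [Field k] (A B : k[X]) : Option k → ℕ
  | some a => (C (B.eval a) * A - C (A.eval a) * B).rootMultiplicity a
  | none => (C (B.coeff (max A.natDegree B.natDegree)) * reflect (max A.natDegree B.natDegree) A -
      C (A.coeff (max A.natDegree B.natDegree)) *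
        reflect (max A.natDegree B.natDegree) B).rootMultiplicity 0

/-- all indices over the point divide `e` -/
def SpO (k L : Type) [Field k] [Field L] [Algebra k L] (u : L) (e : ℕ) : Option k → Prop
  | some a => SpE k L u a e
  | none => SpE k L u⁻¹ 0 e

namespace R47

/-- all embeddings with `u ↦ a + s` have Laurent series as values -/
def Lau (k L : Type) [Field k] [Field L] [Algebra k L] (u : L) (a : k) (s : PowerSeries k) : Prop :=
  ∀ h : L →+* AlgebraicClosure (LaurentSeries k),
    (∀ b : k, h (algebraMap k L b) = pus (PowerSeries.C b)) → h u = pus (PowerSeries.C a + s) →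
    ∀ z : L, ∃ l : LaurentSeries k, h z = algebraMap _ (AlgebraicClosure (LaurentSeries k)) l

theorem lau_subst {k L : Type} [Field k] [IsAlgClosed k] [CharZero k] [Field L] [Algebra k L]
    (u : L) (a : k) (hu : Transcendental k u) (hfin : FiniteDimensional (adjoin k {u}) L)
    (s₀ s : PowerSeries k) (hs₀ : PowerSeries.constantCoeff s₀ = 0) (hs₀' : s₀ ≠ 0)
    (T : LaurentSeries k →+* LaurentSeries k)
    (hTC : ∀ b, T (HahnSeries.ofPowerSeries ℤ k (PowerSeries.C b)) =
      HahnSeries.ofPowerSeries ℤ k (PowerSeries.C b))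
    (hTs : T (HahnSeries.ofPowerSeries ℤ k s₀) = HahnSeries.ofPowerSeries ℤ k s)
    (hS : Lau k L u a s₀) : Lau k L u a s := by
  intro h hk hhu z
  let K := adjoin k {u}
  have huK : u ∈ K := mem_adjoin_simple_self k u
  let u' : K := ⟨u, huK⟩
  obtain ⟨T₀, hT₀C, hT₀X⟩ := exists_subst s₀ hs₀ hs₀'
  obtain ⟨g, hgC, hgu⟩ : ∃ g : K →+* LaurentSeries k,
      (∀ b, g (algebraMap k K b) = HahnSeries.ofPowerSeries ℤ k (PowerSeries.C b)) ∧
      g u' = HahnSeries.ofPowerSeries ℤ k (PowerSeries.C a + s₀) := by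
    let a1 : Algebra k[X] K := ((aeval u' : k[X] →ₐ[k] K) : k[X] →+* K).toAlgebra
    have m1 : ∀ s : k[X], algebraMap k[X] K s = aeval u' s := fun _ => rfl
    have m3 : ∀ s : k[X], ((aeval u' s : K) : L) = aeval u s := by
      intro s
      have h := Polynomial.aeval_algHom_apply K.val u' s
      exact h.symm
    have hinj' : Function.Injective (algebraMap k[X] K) := by
      intro x y hxy
      apply transcendental_iff_injective.1 hu
      have h1 := congrArg (fun z : K => (z : L)) hxy
      simp only [m1, m3] at h1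
      exact h1
    have f0 : FaithfulSMul k[X] K := (faithfulSMul_iff_algebraMap_injective k[X] K).2 hinj'
    have f1 : IsFractionRing k[X] K := by
      refine IsFractionRing.of_field k[X] K fun z => ?_
      obtain ⟨r, s, hrs⟩ := (mem_adjoin_simple_iff k (z : L)).1 z.2
      refine ⟨r, s, ?_⟩
      apply Subtype.ext
      rw [m1, m1]
      push_cast
      rw [m3, m3]
      exact hrs
    let g0 : k[X] →+* LaurentSeries k := (HahnSeries.ofPowerSeries ℤ k).comp (ev a)
    have hg0 : Function.Injective g0 := HahnSeries.ofPowerSeries_injective.comp (ev_inj a)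
    refine ⟨T₀.comp (IsFractionRing.lift (A := k[X]) (K := K) (g := g0) hg0), ?_, ?_⟩
    · intro b
      have h1 := IsFractionRing.lift_algebraMap (K := K) hg0 (C b)
      rw [m1, aeval_C] at h1
      rw [RingHom.comp_apply, h1]
      show T₀ (HahnSeries.ofPowerSeries ℤ k (ev a (C b))) = _
      rw [ev_C, hT₀C]
    · have h1 := IsFractionRing.lift_algebraMap (K := K) hg0 X
      rw [m1, aeval_X] at h1
      rw [RingHom.comp_apply, h1]
      show T₀ (HahnSeries.ofPowerSeries ℤ k (ev a X)) = _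
      rw [ev_X, map_add (HahnSeries.ofPowerSeries ℤ k), map_add T₀, hT₀C, hT₀X,
        ← map_add (HahnSeries.ofPowerSeries ℤ k)]
  have hcomp : ∀ x : K, algebraMap (LaurentSeries k) (AlgebraicClosure (LaurentSeries k))
      (T (g x)) = h (x : L) := by
    rintro ⟨x, hx⟩
    refine adjoin_induction (F := k) (s := {u}) (p := fun z hz =>
      algebraMap (LaurentSeries k) (AlgebraicClosure (LaurentSeries k)) (T (g ⟨z, hz⟩)) = h z)
      ?_ ?_ ?_ ?_ ?_ hx
    · intro x hx
      obtain rfl : x = u := hx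
      show algebraMap _ _ (T (g u')) = _
      rw [hgu, hhu, map_add (HahnSeries.ofPowerSeries ℤ k), map_add T, hTC, hTs, pus_eq,
        map_add (pusH k), map_add]
      rfl
    · intro b
      show algebraMap _ _ (T (g (algebraMap k K b))) = _
      rw [hgC, hTC, hk]
      rfl
    · intro x y hx hy h1 h2
      have h3 : (⟨x + y, add_mem hx hy⟩ : K) = ⟨x, hx⟩ + ⟨y, hy⟩ := rfl
      show algebraMap _ _ (T (g ⟨x + y, _⟩)) = _
      rw [h3, map_add g, map_add T, map_add (algebraMap _ _), h1, h2, map_add]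
    · intro x hx h1
      have h3 : (⟨x⁻¹, inv_mem hx⟩ : K) = (⟨x, hx⟩ : K)⁻¹ := rfl
      show algebraMap _ _ (T (g ⟨x⁻¹, _⟩)) = _
      rw [h3, map_inv₀ g, map_inv₀ T, map_inv₀ (algebraMap _ _), h1, map_inv₀]
    · intro x y hx hy h1 h2
      have h3 : (⟨x * y, mul_mem hx hy⟩ : K) = ⟨x, hx⟩ * ⟨y, hy⟩ := rfl
      show algebraMap _ _ (T (g ⟨x * y, _⟩)) = _
      rw [h3, map_mul g, map_mul T, map_mul (algebraMap _ _), h1, h2, map_mul]
  have hfd : FiniteDimensional K L := hfin
  have hint : IsIntegral K z := Algebra.IsIntegral.isIntegral z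
  let P := minpoly K z
  have hroots : ∀ ρ : AlgebraicClosure (LaurentSeries k),
      (P.map g).eval₂ (algebraMap (LaurentSeries k) (AlgebraicClosure (LaurentSeries k))) ρ = 0 →
      ∃ l : LaurentSeries k, algebraMap _ (AlgebraicClosure (LaurentSeries k)) l = ρ := by
    intro ρ hρ
    let _ : Algebra K (AlgebraicClosure (LaurentSeries k)) :=
      ((algebraMap (LaurentSeries k) (AlgebraicClosure (LaurentSeries k))).comp g).toAlgebra
    obtain ⟨φ, hφ⟩ := exists_algHom_of_splits_of_aeval (F := K) (E := L)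
      (K := AlgebraicClosure (LaurentSeries k))
      (fun s => ⟨Algebra.IsIntegral.isIntegral s, IsAlgClosed.splits _⟩) (x := z) (y := ρ) (by
        rw [eval₂_map] at hρ
        exact hρ)
    have hφ2 : ∀ x : K, φ (x : L) = algebraMap _ (AlgebraicClosure (LaurentSeries k)) (g x) :=
      fun x => φ.commutes x
    obtain ⟨l, hl⟩ := hS φ.toRingHom
      (fun b => by
        have h1 := hφ2 (algebraMap k K b)
        rw [hgC] at h1
        exact h1) (by
        have h1 := hφ2 u'
        rw [hgu] at h1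
        exact h1) z
    exact ⟨l, hl.symm.trans hφ⟩
  have hPm : (P.map g).Monic := (minpoly.monic hint).map g
  have hsp : (P.map g).Splits := by
    refine Splits.of_splits_map_of_injective (i := algebraMap (LaurentSeries k)
      (AlgebraicClosure (LaurentSeries k))) ?_ (IsAlgClosed.splits _) ?_
    · exact (algebraMap (LaurentSeries k) (AlgebraicClosure (LaurentSeries k))).injective
    · intro ρ hρ
      rw [mem_roots (Polynomial.map_ne_zero hPm.ne_zero)] at hρ
      obtain ⟨l, hl⟩ := hroots ρ (by rw [← eval_map]; exact hρ)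
      exact ⟨l, hl⟩
  have hsp2 : ((P.map g).map T).Splits := hsp.map T
  have hz : ((P.map g).map T).eval₂ (algebraMap (LaurentSeries k)
      (AlgebraicClosure (LaurentSeries k))) (h z) = 0 := by
    have h1 : ((algebraMap (LaurentSeries k) (AlgebraicClosure (LaurentSeries k))).comp T).comp g =
        h.comp (algebraMap K L) := RingHom.ext fun x => hcomp x
    rw [eval₂_map, eval₂_map, h1, ← hom_eval₂]
    have h2 : (P.eval₂ (algebraMap K L) z) = 0 := minpoly.aeval K z
    rw [h2, map_zero]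
  have hz2 : (((P.map g).map T).map (algebraMap (LaurentSeries k)
      (AlgebraicClosure (LaurentSeries k)))).IsRoot (h z) := by
    rw [IsRoot, eval_map]
    exact hz
  obtain ⟨l, hl⟩ := hsp2.mem_range_of_isRoot (hPm.map T).ne_zero hz2
  exact ⟨l, hl.symm⟩

/-- a series of order `e m` is an `m`-th power of a series of order `e` -/
theorem root_mul {k : Type} [Field k] [IsAlgClosed k] [CharZero k] {e m : ℕ} (hm : 1 ≤ m)
    (s : PowerSeries k) (hs : s.order = (e * m : ℕ)) :
    ∃ σ : PowerSeries k, σ.order = e ∧ σ ^ m = s := by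
  obtain ⟨h1, h2⟩ := PowerSeries.order_eq_nat.1 hs
  obtain ⟨w, hw⟩ := PowerSeries.X_pow_dvd_iff.2 h2
  have h3 : PowerSeries.constantCoeff w ≠ 0 := by
    intro h0
    apply h1
    rw [hw]
    have h4 := PowerSeries.coeff_X_pow_mul w (e * m) 0
    rw [zero_add] at h4
    rw [h4, PowerSeries.coeff_zero_eq_constantCoeff_apply, h0]
  obtain ⟨r, hr⟩ := Y4h.root_unit hm w h3
  have hr0 : PowerSeries.constantCoeff r ≠ 0 := by
    intro h0
    apply h3
    rw [← hr, map_pow, h0, zero_pow (by omega)]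
  refine ⟨PowerSeries.X ^ e * r, ?_, ?_⟩
  · rw [order_mul_unit _ _ hr0, PowerSeries.order_X_pow]
  · rw [mul_pow, hr, ← pow_mul, ← hw]

theorem ne_of_order {k : Type} [Field k] {e : ℕ} {s : PowerSeries k} (hs : s.order = e) :
    s ≠ 0 := by
  rintro rfl
  rw [PowerSeries.order_zero] at hs
  exact ENat.natCast_ne_top _ hs.symm

theorem const_of_order {k : Type} [Field k] {e : ℕ} (he : 1 ≤ e) {s : PowerSeries k}
    (hs : s.order = e) : PowerSeries.constantCoeff s = 0 := by
  rw [← PowerSeries.coeff_zero_eq_constantCoeff_apply]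
  exact (PowerSeries.order_eq_nat.1 hs).2 0 (by omega)

/-- (L1) multiples -/
theorem spE_mul {k L : Type} [Field k] [IsAlgClosed k] [CharZero k] [Field L] [Algebra k L]
    (u : L) (a : k) (hu : Transcendental k u) (hfin : FiniteDimensional (adjoin k {u}) L)
    {e m : ℕ} (he : 1 ≤ e) (hm : 1 ≤ m) (h : SpE k L u a e) : SpE k L u a (e * m) := by
  intro s hs
  rw [mul_comm] at hs
  obtain ⟨σ, hσ, hσs⟩ := root_mul he s hs
  obtain ⟨T, hTC, hTX⟩ := exists_subst σ (const_of_order hm hσ) (ne_of_order hσ)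
  refine lau_subst u a hu hfin (PowerSeries.X ^ e) s (by simp; omega) (pow_ne_zero _
    PowerSeries.X_ne_zero) T hTC ?_ (h _ (by rw [PowerSeries.order_X_pow]))
  rw [map_pow (HahnSeries.ofPowerSeries ℤ k), map_pow T, hTX,
    ← map_pow (HahnSeries.ofPowerSeries ℤ k), hσs]

theorem order_of_mul_unit {k : Type} [Field k] {r v s : PowerSeries k}
    (hv : PowerSeries.constantCoeff v ≠ 0) (h : r * v = s) : r.order = s.order := by
  rw [← h, order_mul_unit _ _ hv]

theorem evs_X_sub {k : Type} [Field k] (a : k) (s : PowerSeries k) :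
    evs a s (X - C a) = s := by
  show (X - C a : k[X]).eval₂ _ _ = _
  rw [eval₂_sub, eval₂_X, eval₂_C, add_sub_cancel_left]

theorem evs_C {k : Type} [Field k] (a b : k) (s : PowerSeries k) :
    evs a s (C b) = PowerSeries.C b := by
  show (C b : k[X]).eval₂ _ _ = _
  rw [eval₂_C]

/-- the equation of the local degree -/
theorem ld_eq {k : Type} [Field k] (A B : k[X]) (a : k)
    (hne : C (B.eval a) * A - C (A.eval a) * B ≠ 0) :
    1 ≤ (C (B.eval a) * A - C (A.eval a) * B).rootMultiplicity a ∧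
    ∃ g : k[X], g.eval a ≠ 0 ∧ C (B.eval a) * A - C (A.eval a) * B =
      (X - C a) ^ (C (B.eval a) * A - C (A.eval a) * B).rootMultiplicity a * g := by
  constructor
  · have h1 := (Polynomial.rootMultiplicity_pos hne (x := a)).2 (by
      simp [Polynomial.IsRoot]
      ring)
    exact h1
  · obtain ⟨g, hg, hga⟩ := Polynomial.exists_eq_pow_rootMultiplicity_mul_and_not_dvd _ hne a
    exact ⟨g, fun h => hga (Polynomial.dvd_iff_isRoot.2 h), hg⟩

theorem rstepE (k E' E : Type) [Field k] [IsAlgClosed k] [CharZero k] [Field E'] [Field E]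
    [Algebra k E'] [Algebra k E] [Algebra E' E] [IsScalarTower k E' E] (A B : k[X]) (w : E)
    (w' : E') (a : k) (e : ℕ) (he : 1 ≤ e) (hw : Transcendental k w)
    (hw' : Transcendental k w') (h2 : 1 ≤ max A.natDegree B.natDegree) (hAB : algebraMap E' E w' * aeval w B = aeval w A)
    (htop : adjoin E' {w} = ⊤) (hBa : B.eval a ≠ 0) :
    (SpE k E' w' (A.eval a / B.eval a)
      ((C (B.eval a) * A - C (A.eval a) * B).rootMultiplicity a * e) → SpE k E w a e) ∧
    ((minpoly E' w).natDegree = max A.natDegree B.natDegree → SpE k E w a e →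
      SpE k E' w' (A.eval a / B.eval a)
        ((C (B.eval a) * A - C (A.eval a) * B).rootMultiplicity a * e)) := by
  set b := A.eval a / B.eval a with hb
  have hnc : ∀ c : k, w' ≠ algebraMap k E' c := by
    rintro c rfl
    exact hw' (isAlgebraic_algebraMap c)
  have hbB : b * B.eval a = A.eval a := by rw [hb, div_mul_cancel₀ _ hBa]
  have hne : C (B.eval a) * A - C (A.eval a) * B ≠ 0 := by
    intro h0
    have h1 : A = C b * B := by
      have h3 : C (B.eval a) * (A - C b * B) = 0 := by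
        rw [mul_sub, ← mul_assoc, ← C_mul, mul_comm (B.eval a) b, hbB, h0]
      rcases mul_eq_zero.1 h3 with h4 | h4
      · exact absurd (C_eq_zero.1 h4) hBa
      · exact sub_eq_zero.1 h4
    have hB0 : aeval w B ≠ 0 := by
      intro hB0
      apply hw
      refine ⟨B, ?_, hB0⟩
      rintro rfl
      exact hBa eval_zero
    have h3 : algebraMap E' E w' = algebraMap E' E (algebraMap k E' b) := by
      apply mul_right_cancel₀ hB0
      rw [hAB, ← IsScalarTower.algebraMap_apply k E' E]
      conv_lhs => rw [h1]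
      rw [map_mul, aeval_C]
    exact hnc b ((algebraMap E' E).injective h3)
  obtain ⟨hm1, g, hga, hg⟩ := ld_eq A B a hne
  set m := (C (B.eval a) * A - C (A.eval a) * B).rootMultiplicity a with hm
  constructor
  · intro hS s hs h hk hhw z
    have hs0 : PowerSeries.constantCoeff s = 0 := const_of_order he hs
    have hBu : IsUnit (evs a s B) := PowerSeries.isUnit_iff_constantCoeff.2
      (isUnit_iff_ne_zero.2 (by rw [constantCoeff_evs a s hs0]; exact hBa))
    obtain ⟨Bi, hBi⟩ := hBu.exists_right_inv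
    let r : PowerSeries k := evs a s A * Bi - PowerSeries.C b
    have hr : PowerSeries.C b + r = evs a s A * Bi := by
      show PowerSeries.C b + (evs a s A * Bi - PowerSeries.C b) = _
      ring
    have hw2 : h (algebraMap E' E w') = pus (PowerSeries.C b + r) := by
      have h3 := congrArg h hAB
      rw [map_mul, hom_aeval h hk w a s hhw, hom_aeval h hk w a s hhw] at h3
      have h4 : pus (evs a s B) * pus Bi = 1 := by
        rw [pus_eq, pus_eq, ← map_mul, hBi, map_one]
      rw [hr, pus_eq, map_mul, ← pus_eq, ← pus_eq, ← h3, mul_assoc, h4, mul_one]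
    have hrs : r * (PowerSeries.C (B.eval a) * evs a s B) = s ^ m * evs a s g := by
      have h3 := congrArg (evs a s) hg
      rw [map_sub, map_mul, map_mul, evs_C, evs_C, map_mul, map_pow, evs_X_sub] at h3
      rw [← h3]
      show (evs a s A * Bi - PowerSeries.C b) * _ = _
      rw [← hbB, map_mul]
      linear_combination PowerSeries.C (B.eval a) * evs a s A * hBi
    have hro : r.order = (m * e : ℕ) := by
      have h3 : r.order = (s ^ m * evs a s g).order := order_of_mul_unit (by
        rw [map_mul, PowerSeries.constantCoeff_C, constantCoeff_evs a s hs0]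
        exact mul_ne_zero hBa hBa) hrs
      rw [h3, order_mul_unit _ _ (by rw [constantCoeff_evs a s hs0]; exact hga),
        PowerSeries.order_pow, hs]
      simp
    have h3 := hS r hro (h.comp (algebraMap E' E)) (fun c => by
      rw [RingHom.comp_apply, ← IsScalarTower.algebraMap_apply k E' E, hk]) hw2
    have hz : z ∈ adjoin E' {w} := htop ▸ mem_top
    refine (mem_LS h z).1 ?_
    refine adjoin_induction (F := E') (s := {w}) (p := fun z _ => z ∈ LS h) ?_ ?_ ?_ ?_ ?_ hz
    · intro x hx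
      obtain rfl : x = w := hx
      rw [mem_LS, hhw]
      exact ⟨_, rfl⟩
    · exact fun x => (mem_LS h _).2 (h3 x)
    · exact fun x y _ _ hx hy => add_mem hx hy
    · exact fun x _ hx => inv_mem hx
    · exact fun x y _ _ hx hy => mul_mem hx hy
  · intro hdeg hS s' hs' h' hk hhw z
    have hBu : IsUnit (ev a B) := PowerSeries.isUnit_iff_constantCoeff.2
      (isUnit_iff_ne_zero.2 (by rw [constantCoeff_ev]; exact hBa))
    obtain ⟨Bi, hBi⟩ := hBu.exists_right_inv
    have hBi0 : PowerSeries.constantCoeff Bi ≠ 0 := by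
      intro h0
      have h3 := congrArg PowerSeries.constantCoeff hBi
      rw [map_mul, h0, mul_zero, map_one] at h3
      exact zero_ne_one h3
    -- the local expansion is an `m`-th power
    have hG : PowerSeries.constantCoeff (ev a g * (PowerSeries.C (B.eval a)⁻¹ * Bi)) ≠ 0 := by
      rw [map_mul, map_mul, constantCoeff_ev, PowerSeries.constantCoeff_C]
      exact mul_ne_zero hga (mul_ne_zero (inv_ne_zero hBa) hBi0)
    obtain ⟨ρ, hρ⟩ := Y4h.root_unit hm1 _ hG
    have hρ0 : PowerSeries.constantCoeff ρ ≠ 0 := by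
      intro h0
      apply hG
      rw [← hρ, map_pow, h0, zero_pow (by omega)]
    obtain ⟨P₁, hP₁⟩ : ∃ P₁ : PowerSeries k, P₁ = PowerSeries.X * ρ := ⟨_, rfl⟩
    have hP10 : PowerSeries.constantCoeff P₁ = 0 := by
      rw [hP₁, map_mul, PowerSeries.constantCoeff_X, zero_mul]
    have hP11 : PowerSeries.coeff 1 P₁ ≠ 0 := by
      have h3 := PowerSeries.coeff_succ_X_mul 0 ρ
      rw [zero_add, PowerSeries.coeff_zero_eq_constantCoeff_apply] at h3
      rw [hP₁, h3]
      exact hρ0
    have hkeyP : ev a A = (PowerSeries.C b + P₁ ^ m) * ev a B := by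
      have h3 := congrArg (ev a) hg
      have h4 : ev a (X - C a) = PowerSeries.X := by
        rw [map_sub, ev_X, ev_C, add_sub_cancel_left]
      rw [map_sub, map_mul, map_mul, ev_C, ev_C, map_mul, map_pow, h4] at h3
      have h5 : P₁ ^ m = PowerSeries.X ^ m * (ev a g * (PowerSeries.C (B.eval a)⁻¹ * Bi)) := by
        rw [hP₁, mul_pow, hρ]
      have h6 : (PowerSeries.C (B.eval a) : PowerSeries k) * PowerSeries.C (B.eval a)⁻¹ = 1 := by
        rw [← map_mul, mul_inv_cancel₀ hBa, map_one]
      have h7 : (PowerSeries.C (A.eval a) : PowerSeries k) =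
          PowerSeries.C b * PowerSeries.C (B.eval a) := by rw [← map_mul, hbB]
      have hCB : (PowerSeries.C (B.eval a) : PowerSeries k) ≠ 0 := by
        intro h0
        rw [h0, zero_mul] at h6
        exact zero_ne_one h6
      apply mul_left_cancel₀ hCB
      rw [h5]
      rw [h7] at h3
      linear_combination h3 - PowerSeries.X ^ m * ev a g * ev a B * Bi * h6 -
        PowerSeries.X ^ m * ev a g * hBi
    -- inversion
    obtain ⟨σ, hσ, hσs⟩ : ∃ σ : PowerSeries k, σ.order = e ∧ σ ^ m = s' := by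
      rw [mul_comm] at hs'
      exact root_mul hm1 s' hs'
    obtain ⟨s, hs0, hso, hPs⟩ := exists_inv P₁ hP10 hP11 σ (const_of_order he hσ)
    have hss : PowerSeries.HasSubst s := PowerSeries.HasSubst.of_constantCoeff_zero' hs0
    have hkey : evs a s A = (PowerSeries.C b + s') * evs a s B := by
      have h3 : (ev a A).subst s = ((PowerSeries.C b + P₁ ^ m) * ev a B).subst s := by rw [hkeyP]
      rw [PowerSeries.subst_mul hss, PowerSeries.subst_add hss, PowerSeries.subst_pow hss, hPs,
        hσs, subst_ev a s hs0, subst_ev a s hs0, PowerSeries.subst_C] at h3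
      exact h3
    -- the minimal polynomial
    let R : E'[X] := A.map (algebraMap k E') - C w' * B.map (algebraMap k E')
    set q := max A.natDegree B.natDegree with hq
    have hRq : R.coeff q ≠ 0 := by
      show (A.map (algebraMap k E') - C w' * B.map (algebraMap k E')).coeff q ≠ 0
      rw [coeff_sub, coeff_map, coeff_C_mul, coeff_map]
      intro h0
      by_cases hBq : B.coeff q = 0
      · rw [hBq, map_zero, mul_zero, sub_zero, map_eq_zero] at h0
        have h3 : q = A.natDegree ∨ q = B.natDegree := by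
          rcases le_total A.natDegree B.natDegree with h5 | h5
          · right; rw [hq, max_eq_right h5]
          · left; rw [hq, max_eq_left h5]
        rcases h3 with h3 | h3
        · rw [h3] at h0
          have h4 : A = 0 := leadingCoeff_eq_zero.1 h0
          have h5 : A.natDegree = 0 := by rw [h4, natDegree_zero]
          omega
        · rw [h3] at hBq
          have h4 : B = 0 := leadingCoeff_eq_zero.1 hBq
          have h5 : B.natDegree = 0 := by rw [h4, natDegree_zero]
          omega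
      · apply hnc (A.coeff q / B.coeff q)
        rw [map_div₀, eq_div_iff (by rwa [Ne, map_eq_zero])]
        rw [sub_eq_zero] at h0
        exact h0.symm
    have hRd : R.natDegree ≤ q := by
      refine (natDegree_sub_le _ _).trans (max_le ?_ ?_)
      · exact natDegree_map_le.trans (le_max_left _ _)
      · exact (natDegree_C_mul_le _ _).trans (natDegree_map_le.trans (le_max_right _ _))
    have hR0 : R ≠ 0 := by
      intro h0
      rw [h0, coeff_zero] at hRq
      exact hRq rfl
    have hRw : aeval w R = 0 := by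
      show aeval w (A.map (algebraMap k E') - C w' * B.map (algebraMap k E')) = 0
      rw [map_sub, map_mul, aeval_C, aeval_map_algebraMap, aeval_map_algebraMap, hAB, sub_self]
    have hint : IsIntegral E' w := isAlgebraic_iff_isIntegral.1 ⟨R, hR0, hRw⟩
    obtain ⟨c, hc⟩ := minpoly.dvd E' w hRw
    have hc0 : c ≠ 0 := by
      rintro rfl
      rw [mul_zero] at hc
      exact hR0 hc
    have hcd : c.natDegree = 0 := by
      have h3 := congrArg natDegree hc
      rw [natDegree_mul (minpoly.ne_zero hint) hc0, hdeg] at h3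
      omega
    have hcC : c = C (c.coeff 0) := eq_C_of_natDegree_eq_zero hcd
    have hcc : c.coeff 0 ≠ 0 := by
      intro h0
      rw [h0, C_0] at hcC
      exact hc0 hcC
    let _ : Algebra E' (AlgebraicClosure (LaurentSeries k)) := h'.toAlgebra
    have hkf : ∀ f : k[X], eval₂ (h'.comp (algebraMap k E')) (pus (PowerSeries.C a + s)) f =
        pus (evs a s f) := by
      intro f
      have h3 : h'.comp (algebraMap k E') = (pusH k).comp (PowerSeries.C (R := k)) :=
        RingHom.ext fun x => hk x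
      rw [h3, pus_eq, ← hom_eval₂]
      rfl
    have hRa : R.eval₂ h' (pus (PowerSeries.C a + s)) = 0 := by
      show (A.map (algebraMap k E') - C w' * B.map (algebraMap k E')).eval₂ h' _ = 0
      rw [eval₂_sub, eval₂_mul, eval₂_C, eval₂_map, eval₂_map, hkf, hkf, hhw, hkey, pus_eq, pus_eq,
        pus_eq, map_mul, sub_self]
    have hy : aeval (pus (PowerSeries.C a + s)) (minpoly E' w) = 0 := by
      have h3 : (minpoly E' w * c).eval₂ h' (pus (PowerSeries.C a + s)) = 0 := by
        rw [← hc]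
        exact hRa
      rw [hcC, eval₂_mul, eval₂_C, mul_eq_zero] at h3
      exact h3.resolve_right fun h4 => hcc ((map_eq_zero h').1 h4)
    obtain ⟨φ, hφ⟩ := exists_algHom_of_adjoin_splits_of_aeval (F := E') (E := E)
      (K := AlgebraicClosure (LaurentSeries k)) (S := {w})
      (fun s hs => by
        obtain rfl : s = w := hs
        exact ⟨hint, IsAlgClosed.splits _⟩) htop hy
    have hφ2 : ∀ x : E', φ (algebraMap E' E x) = h' x := fun x => φ.commutes x
    obtain ⟨l, hl⟩ := hS s (hso.trans hσ) φ.toRingHom (fun c => by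
      have h3 := hφ2 (algebraMap k E' c)
      rw [← IsScalarTower.algebraMap_apply k E' E, hk] at h3
      exact h3) hφ (algebraMap E' E z)
    exact ⟨l, (hφ2 z).symm.trans hl⟩

/-- (L2) one step of the tower at all points of the projective line, with indices -/
theorem chartE {k E' E : Type} [Field k] [IsAlgClosed k] [CharZero k] [Field E'] [Field E]
    [Algebra k E'] [Algebra k E] [Algebra E' E] [IsScalarTower k E' E] (A B : k[X]) (u : E)
    (u' : E') (hu : Transcendental k u) (hu' : Transcendental k u') (hcop : IsCoprime A B)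
    (h2 : 1 ≤ max A.natDegree B.natDegree) (hAB : algebraMap E' E u' * aeval u B = aeval u A)
    (htop : adjoin E' {u} = ⊤) (e : ℕ) (he : 1 ≤ e) (x : Option k) :
    (SpO k E' u' (ld A B x * e) (rmap A B x) → SpO k E u e x) ∧
      ((minpoly E' u).natDegree = max A.natDegree B.natDegree → SpO k E u e x →
        SpO k E' u' (ld A B x * e) (rmap A B x)) := by
  have hu0 : u ≠ 0 := by
    rintro rfl
    exact hu isAlgebraic_zero
  have hu'0 : u' ≠ 0 := by
    rintro rfl
    exact hu' isAlgebraic_zero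
  have htop' : adjoin E' {u⁻¹} = ⊤ := by rw [adj_inv, htop]
  have hdeg' : (minpoly E' u).natDegree = max A.natDegree B.natDegree →
      (minpoly E' u⁻¹).natDegree = max A.natDegree B.natDegree := by
    intro hdeg
    have hint : IsIntegral E' u := by
      by_contra h
      rw [minpoly.eq_zero h, natDegree_zero] at hdeg
      omega
    rw [deg_eq htop htop' hint, hdeg]
  have hBA : algebraMap E' E u'⁻¹ * aeval u A = aeval u B := by
    rw [← hAB, map_inv₀, ← mul_assoc, inv_mul_cancel₀ (by rwa [Ne, map_eq_zero]), one_mul]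
  set q := max A.natDegree B.natDegree with hq
  have hqA : A.natDegree ≤ q := le_max_left _ _
  have hqB : B.natDegree ≤ q := le_max_right _ _
  have hrA := aeval_reflect u hu0 q A hqA
  have hrB := aeval_reflect u hu0 q B hqB
  have hup : u ^ q ≠ 0 := pow_ne_zero _ hu0
  have hABr : algebraMap E' E u' * aeval u⁻¹ (reflect q B) = aeval u⁻¹ (reflect q A) := by
    apply mul_right_cancel₀ hup
    rw [mul_assoc, hrB, hrA, hAB]
  have hBAr : algebraMap E' E u'⁻¹ * aeval u⁻¹ (reflect q A) = aeval u⁻¹ (reflect q B) := by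
    apply mul_right_cancel₀ hup
    rw [mul_assoc, hrB, hrA, hBA]
  have hcomm : max B.natDegree A.natDegree = q := max_comm _ _
  have hneg : ∀ (P Q : k[X]) (c : k), (P - Q).rootMultiplicity c = (Q - P).rootMultiplicity c := by
    intro P Q c
    rw [← neg_sub Q P]
    by_cases h0 : Q - P = 0
    · rw [h0, neg_zero]
    · have h1 : -(Q - P) = (-1 : k[X]) * (Q - P) := by ring
      rw [h1, rootMultiplicity_mul (by rw [← h1]; exact neg_ne_zero.2 h0)]
      have h3 : (-1 : k[X]) = C (-1) := by simp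
      rw [h3, rootMultiplicity_C, zero_add]
  cases x with
  | some a =>
    by_cases hB : B.eval a = 0
    · have hA : A.eval a ≠ 0 := by
        intro hA
        obtain ⟨f, g, hfg⟩ := hcop
        have h1 := congrArg (eval a) hfg
        rw [eval_add, eval_mul, eval_mul, hA, hB, mul_zero, mul_zero, add_zero, eval_one] at h1
        exact zero_ne_one h1
      have h1 : rmap A B (some a) = none := by
        simp [rmap, hB]
      rw [h1]
      have h3 := rstepE k E' E B A u u'⁻¹ a e he hu (tr_inv hu') (by rw [hcomm]; exact h2) hBA htop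
        hA
      rw [hcomm, hneg, hB, zero_div] at h3
      have h4 : ld A B (some a) = (C 0 * A - C (A.eval a) * B).rootMultiplicity a := by
        show (C (B.eval a) * A - C (A.eval a) * B).rootMultiplicity a = _
        rw [hB]
      rw [h4]
      exact h3
    · have h1 : rmap A B (some a) = some (A.eval a / B.eval a) := by
        simp [rmap, hB]
      rw [h1]
      exact rstepE k E' E A B u u' a e he hu hu' h2 hAB htop hB
  | none =>
    have hmr := max_reflect A B hcop
    rw [← hq] at hmr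
    by_cases hB : B.coeff q = 0
    · have hA : A.coeff q ≠ 0 := by
        intro hA
        rcases le_total A.natDegree B.natDegree with h5 | h5
        · have h6 : q = B.natDegree := max_eq_right h5
          rw [h6] at hB
          have h7 : B = 0 := leadingCoeff_eq_zero.1 hB
          rw [h7, natDegree_zero] at h6
          omega
        · have h6 : q = A.natDegree := max_eq_left h5
          rw [h6] at hA
          have h7 : A = 0 := leadingCoeff_eq_zero.1 hA
          rw [h7, natDegree_zero] at h6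
          omega
      have h1 : rmap A B none = none := by
        simp [rmap, ← hq, hB]
      rw [h1]
      have h3 := rstepE k E' E (reflect q B) (reflect q A) u⁻¹ u'⁻¹ 0 e he (tr_inv hu)
        (tr_inv hu') (by rw [max_comm, hmr]; exact h2) hBAr htop'
        (by rw [eval_zero_reflect]; exact hA)
      rw [max_comm, hmr, hneg, eval_zero_reflect, eval_zero_reflect, hB, zero_div] at h3
      have h4 : ld A B none = (C 0 * reflect q A - C (A.coeff q) * reflect q B).rootMultiplicity 0
          := by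
        show (C (B.coeff q) * reflect q A - C (A.coeff q) * reflect q B).rootMultiplicity 0 = _
        rw [hB]
      rw [h4]
      exact ⟨h3.1, fun hd => h3.2 (hdeg' hd)⟩
    · have h1 : rmap A B none = some (A.coeff q / B.coeff q) := by
        simp [rmap, ← hq, hB]
      rw [h1]
      have h3 := rstepE k E' E (reflect q A) (reflect q B) u⁻¹ u' 0 e he (tr_inv hu) hu'
        (by rw [hmr]; exact h2) hABr htop' (by rw [eval_zero_reflect]; exact hB)
      rw [hmr, eval_zero_reflect, eval_zero_reflect] at h3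
      exact ⟨h3.1, fun hd => h3.2 (hdeg' hd)⟩

/-- (L3) change of the coordinate -/
theorem moebiusE {k L : Type} [Field k] [IsAlgClosed k] [CharZero k] [Field L] [Algebra k L]
    (A B : k[X]) (w w' : L) (hw : Transcendental k w) (hw' : Transcendental k w')
    (hcop : IsCoprime A B) (h1 : max A.natDegree B.natDegree = 1)
    (hAB : w' * aeval w B = aeval w A) (e : ℕ) (he : 1 ≤ e) (x : Option k) :
    SpO k L w' (ld A B x * e) (rmap A B x) ↔ SpO k L w e x := by
  have h := chartE (E' := L) (E := L) A B w w' hw hw' hcop (by omega) hAB (self_top w) e he x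
  exact ⟨h.1, h.2 (by rw [self_deg, h1])⟩

theorem exists_spO {k L : Type} [Field k] [IsAlgClosed k] [CharZero k] [Field L] [Algebra k L]
    (u : L) (hu : Transcendental k u) (hfin : FiniteDimensional (adjoin k {u}) L) (x : Option k) :
    ∃ e : ℕ, 1 ≤ e ∧ SpO k L u e x := by
  cases x with
  | some a => exact y4 k L u hu hfin a
  | none => exact y4 k L u⁻¹ (tr_inv hu) (fin_congr (adj_inv u).symm hfin) 0

theorem spO_mul {k L : Type} [Field k] [IsAlgClosed k] [CharZero k] [Field L] [Algebra k L]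
    (u : L) (hu : Transcendental k u) (hfin : FiniteDimensional (adjoin k {u}) L) (x : Option k)
    {e m : ℕ} (he : 1 ≤ e) (hm : 1 ≤ m) (h : SpO k L u e x) : SpO k L u (e * m) x := by
  cases x with
  | some a => exact spE_mul u a hu hfin he hm h
  | none => exact spE_mul u⁻¹ 0 (tr_inv hu) (fin_congr (adj_inv u).symm hfin) he hm h

theorem spO_one {k L : Type} [Field k] [Field L] [Algebra k L] (u : L) (x : Option k) :
    SpO k L u 1 x ↔ Unr k L u x := by
  cases x with
  | some a => exact spE_one u a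
  | none => exact spE_one u⁻¹ 0

theorem spO_finite {k L : Type} [Field k] [IsAlgClosed k] [CharZero k] [Field L] [Algebra k L]
    (u : L) (hu : Transcendental k u) (hfin : FiniteDimensional (adjoin k {u}) L) :
    {x : Option k | ¬ SpO k L u 1 x}.Finite := by
  simp only [spO_one]
  exact unr_finite u hu hfin

theorem spO_map {k L L' : Type} [Field k] [Field L] [Algebra k L] [Field L'] [Algebra k L']
    (f : L ≃ₐ[k] L') (u : L) (e : ℕ) (x : Option k) : SpO k L' (f u) e x ↔ SpO k L u e x := by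
  have key : ∀ {L L' : Type} [Field L] [Algebra k L] [Field L'] [Algebra k L']
      (f : L ≃ₐ[k] L') (u : L) (x : Option k), SpO k L u e x → SpO k L' (f u) e x := by
    intro L L' _ _ _ _ f u x h
    cases x with
    | some a => exact spE_transport f u a e h
    | none =>
      have h1 := spE_transport f u⁻¹ 0 e h
      rw [map_inv₀] at h1
      exact h1
  constructor
  · intro h
    have h1 := key f.symm (f u) x h
    rwa [f.symm_apply_apply] at h1
  · exact key f u x

end R47

end Pool.DynLehmer.UN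

/-!
# Maps which are not parabolic: statements
-/

namespace Pool.DynLehmer.UN.Orb
open MvPolynomial Pool.DynLehmer Pool.DynLehmer.SB Pool.DynLehmer.SP
  Pool.DynLehmer.GS Pool.DynLehmer.LP Pool.DynLehmer.LW Pool.DynLehmer.UN
open IntermediateField

/-! ### Points, local degrees, indices -/

/-- the map on the points of the projective line `Option k` -/
noncomputable abbrev pm {k : Type} [Field k] (F : Fin 2 → MvPolynomial (Fin 2) k) (a : Option k) :
    Option k := rmap (R96.dh (F 0)) (R96.dh (F 1)) a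

/-- the local degree -/
noncomputable abbrev ldeg {k : Type} [Field k] (F : Fin 2 → MvPolynomial (Fin 2) k)
    (a : Option k) : ℕ := ld (R96.dh (F 0)) (R96.dh (F 1)) a

/-- a periodic sequence of indices -/
structure Idx {k : Type} [Field k] (F : Fin 2 → MvPolynomial (Fin 2) k) (M : ℕ)
    (r : ℕ → Option k → ℕ) : Prop where
  pos : ∀ j a, 1 ≤ r j a
  fin : ∀ j, {a | r j a ≠ 1}.Finite
  per : ∀ j, r (j + M) = r j
  le : ∀ j a, r (j + 1) (pm F a) ≤ ldeg F a * r j a

/-- `∑ (1 - 1 / r a)` over the points outside `X` -/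
noncomputable def wt {k : Type} [Field k] (r : Option k → ℕ) (X : Set (Option k)) : ℚ :=
  ∑ᶠ a : {a // r a ≠ 1 ∧ a ∉ X}, (1 - 1 / (r a.1 : ℚ))

/-- `F` is parabolic; the value `0` stands for infinity -/
def Para {k : Type} [Field k] (F : Fin 2 → MvPolynomial (Fin 2) k) : Prop :=
  ∃ ν : Option k → ℕ, {a | ν a ≠ 1}.Finite ∧ ∀ a, ν (pm F a) = ldeg F a * ν a

/-- `{b, b'}` is completely invariant -/
def Pow {k : Type} [Field k] (F : Fin 2 → MvPolynomial (Fin 2) k) : Prop :=
  ∃ b b' : Option k, b ≠ b' ∧ ∀ a, (pm F a = b ∨ pm F a = b') ↔ (a = b ∨ a = b')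

/-- A finite extension `L` of `k(u)` with a lift of `F^M` such that `L = φ(L)(u)`. -/
structure GT (k L : Type) [Field k] [Field L] [Algebra k L]
    (F : Fin 2 → MvPolynomial (Fin 2) k) (M : ℕ) (u : L) (φ : L →ₐ[k] L) : Prop where
  tr : Transcendental k u
  fin : FiniteDimensional (adjoin k {u}) L
  per : φ u = (fr F)^[M] u
  gen : φ.fieldRange ⊔ adjoin k {u} = ⊤

/-- all lifts are trivial -/
def Triv {k : Type} [Field k] (F : Fin 2 → MvPolynomial (Fin 2) k) : Prop :=
  ∀ (L : Type) [Field L] [Algebra k L] (M : ℕ) (u : L) (φ : L →ₐ[k] L), 1 ≤ M →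
    GT k L F M u φ → adjoin k {u} = ⊤

/-- `θ B ~ F^M θ` -/
def Semi {k : Type} [Field k] (F : Fin 2 → MvPolynomial (Fin 2) k) (M : ℕ)
    (θ B : Fin 2 → MvPolynomial (Fin 2) k) : Prop :=
  ∀ P : Fin 2 → k, P ≠ 0 → Prl (gAct θ k (gAct B k P)) ((gAct F k)^[M] (gAct θ k P))

/-! ### (1) Indices of a lift -/

/-- Row RHF: the fibres and the number of critical points. -/
def RhfStatement : Prop :=
  ∀ (k : Type) [Field k] [IsAlgClosed k] [CharZero k] (q : ℕ)
    (F : Fin 2 → MvPolynomial (Fin 2) k), 1 ≤ q → Mor q F →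
    (∀ a, 1 ≤ ldeg F a) ∧ (∀ b, {a | pm F a = b}.Finite) ∧
    (∀ b (T : Finset (Option k)), (∀ a, a ∈ T ↔ pm F a = b) → ∑ a ∈ T, ldeg F a = q) ∧
    ∀ T : Finset (Option k), ∑ a ∈ T, (ldeg F a - 1) ≤ 2 * q - 2

/-- Row PARL (lcm over one period): a periodic family gives one function. -/
def ParlStatement : Prop :=
  ∀ (k : Type) [Field k] (F : Fin 2 → MvPolynomial (Fin 2) k) (M : ℕ) (ν : ℕ → Option k → ℕ),
    1 ≤ M → (∀ j, {a | ν j a ≠ 1}.Finite) → (∀ j, ν (j + M) = ν j) →
    (∀ j a, ν (j + 1) (pm F a) = ldeg F a * ν j a) → Para F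

/-- Row GTOW: the fields between `L` and `φ(L)`. -/
def GtowStatement : Prop :=
  ∀ (k L : Type) [Field k] [CharZero k] [Field L] [Algebra k L] (q : ℕ)
    (F : Fin 2 → MvPolynomial (Fin 2) k) (M : ℕ) (u : L) (φ : L →ₐ[k] L), 1 ≤ q → Mor q F →
    1 ≤ M → GT k L F M u φ →
    ∃ E : ℕ → IntermediateField k L, E 0 = ⊤ ∧
      (∀ j, E j = E (j + 1) ⊔ adjoin k {(fr F)^[j] u}) ∧ (∀ j, (fr F)^[j] u ∈ E j) ∧
      (∀ j, (minpoly (E (j + 1)) ((fr F)^[j] u)).natDegree = q) ∧
      (∀ j, E (j + M) = (E j).map φ) ∧ ∀ j, φ ((fr F)^[j] u) = (fr F)^[j + M] u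

/-- Row GTIDX (from GTOW and R47.chartE, exists_spO, spO_finite, spO_map): the minimal indices. -/
def GtidxStatement : Prop :=
  ∀ (k L : Type) [Field k] [IsAlgClosed k] [CharZero k] [Field L] [Algebra k L] (q : ℕ)
    (F : Fin 2 → MvPolynomial (Fin 2) k) (M : ℕ) (u : L) (φ : L →ₐ[k] L), 2 ≤ q → Mor q F →
    1 ≤ M → GT k L F M u φ → ∃ r : ℕ → Option k → ℕ, Idx F M r ∧ ∀ a, SpO k L u (r 0 a) a

/-- Row CHI (from RHF, PARL): the inequality for the orbifold characteristic, outside a completely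
invariant set of at most one point. -/
def ChiStatement : Prop :=
  ∀ (k : Type) [Field k] [IsAlgClosed k] [CharZero k] (q : ℕ)
    (F : Fin 2 → MvPolynomial (Fin 2) k) (M : ℕ) (r : ℕ → Option k → ℕ), 2 ≤ q → Mor q F →
    1 ≤ M → Idx F M r → ¬ Para F →
    (∀ j, wt (r j) ∅ < 2) ∧ ∀ b, (∀ a, pm F a = b ↔ a = b) → ∀ j, wt (r j) {b} < 1

/-- Row POWP (from RHF): power maps are parabolic. -/
def PowpStatement : Prop :=
  ∀ (k : Type) [Field k] [IsAlgClosed k] [CharZero k] (q : ℕ)
    (F : Fin 2 → MvPolynomial (Fin 2) k), 2 ≤ q → Mor q F → Pow F → Para F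

/-- Row COMB (from RHF): a point with few backward images. -/
def CombStatement : Prop :=
  ∀ (k : Type) [Field k] [IsAlgClosed k] [CharZero k] (q : ℕ)
    (F : Fin 2 → MvPolynomial (Fin 2) k) (b : Option k), 2 ≤ q → Mor q F → ¬ Pow F →
    (∀ i, 1 ≤ i → i ≤ 5 → {a | (pm F)^[i] a = b}.ncard ≤ 2) → ∀ a, pm F a = b ↔ a = b

/-- Row BN (from CHI, POWP, COMB, RHF): the indices are bounded. -/
def BnStatement : Prop :=
  ∀ (k : Type) [Field k] [IsAlgClosed k] [CharZero k] (q : ℕ)
    (F : Fin 2 → MvPolynomial (Fin 2) k) (M : ℕ) (r : ℕ → Option k → ℕ), 2 ≤ q → Mor q F →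
    1 ≤ M → Idx F M r → ¬ Para F →
    ((∀ a, r 0 a ≤ 2 * q ^ 5) ∧ wt (r 0) ∅ < 2) ∨
      ∃ a b, r 0 a ≤ 2 * q ^ 5 ∧ ∀ c, c ≠ a → c ≠ b → r 0 c = 1

/-! ### (2) Covers -/

/-- Row PULL (from R47.chartE, spO_mul): indices of a compositum. -/
def PullStatement : Prop :=
  ∀ (k L L' : Type) [Field k] [IsAlgClosed k] [CharZero k] [Field L] [Algebra k L] [Field L']
    [Algebra k L'] (m : ℕ) (R : Fin 2 → MvPolynomial (Fin 2) k) (ι : L →ₐ[k] L') (u : L) (t : L'),
    1 ≤ m → Mor m R → Transcendental k u → FiniteDimensional (adjoin k {u}) L →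
    fr R t = ι u → ι.fieldRange ⊔ adjoin k {t} = ⊤ →
    ∀ (a : Option k) (e c : ℕ), 1 ≤ e → 1 ≤ c → SpO k L u e (pm R a) → e ∣ ldeg R a * c →
      SpO k L' t c a

/-- Row COMPO: the compositum exists. -/
def CompoStatement : Prop :=
  ∀ (k L : Type) [Field k] [IsAlgClosed k] [CharZero k] [Field L] [Algebra k L] (m : ℕ)
    (R : Fin 2 → MvPolynomial (Fin 2) k) (u : L), 1 ≤ m → Mor m R → Transcendental k u →
    FiniteDimensional (adjoin k {u}) L →
    ∃ (L' : Type) (_ : Field L') (_ : Algebra k L') (ι : L →ₐ[k] L') (t : L'),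
      fr R t = ι u ∧ ι.fieldRange ⊔ adjoin k {t} = ⊤ ∧ Transcendental k t ∧
      FiniteDimensional (adjoin k {t}) L'

/-- `L` is contained in a rational field `k(t)` of degree at most `N` over `k(u)`. -/
def InRat (k L : Type) [Field k] [Field L] [Algebra k L] (u : L) (N : ℕ) : Prop :=
  ∃ (L' : Type) (_ : Field L') (_ : Algebra k L') (ι : L →ₐ[k] L') (t : L') (m : ℕ)
    (R : Fin 2 → MvPolynomial (Fin 2) k), adjoin k {t} = ⊤ ∧ Transcendental k t ∧ 1 ≤ m ∧
    m ≤ N ∧ Mor m R ∧ fr R t = ι u

/-- Row COVT (from PULL, COMPO): indices of a cover. If `R` has degree `m` and every compositum of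
`L` with `k(t)`, `R(t) = u`, with the divided indices is in a rational field of degree `N`, then
`L` is in a rational field of degree `m N`. -/
def CovtStatement : Prop :=
  ∀ (k L : Type) [Field k] [IsAlgClosed k] [CharZero k] [Field L] [Algebra k L] (m N : ℕ)
    (R : Fin 2 → MvPolynomial (Fin 2) k) (u : L) (r r' : Option k → ℕ), 1 ≤ m → Mor m R →
    Transcendental k u → FiniteDimensional (adjoin k {u}) L → (∀ a, 1 ≤ r a) →
    (∀ a, 1 ≤ r' a) → (∀ a, r (pm R a) ∣ ldeg R a * r' a) → (∀ a, SpO k L u (r a) a) →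
    (∀ (L' : Type) [Field L'] [Algebra k L'] (t : L'), Transcendental k t →
      FiniteDimensional (adjoin k {t}) L' → (∀ a, SpO k L' t (r' a) a) → InRat k L' t N) →
    InRat k L u (m * N)

/-- Row COV2 (from COVT with a Moebius map, and Y6). -/
def Cov2Statement : Prop :=
  ∀ (k L : Type) [Field k] [IsAlgClosed k] [CharZero k] [Field L] [Algebra k L] (u : L)
    (a b : Option k) (n : ℕ) (r : Option k → ℕ), Transcendental k u →
    FiniteDimensional (adjoin k {u}) L → a ≠ b → r a = n → 1 ≤ n → (∀ c, 1 ≤ r c) →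
    (∀ c, c ≠ a → c ≠ b → r c = 1) → (∀ c, SpO k L u (r c) c) → InRat k L u n

/-- Row COV22 (from COVT with `t + 1 / t`, and COV2): indices `2`, `2`, `n`. -/
def Cov22Statement : Prop :=
  ∀ (k L : Type) [Field k] [IsAlgClosed k] [CharZero k] [Field L] [Algebra k L] (u : L)
    (a b c : Option k) (n : ℕ) (r : Option k → ℕ), Transcendental k u →
    FiniteDimensional (adjoin k {u}) L → a ≠ b → a ≠ c → b ≠ c → r a = 2 → r b = 2 → r c = n →
    1 ≤ n → (∀ x, x ≠ a → x ≠ b → x ≠ c → r x = 1) → (∀ x, SpO k L u (r x) x) →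
    InRat k L u (2 * n)

/-- Row COV233 (from COVT with `t ^ 3`, and COV22). -/
def Cov233Statement : Prop :=
  ∀ (k L : Type) [Field k] [IsAlgClosed k] [CharZero k] [Field L] [Algebra k L] (u : L)
    (a b c : Option k) (r : Option k → ℕ), Transcendental k u →
    FiniteDimensional (adjoin k {u}) L → a ≠ b → a ≠ c → b ≠ c → r a = 2 → r b = 3 → r c = 3 →
    (∀ x, x ≠ a → x ≠ b → x ≠ c → r x = 1) → (∀ x, SpO k L u (r x) x) → InRat k L u 12

/-- Row COV234 (from COVT with `t ^ 2`, and COV233). -/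
def Cov234Statement : Prop :=
  ∀ (k L : Type) [Field k] [IsAlgClosed k] [CharZero k] [Field L] [Algebra k L] (u : L)
    (a b c : Option k) (r : Option k → ℕ), Transcendental k u →
    FiniteDimensional (adjoin k {u}) L → a ≠ b → a ≠ c → b ≠ c → r a = 2 → r b = 3 → r c = 4 →
    (∀ x, x ≠ a → x ≠ b → x ≠ c → r x = 1) → (∀ x, SpO k L u (r x) x) → InRat k L u 24

/-- Row COV235 (from COVT with `t ^ 3 (2 t ^ 2 - 5 t + 20)`, and COV233): note that
`t ^ 3 (2 t ^ 2 - 5 t + 20) + 108 = (t ^ 2 - 2 t + 6) ^ 2 (2 t + 3)`. -/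
def Cov235Statement : Prop :=
  ∀ (k L : Type) [Field k] [IsAlgClosed k] [CharZero k] [Field L] [Algebra k L] (u : L)
    (a b c : Option k) (r : Option k → ℕ), Transcendental k u →
    FiniteDimensional (adjoin k {u}) L → a ≠ b → a ≠ c → b ≠ c → r a = 2 → r b = 3 → r c = 5 →
    (∀ x, x ≠ a → x ≠ b → x ≠ c → r x = 1) → (∀ x, SpO k L u (r x) x) → InRat k L u 60

/-- Row SIG: the spherical signatures. -/
def SigStatement : Prop :=
  ∀ (P : Type) (r : P → ℕ), (∀ a, 1 ≤ r a) → {a | r a ≠ 1}.Finite → (∃ a b : P, a ≠ b) →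
    (∑ᶠ a : {a // r a ≠ 1}, (1 - 1 / (r a.1 : ℚ))) < 2 →
    (∃ a b, a ≠ b ∧ ∀ x, x ≠ a → x ≠ b → r x = 1) ∨
    ∃ a b c, a ≠ b ∧ a ≠ c ∧ b ≠ c ∧ (∀ x, x ≠ a → x ≠ b → x ≠ c → r x = 1) ∧ r a = 2 ∧
      (r b = 2 ∨ (r b = 3 ∧ (r c = 3 ∨ r c = 4 ∨ r c = 5)))

/-- Row BDD (from GTIDX, BN, SIG, COV2, COV22, COV233, COV234, COV235 and Lüroth). -/
def BddStatement : Prop :=
  ∀ (k : Type) [Field k] [IsAlgClosed k] [CharZero k] (q : ℕ)
    (F : Fin 2 → MvPolynomial (Fin 2) k), 2 ≤ q → Mor q F → ¬ Para F →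
    ∃ N : ℕ, ∀ (L : Type) [Field L] [Algebra k L] (M : ℕ) (u : L) (φ : L →ₐ[k] L), 1 ≤ M →
      GT k L F M u φ → Module.finrank (adjoin k {u}) L ≤ N ∧
        ∃ t : L, Transcendental k t ∧ adjoin k {t} = ⊤

/-- Row MAX (from BDD): the maximal lift. -/
def MaxStatement : Prop :=
  ∀ (k : Type) [Field k] [IsAlgClosed k] [CharZero k] (q : ℕ)
    (F : Fin 2 → MvPolynomial (Fin 2) k), 2 ≤ q → Mor q F → ¬ Para F →
    ∃ (M m : ℕ) (θ B : Fin 2 → MvPolynomial (Fin 2) k), 1 ≤ M ∧ 1 ≤ m ∧ Mor m θ ∧
      Mor (q ^ M) B ∧ Semi F M θ B ∧ Triv B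

/-! ### (3) The lifted map -/

/-- Row TPAIR (from 21's rational Y1, Y1B). -/
def TpairStatement : Prop :=
  ∀ (k : Type) [Field k] [IsAlgClosed k] [CharZero k] (q : ℕ)
    (G : Fin 2 → MvPolynomial (Fin 2) k), 2 ≤ q → Mor q G → Triv G → Ra72.Pair1F G

/-- Row NPOW: a map with trivial lifts is not a power map (`t ^ (1 / n)` is a lift). -/
def NpowStatement : Prop :=
  ∀ (k : Type) [Field k] [IsAlgClosed k] [CharZero k] (q : ℕ)
    (G : Fin 2 → MvPolynomial (Fin 2) k), 2 ≤ q → Mor q G → Triv G → ¬ Pow G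

/-- Row FQP (as 49's FQT, with `not a power map`). -/
def FqpStatement : Prop :=
  ∀ (k : Type) [Field k] [IsAlgClosed k] [CharZero k] (q : ℕ)
    (G : Fin 2 → MvPolynomial (Fin 2) k), 2 ≤ q → Mor q G → ¬ Pow G → Ra72.FqtF G

/-- Row TRIVC: conjugates of iterates of maps with trivial lifts have trivial lifts. -/
def TrivcStatement : Prop :=
  ∀ (k : Type) [Field k] [IsAlgClosed k] [CharZero k] (q M : ℕ)
    (B G α : Fin 2 → MvPolynomial (Fin 2) k), 2 ≤ q → 1 ≤ M → Mor q B → Mor (q ^ M) G → Mor 1 α →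
    Semi B M α G → Triv B → Triv G

/-- Row LIFT: `FinPairsE` descends. -/
def LiftpStatement : Prop :=
  ∀ (k : Type) [Field k] [IsAlgClosed k] [CharZero k] (q M m : ℕ)
    (F θ G : Fin 2 → MvPolynomial (Fin 2) k), 2 ≤ q → 1 ≤ M → 1 ≤ m → Mor q F → Mor m θ →
    Mor (q ^ M) G → Semi F M θ G → FinPairsE k G → FinPairsE k F

/-- Row SEMIC: composition of semiconjugacies. -/
def SemicStatement : Prop :=
  ∀ (k : Type) [Field k] [IsAlgClosed k] [CharZero k] (q M M' m : ℕ)
    (F θ B α G : Fin 2 → MvPolynomial (Fin 2) k), 1 ≤ q → 1 ≤ m → Mor q F → Mor m θ →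
    Mor (q ^ M) B → Mor 1 α → Semi F M θ B → Semi B M' α G →
    Mor m (fun i => bind₁ α (θ i)) ∧ Semi F (M * M') (fun i => bind₁ α (θ i)) G

/-! ### (4) Good reduction -/

/-- An algebraically closed valued field with generic points over `k`. -/
structure Big (k Ω : Type) [Field k] [Field Ω] [Algebra k Ω] (ab : AbsoluteValue k ℝ)
    (A : AbsoluteValue Ω ℝ) : Prop where
  closed : IsAlgClosed Ω
  na : IsNonarchimedean A
  ext : ∀ c : k, A (algebraMap k Ω c) = ab c

/-- generic points: norm one and transcendental reduction -/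
def Gen {k Ω : Type} [Field k] [Field Ω] [Algebra k Ω] (ab : AbsoluteValue k ℝ)
    (A : AbsoluteValue Ω ℝ) (x : Ω) : Prop :=
  ∀ c : k, ab c ≤ 1 → A (x - algebraMap k Ω c) = 1

/-- Moebius maps -/
noncomputable def mb {k Ω : Type} [Field k] [Field Ω] [Algebra k Ω] (μ : Matrix (Fin 2) (Fin 2) k)
    (x : Ω) : Ω :=
  (algebraMap k Ω (μ 0 0) * x + algebraMap k Ω (μ 0 1)) /
    (algebraMap k Ω (μ 1 0) * x + algebraMap k Ω (μ 1 1))

/-- Row BIG: there is a big field with a generic point. -/
def BigStatement : Prop :=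
  ∀ (k : Type) [Field k] [IsAlgClosed k] [CharZero k] (ab : AbsoluteValue k ℝ),
    IsNonarchimedean ab → (∃ c, c ≠ 0 ∧ ab c < 1) →
    ∃ (Ω : Type) (_ : Field Ω) (_ : Algebra k Ω) (A : AbsoluteValue Ω ℝ), Big k Ω ab A ∧
      ∃ x : Ω, Gen ab A x

/-- Row GAUSS: generic points are transcendental, and polynomials have their Gauss norm there. -/
def GaussStatement : Prop :=
  ∀ (k Ω : Type) [Field k] [IsAlgClosed k] [CharZero k] [Field Ω] [Algebra k Ω]
    (ab : AbsoluteValue k ℝ) (A : AbsoluteValue Ω ℝ), IsNonarchimedean ab → Big k Ω ab A →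
    ∀ x, Gen ab A x → Transcendental k x ∧ ∀ P : Polynomial k,
      (∀ i, ab (P.coeff i) ≤ A (Polynomial.aeval x P)) ∧
        (P ≠ 0 → ∃ i, A (Polynomial.aeval x P) = ab (P.coeff i))

/-- Row GENR (from GAUSS): being generic is preserved by a rational map at one generic point iff at
all; and then the map is onto the generic points. -/
def GenrStatement : Prop :=
  ∀ (k Ω : Type) [Field k] [IsAlgClosed k] [CharZero k] [Field Ω] [Algebra k Ω]
    (ab : AbsoluteValue k ℝ) (A : AbsoluteValue Ω ℝ), IsNonarchimedean ab → Big k Ω ab A →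
    ∀ (m : ℕ) (R : Fin 2 → MvPolynomial (Fin 2) k), 1 ≤ m → Mor m R →
    ∀ x, Gen ab A x → Gen ab A (fr R x) →
      (∀ y, Gen ab A y → Gen ab A (fr R y)) ∧ ∀ y, Gen ab A y → ∃ z, Gen ab A z ∧ fr R z = y

/-- Row NRML: every point over a generic point is generic up to a Moebius map. -/
def NrmlStatement : Prop :=
  ∀ (k Ω : Type) [Field k] [IsAlgClosed k] [CharZero k] [Field Ω] [Algebra k Ω]
    (ab : AbsoluteValue k ℝ) (A : AbsoluteValue Ω ℝ), IsNonarchimedean ab → Big k Ω ab A →
    ∀ (m : ℕ) (R : Fin 2 → MvPolynomial (Fin 2) k), 1 ≤ m → Mor m R →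
    ∀ t : Ω, Transcendental k t → Gen ab A (fr R t) →
      ∃ (μ : Matrix (Fin 2) (Fin 2) k) (z : Ω), μ.det ≠ 0 ∧ Gen ab A z ∧ t = mb μ z

/-- Row TYG: a map with purely inseparable good reduction preserves the generic points and their
complement, and separates nothing: points with the same image have the same reduction. -/
def TygStatement : Prop :=
  ∀ (k Ω : Type) [Field k] [IsAlgClosed k] [CharZero k] [Field Ω] [Algebra k Ω]
    (ab : AbsoluteValue k ℝ) (A : AbsoluteValue Ω ℝ), IsNonarchimedean ab → Big k Ω ab A →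
    ∀ (p s : ℕ) (L : ℝ) (F : Fin 2 → MvPolynomial (Fin 2) k), p.Prime → 1 ≤ s →
    ab (p : k) ≤ L → L < 1 → RV.Ty ab (p ^ s) L F →
    (∀ t : Ω, Transcendental k t → (Gen ab A (fr F t) ↔ Gen ab A t)) ∧
    ∀ t t' : Ω, Gen ab A t → Gen ab A t' → fr F t = fr F t' → A (t - t') < 1

/-- Row PERM (from GENR, NRML, TYG, BIG): an iterate of `B` preserves a conjugate of the generic
points and its complement. -/
def PermStatement : Prop :=
  ∀ (k Ω : Type) [Field k] [IsAlgClosed k] [CharZero k] [Field Ω] [Algebra k Ω]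
    (ab : AbsoluteValue k ℝ) (A : AbsoluteValue Ω ℝ), IsNonarchimedean ab → Big k Ω ab A →
    (∃ x : Ω, Gen ab A x) →
    ∀ (p s M m : ℕ) (L : ℝ) (F θ B : Fin 2 → MvPolynomial (Fin 2) k), p.Prime → 1 ≤ s →
    1 ≤ M → 1 ≤ m → ab (p : k) ≤ L → L < 1 → RV.Ty ab (p ^ s) L F → Mor m θ →
    Mor ((p ^ s) ^ M) B → Semi F M θ B →
    ∃ (M' : ℕ) (μ : Matrix (Fin 2) (Fin 2) k), 1 ≤ M' ∧ μ.det ≠ 0 ∧
      (∀ z, Gen ab A z → Gen ab A (fr θ (mb μ z))) ∧
      ∀ t : Ω, Transcendental k t →
        ((∃ z, Gen ab A z ∧ (fr B)^[M'] t = mb μ z) ↔ ∃ z, Gen ab A z ∧ t = mb μ z)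

/-- Row GOOD (from GAUSS, GENR): a map which preserves the generic points and their complement has
good reduction. -/
def GoodStatement : Prop :=
  ∀ (k Ω : Type) [Field k] [IsAlgClosed k] [CharZero k] [Field Ω] [Algebra k Ω]
    (ab : AbsoluteValue k ℝ) (A : AbsoluteValue Ω ℝ), IsNonarchimedean ab → Big k Ω ab A →
    (∃ x : Ω, Gen ab A x) → ∀ (d : ℕ) (G : Fin 2 → MvPolynomial (Fin 2) k), 1 ≤ d → Mor d G →
    (∀ t : Ω, Transcendental k t → (Gen ab A (fr G t) ↔ Gen ab A t)) →
    ∃ c : k, c ≠ 0 ∧ (∀ i t, ab (coeff t (C c * G i)) ≤ 1) ∧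
      ∀ P : Fin 2 → k, RV.nm ab (gAct (fun i => C c * G i) k P) = RV.nm ab P ^ d

/-- Row INSEP (from TYG, GENR): if the reduction of `G` is semiconjugate to a purely inseparable
map, it is purely inseparable. -/
def InsepStatement : Prop :=
  ∀ (k Ω : Type) [Field k] [IsAlgClosed k] [CharZero k] [Field Ω] [Algebra k Ω]
    (ab : AbsoluteValue k ℝ) (A : AbsoluteValue Ω ℝ), IsNonarchimedean ab → Big k Ω ab A →
    (∃ x : Ω, Gen ab A x) →
    ∀ (p s M m : ℕ) (L : ℝ) (F θ G : Fin 2 → MvPolynomial (Fin 2) k), p.Prime → 1 ≤ s →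
    1 ≤ M → 1 ≤ m → ab (p : k) ≤ L → L < 1 → RV.Ty ab (p ^ s) L F → Mor m θ →
    Mor ((p ^ s) ^ M) G → Semi F M θ G → (∀ z : Ω, Gen ab A z → Gen ab A (fr θ z)) →
    (∀ i t, ab (coeff t (G i)) ≤ 1) →
    (∀ P : Fin 2 → k, RV.nm ab (gAct G k P) = RV.nm ab P ^ (p ^ s) ^ M) →
    ∃ L' : ℝ, ab (p : k) ≤ L' ∧ L' < 1 ∧ RV.Ty ab ((p ^ s) ^ M) L' G

/-- Row GR (from BIG, PERM, GOOD, INSEP): a map which is semiconjugate to an iterate of a map with
purely inseparable good reduction has an iterate which is conjugate to such a map. -/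
def GrStatement : Prop :=
  ∀ (k : Type) [Field k] [IsAlgClosed k] [CharZero k] (ab : AbsoluteValue k ℝ),
    IsNonarchimedean ab → ∀ (p s M m : ℕ) (L : ℝ) (F θ B : Fin 2 → MvPolynomial (Fin 2) k),
    p.Prime → 1 ≤ s → 1 ≤ M → 1 ≤ m → ab (p : k) ≤ L → L < 1 → RV.Ty ab (p ^ s) L F →
    Mor m θ → Mor ((p ^ s) ^ M) B → Semi F M θ B →
    ∃ (M' : ℕ) (L' : ℝ) (α G : Fin 2 → MvPolynomial (Fin 2) k), 1 ≤ M' ∧ Mor 1 α ∧
      Mor (((p ^ s) ^ M) ^ M') G ∧ Semi B M' α G ∧ ab (p : k) ≤ L' ∧ L' < 1 ∧
      RV.Ty ab (((p ^ s) ^ M) ^ M') L' G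

/-! ### (5) Assembly -/

/-- Row VFG (from VINF, VGEN): the bound for `n` for a map over `k`. -/
def VfgStatement : Prop :=
  ∀ (k : Type) [Field k] [IsAlgClosed k] [CharZero k] (ab : AbsoluteValue k ℝ) (p s : ℕ) (L : ℝ)
    (G : Fin 2 → MvPolynomial (Fin 2) k), IsNonarchimedean ab → p.Prime → 1 ≤ s →
    ab (p : k) ≤ L → L < 1 → RV.Ty ab (p ^ s) L G → Ra72.VfinF (p ^ s) G

/-- Row ORB (from everything): the pairs lie on finitely many forms. -/
def OrbStatement : Prop :=
  ∀ (K : Type) [Field K] [NumberField K] (p s : ℕ) (v : NumberField.FinitePlace K)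
    (F : Fin 2 → MvPolynomial (Fin 2) K), HypR p s v F →
    ¬ Para (fun i => map (algebraMap K (AlgebraicClosure K)) (F i)) →
    FinPairsE (AlgebraicClosure K) (fun i => map (algebraMap K (AlgebraicClosure K)) (F i))

end Pool.DynLehmer.UN.Orb
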