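import Pool.Agent.Lib.MP_2194ec_nt.GAL.R.Bas
import Pool.Agent.Lib.MP_2194ec_nt.GAL.R.Jac
import Pool.Agent.Lib.MP_2194ec_nt.GAL.R.Root
import Pool.Agent.Lib.MP_2194ec_nt.UN.OrbStatements

set_option autoImplicit false
set_option linter.unusedSectionVars false

/-!
# Row VFG: the bound for `n` for a map with purely inseparable good reduction
-/

namespace Pool.DynLehmer.UN.V24
open MvPolynomial Pool.DynLehmer Pool.DynLehmer.GS Pool.DynLehmer.UN

/-- Two forms of degree `D` over an algebraically closed field without common zeros over it have no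
common zeros over any extension. -/
theorem mor_closed {k : Type} [Field k] [IsAlgClosed k] {D : ℕ}
    {F : Fin 2 → MvPolynomial (Fin 2) k} (hD : 1 ≤ D) (hF : ∀ i, (F i).IsHomogeneous D)
    (hne : ∀ P : Fin 2 → k, P ≠ 0 → gAct F k P ≠ 0) : Mor D F := by
  have e : ∀ i, (R96.dh (F i)).homogenize D = F i := fun i => R96.hom_dh (hF i)
  have hcop : IsCoprime (R96.dh (F 0)) (R96.dh (F 1)) := by
    rw [Polynomial.isCoprime_iff_aeval_ne_zero_of_isAlgClosed k k]
    intro a
    by_contra h
    push Not at h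
    rw [Polynomial.coe_aeval_eq_eval] at h
    refine hne ![a, 1] (R96.ne_aff a) ?_
    rw [R96.gAct_aff]
    funext i
    fin_cases i
    · exact h.1
    · exact h.2
  have hmax : max (R96.dh (F 0)).natDegree (R96.dh (F 1)).natDegree = D := by
    refine le_antisymm (max_le (R96.natDegree_dh_le (hF 0)) (R96.natDegree_dh_le (hF 1))) ?_
    by_contra hlt
    rw [not_le, max_lt_iff] at hlt
    refine hne ![1, 0] R96.ne_inf ?_
    funext i
    show aeval ![1, 0] (F i) = 0
    rw [R96.aeval_inf (hF i)]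
    fin_cases i
    · exact Polynomial.coeff_eq_zero_of_natDegree_lt hlt.1
    · exact Polynomial.coeff_eq_zero_of_natDegree_lt hlt.2
  have h := Ra72.mor_of hcop hmax hD
  have h1 : (![(R96.dh (F 0)).homogenize D, (R96.dh (F 1)).homogenize D] :
      Fin 2 → MvPolynomial (Fin 2) k) = F := by
    funext i
    fin_cases i
    · exact e 0
    · exact e 1
  rwa [h1] at h

/-- a map with purely inseparable good reduction is a map -/
theorem mor_ty {k : Type} [Field k] [IsAlgClosed k] {ab : AbsoluteValue k ℝ} {D : ℕ} {L : ℝ}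
    {F : Fin 2 → MvPolynomial (Fin 2) k} (hna : IsNonarchimedean ab) (hD : 1 ≤ D) (hL : 0 ≤ L)
    (hL1 : L < 1) (hF : RV.Ty ab D L F) : Mor D F := by
  refine mor_closed hD hF.hom fun P hP h => ?_
  have h1 := RV.nm_act hna hD hL hL1 hF P
  have h2 := RV.nm_ne (ab := ab) hP
  rw [h] at h1
  have h3 : RV.nm ab (0 : Fin 2 → k) = 0 := by simp [RV.nm]
  rw [h3] at h1
  exact absurd h1 (pow_pos h2 _).ne

/-- Row VFG. -/
theorem vfg : Orb.VfgStatement := by
  intro k _ _ _ ab p s L G hna hp hs hpL hL1 hG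
  have hq : 1 ≤ p ^ s := Nat.one_le_pow _ _ hp.pos
  have hM : Mor (p ^ s) G := mor_ty hna hq ((ab.nonneg _).trans hpL) hL1 hG
  obtain ⟨n₁, hn₁⟩ := RV.vinf (RV.val69 RV.dist RV.wr24) RV.gred k ab p s L G hna hp hs hpL hL1 hG
  refine ⟨n₁, ?_⟩
  intro n n' M Q R hn hM1 hQ hR hQM hRM hSQ hSR hQR j N _ _ z z' hz' hz1 htr hzz
  exact RV.vgen k (p ^ s) ((p ^ s) ^ n) G (Q j) hM (hQ j) hq
    (hn₁ n n' M Q R hn hM1 hQ hR hQM hRM hSQ hSR hQR j) N z z' hz' hz1 htr hzz

end Pool.DynLehmer.UN.V24

/-!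
# A big valued field: the Gauss norm on the rational functions and its extension
-/

namespace Pool.DynLehmer.UN.Big95
open Polynomial

section gauss
variable {k : Type} [Field k] (ab : AbsoluteValue k ℝ) (hna : IsNonarchimedean ab)

/-- the Gauss norm on the polynomials -/
noncomputable def gN : AbsoluteValue k[X] ℝ where
  toFun p := p.gaussNorm ab 1
  map_mul' := gaussNorm_mul hna one_pos
  nonneg' p := p.gaussNorm_nonneg ab zero_le_one
  eq_zero' _ := gaussNorm_eq_zero_iff ab _ (fun _ hx ↦ (AbsoluteValue.eq_zero ab).mp hx) one_pos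
  add_le' p q := by
    have h1 := isNonarchimedean_gaussNorm ab hna zero_le_one p q
    have h2 := p.gaussNorm_nonneg ab (c := 1) zero_le_one
    have h3 := q.gaussNorm_nonneg ab (c := 1) zero_le_one
    exact h1.trans (max_le_add_of_nonneg h2 h3)

theorem gN_na (p q : k[X]) : gN ab hna (p + q) ≤ max (gN ab hna p) (gN ab hna q) :=
  isNonarchimedean_gaussNorm ab hna zero_le_one p q

theorem gN_C (c : k) : gN ab hna (C c) = ab c := by
  show (C c).gaussNorm ab 1 = ab c
  exact gaussNorm_C ab 1 c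

theorem gN_X : gN ab hna X = 1 := by
  show (X : k[X]).gaussNorm ab 1 = 1
  rw [← monomial_one_one_eq_X, gaussNorm_monomial, map_one, one_pow, one_mul]

theorem gN_sub (c : k) : gN ab hna (X - C c) = max 1 (ab c) := by
  refine le_antisymm ?_ (max_le ?_ ?_)
  · rw [sub_eq_add_neg, ← C_neg]
    refine (gN_na ab hna _ _).trans ?_
    rw [gN_X, gN_C, ab.map_neg]
  · have h := (X - C c : k[X]).le_gaussNorm ab (c := 1) zero_le_one 1
    show (1 : ℝ) ≤ (X - C c : k[X]).gaussNorm ab 1
    simpa using h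
  · have h := (X - C c : k[X]).le_gaussNorm ab (c := 1) zero_le_one 0
    show ab c ≤ (X - C c : k[X]).gaussNorm ab 1
    simpa [ab.map_neg] using h

/-- the Gauss norm on the rational functions -/
noncomputable def gR0 (f : RatFunc k) : ℝ := gN ab hna f.num / gN ab hna f.denom

theorem gR0_div (p q : k[X]) (hq : q ≠ 0) :
    gR0 ab hna (algebraMap k[X] (RatFunc k) p / algebraMap k[X] (RatFunc k) q) =
      gN ab hna p / gN ab hna q := by
  unfold gR0
  set f := algebraMap k[X] (RatFunc k) p / algebraMap k[X] (RatFunc k) q with hf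
  have h := (RatFunc.num_mul_eq_mul_denom_iff (x := f) (p := p) (q := q) hq).2 hf
  have h1 : gN ab hna f.denom ≠ 0 := (gN ab hna).ne_zero_iff.2 f.denom_ne_zero
  have h2 : gN ab hna q ≠ 0 := (gN ab hna).ne_zero_iff.2 hq
  rw [div_eq_div_iff h1 h2, ← map_mul, ← map_mul, h]

/-- the Gauss norm on the rational functions -/
noncomputable def gR : AbsoluteValue (RatFunc k) ℝ where
  toFun := gR0 ab hna
  map_mul' x y := by
    conv_lhs => rw [← RatFunc.num_div_denom x, ← RatFunc.num_div_denom y]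
    rw [div_mul_div_comm, ← map_mul, ← map_mul,
      gR0_div ab hna _ _ (mul_ne_zero x.denom_ne_zero y.denom_ne_zero), map_mul, map_mul]
    unfold gR0
    rw [div_mul_div_comm]
  nonneg' x := div_nonneg ((gN ab hna).nonneg _) ((gN ab hna).nonneg _)
  eq_zero' x := by
    unfold gR0
    rw [div_eq_zero_iff, (gN ab hna).eq_zero, (gN ab hna).eq_zero, RatFunc.num_eq_zero_iff]
    exact or_iff_left x.denom_ne_zero
  add_le' x y := by
    have hx := x.denom_ne_zero
    have hy := y.denom_ne_zero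
    have h1 : (0 : ℝ) < gN ab hna x.denom := (gN ab hna).pos hx
    have h2 : (0 : ℝ) < gN ab hna y.denom := (gN ab hna).pos hy
    conv_lhs => rw [← RatFunc.num_div_denom x, ← RatFunc.num_div_denom y]
    rw [div_add_div _ _ (RatFunc.algebraMap_ne_zero hx) (RatFunc.algebraMap_ne_zero hy),
      ← map_mul, ← map_mul, ← map_mul, ← map_add, gR0_div ab hna _ _ (mul_ne_zero hx hy)]
    unfold gR0
    rw [div_add_div _ _ h1.ne' h2.ne', map_mul]
    refine div_le_div_of_nonneg_right ?_ (mul_pos h1 h2).le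
    refine ((gN ab hna).add_le _ _).trans ?_
    rw [map_mul, map_mul]

theorem gR_na (x y : RatFunc k) : gR ab hna (x + y) ≤ max (gR ab hna x) (gR ab hna y) := by
  show gR0 ab hna (x + y) ≤ max (gR0 ab hna x) (gR0 ab hna y)
  have hx := x.denom_ne_zero
  have hy := y.denom_ne_zero
  have h1 : (0 : ℝ) < gN ab hna x.denom := (gN ab hna).pos hx
  have h2 : (0 : ℝ) < gN ab hna y.denom := (gN ab hna).pos hy
  conv_lhs => rw [← RatFunc.num_div_denom x, ← RatFunc.num_div_denom y]
  rw [div_add_div _ _ (RatFunc.algebraMap_ne_zero hx) (RatFunc.algebraMap_ne_zero hy),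
    ← map_mul, ← map_mul, ← map_mul, ← map_add, gR0_div ab hna _ _ (mul_ne_zero hx hy)]
  unfold gR0
  rw [map_mul, div_le_iff₀ (mul_pos h1 h2)]
  refine (gN_na ab hna _ _).trans ?_
  rw [map_mul, map_mul]
  refine max_le ?_ ?_
  · calc gN ab hna x.num * gN ab hna y.denom
        = gN ab hna x.num / gN ab hna x.denom * (gN ab hna x.denom * gN ab hna y.denom) := by
          field_simp
      _ ≤ _ := mul_le_mul_of_nonneg_right (le_max_left _ _) (mul_pos h1 h2).le
  · calc gN ab hna x.denom * gN ab hna y.num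
        = gN ab hna y.num / gN ab hna y.denom * (gN ab hna x.denom * gN ab hna y.denom) := by
          field_simp
      _ ≤ _ := mul_le_mul_of_nonneg_right (le_max_right _ _) (mul_pos h1 h2).le

theorem gR_pol (p : k[X]) : gR ab hna (algebraMap k[X] (RatFunc k) p) = gN ab hna p := by
  have h := gR0_div ab hna p 1 one_ne_zero
  rw [map_one, div_one, map_one, div_one] at h
  exact h

end gauss

/-- extension of an absolute value to an algebraic closure -/
theorem exists_ext {K : Type} [Field K] (v : AbsoluteValue K ℝ) (hv : IsNonarchimedean v)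
    (hnt : ∃ x, 1 < v x) : ∃ μ : AbsoluteValue (AlgebraicClosure K) ℝ, IsNonarchimedean μ ∧
      ∀ x : K, μ (algebraMap K (AlgebraicClosure K) x) = v x := by
  let e : K →+* v.Completion :=
    (UniformSpace.Completion.coeRingHom : WithAbs v →+* v.Completion).comp
      (WithAbs.equiv v).symm.toRingHom
  have he : ∀ x, ‖e x‖ = v x := by
    intro x
    show ‖((WithAbs.toAbs v x : WithAbs v) : v.Completion)‖ = v x
    rw [UniformSpace.Completion.norm_coe]
    rfl
  let _ : NontriviallyNormedField v.Completion :=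
    { (inferInstance : NormedField v.Completion) with
      non_trivial := by
        obtain ⟨x, hx⟩ := hnt
        exact ⟨e x, by rw [he]; exact hx⟩ }
  have hu : IsUltrametricDist v.Completion := by
    refine IsUltrametricDist.isUltrametricDist_of_forall_norm_natCast_le_one fun n => ?_
    rw [← map_natCast e n, he]
    exact IsNonarchimedean.apply_natCast_le_one hv
  exact RV.exists_ext_nonarch36 (Ω := AlgebraicClosure K) e |>.imp
    fun μ h => ⟨h.1, fun x => (h.2 x).trans (he x)⟩

/-- The big field: an algebraically closed field over `k` with an absolute value which extends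
the one of `k` and the Gauss norm of the linear polynomials in `X`. -/
theorem core {k : Type} [Field k] (ab : AbsoluteValue k ℝ) (hna : IsNonarchimedean ab) :
    ∃ A : AbsoluteValue (AlgebraicClosure (RatFunc k)) ℝ, IsNonarchimedean A ∧
      (∀ c : k, A (algebraMap k (AlgebraicClosure (RatFunc k)) c) = ab c) ∧
      ∀ c : k, A (algebraMap (RatFunc k) (AlgebraicClosure (RatFunc k)) RatFunc.X -
        algebraMap k (AlgebraicClosure (RatFunc k)) c) = max 1 (ab c) := by
  classical
  by_cases hnt : ∃ x, 1 < ab x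
  · have h1 : ∃ x : RatFunc k, 1 < gR ab hna x := by
      obtain ⟨x, hx⟩ := hnt
      refine ⟨algebraMap k[X] (RatFunc k) (C x), ?_⟩
      rw [gR_pol, gN_C]
      exact hx
    obtain ⟨μ, hμ, hμ'⟩ := exists_ext (gR ab hna) (gR_na ab hna) h1
    have h2 : ∀ c : k, algebraMap k (AlgebraicClosure (RatFunc k)) c =
        algebraMap (RatFunc k) (AlgebraicClosure (RatFunc k))
          (algebraMap k[X] (RatFunc k) (C c)) := by
      intro c
      rw [IsScalarTower.algebraMap_apply k (RatFunc k) (AlgebraicClosure (RatFunc k)),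
        IsScalarTower.algebraMap_apply k k[X] (RatFunc k)]
      rfl
    refine ⟨μ, hμ, fun c => ?_, fun c => ?_⟩
    · rw [h2, hμ', gR_pol, gN_C]
    · rw [h2, ← map_sub, hμ', ← RatFunc.algebraMap_X, ← map_sub, gR_pol, gN_sub]
  · push Not at hnt
    have h1 : ∀ c : k, c ≠ 0 → ab c = 1 := by
      intro c hc
      refine le_antisymm (hnt c) ?_
      have h2 := hnt c⁻¹
      rw [map_inv₀, inv_le_one₀ (ab.pos hc)] at h2
      exact h2
    have h0 : ∀ z : AlgebraicClosure (RatFunc k), z ≠ 0 →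
        (AbsoluteValue.trivial : AbsoluteValue (AlgebraicClosure (RatFunc k)) ℝ) z = 1 :=
      fun z hz => if_neg hz
    refine ⟨AbsoluteValue.trivial, ?_, fun c => ?_, fun c => ?_⟩
    · intro x y
      by_cases hx : x = 0
      · subst hx
        rw [zero_add]
        exact le_max_right _ _
      · rw [h0 x hx]
        refine le_trans ?_ (le_max_left _ _)
        by_cases hxy : x + y = 0
        · rw [hxy, map_zero]
          exact zero_le_one
        · exact (h0 _ hxy).le
    · by_cases hc : c = 0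
      · subst hc
        rw [map_zero, map_zero, map_zero]
      · rw [h0 _ ((_root_.map_ne_zero _).2 hc), h1 c hc]
    · rw [max_eq_left (hnt c), h0]
      rw [IsScalarTower.algebraMap_apply k (RatFunc k) (AlgebraicClosure (RatFunc k)), ← map_sub,
        Ne, map_eq_zero, ← RatFunc.algebraMap_X, IsScalarTower.algebraMap_apply k k[X] (RatFunc k),
        ← map_sub]
      exact RatFunc.algebraMap_ne_zero (X_sub_C_ne_zero c)

/-- Row BIG. -/
theorem big : Orb.BigStatement := by
  intro k _ _ _ ab hna _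
  obtain ⟨A, h1, h2, h3⟩ := core ab hna
  refine ⟨AlgebraicClosure (RatFunc k), inferInstance, inferInstance, A,
    ⟨inferInstance, h1, h2⟩, algebraMap (RatFunc k) _ RatFunc.X, fun c hc => ?_⟩
  rw [h3, max_eq_left hc]

theorem gen_sub {k Ω : Type} [Field k] [Field Ω] [Algebra k Ω] {ab : AbsoluteValue k ℝ}
    {A : AbsoluteValue Ω ℝ} (hB : Orb.Big k Ω ab A) {x : Ω} (hx : Orb.Gen ab A x) (c : k) :
    A (x - algebraMap k Ω c) = max 1 (ab c) := by
  rcases le_or_gt (ab c) 1 with hc | hc
  · rw [max_eq_left hc]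
    exact hx c hc
  · rw [max_eq_right hc.le, ← hB.ext]
    have h1 : A x = 1 := by
      have := hx 0 (by rw [map_zero]; exact zero_le_one)
      rwa [map_zero, sub_zero] at this
    have h2 : A x < A (algebraMap k Ω c) := by
      rw [h1, hB.ext]
      exact hc
    rw [← A.map_neg (algebraMap k Ω c)] at h2 ⊢
    rw [sub_eq_add_neg]
    exact hB.na.add_eq_right_of_lt h2

/-- the absolute value of a polynomial at a generic point -/
theorem gen_pol {k Ω : Type} [Field k] [IsAlgClosed k] [Field Ω] [Algebra k Ω]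
    {ab : AbsoluteValue k ℝ} {A : AbsoluteValue Ω ℝ} (hna : IsNonarchimedean ab)
    (hB : Orb.Big k Ω ab A) {x : Ω} (hx : Orb.Gen ab A x) (P : k[X]) :
    A (aeval x P) = gN ab hna P := by
  have h : ∀ s : Multiset k, A (aeval x (s.map fun r => X - C r).prod) =
      gN ab hna (s.map fun r => X - C r).prod := by
    intro s
    induction s using Multiset.induction with
    | empty => simp
    | cons r s ih =>
      rw [Multiset.map_cons, Multiset.prod_cons, map_mul, map_mul, map_mul, ih, gN_sub, map_sub,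
        aeval_X, aeval_C, gen_sub hB hx]
  have hs := (IsAlgClosed.splits P).eq_prod_roots
  rw [hs, map_mul, map_mul, map_mul, h, gN_C, aeval_C, hB.ext]

/-- Row GAUSS. -/
theorem gauss : Orb.GaussStatement := by
  intro k Ω _ _ _ _ _ ab A hna hB x hx
  refine ⟨?_, fun P => ⟨fun i => ?_, fun hP => ?_⟩⟩
  · rw [transcendental_iff]
    intro P hP
    have h1 := gen_pol hna hB hx P
    rw [hP, map_zero] at h1
    exact (gN ab hna).eq_zero.1 h1.symm
  · rw [gen_pol hna hB hx P]
    have h := P.le_gaussNorm ab (c := 1) zero_le_one i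
    rw [one_pow, mul_one] at h
    exact h
  · rw [gen_pol hna hB hx P]
    obtain ⟨i, hi⟩ := P.exists_eq_gaussNorm ab 1
    refine ⟨i, ?_⟩
    rw [one_pow, mul_one] at hi
    exact hi

end Pool.DynLehmer.UN.Big95

/-! # Row GENR: generic points and rational maps -/

namespace Pool.DynLehmer.UN.O69
open MvPolynomial Pool.DynLehmer Pool.DynLehmer.GS Pool.DynLehmer.UN Pool.DynLehmer.UN.Orb

namespace G69

section na

variable {F : Type} [Field F] {A : AbsoluteValue F ℝ}

theorem na_sub (hA : IsNonarchimedean A) (x y : F) : A (x - y) ≤ max (A x) (A y) := by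
  rw [sub_eq_add_neg]
  refine (hA x (-y)).trans ?_
  rw [A.map_neg]

theorem na_eq (hA : IsNonarchimedean A) {x y : F} (h : A y < A x) : A (x + y) = A x := by
  refine le_antisymm ((hA x y).trans (max_le le_rfl h.le)) ?_
  have h1 := na_sub hA (x + y) y
  rw [add_sub_cancel_right] at h1
  rcases le_max_iff.1 h1 with h2 | h2
  · exact h2
  · exact absurd h (not_lt.2 h2)

theorem na_eq' (hA : IsNonarchimedean A) {x y : F} (h : A y < A x) : A (x - y) = A x := by
  rw [sub_eq_add_neg]
  exact na_eq hA (by rwa [A.map_neg])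

end na

variable {k Ω : Type} [Field k] [Field Ω] [Algebra k Ω] {ab : AbsoluteValue k ℝ}
  {A : AbsoluteValue Ω ℝ}

theorem prod_le {α : Type} (s : Multiset α) (f : α → ℝ) (h0 : ∀ a ∈ s, 0 ≤ f a)
    (h1 : ∀ a ∈ s, f a ≤ 1) : (s.map f).prod ≤ 1 := by
  have h : 0 ≤ (s.map f).prod ∧ (s.map f).prod ≤ 1 := by
    induction s using Multiset.induction with
    | empty => simp
    | cons a s ih =>
      rw [Multiset.map_cons, Multiset.prod_cons]
      obtain ⟨h2, h3⟩ := ih (fun b hb => h0 b (Multiset.mem_cons_of_mem hb))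
        (fun b hb => h1 b (Multiset.mem_cons_of_mem hb))
      exact ⟨mul_nonneg (h0 a (Multiset.mem_cons_self a s)) h2,
        mul_le_one₀ (h1 a (Multiset.mem_cons_self a s)) h2 h3⟩
  exact h.2

/-- a point of the valuation ring of `k` away from finitely many residue classes -/
theorem exists_good [IsAlgClosed k] (hab : IsNonarchimedean ab) (C : Multiset k) :
    ∃ w : k, ab w ≤ 1 ∧ ∀ c ∈ C, ab c ≤ 1 → ab (w - c) = 1 := by
  classical
  set C' := C.filter (fun c => ab c ≤ 1) with hC'
  by_cases h0 : C' = 0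
  · refine ⟨0, by rw [map_zero]; exact zero_le_one, fun c hc hc1 => ?_⟩
    have : c ∈ C' := Multiset.mem_filter.2 ⟨hc, hc1⟩
    rw [h0] at this
    exact absurd this (Multiset.notMem_zero c)
  set P : Polynomial k := (C'.map (fun c => Polynomial.X - Polynomial.C c)).prod - 1 with hP
  have hd1 : (C'.map (fun c => Polynomial.X - Polynomial.C c)).prod.natDegree =
      Multiset.card C' := Polynomial.natDegree_multiset_prod_X_sub_C_eq_card C'
  have hcard : 0 < Multiset.card C' := Multiset.card_pos.2 h0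
  have hd : P.degree ≠ 0 := by
    have h1 : P.natDegree = Multiset.card C' := by
      rw [hP, ← hd1]
      refine Polynomial.natDegree_sub_eq_left_of_natDegree_lt ?_
      rw [Polynomial.natDegree_one, hd1]
      exact hcard
    intro h2
    have h3 := Polynomial.natDegree_eq_zero_iff_degree_le_zero.2 h2.le
    omega
  obtain ⟨w, hw⟩ := IsAlgClosed.exists_root P hd
  have hprod : (C'.map (fun c => w - c)).prod = 1 := by
    rw [Polynomial.IsRoot, hP, Polynomial.eval_sub, Polynomial.eval_one, sub_eq_zero,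
      Polynomial.eval_multiset_prod, Multiset.map_map] at hw
    simpa using hw
  have hprod' : (C'.map (fun c => ab (w - c))).prod = 1 := by
    have h1 := congrArg ab hprod
    rw [map_multiset_prod, Multiset.map_map, map_one] at h1
    exact h1
  have hmem : ∀ c ∈ C', ab c ≤ 1 := fun c hc => (Multiset.mem_filter.1 hc).2
  have hw1 : ab w ≤ 1 := by
    by_contra hcon
    push Not at hcon
    have h1 : ∀ c ∈ C', ab (w - c) = ab w := fun c hc =>
      na_eq' hab ((hmem c hc).trans_lt hcon)
    have h2 : (C'.map (fun c => ab (w - c))).prod = ab w ^ Multiset.card C' := by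
      rw [Multiset.map_congr rfl h1, Multiset.map_const', Multiset.prod_replicate]
    rw [h2] at hprod'
    exact absurd hprod' (ne_of_gt (one_lt_pow₀ hcon hcard.ne'))
  refine ⟨w, hw1, fun c hc hc1 => ?_⟩
  have hle : ∀ c ∈ C', ab (w - c) ≤ 1 := fun c hc =>
    (na_sub hab w c).trans (max_le hw1 (hmem c hc))
  have hcC : c ∈ C' := Multiset.mem_filter.2 ⟨hc, hc1⟩
  refine le_antisymm (hle c hcC) ?_
  obtain ⟨C'', hC''⟩ := Multiset.exists_cons_of_mem hcC
  rw [hC'', Multiset.map_cons, Multiset.prod_cons] at hprod'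
  have h3 : (C''.map (fun c => ab (w - c))).prod ≤ 1 := by
    refine prod_le C'' _ (fun _ _ => ab.nonneg _) fun c' hc' => hle c' ?_
    rw [hC'']
    exact Multiset.mem_cons_of_mem hc'
  have h4 : 0 ≤ ab (w - c) := ab.nonneg _
  calc (1 : ℝ) = ab (w - c) * (C''.map (fun c => ab (w - c))).prod := hprod'.symm
    _ ≤ ab (w - c) * 1 := mul_le_mul_of_nonneg_left h3 h4
    _ = ab (w - c) := mul_one _

theorem gen_one (hB : Big k Ω ab A) {x : Ω} (hx : Gen ab A x) : A x = 1 := by
  have h := hx 0 (by rw [map_zero]; exact zero_le_one)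
  rwa [map_zero, sub_zero] at h

/-- the value at a generic point and at a good point -/
theorem val_eq [IsAlgClosed k] (hab : IsNonarchimedean ab) (hB : Big k Ω ab A) {x : Ω}
    (hx : Gen ab A x) (P : Polynomial k) {w : k} (hw : ab w ≤ 1)
    (hw' : ∀ c ∈ P.roots, ab c ≤ 1 → ab (w - c) = 1) :
    A (Polynomial.aeval x P) = ab (P.eval w) := by
  have hs := (IsAlgClosed.splits P).eq_prod_roots
  have h1 : Polynomial.aeval x P = algebraMap k Ω P.leadingCoeff *
      (P.roots.map (fun c => x - algebraMap k Ω c)).prod := by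
    conv_lhs => rw [hs]
    rw [map_mul, Polynomial.aeval_C, map_multiset_prod, Multiset.map_map]
    congr 2
    refine Multiset.map_congr rfl fun c _ => ?_
    simp
  have h2 : P.eval w = P.leadingCoeff * (P.roots.map (fun c => w - c)).prod := by
    conv_lhs => rw [hs]
    rw [Polynomial.eval_mul, Polynomial.eval_C, Polynomial.eval_multiset_prod, Multiset.map_map]
    congr 2
    refine Multiset.map_congr rfl fun c _ => ?_
    simp
  rw [h1, h2, map_mul, map_mul, hB.ext, map_multiset_prod, map_multiset_prod, Multiset.map_map,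
    Multiset.map_map]
  congr 2
  refine Multiset.map_congr rfl fun c hc => ?_
  show A (x - algebraMap k Ω c) = ab (w - c)
  rcases le_or_gt (ab c) 1 with h3 | h3
  · rw [hx c h3, hw' c hc h3]
  · rw [← A.map_sub, ← ab.map_sub, na_eq' hB.na (by rw [gen_one hB hx, hB.ext]; exact h3),
      na_eq' hab (hw.trans_lt h3), hB.ext]

/-- elements congruent to a unit of `k` -/
def S (ab : AbsoluteValue k ℝ) (A : AbsoluteValue Ω ℝ) (f : Ω) : Prop :=
  ∃ ρ : k, ab ρ = 1 ∧ A (f - algebraMap k Ω ρ) < 1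

theorem S_one : S ab A (1 : Ω) :=
  ⟨1, map_one ab, by rw [map_one, sub_self, map_zero]; exact zero_lt_one⟩

theorem S_mul (hB : Big k Ω ab A) {f g : Ω} (hf : S ab A f) (hg : S ab A g) : S ab A (f * g) := by
  obtain ⟨ρ, h1, h2⟩ := hf
  obtain ⟨σ, h3, h4⟩ := hg
  refine ⟨ρ * σ, by rw [map_mul, h1, h3, one_mul], ?_⟩
  have e : f * g - algebraMap k Ω (ρ * σ) = (f - algebraMap k Ω ρ) * (g - algebraMap k Ω σ) +
      ((f - algebraMap k Ω ρ) * algebraMap k Ω σ + algebraMap k Ω ρ * (g - algebraMap k Ω σ)) := by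
    rw [map_mul]; ring
  rw [e]
  refine (hB.na _ _).trans_lt (max_lt ?_ ((hB.na _ _).trans_lt (max_lt ?_ ?_)))
  · rw [map_mul]
    exact mul_lt_one_of_nonneg_of_lt_one_left (A.nonneg _) h2 h4.le
  · rw [map_mul, hB.ext, h3, mul_one]
    exact h2
  · rw [map_mul, hB.ext, h1, one_mul]
    exact h4

/-- the factor of a root which is not generic -/
theorem S_factor (hB : Big k Ω ab A) {z : Ω} (c : k) (hc : ab c ≤ 1)
    (hz : A (z - algebraMap k Ω c) < 1 ∨ 1 < A z) {w w' : k} (hw : ab w ≤ 1) (hw' : ab w' ≤ 1)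
    (h1 : ab (w - c) = 1) (h2 : ab (w' - c) = 1) :
    S ab A ((algebraMap k Ω w - z) / (algebraMap k Ω w' - z)) := by
  rcases hz with hz | hz
  · have h3 : ∀ u : k, ab (u - c) = 1 → A (algebraMap k Ω u - z) = 1 := by
      intro u hu
      have e : algebraMap k Ω u - z = algebraMap k Ω (u - c) - (z - algebraMap k Ω c) := by
        rw [map_sub]; ring
      rw [e, na_eq' hB.na (by rw [hB.ext, hu]; exact hz), hB.ext, hu]
    have h4 : algebraMap k Ω w' - z ≠ 0 := by
      intro h
      have := h3 w' h2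
      rw [h, map_zero] at this
      exact zero_ne_one this
    have h5 : w' - c ≠ 0 := by
      intro h
      rw [h, map_zero] at h2
      exact zero_ne_one h2
    have h5' : algebraMap k Ω w' - algebraMap k Ω c ≠ 0 := by
      rw [← map_sub]
      exact (map_ne_zero_iff _ (algebraMap k Ω).injective).2 h5
    refine ⟨(w - c) / (w' - c), by rw [map_div₀, h1, h2, div_one], ?_⟩
    have e : (algebraMap k Ω w - z) / (algebraMap k Ω w' - z) -
        algebraMap k Ω ((w - c) / (w' - c)) =
        (algebraMap k Ω (w - w') * (z - algebraMap k Ω c)) /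
          ((algebraMap k Ω w' - z) * algebraMap k Ω (w' - c)) := by
      rw [map_div₀, map_sub, map_sub, map_sub]
      field_simp
      ring
    rw [e, map_div₀, map_mul, map_mul, h3 w' h2, hB.ext, hB.ext, h2, mul_one, div_one]
    have h6 : ab (w - w') ≤ 1 := by
      have : w - w' = (w - c) - (w' - c) := by ring
      have h7 : A (algebraMap k Ω (w - w')) ≤ 1 := by
        rw [this, map_sub]
        refine (na_sub hB.na _ _).trans ?_
        rw [hB.ext, hB.ext, h1, h2, max_self]
      rwa [hB.ext] at h7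
    exact mul_lt_one_of_nonneg_of_lt_one_right h6 (A.nonneg _) hz
  · have h3 : ∀ u : k, ab u ≤ 1 → A (algebraMap k Ω u - z) = A z := by
      intro u hu
      rw [← A.map_sub, na_eq' hB.na (by rw [hB.ext]; exact hu.trans_lt hz)]
    have h4 : algebraMap k Ω w' - z ≠ 0 := by
      intro h
      have := h3 w' hw'
      rw [h, map_zero] at this
      linarith
    refine ⟨1, map_one ab, ?_⟩
    have e : (algebraMap k Ω w - z) / (algebraMap k Ω w' - z) - algebraMap k Ω 1 =
        algebraMap k Ω (w - w') / (algebraMap k Ω w' - z) := by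
      rw [map_one, map_sub]
      field_simp
      ring
    rw [e, map_div₀, h3 w' hw', hB.ext, div_lt_one (by linarith)]
    have h6 : ab (w - w') ≤ 1 := by
      have h7 : A (algebraMap k Ω (w - w')) ≤ 1 := by
        rw [map_sub]
        refine (na_sub hB.na _ _).trans (max_le ?_ ?_)
        · rw [hB.ext]; exact hw
        · rw [hB.ext]; exact hw'
      rwa [hB.ext] at h7
    linarith

theorem S_prod (hB : Big k Ω ab A) (a b : Ω) (s : Multiset Ω)
    (h : ∀ z ∈ s, S ab A ((a - z) / (b - z))) :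
    S ab A ((s.map (fun z => a - z)).prod / (s.map (fun z => b - z)).prod) := by
  induction s using Multiset.induction with
  | empty => simpa using S_one
  | cons z s ih =>
    rw [Multiset.map_cons, Multiset.map_cons, Multiset.prod_cons, Multiset.prod_cons,
      mul_div_mul_comm]
    exact S_mul hB (h z (Multiset.mem_cons_self z s))
      (ih fun z' hz' => h z' (Multiset.mem_cons_of_mem hz'))

/-- values of polynomials at generic points do not depend on the point -/
theorem A_eq (hG : GaussStatement) [IsAlgClosed k] [CharZero k] (hab : IsNonarchimedean ab)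
    (hB : Big k Ω ab A) {x y : Ω} (hx : Gen ab A x) (hy : Gen ab A y) (P : Polynomial k) :
    A (Polynomial.aeval y P) = A (Polynomial.aeval x P) := by
  by_cases h0 : P = 0
  · subst h0
    simp only [map_zero]
  obtain ⟨-, h1⟩ := hG k Ω ab A hab hB x hx
  obtain ⟨-, h2⟩ := hG k Ω ab A hab hB y hy
  obtain ⟨i, hi⟩ := (h1 P).2 h0
  obtain ⟨j, hj⟩ := (h2 P).2 h0
  refine le_antisymm ?_ ?_
  · rw [hj]; exact (h1 P).1 j
  · rw [hi]; exact (h2 P).1 i

theorem lin69 (hG : GaussStatement) [IsAlgClosed k] [CharZero k] (hab : IsNonarchimedean ab)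
    (hB : Big k Ω ab A) {y : Ω} (hy : Gen ab A y) (a b : k) :
    ab a ≤ A (algebraMap k Ω a - algebraMap k Ω b * y) ∧
      ab b ≤ A (algebraMap k Ω a - algebraMap k Ω b * y) := by
  obtain ⟨-, h2⟩ := hG k Ω ab A hab hB y hy
  have h3 := (h2 (Polynomial.C a - Polynomial.C b * Polynomial.X)).1
  have e : Polynomial.aeval y (Polynomial.C a - Polynomial.C b * Polynomial.X) =
      algebraMap k Ω a - algebraMap k Ω b * y := by simp
  rw [e] at h3
  constructor
  · have := h3 0
    simpa using this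
  · have := h3 1
    simp only [Polynomial.coeff_sub, Polynomial.coeff_C_succ, Polynomial.coeff_C_mul,
      Polynomial.coeff_X_one, mul_one, zero_sub] at this
    rwa [ab.map_neg] at this

/-- the dehomogenized form -/
noncomputable def dr (R : Fin 2 → MvPolynomial (Fin 2) k) (i : Fin 2) : Polynomial k :=
  aeval ![Polynomial.X, 1] (R i)

theorem aeval_dr (R : Fin 2 → MvPolynomial (Fin 2) k) (i : Fin 2) (z : Ω) :
    Polynomial.aeval z (dr R i) = aeval ![z, 1] (R i) := by
  have h3 : (Polynomial.aeval z : Polynomial k →ₐ[k] Ω).comp (aeval ![Polynomial.X, 1]) =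
      (aeval ![z, 1] : MvPolynomial (Fin 2) k →ₐ[k] Ω) := by
    refine MvPolynomial.algHom_ext fun i => ?_
    fin_cases i <;> simp
  exact DFunLike.congr_fun h3 (R i)

end G69

open G69 in
/-- Row GENR. -/
theorem genr (hG : GaussStatement) : GenrStatement := by
  classical
  intro k Ω _ _ _ _ _ ab A hab hB m R hm hR x hx hRx
  have hcl : IsAlgClosed Ω := hB.closed
  set r := dr R with hr
  have hfr : ∀ z : Ω, fr R z = Polynomial.aeval z (r 0) / Polynomial.aeval z (r 1) := by
    intro z
    rw [hr, aeval_dr, aeval_dr]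
    rfl
  have hRx1 : A (fr R x) = 1 := gen_one hB hRx
  have hne1 : Polynomial.aeval x (r 1) ≠ 0 := by
    intro h
    rw [hfr, h, div_zero, map_zero] at hRx1
    exact zero_ne_one hRx1
  set g := A (Polynomial.aeval x (r 1)) with hg
  have hg0 : 0 < g := A.pos hne1
  have hgc : ∀ c : k, ab c ≤ 1 → A (Polynomial.aeval x (r 0 - Polynomial.C c * r 1)) = g := by
    intro c hc
    have h1 := hRx c hc
    have e : fr R x - algebraMap k Ω c =
        Polynomial.aeval x (r 0 - Polynomial.C c * r 1) / Polynomial.aeval x (r 1) := by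
      rw [hfr, map_sub, map_mul, Polynomial.aeval_C]
      field_simp
    rw [e, map_div₀, div_eq_one_iff_eq hg0.ne'] at h1
    exact h1
  have hg00 : A (Polynomial.aeval x (r 0)) = g := by
    have := hgc 0 (by rw [map_zero]; exact zero_le_one)
    simpa using this
  constructor
  · intro y hy c hc
    have h1 : Polynomial.aeval y (r 1) ≠ 0 := by
      intro h
      have := A_eq hG hab hB hx hy (r 1)
      rw [h, map_zero] at this
      exact hg0.ne this
    have e : fr R y - algebraMap k Ω c =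
        Polynomial.aeval y (r 0 - Polynomial.C c * r 1) / Polynomial.aeval y (r 1) := by
      rw [hfr, map_sub, map_mul, Polynomial.aeval_C]
      field_simp
    rw [e, map_div₀, A_eq hG hab hB hx hy, A_eq hG hab hB hx hy, hgc c hc, div_self hg0.ne']
  · intro y hy
    by_contra hcon
    push Not at hcon
    set P : Polynomial Ω := (r 0).map (algebraMap k Ω) - Polynomial.C y *
      (r 1).map (algebraMap k Ω) with hP
    have hPe : ∀ u : Ω, P.eval u = Polynomial.aeval u (r 0) - y * Polynomial.aeval u (r 1) := by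
      intro u
      rw [hP, Polynomial.eval_sub, Polynomial.eval_mul, Polynomial.eval_C,
        Polynomial.eval_map_algebraMap, Polynomial.eval_map_algebraMap]
    have hPk : ∀ u : k, P.eval (algebraMap k Ω u) =
        algebraMap k Ω ((r 0).eval u) - algebraMap k Ω ((r 1).eval u) * y := by
      intro u
      rw [hPe, Polynomial.aeval_algebraMap_apply, Polynomial.aeval_algebraMap_apply]
      simp only [Polynomial.coe_aeval_eq_eval, mul_comm y]
    have hr1 : r 1 ≠ 0 := by
      intro h
      rw [h, map_zero] at hne1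
      exact hne1 rfl
    have hP0 : P ≠ 0 := by
      intro h
      obtain ⟨i, hi⟩ : ∃ i, (r 1).coeff i ≠ 0 := by
        by_contra h2
        push Not at h2
        exact hr1 (Polynomial.ext h2)
      have h2 := congrArg (fun f => Polynomial.coeff f i) h
      simp only [hP, Polynomial.coeff_sub, Polynomial.coeff_C_mul, Polynomial.coeff_map,
        Polynomial.coeff_zero] at h2
      have h3 := (lin69 hG hab hB hy ((r 0).coeff i) ((r 1).coeff i)).2
      rw [mul_comm, h2, map_zero] at h3
      exact hi (ab.eq_zero.1 (le_antisymm h3 (ab.nonneg _)))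
    -- the roots are not generic
    have hroot : ∀ z ∈ P.roots, ∃ c : k, ab c ≤ 1 ∧ (A (z - algebraMap k Ω c) < 1 ∨ 1 < A z) := by
      intro z hz
      have hz0 : P.eval z = 0 := (Polynomial.mem_roots hP0).1 hz
      have hng : ¬ Gen ab A z := by
        intro hzg
        refine hcon z hzg ?_
        have h1 : Polynomial.aeval z (r 1) ≠ 0 := by
          intro h
          have := A_eq hG hab hB hx hzg (r 1)
          rw [h, map_zero] at this
          exact hg0.ne this
        rw [hPe, sub_eq_zero] at hz0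
        rw [hfr, hz0, mul_div_assoc, div_self h1, mul_one]
      unfold Gen at hng
      push Not at hng
      obtain ⟨c, hc, hc1⟩ := hng
      refine ⟨c, hc, ?_⟩
      rcases lt_or_gt_of_ne hc1 with h | h
      · exact Or.inl h
      · right
        by_contra h2
        push Not at h2
        have h3 := na_sub hB.na z (algebraMap k Ω c)
        rw [hB.ext] at h3
        exact absurd (h.trans_le (h3.trans (max_le h2 hc))) (lt_irrefl _)
    choose! cz hcz1 hcz2 using hroot
    set C₁ : Multiset k := P.roots.map cz + ((r 0).roots + (r 1).roots) with hC₁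
    obtain ⟨w', hw'1, hw'2⟩ := exists_good hab C₁
    set H : Polynomial k := Polynomial.C ((r 1).eval w') * r 0 - Polynomial.C ((r 0).eval w') * r 1
      with hH
    obtain ⟨w, hw1, hw2⟩ := exists_good hab (C₁ + H.roots)
    have hv0 : ab ((r 0).eval w') = g := by
      rw [← hg00]
      exact (val_eq hab hB hx (r 0) hw'1 fun c hc hc1 => hw'2 c (Multiset.mem_add.2
        (Or.inr (Multiset.mem_add.2 (Or.inl hc)))) hc1).symm
    have hv1 : ab ((r 1).eval w') = g :=
      (val_eq hab hB hx (r 1) hw'1 fun c hc hc1 => hw'2 c (Multiset.mem_add.2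
        (Or.inr (Multiset.mem_add.2 (Or.inr hc)))) hc1).symm
    have hr1w : (r 1).eval w' ≠ 0 := by
      intro h
      rw [h, map_zero] at hv1
      exact hg0.ne hv1
    have hS : ∀ z ∈ P.roots, S ab A ((algebraMap k Ω w - z) / (algebraMap k Ω w' - z)) := by
      intro z hz
      have hm1 : cz z ∈ C₁ := Multiset.mem_add.2 (Or.inl (Multiset.mem_map_of_mem cz hz))
      exact S_factor hB (cz z) (hcz1 z hz) (hcz2 z hz) hw1 hw'1
        (hw2 _ (Multiset.mem_add.2 (Or.inl hm1)) (hcz1 z hz)) (hw'2 _ hm1 (hcz1 z hz))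
    have hS2 := S_prod hB (algebraMap k Ω w) (algebraMap k Ω w') P.roots hS
    have hev : ∀ u : Ω, P.eval u = P.leadingCoeff * (P.roots.map (fun z => u - z)).prod := by
      intro u
      conv_lhs => rw [(IsAlgClosed.splits P).eq_prod_roots]
      rw [Polynomial.eval_mul, Polynomial.eval_C, Polynomial.eval_multiset_prod, Multiset.map_map]
      congr 2
      refine Multiset.map_congr rfl fun c _ => ?_
      simp
    have hlc : P.leadingCoeff ≠ 0 := Polynomial.leadingCoeff_ne_zero.2 hP0
    have hPw' : P.eval (algebraMap k Ω w') ≠ 0 := by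
      intro h
      rw [hPk] at h
      have h3 := (lin69 hG hab hB hy ((r 0).eval w') ((r 1).eval w')).2
      rw [h, map_zero, hv1] at h3
      exact absurd hg0 (not_lt.2 h3)
    obtain ⟨ρ, hρ1, hρ2⟩ := hS2
    have hquot : (P.roots.map (fun z => algebraMap k Ω w - z)).prod /
        (P.roots.map (fun z => algebraMap k Ω w' - z)).prod =
        P.eval (algebraMap k Ω w) / P.eval (algebraMap k Ω w') := by
      rw [hev, hev, mul_div_mul_left _ _ hlc]
    rw [hquot] at hρ2
    have hK : A (P.eval (algebraMap k Ω w')) ≤ g := by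
      rw [hPk]
      refine (na_sub hB.na _ _).trans (max_le ?_ ?_)
      · rw [hB.ext, hv0]
      · rw [map_mul, hB.ext, hv1, gen_one hB hy, mul_one]
    have h4 : A (P.eval (algebraMap k Ω w) - algebraMap k Ω ρ * P.eval (algebraMap k Ω w')) < g := by
      have e : P.eval (algebraMap k Ω w) - algebraMap k Ω ρ * P.eval (algebraMap k Ω w') =
          (P.eval (algebraMap k Ω w) / P.eval (algebraMap k Ω w') - algebraMap k Ω ρ) *
            P.eval (algebraMap k Ω w') := by
        field_simp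
      rw [e, map_mul]
      calc _ < 1 * A (P.eval (algebraMap k Ω w')) :=
            mul_lt_mul_of_pos_right hρ2 (A.pos hPw')
        _ ≤ g := by rw [one_mul]; exact hK
    have h5 : P.eval (algebraMap k Ω w) - algebraMap k Ω ρ * P.eval (algebraMap k Ω w') =
        algebraMap k Ω ((r 0).eval w - ρ * (r 0).eval w') -
          algebraMap k Ω ((r 1).eval w - ρ * (r 1).eval w') * y := by
      rw [hPk, hPk, map_sub, map_sub, map_mul, map_mul]
      ring
    rw [h5] at h4
    obtain ⟨h6, h7⟩ := lin69 hG hab hB hy ((r 0).eval w - ρ * (r 0).eval w')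
      ((r 1).eval w - ρ * (r 1).eval w')
    have h8 : ab (H.eval w) < g * g := by
      have e : H.eval w = (r 1).eval w' * ((r 0).eval w - ρ * (r 0).eval w') -
          (r 0).eval w' * ((r 1).eval w - ρ * (r 1).eval w') := by
        rw [hH, Polynomial.eval_sub, Polynomial.eval_mul, Polynomial.eval_mul, Polynomial.eval_C,
          Polynomial.eval_C]
        ring
      rw [e]
      refine (na_sub hab _ _).trans_lt (max_lt ?_ ?_)
      · rw [map_mul, hv1]
        exact mul_lt_mul_of_pos_left (h6.trans_lt h4) hg0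
      · rw [map_mul, hv0]
        exact mul_lt_mul_of_pos_left (h7.trans_lt h4) hg0
    have h9 : A (Polynomial.aeval x H) = ab (H.eval w) :=
      val_eq hab hB hx H hw1 fun c hc hc1 => hw2 c (Multiset.mem_add.2 (Or.inr hc)) hc1
    have h10 : H = Polynomial.C ((r 1).eval w') *
        (r 0 - Polynomial.C ((r 0).eval w' / (r 1).eval w') * r 1) := by
      rw [hH, mul_sub, ← mul_assoc, ← Polynomial.C_mul, mul_div_cancel₀ _ hr1w]
    have h11 : A (Polynomial.aeval x H) = g * g := by
      rw [h10, map_mul, map_mul, Polynomial.aeval_C, hB.ext, hv1, hgc]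
      rw [map_div₀, hv0, hv1, div_self hg0.ne']
    rw [← h9, h11] at h8
    exact lt_irrefl _ h8

end Pool.DynLehmer.UN.O69

/-!
# Every point over a generic point is generic up to a Moebius map
-/

namespace Pool.DynLehmer.UN.Orb.N32
open Polynomial

/-- `y'` is close to `y` -/
def Ap {Ω : Type} [Field Ω] (A : AbsoluteValue Ω ℝ) (y y' : Ω) : Prop := A (y - y') < A y

variable {k Ω : Type} [Field k] [Field Ω] [Algebra k Ω] {A : AbsoluteValue Ω ℝ}

theorem sub_le (na : IsNonarchimedean A) (x y : Ω) : A (x - y) ≤ max (A x) (A y) := by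
  have h := na x (-y)
  rwa [A.map_neg, ← sub_eq_add_neg] at h

theorem ap_ne {y y' : Ω} (h : Ap A y y') : y ≠ 0 := by
  rintro rfl
  unfold Ap at h
  rw [map_zero] at h
  exact absurd h (not_lt.2 (A.nonneg _))

theorem ap_abs (na : IsNonarchimedean A) {y y' : Ω} (h : Ap A y y') : A y' = A y := by
  unfold Ap at h
  apply le_antisymm
  · have h1 := sub_le na y (y - y')
    rw [sub_sub_cancel] at h1
    exact h1.trans (max_le le_rfl h.le)
  · have h1 := na y' (y - y')
    rw [add_sub_cancel] at h1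
    rcases le_max_iff.1 h1 with h2 | h2
    · exact h2
    · exact absurd h (not_lt.2 h2)

theorem ap_mul (na : IsNonarchimedean A) {y y' z z' : Ω} (h1 : Ap A y y') (h2 : Ap A z z') :
    Ap A (y * z) (y' * z') := by
  have h3 := ap_abs na h1
  have hy : 0 < A y := A.pos (ap_ne h1)
  have hz : 0 < A z := A.pos (ap_ne h2)
  unfold Ap at *
  have h4 : y * z - y' * z' = (y - y') * z + y' * (z - z') := by ring
  rw [h4]
  refine lt_of_le_of_lt (na _ _) (max_lt ?_ ?_)
  · rw [map_mul, map_mul]
    exact mul_lt_mul_of_pos_right h1 hz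
  · rw [map_mul, map_mul, h3]
    exact mul_lt_mul_of_pos_left h2 hy

theorem ap_refl {y : Ω} (h : y ≠ 0) : Ap A y y := by
  unfold Ap
  rw [sub_self, map_zero]
  exact A.pos h

/-- `y` is close to `β τ ^ n` -/
def Mn (k : Type) {Ω : Type} [Field k] [Field Ω] [Algebra k Ω] (A : AbsoluteValue Ω ℝ)
    (τ y : Ω) : Prop := ∃ (β : k) (n : ℕ), β ≠ 0 ∧ Ap A y (algebraMap k Ω β * τ ^ n)

theorem mn_mul (na : IsNonarchimedean A) {τ y z : Ω} (h1 : Mn k A τ y) (h2 : Mn k A τ z) :
    Mn k A τ (y * z) := by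
  obtain ⟨β, n, hβ, h1⟩ := h1
  obtain ⟨γ, m, hγ, h2⟩ := h2
  refine ⟨β * γ, n + m, mul_ne_zero hβ hγ, ?_⟩
  have h3 := ap_mul na h1 h2
  rwa [show algebraMap k Ω β * τ ^ n * (algebraMap k Ω γ * τ ^ m) =
    algebraMap k Ω (β * γ) * τ ^ (n + m) by rw [map_mul]; ring] at h3

theorem mn_prod (na : IsNonarchimedean A) {τ t : Ω} (l : Multiset k)
    (h : ∀ s ∈ l, Mn k A τ (t - algebraMap k Ω s)) :
    Mn k A τ (l.map fun s => t - algebraMap k Ω s).prod := by
  induction l using Multiset.induction_on with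
  | empty =>
    refine ⟨1, 0, one_ne_zero, ?_⟩
    rw [Multiset.map_zero, Multiset.prod_zero, map_one, pow_zero, mul_one]
    exact ap_refl one_ne_zero
  | cons a l ih =>
    rw [Multiset.map_cons, Multiset.prod_cons]
    exact mn_mul na (h a (Multiset.mem_cons_self a l))
      (ih fun s hs => h s (Multiset.mem_cons_of_mem hs))

theorem mn_poly [IsAlgClosed k] (na : IsNonarchimedean A) {τ t : Ω} (P : k[X]) (hP : P ≠ 0)
    (h : ∀ s ∈ P.roots, Mn k A τ (t - algebraMap k Ω s)) : Mn k A τ (aeval t P) := by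
  have h1 := (IsAlgClosed.splits P).eq_prod_roots
  have h2 : aeval t P = algebraMap k Ω P.leadingCoeff *
      (P.roots.map fun s => t - algebraMap k Ω s).prod := by
    conv_lhs => rw [h1]
    rw [map_mul, aeval_C, map_multiset_prod, Multiset.map_map]
    congr 3
    funext s
    simp
  rw [h2]
  refine mn_mul na ⟨P.leadingCoeff, 0, leadingCoeff_ne_zero.2 hP, ?_⟩ (mn_prod na _ h)
  rw [pow_zero, mul_one]
  apply ap_refl
  rw [Ne, map_eq_zero]
  exact leadingCoeff_ne_zero.2 hP

/-- the value is not generic, if both forms are close to a monomial of the same value, unless the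
value of `τ` is the value of a number of `k` -/
theorem core [IsAlgClosed k] {ab : AbsoluteValue k ℝ} (ext : ∀ c : k, A (algebraMap k Ω c) = ab c)
    (na : IsNonarchimedean A) {τ a b : Ω} (hτ : τ ≠ 0) (ha : Mn k A τ a) (hb : Mn k A τ b)
    (hg : Gen ab A (a / b)) : ∃ c : k, c ≠ 0 ∧ A (algebraMap k Ω c) = A τ := by
  obtain ⟨α, i, hα, h1⟩ := ha
  obtain ⟨β, j, hβ, h2⟩ := hb
  have ha0 := ap_ne h1
  have hb0 := ap_ne h2
  have h3 := ap_abs na h1
  have h4 := ap_abs na h2
  have hab : A a = A b := by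
    have h5 := hg 0 (by rw [map_zero]; exact zero_le_one)
    rw [map_zero, sub_zero, map_div₀, div_eq_one_iff_eq (A.pos hb0).ne'] at h5
    exact h5
  have hαβ : A (algebraMap k Ω α) * A τ ^ i = A (algebraMap k Ω β) * A τ ^ j := by
    rw [← map_pow, ← map_mul, h3, ← map_pow, ← map_mul, h4, hab]
  have hτ0 : 0 < A τ := A.pos hτ
  have hα0 : 0 < A (algebraMap k Ω α) := A.pos (by rwa [Ne, map_eq_zero])
  have hβ0 : 0 < A (algebraMap k Ω β) := A.pos (by rwa [Ne, map_eq_zero])
  have root : ∀ (n : ℕ) (γ : k), 1 ≤ n → γ ≠ 0 → A (algebraMap k Ω γ) = A τ ^ n →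
      ∃ c : k, c ≠ 0 ∧ A (algebraMap k Ω c) = A τ := by
    intro n γ hn hγ h
    obtain ⟨c, hc⟩ := IsAlgClosed.exists_pow_nat_eq γ (by omega : 0 < n)
    have hc0 : c ≠ 0 := by
      rintro rfl
      rw [zero_pow (by omega)] at hc
      exact hγ hc.symm
    refine ⟨c, hc0, ?_⟩
    rw [← hc, map_pow, map_pow] at h
    exact (pow_left_inj₀ (A.nonneg _) hτ0.le (by omega)).1 h
  rcases lt_trichotomy i j with hij | hij | hij
  · obtain ⟨n, rfl⟩ := Nat.exists_eq_add_of_lt hij
    refine root (n + 1) (α / β) (by omega) (div_ne_zero hα hβ) ?_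
    rw [map_div₀, map_div₀, div_eq_iff hβ0.ne']
    have h5 : A τ ^ i ≠ 0 := (pow_pos hτ0 i).ne'
    apply mul_right_cancel₀ h5
    rw [hαβ]
    ring
  · subst hij
    exfalso
    have h5 : A (algebraMap k Ω α) = A (algebraMap k Ω β) :=
      mul_right_cancel₀ (pow_pos hτ0 i).ne' hαβ
    have h6 : ab (α / β) = 1 := by
      rw [← ext, map_div₀, map_div₀, h5, div_self hβ0.ne']
    have h7 := hg (α / β) h6.le
    have h8 : a / b - algebraMap k Ω (α / β) =
        ((a - algebraMap k Ω α * τ ^ i) - algebraMap k Ω (α / β) *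
          (b - algebraMap k Ω β * τ ^ i)) / b := by
      rw [map_div₀]
      have : algebraMap k Ω β ≠ 0 := by rwa [Ne, map_eq_zero]
      field_simp
      ring
    rw [h8, map_div₀, div_eq_one_iff_eq (A.pos hb0).ne'] at h7
    have h9 := sub_le na (a - algebraMap k Ω α * τ ^ i) (algebraMap k Ω (α / β) *
      (b - algebraMap k Ω β * τ ^ i))
    rw [map_mul A (algebraMap k Ω (α / β)), ext (α / β), h6, one_mul, h7] at h9
    have h10 : A (a - algebraMap k Ω α * τ ^ i) < A b := hab ▸ h1
    exact absurd h9 (not_le.2 (max_lt h10 h2))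
  · obtain ⟨n, rfl⟩ := Nat.exists_eq_add_of_lt hij
    refine root (n + 1) (β / α) (by omega) (div_ne_zero hβ hα) ?_
    rw [map_div₀, map_div₀, div_eq_iff hα0.ne']
    have h5 : A τ ^ j ≠ 0 := (pow_pos hτ0 j).ne'
    apply mul_right_cancel₀ h5
    rw [← hαβ]
    ring

end Pool.DynLehmer.UN.Orb.N32

namespace Pool.DynLehmer.UN.Orb
open MvPolynomial Pool.DynLehmer Pool.DynLehmer.GS N32

/-- Row NRML. -/
theorem nrml : NrmlStatement := by
  intro k Ω _ _ _ _ _ ab A _ hBig m R hm hR t ht hg
  have na : IsNonarchimedean A := hBig.na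
  have ext := hBig.ext
  set P : Polynomial k := aeval ![Polynomial.X, 1] (R 0) with hP
  set Q : Polynomial k := aeval ![Polynomial.X, 1] (R 1) with hQ
  have hval : ∀ i, Polynomial.aeval t (aeval ![Polynomial.X, 1] (R i) : Polynomial k) =
      aeval ![t, 1] (R i) := by
    intro i
    have h3 : (Polynomial.aeval t).comp (aeval (![Polynomial.X, 1] : Fin 2 → Polynomial k)) =
        (aeval ![t, 1] : MvPolynomial (Fin 2) k →ₐ[k] Ω) := by
      refine MvPolynomial.algHom_ext fun i => ?_
      rw [aeval_X]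
      show Polynomial.aeval t (aeval (![Polynomial.X, 1] : Fin 2 → Polynomial k) (X i)) = _
      rw [aeval_X]
      fin_cases i
      · exact Polynomial.aeval_X t
      · exact map_one _
    exact DFunLike.congr_fun h3 (R i)
  have hfr : fr R t = Polynomial.aeval t P / Polynomial.aeval t Q := by
    unfold fr
    rw [hP, hQ, hval, hval]
  have hx1 : A (fr R t) = 1 := by
    have h := hg 0 (by rw [map_zero]; exact zero_le_one)
    rwa [map_zero, sub_zero] at h
  have hx0 : fr R t ≠ 0 := by
    intro h0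
    rw [h0, map_zero] at hx1
    exact zero_ne_one hx1
  have hP0 : P ≠ 0 := by
    intro h0
    apply hx0
    rw [hfr, h0, map_zero, zero_div]
  have hQ0 : Q ≠ 0 := by
    intro h0
    apply hx0
    rw [hfr, h0, map_zero, div_zero]
  rw [hfr] at hg
  -- the closest root
  obtain ⟨a, ha⟩ : ∃ a : k, ∀ s, s ∈ P.roots ∨ s ∈ Q.roots →
      A (t - algebraMap k Ω a) ≤ A (t - algebraMap k Ω s) := by
    classical
    by_cases hS : (P.roots + Q.roots).toFinset.Nonempty
    · obtain ⟨a, -, ha⟩ := (P.roots + Q.roots).toFinset.exists_min_image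
        (fun s => A (t - algebraMap k Ω s)) hS
      refine ⟨a, fun s hs => ha s ?_⟩
      rw [Multiset.mem_toFinset, Multiset.mem_add]
      exact hs
    · refine ⟨0, fun s hs => ?_⟩
      exfalso
      apply hS
      refine ⟨s, ?_⟩
      rw [Multiset.mem_toFinset, Multiset.mem_add]
      exact hs
  have htk : ∀ c : k, t - algebraMap k Ω c ≠ 0 := by
    intro c h0
    rw [sub_eq_zero] at h0
    exact ht (h0 ▸ isAlgebraic_algebraMap c)
  -- the radius
  obtain ⟨c₁, hc₁, hρ⟩ : ∃ c : k, c ≠ 0 ∧ A (algebraMap k Ω c) = A (t - algebraMap k Ω a) := by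
    by_contra hno
    have key : ∀ s : k, Mn k A (t - algebraMap k Ω a) (t - algebraMap k Ω s) := by
      intro s
      by_cases hs : s = a
      · subst hs
        refine ⟨1, 1, one_ne_zero, ?_⟩
        rw [map_one, one_mul, pow_one]
        exact ap_refl (htk s)
      · have hsa : a - s ≠ 0 := sub_ne_zero.2 (Ne.symm hs)
        have h1 : A (algebraMap k Ω (a - s)) ≠ A (t - algebraMap k Ω a) := fun h =>
          hno ⟨a - s, hsa, h⟩
        rcases lt_or_gt_of_ne h1 with h2 | h2
        · refine ⟨1, 1, one_ne_zero, ?_⟩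
          rw [map_one, one_mul, pow_one]
          -- `t - s` is close to `t - a`
          have h3 : Ap A (t - algebraMap k Ω a) (t - algebraMap k Ω s) := by
            unfold Ap
            rw [show t - algebraMap k Ω a - (t - algebraMap k Ω s) =
              -(algebraMap k Ω (a - s)) by rw [map_sub]; ring, A.map_neg]
            exact h2
          unfold Ap
          rw [ap_abs na h3, show t - algebraMap k Ω s - (t - algebraMap k Ω a) =
              algebraMap k Ω (a - s) by rw [map_sub]; ring]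
          exact h2
        · refine ⟨a - s, 0, hsa, ?_⟩
          rw [pow_zero, mul_one]
          have h3 : Ap A (algebraMap k Ω (a - s)) (t - algebraMap k Ω s) := by
            unfold Ap
            rw [show algebraMap k Ω (a - s) - (t - algebraMap k Ω s) =
              -(t - algebraMap k Ω a) by rw [map_sub]; ring, A.map_neg]
            exact h2
          unfold Ap
          rw [ap_abs na h3, show t - algebraMap k Ω s - algebraMap k Ω (a - s) =
              t - algebraMap k Ω a by rw [map_sub]; ring]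
          exact h2
    exact hno (core ext na (htk a) (mn_poly na P hP0 fun s _ => key s)
      (mn_poly na Q hQ0 fun s _ => key s) hg)
  have hc₁' : algebraMap k Ω c₁ ≠ 0 := by rwa [Ne, map_eq_zero]
  have hc₁0 : 0 < A (algebraMap k Ω c₁) := A.pos hc₁'
  refine ⟨!![c₁, a; 0, 1], (t - algebraMap k Ω a) / algebraMap k Ω c₁, ?_, ?_, ?_⟩
  · rw [Matrix.det_fin_two_of]
    simpa using hc₁
  · -- generic
    intro c hc
    by_contra hne
    have h1 : A ((t - algebraMap k Ω a) / algebraMap k Ω c₁ - algebraMap k Ω c) ≤ 1 := by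
      refine (sub_le na _ _).trans (max_le ?_ ?_)
      · rw [map_div₀, hρ, div_self]
        rw [← hρ]
        exact hc₁0.ne'
      · rw [ext]
        exact hc
    have h2 := lt_of_le_of_ne h1 hne
    have h3 : A (t - algebraMap k Ω (a + c * c₁)) < A (t - algebraMap k Ω a) := by
      have h4 : t - algebraMap k Ω (a + c * c₁) = algebraMap k Ω c₁ *
          ((t - algebraMap k Ω a) / algebraMap k Ω c₁ - algebraMap k Ω c) := by
        rw [map_add, map_mul]
        field_simp
        ring
      rw [h4, map_mul, ← hρ]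
      calc A (algebraMap k Ω c₁) * _ < A (algebraMap k Ω c₁) * 1 :=
            mul_lt_mul_of_pos_left h2 hc₁0
        _ = _ := mul_one _
    have key : ∀ s : k, s ∈ P.roots ∨ s ∈ Q.roots → Mn k A 1 (t - algebraMap k Ω s) := by
      intro s hs
      have h4 : Ap A (t - algebraMap k Ω s) (algebraMap k Ω (a + c * c₁ - s)) := by
        unfold Ap
        rw [show t - algebraMap k Ω s - algebraMap k Ω (a + c * c₁ - s) =
          t - algebraMap k Ω (a + c * c₁) by rw [map_sub]; ring]
        exact h3.trans_le (ha s hs)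
      refine ⟨a + c * c₁ - s, 0, ?_, ?_⟩
      · intro h0
        have h5 := ap_abs na h4
        rw [h0, map_zero, map_zero] at h5
        exact (A.pos (htk s)).ne h5
      · rw [pow_zero, mul_one]
        exact h4
    -- contradiction
    obtain ⟨α, i, hα, e1⟩ := mn_poly na P hP0 fun s hs => key s (Or.inl hs)
    obtain ⟨β, j, hβ, e2⟩ := mn_poly na Q hQ0 fun s hs => key s (Or.inr hs)
    rw [one_pow] at e1 e2
    have ha1 : Ap A (Polynomial.aeval t P) (algebraMap k Ω α * (algebraMap k Ω 1) ^ 0) := by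
      rw [pow_zero]; exact e1
    have hb0 := ap_ne e2
    have hab : A (Polynomial.aeval t P) = A (Polynomial.aeval t Q) := by
      have h5 := hg 0 (by rw [map_zero]; exact zero_le_one)
      rw [map_zero, sub_zero, map_div₀, div_eq_one_iff_eq (A.pos hb0).ne'] at h5
      exact h5
    rw [mul_one] at e1 e2
    have h5 : A (algebraMap k Ω α) = A (algebraMap k Ω β) := by
      rw [ap_abs na e1, ap_abs na e2, hab]
    have hβ0 : 0 < A (algebraMap k Ω β) := A.pos (by rwa [Ne, map_eq_zero])
    have h6 : ab (α / β) = 1 := by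
      rw [← ext, map_div₀, map_div₀, h5, div_self hβ0.ne']
    have h7 := hg (α / β) h6.le
    have h8 : Polynomial.aeval t P / Polynomial.aeval t Q - algebraMap k Ω (α / β) =
        ((Polynomial.aeval t P - algebraMap k Ω α) - algebraMap k Ω (α / β) *
          (Polynomial.aeval t Q - algebraMap k Ω β)) / Polynomial.aeval t Q := by
      rw [map_div₀]
      have : algebraMap k Ω β ≠ 0 := by rwa [Ne, map_eq_zero]
      field_simp
      ring
    rw [h8, map_div₀, div_eq_one_iff_eq (A.pos hb0).ne'] at h7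
    have h9 := sub_le na (Polynomial.aeval t P - algebraMap k Ω α) (algebraMap k Ω (α / β) *
      (Polynomial.aeval t Q - algebraMap k Ω β))
    rw [map_mul A (algebraMap k Ω (α / β)), ext (α / β), h6, one_mul, h7] at h9
    have h10 : A (Polynomial.aeval t P - algebraMap k Ω α) < A (Polynomial.aeval t Q) := hab ▸ e1
    exact absurd h9 (not_le.2 (max_lt h10 e2))
  · unfold mb
    simp only [Matrix.of_apply, Matrix.cons_val', Matrix.cons_val_zero, Matrix.cons_val_one,
      Matrix.cons_val_fin_one, map_zero, zero_mul, map_one, zero_add, div_one]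
    field_simp
    ring

end Pool.DynLehmer.UN.Orb

/-! ROW TYG (helper85): a map with purely inseparable good reduction and the generic points. -/

namespace Pool.DynLehmer.UN.Tyg85
open MvPolynomial Pool.DynLehmer Pool.DynLehmer.SB Pool.DynLehmer.SP
  Pool.DynLehmer.GS Pool.DynLehmer.LP Pool.DynLehmer.LW Pool.DynLehmer.UN Pool.DynLehmer.UN.Orb

variable {k Ω : Type} [Field k] [Field Ω] [Algebra k Ω] {ab : AbsoluteValue k ℝ}
  {A : AbsoluteValue Ω ℝ}

/-- the forms over the big field -/
noncomputable def fm (Ω : Type) [Field Ω] [Algebra k Ω] (F : Fin 2 → MvPolynomial (Fin 2) k) :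
    Fin 2 → MvPolynomial (Fin 2) Ω := fun i => map (algebraMap k Ω) (F i)

/-- a vector over `k` in the big field -/
def cv (Ω : Type) [Field Ω] [Algebra k Ω] (r : Fin 2 → k) : Fin 2 → Ω :=
  fun i => algebraMap k Ω (r i)

theorem gAct_fm (F : Fin 2 → MvPolynomial (Fin 2) k) (u : Fin 2 → Ω) :
    gAct (fm Ω F) Ω u = gAct F Ω u := by
  funext i
  show aeval u (map (algebraMap k Ω) (F i)) = aeval u (F i)
  rw [aeval_map_algebraMap]

theorem gAct_cv (F : Fin 2 → MvPolynomial (Fin 2) k) (r : Fin 2 → k) :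
    gAct F Ω (cv Ω r) = cv Ω (gAct F k r) := by
  funext i
  show aeval (fun j => algebraMap k Ω (r j)) (F i) = algebraMap k Ω (aeval r (F i))
  exact (aeval_algebraMap_apply Ω r (F i))

theorem ty_fm (hext : ∀ c : k, A (algebraMap k Ω c) = ab c) {d : ℕ} {L : ℝ}
    {F : Fin 2 → MvPolynomial (Fin 2) k} (h : RV.Ty ab d L F) : RV.Ty A d L (fm Ω F) where
  hom i := (h.hom i).map _
  int i t := by
    rw [fm, coeff_map, hext]
    exact h.int i t
  sm i t ht := by
    rw [fm, coeff_map, hext]
    exact h.sm i t ht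
  det := by
    have h1 : (Matrix.of fun i j => coeff (Finsupp.single j d) (fm Ω F i)) =
        (algebraMap k Ω).mapMatrix (Matrix.of fun i j => coeff (Finsupp.single j d) (F i)) := by
      ext i j
      simp [fm, coeff_map]
    rw [h1, ← RingHom.map_det, hext]
    exact h.det

theorem nm_cv (hext : ∀ c : k, A (algebraMap k Ω c) = ab c) (r : Fin 2 → k) :
    RV.nm A (cv Ω r) = RV.nm ab r := by
  show max (A (algebraMap k Ω (r 0))) (A (algebraMap k Ω (r 1))) = _
  rw [hext, hext, RV.nm]

/-- generic vectors -/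
def GV (ab : AbsoluteValue k ℝ) (A : AbsoluteValue Ω ℝ) (v : Fin 2 → Ω) : Prop :=
  ∀ r : Fin 2 → k, RV.nm ab r = 1 → RV.ds A v (cv Ω r) = RV.nm A v

theorem nm_pos_one {v : Fin 2 → Ω} (hv : v ≠ 0) : 0 < RV.nm A v := RV.nm_ne hv

theorem gen_abs {y : Ω} (hy : Gen ab A y) : A y = 1 := by
  have h := hy 0 (by simp)
  rwa [map_zero, sub_zero] at h

theorem gen_lin (hna : IsNonarchimedean A) (hext : ∀ c : k, A (algebraMap k Ω c) = ab c)
    {y : Ω} (hy : Gen ab A y) (r : Fin 2 → k) (hr : RV.nm ab r = 1) :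
    A (y * algebraMap k Ω (r 1) - algebraMap k Ω (r 0)) = 1 := by
  have hy1 := gen_abs hy
  have h0 : ab (r 0) ≤ 1 := RV.nm_le hr 0
  have h1 : ab (r 1) ≤ 1 := RV.nm_le hr 1
  rcases h1.lt_or_eq with h | h
  · have h0' : ab (r 0) = 1 := by
      apply le_antisymm h0
      by_contra hlt
      push Not at hlt
      rw [RV.nm] at hr
      exact absurd hr (max_lt hlt h).ne
    have h2 : A (algebraMap k Ω (r 0) - y * algebraMap k Ω (r 1)) = 1 := by
      have h3 : A ((algebraMap k Ω (r 0) - y * algebraMap k Ω (r 1)) - algebraMap k Ω (r 0)) <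
          A (algebraMap k Ω (r 0)) := by
        have e : (algebraMap k Ω (r 0) - y * algebraMap k Ω (r 1)) - algebraMap k Ω (r 0) =
            -(y * algebraMap k Ω (r 1)) := by ring
        rw [e, A.map_neg, map_mul, hy1, one_mul, hext, hext, h0']
        exact h
      rw [RV.na_eq hna h3, hext, h0']
    rw [← A.map_neg, neg_sub]
    exact h2
  · have hne : r 1 ≠ 0 := by
      intro h2
      rw [h2, map_zero] at h
      exact zero_ne_one h
    have hne' : algebraMap k Ω (r 1) ≠ 0 := by
      rw [Ne, map_eq_zero]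
      exact hne
    have e : y * algebraMap k Ω (r 1) - algebraMap k Ω (r 0) =
        algebraMap k Ω (r 1) * (y - algebraMap k Ω (r 0 / r 1)) := by
      rw [map_div₀]
      field_simp
    rw [e, map_mul, hext, h, one_mul]
    apply hy
    rw [map_div₀, h, div_one]
    exact h0

theorem gv_iff (hna : IsNonarchimedean A) (hext : ∀ c : k, A (algebraMap k Ω c) = ab c)
    {v : Fin 2 → Ω} (hv : v ≠ 0) : GV ab A v ↔ Gen ab A (v 0 / v 1) := by
  have hpos := RV.nm_ne (ab := A) hv
  constructor
  · intro h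
    have h1 : A (v 1) = RV.nm A v := by
      have h2 := h (![1, 0] : Fin 2 → k) (by simp [RV.nm])
      have e : RV.ds A v (cv Ω (![1, 0] : Fin 2 → k)) = A (v 1) := by
        simp [RV.ds, cv]
      rw [← e, h2]
    have hv1 : v 1 ≠ 0 := by
      intro h2
      rw [h2, map_zero] at h1
      exact absurd h1 hpos.ne
    intro c hc
    have h2 := h ![c, 1] (by simp [RV.nm, hc])
    have e : RV.ds A v (cv Ω ![c, 1]) = A (v 1) * A (v 0 / v 1 - algebraMap k Ω c) := by
      rw [← map_mul, RV.ds]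
      congr 1
      simp only [cv, Matrix.cons_val_zero, Matrix.cons_val_one, map_one]
      field_simp
    rw [e, h1] at h2
    exact mul_left_cancel₀ hpos.ne' (by rw [h2, mul_one])
  · intro h
    have hy1 := gen_abs h
    have hv1 : v 1 ≠ 0 := by
      intro h2
      rw [h2, div_zero, map_zero] at hy1
      exact zero_ne_one hy1
    have h1 : A (v 0) = A (v 1) := by
      rw [map_div₀, div_eq_one_iff_eq (A.ne_zero hv1)] at hy1
      exact hy1
    have hnm : RV.nm A v = A (v 1) := by
      rw [RV.nm, h1, max_self]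
    intro r hr
    have e : v 0 * cv Ω r 1 - v 1 * cv Ω r 0 =
        v 1 * (v 0 / v 1 * algebraMap k Ω (r 1) - algebraMap k Ω (r 0)) := by
      simp only [cv]
      field_simp
    rw [RV.ds, e, map_mul, gen_lin hna hext h r hr, mul_one, hnm]

theorem nm_smul' (c : Ω) (u : Fin 2 → Ω) : RV.nm A (c • u) = A c * RV.nm A u := RV.nm_smul c u

theorem ds_smul' (c : Ω) (u u' : Fin 2 → Ω) : RV.ds A (c • u) u' = A c * RV.ds A u u' := by
  rw [RV.ds, RV.ds, ← map_mul]
  congr 1
  simp only [Pi.smul_apply, smul_eq_mul]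
  ring

theorem gv_smul {c : Ω} (hc : c ≠ 0) (u : Fin 2 → Ω) : GV ab A (c • u) ↔ GV ab A u := by
  have h0 : A c ≠ 0 := A.ne_zero hc
  constructor
  · intro h r hr
    have h1 := h r hr
    rw [ds_smul', nm_smul'] at h1
    exact mul_left_cancel₀ h0 h1
  · intro h r hr
    rw [ds_smul', nm_smul', h r hr]

/-- a point over a point of norm one -/
theorem pre_one [IsAlgClosed k] (hna : IsNonarchimedean ab) {q : ℕ} (hq : 1 ≤ q) {L : ℝ}
    (hL : 0 ≤ L) (hL1 : L < 1) {F : Fin 2 → MvPolynomial (Fin 2) k} (hF : RV.Ty ab q L F)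
    {U : Fin 2 → k} (hU : RV.nm ab U = 1) :
    ∃ (r : Fin 2 → k) (l : k), RV.nm ab r = 1 ∧ ab l = 1 ∧ gAct F k r = l • U := by
  have hU0 : U ≠ 0 := by
    intro h
    rw [h] at hU
    simp [RV.nm] at hU
  have h1 : (C (U 1) * F 0 - C (U 0) * F 1).IsHomogeneous q := by
    have h2 := (isHomogeneous_C (Fin 2) (U 1)).mul (hF.hom 0)
    have h3 := (isHomogeneous_C (Fin 2) (U 0)).mul (hF.hom 1)
    rw [zero_add] at h2 h3
    exact h2.sub h3
  obtain ⟨P, hP, h⟩ := J19.form_zero (N := k) q hq _ h1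
  obtain ⟨c, hc, hc1⟩ := RV.H24.exists_scale (ab := ab) hP
  have hnF : RV.nm ab (gAct F k (c • P)) = 1 := by
    rw [RV.nm_act hna hq hL hL1 hF, hc1, one_pow]
  have hF0 : gAct F k (c • P) ≠ 0 := by
    intro h2
    rw [h2] at hnF
    simp [RV.nm] at hnF
  have hpr : Prl (gAct F k (c • P)) U := by
    rw [Bas.prl_iff_det hF0 hU0]
    have h2 : gAct F k (c • P) = c ^ q • gAct F k P := by
      funext i
      exact RV.hom_smul (hF.hom i) c P
    have h3 : aeval P (C (U 1) * F 0 - C (U 0) * F 1) =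
        U 1 * gAct F k P 0 - U 0 * gAct F k P 1 := by
      rw [map_sub, map_mul, map_mul, algHom_C, algHom_C]
      rfl
    rw [h3] at h
    rw [h2]
    simp only [Pi.smul_apply, smul_eq_mul]
    linear_combination c ^ q * h
  obtain ⟨l, hl, hlU⟩ := hpr
  refine ⟨c • P, l, hc1, ?_, hlU⟩
  rw [hlU, nm_smul', hU, mul_one] at hnF
  exact hnF

/-- the generic vectors are preserved -/
theorem gv_act [IsAlgClosed k] (hna : IsNonarchimedean ab) (hnA : IsNonarchimedean A)
    (hext : ∀ c : k, A (algebraMap k Ω c) = ab c) {p s : ℕ} (hp : p.Prime) {L : ℝ}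
    (hpL : ab (p : k) ≤ L) (hL1 : L < 1) {F : Fin 2 → MvPolynomial (Fin 2) k}
    (hF : RV.Ty ab (p ^ s) L F) {u : Fin 2 → Ω} (hu : u ≠ 0) :
    GV ab A (gAct F Ω u) ↔ GV ab A u := by
  have hL : 0 ≤ L := (ab.nonneg _).trans hpL
  have hd : 1 ≤ p ^ s := Nat.one_le_pow _ _ hp.pos
  have hpA : A (p : Ω) ≤ L := by
    have h := hext (p : k)
    rw [map_natCast] at h
    rw [h]
    exact hpL
  have hF' := ty_fm (Ω := Ω) hext hF
  obtain ⟨hD1, hD2, hD3⟩ := RV.dist Ω A p s L (fm Ω F) hnA hp hpA hL1 hF'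
  obtain ⟨c, hc, hc1⟩ := RV.H24.exists_scale (ab := A) hu
  have h1 : gAct F Ω (c • u) = c ^ p ^ s • gAct F Ω u := by
    rw [← gAct_fm F (c • u), ← gAct_fm F u]
    funext i
    exact RV.hom_smul (hF'.hom i) c u
  rw [← gv_smul (pow_ne_zero (p ^ s) hc) (gAct F Ω u), ← gv_smul hc u, ← h1]
  set w : Fin 2 → Ω := c • u with hw
  have hnw : RV.nm A (gAct F Ω w) = 1 := by
    rw [← gAct_fm, hD1, hc1, one_pow]
  constructor
  · intro h r hr
    have hr' : RV.nm A (cv Ω r) = 1 := by rw [nm_cv hext, hr]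
    rw [hc1]
    apply le_antisymm (RV.ds_le hnA hc1 hr')
    by_contra hlt
    push Not at hlt
    have h2 := hD2 w (cv Ω r) hc1 hr'
    rw [gAct_fm, gAct_fm, gAct_cv] at h2
    have h3 : RV.nm ab (gAct F k r) = 1 := by
      rw [RV.nm_act hna hd hL hL1 hF, hr, one_pow]
    rw [h _ h3, hnw] at h2
    have h4 : max (RV.ds A w (cv Ω r) ^ p ^ s) (L * RV.ds A w (cv Ω r)) < 1 := by
      apply max_lt
      · exact pow_lt_one₀ (RV.ds_nonneg _ _) hlt (by omega)
      · exact mul_lt_one_of_nonneg_of_lt_one_left hL hL1 hlt.le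
    exact absurd h2 (not_le.2 h4)
  · intro h r hr
    obtain ⟨r', l, hr', hl, hlr⟩ := pre_one hna hd hL hL1 hF hr
    have h2 : RV.ds A w (cv Ω r') = 1 := by rw [h r' hr', hc1]
    have h3 := hD3 w (cv Ω r') hc1 (by rw [nm_cv hext, hr']) (by
      rw [h2, one_pow, mul_one]
      exact hL1)
    rw [gAct_fm, gAct_fm, gAct_cv, hlr, h2, one_pow] at h3
    rw [hnw, ← h3]
    have e : RV.ds A (gAct F Ω w) (cv Ω (l • r)) = ab l * RV.ds A (gAct F Ω w) (cv Ω r) := by
      rw [← hext l, RV.ds, RV.ds, ← map_mul]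
      congr 1
      simp only [cv, Pi.smul_apply, smul_eq_mul, map_mul]
      ring
    rw [e, hl, one_mul]

/-- Row TYG. -/
theorem tyg : TygStatement := by
  intro k Ω _ _ _ _ _ ab A hna hB p s L F hp hs hpL hL1 hF
  have hL : 0 ≤ L := (ab.nonneg _).trans hpL
  have hd : 1 ≤ p ^ s := Nat.one_le_pow _ _ hp.pos
  have hpA : A (p : Ω) ≤ L := by
    have h := hB.ext (p : k)
    rw [map_natCast] at h
    rw [h]
    exact hpL
  have hF' := ty_fm (Ω := Ω) hB.ext hF
  obtain ⟨hD1, hD2, hD3⟩ := RV.dist Ω A p s L (fm Ω F) hB.na hp hpA hL1 hF'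
  have hvec : ∀ t : Ω, (![t, 1] : Fin 2 → Ω) ≠ 0 := by
    intro t h
    have := congrFun h 1
    simp at this
  have hne : ∀ u : Fin 2 → Ω, u ≠ 0 → gAct F Ω u ≠ 0 := by
    intro u hu h
    have h1 := hD1 u
    rw [gAct_fm, h] at h1
    have h2 := pow_pos (RV.nm_ne (ab := A) hu) (p ^ s)
    rw [← h1] at h2
    simp [RV.nm] at h2
  refine ⟨fun t _ => ?_, fun t t' ht ht' h => ?_⟩
  · have h1 := gv_act (Ω := Ω) (A := A) hna hB.na hB.ext hp hpL hL1 hF (hvec t)
    rw [gv_iff hB.na hB.ext (hvec t), gv_iff hB.na hB.ext (hne _ (hvec t))] at h1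
    have e : (![t, 1] : Fin 2 → Ω) 0 / (![t, 1] : Fin 2 → Ω) 1 = t := by simp
    rw [e] at h1
    exact h1
  · have hn : ∀ y : Ω, Gen ab A y → RV.nm A ![y, 1] = 1 := by
      intro y hy
      have := gen_abs hy
      simp [RV.nm, this]
    have hg : ∀ y : Ω, Gen ab A y → gAct F Ω ![y, 1] 1 ≠ 0 := by
      intro y hy h1
      have h2 := (gv_act (Ω := Ω) (A := A) hna hB.na hB.ext hp hpL hL1 hF (hvec y)).2
        ((gv_iff hB.na hB.ext (hvec y)).2 (by
          have e : (![y, 1] : Fin 2 → Ω) 0 / (![y, 1] : Fin 2 → Ω) 1 = y := by simp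
          rw [e]
          exact hy))
      have h3 := gen_abs ((gv_iff hB.na hB.ext (hne _ (hvec y))).1 h2)
      rw [h1, div_zero, map_zero] at h3
      exact zero_ne_one h3
    have h0 : RV.ds A (gAct F Ω ![t, 1]) (gAct F Ω ![t', 1]) = 0 := by
      have h1 : gAct F Ω ![t, 1] 0 / gAct F Ω ![t, 1] 1 =
          gAct F Ω ![t', 1] 0 / gAct F Ω ![t', 1] 1 := h
      rw [div_eq_div_iff (hg t ht) (hg t' ht')] at h1
      rw [RV.ds, map_eq_zero]
      linear_combination h1
    have hds : RV.ds A ![t, 1] ![t', 1] = A (t - t') := by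
      simp [RV.ds]
    have hle : A (t - t') ≤ 1 := by
      rw [← hds]
      exact RV.ds_le hB.na (hn t ht) (hn t' ht')
    rcases hle.lt_or_eq with h1 | h1
    · exact h1
    · exfalso
      have h2 := hD3 ![t, 1] ![t', 1] (hn t ht) (hn t' ht') (by
        rw [hds, h1, one_pow, mul_one]
        exact hL1)
      rw [gAct_fm, gAct_fm, h0, hds, h1, one_pow] at h2
      exact zero_ne_one h2

end Pool.DynLehmer.UN.Tyg85

set_option linter.unusedSectionVars false

/-!
# An iterate of a semiconjugate map preserves a class of generic points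
-/

namespace Pool.DynLehmer.UN.P28
open MvPolynomial Pool.DynLehmer Pool.DynLehmer.SB Pool.DynLehmer.SP
  Pool.DynLehmer.GS Pool.DynLehmer.LP Pool.DynLehmer.LW Pool.DynLehmer.UN Pool.DynLehmer.UN.Orb
open scoped Classical

variable {k Ω : Type} [Field k] [Field Ω] [Algebra k Ω]

/-- the linear forms of a matrix -/
noncomputable def lin (μ : Matrix (Fin 2) (Fin 2) k) : Fin 2 → MvPolynomial (Fin 2) k :=
  fun i => C (μ i 0) * X 0 + C (μ i 1) * X 1

theorem fr_lin (μ : Matrix (Fin 2) (Fin 2) k) (z : Ω) : fr (lin μ) z = mb μ z := by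
  simp [fr, lin, mb]

theorem gAct_lin {N : Type} [Field N] [Algebra k N] (μ : Matrix (Fin 2) (Fin 2) k)
    (P : Fin 2 → N) (i : Fin 2) : gAct (lin μ) N P i =
      algebraMap k N (μ i 0) * P 0 + algebraMap k N (μ i 1) * P 1 := by
  simp [gAct, lin]

theorem mor_lin {μ : Matrix (Fin 2) (Fin 2) k} (hμ : μ.det ≠ 0) : Mor 1 (lin μ) where
  hom i := ((isHomogeneous_C_mul_X _ _).add (isHomogeneous_C_mul_X _ _))
  ne N _ _ P hP h := by
    have h0 := congrFun h 0
    have h1 := congrFun h 1
    rw [gAct_lin] at h0 h1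
    have hd : algebraMap k N μ.det ≠ 0 := (map_ne_zero _).2 hμ
    rw [Matrix.det_fin_two, map_sub, map_mul, map_mul] at hd
    have e0 : algebraMap k N (μ 0 0) * P 0 + algebraMap k N (μ 0 1) * P 1 = 0 := h0
    have e1 : algebraMap k N (μ 1 0) * P 0 + algebraMap k N (μ 1 1) * P 1 = 0 := h1
    apply hP
    have f0 : (algebraMap k N (μ 0 0) * algebraMap k N (μ 1 1) -
        algebraMap k N (μ 0 1) * algebraMap k N (μ 1 0)) * P 0 = 0 := by
      linear_combination algebraMap k N (μ 1 1) * e0 - algebraMap k N (μ 0 1) * e1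
    have f1 : (algebraMap k N (μ 0 0) * algebraMap k N (μ 1 1) -
        algebraMap k N (μ 0 1) * algebraMap k N (μ 1 0)) * P 1 = 0 := by
      linear_combination algebraMap k N (μ 0 0) * e1 - algebraMap k N (μ 1 0) * e0
    funext i
    fin_cases i
    · exact (mul_eq_zero.1 f0).resolve_left hd
    · exact (mul_eq_zero.1 f1).resolve_left hd

theorem trans_mb {μ : Matrix (Fin 2) (Fin 2) k} (hμ : μ.det ≠ 0) {z : Ω}
    (hz : Transcendental k z) : Transcendental k (mb μ z) := by
  rw [← fr_lin]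
  exact Rb.trans_fr (mor_lin hμ) le_rfl hz

theorem mb_den {μ : Matrix (Fin 2) (Fin 2) k} (hμ : μ.det ≠ 0) {z : Ω}
    (hz : Transcendental k z) :
    algebraMap k Ω (μ 1 0) * z + algebraMap k Ω (μ 1 1) ≠ 0 := by
  have h := Rb.den_ne (mor_lin hμ) le_rfl hz
  simpa [lin] using h

theorem mb_mul (ν : Matrix (Fin 2) (Fin 2) k) {μ : Matrix (Fin 2) (Fin 2) k} (hν : ν.det ≠ 0)
    (hμ : μ.det ≠ 0) {z : Ω} (hz : Transcendental k z) : mb ν (mb μ z) = mb (ν * μ) z := by
  have h1 := mb_den hμ hz
  have e : ∀ i, algebraMap k Ω (ν i 0) * mb μ z + algebraMap k Ω (ν i 1) =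
      (algebraMap k Ω ((ν * μ) i 0) * z + algebraMap k Ω ((ν * μ) i 1)) /
        (algebraMap k Ω (μ 1 0) * z + algebraMap k Ω (μ 1 1)) := by
    intro i
    rw [eq_div_iff h1, Matrix.mul_apply, Matrix.mul_apply, Fin.sum_univ_two, Fin.sum_univ_two,
      map_add, map_add, map_mul, map_mul, map_mul, map_mul, add_mul, mul_assoc]
    unfold mb
    rw [div_mul_cancel₀ _ h1]
    ring
  rw [show mb ν (mb μ z) = (algebraMap k Ω (ν 0 0) * mb μ z + algebraMap k Ω (ν 0 1)) /
    (algebraMap k Ω (ν 1 0) * mb μ z + algebraMap k Ω (ν 1 1)) from rfl, e, e,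
    div_div_div_cancel_right₀ h1]
  rfl

theorem det_adj {μ : Matrix (Fin 2) (Fin 2) k} (hμ : μ.det ≠ 0) : μ.adjugate.det ≠ 0 := by
  rw [Matrix.det_adjugate]
  simpa using hμ

theorem mb_adj {μ : Matrix (Fin 2) (Fin 2) k} (hμ : μ.det ≠ 0) {z : Ω}
    (hz : Transcendental k z) : mb μ.adjugate (mb μ z) = z := by
  rw [mb_mul _ (det_adj hμ) hμ hz, Matrix.adjugate_mul]
  have hd : algebraMap k Ω μ.det ≠ 0 := (map_ne_zero _).2 hμ
  unfold mb
  simp
  field_simp

theorem mb_adj' {μ : Matrix (Fin 2) (Fin 2) k} (hμ : μ.det ≠ 0) {z : Ω}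
    (hz : Transcendental k z) : mb μ (mb μ.adjugate z) = z := by
  rw [mb_mul _ hμ (det_adj hμ) hz, Matrix.mul_adjugate]
  have hd : algebraMap k Ω μ.det ≠ 0 := (map_ne_zero _).2 hμ
  unfold mb
  simp
  field_simp

/-- the semiconjugacy at transcendental points -/
theorem semi_fr [IsAlgClosed k] {q M m d : ℕ} {F θ B : Fin 2 → MvPolynomial (Fin 2) k}
    (hq : 1 ≤ q) (hm : 1 ≤ m) (hd : 1 ≤ d) (hF : Mor q F) (hθ : Mor m θ) (hB : Mor d B)
    (h : Semi F M θ B) {t : Ω} (ht : Transcendental k t) :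
    fr θ (fr B t) = (fr F)^[M] (fr θ t) := by
  have hinf : Infinite k := IsAlgClosed.instInfinite
  have h1 : (bind₁ B (θ 0)) * (bind₁ θ (itF F M 1)) - (bind₁ B (θ 1)) * (bind₁ θ (itF F M 0)) =
      (0 : MvPolynomial (Fin 2) k) := by
    apply MvPolynomial.funext
    intro P
    rw [map_zero]
    show (aeval P) ((bind₁ B (θ 0)) * (bind₁ θ (itF F M 1)) -
      (bind₁ B (θ 1)) * (bind₁ θ (itF F M 0))) = 0
    by_cases hP : P = 0
    · subst hP
      rw [map_sub, map_mul, map_mul]
      have h2 : ∀ i, aeval (0 : Fin 2 → k) (bind₁ B (θ i)) = 0 := by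
        intro i
        have h3 := (Ra72.mor_comp hθ hB).hom i
        have h4 : (bind₁ B (θ i)).IsHomogeneous (d * m) := h3
        have h5 := Fqt49.hom_smul h4 (0 : k) (0 : Fin 2 → k)
        rw [zero_pow (by positivity), zero_mul] at h5
        rw [← h5]
        congr 2
        funext j
        simp
      rw [h2, h2]
      ring
    · have h2 := h P hP
      have e1 : ∀ i, aeval P (bind₁ B (θ i)) = gAct θ k (gAct B k P) i := by
        intro i
        rw [aeval_bind₁]
        rfl
      have e2 : ∀ i, aeval P (bind₁ θ (itF F M i)) = ((gAct F k)^[M] (gAct θ k P)) i := by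
        intro i
        rw [← Bas.gAct_itF, aeval_bind₁]
        rfl
      obtain ⟨c, hc, h3⟩ := h2
      rw [map_sub, map_mul, map_mul, e1, e1, e2, e2, h3]
      simp only [Pi.smul_apply, smul_eq_mul]
      ring
  have h2 := congrArg (aeval (![t, 1] : Fin 2 → Ω)) h1
  rw [map_sub, map_mul, map_mul, map_zero, sub_eq_zero] at h2
  rw [← Ra72.fr_comp hθ hB hd hm ht, ← Ra72.fr_itF hF hq M (Rb.trans_fr hθ hm ht),
    ← Ra72.fr_comp (Bas.mor_itF hF M) hθ hm (Nat.one_le_pow _ _ hq) ht]
  have d1 := Rb.den_ne (Ra72.mor_comp hθ hB) (Nat.mul_pos hd hm) ht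
  have d2 := Rb.den_ne (Ra72.mor_comp (Bas.mor_itF hF M) hθ)
    (Nat.mul_pos hm (Nat.one_le_pow _ _ hq)) ht
  unfold fr
  rw [div_eq_div_iff d1 d2, h2]
  ring

/-- the fibre of a rational map over a transcendental point is finite and not empty -/
theorem fibre [IsAlgClosed k] [IsAlgClosed Ω] {m : ℕ} {R : Fin 2 → MvPolynomial (Fin 2) k}
    (hm : 1 ≤ m) (hR : Mor m R) {y : Ω} (hy : Transcendental k y) :
    {t : Ω | Transcendental k t ∧ fr R t = y}.Finite ∧
      ∃ t : Ω, Transcendental k t ∧ fr R t = y := by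
  let P : Polynomial Ω := (R96.dh (R 0)).map (algebraMap k Ω) -
    Polynomial.C y * (R96.dh (R 1)).map (algebraMap k Ω)
  have hev : ∀ t : Ω, P.eval t = aeval ![t, 1] (R 0) - y * aeval ![t, 1] (R 1) := by
    intro t
    rw [R96.aeval_dh, R96.aeval_dh, Polynomial.eval_sub, Polynomial.eval_mul, Polynomial.eval_C,
      Polynomial.eval_map_algebraMap, Polynomial.eval_map_algebraMap]
  have hco : ∀ i, P.coeff i = algebraMap k Ω ((R96.dh (R 0)).coeff i) -
      y * algebraMap k Ω ((R96.dh (R 1)).coeff i) := by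
    intro i
    rw [Polynomial.coeff_sub, Polynomial.coeff_C_mul, Polynomial.coeff_map, Polynomial.coeff_map]
  have hzero : ∀ i, P.coeff i = 0 → (R96.dh (R 0)).coeff i = 0 ∧ (R96.dh (R 1)).coeff i = 0 := by
    intro i hi
    rw [hco] at hi
    by_cases h1 : (R96.dh (R 1)).coeff i = 0
    · rw [h1, map_zero, mul_zero, sub_zero] at hi
      exact ⟨(map_eq_zero _).1 hi, h1⟩
    · exfalso
      apply hy
      have h2 : y = algebraMap k Ω ((R96.dh (R 0)).coeff i / (R96.dh (R 1)).coeff i) := by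
        rw [map_div₀, eq_div_iff ((map_ne_zero _).2 h1)]
        linear_combination -hi
      rw [h2]
      exact isAlgebraic_algebraMap _
  have hdeg : P.degree ≠ 0 ∧ P ≠ 0 := by
    have h1 := R96.natDegree_dh hR
    have h2 : P.coeff m ≠ 0 := by
      intro h3
      obtain ⟨h4, h5⟩ := hzero m h3
      rcases max_choice (R96.dh (R 0)).natDegree (R96.dh (R 1)).natDegree with h6 | h6
      · rw [h1] at h6
        rw [h6] at h4
        have h7 := Polynomial.leadingCoeff_eq_zero.1 h4
        rw [h7, Polynomial.natDegree_zero] at h6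
        omega
      · rw [h1] at h6
        rw [h6] at h5
        have h7 := Polynomial.leadingCoeff_eq_zero.1 h5
        rw [h7, Polynomial.natDegree_zero] at h6
        omega
    refine ⟨fun h3 => h2 ?_, fun h3 => h2 (by rw [h3]; rfl)⟩
    rw [Polynomial.eq_C_of_degree_eq_zero h3, Polynomial.coeff_C, if_neg (by omega)]
  have hden : ∀ t : Ω, Transcendental k t → aeval ![t, 1] (R 1) ≠ 0 := fun t ht =>
    Rb.den_ne hR hm ht
  constructor
  · refine (P.rootSet_finite Ω).subset ?_
    rintro t ⟨ht, h1⟩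
    rw [Polynomial.mem_rootSet_of_ne hdeg.2]
    have h2 : P.eval t = 0 := by
      rw [hev, ← h1, fr, div_mul_cancel₀ _ (hden t ht), sub_self]
    simpa using h2
  · obtain ⟨t, ht⟩ := IsAlgClosed.exists_root P hdeg.1
    have h0 : P.eval t = 0 := ht
    rw [hev] at h0
    have htr : Transcendental k t := by
      intro hal
      by_cases h1 : aeval ![t, 1] (R 1) = 0
      · rw [h1, mul_zero, sub_zero] at h0
        refine hR.ne Ω ![t, 1] (fun h => ?_) ?_
        · exact one_ne_zero (congrFun h 1 : (1 : Ω) = 0)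
        · funext i
          fin_cases i
          · exact h0
          · exact h1
      · apply hy
        have h2 : y = aeval ![t, 1] (R 0) / aeval ![t, 1] (R 1) := by
          rw [eq_div_iff h1]
          linear_combination -h0
        rw [h2, R96.aeval_dh, R96.aeval_dh]
        have h4 : ∀ Q : Polynomial k, IsAlgebraic k (Polynomial.aeval t Q) := fun Q => by
          have h5 := Polynomial.aeval_algebraMap_apply Ω
            (⟨t, hal.isIntegral⟩ : integralClosure k Ω) Q
          have h6 : algebraMap (integralClosure k Ω) Ω ⟨t, hal.isIntegral⟩ = t := rfl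
          rw [h6] at h5
          rw [h5]
          exact (Polynomial.aeval (⟨t, hal.isIntegral⟩ : integralClosure k Ω) Q).2.isAlgebraic
        rw [div_eq_mul_inv]
        exact (h4 _).mul (h4 _).inv
    refine ⟨t, htr, ?_⟩
    rw [fr, div_eq_iff (hden t htr)]
    linear_combination h0

section perm
variable [IsAlgClosed k] [CharZero k] {ab : AbsoluteValue k ℝ} {A : AbsoluteValue Ω ℝ}

/-- the class of `μ` -/
def cls (ab : AbsoluteValue k ℝ) (A : AbsoluteValue Ω ℝ) (μ : Matrix (Fin 2) (Fin 2) k) : Set Ω :=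
  {t | ∃ z, Gen ab A z ∧ t = mb μ z}

/-- the relation -/
def Rl (ab : AbsoluteValue k ℝ) (A : AbsoluteValue Ω ℝ) (t t' : Ω) : Prop :=
  ∃ μ : Matrix (Fin 2) (Fin 2) k, μ.det ≠ 0 ∧ t ∈ cls ab A μ ∧ t' ∈ cls ab A μ

theorem gen_lin (hgenr : GenrStatement) (hna : IsNonarchimedean ab) (hbig : Big k Ω ab A)
    {κ : Matrix (Fin 2) (Fin 2) k} (hκ : κ.det ≠ 0) {x : Ω} (hx : Gen ab A x)
    (h : Gen ab A (mb κ x)) {y : Ω} (hy : Gen ab A y) : Gen ab A (mb κ y) := by
  rw [← fr_lin] at h ⊢
  exact (hgenr k Ω ab A hna hbig 1 (lin κ) le_rfl (mor_lin hκ) x hx h).1 y hy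

theorem cls_sub (hgauss : ∀ x : Ω, Gen ab A x → Transcendental k x) (hgenr : GenrStatement)
    (hna : IsNonarchimedean ab) (hbig : Big k Ω ab A) {μ ν : Matrix (Fin 2) (Fin 2) k}
    (hμ : μ.det ≠ 0) (hν : ν.det ≠ 0) {t : Ω} (h1 : t ∈ cls ab A μ) (h2 : t ∈ cls ab A ν) :
    cls ab A μ ⊆ cls ab A ν := by
  obtain ⟨z, hz, hz'⟩ := h1
  obtain ⟨w, hw, hw'⟩ := h2
  have hκ : (ν.adjugate * μ).det ≠ 0 := by
    rw [Matrix.det_mul]
    exact mul_ne_zero (det_adj hν) hμ
  have h3 : mb (ν.adjugate * μ) z = w := by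
    rw [← mb_mul _ (det_adj hν) hμ (hgauss z hz), ← hz', hw', mb_adj hν (hgauss w hw)]
  rintro _ ⟨y, hy, rfl⟩
  refine ⟨mb (ν.adjugate * μ) y, gen_lin hgenr hna hbig hκ hz (by rw [h3]; exact hw) hy, ?_⟩
  rw [← mb_mul _ (det_adj hν) hμ (hgauss y hy), mb_adj' hν (trans_mb hμ (hgauss y hy))]

theorem perm (hgauss : GaussStatement) (hgenr : GenrStatement) (hnrml : NrmlStatement)
    (htyg : TygStatement) : PermStatement := by
  intro k Ω _ _ _ _ _ ab A hna hbig hex p s M m L F θ B hp hs hM hm hL hL1 hTy hθ hB hsemi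
  have hcl := hbig.closed
  have hgt : ∀ x : Ω, Gen ab A x → Transcendental k x := fun x hx =>
    (hgauss k Ω ab A hna hbig x hx).1
  have hq1 : 1 ≤ p ^ s := Nat.one_le_pow _ _ hp.pos
  have hqM : 1 ≤ (p ^ s) ^ M := Nat.one_le_pow _ _ hq1
  have hF : Mor (p ^ s) F := V24.mor_ty hna hq1 ((ab.nonneg _).trans hL) hL1 hTy
  have hsf : ∀ {t : Ω}, Transcendental k t → fr θ (fr B t) = (fr F)^[M] (fr θ t) := fun ht =>
    semi_fr hq1 hm hqM hF hθ hB hsemi ht
  -- the iterates of F
  have hit : ∀ (n : ℕ) {x : Ω}, Transcendental k x → (Gen ab A ((fr F)^[n] x) ↔ Gen ab A x) := by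
    intro n
    induction n with
    | zero => intro x _; exact Iff.rfl
    | succ n ih =>
      intro x hx
      rw [Function.iterate_succ_apply', (htyg k Ω ab A hna hbig p s L F hp hs hL hL1 hTy).1 _
        (Rb.trans_it hF hq1 hx n), ih hx]
  have hB1 : ∀ {t : Ω}, Transcendental k t → (Gen ab A (fr θ (fr B t)) ↔ Gen ab A (fr θ t)) := by
    intro t ht
    rw [hsf ht, hit M (Rb.trans_fr hθ hm ht)]
  have hBn : ∀ (n : ℕ) {t : Ω}, Transcendental k t →
      (Gen ab A (fr θ ((fr B)^[n] t)) ↔ Gen ab A (fr θ t)) := by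
    intro n
    induction n with
    | zero => intro t _; exact Iff.rfl
    | succ n ih =>
      intro t ht
      rw [Function.iterate_succ_apply', hB1 (Rb.trans_it hB hqM ht n), ih ht]
  -- the set D
  let D : Type := {t : Ω // Transcendental k t ∧ Gen ab A (fr θ t)}
  have hnr : ∀ t : D, ∃ (μ : Matrix (Fin 2) (Fin 2) k), μ.det ≠ 0 ∧ (t : Ω) ∈ cls ab A μ := by
    rintro ⟨t, ht, ht'⟩
    obtain ⟨μ, z, h1, h2, h3⟩ := hnrml k Ω ab A hna hbig m θ hm hθ t ht ht'
    exact ⟨μ, h1, z, h2, h3⟩
  have hcls : ∀ {μ ν : Matrix (Fin 2) (Fin 2) k}, μ.det ≠ 0 → ν.det ≠ 0 → ∀ {t : Ω},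
      t ∈ cls ab A μ → t ∈ cls ab A ν → cls ab A μ ⊆ cls ab A ν := fun h1 h2 _ h3 h4 =>
    cls_sub hgt hgenr hna hbig h1 h2 h3 h4
  let S : Setoid D :=
    { r := fun t t' => Rl ab A (t : Ω) t'
      iseqv :=
        { refl := fun t => by
            obtain ⟨μ, h1, h2⟩ := hnr t
            exact ⟨μ, h1, h2, h2⟩
          symm := by
            rintro t t' ⟨μ, h1, h2, h3⟩
            exact ⟨μ, h1, h3, h2⟩
          trans := by
            rintro t t' t'' ⟨μ, h1, h2, h3⟩ ⟨ν, h4, h5, h6⟩
            exact ⟨ν, h4, hcls h1 h4 h3 h5 h2, h6⟩ } }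
  -- admissibility of a class which meets D
  have hadm : ∀ {μ : Matrix (Fin 2) (Fin 2) k}, μ.det ≠ 0 → ∀ {z : Ω}, Gen ab A z →
      Gen ab A (fr θ (mb μ z)) → (∀ y, Gen ab A y → Gen ab A (fr θ (mb μ y))) ∧
        ∀ y, Gen ab A y → ∃ w, Gen ab A w ∧ fr θ (mb μ w) = y := by
    intro μ hμ z hz hz'
    have hR := Ra72.mor_comp hθ (mor_lin hμ)
    have e : ∀ {y : Ω}, Gen ab A y → fr (fun i => bind₁ (lin μ) (θ i)) y = fr θ (mb μ y) := by
      intro y hy
      rw [Ra72.fr_comp hθ (mor_lin hμ) le_rfl hm (hgt y hy), fr_lin]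
    have h1 := hgenr k Ω ab A hna hbig (1 * m) _ (by omega) hR z hz (by rw [e hz]; exact hz')
    refine ⟨fun y hy => ?_, fun y hy => ?_⟩
    · rw [← e hy]
      exact h1.1 y hy
    · obtain ⟨w, hw, hw'⟩ := h1.2 y hy
      exact ⟨w, hw, by rw [← e hw]; exact hw'⟩
  -- B on D
  let f : D → D := fun t => ⟨fr B (t : Ω), Rb.trans_fr hB hqM t.2.1, (hB1 t.2.1).2 t.2.2⟩
  have hf : ∀ t t' : D, S.r t t' → S.r (f t) (f t') := by
    rintro t t' ⟨μ, hμ, ⟨z, hz, hz'⟩, ⟨y, hy, hy'⟩⟩
    obtain ⟨ν, hν, w, hw, hw'⟩ := hnr (f t)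
    refine ⟨ν, hν, ⟨w, hw, hw'⟩, ?_⟩
    -- R = ν⁻¹ B μ
    have hR1 := Ra72.mor_comp hB (mor_lin hμ)
    have hR2 := Ra72.mor_comp (mor_lin (det_adj hν)) hR1
    have e : ∀ {x : Ω}, Gen ab A x → fr (fun i => bind₁ (fun i => bind₁ (lin μ) (B i))
        (lin ν.adjugate i)) x = mb ν.adjugate (fr B (mb μ x)) := by
      intro x hx
      rw [Ra72.fr_comp (mor_lin (det_adj hν)) hR1 (by omega) le_rfl (hgt x hx),
        Ra72.fr_comp hB (mor_lin hμ) le_rfl hqM (hgt x hx), fr_lin, fr_lin]
    have h1 := (hgenr k Ω ab A hna hbig _ _ (by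
      have : 1 ≤ 1 * (p ^ s) ^ M * 1 := by omega
      exact this) hR2 z hz (by
        rw [e hz, ← hz', show fr B (t : Ω) = mb ν w from hw', mb_adj hν (hgt w hw)]
        exact hw)).1 y hy
    rw [e hy, ← hy'] at h1
    refine ⟨_, h1, ?_⟩
    rw [mb_adj' hν (Rb.trans_fr hB hqM t'.2.1)]
  let Q : Type := Quotient S
  let g : Q → Q := Quotient.map f hf
  -- finiteness
  obtain ⟨x₀, hx₀⟩ := hex
  obtain ⟨hfin, t₁, ht₁, ht₁'⟩ := fibre (Ω := Ω) hm hθ (hgt x₀ hx₀)
  have hQ : Finite Q := by
    have h1 : Finite {t : Ω | Transcendental k t ∧ fr θ t = x₀} := hfin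
    let j : {t : Ω | Transcendental k t ∧ fr θ t = x₀} → Q := fun t =>
      Quotient.mk S ⟨t, t.2.1, by rw [t.2.2]; exact hx₀⟩
    refine Finite.of_surjective j ?_
    intro c
    induction c using Quotient.inductionOn with
    | h t =>
      obtain ⟨μ, hμ, z, hz, hz'⟩ := hnr t
      obtain ⟨w, hw, hw'⟩ := (hadm hμ hz (by rw [← hz']; exact t.2.2)).2 x₀ hx₀
      refine ⟨⟨mb μ w, trans_mb hμ (hgt w hw), hw'⟩, ?_⟩
      apply Quotient.sound
      exact ⟨μ, hμ, ⟨w, hw, rfl⟩, ⟨z, hz, hz'⟩⟩
  have hsurj : Function.Surjective g := by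
    intro c
    induction c using Quotient.inductionOn with
    | h t =>
      obtain ⟨-, T, hT, hT'⟩ := fibre (Ω := Ω) hqM hB t.2.1
      refine ⟨Quotient.mk S ⟨T, hT, ?_⟩, ?_⟩
      · rw [← hB1 hT, hT']
        exact t.2.2
      · apply Quotient.sound
        have h1 : f ⟨T, hT, by rw [← hB1 hT, hT']; exact t.2.2⟩ = t := Subtype.ext hT'
        rw [h1]
  have hbij : Function.Bijective g := Finite.surjective_iff_bijective.1 hsurj
  let e : Equiv.Perm Q := Equiv.ofBijective g hbij
  have hfe : Finite (Equiv.Perm Q) := inferInstance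
  have he : e ^ orderOf e = 1 := pow_orderOf_eq_one e
  have hpos : 0 < orderOf e := orderOf_pos e
  have hit2 : ∀ (n : ℕ) (t : D), ∃ h, (e ^ n) (Quotient.mk S t) =
      Quotient.mk S ⟨(fr B)^[n] (t : Ω), h⟩ := by
    intro n
    induction n with
    | zero => intro t; exact ⟨t.2, rfl⟩
    | succ n ih =>
      intro t
      obtain ⟨h1, h2⟩ := ih t
      refine ⟨?_, ?_⟩
      · rw [Function.iterate_succ_apply']
        exact ⟨Rb.trans_fr hB hqM h1.1, (hB1 h1.1).2 h1.2⟩
      · rw [pow_succ', Equiv.Perm.mul_apply, h2]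
        show Quotient.mk S (f _) = _
        congr 1
        apply Subtype.ext
        exact (Function.iterate_succ_apply' (fr B) n (t : Ω)).symm
  obtain ⟨μ, hμ, z₁, hz₁, hz₁'⟩ := hnr ⟨t₁, ht₁, by rw [ht₁']; exact hx₀⟩
  have hz1g : Gen ab A (fr θ (mb μ z₁)) := by
    rw [← show t₁ = mb μ z₁ from hz₁', ht₁']
    exact hx₀
  have hA := (hadm hμ hz₁ hz1g).1
  refine ⟨orderOf e, μ, hpos, hμ, hA, ?_⟩
  intro t ht
  have hmem : ∀ {x : Ω}, x ∈ cls ab A μ → Transcendental k x ∧ Gen ab A (fr θ x) := by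
    rintro x ⟨z, hz, rfl⟩
    exact ⟨trans_mb hμ (hgt z hz), hA z hz⟩
  constructor
  · intro h
    have h1 : (fr B)^[orderOf e] t ∈ cls ab A μ := h
    have h2 := (hBn (orderOf e) ht).1 (hmem h1).2
    obtain ⟨h3, h4⟩ := hit2 (orderOf e) ⟨t, ht, h2⟩
    rw [he] at h4
    have h5 : S.r ⟨t, ht, h2⟩ ⟨(fr B)^[orderOf e] t, h3⟩ := Quotient.exact h4
    obtain ⟨ν, hν, h6, h7⟩ := h5
    exact hcls hν hμ h7 h1 h6
  · intro h
    have h1 : t ∈ cls ab A μ := h
    have h2 := hmem h1
    obtain ⟨h3, h4⟩ := hit2 (orderOf e) ⟨t, h2⟩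
    rw [he] at h4
    have h5 : S.r ⟨t, h2⟩ ⟨(fr B)^[orderOf e] t, h3⟩ := Quotient.exact h4
    obtain ⟨ν, hν, h6, h7⟩ := h5
    exact hcls hν hμ h6 h1 h7

end perm

end Pool.DynLehmer.UN.P28

/-!
# Row GOOD: a map which preserves the generic points and their complement has good reduction
-/

namespace Pool.DynLehmer.UN.Og68

open MvPolynomial Pool.DynLehmer Pool.DynLehmer.GS Pool.DynLehmer.UN.Orb

section
variable {k Ω : Type} [Field k] [Field Ω] [Algebra k Ω] {ab : AbsoluteValue k ℝ}
  {A : AbsoluteValue Ω ℝ}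

theorem sub_le (h : IsNonarchimedean A) (a b : Ω) : A (a - b) ≤ max (A a) (A b) := by
  have h1 := h a (-b)
  rw [A.map_neg] at h1
  rwa [sub_eq_add_neg]

theorem sub_eq_left (h : IsNonarchimedean A) {a b : Ω} (hab : A b < A a) : A (a - b) = A a := by
  refine le_antisymm ((sub_le h a b).trans (max_le le_rfl hab.le)) ?_
  have h1 := h (a - b) b
  rw [sub_add_cancel] at h1
  rcases le_max_iff.1 h1 with h2 | h2
  · exact h2
  · exact absurd h2 (not_le.2 hab)

theorem gen_one {x : Ω} (hx : Gen ab A x) : A x = 1 := by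
  have h := hx 0 (by rw [map_zero]; exact zero_le_one)
  rwa [map_zero, sub_zero] at h

theorem gen_lin (hB : Big k Ω ab A) {x : Ω} (hx : Gen ab A x) (α β : k) :
    A (algebraMap k Ω α - x * algebraMap k Ω β) = max (ab α) (ab β) := by
  by_cases hβ : β = 0
  · rw [hβ, map_zero, mul_zero, sub_zero, hB.ext, map_zero, max_eq_left (ab.nonneg _)]
  · rcases lt_or_ge (ab β) (ab α) with h | h
    · have h1 : A (x * algebraMap k Ω β) < A (algebraMap k Ω α) := by
        rw [A.map_mul, gen_one hx, one_mul, hB.ext, hB.ext]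
        exact h
      rw [sub_eq_left hB.na h1, hB.ext, max_eq_left h.le]
    · have hβ' : algebraMap k Ω β ≠ 0 := (map_ne_zero _).2 hβ
      have hb : 0 < ab β := ab.pos hβ
      have h1 : algebraMap k Ω α - x * algebraMap k Ω β =
          -(algebraMap k Ω β * (x - algebraMap k Ω (α / β))) := by
        rw [map_div₀]
        field_simp
        ring
      rw [h1, A.map_neg, A.map_mul, hx (α / β) (by rw [map_div₀]; exact (div_le_one hb).2 h),
        mul_one, hB.ext, max_eq_right h]

theorem gen_notin (hB : Big k Ω ab A) {x : Ω} (hx : Gen ab A x) (c : k) :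
    algebraMap k Ω c ≠ x := by
  rintro rfl
  have h1 := gen_one hx
  rw [hB.ext] at h1
  have h3 := hx c h1.le
  rw [sub_self, A.map_zero] at h3
  exact zero_ne_one h3

theorem mem_of_alg [IsAlgClosed k] {t : Ω} (h : IsAlgebraic k t) : ∃ c : k, algebraMap k Ω c = t := by
  have h1 : (minpoly k t).degree = 1 :=
    IsAlgClosed.degree_eq_one_of_irreducible k (minpoly.irreducible h.isIntegral)
  exact minpoly.mem_range_of_degree_eq_one k t h1

/-- coefficients of products of linear polynomials -/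
theorem coeff_prod_le (hna : IsNonarchimedean A) (s : Multiset Ω) (hs : ∀ t ∈ s, A t ≤ 1) :
    ∀ j, A ((s.map fun t => Polynomial.X - Polynomial.C t).prod.coeff j) ≤ 1 := by
  induction s using Multiset.induction_on with
  | empty =>
    intro j
    rw [Multiset.map_zero, Multiset.prod_zero, Polynomial.coeff_one]
    split_ifs
    · rw [A.map_one]
    · rw [A.map_zero]
      exact zero_le_one
  | cons t s ih =>
    have h1 := ih fun t ht => hs t (Multiset.mem_cons_of_mem ht)
    have h2 := hs t (Multiset.mem_cons_self t s)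
    intro j
    rw [Multiset.map_cons, Multiset.prod_cons, mul_comm]
    have h3 : ∀ j, A ((s.map fun t => Polynomial.X - Polynomial.C t).prod.coeff j * t) ≤ 1 := by
      intro j
      rw [A.map_mul]
      exact mul_le_one₀ (h1 j) (A.nonneg _) h2
    rcases j with _ | j
    · rw [Polynomial.mul_coeff_zero, Polynomial.coeff_sub, Polynomial.coeff_X_zero,
        Polynomial.coeff_C_zero, zero_sub, mul_neg, A.map_neg]
      exact h3 0
    · rw [Polynomial.coeff_mul_X_sub_C]
      exact (sub_le hna _ _).trans (max_le (h1 j) (h3 _))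

theorem prod_eq (s : Multiset Ω) (f : Ω → Ω) (r : ℝ) (hs : ∀ t ∈ s, A (f t) = r) :
    A ((s.map f).prod) = r ^ s.card := by
  induction s using Multiset.induction_on with
  | empty => simp
  | cons t s ih =>
    rw [Multiset.map_cons, Multiset.prod_cons, A.map_mul, hs t (Multiset.mem_cons_self t s),
      ih fun t ht => hs t (Multiset.mem_cons_of_mem ht), Multiset.card_cons, pow_succ, mul_comm]

/-- the value of a form in terms of `G(X, 1)` -/
theorem form_val {d : ℕ} {G : MvPolynomial (Fin 2) k} (hG : G.IsHomogeneous d) (P : Fin 2 → k)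
    (h1 : P 1 ≠ 0) : aeval P G = P 1 ^ d * (RootA.dh G).eval (P 0 / P 1) := by
  have h2 : aeval ![P 0 / P 1, (1 : k)] G = (RootA.dh G).eval (P 0 / P 1) := by
    have h7 : (Polynomial.aeval (P 0 / P 1) : Polynomial k →ₐ[k] k).comp
        (aeval ![Polynomial.X, 1]) = aeval ![P 0 / P 1, (1 : k)] := by
      refine algHom_ext fun i => ?_
      fin_cases i <;> simp
    rw [← h7, AlgHom.comp_apply, Polynomial.coe_aeval_eq_eval]
    rfl
  rw [← h2]
  have h3 : P = P 1 • ![P 0 / P 1, (1 : k)] := by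
    funext i
    fin_cases i
    · show P 0 = P 1 * (P 0 / P 1)
      field_simp
    · show P 1 = P 1 * 1
      rw [mul_one]
  conv_lhs => rw [h3]
  rw [aeval_def, eval₂_eq', aeval_def, eval₂_eq', Finset.mul_sum]
  refine Finset.sum_congr rfl fun t ht => ?_
  have h5 : t 0 + t 1 = d := by
    have h2 := hG (mem_support_iff.1 ht)
    rwa [Finsupp.weight_apply, Finsupp.sum_fintype _ _ (fun _ => by simp), Fin.sum_univ_two,
      Pi.one_apply, Pi.one_apply, smul_eq_mul, smul_eq_mul, mul_one, mul_one] at h2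
  rw [Fin.prod_univ_two, Fin.prod_univ_two, ← h5, pow_add]
  simp only [Pi.smul_apply, smul_eq_mul, mul_pow]
  ring

theorem form_inf {d : ℕ} {G : MvPolynomial (Fin 2) k} (hG : G.IsHomogeneous d) (P : Fin 2 → k)
    (h1 : P 1 = 0) : aeval P G = P 0 ^ d * (RootA.dh G).coeff d := by
  have h2 := RootA.eval_inf (d := d) (RootA.dh G) P h1
  rw [RootA.homogenize_dh hG] at h2
  rw [mul_comm, ← h2]
  rfl

end

/-- Row GOOD. -/
theorem good : GoodStatement := by
  intro k Ω _ _ _ _ _ ab A hab hB hx d G hd hG hgen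
  obtain ⟨x, hx⟩ := hx
  have := hB.closed
  set g : Fin 2 → Polynomial k := fun i => RootA.dh (G i) with hg
  set h : Polynomial Ω := (g 0).map (algebraMap k Ω) -
    Polynomial.C x * (g 1).map (algebraMap k Ω) with hh
  have hcoeff : ∀ j, h.coeff j = algebraMap k Ω ((g 0).coeff j) -
      x * algebraMap k Ω ((g 1).coeff j) := by
    intro j
    rw [hh, Polynomial.coeff_sub, Polynomial.coeff_C_mul, Polynomial.coeff_map,
      Polynomial.coeff_map]
  have hval : ∀ j, A (h.coeff j) = max (ab ((g 0).coeff j)) (ab ((g 1).coeff j)) := by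
    intro j
    rw [hcoeff, gen_lin hB hx]
  -- the value at infinity
  have hinf : ∀ i, aeval (![1, 0] : Fin 2 → k) (G i) = (g i).coeff d := by
    intro i
    rw [form_inf (hG.hom i) _ rfl]
    show (1 : k) ^ d * (RootA.dh (G i)).coeff d = _
    rw [one_pow, one_mul]
  have htop : (g 0).coeff d ≠ 0 ∨ (g 1).coeff d ≠ 0 := by
    by_contra hcon
    rw [not_or, not_not, not_not] at hcon
    refine hG.ne k ![1, 0] (fun h => one_ne_zero (congrFun h 0)) ?_
    funext i
    fin_cases i
    · exact (hinf 0).trans hcon.1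
    · exact (hinf 1).trans hcon.2
  have hpos : 0 < A (h.coeff d) := by
    rw [hval]
    rcases htop with h1 | h1
    · exact lt_max_of_lt_left (ab.pos h1)
    · exact lt_max_of_lt_right (ab.pos h1)
  have hd0 : h.coeff d ≠ 0 := fun h0 => by
    rw [h0, A.map_zero] at hpos
    exact lt_irrefl _ hpos
  have hdeg : h.natDegree = d := by
    refine le_antisymm ?_ (Polynomial.le_natDegree_of_ne_zero hd0)
    refine (Polynomial.natDegree_sub_le _ _).trans (max_le ?_ ?_)
    · exact Polynomial.natDegree_map_le.trans (RootA.natDegree_dh (hG.hom 0))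
    · exact (Polynomial.natDegree_C_mul_le _ _).trans
        (Polynomial.natDegree_map_le.trans (RootA.natDegree_dh (hG.hom 1)))
  have hsplit : h = Polynomial.C (h.coeff d) *
      (h.roots.map fun t => Polynomial.X - Polynomial.C t).prod := by
    have h1 := (IsAlgClosed.splits h).eq_prod_roots
    rw [Polynomial.leadingCoeff, hdeg] at h1
    exact h1
  have hcard : h.roots.card = d := by
    rw [← hdeg]
    exact (IsAlgClosed.splits h).natDegree_eq_card_roots.symm
  -- the roots are generic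
  have hroots : ∀ t ∈ h.roots, Gen ab A t := by
    intro t ht
    have h1 : h.eval t = 0 := (Polynomial.mem_roots'.1 ht).2
    have h2 : ∀ i, aeval ![t, (1 : Ω)] (G i) = ((g i).map (algebraMap k Ω)).eval t := by
      intro i
      have h7 : (Polynomial.aeval t : Polynomial k →ₐ[k] Ω).comp
          (aeval ![Polynomial.X, 1]) = aeval ![t, (1 : Ω)] := by
        refine algHom_ext fun i => ?_
        fin_cases i <;> simp
      rw [← h7, AlgHom.comp_apply, Polynomial.eval_map_algebraMap]
      rfl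
    rw [hh, Polynomial.eval_sub, Polynomial.eval_mul, Polynomial.eval_C, ← h2, ← h2,
      sub_eq_zero] at h1
    have h3 : aeval ![t, (1 : Ω)] (G 1) ≠ 0 := by
      intro h3
      rw [h3, mul_zero] at h1
      refine hG.ne Ω ![t, 1] (fun h => one_ne_zero (congrFun h 1)) ?_
      funext i
      fin_cases i
      · exact h1
      · exact h3
    have h4 : fr G t = x := by
      rw [fr, h1, mul_div_assoc, div_self h3, mul_one]
    have h5 : Transcendental k t := by
      intro h5
      obtain ⟨c, rfl⟩ := mem_of_alg h5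
      have h6 : ∀ i, aeval ![algebraMap k Ω c, (1 : Ω)] (G i) =
          algebraMap k Ω ((g i).eval c) := by
        intro i
        rw [h2, Polynomial.eval_map_algebraMap, Polynomial.aeval_algebraMap_apply,
          Polynomial.coe_aeval_eq_eval]
      rw [fr, h6, h6, ← map_div₀] at h4
      exact gen_notin hB hx _ h4
    exact (hgen t h5).1 (by rw [h4]; exact hx)
  have hr1 : ∀ t ∈ h.roots, A t = 1 := fun t ht => gen_one (hroots t ht)
  -- the bound for the coefficients
  have hle : ∀ j, A (h.coeff j) ≤ A (h.coeff d) := by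
    intro j
    conv_lhs => rw [hsplit]
    rw [Polynomial.coeff_C_mul, A.map_mul]
    exact mul_le_of_le_one_right (A.nonneg _)
      (coeff_prod_le hB.na _ (fun t ht => (hr1 t ht).le) j)
  -- the values
  have hnm : ∀ P : Fin 2 → k, RV.nm ab (gAct G k P) = RV.nm ab P ^ d * A (h.coeff d) := by
    intro P
    have h0 : RV.nm ab (gAct G k P) =
        A (algebraMap k Ω (aeval P (G 0)) - x * algebraMap k Ω (aeval P (G 1))) := by
      rw [gen_lin hB hx]
      rfl
    rw [h0]
    by_cases h1 : P 1 = 0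
    · rw [form_inf (hG.hom 0) P h1, form_inf (hG.hom 1) P h1, RV.nm, h1, map_zero,
        max_eq_left (ab.nonneg _)]
      have h2 : algebraMap k Ω (P 0 ^ d * (RootA.dh (G 0)).coeff d) -
          x * algebraMap k Ω (P 0 ^ d * (RootA.dh (G 1)).coeff d) =
          algebraMap k Ω (P 0) ^ d * h.coeff d := by
        rw [hcoeff, map_mul, map_mul, map_pow]
        ring
      rw [h2, A.map_mul, A.map_pow, hB.ext]
    · have h2 : algebraMap k Ω (aeval P (G 0)) - x * algebraMap k Ω (aeval P (G 1)) =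
          algebraMap k Ω (P 1) ^ d * h.eval (algebraMap k Ω (P 0 / P 1)) := by
        rw [form_val (hG.hom 0) P h1, form_val (hG.hom 1) P h1, hh, Polynomial.eval_sub,
          Polynomial.eval_mul, Polynomial.eval_C, Polynomial.eval_map_algebraMap,
          Polynomial.eval_map_algebraMap, Polynomial.aeval_algebraMap_apply,
          Polynomial.aeval_algebraMap_apply, Polynomial.coe_aeval_eq_eval, map_mul, map_mul,
          map_pow]
        ring
      have h3 : h.eval (algebraMap k Ω (P 0 / P 1)) = h.coeff d *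
          (h.roots.map fun t => algebraMap k Ω (P 0 / P 1) - t).prod := by
        conv_lhs => rw [hsplit]
        rw [Polynomial.eval_mul, Polynomial.eval_C, Polynomial.eval_multiset_prod,
          Multiset.map_map]
        congr 2
        refine Multiset.map_congr rfl fun t _ => ?_
        simp
      have h4 : ∃ r : ℝ, (∀ t ∈ h.roots, A (algebraMap k Ω (P 0 / P 1) - t) = r) ∧
          ab (P 1) * r = RV.nm ab P := by
        have hb : 0 < ab (P 1) := ab.pos h1
        rcases lt_or_ge (ab (P 1)) (ab (P 0)) with h5 | h5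
        · refine ⟨ab (P 0) / ab (P 1), fun t ht => ?_, ?_⟩
          · have h6 : A t < A (algebraMap k Ω (P 0 / P 1)) := by
              rw [hr1 t ht, hB.ext, map_div₀]
              exact (one_lt_div hb).2 h5
            rw [sub_eq_left hB.na h6, hB.ext, map_div₀]
          · rw [mul_div_cancel₀ _ hb.ne', RV.nm, max_eq_left h5.le]
        · refine ⟨1, fun t ht => ?_, ?_⟩
          · rw [← A.map_neg, neg_sub]
            exact hroots t ht _ (by rw [map_div₀]; exact (div_le_one hb).2 h5)
          · rw [mul_one, RV.nm, max_eq_right h5]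
      obtain ⟨r, hr, hr'⟩ := h4
      rw [h2, h3, A.map_mul, A.map_mul, A.map_pow, hB.ext, prod_eq _ _ r hr, hcard, ← hr',
        mul_pow]
      ring
  -- the constant
  obtain ⟨c, hc0, hc⟩ : ∃ c : k, c ≠ 0 ∧ ab c * A (h.coeff d) = 1 := by
    rw [hval] at hpos ⊢
    rcases le_total (ab ((g 0).coeff d)) (ab ((g 1).coeff d)) with h1 | h1
    · rw [max_eq_right h1] at hpos ⊢
      have h2 : (g 1).coeff d ≠ 0 := fun h0 => by
        rw [h0, ab.map_zero] at hpos
        exact lt_irrefl _ hpos
      exact ⟨((g 1).coeff d)⁻¹, inv_ne_zero h2, by rw [map_inv₀, inv_mul_cancel₀ hpos.ne']⟩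
    · rw [max_eq_left h1] at hpos ⊢
      have h2 : (g 0).coeff d ≠ 0 := fun h0 => by
        rw [h0, ab.map_zero] at hpos
        exact lt_irrefl _ hpos
      exact ⟨((g 0).coeff d)⁻¹, inv_ne_zero h2, by rw [map_inv₀, inv_mul_cancel₀ hpos.ne']⟩
  refine ⟨c, hc0, fun i t => ?_, fun P => ?_⟩
  · rw [coeff_C_mul, ab.map_mul]
    have h1 : ab (coeff t (G i)) ≤ A (h.coeff d) := by
      have h2 : coeff t (G i) = if t 0 + t 1 = d then (g i).coeff (t 0) else 0 := by
        conv_lhs => rw [← RootA.homogenize_dh (hG.hom i)]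
        rw [Polynomial.coeff_homogenize]
      rw [h2]
      split_ifs
      · refine le_trans ?_ (hle (t 0))
        rw [hval]
        fin_cases i
        · exact le_max_left _ _
        · exact le_max_right _ _
      · rw [ab.map_zero]
        exact A.nonneg _
    calc ab c * ab (coeff t (G i)) ≤ ab c * A (h.coeff d) :=
          mul_le_mul_of_nonneg_left h1 (ab.nonneg _)
      _ = 1 := hc
  · have h1 : gAct (fun i => C c * G i) k P = c • gAct G k P := by
      funext i
      simp [gAct]
    have h2 : RV.nm ab (c • gAct G k P) = ab c * RV.nm ab (gAct G k P) := by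
      simp only [RV.nm, Pi.smul_apply, smul_eq_mul, ab.map_mul]
      rw [mul_max_of_nonneg _ _ (ab.nonneg _)]
    rw [h1, h2, hnm]
    calc ab c * (RV.nm ab P ^ d * A (h.coeff d)) =
          (ab c * A (h.coeff d)) * RV.nm ab P ^ d := by ring
      _ = RV.nm ab P ^ d := by rw [hc, one_mul]

end Pool.DynLehmer.UN.Og68

/-!
# Composition of semiconjugacies
-/

namespace Pool.DynLehmer.UN.Orb.S74
open MvPolynomial Pool.DynLehmer Pool.DynLehmer.SB Pool.DynLehmer.SP
  Pool.DynLehmer.GS

variable {k : Type} [Field k]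

theorem gAct_comp (θ α : Fin 2 → MvPolynomial (Fin 2) k) (N : Type) [Field N] [Algebra k N]
    (P : Fin 2 → N) : gAct (fun i => bind₁ α (θ i)) N P = gAct θ N (gAct α N P) := by
  funext i
  exact aeval_bind₁ _ _ _

theorem mor_comp' {m n : ℕ} {θ α : Fin 2 → MvPolynomial (Fin 2) k} (hθ : Mor m θ) (hα : Mor n α) :
    Mor (n * m) (fun i => bind₁ α (θ i)) := by
  refine ⟨fun i => ?_, fun N _ _ P hP => ?_⟩
  · exact (hθ.hom i).aeval α hα.hom
  · rw [gAct_comp]
    exact hθ.ne N _ (hα.ne N P hP)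

theorem semi_iter {q b M : ℕ} {F θ B : Fin 2 → MvPolynomial (Fin 2) k} (hF : Mor q F)
    (hB : Mor b B)
    (h : ∀ P : Fin 2 → k, P ≠ 0 → Prl (gAct θ k (gAct B k P)) ((gAct F k)^[M] (gAct θ k P)))
    (n : ℕ) : ∀ P : Fin 2 → k, P ≠ 0 →
      Prl (gAct θ k ((gAct B k)^[n] P)) ((gAct F k)^[M * n] (gAct θ k P)) := by
  induction n with
  | zero =>
    intro P _
    exact Bas.prl_refl _
  | succ n ih =>
    intro P hP
    rw [Function.iterate_succ_apply, Nat.mul_succ, Function.iterate_add_apply]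
    exact Bas.prl_trans (ih _ (hB.ne k P hP)) (Bas.prl_iter hF.hom (h P hP) _)

theorem semi_comp {q b m M M' : ℕ} {F θ B α G : Fin 2 → MvPolynomial (Fin 2) k} (hF : Mor q F)
    (hθ : Mor m θ) (hB : Mor b B) (hα : Mor 1 α)
    (h : ∀ P : Fin 2 → k, P ≠ 0 → Prl (gAct θ k (gAct B k P)) ((gAct F k)^[M] (gAct θ k P)))
    (h' : ∀ P : Fin 2 → k, P ≠ 0 → Prl (gAct α k (gAct G k P)) ((gAct B k)^[M'] (gAct α k P)))
    (P : Fin 2 → k) (hP : P ≠ 0) :
    Prl (gAct (fun i => bind₁ α (θ i)) k (gAct G k P))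
      ((gAct F k)^[M * M'] (gAct (fun i => bind₁ α (θ i)) k P)) := by
  rw [gAct_comp, gAct_comp]
  exact Bas.prl_trans (Bas.prl_gAct hθ.hom (h' P hP))
    (semi_iter hF hB h M' _ (hα.ne k P hP))

/-- Row SEMIC. -/
theorem semic : SemicStatement := by
  intro k _ _ _ q M M' m F θ B α G _ _ hF hθ hB hα h h'
  have h1 := mor_comp' hθ hα
  rw [one_mul] at h1
  exact ⟨h1, semi_comp hF hθ hB hα h h'⟩

end Pool.DynLehmer.UN.Orb.S74

/-!
# Polynomials at generic points
-/

namespace Pool.DynLehmer.UN.OG4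
open Polynomial

/-- induction over the linear factors -/
theorem poly_ind {K : Type} [Field K] [IsAlgClosed K] {motive : K[X] → Prop}
    (hC : ∀ c : K, c ≠ 0 → motive (C c))
    (hm : ∀ (r : K) (p : K[X]), p ≠ 0 → motive p → motive ((X - C r) * p)) :
    ∀ p : K[X], p ≠ 0 → motive p := by
  intro p
  induction h : p.natDegree generalizing p with
  | zero =>
    intro hp
    rw [eq_C_of_natDegree_eq_zero h] at hp ⊢
    exact hC _ fun h0 => hp (by rw [h0, map_zero])
  | succ n ih =>
    intro hp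
    obtain ⟨r, hr⟩ := IsAlgClosed.exists_root p (by
      rw [degree_eq_natDegree hp, h]
      exact_mod_cast Nat.succ_ne_zero n)
    obtain ⟨g, hg⟩ := dvd_iff_isRoot.2 hr
    have hg0 : g ≠ 0 := by
      rintro rfl
      exact hp (by rw [hg, mul_zero])
    have hd : g.natDegree = n := by
      rw [hg, natDegree_mul (X_sub_C_ne_zero r) hg0, natDegree_X_sub_C] at h
      omega
    rw [hg]
    exact hm r g hg0 (ih g hd hg0)

section

variable {k Ω : Type} [Field k] [IsAlgClosed k] [Field Ω] [Algebra k Ω]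
  {ab : AbsoluteValue k ℝ} {A : AbsoluteValue Ω ℝ}

theorem na_eq {K : Type} [Field K] {A : AbsoluteValue K ℝ} (hA : IsNonarchimedean A) {x y : K}
    (h : A x < A y) : A (x - y) = A y := by
  apply le_antisymm
  · have h1 := hA x (-y)
    rw [AbsoluteValue.map_neg, max_eq_right h.le, ← sub_eq_add_neg] at h1
    exact h1
  · by_contra hcon
    push Not at hcon
    have h1 := hA x (-(x - y))
    rw [AbsoluteValue.map_neg] at h1
    have e : x + -(x - y) = y := by ring
    rw [e] at h1
    exact absurd h1 (not_le.2 (max_lt h hcon))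

variable (hab : IsNonarchimedean ab) (hA : IsNonarchimedean A)
  (hext : ∀ c : k, A (algebraMap k Ω c) = ab c)

omit [IsAlgClosed k] in
include hab hA hext in
theorem gauss_lin {x : Ω} (hx : ∀ c : k, ab c ≤ 1 → A (x - algebraMap k Ω c) = 1) (r : k) :
    A (x - algebraMap k Ω r) = (X - C r : k[X]).gaussNorm ab 1 := by
  have hx0 : A x = 1 := by
    have := hx 0 (by rw [AbsoluteValue.map_zero]; exact zero_le_one)
    rwa [map_zero, sub_zero] at this
  have h1 : ∀ i, ab ((X - C r : k[X]).coeff i) ≤ (X - C r : k[X]).gaussNorm ab 1 := by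
    intro i
    have := (X - C r : k[X]).le_gaussNorm ab (c := 1) zero_le_one i
    rwa [one_pow, mul_one] at this
  obtain ⟨i, hi⟩ := (X - C r : k[X]).exists_eq_gaussNorm ab 1
  rw [one_pow, mul_one] at hi
  have c0 : (X - C r : k[X]).coeff 0 = -r := by simp
  have c1 : (X - C r : k[X]).coeff 1 = 1 := by simp [coeff_X, coeff_C]
  have hle : (X - C r : k[X]).gaussNorm ab 1 ≤ max 1 (ab r) := by
    rw [hi]
    rcases i with _ | _ | i
    · rw [c0, AbsoluteValue.map_neg]
      exact le_max_right _ _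
    · rw [zero_add, c1, AbsoluteValue.map_one]
      exact le_max_left _ _
    · have : (X - C r : k[X]).coeff (i + 1 + 1) = 0 := by
        rw [coeff_sub, coeff_X, coeff_C]
        simp
      rw [this, AbsoluteValue.map_zero]
      exact zero_le_one.trans (le_max_left _ _)
  have hge : max 1 (ab r) ≤ (X - C r : k[X]).gaussNorm ab 1 := by
    refine max_le ?_ ?_
    · have := h1 1
      rwa [c1, AbsoluteValue.map_one] at this
    · have := h1 0
      rwa [c0, AbsoluteValue.map_neg] at this
  rw [le_antisymm hle hge]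
  rcases le_or_gt (ab r) 1 with h | h
  · rw [hx r h, max_eq_left h]
  · rw [max_eq_right h.le, na_eq hA (by rw [hx0, hext]; exact h), hext]

include hab hA hext in
/-- the value of a polynomial at a generic point is its Gauss norm -/
theorem gauss_eq {x : Ω} (hx : ∀ c : k, ab c ≤ 1 → A (x - algebraMap k Ω c) = 1) (P : k[X]) :
    A (aeval x P) = P.gaussNorm ab 1 := by
  by_cases h0 : P = 0
  · rw [h0, map_zero, gaussNorm_zero, AbsoluteValue.map_zero]
  refine poly_ind (motive := fun P => A (aeval x P) = P.gaussNorm ab 1) ?_ ?_ P h0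
  · intro c _
    rw [aeval_C, gaussNorm_C, hext]
  · intro r p _ ih
    rw [map_mul, map_mul, ih, gaussNorm_mul hab one_pos]
    congr 1
    rw [map_sub, aeval_X, aeval_C]
    exact gauss_lin hab hA hext hx r

include hab hA hext in
theorem gauss {x : Ω} (hx : ∀ c : k, ab c ≤ 1 → A (x - algebraMap k Ω c) = 1) :
    Transcendental k x ∧ ∀ P : k[X], (∀ i, ab (P.coeff i) ≤ A (aeval x P)) ∧
      (P ≠ 0 → ∃ i, A (aeval x P) = ab (P.coeff i)) := by
  have key : ∀ P : k[X], (∀ i, ab (P.coeff i) ≤ A (aeval x P)) ∧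
      (P ≠ 0 → ∃ i, A (aeval x P) = ab (P.coeff i)) := by
    intro P
    rw [gauss_eq hab hA hext hx]
    refine ⟨fun i => ?_, fun _ => ?_⟩
    · have := P.le_gaussNorm ab (c := 1) zero_le_one i
      rwa [one_pow, mul_one] at this
    · obtain ⟨i, hi⟩ := P.exists_eq_gaussNorm ab 1
      rw [one_pow, mul_one] at hi
      exact ⟨i, hi⟩
  refine ⟨?_, key⟩
  rintro ⟨P, hP, hP0⟩
  apply hP
  ext i
  have h1 := (key P).1 i
  rw [hP0, AbsoluteValue.map_zero] at h1
  rw [coeff_zero]
  exact (AbsoluteValue.eq_zero ab).1 (le_antisymm h1 (ab.nonneg _))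

end

end Pool.DynLehmer.UN.OG4

/-!
# Maps of the projective line in characteristic `p` which are semiconjugate to a bijection
-/

namespace Pool.DynLehmer.UN.OG4
open MvPolynomial Pool.DynLehmer Pool.DynLehmer.GS

section tree

variable {X : Type} (g : X → X)

/-- the point has two preimages -/
def P2 (c : X) : Prop := ∃ y y', y ≠ y' ∧ g y = c ∧ g y' = c

theorem tree (hs : Function.Surjective g) (hP : ∀ c c', c ≠ c' → P2 g c ∨ P2 g c') (l : ℕ) :
    ∀ c, P2 g c → ∃ T : Finset X, l + 1 ≤ T.card ∧ ∀ x ∈ T, g^[l] x = c := by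
  classical
  induction l with
  | zero => intro c _; exact ⟨{c}, by simp, by simp⟩
  | succ l ih =>
    have key : ∀ c y y', P2 g y → y ≠ y' → g y = c → g y' = c →
        ∃ T : Finset X, l + 1 + 1 ≤ T.card ∧ ∀ x ∈ T, g^[l + 1] x = c := by
      intro c y y' hy hne h1 h2
      obtain ⟨T, hT, hT2⟩ := ih y hy
      obtain ⟨x', hx'⟩ := hs.iterate l y'
      have hx'T : x' ∉ T := fun h => hne ((hT2 x' h).symm.trans hx')
      refine ⟨insert x' T, ?_, ?_⟩
      · rw [Finset.card_insert_of_notMem hx'T]; omega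
      · intro x hx
        rw [Function.iterate_succ_apply']
        rcases Finset.mem_insert.1 hx with rfl | hx
        · rw [hx', h2]
        · rw [hT2 x hx, h1]
    intro c hc
    obtain ⟨y, y', hne, h1, h2⟩ := hc
    rcases hP y y' hne with h | h
    · exact key c y y' h hne h1 h2
    · exact key c y' y h hne.symm h2 h1

theorem no_semi {Y : Type} [Infinite X] (hs : Function.Surjective g)
    (hP : ∀ c c', c ≠ c' → P2 g c ∨ P2 g c') (Z : Set X) (hZ : Z.Finite) (t : X → Y) (Φ : Y → Y)
    (hΦ : Function.Injective Φ) (hsemi : ∀ x, x ∉ Z → g x ∉ Z → t (g x) = Φ (t x)) (N : ℕ)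
    (hN : ∀ T : Finset X, (∀ x ∈ T, x ∉ Z) → (∀ x ∈ T, ∀ y ∈ T, t x = t y) → T.card ≤ N) :
    False := by
  have hB1 : {c | ¬ P2 g c}.Finite := by
    apply Set.Subsingleton.finite
    intro c hc c' hc'
    by_contra hne
    rcases hP c c' hne with h | h
    · exact hc h
    · exact hc' h
  have hB2 : (⋃ i ∈ Set.Iic N, g^[i] '' Z).Finite :=
    Set.Finite.biUnion (Set.finite_Iic N) fun i _ => hZ.image _
  obtain ⟨c, hc⟩ := (hB1.union hB2).exists_notMem
  rw [Set.mem_union, not_or] at hc
  obtain ⟨hc1, hc2⟩ := hc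
  have hc1 : P2 g c := not_not.1 hc1
  obtain ⟨T, hT, hT2⟩ := tree g hs hP N c hc1
  have hz : ∀ x ∈ T, ∀ i ≤ N, g^[i] x ∉ Z := by
    intro x hx i hi hmem
    apply hc2
    refine Set.mem_biUnion (x := N - i) (Nat.sub_le _ _) ⟨g^[i] x, hmem, ?_⟩
    rw [← Function.iterate_add_apply, Nat.sub_add_cancel hi, hT2 x hx]
  have ht : ∀ x ∈ T, ∀ i ≤ N, t (g^[i] x) = Φ^[i] (t x) := by
    intro x hx i
    induction i with
    | zero => intro _; rfl
    | succ i ih =>
      intro hi
      have h1 := hz x hx i (by omega)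
      have h2 := hz x hx (i + 1) hi
      rw [Function.iterate_succ_apply'] at h2 ⊢
      rw [hsemi _ h1 h2, ih (by omega), Function.iterate_succ_apply']
  have := hN T (fun x hx => hz x hx 0 (Nat.zero_le _)) (by
    intro x hx y hy
    apply hΦ.iterate N
    rw [← ht x hx N le_rfl, ← ht y hy N le_rfl, hT2 x hx, hT2 y hy])
  omega

end tree

/-- the determinant of two vectors -/
def wd {R : Type} [CommRing R] (x y : Fin 2 → R) : R := x 0 * y 1 - x 1 * y 0

theorem wd_smul {R : Type} [CommRing R] (a b : R) (x y : Fin 2 → R) :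
    wd (a • x) (b • y) = a * b * wd x y := by
  unfold wd
  simp only [Pi.smul_apply, smul_eq_mul]
  ring

section pts
variable {κ : Type} [Field κ]

open Classical in
/-- the point of the projective line -/
noncomputable def cl (v : Fin 2 → κ) : Option κ := if v 1 = 0 then none else some (v 0 / v 1)

/-- the vector of a point -/
def rep : Option κ → Fin 2 → κ
  | none => ![1, 0]
  | some a => ![a, 1]

theorem rep_ne (x : Option κ) : rep x ≠ 0 := by
  cases x with
  | none => intro h; simpa [rep] using congrFun h 0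
  | some a => intro h; simpa [rep] using congrFun h 1

theorem exists_smul {v w : Fin 2 → κ} (hw : w ≠ 0) (h : wd v w = 0) : ∃ c : κ, v = c • w := by
  unfold wd at h
  by_cases h0 : w 0 = 0
  · have h1 : w 1 ≠ 0 := by
      intro h1
      apply hw
      funext i
      fin_cases i
      exacts [h0, h1]
    have h2 : v 0 = 0 := by
      rw [h0, mul_zero, sub_zero] at h
      exact (mul_eq_zero.1 h).resolve_right h1
    refine ⟨v 1 / w 1, ?_⟩
    funext i
    fin_cases i
    · simp only [Fin.zero_eta, Pi.smul_apply, smul_eq_mul, h0, h2, mul_zero]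
    · simp only [Fin.mk_one, Pi.smul_apply, smul_eq_mul]
      field_simp
  · refine ⟨v 0 / w 0, ?_⟩
    funext i
    fin_cases i
    · simp only [Fin.zero_eta, Pi.smul_apply, smul_eq_mul]
      field_simp
    · simp only [Fin.mk_one, Pi.smul_apply, smul_eq_mul]
      field_simp
      linear_combination -h

theorem cl_smul {c : κ} (hc : c ≠ 0) (v : Fin 2 → κ) : cl (c • v) = cl v := by
  by_cases h : v 1 = 0
  · unfold cl
    rw [if_pos h, if_pos (by rw [Pi.smul_apply, h, smul_zero])]
  · unfold cl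
    rw [if_neg h, if_neg (by rw [Pi.smul_apply, smul_eq_mul]; exact mul_ne_zero hc h),
      Pi.smul_apply, Pi.smul_apply, smul_eq_mul, smul_eq_mul, mul_div_mul_left _ _ hc]

theorem cl_rep (x : Option κ) : cl (rep x) = x := by
  cases x with
  | none => simp [cl, rep]
  | some a => simp [cl, rep]

theorem rep_cl {v : Fin 2 → κ} (hv : v ≠ 0) : ∃ c : κ, c ≠ 0 ∧ v = c • rep (cl v) := by
  by_cases h : v 1 = 0
  · have h0 : v 0 ≠ 0 := by
      intro h0
      apply hv
      funext i
      fin_cases i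
      exacts [h0, h]
    refine ⟨v 0, h0, ?_⟩
    have : cl v = none := by unfold cl; rw [if_pos h]
    rw [this]
    funext i
    fin_cases i
    · simp [rep]
    · simp [rep, h]
  · refine ⟨v 1, h, ?_⟩
    have : cl v = some (v 0 / v 1) := by unfold cl; rw [if_neg h]
    rw [this]
    funext i
    fin_cases i
    · simp only [rep, Fin.zero_eta, Pi.smul_apply, smul_eq_mul, Matrix.cons_val_zero]
      field_simp
    · simp [rep]

theorem cl_eq {v w : Fin 2 → κ} (hv : v ≠ 0) (hw : w ≠ 0) (h : wd v w = 0) : cl v = cl w := by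
  obtain ⟨c, hc⟩ := exists_smul hw h
  have hc0 : c ≠ 0 := by
    rintro rfl
    rw [zero_smul] at hc
    exact hv hc
  rw [hc, cl_smul hc0]

theorem wd_of_cl {v w : Fin 2 → κ} (hv : v ≠ 0) (hw : w ≠ 0) (h : cl v = cl w) :
    wd v w = 0 := by
  obtain ⟨c, -, hc⟩ := rep_cl hv
  obtain ⟨d, -, hd⟩ := rep_cl hw
  rw [hc, hd, h, wd_smul]
  unfold wd
  ring

/-- the map given by the forms -/
noncomputable def pt (P : Fin 2 → MvPolynomial (Fin 2) κ) (x : Fin 2 → κ) : Fin 2 → κ :=
  fun i => eval x (P i)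

theorem pt_hom {D : ℕ} {P : Fin 2 → MvPolynomial (Fin 2) κ} (hP : ∀ i, (P i).IsHomogeneous D)
    (c : κ) (x : Fin 2 → κ) : pt P (c • x) = c ^ D • pt P x := by
  funext i
  show eval (c • x) (P i) = c ^ D * eval x (P i)
  exact eval_smul_hom (hP i) c x

theorem const_of_no_root [IsAlgClosed κ] (p : Polynomial κ) (h : ∀ a, p.eval a ≠ 0) (a b : κ) :
    p.eval a = p.eval b := by
  have hd : p.degree = 0 := by
    by_contra hd
    obtain ⟨c, hc⟩ := IsAlgClosed.exists_root p hd
    exact h c hc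
  rw [Polynomial.eq_C_of_degree_eq_zero hd, Polynomial.eval_C, Polynomial.eval_C]

/-- the restriction of a polynomial to a line -/
theorem line (P : MvPolynomial (Fin 2) κ) (x w : Fin 2 → κ) :
    ∃ p : Polynomial κ, ∀ a, p.eval a = eval (a • x + w) P := by
  refine ⟨aeval (fun i => Polynomial.X * Polynomial.C (x i) + Polynomial.C (w i)) P, fun a => ?_⟩
  have h := MvPolynomial.comp_aeval_apply (R := κ)
    (f := fun i => Polynomial.X * Polynomial.C (x i) + Polynomial.C (w i))
    (φ := (Polynomial.aeval a : Polynomial κ →ₐ[κ] κ)) P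
  rw [Polynomial.coe_aeval_eq_eval] at h
  rw [h]
  have h2 : (fun i => Polynomial.eval a (Polynomial.X * Polynomial.C (x i) +
      Polynomial.C (w i))) = a • x + w := by
    funext i
    rw [Polynomial.eval_add, Polynomial.eval_mul, Polynomial.eval_X, Polynomial.eval_C,
      Polynomial.eval_C, Pi.add_apply, Pi.smul_apply, smul_eq_mul]
  rw [h2]
  rfl

variable (P : Fin 2 → MvPolynomial (Fin 2) κ)

theorem line_eq [IsAlgClosed κ] {D : ℕ} (hD : 1 ≤ D)
    (hom : ∀ (c : κ) x, pt P (c • x) = c ^ D • pt P x) {x w : Fin 2 → κ}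
    (inj : ∀ y : Fin 2 → κ, y ≠ 0 → wd (pt P y) (pt P x) = 0 → wd y x = 0)
    (hxw : wd x w = 1) (y : Fin 2 → κ) :
    wd (pt P y) (pt P x) = wd x y ^ D * wd (pt P w) (pt P x) := by
  obtain ⟨p0, hp0⟩ := line (P 0) x w
  obtain ⟨p1, hp1⟩ := line (P 1) x w
  set p : Polynomial κ := p0 * Polynomial.C (pt P x 1) - p1 * Polynomial.C (pt P x 0) with hp
  have hpe : ∀ a, p.eval a = wd (pt P (a • x + w)) (pt P x) := by
    intro a
    rw [hp, Polynomial.eval_sub, Polynomial.eval_mul, Polynomial.eval_mul, Polynomial.eval_C,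
      Polynomial.eval_C, hp0, hp1]
    rfl
  have hne : ∀ a, p.eval a ≠ 0 := by
    intro a h0
    rw [hpe] at h0
    have h1 : wd (a • x + w) x = -1 := by
      have : wd (a • x + w) x = - wd x w := by
        unfold wd
        simp only [Pi.add_apply, Pi.smul_apply, smul_eq_mul]
        ring
      rw [this, hxw]
    have hne : a • x + w ≠ 0 := by
      intro h2
      rw [h2] at h1
      unfold wd at h1
      simp at h1
    have h3 := inj _ hne h0
    rw [h1] at h3
    exact one_ne_zero (neg_eq_zero.1 h3)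
  set e := wd x y with he
  set a := wd y w with ha
  have hy : y = a • x + e • w := by
    funext i
    unfold wd at hxw he ha
    fin_cases i
    · simp only [he, ha, Pi.add_apply, Pi.smul_apply, smul_eq_mul, Fin.zero_eta]
      linear_combination (-(y 0)) * hxw
    · simp only [he, ha, Pi.add_apply, Pi.smul_apply, smul_eq_mul, Fin.mk_one]
      linear_combination (-(y 1)) * hxw
  by_cases he0 : e = 0
  · rw [he0, zero_smul, add_zero] at hy
    rw [hy, hom, he0, zero_pow (by omega), zero_mul]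
    unfold wd
    simp only [Pi.smul_apply, smul_eq_mul]
    ring
  · have hy2 : y = e • ((a / e) • x + w) := by
      rw [hy, smul_add, smul_smul, mul_div_cancel₀ _ he0]
    have h5 : wd (pt P ((a / e) • x + w)) (pt P x) = wd (pt P w) (pt P x) := by
      rw [← hpe, const_of_no_root p hne (a / e) 0, hpe, zero_smul, zero_add]
    have h6 : wd (pt P y) (pt P x) = e ^ D * wd (pt P ((a / e) • x + w)) (pt P x) := by
      conv_lhs => rw [hy2, hom]
      unfold wd
      simp only [Pi.smul_apply, smul_eq_mul]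
      ring
    rw [h6, h5]

theorem lin [IsAlgClosed κ] {p e : ℕ} [Fact p.Prime] [CharP κ p]
    (hom : ∀ (c : κ) x, pt P (c • x) = c ^ (p ^ e) • pt P x) {x : Fin 2 → κ} (hx : x ≠ 0)
    (inj : ∀ y : Fin 2 → κ, y ≠ 0 → wd (pt P y) (pt P x) = 0 → wd y x = 0) (y : Fin 2 → κ) :
    wd (pt P y) (pt P x) = y 0 ^ (p ^ e) * wd (pt P ![1, 0]) (pt P x) +
      y 1 ^ (p ^ e) * wd (pt P ![0, 1]) (pt P x) := by
  have hp : p.Prime := Fact.out
  have hD : 1 ≤ p ^ e := Nat.one_le_pow _ _ hp.pos
  obtain ⟨w, hw⟩ : ∃ w : Fin 2 → κ, wd x w = 1 := by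
    by_cases h0 : x 0 = 0
    · have h1 : x 1 ≠ 0 := by
        intro h1
        apply hx
        funext i
        fin_cases i
        exacts [h0, h1]
      refine ⟨![-(x 1)⁻¹, 0], ?_⟩
      simp only [wd, Matrix.cons_val_zero, Matrix.cons_val_one]
      field_simp
      ring
    · refine ⟨![0, (x 0)⁻¹], ?_⟩
      simp only [wd, Matrix.cons_val_zero, Matrix.cons_val_one]
      field_simp
      ring
  have h := line_eq P hD hom inj hw
  have h2 : ∀ y : Fin 2 → κ, wd x y ^ (p ^ e) = (x 0 * y 1) ^ (p ^ e) - (x 1 * y 0) ^ (p ^ e) :=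
    fun y => sub_pow_char_pow (x 0 * y 1) (x 1 * y 0) e
  have h00 : (0 : κ) ^ (p ^ e) = 0 := zero_pow (by omega)
  rw [h y, h ![1, 0], h ![0, 1], h2, h2, h2]
  simp only [Matrix.cons_val_zero, Matrix.cons_val_one, mul_zero, mul_one, mul_pow, h00]
  ring

/-- two simple fibres -/
theorem sing [IsAlgClosed κ] {p e : ℕ} [Fact p.Prime] [CharP κ p]
    (hom : ∀ (c : κ) x, pt P (c • x) = c ^ (p ^ e) • pt P x) {x x' : Fin 2 → κ} (hx : x ≠ 0)
    (hx' : x' ≠ 0)
    (inj : ∀ y : Fin 2 → κ, y ≠ 0 → wd (pt P y) (pt P x) = 0 → wd y x = 0)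
    (inj' : ∀ y : Fin 2 → κ, y ≠ 0 → wd (pt P y) (pt P x') = 0 → wd y x' = 0)
    (hne : wd (pt P x) (pt P x') ≠ 0) (y : Fin 2 → κ) :
    pt P y = y 0 ^ (p ^ e) • pt P ![1, 0] + y 1 ^ (p ^ e) • pt P ![0, 1] := by
  have h1 := lin P hom hx inj y
  have h2 := lin P hom hx' inj' y
  funext i
  apply mul_left_cancel₀ hne
  simp only [Pi.add_apply, Pi.smul_apply, smul_eq_mul]
  unfold wd at h1 h2 ⊢
  fin_cases i
  · simp only [Fin.zero_eta]
    linear_combination (pt P x 0) * h2 - (pt P x' 0) * h1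
  · simp only [Fin.mk_one]
    linear_combination (pt P x 1) * h2 - (pt P x' 1) * h1

end pts

end Pool.DynLehmer.UN.OG4

/-!
# Maps of the projective line in characteristic `p` which are semiconjugate to a bijection (2)
-/

namespace Pool.DynLehmer.UN.OG4
open MvPolynomial Pool.DynLehmer Pool.DynLehmer.GS

theorem comb_hom {κ : Type} [Field κ] {m : ℕ} {t : Fin 2 → MvPolynomial (Fin 2) κ}
    (hth : ∀ i, (t i).IsHomogeneous m) (a b : κ) : (C a * t 0 - C b * t 1).IsHomogeneous m := by
  have h1 := (isHomogeneous_C (Fin 2) a).mul (hth 0)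
  have h2 := (isHomogeneous_C (Fin 2) b).mul (hth 1)
  rw [zero_add] at h1 h2
  exact h1.sub h2

theorem comb_eval {κ : Type} [Field κ] (t : Fin 2 → MvPolynomial (Fin 2) κ) (x τ : Fin 2 → κ) :
    eval x (C (τ 1) * t 0 - C (τ 0) * t 1) = wd (pt t x) τ := by
  rw [map_sub, map_mul, map_mul, eval_C, eval_C]
  unfold wd pt
  ring

/-- roots of a nonzero form -/
theorem form_roots {κ : Type} [Field κ] {m : ℕ} {H : MvPolynomial (Fin 2) κ}
    (hH : H.IsHomogeneous m) (h0 : H ≠ 0) : R96.dh H ≠ 0 ∧ (R96.dh H).natDegree ≤ m ∧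
      ∀ a : κ, eval (rep (some a)) H = 0 → a ∈ (R96.dh H).roots := by
  have hh : R96.dh H ≠ 0 := by
    intro h
    apply h0
    rw [← R96.hom_dh hH, h, Polynomial.homogenize_zero]
  refine ⟨hh, R96.natDegree_dh_le hH, fun a ha => ?_⟩
  rw [Polynomial.mem_roots hh, Polynomial.IsRoot, ← Polynomial.coe_aeval_eq_eval,
    ← R96.aeval_dh a H]
  exact ha

theorem coreA {κ : Type} [Field κ] [IsAlgClosed κ] {p e m n : ℕ} [Fact p.Prime] [CharP κ p]
    (P t : Fin 2 → MvPolynomial (Fin 2) κ) (hPh : ∀ i, (P i).IsHomogeneous (p ^ e))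
    (hth : ∀ i, (t i).IsHomogeneous m) (hP0 : ∀ x, x ≠ 0 → pt P x ≠ 0)
    (Φ : (Fin 2 → κ) → Fin 2 → κ) (hΦ0 : ∀ x, x ≠ 0 → Φ x ≠ 0)
    (hΦh : ∀ (c : κ) x, Φ (c • x) = c ^ n • Φ x)
    (hΦi : ∀ x y, x ≠ 0 → y ≠ 0 → wd (Φ x) (Φ y) = 0 → wd x y = 0)
    (hsemi : ∀ x, wd (pt t (pt P x)) (Φ (pt t x)) = 0)
    (hind : ∀ τ : Fin 2 → κ, τ ≠ 0 → C (τ 1) * t 0 - C (τ 0) * t 1 ≠ 0) (y : Fin 2 → κ) :
    pt P y = y 0 ^ (p ^ e) • pt P ![1, 0] + y 1 ^ (p ^ e) • pt P ![0, 1] := by
  have hp : p.Prime := Fact.out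
  have hD : 1 ≤ p ^ e := Nat.one_le_pow _ _ hp.pos
  have hhom : ∀ (c : κ) x, pt P (c • x) = c ^ (p ^ e) • pt P x := pt_hom hPh
  have hinf : Infinite κ := IsAlgClosed.instInfinite
  by_contra hnot
  set g : Option κ → Option κ := fun x => cl (pt P (rep x)) with hg
  -- the map on vectors and on points
  have hgcl : ∀ v : Fin 2 → κ, v ≠ 0 → g (cl v) = cl (pt P v) := by
    intro v hv
    obtain ⟨c, hc, hcv⟩ := rep_cl hv
    conv_rhs => rw [hcv, hhom, cl_smul (pow_ne_zero _ hc)]
  have hs : Function.Surjective g := by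
    intro c
    obtain ⟨v, hv, hv0⟩ := J19.form_zero (N := κ) (p ^ e) hD _
      (comb_hom hPh (rep c 1) (rep c 0))
    have h1 : wd (pt P v) (rep c) = 0 := by
      rw [← comb_eval]
      exact hv0
    exact ⟨cl v, by rw [hgcl v hv, cl_eq (hP0 v hv) (rep_ne c) h1, cl_rep]⟩
  have hP : ∀ c c', c ≠ c' → P2 g c ∨ P2 g c' := by
    intro c c' hne
    by_contra hcon
    push Not at hcon
    obtain ⟨h1, h2⟩ := hcon
    apply hnot
    have hinj : ∀ c, ¬ P2 g c → ∀ x, g x = c → ∀ y : Fin 2 → κ, y ≠ 0 →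
        wd (pt P y) (pt P (rep x)) = 0 → wd y (rep x) = 0 := by
      intro c hc x hx y hy hyx
      have h3 : g (cl y) = c := by
        rw [hgcl y hy, cl_eq (hP0 y hy) (hP0 _ (rep_ne x)) hyx]
        exact hx
      have h4 : cl y = x := by
        by_contra h5
        exact hc ⟨cl y, x, h5, h3, hx⟩
      exact wd_of_cl hy (rep_ne x) (by rw [h4, cl_rep])
    obtain ⟨x, hx⟩ := hs c
    obtain ⟨x', hx'⟩ := hs c'
    refine sing P hhom (rep_ne x) (rep_ne x') (hinj c h1 x hx) (hinj c' h2 x' hx') ?_ y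
    intro h0
    apply hne
    rw [← hx, ← hx']
    exact cl_eq (hP0 _ (rep_ne x)) (hP0 _ (rep_ne x')) h0
  -- the zeros of `t`
  set Z : Set (Option κ) := {none} ∪ {x | pt t (rep x) = 0} with hZ
  have hZf : Z.Finite := by
    classical
    have hτ : (![1, 0] : Fin 2 → κ) ≠ 0 := rep_ne none
    obtain ⟨-, -, h3⟩ := form_roots (comb_hom hth _ _) (hind _ hτ)
    refine ((Set.finite_singleton none).union
      ((Finset.finite_toSet ((R96.dh (C ((![1, 0] : Fin 2 → κ) 1) * t 0 -
        C ((![1, 0] : Fin 2 → κ) 0) * t 1)).roots.toFinset)).image some)).subset ?_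
    rintro x (hx | hx)
    · exact Or.inl hx
    · cases x with
      | none => exact Or.inl rfl
      | some a =>
        right
        refine ⟨a, ?_, rfl⟩
        rw [Finset.mem_coe, Multiset.mem_toFinset]
        apply h3
        rw [comb_eval]
        have hx' : pt t (rep (some a)) = 0 := hx
        rw [hx']
        simp [wd]
  refine no_semi g hs hP Z hZf (fun x => cl (pt t (rep x))) (fun y => cl (Φ (rep y))) ?_ ?_ m ?_
  · intro y y' h
    have h1 := wd_of_cl (hΦ0 _ (rep_ne y)) (hΦ0 _ (rep_ne y')) h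
    have h2 := cl_eq (rep_ne y) (rep_ne y') (hΦi _ _ (rep_ne y) (rep_ne y') h1)
    rwa [cl_rep, cl_rep] at h2
  · intro x hx hgx
    have hx1 : pt t (rep x) ≠ 0 := fun h => hx (Or.inr h)
    have hgx1 : pt t (rep (g x)) ≠ 0 := fun h => hgx (Or.inr h)
    obtain ⟨c, hc, hcu⟩ := rep_cl (hP0 _ (rep_ne x))
    obtain ⟨b, hb, hbu⟩ := rep_cl hx1
    have h1 := hsemi (rep x)
    rw [hcu, hbu, pt_hom hth, hΦh, wd_smul] at h1
    have h2 := (mul_eq_zero.1 h1).resolve_left (mul_ne_zero (pow_ne_zero _ hc) (pow_ne_zero _ hb))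
    exact cl_eq hgx1 (hΦ0 _ (rep_ne _)) h2
  · intro T hT1 hT2
    classical
    rcases T.eq_empty_or_nonempty with rfl | ⟨x0, hx0⟩
    · simp
    obtain ⟨h1, h2, h3⟩ := form_roots (comb_hom hth _ _) (hind _ (rep_ne (cl (pt t (rep x0)))))
    set h := R96.dh (C (rep (cl (pt t (rep x0))) 1) * t 0 -
      C (rep (cl (pt t (rep x0))) 0) * t 1) with hh
    have hsub : T ⊆ h.roots.toFinset.image some := by
      intro x hx
      cases x with
      | none => exact absurd (Or.inl rfl) (hT1 none hx)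
      | some a =>
        refine Finset.mem_image.2 ⟨a, ?_, rfl⟩
        rw [Multiset.mem_toFinset]
        apply h3
        rw [comb_eval]
        have hne : pt t (rep (some a)) ≠ 0 := fun h => hT1 _ hx (Or.inr h)
        refine wd_of_cl hne (rep_ne _) ?_
        rw [cl_rep]
        exact hT2 _ hx _ hx0
    calc T.card ≤ (h.roots.toFinset.image some).card := Finset.card_le_card hsub
      _ ≤ h.roots.toFinset.card := Finset.card_image_le
      _ ≤ h.roots.card := Multiset.toFinset_card_le _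
      _ ≤ h.natDegree := Polynomial.card_roots' h
      _ ≤ m := h2

end Pool.DynLehmer.UN.OG4

/-!
# Reduction of maps of the projective line: the reduction of a semiconjugacy
-/

namespace Pool.DynLehmer.UN.OG4
open MvPolynomial Pool.DynLehmer Pool.DynLehmer.GS

section res

variable {k : Type} [Field k]

/-- the residue field is algebraically closed -/
theorem isAlgClosed_residue [IsAlgClosed k] (O : ValuationSubring k) :
    IsAlgClosed (IsLocalRing.ResidueField O) := by
  refine IsAlgClosed.of_exists_root _ fun p hp hirr => ?_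
  have hl : p ∈ Polynomial.lifts (IsLocalRing.residue O) := by
    rw [Polynomial.lifts_iff_coeff_lifts]
    intro n
    exact IsLocalRing.residue_surjective _
  obtain ⟨g, hg, hdeg, hmon⟩ := Polynomial.lifts_and_natDegree_eq_and_monic hl hp
  have hd : (g.map (algebraMap O k)).degree ≠ 0 := by
    rw [hmon.degree_map, Polynomial.degree_eq_natDegree hmon.ne_zero, hdeg]
    have := hirr.natDegree_pos
    exact_mod_cast this.ne'
  obtain ⟨a, ha⟩ := IsAlgClosed.exists_root _ hd
  have hint : IsIntegral O a := ⟨g, hmon, by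
    rwa [Polynomial.IsRoot, Polynomial.eval_map] at ha⟩
  obtain ⟨b, rfl⟩ := IsIntegrallyClosed.isIntegral_iff.1 hint
  have hb : g.eval b = 0 := by
    rw [Polynomial.IsRoot, Polynomial.eval_map, Polynomial.eval₂_at_apply] at ha
    exact (FaithfulSMul.algebraMap_injective O k) (by rw [ha, map_zero])
  refine ⟨IsLocalRing.residue O b, ?_⟩
  rw [← hg, Polynomial.eval_map, Polynomial.eval₂_at_apply, hb, map_zero]

variable {Γ : Type} [LinearOrderedCommGroupWithZero Γ] (v : Valuation k Γ)

theorem res_zero (a : v.valuationSubring) :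
    IsLocalRing.residue v.valuationSubring a = 0 ↔ v (a : k) < 1 := by
  have ha : v (a : k) ≤ 1 := (Valuation.mem_valuationSubring_iff v _).1 a.2
  constructor
  · intro h
    refine lt_of_le_of_ne ha fun h1 => ?_
    have h0 : (a : k) ≠ 0 := by
      intro h2
      rw [h2, map_zero] at h1
      exact zero_ne_one h1
    have hu : IsUnit a := by
      refine IsUnit.of_mul_eq_one ⟨(a : k)⁻¹, ?_⟩ ?_
      · rw [Valuation.mem_valuationSubring_iff, map_inv₀, h1, inv_one]
      · apply Subtype.ext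
        exact mul_inv_cancel₀ h0
    exact (IsLocalRing.residue_ne_zero_iff_isUnit a).2 hu h
  · intro h
    by_contra hne
    obtain ⟨b, hb⟩ := ((IsLocalRing.residue_ne_zero_iff_isUnit a).1 hne).exists_right_inv
    have hb1 : v (b : k) ≤ 1 := (Valuation.mem_valuationSubring_iff v _).1 b.2
    have h2 : (a : k) * (b : k) = 1 := by
      have := congrArg (fun z : v.valuationSubring => (z : k)) hb
      simpa using this
    have h3 := congrArg v h2
    rw [map_mul, map_one] at h3
    have h4 : v (a : k) * v (b : k) ≤ v (a : k) * 1 := mul_le_mul_right hb1 _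
    rw [h3, mul_one] at h4
    exact absurd (h4.trans_lt h) (lt_irrefl _)

theorem coe_le (a : v.valuationSubring) : v (a : k) ≤ 1 :=
  (Valuation.mem_valuationSubring_iff v _).1 a.2

theorem lift_vec {σ : Type} (u : σ → k) (hu : ∀ i, v (u i) ≤ 1) :
    ∃ w : σ → v.valuationSubring, ∀ i, (w i : k) = u i :=
  ⟨fun i => ⟨u i, (Valuation.mem_valuationSubring_iff v _).2 (hu i)⟩, fun _ => rfl⟩

theorem lift_poly {σ : Type} (G : MvPolynomial σ k) (hG : ∀ t, v (coeff t G) ≤ 1) :
    ∃ G0 : MvPolynomial σ v.valuationSubring, map (algebraMap v.valuationSubring k) G0 = G := by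
  have h : G ∈ Set.range (MvPolynomial.map (σ := σ) (algebraMap v.valuationSubring k)) := by
    rw [mem_range_map_iff_coeffs_subset]
    intro c hc
    obtain ⟨t, -, rfl⟩ := mem_coeffs_iff.1 (Finset.mem_coe.1 hc)
    exact ⟨⟨_, (Valuation.mem_valuationSubring_iff v _).2 (hG t)⟩, rfl⟩
  exact h

theorem coeff_le {σ : Type} (G0 : MvPolynomial σ v.valuationSubring) (t : σ →₀ ℕ) :
    v (coeff t (map (algebraMap v.valuationSubring k) G0)) ≤ 1 := by
  rw [coeff_map]
  exact coe_le v _

/-- evaluation at integral points -/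
theorem eval_coe {σ : Type} (G0 : MvPolynomial σ v.valuationSubring)
    (w : σ → v.valuationSubring) :
    eval (fun i => (w i : k)) (map (algebraMap v.valuationSubring k) G0) =
      ((eval w G0 : v.valuationSubring) : k) := by
  rw [eval_map]
  have h := eval₂_comp_left (algebraMap v.valuationSubring k) (RingHom.id _) w G0
  rw [RingHom.comp_id] at h
  exact h.symm

theorem eval_res {σ : Type} (G0 : MvPolynomial σ v.valuationSubring)
    (w : σ → v.valuationSubring) :
    eval (fun i => IsLocalRing.residue v.valuationSubring (w i))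
      (map (IsLocalRing.residue v.valuationSubring) G0) =
      IsLocalRing.residue v.valuationSubring (eval w G0) := by
  rw [eval_map]
  have h := eval₂_comp_left (IsLocalRing.residue v.valuationSubring) (RingHom.id _) w G0
  rw [RingHom.comp_id] at h
  exact h.symm


theorem hom_lift {D : ℕ} {G : MvPolynomial (Fin 2) k}
    {G0 : MvPolynomial (Fin 2) v.valuationSubring}
    (h : map (algebraMap v.valuationSubring k) G0 = G) (hG : G.IsHomogeneous D) :
    G0.IsHomogeneous D := by
  intro t ht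
  apply hG
  rw [← h, coeff_map]
  intro h0
  exact ht ((FaithfulSMul.algebraMap_injective v.valuationSubring k) (by rw [h0, map_zero]))

/-- coordinates in `k` -/
def co (w : Fin 2 → v.valuationSubring) : Fin 2 → k := fun i => (w i : k)

/-- coordinates in the residue field -/
noncomputable def rs (w : Fin 2 → v.valuationSubring) :
    Fin 2 → IsLocalRing.ResidueField v.valuationSubring :=
  fun i => IsLocalRing.residue v.valuationSubring (w i)

/-- the value of forms -/
noncomputable def ev (G0 : Fin 2 → MvPolynomial (Fin 2) v.valuationSubring)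
    (w : Fin 2 → v.valuationSubring) : Fin 2 → v.valuationSubring := fun i => eval w (G0 i)

/-- the reduction of forms -/
noncomputable def rd (G0 : Fin 2 → MvPolynomial (Fin 2) v.valuationSubring) :
    Fin 2 → MvPolynomial (Fin 2) (IsLocalRing.ResidueField v.valuationSubring) :=
  fun i => map (IsLocalRing.residue v.valuationSubring) (G0 i)

theorem co_ne {w : Fin 2 → v.valuationSubring} (h : rs v w ≠ 0) : co v w ≠ 0 := by
  intro h0
  apply h
  funext i
  have h1 : w i = 0 := Subtype.ext (congrFun h0 i)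
  show IsLocalRing.residue v.valuationSubring (w i) = 0
  rw [h1, map_zero]

theorem rs_surj (x : Fin 2 → IsLocalRing.ResidueField v.valuationSubring) :
    ∃ w, rs v w = x := by
  choose w hw using fun i => IsLocalRing.residue_surjective (x i)
  exact ⟨w, funext hw⟩

theorem co_ev {G : Fin 2 → MvPolynomial (Fin 2) k}
    {G0 : Fin 2 → MvPolynomial (Fin 2) v.valuationSubring}
    (h : ∀ i, map (algebraMap v.valuationSubring k) (G0 i) = G i)
    (w : Fin 2 → v.valuationSubring) : gAct G k (co v w) = co v (ev v G0 w) := by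
  funext i
  show aeval (co v w) (G i) = _
  rw [← h i]
  exact eval_coe v (G0 i) w

theorem rs_ev (G0 : Fin 2 → MvPolynomial (Fin 2) v.valuationSubring)
    (w : Fin 2 → v.valuationSubring) : pt (rd v G0) (rs v w) = rs v (ev v G0 w) := by
  funext i
  exact eval_res v (G0 i) w

theorem wd_co (w z : Fin 2 → v.valuationSubring) :
    wd (co v w) (co v z) = ((wd w z : v.valuationSubring) : k) := rfl

theorem wd_rs (w z : Fin 2 → v.valuationSubring) :
    wd (rs v w) (rs v z) = IsLocalRing.residue v.valuationSubring (wd w z) := by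
  unfold wd rs
  rw [map_sub, map_mul, map_mul]

theorem rs_ne_iff (w : Fin 2 → v.valuationSubring) :
    rs v w ≠ 0 ↔ max (v (co v w 0)) (v (co v w 1)) = 1 := by
  constructor
  · intro hw
    refine le_antisymm (max_le (coe_le v _) (coe_le v _)) ?_
    by_contra hcon
    push Not at hcon
    apply hw
    funext j
    show IsLocalRing.residue v.valuationSubring (w j) = 0
    rw [res_zero]
    fin_cases j
    · exact (le_max_left _ _).trans_lt hcon
    · exact (le_max_right _ _).trans_lt hcon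
  · intro h h0
    have h1 : ∀ j, v (w j : k) < 1 := fun j => (res_zero v (w j)).1 (congrFun h0 j)
    exact absurd h (max_lt (h1 0) (h1 1)).ne

end res

/-- a form without mixed terms -/
theorem pure_form {κ : Type} [Field κ] {q : ℕ} (hq : 1 ≤ q) (H : MvPolynomial (Fin 2) κ)
    (h : ∀ t, (∀ j, t ≠ Finsupp.single j q) → coeff t H = 0) :
    H = C (coeff (Finsupp.single 0 q) H) * X 0 ^ q + C (coeff (Finsupp.single 1 q) H) * X 1 ^ q := by
  classical
  have hX : ∀ j : Fin 2, (X j ^ q : MvPolynomial (Fin 2) κ) = monomial (Finsupp.single j q) 1 :=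
    fun j => X_pow_eq_monomial
  have hne : (Finsupp.single 0 q : Fin 2 →₀ ℕ) ≠ Finsupp.single 1 q := by
    intro h0
    have := DFunLike.congr_fun h0 0
    simp at this
    omega
  ext t
  rw [coeff_add, coeff_C_mul, coeff_C_mul, hX, hX, coeff_monomial, coeff_monomial]
  by_cases h0 : t = Finsupp.single 0 q
  · rw [h0, if_pos rfl, if_neg hne.symm, mul_one, mul_zero, add_zero]
  · by_cases h1 : t = Finsupp.single 1 q
    · rw [h1, if_neg hne, if_pos rfl, mul_one, mul_zero, zero_add]
    · rw [if_neg (Ne.symm h0), if_neg (Ne.symm h1), mul_zero, mul_zero, add_zero]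
      apply h
      intro j
      fin_cases j
      exacts [h0, h1]

/-- a Frobenius form -/
theorem pure_coeff {κ : Type} [Field κ] [Infinite κ] {q : ℕ} (hq : 1 ≤ q)
    (H : MvPolynomial (Fin 2) κ) (a b : κ) (h : ∀ y : Fin 2 → κ, eval y H = y 0 ^ q * a + y 1 ^ q * b) :
    (∀ t, (∀ j, t ≠ Finsupp.single j q) → coeff t H = 0) ∧ coeff (Finsupp.single 0 q) H = a ∧
      coeff (Finsupp.single 1 q) H = b := by
  classical
  have hH : H = C a * X 0 ^ q + C b * X 1 ^ q := by
    apply MvPolynomial.funext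
    intro y
    rw [h, map_add, map_mul, map_mul, map_pow, map_pow, eval_C, eval_C, eval_X, eval_X]
    ring
  have hX : ∀ j : Fin 2, (X j ^ q : MvPolynomial (Fin 2) κ) = monomial (Finsupp.single j q) 1 :=
    fun j => X_pow_eq_monomial
  have hne : (Finsupp.single 0 q : Fin 2 →₀ ℕ) ≠ Finsupp.single 1 q := by
    intro h0
    have := DFunLike.congr_fun h0 0
    simp at this
    omega
  have hc : ∀ t, coeff t H = a * (if Finsupp.single 0 q = t then 1 else 0) +
      b * (if Finsupp.single 1 q = t then 1 else 0) := by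
    intro t
    rw [hH, coeff_add, coeff_C_mul, coeff_C_mul, hX, hX, coeff_monomial, coeff_monomial]
  refine ⟨fun t ht => ?_, ?_, ?_⟩
  · rw [hc, if_neg (Ne.symm (ht 0)), if_neg (Ne.symm (ht 1)), mul_zero, mul_zero, add_zero]
  · rw [hc, if_pos rfl, if_neg hne.symm, mul_one, mul_zero, add_zero]
  · rw [hc, if_neg hne, if_pos rfl, mul_one, mul_zero, zero_add]

theorem wd_ne_zero {κ : Type} [Field κ] [IsAlgClosed κ] {D : ℕ} (hD : 1 ≤ D) (a b : Fin 2 → κ)
    (h : ∀ y : Fin 2 → κ, y ≠ 0 → y 0 ^ D • a + y 1 ^ D • b ≠ 0) : wd a b ≠ 0 := by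
  intro h0
  have hb : b ≠ 0 := by
    intro hb
    apply h ![0, 1] (by intro h; simpa using congrFun h 1)
    simp only [Matrix.cons_val_zero, Matrix.cons_val_one, hb, smul_zero, add_zero]
    rw [zero_pow (by omega), zero_smul]
  obtain ⟨c, hc⟩ := exists_smul hb h0
  obtain ⟨z, hz⟩ := IsAlgClosed.exists_pow_nat_eq (-c) (by omega : 0 < D)
  apply h ![1, z] (by intro h; simpa using congrFun h 0)
  simp only [Matrix.cons_val_zero, Matrix.cons_val_one]
  rw [one_pow, one_smul, hz, hc, ← add_smul, add_neg_cancel, zero_smul]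

end Pool.DynLehmer.UN.OG4

/-!
# Purely inseparable reduction of a map semiconjugate to one with purely inseparable reduction
-/

namespace Pool.DynLehmer.UN.OG4
open MvPolynomial Pool.DynLehmer Pool.DynLehmer.GS

/-- the determinant of two values of a Frobenius form -/
theorem wd_frob {κ : Type} [Field κ] {p s : ℕ} [Fact p.Prime] [CharP κ p]
    {P : Fin 2 → MvPolynomial (Fin 2) κ} {a b : Fin 2 → κ}
    (hP : ∀ x, pt P x = x 0 ^ (p ^ s) • a + x 1 ^ (p ^ s) • b) (x y : Fin 2 → κ) :
    wd (pt P x) (pt P y) = wd a b * wd x y ^ (p ^ s) := by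
  have h1 : wd x y ^ (p ^ s) = (x 0 * y 1) ^ (p ^ s) - (x 1 * y 0) ^ (p ^ s) :=
    sub_pow_char_pow (x 0 * y 1) (x 1 * y 0) s
  rw [h1, hP, hP, mul_pow, mul_pow]
  unfold wd
  simp only [Pi.add_apply, Pi.smul_apply, smul_eq_mul]
  ring

theorem coreB {k : Type} [Field k] [IsAlgClosed k] {Γ : Type} [LinearOrderedCommGroupWithZero Γ]
    (v : Valuation k Γ) {p s M m : ℕ} (hp : p.Prime) (hvp : v (p : k) < 1) (hm : 1 ≤ m)
    {F θ G : Fin 2 → MvPolynomial (Fin 2) k} (hFh : ∀ i, (F i).IsHomogeneous (p ^ s))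
    (hFi : ∀ i t, v (coeff t (F i)) ≤ 1)
    (hFs : ∀ i t, (∀ j, t ≠ Finsupp.single j (p ^ s)) → v (coeff t (F i)) < 1)
    (hFd : v (Matrix.det (Matrix.of fun i j => coeff (Finsupp.single j (p ^ s)) (F i))) = 1)
    (hGh : ∀ i, (G i).IsHomogeneous (p ^ (s * M))) (hGi : ∀ i t, v (coeff t (G i)) ≤ 1)
    (hGn : ∀ u : Fin 2 → k, max (v (u 0)) (v (u 1)) = 1 →
      max (v (gAct G k u 0)) (v (gAct G k u 1)) = 1)
    (hθh : ∀ i, (θ i).IsHomogeneous m) (hθi : ∀ i t, v (coeff t (θ i)) ≤ 1)
    (hind : ∀ u : Fin 2 → k, max (v (u 0)) (v (u 1)) = 1 →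
      ∃ e, v (u 1 * coeff e (θ 0) - u 0 * coeff e (θ 1)) = 1)
    (hsemi : ∀ u : Fin 2 → k, u ≠ 0 →
      Prl (gAct θ k (gAct G k u)) ((gAct F k)^[M] (gAct θ k u))) :
    (∀ i t, (∀ j, t ≠ Finsupp.single j (p ^ (s * M))) → v (coeff t (G i)) < 1) ∧
    v (Matrix.det (Matrix.of fun i j => coeff (Finsupp.single j (p ^ (s * M))) (G i))) = 1 := by
  have hq1 : 1 ≤ p ^ s := Nat.one_le_pow _ _ hp.pos
  have hD1 : 1 ≤ p ^ (s * M) := Nat.one_le_pow _ _ hp.pos
  have hfact : Fact p.Prime := ⟨hp⟩
  have hκ : IsAlgClosed (IsLocalRing.ResidueField v.valuationSubring) :=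
    isAlgClosed_residue v.valuationSubring
  have hinf : Infinite (IsLocalRing.ResidueField v.valuationSubring) :=
    IsAlgClosed.instInfinite
  have hchar : CharP (IsLocalRing.ResidueField v.valuationSubring) p := by
    rw [CharP.charP_iff_prime_eq_zero hp]
    have h1 : IsLocalRing.residue v.valuationSubring ((p : ℕ) : v.valuationSubring) = 0 := by
      rw [res_zero]
      have h2 : (((p : ℕ) : v.valuationSubring) : k) = (p : k) := by push_cast; rfl
      rw [h2]
      exact hvp
    rwa [map_natCast] at h1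
  choose F0 hF0 using fun i => lift_poly v (F i) (hFi i)
  choose G0 hG0 using fun i => lift_poly v (G i) (hGi i)
  choose θ0 hθ0 using fun i => lift_poly v (θ i) (hθi i)
  have cF : ∀ i t, coeff t (F i) = ((coeff t (F0 i) : v.valuationSubring) : k) := by
    intro i t
    rw [← hF0 i, coeff_map]
    rfl
  have cG : ∀ i t, coeff t (G i) = ((coeff t (G0 i) : v.valuationSubring) : k) := by
    intro i t
    rw [← hG0 i, coeff_map]
    rfl
  have cθ : ∀ i t, coeff t (θ i) = ((coeff t (θ0 i) : v.valuationSubring) : k) := by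
    intro i t
    rw [← hθ0 i, coeff_map]
    rfl
  -- the reduction of `F`
  set Fr := rd v F0 with hFr
  set Gr := rd v G0 with hGr
  set θr := rd v θ0 with hθr
  have hFrh : ∀ i, (Fr i).IsHomogeneous (p ^ s) := fun i => (hom_lift v (hF0 i) (hFh i)).map _
  have hGrh : ∀ i, (Gr i).IsHomogeneous (p ^ (s * M)) :=
    fun i => (hom_lift v (hG0 i) (hGh i)).map _
  have hθrh : ∀ i, (θr i).IsHomogeneous m := fun i => (hom_lift v (hθ0 i) (hθh i)).map _
  set a : Fin 2 → IsLocalRing.ResidueField v.valuationSubring :=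
    fun i => coeff (Finsupp.single 0 (p ^ s)) (Fr i) with ha
  set b : Fin 2 → IsLocalRing.ResidueField v.valuationSubring :=
    fun i => coeff (Finsupp.single 1 (p ^ s)) (Fr i) with hb
  have hFrf : ∀ x, pt Fr x = x 0 ^ (p ^ s) • a + x 1 ^ (p ^ s) • b := by
    intro x
    funext i
    show eval x (Fr i) = x 0 ^ (p ^ s) * a i + x 1 ^ (p ^ s) * b i
    rw [pure_form hq1 (Fr i) (by
      intro t ht
      show coeff t (map _ (F0 i)) = 0
      rw [coeff_map, res_zero, ← cF]
      exact hFs i t ht), map_add, map_mul, map_mul, map_pow, map_pow, eval_C, eval_C, eval_X,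
      eval_X]
    ring
  have hab : wd a b ≠ 0 := by
    intro h0
    have h1 : IsLocalRing.residue v.valuationSubring
        (coeff (Finsupp.single 0 (p ^ s)) (F0 0) * coeff (Finsupp.single 1 (p ^ s)) (F0 1) -
          coeff (Finsupp.single 0 (p ^ s)) (F0 1) * coeff (Finsupp.single 1 (p ^ s)) (F0 0)) =
        0 := by
      rw [← h0, map_sub, map_mul, map_mul]
      simp only [wd, ha, hb, hFr, rd, coeff_map]
    rw [res_zero] at h1
    rw [Matrix.det_fin_two] at hFd
    simp only [Matrix.of_apply, cF] at hFd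
    have h2 := h1
    push_cast at h2
    rw [mul_comm ((coeff (Finsupp.single 0 (p ^ s)) (F0 1) : v.valuationSubring) : k)] at h2
    rw [hFd] at h2
    exact absurd h2 (lt_irrefl _)
  have hFri : ∀ x y, x ≠ 0 → y ≠ 0 → wd (pt Fr x) (pt Fr y) = 0 → wd x y = 0 := by
    intro x y _ _ h
    rw [wd_frob hFrf] at h
    exact (pow_eq_zero_iff (by omega)).1 ((mul_eq_zero.1 h).resolve_left hab)
  have hFr0 : ∀ x, x ≠ 0 → pt Fr x ≠ 0 := by
    intro x hx h
    apply hx
    have h1 : ∀ y, wd x y = 0 := by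
      intro y
      have h2 := wd_frob hFrf x y
      rw [h] at h2
      have h3 : wd (0 : Fin 2 → IsLocalRing.ResidueField v.valuationSubring) (pt Fr y) = 0 := by
        unfold wd; simp
      rw [h3] at h2
      exact (pow_eq_zero_iff (by omega)).1 ((mul_eq_zero.1 h2.symm).resolve_left hab)
    funext i
    fin_cases i
    · have := h1 ![0, 1]
      simpa [wd] using this
    · have := h1 ![1, 0]
      simpa [wd] using this
  -- iterates
  have hΦ0 : ∀ (n : ℕ) x, x ≠ 0 → (pt Fr)^[n] x ≠ 0 := by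
    intro n
    induction n with
    | zero => exact fun x hx => hx
    | succ n ih =>
      intro x hx
      rw [Function.iterate_succ_apply']
      exact hFr0 _ (ih x hx)
  have hΦh : ∀ (n : ℕ) (c : IsLocalRing.ResidueField v.valuationSubring) x,
      (pt Fr)^[n] (c • x) = c ^ ((p ^ s) ^ n) • (pt Fr)^[n] x := by
    intro n
    induction n with
    | zero => intro c x; rw [pow_zero, pow_one]; rfl
    | succ n ih =>
      intro c x
      rw [Function.iterate_succ_apply', ih, pt_hom hFrh, Function.iterate_succ_apply', ← pow_mul,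
        ← pow_succ]
  have hΦi : ∀ (n : ℕ) x y, x ≠ 0 → y ≠ 0 → wd ((pt Fr)^[n] x) ((pt Fr)^[n] y) = 0 →
      wd x y = 0 := by
    intro n
    induction n with
    | zero => intro x y _ _ h; exact h
    | succ n ih =>
      intro x y hx hy h
      rw [Function.iterate_succ_apply', Function.iterate_succ_apply'] at h
      exact ih x y hx hy (hFri _ _ (hΦ0 n x hx) (hΦ0 n y hy) h)
  have hit : ∀ (n : ℕ) w, (gAct F k)^[n] (co v w) = co v ((ev v F0)^[n] w) := by
    intro n
    induction n with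
    | zero => intro w; rfl
    | succ n ih =>
      intro w
      rw [Function.iterate_succ_apply', ih, co_ev v hF0, Function.iterate_succ_apply']
  have hitr : ∀ (n : ℕ) w, (pt Fr)^[n] (rs v w) = rs v ((ev v F0)^[n] w) := by
    intro n
    induction n with
    | zero => intro w; rfl
    | succ n ih =>
      intro w
      rw [Function.iterate_succ_apply', ih, hFr, rs_ev, Function.iterate_succ_apply']
  -- the reduction of `G`
  have hGr0 : ∀ x, x ≠ 0 → pt Gr x ≠ 0 := by
    intro x hx
    obtain ⟨w, rfl⟩ := rs_surj v x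
    have h1 := hGn _ ((rs_ne_iff v w).1 hx)
    rw [co_ev v hG0] at h1
    rw [hGr, rs_ev]
    exact (rs_ne_iff v _).2 h1
  have hsemi' : ∀ x, wd (pt θr (pt Gr x)) ((pt Fr)^[M] (pt θr x)) = 0 := by
    intro x
    by_cases hx : x = 0
    · have h1 : pt Gr x = 0 := by
        have h2 := pt_hom hGrh (0 : IsLocalRing.ResidueField v.valuationSubring) 0
        rw [smul_zero, zero_pow (by omega), zero_smul] at h2
        rw [hx, h2]
      have h3 : pt θr (0 : Fin 2 → IsLocalRing.ResidueField v.valuationSubring) = 0 := by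
        have h2 := pt_hom hθrh (0 : IsLocalRing.ResidueField v.valuationSubring) 0
        rw [smul_zero, zero_pow (by omega), zero_smul] at h2
        exact h2
      rw [h1, h3]
      unfold wd
      simp
    · obtain ⟨w, rfl⟩ := rs_surj v x
      obtain ⟨c, -, hc⟩ := hsemi _ (co_ne v hx)
      rw [co_ev v hG0, co_ev v hθ0, co_ev v hθ0, hit] at hc
      have h1 : wd (ev v θ0 (ev v G0 w)) ((ev v F0)^[M] (ev v θ0 w)) = 0 := by
        apply Subtype.ext
        rw [← wd_co, hc]
        show wd _ _ = (0 : k)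
        unfold wd
        simp only [Pi.smul_apply, smul_eq_mul]
        ring
      rw [hGr, hθr, rs_ev, rs_ev, rs_ev, hitr, wd_rs, h1, map_zero]
  have hind' : ∀ τ : Fin 2 → IsLocalRing.ResidueField v.valuationSubring, τ ≠ 0 →
      C (τ 1) * θr 0 - C (τ 0) * θr 1 ≠ 0 := by
    intro τ hτ h0
    obtain ⟨w, rfl⟩ := rs_surj v τ
    obtain ⟨e, he⟩ := hind _ ((rs_ne_iff v w).1 hτ)
    have h1 := congrArg (coeff e) h0
    rw [coeff_sub, coeff_C_mul, coeff_C_mul, coeff_zero] at h1
    have h2 : IsLocalRing.residue v.valuationSubring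
        (w 1 * coeff e (θ0 0) - w 0 * coeff e (θ0 1)) = 0 := by
      rw [← h1, map_sub, map_mul, map_mul]
      simp only [hθr, rd, coeff_map, rs]
    rw [res_zero] at h2
    rw [cθ, cθ] at he
    have h3 : v (((w 1 * coeff e (θ0 0) - w 0 * coeff e (θ0 1) : v.valuationSubring)) : k) = 1 :=
      he
    rw [h3] at h2
    exact absurd h2 (lt_irrefl _)
  have key := coreA Gr θr hGrh hθrh hGr0 ((pt Fr)^[M]) (hΦ0 M) (hΦh M) (hΦi M) hsemi' hind'
  have hpc := fun i => pure_coeff hD1 (Gr i) (pt Gr ![1, 0] i) (pt Gr ![0, 1] i)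
    (fun y => congrFun (key y) i)
  constructor
  · intro i t ht
    have h1 := (hpc i).1 t ht
    rw [cG, ← res_zero, ← h1]
    simp only [hGr, rd, coeff_map]
  · have h1 := wd_ne_zero hD1 (pt Gr ![1, 0]) (pt Gr ![0, 1]) (by
      intro y hy
      rw [← key y]
      exact hGr0 y hy)
    have h2 : IsLocalRing.residue v.valuationSubring
        (coeff (Finsupp.single 0 (p ^ (s * M))) (G0 0) *
          coeff (Finsupp.single 1 (p ^ (s * M))) (G0 1) -
          coeff (Finsupp.single 1 (p ^ (s * M))) (G0 0) *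
          coeff (Finsupp.single 0 (p ^ (s * M))) (G0 1)) ≠ 0 := by
      intro h0
      apply h1
      unfold wd
      rw [← (hpc 0).2.1, ← (hpc 1).2.1, ← (hpc 0).2.2, ← (hpc 1).2.2, ← h0, map_sub, map_mul,
        map_mul]
      simp only [hGr, rd, coeff_map]
      ring
    rw [Matrix.det_fin_two]
    simp only [Matrix.of_apply, cG]
    refine le_antisymm (coe_le v (coeff (Finsupp.single 0 (p ^ (s * M))) (G0 0) *
          coeff (Finsupp.single 1 (p ^ (s * M))) (G0 1) -
          coeff (Finsupp.single 1 (p ^ (s * M))) (G0 0) *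
          coeff (Finsupp.single 0 (p ^ (s * M))) (G0 1))) ?_
    by_contra hcon
    push Not at hcon
    exact h2 ((res_zero v _).2 hcon)

end Pool.DynLehmer.UN.OG4

/-! # Row GAUSS -/

namespace Pool.DynLehmer.UN.OG4
open Polynomial

theorem gaussRow : Orb.GaussStatement := by
  intro k Ω _ _ _ _ _ ab A hab hBig x hx
  exact gauss hab hBig.na hBig.ext hx

end Pool.DynLehmer.UN.OG4

/-! # Row INSEP -/

namespace Pool.DynLehmer.UN.OG4
open MvPolynomial Pool.DynLehmer Pool.DynLehmer.GS
open scoped NNReal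

section

variable {k : Type} [Field k] (ab : AbsoluteValue k ℝ) (h : IsNonarchimedean ab)

/-- the valuation of a nonarchimedean absolute value -/
noncomputable def vl : Valuation k ℝ≥0 where
  toFun x := ⟨ab x, ab.nonneg x⟩
  map_zero' := by
    apply NNReal.eq
    exact ab.map_zero
  map_one' := by
    apply NNReal.eq
    exact ab.map_one
  map_mul' x y := by
    apply NNReal.eq
    exact ab.map_mul x y
  map_add_le_max' x y := by
    have key : ∀ a b c : ℝ≥0, (a : ℝ) ≤ max (b : ℝ) (c : ℝ) → a ≤ max b c := by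
      intro a b c habc
      rw [← NNReal.coe_le_coe, NNReal.coe_max]
      exact habc
    exact key _ _ _ (h x y)

theorem vl_coe (x : k) : ((vl ab h x : ℝ≥0) : ℝ) = ab x := rfl

theorem vl_le_one {x : k} : vl ab h x ≤ 1 ↔ ab x ≤ 1 := by
  rw [← NNReal.coe_le_coe, vl_coe, NNReal.coe_one]

theorem vl_lt_one {x : k} : vl ab h x < 1 ↔ ab x < 1 := by
  rw [← NNReal.coe_lt_coe, vl_coe, NNReal.coe_one]

theorem vl_eq_one {x : k} : vl ab h x = 1 ↔ ab x = 1 := by
  rw [← NNReal.coe_inj, vl_coe, NNReal.coe_one]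

theorem vl_nm {x : Fin 2 → k} : max (vl ab h (x 0)) (vl ab h (x 1)) = 1 ↔ RV.nm ab x = 1 := by
  unfold RV.nm
  rw [← NNReal.coe_inj, NNReal.coe_max, vl_coe, vl_coe, NNReal.coe_one]

end

/-- a common bound -/
theorem exists_lt {k : Type} [Field k] (v : Valuation k ℝ≥0) (D : ℕ)
    (G : Fin 2 → MvPolynomial (Fin 2) k)
    (h : ∀ i t, (∀ j, t ≠ Finsupp.single j D) → v (coeff t (G i)) < 1) :
    ∃ B : ℝ≥0, B < 1 ∧ ∀ i t, (∀ j, t ≠ Finsupp.single j D) → v (coeff t (G i)) ≤ B := by
  classical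
  set B : Fin 2 → ℝ≥0 := fun i =>
    ((G i).support.filter fun t => ∀ l, t ≠ Finsupp.single l D).sup
      fun t => v (coeff t (G i)) with hB
  have hB1 : ∀ i, B i < 1 := by
    intro i
    rw [hB, Finset.sup_lt_iff (by simp)]
    intro t ht
    exact h i t (Finset.mem_filter.1 ht).2
  refine ⟨max (B 0) (B 1), max_lt (hB1 0) (hB1 1), fun i t ht => ?_⟩
  have h1 : v (coeff t (G i)) ≤ B i := by
    by_cases h0 : t ∈ (G i).support
    · exact Finset.le_sup (f := fun t => v (coeff t (G i))) (Finset.mem_filter.2 ⟨h0, ht⟩)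
    · rw [notMem_support_iff.1 h0, map_zero]
      exact zero_le
  refine h1.trans ?_
  fin_cases i
  · exact le_max_left _ _
  · exact le_max_right _ _

/-- coefficients of a form and of its dehomogenisation -/
theorem coeff_dh {k : Type} [Field k] {m : ℕ} {P : MvPolynomial (Fin 2) k}
    (hP : P.IsHomogeneous m) (e : Fin 2 →₀ ℕ) :
    coeff e P = if e 0 + e 1 = m then (R96.dh P).coeff (e 0) else 0 := by
  conv_lhs => rw [← R96.hom_dh hP]
  exact Polynomial.coeff_homogenize _ _ _

theorem exists_e {k : Type} [Field k] {m : ℕ} {P : MvPolynomial (Fin 2) k}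
    (hP : P.IsHomogeneous m) {i : ℕ} (hi : i ≤ m) :
    coeff (Finsupp.single 0 i + Finsupp.single 1 (m - i)) P = (R96.dh P).coeff i := by
  have h0 : (Finsupp.single 0 i + Finsupp.single 1 (m - i) : Fin 2 →₀ ℕ) 0 = i := by simp
  have h1 : (Finsupp.single 0 i + Finsupp.single 1 (m - i) : Fin 2 →₀ ℕ) 1 = m - i := by simp
  rw [coeff_dh hP, h0, h1, if_pos (by omega)]

theorem act_smul {k : Type} [Field k] (Q : Fin 2 → MvPolynomial (Fin 2) k) (a : k)
    (u : Fin 2 → k) : gAct (fun i => C a * Q i) k u = a • gAct Q k u := by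
  funext i
  show aeval u (C a * Q i) = a * aeval u (Q i)
  rw [map_mul, algHom_C]
  rfl

theorem insepRow : Orb.InsepStatement := by
  intro k Ω _ _ _ _ _ ab A hna hBig hex p s M m L F θ G hp hs hM hm hpL hL hF hθ hG hsemi hgen
    hGi hGn
  obtain ⟨z, hz⟩ := hex
  have hw := hgen z hz
  obtain ⟨-, hgs⟩ := gauss hna hBig.na hBig.ext hz
  set h0 := R96.dh (θ 0) with hh0
  set h1 := R96.dh (θ 1) with hh1
  have e0 : aeval ![z, 1] (θ 0) = Polynomial.aeval z h0 := R96.aeval_dh z (θ 0)
  have e1 : aeval ![z, 1] (θ 1) = Polynomial.aeval z h1 := R96.aeval_dh z (θ 1)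
  set w := fr θ z with hwdef
  have hwq : w = Polynomial.aeval z h0 / Polynomial.aeval z h1 := by
    rw [hwdef, fr, e0, e1]
  have hAw : A w = 1 := by
    have := hw 0 (by rw [AbsoluteValue.map_zero]; exact zero_le_one)
    rwa [map_zero, sub_zero] at this
  have hw0 : w ≠ 0 := by
    intro h
    rw [h, AbsoluteValue.map_zero] at hAw
    exact zero_ne_one hAw
  have hz1 : Polynomial.aeval z h1 ≠ 0 := by
    intro h
    rw [h, div_zero] at hwq
    exact hw0 hwq
  have hz01 : Polynomial.aeval z h0 = w * Polynomial.aeval z h1 := by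
    rw [hwq, div_mul_cancel₀ _ hz1]
  have hA01 : A (Polynomial.aeval z h0) = A (Polynomial.aeval z h1) := by
    rw [hz01, map_mul, hAw, one_mul]
  have hh1ne : h1 ≠ 0 := by
    intro h
    rw [h, map_zero] at hz1
    exact hz1 rfl
  obtain ⟨i1, hi1⟩ := (hgs h1).2 hh1ne
  have hc0 : h1.coeff i1 ≠ 0 := by
    intro h
    rw [h, AbsoluteValue.map_zero] at hi1
    exact hz1 ((AbsoluteValue.eq_zero A).1 hi1)
  set a : k := (h1.coeff i1)⁻¹ with ha
  have ha0 : a ≠ 0 := inv_ne_zero hc0
  have haA : ab a * A (Polynomial.aeval z h1) = 1 := by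
    rw [hi1, ha, ← map_mul, inv_mul_cancel₀ hc0, map_one]
  have hapos : 0 ≤ ab a := ab.nonneg _
  -- the coefficients
  have hle : ∀ i e, ab (coeff e (C a * θ i)) ≤ 1 := by
    intro i e
    rw [coeff_C_mul, map_mul, ← haA]
    refine mul_le_mul_of_nonneg_left ?_ hapos
    rw [coeff_dh (hθ.hom i)]
    split_ifs
    · fin_cases i
      · exact ((hgs h0).1 (e 0)).trans hA01.le
      · exact (hgs h1).1 (e 0)
    · rw [AbsoluteValue.map_zero]
      exact A.nonneg _
  have hind : ∀ u : Fin 2 → k, RV.nm ab u = 1 →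
      ∃ e, ab (u 1 * coeff e (C a * θ 0) - u 0 * coeff e (C a * θ 1)) = 1 := by
    intro u hu
    have hu0 : ab (u 0) ≤ 1 := by rw [← hu]; exact le_max_left _ _
    have hu1 : ab (u 1) ≤ 1 := by rw [← hu]; exact le_max_right _ _
    have hAu : A (algebraMap k Ω (u 1) * w - algebraMap k Ω (u 0)) = 1 := by
      rcases hu1.lt_or_eq with hlt | heq
      · have hu01 : ab (u 0) = 1 := by
          refine le_antisymm hu0 ?_
          by_contra hcon
          push Not at hcon
          exact absurd hu (max_lt hcon hlt).ne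
        rw [na_eq hBig.na, hBig.ext, hu01]
        rw [map_mul, hBig.ext, hBig.ext, hAw, mul_one, hu01]
        exact hlt
      · have hne : u 1 ≠ 0 := by
          intro h
          rw [h, AbsoluteValue.map_zero] at heq
          exact zero_ne_one heq
        have h2 := hw (u 0 / u 1) (by rw [map_div₀, heq, div_one]; exact hu0)
        have h3 : algebraMap k Ω (u 1) * w - algebraMap k Ω (u 0) =
            algebraMap k Ω (u 1) * (w - algebraMap k Ω (u 0 / u 1)) := by
          rw [mul_sub, ← map_mul, mul_div_cancel₀ _ hne]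
        rw [h3, map_mul, hBig.ext, heq, h2, one_mul]
    set T : Polynomial k := Polynomial.C (u 1 * a) * h0 - Polynomial.C (u 0 * a) * h1 with hT
    have hTz : A (Polynomial.aeval z T) = 1 := by
      have h2 : Polynomial.aeval z T = algebraMap k Ω a * Polynomial.aeval z h1 *
          (algebraMap k Ω (u 1) * w - algebraMap k Ω (u 0)) := by
        have h4 : ∀ (c : k) (f : Polynomial k), Polynomial.aeval z (Polynomial.C c * f) =
            algebraMap k Ω c * Polynomial.aeval z f := by
          intro c f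
          rw [map_mul, Polynomial.aeval_C]
        rw [hT, map_sub, h4, h4, hz01, map_mul (algebraMap k Ω), map_mul (algebraMap k Ω)]
        ring
      rw [h2, map_mul, map_mul, hAu, hBig.ext, haA, mul_one]
    have hT0 : T ≠ 0 := by
      intro h
      rw [h, map_zero, AbsoluteValue.map_zero] at hTz
      exact zero_ne_one hTz
    obtain ⟨i, hi⟩ := (hgs T).2 hT0
    rw [hTz, hT, Polynomial.coeff_sub, Polynomial.coeff_C_mul, Polynomial.coeff_C_mul] at hi
    have him : i ≤ m := by
      by_contra hcon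
      push Not at hcon
      rw [Polynomial.coeff_eq_zero_of_natDegree_lt ((R96.natDegree_dh_le (hθ.hom 0)).trans_lt hcon),
        Polynomial.coeff_eq_zero_of_natDegree_lt ((R96.natDegree_dh_le (hθ.hom 1)).trans_lt hcon),
        mul_zero, mul_zero, sub_zero, AbsoluteValue.map_zero] at hi
      exact one_ne_zero hi
    refine ⟨Finsupp.single 0 i + Finsupp.single 1 (m - i), ?_⟩
    rw [coeff_C_mul, coeff_C_mul, exists_e (hθ.hom 0) him, exists_e (hθ.hom 1) him, hi]
    congr 1
    ring
  have hθ'h : ∀ i, (C a * θ i).IsHomogeneous m := by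
    intro i
    have h2 := (isHomogeneous_C (Fin 2) a).mul (hθ.hom i)
    rwa [zero_add] at h2
  have hsemi' : ∀ u : Fin 2 → k, u ≠ 0 →
      Prl (gAct (fun i => C a * θ i) k (gAct G k u))
        ((gAct F k)^[M] (gAct (fun i => C a * θ i) k u)) := by
    intro u hu
    obtain ⟨c, hc, hcu⟩ := hsemi u hu
    have hb : a ^ (p ^ s) ^ M ≠ 0 := pow_ne_zero _ ha0
    refine ⟨a * c * (a ^ (p ^ s) ^ M)⁻¹, mul_ne_zero (mul_ne_zero ha0 hc) (inv_ne_zero hb), ?_⟩
    rw [act_smul, act_smul, Bas.iter_smul hF.hom, hcu, smul_smul, smul_smul,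
      mul_assoc (a * c), inv_mul_cancel₀ hb, mul_one]
  have hDeq : p ^ (s * M) = (p ^ s) ^ M := pow_mul p s M
  obtain ⟨r1, r2⟩ := coreB (vl ab hna) (p := p) (s := s) (M := M) (m := m) hp
    ((vl_lt_one ab hna).2 (hpL.trans_lt hL)) hm (F := F) (θ := fun i => C a * θ i) (G := G)
    hF.hom (fun i t => (vl_le_one ab hna).2 (hF.int i t))
    (fun i t ht => (vl_lt_one ab hna).2 ((hF.sm i t ht).trans_lt hL))
    ((vl_eq_one ab hna).2 hF.det) (by rw [hDeq]; exact hG.hom)
    (fun i t => (vl_le_one ab hna).2 (hGi i t))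
    (fun u hu => by
      rw [vl_nm ab hna] at hu ⊢
      rw [hGn, hu, one_pow]) hθ'h (fun i t => (vl_le_one ab hna).2 (hle i t))
    (fun u hu => by
      obtain ⟨e, he⟩ := hind u ((vl_nm ab hna).1 hu)
      exact ⟨e, (vl_eq_one ab hna).2 he⟩) hsemi'
  rw [hDeq] at r1 r2
  obtain ⟨B, hB, hB2⟩ := exists_lt (vl ab hna) ((p ^ s) ^ M) G r1
  refine ⟨max (ab (p : k)) B, le_max_left _ _, max_lt (hpL.trans_lt hL) (by exact_mod_cast hB),
    hG.hom, hGi, fun i t ht => ?_, (vl_eq_one ab hna).1 r2⟩
  refine le_trans ?_ (le_max_right _ _)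
  have h2 := hB2 i t ht
  rw [← NNReal.coe_le_coe] at h2
  exact h2

end Pool.DynLehmer.UN.OG4

/-! # Row GR: from generic points to a conjugate with purely inseparable good reduction -/

namespace Pool.DynLehmer.UN.Gr69
open MvPolynomial Pool.DynLehmer Pool.DynLehmer.GS Pool.DynLehmer.UN Pool.DynLehmer.UN.Orb

variable {k : Type} [Field k]

/-- the linear forms of a matrix -/
noncomputable def lf (μ : Matrix (Fin 2) (Fin 2) k) (i : Fin 2) : MvPolynomial (Fin 2) k :=
  C (μ i 0) * X 0 + C (μ i 1) * X 1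

theorem gAct_lf (μ : Matrix (Fin 2) (Fin 2) k) (N : Type) [Field N] [Algebra k N] (P : Fin 2 → N)
    (i : Fin 2) :
    gAct (lf μ) N P i = algebraMap k N (μ i 0) * P 0 + algebraMap k N (μ i 1) * P 1 := by
  show aeval P (C (μ i 0) * X 0 + C (μ i 1) * X 1 : MvPolynomial (Fin 2) k) = _
  rw [map_add, map_mul, map_mul, aeval_C, aeval_C, aeval_X, aeval_X]

theorem det_eq (μ : Matrix (Fin 2) (Fin 2) k) : μ.det = μ 0 0 * μ 1 1 - μ 0 1 * μ 1 0 :=
  Matrix.det_fin_two μ

theorem adj_lf (μ : Matrix (Fin 2) (Fin 2) k) (N : Type) [Field N] [Algebra k N] (P : Fin 2 → N) :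
    gAct (lf μ.adjugate) N (gAct (lf μ) N P) = algebraMap k N μ.det • P := by
  funext i
  rw [gAct_lf, gAct_lf, gAct_lf, det_eq, Matrix.adjugate_fin_two, Pi.smul_apply, smul_eq_mul,
    map_sub, map_mul, map_mul]
  fin_cases i <;> simp <;> ring

theorem lf_adj (μ : Matrix (Fin 2) (Fin 2) k) (N : Type) [Field N] [Algebra k N] (P : Fin 2 → N) :
    gAct (lf μ) N (gAct (lf μ.adjugate) N P) = algebraMap k N μ.det • P := by
  funext i
  rw [gAct_lf, gAct_lf, gAct_lf, det_eq, Matrix.adjugate_fin_two, Pi.smul_apply, smul_eq_mul,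
    map_sub, map_mul, map_mul]
  fin_cases i <;> simp <;> ring

theorem mor_lf {μ : Matrix (Fin 2) (Fin 2) k} (hμ : μ.det ≠ 0) : Mor 1 (lf μ) where
  hom i := (isHomogeneous_C_mul_X _ _).add (isHomogeneous_C_mul_X _ _)
  ne N _ _ P hP h := by
    have h1 := adj_lf μ N P
    rw [h] at h1
    have h2 : gAct (lf μ.adjugate) N (0 : Fin 2 → N) = 0 := by
      funext i
      rw [gAct_lf]
      simp
    rw [h2] at h1
    have h3 : algebraMap k N μ.det ≠ 0 := (map_ne_zero_iff _ (algebraMap k N).injective).2 hμ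
    exact hP ((smul_eq_zero.1 h1.symm).resolve_left h3)

theorem det_adj {μ : Matrix (Fin 2) (Fin 2) k} (hμ : μ.det ≠ 0) : μ.adjugate.det ≠ 0 := by
  rw [Matrix.det_adjugate]
  simpa using hμ

theorem fr_lf (μ : Matrix (Fin 2) (Fin 2) k) {Ω : Type} [Field Ω] [Algebra k Ω] (z : Ω) :
    fr (lf μ) z = mb μ z := by
  have h0 := gAct_lf μ Ω ![z, 1] 0
  have h1 := gAct_lf μ Ω ![z, 1] 1
  show gAct (lf μ) Ω ![z, 1] 0 / gAct (lf μ) Ω ![z, 1] 1 = _
  rw [h0, h1]
  simp [mb]

section big

variable {Ω : Type} [Field Ω] [Algebra k Ω] {ab : AbsoluteValue k ℝ} {A : AbsoluteValue Ω ℝ}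

/-- a generic point is transcendental -/
theorem gen_tr [IsAlgClosed k] (hB : Big k Ω ab A) {z : Ω} (hz : Gen ab A z) :
    Transcendental k z := by
  intro h
  have hi : IsIntegral k z := h.isIntegral
  have h1 : (minpoly k z).degree = 1 :=
    IsAlgClosed.degree_eq_one_of_irreducible k (minpoly.irreducible hi)
  obtain ⟨c, hc⟩ := minpoly.mem_range_of_degree_eq_one k z h1
  have h2 := hz 0 (by rw [map_zero]; exact zero_le_one)
  rw [map_zero, sub_zero, ← hc] at h2
  have h3 : ab c = 1 := by rw [← hB.ext c]; exact h2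
  have h4 := hz c h3.le
  rw [← hc, sub_self, map_zero] at h4
  exact zero_ne_one h4

theorem mb_adj {μ : Matrix (Fin 2) (Fin 2) k} (hμ : μ.det ≠ 0) {z : Ω}
    (hz : Transcendental k z) : mb μ.adjugate (mb μ z) = z := by
  rw [← fr_lf, ← fr_lf]
  apply Ra72.fr_of_prl
  have h1 := Rb.act_eq (mor_lf hμ) le_rfl hz
  have h2 := adj_lf μ Ω ![z, 1]
  rw [h1] at h2
  have h3 : algebraMap k Ω μ.det ≠ 0 := (map_ne_zero_iff _ (algebraMap k Ω).injective).2 hμ
  have h4 := Bas.prl_smul (![z, 1] : Fin 2 → Ω) h3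
  rw [← h2] at h4
  refine Bas.prl_trans ?_ h4
  exact Bas.prl_gAct (mor_lf (det_adj hμ)).hom
    (Bas.prl_symm (Bas.prl_smul _ (Rb.den_ne (mor_lf hμ) le_rfl hz)))

theorem mb_adj' {μ : Matrix (Fin 2) (Fin 2) k} (hμ : μ.det ≠ 0) {z : Ω}
    (hz : Transcendental k z) : mb μ (mb μ.adjugate z) = z := by
  rw [← fr_lf, ← fr_lf]
  apply Ra72.fr_of_prl
  have h1 := Rb.act_eq (mor_lf (det_adj hμ)) le_rfl hz
  have h2 := lf_adj μ Ω ![z, 1]
  rw [h1] at h2
  have h3 : algebraMap k Ω μ.det ≠ 0 := (map_ne_zero_iff _ (algebraMap k Ω).injective).2 hμ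
  have h4 := Bas.prl_smul (![z, 1] : Fin 2 → Ω) h3
  rw [← h2] at h4
  refine Bas.prl_trans ?_ h4
  exact Bas.prl_gAct (mor_lf hμ).hom
    (Bas.prl_symm (Bas.prl_smul _ (Rb.den_ne (mor_lf (det_adj hμ)) le_rfl hz)))

end big

/-- Row GR. -/
theorem gr (hbig : BigStatement) (hperm : PermStatement) (hgood : GoodStatement)
    (hins : InsepStatement) (hsem : SemicStatement) : GrStatement := by
  intro k _ _ _ ab hna p s M m L F θ B hp hs hM hm hpL hL hTy hθ hB hSemi
  have hp0 : (p : k) ≠ 0 := Nat.cast_ne_zero.2 hp.ne_zero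
  obtain ⟨Ω, _, _, A, hbg, x, hx⟩ := hbig k ab hna ⟨(p : k), hp0, hpL.trans_lt hL⟩
  obtain ⟨M', μ, hM', hμ, h1, h2⟩ := hperm k Ω ab A hna hbg ⟨x, hx⟩ p s M m L F θ B hp hs hM hm
    hpL hL hTy hθ hB hSemi
  have hq : 1 ≤ p ^ s := Nat.one_le_pow _ _ hp.pos
  set Q := (p ^ s) ^ M with hQ
  have hQ1 : 1 ≤ Q := Nat.one_le_pow _ _ hq
  have hF : Mor (p ^ s) F := V24.mor_ty hna hq ((ab.nonneg _).trans hpL) hL hTy
  have hα := mor_lf hμ
  have hα' := mor_lf (det_adj hμ)
  have hIt : Mor (Q ^ M') (itF B M') := Bas.mor_itF hB M'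
  have hQM : 1 ≤ Q ^ M' := Nat.one_le_pow _ _ hQ1
  -- the conjugate
  set H : Fin 2 → MvPolynomial (Fin 2) k := fun i => bind₁ (lf μ) (itF B M' i) with hH
  have hHm : Mor (Q ^ M') H := by
    have := Ra72.mor_comp hIt hα
    rwa [one_mul] at this
  set G₀ : Fin 2 → MvPolynomial (Fin 2) k := fun i => bind₁ H (lf μ.adjugate i) with hG₀
  have hG₀m : Mor (Q ^ M') G₀ := by
    have := Ra72.mor_comp hα' hHm
    rwa [mul_one] at this
  have hact : ∀ (N : Type) [Field N] [Algebra k N] (P : Fin 2 → N),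
      gAct G₀ N P = gAct (lf μ.adjugate) N ((gAct B N)^[M'] (gAct (lf μ) N P)) := by
    intro N _ _ P
    rw [hG₀, Ra72.gAct_comp, hH, Ra72.gAct_comp, Bas.gAct_itF]
  have hfr : ∀ t : Ω, Transcendental k t →
      fr G₀ t = mb μ.adjugate ((fr B)^[M'] (mb μ t)) := by
    intro t ht
    rw [hG₀, Ra72.fr_comp hα' hHm hQM le_rfl ht, hH, Ra72.fr_comp hIt hα le_rfl hQM ht,
      Ra72.fr_itF hB hQ1 M' (Rb.trans_fr hα le_rfl ht), fr_lf, fr_lf]
  have htr : ∀ t : Ω, Transcendental k t → Transcendental k (mb μ t) := by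
    intro t ht
    rw [← fr_lf]
    exact Rb.trans_fr hα le_rfl ht
  have hgen : ∀ t : Ω, Transcendental k t → (Gen ab A (fr G₀ t) ↔ Gen ab A t) := by
    intro t ht
    have ht1 := htr t ht
    have ht2 : Transcendental k ((fr B)^[M'] (mb μ t)) := Rb.trans_it hB hQ1 ht1 M'
    rw [hfr t ht]
    constructor
    · intro h
      obtain ⟨z, hz, hz1⟩ := (h2 _ ht1).1 ⟨_, h, (mb_adj' hμ ht2).symm⟩
      have h3 := mb_adj hμ ht
      rw [hz1, mb_adj hμ (gen_tr hbg hz)] at h3
      rwa [← h3]
    · intro h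
      obtain ⟨z, hz, hz1⟩ := (h2 _ ht1).2 ⟨t, h, rfl⟩
      rw [hz1, mb_adj hμ (gen_tr hbg hz)]
      exact hz
  obtain ⟨c, hc, hint, hnm⟩ := hgood k Ω ab A hna hbg ⟨x, hx⟩ (Q ^ M') G₀ hQM hG₀m hgen
  set G : Fin 2 → MvPolynomial (Fin 2) k := fun i => C c * G₀ i with hG
  have hGact : ∀ (N : Type) [Field N] [Algebra k N] (P : Fin 2 → N),
      gAct G N P = algebraMap k N c • gAct G₀ N P := by
    intro N _ _ P
    funext i
    show aeval P (C c * G₀ i) = algebraMap k N c * aeval P (G₀ i)
    rw [map_mul, aeval_C]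
  have hGm : Mor (Q ^ M') G := by
    refine ⟨fun i => ?_, fun N _ _ P hP h => ?_⟩
    · have := (isHomogeneous_C (Fin 2) c).mul (hG₀m.hom i)
      rwa [zero_add] at this
    · rw [hGact] at h
      have h3 : algebraMap k N c ≠ 0 := (map_ne_zero_iff _ (algebraMap k N).injective).2 hc
      exact hG₀m.ne N P hP ((smul_eq_zero.1 h).resolve_left h3)
  have hSem2 : Semi B M' (lf μ) G := by
    intro P hP
    rw [hGact, hact]
    have h3 : algebraMap k k c ≠ 0 := hc
    have h4 : algebraMap k k μ.det ≠ 0 := hμ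
    refine Bas.prl_trans (Bas.prl_gAct hα.hom (Bas.prl_smul _ h3)) ?_
    rw [lf_adj]
    exact Bas.prl_smul _ h4
  obtain ⟨hθ', hSem3⟩ := hsem k (p ^ s) M M' m F θ B (lf μ) G hq hm hF hθ hB hα hSemi hSem2
  have hpow : (p ^ s) ^ (M * M') = Q ^ M' := by rw [hQ, pow_mul]
  have hg3 : ∀ z : Ω, Gen ab A z → Gen ab A (fr (fun i => bind₁ (lf μ) (θ i)) z) := by
    intro z hz
    rw [Ra72.fr_comp hθ hα le_rfl hm (gen_tr hbg hz), fr_lf]
    exact h1 z hz
  obtain ⟨L', hL1, hL2, hT⟩ := hins k Ω ab A hna hbg ⟨x, hx⟩ p s (M * M') m L F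
    (fun i => bind₁ (lf μ) (θ i)) G hp hs (Nat.mul_pos hM hM') hm hpL hL hTy hθ'
    (by rw [hpow]; exact hGm) hSem3 hg3 hint (by rw [hpow]; exact hnm)
  rw [hpow] at hT
  exact ⟨M', L', lf μ, G, hM', hα, hGm, hSem2, hL1, hL2, hT⟩

end Pool.DynLehmer.UN.Gr69

namespace Pool.DynLehmer.UN.Orb

/-- good reduction of an iterate of the lifted map -/
theorem gr_all : GrStatement :=
  Gr69.gr Big95.big (P28.perm Big95.gauss (O69.genr Big95.gauss) Orb.nrml Tyg85.tyg) Og68.good
    OG4.insepRow Orb.S74.semic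

end Pool.DynLehmer.UN.Orb
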