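import Pool.Agent.Lib.MP_2194ec_nt.GAL.R.Ldg
import Pool.Agent.Lib.MP_2194ec_nt.GAL.R.SDefs
import Pool.Agent.Lib.MP_2194ec_nt.UN.OrbCovers
import Pool.Agent.Lib.MP_2194ec_nt.UN.OrbReduction

set_option autoImplicit false

/-! # Row TRIVC: conjugates of iterates of maps with trivial lifts have trivial lifts -/

namespace Pool.DynLehmer.UN.Ob51
open MvPolynomial Pool.DynLehmer Pool.DynLehmer.SB Pool.DynLehmer.SP
  Pool.DynLehmer.GS Pool.DynLehmer.LP Pool.DynLehmer.LW Pool.DynLehmer.UN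
open IntermediateField

section
variable {k L : Type} [Field k] [Field L] [Algebra k L]

/-- maps which agree on the points over `k` agree at a transcendental point -/
theorem fr_eq_of_prl [Infinite k] {a b : ℕ} {P Q : Fin 2 → MvPolynomial (Fin 2) k}
    (hP : Mor a P) (hQ : Mor b Q) (ha : 1 ≤ a) (hb : 1 ≤ b)
    (h : ∀ x : Fin 2 → k, x ≠ 0 → Prl (gAct P k x) (gAct Q k x)) {z : L}
    (hz : Transcendental k z) : fr P z = fr Q z := by
  have h1 : P 0 * Q 1 = P 1 * Q 0 := by
    apply MvPolynomial.funext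
    intro x
    rcases eq_or_ne x 0 with rfl | hx
    · have e1 : eval (0 : Fin 2 → k) (P 0) = 0 := by
        rw [MvPolynomial.eval_zero]
        by_contra hne
        have h2 := hP.hom 0 hne
        simp at h2
        omega
      have e2 : eval (0 : Fin 2 → k) (P 1) = 0 := by
        rw [MvPolynomial.eval_zero]
        by_contra hne
        have h2 := hP.hom 1 hne
        simp at h2
        omega
      rw [map_mul, map_mul, e1, e2, zero_mul, zero_mul]
    · obtain ⟨c, hc, h2⟩ := h x hx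
      have h5 : ∀ G : MvPolynomial (Fin 2) k, aeval x G = eval x G := fun G => by
        rw [MvPolynomial.aeval_eq_eval]
      have h3 : aeval x (P 0) = c * aeval x (Q 0) := congrFun h2 0
      have h4 : aeval x (P 1) = c * aeval x (Q 1) := congrFun h2 1
      rw [h5, h5] at h3 h4
      rw [map_mul, map_mul, h3, h4]
      ring
  have h2 := congrArg (aeval (![z, 1] : Fin 2 → L)) h1
  rw [map_mul, map_mul] at h2
  rw [fr, fr, div_eq_div_iff (Rb.den_ne hP ha hz) (Rb.den_ne hQ hb hz), h2]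
  ring

/-- a semiconjugacy at a transcendental point -/
theorem fr_semi [Infinite k] {q q' M m : ℕ} {F θ B : Fin 2 → MvPolynomial (Fin 2) k}
    (hq : 1 ≤ q) (hq' : 1 ≤ q') (hm : 1 ≤ m) (hF : Mor q F) (hθ : Mor m θ) (hB : Mor q' B)
    (h : Orb.Semi F M θ B) {z : L} (hz : Transcendental k z) :
    fr θ (fr B z) = (fr F)^[M] (fr θ z) := by
  have h1 := fr_eq_of_prl (Ra72.mor_comp hθ hB) (Ra72.mor_comp (Bas.mor_itF hF M) hθ)
    (Nat.mul_pos hq' hm) (Nat.mul_pos hm (Nat.pow_pos hq)) (fun x hx => by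
      rw [Ra72.gAct_comp, Ra72.gAct_comp, Bas.gAct_itF]
      exact h x hx) hz
  rw [Ra72.fr_comp hθ hB hq' hm hz,
    Ra72.fr_comp (Bas.mor_itF hF M) hθ hm (Nat.one_le_pow _ _ hq) hz,
    Ra72.fr_itF hF hq M (Rb.trans_fr hθ hm hz)] at h1
  exact h1

/-- the iterates -/
theorem fr_semi_it [Infinite k] {q q' M m : ℕ} {F θ B : Fin 2 → MvPolynomial (Fin 2) k}
    (hq : 1 ≤ q) (hq' : 1 ≤ q') (hm : 1 ≤ m) (hF : Mor q F) (hθ : Mor m θ) (hB : Mor q' B)
    (h : Orb.Semi F M θ B) {z : L} (hz : Transcendental k z) (n : ℕ) :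
    fr θ ((fr B)^[n] z) = (fr F)^[M * n] (fr θ z) := by
  induction n with
  | zero => rfl
  | succ n ih =>
    rw [Function.iterate_succ_apply', fr_semi hq hq' hm hF hθ hB h (Rb.trans_it hB hq' hz n), ih,
      ← Function.iterate_add_apply, Nat.mul_succ, add_comm]

/-- Moebius maps do not change the field -/
theorem adjoin_moebius {α : Fin 2 → MvPolynomial (Fin 2) k} (hα : Mor 1 α) {u : L}
    (hu : Transcendental k u) : adjoin k {fr α u} = adjoin k {u} := by
  refine le_antisymm ?_ (relfinrank_eq_one_iff.1 (relf hα le_rfl hu))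
  refine adjoin_le_iff.2 ?_
  rintro _ rfl
  exact Ra72.fr_mem α (mem_adjoin_simple_self k u)

end

theorem trivc : Orb.TrivcStatement := by
  intro k _ _ _ q M B G α hq hM hB hG hα hS hT L _ _ M' u φ hM' hL
  have hq1 : 1 ≤ q := by omega
  have hqM : 1 ≤ q ^ M := Nat.one_le_pow _ _ hq1
  have hinf : Infinite k := inferInstance
  have h1 := adjoin_moebius hα hL.tr
  have h2 : Orb.GT k L B (M * M') (fr α u) φ := by
    refine ⟨Rb.trans_fr hα le_rfl hL.tr, ?_, ?_, ?_⟩
    · rw [h1]
      exact hL.fin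
    · rw [Rb.map_fr, hL.per]
      exact fr_semi_it hq1 hqM le_rfl hB hα hG hS hL.tr M'
    · rw [h1]
      exact hL.gen
  rw [← h1]
  exact hT L (M * M') (fr α u) φ (Nat.mul_pos hM hM') h2

end Pool.DynLehmer.UN.Ob51

/-!
# Row TPAIR: pairs over a map all of whose lifts are trivial
-/

namespace Pool.DynLehmer.UN.Tp8
open Polynomial IntermediateField Pool.DynLehmer Pool.DynLehmer.GS Pool.DynLehmer.SP
  Pool.DynLehmer.LP Pool.DynLehmer.UN Pool.DynLehmer.UN.Ra21

section
variable {k L : Type} [Field k] [Field L] [Algebra k L] {f : RatFunc k} {M : ℕ} {φ : L →ₐ[k] L}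
  {E : ℕ → IntermediateField k L} {u w : ℕ → L}

theorem tow_tr (hf : dg f ≠ 0) (hS : TowS f M φ E u w) (j : ℕ) : Transcendental k (u j) := by
  induction j with
  | zero => exact hS.tr
  | succ j ih =>
    rw [hS.uf]
    exact trans_f f hf _ ih

/-- If the bottom field is rational, the whole tower is. -/
theorem tow_eq (hf : dg f ≠ 0) (hS : TowS f M φ E u w) (h0 : adjoin k {u 0} = ⊤) (j : ℕ) :
    E j = adjoin k {u j} := by
  induction j with
  | zero => rw [hS.top, h0]
  | succ j ih =>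
    have h1 : adjoin k {u (j + 1)} ≤ E (j + 1) := by
      rw [hS.gen]
      exact adjoin.mono _ _ _ (Set.singleton_subset_iff.2 (Set.mem_insert _ _))
    have h2 : E (j + 1) ≤ E j := by
      rw [hS.sup j]
      exact le_sup_left
    have h3 : relfinrank (adjoin k {u (j + 1)}) (E j) = dg f := by
      rw [ih, hS.uf]
      exact rel_f f (tow_tr hf hS j)
    have h4 := relfinrank_mul_relfinrank h1 h2
    rw [h3, hS.rel j] at h4
    have h5 : relfinrank (adjoin k {u (j + 1)}) (E (j + 1)) = 1 :=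
      Nat.eq_of_mul_eq_mul_right (Nat.pos_of_ne_zero hf) (by rw [h4, one_mul])
    exact le_antisymm (relfinrank_eq_one_iff.1 h5) h1

/-- `L` is generated by the image of `φ` and `u 0`. -/
theorem tow_gen (hS : TowS f M φ E u w) : φ.fieldRange ⊔ adjoin k {u 0} = ⊤ := by
  have h1 : ∀ j, u j ∈ adjoin k {u 0} := by
    intro j
    induction j with
    | zero => exact mem_adjoin_simple_self k _
    | succ j ih =>
      rw [hS.uf]
      exact rv_mem f _ _ ih
  have h2 : ∀ j, E 0 = E j ⊔ adjoin k {u 0} := by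
    intro j
    induction j with
    | zero =>
      rw [hS.top, top_sup_eq]
    | succ j ih =>
      rw [ih, hS.sup j, sup_assoc]
      congr 1
      exact sup_eq_right.2 (adjoin_simple_le_iff.2 (h1 j))
  have h3 := h2 M
  have h4 := hS.per 0
  rw [zero_add, hS.top] at h4
  rw [hS.top, h4, ← AlgHom.fieldRange_eq_map] at h3
  exact h3.symm

/-- The iterates of `u 0` under `f`. -/
theorem tow_it (hS : TowS f M φ E u w) (j : ℕ) : u j = (rv f)^[j] (u 0) := by
  induction j with
  | zero => rfl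
  | succ j ih =>
    rw [hS.uf, Function.iterate_succ_apply', ih]

end

/-- Row TPAIR. -/
theorem tpair : Orb.TpairStatement := by
  intro k _ _ _ q G hq hG hT L _ _ φ M x y hM hx _ hy hφx hφy
  have hAB : IsCoprime (dh (G 0)) (dh (G 1)) := cop_dh hG
  have hdeg : max (dh (G 0)).natDegree (dh (G 1)).natDegree = q := deg_dh hG (by omega)
  have hB : dh (G 1) ≠ 0 := by
    intro h0
    rw [h0, isCoprime_zero_right] at hAB
    rw [h0, natDegree_zero, Nat.max_zero, natDegree_eq_zero_of_isUnit hAB] at hdeg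
    omega
  set f := algebraMap k[X] (RatFunc k) (dh (G 0)) / algebraMap k[X] (RatFunc k) (dh (G 1))
    with hfdef
  have hr : ∀ (N : Type) [Field N] [Algebra k N], (fr G : N → N) = rv f := by
    intro N _ _
    funext z
    rw [hfdef, rv_quot (dh (G 0)) (dh (G 1)) hAB hB z, aeval_dh, aeval_dh]
    rfl
  have hd : dg f = q := by rw [← hdeg]; exact dg_quot (dh (G 0)) (dh (G 1)) hAB hB
  rw [hr L] at hφx hφy ⊢
  have hf0 : dg f ≠ 0 := by omega
  obtain ⟨n, A', ψ, E, u, w, hS, hu, hw, hψ⟩ := exists_tow f M x y φ hf0 hM hx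
    (T_base f x y hy) hφx hφy
  have hA : adjoin k {u 0} = ⊤ :=
    hT A' M (u 0) ψ hM
      ⟨hS.tr, hS.fin, by rw [hr A', ← tow_it hS M, ← hS.pu 0, zero_add], tow_gen hS⟩
  refine ⟨n, fun j => ?_⟩
  have h2 : w j ∈ E j := by
    rw [hS.gen]
    exact subset_adjoin k _ (Set.mem_insert_of_mem _ rfl)
  rw [tow_eq hf0 hS hA j] at h2
  have h3 : A'.val (w j) ∈ (adjoin k {u j}).map A'.val := ⟨w j, h2, rfl⟩
  rw [adjoin_map, Set.image_singleton] at h3
  have h4 : A'.val (u j) = (rv f)^[j] x := hu j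
  have h5 : A'.val (w j) = (rv f)^[n + j] y := hw j
  rw [h4, h5] at h3
  exact h3

end Pool.DynLehmer.UN.Tp8

set_option linter.unusedSectionVars false

/-!
# Maps which commute with a map that is no power map: finiteness for a given degree

`TotF F`: there is a finite set of at least two points with `F⁻¹(S) = S` (it has two points, and
`F` is conjugate to `z ^ q` or `z ^ (-q)`).
-/

namespace Pool.DynLehmer.UN
open MvPolynomial Pool.DynLehmer Pool.DynLehmer.GS
open scoped Classical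

/-- There is a finite totally invariant set with at least two points. -/
def TotF {k : Type} [Field k] (F : Fin 2 → MvPolynomial (Fin 2) k) : Prop :=
  ∃ S : Finset (Option k), 2 ≤ S.card ∧
    ∀ U : Fin 2 → k, U ≠ 0 → (pr (gAct F k U) ∈ S ↔ pr U ∈ S)

namespace Fqtp49
open Fqt49

section main
variable {k : Type} [Field k] [IsAlgClosed k] [CharZero k]

/-- If the critical points of the iterates are finitely many, they are a totally invariant set. -/
theorem tot_of_bdd {q : ℕ} {F : Fin 2 → MvPolynomial (Fin 2) k} (hq : 2 ≤ q) (hF : Mor q F)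
    {B : ℕ} (hB : ∀ m, (Tm F m).ncard ≤ B) : TotF F := by
  have hq1 : 1 ≤ q := by omega
  have hmono : ∀ m, Tm F m ⊆ Tm F (m + 1) := by
    intro m z hz
    have h1 : pr (rp z) ∈ Tm F m := by rw [pr_rp]; exact hz
    rw [Tm_iff hq1 hF m (rp_ne z)] at h1
    obtain ⟨i, hi, h⟩ := h1
    have h2 : pr (rp z) ∈ Tm F (m + 1) := (Tm_iff hq1 hF (m + 1) (rp_ne z)).2 ⟨i, by omega, h⟩
    rwa [pr_rp] at h2
  -- the sets are eventually constant
  obtain ⟨m, hm1, hm⟩ : ∃ m, 1 ≤ m ∧ Tm F (m + 1) = Tm F m := by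
    by_contra hne
    push Not at hne
    have h1 : ∀ m, m ≤ (Tm F (m + 1)).ncard := by
      intro m
      induction m with
      | zero => exact Nat.zero_le _
      | succ m ih =>
        have h2 : Tm F (m + 1) ⊂ Tm F (m + 1 + 1) :=
          (hmono (m + 1)).ssubset_of_ne fun h => hne (m + 1) (by omega) h.symm
        have h3 := Set.ncard_lt_ncard h2 (Tm_finite hq1 hF _)
        omega
    have h2 := h1 (B + 1)
    have h3 := hB (B + 1 + 1)
    omega
  have hfin := Tm_finite hq1 hF m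
  have hcrit : ∀ P : Fin 2 → k, P ≠ 0 → aeval P (Jac F) = 0 → pr P ∈ Tm F m := fun P hP h =>
    (Tm_iff hq1 hF m hP).2 ⟨0, by omega, h⟩
  have hback : ∀ P : Fin 2 → k, P ≠ 0 → pr (gAct F k P) ∈ Tm F m → pr P ∈ Tm F m := by
    intro P hP h
    rw [Tm_iff hq1 hF m (hF.ne k P hP)] at h
    obtain ⟨i, hi, h⟩ := h
    rw [← hm, Tm_iff hq1 hF (m + 1) hP]
    exact ⟨i + 1, by omega, by rw [Function.iterate_succ_apply]; exact h⟩
  -- `F` maps the set to itself
  have hpre : ∀ z : Tm F m, ∃ w : Tm F m, pr (gAct F k (rp w)) = z := by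
    rintro ⟨z, hz⟩
    obtain ⟨P, hP, hPz⟩ := surj hq1 hF (rp_ne z)
    have h1 : pr (gAct F k P) = z := by rw [Bas.pr_of_prl hPz, pr_rp]
    refine ⟨⟨pr P, hback P hP (by rw [h1]; exact hz)⟩, ?_⟩
    show pr (gAct F k (rp (pr P))) = z
    rw [← h1]
    exact Bas.pr_of_prl (Bas.prl_gAct hF.hom (Bas.prl_symm (prl_rp hP)))
  choose g hg using hpre
  have : Finite (Tm F m) := hfin
  have hginj : Function.Injective g := by
    intro a b h
    apply Subtype.ext
    rw [← hg a, ← hg b, h]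
  have hgsur : Function.Surjective g := Finite.surjective_of_injective hginj
  have hfwd : ∀ z ∈ Tm F m, pr (gAct F k (rp z)) ∈ Tm F m := by
    intro z hz
    obtain ⟨w, hw⟩ := hgsur ⟨z, hz⟩
    have h1 := hg w
    rw [hw] at h1
    have h2 : pr (gAct F k (rp z)) = w := h1
    rw [h2]
    exact w.2
  -- one critical point
  have hjF := jac_hom hq1 hF
  obtain ⟨P₁, hP₁, hc₁⟩ := J19.form_zero (N := k) (2 * (q - 1)) (by omega) _ hjF.2
  refine ⟨hfin.toFinset, ?_, ?_⟩
  · by_contra hno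
    have hcard : hfin.toFinset.card ≤ 1 := by omega
    have hall : ∀ P : Fin 2 → k, P ≠ 0 → pr P ∈ Tm F m → Prl P P₁ := by
      intro P hP h
      have h1 := Finset.card_le_one.1 hcard (pr P) (hfin.mem_toFinset.2 h) (pr P₁)
        (hfin.mem_toFinset.2 (hcrit P₁ hP₁ hc₁))
      exact Bas.prl_of_pr hP hP₁ h1
    have h2 : Prl (gAct F k P₁) P₁ := by
      apply hall _ (hF.ne k P₁ hP₁)
      have h3 := hfwd (pr P₁) (hcrit P₁ hP₁ hc₁)
      rwa [Bas.pr_of_prl (Bas.prl_gAct hF.hom (Bas.prl_symm (prl_rp hP₁)))] at h3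
    obtain ⟨P, hP, hc, hne⟩ := crit_ne hq hF hP₁ (fun P hP h => by
      apply hall P hP
      apply hback P hP
      rw [Bas.pr_of_prl h]
      exact hcrit P₁ hP₁ hc₁) h2
    exact hne (hall P hP (hcrit P hP hc))
  · intro U hU
    rw [hfin.mem_toFinset, hfin.mem_toFinset]
    refine ⟨hback U hU, fun h => ?_⟩
    have h1 := hfwd (pr U) h
    rwa [Bas.pr_of_prl (Bas.prl_gAct hF.hom (Bas.prl_symm (prl_rp hU)))] at h1

/-- Finitely many maps of degree `D`, if `F` is no power map. -/
theorem fqtp {q D : ℕ} {F : Fin 2 → MvPolynomial (Fin 2) k} (hq : 2 ≤ q) (hD : 1 ≤ D)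
    (hF : Mor q F) (hS : ¬ TotF F) :
    ∃ S : Finset (Fin 2 → MvPolynomial (Fin 2) k), ∀ Q : ℕ → Fin 2 → MvPolynomial (Fin 2) k,
      (∀ j, Mor D (Q j)) →
      (∀ j, ∃ c : k, c ≠ 0 ∧ ∀ i, bind₁ F (Q (j + 1) i) = C c * bind₁ (Q j) (F i)) →
      ∃ P ∈ S, ∃ c : k, c ≠ 0 ∧ ∀ i, Q 0 i = C c * P i := by
  have hq1 : 1 ≤ q := by omega
  obtain ⟨m, hm⟩ : ∃ m, 4 * D < (Tm F m).ncard := by
    by_contra hne
    push Not at hne
    exact hS (tot_of_bdd hq hF hne)
  have hfin := Tm_finite hq1 hF m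
  -- maps on the finite set
  let W : Type := (Tm F m) → Option (Tm F m)
  have : Finite (Tm F m) := hfin
  have : Finite W := inferInstance
  let Good : W → (Fin 2 → MvPolynomial (Fin 2) k) → Prop := fun w Q =>
    Mor D Q ∧ (2 * D < {z : Tm F m | w z ≠ none}.ncard) ∧
      ∀ z : Tm F m, ∀ y : Tm F m, w z = some y → pr (gAct Q k (rp z)) = y
  have : Fintype W := Fintype.ofFinite W
  let S : Finset (Fin 2 → MvPolynomial (Fin 2) k) :=
    (Finset.univ : Finset W).image fun w => if h : ∃ Q, Good w Q then h.choose else 0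
  refine ⟨S, fun Q hDQ hQ => ?_⟩
  let w : W := fun z => if h : pr (gAct (Q 0) k (rp z)) ∈ Tm F m then some ⟨_, h⟩ else none
  have hgood : Good w (Q 0) := by
    refine ⟨hDQ 0, ?_, ?_⟩
    · -- few points are critical for `Q 0`
      have hj := jac_hom hD (hDQ 0)
      obtain ⟨Z, hZ, hZ'⟩ := root k k _ _ hj.1 hj.2
      have h1 : (Subtype.val '' {z : Tm F m | w z ≠ none}) ∪ (Z : Set (Option k)) ⊇ Tm F m := by
        intro z hz
        rcases crit_or hq1 hF hDQ hQ m (rp_ne z) (by rw [pr_rp]; exact hz) with h | h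
        · left
          refine ⟨⟨z, hz⟩, ?_, rfl⟩
          show w ⟨z, hz⟩ ≠ none
          simp only [w]
          rw [dif_pos h]
          exact Option.some_ne_none _
        · right
          have h2 := hZ' (rp z) (rp_ne z) h
          rwa [pr_rp] at h2
      have h2 : (Subtype.val '' {z : Tm F m | w z ≠ none}).ncard =
          {z : Tm F m | w z ≠ none}.ncard :=
        Set.ncard_image_of_injective _ Subtype.val_injective
      have h3 : (Tm F m).ncard ≤ (Subtype.val '' {z : Tm F m | w z ≠ none}).ncard +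
          (Z : Set (Option k)).ncard := by
        refine (Set.ncard_le_ncard h1 ?_).trans (Set.ncard_union_le _ _)
        exact ((Set.toFinite _).image _).union Z.finite_toSet
      rw [Set.ncard_coe_finset, h2] at h3
      omega
    · intro z y hy
      simp only [w] at hy
      split_ifs at hy with h
      · rw [← Option.some_injective _ hy]
  have hex : ∃ Q, Good w Q := ⟨Q 0, hgood⟩
  refine ⟨hex.choose, Finset.mem_image.2 ⟨w, Finset.mem_univ _, dif_pos hex⟩, ?_⟩
  obtain ⟨g1, g2, g3⟩ := hgood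
  obtain ⟨g1', g2', g3'⟩ := hex.choose_spec
  refine eq_of_agree (A := Subtype.val '' {z : Tm F m | w z ≠ none}) g1 g1' (fun _ => ?_) ?_
  · rw [Set.ncard_image_of_injective _ Subtype.val_injective]
    exact g2
  · rintro _ ⟨z, hz, rfl⟩
    obtain ⟨y, hy⟩ := Option.ne_none_iff_exists'.1 hz
    rw [g3 z y hy, g3' z y hy]

end main

end Fqtp49

end Pool.DynLehmer.UN

set_option linter.unusedSectionVars false

/-! # Power maps -/

namespace Pool.DynLehmer.UN.Orb
open MvPolynomial Pool.DynLehmer Pool.DynLehmer.SB Pool.DynLehmer.SP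
  Pool.DynLehmer.GS Pool.DynLehmer.LP Pool.DynLehmer.LW Pool.DynLehmer.UN
open IntermediateField
open scoped Classical

namespace Np49

section forms
variable {k : Type} [Field k]

theorem exists_ind {U : Fin 2 → k} (hU : U ≠ 0) : ∃ V : Fin 2 → k, GS.Ind U V := by
  by_cases h0 : U 0 = 0
  · refine ⟨![1, 0], ?_⟩
    have h1 : U 1 ≠ 0 := by
      intro h1
      apply hU
      funext i
      fin_cases i
      · exact h0
      · exact h1
    simp [GS.Ind, h1]
  · exact ⟨![0, 1], by simp [GS.Ind, h0]⟩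

theorem lf_eval (U P : Fin 2 → k) : eval P (LDG.lf U) = U 1 * P 0 - U 0 * P 1 := by
  unfold LDG.lf
  rw [map_sub, map_mul, map_mul, eval_C, eval_C, eval_X, eval_X]

/-- A form which vanishes at one point only. -/
theorem form_pow [IsAlgClosed k] {d : ℕ} {H : MvPolynomial (Fin 2) k} (hH : H.IsHomogeneous d)
    {U : Fin 2 → k} (hU : U ≠ 0) (h0 : ∀ P : Fin 2 → k, P ≠ 0 → eval P H = 0 → Prl P U) :
    ∃ c : k, c ≠ 0 ∧ H = C c * LDG.lf U ^ d := by
  obtain ⟨V, hV⟩ := exists_ind hU
  have hinf : Infinite k := IsAlgClosed.instInfinite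
  have hV0 : V ≠ 0 := by
    rintro rfl
    apply hV
    simp
  have hnot : ∀ c : k, V ≠ c • U := by
    intro c hP
    apply hV
    rw [hP]
    simp only [Pi.smul_apply, smul_eq_mul]
    ring
  have hVH : eval V H ≠ 0 := by
    intro h
    obtain ⟨c, hc, hP⟩ := h0 V hV0 h
    exact hnot c hP
  have hid := LDG.hom_id U V hV hH
  set W := LDG.W U V H with hW
  set δ := U 0 * V 1 - U 1 * V 0 with hδ
  have hδ0 : δ ≠ 0 := hV
  -- the leading coefficient
  have hcd : W.coeff d = eval V H := by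
    have h1 := congrArg (eval V) hid
    rw [map_mul, eval_C, map_sum, Finset.sum_range_succ, Finset.sum_eq_zero, zero_add] at h1
    · rw [map_mul, map_mul, eval_C, map_pow, map_pow, map_neg, lf_eval, Nat.sub_self, pow_zero,
        mul_one] at h1
      have h2 : -(U 1 * V 0 - U 0 * V 1) = δ := by rw [hδ]; ring
      rw [h2, mul_comm] at h1
      exact (mul_right_cancel₀ (pow_ne_zero _ hδ0) h1).symm
    · intro i hi
      have h2 : d - i ≠ 0 := by have := Finset.mem_range.1 hi; omega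
      rw [map_mul, map_mul, map_pow, map_sub, map_mul, map_mul, eval_C, eval_C, eval_C, eval_X,
        eval_X, mul_comm (V 0), sub_self, zero_pow h2, mul_zero, zero_mul]
  have hW0 : W ≠ 0 := by
    intro h
    rw [h, Polynomial.coeff_zero] at hcd
    exact hVH hcd.symm
  -- the roots
  have hroot : ∀ x : k, W.eval x = 0 → x = 0 := by
    intro x hx
    by_contra hx0
    have h1 := LDG.W_aeval U V H (N := k) x
    rw [Polynomial.coe_aeval_eq_eval, ← hW, hx] at h1
    have h2 : aeval (lpt U V x) H = eval (lpt U V x) H := rfl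
    rw [h2] at h1
    have h3 : (lpt U V x : Fin 2 → k) ≠ 0 := by
      intro h
      have e0 : U 0 + x * V 0 = 0 := congrFun h 0
      have e1 : U 1 + x * V 1 = 0 := congrFun h 1
      apply hV
      linear_combination V 1 * e0 - V 0 * e1
    obtain ⟨c, hc, hP⟩ := h0 _ h3 h1.symm
    have e0 : U 0 + x * V 0 = c * U 0 := congrFun hP 0
    have e1 : U 1 + x * V 1 = c * U 1 := congrFun hP 1
    have h4 : x * δ = 0 := by
      rw [hδ]
      linear_combination U 0 * e1 - U 1 * e0
    rcases mul_eq_zero.1 h4 with h | h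
    · exact hx0 h
    · exact hδ0 h
  obtain ⟨g, hg, hgd⟩ := Polynomial.exists_eq_pow_rootMultiplicity_mul_and_not_dvd W hW0 0
  have hgdeg : g.degree = 0 := by
    by_contra h
    obtain ⟨x, hx⟩ := IsAlgClosed.exists_root g h
    have h1 : W.eval x = 0 := by
      rw [hg, Polynomial.eval_mul]
      rw [Polynomial.IsRoot.def] at hx
      rw [hx, mul_zero]
    rw [hroot x h1] at hx
    exact hgd (Polynomial.dvd_iff_isRoot.2 hx)
  obtain ⟨w, hw⟩ : ∃ w, g = Polynomial.C w := ⟨_, Polynomial.eq_C_of_degree_eq_zero hgdeg⟩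
  rw [Polynomial.C_0, sub_zero, hw] at hg
  have hcoef : ∀ i, i ≠ d → W.coeff i = 0 := by
    intro i hi
    have h1 : W.rootMultiplicity 0 = d := by
      by_contra h
      rw [hg, Polynomial.coeff_mul_C, Polynomial.coeff_X_pow, if_neg (Ne.symm h), zero_mul] at hcd
      exact hVH hcd.symm
    rw [hg, Polynomial.coeff_mul_C, Polynomial.coeff_X_pow, h1, if_neg hi, zero_mul]
  rw [Finset.sum_eq_single d] at hid
  · rw [hcd, Nat.sub_self, pow_zero, mul_one, neg_pow] at hid
    refine ⟨(δ ^ d)⁻¹ * eval V H * (-1) ^ d, ?_, ?_⟩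
    · exact mul_ne_zero (mul_ne_zero (inv_ne_zero (pow_ne_zero _ hδ0)) hVH)
        (pow_ne_zero _ (neg_ne_zero.2 one_ne_zero))
    · have h1 : H = C (δ ^ d)⁻¹ * (C (δ ^ d) * H) := by
        rw [← mul_assoc, ← C_mul, inv_mul_cancel₀ (pow_ne_zero _ hδ0), C_1, one_mul]
      refine h1.trans ?_
      rw [hid, C_mul, C_mul, C_pow (a := (-1 : k)), C_neg, C_1]
      ring
  · intro i _ hi
    rw [hcoef i hi, C_0, zero_mul, zero_mul]
  · intro h
    exact absurd (Finset.mem_range.2 (Nat.lt_succ_self d)) h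

variable [IsAlgClosed k] {q : ℕ} {G : Fin 2 → MvPolynomial (Fin 2) k}

theorem lf_bind (b : Fin 2 → k) : bind₁ G (LDG.lf b) = C (b 1) * G 0 - C (b 0) * G 1 := by
  unfold LDG.lf
  rw [map_sub, map_mul, map_mul, bind₁_C_right, bind₁_C_right, bind₁_X_right, bind₁_X_right]

theorem lf_hom (b : Fin 2 → k) : (LDG.lf b).IsHomogeneous 1 := by
  unfold LDG.lf
  have h2 := (isHomogeneous_C (Fin 2) (b 1)).mul (isHomogeneous_X k (0 : Fin 2))
  have h3 := (isHomogeneous_C (Fin 2) (b 0)).mul (isHomogeneous_X k (1 : Fin 2))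
  rw [zero_add] at h2 h3
  exact h2.sub h3

/-- a point with one preimage -/
theorem one_pre (hG : Mor q G) {b a : Fin 2 → k} (hb : b ≠ 0) (ha : a ≠ 0)
    (h : ∀ P : Fin 2 → k, P ≠ 0 → Prl (gAct G k P) b → Prl P a) :
    ∃ c : k, c ≠ 0 ∧ bind₁ G (LDG.lf b) = C c * LDG.lf a ^ q := by
  rw [lf_bind]
  refine form_pow ?_ ha fun P hP h0 => h P hP ?_
  · have h2 := (isHomogeneous_C (Fin 2) (b 1)).mul (hG.hom 0)
    have h3 := (isHomogeneous_C (Fin 2) (b 0)).mul (hG.hom 1)
    rw [zero_add] at h2 h3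
    exact h2.sub h3
  · rw [Bas.prl_iff_det (hG.ne k P hP) hb]
    rw [map_sub, map_mul, map_mul, eval_C, eval_C] at h0
    have e0 : eval P (G 0) = gAct G k P 0 := rfl
    have e1 : eval P (G 1) = gAct G k P 1 := rfl
    rw [e0, e1] at h0
    linear_combination h0

open Fqt49

theorem pm_pr (hG : Mor q G) {P : Fin 2 → k} (hP : P ≠ 0) : pm G (pr P) = pr (gAct G k P) :=
  (R96.pr_rmap hG hP).symm

variable [CharZero k]

/-- A totally invariant finite set with at least two points has exactly two points. -/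
theorem pow_of_tot (hq : 2 ≤ q) (hG : Mor q G) (h : TotF G) : Pow G := by
  obtain ⟨S, hS, hinv⟩ := h
  have hq1 : 1 ≤ q := by omega
  -- the preimages
  have hpre : ∀ z : S, ∃ w : S, pr (gAct G k (rp w)) = z := by
    rintro ⟨z, hz⟩
    obtain ⟨P, hP, hPz⟩ := Fqt49.surj hq1 hG (rp_ne z)
    have h1 : pr (gAct G k P) = z := by rw [Bas.pr_of_prl hPz, pr_rp]
    refine ⟨⟨pr P, (hinv P hP).1 (by rw [h1]; exact hz)⟩, ?_⟩
    show pr (gAct G k (rp (pr P))) = z
    rw [← h1]
    exact Bas.pr_of_prl (Bas.prl_gAct hG.hom (Bas.prl_symm (prl_rp hP)))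
  choose g hg using hpre
  have hginj : Function.Injective g := by
    intro a b h
    apply Subtype.ext
    rw [← hg a, ← hg b, h]
  have hgsur : Function.Surjective g := Finite.surjective_of_injective hginj
  have huniq : ∀ (z : S) (P : Fin 2 → k), P ≠ 0 → pr (gAct G k P) = z → pr P = g z := by
    intro z P hP h
    have h1 : pr P ∈ S := (hinv P hP).1 (by rw [h]; exact z.2)
    obtain ⟨w, hw⟩ := hgsur ⟨pr P, h1⟩
    have h2 := hg w
    rw [hw] at h2
    have h3 : pr (gAct G k P) = pr (gAct G k (rp (pr P))) :=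
      Bas.pr_of_prl (Bas.prl_gAct hG.hom (prl_rp hP))
    have h4 : z = w := Subtype.ext (by rw [← h, h3]; exact h2)
    rw [h4, hw]
  -- the forms
  have hform : ∀ z : S, ∃ c : k, c ≠ 0 ∧
      bind₁ G (LDG.lf (rp z)) = C c * LDG.lf (rp (g z : Option k)) ^ q := by
    intro z
    refine one_pre hG (rp_ne _) (rp_ne _) fun P hP h => ?_
    have h1 : pr (gAct G k P) = z := by rw [Bas.pr_of_prl h, pr_rp]
    have h2 := huniq z P hP h1
    have h3 := prl_rp hP
    rwa [h2] at h3
  have hne : ∀ z w : S, z ≠ w → rp (z : Option k) 1 * rp (w : Option k) 0 -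
      rp (z : Option k) 0 * rp (w : Option k) 1 ≠ 0 := by
    intro z w hzw h
    apply hzw
    apply Subtype.ext
    have h1 : Prl (rp (z : Option k)) (rp (w : Option k)) := by
      rw [Bas.prl_iff_det (rp_ne _) (rp_ne _)]
      linear_combination -h
    have h2 := Bas.pr_of_prl h1
    rwa [pr_rp, pr_rp] at h2
  obtain ⟨b, hb, b', hb', hbb⟩ := Finset.one_lt_card.1 (show 1 < S.card by omega)
  have hcard : ∀ z ∈ S, z = b ∨ z = b' := by
    by_contra hno
    push Not at hno
    obtain ⟨z, hz, hzb, hzb'⟩ := hno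
    obtain ⟨c, hc, e⟩ := hform ⟨z, hz⟩
    obtain ⟨c₁, hc₁, e₁⟩ := hform ⟨b, hb⟩
    obtain ⟨c₂, hc₂, e₂⟩ := hform ⟨b', hb'⟩
    have g1 : g ⟨z, hz⟩ ≠ g ⟨b, hb⟩ := fun h => hzb (congrArg Subtype.val (hginj h))
    have g2 : g ⟨z, hz⟩ ≠ g ⟨b', hb'⟩ := fun h => hzb' (congrArg Subtype.val (hginj h))
    have d1 := hne _ _ g1
    have d2 := hne _ _ g2
    set Z := rp (g ⟨z, hz⟩ : Option k) with hZ
    set A := rp (g ⟨b, hb⟩ : Option k) with hA
    set B := rp (g ⟨b', hb'⟩ : Option k) with hB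
    -- the linear relation
    have hrel : ∃ α β : k, c • LDG.lf Z ^ q = C α * LDG.lf A ^ q + C β * LDG.lf B ^ q := by
      have h1 := hne ⟨b, hb⟩ ⟨b', hb'⟩ (fun h => hbb (congrArg Subtype.val h))
      set δ := rp b 1 * rp b' 0 - rp b 0 * rp b' 1 with hδ
      have h2 : C δ * LDG.lf (rp z) =
          C (rp z 1 * rp b' 0 - rp z 0 * rp b' 1) * LDG.lf (rp b) +
          C (rp b 1 * rp z 0 - rp b 0 * rp z 1) * LDG.lf (rp b') := by
        rw [hδ]
        unfold LDG.lf
        simp only [C_sub, C_mul]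
        ring
      have h3 := congrArg (bind₁ G) h2
      rw [map_mul, map_add, map_mul, map_mul, bind₁_C_right, bind₁_C_right, bind₁_C_right, e, e₁,
        e₂] at h3
      refine ⟨δ⁻¹ * (rp z 1 * rp b' 0 - rp z 0 * rp b' 1) * c₁,
        δ⁻¹ * (rp b 1 * rp z 0 - rp b 0 * rp z 1) * c₂, ?_⟩
      have h4 : C δ⁻¹ * C δ = (1 : MvPolynomial (Fin 2) k) := by
        rw [← C_mul, inv_mul_cancel₀ h1, C_1]
      rw [smul_eq_C_mul]
      simp only [C_mul] at h3 ⊢
      linear_combination C δ⁻¹ * h3 - C c * LDG.lf Z ^ q * h4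
    obtain ⟨α, β, hrel⟩ := hrel
    -- on the line through `A` and `B`
    have hinf : Infinite k := IsAlgClosed.instInfinite
    have hpol : Polynomial.C c * (Polynomial.C (Z 1 * A 0 - Z 0 * A 1) +
        Polynomial.C (Z 1 * B 0 - Z 0 * B 1) * Polynomial.X) ^ q =
        Polynomial.C (α * (A 1 * B 0 - A 0 * B 1) ^ q) * Polynomial.X ^ q +
        Polynomial.C (β * (B 1 * A 0 - B 0 * A 1) ^ q) := by
      refine Polynomial.funext fun t => ?_
      have h1 := congrArg (eval (fun i => A i + t * B i)) hrel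
      rw [smul_eval, map_pow, map_add, map_mul, map_mul, eval_C, eval_C, map_pow, map_pow, lf_eval,
        lf_eval, lf_eval] at h1
      simp only [Polynomial.eval_mul, Polynomial.eval_C, Polynomial.eval_pow, Polynomial.eval_add,
        Polynomial.eval_X]
      have e1 : Z 1 * (A 0 + t * B 0) - Z 0 * (A 1 + t * B 1) =
          Z 1 * A 0 - Z 0 * A 1 + (Z 1 * B 0 - Z 0 * B 1) * t := by ring
      have e2 : A 1 * (A 0 + t * B 0) - A 0 * (A 1 + t * B 1) = (A 1 * B 0 - A 0 * B 1) * t := by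
        ring
      have e3 : B 1 * (A 0 + t * B 0) - B 0 * (A 1 + t * B 1) = B 1 * A 0 - B 0 * A 1 := by ring
      rw [e1, e2, e3, mul_pow (A 1 * B 0 - A 0 * B 1)] at h1
      rw [h1]
      ring
    have h2 := congrArg (fun p => (Polynomial.derivative p).eval 0) hpol
    simp only [Polynomial.derivative_add, Polynomial.derivative_C_mul, Polynomial.derivative_pow,
      Polynomial.derivative_C, Polynomial.derivative_X, Polynomial.eval_mul, Polynomial.eval_add,
      Polynomial.eval_C, Polynomial.eval_pow, Polynomial.eval_X, mul_zero, add_zero, zero_add,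
      mul_one,
      zero_pow (show q - 1 ≠ 0 by omega)] at h2
    refine absurd h2 ?_
    refine mul_ne_zero hc (mul_ne_zero (mul_ne_zero ?_ (pow_ne_zero _ d1)) d2)
    exact Nat.cast_ne_zero.2 (by omega)
  refine ⟨b, b', hbb, fun a => ?_⟩
  have h1 := hinv (rp a) (rp_ne a)
  rw [← pm_pr hG (rp_ne a), pr_rp] at h1
  constructor
  · rintro (h | h)
    · exact hcard a (h1.1 (by rw [h]; exact hb))
    · exact hcard a (h1.1 (by rw [h]; exact hb'))
  · rintro (rfl | rfl)
    · exact hcard _ (h1.2 hb)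
    · exact hcard _ (h1.2 hb')

end forms

end Np49

/-- Row FQP. -/
theorem fqp : FqpStatement := by
  intro k _ _ _ q G hq hG hP D hD
  obtain ⟨S, hS⟩ := Fqtp49.fqtp hq hD hG fun h => hP (Np49.pow_of_tot hq hG h)
  exact ⟨S, fun Q hQ h => hS Q hQ h⟩

/-! ### Linear forms -/

namespace Np49
open Fqt49

section lin
variable {k : Type} [Field k] {L : Type} [Field L] [Algebra k L]

/-- a pair of linear forms -/
noncomputable def lin (a b c d : k) : Fin 2 → MvPolynomial (Fin 2) k :=
  ![C a * X 0 + C b * X 1, C c * X 0 + C d * X 1]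

theorem mor_lin {a b c d : k} (h : a * d - b * c ≠ 0) : Mor 1 (lin a b c d) where
  hom i := by
    have key : ∀ r s : k, (C r * X 0 + C s * X 1 : MvPolynomial (Fin 2) k).IsHomogeneous 1 := by
      intro r s
      have h2 := (isHomogeneous_C (Fin 2) r).mul (isHomogeneous_X k (0 : Fin 2))
      have h3 := (isHomogeneous_C (Fin 2) s).mul (isHomogeneous_X k (1 : Fin 2))
      rw [zero_add] at h2 h3
      exact h2.add h3
    fin_cases i
    · exact key a b
    · exact key c d
  ne N _ _ P hP h0 := by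
    have key : ∀ r s : k, aeval P (C r * X 0 + C s * X 1 : MvPolynomial (Fin 2) k) =
        algebraMap k N r * P 0 + algebraMap k N s * P 1 := by
      intro r s
      rw [map_add, map_mul, map_mul, algHom_C, algHom_C, aeval_X, aeval_X]
    have e0 : algebraMap k N a * P 0 + algebraMap k N b * P 1 = 0 := by
      rw [← key]
      exact congrFun h0 0
    have e1 : algebraMap k N c * P 0 + algebraMap k N d * P 1 = 0 := by
      rw [← key]
      exact congrFun h0 1
    have hδ : algebraMap k N (a * d - b * c) ≠ 0 := by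
      rw [map_ne_zero]
      exact h
    rw [map_sub, map_mul, map_mul] at hδ
    apply hP
    funext i
    fin_cases i
    · show P 0 = 0
      refine (mul_eq_zero.1 ?_).resolve_left hδ
      linear_combination algebraMap k N d * e0 - algebraMap k N b * e1
    · show P 1 = 0
      refine (mul_eq_zero.1 ?_).resolve_left hδ
      linear_combination algebraMap k N a * e1 - algebraMap k N c * e0

theorem fr_lin (a b c d : k) (z : L) : fr (lin a b c d) z =
    (algebraMap k L a * z + algebraMap k L b) / (algebraMap k L c * z + algebraMap k L d) := by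
  have key : ∀ r s : k, aeval ![z, 1] (C r * X 0 + C s * X 1 : MvPolynomial (Fin 2) k) =
      algebraMap k L r * z + algebraMap k L s := by
    intro r s
    rw [map_add, map_mul, map_mul, algHom_C, algHom_C, aeval_X, aeval_X]
    show algebraMap k L r * z + algebraMap k L s * 1 = _
    rw [mul_one]
  show aeval ![z, 1] (C a * X 0 + C b * X 1 : MvPolynomial (Fin 2) k) /
    aeval ![z, 1] (C c * X 0 + C d * X 1 : MvPolynomial (Fin 2) k) = _
  rw [key, key]

theorem lin_den {a b c d : k} (h : a * d - b * c ≠ 0) {z : L} (hz : Transcendental k z) :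
    algebraMap k L c * z + algebraMap k L d ≠ 0 := by
  intro h0
  by_cases hc : c = 0
  · rw [hc, map_zero, zero_mul, zero_add] at h0
    have hd : d = 0 := (map_eq_zero _).1 h0
    apply h
    rw [hc, hd]
    ring
  · refine hz ?_
    have h1 : z = algebraMap k L (-d / c) := by
      have hc' : algebraMap k L c ≠ 0 := by rwa [Ne, map_eq_zero]
      rw [map_div₀, map_neg, eq_div_iff hc']
      linear_combination h0
    rw [h1]
    exact isAlgebraic_algebraMap _

theorem fr_inv {a b c d : k} (h : a * d - b * c ≠ 0) {z : L} (hz : Transcendental k z) :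
    fr (lin d (-b) (-c) a) (fr (lin a b c d) z) = z := by
  have hD := lin_den h hz
  rw [fr_lin, fr_lin]
  have hδ : algebraMap k L a * algebraMap k L d - algebraMap k L b * algebraMap k L c ≠ 0 := by
    have h1 : algebraMap k L (a * d - b * c) ≠ 0 := by
      rw [map_ne_zero]
      exact h
    rwa [map_sub, map_mul, map_mul] at h1
  rw [map_neg, map_neg]
  set D := algebraMap k L c * z + algebraMap k L d with hDdef
  have e1 : algebraMap k L d * ((algebraMap k L a * z + algebraMap k L b) / D) + -algebraMap k L b =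
      (algebraMap k L a * algebraMap k L d - algebraMap k L b * algebraMap k L c) * z / D := by
    rw [eq_div_iff hD, add_mul, mul_assoc, div_mul_cancel₀ _ hD, hDdef]
    ring
  have e2 : -algebraMap k L c * ((algebraMap k L a * z + algebraMap k L b) / D) + algebraMap k L a =
      (algebraMap k L a * algebraMap k L d - algebraMap k L b * algebraMap k L c) / D := by
    rw [eq_div_iff hD, add_mul, mul_assoc, div_mul_cancel₀ _ hD, hDdef]
    ring
  rw [e1, e2, div_div_div_cancel_right₀ hD, mul_div_cancel_left₀ _ hδ]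

end lin

section npow
variable {k : Type} [Field k] [IsAlgClosed k] {L : Type} [Field L] [Algebra k L] {q : ℕ}
  {G : Fin 2 → MvPolynomial (Fin 2) k}

theorem fr_G (hG : Mor q G) (hq : 1 ≤ q) {t : L} (ht : Transcendental k t)
    {B B' A A' : Fin 2 → k} {c c' : k} (h : bind₁ G (LDG.lf B) = C c * LDG.lf A ^ q)
    (h' : bind₁ G (LDG.lf B') = C c' * LDG.lf A' ^ q) :
    fr (lin (B 1) (-B 0) (B' 1) (-B' 0)) (fr G t) =
      algebraMap k L (c / c') * fr (lin (A 1) (-A 0) (A' 1) (-A' 0)) t ^ q := by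
  have hd := Rb.den_ne hG hq ht
  have hG0 : aeval ![t, 1] (G 0) = aeval ![t, 1] (G 1) * fr G t := by
    rw [fr, mul_div_cancel₀ _ hd]
  have key : ∀ {B A : Fin 2 → k} {c : k}, bind₁ G (LDG.lf B) = C c * LDG.lf A ^ q →
      aeval ![t, 1] (G 1) * (algebraMap k L (B 1) * fr G t - algebraMap k L (B 0)) =
        algebraMap k L c * (algebraMap k L (A 1) * t - algebraMap k L (A 0)) ^ q := by
    intro B A c h
    have h1 := congrArg (aeval ![t, 1]) h
    rw [lf_bind, map_sub, map_mul, map_mul, algHom_C, algHom_C, hG0, map_mul, map_pow, algHom_C,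
      LDG.lf, map_sub, map_mul, map_mul, algHom_C, algHom_C, aeval_X, aeval_X] at h1
    have h2 : (![t, 1] : Fin 2 → L) 0 = t := rfl
    have h3 : (![t, 1] : Fin 2 → L) 1 = 1 := rfl
    rw [h2, h3, mul_one] at h1
    rw [← h1]
    ring
  have k1 := key h
  have k2 := key h'
  rw [fr_lin, fr_lin, map_neg, map_neg, map_neg, map_neg, ← sub_eq_add_neg, ← sub_eq_add_neg,
    ← sub_eq_add_neg, ← sub_eq_add_neg, map_div₀, div_pow, div_mul_div_comm, ← k1, ← k2,
    mul_div_mul_left _ _ hd]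

/-- the forms of a power map -/
theorem forms_of_pow [CharZero k] (hq : 1 ≤ q) (hG : Mor q G) (hP : Pow G) :
    ∃ (B B' : Fin 2 → k) (c c' : k), B 1 * B' 0 - B 0 * B' 1 ≠ 0 ∧ c ≠ 0 ∧ c' ≠ 0 ∧
      ((bind₁ G (LDG.lf B) = C c * LDG.lf B ^ q ∧ bind₁ G (LDG.lf B') = C c' * LDG.lf B' ^ q) ∨
      (bind₁ G (LDG.lf B) = C c * LDG.lf B' ^ q ∧ bind₁ G (LDG.lf B') = C c' * LDG.lf B ^ q)) := by
  obtain ⟨b, b', hbb, h⟩ := hP
  have hne : rp b 1 * rp b' 0 - rp b 0 * rp b' 1 ≠ 0 := by
    intro h0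
    apply hbb
    have h1 : Prl (rp b) (rp b') := by
      rw [Bas.prl_iff_det (rp_ne _) (rp_ne _)]
      linear_combination -h0
    have h2 := Bas.pr_of_prl h1
    rwa [pr_rp, pr_rp] at h2
  have hsurj : ∀ y : Option k, ∃ x : Option k, pm G x = y := by
    intro y
    obtain ⟨P, hP, hPz⟩ := Fqt49.surj hq hG (rp_ne y)
    exact ⟨pr P, by rw [pm_pr hG hP, Bas.pr_of_prl hPz, pr_rp]⟩
  have hone : ∀ y x : Option k, (∀ z, pm G z = y → z = x) →
      ∃ c : k, c ≠ 0 ∧ bind₁ G (LDG.lf (rp y)) = C c * LDG.lf (rp x) ^ q := by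
    intro y x hz
    refine one_pre hG (rp_ne _) (rp_ne _) fun P hP h => ?_
    have h1 : pm G (pr P) = y := by rw [pm_pr hG hP, Bas.pr_of_prl h, pr_rp]
    have h2 := hz _ h1
    have h3 := prl_rp hP
    rwa [h2] at h3
  by_cases hb : pm G b = b
  · -- both points are fixed
    have hb' : pm G b' = b' := by
      obtain ⟨x, hx⟩ := hsurj b'
      rcases (h x).1 (Or.inr hx) with h1 | h1
      · rw [h1, hb] at hx
        exact absurd hx hbb
      · rwa [h1] at hx
    obtain ⟨c, hc, e⟩ := hone b b fun z hz => by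
      rcases (h z).1 (Or.inl hz) with h1 | h1
      · exact h1
      · rw [h1, hb'] at hz
        exact absurd hz.symm hbb
    obtain ⟨c', hc', e'⟩ := hone b' b' fun z hz => by
      rcases (h z).1 (Or.inr hz) with h1 | h1
      · rw [h1, hb] at hz
        exact absurd hz hbb
      · exact h1
    exact ⟨rp b, rp b', c, c', hne, hc, hc', Or.inl ⟨e, e'⟩⟩
  · have hb1 : pm G b = b' := ((h b).2 (Or.inl rfl)).resolve_left hb
    have hb' : pm G b' = b := by
      obtain ⟨x, hx⟩ := hsurj b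
      rcases (h x).1 (Or.inl hx) with h1 | h1
      · rw [h1] at hx
        exact absurd hx hb
      · rwa [h1] at hx
    obtain ⟨c, hc, e⟩ := hone b b' fun z hz => by
      rcases (h z).1 (Or.inl hz) with h1 | h1
      · rw [h1] at hz
        exact absurd hz hb
      · exact h1
    obtain ⟨c', hc', e'⟩ := hone b' b fun z hz => by
      rcases (h z).1 (Or.inr hz) with h1 | h1
      · exact h1
      · rw [h1, hb'] at hz
        exact absurd hz hbb
    exact ⟨rp b, rp b', c, c', hne, hc, hc', Or.inr ⟨e, e'⟩⟩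

end npow

section lift
variable {k : Type} [Field k] [IsAlgClosed k] [CharZero k]

/-- powers of a transcendental element -/
theorem trans_pow {L : Type} [Field L] [Algebra k L] {z : L} (hz : Transcendental k z) {n : ℕ}
    (hn : 1 ≤ n) : Transcendental k (z ^ n) := by
  intro h
  exact hz (IsAlgebraic.of_pow (by omega) h)

theorem trans_mul {L : Type} [Field L] [Algebra k L] {z : L} (hz : Transcendental k z) {c : k}
    (hc : c ≠ 0) : Transcendental k (algebraMap k L c * z) := by
  intro h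
  apply hz
  have h1 := (isAlgebraic_algebraMap (R := k) (A := L) c⁻¹).mul h
  rwa [← mul_assoc, ← map_mul, inv_mul_cancel₀ hc, map_one, one_mul] at h1

theorem trans_inv {L : Type} [Field L] [Algebra k L] {z : L} (hz : Transcendental k z) :
    Transcendental k z⁻¹ := by
  intro h
  apply hz
  rw [← inv_inv z]
  exact h.inv

theorem fin_of {L : Type} [Field L] [Algebra k L] {x u : L} (htop : adjoin k {x} = ⊤)
    (h1 : IsIntegral (adjoin k {u}) x) : FiniteDimensional (adjoin k {u}) L := by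
  have h2 : adjoin (adjoin k {u}) {x} = ⊤ := by
    rw [eq_top_iff]
    intro y hy0
    have h3 : y ∈ adjoin k {x} := by rw [htop]; trivial
    clear hy0
    induction h3 using adjoin_induction with
    | mem y hy =>
      rw [Set.mem_singleton_iff] at hy
      rw [hy]
      exact mem_adjoin_simple_self (adjoin k {u}) x
    | algebraMap c =>
      exact IntermediateField.algebraMap_mem (adjoin (adjoin k {u}) {x})
        (algebraMap k (adjoin k {u}) c)
    | add y z _ _ h1 h2 => exact add_mem h1 h2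
    | inv y _ h1 => exact inv_mem h1
    | mul y z _ _ h1 h2 => exact mul_mem h1 h2
  have h3 := adjoin.finiteDimensional h1
  have e : (adjoin (adjoin k {u}) {x}) ≃ₗ[adjoin k {u}] L :=
    (equivOfEq h2).toLinearEquiv.trans topEquiv.toLinearEquiv
  exact e.finiteDimensional

/-- the lift of a power map -/
theorem not_triv {q : ℕ} {G : Fin 2 → MvPolynomial (Fin 2) k} (hq : 2 ≤ q) (hG : Mor q G)
    {B B' : Fin 2 → k} (hδ : B 1 * B' 0 - B 0 * B' 1 ≠ 0) {γ : k} (hγ : γ ≠ 0) {y : RatFunc k}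
    (hy : Transcendental k y) (hyX : y = RatFunc.X ^ q ∨ y = (RatFunc.X ^ q)⁻¹)
    (h : ∀ t : RatFunc k, Transcendental k t →
      (y = RatFunc.X ^ q → fr (lin (B 1) (-B 0) (B' 1) (-B' 0)) (fr G t) =
        algebraMap k (RatFunc k) γ * fr (lin (B 1) (-B 0) (B' 1) (-B' 0)) t ^ q) ∧
      (y = (RatFunc.X ^ q)⁻¹ → fr (lin (B 1) (-B 0) (B' 1) (-B' 0)) (fr G t) =
        algebraMap k (RatFunc k) γ * (fr (lin (B 1) (-B 0) (B' 1) (-B' 0)) t ^ q)⁻¹)) :
    ¬ Triv G := by
  intro hT
  have hq1 : 1 ≤ q := by omega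
  set n := q + 1 with hn
  -- the constant
  obtain ⟨g, hg⟩ := IsAlgClosed.exists_pow_nat_eq γ (show 0 < n by omega)
  have hg0 : g ≠ 0 := by
    rintro rfl
    rw [zero_pow (by omega)] at hg
    exact hγ hg.symm
  have hX : Transcendental k (RatFunc.X : RatFunc k) := by
    rw [← RatFunc.algebraMap_X]
    exact (transcendental_algebraMap_iff (RatFunc.algebraMap_injective k)).2
      (Polynomial.transcendental_X k)
  have hXn := trans_pow hX (show 1 ≤ n by omega)
  have hgy := trans_mul hy hg0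
  -- the maps
  have hδ' : -B' 0 * B 1 - B 0 * -B' 1 ≠ 0 := by
    intro h
    apply hδ
    linear_combination -h
  have hδ'' : B 1 * -B' 0 - -B 0 * B' 1 ≠ 0 := by
    intro h
    apply hδ
    linear_combination -h
  set m := lin (-B' 0) (B 0) (-B' 1) (B 1) with hm
  set w := lin (B 1) (-B 0) (B' 1) (-B' 0) with hw
  have hmM : Mor 1 m := mor_lin hδ'
  have hwM : Mor 1 w := mor_lin hδ''
  have hwm : ∀ z : RatFunc k, Transcendental k z → fr w (fr m z) = z := by
    intro z hz
    have h1 := fr_inv hδ' hz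
    rw [← hm, neg_neg] at h1
    exact h1
  have hmw : ∀ z : RatFunc k, Transcendental k z → fr m (fr w z) = z := by
    intro z hz
    have h1 := fr_inv hδ'' hz
    rw [← hw, neg_neg] at h1
    exact h1
  set u := fr m ((RatFunc.X : RatFunc k) ^ n) with hu
  have hutr : Transcendental k u := Rb.trans_fr hmM le_rfl hXn
  have hwu : fr w u = RatFunc.X ^ n := hwm _ hXn
  let φ : RatFunc k →ₐ[k] RatFunc k := Ra21.io hgy
  have hφX : φ RatFunc.X = algebraMap k (RatFunc k) g * y := Ra21.io_X hgy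
  have hφu : Transcendental k (φ u) := fun h =>
    hutr ((isAlgebraic_algHom_iff φ φ.injective).1 h)
  have hGu : Transcendental k (fr G u) := Rb.trans_fr hG hq1 hutr
  -- the relation
  have hgC : (algebraMap k (RatFunc k) g) ^ n = algebraMap k (RatFunc k) γ := by
    rw [← map_pow, hg]
  have hper : φ u = (fr G)^[1] u := by
    rw [Function.iterate_one, ← hmw _ hφu, ← hmw _ hGu]
    congr 1
    rw [← Rb.map_fr φ u, hwu, map_pow, hφX, mul_pow, hgC]
    rcases hyX with e | e
    · rw [(h u hutr).1 e, hwu, e, ← pow_mul, ← pow_mul, mul_comm n q]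
    · rw [(h u hutr).2 e, hwu, e, inv_pow, ← pow_mul, ← pow_mul, mul_comm n q]
  have hXtop : adjoin k {(RatFunc.X : RatFunc k)} = ⊤ := RatFunc.adjoin_X
  have hXnu : (RatFunc.X : RatFunc k) ^ n ∈ adjoin k {u} := by
    rw [← hwu]
    exact Ra72.fr_mem w (mem_adjoin_simple_self k u)
  have hX0 : (RatFunc.X : RatFunc k) ≠ 0 := RatFunc.X_ne_zero
  have hgen : φ.fieldRange ⊔ adjoin k {u} = ⊤ := by
    rw [eq_top_iff, ← hXtop, adjoin_le_iff, Set.singleton_subset_iff]
    have h1 : (RatFunc.X : RatFunc k) ^ n ∈ φ.fieldRange ⊔ adjoin k {u} :=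
      (le_sup_right : adjoin k {u} ≤ φ.fieldRange ⊔ adjoin k {u}) hXnu
    have h2 : y ∈ φ.fieldRange ⊔ adjoin k {u} := by
      have h3 : φ RatFunc.X ∈ φ.fieldRange ⊔ adjoin k {u} :=
        (le_sup_left : φ.fieldRange ≤ φ.fieldRange ⊔ adjoin k {u}) ⟨RatFunc.X, rfl⟩
      rw [hφX] at h3
      have h4 : y = algebraMap k (RatFunc k) g⁻¹ * (algebraMap k (RatFunc k) g * y) := by
        rw [← mul_assoc, ← map_mul, inv_mul_cancel₀ hg0, map_one, one_mul]
      rw [h4]
      exact mul_mem (IntermediateField.algebraMap_mem _ _) h3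
    have h3 : (RatFunc.X : RatFunc k) ^ q ∈ φ.fieldRange ⊔ adjoin k {u} := by
      rcases hyX with e | e
      · rwa [e] at h2
      · rw [e] at h2
        have := inv_mem h2
        rwa [inv_inv] at this
    have h4 : (RatFunc.X : RatFunc k) = RatFunc.X ^ n / RatFunc.X ^ q := by
      rw [eq_div_iff (pow_ne_zero _ hX0), hn, pow_succ, mul_comm]
    show (RatFunc.X : RatFunc k) ∈ φ.fieldRange ⊔ adjoin k {u}
    rw [h4]
    exact div_mem h1 h3
  have hfin : FiniteDimensional (adjoin k {u}) (RatFunc k) := by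
    have h1 : IsIntegral (adjoin k {u}) (RatFunc.X : RatFunc k) := by
      refine IsIntegral.of_pow (show 0 < n by omega) ?_
      exact isIntegral_algebraMap (x := (⟨_, hXnu⟩ : adjoin k {u}))
    exact fin_of hXtop h1
  have htop := hT (RatFunc k) 1 u φ le_rfl ⟨hutr, hfin, hper, hgen⟩
  -- a root of unity
  have hn0 : NeZero (n : k) := ⟨by exact_mod_cast (show n ≠ 0 by omega)⟩
  have hcyc : (Polynomial.cyclotomic n k).degree ≠ 0 := by
    rw [Polynomial.degree_cyclotomic]
    have := Nat.totient_pos.2 (show 0 < n by omega)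
    exact_mod_cast this.ne'
  obtain ⟨ζ, hζ⟩ := IsAlgClosed.exists_root _ hcyc
  have hζ' : IsPrimitiveRoot ζ n := Polynomial.isRoot_cyclotomic_iff.1 hζ
  have hζ0 : ζ ≠ 0 := hζ'.ne_zero (by omega)
  have hζX := trans_mul hX hζ0
  let ψ : RatFunc k →ₐ[k] RatFunc k := Ra21.io hζX
  have hψX : ψ RatFunc.X = algebraMap k (RatFunc k) ζ * RatFunc.X := Ra21.io_X hζX
  have hψu : ψ u = u := by
    rw [hu, Rb.map_fr ψ, map_pow, hψX, mul_pow, ← map_pow, hζ'.pow_eq_one, map_one, one_mul]
  have hψ : ∀ x ∈ adjoin k {u}, ψ x = x := by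
    intro x hx
    induction hx using adjoin_induction with
    | mem x hx =>
      rw [Set.mem_singleton_iff] at hx
      rw [hx]
      exact hψu
    | algebraMap x => exact ψ.commutes x
    | add x y _ _ h1 h2 => rw [map_add, h1, h2]
    | inv x _ h1 => rw [map_inv₀, h1]
    | mul x y _ _ h1 h2 => rw [map_mul, h1, h2]
  have h1 := hψ RatFunc.X (by rw [htop]; trivial)
  rw [hψX] at h1
  have h2 : algebraMap k (RatFunc k) ζ = algebraMap k (RatFunc k) 1 := by
    rw [map_one]
    exact mul_right_cancel₀ hX0 (h1.trans (one_mul _).symm)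
  have h3 : ζ = 1 := (algebraMap k (RatFunc k)).injective h2
  rw [h3] at hζ'
  have h5 := IsPrimitiveRoot.unique hζ' IsPrimitiveRoot.one
  omega

end lift

end Np49

/-- Row NPOW. -/
theorem npow : NpowStatement := by
  intro k _ _ _ q G hq hG hT hP
  have hq1 : 1 ≤ q := by omega
  obtain ⟨B, B', c, c', hδ, hc, hc', h⟩ := Np49.forms_of_pow hq1 hG hP
  have hX : Transcendental k (RatFunc.X : RatFunc k) := by
    rw [← RatFunc.algebraMap_X]
    exact (transcendental_algebraMap_iff (RatFunc.algebraMap_injective k)).2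
      (Polynomial.transcendental_X k)
  have hXq := Np49.trans_pow hX hq1
  have hne : (RatFunc.X : RatFunc k) ^ q ≠ (RatFunc.X ^ q)⁻¹ := by
    intro h0
    have h1 : (RatFunc.X : RatFunc k) ^ q ≠ 0 := pow_ne_zero _ RatFunc.X_ne_zero
    have h2 : ((RatFunc.X : RatFunc k) ^ q) ^ 2 = 1 := by
      rw [pow_two]
      nth_rewrite 2 [h0]
      exact mul_inv_cancel₀ h1
    apply Np49.trans_pow hXq (show 1 ≤ 2 by norm_num)
    rw [h2]
    exact isAlgebraic_one
  rcases h with ⟨h1, h2⟩ | ⟨h1, h2⟩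
  · exact Np49.not_triv hq hG hδ (div_ne_zero hc hc') hXq (Or.inl rfl)
      (fun t ht => ⟨fun _ => Np49.fr_G hG hq1 ht h1 h2, fun e => absurd e hne⟩) hT
  · refine Np49.not_triv hq hG hδ (div_ne_zero hc hc') (Np49.trans_inv hXq) (Or.inr rfl)
      (fun t ht => ⟨fun e => absurd e.symm hne, fun _ => ?_⟩) hT
    rw [Np49.fr_G hG hq1 ht h1 h2, Np49.fr_lin, Np49.fr_lin, ← inv_pow, inv_div]

end Pool.DynLehmer.UN.Orb

set_option linter.unusedSectionVars false

/-!
# Descent of the finiteness of the periodic pairs along a semiconjugacy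
-/

namespace Pool.DynLehmer.UN.Dsc72
open MvPolynomial Pool.DynLehmer Pool.DynLehmer.SB Pool.DynLehmer.SP
  Pool.DynLehmer.GS Pool.DynLehmer.LP Pool.DynLehmer.LW Pool.DynLehmer.UN IntermediateField
open scoped Classical

variable {k : Type} [Field k] {L : Type} [Field L] [Algebra k L]

/-! ### A form for a pair -/

open scoped IntermediateField.algebraAdjoinAdjoin in
theorem exists_rel {x y : L} (hy : IsAlgebraic (adjoin k {x}) y) :
    ∃ h : Polynomial (Polynomial k),
      h.map (Polynomial.aeval x : Polynomial k →ₐ[k] L).toRingHom ≠ 0 ∧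
      h.eval₂ (Polynomial.aeval x : Polynomial k →ₐ[k] L).toRingHom y = 0 := by
  have h1 : IsAlgebraic (Algebra.adjoin k {x}) y :=
    (IsFractionRing.isAlgebraic_iff (Algebra.adjoin k {x}) (adjoin k {x}) L).2 hy
  obtain ⟨f, hf, hfy⟩ := h1
  let ρ : Polynomial k →+* Algebra.adjoin k {x} :=
    ((Polynomial.aeval x).codRestrict (Algebra.adjoin k {x})
      (fun p => Polynomial.aeval_mem_adjoin_singleton k x)).toRingHom
  have hρ : Function.Surjective ρ := by
    rintro ⟨u, hu⟩
    rw [Algebra.adjoin_singleton_eq_range_aeval] at hu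
    obtain ⟨p, hp⟩ := hu
    exact ⟨p, Subtype.ext hp⟩
  obtain ⟨g, hg⟩ := Polynomial.map_surjective ρ hρ f
  have hc : (Polynomial.aeval x : Polynomial k →ₐ[k] L).toRingHom =
      (algebraMap (Algebra.adjoin k {x}) L).comp ρ := RingHom.ext fun _ => rfl
  refine ⟨g, ?_, ?_⟩
  · rw [hc, ← Polynomial.map_map, hg]
    exact fun h => hf ((Polynomial.map_eq_zero_iff (FaithfulSMul.algebraMap_injective _ _)).1 h)
  · rw [hc, ← Polynomial.eval₂_map, hg]
    exact hfy

theorem exists_form [Infinite L] {x y : L} (hy : IsAlgebraic (adjoin k {x}) y) :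
    ∃ (a b : ℕ) (H : MvPolynomial (Fin 2 ⊕ Fin 2) k), H ≠ 0 ∧ BiHom a b H ∧
      GS.ev ![x, 1] ![y, 1] H = 0 := by
  obtain ⟨h, h0, hh⟩ := exists_rel hy
  obtain ⟨a, b, H, hH, hev⟩ := Gb.homog (L := L) h
  refine ⟨a, b, H, ?_, hH, (hev x y).trans hh⟩
  rintro rfl
  refine h0 (Polynomial.funext fun w => ?_)
  rw [Polynomial.eval_map, ← hev x w, Polynomial.eval_zero]
  exact map_zero _

theorem exists_irr [Infinite L] {x y : L} (hx : Transcendental k x) (hy : Transcendental k y)
    (hxy : IsAlgebraic (adjoin k {x}) y) :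
    ∃ (c₁ c₂ : ℕ) (H : MvPolynomial (Fin 2 ⊕ Fin 2) k), 1 ≤ c₁ ∧ 1 ≤ c₂ ∧ Irreducible H ∧
      BiHom c₁ c₂ H ∧ GS.ev ![x, 1] ![y, 1] H = 0 := by
  obtain ⟨a, b, R, hne, hR, h0⟩ := exists_form hxy
  obtain ⟨u, hu⟩ := UniqueFactorizationMonoid.factors_prod hne
  have h1 : GS.ev ![x, 1] ![y, 1] (UniqueFactorizationMonoid.factors R).prod = 0 := by
    have h2 : (UniqueFactorizationMonoid.factors R).prod =
        R * ((u⁻¹ : (MvPolynomial (Fin 2 ⊕ Fin 2) k)ˣ) :
          MvPolynomial (Fin 2 ⊕ Fin 2) k) := (Units.eq_mul_inv_iff_mul_eq u).2 hu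
    rw [h2, GS.ev, map_mul]
    rw [GS.ev] at h0
    rw [h0, zero_mul]
  rw [GS.ev, map_multiset_prod, Multiset.prod_eq_zero_iff, Multiset.mem_map] at h1
  obtain ⟨H, hH, hH0⟩ := h1
  have hirr := UniqueFactorizationMonoid.irreducible_of_factor H hH
  obtain ⟨c₁, c₂, -, -, hb⟩ := BiHom.of_dvd hR hne
    (UniqueFactorizationMonoid.dvd_of_mem_factors hH)
  have hc1 : c₁ ≠ 0 := by
    rintro rfl
    exact hirr.ne_zero (Rc.zero_left hb hy hH0)
  have hc2 : c₂ ≠ 0 := by
    rintro rfl
    exact hirr.ne_zero (Rc.zero_right hb hx hH0)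
  exact ⟨c₁, c₂, H, by omega, by omega, hirr, hb, hH0⟩

/-! ### The semiconjugacy at transcendental points -/

variable {q q' m N : ℕ} {F G θ : Fin 2 → MvPolynomial (Fin 2) k}

/-- Two maps which agree at all points of the projective line over an infinite field agree at
transcendental points. -/
theorem fr_eq_of_points [Infinite k] {D E : ℕ} {A B : Fin 2 → MvPolynomial (Fin 2) k}
    (hA : Mor D A) (hB : Mor E B) (hD : 1 ≤ D) (hE : 1 ≤ E)
    (h : ∀ P : Fin 2 → k, P ≠ 0 → Prl (gAct A k P) (gAct B k P)) {z : L}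
    (hz : Transcendental k z) : fr A z = fr B z := by
  have h1 : (A 0 * B 1 - A 1 * B 0) * X 0 = 0 := by
    refine MvPolynomial.funext fun P => ?_
    rw [map_zero, map_mul, eval_X]
    by_cases hP : P = 0
    · rw [hP]
      exact mul_zero _
    · have h2 := (Bas.prl_iff_det (hA.ne k P hP) (hB.ne k P hP)).1 (h P hP)
      have h3 : ∀ (R : Fin 2 → MvPolynomial (Fin 2) k) (i : Fin 2), eval P (R i) = gAct R k P i := by
        intro R i
        show eval P (R i) = aeval P (R i)
        rw [aeval_eq_eval]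
      rw [map_sub, map_mul, map_mul, h3, h3, h3, h3, h2, sub_self, zero_mul]
  have h2 : A 0 * B 1 - A 1 * B 0 = 0 := (mul_eq_zero.1 h1).resolve_right (X_ne_zero 0)
  have h3 : aeval ![z, 1] (A 0) * aeval ![z, 1] (B 1) =
      aeval ![z, 1] (B 0) * aeval ![z, 1] (A 1) := by
    have h4 := congrArg (aeval ![z, 1]) h2
    rw [map_sub, map_mul, map_mul, map_zero, sub_eq_zero] at h4
    rw [h4, mul_comm]
  exact (div_eq_div_iff (Rb.den_ne hA hD hz) (Rb.den_ne hB hE hz)).2 h3

theorem fr_semi [Infinite k] (hF : Mor q F) (hG : Mor q' G) (hθ : Mor m θ) (hq : 1 ≤ q)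
    (hq' : 1 ≤ q') (hm : 1 ≤ m) (h : Orb.Semi F N θ G) {z : L}
    (hz : Transcendental k z) : fr θ (fr G z) = (fr F)^[N] (fr θ z) := by
  have h1 := Ra72.fr_comp hθ hG hq' hm hz
  have h2 := Ra72.fr_comp (Bas.mor_itF hF N) hθ hm (Nat.one_le_pow _ _ hq) hz
  rw [Ra72.fr_itF hF hq N (Rb.trans_fr hθ hm hz)] at h2
  rw [← h1, ← h2]
  refine fr_eq_of_points (Ra72.mor_comp hθ hG) (Ra72.mor_comp (Bas.mor_itF hF N) hθ)
    (Nat.mul_pos hq' hm) (Nat.mul_pos hm (Nat.one_le_pow _ _ hq)) (fun P hP => ?_) hz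
  rw [Ra72.gAct_comp, Ra72.gAct_comp, Bas.gAct_itF]
  exact h P hP

theorem semi_it (hG : Mor q' G) (hq' : 1 ≤ q')
    (h : ∀ z : L, Transcendental k z → fr θ (fr G z) = (fr F)^[N] (fr θ z)) (j : ℕ) {z : L}
    (hz : Transcendental k z) : fr θ ((fr G)^[j] z) = (fr F)^[j * N] (fr θ z) := by
  induction j with
  | zero => rw [Nat.zero_mul]; rfl
  | succ j ih =>
    rw [Function.iterate_succ_apply', h _ (Rb.trans_it hG hq' hz j), ih,
      ← Function.iterate_add_apply]
    congr 2
    ring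

/-! ### The fibres -/

/-- The polynomial whose roots are the points of the fibre of `x`. -/
noncomputable def fp (θ : Fin 2 → MvPolynomial (Fin 2) k) (x : L) : Polynomial L :=
  (Ra72.dp θ 0).map (algebraMap k L) - Polynomial.C x * (Ra72.dp θ 1).map (algebraMap k L)

theorem fp_map (ψ : L →ₐ[k] L) (x : L) : (fp θ x).map (ψ : L →+* L) = fp θ (ψ x) := by
  have h : (ψ : L →+* L).comp (algebraMap k L) = algebraMap k L := RingHom.ext ψ.commutes
  rw [fp, fp, Polynomial.map_sub, Polynomial.map_mul, Polynomial.map_C, Polynomial.map_map,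
    Polynomial.map_map, h]
  rfl

theorem fp_eval (x z : L) :
    (fp θ x).eval z = aeval ![z, 1] (θ 0) - x * aeval ![z, 1] (θ 1) := by
  rw [fp, Polynomial.eval_sub, Polynomial.eval_mul, Polynomial.eval_C,
    Polynomial.eval_map_algebraMap, Polynomial.eval_map_algebraMap, Ra72.dp_aeval,
    Ra72.dp_aeval]

theorem fp_deg (hθ : Mor m θ) (hm : 1 ≤ m) {x : L} (hx : Transcendental k x) :
    (fp θ x).natDegree ≠ 0 := by
  have hmax := Ra72.dp_max hθ
  have h1 : (fp θ x).coeff m ≠ 0 := by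
    rw [fp, Polynomial.coeff_sub, Polynomial.coeff_C_mul, Polynomial.coeff_map,
      Polynomial.coeff_map]
    intro h
    have hb : (Ra72.dp θ 1).coeff m = 0 := by
      by_contra hb
      have hb' : algebraMap k L ((Ra72.dp θ 1).coeff m) ≠ 0 := (map_ne_zero _).2 hb
      have hxe : x = algebraMap k L ((Ra72.dp θ 0).coeff m / (Ra72.dp θ 1).coeff m) := by
        rw [map_div₀, eq_div_iff hb']
        exact (sub_eq_zero.1 h).symm
      rw [hxe] at hx
      exact hx (isAlgebraic_algebraMap _)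
    have ha : (Ra72.dp θ 0).coeff m = 0 := by
      rw [hb, map_zero, mul_zero, sub_zero] at h
      exact (map_eq_zero _).1 h
    rcases max_choice (Ra72.dp θ 0).natDegree (Ra72.dp θ 1).natDegree with h2 | h2
    · rw [h2] at hmax
      have h3 : (Ra72.dp θ 0).leadingCoeff = 0 := by
        rw [Polynomial.leadingCoeff, hmax, ha]
      rw [Polynomial.leadingCoeff_eq_zero] at h3
      rw [h3, Polynomial.natDegree_zero] at hmax
      omega
    · rw [h2] at hmax
      have h3 : (Ra72.dp θ 1).leadingCoeff = 0 := by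
        rw [Polynomial.leadingCoeff, hmax, hb]
      rw [Polynomial.leadingCoeff_eq_zero] at h3
      rw [h3, Polynomial.natDegree_zero] at hmax
      omega
  intro h2
  have h3 := Polynomial.le_natDegree_of_ne_zero h1
  omega

theorem fib_of (hθ : Mor m θ) {x z : L} (hx : Transcendental k x)
    (h : (fp θ x).eval z = 0) : Transcendental k z ∧ fr θ z = x := by
  rw [fp_eval] at h
  have h1 : aeval ![z, 1] (θ 1) ≠ 0 := by
    intro h0
    rw [h0, mul_zero, sub_zero] at h
    refine hθ.ne L ![z, 1] (fun h2 => one_ne_zero (congrFun h2 1)) ?_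
    funext i
    fin_cases i
    · exact h
    · exact h0
  have h2 : fr θ z = x := by
    rw [fr, div_eq_iff h1]
    exact sub_eq_zero.1 h
  refine ⟨fun hz => hx ?_, h2⟩
  have h3 : z ∈ algebraicClosure k L := mem_algebraicClosure_iff.2 hz
  have h4 := Ra72.fr_mem θ h3
  rw [h2] at h4
  exact mem_algebraicClosure_iff.1 h4

theorem of_fib (hθ : Mor m θ) (hm : 1 ≤ m) {x z : L} (hz : Transcendental k z)
    (h : fr θ z = x) : (fp θ x).eval z = 0 := by
  rw [fp_eval, ← h, fr, div_mul_cancel₀ _ (Rb.den_ne hθ hm hz), sub_self]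

/-- The roots over the image of `x` are the images of the roots over `x`. -/
theorem exists_root_map [IsAlgClosed L] (hθ : Mor m θ) (hm : 1 ≤ m) (ψ : L →ₐ[k] L) {x w : L}
    (hx : Transcendental k x) (h : (fp θ (ψ x)).eval w = 0) :
    ∃ z : L, (fp θ x).eval z = 0 ∧ ψ z = w := by
  have hne : fp θ x ≠ 0 := by
    intro h0
    refine fp_deg hθ hm hx ?_
    rw [h0, Polynomial.natDegree_zero]
  have h5 : w ∈ ((fp θ x).map (ψ : L →+* L)).roots := by
    refine (Polynomial.mem_roots (Polynomial.map_ne_zero hne)).2 ?_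
    rw [fp_map]
    exact h
  rw [(IsAlgClosed.splits (fp θ x)).roots_map, Multiset.mem_map] at h5
  obtain ⟨z, hz, h6⟩ := h5
  exact ⟨z, (Polynomial.mem_roots hne).1 hz, h6⟩

/-- A periodic point of the fibre. -/
theorem exists_lift [IsAlgClosed L] (hG : Mor q' G) (hθ : Mor m θ) (hq' : 1 ≤ q')
    (hm : 1 ≤ m) (h : ∀ z : L, Transcendental k z → fr θ (fr G z) = (fr F)^[N] (fr θ z))
    (φ : L →ₐ[k] L) {M : ℕ} {x : L} (hx : Transcendental k x) (hφ : φ x = (fr F)^[M] x) :
    ∃ (z : L) (n : ℕ), 1 ≤ n ∧ Transcendental k z ∧ fr θ z = x ∧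
      φ^[n * N] z = (fr G)^[n * M] z := by
  obtain ⟨ψ, hψ⟩ := Pg3H72.exists_pow φ N
  have hψx : ψ x = (fr F)^[N * M] x := by
    rw [hψ, Rb.iter_pt φ hφ]
  have hne : fp θ x ≠ 0 := by
    intro h0
    refine fp_deg hθ hm hx ?_
    rw [h0, Polynomial.natDegree_zero]
  have hroot : ∀ y : L, (fp θ x).IsRoot y → ∃ y' : L, (fp θ x).IsRoot y' ∧
      ψ y' = (fr G)^[M] y := by
    intro y hy
    obtain ⟨hty, hyx⟩ := fib_of hθ hx hy
    refine exists_root_map hθ hm ψ hx (of_fib hθ hm (Rb.trans_it hG hq' hty M) ?_)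
    rw [semi_it hG hq' h M hty, hyx, hψx, mul_comm]
  obtain ⟨y₀, hy₀⟩ := IsAlgClosed.exists_root (fp θ x)
    (fun hz => fp_deg hθ hm hx (Polynomial.natDegree_eq_of_degree_eq_some hz))
  have hfin : Finite {y : L // (fp θ x).IsRoot y} := by
    refine Set.Finite.to_subtype (s := {y : L | (fp θ x).IsRoot y}) ?_
    exact Polynomial.finite_setOfPred_isRoot hne
  choose! T hT1 hT2 using hroot
  obtain ⟨⟨y, hy⟩, j, hj, hTj⟩ := Pg3H72.exists_periodic
    (fun s : {y : L // (fp θ x).IsRoot y} => (⟨T s.1, hT1 s.1 s.2⟩ :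
      {y : L // (fp θ x).IsRoot y})) ⟨y₀, hy₀⟩
  have hit : ∀ (i : ℕ) (s : {y : L // (fp θ x).IsRoot y}),
      ψ^[i] ((fun s : {y : L // (fp θ x).IsRoot y} =>
        (⟨T s.1, hT1 s.1 s.2⟩ : {y : L // (fp θ x).IsRoot y}))^[i] s).1 =
        (fr G)^[i * M] s.1 := by
    intro i
    induction i with
    | zero => intro s; rw [Nat.zero_mul]; rfl
    | succ i ih =>
      intro s
      rw [Function.iterate_succ_apply' (f := ψ), Function.iterate_succ_apply]
      rw [ih, Rb.map_it]
      show _ = _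
      rw [hT2 s.1 s.2, ← Function.iterate_add_apply]
      congr 2
      ring
  have hψit : ∀ (i : ℕ) (z : L), ψ^[i] z = φ^[i * N] z := by
    intro i z
    have h8 : (ψ : L → L) = φ^[N] := funext hψ
    rw [h8, ← Function.iterate_mul, mul_comm]
  obtain ⟨h1, h2⟩ := fib_of hθ hx hy
  refine ⟨y, j, hj, h1, h2, ?_⟩
  have h7 := hit j ⟨y, hy⟩
  rw [hTj, hψit] at h7
  exact h7

theorem alg_up {x z : L} (hxz : x ∈ adjoin k {z})
    (halg : Algebra.IsAlgebraic (adjoin k {x}) L) : Algebra.IsAlgebraic (adjoin k {z}) L := by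
  have hle : (adjoin k {x}).toSubalgebra ≤ (adjoin k {z}).toSubalgebra := by
    have h1 : adjoin k {x} ≤ adjoin k {z} := by
      refine adjoin_le_iff.2 ?_
      rintro _ rfl
      exact hxz
    exact h1
  exact ⟨fun w => IsAlgebraic.tower_top_of_subalgebra_le hle (halg.isAlgebraic w)⟩

/-- The degrees of the pair in the fibre. -/
theorem deg_lift [IsAlgClosed k] (hθ : Mor m θ) (hm : 1 ≤ m) {x y z w : L}
    (hz : Transcendental k z) (hw : Transcendental k w) (hzx : fr θ z = x) (hwy : fr θ w = y)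
    (hdeg : relfinrank (adjoin k {x}) (adjoin k {x, y}) =
      relfinrank (adjoin k {y}) (adjoin k {x, y})) :
    relfinrank (adjoin k {z}) (adjoin k {z, w}) = relfinrank (adjoin k {w}) (adjoin k {z, w}) := by
  have e1 : relfinrank (adjoin k {x}) (adjoin k {z}) = m := by
    rw [← hzx]
    exact Ra72.relf hθ hm hz
  have e2 : relfinrank (adjoin k {y}) (adjoin k {w}) = m := by
    rw [← hwy]
    exact Ra72.relf hθ hm hw
  have hxz : x ∈ adjoin k {z} := by
    rw [← hzx]
    exact Ra72.fr_mem θ (mem_adjoin_simple_self k z)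
  have hyw : y ∈ adjoin k {w} := by
    rw [← hwy]
    exact Ra72.fr_mem θ (mem_adjoin_simple_self k w)
  have l1 : adjoin k {x} ≤ adjoin k {z} := adjoin_le_iff.2 (by rintro _ rfl; exact hxz)
  have l2 : adjoin k {y} ≤ adjoin k {w} := adjoin_le_iff.2 (by rintro _ rfl; exact hyw)
  have l3 : adjoin k {z} ≤ adjoin k {z, w} := adjoin.mono k _ _ (by simp)
  have l4 : adjoin k {w} ≤ adjoin k {z, w} := adjoin.mono k _ _ (by simp)
  have l5 : adjoin k {x} ≤ adjoin k {x, y} := adjoin.mono k _ _ (by simp)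
  have l6 : adjoin k {y} ≤ adjoin k {x, y} := adjoin.mono k _ _ (by simp)
  have l7 : adjoin k {x, y} ≤ adjoin k {z, w} := by
    refine adjoin_le_iff.2 ?_
    rintro _ (rfl | rfl)
    · exact l3 hxz
    · exact l4 hyw
  have f1 := relfinrank_mul_relfinrank l1 l3
  have f2 := relfinrank_mul_relfinrank l5 l7
  have f3 := relfinrank_mul_relfinrank l2 l4
  have f4 := relfinrank_mul_relfinrank l6 l7
  rw [e1] at f1
  rw [e2] at f3
  rw [← hdeg, f2] at f4
  rw [← f4] at f3
  exact Nat.eq_of_mul_eq_mul_left hm (f1.trans f3.symm)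

/-- The descent of `FinPairsE`. -/
theorem finPairsE_of_semi [IsAlgClosed k] [CharZero k] (hF : Mor q F) (hG : Mor q' G)
    (hθ : Mor m θ) (hq : 1 ≤ q) (hq' : 1 ≤ q') (hm : 1 ≤ m)
    (h : Orb.Semi F N θ G) (hZ : FinPairsE k G) : FinPairsE k F := by
  have hinf : Infinite k := inferInstance
  obtain ⟨Z, hZb, hZp⟩ := hZ
  let Q : MvPolynomial (Fin 2 ⊕ Fin 2) k → Prop := fun H =>
    ∃ d₁ d₂ : ℕ, 1 ≤ d₁ ∧ 1 ≤ d₂ ∧ Irreducible H ∧ BiHom d₁ d₂ H
  let W : MvPolynomial (Fin 2 ⊕ Fin 2) k → MvPolynomial (Fin 2 ⊕ Fin 2) k := fun H' =>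
    if h : ∃ H, Q H ∧ H' ∣ bind₁ (dbl θ) H then h.choose else 0
  refine ⟨(Z.image W).filter Q, fun H hH => (Finset.mem_filter.1 hH).2, ?_⟩
  intro L _ _ _ φ M x y hM hx hy halg hφx hφy hdeg
  have hLinf : Infinite L := inferInstance
  have hs : ∀ z : L, Transcendental k z → fr θ (fr G z) = (fr F)^[N] (fr θ z) :=
    fun z hz => fr_semi hF hG hθ hq hq' hm h hz
  obtain ⟨z, n₁, hn₁, hz, hzx, hφz⟩ := exists_lift hG hθ hq' hm hs φ hx hφx
  obtain ⟨w, n₂, hn₂, hw, hwy, hφw⟩ := exists_lift hG hθ hq' hm hs φ hy hφy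
  obtain ⟨ψ₁, hψ₁⟩ := Pg3H72.exists_pow φ (n₁ * N)
  obtain ⟨ψ₂, hψ₂⟩ := Pg3H72.exists_pow φ (n₂ * N)
  obtain ⟨ψ, hψ⟩ := Pg3H72.exists_pow φ (n₁ * n₂ * N)
  have hψz : ψ z = (fr G)^[n₁ * n₂ * M] z := by
    have h1 := Rb.iter_pt ψ₁ (m := n₁ * M) (z := z) (by rw [hψ₁, hφz]) n₂
    have h2 : (ψ₁ : L → L) = φ^[n₁ * N] := funext hψ₁
    rw [h2, ← Function.iterate_mul] at h1
    have e1 : n₁ * n₂ * N = n₁ * N * n₂ := by ring
    have e2 : n₁ * n₂ * M = n₂ * (n₁ * M) := by ring
    rw [hψ, e1, e2]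
    exact h1
  have hψw : ψ w = (fr G)^[n₁ * n₂ * M] w := by
    have h1 := Rb.iter_pt ψ₂ (m := n₂ * M) (z := w) (by rw [hψ₂, hφw]) n₁
    have h2 : (ψ₂ : L → L) = φ^[n₂ * N] := funext hψ₂
    rw [h2, ← Function.iterate_mul] at h1
    have e1 : n₁ * n₂ * N = n₂ * N * n₁ := by ring
    have e2 : n₁ * n₂ * M = n₁ * (n₂ * M) := by ring
    rw [hψ, e1, e2]
    exact h1
  have hxz : x ∈ adjoin k {z} := by
    rw [← hzx]
    exact Ra72.fr_mem θ (mem_adjoin_simple_self k z)
  obtain ⟨H', hH', hH'0⟩ := hZp L ψ (n₁ * n₂ * M) z w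
    (Nat.mul_pos (Nat.mul_pos hn₁ hn₂) hM) hz hw (alg_up hxz halg) hψz hψw
    (deg_lift hθ hm hz hw hzx hwy hdeg)
  obtain ⟨d₁, d₂, hd₁, hd₂, hirr, hb⟩ := hZb H' hH'
  -- a form for the pair `(x, y)`
  obtain ⟨c₁, c₂, H, hc₁, hc₂, hHi, hHb, hH0⟩ := exists_irr hx hy (halg.isAlgebraic y)
  have hev : ∀ (a b : ℕ) (R : MvPolynomial (Fin 2 ⊕ Fin 2) k), BiHom a b R →
      (GS.ev ![z, 1] ![w, 1] (bind₁ (dbl θ) R) = 0 ↔ GS.ev ![x, 1] ![y, 1] R = 0) := by
    intro a b R hR
    rw [Bas.ev_bind]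
    refine Bas.ev_prl hR ?_ ?_
    · rw [Rb.act_eq hθ hm hz, hzx]
      exact Bas.prl_smul _ (Rb.den_ne hθ hm hz)
    · rw [Rb.act_eq hθ hm hw, hwy]
      exact Bas.prl_smul _ (Rb.den_ne hθ hm hw)
  obtain ⟨-, -, -, hdv⟩ := Pg5.pg5 k d₁ d₂ H' hd₁ hd₂ hirr hb L z w hz hH'0
  have hex : ∃ H, Q H ∧ H' ∣ bind₁ (dbl θ) H :=
    ⟨H, ⟨c₁, c₂, hc₁, hc₂, hHi, hHb⟩, hdv _ _ _ (Bif.bihom_bind hθ.hom hHb)
      ((hev _ _ _ hHb).2 hH0)⟩
  have hWe : W H' = hex.choose := dif_pos hex
  obtain ⟨⟨e₁, e₂, he₁, he₂, hWi, hWb⟩, hWd⟩ := hex.choose_spec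
  rw [← hWe] at hWi hWb hWd
  refine ⟨W H', Finset.mem_filter.2 ⟨Finset.mem_image_of_mem _ hH',
    e₁, e₂, he₁, he₂, hWi, hWb⟩, (hev _ _ _ hWb).1 ?_⟩
  exact Pg3H72.ev_of_dvd hWd hH'0

/-- Row LIFT. -/
theorem lift : Orb.LiftpStatement := by
  intro k _ _ _ q M m F θ G hq hM hm hF hθ hG h hZ
  exact finPairsE_of_semi hF hG hθ (by omega) (Nat.one_le_pow _ _ (by omega)) hm h hZ

end Pool.DynLehmer.UN.Dsc72

set_option linter.unusedSectionVars false

/-!
# Maps which are not parabolic: assembly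
-/

namespace Pool.DynLehmer.UN.Orb
open MvPolynomial NumberField Pool.DynLehmer Pool.DynLehmer.SB Pool.DynLehmer.SP
  Pool.DynLehmer.GS Pool.DynLehmer.LP Pool.DynLehmer.LW Pool.DynLehmer.UN

theorem orb28 (hmax : MaxStatement) (hgr : GrStatement) (htr : TrivcStatement)
    (hsem : SemicStatement) (htp : TpairStatement) (hnp : NpowStatement) (hfq : FqpStatement)
    (hvf : VfgStatement) (hli : LiftpStatement) : OrbStatement := by
  intro K _ _ p s v F₀ hF hpar
  have hq : 2 ≤ p ^ s := by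
    calc 2 ≤ p := hF.prime.two_le
      _ = p ^ 1 := (pow_one p).symm
      _ ≤ p ^ s := Nat.pow_le_pow_right hF.prime.pos hF.pos
  have hchar : CharZero (AlgebraicClosure K) :=
    charZero_of_injective_algebraMap (algebraMap K (AlgebraicClosure K)).injective
  obtain ⟨ab, hna, hab⟩ := RV.ext K v
  obtain ⟨L, hLp, hL1, hTy⟩ := RV.ty_of_hyp ab hab hF
  have hM : Mor (p ^ s) (fun i => map (algebraMap K (AlgebraicClosure K)) (F₀ i)) :=
    mor_base (mor K p s v F₀ hF) (AlgebraicClosure K)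
  obtain ⟨M, m, θ, B, hM1, hm1, hθ, hB, hsemi, htriv⟩ := hmax _ _ _ hq hM hpar
  obtain ⟨M', L', α, G, hM'1, hα, hG, hBG, hL'p, hL'1, hTyG⟩ := hgr _ ab hna p s M m L _ θ B
    hF.prime hF.pos hM1 hm1 hLp hL1 hTy hθ hB hsemi
  have hqM : 2 ≤ (p ^ s) ^ M := by
    calc 2 ≤ p ^ s := hq
      _ = (p ^ s) ^ 1 := (pow_one _).symm
      _ ≤ (p ^ s) ^ M := Nat.pow_le_pow_right (by omega) hM1
  have hqG : 2 ≤ ((p ^ s) ^ M) ^ M' := by
    calc 2 ≤ (p ^ s) ^ M := hqM
      _ = ((p ^ s) ^ M) ^ 1 := (pow_one _).symm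
      _ ≤ ((p ^ s) ^ M) ^ M' := Nat.pow_le_pow_right (by omega) hM'1
  have htrG : Triv G := htr _ _ _ B G α hqM hM'1 hB hG hα hBG htriv
  have he : ((p ^ s) ^ M) ^ M' = p ^ (s * M * M') := by
    rw [← pow_mul, ← pow_mul, mul_assoc]
  have hV : Ra72.VfinF (((p ^ s) ^ M) ^ M') G := by
    rw [he] at hTyG ⊢
    exact hvf _ ab p (s * M * M') L' G hna hF.prime
      (Nat.one_le_iff_ne_zero.2 (by
        have := hF.pos
        positivity)) hL'p hL'1 hTyG
  have hFM : FinMaps (AlgebraicClosure K) G :=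
    Ra72.finMaps_of (by omega) hG (htp _ _ G hqG hG htrG) hV (hfq _ _ G hqG hG
      (hnp _ _ G hqG hG htrG))
  have hFP : FinPairsE (AlgebraicClosure K) G := finPairsE_of_maps hG (by omega) hFM
  obtain ⟨h1, h2⟩ := hsem _ (p ^ s) M M' m _ θ B α G (by omega) hm1 hM hθ hB hα hsemi hBG
  have hG' : Mor ((p ^ s) ^ (M * M')) G := by
    rw [pow_mul]
    exact hG
  exact hli _ (p ^ s) (M * M') m _ _ G hq (Nat.mul_pos hM1 hM'1) hm1 hM h1 hG' h2 hFP

/-- the explicit bound -/
theorem orb_explicit28 (h : OrbStatement) {K : Type} [Field K] [NumberField K] {p s : ℕ}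
    {v : FinitePlace K} {F : Fin 2 → MvPolynomial (Fin 2) K} (hF : HypR p s v F)
    (hp : ¬ Para (fun i => map (algebraMap K (AlgebraicClosure K)) (F i))) :
    ∃ R : ℕ, 1 ≤ R ∧ ExplR K p s F R := rat_of_pairs hF (h K p s v F hF hp)

end Pool.DynLehmer.UN.Orb

set_option linter.unusedSectionVars false

/-!
# The local degree of two forms and of the rational function they define
-/

namespace Pool.DynLehmer.UN.T24
open Pool.DynLehmer Pool.DynLehmer.GS Pool.DynLehmer.UN.R96 Polynomial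
open scoped Classical

section
variable {k : Type} [Field k]

theorem mult_congr {α β : Type} [Monoid α] [Monoid β] {p H : α} {r f : β}
    (h : ∀ m : ℕ, p ^ m ∣ H ↔ r ^ m ∣ f) : multiplicity p H = multiplicity r f := by
  have h1 : emultiplicity p H = emultiplicity r f :=
    emultiplicity_eq_emultiplicity_iff.2 fun {m} => h m
  rw [multiplicity, multiplicity, h1]

theorem root_eq {f : k[X]} (hf : f ≠ 0) (a : k) :
    f.rootMultiplicity a = multiplicity (X - C a) f := by
  rw [rootMultiplicity_eq_multiplicity, if_neg hf]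

theorem dh_line (a : k) :
    dh (MvPolynomial.X 0 - MvPolynomial.C a * MvPolynomial.X 1 : MvPolynomial (Fin 2) k) =
      X - C a := by
  simp [dh, MvPolynomial.algHom_C]

theorem dh_mul (P Q : MvPolynomial (Fin 2) k) : dh (P * Q) = dh P * dh Q := map_mul _ _ _

theorem dh_pow (P : MvPolynomial (Fin 2) k) (m : ℕ) : dh (P ^ m) = dh P ^ m := map_pow _ _ _

theorem dh_sub (P Q : MvPolynomial (Fin 2) k) : dh (P - Q) = dh P - dh Q := map_sub _ _ _

theorem dh_C (c : k) : dh (MvPolynomial.C c) = C c := MvPolynomial.algHom_C _ c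

theorem hom_line (a : k) : (MvPolynomial.X 0 - MvPolynomial.C a * MvPolynomial.X 1 :
    MvPolynomial (Fin 2) k).IsHomogeneous 1 := by
  have h := (MvPolynomial.isHomogeneous_C (Fin 2) a).mul (MvPolynomial.isHomogeneous_X k (1 : Fin 2))
  rw [zero_add] at h
  exact (MvPolynomial.isHomogeneous_X k (0 : Fin 2)).sub h

theorem dvd_aff {q : ℕ} {H : MvPolynomial (Fin 2) k} (hH : H.IsHomogeneous q) (a : k) (m : ℕ) :
    (MvPolynomial.X 0 - MvPolynomial.C a * MvPolynomial.X 1 : MvPolynomial (Fin 2) k) ^ m ∣ H ↔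
      (X - C a) ^ m ∣ dh H := by
  constructor
  · rintro ⟨G, rfl⟩
    rw [dh_mul, dh_pow, dh_line]
    exact Dvd.intro _ rfl
  · rintro ⟨g, hg⟩
    by_cases h0 : dh H = 0
    · have h1 : H = 0 := by
        rw [← hom_dh hH, h0, homogenize_zero]
      rw [h1]
      exact dvd_zero _
    · have hg0 : g ≠ 0 := by
        intro h; rw [h, mul_zero] at hg; exact h0 hg
      have hd : (dh H).natDegree = m + g.natDegree := by
        rw [hg, natDegree_mul (pow_ne_zero _ (X_sub_C_ne_zero a)) hg0, natDegree_pow,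
          natDegree_X_sub_C, mul_one]
      have hq := natDegree_dh_le hH
      have h1 : H = (((X - C a) ^ m).homogenize m) * (g.homogenize (q - m)) := by
        rw [← homogenize_mul _ _ (by rw [natDegree_pow, natDegree_X_sub_C, mul_one]) (by omega),
          ← hg, show m + (q - m) = q by omega, hom_dh hH]
      have h2 : ((X - C a) ^ m).homogenize m = (MvPolynomial.X 0 -
          MvPolynomial.C a * MvPolynomial.X 1 : MvPolynomial (Fin 2) k) ^ m := by
        have h3 := (hom_line a).pow m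
        rw [one_mul] at h3
        rw [← hom_dh h3, dh_pow, dh_line]
      rw [h1, h2]
      exact Dvd.intro _ rfl

theorem mult_aff {q : ℕ} {H : MvPolynomial (Fin 2) k} (hH : H.IsHomogeneous q) (h0 : H ≠ 0)
    (a : k) : multiplicity (MvPolynomial.X 0 - MvPolynomial.C a * MvPolynomial.X 1 :
      MvPolynomial (Fin 2) k) H = (dh H).rootMultiplicity a := by
  have h1 : dh H ≠ 0 := by
    intro h
    apply h0
    rw [← hom_dh hH, h, homogenize_zero]
  rw [root_eq h1]
  exact mult_congr (dvd_aff hH a)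

/-- the polynomial `P(1, X)` -/
theorem dh'_eq {q : ℕ} {H : MvPolynomial (Fin 2) k} (hH : H.IsHomogeneous q) :
    MvPolynomial.aeval ![(1 : k[X]), X] H = reflect q (dh H) := by
  conv_lhs => rw [← hom_dh hH, R96.expand, map_sum]
  ext n
  rw [Polynomial.finsetSum_coeff, coeff_reflect]
  have h1 : ∀ i ∈ Finset.range (q + 1), (MvPolynomial.aeval ![(1 : k[X]), X]
      (MvPolynomial.C ((dh H).coeff i) * MvPolynomial.X 0 ^ i * MvPolynomial.X 1 ^ (q - i) :
        MvPolynomial (Fin 2) k)).coeff n = if n = q - i then (dh H).coeff i else 0 := by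
    intro i _
    rw [map_mul, map_mul, map_pow, map_pow, MvPolynomial.aeval_X, MvPolynomial.aeval_X,
      MvPolynomial.algHom_C]
    show (C ((dh H).coeff i) * 1 ^ i * X ^ (q - i)).coeff n = _
    rw [one_pow, mul_one, coeff_C_mul_X_pow]
  rw [Finset.sum_congr rfl h1]
  by_cases hn : n ≤ q
  · rw [revAt_le hn, Finset.sum_eq_single (q - n)]
    · rw [if_pos (by omega)]
    · intro i hi hne
      have := Finset.mem_range.1 hi
      rw [if_neg (by omega)]
    · intro h
      exact absurd (Finset.mem_range.2 (by omega)) h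
  · rw [revAt_eq_self_of_lt (by omega), Finset.sum_eq_zero]
    · exact (coeff_eq_zero_of_natDegree_lt (by have := natDegree_dh_le hH; omega)).symm
    · intro i hi
      have := Finset.mem_range.1 hi
      rw [if_neg (by omega)]

theorem dvd_inf {q : ℕ} {H : MvPolynomial (Fin 2) k} (hH : H.IsHomogeneous q) (m : ℕ) :
    (MvPolynomial.X 1 : MvPolynomial (Fin 2) k) ^ m ∣ H ↔ X ^ m ∣ reflect q (dh H) := by
  constructor
  · rintro ⟨G, hG⟩
    rw [← dh'_eq hH, hG, map_mul, map_pow, MvPolynomial.aeval_X]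
    exact Dvd.intro _ rfl
  · intro h
    rw [X_pow_dvd_iff] at h
    rw [← hom_dh hH, R96.expand]
    refine Finset.dvd_sum fun i hi => ?_
    have hi' := Finset.mem_range.1 hi
    by_cases him : q - i < m
    · have h1 := h (q - i) him
      rw [coeff_reflect, revAt_le (by omega), show q - (q - i) = i by omega] at h1
      rw [h1]
      simp
    · exact Dvd.dvd.mul_left (pow_dvd_pow _ (by omega)) _

theorem mult_inf {q : ℕ} {H : MvPolynomial (Fin 2) k} (hH : H.IsHomogeneous q) (h0 : H ≠ 0) :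
    multiplicity (MvPolynomial.X 1 : MvPolynomial (Fin 2) k) H =
      (reflect q (dh H)).rootMultiplicity 0 := by
  have h1 : reflect q (dh H) ≠ 0 := by
    rw [Ne, reflect_eq_zero_iff]
    intro h
    apply h0
    rw [← hom_dh hH, h, homogenize_zero]
  rw [root_eq h1, C_0, sub_zero]
  exact mult_congr (dvd_inf hH)

theorem mult_unit {L H : MvPolynomial (Fin 2) k} {c d : k} (hc : c ≠ 0) (hd : d ≠ 0) :
    multiplicity (MvPolynomial.C c * L) (MvPolynomial.C d * H) = multiplicity L H := by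
  have hcu : IsUnit (MvPolynomial.C c : MvPolynomial (Fin 2) k) :=
    (isUnit_iff_ne_zero.2 hc).map MvPolynomial.C
  have hdu : IsUnit (MvPolynomial.C d : MvPolynomial (Fin 2) k) :=
    (isUnit_iff_ne_zero.2 hd).map MvPolynomial.C
  refine mult_congr fun m => ?_
  rw [mul_pow, (hcu.pow m).mul_left_dvd, hdu.dvd_mul_left]

/-- the form which vanishes on the fibre of `F x` is not zero -/
theorem fib_ne [IsAlgClosed k] {q : ℕ} (hq : 1 ≤ q) {F : Fin 2 → MvPolynomial (Fin 2) k}
    (hF : Mor q F) {x : Fin 2 → k} (hx : x ≠ 0) :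
    MvPolynomial.C (gAct F k x 1) * F 0 - MvPolynomial.C (gAct F k x 0) * F 1 ≠ 0 := by
  intro h
  -- a vector whose image is not proportional to the image of `x`
  have h1 : ∀ y : Fin 2 → k, gAct F k x 1 * gAct F k y 0 - gAct F k x 0 * gAct F k y 1 = 0 := by
    intro y
    have h2 := congrArg (fun G => MvPolynomial.aeval y G) h
    simp only [map_sub, map_mul, map_zero, MvPolynomial.algHom_C] at h2
    exact h2
  have hU0 : ∃ V : Fin 2 → k, V ≠ 0 ∧ gAct F k x 1 * V 0 - gAct F k x 0 * V 1 ≠ 0 := by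
    have hne := hF.ne k x hx
    by_cases h3 : gAct F k x 1 = 0
    · have h4 : gAct F k x 0 ≠ 0 := fun h4 => hne (by funext i; fin_cases i; exacts [h4, h3])
      refine ⟨![0, 1], fun h5 => ?_, ?_⟩
      · have := congrFun h5 1; simp at this
      · show gAct F k x 1 * 0 - gAct F k x 0 * 1 ≠ 0
        rw [mul_zero, mul_one, zero_sub]; exact neg_ne_zero.2 h4
    · refine ⟨![1, 0], fun h5 => ?_, ?_⟩
      · have := congrFun h5 0; simp at this
      · show gAct F k x 1 * 1 - gAct F k x 0 * 0 ≠ 0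
        rw [mul_zero, mul_one, sub_zero]; exact h3
  obtain ⟨V, hV, hV1⟩ := hU0
  have h2 : (MvPolynomial.C (V 1) * F 0 - MvPolynomial.C (V 0) * F 1).IsHomogeneous q := by
    have h3 := (MvPolynomial.isHomogeneous_C (Fin 2) (V 1)).mul (hF.hom 0)
    have h4 := (MvPolynomial.isHomogeneous_C (Fin 2) (V 0)).mul (hF.hom 1)
    rw [zero_add] at h3 h4
    exact h3.sub h4
  obtain ⟨P, hP, hP0⟩ := J19.form_zero (N := k) q hq _ h2
  have h3 : V 1 * gAct F k P 0 - V 0 * gAct F k P 1 = 0 := by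
    have h4 : MvPolynomial.aeval P (MvPolynomial.C (V 1) * F 0 - MvPolynomial.C (V 0) * F 1) =
        V 1 * gAct F k P 0 - V 0 * gAct F k P 1 := by
      rw [map_sub, map_mul, map_mul, MvPolynomial.algHom_C, MvPolynomial.algHom_C]
      rfl
    rw [← h4]
    exact hP0
  have hPne := hF.ne k P hP
  have h5 : Prl (gAct F k P) V := by
    rw [Bas.prl_iff_det hPne hV]
    linear_combination h3
  obtain ⟨c, hc, hcc⟩ := h5
  have h6 := h1 P
  rw [hcc] at h6
  have h7 : gAct F k x 1 * (c * V 0) - gAct F k x 0 * (c * V 1) = 0 := h6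
  have h8 : c * (gAct F k x 1 * V 0 - gAct F k x 0 * V 1) = 0 := by linear_combination h7
  exact (mul_ne_zero hc hV1) h8

/-- the form of the text at proportional vectors -/
theorem mult_prl {q : ℕ} {F : Fin 2 → MvPolynomial (Fin 2) k} (hF : Mor q F) {x : Fin 2 → k}
    {c : k} (hc : c ≠ 0) :
    multiplicity (MvPolynomial.C ((c • x) 1) * MvPolynomial.X 0 -
        MvPolynomial.C ((c • x) 0) * MvPolynomial.X 1 : MvPolynomial (Fin 2) k)
      (MvPolynomial.C (gAct F k (c • x) 1) * F 0 - MvPolynomial.C (gAct F k (c • x) 0) * F 1) =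
    multiplicity (MvPolynomial.C (x 1) * MvPolynomial.X 0 -
        MvPolynomial.C (x 0) * MvPolynomial.X 1 : MvPolynomial (Fin 2) k)
      (MvPolynomial.C (gAct F k x 1) * F 0 - MvPolynomial.C (gAct F k x 0) * F 1) := by
  have h1 := Bas.gAct_smul' hF.hom c x
  rw [h1]
  have e1 : (MvPolynomial.C ((c • x) 1) * MvPolynomial.X 0 -
      MvPolynomial.C ((c • x) 0) * MvPolynomial.X 1 : MvPolynomial (Fin 2) k) =
      MvPolynomial.C c * (MvPolynomial.C (x 1) * MvPolynomial.X 0 -
        MvPolynomial.C (x 0) * MvPolynomial.X 1) := by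
    simp only [Pi.smul_apply, smul_eq_mul, map_mul]
    ring
  have e2 : (MvPolynomial.C ((c ^ q • gAct F k x) 1) * F 0 -
      MvPolynomial.C ((c ^ q • gAct F k x) 0) * F 1) =
      MvPolynomial.C (c ^ q) * (MvPolynomial.C (gAct F k x 1) * F 0 -
        MvPolynomial.C (gAct F k x 0) * F 1) := by
    simp only [Pi.smul_apply, smul_eq_mul, map_mul]
    ring
  rw [e1, e2, mult_unit hc (pow_ne_zero _ hc)]

/-- **Row TXC**: the local degree of the text is the local degree of the rational function. -/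
theorem mult_ld [IsAlgClosed k] {q : ℕ} (hq : 1 ≤ q) {F : Fin 2 → MvPolynomial (Fin 2) k}
    (hF : Mor q F) {x : Fin 2 → k} (hx : x ≠ 0) :
    multiplicity (MvPolynomial.C (x 1) * MvPolynomial.X 0 -
        MvPolynomial.C (x 0) * MvPolynomial.X 1 : MvPolynomial (Fin 2) k)
      (MvPolynomial.C (gAct F k x 1) * F 0 - MvPolynomial.C (gAct F k x 0) * F 1) =
    UN.ld (dh (F 0)) (dh (F 1)) (pr x) := by
  have hH : ∀ a b : k, (MvPolynomial.C a * F 0 - MvPolynomial.C b * F 1).IsHomogeneous q := by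
    intro a b
    have h3 := (MvPolynomial.isHomogeneous_C (Fin 2) a).mul (hF.hom 0)
    have h4 := (MvPolynomial.isHomogeneous_C (Fin 2) b).mul (hF.hom 1)
    rw [zero_add] at h3 h4
    exact h3.sub h4
  by_cases h1 : x 1 = 0
  · have h2 : pr x = none := if_pos h1
    obtain ⟨c, hc, rfl⟩ : Prl x ![1, 0] :=
      Bas.prl_of_pr hx ne_inf (by rw [h2]; exact (if_pos rfl).symm)
    rw [mult_prl hF hc, h2]
    have hne := fib_ne hq hF (x := ![1, 0]) ne_inf
    have e1 : (MvPolynomial.C ((![1, 0] : Fin 2 → k) 1) * MvPolynomial.X 0 -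
        MvPolynomial.C ((![1, 0] : Fin 2 → k) 0) * MvPolynomial.X 1 : MvPolynomial (Fin 2) k) =
        MvPolynomial.C (-1) * MvPolynomial.X 1 := by
      simp
    have e2 : (MvPolynomial.C (gAct F k ![1, 0] 1) * F 0 -
        MvPolynomial.C (gAct F k ![1, 0] 0) * F 1) = MvPolynomial.C 1 *
        (MvPolynomial.C (gAct F k ![1, 0] 1) * F 0 -
          MvPolynomial.C (gAct F k ![1, 0] 0) * F 1) := by
      rw [MvPolynomial.C_1, one_mul]
    rw [e1, e2, mult_unit (neg_ne_zero.2 one_ne_zero) one_ne_zero, mult_inf (hH _ _) hne]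
    unfold UN.ld
    rw [natDegree_dh hF, dh_sub, dh_mul, dh_mul, dh_C, dh_C, gAct_inf hF]
    show (reflect q (C ((dh (F 1)).coeff q) * dh (F 0) - C ((dh (F 0)).coeff q) *
      dh (F 1))).rootMultiplicity 0 = _
    congr 1
    rw [reflect_sub, reflect_C_mul, reflect_C_mul]
  · obtain ⟨a, h2⟩ : ∃ a, pr x = some a := ⟨x 0 / x 1, if_neg h1⟩
    obtain ⟨c, hc, rfl⟩ : Prl x ![a, 1] := Bas.prl_of_pr hx (ne_aff _) (by
      rw [h2]
      show _ = if (1 : k) = 0 then none else some (a / 1)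
      rw [if_neg one_ne_zero, div_one])
    rw [mult_prl hF hc, h2]
    have hne := fib_ne hq hF (x := ![a, 1]) (ne_aff a)
    have e1 : (MvPolynomial.C ((![a, 1] : Fin 2 → k) 1) * MvPolynomial.X 0 -
        MvPolynomial.C ((![a, 1] : Fin 2 → k) 0) * MvPolynomial.X 1 : MvPolynomial (Fin 2) k) =
        MvPolynomial.X 0 - MvPolynomial.C a * MvPolynomial.X 1 := by
      simp
    rw [e1, mult_aff (hH _ _) hne, dh_sub, dh_mul, dh_mul, dh_C, dh_C, gAct_aff]
    rfl

end

section
variable {K Ω : Type} [Field K] [Field Ω] [IsAlgClosed Ω] [Algebra K Ω]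

theorem gAct_map (F : Fin 2 → MvPolynomial (Fin 2) K) (x : Fin 2 → Ω) :
    gAct (fun i => MvPolynomial.map (algebraMap K Ω) (F i)) Ω x = gAct F Ω x := by
  funext i
  show MvPolynomial.aeval x (MvPolynomial.map (algebraMap K Ω) (F i)) = MvPolynomial.aeval x (F i)
  rw [MvPolynomial.aeval_map_algebraMap]

/-- the local degree of forms over `K` at a point over `Ω` -/
theorem gsld_eq {q : ℕ} (hq : 1 ≤ q) {F : Fin 2 → MvPolynomial (Fin 2) K}
    (hF : Mor q (fun i => MvPolynomial.map (algebraMap K Ω) (F i))) {x : Fin 2 → Ω} (hx : x ≠ 0) :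
    GS.ld F x = UN.ld (dh (MvPolynomial.map (algebraMap K Ω) (F 0)))
      (dh (MvPolynomial.map (algebraMap K Ω) (F 1))) (pr x) := by
  have h := mult_ld hq hF hx
  rw [gAct_map] at h
  exact h

/-- the same over an algebraically closed field -/
theorem gsld_eq' {q : ℕ} (hq : 1 ≤ q) {F : Fin 2 → MvPolynomial (Fin 2) Ω} (hF : Mor q F)
    {x : Fin 2 → Ω} (hx : x ≠ 0) : GS.ld F x = UN.ld (dh (F 0)) (dh (F 1)) (pr x) := by
  have h := mult_ld hq hF hx
  rw [← h]
  unfold GS.ld
  rw [Algebra.algebraMap_self, MvPolynomial.map_id, MvPolynomial.map_id]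

/-- parabolic forms and parabolic rational functions -/
theorem par_iff {q : ℕ} (hq : 1 ≤ q) {F : Fin 2 → MvPolynomial (Fin 2) K}
    (hF : Mor q (fun i => MvPolynomial.map (algebraMap K Ω) (F i))) (ν : Option Ω → ℕ) :
    (∀ U : Fin 2 → Ω, U ≠ 0 → ν (pr (gAct F Ω U)) = GS.ld F U * ν (pr U)) ↔
      ∀ z, ν (rmap (dh (MvPolynomial.map (algebraMap K Ω) (F 0)))
        (dh (MvPolynomial.map (algebraMap K Ω) (F 1))) z) =
        UN.ld (dh (MvPolynomial.map (algebraMap K Ω) (F 0)))
          (dh (MvPolynomial.map (algebraMap K Ω) (F 1))) z * ν z := by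
  constructor
  · intro h z
    have h1 := h (rep z) (rep_ne z)
    rw [gsld_eq hq hF (rep_ne z), ← gAct_map, pr_rmap hF (rep_ne z), pr_rep] at h1
    exact h1
  · intro h U hU
    rw [gsld_eq hq hF hU, ← gAct_map, pr_rmap hF hU]
    exact h _

/-- the same over an algebraically closed field -/
theorem par_iff' {q : ℕ} (hq : 1 ≤ q) {F : Fin 2 → MvPolynomial (Fin 2) Ω} (hF : Mor q F)
    (ν : Option Ω → ℕ) :
    (∀ U : Fin 2 → Ω, U ≠ 0 → ν (pr (gAct F Ω U)) = GS.ld F U * ν (pr U)) ↔
      ∀ z, ν (rmap (dh (F 0)) (dh (F 1)) z) = UN.ld (dh (F 0)) (dh (F 1)) z * ν z := by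
  constructor
  · intro h z
    have h1 := h (rep z) (rep_ne z)
    rw [gsld_eq' hq hF (rep_ne z), pr_rmap hF (rep_ne z), pr_rep] at h1
    exact h1
  · intro h U hU
    rw [gsld_eq' hq hF hU, pr_rmap hF hU]
    exact h _

end

end Pool.DynLehmer.UN.T24

set_option linter.unusedSectionVars false

/-!
# Parabolic maps
-/

namespace Pool.DynLehmer.UN
open MvPolynomial NumberField Filter Topology Pool.DynLehmer Pool.DynLehmer.GS Pool.DynLehmer.LP
  Pool.DynLehmer.GAL Pool.DynLehmer.LW
open scoped Classical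

/-- `F` is parabolic: there is a function `ν` with values in `{1, 2, ...}` and `∞` (written `0`) on
the projective line, equal to `1` outside a finite set, with `ν(F(x)) = e(x) ν(x)`. -/
def ParF {k : Type} [Field k] (F : Fin 2 → MvPolynomial (Fin 2) k) : Prop :=
  ∃ ν : Option k → ℕ, {z | ν z ≠ 1}.Finite ∧
    ∀ U : Fin 2 → k, U ≠ 0 → ν (pr (gAct F k U)) = GS.ld F U * ν (pr U)

/-- the same over the algebraic closure -/
def ParM {K : Type} [Field K] (F : Fin 2 → MvPolynomial (Fin 2) K) : Prop :=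
  ∃ ν : Option (AlgebraicClosure K) → ℕ, {z | ν z ≠ 1}.Finite ∧
    ∀ U : Fin 2 → AlgebraicClosure K, U ≠ 0 →
      ν (pr (gAct F (AlgebraicClosure K) U)) = GS.ld F U * ν (pr U)

namespace Pl60

theorem ld_bcf {K A : Type} [Field K] [Field A] [Algebra K A] (F : Fin 2 → MvPolynomial (Fin 2) K)
    (U : Fin 2 → A) : GS.ld (Clo60.bcf A F) U = GS.ld F U := by
  have hg : gAct (Clo60.bcf A F) A U = gAct F A U := by
    funext i
    exact aeval_map_algebraMap _ U (F i)
  have hm : ∀ i, map (algebraMap A A) (Clo60.bcf A F i) = map (algebraMap K A) (F i) := by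
    intro i
    rw [Clo60.bcf, Algebra.algebraMap_self, MvPolynomial.map_id]
  unfold GS.ld
  rw [hg, hm, hm]

theorem parM_iff {K : Type} [Field K] (F : Fin 2 → MvPolynomial (Fin 2) K) :
    ParF (Clo60.bcf (AlgebraicClosure K) F) ↔ ParM F := by
  unfold ParF ParM
  have hg : ∀ U : Fin 2 → AlgebraicClosure K,
      gAct (Clo60.bcf (AlgebraicClosure K) F) (AlgebraicClosure K) U =
        gAct F (AlgebraicClosure K) U := by
    intro U
    funext i
    exact aeval_map_algebraMap _ U (F i)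
  simp only [hg, ld_bcf]

theorem lcm_mul_left' {α : Type} (s : Finset α) (f : α → ℕ) (hs : s.Nonempty) (e : ℕ) :
    s.lcm (fun a => e * f a) = e * s.lcm f := by
  induction hs using Finset.Nonempty.cons_induction with
  | singleton a => simp
  | cons a s ha hs ih =>
    rw [Finset.cons_eq_insert, Finset.lcm_insert, Finset.lcm_insert, ih]
    exact Nat.lcm_mul_left e (f a) _

/-- **Row PARL**: a periodic family gives one function. -/
theorem parl {k : Type} [Field k] {F : Fin 2 → MvPolynomial (Fin 2) k} (ν : ℕ → Option k → ℕ)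
    (M : ℕ) (hM : 1 ≤ M) (hper : ∀ j, ν (j + M) = ν j) (hfin : ∀ j, {z | ν j z ≠ 1}.Finite)
    (h : ∀ (j : ℕ) (U : Fin 2 → k), U ≠ 0 → ν (j + 1) (pr (gAct F k U)) = GS.ld F U * ν j (pr U)) :
    ParF F := by
  have hne : (Finset.range M).Nonempty := ⟨0, Finset.mem_range.2 hM⟩
  have hshift : ∀ z, (Finset.range M).lcm (fun j => ν (j + 1) z) =
      (Finset.range M).lcm (fun j => ν j z) := by
    intro z
    apply Nat.dvd_antisymm
    · refine Finset.lcm_dvd fun j hj => ?_
      have hj' := Finset.mem_range.1 hj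
      by_cases h1 : j + 1 < M
      · exact Finset.dvd_lcm (f := fun j => ν j z) (Finset.mem_range.2 h1)
      · have h2 : j + 1 = 0 + M := by omega
        have h3 : ν (j + 1) z = ν 0 z := by rw [h2, hper]
        show ν (j + 1) z ∣ _
        rw [h3]
        exact Finset.dvd_lcm (f := fun j => ν j z) (Finset.mem_range.2 hM)
    · refine Finset.lcm_dvd fun j hj => ?_
      have hj' := Finset.mem_range.1 hj
      by_cases h1 : j = 0
      · have h2 : ν j z = ν (M - 1 + 1) z := by
          rw [h1, Nat.sub_add_cancel hM, ← hper 0, zero_add]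
        rw [h2]
        exact Finset.dvd_lcm (f := fun j => ν (j + 1) z) (Finset.mem_range.2 (by omega))
      · have h2 : ν j z = ν (j - 1 + 1) z := by rw [Nat.sub_add_cancel (by omega)]
        rw [h2]
        exact Finset.dvd_lcm (f := fun j => ν (j + 1) z) (Finset.mem_range.2 (by omega))
  refine ⟨fun z => (Finset.range M).lcm fun j => ν j z, ?_, ?_⟩
  · refine Set.Finite.subset (Set.Finite.biUnion (Finset.range M).finite_toSet
      fun j _ => hfin j) ?_
    intro z hz
    by_contra hcon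
    apply hz
    rw [Set.mem_iUnion₂] at hcon
    push Not at hcon
    have h1 : (Finset.range M).lcm (fun j => ν j z) = (Finset.range M).lcm (fun _ => 1) := by
      refine Finset.lcm_congr rfl fun j hj => ?_
      have := hcon j (Finset.mem_coe.2 hj)
      simpa using this
    show (Finset.range M).lcm (fun j => ν j z) = 1
    rw [h1]
    exact Nat.dvd_one.1 (Finset.lcm_dvd fun _ _ => dvd_rfl)
  · intro U hU
    show (Finset.range M).lcm (fun j => ν j (pr (gAct F k U))) =
      GS.ld F U * (Finset.range M).lcm (fun j => ν j (pr U))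
    rw [← hshift, ← lcm_mul_left' _ _ hne]
    exact Finset.lcm_congr rfl fun j _ => h j U hU

theorem ld_bounds {K Ω : Type} [Field K] [Field Ω] [CharZero Ω] [Algebra K Ω] {q : ℕ}
    {F : Fin 2 → MvPolynomial (Fin 2) K} (hq : 1 ≤ q) (hF : Mor q F) {U : Fin 2 → Ω} (hU : U ≠ 0) :
    1 ≤ GS.ld F U ∧ GS.ld F U ≤ q ∧ (GS.ld F U = 1 ↔ aeval U (Jac F) ≠ 0) := by
  obtain ⟨V, hV⟩ := Ldm.exists_ind hU
  obtain ⟨W, hW⟩ := Ldm.exists_ind (hF.ne Ω U hU)
  obtain ⟨h1, h2, h3, -⟩ := LDG.ldg K Ω q F hq hF U V W hV hW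
  exact ⟨h1, h2, h3⟩

theorem jac_uni {K : Type} [Field K] (q : ℕ) (c : K) (hq : 1 ≤ q) :
    Jac (uniF q c) = C ((q : K) * q) * X 0 ^ (q - 1) * X 1 ^ (q - 1) := by
  unfold Jac uniF
  have e1 : (![X 0 ^ q + C c * X 1 ^ q, X 1 ^ q] : Fin 2 → MvPolynomial (Fin 2) K) 0 =
      X 0 ^ q + C c * X 1 ^ q := rfl
  have e2 : (![X 0 ^ q + C c * X 1 ^ q, X 1 ^ q] : Fin 2 → MvPolynomial (Fin 2) K) 1 =
      X 1 ^ q := rfl
  have e3 : pderiv (0 : Fin 2) (X 0 : MvPolynomial (Fin 2) K) = 1 := pderiv_X_self 0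
  have e4 : pderiv (1 : Fin 2) (X 1 : MvPolynomial (Fin 2) K) = 1 := pderiv_X_self 1
  have e5 : pderiv (0 : Fin 2) (X 1 : MvPolynomial (Fin 2) K) = 0 :=
    pderiv_X_of_ne (by decide)
  have e6 : pderiv (1 : Fin 2) (X 0 : MvPolynomial (Fin 2) K) = 0 :=
    pderiv_X_of_ne (by decide)
  rw [e1, e2, map_add, map_add, pderiv_C_mul, pderiv_C_mul, pderiv_pow, pderiv_pow,
    pderiv_pow, pderiv_pow, e3, e4, e5, e6]
  rw [map_mul, map_natCast]
  ring

/-- powers are parabolic -/
theorem par_pow {K : Type} [Field K] [CharZero K] {q : ℕ} (hq : 1 ≤ q)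
    (hM : Mor q (uniF q (0 : K))) : ParM (uniF q (0 : K)) := by
  have hchar : CharZero (AlgebraicClosure K) :=
    charZero_of_injective_algebraMap (algebraMap K (AlgebraicClosure K)).injective
  have hg : ∀ x : Fin 2 → AlgebraicClosure K, gAct (uniF q (0 : K)) (AlgebraicClosure K) x =
      ![x 0 ^ q, x 1 ^ q] := by
    intro x
    funext i
    fin_cases i
    · show aeval x (X 0 ^ q + C (0 : K) * X 1 ^ q) = x 0 ^ q
      rw [map_zero, zero_mul, add_zero, map_pow, aeval_X]
    · show aeval x (X 1 ^ q : MvPolynomial (Fin 2) K) = x 1 ^ q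
      rw [map_pow, aeval_X]
  refine ⟨fun z => if z = none ∨ z = some 0 then 0 else 1, ?_, ?_⟩
  · refine Set.Finite.subset (Set.toFinite {none, some 0}) fun z hz => ?_
    by_contra h
    simp only [Set.mem_insert_iff, Set.mem_singleton_iff] at h
    exact hz (if_neg h)
  · intro U hU
    rw [hg]
    by_cases h1 : U 1 = 0
    · have e1 : pr U = none := if_pos h1
      have e2 : pr (![U 0 ^ q, U 1 ^ q] : Fin 2 → AlgebraicClosure K) = none := by
        refine if_pos ?_
        show U 1 ^ q = 0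
        rw [h1, zero_pow (by omega)]
      rw [e1, e2]
      simp
    · have e1 : pr U = some (U 0 / U 1) := if_neg h1
      have e2 : pr (![U 0 ^ q, U 1 ^ q] : Fin 2 → AlgebraicClosure K) =
          some (U 0 ^ q / U 1 ^ q) := if_neg (pow_ne_zero q h1)
      rw [e1, e2]
      by_cases h0 : U 0 = 0
      · have e3 : U 0 ^ q = 0 := by rw [h0, zero_pow (by omega)]
        rw [e3, h0, zero_div, zero_div]
        simp
      · have e3 : ¬ ((some (U 0 ^ q / U 1 ^ q) : Option (AlgebraicClosure K)) = none ∨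
            (some (U 0 ^ q / U 1 ^ q) : Option (AlgebraicClosure K)) = some 0) := by
          rintro (h | h)
          · simp at h
          · rw [Option.some.injEq] at h
            exact div_ne_zero (pow_ne_zero q h0) (pow_ne_zero q h1) h
        have e4 : ¬ ((some (U 0 / U 1) : Option (AlgebraicClosure K)) = none ∨
            (some (U 0 / U 1) : Option (AlgebraicClosure K)) = some 0) := by
          rintro (h | h)
          · simp at h
          · rw [Option.some.injEq] at h
            exact div_ne_zero h0 h1 h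
        show (if (some (U 0 ^ q / U 1 ^ q) : Option (AlgebraicClosure K)) = none ∨
            (some (U 0 ^ q / U 1 ^ q) : Option (AlgebraicClosure K)) = some 0 then 0 else 1) =
          GS.ld (uniF q (0 : K)) U * (if (some (U 0 / U 1) : Option (AlgebraicClosure K)) = none ∨
            (some (U 0 / U 1) : Option (AlgebraicClosure K)) = some 0 then 0 else 1)
        rw [if_neg e3, if_neg e4, mul_one, eq_comm, (ld_bounds hq hM hU).2.2, jac_uni q _ hq,
          map_mul, map_mul, map_pow, map_pow, aeval_X, aeval_X, aeval_C]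
        have e5 : ((q : K) * q) ≠ 0 := mul_ne_zero (Nat.cast_ne_zero.2 (by omega))
          (Nat.cast_ne_zero.2 (by omega))
        exact mul_ne_zero (mul_ne_zero ((map_ne_zero _).2 e5) (pow_ne_zero _ h0))
          (pow_ne_zero _ h1)

/-- `z ^ 2 - 2` is parabolic -/
theorem par_cheb {K : Type} [Field K] [CharZero K] (hM : Mor 2 (uniF 2 (-2 : K))) :
    ParM (uniF 2 (-2 : K)) := by
  have hchar : CharZero (AlgebraicClosure K) :=
    charZero_of_injective_algebraMap (algebraMap K (AlgebraicClosure K)).injective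
  have hg : ∀ x : Fin 2 → AlgebraicClosure K, gAct (uniF 2 (-2 : K)) (AlgebraicClosure K) x =
      ![x 0 ^ 2 - 2 * x 1 ^ 2, x 1 ^ 2] := by
    intro x
    funext i
    fin_cases i
    · show aeval x (X 0 ^ 2 + C (-2 : K) * X 1 ^ 2) = x 0 ^ 2 - 2 * x 1 ^ 2
      rw [map_add, map_mul, map_pow, map_pow, aeval_X, aeval_X, aeval_C, map_neg, map_ofNat]
      ring
    · show aeval x (X 1 ^ 2 : MvPolynomial (Fin 2) K) = x 1 ^ 2
      rw [map_pow, aeval_X]
  have h2 : (2 : AlgebraicClosure K) ≠ 0 := two_ne_zero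
  have h22 : (2 : AlgebraicClosure K) ≠ -2 := by
    intro h
    have h4 : (4 : AlgebraicClosure K) = 0 := by linear_combination h
    norm_num at h4
  refine ⟨fun z => if z = none then 0 else if z = some 2 ∨ z = some (-2) then 2 else 1, ?_, ?_⟩
  · refine Set.Finite.subset (Set.toFinite {none, some 2, some (-2)}) fun z hz => ?_
    by_contra h
    simp only [Set.mem_insert_iff, Set.mem_singleton_iff] at h
    push Not at h
    apply hz
    show (if z = none then 0 else if z = some 2 ∨ z = some (-2) then 2 else 1) = 1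
    rw [if_neg h.1, if_neg (by tauto)]
  · intro U hU
    rw [hg]
    by_cases h1 : U 1 = 0
    · have e1 : pr U = none := if_pos h1
      have e2 : pr (![U 0 ^ 2 - 2 * U 1 ^ 2, U 1 ^ 2] : Fin 2 → AlgebraicClosure K) = none := by
        refine if_pos ?_
        show U 1 ^ 2 = 0
        rw [h1, zero_pow (by norm_num)]
      rw [e1, e2]
      simp
    · have e1 : pr U = some (U 0 / U 1) := if_neg h1
      have e2 : pr (![U 0 ^ 2 - 2 * U 1 ^ 2, U 1 ^ 2] : Fin 2 → AlgebraicClosure K) =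
          some ((U 0 / U 1) ^ 2 - 2) := by
        have e3 : pr (![U 0 ^ 2 - 2 * U 1 ^ 2, U 1 ^ 2] : Fin 2 → AlgebraicClosure K) =
          some ((U 0 ^ 2 - 2 * U 1 ^ 2) / U 1 ^ 2) := if_neg (pow_ne_zero 2 h1)
        rw [e3]
        congr 1
        field_simp
      have hb := ld_bounds (q := 2) (by norm_num) hM hU
      have hJ : GS.ld (uniF 2 (-2 : K)) U = 1 ↔ U 0 / U 1 ≠ 0 := by
        rw [hb.2.2, jac_uni 2 _ (by norm_num), map_mul, map_mul, map_pow, map_pow, aeval_X,
          aeval_X, aeval_C]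
        have e5 : (((2 : ℕ) : K) * ((2 : ℕ) : K)) ≠ 0 := mul_ne_zero (Nat.cast_ne_zero.2 (by omega))
          (Nat.cast_ne_zero.2 (by omega))
        constructor
        · intro h h0
          rw [div_eq_zero_iff] at h0
          rcases h0 with h0 | h0
          · apply h
            rw [h0]
            simp
          · exact h1 h0
        · intro h
          have h0 : U 0 ≠ 0 := fun h0 => h (by rw [h0, zero_div])
          exact mul_ne_zero (mul_ne_zero ((map_ne_zero _).2 e5) (pow_ne_zero _ h0))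
            (pow_ne_zero _ h1)
      rw [e1, e2]
      set w := U 0 / U 1 with hw
      show (if some (w ^ 2 - 2) = none then 0 else if some (w ^ 2 - 2) = some 2 ∨
        some (w ^ 2 - 2) = some (-2) then 2 else 1) = GS.ld (uniF 2 (-2 : K)) U *
        (if some w = none then 0 else if some w = some 2 ∨ some w = some (-2) then 2 else 1)
      rw [if_neg (Option.some_ne_none _), if_neg (Option.some_ne_none _)]
      simp only [Option.some.injEq]
      by_cases hw2 : w = 2 ∨ w = -2
      · have h3 : w ≠ 0 := by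
          rintro h3
          rcases hw2 with h | h
          · rw [h3] at h; exact h2 h.symm
          · rw [h3] at h; exact h2 (by linear_combination h)
        have h4 : w ^ 2 - 2 = 2 := by
          rcases hw2 with h | h <;> rw [h] <;> norm_num
        rw [if_pos hw2, if_pos (Or.inl h4), hJ.2 h3, one_mul]
      · rw [if_neg hw2, mul_one]
        by_cases h3 : w = 0
        · have h4 : w ^ 2 - 2 = -2 := by rw [h3]; norm_num
          rw [if_pos (Or.inr h4)]
          have h5 : GS.ld (uniF 2 (-2 : K)) U ≠ 1 := fun h => hJ.1 h h3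
          omega
        · have h4 : ¬ (w ^ 2 - 2 = 2 ∨ w ^ 2 - 2 = -2) := by
            rintro (h | h)
            · have h6 : (w - 2) * (w + 2) = 0 := by linear_combination h
              rcases mul_eq_zero.1 h6 with h7 | h7
              · exact hw2 (Or.inl (by linear_combination h7))
              · exact hw2 (Or.inr (by linear_combination h7))
            · have h6 : w ^ 2 = 0 := by linear_combination h
              exact h3 (pow_eq_zero_iff (by norm_num) |>.1 h6)
          rw [if_neg h4, hJ.2 h3]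

/-- a function with values in `{1, 2, ..., ∞}` gives a function with values in `ℕ`, with `0` in
place of `∞`. -/
theorem parF_of_enat {k : Type} [Field k] [CharZero k] {q : ℕ} (hq : 1 ≤ q)
    {F : Fin 2 → MvPolynomial (Fin 2) k} (hF : Mor q F) (ν : Option k → ℕ∞)
    (hfin : {z | ν z ≠ 1}.Finite) (h : ∀ U : Fin 2 → k, U ≠ 0 →
      ν (pr (gAct F k U)) = (GS.ld F U : ℕ∞) * ν (pr U)) : ParF F := by
  refine ⟨fun z => (ν z).toNat, hfin.subset fun z hz h1 => hz ?_, fun U hU => ?_⟩
  · show (ν z).toNat = 1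
    rw [h1]
    rfl
  · show (ν (pr (gAct F k U))).toNat = GS.ld F U * (ν (pr U)).toNat
    rw [h U hU, ENat.toNat_mul, ENat.toNat_coe]

end Pl60

end Pool.DynLehmer.UN

/-!
# The bound for maps which are not parabolic
-/

namespace Pool.DynLehmer.UN
open MvPolynomial NumberField Filter Topology Pool.DynLehmer Pool.DynLehmer.GS Pool.DynLehmer.LP
  Pool.DynLehmer.GAL Pool.DynLehmer.LW
open scoped Classical

/-- the two forms of the hypothesis -/
theorem parM_of_para {K : Type} [Field K] [CharZero K] {q : ℕ} (hq : 1 ≤ q)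
    {F : Fin 2 → MvPolynomial (Fin 2) K} (hF : Mor q F)
    (h : Orb.Para (fun i => map (algebraMap K (AlgebraicClosure K)) (F i))) : ParM F := by
  have hchar : CharZero (AlgebraicClosure K) :=
    charZero_of_injective_algebraMap (algebraMap K (AlgebraicClosure K)).injective
  obtain ⟨ν, hfin, hν⟩ := h
  exact ⟨ν, hfin, (T24.par_iff hq (mor_base hF (AlgebraicClosure K)) ν).2 hν⟩

/-- **The bound for maps which are not parabolic**, with `R = 1` for `z ^ q + c`. -/
theorem orbifold_bound' (H : Orb.OrbStatement) (K : Type) [Field K]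
    [NumberField K] (p s : ℕ) (v : FinitePlace K) (F : Fin 2 → MvPolynomial (Fin 2) K)
    (hF : HypR p s v F) (hns : ¬ ParM F) : ∃ R : ℕ, 1 ≤ R ∧ ((∃ c : K, F = polF (p ^ s)
      (Polynomial.X ^ (p ^ s) + Polynomial.C c)) → R = 1) ∧ ExplR K p s F R := by
  have hq : 2 ≤ p ^ s := by
    calc 2 ≤ p := hF.prime.two_le
      _ = p ^ 1 := (pow_one p).symm
      _ ≤ p ^ s := Nat.pow_le_pow_right hF.prime.pos hF.pos
  have hmor : Mor (p ^ s) F := mor K p s v F hF
  by_cases hu : ∃ c : K, F = polF (p ^ s) (Polynomial.X ^ (p ^ s) + Polynomial.C c)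
  · obtain ⟨c, hc⟩ := hu
    rw [polF_uni (by omega)] at hc
    subst hc
    refine ⟨1, le_rfl, fun _ => rfl, unicritical_bound K p s v c hF ?_ ?_⟩
    · rintro rfl
      exact hns (Pl60.par_pow (by omega) hmor)
    · rintro ⟨h6, rfl⟩
      apply hns
      rw [h6] at hmor ⊢
      exact Pl60.par_cheb hmor
  · obtain ⟨R, hR, H⟩ := rat_of_pairs hF
      (H K p s v F hF fun h => hns (parM_of_para (by omega) hmor h))
    exact ⟨R, hR, fun h => absurd h hu, H⟩

end Pool.DynLehmer.UN

/-!
# Maps which are not parabolic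
-/

namespace Pool.DynLehmer.UN
open MvPolynomial NumberField Filter Topology Pool.DynLehmer Pool.DynLehmer.GS Pool.DynLehmer.LP
  Pool.DynLehmer.GAL Pool.DynLehmer.LW

theorem orb_all : Orb.OrbStatement :=
  Orb.orb28 Orb.max_all Orb.gr_all Ob51.trivc Orb.S74.semic Tp8.tpair Orb.npow Orb.fqp V24.vfg
    Dsc72.lift

/-- **The bound for maps which are not parabolic**, with `R = 1` for `z ^ q + c`. -/
theorem orbifold_bound (K : Type) [Field K]
    [NumberField K] (p s : ℕ) (v : FinitePlace K) (F : Fin 2 → MvPolynomial (Fin 2) K)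
    (hF : HypR p s v F) (hns : ¬ ParM F) : ∃ R : ℕ, 1 ≤ R ∧ ((∃ c : K, F = polF (p ^ s)
      (Polynomial.X ^ (p ^ s) + Polynomial.C c)) → R = 1) ∧ ExplR K p s F R :=
  orbifold_bound' orb_all K p s v F hF hns

end Pool.DynLehmer.UN
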