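import Mathlib
import Pool.Agent.Lib.MP_2194ec_nt.LE.Ext
import Pool.Agent.Lib.MP_2194ec_nt.UN.Props

set_option autoImplicit false

/-!
# Integral elements over `k[u]` and the ideal of the denominators of a derivation
-/

namespace Pool.DynLehmer.UN
open Polynomial IntermediateField

section itg
variable {k L L' : Type} [Field k] [Field L] [Algebra k L] [Field L'] [Algebra k L']

theorem itg_aeval (u : L) (P : k[X]) : Itg k u (aeval u P) :=
  RingHom.isIntegralElem_map ((aeval u : k[X] →ₐ[k] L) : k[X] →+* L)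

theorem itg_self (u : L) : Itg k u u := by
  have h := itg_aeval (k := k) u X
  rwa [aeval_X] at h

theorem itg_C (u : L) (a : k) : Itg k u (algebraMap k L a) := by
  have h := itg_aeval (k := k) u (C a)
  rwa [aeval_C] at h

theorem Itg.mul {u g h : L} (hg : Itg k u g) (hh : Itg k u h) : Itg k u (g * h) :=
  RingHom.IsIntegralElem.mul _ hg hh

theorem Itg.add {u g h : L} (hg : Itg k u g) (hh : Itg k u h) : Itg k u (g + h) :=
  RingHom.IsIntegralElem.add _ hg hh

theorem Itg.sub {u g h : L} (hg : Itg k u g) (hh : Itg k u h) : Itg k u (g - h) :=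
  RingHom.IsIntegralElem.sub _ hg hh

theorem itg_zero (u : L) : Itg k u (0 : L) := RingHom.isIntegralElem_zero _

theorem itg_sum {ι : Type*} {u : L} (s : Finset ι) (g : ι → L) (h : ∀ i ∈ s, Itg k u (g i)) :
    Itg k u (∑ i ∈ s, g i) := by
  classical
  induction s using Finset.induction_on with
  | empty => rw [Finset.sum_empty]; exact itg_zero u
  | insert a s ha ih =>
    rw [Finset.sum_insert ha]
    exact (h a (Finset.mem_insert_self a s)).add
      (ih fun i hi => h i (Finset.mem_insert_of_mem hi))

theorem itg_map_iff (e : L →ₐ[k] L') (u g : L) : Itg k (e u) (e g) ↔ Itg k u g := by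
  have h1 : ((aeval (e u) : k[X] →ₐ[k] L') : k[X] →+* L') =
      (e : L →+* L').comp ((aeval u : k[X] →ₐ[k] L) : k[X] →+* L) := by
    refine RingHom.ext fun P => ?_
    exact aeval_algHom_apply e u P
  unfold Itg
  rw [h1]
  have h2 := RingHom.IsIntegralElem.map_iff (f := ((aeval u : k[X] →ₐ[k] L) : k[X] →+* L))
    (g := (e : L →+* L')) e.toRingHom.injective (x := g)
  exact h2

/-- change of the variable: `k[f(u)] ≤ k[u]` -/
theorem itg_of_comp (u g : L) (f : k[X]) (h : Itg k (aeval u f) g) : Itg k u g := by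
  have h1 : ((aeval (aeval u f) : k[X] →ₐ[k] L) : k[X] →+* L) =
      ((aeval u : k[X] →ₐ[k] L) : k[X] →+* L).comp
        ((aeval f : k[X] →ₐ[k] k[X]) : k[X] →+* k[X]) := by
    refine RingHom.ext fun P => ?_
    exact aeval_algHom_apply (aeval u : k[X] →ₐ[k] L) f P
  unfold Itg at h
  rw [h1] at h
  exact RingHom.IsIntegralElem.of_comp h

/-- `u` is integral over `k[f(u)]` if `f` is monic of positive degree -/
theorem itg_trans (u u' g : L) (hu : Itg k u' u) (h : Itg k u g) : Itg k u' g := by
  let a1 : Algebra k[X] L := ((aeval u' : k[X] →ₐ[k] L) : k[X] →+* L).toAlgebra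
  have hu' : IsIntegral k[X] u := hu
  obtain ⟨P, hP, h0⟩ := h
  have key : ∀ Q : k[X], IsIntegral k[X] (aeval u Q : L) := by
    intro Q
    induction Q using Polynomial.induction_on' with
    | add p q hp hq => rw [map_add]; exact hp.add hq
    | monomial n a =>
      rw [aeval_monomial]
      refine IsIntegral.mul ?_ (hu'.pow n)
      exact itg_C (k := k) u' a
  let S := integralClosure k[X] L
  let f : k[X] →+* S :=
    { toFun := fun Q => ⟨aeval u Q, key Q⟩
      map_one' := Subtype.ext (map_one (aeval u : k[X] →ₐ[k] L))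
      map_mul' := fun a b => Subtype.ext (map_mul (aeval u : k[X] →ₐ[k] L) a b)
      map_zero' := Subtype.ext (map_zero (aeval u : k[X] →ₐ[k] L))
      map_add' := fun a b => Subtype.ext (map_add (aeval u : k[X] →ₐ[k] L) a b) }
  have hf : (algebraMap S L).comp f = ((aeval u : k[X] →ₐ[k] L) : k[X] →+* L) :=
    RingHom.ext fun Q => rfl
  have h2 : IsIntegral S g := by
    refine ⟨P.map f, hP.map f, ?_⟩
    rw [eval₂_map, hf]
    exact h0
  have h3 : IsIntegral k[X] g := isIntegral_trans g h2
  exact h3

theorem itg_root (u : L) (p : ℕ) (hp : p ≠ 0) (c : k) :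
    Itg k (u ^ p + algebraMap k L c) u := by
  refine ⟨X ^ p - C (X - C c : k[X]), ?_, ?_⟩
  · exact monic_X_pow_sub_C _ hp
  · rw [eval₂_sub, eval₂_pow, eval₂_X, eval₂_C]
    show u ^ p - aeval (u ^ p + algebraMap k L c) (X - C c : k[X]) = 0
    rw [map_sub, aeval_X, aeval_C]
    ring

theorem itg_step (u g : L) (p : ℕ) (hp : p ≠ 0) (c : k) :
    Itg k (u ^ p + algebraMap k L c) g ↔ Itg k u g := by
  constructor
  · intro h
    refine itg_of_comp u g (X ^ p + C c) ?_
    rwa [map_add, map_pow, aeval_X, aeval_C]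
  · exact itg_trans u _ g (itg_root u p hp c)

theorem itg_scale (u g : L) (a : k) (ha : a ≠ 0) : Itg k (algebraMap k L a * u) g ↔ Itg k u g := by
  have h1 : ∀ (b : k) (w z : L), Itg k (algebraMap k L b * w) z → Itg k w z := by
    intro b w z h
    refine itg_of_comp w z (C b * X) ?_
    rwa [map_mul, aeval_X, aeval_C]
  refine ⟨h1 a u g, fun h => ?_⟩
  refine h1 a⁻¹ (algebraMap k L a * u) g ?_
  rwa [← mul_assoc, ← map_mul, inv_mul_cancel₀ ha, map_one, one_mul]

end itg

/-! ## The ideal of the denominators -/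

section idl
variable {k L : Type} [Field k] [Field L] [Algebra k L]

/-- the polynomials `h` such that `h(u) D` preserves the elements which are integral over `k[u]` -/
def Idl (u : L) (D : Derivation k L L) : Ideal k[X] where
  carrier := {h | ∀ g, Itg k u g → Itg k u (aeval u h * D g)}
  zero_mem' := by
    intro g _
    rw [map_zero, zero_mul]
    exact itg_zero u
  add_mem' := by
    intro a b ha hb g hg
    rw [map_add, add_mul]
    exact (ha g hg).add (hb g hg)
  smul_mem' := by
    intro q a ha g hg
    rw [smul_eq_mul, map_mul, mul_assoc]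
    exact (itg_aeval u q).mul (ha g hg)

theorem mem_idl {u : L} {D : Derivation k L L} {h : k[X]} :
    h ∈ Idl u D ↔ ∀ g, Itg k u g → Itg k u (aeval u h * D g) := Iff.rfl

/-- the bad points -/
def Rt (u : L) (D : Derivation k L L) : Set k := {a | ∀ h ∈ Idl u D, h.eval a = 0}

/-- one polynomial which avoids all points which are not bad -/
theorem exists_gen (u : L) (D : Derivation k L L) :
    ∃ h ∈ Idl u D, ∀ a, a ∉ Rt u D → h.eval a ≠ 0 := by
  obtain ⟨h, hh⟩ := (IsPrincipalIdealRing.principal (Idl u D)).principal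
  have hmem : h ∈ Idl u D := by
    rw [hh]
    exact Submodule.mem_span_singleton_self h
  refine ⟨h, hmem, fun a ha h0 => ha fun q hq => ?_⟩
  rw [hh] at hq
  obtain ⟨r, rfl⟩ := Submodule.mem_span_singleton.1 hq
  rw [smul_eq_mul, eval_mul, h0, mul_zero]

/-- if there are no bad points, the derivation preserves the integral elements -/
theorem pres_of_rt [IsAlgClosed k] (u : L) (D : Derivation k L L) (h : Rt u D = ∅) (g : L)
    (hg : Itg k u g) : Itg k u (D g) := by
  obtain ⟨q, hq, hq'⟩ := exists_gen u D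
  have h1 : ∀ a, q.eval a ≠ 0 := fun a => hq' a (by rw [h]; exact fun h => h)
  have h2 : q.degree = 0 := by
    by_contra hne
    obtain ⟨a, ha⟩ := IsAlgClosed.exists_root q hne
    exact h1 a ha
  obtain ⟨b, hb⟩ : ∃ b, q = C b := ⟨_, eq_C_of_degree_eq_zero h2⟩
  have hb0 : b ≠ 0 := by
    intro h0
    rw [hb, h0, map_zero, degree_zero] at h2
    exact absurd h2 (by decide)
  have h3 := hq g hg
  rw [hb, aeval_C] at h3
  have h4 := (itg_C (k := k) u b⁻¹).mul h3
  rwa [← mul_assoc, ← map_mul, inv_mul_cancel₀ hb0, map_one, one_mul] at h4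

end idl

end Pool.DynLehmer.UN

/-!
# The bad points: finiteness, symmetry and transfer
-/

namespace Pool.DynLehmer.UN
open Polynomial IntermediateField

section
variable {k L : Type} [Field k] [Field L] [Algebra k L]

theorem der_aeval (u : L) (D : Derivation k L L) (h1 : D u = 1) (P : k[X]) :
    D (aeval u P) = aeval u (derivative P) := by
  induction P using Polynomial.induction_on' with
  | add p q hp hq => rw [map_add, map_add, derivative_add, map_add, hp, hq]
  | monomial n a =>
    rw [aeval_monomial, derivative_monomial, aeval_monomial, Derivation.leibniz,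
      Derivation.map_algebraMap, smul_zero, add_zero, Derivation.leibniz_pow, h1, smul_eq_mul,
      map_mul, map_natCast]
    simp only [nsmul_eq_mul, smul_eq_mul, mul_one]
    ring

/-- there is a nonzero denominator -/
theorem exists_idl_ne [CharZero k] (u : L) (D : Derivation k L L) (hu : Transcendental k u)
    (hfin : FiniteDimensional (adjoin k {u}) L) (h1 : D u = 1) : ∃ h ∈ Idl u D, h ≠ 0 := by
  classical
  let K := adjoin k {u}
  have huK : u ∈ K := mem_adjoin_simple_self k u
  let u' : K := ⟨u, huK⟩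
  let a1 : Algebra k[X] K := ((aeval u' : k[X] →ₐ[k] K) : k[X] →+* K).toAlgebra
  let a2 : Algebra k[X] L := ((aeval u : k[X] →ₐ[k] L) : k[X] →+* L).toAlgebra
  have m1 : ∀ s : k[X], algebraMap k[X] K s = aeval u' s := fun _ => rfl
  have m2 : ∀ s : k[X], algebraMap k[X] L s = aeval u s := fun _ => rfl
  have m3 : ∀ s : k[X], ((aeval u' s : K) : L) = aeval u s := by
    intro s
    have h := Polynomial.aeval_algHom_apply K.val u' s
    exact h.symm
  have t1 : IsScalarTower k[X] K L := IsScalarTower.of_algebraMap_eq fun s => by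
    rw [m2, m1]
    exact (m3 s).symm
  have hinj : Function.Injective (algebraMap k[X] L) := by
    intro a b hab
    exact (transcendental_iff_injective.1 hu) hab
  have hinj' : Function.Injective (algebraMap k[X] K) := by
    intro a b hab
    apply hinj
    rw [m2, m2, ← m3, ← m3, ← m1, ← m1, hab]
  have f0 : FaithfulSMul k[X] K := (faithfulSMul_iff_algebraMap_injective k[X] K).2 hinj'
  have f1 : IsFractionRing k[X] K := by
    refine IsFractionRing.of_field k[X] K fun z => ?_
    obtain ⟨r, s, hrs⟩ := (mem_adjoin_simple_iff k (z : L)).1 z.2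
    refine ⟨r, s, ?_⟩
    apply Subtype.ext
    rw [m1, m1]
    push_cast
    rw [m3, m3]
    exact hrs
  have hcz : CharZero K := charZero_of_injective_algebraMap (algebraMap k K).injective
  have hfin' : Module.Finite k[X] (integralClosure k[X] L) :=
    IsIntegralClosure.finite k[X] K L (integralClosure k[X] L)
  obtain ⟨s, hs⟩ := hfin'.1
  have halg : Algebra.IsAlgebraic k[X] L := by
    have h2 : Algebra.IsAlgebraic K L := Algebra.IsAlgebraic.of_finite K L
    exact (IsFractionRing.comap_isAlgebraic_iff (A := k[X]) (K := K) (C := L)).2 h2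
  have hden : ∀ z : L, ∃ h : k[X], h ≠ 0 ∧ Itg k u (aeval u h * z) := by
    intro z
    obtain ⟨y, hy, hz⟩ := (halg.1 z).exists_integral_multiple
    exact ⟨y, hy, hz⟩
  choose H hH0 hH using hden
  refine ⟨∏ g ∈ s, H (D (g : L)), ?_, ?_⟩
  · intro g hg
    have hg' : (⟨g, hg⟩ : integralClosure k[X] L) ∈ Submodule.span k[X] (s : Set _) := by
      rw [hs]; trivial
    have key : ∀ z ∈ Submodule.span k[X] (s : Set (integralClosure k[X] L)),
        Itg k u (aeval u (∏ g ∈ s, H (D (g : L))) * D (z : L)) := by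
      intro z hz
      induction hz using Submodule.span_induction with
      | mem x hx =>
        have hx' : x ∈ s := hx
        rw [← Finset.mul_prod_erase s _ hx', map_mul, mul_comm (aeval u (H (D (x : L)))), mul_assoc]
        exact (itg_aeval u _).mul (hH _)
      | zero =>
        rw [ZeroMemClass.coe_zero, map_zero, mul_zero]
        exact itg_zero u
      | add x y hx hy ihx ihy =>
        rw [AddMemClass.coe_add, map_add, mul_add]
        exact ihx.add ihy
      | smul a x hx ih =>
        have e1 : ((a • x : integralClosure k[X] L) : L) = aeval u a * (x : L) := by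
          rw [← m2, ← Algebra.smul_def]
          rfl
        rw [e1, Derivation.leibniz, smul_eq_mul, smul_eq_mul, der_aeval u D h1, mul_add]
        refine Itg.add ?_ ?_
        · rw [mul_left_comm]
          exact (itg_aeval u a).mul ih
        · refine (itg_aeval u _).mul (Itg.mul ?_ (itg_aeval u _))
          exact x.2
    exact key _ hg'
  · exact Finset.prod_ne_zero_iff.2 fun g _ => hH0 _

theorem rt_finite [CharZero k] (u : L) (D : Derivation k L L) (hu : Transcendental k u)
    (hfin : FiniteDimensional (adjoin k {u}) L) (h1 : D u = 1) : (Rt u D).Finite := by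
  classical
  obtain ⟨h, hh, h0⟩ := exists_idl_ne u D hu hfin h1
  refine Set.Finite.subset (Finset.finite_toSet h.roots.toFinset) fun a ha => ?_
  rw [Finset.mem_coe, Multiset.mem_toFinset, mem_roots h0]
  exact ha h hh

theorem alg_range (u : L) (hfin : FiniteDimensional (adjoin k {u}) L) :
    Algebra.IsAlgebraic (adjoin k (Set.range fun _ : Unit => u)) L := by
  have e : Set.range (fun _ : Unit => u) = {u} := by
    ext z
    constructor
    · rintro ⟨_, rfl⟩
      rfl
    · intro hz
      exact ⟨(), (Set.mem_singleton_iff.1 hz).symm⟩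
  rw [e]
  exact Algebra.IsAlgebraic.of_finite _ _

/-- symmetry of the bad points -/
theorem rt_scale [CharZero k] (u : L) (D : Derivation k L L)
    (hfin : FiniteDimensional (adjoin k {u}) L) (h1 : D u = 1) (σ : L ≃ₐ[k] L) (ζ : k)
    (hζ : ζ ≠ 0) (hσ : σ u = algebraMap k L ζ * u) (a : k) (ha : a ∈ Rt u D) :
    ζ * a ∈ Rt u D := by
  intro h hh
  have hcomm : ∀ g : L, D (σ g) = algebraMap k L ζ * σ (D g) := by
    intro g
    refine LE.ext_comm (C := k) (x := fun _ : Unit => u) (alg_range u hfin) (σ : L →ₐ[k] L) D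
      (algebraMap k L ζ) (fun _ => ?_) g
    show D (σ u) = algebraMap k L ζ * σ (D u)
    rw [hσ, h1, map_one, mul_one, Derivation.leibniz, h1, Derivation.map_algebraMap, smul_zero,
      add_zero, smul_eq_mul, mul_one]
  have hmem : h.comp (C ζ * X) ∈ Idl u D := by
    intro g hg
    have hg1 : Itg k u (σ.symm g) := by
      rw [← itg_map_iff (σ : L →ₐ[k] L)]
      show Itg k (σ u) (σ (σ.symm g))
      rw [hσ, AlgEquiv.apply_symm_apply, itg_scale u g ζ hζ]
      exact hg
    have h2 := hh _ hg1
    rw [← itg_map_iff (σ : L →ₐ[k] L)] at h2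
    have h3 : Itg k (σ u) (σ (aeval u h * D (σ.symm g))) := h2
    rw [hσ, itg_scale u _ ζ hζ, map_mul] at h3
    have e1 : σ (aeval u h) = aeval u (h.comp (C ζ * X)) := by
      rw [aeval_comp, map_mul, aeval_C, aeval_X, ← hσ]
      exact (aeval_algHom_apply (σ : L →ₐ[k] L) u h).symm
    have e2 : D g = algebraMap k L ζ * σ (D (σ.symm g)) := by
      rw [← hcomm, AlgEquiv.apply_symm_apply]
    rw [e2, mul_left_comm, ← e1]
    exact (itg_C u ζ).mul h3
  have h4 := ha _ hmem
  rwa [eval_comp, eval_mul, eval_C, eval_X] at h4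

/-- transfer of the bad points -/
theorem rt_step {L' : Type} [Field L'] [Algebra k L'] [CharZero k] [IsAlgClosed k]
    (e : L' →ₐ[k] L) (u : L) (D : Derivation k L L) (u' : L') (D' : Derivation k L' L')
    (hfin' : FiniteDimensional (adjoin k {u'}) L') (h1 : D u = 1) (h1' : D' u' = 1)
    (p : ℕ) (hp : p ≠ 0) (c : k) (hu : e u' = u ^ p + algebraMap k L c) (ζ : k)
    (hζ : IsPrimitiveRoot ζ p) (hsc : ∀ a ∈ Rt u D, ζ * a ∈ Rt u D) (b : k) (hb : b ≠ c)
    (hbr : b ∈ Rt u' D') (a : k) (hab : a ^ p + c = b) : a ∈ Rt u D := by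
  classical
  by_contra ha
  have hsc' : ∀ (i : ℕ) (r : k), r ∈ Rt u D → ζ ^ i * r ∈ Rt u D := by
    intro i
    induction i with
    | zero => intro r hr; rwa [pow_zero, one_mul]
    | succ n ih =>
      intro r hr
      rw [pow_succ', mul_assoc]
      exact hsc _ (ih r hr)
  obtain ⟨h0, hh0, hav⟩ := exists_gen u D
  have hL : (p : L) ≠ 0 := by
    have hcz : CharZero L := charZero_of_injective_algebraMap (algebraMap k L).injective
    exact Nat.cast_ne_zero.2 hp
  -- the relation of the two derivations
  have hrel : ∀ g : L', D (e g) = (p : L) * u ^ (p - 1) * e (D' g) := by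
    intro g
    rw [← sub_eq_zero]
    refine LE.ext_zero (C := k) (x := fun _ : Unit => u') (alg_range u' hfin') (e : L' →+* L)
      (fun z => D (e z) - (p : L) * u ^ (p - 1) * e (D' z)) (fun x y => ?_) (fun x y => ?_)
      (fun r => ?_) (fun _ => ?_) g
    · simp only [map_add]
      ring
    · show D (e (x * y)) - _ = e x * _ + e y * _
      rw [map_mul, Derivation.leibniz, Derivation.leibniz, map_add, smul_eq_mul, smul_eq_mul,
        smul_eq_mul, smul_eq_mul, map_mul, map_mul]
      ring
    · show D (e (algebraMap k L' r)) - _ = 0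
      rw [AlgHom.commutes, Derivation.map_algebraMap, Derivation.map_algebraMap, map_zero,
        mul_zero, sub_zero]
    · show D (e u') - _ = 0
      rw [hu, h1', map_one, mul_one, map_add, Derivation.map_algebraMap, add_zero,
        Derivation.leibniz_pow, h1]
      simp only [nsmul_eq_mul, smul_eq_mul, mul_one]
      ring
  set q : k[X] := X ^ (p - 1) * h0 with hq
  have hh0ne : h0 ≠ 0 := by
    intro h
    apply hav a ha
    rw [h, eval_zero]
  have hqne : q ≠ 0 := mul_ne_zero (pow_ne_zero _ X_ne_zero) hh0ne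
  set f : k[X] := X ^ p + C c with hf
  set h' : k[X] := (q.roots.map fun r => X - C (r ^ p + c)).prod with hh'
  have hdvd : q ∣ h'.comp f := by
    have e1 : q = C q.leadingCoeff * (q.roots.map fun r => X - C r).prod :=
      (IsAlgClosed.splits q).eq_prod_roots
    have e2 : (q.roots.map fun r => X - C r).prod ∣ h'.comp f := by
      rw [hh', multiset_prod_comp, Multiset.map_map]
      refine Multiset.prod_dvd_prod_of_dvd _ _ fun r _ => ?_
      rw [dvd_iff_isRoot, IsRoot.def, Function.comp_apply, eval_comp, hf]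
      simp
    rw [e1]
    refine (IsUnit.mul_left_dvd ?_).2 e2
    exact isUnit_C.2 (isUnit_iff_ne_zero.2 (leadingCoeff_ne_zero.2 hqne))
  obtain ⟨w, hw⟩ := hdvd
  have hmem : h' ∈ Idl u' D' := by
    intro g hg
    rw [← itg_map_iff e, hu, itg_step u _ p hp c, map_mul]
    have e1 : e (aeval u' h') = u ^ (p - 1) * aeval u h0 * aeval u w := by
      have e2 : aeval u q = u ^ (p - 1) * aeval u h0 := by
        rw [hq, map_mul, map_pow, aeval_X]
      have e3 : aeval u f = u ^ p + algebraMap k L c := by
        rw [hf, map_add, map_pow, aeval_X, aeval_C]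
      rw [← aeval_algHom_apply, hu, ← e3, ← aeval_comp, hw, map_mul, e2]
    have e4 : Itg k u (aeval u h0 * D (e g)) := by
      refine hh0 _ ?_
      rw [← itg_step u _ p hp c, ← hu, itg_map_iff]
      exact hg
    have e5 : e (aeval u' h') * e (D' g) =
        algebraMap k L (p : k)⁻¹ * (aeval u w * (aeval u h0 * D (e g))) := by
      rw [e1, hrel, map_inv₀, map_natCast]
      field_simp
    rw [e5]
    exact (itg_C u _).mul ((itg_aeval u w).mul e4)
  have h0b := hbr h' hmem
  rw [hh', eval_multiset_prod, Multiset.map_map, Multiset.prod_eq_zero_iff, Multiset.mem_map]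
    at h0b
  obtain ⟨r, hr, hr0⟩ := h0b
  rw [Function.comp_apply, eval_sub, eval_X, eval_C, sub_eq_zero] at hr0
  have hrne : r ≠ 0 := by
    rintro rfl
    rw [zero_pow hp, zero_add] at hr0
    exact hb hr0
  have hqr : q.eval r = 0 := (mem_roots hqne).1 hr
  rw [hq, eval_mul, eval_pow, eval_X] at hqr
  have hr1 : h0.eval r = 0 := (mul_eq_zero.1 hqr).resolve_left (pow_ne_zero _ hrne)
  have hnot : r ∉ Rt u D := by
    intro hrR
    have h5 : (a / r) ^ p = 1 := by
      have h6 : a ^ p = r ^ p := by
        have h7 := hab.trans hr0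
        exact add_right_cancel h7
      rw [div_pow, h6, div_self (pow_ne_zero _ hrne)]
    have hnz : NeZero p := ⟨hp⟩
    obtain ⟨i, _, hi⟩ := hζ.eq_pow_of_pow_eq_one h5
    apply ha
    have h8 : a = ζ ^ i * r := by
      rw [hi, div_mul_cancel₀ _ hrne]
    rw [h8]
    exact hsc' i r hrR
  exact hav r hnot hr1

end

end Pool.DynLehmer.UN

/-!
# Finite sets which are stable under the inverse of `z ^ p + c`
-/

namespace Pool.DynLehmer.UN

theorem combq {k : Type} [Field k] [IsAlgClosed k] (p : ℕ) (hp2 : 2 ≤ p) (c : k) (hc : c ≠ 0)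
    (h2 : ¬ (p = 2 ∧ c = -2)) (ζ : k) (hζ : IsPrimitiveRoot ζ p) (M : ℕ) (hM : 1 ≤ M)
    (R : ℕ → Finset k) (hper : ∀ j, R (j + M) = R j) (hsc : ∀ j, ∀ a ∈ R j, ζ * a ∈ R j)
    (hst : ∀ (j : ℕ) (b : k), b ∈ R (j + 1) → b ≠ c → ∀ a, a ^ p + c = b → a ∈ R j) :
    ∀ j, R j = ∅ := by
  classical
  have hp0 : 0 < p := by omega
  have hpne : p ≠ 0 := by omega
  have hsc' : ∀ (j i : ℕ) (a : k), a ∈ R j → ζ ^ i * a ∈ R j := by
    intro j i
    induction i with
    | zero => intro a ha; rwa [pow_zero, one_mul]
    | succ n ih =>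
      intro a ha
      rw [pow_succ', mul_assoc]
      exact hsc j _ (ih a ha)
  have hζ0 : ζ ≠ 0 := hζ.ne_zero hpne
  -- the fibres
  have hA : ∀ j, p * ((R (j + 1)).erase c).card ≤ (R j).card := by
    intro j
    choose r hr using fun b : k => IsAlgClosed.exists_pow_nat_eq (b - c) hp0
    have h3 : ∀ b ∈ (R (j + 1)).erase c, r b ≠ 0 := by
      intro b hb h0
      have h4 := hr b
      rw [h0, zero_pow hpne] at h4
      exact (Finset.mem_erase.1 hb).1 (sub_eq_zero.1 h4.symm)
    have h5 : (((R (j + 1)).erase c) ×ˢ Finset.range p).card ≤ (R j).card := by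
      refine Finset.card_le_card_of_injOn (fun z => ζ ^ z.2 * r z.1) ?_ ?_
      · intro z hz
        rw [Finset.mem_coe, Finset.mem_product] at hz
        refine hsc' j _ _ ?_
        refine hst j z.1 (Finset.mem_erase.1 hz.1).2 (Finset.mem_erase.1 hz.1).1 _ ?_
        rw [hr]
        ring
      · intro z hz w hw hzw
        rw [Finset.mem_coe, Finset.mem_product] at hz hw
        have h6 : ζ ^ z.2 * r z.1 = ζ ^ w.2 * r w.1 := hzw
        have h7 : z.1 = w.1 := by
          have h8 := congrArg (fun t => t ^ p) h6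
          simp only [mul_pow] at h8
          rw [← pow_mul, ← pow_mul, mul_comm z.2, mul_comm w.2, pow_mul, pow_mul, hζ.pow_eq_one,
            one_pow, one_pow, one_mul, one_mul, hr, hr] at h8
          exact sub_left_inj.1 h8
        have h9 : z.2 = w.2 := by
          rw [h7] at h6
          have h10 := mul_right_cancel₀ (h3 _ hw.1) h6
          exact hζ.pow_inj (Finset.mem_range.1 hz.2) (Finset.mem_range.1 hw.2) h10
        exact Prod.ext h7 h9
    rw [Finset.card_product, Finset.card_range, mul_comm] at h5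
    exact h5
  have hB : ∀ j, c ∈ R (j + 1) → p - 1 ≤ ((R (j + 1)).erase c).card := by
    intro j hcj
    have h5 : (Finset.Ico 1 p).card ≤ ((R (j + 1)).erase c).card := by
      refine Finset.card_le_card_of_injOn (fun i => ζ ^ i * c) ?_ ?_
      · intro i hi
        rw [Finset.mem_coe, Finset.mem_Ico] at hi
        rw [Finset.mem_coe, Finset.mem_erase]
        refine ⟨fun h => ?_, hsc' _ _ _ hcj⟩
        have h6 : ζ ^ i * c = 1 * c := by rw [one_mul]; exact h
        have h7 := mul_right_cancel₀ hc h6
        exact hζ.pow_ne_one_of_pos_of_lt (by omega) hi.2 h7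
      · intro i hi i' hi' h
        rw [Finset.mem_coe, Finset.mem_Ico] at hi hi'
        have h6 : ζ ^ i * c = ζ ^ i' * c := h
        exact hζ.pow_inj hi.2 hi'.2 (mul_right_cancel₀ hc h6)
    rwa [Nat.card_Ico] at h5
  have hC : ∀ j, (c ∈ R (j + 1) → (R (j + 1)).card = ((R (j + 1)).erase c).card + 1) ∧
      (c ∉ R (j + 1) → (R (j + 1)).card = ((R (j + 1)).erase c).card) := by
    intro j
    refine ⟨fun h => ?_, fun h => ?_⟩
    · exact (Finset.card_erase_add_one h).symm
    · rw [Finset.erase_eq_of_notMem h]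
  have hmono : ∀ j, (R (j + 1)).card ≤ (R j).card := by
    intro j
    have h3 := hA j
    by_cases hcj : c ∈ R (j + 1)
    · have h4 := hB j hcj
      have h5 := (hC j).1 hcj
      have h6 : 1 ≤ ((R (j + 1)).erase c).card := by omega
      have h7 := Nat.mul_le_mul_right ((R (j + 1)).erase c).card hp2
      linarith
    · have h5 := (hC j).2 hcj
      have h7 := Nat.mul_le_mul_right ((R (j + 1)).erase c).card hp2
      linarith
  have hanti : Antitone fun j => (R j).card := antitone_nat_of_succ_le hmono
  have heq : ∀ j, (R (j + 1)).card = (R j).card := by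
    intro j
    refine le_antisymm (hmono j) ?_
    have h3 : (R (j + M)).card ≤ (R (j + 1)).card := hanti (by omega)
    rwa [hper] at h3
  have hconst : ∀ j, (R j).card = (R 0).card := by
    intro j
    induction j with
    | zero => rfl
    | succ n ih => rw [heq, ih]
  by_contra hne
  push Not at hne
  obtain ⟨j₀, hj₀⟩ := hne
  have hn : 1 ≤ (R 0).card := by
    rw [← hconst j₀]
    exact Finset.Nonempty.card_pos hj₀
  have hcmem : ∀ j, c ∈ R (j + 1) := by
    intro j
    by_contra hcj
    have h5 := (hC j).2 hcj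
    have h3 := hA j
    rw [← h5, hconst (j + 1), hconst j] at h3
    have h7 := Nat.mul_le_mul_right (R 0).card hp2
    linarith
  have hone : ∀ j, p = 2 ∧ ((R (j + 1)).erase c).card = 1 := by
    intro j
    have h3 := hA j
    have h4 := hB j (hcmem j)
    have h5 := (hC j).1 (hcmem j)
    rw [hconst (j + 1)] at h5
    rw [hconst j, h5] at h3
    have h6 : 1 ≤ ((R (j + 1)).erase c).card := by omega
    have h7 : p = 2 := by
      by_contra hp3
      have h8 : 3 ≤ p := by omega
      have h9 := Nat.mul_le_mul_right ((R (j + 1)).erase c).card h8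
      linarith
    refine ⟨h7, ?_⟩
    rw [h7] at h3
    omega
  have hp2' : p = 2 := (hone 0).1
  subst hp2'
  have hζ1 : ζ = -1 := by
    have h3 := hζ.pow_eq_one
    have h4 : ζ ≠ 1 := fun h => by
      have h5 := hζ.pow_ne_one_of_pos_of_lt (l := 1) one_ne_zero one_lt_two
      rw [pow_one] at h5
      exact h5 h
    have h6 : (ζ - 1) * (ζ + 1) = 0 := by linear_combination h3
    exact eq_neg_of_add_eq_zero_left ((mul_eq_zero.1 h6).resolve_left (sub_ne_zero.2 h4))
  have hmem : ∀ j, ∀ b ∈ R (j + 1), b = c ∨ b = -c := by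
    intro j b hb
    by_cases hbc : b = c
    · exact Or.inl hbc
    · right
      obtain ⟨d, hd⟩ := Finset.card_eq_one.1 (hone j).2
      have h3 : b ∈ (R (j + 1)).erase c := Finset.mem_erase.2 ⟨hbc, hb⟩
      have h4 : ζ * c ∈ (R (j + 1)).erase c := by
        refine Finset.mem_erase.2 ⟨fun h => ?_, hsc _ _ (hcmem j)⟩
        rw [hζ1, neg_one_mul] at h
        have h6 := hζ.pow_ne_one_of_pos_of_lt (l := 1) one_ne_zero one_lt_two
        apply h6
        rw [pow_one, hζ1]
        have h7 : (-1 : k) * c = 1 * c := by rw [neg_one_mul, one_mul]; exact h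
        exact mul_right_cancel₀ hc h7
      rw [hd, Finset.mem_singleton] at h3 h4
      rw [h3, ← h4, hζ1, neg_one_mul]
  -- a preimage of `-c`
  have hneg : -c ∈ R 2 := by
    have h3 := hsc 2 c (hcmem 1)
    rwa [hζ1, neg_one_mul] at h3
  obtain ⟨a, ha⟩ := IsAlgClosed.exists_pow_nat_eq (-c - c) (n := 2) two_pos
  have hnegc : -c ≠ c := by
    intro h
    have h6 := hζ.pow_ne_one_of_pos_of_lt (l := 1) one_ne_zero one_lt_two
    apply h6
    rw [pow_one, hζ1]
    have h7 : (-1 : k) * c = 1 * c := by rw [neg_one_mul, one_mul]; exact h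
    exact mul_right_cancel₀ hc h7
  have h3 : a ∈ R 1 := hst 1 (-c) hneg hnegc a (by rw [ha]; ring)
  have h4 : c ^ 2 = -c - c := by
    rcases hmem 0 a h3 with h | h
    · rw [← ha, h]
    · rw [← ha, h, neg_sq]
  have h5 : c * (c + 2) = 0 := by linear_combination h4
  exact h2 ⟨rfl, eq_neg_of_add_eq_zero_left ((mul_eq_zero.1 h5).resolve_left hc)⟩

theorem comb {k : Type} [Field k] [IsAlgClosed k] (p : ℕ) (hp : p.Prime) (c : k) (hc : c ≠ 0)
    (h2 : ¬ (p = 2 ∧ c = -2)) (ζ : k) (hζ : IsPrimitiveRoot ζ p) (M : ℕ) (hM : 1 ≤ M)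
    (R : ℕ → Finset k) (hper : ∀ j, R (j + M) = R j) (hsc : ∀ j, ∀ a ∈ R j, ζ * a ∈ R j)
    (hst : ∀ (j : ℕ) (b : k), b ∈ R (j + 1) → b ≠ c → ∀ a, a ^ p + c = b → a ∈ R j) :
    ∀ j, R j = ∅ := combq p hp.two_le c hc h2 ζ hζ M hM R hper hsc hst

end Pool.DynLehmer.UN

/-!
# Kummer automorphisms, finiteness in the tower, isomorphisms
-/

namespace Pool.DynLehmer.UN
open Polynomial IntermediateField

/-- the automorphism `u ↦ ζ u` of `K(u)`, `u ^ p` in `K`, `u` not in `K` -/
theorem kummer {k K L : Type} [Field k] [Field K] [Field L] [Algebra k K] [Algebra k L]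
    [Algebra K L] [IsScalarTower k K L] (p : ℕ) (hp : p.Prime) (ζ : k)
    (hζ : IsPrimitiveRoot ζ p) (u : L) (a : K) (ha : u ^ p = algebraMap K L a)
    (hu : ∀ b : K, algebraMap K L b ≠ u) (htop : adjoin K {u} = ⊤) :
    ∃ σ : L ≃ₐ[k] L, σ u = algebraMap k L ζ * u := by
  have hu0 : u ≠ 0 := by
    intro h
    exact hu 0 (by rw [map_zero, h])
  have hirr : Irreducible (X ^ p - C a : K[X]) := by
    refine X_pow_sub_C_irreducible_of_prime hp fun b hb => ?_
    have hb0 : algebraMap K L b ≠ 0 := by
      intro h0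
      have h1 : b = 0 := (algebraMap K L).injective (by rw [h0, map_zero])
      rw [h1, zero_pow hp.ne_zero] at hb
      rw [← hb, map_zero] at ha
      exact hu0 (pow_eq_zero_iff hp.ne_zero |>.1 ha)
    have h2 : (u / algebraMap K L b) ^ p = 1 := by
      rw [div_pow, ← map_pow, hb, ha, div_self]
      rw [← hb, map_pow]
      exact pow_ne_zero _ hb0
    have hζL : IsPrimitiveRoot (algebraMap k L ζ) p :=
      hζ.map_of_injective (algebraMap k L).injective
    have hnz : NeZero p := ⟨hp.ne_zero⟩
    obtain ⟨i, _, hi⟩ := hζL.eq_pow_of_pow_eq_one h2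
    apply hu (algebraMap k K ζ ^ i * b)
    rw [map_mul, map_pow, ← IsScalarTower.algebraMap_apply, hi, div_mul_cancel₀ _ hb0]
  have hmon : (X ^ p - C a : K[X]).Monic := monic_X_pow_sub_C a hp.ne_zero
  have hroot : aeval u (X ^ p - C a : K[X]) = 0 := by
    rw [map_sub, map_pow, aeval_X, aeval_C, ha, sub_self]
  have hmin : minpoly K u = X ^ p - C a := (minpoly.eq_of_irreducible_of_monic hirr hroot hmon).symm
  have hint : IsIntegral K u := ⟨_, hmon, hroot⟩
  have hv : algebraMap k L ζ * u ∈ (minpoly K u).aroots L := by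
    rw [hmin, mem_aroots]
    refine ⟨hmon.ne_zero, ?_⟩
    rw [map_sub, map_pow, aeval_X, aeval_C, mul_pow, ← map_pow, hζ.pow_eq_one, map_one, one_mul, ha,
      sub_self]
  let τ : K⟮u⟯ →ₐ[K] L := (algHomAdjoinIntegralEquiv K hint).symm ⟨_, hv⟩
  let e : K⟮u⟯ ≃ₐ[K] L := (IntermediateField.equivOfEq htop).trans IntermediateField.topEquiv
  have heu : e (AdjoinSimple.gen K u) = u := rfl
  have hfd : FiniteDimensional K L := by
    have h1 : FiniteDimensional K K⟮u⟯ := adjoin.finiteDimensional hint
    exact LinearEquiv.finiteDimensional e.toLinearEquiv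
  let σ : L →ₐ[K] L := τ.comp (e.symm : L →ₐ[K] K⟮u⟯)
  have hσ : σ u = algebraMap k L ζ * u := by
    have h1 : e.symm u = AdjoinSimple.gen K u := by
      rw [AlgEquiv.symm_apply_eq, heu]
    show τ (e.symm u) = _
    rw [h1]
    exact algHomAdjoinIntegralEquiv_symm_apply_gen K hint _
  have hbij : Function.Bijective (σ.restrictScalars k) := by
    have h1 : Function.Injective σ := σ.toRingHom.injective
    exact ⟨h1, (LinearMap.injective_iff_surjective (f := σ.toLinearMap)).1 h1⟩
  exact ⟨AlgEquiv.ofBijective (σ.restrictScalars k) hbij, hσ⟩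

/-- finiteness for a subfield -/
theorem fd_sub {k N : Type} [Field k] [Field N] [Algebra k N] (E : IntermediateField k N) (w : N)
    (hw : w ∈ E) (hfin : FiniteDimensional (adjoin k {w}) N) :
    FiniteDimensional (adjoin k {(⟨w, hw⟩ : E)}) E := by
  have hle : adjoin k {w} ≤ E := by
    rw [adjoin_simple_le_iff]
    exact hw
  have hmap : (adjoin k {(⟨w, hw⟩ : E)}).map E.val = adjoin k {w} := by
    rw [adjoin_map, Set.image_singleton]
    rfl
  let e₁ : adjoin k {w} ≃+* adjoin k {(⟨w, hw⟩ : E)} :=
    (((equivMap (adjoin k {(⟨w, hw⟩ : E)}) E.val).trans (equivOfEq hmap)).symm).toRingEquiv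
  let e₂ : extendScalars hle ≃+* E := RingEquiv.refl _
  have h1 : FiniteDimensional (adjoin k {w}) (extendScalars hle) := inferInstance
  refine Module.Finite.of_equiv_equiv e₁ e₂ ?_
  refine RingHom.ext fun x => ?_
  apply Subtype.ext
  have h2 : ∀ y : adjoin k {(⟨w, hw⟩ : E)}, ((e₁.symm y : adjoin k {w}) : N) = ((y : E) : N) := by
    intro y
    rfl
  have h3 := h2 (e₁ x)
  rw [RingEquiv.symm_apply_apply] at h3
  exact h3.symm

theorem fd_step {k N : Type} [Field k] [Field N] [Algebra k N] (w : N) (p : ℕ) (hp : p ≠ 0) (c : k)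
    (hfin : FiniteDimensional (adjoin k {w}) N) :
    FiniteDimensional (adjoin k {w ^ p + algebraMap k N c}) N := by
  have hle : adjoin k {w ^ p + algebraMap k N c} ≤ adjoin k {w} := by
    rw [adjoin_simple_le_iff]
    exact add_mem (pow_mem (mem_adjoin_simple_self k w) p) (IntermediateField.algebraMap_mem _ c)
  have hx : extendScalars hle = adjoin (adjoin k {w ^ p + algebraMap k N c}) {w} :=
    extendScalars_adjoin hle
  have hint : IsIntegral (adjoin k {w ^ p + algebraMap k N c}) w := by
    let b : adjoin k {w ^ p + algebraMap k N c} :=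
      ⟨w ^ p + algebraMap k N c, mem_adjoin_simple_self k _⟩ -
        algebraMap k (adjoin k {w ^ p + algebraMap k N c}) c
    refine ⟨X ^ p - C b, monic_X_pow_sub_C b hp, ?_⟩
    rw [eval₂_sub, eval₂_pow, eval₂_X, eval₂_C]
    show w ^ p - ((w ^ p + algebraMap k N c) - algebraMap k N c) = 0
    ring
  have h1 : FiniteDimensional (adjoin k {w ^ p + algebraMap k N c}) (extendScalars hle) := by
    rw [hx]
    exact adjoin.finiteDimensional hint
  have h2 : FiniteDimensional (extendScalars hle) N := by
    let e₁ : adjoin k {w} ≃+* extendScalars hle := RingEquiv.refl _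
    exact Module.Finite.of_equiv_equiv e₁ (RingEquiv.refl N) rfl
  exact Module.Finite.trans (extendScalars hle) N

/-- there is a derivation `d / du` -/
theorem exists_der {k L : Type} [Field k] [CharZero k] [Field L] [Algebra k L] (u : L)
    (hu : Transcendental k u) (hfin : FiniteDimensional (adjoin k {u}) L) :
    ∃ D : Derivation k L L, D u = 1 := by
  have h1 : AlgebraicIndependent k (fun _ : Unit => u) :=
    algebraicIndependent_unique_type_iff.2 hu
  obtain ⟨D, hD⟩ := LE.ext_exists h1 (alg_range u hfin) (fun _ => (1 : L))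
  exact ⟨D, hD ()⟩

theorem rt_iso_le {k L L' : Type} [Field k] [CharZero k] [Field L] [Algebra k L] [Field L']
    [Algebra k L'] (e : L ≃ₐ[k] L') (u : L) (u' : L') (he : e u = u') (D : Derivation k L L)
    (D' : Derivation k L' L') (h1 : D u = 1) (h1' : D' u' = 1)
    (hfin : FiniteDimensional (adjoin k {u}) L) : Rt u' D' ⊆ Rt u D := by
  intro a ha h hh
  refine ha h fun g hg => ?_
  have hrel : ∀ z : L, D' (e z) = e (D z) := by
    intro z
    rw [← sub_eq_zero]
    refine LE.ext_zero (C := k) (x := fun _ : Unit => u) (alg_range u hfin)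
      ((e : L →ₐ[k] L') : L →+* L') (fun z => D' (e z) - e (D z)) (fun x y => ?_) (fun x y => ?_)
      (fun r => ?_) (fun _ => ?_) z
    · simp only [map_add]
      ring
    · show D' (e (x * y)) - _ = e x * _ + e y * _
      rw [map_mul, Derivation.leibniz, Derivation.leibniz, map_add, smul_eq_mul, smul_eq_mul,
        smul_eq_mul, smul_eq_mul, map_mul, map_mul]
      ring
    · show D' (e (algebraMap k L r)) - _ = 0
      rw [AlgEquiv.commutes, Derivation.map_algebraMap, Derivation.map_algebraMap, map_zero,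
        sub_zero]
    · show D' (e u) - e (D u) = 0
      rw [he, h1', h1, map_one, sub_self]
  have hg1 : Itg k u (e.symm g) := by
    rw [← itg_map_iff (e : L →ₐ[k] L')]
    show Itg k (e u) (e (e.symm g))
    rw [he, AlgEquiv.apply_symm_apply]
    exact hg
  have h2 := hh _ hg1
  rw [← itg_map_iff (e : L →ₐ[k] L')] at h2
  have h3 : Itg k (e u) (e (aeval u h * D (e.symm g))) := h2
  rw [map_mul, ← hrel, AlgEquiv.apply_symm_apply, he] at h3
  have e1 : e (aeval u h) = aeval u' h := by
    rw [← he]
    exact (aeval_algHom_apply (e : L →ₐ[k] L') u h).symm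
  rwa [e1] at h3

end Pool.DynLehmer.UN

/-!
# The tower of Kummer extensions is rational
-/

namespace Pool.DynLehmer.UN
open Polynomial IntermediateField

theorem transc_step {k N : Type} [Field k] [Field N] [Algebra k N] (w : N) (p : ℕ) (hp : 0 < p)
    (c : k) (hw : Transcendental k w) : Transcendental k (w ^ p + algebraMap k N c) := by
  rw [transcendental_iff] at hw ⊢
  intro P hP
  have h1 : aeval w (P.comp (X ^ p + C c)) = 0 := by
    rw [aeval_comp, map_add, map_pow, aeval_X, aeval_C]
    exact hP
  have h2 := hw _ h1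
  rcases comp_eq_zero_iff.1 h2 with h | ⟨_, h⟩
  · exact h
  · exfalso
    have h3 := congrArg natDegree h
    rw [natDegree_X_pow_add_C, natDegree_C] at h3
    omega

theorem tower (h3 : P3Statement) : TowerStatement := by
  classical
  intro k N _ _ _ _ _ p c M φ E u hp hc h2 hM htr hfin hE0 hu hE hmem' hnot hper hperu
  have hcz : CharZero N := charZero_of_injective_algebraMap (algebraMap k N).injective
  obtain ⟨ζ, hζ⟩ : ∃ ζ : k, IsPrimitiveRoot ζ p := by
    have hnz : NeZero ((p : ℕ) : k) := ⟨Nat.cast_ne_zero.2 hp.ne_zero⟩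
    exact HasEnoughRootsOfUnity.exists_primitiveRoot k p
  have hmem : ∀ j, u j ∈ E j := by
    intro j
    cases j with
    | zero => rw [hE0]; trivial
    | succ n => exact hmem' n
  have hle : ∀ j, E (j + 1) ≤ E j := by
    intro j
    rw [hE j]
    exact le_sup_left
  have htrN : ∀ j, Transcendental k (u j) := by
    intro j
    induction j with
    | zero => exact htr
    | succ n ih => rw [hu n]; exact transc_step _ p hp.pos c ih
  have hfinN : ∀ j, FiniteDimensional (adjoin k {u j}) N := by
    intro j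
    induction j with
    | zero => exact hfin
    | succ n ih => rw [hu n]; exact fd_step _ p hp.ne_zero c ih
  let U : ∀ j, E j := fun j => ⟨u j, hmem j⟩
  have htrU : ∀ j, Transcendental k (U j) := by
    intro j h
    exact htrN j (h.algHom (E j).val)
  have hfinU : ∀ j, FiniteDimensional (adjoin k {U j}) (E j) :=
    fun j => fd_sub (E j) (u j) (hmem j) (hfinN j)
  have hder : ∀ j, ∃ D : Derivation k (E j) (E j), D (U j) = 1 :=
    fun j => exists_der (U j) (htrU j) (hfinU j)
  choose D hD using hder
  have hRfin : ∀ j, (Rt (U j) (D j)).Finite := fun j =>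
    rt_finite (U j) (D j) (htrU j) (hfinU j) (hD j)
  -- the automorphisms
  have hsc : ∀ j, ∀ a ∈ Rt (U j) (D j), ζ * a ∈ Rt (U j) (D j) := by
    intro j
    let i : E (j + 1) →ₐ[k] E j := inclusion (hle j)
    let _ : Algebra (E (j + 1)) (E j) := i.toRingHom.toAlgebra
    have hst : IsScalarTower k (E (j + 1)) (E j) := IsScalarTower.of_algebraMap_eq fun x => rfl
    have htop : adjoin (E (j + 1)) {U j} = ⊤ := by
      rw [eq_top_iff]
      intro z _
      have hz : (z : N) ∈ E (j + 1) ⊔ adjoin k {u j} := by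
        rw [← hE j]
        exact z.2
      have hle2 : E (j + 1) ⊔ adjoin k {u j} ≤
          ((adjoin (E (j + 1)) {U j}).restrictScalars k).map (E j).val := by
        refine sup_le ?_ ?_
        · intro x hx
          refine ⟨i ⟨x, hx⟩, ?_, rfl⟩
          exact (adjoin (E (j + 1)) {U j}).algebraMap_mem ⟨x, hx⟩
        · rw [adjoin_simple_le_iff]
          exact ⟨U j, mem_adjoin_simple_self _ _, rfl⟩
      obtain ⟨w, hw, hwz⟩ := hle2 hz
      have hw' : w = z := Subtype.ext hwz
      rw [← hw']
      exact hw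
    obtain ⟨σ, hσ⟩ := kummer (k := k) (K := E (j + 1)) (L := E j) p hp ζ hζ (U j)
      (U (j + 1) - algebraMap k (E (j + 1)) c) (by
        apply Subtype.ext
        show (u j) ^ p = u (j + 1) - algebraMap k N c
        rw [hu j]
        ring) (fun b hb => hnot j (by
          have h4 : ((i b : E j) : N) = u j := congrArg Subtype.val hb
          rw [← h4]
          exact b.2)) htop
    intro a ha
    exact rt_scale (U j) (D j) (hfinU j) (hD j) σ ζ (hζ.ne_zero hp.ne_zero) hσ a ha
  have hR : ∀ j, (hRfin j).toFinset = ∅ := by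
    refine comb p hp c hc h2 ζ hζ M hM (fun j => (hRfin j).toFinset) (fun j => ?_) (fun j a ha => ?_)
      (fun j b hb hbc a hab => ?_)
    · -- periodicity
      let e : E j ≃ₐ[k] E (j + M) := (equivMap (E j) φ).trans (equivOfEq (hper j).symm)
      have he : e (U j) = U (j + M) := by
        apply Subtype.ext
        show φ (u j) = u (j + M)
        rw [hperu]
      have h4 := rt_iso_le e (U j) (U (j + M)) he (D j) (D (j + M)) (hD j) (hD (j + M)) (hfinU j)
      have h5 := rt_iso_le e.symm (U (j + M)) (U j) (by rw [AlgEquiv.symm_apply_eq, he])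
        (D (j + M)) (D j) (hD (j + M)) (hD j) (hfinU (j + M))
      ext a
      rw [Set.Finite.mem_toFinset, Set.Finite.mem_toFinset]
      exact ⟨fun h => h4 h, fun h => h5 h⟩
    · rw [Set.Finite.mem_toFinset] at ha ⊢
      exact hsc j a ha
    · rw [Set.Finite.mem_toFinset] at hb ⊢
      refine rt_step (inclusion (hle j)) (U j) (D j) (U (j + 1)) (D (j + 1)) (hfinU (j + 1)) (hD j)
        (hD (j + 1)) p hp.ne_zero c ?_ ζ hζ (hsc j) b hbc hb a hab
      apply Subtype.ext
      exact hu j
  intro j
  have h4 : Rt (U j) (D j) = ∅ := by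
    have h5 := hR j
    rwa [Set.Finite.toFinset_eq_empty] at h5
  have h5 := h3 k (E j) (U j) (D j) (htrU j) (hfinU j) (hD j)
    (fun g hg => pres_of_rt (U j) (D j) h4 g hg)
  have h6 := congrArg (fun K : IntermediateField k (E j) => K.map (E j).val) h5
  simp only [adjoin_map, Set.image_singleton] at h6
  have h7 : (⊤ : IntermediateField k (E j)).map (E j).val = E j := by
    rw [← AlgHom.fieldRange_eq_map, fieldRange_val]
  rw [h7] at h6
  exact h6.symm

end Pool.DynLehmer.UN

/-!
# The tower of Kummer extensions of any degree is rational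
-/

namespace Pool.DynLehmer.UN
open Polynomial IntermediateField

/-- the automorphism `u ↦ ζ u` of `K(u)`, `u ^ p` in `K`, `u` of degree `p` -/
theorem kummerq {k K L : Type} [Field k] [Field K] [Field L] [Algebra k K] [Algebra k L]
    [Algebra K L] [IsScalarTower k K L] (p : ℕ) (hp : p ≠ 0) (ζ : k)
    (hζ : IsPrimitiveRoot ζ p) (u : L) (a : K) (ha : u ^ p = algebraMap K L a)
    (hu : (minpoly K u).natDegree = p) (htop : adjoin K {u} = ⊤) :
    ∃ σ : L ≃ₐ[k] L, σ u = algebraMap k L ζ * u := by
  have hmon : (X ^ p - C a : K[X]).Monic := monic_X_pow_sub_C a hp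
  have hroot : aeval u (X ^ p - C a : K[X]) = 0 := by
    rw [map_sub, map_pow, aeval_X, aeval_C, ha, sub_self]
  have hint : IsIntegral K u := ⟨_, hmon, hroot⟩
  have hmin : minpoly K u = X ^ p - C a := by
    refine (eq_of_monic_of_dvd_of_natDegree_le (minpoly.monic hint) hmon
      (minpoly.dvd K u hroot) ?_).symm
    rw [hu, natDegree_X_pow_sub_C]
  have hv : algebraMap k L ζ * u ∈ (minpoly K u).aroots L := by
    rw [hmin, mem_aroots]
    refine ⟨hmon.ne_zero, ?_⟩
    rw [map_sub, map_pow, aeval_X, aeval_C, mul_pow, ← map_pow, hζ.pow_eq_one, map_one, one_mul, ha,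
      sub_self]
  let τ : K⟮u⟯ →ₐ[K] L := (algHomAdjoinIntegralEquiv K hint).symm ⟨_, hv⟩
  let e : K⟮u⟯ ≃ₐ[K] L := (IntermediateField.equivOfEq htop).trans IntermediateField.topEquiv
  have heu : e (AdjoinSimple.gen K u) = u := rfl
  have hfd : FiniteDimensional K L := by
    have h1 : FiniteDimensional K K⟮u⟯ := adjoin.finiteDimensional hint
    exact LinearEquiv.finiteDimensional e.toLinearEquiv
  let σ : L →ₐ[K] L := τ.comp (e.symm : L →ₐ[K] K⟮u⟯)
  have hσ : σ u = algebraMap k L ζ * u := by
    have h1 : e.symm u = AdjoinSimple.gen K u := by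
      rw [AlgEquiv.symm_apply_eq, heu]
    show τ (e.symm u) = _
    rw [h1]
    exact algHomAdjoinIntegralEquiv_symm_apply_gen K hint _
  have hbij : Function.Bijective (σ.restrictScalars k) := by
    have h1 : Function.Injective σ := σ.toRingHom.injective
    exact ⟨h1, (LinearMap.injective_iff_surjective (f := σ.toLinearMap)).1 h1⟩
  exact ⟨AlgEquiv.ofBijective (σ.restrictScalars k) hbij, hσ⟩

theorem towerq (h3 : P3Statement) : TowerqStatement := by
  classical
  intro k N _ _ _ _ _ p c M φ E u hp hc h2 hM htr hfin hE0 hu hE hmem' hdeg hper hperu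
  have hp0 : 0 < p := by omega
  have hpne : p ≠ 0 := by omega
  have hcz : CharZero N := charZero_of_injective_algebraMap (algebraMap k N).injective
  obtain ⟨ζ, hζ⟩ : ∃ ζ : k, IsPrimitiveRoot ζ p := by
    have hnz : NeZero ((p : ℕ) : k) := ⟨Nat.cast_ne_zero.2 hpne⟩
    exact HasEnoughRootsOfUnity.exists_primitiveRoot k p
  have hmem : ∀ j, u j ∈ E j := by
    intro j
    cases j with
    | zero => rw [hE0]; trivial
    | succ n => exact hmem' n
  have hle : ∀ j, E (j + 1) ≤ E j := by
    intro j
    rw [hE j]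
    exact le_sup_left
  have htrN : ∀ j, Transcendental k (u j) := by
    intro j
    induction j with
    | zero => exact htr
    | succ n ih => rw [hu n]; exact transc_step _ p hp0 c ih
  have hfinN : ∀ j, FiniteDimensional (adjoin k {u j}) N := by
    intro j
    induction j with
    | zero => exact hfin
    | succ n ih => rw [hu n]; exact fd_step _ p hpne c ih
  let U : ∀ j, E j := fun j => ⟨u j, hmem j⟩
  have htrU : ∀ j, Transcendental k (U j) := by
    intro j h
    exact htrN j (h.algHom (E j).val)
  have hfinU : ∀ j, FiniteDimensional (adjoin k {U j}) (E j) :=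
    fun j => fd_sub (E j) (u j) (hmem j) (hfinN j)
  have hder : ∀ j, ∃ D : Derivation k (E j) (E j), D (U j) = 1 :=
    fun j => exists_der (U j) (htrU j) (hfinU j)
  choose D hD using hder
  have hRfin : ∀ j, (Rt (U j) (D j)).Finite := fun j =>
    rt_finite (U j) (D j) (htrU j) (hfinU j) (hD j)
  -- the automorphisms
  have hsc : ∀ j, ∀ a ∈ Rt (U j) (D j), ζ * a ∈ Rt (U j) (D j) := by
    intro j
    let i : E (j + 1) →ₐ[k] E j := inclusion (hle j)
    let _ : Algebra (E (j + 1)) (E j) := i.toRingHom.toAlgebra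
    have hst : IsScalarTower k (E (j + 1)) (E j) := IsScalarTower.of_algebraMap_eq fun x => rfl
    have htop : adjoin (E (j + 1)) {U j} = ⊤ := by
      rw [eq_top_iff]
      intro z _
      have hz : (z : N) ∈ E (j + 1) ⊔ adjoin k {u j} := by
        rw [← hE j]
        exact z.2
      have hle2 : E (j + 1) ⊔ adjoin k {u j} ≤
          ((adjoin (E (j + 1)) {U j}).restrictScalars k).map (E j).val := by
        refine sup_le ?_ ?_
        · intro x hx
          refine ⟨i ⟨x, hx⟩, ?_, rfl⟩
          exact (adjoin (E (j + 1)) {U j}).algebraMap_mem ⟨x, hx⟩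
        · rw [adjoin_simple_le_iff]
          exact ⟨U j, mem_adjoin_simple_self _ _, rfl⟩
      obtain ⟨w, hw, hwz⟩ := hle2 hz
      have hw' : w = z := Subtype.ext hwz
      rw [← hw']
      exact hw
    obtain ⟨σ, hσ⟩ := kummerq (k := k) (K := E (j + 1)) (L := E j) p hpne ζ hζ (U j)
      (U (j + 1) - algebraMap k (E (j + 1)) c) (by
        apply Subtype.ext
        show (u j) ^ p = u (j + 1) - algebraMap k N c
        rw [hu j]
        ring) (by
          have h4 : minpoly (E (j + 1)) (u j) = minpoly (E (j + 1)) (U j) := by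
            have hst2 : IsScalarTower (E (j + 1)) (E j) N :=
              IsScalarTower.of_algebraMap_eq fun x => rfl
            exact minpoly.algebraMap_eq (algebraMap (E j) N).injective (U j)
          rw [← h4]
          exact hdeg j) htop
    intro a ha
    exact rt_scale (U j) (D j) (hfinU j) (hD j) σ ζ (hζ.ne_zero hpne) hσ a ha
  have hR : ∀ j, (hRfin j).toFinset = ∅ := by
    refine combq p hp c hc h2 ζ hζ M hM (fun j => (hRfin j).toFinset) (fun j => ?_) (fun j a ha => ?_)
      (fun j b hb hbc a hab => ?_)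
    · -- periodicity
      let e : E j ≃ₐ[k] E (j + M) := (equivMap (E j) φ).trans (equivOfEq (hper j).symm)
      have he : e (U j) = U (j + M) := by
        apply Subtype.ext
        show φ (u j) = u (j + M)
        rw [hperu]
      have h4 := rt_iso_le e (U j) (U (j + M)) he (D j) (D (j + M)) (hD j) (hD (j + M)) (hfinU j)
      have h5 := rt_iso_le e.symm (U (j + M)) (U j) (by rw [AlgEquiv.symm_apply_eq, he])
        (D (j + M)) (D j) (hD (j + M)) (hD j) (hfinU (j + M))
      ext a
      rw [Set.Finite.mem_toFinset, Set.Finite.mem_toFinset]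
      exact ⟨fun h => h4 h, fun h => h5 h⟩
    · rw [Set.Finite.mem_toFinset] at ha ⊢
      exact hsc j a ha
    · rw [Set.Finite.mem_toFinset] at hb ⊢
      refine rt_step (inclusion (hle j)) (U j) (D j) (U (j + 1)) (D (j + 1)) (hfinU (j + 1)) (hD j)
        (hD (j + 1)) p hpne c ?_ ζ hζ (hsc j) b hbc hb a hab
      apply Subtype.ext
      exact hu j
  intro j
  have h4 : Rt (U j) (D j) = ∅ := by
    have h5 := hR j
    rwa [Set.Finite.toFinset_eq_empty] at h5
  have h5 := h3 k (E j) (U j) (D j) (htrU j) (hfinU j) (hD j)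
    (fun g hg => pres_of_rt (U j) (D j) h4 g hg)
  have h6 := congrArg (fun K : IntermediateField k (E j) => K.map (E j).val) h5
  simp only [adjoin_map, Set.image_singleton] at h6
  have h7 : (⊤ : IntermediateField k (E j)).map (E j).val = E j := by
    rw [← AlgHom.fieldRange_eq_map, fieldRange_val]
  rw [h7] at h6
  exact h6.symm

end Pool.DynLehmer.UN
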