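import Mathlib
import Pool.Agent.Lib.MP_2194ec_nt.UN.Props
import Pool.Agent.Lib.MP_2194ec_nt.UN.Tower

set_option autoImplicit false

/-!
# Periodic pairs of `z ^ p + c`: relations
-/

namespace Pool.DynLehmer.UN
open Polynomial IntermediateField
namespace Pb

section rel
variable {k N : Type} [Field k] [Field N] [Algebra k N]

/-- evaluation of a polynomial in two variables -/
noncomputable def ev (k : Type) {N : Type} [Field k] [Field N] [Algebra k N] (x y : N) :
    k[X][X] →+* N :=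
  eval₂RingHom ((aeval x : k[X] →ₐ[k] N) : k[X] →+* N) y

theorem ev_C (x y : N) (g : k[X]) : ev k x y (C g) = aeval x g := by
  unfold ev
  rw [coe_eval₂RingHom, eval₂_C]
  rfl

theorem ev_X (x y : N) : ev k x y X = y := by
  unfold ev
  rw [coe_eval₂RingHom, eval₂_X]

/-- all relations between `x` and `y` hold for `x'` and `y'` -/
def RelE (k : Type) {N : Type} [Field k] [Field N] [Algebra k N] (x y x' y' : N) : Prop :=
  ∀ G : k[X][X], ev k x y G = 0 → ev k x' y' G = 0

theorem relE_trans {x y x' y' x'' y'' : N} (h1 : RelE k x y x' y') (h2 : RelE k x' y' x'' y'') :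
    RelE k x y x'' y'' := fun G hG => h2 G (h1 G hG)

theorem relE_of_mv {x y x' y' : N}
    (h : ∀ G : MvPolynomial (Fin 2) k, MvPolynomial.aeval ![x, y] G = 0 →
      MvPolynomial.aeval ![x', y'] G = 0) : RelE k x y x' y' := by
  intro G hG
  let Θ : k[X][X] →+* MvPolynomial (Fin 2) k :=
    eval₂RingHom ((aeval (MvPolynomial.X 0 : MvPolynomial (Fin 2) k) :
      k[X] →ₐ[k] MvPolynomial (Fin 2) k) : k[X] →+* MvPolynomial (Fin 2) k) (MvPolynomial.X 1)
  have key : ∀ u v : N, ((MvPolynomial.aeval ![u, v] : MvPolynomial (Fin 2) k →ₐ[k] N) :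
      MvPolynomial (Fin 2) k →+* N).comp Θ = ev k u v := by
    intro u v
    refine Polynomial.ringHom_ext' (Polynomial.ringHom_ext (fun a => ?_) ?_) ?_
    · show MvPolynomial.aeval ![u, v] (Θ (C (C a))) = ev k u v (C (C a))
      rw [ev_C, aeval_C]
      show MvPolynomial.aeval ![u, v] (eval₂ _ _ (C (C a))) = _
      rw [eval₂_C]
      show MvPolynomial.aeval ![u, v] (aeval (MvPolynomial.X 0 : MvPolynomial (Fin 2) k) (C a)) = _
      rw [aeval_C, AlgHom.commutes]
    · show MvPolynomial.aeval ![u, v] (Θ (C X)) = ev k u v (C X)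
      rw [ev_C, aeval_X]
      show MvPolynomial.aeval ![u, v] (eval₂ _ _ (C X)) = _
      rw [eval₂_C]
      show MvPolynomial.aeval ![u, v] (aeval (MvPolynomial.X 0 : MvPolynomial (Fin 2) k) X) = _
      rw [aeval_X, MvPolynomial.aeval_X]
      rfl
    · show MvPolynomial.aeval ![u, v] (Θ X) = ev k u v X
      rw [ev_X]
      show MvPolynomial.aeval ![u, v] (eval₂ _ _ X) = _
      rw [eval₂_X, MvPolynomial.aeval_X]
      rfl
  have h1 : MvPolynomial.aeval ![x, y] (Θ G) = 0 := by
    have := congrArg (fun φ : k[X][X] →+* N => φ G) (key x y)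
    exact this.trans hG
  have h2 := h (Θ G) h1
  have := congrArg (fun φ : k[X][X] →+* N => φ G) (key x' y')
  exact this.symm.trans h2

theorem relE_shift {x y x' y' : N} (h : RelE k x y x' y') (a b : k[X]) :
    RelE k (aeval x a) (aeval y b) (aeval x' a) (aeval y' b) := by
  intro G hG
  let Θ : k[X][X] →+* k[X][X] :=
    eval₂RingHom ((C : k[X] →+* k[X][X]).comp (compRingHom a)) (b.map C)
  have key : ∀ u v : N, (ev k u v).comp Θ = ev k (aeval u a) (aeval v b) := by
    intro u v
    refine Polynomial.ringHom_ext' (Polynomial.ringHom_ext (fun t => ?_) ?_) ?_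
    · show ev k u v (Θ (C (C t))) = ev k (aeval u a) (aeval v b) (C (C t))
      rw [ev_C, aeval_C]
      show ev k u v (eval₂ _ _ (C (C t))) = _
      rw [eval₂_C]
      show ev k u v (C ((C t).comp a)) = _
      rw [ev_C, C_comp, aeval_C]
    · show ev k u v (Θ (C X)) = ev k (aeval u a) (aeval v b) (C X)
      rw [ev_C, aeval_X]
      show ev k u v (eval₂ _ _ (C X)) = _
      rw [eval₂_C]
      show ev k u v (C (X.comp a)) = _
      rw [ev_C, X_comp]
    · show ev k u v (Θ X) = ev k (aeval u a) (aeval v b) X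
      rw [ev_X]
      show ev k u v (eval₂ _ _ X) = _
      rw [eval₂_X]
      show eval₂ ((aeval u : k[X] →ₐ[k] N) : k[X] →+* N) v (b.map C) = _
      rw [eval₂_map, aeval_def]
      congr 1
      ext t
      show aeval u (C t) = _
      rw [aeval_C]
  have h1 : ev k x y (Θ G) = 0 := by
    have := congrArg (fun φ : k[X][X] →+* N => φ G) (key x y)
    exact this.trans hG
  have h2 := h (Θ G) h1
  have := congrArg (fun φ : k[X][X] →+* N => φ G) (key x' y')
  exact this.symm.trans h2

end rel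

section map
variable {k N : Type} [Field k] [Field N] [Algebra k N]

/-- the map `z ^ p + c` -/
def fn (p : ℕ) {k : Type} [Field k] (c : k) {N : Type} [Field N] [Algebra k N] (z : N) : N :=
  z ^ p + algebraMap k N c

/-- the iterates as polynomials -/
noncomputable def It (p : ℕ) {k : Type} [Field k] (c : k) (n : ℕ) : k[X] :=
  (fun g : k[X] => g ^ p + C c)^[n] X

theorem aeval_F (p : ℕ) (c : k) (x : N) (g : k[X]) (n : ℕ) :
    aeval x ((fun g : k[X] => g ^ p + C c)^[n] g) = (fn p c)^[n] (aeval x g) := by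
  induction n with
  | zero => rfl
  | succ n ih =>
    rw [Function.iterate_succ_apply', Function.iterate_succ_apply', map_add, map_pow, ih, aeval_C]
    rfl

theorem aeval_It (p : ℕ) (c : k) (x : N) (n : ℕ) : aeval x (It p c n) = (fn p c)^[n] x := by
  unfold It
  rw [aeval_F, aeval_X]

theorem relE_ij {p : ℕ} {c : k} {M : ℕ} {x y : N}
    (h : RelE k x y ((fn p c)^[M] x) ((fn p c)^[M] y)) (i j : ℕ) :
    RelE k ((fn p c)^[i] x) ((fn p c)^[j] y) ((fn p c)^[M] ((fn p c)^[i] x))
      ((fn p c)^[M] ((fn p c)^[j] y)) := by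
  have h1 := relE_shift h (It p c i) (It p c j)
  rw [aeval_It, aeval_It, aeval_It, aeval_It] at h1
  rw [← Function.iterate_add_apply, ← Function.iterate_add_apply] at h1 ⊢
  rw [add_comm M i, add_comm M j]
  exact h1

theorem relE_mul {p : ℕ} {c : k} {M : ℕ} {x y : N}
    (h : RelE k x y ((fn p c)^[M] x) ((fn p c)^[M] y)) (n : ℕ) :
    RelE k x y ((fn p c)^[n * M] x) ((fn p c)^[n * M] y) := by
  induction n with
  | zero =>
    rw [Nat.zero_mul]
    exact fun G hG => hG
  | succ n ih =>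
    have h1 := relE_trans ih (relE_ij h (n * M) (n * M))
    rw [← Function.iterate_add_apply, ← Function.iterate_add_apply] at h1
    rw [Nat.succ_mul, add_comm (n * M) M]
    exact h1

theorem ev_diag (t : N) (P : k[X][X]) : ev k t t P = aeval t (P.eval X) := by
  have : ev k t t = ((aeval t : k[X] →ₐ[k] N) : k[X] →+* N).comp (evalRingHom (X : k[X])) := by
    refine Polynomial.ringHom_ext' (Polynomial.ringHom_ext (fun a => ?_) ?_) ?_
    · show ev k t t (C (C a)) = aeval t (eval X (C (C a)))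
      rw [ev_C, eval_C]
    · show ev k t t (C X) = aeval t (eval X (C X))
      rw [ev_C, eval_C]
    · show ev k t t X = aeval t (eval X X)
      rw [ev_X, eval_X, aeval_X]
  rw [this]
  rfl

/-- `f ^ M` acts injectively -/
theorem inj {p : ℕ} {c : k} {M : ℕ} (hM : 1 ≤ M) {x z : N}
    (h : RelE k x z ((fn p c)^[M] x) ((fn p c)^[M] z)) {i : ℕ}
    (hi : (fn p c)^[i] x = (fn p c)^[i] z) (htr : ∀ n, Transcendental k ((fn p c)^[n] x)) :
    z = x := by
  -- the kernel
  let I : Ideal k[X][X] := RingHom.ker (ev k x z)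
  have hI : I.IsPrime := RingHom.ker_isPrime _
  have hne : I ≠ ⊥ := by
    intro h0
    have h1 : (It p c i).map C - C (It p c i) ∈ I := by
      show ev k x z _ = 0
      rw [map_sub, ev_C, aeval_It]
      have h2 : ev k x z ((It p c i).map C) = (fn p c)^[i] z := by
        rw [← aeval_It]
        show eval₂ ((aeval x : k[X] →ₐ[k] N) : k[X] →+* N) z (map C _) = _
        rw [eval₂_map, aeval_def]
        congr 1
        ext t
        show aeval x (C t) = _
        rw [aeval_C]
      rw [h2, hi, sub_self]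
    rw [h0, Ideal.mem_bot, sub_eq_zero] at h1
    -- then `z` would be arbitrary: the coefficient of the leading term
    have h3 : (It p c i) = 0 ∨ (It p c i).natDegree = 0 := by
      right
      have h4 := congrArg natDegree h1
      rwa [natDegree_C, natDegree_map_eq_of_injective C_injective] at h4
    have h5 : IsAlgebraic k ((fn p c)^[i] x) := by
      rcases h3 with h3 | h3
      · rw [← aeval_It, h3, map_zero]
        exact isAlgebraic_zero
      · rw [natDegree_eq_zero] at h3
        obtain ⟨a, ha⟩ := h3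
        rw [← aeval_It, ← ha, aeval_C]
        exact isAlgebraic_algebraMap a
    exact htr i h5
  obtain ⟨P, hPI, hP⟩ := hI.exists_mem_prime_of_ne_bot hne
  have hP0 : ev k x z P = 0 := hPI
  have h1 : ev k ((fn p c)^[i * M] x) ((fn p c)^[i * M] x) P = 0 := by
    have h2 := relE_mul h i P hP0
    have h3 : (fn p c)^[i * M] z = (fn p c)^[i * M] x := by
      have h4 : i * M = (i * M - i) + i := by
        have : i ≤ i * M := Nat.le_mul_of_pos_right _ hM
        omega
      rw [h4, Function.iterate_add_apply, Function.iterate_add_apply, hi]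
    rwa [h3] at h2
  rw [ev_diag] at h1
  have h2 : P.eval X = 0 := by
    by_contra h3
    exact htr (i * M) ⟨_, h3, h1⟩
  have h3 : (X - C X : k[X][X]) ∣ P := dvd_iff_isRoot.2 h2
  have h4 : Irreducible P := hP.irreducible
  obtain ⟨Q, hQ⟩ := h3
  have h5 : IsUnit Q := by
    rcases h4.isUnit_or_isUnit hQ with h6 | h6
    · exfalso
      have h7 := natDegree_eq_zero_of_isUnit h6
      rw [natDegree_X_sub_C] at h7
      exact one_ne_zero h7
    · exact h6
  have h6 : ev k x z (X - C X) * ev k x z Q = 0 := by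
    rw [← map_mul, ← hQ, hP0]
  have h7 : ev k x z Q ≠ 0 := (h5.map (ev k x z)).ne_zero
  have h8 := (mul_eq_zero.1 h6).resolve_right h7
  rw [map_sub, ev_X, ev_C, aeval_X, sub_eq_zero] at h8
  exact h8

end map

end Pb
end Pool.DynLehmer.UN

/-!
# Periodic pairs of `z ^ p + c`: rational implies polynomial
-/

namespace Pool.DynLehmer.UN
open Polynomial IntermediateField
namespace Pb

section tr
variable {k N : Type} [Field k] [Field N] [Algebra k N]

theorem trans_fn {p : ℕ} (hp : 0 < p) {c : k} {x : N} (hx : Transcendental k x) :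
    Transcendental k (fn p c x) := by
  intro h
  apply hx
  have h1 : IsAlgebraic k (x ^ p) := by
    have h2 := h.sub (isAlgebraic_algebraMap (A := N) c)
    have h3 : fn p c x - algebraMap k N c = x ^ p := by
      unfold fn
      ring
    rwa [h3] at h2
  exact h1.of_pow hp

theorem trans_iter {p : ℕ} (hp : 0 < p) {c : k} {x : N} (hx : Transcendental k x) (n : ℕ) :
    Transcendental k ((fn p c)^[n] x) := by
  induction n with
  | zero => exact hx
  | succ n ih =>
    rw [Function.iterate_succ_apply']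
    exact trans_fn hp ih

theorem aeval_inj {x : N} (hx : Transcendental k x) {g h : k[X]} (e : aeval x g = aeval x h) :
    g = h := by
  by_contra hne
  exact hx ⟨g - h, sub_ne_zero.2 hne, by rw [map_sub, e, sub_self]⟩

theorem natDegree_F (p : ℕ) (c : k) (g : k[X]) : (g ^ p + C c).natDegree = p * g.natDegree := by
  rw [natDegree_add_C, natDegree_pow]

theorem natDegree_iterF (p : ℕ) (c : k) (g : k[X]) (n : ℕ) :
    ((fun g : k[X] => g ^ p + C c)^[n] g).natDegree = p ^ n * g.natDegree := by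
  induction n with
  | zero => rw [pow_zero, one_mul]; rfl
  | succ n ih =>
    rw [Function.iterate_succ_apply', natDegree_F, ih, pow_succ]
    ring

theorem natDegree_It (p : ℕ) (c : k) (n : ℕ) : (It p c n).natDegree = p ^ n := by
  unfold It
  rw [natDegree_iterF, natDegree_X, mul_one]

theorem eval_It (p : ℕ) (c : k) (n : ℕ) (t : k) : (It p c n).eval t = (fn p c)^[n] t := by
  rw [← aeval_It, coe_aeval_eq_eval]

end tr

section fin
variable {k : Type} [Field k] [IsAlgClosed k] [CharZero k]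

theorem fn_surj {p : ℕ} (hp : 0 < p) (c : k) : Function.Surjective (fn p c : k → k) := by
  intro s
  obtain ⟨t, ht⟩ := IsAlgClosed.exists_pow_nat_eq (s - c) hp
  refine ⟨t, ?_⟩
  show t ^ p + algebraMap k k c = s
  rw [ht]
  show s - c + c = s
  ring

theorem fn_zeta {p : ℕ} {c ζ : k} (hζ : ζ ^ p = 1) (t : k) : fn p c (ζ * t) = fn p c t := by
  unfold fn
  rw [mul_pow, hζ, one_mul]

theorem exists_zeta {p : ℕ} (hp : p.Prime) : ∃ ζ : k, IsPrimitiveRoot ζ p := by
  have : NeZero (p : k) := ⟨Nat.cast_ne_zero.2 hp.ne_zero⟩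
  exact HasEnoughRootsOfUnity.exists_primitiveRoot k p

theorem finS {p : ℕ} (hp : p.Prime) {c : k} (hc : c ≠ 0) {M : ℕ} (hM : 1 ≤ M) {S : Set k}
    (hfin : S.Finite) (h : ∀ t, t ∈ S ↔ (fn p c)^[M] t ∈ S) : S = ∅ := by
  by_contra hne
  obtain ⟨s, hs⟩ := Set.nonempty_iff_ne_empty.2 hne
  have : Finite S := hfin
  obtain ⟨ζ, hζ⟩ := exists_zeta (k := k) hp
  have hζp : ζ ^ p = 1 := hζ.pow_eq_one
  have hζ1 : ζ ≠ 1 := hζ.ne_one hp.one_lt
  let g : S → S := fun t => ⟨(fn p c)^[M] t, (h t).1 t.2⟩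
  have hsur : ∀ n, Function.Surjective ((fn p c : k → k)^[n]) := fun n =>
    (fn_surj hp.pos c).iterate n
  have hgs : Function.Surjective g := by
    rintro ⟨s, hs⟩
    obtain ⟨t, ht⟩ := hsur M s
    exact ⟨⟨t, (h t).2 (by rw [ht]; exact hs)⟩, Subtype.ext ht⟩
  have hgi : Function.Injective g := Finite.injective_iff_surjective.2 hgs
  obtain ⟨M', rfl⟩ : ∃ M', M = M' + 1 := ⟨M - 1, by omega⟩
  have hzero : ∀ t ∈ S, t = 0 := by
    intro t ht
    have h1 : (fn p c)^[M' + 1] (ζ * t) = (fn p c)^[M' + 1] t := by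
      rw [Function.iterate_succ_apply, Function.iterate_succ_apply, fn_zeta hζp]
    have h2 : ζ * t ∈ S := (h _).2 (by rw [h1]; exact (h t).1 ht)
    have h3 : (⟨ζ * t, h2⟩ : S) = ⟨t, ht⟩ := hgi (Subtype.ext h1)
    have h4 : ζ * t = t := congrArg Subtype.val h3
    have h5 : (ζ - 1) * t = 0 := by linear_combination h4
    rcases mul_eq_zero.1 h5 with h6 | h6
    · exact absurd (sub_eq_zero.1 h6) hζ1
    · exact h6
  have h0S : (0 : k) ∈ S := by
    have := hzero s hs
    rwa [this] at hs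
  have hw : ∀ w : k, (fn p c)^[M'] w = 0 → w = c := by
    intro w hw
    obtain ⟨t, ht⟩ := fn_surj hp.pos c w
    have h1 : t ∈ S := (h t).2 (by rw [Function.iterate_succ_apply, ht, hw]; exact h0S)
    have h2 := hzero t h1
    rw [h2] at ht
    rw [← ht]
    show (0 : k) ^ p + algebraMap k k c = c
    rw [zero_pow hp.ne_zero, zero_add]
    rfl
  cases M' with
  | zero => exact hc (hw 0 rfl).symm
  | succ M'' =>
    obtain ⟨w, hw0⟩ := hsur (M'' + 1) 0
    have h1 := hw w hw0
    have h2 := hw (ζ * w) (by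
      rw [Function.iterate_succ_apply, fn_zeta hζp, ← Function.iterate_succ_apply, hw0])
    rw [h1] at h2
    have h5 : (ζ - 1) * c = 0 := by linear_combination h2
    rcases mul_eq_zero.1 h5 with h6 | h6
    · exact absurd (sub_eq_zero.1 h6) hζ1
    · exact hc h6

variable {N : Type} [Field N] [Algebra k N]

theorem exists_coprime {x y : N} (hy : y ∈ adjoin k {x}) :
    ∃ A B : k[X], B ≠ 0 ∧ IsCoprime A B ∧ y * aeval x B = aeval x A := by
  classical
  obtain ⟨r, s, hrs⟩ := (mem_adjoin_simple_iff k y).1 hy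
  by_cases hs : aeval x s = 0
  · refine ⟨0, 1, one_ne_zero, isCoprime_one_right, ?_⟩
    rw [hrs, hs, div_zero, zero_mul, map_zero]
  · have hs0 : s ≠ 0 := by
      rintro rfl
      exact hs (map_zero _)
    obtain ⟨a, ha⟩ := EuclideanDomain.gcd_dvd_left r s
    obtain ⟨b, hb⟩ := EuclideanDomain.gcd_dvd_right r s
    have hg : EuclideanDomain.gcd r s ≠ 0 := by
      intro h0
      rw [h0, zero_mul] at hb
      exact hs0 hb
    refine ⟨a, b, ?_, ?_, ?_⟩
    · rintro rfl
      rw [mul_zero] at hb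
      exact hs0 hb
    · obtain hab := EuclideanDomain.gcd_eq_gcd_ab r s
      refine ⟨EuclideanDomain.gcdA r s, EuclideanDomain.gcdB r s, ?_⟩
      apply mul_left_cancel₀ hg
      calc _ = (EuclideanDomain.gcd r s * a) * EuclideanDomain.gcdA r s +
            (EuclideanDomain.gcd r s * b) * EuclideanDomain.gcdB r s := by ring
        _ = r * EuclideanDomain.gcdA r s + s * EuclideanDomain.gcdB r s := by rw [← ha, ← hb]
        _ = EuclideanDomain.gcd r s := hab.symm
        _ = _ := (mul_one _).symm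
    · have h1 : aeval x s = aeval x (EuclideanDomain.gcd r s) * aeval x b := by
        rw [← map_mul, ← hb]
      have h2 : aeval x r = aeval x (EuclideanDomain.gcd r s) * aeval x a := by
        rw [← map_mul, ← ha]
      have h3 : aeval x (EuclideanDomain.gcd r s) ≠ 0 := by
        intro h0
        rw [h0, zero_mul] at h1
        exact hs h1
      have h4 : aeval x b ≠ 0 := by
        intro h0
        rw [h0, mul_zero] at h1
        exact hs h1
      rw [hrs, h1, h2]
      field_simp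

theorem iter_frac {p : ℕ} (hp : 1 ≤ p) (c : k) {x y : N} {A B : k[X]} (hAB : IsCoprime A B)
    (h : y * aeval x B = aeval x A) (n : ℕ) :
    ∃ A' : k[X], IsCoprime A' B ∧ (fn p c)^[n] y * aeval x (B ^ p ^ n) = aeval x A' := by
  induction n with
  | zero =>
    refine ⟨A, hAB, ?_⟩
    rw [pow_zero, pow_one]
    exact h
  | succ n ih =>
    obtain ⟨A', hA', h'⟩ := ih
    refine ⟨A' ^ p + C c * B ^ p ^ (n + 1), ?_, ?_⟩
    · have h1 : IsCoprime (A' ^ p) B := hA'.pow_left
      have h2 : B ^ p ^ (n + 1) = B ^ (p ^ (n + 1) - 1) * B := by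
        rw [← pow_succ]
        congr 1
        have : 1 ≤ p ^ (n + 1) := Nat.one_le_pow _ _ hp
        omega
      rw [h2, ← mul_assoc]
      exact h1.add_mul_right_left _
    · rw [Function.iterate_succ_apply']
      show (((fn p c)^[n] y) ^ p + algebraMap k N c) * _ = _
      simp only [map_add, map_mul, map_pow, aeval_C] at h' ⊢
      rw [← h', mul_pow, ← pow_mul, ← pow_succ]
      ring

theorem isPoly {p : ℕ} (hp : p.Prime) {c : k} (hc : c ≠ 0) {M : ℕ} (hM : 1 ≤ M) {x y : N}
    (hx : Transcendental k x) (h : RelE k x y ((fn p c)^[M] x) ((fn p c)^[M] y))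
    (hy : y ∈ adjoin k {x}) : ∃ g : k[X], y = aeval x g := by
  classical
  obtain ⟨A, B, hB0, hAB, hyB⟩ := exists_coprime hy
  have h1 : (fn p c)^[M] y * aeval ((fn p c)^[M] x) B = aeval ((fn p c)^[M] x) A := by
    have h2 := h (X * C B - C A) (by
      rw [map_sub, map_mul, ev_X, ev_C, ev_C, hyB, sub_self])
    rw [map_sub, map_mul, ev_X, ev_C, ev_C, sub_eq_zero] at h2
    exact h2
  obtain ⟨A', hA', hyA'⟩ := iter_frac hp.one_lt.le c hAB hyB M
  have h2 : ∀ G : k[X], aeval ((fn p c)^[M] x) G = aeval x (G.comp (It p c M)) := by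
    intro G
    rw [aeval_comp, aeval_It]
  rw [h2, h2] at h1
  have h3 : B.comp (It p c M) * A' = A.comp (It p c M) * B ^ p ^ M := by
    apply aeval_inj hx
    rw [map_mul, map_mul, ← hyA', ← h1]
    ring
  have h4 : B ^ p ^ M ∣ B.comp (It p c M) := by
    have h5 : IsCoprime (B ^ p ^ M) A' := hA'.symm.pow_left
    exact h5.dvd_of_dvd_mul_right (Dvd.intro_left _ h3.symm)
  obtain ⟨R, hR⟩ := h4
  have hdeg : (B.comp (It p c M)).natDegree = B.natDegree * p ^ M := by
    rw [natDegree_comp, natDegree_It]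
  have hcomp0 : B.comp (It p c M) ≠ 0 := by
    intro h0
    rw [comp_eq_zero_iff] at h0
    rcases h0 with h0 | ⟨-, h0⟩
    · exact hB0 h0
    · have h6 := natDegree_It p c M
      rw [h0, natDegree_C] at h6
      exact (pow_pos hp.pos M).ne h6
  have hR0 : R ≠ 0 := by
    rintro rfl
    rw [mul_zero] at hR
    exact hcomp0 hR
  have hRd : R.natDegree = 0 := by
    have h6 := hdeg
    rw [hR, natDegree_mul (pow_ne_zero _ hB0) hR0, natDegree_pow] at h6
    have : p ^ M * B.natDegree = B.natDegree * p ^ M := mul_comm _ _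
    omega
  obtain ⟨u, hu⟩ := natDegree_eq_zero.1 hRd
  have hu0 : u ≠ 0 := by
    rintro rfl
    exact hR0 (by rw [← hu, C_0])
  -- the roots of `B`
  have hS := finS hp hc hM (S := {t | B.eval t = 0}) (by
    refine (B.roots.toFinset.finite_toSet).subset ?_
    intro t ht
    rw [Finset.mem_coe, Multiset.mem_toFinset, mem_roots hB0]
    exact ht) (by
    intro t
    show B.eval t = 0 ↔ B.eval ((fn p c)^[M] t) = 0
    rw [← eval_It, ← eval_comp, hR, ← hu, eval_mul, eval_pow, eval_C, mul_eq_zero,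
      or_iff_left hu0, pow_eq_zero_iff (pow_pos hp.pos M).ne'])
  have hBd : B.natDegree = 0 := by
    by_contra hBd
    obtain ⟨t, ht⟩ := IsAlgClosed.exists_root B (by
      rw [degree_eq_natDegree hB0]
      exact_mod_cast hBd)
    have : t ∈ ({t | B.eval t = 0} : Set k) := ht
    rw [hS] at this
    exact this
  obtain ⟨b, hb⟩ := natDegree_eq_zero.1 hBd
  have hb0 : b ≠ 0 := by
    rintro rfl
    exact hB0 (by rw [← hb, C_0])
  refine ⟨C b⁻¹ * A, ?_⟩
  rw [map_mul, ← hyB, ← hb, aeval_C, aeval_C, map_inv₀]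
  have : algebraMap k N b ≠ 0 := (_root_.map_ne_zero _).2 hb0
  field_simp

end fin

end Pb
end Pool.DynLehmer.UN

set_option linter.unusedSectionVars false

/-!
# Periodic pairs of `z ^ p + c`: the polynomial case
-/

namespace Pool.DynLehmer.UN
open Polynomial IntermediateField
namespace Pb

variable {k : Type} [Field k] [IsAlgClosed k] [CharZero k]

/-- a polynomial with `g (ζ T) = g T` is a polynomial in `T ^ p + c` -/
theorem of_invariant {p : ℕ} (hp : p.Prime) (c : k) {ζ : k} (hζ : IsPrimitiveRoot ζ p) {g : k[X]}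
    (h : g.comp (C ζ * X) = g) : ∃ h : k[X], g = h.comp (X ^ p + C c) := by
  have h1 : g = expand k p (contract p g) := by
    ext n
    rw [coeff_expand hp.pos]
    by_cases hn : p ∣ n
    · rw [if_pos hn, coeff_contract hp.ne_zero, Nat.div_mul_cancel hn]
    · rw [if_neg hn]
      have h2 := congrArg (fun f : k[X] => f.coeff n) h
      simp only [comp_C_mul_X_coeff] at h2
      have h3 : (ζ ^ n - 1) * g.coeff n = 0 := by linear_combination h2
      rcases mul_eq_zero.1 h3 with h4 | h4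
      · exact absurd ((hζ.pow_eq_one_iff_dvd n).1 (sub_eq_zero.1 h4)) hn
      · exact h4
  refine ⟨(contract p g).comp (X - C c), ?_⟩
  rw [comp_assoc]
  have h2 : (X - C c : k[X]).comp (X ^ p + C c) = X ^ p := by
    rw [sub_comp, X_comp, C_comp]
    ring
  rw [h2, ← expand_eq_comp_X_pow]
  exact h1

/-- `a ^ p = b ^ p` -/
theorem pow_eq {p : ℕ} (hp : p.Prime) {ζ : k} (hζ : IsPrimitiveRoot ζ p) {a b : k[X]}
    (h : a ^ p = b ^ p) : ∃ ξ : k, ξ ^ p = 1 ∧ a = C ξ * b := by
  by_cases hb : b = 0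
  · refine ⟨1, one_pow _, ?_⟩
    rw [hb, zero_pow hp.ne_zero] at h
    rw [hb, mul_zero]
    exact pow_eq_zero_iff hp.ne_zero |>.1 h
  · let Q := FractionRing k[X]
    have hinj : Function.Injective (algebraMap k[X] Q) := IsFractionRing.injective _ _
    have hb' : algebraMap k[X] Q b ≠ 0 := by
      rw [Ne, ← map_zero (algebraMap k[X] Q)]
      exact fun h0 => hb (hinj h0)
    have hζ' : IsPrimitiveRoot (algebraMap k[X] Q (C ζ)) p :=
      (hζ.map_of_injective C_injective).map_of_injective hinj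
    have h1 : (algebraMap k[X] Q a / algebraMap k[X] Q b) ^ p = 1 := by
      rw [div_pow, ← map_pow, ← map_pow, h, div_self]
      rw [map_pow]
      exact pow_ne_zero _ hb'
    have : NeZero p := ⟨hp.ne_zero⟩
    obtain ⟨i, -, hi⟩ := hζ'.eq_pow_of_pow_eq_one h1
    refine ⟨ζ ^ i, ?_, ?_⟩
    · rw [← pow_mul, mul_comm, pow_mul, hζ.pow_eq_one, one_pow]
    · apply hinj
      rw [map_mul, C_pow, map_pow, hi]
      exact (div_mul_cancel₀ _ hb').symm

theorem natDegree_eq_zero_of_dvd_C {a : k[X]} {e : k} (he : e ≠ 0) (h : a ∣ C e) :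
    a.natDegree = 0 := by
  have h1 : IsUnit (C e : k[X]) := isUnit_C.2 (IsUnit.mk0 e he)
  exact natDegree_eq_zero_of_isUnit (isUnit_of_dvd_unit h h1)

/-- no Fermat equation -/
theorem no_fermat {p : ℕ} (hp : p.Prime) {c ζ ξ : k} (hc : c ≠ 0) (hζ : IsPrimitiveRoot ζ p)
    (hξ : ξ ^ p = 1) (hξ1 : ξ ≠ 1) {a w : k[X]} (h : a ^ p + C c = C ξ * (w ^ p + C c)) :
    w.natDegree = 0 := by
  obtain ⟨η, hη⟩ := IsAlgClosed.exists_pow_nat_eq ξ hp.pos
  have hξ0 : ξ ≠ 0 := by
    rintro rfl
    rw [zero_pow hp.ne_zero] at hξ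
    exact zero_ne_one hξ
  have hη0 : η ≠ 0 := by
    rintro rfl
    rw [zero_pow hp.ne_zero] at hη
    exact hξ0 hη.symm
  have he : (ξ - 1) * c ≠ 0 := mul_ne_zero (sub_ne_zero.2 hξ1) hc
  have h1 : a ^ p - (C η * w) ^ p = C ((ξ - 1) * c) := by
    rw [mul_pow, ← C_pow, hη, C_mul, C_sub, C_1]
    linear_combination h
  have h2 : (a - C η * w) ∣ C ((ξ - 1) * c) := by
    rw [← h1]
    exact sub_dvd_pow_sub_pow _ _ _
  have h3 : (a - C (ζ * η) * w) ∣ C ((ξ - 1) * c) := by
    have h4 : (C (ζ * η) * w) ^ p = (C η * w) ^ p := by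
      rw [mul_pow, mul_pow, ← C_pow, ← C_pow, mul_pow, hζ.pow_eq_one, one_mul]
    rw [← h1, ← h4]
    exact sub_dvd_pow_sub_pow _ _ _
  have h5 := natDegree_eq_zero_of_dvd_C he h2
  have h6 := natDegree_eq_zero_of_dvd_C he h3
  have h7 : (C ((ζ - 1) * η) * w).natDegree = 0 := by
    have h8 : C ((ζ - 1) * η) * w = (a - C η * w) - (a - C (ζ * η) * w) := by
      rw [sub_mul, one_mul, C_sub]
      ring
    rw [h8]
    exact Nat.le_zero.1 ((natDegree_sub_le _ _).trans (by rw [h5, h6]; exact le_refl _))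
  rwa [natDegree_C_mul (mul_ne_zero (sub_ne_zero.2 (hζ.ne_one hp.one_lt)) hη0)] at h7

/-- A periodic sequence of polynomials which commute with `z ^ p + c` and with the rotations is
linear. -/
theorem linear {p : ℕ} (hp : p.Prime) {c : k} (hc : c ≠ 0) (h2 : ¬ (p = 2 ∧ c = -2)) {ζ : k}
    (hζ : IsPrimitiveRoot ζ p) {M : ℕ} (hM : 1 ≤ M) {d : ℕ} (hd1 : 1 ≤ d) (g : ℕ → k[X])
    (hd : ∀ a, (g a).natDegree = d)
    (hrel : ∀ a, (g (a + 1)).comp (X ^ p + C c) = g a ^ p + C c)
    (hinv : ∀ a, ∃ ξ : k, ξ ^ p = 1 ∧ ξ ≠ 1 ∧ (g a).comp (C ζ * X) = C ξ * g a)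
    (hper : ∀ a, g (a + M) = g a) : d = 1 := by
  classical
  have hder : ∀ a, derivative (g a) ≠ 0 := by
    intro a h0
    have h1 := derivative_eq_zero.1 h0
    rw [hd] at h1
    omega
  let V : ℕ → Finset k := fun a =>
    ((derivative (g a)).roots.toFinset).image (fun t => (g a).eval t)
  have mem_V : ∀ a b, b ∈ V a ↔ ∃ t, (derivative (g a)).eval t = 0 ∧ (g a).eval t = b := by
    intro a b
    show b ∈ ((derivative (g a)).roots.toFinset).image (fun t => (g a).eval t) ↔ _
    rw [Finset.mem_image]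
    constructor
    · rintro ⟨t, ht, hb⟩
      rw [Multiset.mem_toFinset, mem_roots (hder a)] at ht
      exact ⟨t, ht, hb⟩
    · rintro ⟨t, ht, hb⟩
      exact ⟨t, by rw [Multiset.mem_toFinset, mem_roots (hder a)]; exact ht, hb⟩
  -- the rotations
  have hrot : ∀ a, ∀ η : k, η ^ p = 1 → ∀ b ∈ V a, η * b ∈ V a := by
    intro a η hη
    obtain ⟨ξ, hξ, hξ1, hcomp⟩ := hinv a
    have h3 : ∀ b ∈ V a, ξ * b ∈ V a := by
      intro b hb
      rw [mem_V] at hb ⊢
      obtain ⟨t, ht, rfl⟩ := hb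
      refine ⟨ζ * t, ?_, ?_⟩
      · have h4 := congrArg derivative hcomp
        rw [derivative_comp, derivative_C_mul, derivative_X, derivative_C_mul] at h4
        have h5 := congrArg (eval t) h4
        simp only [eval_mul, eval_C, eval_comp, eval_X, ht, mul_zero, mul_one] at h5
        exact (mul_eq_zero.1 h5).resolve_left (hζ.ne_zero hp.ne_zero)
      · have h5 := congrArg (eval t) hcomp
        rw [eval_comp, eval_mul, eval_mul, eval_C, eval_C, eval_X] at h5
        exact h5
    have hξ' : IsPrimitiveRoot ξ p := by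
      have : Fact p.Prime := ⟨hp⟩
      rw [← orderOf_eq_prime hξ hξ1]
      exact IsPrimitiveRoot.orderOf ξ
    have : NeZero p := ⟨hp.ne_zero⟩
    obtain ⟨i, -, hi⟩ := hξ'.eq_pow_of_pow_eq_one hη
    rw [← hi]
    clear hi
    induction i with
    | zero => intro b hb; rwa [pow_zero, one_mul]
    | succ n ih =>
      intro b hb
      rw [pow_succ', mul_assoc]
      exact h3 _ (ih b hb)
  have hV := comb p hp c hc h2 ζ hζ M hM V (fun a => by
      show ((derivative (g (a + M))).roots.toFinset).image (fun t => (g (a + M)).eval t) = _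
      rw [hper])
    (fun a b hb => hrot a ζ hζ.pow_eq_one b hb) (by
    intro a b hb hbc b' hb'
    rw [mem_V] at hb
    obtain ⟨t', ht', hgt'⟩ := hb
    obtain ⟨t, ht⟩ := IsAlgClosed.exists_pow_nat_eq (t' - c) hp.pos
    have hft : t ^ p + c = t' := by rw [ht]; ring
    have h3 : b = (g a).eval t ^ p + c := by
      have h4 := congrArg (eval t) (hrel a)
      rw [eval_comp, eval_add, eval_add, eval_pow, eval_pow, eval_X, eval_C, hft, hgt'] at h4
      exact h4
    have h5 : (g a).eval t ≠ 0 := by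
      intro h0
      rw [h0, zero_pow hp.ne_zero, zero_add] at h3
      exact hbc h3
    have h6 : (g a).eval t ∈ V a := by
      rw [mem_V]
      refine ⟨t, ?_, rfl⟩
      have h4 := congrArg (eval t) (congrArg derivative (hrel a))
      rw [derivative_comp, derivative_add, derivative_add, derivative_X_pow, derivative_C,
        derivative_pow] at h4
      simp only [eval_mul, eval_comp, eval_add, eval_pow, eval_X, eval_C, eval_natCast,
        add_zero, map_natCast] at h4
      rw [hft, ht', mul_zero] at h4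
      have h7 : (p : k) ≠ 0 := Nat.cast_ne_zero.2 hp.ne_zero
      rcases mul_eq_zero.1 h4.symm with h8 | h8
      · rcases mul_eq_zero.1 h8 with h9 | h9
        · exact absurd h9 h7
        · exact absurd ((pow_eq_zero_iff (Nat.sub_pos_of_lt hp.one_lt).ne').1 h9) h5
      · exact h8
    have h7 : b' ^ p = (g a).eval t ^ p := by
      rw [h3] at hb'
      exact add_right_cancel hb'
    have h8 : (b' / (g a).eval t) ^ p = 1 := by
      rw [div_pow, h7, div_self (pow_ne_zero _ h5)]
    have h9 := hrot a _ h8 _ h6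
    rwa [div_mul_cancel₀ _ h5] at h9) 0
  -- no critical point
  have hd0 : (derivative (g 0)).natDegree = 0 := by
    by_contra hne
    obtain ⟨t, ht⟩ := IsAlgClosed.exists_root (derivative (g 0)) (by
      rw [degree_eq_natDegree (hder 0)]
      exact_mod_cast hne)
    have h3 : (g 0).eval t ∈ V 0 := (mem_V 0 _).2 ⟨t, ht, rfl⟩
    rw [hV] at h3
    exact Finset.notMem_empty _ h3
  rw [natDegree_derivative, hd] at hd0
  omega

end Pb
end Pool.DynLehmer.UN

set_option linter.unusedSectionVars false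

/-!
# Periodic pairs of `z ^ p + c`: row P4 (PAIR from PAIRA)
-/

namespace Pool.DynLehmer.UN
open Polynomial IntermediateField
namespace Pb

variable {k N : Type} [Field k] [IsAlgClosed k] [CharZero k] [Field N] [Algebra k N]

theorem aeval_fn (p : ℕ) (c : k) (z : N) (h : k[X]) :
    aeval (fn p c z) h = aeval z (h.comp (X ^ p + C c)) := by
  rw [aeval_comp, map_add, map_pow, aeval_X, aeval_C]
  rfl

theorem comp_rot {p : ℕ} {ζ : k} (hζ : ζ ^ p = 1) (c : k) (h : k[X]) :
    (h.comp (X ^ p + C c)).comp (C ζ * X) = h.comp (X ^ p + C c) := by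
  rw [comp_assoc]
  congr 1
  rw [add_comp, pow_comp, X_comp, C_comp, mul_pow, ← C_pow, hζ, C_1, one_mul]

theorem final {p : ℕ} (hp : p.Prime) {c : k} (hc : c ≠ 0) (h2 : ¬ (p = 2 ∧ c = -2)) {M : ℕ}
    (hM : 1 ≤ M) {x y : N} (hx : Transcendental k x) (hy : Transcendental k y)
    (h : RelE k x y ((fn p c)^[M] x) ((fn p c)^[M] y))
    (hex : ∃ (n : ℕ) (g : k[X]), (fn p c)^[n] y = aeval x g) :
    ∃ i j : ℕ, (fn p c)^[j] y = (fn p c)^[i] x := by
  classical
  obtain ⟨ζ, hζ⟩ := exists_zeta (k := k) hp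
  have hζp : ζ ^ p = 1 := hζ.pow_eq_one
  have hP : ∃ d : ℕ, ∃ (i j : ℕ) (g : k[X]), g.natDegree = d ∧
      (fn p c)^[j] y = aeval ((fn p c)^[i] x) g := by
    obtain ⟨n, g, hg⟩ := hex
    exact ⟨_, 0, n, g, rfl, hg⟩
  obtain ⟨d, ⟨i₀, j₀, g₀, hg₀, hyg₀⟩, hmin⟩ : ∃ d : ℕ, (∃ (i j : ℕ) (g : k[X]), g.natDegree = d ∧
      (fn p c)^[j] y = aeval ((fn p c)^[i] x) g) ∧ ∀ m, m < d → ¬ ∃ (i j : ℕ) (g : k[X]),
        g.natDegree = m ∧ (fn p c)^[j] y = aeval ((fn p c)^[i] x) g :=
    ⟨Nat.find hP, Nat.find_spec hP, fun m hm => Nat.find_min hP hm⟩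
  have htx : ∀ n, Transcendental k ((fn p c)^[n] x) := trans_iter hp.pos hx
  have hty : ∀ n, Transcendental k ((fn p c)^[n] y) := trans_iter hp.pos hy
  have hd1 : 1 ≤ d := by
    rw [Nat.one_le_iff_ne_zero]
    rintro rfl
    obtain ⟨b, hb⟩ := natDegree_eq_zero.1 hg₀
    apply hty j₀
    rw [hyg₀, ← hb, aeval_C]
    exact isAlgebraic_algebraMap b
  -- the degree drops
  have hnot : ∀ (i j : ℕ) (g h : k[X]), g.natDegree = d →
      (fn p c)^[j] y = aeval ((fn p c)^[i] x) g → g ≠ h.comp (X ^ p + C c) := by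
    intro i j g h hg hyg hgh
    have h3 : d = h.natDegree * p := by
      rw [← hg, hgh, natDegree_comp, natDegree_add_C, natDegree_X_pow]
    have h4 : h.natDegree < d := by
      have h5 := hp.two_le
      rw [h3]
      rw [h3] at hd1
      have h6 : 1 ≤ h.natDegree := Nat.one_le_iff_ne_zero.2 (by
        rintro h0
        rw [h0, Nat.zero_mul] at hd1
        omega)
      nlinarith
    refine hmin _ h4 ⟨i + 1, j, h, rfl, ?_⟩
    rw [Function.iterate_succ_apply', aeval_fn, ← hgh, hyg]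
  -- the step
  have hstep : ∀ i j : ℕ, (∃ g : k[X], g.natDegree = d ∧
      (fn p c)^[j] y = aeval ((fn p c)^[i] x) g) →
      ∃ g : k[X], g.natDegree = d ∧ (fn p c)^[j + 1] y = aeval ((fn p c)^[i + 1] x) g := by
    rintro i j ⟨g, hg, hyg⟩
    have hF : ∀ l : ℕ, (fn p c)^[j + l] y =
        aeval ((fn p c)^[i] x) ((fun g : k[X] => g ^ p + C c)^[l] g) := by
      intro l
      rw [aeval_F, ← hyg, add_comm, Function.iterate_add_apply]
    have hL : ∃ l : ℕ, ∃ h : k[X], (fn p c)^[j + (l + 1)] y = aeval ((fn p c)^[i + 1] x) h := by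
      have h3 := relE_ij h i j (X - C g) (by rw [map_sub, ev_X, ev_C, hyg, sub_self])
      rw [map_sub, ev_X, ev_C, sub_eq_zero] at h3
      refine ⟨M - 1, g.comp (It p c (M - 1)), ?_⟩
      rw [aeval_comp, aeval_It, ← Function.iterate_add_apply]
      have h4 : M - 1 + (i + 1) = M + i := by omega
      have h5 : j + (M - 1 + 1) = M + j := by omega
      rw [h4, h5, Function.iterate_add_apply, Function.iterate_add_apply]
      exact h3
    obtain ⟨l, ⟨hh, hhl⟩, hlmin⟩ : ∃ l : ℕ, (∃ h : k[X],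
        (fn p c)^[j + (l + 1)] y = aeval ((fn p c)^[i + 1] x) h) ∧ ∀ m, m < l →
        ¬ ∃ h : k[X], (fn p c)^[j + (m + 1)] y = aeval ((fn p c)^[i + 1] x) h :=
      ⟨Nat.find hL, Nat.find_spec hL, fun m hm => Nat.find_min hL hm⟩
    have h3 : (fun g : k[X] => g ^ p + C c)^[l + 1] g = hh.comp (X ^ p + C c) := by
      apply aeval_inj (htx i)
      rw [← hF, hhl, Function.iterate_succ_apply', aeval_fn]
    cases l with
    | zero =>
      refine ⟨hh, ?_, hhl⟩
      have h4 := congrArg natDegree h3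
      rw [natDegree_iterF, natDegree_comp, natDegree_add_C, natDegree_X_pow, hg, zero_add,
        pow_one, mul_comm] at h4
      exact (Nat.eq_of_mul_eq_mul_right hp.pos h4).symm
    | succ l =>
      exfalso
      have h4 : ((fun g : k[X] => g ^ p + C c)^[l + 1] g).comp (C ζ * X) ^ p =
          ((fun g : k[X] => g ^ p + C c)^[l + 1] g) ^ p := by
        have h5 := congrArg (fun f : k[X] => f.comp (C ζ * X)) h3
        simp only [comp_rot hζp] at h5
        rw [← h3, Function.iterate_succ_apply', add_comp, pow_comp, C_comp] at h5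
        exact add_right_cancel h5
      obtain ⟨ξ, hξ, hξe⟩ := pow_eq hp hζ h4
      by_cases hξ1 : ξ = 1
      · rw [hξ1, C_1, one_mul] at hξe
        obtain ⟨h', hh'⟩ := of_invariant hp c hζ hξe
        refine hlmin l (Nat.lt_succ_self l) ⟨h', ?_⟩
        rw [hF, hh', Function.iterate_succ_apply', aeval_fn]
      · rw [Function.iterate_succ_apply', add_comp, pow_comp, C_comp] at hξe
        have h6 := no_fermat hp hc hζ hξ hξ1 hξe
        rw [natDegree_iterF, hg] at h6
        have : 0 < p ^ l * d := Nat.mul_pos (pow_pos hp.pos l) hd1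
        omega
  -- the sequence
  have hseq : ∀ a : ℕ, ∃ g : k[X], g.natDegree = d ∧
      (fn p c)^[j₀ + a] y = aeval ((fn p c)^[i₀ + a] x) g := by
    intro a
    induction a with
    | zero => exact ⟨g₀, hg₀, hyg₀⟩
    | succ a ih => exact hstep _ _ ih
  choose g hgd hg using hseq
  have hrel : ∀ a, (g (a + 1)).comp (X ^ p + C c) = g a ^ p + C c := by
    intro a
    apply aeval_inj (htx (i₀ + a))
    rw [← aeval_fn, ← Function.iterate_succ_apply' (fn p c)]
    have h3 := hg (a + 1)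
    rw [← add_assoc, ← add_assoc] at h3
    rw [Nat.succ_eq_add_one, ← h3, Function.iterate_succ_apply', hg a, map_add, map_pow, aeval_C]
    rfl
  have hinv : ∀ a, ∃ ξ : k, ξ ^ p = 1 ∧ ξ ≠ 1 ∧ (g a).comp (C ζ * X) = C ξ * g a := by
    intro a
    have h4 : (g a).comp (C ζ * X) ^ p = g a ^ p := by
      have h5 := congrArg (fun f : k[X] => f.comp (C ζ * X)) (hrel a)
      simp only [comp_rot hζp] at h5
      rw [hrel, add_comp, pow_comp, C_comp] at h5
      exact (add_right_cancel h5).symm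
    obtain ⟨ξ, hξ, hξe⟩ := pow_eq hp hζ h4
    refine ⟨ξ, hξ, ?_, hξe⟩
    rintro rfl
    rw [C_1, one_mul] at hξe
    obtain ⟨h', hh'⟩ := of_invariant hp c hζ hξe
    exact hnot _ _ _ _ (hgd a) (hg a) hh'
  have hper : ∀ a, g (a + M) = g a := by
    intro a
    apply aeval_inj (htx (i₀ + (a + M)))
    rw [← hg]
    have h3 := relE_ij h (i₀ + a) (j₀ + a) (X - C (g a)) (by
      rw [map_sub, ev_X, ev_C, hg, sub_self])
    rw [map_sub, ev_X, ev_C, sub_eq_zero] at h3
    have h4 : j₀ + (a + M) = M + (j₀ + a) := by omega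
    have h5 : i₀ + (a + M) = M + (i₀ + a) := by omega
    rw [h4, h5, Function.iterate_add_apply (fn p c) M (j₀ + a) y,
      Function.iterate_add_apply (fn p c) M (i₀ + a) x]
    exact h3
  have hd : d = 1 := linear hp hc h2 hζ hM hd1 g hgd hrel hinv hper
  -- linear polynomials
  have hlin : ∀ a, ∃ α : k, α ≠ 0 ∧ g a = C α * X := by
    intro a
    obtain ⟨ξ, hξ, hξ1, hcomp⟩ := hinv a
    have h3 : (g a).natDegree = 1 := (hgd a).trans hd
    obtain ⟨α, hα, β, hβ⟩ := natDegree_eq_one.1 h3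
    refine ⟨α, hα, ?_⟩
    have h4 := congrArg (fun f : k[X] => f.coeff 0) hcomp
    simp only [comp_C_mul_X_coeff, pow_zero, mul_one, coeff_C_mul] at h4
    rw [← hβ] at h4
    simp only [coeff_add, coeff_C_mul, coeff_X_zero, mul_zero, coeff_C_zero, zero_add] at h4
    have h5 : (1 - ξ) * β = 0 := by linear_combination h4
    have h6 : β = 0 := (mul_eq_zero.1 h5).resolve_left (sub_ne_zero.2 (Ne.symm hξ1))
    rw [← hβ, h6, C_0, add_zero]
  obtain ⟨α₀, hα₀, hg0⟩ := hlin 0
  obtain ⟨α₁, hα₁, hg1⟩ := hlin 1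
  have h3 := hrel 0
  rw [zero_add, hg0, hg1] at h3
  have h4 := congrArg (fun f : k[X] => f.coeff 0) h3
  simp only [mul_comp, C_comp, X_comp, coeff_C_mul, coeff_add, coeff_X_pow, coeff_C_zero, mul_pow,
    ← C_pow, if_neg hp.ne_zero.symm, mul_zero, zero_add] at h4
  have h5 : α₁ = 1 := by
    have h6 : (α₁ - 1) * c = 0 := by linear_combination h4
    exact sub_eq_zero.1 ((mul_eq_zero.1 h6).resolve_right hc)
  refine ⟨i₀ + 1, j₀ + 1, ?_⟩
  rw [hg 1, hg1, h5, C_1, one_mul, aeval_X]

end Pb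

theorem pairb (hA : PairaStatement) : PairStatement := by
  intro k N _ _ _ _ _ p c M x y hp hc h2 hM hx hy halg hE
  have hR : Pb.RelE k x y ((Pb.fn p c)^[M] x) ((Pb.fn p c)^[M] y) := Pb.relE_of_mv hE
  obtain ⟨n, hn⟩ := hA k N p c M x y hp hc h2 hM hx hy halg hE
  have hn' : (Pb.fn p c)^[n] y ∈ adjoin k {x} := hn
  obtain ⟨g, hg⟩ := Pb.isPoly hp hc hM hx (Pb.relE_ij hR 0 n) hn'
  obtain ⟨i, j, hij⟩ := Pb.final hp hc h2 hM hx hy hR ⟨n, g, hg⟩
  by_cases hle : i ≤ j
  · -- `f ^ i (f ^ (j - i) y) = f ^ i x`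
    refine ⟨j - i, Or.inr ?_⟩
    have h3 : (Pb.fn p c)^[i] x = (Pb.fn p c)^[i] ((Pb.fn p c)^[j - i] y) := by
      rw [← Function.iterate_add_apply, Nat.add_sub_cancel' hle, hij]
    have h4 := Pb.inj hM (Pb.relE_ij hR 0 (j - i)) h3 (Pb.trans_iter hp.pos hx)
    exact h4.symm
  · refine ⟨i - j, Or.inl ?_⟩
    have h3 : (Pb.fn p c)^[j] ((Pb.fn p c)^[i - j] x) = (Pb.fn p c)^[j] y := by
      rw [← Function.iterate_add_apply, Nat.add_sub_cancel' (Nat.le_of_not_le hle), hij]
    exact Pb.inj hM (Pb.relE_ij hR (i - j) 0) h3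
      (Pb.trans_iter hp.pos (Pb.trans_iter hp.pos hx _))

end Pool.DynLehmer.UN

/-!
# Finite sets which are stable under the inverse of `z ^ q + c` and under some rotations
-/

namespace Pool.DynLehmer.UN

theorem combr {k : Type} [Field k] [IsAlgClosed k] (q : ℕ) (hq : 2 ≤ q) (c : k) (hc : c ≠ 0)
    (h2 : ¬ (q = 2 ∧ c = -2)) (M : ℕ) (hM : 1 ≤ M) (R : ℕ → Finset k) (ξ : ℕ → k)
    (hξ : ∀ a, ξ a ^ q = 1) (hξ1 : ∀ a, ξ a ≠ 1) (hper : ∀ a, R (a + M) = R a)
    (hsc : ∀ a, ∀ b ∈ R a, ξ a * b ∈ R a)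
    (hst : ∀ (a : ℕ) (v : k), v ∈ R (a + 1) → v ≠ c → ∃ w ∈ R a, w ^ q + c = v)
    (hram : ∀ a, ¬ IsPrimitiveRoot (ξ a) q → (0 : k) ∈ R a ∧ c ∈ R (a + 1)) :
    ∀ a, R a = ∅ := by
  classical
  have hq0 : q ≠ 0 := by omega
  have hsc' : ∀ (a i : ℕ) (b : k), b ∈ R a → ξ a ^ i * b ∈ R a := by
    intro a i
    induction i with
    | zero => intro b hb; rwa [pow_zero, one_mul]
    | succ n ih =>
      intro b hb
      rw [pow_succ', mul_assoc]
      exact hsc a _ (ih b hb)
  have hdvd : ∀ a, orderOf (ξ a) ∣ q := fun a => orderOf_dvd_of_pow_eq_one (hξ a)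
  have hpos : ∀ a, 0 < orderOf (ξ a) := fun a => Nat.pos_of_dvd_of_pos (hdvd a) (by omega)
  have hr2 : ∀ a, 2 ≤ orderOf (ξ a) := by
    intro a
    have h3 : orderOf (ξ a) ≠ 1 := fun h => hξ1 a (orderOf_eq_one_iff.1 h)
    have := hpos a
    omega
  have hprim : ∀ a, IsPrimitiveRoot (ξ a) (orderOf (ξ a)) := fun a => IsPrimitiveRoot.orderOf _
  -- the fibres
  have hA : ∀ a, orderOf (ξ a) * ((R (a + 1)).erase c).card ≤ ((R a).erase 0).card := by
    intro a
    have hst' : ∀ v : k, ∃ w : k, v ∈ (R (a + 1)).erase c → w ∈ R a ∧ w ^ q + c = v := by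
      intro v
      by_cases hv : v ∈ (R (a + 1)).erase c
      · obtain ⟨w, hw, hwv⟩ := hst a v (Finset.mem_erase.1 hv).2 (Finset.mem_erase.1 hv).1
        exact ⟨w, fun _ => ⟨hw, hwv⟩⟩
      · exact ⟨0, fun h => absurd h hv⟩
    choose s hs using hst'
    have h3 : ∀ b ∈ (R (a + 1)).erase c, s b ≠ 0 := by
      intro b hb h0
      have h4 := (hs b hb).2
      rw [h0, zero_pow hq0, zero_add] at h4
      exact (Finset.mem_erase.1 hb).1 h4.symm
    have h5 : (((R (a + 1)).erase c) ×ˢ Finset.range (orderOf (ξ a))).card ≤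
        ((R a).erase 0).card := by
      refine Finset.card_le_card_of_injOn (fun z => ξ a ^ z.2 * s z.1) ?_ ?_
      · intro z hz
        rw [Finset.mem_coe, Finset.mem_product] at hz
        rw [Finset.mem_coe, Finset.mem_erase]
        refine ⟨mul_ne_zero (pow_ne_zero _ ((hprim a).ne_zero (hpos a).ne')) (h3 _ hz.1), ?_⟩
        exact hsc' a _ _ (hs _ hz.1).1
      · intro z hz w hw hzw
        rw [Finset.mem_coe, Finset.mem_product] at hz hw
        have h6 : ξ a ^ z.2 * s z.1 = ξ a ^ w.2 * s w.1 := hzw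
        have h7 : z.1 = w.1 := by
          have h8 := congrArg (fun t => t ^ q) h6
          simp only [mul_pow] at h8
          rw [← pow_mul, ← pow_mul, mul_comm z.2, mul_comm w.2, pow_mul, pow_mul, hξ,
            one_pow, one_pow, one_mul, one_mul] at h8
          rw [← (hs _ hz.1).2, ← (hs _ hw.1).2, h8]
        have h9 : z.2 = w.2 := by
          rw [h7] at h6
          have h10 := mul_right_cancel₀ (h3 _ hw.1) h6
          exact (hprim a).pow_inj (Finset.mem_range.1 hz.2) (Finset.mem_range.1 hw.2) h10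
        exact Prod.ext h7 h9
    rw [Finset.card_product, Finset.card_range, mul_comm] at h5
    exact h5
  have hle : ∀ a, ((R a).erase 0).card ≤ (R a).card := fun a => Finset.card_erase_le
  have hC1 : ∀ a, c ∈ R (a + 1) → (R (a + 1)).card = ((R (a + 1)).erase c).card + 1 :=
    fun a h => (Finset.card_erase_add_one h).symm
  have hC2 : ∀ a, c ∉ R (a + 1) → (R (a + 1)).card = ((R (a + 1)).erase c).card :=
    fun a h => by rw [Finset.erase_eq_of_notMem h]
  have hB : ∀ a, c ∈ R (a + 1) → orderOf (ξ (a + 1)) ≤ (R (a + 1)).card := by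
    intro a hca
    have h5 : (Finset.range (orderOf (ξ (a + 1)))).card ≤ (R (a + 1)).card := by
      refine Finset.card_le_card_of_injOn (fun i => ξ (a + 1) ^ i * c) ?_ ?_
      · intro i _
        exact hsc' _ _ _ hca
      · intro i hi i' hi' h
        rw [Finset.mem_coe, Finset.mem_range] at hi hi'
        have h6 : ξ (a + 1) ^ i * c = ξ (a + 1) ^ i' * c := h
        exact (hprim _).pow_inj hi hi' (mul_right_cancel₀ hc h6)
    rwa [Finset.card_range] at h5
  have hmono : ∀ a, (R (a + 1)).card ≤ (R a).card ∧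
      (¬ IsPrimitiveRoot (ξ a) q → (R (a + 1)).card < (R a).card) := by
    intro a
    have h3 := hA a
    have h4 := hle a
    have h5 := Nat.mul_le_mul_right ((R (a + 1)).erase c).card (hr2 a)
    by_cases hca : c ∈ R (a + 1)
    · have h6 := hC1 a hca
      have h7 := hB a hca
      have h8 := hr2 (a + 1)
      refine ⟨by omega, fun hnp => ?_⟩
      have h9 := Finset.card_erase_add_one (hram a hnp).1
      omega
    · have h6 := hC2 a hca
      refine ⟨by omega, fun hnp => absurd (hram a hnp).2 hca⟩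
  have hanti : Antitone fun a => (R a).card := antitone_nat_of_succ_le fun a => (hmono a).1
  have heq : ∀ a, (R (a + 1)).card = (R a).card := by
    intro a
    refine le_antisymm (hmono a).1 ?_
    have h3 : (R (a + M)).card ≤ (R (a + 1)).card := hanti (by omega)
    rwa [hper] at h3
  have hord : ∀ a, orderOf (ξ a) = q := by
    intro a
    by_contra hne
    have h3 : ¬ IsPrimitiveRoot (ξ a) q := fun h => hne h.eq_orderOf.symm
    exact absurd (heq a) ((hmono a).2 h3).ne
  have hconst : ∀ a, (R a).card = (R 0).card := by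
    intro a
    induction a with
    | zero => rfl
    | succ n ih => rw [heq, ih]
  by_contra hne
  push Not at hne
  obtain ⟨a₀, ha₀⟩ := hne
  have hn : 1 ≤ (R 0).card := by
    rw [← hconst a₀]
    exact Finset.Nonempty.card_pos ha₀
  have hcmem : ∀ a, c ∈ R (a + 1) := by
    intro a
    by_contra hca
    have h5 := hC2 a hca
    have h3 := hA a
    have h4 := hle a
    rw [← h5, hconst (a + 1)] at h3
    rw [hconst a] at h4
    have h7 := Nat.mul_le_mul_right (R 0).card (hr2 a)
    omega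
  have hq2 : q = 2 ∧ (R 0).card = 2 := by
    have h3 := hA 0
    have h4 := hle 0
    have h5 := hC1 0 (hcmem 0)
    have h6 := hB 0 (hcmem 0)
    rw [hord, hconst] at h6
    rw [hord] at h3
    rw [hconst] at h5
    have h7 : q = 2 := by
      by_contra hq3
      have h8 : 3 ≤ q := by omega
      have h9 := Nat.mul_le_mul_right ((R (0 + 1)).erase c).card h8
      omega
    subst h7
    exact ⟨rfl, by omega⟩
  obtain ⟨rfl, hcard⟩ := hq2
  have hξ2 : ∀ a, ξ a = -1 := by
    intro a
    have h6 : (ξ a - 1) * (ξ a + 1) = 0 := by linear_combination hξ a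
    exact eq_neg_of_add_eq_zero_left ((mul_eq_zero.1 h6).resolve_left (sub_ne_zero.2 (hξ1 a)))
  have hneg1 : (-1 : k) ≠ 1 := by
    rw [← hξ2 0]
    exact hξ1 0
  have hnegc : -c ≠ c := by
    intro h
    have h3 : (-1 : k) * c = 1 * c := by rw [neg_one_mul, one_mul]; exact h
    exact hneg1 (mul_right_cancel₀ hc h3)
  have hneg : ∀ a, -c ∈ R (a + 1) := by
    intro a
    have h3 := hsc (a + 1) c (hcmem a)
    rwa [hξ2, neg_one_mul] at h3
  have hset : ∀ a, R (a + 1) = {c, -c} := by
    intro a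
    symm
    apply Finset.eq_of_subset_of_card_le
    · intro b hb
      rw [Finset.mem_insert, Finset.mem_singleton] at hb
      rcases hb with rfl | rfl
      · exact hcmem a
      · exact hneg a
    · rw [hconst, hcard, Finset.card_pair (Ne.symm hnegc)]
  obtain ⟨w, hw, hwc⟩ := hst 1 (-c) (hneg 1) hnegc
  have h3 : w ^ 2 = c ^ 2 := by
    have h4 : w ∈ R (0 + 1) := hw
    rw [hset, Finset.mem_insert, Finset.mem_singleton] at h4
    rcases h4 with rfl | rfl
    · rfl
    · ring
  have h4 : c * (c + 2) = 0 := by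
    rw [h3] at hwc
    linear_combination hwc
  have h5 : c = -2 := eq_neg_of_add_eq_zero_left ((mul_eq_zero.1 h4).resolve_left hc)
  exact h2 ⟨rfl, h5⟩

end Pool.DynLehmer.UN

/-!
# Periodic pairs of `z ^ p + c` for every degree `p`: rational implies polynomial
-/

namespace Pool.DynLehmer.UN
open Polynomial IntermediateField
namespace Pq
open Pb

theorem pos_of_two_le {p : ℕ} (h : 2 ≤ p) : 0 < p := by omega
theorem ne_of_two_le {p : ℕ} (h : 2 ≤ p) : p ≠ 0 := by omega
theorem lt_of_two_le {p : ℕ} (h : 2 ≤ p) : 1 < p := by omega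
theorem le_of_two_le {p : ℕ} (h : 2 ≤ p) : 1 ≤ p := by omega

section fin
variable {k : Type} [Field k] [IsAlgClosed k] [CharZero k]

theorem exists_zeta {p : ℕ} (hp : 2 ≤ p) : ∃ ζ : k, IsPrimitiveRoot ζ p := by
  have : NeZero (p : k) := ⟨Nat.cast_ne_zero.2 (ne_of_two_le hp)⟩
  exact HasEnoughRootsOfUnity.exists_primitiveRoot k p

theorem finS {p : ℕ} (hp : 2 ≤ p) {c : k} (hc : c ≠ 0) {M : ℕ} (hM : 1 ≤ M) {S : Set k}
    (hfin : S.Finite) (h : ∀ t, t ∈ S ↔ (fn p c)^[M] t ∈ S) : S = ∅ := by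
  by_contra hne
  obtain ⟨s, hs⟩ := Set.nonempty_iff_ne_empty.2 hne
  have : Finite S := hfin
  obtain ⟨ζ, hζ⟩ := exists_zeta (k := k) hp
  have hζp : ζ ^ p = 1 := hζ.pow_eq_one
  have hζ1 : ζ ≠ 1 := hζ.ne_one (lt_of_two_le hp)
  let g : S → S := fun t => ⟨(fn p c)^[M] t, (h t).1 t.2⟩
  have hsur : ∀ n, Function.Surjective ((fn p c : k → k)^[n]) := fun n =>
    (fn_surj (pos_of_two_le hp) c).iterate n
  have hgs : Function.Surjective g := by
    rintro ⟨s, hs⟩
    obtain ⟨t, ht⟩ := hsur M s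
    exact ⟨⟨t, (h t).2 (by rw [ht]; exact hs)⟩, Subtype.ext ht⟩
  have hgi : Function.Injective g := Finite.injective_iff_surjective.2 hgs
  obtain ⟨M', rfl⟩ : ∃ M', M = M' + 1 := ⟨M - 1, by omega⟩
  have hzero : ∀ t ∈ S, t = 0 := by
    intro t ht
    have h1 : (fn p c)^[M' + 1] (ζ * t) = (fn p c)^[M' + 1] t := by
      rw [Function.iterate_succ_apply, Function.iterate_succ_apply, fn_zeta hζp]
    have h2 : ζ * t ∈ S := (h _).2 (by rw [h1]; exact (h t).1 ht)
    have h3 : (⟨ζ * t, h2⟩ : S) = ⟨t, ht⟩ := hgi (Subtype.ext h1)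
    have h4 : ζ * t = t := congrArg Subtype.val h3
    have h5 : (ζ - 1) * t = 0 := by linear_combination h4
    rcases mul_eq_zero.1 h5 with h6 | h6
    · exact absurd (sub_eq_zero.1 h6) hζ1
    · exact h6
  have h0S : (0 : k) ∈ S := by
    have := hzero s hs
    rwa [this] at hs
  have hw : ∀ w : k, (fn p c)^[M'] w = 0 → w = c := by
    intro w hw
    obtain ⟨t, ht⟩ := fn_surj (pos_of_two_le hp) c w
    have h1 : t ∈ S := (h t).2 (by rw [Function.iterate_succ_apply, ht, hw]; exact h0S)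
    have h2 := hzero t h1
    rw [h2] at ht
    rw [← ht]
    show (0 : k) ^ p + algebraMap k k c = c
    rw [zero_pow (ne_of_two_le hp), zero_add]
    rfl
  cases M' with
  | zero => exact hc (hw 0 rfl).symm
  | succ M'' =>
    obtain ⟨w, hw0⟩ := hsur (M'' + 1) 0
    have h1 := hw w hw0
    have h2 := hw (ζ * w) (by
      rw [Function.iterate_succ_apply, fn_zeta hζp, ← Function.iterate_succ_apply, hw0])
    rw [h1] at h2
    have h5 : (ζ - 1) * c = 0 := by linear_combination h2
    rcases mul_eq_zero.1 h5 with h6 | h6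
    · exact absurd (sub_eq_zero.1 h6) hζ1
    · exact hc h6

variable {N : Type} [Field N] [Algebra k N]

theorem isPoly {p : ℕ} (hp : 2 ≤ p) {c : k} (hc : c ≠ 0) {M : ℕ} (hM : 1 ≤ M) {x y : N}
    (hx : Transcendental k x) (h : RelE k x y ((fn p c)^[M] x) ((fn p c)^[M] y))
    (hy : y ∈ adjoin k {x}) : ∃ g : k[X], y = aeval x g := by
  classical
  obtain ⟨A, B, hB0, hAB, hyB⟩ := exists_coprime hy
  have h1 : (fn p c)^[M] y * aeval ((fn p c)^[M] x) B = aeval ((fn p c)^[M] x) A := by
    have h2 := h (X * C B - C A) (by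
      rw [map_sub, map_mul, ev_X, ev_C, ev_C, hyB, sub_self])
    rw [map_sub, map_mul, ev_X, ev_C, ev_C, sub_eq_zero] at h2
    exact h2
  obtain ⟨A', hA', hyA'⟩ := iter_frac (le_of_two_le hp) c hAB hyB M
  have h2 : ∀ G : k[X], aeval ((fn p c)^[M] x) G = aeval x (G.comp (It p c M)) := by
    intro G
    rw [aeval_comp, aeval_It]
  rw [h2, h2] at h1
  have h3 : B.comp (It p c M) * A' = A.comp (It p c M) * B ^ p ^ M := by
    apply aeval_inj hx
    rw [map_mul, map_mul, ← hyA', ← h1]
    ring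
  have h4 : B ^ p ^ M ∣ B.comp (It p c M) := by
    have h5 : IsCoprime (B ^ p ^ M) A' := hA'.symm.pow_left
    exact h5.dvd_of_dvd_mul_right (Dvd.intro_left _ h3.symm)
  obtain ⟨R, hR⟩ := h4
  have hdeg : (B.comp (It p c M)).natDegree = B.natDegree * p ^ M := by
    rw [natDegree_comp, natDegree_It]
  have hcomp0 : B.comp (It p c M) ≠ 0 := by
    intro h0
    rw [comp_eq_zero_iff] at h0
    rcases h0 with h0 | ⟨-, h0⟩
    · exact hB0 h0
    · have h6 := natDegree_It p c M
      rw [h0, natDegree_C] at h6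
      exact (pow_pos (pos_of_two_le hp) M).ne h6
  have hR0 : R ≠ 0 := by
    rintro rfl
    rw [mul_zero] at hR
    exact hcomp0 hR
  have hRd : R.natDegree = 0 := by
    have h6 := hdeg
    rw [hR, natDegree_mul (pow_ne_zero _ hB0) hR0, natDegree_pow] at h6
    have : p ^ M * B.natDegree = B.natDegree * p ^ M := mul_comm _ _
    omega
  obtain ⟨u, hu⟩ := natDegree_eq_zero.1 hRd
  have hu0 : u ≠ 0 := by
    rintro rfl
    exact hR0 (by rw [← hu, C_0])
  -- the roots of `B`
  have hS := finS hp hc hM (S := {t | B.eval t = 0}) (by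
    refine (B.roots.toFinset.finite_toSet).subset ?_
    intro t ht
    rw [Finset.mem_coe, Multiset.mem_toFinset, mem_roots hB0]
    exact ht) (by
    intro t
    show B.eval t = 0 ↔ B.eval ((fn p c)^[M] t) = 0
    rw [← eval_It, ← eval_comp, hR, ← hu, eval_mul, eval_pow, eval_C, mul_eq_zero,
      or_iff_left hu0, pow_eq_zero_iff (pow_pos (pos_of_two_le hp) M).ne'])
  have hBd : B.natDegree = 0 := by
    by_contra hBd
    obtain ⟨t, ht⟩ := IsAlgClosed.exists_root B (by
      rw [degree_eq_natDegree hB0]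
      exact_mod_cast hBd)
    have : t ∈ ({t | B.eval t = 0} : Set k) := ht
    rw [hS] at this
    exact this
  obtain ⟨b, hb⟩ := natDegree_eq_zero.1 hBd
  have hb0 : b ≠ 0 := by
    rintro rfl
    exact hB0 (by rw [← hb, C_0])
  refine ⟨C b⁻¹ * A, ?_⟩
  rw [map_mul, ← hyB, ← hb, aeval_C, aeval_C, map_inv₀]
  have : algebraMap k N b ≠ 0 := (_root_.map_ne_zero _).2 hb0
  field_simp

end fin

end Pq
end Pool.DynLehmer.UN

set_option linter.unusedSectionVars false

/-!
# Periodic pairs of `z ^ p + c`: the polynomial case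
-/

namespace Pool.DynLehmer.UN
open Polynomial IntermediateField
namespace Pq
open Pb

variable {k : Type} [Field k] [IsAlgClosed k] [CharZero k]

/-- a polynomial with `g (ζ T) = g T` is a polynomial in `T ^ p + c` -/
theorem of_invariant {p : ℕ} (hp : 2 ≤ p) (c : k) {ζ : k} (hζ : IsPrimitiveRoot ζ p) {g : k[X]}
    (h : g.comp (C ζ * X) = g) : ∃ h : k[X], g = h.comp (X ^ p + C c) := by
  have h1 : g = expand k p (contract p g) := by
    ext n
    rw [coeff_expand (pos_of_two_le hp)]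
    by_cases hn : p ∣ n
    · rw [if_pos hn, coeff_contract (ne_of_two_le hp), Nat.div_mul_cancel hn]
    · rw [if_neg hn]
      have h2 := congrArg (fun f : k[X] => f.coeff n) h
      simp only [comp_C_mul_X_coeff] at h2
      have h3 : (ζ ^ n - 1) * g.coeff n = 0 := by linear_combination h2
      rcases mul_eq_zero.1 h3 with h4 | h4
      · exact absurd ((hζ.pow_eq_one_iff_dvd n).1 (sub_eq_zero.1 h4)) hn
      · exact h4
  refine ⟨(contract p g).comp (X - C c), ?_⟩
  rw [comp_assoc]
  have h2 : (X - C c : k[X]).comp (X ^ p + C c) = X ^ p := by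
    rw [sub_comp, X_comp, C_comp]
    ring
  rw [h2, ← expand_eq_comp_X_pow]
  exact h1

/-- `a ^ p = b ^ p` -/
theorem pow_eq {p : ℕ} (hp : 2 ≤ p) {ζ : k} (hζ : IsPrimitiveRoot ζ p) {a b : k[X]}
    (h : a ^ p = b ^ p) : ∃ ξ : k, ξ ^ p = 1 ∧ a = C ξ * b := by
  by_cases hb : b = 0
  · refine ⟨1, one_pow _, ?_⟩
    rw [hb, zero_pow (ne_of_two_le hp)] at h
    rw [hb, mul_zero]
    exact pow_eq_zero_iff (ne_of_two_le hp) |>.1 h
  · let Q := FractionRing k[X]
    have hinj : Function.Injective (algebraMap k[X] Q) := IsFractionRing.injective _ _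
    have hb' : algebraMap k[X] Q b ≠ 0 := by
      rw [Ne, ← map_zero (algebraMap k[X] Q)]
      exact fun h0 => hb (hinj h0)
    have hζ' : IsPrimitiveRoot (algebraMap k[X] Q (C ζ)) p :=
      (hζ.map_of_injective C_injective).map_of_injective hinj
    have h1 : (algebraMap k[X] Q a / algebraMap k[X] Q b) ^ p = 1 := by
      rw [div_pow, ← map_pow, ← map_pow, h, div_self]
      rw [map_pow]
      exact pow_ne_zero _ hb'
    have : NeZero p := ⟨(ne_of_two_le hp)⟩
    obtain ⟨i, -, hi⟩ := hζ'.eq_pow_of_pow_eq_one h1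
    refine ⟨ζ ^ i, ?_, ?_⟩
    · rw [← pow_mul, mul_comm, pow_mul, hζ.pow_eq_one, one_pow]
    · apply hinj
      rw [map_mul, C_pow, map_pow, hi]
      exact (div_mul_cancel₀ _ hb').symm

theorem natDegree_eq_zero_of_dvd_C {a : k[X]} {e : k} (he : e ≠ 0) (h : a ∣ C e) :
    a.natDegree = 0 := by
  have h1 : IsUnit (C e : k[X]) := isUnit_C.2 (IsUnit.mk0 e he)
  exact natDegree_eq_zero_of_isUnit (isUnit_of_dvd_unit h h1)

/-- no Fermat equation -/
theorem no_fermat {p : ℕ} (hp : 2 ≤ p) {c ζ ξ : k} (hc : c ≠ 0) (hζ : IsPrimitiveRoot ζ p)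
    (hξ : ξ ^ p = 1) (hξ1 : ξ ≠ 1) {a w : k[X]} (h : a ^ p + C c = C ξ * (w ^ p + C c)) :
    w.natDegree = 0 := by
  obtain ⟨η, hη⟩ := IsAlgClosed.exists_pow_nat_eq ξ (pos_of_two_le hp)
  have hξ0 : ξ ≠ 0 := by
    rintro rfl
    rw [zero_pow (ne_of_two_le hp)] at hξ
    exact zero_ne_one hξ
  have hη0 : η ≠ 0 := by
    rintro rfl
    rw [zero_pow (ne_of_two_le hp)] at hη
    exact hξ0 hη.symm
  have he : (ξ - 1) * c ≠ 0 := mul_ne_zero (sub_ne_zero.2 hξ1) hc
  have h1 : a ^ p - (C η * w) ^ p = C ((ξ - 1) * c) := by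
    rw [mul_pow, ← C_pow, hη, C_mul, C_sub, C_1]
    linear_combination h
  have h2 : (a - C η * w) ∣ C ((ξ - 1) * c) := by
    rw [← h1]
    exact sub_dvd_pow_sub_pow _ _ _
  have h3 : (a - C (ζ * η) * w) ∣ C ((ξ - 1) * c) := by
    have h4 : (C (ζ * η) * w) ^ p = (C η * w) ^ p := by
      rw [mul_pow, mul_pow, ← C_pow, ← C_pow, mul_pow, hζ.pow_eq_one, one_mul]
    rw [← h1, ← h4]
    exact sub_dvd_pow_sub_pow _ _ _
  have h5 := natDegree_eq_zero_of_dvd_C he h2
  have h6 := natDegree_eq_zero_of_dvd_C he h3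
  have h7 : (C ((ζ - 1) * η) * w).natDegree = 0 := by
    have h8 : C ((ζ - 1) * η) * w = (a - C η * w) - (a - C (ζ * η) * w) := by
      rw [sub_mul, one_mul, C_sub]
      ring
    rw [h8]
    exact Nat.le_zero.1 ((natDegree_sub_le _ _).trans (by rw [h5, h6]; exact le_refl _))
  rwa [natDegree_C_mul (mul_ne_zero (sub_ne_zero.2 (hζ.ne_one (lt_of_two_le hp))) hη0)] at h7

end Pq
end Pool.DynLehmer.UN

set_option linter.unusedSectionVars false

/-!
# Periodic pairs of `z ^ q + c`: row P4 for every degree (PAIRQ from PAIRAQ)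
-/

namespace Pool.DynLehmer.UN
open Polynomial IntermediateField
namespace Pq
open Pb

variable {k : Type} [Field k] [IsAlgClosed k] [CharZero k]

/-- A periodic sequence of polynomials which commute with `z ^ p + c` and with the rotations is
linear. -/
theorem linear {p : ℕ} (hp : 2 ≤ p) {c : k} (hc : c ≠ 0) (h2 : ¬ (p = 2 ∧ c = -2)) {ζ : k}
    (hζ : IsPrimitiveRoot ζ p) {M : ℕ} (hM : 1 ≤ M) {d : ℕ} (hd1 : 1 ≤ d) (g : ℕ → k[X])
    (hd : ∀ a, (g a).natDegree = d)
    (hrel : ∀ a, (g (a + 1)).comp (X ^ p + C c) = g a ^ p + C c)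
    (hinv : ∀ a, ∃ ξ : k, ξ ^ p = 1 ∧ ξ ≠ 1 ∧ (g a).comp (C ζ * X) = C ξ * g a)
    (hper : ∀ a, g (a + M) = g a) : d = 1 := by
  classical
  choose ξ hξ hξ1 hcomp using hinv
  have hder : ∀ a, derivative (g a) ≠ 0 := by
    intro a h0
    have h1 := derivative_eq_zero.1 h0
    rw [hd] at h1
    omega
  let V : ℕ → Finset k := fun a =>
    ((derivative (g a)).roots.toFinset).image (fun t => (g a).eval t)
  have mem_V : ∀ a b, b ∈ V a ↔ ∃ t, (derivative (g a)).eval t = 0 ∧ (g a).eval t = b := by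
    intro a b
    show b ∈ ((derivative (g a)).roots.toFinset).image (fun t => (g a).eval t) ↔ _
    rw [Finset.mem_image]
    constructor
    · rintro ⟨t, ht, hb⟩
      rw [Multiset.mem_toFinset, mem_roots (hder a)] at ht
      exact ⟨t, ht, hb⟩
    · rintro ⟨t, ht, hb⟩
      exact ⟨t, by rw [Multiset.mem_toFinset, mem_roots (hder a)]; exact ht, hb⟩
  -- the rotations
  have hrot : ∀ a, ∀ b ∈ V a, ξ a * b ∈ V a := by
    intro a b hb
    rw [mem_V] at hb ⊢
    obtain ⟨t, ht, rfl⟩ := hb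
    refine ⟨ζ * t, ?_, ?_⟩
    · have h4 := congrArg derivative (hcomp a)
      rw [derivative_comp, derivative_C_mul, derivative_X, derivative_C_mul] at h4
      have h5 := congrArg (eval t) h4
      simp only [eval_mul, eval_C, eval_comp, eval_X, ht, mul_zero, mul_one] at h5
      exact (mul_eq_zero.1 h5).resolve_left (hζ.ne_zero (ne_of_two_le hp))
    · have h5 := congrArg (eval t) (hcomp a)
      rw [eval_comp, eval_mul, eval_mul, eval_C, eval_C, eval_X] at h5
      exact h5
  have hram : ∀ a, ¬ IsPrimitiveRoot (ξ a) p → (0 : k) ∈ V a ∧ c ∈ V (a + 1) := by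
    intro a hnp
    have hc0 : (g a).coeff 0 = 0 := by
      have h4 := congrArg (fun f : k[X] => f.coeff 0) (hcomp a)
      simp only [comp_C_mul_X_coeff, pow_zero, mul_one, coeff_C_mul] at h4
      have h5 : (1 - ξ a) * (g a).coeff 0 = 0 := by linear_combination h4
      exact (mul_eq_zero.1 h5).resolve_left (sub_ne_zero.2 (Ne.symm (hξ1 a)))
    have hc1 : (g a).coeff 1 = 0 := by
      have h4 := congrArg (fun f : k[X] => f.coeff 1) (hcomp a)
      simp only [comp_C_mul_X_coeff, pow_one, coeff_C_mul] at h4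
      have h5 : (ζ - ξ a) * (g a).coeff 1 = 0 := by linear_combination h4
      refine (mul_eq_zero.1 h5).resolve_left (fun h0 => hnp ?_)
      rw [← sub_eq_zero.1 h0]
      exact hζ
    obtain ⟨K, hK⟩ : (X : k[X]) ^ 2 ∣ g a := by
      rw [X_pow_dvd_iff]
      intro m hm
      interval_cases m
      · exact hc0
      · exact hc1
    constructor
    · rw [mem_V]
      refine ⟨0, ?_, ?_⟩
      · rw [← coeff_zero_eq_eval_zero, coeff_derivative, hc1, zero_mul]
      · rw [← coeff_zero_eq_eval_zero, hc0]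
    · rw [mem_V]
      have h0c : (g (a + 1)).eval c = c := by
        have h4 := congrArg (eval 0) (hrel a)
        rw [eval_comp, eval_add, eval_add, eval_pow, eval_pow, eval_X, eval_C, hK, eval_mul,
          eval_pow, eval_X] at h4
        simpa [zero_pow (ne_of_two_le hp)] using h4
      obtain ⟨H, hH⟩ : (X - C c : k[X]) ∣ g (a + 1) - C c := by
        rw [dvd_iff_isRoot, IsRoot, eval_sub, eval_C, h0c, sub_self]
      have h5 : H.comp (X ^ p + C c) = X ^ p * K ^ p := by
        have h6 : (X ^ p : k[X]) ≠ 0 := pow_ne_zero _ X_ne_zero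
        apply mul_left_cancel₀ h6
        have h7 : (X ^ p : k[X]) * H.comp (X ^ p + C c) = (g (a + 1) - C c).comp (X ^ p + C c) := by
          rw [hH, mul_comp, sub_comp, X_comp, C_comp]
          ring
        rw [h7, sub_comp, hrel, C_comp, hK]
        ring
      refine ⟨c, ?_, h0c⟩
      have h6 : H.eval c = 0 := by
        have h7 := congrArg (eval 0) h5
        rw [eval_comp, eval_mul, eval_add, eval_pow, eval_X, eval_C,
          zero_pow (ne_of_two_le hp), zero_add, zero_mul] at h7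
        exact h7
      have h7 : g (a + 1) = (X - C c) * H + C c := by rw [← hH]; ring
      rw [h7, derivative_add, derivative_mul, derivative_C, derivative_sub, derivative_X,
        derivative_C]
      simp [h6]
  have hV := combr p hp c hc h2 M hM V ξ hξ hξ1 (fun a => by
      show ((derivative (g (a + M))).roots.toFinset).image (fun t => (g (a + M)).eval t) = _
      rw [hper])
    hrot (by
    intro a b hb hbc
    rw [mem_V] at hb
    obtain ⟨t', ht', hgt'⟩ := hb
    obtain ⟨t, ht⟩ := IsAlgClosed.exists_pow_nat_eq (t' - c) (pos_of_two_le hp)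
    have hft : t ^ p + c = t' := by rw [ht]; ring
    have h3 : b = (g a).eval t ^ p + c := by
      have h4 := congrArg (eval t) (hrel a)
      rw [eval_comp, eval_add, eval_add, eval_pow, eval_pow, eval_X, eval_C, hft, hgt'] at h4
      exact h4
    have h5 : (g a).eval t ≠ 0 := by
      intro h0
      rw [h0, zero_pow (ne_of_two_le hp), zero_add] at h3
      exact hbc h3
    have h6 : (g a).eval t ∈ V a := by
      rw [mem_V]
      refine ⟨t, ?_, rfl⟩
      have h4 := congrArg (eval t) (congrArg derivative (hrel a))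
      rw [derivative_comp, derivative_add, derivative_add, derivative_X_pow, derivative_C,
        derivative_pow] at h4
      simp only [eval_mul, eval_comp, eval_add, eval_pow, eval_X, eval_C, eval_natCast,
        add_zero, map_natCast] at h4
      rw [hft, ht', mul_zero] at h4
      have h7 : (p : k) ≠ 0 := Nat.cast_ne_zero.2 (ne_of_two_le hp)
      rcases mul_eq_zero.1 h4.symm with h8 | h8
      · rcases mul_eq_zero.1 h8 with h9 | h9
        · exact absurd h9 h7
        · exact absurd ((pow_eq_zero_iff (Nat.sub_pos_of_lt (lt_of_two_le hp)).ne').1 h9) h5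
      · exact h8
    exact ⟨_, h6, h3.symm⟩) hram 0
  -- no critical point
  have hd0 : (derivative (g 0)).natDegree = 0 := by
    by_contra hne
    obtain ⟨t, ht⟩ := IsAlgClosed.exists_root (derivative (g 0)) (by
      rw [degree_eq_natDegree (hder 0)]
      exact_mod_cast hne)
    have h3 : (g 0).eval t ∈ V 0 := (mem_V 0 _).2 ⟨t, ht, rfl⟩
    rw [hV] at h3
    exact Finset.notMem_empty _ h3
  rw [natDegree_derivative, hd] at hd0
  omega


variable {N : Type} [Field N] [Algebra k N]

theorem final {p : ℕ} (hp : 2 ≤ p) {c : k} (hc : c ≠ 0) (h2 : ¬ (p = 2 ∧ c = -2)) {M : ℕ}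
    (hM : 1 ≤ M) {x y : N} (hx : Transcendental k x) (hy : Transcendental k y)
    (h : RelE k x y ((fn p c)^[M] x) ((fn p c)^[M] y))
    (hex : ∃ (n : ℕ) (g : k[X]), (fn p c)^[n] y = aeval x g) :
    ∃ i j : ℕ, (fn p c)^[j] y = (fn p c)^[i] x := by
  classical
  obtain ⟨ζ, hζ⟩ := exists_zeta (k := k) hp
  have hζp : ζ ^ p = 1 := hζ.pow_eq_one
  have hP : ∃ d : ℕ, ∃ (i j : ℕ) (g : k[X]), g.natDegree = d ∧
      (fn p c)^[j] y = aeval ((fn p c)^[i] x) g := by
    obtain ⟨n, g, hg⟩ := hex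
    exact ⟨_, 0, n, g, rfl, hg⟩
  obtain ⟨d, ⟨i₀, j₀, g₀, hg₀, hyg₀⟩, hmin⟩ : ∃ d : ℕ, (∃ (i j : ℕ) (g : k[X]), g.natDegree = d ∧
      (fn p c)^[j] y = aeval ((fn p c)^[i] x) g) ∧ ∀ m, m < d → ¬ ∃ (i j : ℕ) (g : k[X]),
        g.natDegree = m ∧ (fn p c)^[j] y = aeval ((fn p c)^[i] x) g :=
    ⟨Nat.find hP, Nat.find_spec hP, fun m hm => Nat.find_min hP hm⟩
  have htx : ∀ n, Transcendental k ((fn p c)^[n] x) := trans_iter (pos_of_two_le hp) hx
  have hty : ∀ n, Transcendental k ((fn p c)^[n] y) := trans_iter (pos_of_two_le hp) hy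
  have hd1 : 1 ≤ d := by
    rw [Nat.one_le_iff_ne_zero]
    rintro rfl
    obtain ⟨b, hb⟩ := natDegree_eq_zero.1 hg₀
    apply hty j₀
    rw [hyg₀, ← hb, aeval_C]
    exact isAlgebraic_algebraMap b
  -- the degree drops
  have hnot : ∀ (i j : ℕ) (g h : k[X]), g.natDegree = d →
      (fn p c)^[j] y = aeval ((fn p c)^[i] x) g → g ≠ h.comp (X ^ p + C c) := by
    intro i j g h hg hyg hgh
    have h3 : d = h.natDegree * p := by
      rw [← hg, hgh, natDegree_comp, natDegree_add_C, natDegree_X_pow]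
    have h4 : h.natDegree < d := by
      have h5 := hp
      rw [h3]
      rw [h3] at hd1
      have h6 : 1 ≤ h.natDegree := Nat.one_le_iff_ne_zero.2 (by
        rintro h0
        rw [h0, Nat.zero_mul] at hd1
        omega)
      nlinarith
    refine hmin _ h4 ⟨i + 1, j, h, rfl, ?_⟩
    rw [Function.iterate_succ_apply', aeval_fn, ← hgh, hyg]
  -- the step
  have hstep : ∀ i j : ℕ, (∃ g : k[X], g.natDegree = d ∧
      (fn p c)^[j] y = aeval ((fn p c)^[i] x) g) →
      ∃ g : k[X], g.natDegree = d ∧ (fn p c)^[j + 1] y = aeval ((fn p c)^[i + 1] x) g := by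
    rintro i j ⟨g, hg, hyg⟩
    have hF : ∀ l : ℕ, (fn p c)^[j + l] y =
        aeval ((fn p c)^[i] x) ((fun g : k[X] => g ^ p + C c)^[l] g) := by
      intro l
      rw [aeval_F, ← hyg, add_comm, Function.iterate_add_apply]
    have hL : ∃ l : ℕ, ∃ h : k[X], (fn p c)^[j + (l + 1)] y = aeval ((fn p c)^[i + 1] x) h := by
      have h3 := relE_ij h i j (X - C g) (by rw [map_sub, ev_X, ev_C, hyg, sub_self])
      rw [map_sub, ev_X, ev_C, sub_eq_zero] at h3
      refine ⟨M - 1, g.comp (It p c (M - 1)), ?_⟩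
      rw [aeval_comp, aeval_It, ← Function.iterate_add_apply]
      have h4 : M - 1 + (i + 1) = M + i := by omega
      have h5 : j + (M - 1 + 1) = M + j := by omega
      rw [h4, h5, Function.iterate_add_apply, Function.iterate_add_apply]
      exact h3
    obtain ⟨l, ⟨hh, hhl⟩, hlmin⟩ : ∃ l : ℕ, (∃ h : k[X],
        (fn p c)^[j + (l + 1)] y = aeval ((fn p c)^[i + 1] x) h) ∧ ∀ m, m < l →
        ¬ ∃ h : k[X], (fn p c)^[j + (m + 1)] y = aeval ((fn p c)^[i + 1] x) h :=
      ⟨Nat.find hL, Nat.find_spec hL, fun m hm => Nat.find_min hL hm⟩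
    have h3 : (fun g : k[X] => g ^ p + C c)^[l + 1] g = hh.comp (X ^ p + C c) := by
      apply aeval_inj (htx i)
      rw [← hF, hhl, Function.iterate_succ_apply', aeval_fn]
    cases l with
    | zero =>
      refine ⟨hh, ?_, hhl⟩
      have h4 := congrArg natDegree h3
      rw [natDegree_iterF, natDegree_comp, natDegree_add_C, natDegree_X_pow, hg, zero_add,
        pow_one, mul_comm] at h4
      exact (Nat.eq_of_mul_eq_mul_right (pos_of_two_le hp) h4).symm
    | succ l =>
      exfalso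
      have h4 : ((fun g : k[X] => g ^ p + C c)^[l + 1] g).comp (C ζ * X) ^ p =
          ((fun g : k[X] => g ^ p + C c)^[l + 1] g) ^ p := by
        have h5 := congrArg (fun f : k[X] => f.comp (C ζ * X)) h3
        simp only [comp_rot hζp] at h5
        rw [← h3, Function.iterate_succ_apply', add_comp, pow_comp, C_comp] at h5
        exact add_right_cancel h5
      obtain ⟨ξ, hξ, hξe⟩ := pow_eq hp hζ h4
      by_cases hξ1 : ξ = 1
      · rw [hξ1, C_1, one_mul] at hξe
        obtain ⟨h', hh'⟩ := of_invariant hp c hζ hξe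
        refine hlmin l (Nat.lt_succ_self l) ⟨h', ?_⟩
        rw [hF, hh', Function.iterate_succ_apply', aeval_fn]
      · rw [Function.iterate_succ_apply', add_comp, pow_comp, C_comp] at hξe
        have h6 := no_fermat hp hc hζ hξ hξ1 hξe
        rw [natDegree_iterF, hg] at h6
        have : 0 < p ^ l * d := Nat.mul_pos (pow_pos (pos_of_two_le hp) l) hd1
        omega
  -- the sequence
  have hseq : ∀ a : ℕ, ∃ g : k[X], g.natDegree = d ∧
      (fn p c)^[j₀ + a] y = aeval ((fn p c)^[i₀ + a] x) g := by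
    intro a
    induction a with
    | zero => exact ⟨g₀, hg₀, hyg₀⟩
    | succ a ih => exact hstep _ _ ih
  choose g hgd hg using hseq
  have hrel : ∀ a, (g (a + 1)).comp (X ^ p + C c) = g a ^ p + C c := by
    intro a
    apply aeval_inj (htx (i₀ + a))
    rw [← aeval_fn, ← Function.iterate_succ_apply' (fn p c)]
    have h3 := hg (a + 1)
    rw [← add_assoc, ← add_assoc] at h3
    rw [Nat.succ_eq_add_one, ← h3, Function.iterate_succ_apply', hg a, map_add, map_pow, aeval_C]
    rfl
  have hinv : ∀ a, ∃ ξ : k, ξ ^ p = 1 ∧ ξ ≠ 1 ∧ (g a).comp (C ζ * X) = C ξ * g a := by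
    intro a
    have h4 : (g a).comp (C ζ * X) ^ p = g a ^ p := by
      have h5 := congrArg (fun f : k[X] => f.comp (C ζ * X)) (hrel a)
      simp only [comp_rot hζp] at h5
      rw [hrel, add_comp, pow_comp, C_comp] at h5
      exact (add_right_cancel h5).symm
    obtain ⟨ξ, hξ, hξe⟩ := pow_eq hp hζ h4
    refine ⟨ξ, hξ, ?_, hξe⟩
    rintro rfl
    rw [C_1, one_mul] at hξe
    obtain ⟨h', hh'⟩ := of_invariant hp c hζ hξe
    exact hnot _ _ _ _ (hgd a) (hg a) hh'
  have hper : ∀ a, g (a + M) = g a := by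
    intro a
    apply aeval_inj (htx (i₀ + (a + M)))
    rw [← hg]
    have h3 := relE_ij h (i₀ + a) (j₀ + a) (X - C (g a)) (by
      rw [map_sub, ev_X, ev_C, hg, sub_self])
    rw [map_sub, ev_X, ev_C, sub_eq_zero] at h3
    have h4 : j₀ + (a + M) = M + (j₀ + a) := by omega
    have h5 : i₀ + (a + M) = M + (i₀ + a) := by omega
    rw [h4, h5, Function.iterate_add_apply (fn p c) M (j₀ + a) y,
      Function.iterate_add_apply (fn p c) M (i₀ + a) x]
    exact h3
  have hd : d = 1 := linear hp hc h2 hζ hM hd1 g hgd hrel hinv hper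
  -- linear polynomials
  have hlin : ∀ a, ∃ α : k, α ≠ 0 ∧ g a = C α * X := by
    intro a
    obtain ⟨ξ, hξ, hξ1, hcomp⟩ := hinv a
    have h3 : (g a).natDegree = 1 := (hgd a).trans hd
    obtain ⟨α, hα, β, hβ⟩ := natDegree_eq_one.1 h3
    refine ⟨α, hα, ?_⟩
    have h4 := congrArg (fun f : k[X] => f.coeff 0) hcomp
    simp only [comp_C_mul_X_coeff, pow_zero, mul_one, coeff_C_mul] at h4
    rw [← hβ] at h4
    simp only [coeff_add, coeff_C_mul, coeff_X_zero, mul_zero, coeff_C_zero, zero_add] at h4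
    have h5 : (1 - ξ) * β = 0 := by linear_combination h4
    have h6 : β = 0 := (mul_eq_zero.1 h5).resolve_left (sub_ne_zero.2 (Ne.symm hξ1))
    rw [← hβ, h6, C_0, add_zero]
  obtain ⟨α₀, hα₀, hg0⟩ := hlin 0
  obtain ⟨α₁, hα₁, hg1⟩ := hlin 1
  have h3 := hrel 0
  rw [zero_add, hg0, hg1] at h3
  have h4 := congrArg (fun f : k[X] => f.coeff 0) h3
  simp only [mul_comp, C_comp, X_comp, coeff_C_mul, coeff_add, coeff_X_pow, coeff_C_zero, mul_pow,
    ← C_pow, if_neg (ne_of_two_le hp).symm, mul_zero, zero_add] at h4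
  have h5 : α₁ = 1 := by
    have h6 : (α₁ - 1) * c = 0 := by linear_combination h4
    exact sub_eq_zero.1 ((mul_eq_zero.1 h6).resolve_right hc)
  refine ⟨i₀ + 1, j₀ + 1, ?_⟩
  rw [hg 1, hg1, h5, C_1, one_mul, aeval_X]

end Pq

theorem pairbq (hA : PairaqStatement) : PairqStatement := by
  intro k N _ _ _ _ _ p c M x y hp hc h2 hM hx hy halg hE
  have hR : Pb.RelE k x y ((Pb.fn p c)^[M] x) ((Pb.fn p c)^[M] y) := Pb.relE_of_mv hE
  obtain ⟨n, hn⟩ := hA k N p c M x y hp hc h2 hM hx hy halg hE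
  have hn' : (Pb.fn p c)^[n] y ∈ adjoin k {x} := hn
  obtain ⟨g, hg⟩ := Pq.isPoly hp hc hM hx (Pb.relE_ij hR 0 n) hn'
  obtain ⟨i, j, hij⟩ := Pq.final hp hc h2 hM hx hy hR ⟨n, g, hg⟩
  by_cases hle : i ≤ j
  · -- `f ^ i (f ^ (j - i) y) = f ^ i x`
    refine ⟨j - i, Or.inr ?_⟩
    have h3 : (Pb.fn p c)^[i] x = (Pb.fn p c)^[i] ((Pb.fn p c)^[j - i] y) := by
      rw [← Function.iterate_add_apply, Nat.add_sub_cancel' hle, hij]
    have h4 := Pb.inj hM (Pb.relE_ij hR 0 (j - i)) h3 (Pb.trans_iter (Pq.pos_of_two_le hp) hx)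
    exact h4.symm
  · refine ⟨i - j, Or.inl ?_⟩
    have h3 : (Pb.fn p c)^[j] ((Pb.fn p c)^[i - j] x) = (Pb.fn p c)^[j] y := by
      rw [← Function.iterate_add_apply, Nat.add_sub_cancel' (Nat.le_of_not_le hle), hij]
    exact Pb.inj hM (Pb.relE_ij hR (i - j) 0) h3
      (Pb.trans_iter (Pq.pos_of_two_le hp) (Pb.trans_iter (Pq.pos_of_two_le hp) hx _))

end Pool.DynLehmer.UN
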