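import Pool.Agent.Lib.MP_2194ec_nt.UN.PolDefs

set_option autoImplicit false

/-!
# Periodic pairs of a polynomial: ramification
-/

set_option linter.unusedSectionVars false

/-!
# Periodic pairs of a polynomial: the count (row Y5A)
-/

namespace Pool.DynLehmer.UN
open Polynomial

namespace Y5h

section ram
variable {k : Type} [Field k] [IsAlgClosed k] [CharZero k] {f : k[X]}

omit [IsAlgClosed k] [CharZero k] in
theorem sub_ne (hf : 1 ≤ f.natDegree) (w : k) : f - C w ≠ 0 := by
  intro h
  have h1 : (f - C w).natDegree = f.natDegree := natDegree_sub_C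
  rw [h, natDegree_zero] at h1
  omega

omit [IsAlgClosed k] [CharZero k] in
theorem ram_pos (hf : 1 ≤ f.natDegree) (a : k) : 1 ≤ ram f a :=
  (rootMultiplicity_pos (sub_ne hf _)).2 (by simp [IsRoot])

omit [IsAlgClosed k] in
theorem ram_der (a : k) : (derivative f).rootMultiplicity a = ram f a - 1 := by
  have h1 : (f - C (f.eval a)).IsRoot a := by simp [IsRoot]
  have h2 := derivative_rootMultiplicity_of_root h1
  rw [derivative_sub, derivative_C, sub_zero] at h2
  exact h2

omit [IsAlgClosed k] [CharZero k] in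
theorem ram_eq {a b : k} (h : f.eval a = b) : ram f a = (f - C b).rootMultiplicity a := by
  rw [ram, h]

omit [CharZero k] in
theorem card_roots_sub (w : k) : Multiset.card (f - C w).roots = f.natDegree := by
  have h1 : (f - C w).natDegree = f.natDegree := natDegree_sub_C
  rw [← h1]
  exact (IsAlgClosed.splits (f - C w)).natDegree_eq_card_roots.symm

omit [IsAlgClosed k] [CharZero k] in
theorem mem_roots_sub (hf : 1 ≤ f.natDegree) {a w : k} : a ∈ (f - C w).roots ↔ f.eval a = w := by
  rw [mem_roots (sub_ne hf w), IsRoot, eval_sub, eval_C, sub_eq_zero]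

theorem card_roots_der : Multiset.card (derivative f).roots = f.natDegree - 1 := by
  rw [← natDegree_derivative f]
  exact (IsAlgClosed.splits (derivative f)).natDegree_eq_card_roots.symm

omit [IsAlgClosed k] in
theorem der_ne (hf : 1 ≤ f.natDegree) : derivative f ≠ 0 := by
  intro h
  have := derivative_eq_zero.1 h
  omega

end ram

section step
variable {k : Type} [Field k] [IsAlgClosed k] [CharZero k] {f : k[X]}

/-- the sum of `1 - 1 / r` -/
noncomputable def s (r : k → ℕ) : ℚ := ∑ᶠ a, (1 - 1 / (r a : ℚ))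

omit [IsAlgClosed k] [CharZero k] in
theorem s_eq {r : k → ℕ} {A : Finset k} (h : ∀ a, r a ≠ 1 → a ∈ A) :
    s r = ∑ a ∈ A, (1 - 1 / (r a : ℚ)) := by
  refine finsum_eq_sum_of_support_subset _ fun a ha => ?_
  refine h a fun h1 => ha ?_
  show 1 - 1 / (r a : ℚ) = 0
  rw [h1]
  norm_num

theorem step {r r' : k → ℕ} (hf : 1 ≤ f.natDegree) (hr : ∀ a, 1 ≤ r a) (hr' : ∀ a, 1 ≤ r' a)
    (hfin : {a | r a ≠ 1}.Finite) (hfin' : {a | r' a ≠ 1}.Finite)
    (h : ∀ a, r' (f.eval a) ≤ ram f a * r a) :
    (f.natDegree : ℚ) * (s r' - 1) ≤ s r - 1 ∧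
      ((f.natDegree : ℚ) * (s r' - 1) = s r - 1 → ∀ a, r' (f.eval a) = ram f a * r a) := by
  classical
  set B : Finset k := hfin'.toFinset ∪ hfin.toFinset.image (fun a => f.eval a) ∪
    (derivative f).roots.toFinset.image (fun a => f.eval a) with hB
  set A : Finset k := B.biUnion fun b => (f - C b).roots.toFinset with hA
  have mA : ∀ a, a ∈ A ↔ f.eval a ∈ B := by
    intro a
    rw [hA, Finset.mem_biUnion]
    constructor
    · rintro ⟨b, hb, hab⟩
      rw [Multiset.mem_toFinset, mem_roots_sub hf] at hab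
      rw [hab]
      exact hb
    · intro hb
      exact ⟨_, hb, by rw [Multiset.mem_toFinset, mem_roots_sub hf]⟩
  have mB' : ∀ b, r' b ≠ 1 → b ∈ B := fun b hb => by
    rw [hB, Finset.mem_union, Finset.mem_union]
    exact Or.inl (Or.inl (hfin'.mem_toFinset.2 hb))
  have mAr : ∀ a, r a ≠ 1 → a ∈ A := fun a ha => by
    rw [mA, hB, Finset.mem_union, Finset.mem_union]
    exact Or.inl (Or.inr (Finset.mem_image_of_mem _ (hfin.mem_toFinset.2 ha)))
  have mAd : ∀ a ∈ (derivative f).roots, a ∈ A := fun a ha => by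
    rw [mA, hB, Finset.mem_union, Finset.mem_union]
    exact Or.inr (Finset.mem_image_of_mem _ (Multiset.mem_toFinset.2 ha))
  -- the sum over the fibres
  have hfib : ∀ b ∈ B, ∑ a ∈ A with f.eval a = b, (ram f a : ℚ) = f.natDegree := by
    intro b hb
    have h1 : A.filter (fun a => f.eval a = b) = (f - C b).roots.toFinset := by
      ext a
      rw [Finset.mem_filter, Multiset.mem_toFinset, mem_roots_sub hf, mA]
      constructor
      · exact fun h => h.2
      · intro h
        exact ⟨by rw [h]; exact hb, h⟩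
    rw [h1, ← card_roots_sub (f := f) b, ← Multiset.toFinset_sum_count_eq, Nat.cast_sum]
    refine Finset.sum_congr rfl fun a ha => ?_
    rw [Multiset.mem_toFinset, mem_roots_sub hf] at ha
    rw [ram_eq ha, count_roots]
  have hder : ∑ a ∈ A, ((ram f a : ℚ) - 1) = f.natDegree - 1 := by
    have h1 : ∑ a ∈ A, (derivative f).roots.count a = f.natDegree - 1 := by
      rw [Multiset.sum_count_eq_card mAd, card_roots_der]
    have h2 : (∑ a ∈ A, ((derivative f).roots.count a : ℚ)) = (f.natDegree : ℚ) - 1 := by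
      rw [← Nat.cast_sum, h1, Nat.cast_sub hf, Nat.cast_one]
    rw [← h2]
    refine Finset.sum_congr rfl fun a _ => ?_
    rw [count_roots, ram_der, Nat.cast_sub (ram_pos hf a), Nat.cast_one]
  have e1 : (f.natDegree : ℚ) * s r' =
      ∑ a ∈ A, (ram f a : ℚ) * (1 - 1 / (r' (f.eval a) : ℚ)) := by
    rw [s_eq mB', Finset.mul_sum,
      ← Finset.sum_fiberwise_of_maps_to (fun a ha => (mA a).1 ha)]
    refine Finset.sum_congr rfl fun b hb => ?_
    rw [← hfib b hb, Finset.sum_mul]
    refine Finset.sum_congr rfl fun a ha => ?_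
    rw [(Finset.mem_filter.1 ha).2]
  have e2 : s r + (f.natDegree - 1) = ∑ a ∈ A, ((ram f a : ℚ) - 1 / (r a : ℚ)) := by
    rw [s_eq mAr, ← hder, ← Finset.sum_add_distrib]
    refine Finset.sum_congr rfl fun a _ => ?_
    ring
  have hle : ∀ a ∈ A, (ram f a : ℚ) * (1 - 1 / (r' (f.eval a) : ℚ)) ≤
      (ram f a : ℚ) - 1 / (r a : ℚ) := by
    intro a _
    have h1 : (0 : ℚ) < r a := by exact_mod_cast hr a
    have h2 : (0 : ℚ) < r' (f.eval a) := by exact_mod_cast hr' (f.eval a)
    have h3 : (r' (f.eval a) : ℚ) ≤ ram f a * r a := by exact_mod_cast h a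
    have h4 : 1 / (r a : ℚ) ≤ ram f a / (r' (f.eval a) : ℚ) := by
      rw [div_le_div_iff₀ h1 h2, one_mul]
      exact h3
    have h5 : (ram f a : ℚ) * (1 - 1 / (r' (f.eval a) : ℚ)) =
        ram f a - ram f a / (r' (f.eval a) : ℚ) := by ring
    rw [h5]
    linarith
  have hsum := Finset.sum_le_sum hle
  rw [← e1, ← e2] at hsum
  refine ⟨by linarith, fun heq a => ?_⟩
  by_cases ha : a ∈ A
  · have h1 : ∑ a ∈ A, (ram f a : ℚ) * (1 - 1 / (r' (f.eval a) : ℚ)) =
        ∑ a ∈ A, ((ram f a : ℚ) - 1 / (r a : ℚ)) := by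
      rw [← e1, ← e2]
      linarith
    have h2 := (Finset.sum_eq_sum_iff_of_le hle).1 h1 a ha
    have h3 : (0 : ℚ) < r a := by exact_mod_cast hr a
    have h4 : (0 : ℚ) < r' (f.eval a) := by exact_mod_cast hr' (f.eval a)
    have h5 : (ram f a : ℚ) / (r' (f.eval a) : ℚ) = 1 / (r a : ℚ) := by
      have : (ram f a : ℚ) * (1 - 1 / (r' (f.eval a) : ℚ)) =
        ram f a - ram f a / (r' (f.eval a) : ℚ) := by ring
      rw [this] at h2
      linarith
    rw [div_eq_div_iff h4.ne' h3.ne', one_mul] at h5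
    exact_mod_cast h5.symm
  · have h1 : r' (f.eval a) = 1 := by
      by_contra h
      exact ha ((mA a).2 (mB' _ h))
    have h2 : r a = 1 := by
      by_contra h
      exact ha (mAr a h)
    have h3 : ram f a = 1 := by
      have h4 : (derivative f).rootMultiplicity a = 0 := by
        by_contra h
        refine ha (mAd a ?_)
        rw [← Multiset.count_pos, count_roots]
        exact Nat.pos_of_ne_zero h
      rw [ram_der] at h4
      have := ram_pos hf a
      omega
    rw [h1, h2, h3]

end step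

section small
variable {k : Type} [Field k]

/-- `s ≤ 1`: at most two points, and two points only if `r = 2`, `s = 1`. -/
theorem small {r : k → ℕ} (hr : ∀ a, 1 ≤ r a) (hfin : {a | r a ≠ 1}.Finite) (hs : s r ≤ 1) :
    (s r < 1 ∧ ∃ a, ∀ b, r b ≠ 1 → b = a) ∨
      (s r = 1 ∧ ∃ a b, a ≠ b ∧ r a = 2 ∧ r b = 2 ∧ ∀ c, c ≠ a → c ≠ b → r c = 1) := by
  classical
  have hs' := s_eq (r := r) (A := hfin.toFinset) fun a ha => hfin.mem_toFinset.2 ha
  set S := hfin.toFinset with hS
  have hge : ∀ a ∈ S, (1 : ℚ) / 2 ≤ 1 - 1 / (r a : ℚ) := by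
    intro a ha
    have h1 : r a ≠ 1 := hfin.mem_toFinset.1 ha
    have h2 : 2 ≤ r a := by
      have := hr a
      omega
    have h3 : (2 : ℚ) ≤ r a := by exact_mod_cast h2
    have h4 : 1 / (r a : ℚ) ≤ 1 / 2 := one_div_le_one_div_of_le (by norm_num) h3
    linarith
  have hcard : (S.card : ℚ) * (1 / 2) ≤ s r := by
    rw [hs']
    have := Finset.card_nsmul_le_sum S _ _ hge
    rwa [nsmul_eq_mul] at this
  have h2 : S.card ≤ 2 := by
    have : (S.card : ℚ) ≤ 2 := by linarith
    exact_mod_cast this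
  rcases Nat.lt_or_ge S.card 2 with h3 | h3
  · left
    have h4 : S.card ≤ 1 := by omega
    rcases Finset.card_le_one_iff_subset_singleton.1 h4 with ⟨a, ha⟩
    refine ⟨?_, a, fun b hb => ?_⟩
    · rcases Finset.subset_singleton_iff.1 ha with h5 | h5
      · rw [hs', h5, Finset.sum_empty]
        norm_num
      · rw [hs', h5, Finset.sum_singleton]
        have h6 : (0 : ℚ) < r a := by exact_mod_cast hr a
        have h7 : 0 < 1 / (r a : ℚ) := by positivity
        linarith
    · exact Finset.mem_singleton.1 (ha (hfin.mem_toFinset.2 hb))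
  · right
    have h4 : S.card = 2 := le_antisymm h2 h3
    obtain ⟨a, b, hab, hSab⟩ := Finset.card_eq_two.1 h4
    have ha : a ∈ S := by rw [hSab]; simp
    have hb : b ∈ S := by rw [hSab]; simp
    have h5 : s r = (1 - 1 / (r a : ℚ)) + (1 - 1 / (r b : ℚ)) := by
      rw [hs', hSab, Finset.sum_pair hab]
    have h6 := hge a ha
    have h7 := hge b hb
    have h8 : ∀ c : k, 1 - 1 / (r c : ℚ) = 1 / 2 → r c = 2 := by
      intro c hc
      have h9 : (0 : ℚ) < r c := by exact_mod_cast hr c
      have h10 : 1 / (r c : ℚ) = 1 / 2 := by linarith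
      have h11 : (r c : ℚ) = 2 := by
        rw [div_eq_div_iff h9.ne' (by norm_num)] at h10
        linarith
      exact_mod_cast h11
    refine ⟨by linarith, a, b, hab, h8 a (by linarith), h8 b (by linarith), fun c hca hcb => ?_⟩
    by_contra h
    have : c ∈ S := hfin.mem_toFinset.2 h
    rw [hSab] at this
    simp at this
    tauto

end small

end Y5h

/-- Row Y5A: the count. -/
theorem y5a : Y5aStatement := by
  intro k _ _ _ f M r hq hM hr hfin hper h
  have hf : 1 ≤ f.natDegree := by omega
  have hst := fun j => Y5h.step hf (hr j) (hr (j + 1)) (hfin j) (hfin (j + 1)) (h j)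
  set σ : ℕ → ℚ := fun j => Y5h.s (r j) - 1 with hσ
  have hq1 : (1 : ℚ) < f.natDegree := by
    have : 1 < f.natDegree := by omega
    exact_mod_cast this
  have h1 : ∀ j, (f.natDegree : ℚ) * σ (j + 1) ≤ σ j := fun j => (hst j).1
  have h2 : ∀ n j, (f.natDegree : ℚ) ^ n * σ (j + n) ≤ σ j := by
    intro n
    induction n with
    | zero => intro j; simp
    | succ n ih =>
      intro j
      calc (f.natDegree : ℚ) ^ (n + 1) * σ (j + (n + 1))
          = (f.natDegree : ℚ) ^ n * ((f.natDegree : ℚ) * σ (j + n + 1)) := by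
            rw [pow_succ, mul_assoc, ← add_assoc]
        _ ≤ (f.natDegree : ℚ) ^ n * σ (j + n) :=
            mul_le_mul_of_nonneg_left (h1 (j + n)) (by positivity)
        _ ≤ σ j := ih j
  have hσM : ∀ j, σ (j + M) = σ j := fun j => by rw [hσ]; simp only [hper]
  have h3 : ∀ j, σ j ≤ 0 := by
    intro j
    have h4 := h2 M j
    rw [hσM] at h4
    have h5 : (1 : ℚ) < (f.natDegree : ℚ) ^ M := one_lt_pow₀ hq1 (by omega)
    nlinarith
  have h4 := fun j => Y5h.small (hr j) (hfin j) (by
    have := h3 j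
    rw [hσ] at this
    simp only at this
    linarith)
  by_cases hall : ∀ j, Y5h.s (r j) < 1
  · left
    intro j
    rcases h4 j with h5 | h5
    · exact h5.2
    · have := hall j
      linarith [h5.1]
  · right
    push Not at hall
    obtain ⟨j₀, hj₀⟩ := hall
    have h5 : 0 ≤ σ j₀ := by
      show 0 ≤ Y5h.s (r j₀) - 1
      linarith
    have hσt : ∀ t, σ (j₀ + t * M) = σ j₀ := by
      intro t
      induction t with
      | zero => simp
      | succ t ih => rw [add_mul, one_mul, ← add_assoc, hσM, ih]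
    have h6 : ∀ j, σ j = 0 := by
      intro j
      have hle : j ≤ j₀ + j * M := by nlinarith
      have h7 := h2 (j₀ + j * M - j) j
      rw [Nat.add_sub_cancel' hle, hσt] at h7
      have h8 : 0 ≤ (f.natDegree : ℚ) ^ (j₀ + j * M - j) * σ j₀ := by positivity
      exact le_antisymm (h3 j) (h8.trans h7)
    have h7 : ∀ j, Y5h.s (r j) = 1 := by
      intro j
      have := h6 j
      rw [hσ] at this
      simp only at this
      linarith
    refine ⟨fun j => ?_, fun j => (hst j).2 ?_⟩
    · rcases h4 j with h8 | h8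
      · exact absurd (h7 j) h8.1.ne
      · exact h8.2
    · rw [h7, h7]
      norm_num

end Pool.DynLehmer.UN

set_option linter.unusedSectionVars false

/-!
# Periodic pairs of a polynomial: the Chebyshev case (row Y5B)
-/

namespace Pool.DynLehmer.UN
open Polynomial

namespace Y5h

variable {k : Type} [Field k] [IsAlgClosed k] [CharZero k] {f : k[X]}

theorem ram_two_iff (hf : 1 ≤ f.natDegree) (a : k) :
    2 ≤ ram f a ↔ (derivative f).IsRoot a := by
  rw [← rootMultiplicity_pos (der_ne hf), ram_der]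
  omega

/-- a value over which `f` is not ramified has `f.natDegree` preimages -/
theorem card_fibre [DecidableEq k] (hf : 1 ≤ f.natDegree) (w : k) (h : ∀ z, f.eval z = w → ram f z = 1) :
    (f - C w).roots.toFinset.card = f.natDegree := by
  rw [← card_roots_sub (f := f) w]
  refine Multiset.toFinset_card_of_nodup ?_
  rw [Multiset.nodup_iff_count_le_one]
  intro z
  by_cases hz : z ∈ (f - C w).roots
  · rw [count_roots, ← ram_eq ((mem_roots_sub hf).1 hz), h z ((mem_roots_sub hf).1 hz)]
  · rw [Multiset.count_eq_zero_of_notMem hz]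
    omega

variable {r : ℕ → k → ℕ}

theorem one_or_two (h2 : ∀ j, ∃ a b, a ≠ b ∧ r j a = 2 ∧ r j b = 2 ∧
    ∀ c, c ≠ a → c ≠ b → r j c = 1) (j : ℕ) (z : k) : r j z = 1 ∨ r j z = 2 := by
  obtain ⟨a, b, -, ha, hb, h⟩ := h2 j
  by_cases h3 : z = a
  · right
    rw [h3, ha]
  · by_cases h4 : z = b
    · right
      rw [h4, hb]
    · exact Or.inl (h z h3 h4)

/-- the points of index `2` as a finite set -/
theorem exists_S (h2 : ∀ j, ∃ a b, a ≠ b ∧ r j a = 2 ∧ r j b = 2 ∧
    ∀ c, c ≠ a → c ≠ b → r j c = 1) (j : ℕ) : ∃ S : Finset k, S.card = 2 ∧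
      ∀ z, z ∈ S ↔ r j z = 2 := by
  classical
  obtain ⟨a, b, hab, ha, hb, h⟩ := h2 j
  refine ⟨{a, b}, Finset.card_pair hab, fun z => ?_⟩
  rw [Finset.mem_insert, Finset.mem_singleton]
  constructor
  · rintro (rfl | rfl)
    · exact ha
    · exact hb
  · intro hz
    by_contra hcon
    push Not at hcon
    have := h z hcon.1 hcon.2
    omega

/-- over a critical value the index is `2` -/
theorem crit_two
    (h2 : ∀ j, ∃ a b, a ≠ b ∧ r j a = 2 ∧ r j b = 2 ∧ ∀ c, c ≠ a → c ≠ b → r j c = 1)
    (h : ∀ j a, r (j + 1) (f.eval a) = ram f a * r j a) (j : ℕ) {z : k} (hz : 2 ≤ ram f z) :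
    r (j + 1) (f.eval z) = 2 := by
  have h3 := h j z
  rcases one_or_two h2 (j + 1) (f.eval z) with h4 | h4
  · exfalso
    rw [h4] at h3
    rcases one_or_two h2 j z with h5 | h5 <;> rw [h5] at h3 <;> omega
  · exact h4

/-- a value of index `2` which is not critical: all preimages have index `2`. -/
theorem noncrit (h : ∀ j a, r (j + 1) (f.eval a) = ram f a * r j a)
    (hf : 1 ≤ f.natDegree) (h2 : ∀ j, ∃ a b, a ≠ b ∧ r j a = 2 ∧ r j b = 2 ∧
      ∀ c, c ≠ a → c ≠ b → r j c = 1) (j : ℕ) {w : k} (hw : r (j + 1) w = 2)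
    (hc : ∀ z, f.eval z = w → ram f z = 1) :
    f.natDegree ≤ 2 ∧ (2 ≤ f.natDegree → ∀ z, r j z = 2 → f.eval z = w) := by
  classical
  obtain ⟨S, hS, hS'⟩ := exists_S h2 j
  have h3 : (f - C w).roots.toFinset ⊆ S := by
    intro z hz
    rw [Multiset.mem_toFinset, mem_roots_sub hf] at hz
    rw [hS']
    have h4 := h j z
    rw [hz, hw, hc z hz] at h4
    omega
  have h4 := Finset.card_le_card h3
  rw [card_fibre hf w hc, hS] at h4
  refine ⟨h4, fun h5 z hz => ?_⟩
  have h6 : (f - C w).roots.toFinset = S := by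
    refine Finset.eq_of_subset_of_card_le h3 ?_
    rw [card_fibre hf w hc, hS]
    exact h5
  have h7 : z ∈ (f - C w).roots.toFinset := by
    rw [h6, hS']
    exact hz
  rw [Multiset.mem_toFinset, mem_roots_sub hf] at h7
  exact h7

theorem eq_two_iff (hq : 2 ≤ f.natDegree)
    (h2 : ∀ j, ∃ a b, a ≠ b ∧ r j a = 2 ∧ r j b = 2 ∧ ∀ c, c ≠ a → c ≠ b → r j c = 1)
    (h : ∀ j a, r (j + 1) (f.eval a) = ram f a * r j a) (w : k) (hw : r 2 w = 2) :
    r 3 w = 2 := by
  have hf : 1 ≤ f.natDegree := by omega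
  by_cases hc : ∃ z, f.eval z = w ∧ 2 ≤ ram f z
  · obtain ⟨z, hz, hz2⟩ := hc
    rw [← hz]
    exact crit_two h2 h 2 hz2
  · have hc' : ∀ z, f.eval z = w → ram f z = 1 := by
      intro z hz
      by_contra h3
      refine hc ⟨z, hz, ?_⟩
      have := ram_pos hf z
      omega
    obtain ⟨h3, h4⟩ := noncrit h hf h2 1 hw hc'
    -- the critical point
    obtain ⟨c₀, hc₀⟩ := IsAlgClosed.exists_root (derivative f) (by
      rw [degree_eq_natDegree (der_ne hf), natDegree_derivative]
      intro h5
      have h6 : f.natDegree - 1 = 0 := by exact_mod_cast h5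
      omega)
    have hr0 : 2 ≤ ram f c₀ := (ram_two_iff hf c₀).2 hc₀
    have huniq : ∀ z, 2 ≤ ram f z → z = c₀ := by
      intro z hz
      classical
      have h5 : ({z, c₀} : Finset k).card ≤ 1 := by
        have h6 : ({z, c₀} : Finset k) ⊆ (derivative f).roots.toFinset := by
          intro u hu
          rw [Finset.mem_insert, Finset.mem_singleton] at hu
          rw [Multiset.mem_toFinset, mem_roots (der_ne hf)]
          rcases hu with rfl | rfl
          · exact (ram_two_iff hf _).1 hz
          · exact hc₀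
        calc _ ≤ (derivative f).roots.toFinset.card := Finset.card_le_card h6
          _ ≤ Multiset.card (derivative f).roots := Multiset.toFinset_card_le _
          _ ≤ 1 := by
            rw [card_roots_der]
            omega
      by_contra hne
      rw [Finset.card_pair hne] at h5
      omega
    have hv : ∀ j, r (j + 1) (f.eval c₀) = 2 := fun j => crit_two h2 h j hr0
    have hwv : f.eval (f.eval c₀) = w := h4 hq _ (hv 0)
    -- the second point of `r 3`
    obtain ⟨a, b, hab, ha, hb, hr3⟩ := h2 3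
    have hne : ∃ u, u ≠ f.eval c₀ ∧ r 3 u = 2 := by
      by_cases h5 : a = f.eval c₀
      · exact ⟨b, fun h6 => hab (h5.trans h6.symm), hb⟩
      · exact ⟨a, h5, ha⟩
    obtain ⟨u, hu, hu2⟩ := hne
    have hcu : ∀ z, f.eval z = u → ram f z = 1 := by
      intro z hz
      by_contra h5
      have h6 : 2 ≤ ram f z := by
        have := ram_pos hf z
        omega
      rw [huniq z h6] at hz
      exact hu hz.symm
    have h5 := (noncrit h hf h2 2 hu2 hcu).2 hq _ (hv 1)
    rw [← hwv, h5]
    exact hu2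

end Y5h

open Y5h

/-- Row Y5B: the Chebyshev case. -/
theorem y5b : Y5bStatement := by
  intro k _ _ _ f r hq h2 h
  classical
  have hf : 1 ≤ f.natDegree := by omega
  obtain ⟨a, b, hab, ha, hb, hr2⟩ := h2 2
  have h12 := one_or_two h2
  -- `r 2 = r 3`
  have h3 : ∀ w, r 3 w = r 2 w := by
    obtain ⟨S₂, hS₂, hS₂'⟩ := exists_S h2 2
    obtain ⟨S₃, hS₃, hS₃'⟩ := exists_S h2 3
    have h4 : S₂ = S₃ := by
      refine Finset.eq_of_subset_of_card_le (fun w hw => ?_) (by rw [hS₂, hS₃])
      rw [hS₃']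
      exact eq_two_iff hq h2 h w ((hS₂' w).1 hw)
    intro w
    rcases h12 2 w with h5 | h5
    · rcases h12 3 w with h6 | h6
      · rw [h5, h6]
      · exfalso
        rw [← hS₃', ← h4, hS₂', h5] at h6
        omega
    · have h6 : r 3 w = 2 := by
        rw [← hS₃', ← h4, hS₂']
        exact h5
      rw [h5, h6]
  have hA0 : ((X - C a) * (X - C b) : k[X]) ≠ 0 :=
    mul_ne_zero (X_sub_C_ne_zero a) (X_sub_C_ne_zero b)
  have hAm : ((X - C a) * (X - C b) : k[X]).Monic := (monic_X_sub_C a).mul (monic_X_sub_C b)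
  have hAd : ((X - C a) * (X - C b) : k[X]).natDegree = 2 := by
    rw [natDegree_mul (X_sub_C_ne_zero a) (X_sub_C_ne_zero b), natDegree_X_sub_C,
      natDegree_X_sub_C]
  refine ⟨(X - C a) * (X - C b), hAd, ?_⟩
  set A : k[X] := (X - C a) * (X - C b) with hA
  have hcomp : A.comp f = (f - C a) * (f - C b) := by
    rw [hA, mul_comp, sub_comp, sub_comp, X_comp, C_comp, C_comp]
  have hq0 : ((f.natDegree : k) ^ 2) ≠ 0 := pow_ne_zero 2 (Nat.cast_ne_zero.2 (by omega))
  have hc0 : (f - C a) * (f - C b) ≠ 0 := mul_ne_zero (sub_ne hf a) (sub_ne hf b)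
  -- multiplicities
  have hmulA : ∀ z, A.rootMultiplicity z = r 2 z - 1 := by
    intro z
    rw [hA, rootMultiplicity_mul hA0, rootMultiplicity_X_sub_C, rootMultiplicity_X_sub_C]
    by_cases hza : z = a
    · subst hza
      rw [if_pos rfl, if_neg hab, ha]
    · by_cases hzb : z = b
      · subst hzb
        rw [if_neg hza, if_pos rfl, hb]
      · rw [if_neg hza, if_neg hzb, hr2 z hza hzb]
  have hmulf : ∀ w z : k, (f - C w).rootMultiplicity z = if f.eval z = w then ram f z else 0 := by
    intro w z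
    split_ifs with h4
    · rw [ram_eq h4]
    · refine rootMultiplicity_eq_zero fun h5 => h4 ?_
      rw [IsRoot, eval_sub, eval_C, sub_eq_zero] at h5
      exact h5
  have hroots : (A * derivative f ^ 2).roots = (C ((f.natDegree : k) ^ 2) * A.comp f).roots := by
    ext z
    rw [count_roots, count_roots, hcomp, rootMultiplicity_mul (mul_ne_zero hA0
      (pow_ne_zero 2 (der_ne hf))), rootMultiplicity_mul (mul_ne_zero (C_ne_zero.2 hq0) hc0),
      rootMultiplicity_C, zero_add, rootMultiplicity_mul hc0, hmulA, pow_two,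
      rootMultiplicity_mul (mul_ne_zero (der_ne hf) (der_ne hf)), ram_der, hmulf, hmulf]
    have h4 := h 2 z
    have h5 := ram_pos hf z
    have h6 : r 3 (f.eval z) = r 2 (f.eval z) := h3 _
    rw [show 2 + 1 = 3 from rfl, h6] at h4
    by_cases hza : f.eval z = a
    · rw [if_pos hza, if_neg (fun h7 => hab (hza.symm.trans h7))]
      rw [hza, ha] at h4
      rcases h12 2 z with h7 | h7 <;> rw [h7] at h4 ⊢ <;> omega
    · by_cases hzb : f.eval z = b
      · rw [if_neg hza, if_pos hzb]
        rw [hzb, hb] at h4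
        rcases h12 2 z with h7 | h7 <;> rw [h7] at h4 ⊢ <;> omega
      · rw [if_neg hza, if_neg hzb]
        rw [hr2 _ hza hzb] at h4
        rcases h12 2 z with h7 | h7 <;> rw [h7] at h4 ⊢ <;> omega
  -- leading coefficients
  have hlead : (A * derivative f ^ 2).leadingCoeff =
      (C ((f.natDegree : k) ^ 2) * A.comp f).leadingCoeff := by
    have h4 : (derivative f).leadingCoeff = f.leadingCoeff * f.natDegree := by
      rw [leadingCoeff, natDegree_derivative, coeff_derivative, Nat.sub_add_cancel hf,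
        Nat.cast_sub hf]
      simp
    rw [leadingCoeff_mul, hAm.leadingCoeff, leadingCoeff_pow, h4, leadingCoeff_mul,
      leadingCoeff_C, leadingCoeff_comp (by omega), hAm.leadingCoeff, hAd]
    ring
  have h5 := (IsAlgClosed.splits (A * derivative f ^ 2)).eq_prod_roots
  have h6 := (IsAlgClosed.splits (C ((f.natDegree : k) ^ 2) * A.comp f)).eq_prod_roots
  rw [h5, h6, hroots, hlead]

end Pool.DynLehmer.UN

/-!
# Row Y8A: finite completely invariant sets
-/

namespace Pool.DynLehmer.UN.Y8a
open Polynomial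

/-- the iterate of a polynomial -/
noncomputable def itp {k : Type} [Field k] (f : k[X]) (M : ℕ) : k[X] := (f.comp)^[M] X

theorem itp_zero {k : Type} [Field k] (f : k[X]) : itp f 0 = X := rfl

theorem itp_succ {k : Type} [Field k] (f : k[X]) (M : ℕ) : itp f (M + 1) = f.comp (itp f M) := by
  unfold itp
  rw [Function.iterate_succ_apply']

theorem eval_itp {k : Type} [Field k] (f : k[X]) (M : ℕ) (a : k) :
    (itp f M).eval a = (fun z => f.eval z)^[M] a := by
  induction M with
  | zero => rw [itp_zero, eval_X]; rfl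
  | succ M ih => rw [itp_succ, eval_comp, ih, Function.iterate_succ_apply']

theorem natDegree_itp {k : Type} [Field k] (f : k[X]) (M : ℕ) :
    (itp f M).natDegree = f.natDegree ^ M := by
  induction M with
  | zero => rw [itp_zero, natDegree_X, pow_zero]
  | succ M ih => rw [itp_succ, natDegree_comp, ih, pow_succ']

/-- a polynomial with a single root -/
theorem single_root {k : Type} [Field k] [IsAlgClosed k] (p : k[X]) (r : k)
    (h : ∀ z, p.eval z = 0 → z = r) : p = C p.leadingCoeff * (X - C r) ^ p.natDegree := by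
  by_cases hp : p = 0
  · rw [hp]; simp
  have h1 := IsAlgClosed.splits p
  have h2 := h1.eq_prod_roots
  have h3 : p.roots = Multiset.replicate p.natDegree r := by
    rw [Multiset.eq_replicate]
    refine ⟨h1.natDegree_eq_card_roots.symm, fun z hz => h z ?_⟩
    exact (mem_roots hp).1 hz
  rw [h3, Multiset.map_replicate, Multiset.prod_replicate] at h2
  exact h2

theorem itp_succ' {k : Type} [Field k] (f : k[X]) (M : ℕ) : itp f (M + 1) = (itp f M).comp f := by
  induction M with
  | zero => rw [itp_succ, itp_zero, comp_X, X_comp]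
  | succ M ih =>
    rw [itp_succ f (M + 1)]
    conv_lhs => rw [ih]
    rw [← comp_assoc, ← itp_succ]

theorem surj {k : Type} [Field k] [IsAlgClosed k] (g : k[X]) (hg : 1 ≤ g.natDegree) (b : k) :
    ∃ a, g.eval a = b := by
  obtain ⟨a, ha⟩ := IsAlgClosed.exists_root (g - C b)
    (ne_of_gt (natDegree_pos_iff_degree_pos.1 (by rw [natDegree_sub_C]; omega)))
  exact ⟨a, by rw [IsRoot, eval_sub, eval_C, sub_eq_zero] at ha; exact ha⟩

theorem main {k : Type} [Field k] [IsAlgClosed k] [CharZero k] (f : k[X]) (M : ℕ) (S : Set k)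
    (hf : 2 ≤ f.natDegree) (hM : 1 ≤ M) (hfin : S.Finite) (hne : S.Nonempty)
    (hS : ∀ a, a ∈ S ↔ (fun z => f.eval z)^[M] a ∈ S) : PExc f := by
  classical
  set F : k[X] := itp f M with hF
  have hFev : ∀ a, F.eval a = (fun z => f.eval z)^[M] a := eval_itp f M
  have hS' : ∀ a, a ∈ S ↔ F.eval a ∈ S := fun a => by rw [hFev]; exact hS a
  have hdeg : F.natDegree = f.natDegree ^ M := natDegree_itp f M
  have hQ : 2 ≤ F.natDegree := by
    rw [hdeg]
    calc 2 ≤ f.natDegree := hf
      _ = f.natDegree ^ 1 := (pow_one _).symm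
      _ ≤ f.natDegree ^ M := Nat.pow_le_pow_right (by omega) hM
  have hQk : (F.natDegree : k) ≠ 0 := by
    have : F.natDegree ≠ 0 := by omega
    exact_mod_cast this
  have hmaps : Set.MapsTo (fun z => F.eval z) S S := fun a ha => (hS' a).1 ha
  have hsurjS : Set.SurjOn (fun z => F.eval z) S S := by
    intro b hb
    obtain ⟨a, ha⟩ := surj F (by omega) b
    refine ⟨a, (hS' a).2 ?_, ha⟩
    rw [ha]
    exact hb
  have hbij := (hfin.surjOn_iff_bijOn_of_mapsTo hmaps).1 hsurjS
  have hinj : Set.InjOn (fun z => F.eval z) S := hbij.injOn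
  -- the form of `F - s`
  have hform : ∀ r ∈ S, ∃ l : k, l ≠ 0 ∧ derivative F =
      C (l * (F.natDegree : k)) * (X - C r) ^ (F.natDegree - 1) := by
    intro r hr
    have h1 := single_root (F - C (F.eval r)) r (fun z hz => by
      rw [eval_sub, eval_C, sub_eq_zero] at hz
      have hzS : z ∈ S := (hS' z).2 (by rw [hz]; exact (hS' r).1 hr)
      exact hinj hzS hr hz)
    rw [natDegree_sub_C] at h1
    have hne0 : (F - C (F.eval r)).leadingCoeff ≠ 0 := by
      rw [Ne, leadingCoeff_eq_zero]
      intro h0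
      have := congrArg natDegree h0
      rw [natDegree_sub_C, natDegree_zero] at this
      omega
    generalize (F - C (F.eval r)).leadingCoeff = c at h1 hne0
    refine ⟨c, hne0, ?_⟩
    have h2 : derivative F = derivative (F - C (F.eval r)) := by
      rw [derivative_sub, derivative_C, sub_zero]
    rw [h2, h1, derivative_C_mul, derivative_X_sub_C_pow, C_mul, C_eq_natCast]
    ring
  obtain ⟨s, hs⟩ := hne
  have hone : ∀ r ∈ S, r = s := by
    intro r hr
    obtain ⟨l, hl, h1⟩ := hform r hr
    obtain ⟨l', hl', h2⟩ := hform s hs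
    rw [h1] at h2
    have h3 := congrArg (eval r) h2
    simp only [eval_mul, eval_C, eval_pow, eval_sub, eval_X, sub_self] at h3
    rw [zero_pow (by omega), mul_zero] at h3
    have h4 : (r - s) ^ (F.natDegree - 1) = 0 := by
      rcases mul_eq_zero.1 h3.symm with h | h
      · exact absurd h (mul_ne_zero hl' hQk)
      · exact h
    exact sub_eq_zero.1 (pow_eq_zero_iff (by omega) |>.1 h4)
  have hFs : F.eval s = s := hone _ ((hS' s).1 hs)
  obtain ⟨l, hl, hder⟩ := hform s hs
  have hder0 : ∀ z, (derivative F).eval z = 0 → z = s := by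
    intro z hz
    rw [hder] at hz
    simp only [eval_mul, eval_C, eval_pow, eval_sub, eval_X] at hz
    rcases mul_eq_zero.1 hz with h | h
    · exact absurd h (mul_ne_zero hl hQk)
    · exact sub_eq_zero.1 (pow_eq_zero_iff (by omega) |>.1 h)
  have hpre : ∀ z, F.eval z = s → z = s := by
    intro z hz
    exact hone z ((hS' z).2 (by rw [hz]; exact hs))
  obtain ⟨m, rfl⟩ : ∃ m, M = m + 1 := ⟨M - 1, by omega⟩
  set G : k[X] := itp f m with hG
  have hF1 : F = f.comp G := itp_succ f m
  have hF2 : F = G.comp f := itp_succ' f m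
  have hGdeg : 1 ≤ G.natDegree := by
    rw [hG, natDegree_itp]
    exact Nat.one_le_pow _ _ (by omega)
  -- the root of the derivative
  obtain ⟨z0, hz0⟩ := surj (derivative f) (by
    rw [natDegree_derivative]; omega) 0
  have hz0s : z0 = s := by
    apply hder0
    rw [hF2, derivative_comp, eval_mul, hz0, zero_mul]
  have hroot : ∀ y, (f - C s).eval y = 0 → y = s := by
    intro y hy
    rw [eval_sub, eval_C, sub_eq_zero] at hy
    obtain ⟨w, hw⟩ := surj G hGdeg y
    have h1 : F.eval w = s := by rw [hF1, eval_comp, hw, hy]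
    have h2 := hpre w h1
    obtain ⟨w', hw'⟩ := surj G hGdeg s
    have h3 : (derivative F).eval w' = 0 := by
      rw [hF1, derivative_comp, eval_mul, eval_comp, hw', ← hz0s, hz0, mul_zero]
    have h4 := hder0 w' h3
    calc y = G.eval w := hw.symm
      _ = G.eval w' := by rw [h2, h4]
      _ = s := hw'
  have hfs := single_root (f - C s) s hroot
  rw [natDegree_sub_C] at hfs
  set c : k := (f - C s).leadingCoeff with hc
  refine ⟨(X - C s) ^ 2, by rw [natDegree_pow, natDegree_X_sub_C], ?_⟩
  have hd : derivative f = C c * (C (f.natDegree : k) * (X - C s) ^ (f.natDegree - 1)) := by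
    have h2 : derivative f = derivative (f - C s) := by
      rw [derivative_sub, derivative_C, sub_zero]
    rw [h2]
    conv_lhs => rw [hfs]
    rw [derivative_C_mul, derivative_X_sub_C_pow, C_eq_natCast]
  have hcomp : ((X - C s) ^ 2 : k[X]).comp f = (C c * (X - C s) ^ f.natDegree) ^ 2 := by
    rw [pow_comp, sub_comp, X_comp, C_comp, hfs]
  rw [hcomp, hd]
  obtain ⟨q, hq⟩ : ∃ q, f.natDegree = q + 1 := ⟨f.natDegree - 1, by omega⟩
  rw [hq, Nat.add_sub_cancel, pow_succ (X - C s) q, C_pow]
  ring

/-- Row Y8A. -/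
theorem y8a : Y8aStatement := by
  intro k _ _ _ f M S hf hM hfin hne hS
  exact main f M S hf hM hfin hne hS

end Pool.DynLehmer.UN.Y8a
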