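import Pool.Agent.Lib.MP_2194ec_nt.UN.Props

set_option autoImplicit false

/-!
# Periodic pairs of a polynomial: statements of the rows
-/

/-!
# Periodic pairs of a polynomial: statements of the rows
-/

namespace Pool.DynLehmer.UN
open Polynomial IntermediateField

/-- `f` is conjugate to a power or, up to sign, to a Chebyshev polynomial. -/
def PExc {k : Type} [Field k] (f : k[X]) : Prop :=
  ∃ A : k[X], A.natDegree = 2 ∧
    A * (derivative f) ^ 2 = C ((f.natDegree : k) ^ 2) * A.comp f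

/-- All relations between `x` and `y` hold for `f^M x` and `f^M y`. -/
def RelP {k N : Type} [Field k] [CommRing N] [Algebra k N] (f : k[X]) (M : ℕ) (x y : N) : Prop :=
  ∀ G : MvPolynomial (Fin 2) k, MvPolynomial.aeval ![x, y] G = 0 →
    MvPolynomial.aeval ![(fun z => aeval z f)^[M] x, (fun z => aeval z f)^[M] y] G = 0

/-- As `SpF`, for series of order `e`. -/
def SpE (k L : Type) [Field k] [Field L] [Algebra k L] (u : L) (a : k) (e : ℕ) : Prop :=
  ∀ s : PowerSeries k, s.order = e → ∀ h : L →+* AlgebraicClosure (LaurentSeries k),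
    (∀ b : k, h (algebraMap k L b) = pus (PowerSeries.C b)) → h u = pus (PowerSeries.C a + s) →
    ∀ z : L, ∃ l : LaurentSeries k, h z = algebraMap _ (AlgebraicClosure (LaurentSeries k)) l

/-- the local degree of `f` at `a` -/
noncomputable def ram {k : Type} [Field k] (f : k[X]) (a : k) : ℕ :=
  (f - C (f.eval a)).rootMultiplicity a

/-- Row Y2: lifting of power series. -/
def Y2Statement : Prop :=
  ∀ (k : Type) [Field k] [IsAlgClosed k] [CharZero k] (f : k[X]) (a : k) (e : ℕ)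
    (s' : PowerSeries k), 1 ≤ e → 1 ≤ f.natDegree → s'.order = (ram f a * e : ℕ) →
    ∃ s : PowerSeries k, s.order = e ∧
      f.eval₂ (PowerSeries.C (R := k)) (PowerSeries.C a + s) = PowerSeries.C (f.eval a) + s'

/-- Row Y3 (from Y2): one step of the tower. -/
def Y3Statement : Prop :=
  ∀ (k E' E : Type) [Field k] [IsAlgClosed k] [CharZero k] [Field E'] [Field E] [Algebra k E']
    [Algebra k E] [Algebra E' E] [IsScalarTower k E' E] (f : k[X]) (u : E) (u' : E'),
    1 ≤ f.natDegree → algebraMap E' E u' = aeval u f → adjoin E' {u} = ⊤ →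
    (minpoly E' u).natDegree = f.natDegree →
    ∀ (a : k) (e : ℕ), 1 ≤ e → SpE k E u a e → SpE k E' u' (f.eval a) (ram f a * e)

/-- Row Y4: Puiseux series. -/
def Y4Statement : Prop :=
  ∀ (k L : Type) [Field k] [IsAlgClosed k] [CharZero k] [Field L] [Algebra k L] (u : L),
    Transcendental k u → FiniteDimensional (adjoin k {u}) L → ∀ a : k,
    ∃ e : ℕ, 1 ≤ e ∧ SpE k L u a e

/-- Row Y5A: the count. -/
def Y5aStatement : Prop :=
  ∀ (k : Type) [Field k] [IsAlgClosed k] [CharZero k] (f : k[X]) (M : ℕ) (r : ℕ → k → ℕ),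
    2 ≤ f.natDegree → 1 ≤ M → (∀ j a, 1 ≤ r j a) → (∀ j, {a | r j a ≠ 1}.Finite) →
    (∀ j, r (j + M) = r j) → (∀ j a, r (j + 1) (f.eval a) ≤ ram f a * r j a) →
    (∀ j, ∃ a, ∀ b, r j b ≠ 1 → b = a) ∨
    ((∀ j, ∃ a b, a ≠ b ∧ r j a = 2 ∧ r j b = 2 ∧ ∀ c, c ≠ a → c ≠ b → r j c = 1) ∧
      ∀ j a, r (j + 1) (f.eval a) = ram f a * r j a)

/-- Row Y5B: the Chebyshev case. -/
def Y5bStatement : Prop :=
  ∀ (k : Type) [Field k] [IsAlgClosed k] [CharZero k] (f : k[X]) (r : ℕ → k → ℕ),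
    2 ≤ f.natDegree →
    (∀ j, ∃ a b, a ≠ b ∧ r j a = 2 ∧ r j b = 2 ∧ ∀ c, c ≠ a → c ≠ b → r j c = 1) →
    (∀ j a, r (j + 1) (f.eval a) = ram f a * r j a) → PExc f

/-- Row Y6 (from P2E, P2D, P3): at most one ramified point. -/
def Y6Statement : Prop :=
  ∀ (k L : Type) [Field k] [IsAlgClosed k] [CharZero k] [Field L] [Algebra k L] (u : L) (a : k)
    (e : ℕ), Transcendental k u → FiniteDimensional (adjoin k {u}) L → 1 ≤ e →
    (∀ b, b ≠ a → SpE k L u b 1) → SpE k L u a e →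
    ∃ (L' : Type) (_ : Field L') (_ : Algebra k L') (ι : L →ₐ[k] L') (t : L'),
      ι u = algebraMap k L' a + t ^ e ∧ adjoin k {t} = ⊤

/-- Sequences `u (j + 1) = f (u j)`, `v (j + 1) = f (v j)` in a function field `N = k(u 0, v 0)`
with an endomorphism of period `M`, for which the degree of `v l` over `k(u j)` is `m` for all
`l ≥ j`. -/
structure Tow (k N : Type) [Field k] [Field N] [Algebra k N] (f : k[X]) (M m : ℕ) where
  φ : N →ₐ[k] N
  u : ℕ → N
  v : ℕ → N
  tu : Transcendental k (u 0)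
  tv : Transcendental k (v 0)
  fin : FiniteDimensional (adjoin k {u 0}) N
  top : adjoin k {u 0, v 0} = ⊤
  us : ∀ j, u (j + 1) = aeval (u j) f
  vs : ∀ j, v (j + 1) = aeval (v j) f
  φu : ∀ j, φ (u j) = u (j + M)
  φv : ∀ j, φ (v j) = v (j + M)
  deg : ∀ j l, j ≤ l → (minpoly (adjoin k {u j}) (v l)).natDegree = m

/-- Row Y1: the tower of a pair. -/
def Y1Statement : Prop :=
  ∀ (k N : Type) [Field k] [IsAlgClosed k] [CharZero k] [Field N] [Algebra k N] (f : k[X]) (M : ℕ)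
    (x y : N), 2 ≤ f.natDegree → 1 ≤ M → Transcendental k x → Transcendental k y →
    IsAlgebraic (adjoin k {x}) y → RelP f M x y →
    ∃ (n m : ℕ) (N' : IntermediateField k N) (T : Tow k N' f M m), (T.u 0 : N) = x ∧
      (T.v 0 : N) = (fun z => aeval z f)^[n * M] y

/-- Row Y1B: the fields `E j = k(u j, v j)` of a tower. -/
def Y1bStatement : Prop :=
  ∀ (k N : Type) [Field k] [IsAlgClosed k] [CharZero k] [Field N] [Algebra k N] (f : k[X])
    (M m : ℕ) (T : Tow k N f M m), 2 ≤ f.natDegree → 1 ≤ M →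
    (∀ j, adjoin k {T.u j, T.v j} = adjoin k {T.u (j + 1), T.v (j + 1)} ⊔ adjoin k {T.u j}) ∧
    (∀ j, (minpoly (adjoin k {T.u (j + 1), T.v (j + 1)}) (T.u j)).natDegree = f.natDegree) ∧
    ∀ j, adjoin k {T.u (j + M), T.v (j + M)} = (adjoin k {T.u j, T.v j}).map T.φ

/-- Row Y7 (from Y1B, Y3, Y4, P2B, Y5A, Y5B, Y6): the tower is rational. -/
def Y7Statement : Prop :=
  ∀ (k N : Type) [Field k] [IsAlgClosed k] [CharZero k] [Field N] [Algebra k N] (f : k[X])
    (M m : ℕ) (T : Tow k N f M m), 2 ≤ f.natDegree → 1 ≤ M → ¬ PExc f →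
    ∃ (a : k) (e : ℕ) (L' : Type) (_ : Field L') (_ : Algebra k L') (ι : N →ₐ[k] L') (t : L'),
      1 ≤ e ∧ ι (T.u 0) = algebraMap k L' a + t ^ e ∧ adjoin k {t} = ⊤

/-- Row Y8A: a finite set which is completely invariant under an iterate of `f`. -/
def Y8aStatement : Prop :=
  ∀ (k : Type) [Field k] [IsAlgClosed k] [CharZero k] (f : k[X]) (M : ℕ) (S : Set k),
    2 ≤ f.natDegree → 1 ≤ M → S.Finite → S.Nonempty →
    (∀ a, a ∈ S ↔ (fun z => f.eval z)^[M] a ∈ S) → PExc f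

/-- Row Y8 (from Y8A): `v 0` is integral over `k[u 0]`. -/
def Y8Statement : Prop :=
  ∀ (k N : Type) [Field k] [IsAlgClosed k] [CharZero k] [Field N] [Algebra k N] (f : k[X])
    (M m : ℕ) (T : Tow k N f M m), 2 ≤ f.natDegree → 1 ≤ M → ¬ PExc f →
    Itg k (T.u 0) (T.v 0)

/-- Row Y9: pairs of polynomials of the same degree. -/
def Y9Statement : Prop :=
  ∀ (k : Type) [Field k] [IsAlgClosed k] [CharZero k] (f : k[X]) (M : ℕ) (P Q : k[X]),
    2 ≤ f.natDegree → 1 ≤ M → 1 ≤ P.natDegree → P.natDegree = Q.natDegree → RelP f M P Q →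
    ∃ ω β : k, Q = C ω * P + C β

/-- the affine maps which commute with an iterate of `f` -/
def SymP {k : Type} [Field k] (f : k[X]) : Set (k × k) :=
  {σ | σ.1 ≠ 0 ∧ ∃ M : ℕ, 1 ≤ M ∧ ((f.comp)^[M] X).comp (C σ.1 * X + C σ.2) =
    C σ.1 * ((f.comp)^[M] X) + C σ.2}

/-- Row SYM: the group of symmetries is finite and normalized by `f`. -/
def SymStatement : Prop :=
  ∀ (k : Type) [Field k] [IsAlgClosed k] [CharZero k] (f : k[X]), 2 ≤ f.natDegree → ¬ PExc f →
    (SymP f).Finite ∧ ∀ σ ∈ SymP f, ∃ τ ∈ SymP f,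
      f.comp (C σ.1 * X + C σ.2) = C τ.1 * f + C τ.2

/-- PAIRP (from Y1, Y7, Y8, Y9): pairs with equal degrees. -/
def PairpStatement : Prop :=
  ∀ (k N : Type) [Field k] [IsAlgClosed k] [CharZero k] [Field N] [Algebra k N] (f : k[X]) (M : ℕ)
    (x y : N), 2 ≤ f.natDegree → ¬ PExc f → 1 ≤ M → Transcendental k x → Transcendental k y →
    IsAlgebraic (adjoin k {x}) y → RelP f M x y →
    relfinrank (adjoin k {x}) (adjoin k {x, y}) = relfinrank (adjoin k {y}) (adjoin k {x, y}) →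
    ∃ σ ∈ SymP f, y = algebraMap k N σ.1 * x + algebraMap k N σ.2

end Pool.DynLehmer.UN
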