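import Pool.Agent.Lib.MP_2194ec_nt.UN.PolCount

set_option autoImplicit false

/-!
# Periodic pairs of a polynomial: integral elements
-/

/-!
# Row P3, first part: a derivation with `D t = - t` does not decrease the order at a prime over `t`
-/

namespace Pool.DynLehmer.UN.P3
open IsDedekindDomain WithZero

variable {k C L : Type} [Field k] [CommRing C] [IsDedekindDomain C] [Field L]
  [Algebra C L] [IsFractionRing C L] [Algebra k L] [Algebra k C] [IsScalarTower k C L]

theorem val_const (P : HeightOneSpectrum C) (c : k) (hc : c ≠ 0) :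
    P.valuation L (algebraMap k L c) = 1 := by
  have h1 : P.valuation L (algebraMap k L c) ≤ 1 := by
    rw [IsScalarTower.algebraMap_apply k C L]
    exact P.valuation_le_one _
  have h2 : P.valuation L (algebraMap k L c⁻¹) ≤ 1 := by
    rw [IsScalarTower.algebraMap_apply k C L]
    exact P.valuation_le_one _
  have h3 : P.valuation L (algebraMap k L c) * P.valuation L (algebraMap k L c⁻¹) = 1 := by
    rw [← map_mul, ← map_mul, mul_inv_cancel₀ hc, map_one, map_one]
  refine le_antisymm h1 ?_
  calc (1 : ℤᵐ⁰) = P.valuation L (algebraMap k L c) * P.valuation L (algebraMap k L c⁻¹) := h3.symm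
    _ ≤ P.valuation L (algebraMap k L c) * 1 := by gcongr
    _ = _ := mul_one _

theorem val_one_of_not_mem (P : HeightOneSpectrum C) (a : C) (ha : a ∉ P.asIdeal) :
    P.valuation L (algebraMap C L a) = 1 :=
  (P.valuation_eq_one_iff_notMem).2 ha

/-- the logarithmic derivative -/
noncomputable def ld (D : Derivation k L L) (f : L) : L := D f / f

theorem ld_mul (D : Derivation k L L) {f g : L} (hf : f ≠ 0) (hg : g ≠ 0) :
    ld D (f * g) = ld D f + ld D g := by
  unfold ld
  rw [D.leibniz]
  simp only [smul_eq_mul]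
  field_simp
  ring

theorem ld_zpow (D : Derivation k L L) {f : L} (hf : f ≠ 0) (n : ℤ) :
    ld D (f ^ n) = n * ld D f := by
  unfold ld
  rw [D.leibniz_zpow]
  simp only [smul_eq_mul, zsmul_eq_mul]
  rw [zpow_sub_one₀ hf]
  have : f ^ n ≠ 0 := zpow_ne_zero n hf
  field_simp

theorem ld_pow (D : Derivation k L L) {f : L} (hf : f ≠ 0) (n : ℕ) :
    ld D (f ^ n) = n * ld D f := by
  have := ld_zpow D hf (n : ℤ)
  rw [zpow_natCast] at this
  rw [this]
  push_cast
  ring

theorem val_int (P : HeightOneSpectrum C) (n : ℤ) : P.valuation L (n : L) ≤ 1 := by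
  have : (n : L) = algebraMap C L (n : C) := by simp
  rw [this]
  exact P.valuation_le_one _

/-- elements of value one -/
theorem exists_frac (P : HeightOneSpectrum C) (g : L) (hg : P.valuation L g = 1) :
    ∃ a b : C, a ∉ P.asIdeal ∧ b ∉ P.asIdeal ∧ g * algebraMap C L b = algebraMap C L a := by
  obtain ⟨n, s, h⟩ := P.exists_primeCompl_mul_eq_of_integer g hg.le
  refine ⟨n, s, ?_, s.2, h⟩
  intro hn
  have h1 : P.valuation L (algebraMap C L n) < 1 := (P.valuation_lt_one_iff_mem (K := L) n).2 hn
  rw [← h, map_mul, hg, one_mul, val_one_of_not_mem P _ s.2] at h1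
  exact lt_irrefl _ h1

omit [Algebra k C] [IsScalarTower k C L] in
theorem bound_one (D : Derivation k L L) (P : HeightOneSpectrum C)
    (d : C) (hd : d ≠ 0) (hb : ∀ a : C, ∃ b : C,
      algebraMap C L d * D (algebraMap C L a) = algebraMap C L b) :
    ∃ M : ℕ, ∀ f : L, f ≠ 0 → P.valuation L (ld D f) ≤ exp (M : ℤ) := by
  obtain ⟨π, hπ⟩ := P.valuation_exists_uniformizer L
  have hπ0 : π ≠ 0 := by
    intro h
    rw [h, map_zero] at hπ
    exact exp_ne_zero hπ.symm
  have hdL : algebraMap C L d ≠ 0 := by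
    rw [Ne, FaithfulSMul.algebraMap_eq_zero_iff]
    exact hd
  have key : ∀ x : ℤᵐ⁰, ∃ M : ℕ, x ≤ exp (M : ℤ) := by
    intro x
    by_cases hx : x = 0
    · exact ⟨0, by rw [hx]; exact zero_le⟩
    · refine ⟨(log x).toNat, ?_⟩
      rw [← exp_log hx]
      rw [exp_le_exp]
      exact Int.self_le_toNat _
  obtain ⟨M1, hM1⟩ := key ((P.valuation L (algebraMap C L d))⁻¹)
  obtain ⟨M2, hM2⟩ := key (P.valuation L (ld D π))
  have hmono : ∀ {a b : ℕ}, a ≤ b → (exp (a : ℤ) : ℤᵐ⁰) ≤ exp (b : ℤ) := by
    intro a b h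
    rw [exp_le_exp]
    exact_mod_cast h
  -- elements outside the prime
  have hout : ∀ a : C, a ∉ P.asIdeal →
      P.valuation L (ld D (algebraMap C L a)) ≤ exp (M1 : ℤ) := by
    intro a ha
    obtain ⟨b, hb1⟩ := hb a
    have h1 : P.valuation L (algebraMap C L b) ≤ 1 := P.valuation_le_one b
    rw [← hb1, map_mul] at h1
    have h2 : P.valuation L (algebraMap C L d) ≠ 0 := (Valuation.ne_zero_iff _).2 hdL
    unfold ld
    rw [map_div₀, val_one_of_not_mem P a ha, div_one]
    refine le_trans ?_ hM1
    calc P.valuation L (D (algebraMap C L a))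
        = (P.valuation L (algebraMap C L d))⁻¹ * (P.valuation L (algebraMap C L d) *
          P.valuation L (D (algebraMap C L a))) := by
          rw [← mul_assoc, inv_mul_cancel₀ h2, one_mul]
      _ ≤ (P.valuation L (algebraMap C L d))⁻¹ * 1 := by gcongr
      _ = _ := mul_one _
  refine ⟨max M1 M2, fun f hf => ?_⟩
  have hvf : P.valuation L f ≠ 0 := (Valuation.ne_zero_iff _).2 hf
  set j : ℤ := log (P.valuation L f) with hj
  have hvf' : P.valuation L f = exp j := (exp_log hvf).symm
  have hg : P.valuation L (f * π ^ j) = 1 := by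
    rw [map_mul, map_zpow₀, hπ, hvf', ← exp_zsmul, ← exp_add]
    simp
  obtain ⟨a, b, ha, hb', hab⟩ := exists_frac P _ hg
  have hπj : π ^ j ≠ 0 := zpow_ne_zero j hπ0
  have hb0 : algebraMap C L b ≠ 0 := by
    rw [Ne, FaithfulSMul.algebraMap_eq_zero_iff]
    intro h
    exact hb' (h ▸ P.asIdeal.zero_mem)
  have e1 : ld D (f * π ^ j * algebraMap C L b) = ld D (algebraMap C L a) := by rw [hab]
  rw [ld_mul D (mul_ne_zero hf hπj) hb0, ld_mul D hf hπj, ld_zpow D hπ0] at e1
  have e2 : ld D f = ld D (algebraMap C L a) - ld D (algebraMap C L b) - (j : L) * ld D π := by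
    rw [← e1]; ring
  rw [e2]
  refine (Valuation.map_sub _ _ _).trans (max_le ((Valuation.map_sub _ _ _).trans (max_le ?_ ?_)) ?_)
  · exact (hout a ha).trans (hmono (le_max_left _ _))
  · exact (hout b hb').trans (hmono (le_max_left _ _))
  · rw [map_mul]
    calc P.valuation L (j : L) * P.valuation L (ld D π) ≤ 1 * P.valuation L (ld D π) := by
          gcongr
          exact val_int P j
      _ = P.valuation L (ld D π) := one_mul _
      _ ≤ exp (M2 : ℤ) := hM2
      _ ≤ _ := hmono (le_max_right _ _)

/-- a power of `f` is a constant times a power of `t` times `1 + h` -/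
theorem decomp [CharZero k] (D : Derivation k L L) (P : HeightOneSpectrum C) (t : L) (ht0 : t ≠ 0)
    (hDt : D t = - t) (htP : P.valuation L t < 1)
    (hr : ∀ a : C, ∃ c : k, a - algebraMap k C c ∈ P.asIdeal) (f : L) (hf : f ≠ 0) :
    ∃ (e : ℕ) (j : ℤ) (h : L), 1 ≤ e ∧ P.valuation L f = exp j ∧ P.valuation L h < 1 ∧
      (e : L) * ld D f = D h / (1 + h) + (j : L) := by
  have hvt : P.valuation L t ≠ 0 := (Valuation.ne_zero_iff _).2 ht0
  have hvf : P.valuation L f ≠ 0 := (Valuation.ne_zero_iff _).2 hf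
  set j : ℤ := log (P.valuation L f) with hj
  have hvf' : P.valuation L f = exp j := (exp_log hvf).symm
  obtain ⟨e, he, hte⟩ : ∃ e : ℕ, 1 ≤ e ∧ P.valuation L t = exp (-(e : ℤ)) := by
    have h1 : P.valuation L t = exp (log (P.valuation L t)) := (exp_log hvt).symm
    have h2 : log (P.valuation L t) < 0 := by
      rw [← exp_lt_exp, exp_log hvt, exp_zero]
      exact htP
    refine ⟨(-log (P.valuation L t)).toNat, ?_, ?_⟩
    · omega
    · rw [Int.toNat_of_nonneg (by omega), neg_neg]
      exact h1
  set g : L := f ^ e * t ^ j with hgdef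
  have htj : t ^ j ≠ 0 := zpow_ne_zero j ht0
  have hfe : f ^ e ≠ 0 := pow_ne_zero e hf
  have hg0 : g ≠ 0 := mul_ne_zero hfe htj
  have hg : P.valuation L g = 1 := by
    rw [hgdef, map_mul, map_pow, map_zpow₀, hte, hvf', ← exp_zsmul, ← exp_nsmul, ← exp_add]
    have : e • j + j • (-(e : ℤ)) = 0 := by
      simp only [nsmul_eq_mul, zsmul_eq_mul, Int.cast_id]
      ring
    rw [this, exp_zero]
  obtain ⟨a, b, ha, hb', hab⟩ := exists_frac P _ hg
  obtain ⟨c1, hc1⟩ := hr a
  obtain ⟨c2, hc2⟩ := hr b
  have hc10 : c1 ≠ 0 := by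
    rintro rfl
    rw [map_zero, sub_zero] at hc1
    exact ha hc1
  have hc20 : c2 ≠ 0 := by
    rintro rfl
    rw [map_zero, sub_zero] at hc2
    exact hb' hc2
  have hb0 : algebraMap C L b ≠ 0 := by
    rw [Ne, FaithfulSMul.algebraMap_eq_zero_iff]
    intro h
    exact hb' (h ▸ P.asIdeal.zero_mem)
  have hvb : P.valuation L (algebraMap C L b) = 1 := val_one_of_not_mem P b hb'
  set κ1 : L := algebraMap k L c1
  set κ2 : L := algebraMap k L c2
  have hκ1 : κ1 ≠ 0 := by
    rw [Ne, FaithfulSMul.algebraMap_eq_zero_iff]; exact hc10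
  have hκ2 : κ2 ≠ 0 := by
    rw [Ne, FaithfulSMul.algebraMap_eq_zero_iff]; exact hc20
  have hva : P.valuation L (algebraMap C L a - κ1) < 1 := by
    have : P.valuation L (algebraMap C L (a - algebraMap k C c1)) < 1 :=
      (P.valuation_lt_one_iff_mem (K := L) _).2 hc1
    rwa [map_sub, ← IsScalarTower.algebraMap_apply k C L] at this
  have hvb' : P.valuation L (algebraMap C L b - κ2) < 1 := by
    have : P.valuation L (algebraMap C L (b - algebraMap k C c2)) < 1 :=
      (P.valuation_lt_one_iff_mem (K := L) _).2 hc2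
    rwa [map_sub, ← IsScalarTower.algebraMap_apply k C L] at this
  set h : L := g * κ2 / κ1 - 1 with hh
  have hvh : P.valuation L h < 1 := by
    have e1 : h = (κ2 * (algebraMap C L a - κ1) - κ1 * (algebraMap C L b - κ2)) /
        (κ1 * algebraMap C L b) := by
      rw [hh, ← hab]
      field_simp
      ring
    rw [e1, map_div₀, map_mul, hvb, val_const P c1 hc10, mul_one, div_one]
    refine (Valuation.map_sub _ _ _).trans_lt (max_lt ?_ ?_)
    · rw [map_mul, val_const P c2 hc20, one_mul]
      exact hva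
    · rw [map_mul, val_const P c1 hc10, one_mul]
      exact hvb'
  have hv1h : P.valuation L (1 + h) = 1 := Valuation.map_one_add_of_lt _ hvh
  have hg1 : g = κ1 / κ2 * (1 + h) := by
    rw [hh]
    field_simp
    ring
  have h1h0 : 1 + h ≠ 0 := by
    intro h0
    rw [h0, map_zero] at hv1h
    exact zero_ne_one hv1h
  have hκd : D (κ1 / κ2) = 0 := by
    have : κ1 / κ2 = algebraMap k L (c1 / c2) := by
      rw [map_div₀]
    rw [this, D.map_algebraMap]
  have hldg : ld D g = D h / (1 + h) := by
    rw [hg1, ld_mul D (div_ne_zero hκ1 hκ2) h1h0]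
    unfold ld
    rw [hκd, zero_div, zero_add, map_add, D.map_one_eq_zero, zero_add]
  have hldt : ld D t = -1 := by
    unfold ld
    rw [hDt, neg_div, div_self ht0]
  refine ⟨e, j, h, he, hvf', hvh, ?_⟩
  rw [← hldg, hgdef, ld_mul D hfe htj, ld_pow D hf, ld_zpow D ht0, hldt]
  ring

theorem val_nat [CharZero k] (P : HeightOneSpectrum C) (e : ℕ) (he : 1 ≤ e) :
    P.valuation L (e : L) = 1 := by
  have : (e : L) = algebraMap k L (e : k) := by simp
  rw [this]
  refine val_const P _ ?_
  exact_mod_cast (by omega : e ≠ 0)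

theorem bound_step [CharZero k] (D : Derivation k L L) (P : HeightOneSpectrum C) (t : L) (ht0 : t ≠ 0)
    (hDt : D t = - t) (htP : P.valuation L t < 1)
    (hr : ∀ a : C, ∃ c : k, a - algebraMap k C c ∈ P.asIdeal) (M : ℕ)
    (hM : ∀ f : L, f ≠ 0 → P.valuation L (ld D f) ≤ exp ((M + 1 : ℕ) : ℤ)) :
    ∀ f : L, f ≠ 0 → P.valuation L (ld D f) ≤ exp (M : ℤ) := by
  intro f hf
  have hone : (1 : ℤᵐ⁰) ≤ exp (M : ℤ) := by
    rw [← exp_zero, exp_le_exp]
    exact Int.natCast_nonneg M
  obtain ⟨e, j, h, he, -, hvh, e3⟩ := decomp D P t ht0 hDt htP hr f hf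
  have hv1h : P.valuation L (1 + h) = 1 := Valuation.map_one_add_of_lt _ hvh
  have hvldg : P.valuation L (D h / (1 + h)) ≤ exp (M : ℤ) := by
    rw [map_div₀, hv1h, div_one]
    by_cases h0 : h = 0
    · rw [h0, map_zero, map_zero]
      exact zero_le
    · have e1 : D h = ld D h * h := by
        unfold ld
        rw [div_mul_cancel₀ _ h0]
      have h2 : P.valuation L h ≤ exp (-1 : ℤ) := by
        have hvh0 : P.valuation L h ≠ 0 := (Valuation.ne_zero_iff _).2 h0
        rw [← exp_log hvh0, exp_le_exp]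
        have : log (P.valuation L h) < 0 := by
          rw [← exp_lt_exp, exp_log hvh0, exp_zero]
          exact hvh
        omega
      rw [e1, map_mul]
      calc P.valuation L (ld D h) * P.valuation L h
          ≤ exp ((M + 1 : ℕ) : ℤ) * exp (-1 : ℤ) := mul_le_mul' (hM h h0) h2
        _ = exp (M : ℤ) := by
          rw [← exp_add]
          congr 1
          push_cast
          ring
  have h5 : P.valuation L ((e : L) * ld D f) = P.valuation L (ld D f) := by
    rw [map_mul, val_nat (k := k) P e he, one_mul]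
  rw [← h5, e3]
  refine (Valuation.map_add _ _ _).trans (max_le hvldg ?_)
  exact (val_int P j).trans hone

theorem val_D_le [CharZero k] (D : Derivation k L L) (P : HeightOneSpectrum C) (t : L) (ht0 : t ≠ 0)
    (hDt : D t = - t) (htP : P.valuation L t < 1)
    (hr : ∀ a : C, ∃ c : k, a - algebraMap k C c ∈ P.asIdeal)
    (d : C) (hd : d ≠ 0) (hb : ∀ a : C, ∃ b : C,
      algebraMap C L d * D (algebraMap C L a) = algebraMap C L b) (f : L) :
    P.valuation L (D f) ≤ P.valuation L f := by
  obtain ⟨M, hM⟩ := bound_one D P d hd hb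
  have key : ∀ m : ℕ, m ≤ M → ∀ f : L, f ≠ 0 → P.valuation L (ld D f) ≤ exp ((M - m : ℕ) : ℤ) := by
    intro m
    induction m with
    | zero => intro _; exact hM
    | succ m ih =>
      intro hm
      refine bound_step D P t ht0 hDt htP hr (M - (m + 1)) ?_
      have : M - (m + 1) + 1 = M - m := by omega
      rw [this]
      exact ih (by omega)
  by_cases hf : f = 0
  · rw [hf, map_zero, map_zero]
  · have h1 := key M le_rfl f hf
    rw [Nat.sub_self, Nat.cast_zero, exp_zero] at h1
    have e1 : D f = ld D f * f := by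
      unfold ld
      rw [div_mul_cancel₀ _ hf]
    rw [e1, map_mul]
    calc P.valuation L (ld D f) * P.valuation L f ≤ 1 * P.valuation L f := by gcongr
      _ = _ := one_mul _

/-- an element with derivative zero has value one -/
theorem val_of_ker [CharZero k] (D : Derivation k L L) (P : HeightOneSpectrum C) (t : L) (ht0 : t ≠ 0)
    (hDt : D t = - t) (htP : P.valuation L t < 1)
    (hr : ∀ a : C, ∃ c : k, a - algebraMap k C c ∈ P.asIdeal)
    (hle : ∀ f : L, P.valuation L (D f) ≤ P.valuation L f) (f : L) (hf : f ≠ 0) (hDf : D f = 0) :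
    P.valuation L f = 1 := by
  obtain ⟨e, j, h, he, hvf, hvh, e3⟩ := decomp D P t ht0 hDt htP hr f hf
  have hv1h : P.valuation L (1 + h) = 1 := Valuation.map_one_add_of_lt _ hvh
  have h0 : ld D f = 0 := by
    unfold ld
    rw [hDf, zero_div]
  rw [h0, mul_zero] at e3
  have h1 : (j : L) = - (D h / (1 + h)) := by
    rw [eq_neg_iff_add_eq_zero, add_comm]
    exact e3.symm
  have h2 : P.valuation L (j : L) < 1 := by
    rw [h1, Valuation.map_neg, map_div₀, hv1h, div_one]
    exact (hle h).trans_lt hvh
  have h3 : j = 0 := by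
    by_contra hj
    have : (j : L) = algebraMap k L (j : k) := by simp
    rw [this, val_const P _ (by exact_mod_cast hj)] at h2
    exact lt_irrefl _ h2
  rw [hvf, h3, exp_zero]

/-- the kernel of the derivation consists of constants -/
theorem ker_const [CharZero k] (D : Derivation k L L) (P : HeightOneSpectrum C) (t : L) (ht0 : t ≠ 0)
    (hDt : D t = - t) (htP : P.valuation L t < 1)
    (hr : ∀ a : C, ∃ c : k, a - algebraMap k C c ∈ P.asIdeal)
    (hle : ∀ f : L, P.valuation L (D f) ≤ P.valuation L f) (f : L) (hDf : D f = 0) :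
    ∃ c : k, f = algebraMap k L c := by
  by_cases hf : f = 0
  · exact ⟨0, by rw [hf, map_zero]⟩
  have h1 := val_of_ker D P t ht0 hDt htP hr hle f hf hDf
  obtain ⟨a, b, ha, hb', hab⟩ := exists_frac P _ h1
  obtain ⟨c1, hc1⟩ := hr a
  obtain ⟨c2, hc2⟩ := hr b
  have hc20 : c2 ≠ 0 := by
    rintro rfl
    rw [map_zero, sub_zero] at hc2
    exact hb' hc2
  refine ⟨c1 / c2, ?_⟩
  by_contra hne
  have h2 := val_of_ker D P t ht0 hDt htP hr hle (f - algebraMap k L (c1 / c2)) (sub_ne_zero.2 hne)
    (by rw [map_sub, hDf, D.map_algebraMap, sub_zero])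
  have hb0 : algebraMap C L b ≠ 0 := by
    rw [Ne, FaithfulSMul.algebraMap_eq_zero_iff]
    intro h
    exact hb' (h ▸ P.asIdeal.zero_mem)
  have hvb : P.valuation L (algebraMap C L b) = 1 := val_one_of_not_mem P b hb'
  have hκ2 : algebraMap k L c2 ≠ 0 := by
    rw [Ne, FaithfulSMul.algebraMap_eq_zero_iff]; exact hc20
  have hva : P.valuation L (algebraMap C L a - algebraMap k L c1) < 1 := by
    have : P.valuation L (algebraMap C L (a - algebraMap k C c1)) < 1 :=
      (P.valuation_lt_one_iff_mem (K := L) _).2 hc1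
    rwa [map_sub, ← IsScalarTower.algebraMap_apply k C L] at this
  have hvb' : P.valuation L (algebraMap C L b - algebraMap k L c2) < 1 := by
    have : P.valuation L (algebraMap C L (b - algebraMap k C c2)) < 1 :=
      (P.valuation_lt_one_iff_mem (K := L) _).2 hc2
    rwa [map_sub, ← IsScalarTower.algebraMap_apply k C L] at this
  have e1 : f - algebraMap k L (c1 / c2) = ((algebraMap C L a - algebraMap k L c1) -
      algebraMap k L (c1 / c2) * (algebraMap C L b - algebraMap k L c2)) / algebraMap C L b := by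
    rw [map_div₀, ← hab]
    field_simp
    ring
  rw [e1, map_div₀, hvb, div_one] at h2
  have h3 : P.valuation L ((algebraMap C L a - algebraMap k L c1) -
      algebraMap k L (c1 / c2) * (algebraMap C L b - algebraMap k L c2)) < 1 := by
    refine (Valuation.map_sub _ _ _).trans_lt (max_lt hva ?_)
    rw [map_mul]
    have h4 : P.valuation L (algebraMap k L (c1 / c2)) ≤ 1 := by
      by_cases h0 : c1 / c2 = 0
      · rw [h0, map_zero, map_zero]
        exact zero_le
      · exact (val_const P _ h0).le
    calc P.valuation L (algebraMap k L (c1 / c2)) *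
          P.valuation L (algebraMap C L b - algebraMap k L c2)
        ≤ 1 * P.valuation L (algebraMap C L b - algebraMap k L c2) := by gcongr
      _ = _ := one_mul _
      _ < 1 := hvb'
  rw [h2] at h3
  exact lt_irrefl _ h3

end Pool.DynLehmer.UN.P3

/-!
# Row P3, second part: the integral closure of `k[t]`, `t = 1 / u`
-/

namespace Pool.DynLehmer.UN.P3
open IsDedekindDomain WithZero Polynomial

section gen

variable {k L K' B : Type} [Field k] [CharZero k] [Field L] [Algebra k L]
  [Algebra k[X] L] [IsScalarTower k k[X] L]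
  [Field K'] [Algebra k[X] K'] [IsFractionRing k[X] K'] [Algebra K' L] [FiniteDimensional K' L]
  [IsScalarTower k[X] K' L]
  [CommRing B] [IsDedekindDomain B] [Algebra B L] [IsFractionRing B L] [Algebra k[X] B]
  [Algebra k B] [IsScalarTower k k[X] B] [IsScalarTower k[X] B L] [IsScalarTower k B L]
  [IsIntegralClosure B k[X] L]

theorem aeval_t (f : k[X]) : aeval (algebraMap k[X] L X) f = algebraMap k[X] L f := by
  rw [Polynomial.aeval_algebraMap_apply, aeval_X_left]
  rfl

/-- the derivation on polynomials in `t` -/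
theorem D_poly (D : Derivation k L L) (hDt : D (algebraMap k[X] L X) = - algebraMap k[X] L X)
    (f : k[X]) : D (algebraMap k[X] L f) = algebraMap k[X] L (- X * derivative f) := by
  rw [← aeval_t f, D.map_aeval, hDt, aeval_t, map_mul, map_neg, smul_eq_mul]
  ring

variable (K' B) in
include K' in
theorem exists_denom (D : Derivation k L L)
    (hDt : D (algebraMap k[X] L X) = - algebraMap k[X] L X) :
    ∃ d : B, d ≠ 0 ∧ ∀ a : B, ∃ b : B,
      algebraMap B L d * D (algebraMap B L a) = algebraMap B L b := by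
  classical
  haveI : CharZero K' := charZero_of_injective_algebraMap (IsFractionRing.injective k[X] K')
  haveI : IsNoetherian k[X] B := IsIntegralClosure.isNoetherian k[X] K' L B
  have hfg : (⊤ : Submodule k[X] B).FG := Module.Finite.fg_top
  obtain ⟨S, hS⟩ := hfg
  have hint : ∀ z : L, ∃ r : k[X], r ≠ 0 ∧ IsIntegral k[X] (r • z) := by
    intro z
    have h1 : IsAlgebraic k[X] z :=
      (IsFractionRing.isAlgebraic_iff k[X] K' L).2 (Algebra.IsAlgebraic.isAlgebraic z)
    obtain ⟨r, hr, h⟩ := h1.exists_integral_multiple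
    exact ⟨r, hr, h⟩
  choose r hr0 hr using hint
  set R : k[X] := ∏ a ∈ S, r (D (algebraMap B L a)) with hR
  have hR0 : R ≠ 0 := Finset.prod_ne_zero_iff.2 fun a _ => hr0 _
  have hall : ∀ a : B, IsIntegral k[X] (R • D (algebraMap B L a)) := by
    intro a
    have ha : a ∈ Submodule.span k[X] (S : Set B) := by rw [hS]; trivial
    induction ha using Submodule.span_induction with
    | mem x hx =>
      rw [hR, ← Finset.mul_prod_erase S _ hx, mul_comm, mul_smul]
      exact (hr _).smul _
    | zero => simp [isIntegral_zero]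
    | add x y _ _ hx hy =>
      rw [map_add, map_add, smul_add]
      exact hx.add hy
    | smul f x _ hx =>
      have e1 : algebraMap B L (f • x) = algebraMap k[X] L f * algebraMap B L x := by
        rw [Algebra.smul_def, map_mul, ← IsScalarTower.algebraMap_apply]
      rw [e1, D.leibniz, D_poly D hDt, smul_add]
      refine IsIntegral.add ?_ ?_
      · rw [smul_eq_mul, ← Algebra.smul_def, smul_comm]
        exact hx.smul _
      · rw [smul_eq_mul, mul_comm, ← Algebra.smul_def, smul_smul]
        exact IsIntegral.smul _ (IsIntegralClosure.isIntegral k[X] L x |>.algebraMap)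
  have hinj : Function.Injective (algebraMap k[X] B) := by
    have h1 : Function.Injective (algebraMap k[X] L) := by
      rw [IsScalarTower.algebraMap_eq k[X] K' L]
      exact (algebraMap K' L).injective.comp (IsFractionRing.injective k[X] K')
    rw [IsScalarTower.algebraMap_eq k[X] B L] at h1
    exact Function.Injective.of_comp h1
  refine ⟨algebraMap k[X] B R, (map_ne_zero_iff _ hinj).2 hR0, fun a => ?_⟩
  obtain ⟨b, hb⟩ := (IsIntegralClosure.isIntegral_iff (A := B)).1 (hall a)
  refine ⟨b, ?_⟩
  rw [hb, ← IsScalarTower.algebraMap_apply, Algebra.smul_def]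

variable (L) in
include L in
/-- the residue fields at the primes over `t` -/
theorem exists_residue [IsAlgClosed k] (P : HeightOneSpectrum B)
    (hP : algebraMap k[X] B X ∈ P.asIdeal) (a : B) :
    ∃ c : k, a - algebraMap k B c ∈ P.asIdeal := by
  haveI : IsDomain (B ⧸ P.asIdeal) := Ideal.Quotient.isDomain _
  have hint : Algebra.IsIntegral k (B ⧸ P.asIdeal) := by
    refine ⟨fun x => ?_⟩
    obtain ⟨y, rfl⟩ := Ideal.Quotient.mk_surjective x
    have h1 : IsIntegral k[X] y := IsIntegralClosure.isIntegral k[X] L y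
    obtain ⟨p, hp, hpy⟩ := h1
    refine ⟨p.map (evalRingHom 0), hp.map _, ?_⟩
    have e1 : ((Ideal.Quotient.mk P.asIdeal).comp (algebraMap k[X] B)) =
        (algebraMap k (B ⧸ P.asIdeal)).comp (evalRingHom 0) := by
      refine Polynomial.ringHom_ext (fun c => ?_) ?_
      · simp only [RingHom.comp_apply, coe_evalRingHom, eval_C]
        have : (Polynomial.C c : k[X]) = algebraMap k k[X] c := rfl
        rw [this, ← IsScalarTower.algebraMap_apply]
        rfl
      · simp only [RingHom.comp_apply, coe_evalRingHom, eval_X, map_zero]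
        exact Ideal.Quotient.eq_zero_iff_mem.2 hP
    rw [eval₂_map, ← e1, ← hom_eval₂, hpy, map_zero]
  obtain ⟨c, hc⟩ := (IsAlgClosed.algebraMap_bijective_of_isIntegral (k := k)
    (K := B ⧸ P.asIdeal)).2 (Ideal.Quotient.mk P.asIdeal a)
  refine ⟨c, ?_⟩
  rw [← Ideal.Quotient.eq_zero_iff_mem, map_sub, ← hc]
  exact sub_self _

/-- the prime under a valuation ring -/
theorem exists_prime (V : ValuationSubring L) (hk : ∀ c : k, algebraMap k L c ∈ V)
    (ht0 : algebraMap k[X] L X ≠ 0)
    (ht : algebraMap k[X] L X ∈ V) (hu : (algebraMap k[X] L X)⁻¹ ∉ V) :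
    ∃ P : HeightOneSpectrum B, algebraMap k[X] B X ∈ P.asIdeal ∧
      ∀ f : L, P.valuation L f ≤ 1 → f ∈ V := by
  have hpoly : ∀ f : k[X], algebraMap k[X] L f ∈ V := by
    intro f
    induction f using Polynomial.induction_on' with
    | add p q hp hq => rw [map_add]; exact V.add_mem _ _ hp hq
    | monomial n c =>
      rw [← C_mul_X_pow_eq_monomial, map_mul, map_pow]
      refine V.mul_mem _ _ ?_ (V.toSubring.pow_mem ht n)
      have : (Polynomial.C c : k[X]) = algebraMap k k[X] c := rfl
      rw [this, ← IsScalarTower.algebraMap_apply]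
      exact hk c
  have hC : ∀ x : B, algebraMap B L x ∈ V := by
    intro x
    have h1 : IsIntegral k[X] (algebraMap B L x) :=
      (IsIntegralClosure.isIntegral k[X] L x).algebraMap
    obtain ⟨p, hp, hpx⟩ := h1
    let ρ : k[X] →+* V := (algebraMap k[X] L).codRestrict V.toSubring hpoly
    have h2 : IsIntegral V (algebraMap B L x) := by
      refine ⟨p.map ρ, hp.map _, ?_⟩
      rw [eval₂_map]
      exact hpx
    obtain ⟨y, hy⟩ := IsIntegrallyClosed.isIntegral_iff.1 h2
    rw [← hy]
    exact y.2
  let φ : B →+* V := (algebraMap B L).codRestrict V.toSubring hC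
  have hφ : ∀ x : B, ((φ x : V) : L) = algebraMap B L x := fun x => rfl
  let I : Ideal B := (IsLocalRing.maximalIdeal V).comap φ
  have hunit : ∀ x : V, x ∉ IsLocalRing.maximalIdeal V → ((x : L))⁻¹ ∈ V := by
    intro x hx
    have h1 : IsUnit x := by
      by_contra h
      exact hx ((IsLocalRing.mem_maximalIdeal x).2 h)
    obtain ⟨y, hy⟩ := h1.exists_right_inv
    have h2 : (x : L) * (y : L) = 1 := by
      have := congrArg (fun z : V => (z : L)) hy
      simpa using this
    rw [← eq_inv_of_mul_eq_one_right h2]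
    exact y.2
  have htI : algebraMap k[X] B X ∈ I := by
    by_contra h
    have h1 := hunit (φ (algebraMap k[X] B X)) h
    rw [hφ, ← IsScalarTower.algebraMap_apply] at h1
    exact hu h1
  have hprime : I.IsPrime := Ideal.IsPrime.comap φ
  have hne : I ≠ ⊥ := by
    intro h
    rw [h, Ideal.mem_bot] at htI
    apply ht0
    rw [IsScalarTower.algebraMap_apply k[X] B L, htI, map_zero]
  refine ⟨⟨I, hprime, hne⟩, htI, fun f hf => ?_⟩
  obtain ⟨n, s, h⟩ := HeightOneSpectrum.exists_primeCompl_mul_eq_of_integer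
    (⟨I, hprime, hne⟩ : HeightOneSpectrum B) f hf
  have h1 := hunit (φ s) s.2
  rw [hφ] at h1
  have hs0 : algebraMap B L s ≠ 0 := by
    rw [Ne, FaithfulSMul.algebraMap_eq_zero_iff]
    intro h0
    apply s.2
    rw [h0]
    exact I.zero_mem
  have h2 : f = algebraMap B L n * (algebraMap B L s)⁻¹ := by
    rw [← h, mul_assoc, mul_inv_cancel₀ hs0, mul_one]
  rw [h2]
  exact V.mul_mem _ _ (hC n) h1

end gen

/-- a valuation ring which does not contain a transcendental element -/
theorem exists_vr {k L : Type} [Field k] [IsAlgClosed k] [Field L] [Algebra k L] (z : L)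
    (hz : ∀ c : k, z ≠ algebraMap k L c) :
    ∃ V : ValuationSubring L, (∀ c : k, algebraMap k L c ∈ V) ∧ z ∉ V := by
  let R : Subring L := (integralClosure k L).toSubring
  haveI : IsIntegrallyClosedIn R L :=
    inferInstanceAs (IsIntegrallyClosedIn (integralClosure k L) L)
  have hzR : z ∉ R := by
    intro h
    have h1 : IsIntegral k z := h
    obtain ⟨c, hc⟩ := (IsAlgClosed.algebraMap_bijective_of_isIntegral (k := k)
      (K := integralClosure k L)).2 ⟨z, h1⟩
    exact hz c (congrArg Subtype.val hc).symm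
  obtain ⟨V, hV, hzV⟩ := Subring.exists_le_valuationSubring_of_isIntegrallyClosedIn hzR
  refine ⟨V, fun c => hV ?_, hzV⟩
  exact (integralClosure k L).algebraMap_mem c

end Pool.DynLehmer.UN.P3

/-!
# Row P3: a field with a derivation which preserves the integral elements is rational
-/

namespace Pool.DynLehmer.UN.P3
open IsDedekindDomain WithZero Polynomial IntermediateField

theorem exists_antideriv {k : Type} [Field k] [CharZero k] (q : k[X]) :
    ∃ Q : k[X], derivative Q = q := by
  induction q using Polynomial.induction_on' with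
  | add p q hp hq =>
    obtain ⟨P, hP⟩ := hp
    obtain ⟨Q, hQ⟩ := hq
    exact ⟨P + Q, by rw [derivative_add, hP, hQ]⟩
  | monomial n a =>
    refine ⟨monomial (n + 1) (a / (n + 1 : k)), ?_⟩
    rw [derivative_monomial]
    congr 1
    have : (n + 1 : k) ≠ 0 := by exact_mod_cast Nat.succ_ne_zero n
    push_cast
    field_simp

theorem mem_vr {k L : Type} [Field k] [Field L] [Algebra k L] (V : ValuationSubring L)
    (hk : ∀ c : k, algebraMap k L c ∈ V) (u : L) (hu : u ∈ V) (g : L) (hg : Itg k u g) : g ∈ V := by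
  have hpoly : ∀ f : k[X], aeval u f ∈ V := by
    intro f
    induction f using Polynomial.induction_on' with
    | add p q hp hq => rw [map_add]; exact V.add_mem _ _ hp hq
    | monomial n c =>
      rw [aeval_monomial]
      exact V.mul_mem _ _ (hk c) (V.toSubring.pow_mem hu n)
  obtain ⟨p, hp, hpx⟩ := hg
  let ρ : k[X] →+* V := ((aeval u : k[X] →ₐ[k] L) : k[X] →+* L).codRestrict V.toSubring hpoly
  have h2 : IsIntegral V g := by
    refine ⟨p.map ρ, hp.map _, ?_⟩
    rw [eval₂_map]
    exact hpx
  obtain ⟨y, hy⟩ := IsIntegrallyClosed.isIntegral_iff.1 h2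
  rw [← hy]
  exact y.2

section gen

variable {k L K' B : Type} [Field k] [CharZero k] [IsAlgClosed k] [Field L] [Algebra k L]
  [Algebra k[X] L] [IsScalarTower k k[X] L]
  [Field K'] [Algebra k[X] K'] [IsFractionRing k[X] K'] [Algebra K' L] [FiniteDimensional K' L]
  [IsScalarTower k[X] K' L]
  [CommRing B] [IsDedekindDomain B] [Algebra B L] [IsFractionRing B L] [Algebra k[X] B]
  [Algebra k B] [IsScalarTower k k[X] B] [IsScalarTower k[X] B L] [IsScalarTower k B L]
  [IsIntegralClosure B k[X] L]

variable (K' B) in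
include K' B in
theorem int_poly (u : L) (hu0 : u ≠ 0) (ht : algebraMap k[X] L X = u⁻¹) (D : Derivation k L L)
    (htr : Transcendental k u) (hDu : D u = 1) (hO : ∀ g, Itg k u g → Itg k u (D g)) (g : L)
    (hg : Itg k u g) : ∃ q : k[X], g = aeval u q := by
  classical
  set t : L := u⁻¹ with htdef
  have ht0 : t ≠ 0 := inv_ne_zero hu0
  let D' : Derivation k L L := u • D
  have hD' : ∀ f, D' f = u * D f := fun f => rfl
  have hD't : D' t = - t := by
    rw [hD', htdef, D.leibniz_inv, hDu]
    simp only [smul_eq_mul]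
    field_simp
  have hDD : ∀ f, D f = t * D' f := by
    intro f
    rw [hD', htdef, ← mul_assoc, inv_mul_cancel₀ hu0, one_mul]
  obtain ⟨d, hd0, hd⟩ := exists_denom K' B D' (by rw [ht]; exact hD't)
  have hvt : ∀ P : HeightOneSpectrum B, algebraMap k[X] B X ∈ P.asIdeal → P.valuation L t < 1 := by
    intro P hP
    have h1 : P.valuation L (algebraMap B L (algebraMap k[X] B X)) < 1 :=
      (P.valuation_lt_one_iff_mem (K := L) _).2 hP
    rwa [← IsScalarTower.algebraMap_apply, ht] at h1
  have hle : ∀ P : HeightOneSpectrum B, algebraMap k[X] B X ∈ P.asIdeal →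
      ∀ f : L, P.valuation L (D' f) ≤ P.valuation L f := fun P hP f =>
    val_D_le D' P t ht0 hD't (hvt P hP) (exists_residue L P hP) d hd0 hd f
  -- valuation rings without `u`
  have hVP : ∀ V : ValuationSubring L, (∀ c : k, algebraMap k L c ∈ V) → u ∉ V →
      ∃ P : HeightOneSpectrum B, algebraMap k[X] B X ∈ P.asIdeal ∧
        ∀ f : L, P.valuation L f ≤ 1 → f ∈ V := by
    intro V hk hu
    refine exists_prime V hk (by rw [ht]; exact ht0) ?_ ?_
    · rw [ht]
      exact (V.mem_or_inv_mem u).resolve_left hu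
    · rw [ht, htdef, inv_inv]
      exact hu
  have huc : ∀ c : k, u ≠ algebraMap k L c := by
    intro c h
    exact htr (h ▸ isAlgebraic_algebraMap c)
  obtain ⟨V0, hk0, huV0⟩ := exists_vr u huc
  obtain ⟨P0, hP0, -⟩ := hVP V0 hk0 huV0
  -- the kernel of `D`
  have hker : ∀ f : L, D f = 0 → ∃ c : k, f = algebraMap k L c := by
    intro f hf
    exact ker_const D' P0 t ht0 hD't (hvt P0 hP0) (exists_residue L P0 hP0) (hle P0 hP0) f
      (by rw [hD', hf, mul_zero])
  -- elements killed by a power of `D`
  have hpoly : ∀ (n : ℕ) (f : L), D^[n] f = 0 → ∃ q : k[X], f = aeval u q := by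
    intro n
    induction n with
    | zero => intro f hf; exact ⟨0, by rw [map_zero]; exact hf⟩
    | succ n ih =>
      intro f hf
      rw [Function.iterate_succ_apply] at hf
      obtain ⟨q, hq⟩ := ih _ hf
      obtain ⟨Q, hQ⟩ := exists_antideriv q
      obtain ⟨c, hc⟩ := hker (f - aeval u Q) (by
        rw [map_sub, D.map_aeval, hQ, hDu, hq, smul_eq_mul, mul_one, sub_self])
      refine ⟨Q + Polynomial.C c, ?_⟩
      rw [map_add, aeval_C, ← hc]
      ring
  -- the orders of the derivatives
  have hstep : ∀ P : HeightOneSpectrum B, algebraMap k[X] B X ∈ P.asIdeal → ∀ (n : ℕ) (f : L),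
      P.valuation L (D^[n] f) ≤ P.valuation L t ^ n * P.valuation L f := by
    intro P hP n
    induction n with
    | zero => intro f; simp
    | succ n ih =>
      intro f
      rw [Function.iterate_succ_apply', hDD, map_mul]
      calc P.valuation L t * P.valuation L (D' (D^[n] f))
          ≤ P.valuation L t * P.valuation L (D^[n] f) := by gcongr; exact hle P hP _
        _ ≤ P.valuation L t * (P.valuation L t ^ n * P.valuation L f) := by gcongr; exact ih f
        _ = _ := by rw [pow_succ', mul_assoc]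
  have hlarge : ∀ P : HeightOneSpectrum B, algebraMap k[X] B X ∈ P.asIdeal →
      ∃ m : ℕ, ∀ n, m ≤ n → P.valuation L (D^[n] g) < 1 := by
    intro P hP
    have hvt0 : P.valuation L t ≠ 0 := (Valuation.ne_zero_iff _).2 ht0
    have h1 : P.valuation L t ≤ exp (-1 : ℤ) := by
      rw [← exp_log hvt0, exp_le_exp]
      have : log (P.valuation L t) < 0 := by
        rw [← exp_lt_exp, exp_log hvt0, exp_zero]
        exact hvt P hP
      omega
    by_cases hg0 : g = 0
    · refine ⟨0, fun n _ => ?_⟩
      have h2 := hstep P hP n g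
      rw [hg0, map_zero, mul_zero] at h2
      rw [hg0]
      exact lt_of_le_of_lt h2 zero_lt_one
    have hvg0 : P.valuation L g ≠ 0 := (Valuation.ne_zero_iff _).2 hg0
    refine ⟨(log (P.valuation L g)).toNat + 1, fun n hn => ?_⟩
    refine (hstep P hP n g).trans_lt ?_
    calc P.valuation L t ^ n * P.valuation L g ≤ exp (-1 : ℤ) ^ n * P.valuation L g := by gcongr
      _ = exp ((n : ℤ) * (-1) + log (P.valuation L g)) := by
        rw [exp_add, exp_log hvg0, ← exp_nsmul, nsmul_eq_mul]
      _ < exp 0 := by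
        rw [exp_lt_exp]
        have := Int.self_le_toNat (log (P.valuation L g))
        omega
      _ = 1 := exp_zero
  have hXne : Ideal.span {algebraMap k[X] B X} ≠ (0 : Ideal B) := by
    rw [Ne, Ideal.zero_eq_bot, Ideal.span_singleton_eq_bot]
    intro h
    apply ht0
    rw [← ht, IsScalarTower.algebraMap_apply k[X] B L, h, map_zero]
  have hfin : {P : HeightOneSpectrum B | algebraMap k[X] B X ∈ P.asIdeal}.Finite := by
    refine (Ideal.finite_factors hXne).subset fun P hP => ?_
    exact Ideal.dvd_span_singleton.2 hP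
  obtain ⟨N, hN⟩ : ∃ N : ℕ, ∀ P : HeightOneSpectrum B, algebraMap k[X] B X ∈ P.asIdeal →
      P.valuation L (D^[N] g) < 1 := by
    choose m hm using hlarge
    let m' : HeightOneSpectrum B → ℕ := fun P =>
      if h : algebraMap k[X] B X ∈ P.asIdeal then m P h else 0
    refine ⟨hfin.toFinset.sup m', fun P hP => hm P hP _ ?_⟩
    have h1 : m' P = m P hP := dif_pos hP
    rw [← h1]
    exact Finset.le_sup (f := m') (hfin.mem_toFinset.2 hP)
  have hz : ∀ n : ℕ, Itg k u (D^[n] g) := by
    intro n
    induction n with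
    | zero => exact hg
    | succ n ih =>
      rw [Function.iterate_succ_apply']
      exact hO _ ih
  refine hpoly N g ?_
  by_contra hne
  by_cases hc : ∀ c : k, D^[N] g ≠ algebraMap k L c
  · obtain ⟨V, hk, hzV⟩ := exists_vr _ hc
    have huV : u ∉ V := fun h => hzV (mem_vr V hk u h _ (hz N))
    obtain ⟨P, hP, hPV⟩ := hVP V hk huV
    exact hzV (hPV _ (hN P hP).le)
  · push Not at hc
    obtain ⟨c, hc⟩ := hc
    have hc0 : c ≠ 0 := by
      rintro rfl
      rw [map_zero] at hc
      exact hne hc
    have h1 := hN P0 hP0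
    rw [hc, val_const P0 c hc0] at h1
    exact lt_irrefl _ h1

end gen

section inst

variable {k L : Type} [Field k] [CharZero k] [Field L] [Algebra k L]

/-- the `k[X]`-algebra with `X ↦ w` -/
noncomputable abbrev algL (w : L) : Algebra k[X] L :=
  ((aeval w : k[X] →ₐ[k] L) : k[X] →+* L).toAlgebra

/-- the `k[X]`-algebra `k(w)` with `X ↦ w` -/
noncomputable abbrev algK (w : L) : Algebra k[X] (adjoin k {w}) :=
  ((aeval (AdjoinSimple.gen k w) : k[X] →ₐ[k] (adjoin k {w})) : k[X] →+* (adjoin k {w})).toAlgebra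

theorem algK_coe (w : L) (f : k[X]) :
    ((aeval (AdjoinSimple.gen k w) f : adjoin k {w}) : L) = aeval w f := by
  have h1 : (algebraMap (adjoin k {w}) L) (aeval (AdjoinSimple.gen k w) f) =
      aeval (algebraMap (adjoin k {w}) L (AdjoinSimple.gen k w)) f := by
    rw [aeval_algebraMap_apply]
  rw [AdjoinSimple.algebraMap_gen] at h1
  exact h1

theorem isFrac (w : L) (hw : Transcendental k w) :
    @IsFractionRing k[X] _ (adjoin k {w}) _ (algK w) := by
  letI := algK (k := k) w
  have hinj : Function.Injective (algebraMap k[X] (adjoin k {w})) := by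
    intro f g h
    have h1 : aeval w f = aeval w g :=
      (algK_coe w f).symm.trans ((congrArg Subtype.val h).trans (algK_coe w g))
    exact (transcendental_iff_injective.1 hw) h1
  haveI : FaithfulSMul k[X] (adjoin k {w}) := (faithfulSMul_iff_algebraMap_injective _ _).2 hinj
  refine IsFractionRing.of_field k[X] (adjoin k {w}) fun z => ?_
  obtain ⟨r, s, h⟩ := (mem_adjoin_simple_iff k (z : L)).1 z.2
  refine ⟨r, s, Subtype.ext ?_⟩
  refine h.trans ?_
  have h1 := algK_coe w r
  have h2 := algK_coe w s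
  rw [← h1, ← h2]
  rfl

theorem tower1 (w : L) : @IsScalarTower k k[X] L _ (algL w).toSMul _ := by
  letI := algL (k := k) w
  refine IsScalarTower.of_algebraMap_eq fun c => ?_
  show algebraMap k L c = aeval w (Polynomial.C c)
  rw [aeval_C]

theorem tower2 (w : L) :
    @IsScalarTower k[X] (adjoin k {w}) L (algK w).toSMul _ (algL w).toSMul := by
  letI := algL (k := k) w
  letI := algK (k := k) w
  refine IsScalarTower.of_algebraMap_eq fun f => ?_
  exact (algK_coe w f).symm

theorem exists_mul_int (u : L) (hu : Transcendental k u)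
    (hfin : FiniteDimensional (adjoin k {u}) L) (x : L) :
    ∃ r : k[X], aeval u r ≠ 0 ∧ Itg k u (aeval u r * x) := by
  letI := algL (k := k) u
  letI := algK (k := k) u
  haveI := isFrac u hu
  haveI := tower2 (k := k) u
  have h1 : IsAlgebraic k[X] x :=
    (IsFractionRing.isAlgebraic_iff k[X] (adjoin k {u}) L).2 (Algebra.IsAlgebraic.isAlgebraic x)
  obtain ⟨r, hr, h⟩ := h1.exists_integral_multiple
  refine ⟨r, ?_, ?_⟩
  · intro h0
    exact hr ((transcendental_iff_injective.1 hu) (by rw [h0, map_zero]))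
  · rw [Algebra.smul_def] at h
    exact h

end inst

end Pool.DynLehmer.UN.P3

namespace Pool.DynLehmer.UN
open IsDedekindDomain WithZero Polynomial IntermediateField P3

/-- Row P3. -/
theorem p3 : P3Statement := by
  intro k L _ _ _ _ _ u D hu hfin hDu hO
  have hu0 : u ≠ 0 := by
    rintro rfl
    exact hu isAlgebraic_zero
  have ht : Transcendental k u⁻¹ := by
    intro h
    exact hu (by simpa using h.inv)
  have hadj : adjoin k {u⁻¹} = adjoin k {u} := by
    refine le_antisymm ?_ ?_
    · rw [adjoin_simple_le_iff]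
      exact inv_mem (mem_adjoin_simple_self k u)
    · rw [adjoin_simple_le_iff]
      have := inv_mem (mem_adjoin_simple_self k u⁻¹)
      rwa [inv_inv] at this
  have hfin' : FiniteDimensional (adjoin k {u⁻¹}) L := by
    rw [hadj]
    exact hfin
  have key : ∀ g, Itg k u g → ∃ q : k[X], g = aeval u q := by
    letI := algL (k := k) u⁻¹
    letI := algK (k := k) u⁻¹
    haveI := isFrac u⁻¹ ht
    haveI := tower1 (k := k) u⁻¹
    haveI := tower2 (k := k) u⁻¹
    haveI : IsDedekindDomain (integralClosure k[X] L) :=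
      integralClosure.isDedekindDomain k[X] (adjoin k {u⁻¹}) L
    haveI : IsFractionRing (integralClosure k[X] L) L :=
      integralClosure.isFractionRing_of_finite_extension (adjoin k {u⁻¹}) L
    intro g hg
    refine int_poly (adjoin k {u⁻¹}) (integralClosure k[X] L) u hu0 ?_ D hu hDu hO g hg
    show aeval u⁻¹ X = u⁻¹
    rw [aeval_X]
  rw [eq_top_iff]
  intro x _
  obtain ⟨r, hr, hx⟩ := exists_mul_int u hu hfin x
  obtain ⟨q, hq⟩ := key _ hx
  have hx' : x = aeval u q / aeval u r := by
    rw [← hq]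
    field_simp
  rw [hx']
  have hmem : ∀ f : k[X], aeval u f ∈ adjoin k {u} := by
    intro f
    have h1 := algK_coe u f
    rw [← h1]
    exact SetLike.coe_mem _
  exact div_mem (hmem q) (hmem r)

end Pool.DynLehmer.UN

/-!
# Row Y8: `v 0` is integral over `k[u 0]`
-/

namespace Pool.DynLehmer.UN.Y8
open Polynomial IntermediateField P3 Y8a

section
variable {k L : Type} [Field k] [Field L] [Algebra k L]

theorem itg_iff (u g : L) : Itg k u g ↔
    @IsIntegral k[X] L _ _ (algL u) g := Iff.rfl

theorem itg_mul {u g h : L} (hg : Itg k u g) (hh : Itg k u h) : Itg k u (g * h) := by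
  letI := algL (k := k) u
  have h1 : IsIntegral k[X] g := hg
  have h2 : IsIntegral k[X] h := hh
  exact h1.mul h2

theorem itg_add {u g h : L} (hg : Itg k u g) (hh : Itg k u h) : Itg k u (g + h) := by
  letI := algL (k := k) u
  have h1 : IsIntegral k[X] g := hg
  have h2 : IsIntegral k[X] h := hh
  exact h1.add h2

theorem itg_poly (u : L) (f : k[X]) : Itg k u (aeval u f) := by
  letI := algL (k := k) u
  have h1 : IsIntegral k[X] (algebraMap k[X] L f) := isIntegral_algebraMap
  exact h1

theorem itg_pow {u g : L} (hg : Itg k u g) (n : ℕ) : Itg k u (g ^ n) := by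
  letI := algL (k := k) u
  have h1 : IsIntegral k[X] g := hg
  exact h1.pow n

/-- `w` is integral at `a` -/
def Good (u w : L) (a : k) : Prop := ∃ s : k[X], s.eval a ≠ 0 ∧ Itg k u (aeval u s * w)

/-- the scaled polynomial -/
theorem aeval_scale (u w : L) (F : k[X]) (s : k[X]) :
    eval₂ ((aeval u : k[X] →ₐ[k] L) : k[X] →+* L) (aeval u s * w) (scaleRoots (F.map (C : k →+* k[X])) s) =
      (aeval u s) ^ F.natDegree * aeval w F := by
  have h1 := scaleRoots_eval₂_mul (p := F.map (C : k →+* k[X]))
    ((aeval u : k[X] →ₐ[k] L) : k[X] →+* L) w s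
  rw [natDegree_map_eq_of_injective C_injective] at h1
  refine h1.trans ?_
  congr 1
  rw [eval₂_map, aeval_def]
  congr 1
  ext c
  simp

theorem good_comp (u w : L) (F : k[X]) (hF : 1 ≤ F.natDegree) (a : k) :
    Good u w a ↔ Good u (aeval w F) a := by
  constructor
  · rintro ⟨s, hs, h⟩
    refine ⟨s ^ F.natDegree, by rw [eval_pow]; exact pow_ne_zero _ hs, ?_⟩
    rw [map_pow, ← aeval_scale]
    letI := algL (k := k) u
    have h1 : IsIntegral k[X] (aeval u s * w) := h
    have h2 : ∀ P : k[X][X], IsIntegral k[X] (aeval (aeval u s * w) P) := fun P => by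
      induction P using Polynomial.induction_on' with
      | add p q hp hq => rw [map_add]; exact hp.add hq
      | monomial n c =>
        rw [aeval_monomial]
        exact isIntegral_algebraMap.mul (h1.pow n)
    exact h2 _
  · rintro ⟨s, hs, h⟩
    refine ⟨s, hs, ?_⟩
    letI := algL (k := k) u
    have hlc : F.leadingCoeff ≠ 0 := by
      rw [Ne, leadingCoeff_eq_zero]
      rintro rfl
      simp at hF
    set F' : k[X] := C (F.leadingCoeff)⁻¹ * F with hF'
    have hmon : F'.Monic := by
      rw [hF', mul_comm]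
      exact monic_mul_leadingCoeff_inv (fun h0 => hlc (by rw [h0]; simp))
    have hdeg : F'.natDegree = F.natDegree := by
      rw [hF', natDegree_C_mul (inv_ne_zero hlc)]
    have hmon2 : (scaleRoots (F'.map (C : k →+* k[X])) s).Monic := by
      rw [monic_scaleRoots_iff]
      exact hmon.map _
    have h5 := aeval_scale u w F' s
    refine IsIntegral.of_aeval_monic (R := k[X]) hmon2 ?_ ?_
    · rw [natDegree_scaleRoots, natDegree_map_eq_of_injective C_injective, hdeg]
      omega
    · have h6 : aeval (aeval u s * w) (scaleRoots (F'.map (C : k →+* k[X])) s) =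
          (aeval u s) ^ F'.natDegree * aeval w F' := h5
      rw [h6, hdeg, hF', map_mul, aeval_C]
      obtain ⟨n, hn⟩ : ∃ n, F.natDegree = n + 1 := ⟨F.natDegree - 1, by omega⟩
      rw [hn, pow_succ]
      have h7 : aeval u s ^ n * aeval u s * (algebraMap k L F.leadingCoeff⁻¹ * aeval w F) =
          aeval u (C F.leadingCoeff⁻¹ * s ^ n) * (aeval u s * aeval w F) := by
        rw [map_mul, map_pow, aeval_C]
        ring
      rw [h7]
      exact itg_mul (itg_poly u _) h

/-- transport of integrality -/
theorem itg_map (φ : L →ₐ[k] L) {u g : L} {F : k[X]} (hφ : φ u = aeval u F) (hg : Itg k u g) :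
    Itg k u (φ g) := by
  obtain ⟨p, hp, hpx⟩ := hg
  refine ⟨p.map (compRingHom F), hp.map _, ?_⟩
  rw [eval₂_map]
  have h1 : (((aeval u : k[X] →ₐ[k] L) : k[X] →+* L).comp (compRingHom F)) =
      (φ : L →+* L).comp ((aeval u : k[X] →ₐ[k] L) : k[X] →+* L) := by
    refine Polynomial.ringHom_ext (fun c => ?_) ?_
    · simp
    · simp [hφ]
  rw [h1]
  have h2 := congrArg (φ : L →+* L) hpx
  rw [hom_eval₂, map_zero] at h2
  exact h2

theorem good_map (φ : L →ₐ[k] L) {u w : L} {F : k[X]} (hφ : φ u = aeval u F) {a : k}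
    (h : Good u w (F.eval a)) : Good u (φ w) a := by
  obtain ⟨s, hs, hi⟩ := h
  refine ⟨s.comp F, by rw [eval_comp]; exact hs, ?_⟩
  have h1 := itg_map φ hφ hi
  rw [map_mul] at h1
  have h2 : φ (aeval u s) = aeval u (s.comp F) := by
    rw [aeval_comp, ← hφ, aeval_algHom_apply]
  rwa [h2] at h1

end

section
variable {k L : Type} [Field k] [CharZero k] [Field L] [Algebra k L]

/-- coefficients of the minimal polynomial of an element which is integral at `a` -/
theorem coeff_of_good (u : L) (hu : Transcendental k u) (hfin : FiniteDimensional (adjoin k {u}) L)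
    (w : L) (s : k[X]) (hs : s ≠ 0) (h : Itg k u (aeval u s * w)) (i : ℕ) :
    ∃ g : k[X], ((minpoly (adjoin k {u}) w).coeff i : L) *
      (aeval u s) ^ ((minpoly (adjoin k {u}) w).natDegree - i) = aeval u g := by
  letI := algL (k := k) u
  letI := algK (k := k) u
  haveI := isFrac u hu
  haveI := tower2 (k := k) u
  have h1 : IsIntegral k[X] (aeval u s * w) := h
  have h2 : minpoly (adjoin k {u}) (aeval u s * w) = (minpoly k[X] (aeval u s * w)).map (algebraMap k[X] (adjoin k {u})) :=
    minpoly.isIntegrallyClosed_eq_field_fractions' (adjoin k {u}) h1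
  set z : (adjoin k {u}) := algebraMap k[X] (adjoin k {u}) s with hz
  have hzL : algebraMap (adjoin k {u}) L z = aeval u s := by
    rw [hz, ← IsScalarTower.algebraMap_apply]
    rfl
  have hz0 : z ≠ 0 := by
    rw [hz, Ne, IsFractionRing.to_map_eq_zero_iff]
    exact hs
  have hiw : IsIntegral (adjoin k {u}) w := Algebra.IsIntegral.isIntegral w
  have hizw : IsIntegral (adjoin k {u}) (aeval u s * w) := Algebra.IsIntegral.isIntegral _
  have h3 : minpoly (adjoin k {u}) (aeval u s * w) = scaleRoots (minpoly (adjoin k {u}) w) z := by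
    refine (Polynomial.eq_of_monic_of_dvd_of_natDegree_le (minpoly.monic hizw)
      ((monic_scaleRoots_iff z).2 (minpoly.monic hiw)) ?_ ?_).symm
    · refine minpoly.dvd _ _ ?_
      rw [← hzL]
      exact scaleRoots_aeval_eq_zero (minpoly.aeval _ _)
    · rw [natDegree_scaleRoots]
      have h4 : minpoly (adjoin k {u}) w ∣ scaleRoots (minpoly (adjoin k {u}) (aeval u s * w)) z⁻¹ := by
        refine minpoly.dvd _ _ ?_
        have h5 : w = algebraMap (adjoin k {u}) L z⁻¹ * (aeval u s * w) := by
          rw [← mul_assoc, ← hzL, ← map_mul, inv_mul_cancel₀ hz0, map_one, one_mul]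
        have h9 : aeval (algebraMap (adjoin k {u}) L z⁻¹ * (aeval u s * w))
            (scaleRoots (minpoly (adjoin k {u}) (aeval u s * w)) z⁻¹) = 0 :=
          scaleRoots_aeval_eq_zero (minpoly.aeval _ _)
        rwa [← h5] at h9
      have h6 := natDegree_le_of_dvd h4
        ((monic_scaleRoots_iff z⁻¹).2 (minpoly.monic hizw)).ne_zero
      rwa [natDegree_scaleRoots] at h6
  rw [h3] at h2
  have h7 := congrArg (fun p : (adjoin k {u})[X] => p.coeff i) h2
  simp only [coeff_scaleRoots, coeff_map] at h7
  refine ⟨(minpoly k[X] (aeval u s * w)).coeff i, ?_⟩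
  have h8 := congrArg (algebraMap (adjoin k {u}) L) h7
  rw [map_mul, map_pow, hzL, ← IsScalarTower.algebraMap_apply] at h8
  exact h8

/-- reduced fractions -/
theorem exists_frac (u : L) (hu : Transcendental k u) (c : adjoin k {u}) :
    ∃ n d : k[X], IsCoprime n d ∧ d ≠ 0 ∧ (c : L) * aeval u d = aeval u n := by
  letI := algL (k := k) u
  letI := algK (k := k) u
  haveI := isFrac u hu
  haveI := tower2 (k := k) u
  obtain ⟨n, d, h1, h2⟩ := IsFractionRing.exists_reduced_fraction (A := k[X]) c
  refine ⟨n, d, h1.isCoprime, nonZeroDivisors.ne_zero d.2, ?_⟩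
  rw [IsLocalization.mk'_eq_iff_eq_mul] at h2
  have h3 := congrArg (algebraMap (adjoin k {u}) L) h2
  rw [map_mul, ← IsScalarTower.algebraMap_apply, ← IsScalarTower.algebraMap_apply] at h3
  exact h3.symm

/-- an element is integral if its minimal polynomial has denominator `D` -/
theorem itg_of_coeff (u : L) (hu : Transcendental k u)
    (hfin : FiniteDimensional (adjoin k {u}) L) (w : L) (D : k[X])
    (h : ∀ i < (minpoly (adjoin k {u}) w).natDegree,
      ∃ g : k[X], ((minpoly (adjoin k {u}) w).coeff i : L) * aeval u D = aeval u g) :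
    Itg k u (aeval u D * w) := by
  letI := algL (k := k) u
  letI := algK (k := k) u
  haveI := isFrac u hu
  haveI := tower2 (k := k) u
  set z : (adjoin k {u}) := algebraMap k[X] (adjoin k {u}) D with hz
  have hzL : algebraMap (adjoin k {u}) L z = aeval u D := by
    rw [hz, ← IsScalarTower.algebraMap_apply]
    rfl
  have hiw : IsIntegral (adjoin k {u}) w := Algebra.IsIntegral.isIntegral w
  have hmon : (scaleRoots (minpoly (adjoin k {u}) w) z).Monic :=
    (monic_scaleRoots_iff z).2 (minpoly.monic hiw)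
  have hlift : scaleRoots (minpoly (adjoin k {u}) w) z ∈ lifts (algebraMap k[X] (adjoin k {u})) := by
    rw [lifts_iff_coeff_lifts]
    intro i
    rw [coeff_scaleRoots]
    rcases lt_trichotomy i (minpoly (adjoin k {u}) w).natDegree with hi | hi | hi
    · obtain ⟨g, hg⟩ := h i hi
      obtain ⟨j, hj⟩ : ∃ j, (minpoly (adjoin k {u}) w).natDegree - i = j + 1 :=
        ⟨(minpoly (adjoin k {u}) w).natDegree - i - 1, by omega⟩
      refine ⟨g * D ^ j, ?_⟩
      rw [hj, pow_succ', ← mul_assoc, map_mul, map_pow]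
      congr 1
      apply (algebraMap (adjoin k {u}) L).injective
      rw [map_mul, hzL, ← IsScalarTower.algebraMap_apply]
      exact hg.symm
    · refine ⟨1, ?_⟩
      rw [hi, Nat.sub_self, pow_zero, mul_one, map_one]
      exact (minpoly.monic hiw).coeff_natDegree.symm
    · refine ⟨0, ?_⟩
      rw [coeff_eq_zero_of_natDegree_lt hi, zero_mul, map_zero]
  obtain ⟨q, hq, -, hqm⟩ := lifts_and_natDegree_eq_and_monic hlift hmon
  refine ⟨q, hqm, ?_⟩
  have h5 : aeval (algebraMap (adjoin k {u}) L z * w) (scaleRoots (minpoly (adjoin k {u}) w) z) = 0 :=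
    scaleRoots_aeval_eq_zero (minpoly.aeval _ _)
  rw [← hq, aeval_map_algebraMap, hzL] at h5
  exact h5

end

section tow
variable {k N : Type} [Field k] [IsAlgClosed k] [CharZero k] [Field N] [Algebra k N] {f : k[X]}
  {M m : ℕ}

theorem u_iter (T : Tow k N f M m) (n : ℕ) : T.u n = aeval (T.u 0) (itp f n) := by
  induction n with
  | zero => rw [itp_zero, aeval_X]
  | succ n ih => rw [T.us, itp_succ, aeval_comp, ← ih]

theorem v_iter (T : Tow k N f M m) (n : ℕ) : T.v n = aeval (T.v 0) (itp f n) := by
  induction n with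
  | zero => rw [itp_zero, aeval_X]
  | succ n ih => rw [T.vs, itp_succ, aeval_comp, ← ih]

theorem phi_u (T : Tow k N f M m) : T.φ (T.u 0) = aeval (T.u 0) (itp f M) := by
  rw [T.φu, Nat.zero_add, u_iter]

theorem phi_v (T : Tow k N f M m) : T.φ (T.v 0) = aeval (T.v 0) (itp f M) := by
  rw [T.φv, Nat.zero_add, v_iter]

/-- the endomorphism on `k(u 0)` -/
theorem phi_mem (T : Tow k N f M m) (c : adjoin k {T.u 0}) :
    T.φ (c : N) ∈ adjoin k {T.u 0} := by
  obtain ⟨r, s, h⟩ := (mem_adjoin_simple_iff k (c : N)).1 c.2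
  rw [h, map_div₀, ← aeval_algHom_apply, ← aeval_algHom_apply, phi_u, ← aeval_comp, ← aeval_comp]
  have hmem : ∀ g : k[X], aeval (T.u 0) g ∈ adjoin k {T.u 0} := by
    intro g
    have h1 := algK_coe (T.u 0) g
    rw [← h1]
    exact SetLike.coe_mem _
  exact div_mem (hmem _) (hmem _)

/-- the minimal polynomial of the image -/
theorem minpoly_phi (T : Tow k N f M m) (i : ℕ) :
    ((minpoly (adjoin k {T.u 0}) (T.v M)).coeff i : N) =
      T.φ ((minpoly (adjoin k {T.u 0}) (T.v 0)).coeff i : N) := by
  haveI := T.fin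
  let ψ : adjoin k {T.u 0} →+* adjoin k {T.u 0} :=
    ((T.φ : N →+* N).comp (algebraMap (adjoin k {T.u 0}) N)).codRestrict
      (adjoin k {T.u 0}).toSubring (fun c => phi_mem T c)
  have hψ : ∀ c, ((ψ c : adjoin k {T.u 0}) : N) = T.φ (c : N) := fun c => rfl
  have hi0 : IsIntegral (adjoin k {T.u 0}) (T.v 0) := Algebra.IsIntegral.isIntegral _
  have hiM : IsIntegral (adjoin k {T.u 0}) (T.v M) := Algebra.IsIntegral.isIntegral _
  have h1 : (minpoly (adjoin k {T.u 0}) (T.v 0)).map ψ = minpoly (adjoin k {T.u 0}) (T.v M) := by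
    refine Polynomial.eq_of_monic_of_dvd_of_natDegree_le (minpoly.monic hiM)
      ((minpoly.monic hi0).map ψ) ?_ ?_
    · refine minpoly.dvd _ _ ?_
      rw [aeval_def, eval₂_map]
      have h2 : (algebraMap (adjoin k {T.u 0}) N).comp ψ =
          (T.φ : N →+* N).comp (algebraMap (adjoin k {T.u 0}) N) := by
        ext c
        rfl
      have h3 : T.v M = T.φ (T.v 0) := by rw [T.φv, Nat.zero_add]
      rw [h2, h3]
      have h4 := congrArg (T.φ : N →+* N) (minpoly.aeval (adjoin k {T.u 0}) (T.v 0))
      rw [aeval_def, hom_eval₂, map_zero] at h4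
      exact h4
    · rw [(minpoly.monic hi0).natDegree_map, T.deg 0 0 le_rfl, T.deg 0 M (Nat.zero_le _)]
  rw [← h1, coeff_map, hψ]

theorem good_iff (T : Tow k N f M m) (hf : 2 ≤ f.natDegree) (a : k) :
    Good (T.u 0) (T.v 0) a ↔ Good (T.u 0) (T.v 0) ((itp f M).eval a) := by
  classical
  have hF : 1 ≤ (itp f M).natDegree := by
    rw [natDegree_itp]
    exact Nat.one_le_pow _ _ (by omega)
  constructor
  · intro h
    rw [good_comp _ _ (itp f M) hF, ← phi_v, T.φv, Nat.zero_add] at h
    obtain ⟨s, hs, hi⟩ := h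
    have hs0 : s ≠ 0 := by
      rintro rfl
      exact hs eval_zero
    have hm0 : (minpoly (adjoin k {T.u 0}) (T.v 0)).natDegree = m := T.deg 0 0 le_rfl
    have hmM : (minpoly (adjoin k {T.u 0}) (T.v M)).natDegree = m := T.deg 0 M (Nat.zero_le _)
    choose n d hcop hd0 hnd using fun i =>
      exists_frac (T.u 0) T.tu ((minpoly (adjoin k {T.u 0}) (T.v 0)).coeff i)
    choose g hg using fun i => coeff_of_good (T.u 0) T.tu T.fin (T.v M) s hs0 hi i
    have hev : ∀ i, (d i).eval ((itp f M).eval a) ≠ 0 := by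
      intro i h0
      have h1 := congrArg T.φ (hnd i)
      rw [map_mul, ← aeval_algHom_apply, ← aeval_algHom_apply, phi_u, ← aeval_comp, ← aeval_comp,
        ← minpoly_phi] at h1
      have h2 := hg i
      rw [hmM] at h2
      have h3 : aeval (T.u 0) ((n i).comp (itp f M) * s ^ (m - i)) =
          aeval (T.u 0) (g i * (d i).comp (itp f M)) := by
        rw [map_mul, map_mul, map_pow, ← h1, ← h2]
        ring
      have h4 := (transcendental_iff_injective.1 T.tu) h3
      have h5 := congrArg (eval a) h4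
      rw [eval_mul, eval_mul, eval_comp, eval_comp, h0, mul_zero, eval_pow] at h5
      have h6 : (n i).eval ((itp f M).eval a) = 0 :=
        (mul_eq_zero.1 h5).resolve_right (pow_ne_zero _ hs)
      obtain ⟨α, β, hαβ⟩ := hcop i
      have h7 := congrArg (eval ((itp f M).eval a)) hαβ
      rw [eval_add, eval_mul, eval_mul, h6, h0, mul_zero, mul_zero, add_zero, eval_one] at h7
      exact zero_ne_one h7
    refine ⟨∏ i ∈ Finset.range m, d i, ?_, ?_⟩
    · rw [eval_prod]
      exact Finset.prod_ne_zero_iff.2 fun i _ => hev i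
    · refine itg_of_coeff (T.u 0) T.tu T.fin (T.v 0) _ fun i hi => ?_
      rw [hm0] at hi
      refine ⟨n i * ∏ j ∈ (Finset.range m).erase i, d j, ?_⟩
      rw [← Finset.mul_prod_erase (Finset.range m) d (Finset.mem_range.2 hi), map_mul, map_mul,
        ← hnd i]
      ring
  · intro h
    rw [good_comp _ _ (itp f M) hF, ← phi_v]
    exact good_map T.φ (phi_u T) h

theorem main (T : Tow k N f M m) (hf : 2 ≤ f.natDegree) (hM : 1 ≤ M) (hE : ¬ PExc f) :
    Itg k (T.u 0) (T.v 0) := by
  classical
  by_contra hn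
  let I : Ideal k[X] :=
    { carrier := {s | Itg k (T.u 0) (aeval (T.u 0) s * T.v 0)}
      add_mem' := by
        intro a b ha hb
        show Itg k (T.u 0) (aeval (T.u 0) (a + b) * T.v 0)
        rw [map_add, add_mul]
        exact itg_add ha hb
      zero_mem' := by
        show Itg k (T.u 0) (aeval (T.u 0) 0 * T.v 0)
        rw [map_zero, zero_mul]
        have := itg_poly (T.u 0) (0 : k[X])
        rwa [map_zero] at this
      smul_mem' := by
        intro c s hs
        show Itg k (T.u 0) (aeval (T.u 0) (c * s) * T.v 0)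
        rw [map_mul, mul_assoc]
        exact itg_mul (itg_poly _ c) hs }
  have hI : ∀ s, s ∈ I ↔ Itg k (T.u 0) (aeval (T.u 0) s * T.v 0) := fun s => Iff.rfl
  obtain ⟨d, hd⟩ := (IsPrincipalIdealRing.principal I).principal
  have hdvd : ∀ s, s ∈ I ↔ d ∣ s := by
    intro s
    rw [hd]
    exact Ideal.mem_span_singleton
  have hdI : d ∈ I := (hdvd d).2 dvd_rfl
  obtain ⟨r, hr0, hr⟩ := exists_mul_int (T.u 0) T.tu T.fin (T.v 0)
  have hd0 : d ≠ 0 := by
    rintro rfl
    have h1 := (hdvd r).1 ((hI r).2 hr)
    rw [zero_dvd_iff] at h1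
    rw [h1, map_zero] at hr0
    exact hr0 rfl
  have hgood : ∀ a, Good (T.u 0) (T.v 0) a ↔ d.eval a ≠ 0 := by
    intro a
    constructor
    · rintro ⟨s, hs, hi⟩ h0
      obtain ⟨e, rfl⟩ := (hdvd s).1 ((hI s).2 hi)
      rw [eval_mul, h0, zero_mul] at hs
      exact hs rfl
    · intro h
      exact ⟨d, h, (hI d).1 hdI⟩
  refine hE (Y8a.main f M {a | d.eval a = 0} hf hM ?_ ?_ ?_)
  · exact Polynomial.finite_setOf_isRoot hd0
  · by_contra hne
    have h1 : d.degree = 0 := by
      by_contra hdeg
      obtain ⟨a, ha⟩ := IsAlgClosed.exists_root d hdeg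
      exact hne ⟨a, ha⟩
    have h2 : IsUnit d := isUnit_iff_degree_eq_zero.2 h1
    have h3 : (1 : k[X]) ∈ I := (hdvd 1).2 h2.dvd
    have h4 := (hI 1).1 h3
    rw [map_one, one_mul] at h4
    exact hn h4
  · intro a
    have h1 := good_iff T hf a
    rw [hgood, hgood] at h1
    rw [← eval_itp]
    exact not_iff_not.1 h1

end tow

/-- Row Y8. -/
theorem y8 : Y8Statement := by
  intro k N _ _ _ _ _ f M m T hf hM hE
  exact main T hf hM hE

end Pool.DynLehmer.UN.Y8
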