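import Pool.Agent.Lib.MP_2194ec_nt.UN.PolDefs
import Pool.Agent.Lib.MP_524519_ag.DU5.PC.NP
import Pool.Agent.Lib.MP_524519_ag.DU5.PC.WFC

set_option autoImplicit false

/-!
# Periodic pairs of a polynomial: power series
-/

/-! # Row P2A: one step of the tower -/

namespace Pool.DynLehmer.UN
open Polynomial IntermediateField

namespace P2a69

/-- power series in the algebraic closure of the Laurent series, as a ring homomorphism -/
noncomputable def pusH (k : Type) [Field k] : PowerSeries k →+* AlgebraicClosure (LaurentSeries k) :=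
  (algebraMap (LaurentSeries k) (AlgebraicClosure (LaurentSeries k))).comp
    (HahnSeries.ofPowerSeries ℤ k)

theorem pus_eq {k : Type} [Field k] (s : PowerSeries k) : pus s = pusH k s := rfl

/-- the elements whose image is a Laurent series -/
noncomputable def LS {k E : Type} [Field k] [Field E]
    (h : E →+* AlgebraicClosure (LaurentSeries k)) : Subfield E :=
  (algebraMap (LaurentSeries k) (AlgebraicClosure (LaurentSeries k))).fieldRange.comap h

theorem mem_LS {k E : Type} [Field k] [Field E]
    (h : E →+* AlgebraicClosure (LaurentSeries k)) (z : E) :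
    z ∈ LS h ↔ ∃ l : LaurentSeries k, h z = algebraMap _ (AlgebraicClosure (LaurentSeries k)) l := by
  unfold LS
  rw [Subfield.mem_comap, RingHom.mem_fieldRange]
  exact ⟨fun ⟨l, hl⟩ => ⟨l, hl.symm⟩, fun ⟨l, hl⟩ => ⟨l, hl.symm⟩⟩

/-- generation: if the base field and the generator go to Laurent series, then everything does -/
theorem LS_top {k E' E : Type} [Field k] [Field E'] [Field E] [Algebra E' E]
    (h : E →+* AlgebraicClosure (LaurentSeries k)) {S : Set E} (htop : adjoin E' S = ⊤)
    (h1 : ∀ z : E', algebraMap E' E z ∈ LS h) (h2 : ∀ u ∈ S, u ∈ LS h) (z : E) : z ∈ LS h := by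
  have hz : z ∈ adjoin E' S := htop ▸ mem_top
  refine adjoin_induction (F := E') (s := S) (p := fun z _ => z ∈ LS h) ?_ ?_ ?_ ?_ ?_ hz
  · exact fun x hx => h2 x hx
  · exact fun x => h1 x
  · exact fun x y _ _ hx hy => add_mem hx hy
  · exact fun x _ hx => inv_mem hx
  · exact fun x y _ _ hx hy => mul_mem hx hy

/-- Row P2A. -/
theorem p2a (hR : P2rStatement) : P2aStatement := by
  intro k E' E _ _ _ _ _ _ _ _ _ p c u u' hp hu htop hdeg a ha
  constructor
  · intro hS s hs h' hk hu'
    obtain ⟨⟨r, hr, hr'⟩, -⟩ := hR k p a s hp ha hs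
    obtain ⟨h, hh, hhu⟩ : ∃ h : E →+* AlgebraicClosure (LaurentSeries k),
        (∀ z : E', h (algebraMap E' E z) = h' z) ∧ h u = pus (PowerSeries.C a + r) := by
      let _ : Algebra E' (AlgebraicClosure (LaurentSeries k)) := h'.toAlgebra
      set w : E' := u' - algebraMap k E' c with hw
      have hwE : algebraMap E' E w = u ^ p := by
        rw [hw, map_sub, hu, ← IsScalarTower.algebraMap_apply k E' E, add_sub_cancel_right]
      have hmon : (X ^ p - C w : E'[X]).Monic := monic_X_pow_sub_C w (by omega)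
      have hroot : aeval u (X ^ p - C w : E'[X]) = 0 := by
        rw [map_sub, map_pow, aeval_X, aeval_C, hwE, sub_self]
      have hint : IsIntegral E' u := ⟨X ^ p - C w, hmon, hroot⟩
      have hmin : minpoly E' u = X ^ p - C w := by
        refine (eq_of_monic_of_dvd_of_natDegree_le (minpoly.monic hint) hmon
          (minpoly.dvd E' u hroot) ?_).symm
        rw [hdeg, natDegree_X_pow_sub_C]
      have hwh : h' w = pus (PowerSeries.C a + r) ^ p := by
        rw [hw, map_sub, hu', hk, pus_eq, pus_eq, pus_eq, ← map_pow, hr', ← map_sub]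
        congr 1
        rw [map_add]
        ring
      have hy : aeval (pus (PowerSeries.C a + r)) (minpoly E' u) = 0 := by
        rw [hmin, map_sub, map_pow, aeval_X, aeval_C]
        show _ - h' w = 0
        rw [hwh, sub_self]
      obtain ⟨φ, hφ⟩ := exists_algHom_of_adjoin_splits_of_aeval (F := E') (E := E)
        (K := AlgebraicClosure (LaurentSeries k)) (S := {u})
        (fun s hs => by
          obtain rfl : s = u := hs
          exact ⟨hint, IsAlgClosed.splits _⟩) htop hy
      exact ⟨φ.toRingHom, fun z => φ.commutes z, hφ⟩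
    intro z
    obtain ⟨l, hl⟩ := hS r hr h (fun b => by
      rw [IsScalarTower.algebraMap_apply k E' E, hh, hk]) hhu (algebraMap E' E z)
    exact ⟨l, by rw [← hh, hl]⟩
  · intro hS s hs h hk hhu z
    obtain ⟨-, r, hr, hr'⟩ := hR k p a s hp ha hs
    have h3 := hS r hr (h.comp (algebraMap E' E)) (fun b => by
      rw [RingHom.comp_apply, ← IsScalarTower.algebraMap_apply k E' E, hk]) (by
      rw [RingHom.comp_apply, hu, map_add, map_pow, hhu, hk, pus_eq, pus_eq, pus_eq, ← map_pow,
        hr', ← map_add]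
      congr 1
      rw [map_add]
      ring)
    refine (mem_LS h z).1 (LS_top h htop (fun z => (mem_LS h _).2 (h3 z)) ?_ z)
    intro v hv
    obtain rfl : v = u := hv
    rw [mem_LS, hhu]
    exact ⟨_, rfl⟩

end P2a69

end Pool.DynLehmer.UN

/-! # Row P2B: almost all points split -/

namespace Pool.DynLehmer.UN
open Polynomial IntermediateField
open scoped Classical

namespace P2b69
open P2a69

variable {k L : Type} [Field k] [Field L] [Algebra k L] (u : L)

/-- the substitution `X ↦ u` with values in `k(u)` -/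
noncomputable def iota : k[X] →+* adjoin k {u} :=
  ((aeval (⟨u, mem_adjoin_simple_self k u⟩ : adjoin k {u}) : k[X] →ₐ[k] adjoin k {u}) :
    k[X] →+* adjoin k {u})

theorem iota_C (b : k) : iota u (C b) = algebraMap k (adjoin k {u}) b := by
  show aeval _ (C b) = _
  rw [aeval_C]

theorem iota_X : iota u (X : k[X]) = (⟨u, mem_adjoin_simple_self k u⟩ : adjoin k {u}) := by
  show aeval _ X = _
  rw [aeval_X]

theorem iota_coe (g : k[X]) : ((iota u g : adjoin k {u}) : L) = aeval u g := by
  show (algebraMap (adjoin k {u}) L) (aeval _ g) = _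
  rw [← aeval_algebraMap_apply]
  rfl

theorem iota_inj (hu : Transcendental k u) : Function.Injective (iota (k := k) u) := by
  rw [injective_iff_map_eq_zero]
  intro g hg
  by_contra hne
  refine hu ⟨g, hne, ?_⟩
  rw [← iota_coe, hg]
  rfl

theorem clear1 (z : adjoin k {u}) : ∃ g b : k[X], iota u b ≠ 0 ∧ iota u g = iota u b * z := by
  obtain ⟨r, s, hrs⟩ := mem_adjoin_simple_iff (F := k) (z : L) |>.1 z.2
  by_cases hs : aeval u s = 0
  · refine ⟨0, 1, by rw [map_one]; exact one_ne_zero, ?_⟩
    rw [hs, div_zero] at hrs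
    have hz : z = 0 := Subtype.ext hrs
    rw [hz, map_zero, mul_zero]
  · refine ⟨r, s, ?_, ?_⟩
    · intro h0
      exact hs (by rw [← iota_coe, h0]; rfl)
    · apply Subtype.ext
      show ((iota u r : adjoin k {u}) : L) = ((iota u s : adjoin k {u}) : L) * (z : L)
      rw [iota_coe, iota_coe, hrs, mul_div_cancel₀ _ hs]

theorem clear (f : (adjoin k {u})[X]) :
    ∃ (Q : k[X][X]) (b : k[X]), iota u b ≠ 0 ∧ Q.map (iota u) = C (iota u b) * f := by
  induction f using Polynomial.induction_on' with
  | add f g hf hg =>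
    obtain ⟨Q, b, hb, h⟩ := hf
    obtain ⟨Q', b', hb', h'⟩ := hg
    refine ⟨C b' * Q + C b * Q', b * b', by rw [map_mul]; exact mul_ne_zero hb hb', ?_⟩
    rw [Polynomial.map_add, Polynomial.map_mul, Polynomial.map_mul, map_C, map_C, h, h', map_mul,
      C_mul]
    ring
  | monomial n z =>
    obtain ⟨g, b, hb, h⟩ := clear1 u z
    refine ⟨monomial n g, b, hb, ?_⟩
    rw [map_monomial, h, C_mul_monomial]

/-- Row P2B. -/
theorem p2b (hH : P2hStatement) : P2bStatement := by
  intro k L _ _ _ _ _ u hu hfin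
  set F := adjoin k {u} with hF
  obtain ⟨θ, hθ⟩ := Field.exists_primitive_element F L
  have hint : IsIntegral F θ := Algebra.IsIntegral.isIntegral θ
  set m := minpoly F θ with hm
  have hsep : m.Separable := (minpoly.irreducible hint).separable
  obtain ⟨A, B, hAB⟩ := hsep
  obtain ⟨Q, b, hb, hQ⟩ := clear u m
  obtain ⟨A1, bA, hbA, hA1⟩ := clear u A
  obtain ⟨B1, bB, hbB, hB1⟩ := clear u B
  have hinj := iota_inj u hu
  have hid : A1 * Q * C bB + B1 * derivative Q * C bA = C (bA * bB * b) := by
    apply Polynomial.map_injective _ hinj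
    rw [Polynomial.map_add, Polynomial.map_mul, Polynomial.map_mul, Polynomial.map_mul,
      Polynomial.map_mul, ← derivative_map, hQ, derivative_C_mul, hA1, hB1, map_C, map_C, map_C,
      map_mul (iota u), map_mul (iota u), C_mul, C_mul]
    linear_combination (C (iota u bA) * C (iota u bB) * C (iota u b)) * hAB
  set d := bA * bB * b with hd
  have hd0 : d ≠ 0 := by
    intro h0
    have : iota u d = 0 := by rw [h0, map_zero]
    rw [hd, map_mul, map_mul] at this
    exact mul_ne_zero (mul_ne_zero hbA hbB) hb this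
  have hmon : m.Monic := minpoly.monic hint
  have hdegQ : Q.natDegree = m.natDegree := by
    rw [← natDegree_map_eq_of_injective hinj Q, hQ, natDegree_C_mul hb]
  have hcoeff : Q.coeff m.natDegree = b := by
    apply hinj
    rw [← coeff_map, hQ, coeff_C_mul, hmon.coeff_natDegree, mul_one]
  refine Set.Finite.subset (d.roots.toFinset.finite_toSet) fun a ha => ?_
  by_contra hna
  have hda : d.eval a ≠ 0 := by
    intro h0
    apply hna
    rw [Finset.mem_coe, Multiset.mem_toFinset, mem_roots hd0]
    exact h0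
  apply ha
  intro s hs h hk hhu
  have hs0 : PowerSeries.constantCoeff s = 0 := by
    rw [← PowerSeries.order_ne_zero_iff_constCoeff_eq_zero, hs]
    exact one_ne_zero
  set e : k[X] →+* PowerSeries k := eval₂RingHom PowerSeries.C (PowerSeries.C a + s) with he
  have hce : (PowerSeries.constantCoeff (R := k)).comp e = evalRingHom a := by
    apply Polynomial.ringHom_ext
    · intro b
      rw [RingHom.comp_apply, he, coe_eval₂RingHom, eval₂_C, coe_evalRingHom, eval_C]
      exact PowerSeries.constantCoeff_C b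
    · rw [RingHom.comp_apply, he, coe_eval₂RingHom, eval₂_X, coe_evalRingHom, eval_X, map_add, hs0,
        add_zero]
      exact PowerSeries.constantCoeff_C a
  have hcomp : (pusH k).comp e = (h.comp (algebraMap F L)).comp (iota u) := by
    apply Polynomial.ringHom_ext
    · intro b
      rw [RingHom.comp_apply, he, coe_eval₂RingHom, eval₂_C, ← pus_eq, ← hk, RingHom.comp_apply,
        RingHom.comp_apply, iota_C, ← IsScalarTower.algebraMap_apply]
    · rw [RingHom.comp_apply, he, coe_eval₂RingHom, eval₂_X, ← pus_eq, ← hhu, RingHom.comp_apply,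
        RingHom.comp_apply, iota_X]
      rfl
  have hred : ((Q.map e).map (PowerSeries.constantCoeff (R := k))) = Q.map (evalRingHom a) := by
    rw [Polynomial.map_map, hce]
  have hba : b.eval a ≠ 0 := by
    intro h0
    apply hda
    rw [hd, eval_mul, h0, mul_zero]
  have hdegr : (Q.map (evalRingHom a)).natDegree = m.natDegree := by
    refine le_antisymm (natDegree_map_le.trans hdegQ.le) (le_natDegree_of_ne_zero ?_)
    rw [coeff_map, hcoeff]
    exact hba
  have hdege : (Q.map e).natDegree = m.natDegree := by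
    refine le_antisymm (natDegree_map_le.trans hdegQ.le) ?_
    rw [← hdegr, ← hred]
    exact natDegree_map_le
  have hsepr : (Q.map (evalRingHom a)).Separable := by
    have h1 := congrArg (fun f => Polynomial.map (evalRingHom a) f) hid
    simp only [Polynomial.map_add, Polynomial.map_mul, map_C, ← derivative_map] at h1
    rw [separable_def]
    refine ⟨C (d.eval a)⁻¹ * (A1.map (evalRingHom a)) * C (bB.eval a),
      C (d.eval a)⁻¹ * (B1.map (evalRingHom a)) * C (bA.eval a), ?_⟩
    have h2 : C (d.eval a)⁻¹ * C (d.eval a) = (1 : k[X]) := by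
      rw [← C_mul, inv_mul_cancel₀ hda, C_1]
    simp only [coe_evalRingHom] at h1
    linear_combination (C (d.eval a)⁻¹) * h1 + h2
  have hroot : (Q.map e).eval₂ ((algebraMap (LaurentSeries k) (AlgebraicClosure (LaurentSeries k))).comp
        (HahnSeries.ofPowerSeries ℤ k)) (h θ) = 0 := by
    rw [eval₂_map]
    show Q.eval₂ ((pusH k).comp e) (h θ) = 0
    have h3 : m.eval₂ (algebraMap F L) θ = 0 := minpoly.aeval F θ
    have h4 : m.eval₂ (h.comp (algebraMap F L)) (h θ) = 0 := by rw [← hom_eval₂, h3, map_zero]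
    rw [hcomp, ← eval₂_map, hQ, eval₂_mul, h4, mul_zero]
  obtain ⟨s', hs'⟩ := hH k (Q.map e) (by rw [hred, hdegr, hdege]) (by rw [hred]; exact hsepr)
    (h θ) hroot
  intro z
  refine (mem_LS h z).1 (LS_top h hθ (fun w => ?_) (fun v hv => ?_) z)
  · refine adjoin_induction (F := k) (s := {u}) (p := fun z _ => z ∈ LS h) ?_ ?_ ?_ ?_ ?_ w.2
    · intro x hx
      obtain rfl : x = u := hx
      rw [mem_LS, hhu]
      exact ⟨_, rfl⟩
    · intro x
      rw [mem_LS, hk]
      exact ⟨_, rfl⟩
    · exact fun x y _ _ hx hy => add_mem hx hy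
    · exact fun x _ hx => inv_mem hx
    · exact fun x y _ _ hx hy => mul_mem hx hy
  · obtain rfl : v = θ := hv
    rw [mem_LS, hs']
    exact ⟨_, rfl⟩

end P2b69

end Pool.DynLehmer.UN

/-!
# Row P2H of the periodic pairs: Hensel's lemma for power series
-/


namespace Pool.DynLehmer.UN
open Polynomial IntermediateField

namespace P2H

variable {k : Type} [Field k]

theorem mem_span (f : PowerSeries k) :
    f ∈ Ideal.span {(PowerSeries.X : PowerSeries k)} ↔ PowerSeries.constantCoeff f = 0 := by
  rw [Ideal.mem_span_singleton, PowerSeries.X_dvd_iff]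

theorem unit_of {f : PowerSeries k} (h : PowerSeries.constantCoeff f ≠ 0) : IsUnit f :=
  PowerSeries.isUnit_iff_constantCoeff.2 (isUnit_iff_ne_zero.2 h)

/-- a simple root of the reduction lifts, for monic polynomials -/
theorem lift_monic {Q : (PowerSeries k)[X]} (hQ : Q.Monic) {a : k}
    (h0 : (Q.map (PowerSeries.constantCoeff (R := k))).eval a = 0)
    (h1 : (derivative (Q.map (PowerSeries.constantCoeff (R := k)))).eval a ≠ 0) :
    ∃ s : PowerSeries k, Q.eval s = 0 ∧ PowerSeries.constantCoeff s = a := by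
  have : HenselianRing (PowerSeries k) (Ideal.span {(PowerSeries.X : PowerSeries k)}) :=
    inferInstance
  have e : ∀ F : (PowerSeries k)[X], PowerSeries.constantCoeff (F.eval (PowerSeries.C a)) =
      (F.map (PowerSeries.constantCoeff (R := k))).eval a := by
    intro F
    rw [Polynomial.eval_map, ← Polynomial.eval₂_hom, PowerSeries.constantCoeff_C]
  obtain ⟨s, hs, hs1⟩ := HenselianRing.is_henselian
    (I := Ideal.span {(PowerSeries.X : PowerSeries k)}) Q hQ (PowerSeries.C a)
    (by rw [mem_span, e, h0]) (by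
      refine IsUnit.map _ (unit_of ?_)
      rw [e, ← Polynomial.derivative_map]
      exact h1)
  refine ⟨s, hs, ?_⟩
  rw [mem_span, map_sub, PowerSeries.constantCoeff_C, sub_eq_zero] at hs1
  exact hs1

end P2H

theorem p2h : P2hStatement := by
  classical
  intro k _ _ P hdeg hsep z hz
  set φ := PowerSeries.constantCoeff (R := k) with hφ
  set ψ := (algebraMap (LaurentSeries k) (AlgebraicClosure (LaurentSeries k))).comp
        (HahnSeries.ofPowerSeries ℤ k) with hψ
  have hinj : Function.Injective ψ :=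
    (algebraMap (LaurentSeries k) (AlgebraicClosure (LaurentSeries k))).injective.comp
      HahnSeries.ofPowerSeries_injective
  have hP0 : P.map φ ≠ 0 := hsep.ne_zero
  have hP : P ≠ 0 := by
    rintro rfl
    exact hP0 (Polynomial.map_zero _)
  have hlead : φ P.leadingCoeff ≠ 0 := by
    have h1 : (P.map φ).leadingCoeff = φ P.leadingCoeff := by
      rw [Polynomial.leadingCoeff, hdeg, Polynomial.coeff_map]
      rfl
    rw [← h1]
    exact Polynomial.leadingCoeff_ne_zero.2 hP0
  obtain ⟨c, hc⟩ := (P2H.unit_of hlead).exists_left_inv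
  have hmon : (C c * P).Monic := Polynomial.monic_C_mul_of_mul_leadingCoeff_eq_one hc
  have hc0 : φ c ≠ 0 := by
    intro h
    have h1 := congrArg φ hc
    rw [map_mul, h, zero_mul, map_one] at h1
    exact zero_ne_one h1
  have hc' : c ≠ 0 := by
    rintro rfl
    exact hc0 (map_zero _)
  have lift : ∀ a : k, a ∈ (P.map φ).roots → ∃ s : PowerSeries k, P.eval s = 0 ∧ φ s = a := by
    intro a ha
    have h1 : (P.map φ).eval a = 0 := (Polynomial.mem_roots hP0).1 ha
    have h2 : (derivative (P.map φ)).eval a ≠ 0 :=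
      hsep.eval₂_derivative_ne_zero (RingHom.id k) (by rwa [Polynomial.eval₂_id])
    obtain ⟨s, hs, hs1⟩ := P2H.lift_monic (Q := C c * P) hmon (a := a)
      (by rw [Polynomial.map_mul, Polynomial.eval_mul, h1, mul_zero]) (by
        rw [Polynomial.map_mul, Polynomial.map_C, Polynomial.derivative_C_mul,
          Polynomial.eval_mul, Polynomial.eval_C]
        exact mul_ne_zero hc0 h2)
    refine ⟨s, ?_, hs1⟩
    rw [Polynomial.eval_mul, Polynomial.eval_C] at hs
    exact (mul_eq_zero.1 hs).resolve_left hc'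
  choose! s hs1 hs2 using lift
  by_contra hz'
  push Not at hz'
  set T : Finset (AlgebraicClosure (LaurentSeries k)) :=
    ((P.map φ).roots.toFinset).image (fun a => ψ (s a)) with hT
  have hzT : z ∉ T := by
    intro h
    obtain ⟨a, -, ha⟩ := Finset.mem_image.1 h
    exact hz' (s a) ha.symm
  have hcard : T.card = P.natDegree := by
    rw [hT, Finset.card_image_of_injOn, Multiset.toFinset_card_of_nodup
      (Polynomial.nodup_roots hsep), ← hdeg]
    · exact (IsAlgClosed.splits (P.map φ)).natDegree_eq_card_roots.symm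
    · intro a ha b hb hab
      rw [← hs2 a (by simpa using ha), ← hs2 b (by simpa using hb), hinj hab]
  have hPψ : P.map ψ ≠ 0 := (Polynomial.map_ne_zero_iff hinj).2 hP
  have hsub : (insert z T).val ⊆ (P.map ψ).roots := by
    intro y hy
    rw [Finset.mem_val, Finset.mem_insert] at hy
    rw [Polynomial.mem_roots hPψ, Polynomial.IsRoot.def, Polynomial.eval_map]
    rcases hy with rfl | hy
    · exact hz
    · obtain ⟨a, ha, rfl⟩ := Finset.mem_image.1 hy
      rw [Polynomial.eval₂_hom, hs1 a (Multiset.mem_toFinset.1 ha), map_zero]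
  have h := Polynomial.card_le_degree_of_subset_roots hsub
  rw [Finset.card_insert_of_notMem hzT, hcard, Polynomial.natDegree_map_eq_of_injective hinj] at h
  omega

end Pool.DynLehmer.UN

/-! # Roots of power series -/

namespace Pool.DynLehmer.UN.P2r47
open PowerSeries

theorem order_one_iff {k : Type} [Field k] (s : PowerSeries k) :
    s.order = 1 ↔ constantCoeff s = 0 ∧ coeff 1 s ≠ 0 := by
  have h := order_eq_nat (φ := s) (n := 1)
  rw [Nat.cast_one] at h
  rw [h]
  constructor
  · rintro ⟨h1, h2⟩
    exact ⟨by rw [← coeff_zero_eq_constantCoeff_apply]; exact h2 0 zero_lt_one, h1⟩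
  · rintro ⟨h1, h2⟩
    refine ⟨h2, fun i hi => ?_⟩
    obtain rfl : i = 0 := by omega
    rw [coeff_zero_eq_constantCoeff_apply]
    exact h1

theorem coeff_one_pow {k : Type} [Field k] (f : PowerSeries k) (p : ℕ) :
    coeff 1 (f ^ p) = p * constantCoeff f ^ (p - 1) * coeff 1 f := by
  have h1 : ∀ g : PowerSeries k, coeff 1 g = constantCoeff (derivative k g) := fun g => by
    rw [← coeff_zero_eq_constantCoeff_apply, coeff_derivative]
    simp
  rw [h1 (f ^ p), Derivation.leibniz_pow, h1 f]
  simp [mul_assoc]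

theorem order_pow {k : Type} [Field k] [CharZero k] {p : ℕ} {a : k} (hp : 1 ≤ p) (ha : a ≠ 0)
    {r s : PowerSeries k} (hr : constantCoeff r = 0) (h : (C a + r) ^ p = C (a ^ p) + s) :
    r.order = 1 ↔ s.order = 1 := by
  have h0 : constantCoeff s = 0 := by
    have h1 := congrArg constantCoeff h
    rw [map_pow, map_add, map_add, constantCoeff_C, constantCoeff_C, hr, add_zero] at h1
    exact (left_eq_add.1 h1)
  have h1 : coeff 1 s = p * a ^ (p - 1) * coeff 1 r := by
    have h2 := congrArg (coeff 1) h
    rw [coeff_one_pow, map_add, map_add, constantCoeff_C, hr, add_zero, map_add] at h2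
    have h3 : ∀ b : k, coeff 1 (C b : PowerSeries k) = 0 := fun b => by
      rw [coeff_C, if_neg one_ne_zero]
    rw [h3, h3, zero_add, zero_add] at h2
    exact h2.symm
  rw [order_one_iff, order_one_iff, h1]
  have h2 : (p : k) * a ^ (p - 1) ≠ 0 :=
    mul_ne_zero (Nat.cast_ne_zero.2 (by omega)) (pow_ne_zero _ ha)
  constructor
  · rintro ⟨-, h3⟩
    exact ⟨h0, mul_ne_zero h2 h3⟩
  · rintro ⟨-, h3⟩
    exact ⟨hr, fun h4 => h3 (by rw [h4, mul_zero])⟩

theorem p2r : P2rStatement := by
  intro k _ _ p a s hp ha hs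
  refine ⟨?_, ?_⟩
  · let P : PowerSeries k := (C a + X) ^ p - C (a ^ p)
    have hP0 : constantCoeff P = 0 := by
      simp [P]
    have hX : (X : PowerSeries k).order = 1 := by
      rw [order_one_iff]
      simp
    have hP1 : P.order = 1 := (order_pow hp ha (by simp) (s := P) (by
      show _ = C (a ^ p) + ((C a + X) ^ p - C (a ^ p))
      ring)).1 hX
    have hu : IsUnit (coeff 1 P) := isUnit_iff_ne_zero.2 ((order_one_iff P).1 hP1).2
    let Q := P.substInvOfIsUnit hu
    have hQ : P.subst Q = X := subst_substInvOfIsUnit_right P hP0 hu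
    have hs0 : constantCoeff s = 0 := ((order_one_iff s).1 hs).1
    have hss : HasSubst s := HasSubst.of_constantCoeff_zero' hs0
    have hQs : HasSubst Q := HasSubst.substInvOfIsUnit P hu
    let r : PowerSeries k := Q.subst s
    have hr0 : constantCoeff r = 0 := constantCoeff_subst_eq_zero hs0 Q
      (constantCoeff_substInvOfIsUnit P hu)
    have hr : HasSubst r := HasSubst.of_constantCoeff_zero' hr0
    have h1 : P.subst r = s := by
      have h2 := subst_comp_subst_apply hQs hss P
      rw [hQ, subst_X hss] at h2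
      exact h2.symm
    have h2 : P.subst r = (C a + r) ^ p - C (a ^ p) := by
      show ((C a + X) ^ p - C (a ^ p) : PowerSeries k).subst r = _
      rw [subst_sub hr, subst_pow hr, subst_add hr, subst_X hr, subst_C, subst_C]
      rfl
    have h3 : (C a + r) ^ p = C (a ^ p) + s := by
      rw [← h1, h2]
      ring
    exact ⟨r, (order_pow hp ha hr0 h3).2 hs, h3⟩
  · have h3 : (C a + s) ^ p = C (a ^ p) + ((C a + s) ^ p - C (a ^ p)) := by ring
    exact ⟨_, (order_pow hp ha ((order_one_iff s).1 hs).1 h3).1 hs, h3⟩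

end Pool.DynLehmer.UN.P2r47

/-- Row P2R: roots of power series. -/
theorem Pool.DynLehmer.UN.p2r : Pool.DynLehmer.UN.P2rStatement := Pool.DynLehmer.UN.P2r47.p2r

/-! # The derivation of a function field of one variable -/

namespace Pool.DynLehmer.UN.P2e47
open Polynomial TrivSqZeroExt

section

variable (K : Type) [Field K]

/-- the homomorphism `f ↦ f + f' ε` -/
noncomputable def phi : K[X] →ₐ[K] TrivSqZeroExt (RatFunc K) (RatFunc K) :=
  aeval (inl RatFunc.X + inr 1)

theorem phi_X : phi K X = inl RatFunc.X + inr 1 := by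
  rw [phi, aeval_X]

theorem fst_phi (f : K[X]) : (phi K f).fst = algebraMap K[X] (RatFunc K) f := by
  have h : (fstHom K (RatFunc K) (RatFunc K)).comp (phi K) =
      IsScalarTower.toAlgHom K K[X] (RatFunc K) := by
    apply Polynomial.algHom_ext
    show (phi K X).fst = algebraMap K[X] (RatFunc K) X
    rw [phi_X, fst_add, fst_inl, fst_inr, add_zero, RatFunc.algebraMap_X]
  exact DFunLike.congr_fun h f

theorem unit_phi (y : nonZeroDivisors K[X]) : IsUnit (phi K (y : K[X])) := by
  rw [isUnit_iff_isUnit_fst, fst_phi, isUnit_iff_ne_zero, Ne,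
    map_eq_zero_iff _ (IsFractionRing.injective K[X] (RatFunc K))]
  exact nonZeroDivisors.coe_ne_zero y

/-- the extension of `phi` -/
noncomputable def Phi : RatFunc K →ₐ[K] TrivSqZeroExt (RatFunc K) (RatFunc K) :=
  IsLocalization.liftAlgHom (M := nonZeroDivisors K[X]) (f := phi K) (unit_phi K)

theorem Phi_alg (f : K[X]) : Phi K (algebraMap K[X] (RatFunc K) f) = phi K f :=
  IsLocalization.lift_eq (M := nonZeroDivisors K[X]) (g := (phi K).toRingHom) (unit_phi K) f

theorem fst_Phi (e : RatFunc K) : (Phi K e).fst = e := by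
  have h : ((fstHom K (RatFunc K) (RatFunc K)).comp (Phi K)).toRingHom =
      RingHom.id (RatFunc K) := by
    refine IsLocalization.ringHom_ext (nonZeroDivisors K[X]) (RingHom.ext fun f => ?_)
    show (Phi K (algebraMap K[X] (RatFunc K) f)).fst = algebraMap K[X] (RatFunc K) f
    rw [Phi_alg, fst_phi]
  exact DFunLike.congr_fun h e

/-- the derivation -/
noncomputable def D : Derivation K (RatFunc K) (RatFunc K) :=
  Derivation.mk' ((sndHom (RatFunc K) (RatFunc K)).restrictScalars K ∘ₗ (Phi K).toLinearMap)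
    fun a b => by
      show (Phi K (a * b)).snd = a • (Phi K b).snd + b • (Phi K a).snd
      rw [map_mul, snd_mul, fst_Phi, fst_Phi, op_smul_eq_smul]

theorem D_X : D K RatFunc.X = 1 := by
  show (Phi K RatFunc.X).snd = 1
  rw [← RatFunc.algebraMap_X, Phi_alg, phi_X, snd_add, snd_inl, snd_inr, zero_add]

end

open IntermediateField

/-- a derivation over `ℤ` which vanishes on `k` is a derivation over `k` -/
theorem ofInt (k L : Type) [Field k] [Field L] [Algebra k L] (D : Derivation ℤ L L) (u : L)
    (hk : ∀ b : k, D (algebraMap k L b) = 0) (hu : D u = 1) : ∃ D : Derivation k L L, D u = 1 := by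
  let f : L →ₗ[k] L :=
    { toFun := D
      map_add' := map_add D
      map_smul' := fun b x => by
        show D (b • x) = b • D x
        rw [Algebra.smul_def b x, Derivation.leibniz, hk, smul_zero, add_zero,
          Algebra.smul_def b (D x), smul_eq_mul] }
  exact ⟨Derivation.mk' f fun a b => D.leibniz a b, hu⟩

/-- transport of a derivation to a finite extension -/
theorem ext (k F L : Type) [Field k] [CharZero k] [Field F] [Field L] [Algebra k F] [Algebra k L]
    [Algebra F L] [IsScalarTower k F L] [FiniteDimensional F L] (e : F ≃ₐ[k] RatFunc k) :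
    ∃ D : Derivation ℤ L L, (∀ b : k, D (algebraMap k L b) = 0) ∧
      D (algebraMap F L (e.symm RatFunc.X)) = 1 := by
  haveI : CharZero F := charZero_of_injective_algebraMap (algebraMap k F).injective
  let g : F →+ F :=
    { toFun := fun a => e.symm (D k (e a))
      map_zero' := by rw [map_zero, map_zero, map_zero]
      map_add' := fun a b => by rw [map_add, map_add, map_add] }
  have hg : ∀ a b : F, g (a * b) = a * g b + b * g a := fun a b => by
    show e.symm (D k (e (a * b))) = a * e.symm (D k (e b)) + b * e.symm (D k (e a))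
    rw [map_mul, Derivation.leibniz, smul_eq_mul, smul_eq_mul, map_add, map_mul, map_mul,
      AlgEquiv.symm_apply_apply, AlgEquiv.symm_apply_apply]
  letI i2 : Differential F := ⟨Derivation.mk' g.toIntLinearMap fun a b => hg a b⟩
  letI i3 : Differential L := Differential.differentialFiniteDimensional F L
  haveI i4 : DifferentialAlgebra F L :=
    Differential.differentialAlgebraFiniteDimensional
  have h : ∀ a : F, (i2.deriv a : F) = e.symm (D k (e a)) := fun a => rfl
  refine ⟨i3.deriv, fun b => ?_, ?_⟩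
  · rw [IsScalarTower.algebraMap_apply k F L, i4.deriv_algebraMap, h, AlgEquiv.commutes,
      Derivation.map_algebraMap, map_zero, map_zero]
  · rw [i4.deriv_algebraMap, h, AlgEquiv.apply_symm_apply, D_X, map_one, map_one]

theorem p2e : P2eStatement := by
  intro k L _ _ _ _ u hu hfin
  let e : RatFunc k ≃ₐ[k] adjoin k {u} := RatFunc.algEquivOfTranscendental u hu
  obtain ⟨D, h1, h2⟩ := ext k (adjoin k {u}) L e.symm
  have h3 : algebraMap (adjoin k {u}) L (e RatFunc.X) = u := by
    show ((RatFunc.algEquivOfTranscendental u hu RatFunc.X : adjoin k {u}) : L) = u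
    rw [RatFunc.algEquivOfTranscendental_X]
  rw [AlgEquiv.symm_symm, h3] at h2
  exact ofInt k L D u h1 h2

end Pool.DynLehmer.UN.P2e47

/-- Row P2E: the derivation exists. -/
theorem Pool.DynLehmer.UN.p2e : Pool.DynLehmer.UN.P2eStatement := Pool.DynLehmer.UN.P2e47.p2e

/-!
# Row P2D: a derivation preserves the integral elements if all points split
-/

namespace Pool.DynLehmer.UN.P2D
open Polynomial IntermediateField

section chain

/-- The chain rule for bivariate polynomials. -/
theorem chain {A : Type} [CommRing A] (δ : A → A) (F : A[X]) : ∃ H : A[X],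
    ∀ (S : Type) [CommRing S] (θ : A →+* S) (d : S → S), (∀ x y, d (x + y) = d x + d y) →
      (∀ x y, d (x * y) = x * d y + y * d x) → (∀ f, d (θ f) = θ (δ f)) →
      ∀ G : S, d (F.eval₂ θ G) = H.eval₂ θ G + (derivative F).eval₂ θ G * d G := by
  induction F using Polynomial.induction_on' with
  | add F₁ F₂ h₁ h₂ =>
    obtain ⟨H₁, h₁⟩ := h₁
    obtain ⟨H₂, h₂⟩ := h₂
    refine ⟨H₁ + H₂, ?_⟩
    intro S _ θ d hadd hmul hθ G
    rw [eval₂_add, hadd, h₁ S θ d hadd hmul hθ G, h₂ S θ d hadd hmul hθ G, derivative_add,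
      eval₂_add, eval₂_add]
    ring
  | monomial n f =>
    refine ⟨monomial n (δ f), ?_⟩
    intro S _ θ d hadd hmul hθ G
    have h1 : d 1 = 0 := by
      have h2 := hmul 1 1
      rw [one_mul, one_mul] at h2
      exact left_eq_add.1 h2
    have hpow : ∀ m : ℕ, d (G ^ m) = m * G ^ (m - 1) * d G := by
      intro m
      induction m with
      | zero => rw [pow_zero, h1, Nat.cast_zero, zero_mul, zero_mul]
      | succ m ih =>
        rw [pow_succ, hmul, ih]
        rcases Nat.eq_zero_or_pos m with rfl | hm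
        · simp
        · obtain ⟨l, rfl⟩ : ∃ l, m = l + 1 := ⟨m - 1, by omega⟩
          simp only [Nat.add_sub_cancel]
          push_cast
          ring
    rw [eval₂_monomial, hmul, hpow, hθ, eval₂_monomial, derivative_monomial, eval₂_monomial,
      map_mul, map_natCast]
    ring

end chain

section

variable {k : Type} [Field k]

/-- the embedding of the power series -/
noncomputable def pusH (k : Type) [Field k] : PowerSeries k →+* AlgebraicClosure (LaurentSeries k) :=
  (algebraMap (LaurentSeries k) (AlgebraicClosure (LaurentSeries k))).comp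
    (HahnSeries.ofPowerSeries ℤ k)

theorem pusH_apply (s : PowerSeries k) : pusH k s = pus s := rfl

theorem pusH_inj : Function.Injective (pusH k) :=
  (algebraMap (LaurentSeries k) (AlgebraicClosure (LaurentSeries k))).injective.comp
    HahnSeries.ofPowerSeries_injective

/-- the expansion of a polynomial at `a` -/
noncomputable def ev (a : k) : k[X] →ₐ[k] PowerSeries k :=
  aeval (PowerSeries.C a + PowerSeries.X)

theorem ev_eq (a : k) (f : k[X]) : ev a f = ((f.comp (X + C a) : k[X]) : PowerSeries k) := by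
  have h : ev a = (Polynomial.coeToPowerSeries.algHom k).comp
      (aeval (X + C a) : k[X] →ₐ[k] k[X]) := by
    refine Polynomial.algHom_ext ?_
    unfold ev
    rw [aeval_X, AlgHom.comp_apply, aeval_X]
    simp [add_comm]
  rw [h, AlgHom.comp_apply, Polynomial.coeToPowerSeries.algHom_apply]
  simp [comp_eq_aeval]

theorem ev_inj (a : k) : Function.Injective (ev a) := by
  intro f g h
  rw [ev_eq, ev_eq] at h
  have h1 := Polynomial.coe_injective k h
  have h2 : (f.comp (X + C a)).comp (X - C a) = (g.comp (X + C a)).comp (X - C a) := by rw [h1]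
  simpa [comp_assoc] using h2

theorem ev_coeff (a : k) (f : k[X]) : PowerSeries.constantCoeff (R := k) (ev a f) = f.eval a := by
  rw [ev_eq]
  simp [Polynomial.constantCoeff_coe, coeff_zero_eq_eval_zero, eval_comp]

theorem d_ev (a : k) (f : k[X]) :
    PowerSeries.derivative k (ev a f) = ev a (derivative f) := by
  unfold ev
  rw [Derivation.map_aeval]
  simp

variable {L : Type} [Field L] [Algebra k L] {u : L} {a : k}
  {h : L →+* AlgebraicClosure (LaurentSeries k)}

theorem h_aeval (hk : ∀ b : k, h (algebraMap k L b) = pus (PowerSeries.C b))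
    (hu : h u = pus (PowerSeries.C a + PowerSeries.X)) (f : k[X]) :
    h (aeval u f) = pusH k (ev a f) := by
  induction f using Polynomial.induction_on' with
  | add f g hf hg => rw [map_add, map_add, map_add, map_add, hf, hg]
  | monomial n b =>
    rw [aeval_monomial, map_mul, map_pow, hk, hu]
    unfold ev
    rw [aeval_monomial, map_mul, map_pow]
    rfl

theorem int_ps (hk : ∀ b : k, h (algebraMap k L b) = pus (PowerSeries.C b))
    (hu : h u = pus (PowerSeries.C a + PowerSeries.X))
    (hl : ∀ z : L, ∃ l : LaurentSeries k,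
      h z = algebraMap _ (AlgebraicClosure (LaurentSeries k)) l) {g : L} (hg : Itg k u g) :
    ∃ G : PowerSeries k, h g = pus G := by
  obtain ⟨l, hlg⟩ := hl g
  obtain ⟨F, hF, hFg⟩ := hg
  have h1 : F.eval₂ ((pusH k).comp (ev a : k[X] →+* PowerSeries k)) (h g) = 0 := by
    have h2 : (pusH k).comp (ev a : k[X] →+* PowerSeries k) =
        h.comp ((aeval u : k[X] →ₐ[k] L) : k[X] →+* L) := by
      refine RingHom.ext fun f => ?_
      exact (h_aeval hk hu f).symm
    rw [h2, ← hom_eval₂, hFg, map_zero]
  have h2 : IsIntegral (PowerSeries k) l := by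
    refine ⟨F.map (ev a : k[X] →+* PowerSeries k), hF.map _, ?_⟩
    rw [eval₂_map]
    apply (algebraMap (LaurentSeries k) (AlgebraicClosure (LaurentSeries k))).injective
    rw [map_zero, hom_eval₂, ← hlg, ← h1]
    rfl
  obtain ⟨G, hG⟩ := IsIntegrallyClosed.algebraMap_eq_of_integral (R := PowerSeries k) h2
  refine ⟨G, ?_⟩
  rw [hlg, ← hG]
  rfl

theorem der_ps [CharZero k] (ht : Transcendental k u) (D : Derivation k L L) (hD : D u = 1)
    (hk : ∀ b : k, h (algebraMap k L b) = pus (PowerSeries.C b))
    (hu : h u = pus (PowerSeries.C a + PowerSeries.X))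
    (hl : ∀ z : L, ∃ l : LaurentSeries k,
      h z = algebraMap _ (AlgebraicClosure (LaurentSeries k)) l) {g : L} (hg : Itg k u g) :
    ∃ G : PowerSeries k, h (D g) = pus G := by
  obtain ⟨G, hG⟩ := int_ps hk hu hl hg
  let _ : Algebra k[X] L := ((aeval u : k[X] →ₐ[k] L) : k[X] →+* L).toAlgebra
  have hinj : Function.Injective (algebraMap k[X] L) := transcendental_iff_injective.1 ht
  have : Module.IsTorsionFree k[X] L := Module.isTorsionFree_iff_algebraMap_injective.2 hinj
  have hgi : IsIntegral k[X] g := hg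
  obtain ⟨F, hF⟩ : ∃ F, F = minpoly k[X] g := ⟨_, rfl⟩
  have hFm : F.Monic := hF ▸ minpoly.monic hgi
  have hFg : F.eval₂ ((aeval u : k[X] →ₐ[k] L) : k[X] →+* L) g = 0 := by
    rw [hF]
    exact minpoly.aeval k[X] g
  have hF' : (derivative F).eval₂ ((aeval u : k[X] →ₐ[k] L) : k[X] →+* L) g ≠ 0 := by
    intro h0
    have h1 : derivative F ≠ 0 := by
      intro h2
      have h3 : F.natDegree = 0 := derivative_eq_zero.1 h2
      have h4 : F = 1 := hFm.natDegree_eq_zero.1 h3
      rw [h4, eval₂_one] at hFg
      exact one_ne_zero hFg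
    have h2 := minpoly.IsIntegrallyClosed.degree_le_of_ne_zero (R := k[X]) (s := g) h1 h0
    rw [← hF] at h2
    exact absurd (degree_derivative_lt hFm.ne_zero) (not_lt.2 h2)
  obtain ⟨H, hH⟩ := chain (fun f : k[X] => derivative f) F
  have h1 := hH L ((aeval u : k[X] →ₐ[k] L) : k[X] →+* L) D (fun x y => map_add D x y)
    (fun x y => by rw [Derivation.leibniz, smul_eq_mul, smul_eq_mul]) (fun f => by
      change D (aeval u f) = aeval u (derivative f)
      rw [Derivation.map_aeval, hD, smul_eq_mul, mul_one]) g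
  rw [hFg, map_zero] at h1
  have h2 := hH (PowerSeries k) (ev a : k[X] →+* PowerSeries k) (PowerSeries.derivative k)
    (fun x y => map_add _ x y) (fun x y => by rw [Derivation.leibniz, smul_eq_mul, smul_eq_mul])
    (fun f => d_ev a f) G
  have hcomp : (pusH k).comp (ev a : k[X] →+* PowerSeries k) =
      h.comp ((aeval u : k[X] →ₐ[k] L) : k[X] →+* L) := by
    refine RingHom.ext fun f => ?_
    exact (h_aeval hk hu f).symm
  have hev : ∀ Q : k[X][X], pusH k (Q.eval₂ (ev a : k[X] →+* PowerSeries k) G) =
      h (Q.eval₂ ((aeval u : k[X] →ₐ[k] L) : k[X] →+* L) g) := by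
    intro Q
    rw [hom_eval₂, hom_eval₂, hcomp, hG]
    rfl
  have h3 : F.eval₂ (ev a : k[X] →+* PowerSeries k) G = 0 := by
    apply pusH_inj
    rw [hev, hFg, map_zero, map_zero]
  rw [h3, map_zero] at h2
  have h4 := congrArg h h1
  have h5 := congrArg (pusH k) h2
  rw [map_zero, map_add, map_mul] at h4
  rw [map_zero, map_add, map_mul, hev, hev] at h5
  refine ⟨PowerSeries.derivative k G, ?_⟩
  have h6 : h ((derivative F).eval₂ ((aeval u : k[X] →ₐ[k] L) : k[X] →+* L) g) ≠ 0 :=
    (map_ne_zero h).2 hF'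
  have h7 := h4.symm.trans h5
  exact mul_left_cancel₀ h6 (add_left_cancel h7)

/-- The coefficients of the minimal polynomial of an element with power series conjugates are
polynomials. -/
theorem coeff_poly [IsAlgClosed k] (ht : Transcendental k u)
    [hfin : FiniteDimensional (adjoin k {u}) L] {z : L}
    (hz : ∀ (a : k) (h : L →+* AlgebraicClosure (LaurentSeries k)),
      (∀ b : k, h (algebraMap k L b) = pus (PowerSeries.C b)) →
      h u = pus (PowerSeries.C a + PowerSeries.X) → ∃ G : PowerSeries k, h z = pus G) (i : ℕ) :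
    ∃ f : k[X], algebraMap (adjoin k {u}) L ((minpoly (adjoin k {u}) z).coeff i) = aeval u f := by
  obtain ⟨c, hc⟩ : ∃ c, c = (minpoly (adjoin k {u}) z).coeff i := ⟨_, rfl⟩
  rw [← hc]
  let e := RatFunc.algEquivOfTranscendental (K := k) u ht
  obtain ⟨q, rfl⟩ := e.surjective c
  by_cases hM : q.denom.natDegree = 0
  · refine ⟨q.num, ?_⟩
    have h1 : q.denom = 1 := (RatFunc.monic_denom q).natDegree_eq_zero.1 hM
    have h2 : algebraMap (adjoin k {u}) L (e q) = aeval u q.num / aeval u q.denom :=
      RatFunc.algEquivOfTranscendental_apply u ht q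
    rw [h2, h1, map_one, div_one]
  exfalso
  obtain ⟨a, ha⟩ := IsAlgClosed.exists_root q.denom (by
    rw [degree_eq_natDegree (RatFunc.monic_denom q).ne_zero]
    exact_mod_cast hM)
  have hN : q.num.eval a ≠ 0 := by
    intro h0
    obtain ⟨r, s, hrs⟩ := RatFunc.isCoprime_num_denom q
    have h1 := congrArg (fun f => f.eval a) hrs
    simp only [eval_add, eval_mul, h0, ha.eq_zero, mul_zero, add_zero, eval_one] at h1
    exact zero_ne_one h1
  -- the embedding of `k(u)`
  let g₀ : k[X] →+* AlgebraicClosure (LaurentSeries k) :=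
    (pusH k).comp (ev a : k[X] →+* PowerSeries k)
  have hg₀ : Function.Injective g₀ := pusH_inj.comp (ev_inj a)
  let h₀ : adjoin k {u} →+* AlgebraicClosure (LaurentSeries k) :=
    (IsFractionRing.lift (K := RatFunc k) hg₀).comp (e.symm : adjoin k {u} →+* RatFunc k)
  have hh₀ : ∀ f : k[X], h₀ (aeval (AdjoinSimple.gen k u) f) = pusH k (ev a f) := by
    intro f
    change IsFractionRing.lift (K := RatFunc k) hg₀ (e.symm (aeval (AdjoinSimple.gen k u) f)) = _
    rw [RatFunc.algEquivOfTranscendental_symm_aeval, IsFractionRing.lift_algebraMap]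
    rfl
  let _ : Algebra (adjoin k {u}) (AlgebraicClosure (LaurentSeries k)) := h₀.toAlgebra
  -- all conjugates are power series
  have hroots : ∀ r ∈ ((minpoly (adjoin k {u}) z).map h₀).roots, r ∈ (pusH k).range := by
    intro r hr
    have h1 : aeval r (minpoly (adjoin k {u}) z) = 0 := by
      have h2 := (mem_roots'.1 hr).2
      rw [IsRoot.def, eval_map] at h2
      exact h2
    obtain ⟨φ, hφ⟩ := exists_algHom_of_splits_of_aeval (F := adjoin k {u}) (E := L)
      (K := AlgebraicClosure (LaurentSeries k))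
      (fun s => ⟨Algebra.IsIntegral.isIntegral s, IsAlgClosed.splits _⟩) h1
    have h3 : ∀ f : k[X], φ (aeval u f) = pusH k (ev a f) := by
      intro f
      have h4 : aeval u f = algebraMap (adjoin k {u}) L (aeval (AdjoinSimple.gen k u) f) := by
        rw [← aeval_algebraMap_apply, AdjoinSimple.algebraMap_gen]
      rw [h4, AlgHom.commutes]
      exact hh₀ f
    obtain ⟨G, hG⟩ := hz a φ (by
      intro b
      have h4 := h3 (C b)
      rw [aeval_C] at h4
      change φ (algebraMap k L b) = _
      rw [h4]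
      unfold ev
      rw [aeval_C]
      rfl) (by
      have h4 := h3 X
      rw [aeval_X] at h4
      change φ u = _
      rw [h4]
      unfold ev
      rw [aeval_X]
      rfl)
    refine ⟨G, ?_⟩
    rw [← hφ]
    exact hG.symm
  have hmon : ((minpoly (adjoin k {u}) z).map h₀).Monic :=
    (minpoly.monic (Algebra.IsIntegral.isIntegral z)).map _
  have h1 := (IsAlgClosed.splits ((minpoly (adjoin k {u}) z).map h₀)).mem_lift_of_roots_mem_range
    hmon (pusH k) hroots
  rw [lifts_iff_coeff_lifts] at h1
  obtain ⟨G, hG⟩ := h1 i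
  rw [coeff_map, ← hc] at hG
  -- the value of `h₀` at `c`
  have h2 : e q * aeval (AdjoinSimple.gen k u) q.denom = aeval (AdjoinSimple.gen k u) q.num := by
    rw [← RatFunc.algEquivOfTranscendental_algebraMap u ht,
      ← RatFunc.algEquivOfTranscendental_algebraMap u ht, ← map_mul]
    congr 1
    have h5 := RatFunc.num_div_denom q
    rw [div_eq_iff (RatFunc.algebraMap_ne_zero (RatFunc.denom_ne_zero q))] at h5
    exact h5.symm
  have h3 := congrArg h₀ h2
  rw [map_mul, hh₀, hh₀, ← hG, ← map_mul] at h3
  have h4 := congrArg (PowerSeries.constantCoeff (R := k)) (pusH_inj h3)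
  rw [map_mul, ev_coeff, ev_coeff, ha.eq_zero, mul_zero] at h4
  exact hN h4.symm

end

/-- Row P2D. -/
theorem _root_.Pool.DynLehmer.UN.p2d : P2dStatement := by
  intro k L _ _ _ _ _ u D ht hfin hD hS g hg
  have hc := coeff_poly (k := k) (u := u) ht (z := D g) (fun a h hk hu =>
    der_ps ht D hD hk hu (hS a PowerSeries.X PowerSeries.order_X h hk hu) hg)
  have h1 : (minpoly (adjoin k {u}) (D g)).map (algebraMap (adjoin k {u}) L) ∈
      lifts ((aeval u : k[X] →ₐ[k] L) : k[X] →+* L) := by
    rw [lifts_iff_coeff_lifts]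
    intro n
    obtain ⟨f, hf⟩ := hc n
    exact ⟨f, by rw [coeff_map, hf]; rfl⟩
  obtain ⟨Q, hQ, -, hQm⟩ := lifts_and_natDegree_eq_and_monic h1
    ((minpoly.monic (Algebra.IsIntegral.isIntegral (D g))).map _)
  refine ⟨Q, hQm, ?_⟩
  rw [← eval_map, hQ, eval_map]
  exact minpoly.aeval (adjoin k {u}) (D g)

end Pool.DynLehmer.UN.P2D

/-!
# Row Y2: lifting of power series along a polynomial
-/

namespace Pool.DynLehmer.UN
open Polynomial
namespace Y249

/-- Hensel's lemma for polynomials which need not be monic. -/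
theorem hensel (R : Type*) [CommRing R] (I : Ideal R) [IsAdicComplete I R] (f : R[X]) (a₀ : R)
    (h₁ : f.eval a₀ ∈ I) (h₂ : IsUnit (Ideal.Quotient.mk I (f.derivative.eval a₀))) :
    ∃ a : R, f.IsRoot a ∧ a - a₀ ∈ I := by
  classical
  let f' := derivative f
  let c : ℕ → R := fun n => Nat.recOn n a₀ fun _ b => b - f.eval b * Ring.inverse (f'.eval b)
  have hc : ∀ n, c (n + 1) = c n - f.eval (c n) * Ring.inverse (f'.eval (c n)) := by
    intro n
    simp only [c]
  have hc_mod : ∀ n, c n ≡ a₀ [SMOD I] := by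
    intro n
    induction n with
    | zero => rfl
    | succ n ih => ?_
    rw [hc, sub_eq_add_neg, ← add_zero a₀]
    refine ih.add ?_
    rw [SModEq.zero, Ideal.neg_mem_iff]
    refine I.mul_mem_right _ ?_
    rw [← SModEq.zero] at h₁ ⊢
    exact (ih.eval f).trans h₁
  have hf'c : ∀ n, IsUnit (f'.eval (c n)) := by
    intro n
    have := isLocalHom_of_le_jacobson_bot I (IsAdicComplete.le_jacobson_bot I)
    apply IsUnit.of_map (Ideal.Quotient.mk I)
    have h3 : Ideal.Quotient.mk I (f'.eval (c n)) = Ideal.Quotient.mk I (f'.eval a₀) :=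
      SModEq.def.mp ((hc_mod n).eval _)
    rw [h3]
    exact h₂
  have hfcI : ∀ n, f.eval (c n) ∈ I ^ (n + 1) := by
    intro n
    induction n with
    | zero => simpa only [Nat.rec_zero, zero_add, pow_one] using! h₁
    | succ n ih => ?_
    rw [← taylor_eval_sub (c n), hc, sub_eq_add_neg, sub_eq_add_neg,
      add_neg_cancel_comm]
    rw [eval_eq_sum, sum_over_range' _ _ _ (lt_add_of_pos_right _ zero_lt_two), ←
      Finset.sum_range_add_sum_Ico _ (Nat.le_add_left _ _)]
    swap
    · intro i
      rw [zero_mul]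
    refine Ideal.add_mem _ ?_ ?_
    · rw [← one_add_one_eq_two, Finset.sum_range_succ, Finset.range_one, Finset.sum_singleton,
        taylor_coeff_zero, taylor_coeff_one, pow_zero, pow_one, mul_one, mul_neg,
        mul_left_comm, Ring.mul_inverse_cancel _ (hf'c n), mul_one, add_neg_cancel]
      exact Ideal.zero_mem _
    · refine Submodule.sum_mem _ ?_
      simp only [Finset.mem_Ico]
      rintro i ⟨h2i, _⟩
      have aux : n + 2 ≤ i * (n + 1) := by trans 2 * (n + 1) <;> nlinarith only [h2i]
      refine Ideal.mul_mem_left _ _ (Ideal.pow_le_pow_right aux ?_)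
      rw [pow_mul']
      exact Ideal.pow_mem_pow ((Ideal.neg_mem_iff _).2 <| Ideal.mul_mem_right _ _ ih) _
  have aux : ∀ m n, m ≤ n → c m ≡ c n [SMOD (I ^ m • ⊤ : Ideal R)] := by
    intro m n hmn
    rw [← Ideal.one_eq_top, Ideal.smul_eq_mul, mul_one]
    obtain ⟨k, rfl⟩ := Nat.exists_eq_add_of_le hmn
    clear hmn
    induction k with
    | zero => rw [add_zero]
    | succ k ih => ?_
    rw [← add_assoc, hc, ← add_zero (c m), sub_eq_add_neg]
    refine ih.add ?_
    symm
    rw [SModEq.zero, Ideal.neg_mem_iff]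
    refine Ideal.mul_mem_right _ _ (Ideal.pow_le_pow_right ?_ (hfcI _))
    rw [add_assoc]
    exact le_self_add
  obtain ⟨a, ha⟩ := IsPrecomplete.prec' c (aux _ _)
  refine ⟨a, ?_, ?_⟩
  · show f.IsRoot a
    suffices ∀ n, f.eval a ≡ 0 [SMOD (I ^ n • ⊤ : Ideal R)] by exact IsHausdorff.haus' _ this
    intro n
    specialize ha n
    rw [← Ideal.one_eq_top, Ideal.smul_eq_mul, mul_one] at ha ⊢
    refine (ha.symm.eval f).trans ?_
    rw [SModEq.zero]
    exact Ideal.pow_le_pow_right le_self_add (hfcI _)
  · show a - a₀ ∈ I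
    specialize ha (0 + 1)
    rw [hc, pow_one, ← Ideal.one_eq_top, Ideal.smul_eq_mul, mul_one, sub_eq_add_neg] at ha
    rw [← SModEq.sub_mem, ← add_zero a₀]
    refine ha.symm.trans (SModEq.rfl.add ?_)
    rw [SModEq.zero, Ideal.neg_mem_iff]
    exact Ideal.mul_mem_right _ _ h₁

variable {k : Type} [Field k]

theorem quot_unit (z : PowerSeries k) (h : PowerSeries.constantCoeff z ≠ 0) :
    IsUnit (Ideal.Quotient.mk (Ideal.span {(PowerSeries.X : PowerSeries k)}) z) := by
  refine IsUnit.map _ ?_
  rw [PowerSeries.isUnit_iff_constantCoeff]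
  exact isUnit_iff_ne_zero.2 h

/-- Row Y2. -/
theorem y2 : Y2Statement := by
  intro k _ _ _ f a e s' he hf hs'
  set m := ram f a with hm
  set P := f - C (f.eval a) with hP
  have hP0 : P ≠ 0 := by
    intro h0
    rw [hP, sub_eq_zero] at h0
    rw [h0, natDegree_C] at hf
    omega
  have hroot : P.IsRoot a := by
    rw [IsRoot, hP, eval_sub, eval_C, sub_self]
  have hm1 : 1 ≤ m := by
    rw [hm, ram]
    exact (rootMultiplicity_pos hP0).2 hroot
  -- `f = f(a) + (X - a) ^ m g`
  obtain ⟨g, hg, hga⟩ := exists_eq_pow_rootMultiplicity_mul_and_not_dvd P hP0 a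
  have hgm : P = (X - C a) ^ m * g := hg
  have hg0 : g.eval a ≠ 0 := fun h0 => hga (dvd_iff_isRoot.2 h0)
  -- `s' = T ^ (m e) u`
  obtain ⟨u, hu⟩ : ∃ u, s' = PowerSeries.X ^ (m * e) * u := by
    rw [← dvd_def]
    exact PowerSeries.X_pow_dvd_iff.2 (fun i hi => PowerSeries.coeff_of_lt_order i (by
      rw [hs']; exact_mod_cast hi))
  have hu0 : PowerSeries.constantCoeff u ≠ 0 := by
    intro h0
    have h1 := (PowerSeries.order_eq_nat.1 hs').1
    rw [hu, PowerSeries.coeff_X_pow_mul', if_pos le_rfl, Nat.sub_self] at h1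
    exact h1 (by rw [PowerSeries.coeff_zero_eq_constantCoeff]; exact h0)
  set u0 := PowerSeries.constantCoeff u with hu0'
  obtain ⟨v0, hv0⟩ := IsAlgClosed.exists_pow_nat_eq (u0 / g.eval a) hm1
  have hv0n : v0 ≠ 0 := by
    rintro rfl
    rw [zero_pow (by omega)] at hv0
    exact div_ne_zero hu0 hg0 hv0.symm
  -- the equation for the unit part
  let T : PowerSeries k := PowerSeries.X
  let g' : (PowerSeries k)[X] := (g.map (PowerSeries.C (R := k))).comp (C (PowerSeries.C a) + C (T ^ e) * X)
  let H : (PowerSeries k)[X] := X ^ m * g' - C u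
  have hg'ev : ∀ z : PowerSeries k, g'.eval z = g.eval₂ (PowerSeries.C (R := k)) (PowerSeries.C a + T ^ e * z) := by
    intro z
    simp only [g', eval_comp, eval_add, eval_mul, eval_C, eval_X, eval_map]
  have hcT : ∀ z : PowerSeries k, PowerSeries.constantCoeff (T ^ e * z) = 0 := by
    intro z
    rw [map_mul, map_pow, PowerSeries.constantCoeff_X, zero_pow (by omega), zero_mul]
  have hcg : ∀ z : PowerSeries k, PowerSeries.constantCoeff (g'.eval z) = g.eval a := by
    intro z
    rw [hg'ev, hom_eval₂, map_add, hcT, add_zero, PowerSeries.constantCoeff_C]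
    have h1 : (PowerSeries.constantCoeff (R := k)).comp (PowerSeries.C (R := k)) = RingHom.id k := by
      ext z
      simp
    rw [h1]
    rfl
  have hmem : ∀ z : PowerSeries k, z ∈ Ideal.span {(PowerSeries.X : PowerSeries k)} ↔
      PowerSeries.constantCoeff z = 0 := by
    intro z
    rw [Ideal.mem_span_singleton, PowerSeries.X_dvd_iff]
  obtain ⟨v, hv, hvv⟩ := hensel (PowerSeries k) (Ideal.span {PowerSeries.X}) H (PowerSeries.C v0)
    (by
      rw [hmem]
      simp only [H, eval_sub, eval_mul, eval_pow, eval_X, eval_C, map_sub, map_mul, map_pow,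
        PowerSeries.constantCoeff_C, hcg]
      rw [hv0, div_mul_cancel₀ _ hg0, sub_self])
    (by
      apply quot_unit
      have h1 : derivative H = C (m : PowerSeries k) * X ^ (m - 1) * g' + X ^ m * derivative g' := by
        simp only [H, derivative_sub, derivative_mul, derivative_C, sub_zero, derivative_X_pow,
          map_natCast]
      have h2 : PowerSeries.constantCoeff ((derivative g').eval (PowerSeries.C v0)) = 0 := by
        simp only [g', derivative_comp, eval_mul, derivative_add, derivative_mul, derivative_C,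
          derivative_X, zero_mul, zero_add, mul_one, eval_C, map_mul, eval_add]
        rw [map_pow, PowerSeries.constantCoeff_X, zero_pow (by omega), zero_mul]
      rw [h1, eval_add, map_add, eval_mul, eval_mul, eval_mul, map_mul, map_mul, map_mul, h2, mul_zero, add_zero,
        hcg, eval_C, map_natCast, eval_pow, eval_X, map_pow, PowerSeries.constantCoeff_C]
      exact mul_ne_zero (mul_ne_zero (Nat.cast_ne_zero.2 (by omega)) (pow_ne_zero _ hv0n)) hg0)
  have hv1 : v ^ m * g'.eval v = u := by
    have h1 : H.eval v = 0 := hv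
    simp only [H, eval_sub, eval_mul, eval_pow, eval_X, eval_C] at h1
    exact sub_eq_zero.1 h1
  have hv2 : PowerSeries.constantCoeff v ≠ 0 := by
    have h1 := (hmem _).1 hvv
    rw [map_sub, PowerSeries.constantCoeff_C, sub_eq_zero] at h1
    rw [h1]
    exact hv0n
  refine ⟨T ^ e * v, ?_, ?_⟩
  · rw [PowerSeries.order_eq_nat]
    refine ⟨?_, fun i hi => ?_⟩
    · rw [PowerSeries.coeff_X_pow_mul', if_pos le_rfl, Nat.sub_self,
        PowerSeries.coeff_zero_eq_constantCoeff]
      exact hv2
    · rw [PowerSeries.coeff_X_pow_mul', if_neg (by omega)]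
  · have h1 : f = C (f.eval a) + (X - C a) ^ m * g := by rw [← hgm, hP]; ring
    have h2 : f.eval₂ (PowerSeries.C (R := k)) (PowerSeries.C a + T ^ e * v) =
        PowerSeries.C (f.eval a) + (T ^ e * v) ^ m * g'.eval v := by
      rw [hg'ev]
      conv_lhs => rw [h1]
      simp only [eval₂_add, eval₂_mul, eval₂_C, eval₂_pow, eval₂_sub, eval₂_X]
      congr 2
      ring
    rw [h2, mul_pow, mul_assoc, hv1, hu, ← pow_mul, mul_comm e m]

end Y249
end Pool.DynLehmer.UN

/-! # Row Y3: one step of the tower of a polynomial -/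

namespace Pool.DynLehmer.UN
open Polynomial IntermediateField

namespace Y3h74

/-- power series in the algebraic closure of the Laurent series, as a ring homomorphism -/
noncomputable def pusH (k : Type) [Field k] : PowerSeries k →+* AlgebraicClosure (LaurentSeries k) :=
  (algebraMap (LaurentSeries k) (AlgebraicClosure (LaurentSeries k))).comp
    (HahnSeries.ofPowerSeries ℤ k)

theorem pus_eq {k : Type} [Field k] (s : PowerSeries k) : pus s = pusH k s := rfl

/-- The minimal polynomial of a preimage. -/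
theorem minpoly_eq {k E' E : Type} [Field k] [Field E'] [Field E] [Algebra k E'] [Algebra k E]
    [Algebra E' E] [IsScalarTower k E' E] {f : k[X]} {u : E} {u' : E'} (hf : 1 ≤ f.natDegree)
    (hu : algebraMap E' E u' = aeval u f) (hdeg : (minpoly E' u).natDegree = f.natDegree) :
    IsIntegral E' u ∧ minpoly E' u =
      C (algebraMap k E' f.leadingCoeff)⁻¹ * (f.map (algebraMap k E') - C u') := by
  have hf0 : f ≠ 0 := by
    rintro rfl
    simp at hf
  have hl : algebraMap k E' f.leadingCoeff ≠ 0 := by
    rw [_root_.map_ne_zero]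
    exact leadingCoeff_ne_zero.2 hf0
  obtain ⟨g, hg⟩ : ∃ g : E'[X], g = f.map (algebraMap k E') - C u' := ⟨_, rfl⟩
  have hgd : g.natDegree = f.natDegree := by
    rw [hg, natDegree_sub_C, natDegree_map]
  have hgl : g.leadingCoeff = algebraMap k E' f.leadingCoeff := by
    rw [leadingCoeff, hgd, hg, coeff_sub, coeff_map, coeff_C_of_ne_zero (by omega), sub_zero]
    rfl
  have hmon : (C (algebraMap k E' f.leadingCoeff)⁻¹ * g).Monic := by
    rw [Monic, leadingCoeff_mul, leadingCoeff_C, hgl, inv_mul_cancel₀ hl]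
  have hroot : aeval u (C (algebraMap k E' f.leadingCoeff)⁻¹ * g) = 0 := by
    rw [map_mul, hg, map_sub, aeval_map_algebraMap, aeval_C, aeval_C, hu, sub_self, mul_zero]
  have hint : IsIntegral E' u := ⟨_, hmon, hroot⟩
  refine ⟨hint, ?_⟩
  rw [← hg]
  refine (eq_of_monic_of_dvd_of_natDegree_le (minpoly.monic hint) hmon
    (minpoly.dvd E' u hroot) ?_).symm
  rw [hdeg, natDegree_C_mul (inv_ne_zero hl), hgd]

/-- Row Y3. -/
theorem y3 (h2 : Y2Statement) : Y3Statement := by
  intro k E' E _ _ _ _ _ _ _ _ _ f u u' hf hu htop hdeg a e he hS s' hs' h' hk hu'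
  obtain ⟨s, hs, hss⟩ := h2 k f a e s' he hf hs'
  obtain ⟨hint, hmin⟩ := minpoly_eq hf hu hdeg
  obtain ⟨h, hh, hhu⟩ : ∃ h : E →+* AlgebraicClosure (LaurentSeries k),
      (∀ z : E', h (algebraMap E' E z) = h' z) ∧ h u = pus (PowerSeries.C a + s) := by
    let _ : Algebra E' (AlgebraicClosure (LaurentSeries k)) := h'.toAlgebra
    have hy : aeval (pus (PowerSeries.C a + s)) (minpoly E' u) = 0 := by
      have e1 : aeval (pus (PowerSeries.C a + s)) (f.map (algebraMap k E') - C u') =
          eval₂ h' (pus (PowerSeries.C a + s)) (f.map (algebraMap k E')) - h' u' := by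
        rw [map_sub, aeval_C]
        rfl
      have e2 : h'.comp (algebraMap k E') = (pusH k).comp (PowerSeries.C (R := k)) := by
        ext b
        rw [RingHom.comp_apply, hk, pus_eq]
        rfl
      rw [hmin, map_mul, e1, eval₂_map, e2, hu', pus_eq, pus_eq, ← hss, ← hom_eval₂, sub_self,
        mul_zero]
    obtain ⟨φ, hφ⟩ := exists_algHom_of_adjoin_splits_of_aeval (F := E') (E := E)
      (K := AlgebraicClosure (LaurentSeries k)) (S := {u})
      (fun s hs => by
        obtain rfl : s = u := hs
        exact ⟨hint, IsAlgClosed.splits _⟩) htop hy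
    exact ⟨φ.toRingHom, fun z => φ.commutes z, hφ⟩
  intro z
  obtain ⟨l, hl⟩ := hS s hs h (fun b => by
    rw [IsScalarTower.algebraMap_apply k E' E, hh, hk]) hhu (algebraMap E' E z)
  exact ⟨l, by rw [← hh, hl]⟩

end Y3h74

end Pool.DynLehmer.UN

/-!
# Row Y4: Puiseux series
-/

namespace Pool.DynLehmer.UN
open Polynomial IntermediateField
open scoped Classical

namespace Y4h

/-- power series in the algebraic closure of the Laurent series, as a ring homomorphism -/
noncomputable def pu (k : Type) [Field k] : PowerSeries k →+* AlgebraicClosure (LaurentSeries k) :=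
  (algebraMap (LaurentSeries k) (AlgebraicClosure (LaurentSeries k))).comp
    (HahnSeries.ofPowerSeries ℤ k)

/-- roots of units -/
theorem root_unit {k : Type} [Field k] [IsAlgClosed k] [CharZero k] {n : ℕ} (hn : 1 ≤ n)
    (w : PowerSeries k) (hw : PowerSeries.constantCoeff w ≠ 0) : ∃ r : PowerSeries k, r ^ n = w := by
  obtain ⟨a, ha⟩ := IsAlgClosed.exists_pow_nat_eq (PowerSeries.constantCoeff w)
    (show 0 < n by omega)
  have ha0 : a ≠ 0 := by
    rintro rfl
    rw [zero_pow (by omega)] at ha
    exact hw ha.symm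
  have : HenselianRing (PowerSeries k) (Ideal.span {(PowerSeries.X : PowerSeries k)}) :=
    inferInstance
  obtain ⟨s, hs, -⟩ := HenselianRing.is_henselian
    (I := Ideal.span {(PowerSeries.X : PowerSeries k)}) (X ^ n - C w)
    (monic_X_pow_sub_C w (by omega)) (PowerSeries.C a)
    (by
      rw [Ideal.mem_span_singleton, PowerSeries.X_dvd_iff, eval_sub, eval_pow, eval_X, eval_C,
        map_sub, map_pow, PowerSeries.constantCoeff_C, ha, sub_self]) (by
      refine IsUnit.map _ (PowerSeries.isUnit_iff_constantCoeff.2 (isUnit_iff_ne_zero.2 ?_))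
      rw [derivative_sub, derivative_C, sub_zero, derivative_X_pow, eval_mul, eval_pow, eval_X,
        eval_C, map_mul, map_pow, PowerSeries.constantCoeff_C, map_natCast]
      exact mul_ne_zero (Nat.cast_ne_zero.2 (by omega)) (pow_ne_zero _ ha0))
  refine ⟨s, ?_⟩
  have h1 : eval s (X ^ n - C w) = 0 := hs
  rw [eval_sub, eval_pow, eval_X, eval_C, sub_eq_zero] at h1
  exact h1

/-- roots of series of order `e` -/
theorem root_order {k : Type} [Field k] [IsAlgClosed k] [CharZero k] {e : ℕ} (he : 1 ≤ e)
    (s : PowerSeries k) (hs : s.order = e) :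
    ∃ σ : PowerSeries k, PowerSeries.constantCoeff σ = 0 ∧ σ ^ e = s := by
  obtain ⟨h1, h2⟩ := PowerSeries.order_eq_nat.1 hs
  obtain ⟨w, hw⟩ := PowerSeries.X_pow_dvd_iff.2 h2
  have h3 : PowerSeries.constantCoeff w ≠ 0 := by
    intro h0
    apply h1
    rw [hw]
    have h4 := PowerSeries.coeff_X_pow_mul w e 0
    rw [zero_add] at h4
    rw [h4, PowerSeries.coeff_zero_eq_constantCoeff_apply, h0]
  obtain ⟨r, hr⟩ := root_unit he w h3
  refine ⟨PowerSeries.X * r, ?_, ?_⟩
  · rw [map_mul, PowerSeries.constantCoeff_X, zero_mul]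
  · rw [mul_pow, hr, ← hw]

/-- the substitution `t ↦ σ` -/
theorem exists_subst {k : Type} [Field k] (σ : PowerSeries k)
    (hσ : PowerSeries.constantCoeff σ = 0) :
    ∃ T : PowerSeries k →+* PowerSeries k, (∀ b, T (PowerSeries.C b) = PowerSeries.C b) ∧
      T PowerSeries.X = σ := by
  have h := PowerSeries.HasSubst.of_constantCoeff_zero' hσ
  refine ⟨(PowerSeries.substAlgHom (R := k) h).toRingHom, fun b => ?_, ?_⟩
  · exact (PowerSeries.substAlgHom (R := k) h).commutes b
  · show PowerSeries.substAlgHom (R := k) h PowerSeries.X = σ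
    rw [PowerSeries.coe_substAlgHom, PowerSeries.subst_X h]

/-- an integral primitive element -/
theorem exists_theta {k L : Type} [Field k] [CharZero k] [Field L] [Algebra k L] (u : L)
    (hu : Transcendental k u) (hfin : FiniteDimensional (adjoin k {u}) L) :
    ∃ (θ : L) (Q : k[X][X]), Q.Monic ∧
      Q.eval₂ ((aeval u : k[X] →ₐ[k] L) : k[X] →+* L) θ = 0 ∧ adjoin (adjoin k {u}) {θ} = ⊤ := by
  let K := adjoin k {u}
  have huK : u ∈ K := mem_adjoin_simple_self k u
  let u' : K := ⟨u, huK⟩
  let a1 : Algebra k[X] K := ((aeval u' : k[X] →ₐ[k] K) : k[X] →+* K).toAlgebra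
  let a2 : Algebra k[X] L := ((aeval u : k[X] →ₐ[k] L) : k[X] →+* L).toAlgebra
  have m1 : ∀ s : k[X], algebraMap k[X] K s = aeval u' s := fun _ => rfl
  have m2 : ∀ s : k[X], algebraMap k[X] L s = aeval u s := fun _ => rfl
  have m3 : ∀ s : k[X], ((aeval u' s : K) : L) = aeval u s := by
    intro s
    have h := Polynomial.aeval_algHom_apply K.val u' s
    exact h.symm
  have t1 : IsScalarTower k[X] K L := IsScalarTower.of_algebraMap_eq fun s => by
    rw [m2, m1]
    exact (m3 s).symm
  have hinj : Function.Injective (algebraMap k[X] L) := by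
    intro a b hab
    exact (transcendental_iff_injective.1 hu) hab
  have hinj' : Function.Injective (algebraMap k[X] K) := by
    intro a b hab
    apply hinj
    rw [m2, m2, ← m3, ← m3, ← m1, ← m1, hab]
  have f0 : FaithfulSMul k[X] K := (faithfulSMul_iff_algebraMap_injective k[X] K).2 hinj'
  have f1 : IsFractionRing k[X] K := by
    refine IsFractionRing.of_field k[X] K fun z => ?_
    obtain ⟨r, s, hrs⟩ := (mem_adjoin_simple_iff k (z : L)).1 z.2
    refine ⟨r, s, ?_⟩
    apply Subtype.ext
    rw [m1, m1]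
    push_cast
    rw [m3, m3]
    exact hrs
  have hfin' : FiniteDimensional K L := hfin
  obtain ⟨θ, hθ⟩ := Field.exists_primitive_element K L
  have halg : IsAlgebraic k[X] θ :=
    (IsFractionRing.isAlgebraic_iff k[X] K L).2 (Algebra.IsAlgebraic.isAlgebraic θ)
  obtain ⟨y, hy0, Q, hQ, hQy⟩ := halg.exists_integral_multiple
  refine ⟨y • θ, Q, hQ, hQy, ?_⟩
  have hy : algebraMap k[X] K y ≠ 0 := by
    intro h0
    exact hy0 (hinj' (h0.trans (map_zero _).symm))
  rw [eq_top_iff, ← hθ, adjoin_simple_le_iff]
  have h1 : y • θ ∈ adjoin K {y • θ} := mem_adjoin_simple_self K _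
  have h2 : θ = (algebraMap k[X] K y)⁻¹ • (y • θ) := by
    rw [← algebraMap_smul K y θ, smul_smul, inv_mul_cancel₀ hy, one_smul]
  have h3 : (algebraMap k[X] K y)⁻¹ • (y • θ) ∈ adjoin K {y • θ} :=
    (adjoin K {y • θ}).smul_mem h1
  rwa [← h2] at h3

end Y4h

theorem y4 : Y4Statement := by
  intro k L _ _ _ _ _ u hu hfin a
  obtain ⟨θ, Q, hQ, hQθ, htop⟩ := Y4h.exists_theta u hu hfin
  -- the expansion at `a`
  let E : k[X] →+* PowerSeries k :=
    eval₂RingHom (PowerSeries.C (R := k)) (PowerSeries.C a + PowerSeries.X)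
  set d := (Q.map E).natDegree with hd
  have hn0 : Pool.Agent.DU5.PC.rootExp d ≠ 0 := by
    unfold Pool.Agent.DU5.PC.rootExp
    exact Finset.prod_ne_zero_iff.2 fun i _ => Nat.factorial_ne_zero _
  set n := Pool.Agent.DU5.PC.rootExp d with hn
  obtain ⟨η, hη⟩ := Pool.Agent.DU5.PC.np Pool.Agent.DU5.PC.wfc k d
    ⟨by exact_mod_cast d.factorial_ne_zero, fun q _ _ => IsAlgClosed.splits q⟩ (Q.map E)
    (hQ.map E) rfl n hn0 (dvd_refl _)
  refine ⟨n, by omega, ?_⟩
  intro s hs h hk hhu
  obtain ⟨σ, hσ0, hσ⟩ := Y4h.root_order (show 1 ≤ n by omega) s hs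
  obtain ⟨T, hTC, hTX⟩ := Y4h.exists_subst σ hσ0
  have hcomp : (h.comp ((aeval u : k[X] →ₐ[k] L) : k[X] →+* L)) =
      ((Y4h.pu k).comp (T.comp (Pool.Agent.DU5.PC.ex k n hn0))).comp E := by
    apply Polynomial.ringHom_ext
    · intro b
      show h (aeval u (C b)) = Y4h.pu k (T (Pool.Agent.DU5.PC.ex k n hn0 (E (C b))))
      have h1 : E (C b) = PowerSeries.C b := eval₂_C _ _
      have h2 : Pool.Agent.DU5.PC.ex k n hn0 (PowerSeries.C b) = PowerSeries.C b :=
        (PowerSeries.expand n hn0 : PowerSeries k →ₐ[k] PowerSeries k).commutes b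
      rw [aeval_C, hk, h1, h2, hTC]
      rfl
    · show h (aeval u X) = Y4h.pu k (T (Pool.Agent.DU5.PC.ex k n hn0 (E X)))
      have h1 : E X = PowerSeries.C a + PowerSeries.X := eval₂_X _ _
      have h2 : Pool.Agent.DU5.PC.ex k n hn0 (PowerSeries.C a) = PowerSeries.C a :=
        (PowerSeries.expand n hn0 : PowerSeries k →ₐ[k] PowerSeries k).commutes a
      have h3 : Pool.Agent.DU5.PC.ex k n hn0 PowerSeries.X = PowerSeries.X ^ n :=
        PowerSeries.expand_X n hn0
      rw [aeval_X, hhu, h1, map_add, h2, h3, map_add, hTC, map_pow, hTX, hσ]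
      rfl
  have hroot : (Q.map E).eval₂ ((Y4h.pu k).comp (T.comp (Pool.Agent.DU5.PC.ex k n hn0)))
      (h θ) = 0 := by
    rw [eval₂_map, ← hcomp, ← hom_eval₂, hQθ, map_zero]
  have hroot2 : ((Q.map E).map (Pool.Agent.DU5.PC.ex k n hn0)).eval₂ ((Y4h.pu k).comp T)
      (h θ) = 0 := by
    rw [eval₂_map]
    exact hroot
  rw [hη, eval₂_finsetProd, Finset.prod_eq_zero_iff] at hroot2
  obtain ⟨i, -, hi⟩ := hroot2
  rw [eval₂_sub, eval₂_X, eval₂_C, sub_eq_zero] at hi
  -- the subfield of the elements with a good image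
  let S : Subfield L :=
    (algebraMap (LaurentSeries k) (AlgebraicClosure (LaurentSeries k))).fieldRange.comap h
  have memS : ∀ z, z ∈ S ↔
      ∃ l : LaurentSeries k, h z = algebraMap _ (AlgebraicClosure (LaurentSeries k)) l := by
    intro z
    show z ∈ Subfield.comap h _ ↔ _
    rw [Subfield.mem_comap, RingHom.mem_fieldRange]
    exact ⟨fun ⟨l, hl⟩ => ⟨l, hl.symm⟩, fun ⟨l, hl⟩ => ⟨l, hl.symm⟩⟩
  intro z
  refine (memS z).1 ?_
  have hbase : ∀ w : adjoin k {u}, (w : L) ∈ S := by
    intro w
    refine adjoin_induction (F := k) (s := {u}) (p := fun z _ => z ∈ S) ?_ ?_ ?_ ?_ ?_ w.2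
    · intro x hx
      obtain rfl : x = u := hx
      rw [memS, hhu]
      exact ⟨_, rfl⟩
    · intro x
      rw [memS, hk]
      exact ⟨_, rfl⟩
    · exact fun x y _ _ hx hy => add_mem hx hy
    · exact fun x _ hx => inv_mem hx
    · exact fun x y _ _ hx hy => mul_mem hx hy
  have hz : z ∈ adjoin (adjoin k {u}) {θ} := htop ▸ mem_top
  refine adjoin_induction (F := adjoin k {u}) (s := {θ}) (p := fun z _ => z ∈ S)
    ?_ ?_ ?_ ?_ ?_ hz
  · intro x hx
    obtain rfl : x = θ := hx
    rw [memS, hi]
    exact ⟨_, rfl⟩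
  · exact fun x => hbase x
  · exact fun x y _ _ hx hy => add_mem hx hy
  · exact fun x _ hx => inv_mem hx
  · exact fun x y _ _ hx hy => mul_mem hx hy

end Pool.DynLehmer.UN

/-!
# Row Y6: at most one ramified point
-/

namespace Pool.DynLehmer.UN
open Polynomial IntermediateField

namespace Y675

theorem pus_add {k : Type} [Field k] (s r : PowerSeries k) : pus (s + r) = pus s + pus r := by
  unfold pus
  rw [map_add, map_add]

theorem pus_pow {k : Type} [Field k] (s : PowerSeries k) (e : ℕ) : pus (s ^ e) = pus s ^ e := by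
  unfold pus
  rw [map_pow, map_pow]

/-- Splitting over `t`, `t ^ e = u - a`. -/
theorem spf_root (hR : P2rStatement) {k L L' : Type} [Field k] [IsAlgClosed k] [CharZero k]
    [Field L] [Algebra k L] [Field L'] [Algebra k L'] [Algebra L L'] [IsScalarTower k L L']
    (u : L) (a : k) (e : ℕ) (he : 1 ≤ e) (h1 : ∀ b, b ≠ a → SpE k L u b 1) (h2 : SpE k L u a e)
    (t : L') (ht : algebraMap L L' u = algebraMap k L' a + t ^ e) (htop : adjoin L {t} = ⊤)
    (b : k) : SpF k L' t b := by
  intro s hs h hC hu
  -- the restriction to `L`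
  have hgC : ∀ b : k, (h.comp (algebraMap L L')) (algebraMap k L b) = pus (PowerSeries.C b) := by
    intro b
    rw [RingHom.comp_apply, ← IsScalarTower.algebraMap_apply]
    exact hC b
  have hgu : (h.comp (algebraMap L L')) u =
      pus (PowerSeries.C a + (PowerSeries.C b + s) ^ e) := by
    rw [RingHom.comp_apply, ht, map_add, map_pow, hC, hu, pus_add (PowerSeries.C a), pus_pow]
  have hL : ∀ z : L, ∃ l : LaurentSeries k, (h.comp (algebraMap L L')) z =
      algebraMap _ (AlgebraicClosure (LaurentSeries k)) l := by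
    by_cases hb : b = 0
    · subst hb
      rw [map_zero, zero_add] at hgu
      refine h2 (s ^ e) ?_ _ hgC hgu
      rw [PowerSeries.order_pow, hs]
      simp
    · obtain ⟨r, hr, hr2⟩ := (hR k e b s he hb hs).2
      rw [hr2, ← add_assoc, ← map_add] at hgu
      refine h1 (a + b ^ e) ?_ r ?_ _ hgC hgu
      · intro h0
        have h3 : b ^ e = 0 := by simpa using h0
        exact hb (pow_eq_zero_iff (by omega) |>.1 h3)
      · rw [hr]
        simp
  have htl : ∃ l : LaurentSeries k, h t = algebraMap _ (AlgebraicClosure (LaurentSeries k)) l :=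
    ⟨_, hu⟩
  intro z
  have hz : z ∈ adjoin L {t} := by
    rw [htop]
    exact mem_top
  induction hz using adjoin_induction with
  | mem x hx =>
    rw [Set.mem_singleton_iff.1 hx]
    exact htl
  | algebraMap x => exact hL x
  | add x y _ _ hx hy =>
    obtain ⟨l, hl⟩ := hx
    obtain ⟨m, hm⟩ := hy
    exact ⟨l + m, by rw [map_add, map_add, hl, hm]⟩
  | inv x _ hx =>
    obtain ⟨l, hl⟩ := hx
    exact ⟨l⁻¹, by rw [map_inv₀, map_inv₀, hl]⟩
  | mul x y _ _ hx hy =>
    obtain ⟨l, hl⟩ := hx
    obtain ⟨m, hm⟩ := hy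
    exact ⟨l * m, by rw [map_mul, map_mul, hl, hm]⟩

/-- Finiteness over `k(t)`. -/
theorem fin_root {k L L' : Type} [Field k] [Field L] [Algebra k L] [Field L'] [Algebra k L']
    [Algebra L L'] [IsScalarTower k L L'] [FiniteDimensional L L'] (u : L)
    (hfin : FiniteDimensional (adjoin k {u}) L) (t : L')
    (ht : algebraMap L L' u ∈ adjoin k {t}) : FiniteDimensional (adjoin k {t}) L' := by
  have h1 : FiniteDimensional (adjoin k {u}) L' := FiniteDimensional.trans (adjoin k {u}) L L'
  have hmem : ∀ z : adjoin k {u}, algebraMap L L' (z : L) ∈ adjoin k {t} := by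
    intro z
    have h2 : (adjoin k {u}).map (IsScalarTower.toAlgHom k L L') ≤ adjoin k {t} := by
      rw [adjoin_map, adjoin_le_iff]
      rintro _ ⟨x, hx, rfl⟩
      rw [Set.mem_singleton_iff.1 hx]
      exact ht
    exact h2 ⟨z, z.2, rfl⟩
  letI : Algebra (adjoin k {u}) (adjoin k {t}) :=
    (((algebraMap L L').comp (algebraMap (adjoin k {u}) L)).codRestrict
      (adjoin k {t}).toSubring hmem).toAlgebra
  haveI : IsScalarTower (adjoin k {u}) (adjoin k {t}) L' :=
    IsScalarTower.of_algebraMap_eq fun z => rfl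
  exact Module.Finite.of_restrictScalars_finite (adjoin k {u}) (adjoin k {t}) L'

end Y675

open Y675 in
/-- Row Y6. -/
theorem y6 (hR : P2rStatement) (hE : P2eStatement) (hD : P2dStatement) (h3 : P3Statement) :
    Y6Statement := by
  intro k L _ _ _ _ _ u a e hu hfin he h1 h2
  obtain ⟨t₀, ht₀⟩ := IsAlgClosed.exists_pow_nat_eq
    (algebraMap L (AlgebraicClosure L) (u - algebraMap k L a)) (n := e) he
  have hint : IsIntegral L t₀ := by
    refine ⟨X ^ e - C (u - algebraMap k L a), monic_X_pow_sub_C _ (by omega), ?_⟩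
    rw [eval₂_sub, eval₂_pow, eval₂_X, eval₂_C, ht₀, sub_self]
  let L' := adjoin L {t₀}
  let t : L' := ⟨t₀, mem_adjoin_simple_self L t₀⟩
  haveI : FiniteDimensional L L' := adjoin.finiteDimensional hint
  have ht : algebraMap L L' u = algebraMap k L' a + t ^ e := by
    have h4 : t ^ e = algebraMap L L' (u - algebraMap k L a) := by
      apply Subtype.ext
      exact ht₀
    rw [h4, map_sub, ← IsScalarTower.algebraMap_apply k L L']
    ring
  have htop : adjoin L {t} = ⊤ := by
    rw [eq_top_iff]
    intro z _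
    have h5 : (adjoin L {t}).map L'.val = L' := by
      rw [adjoin_map]
      simp [L', t]
    have h6 : (z : AlgebraicClosure L) ∈ (adjoin L {t}).map L'.val := by
      rw [h5]
      exact z.2
    obtain ⟨w, hw, hwz⟩ := h6
    have h7 : w = z := Subtype.ext hwz
    rw [← h7]
    exact hw
  have htr : Transcendental k t := by
    intro halg
    apply hu
    have h4 : IsAlgebraic k (algebraMap L L' u) := by
      rw [ht]
      exact (isAlgebraic_algebraMap a).add (halg.pow e)
    exact (isAlgebraic_algebraMap_iff (algebraMap L L').injective).1 h4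
  have hut : algebraMap L L' u ∈ adjoin k {t} := by
    rw [ht]
    exact add_mem (IntermediateField.algebraMap_mem _ a)
      (pow_mem (mem_adjoin_simple_self k t) e)
  have hfin' : FiniteDimensional (adjoin k {t}) L' := fin_root u hfin t hut
  obtain ⟨D, hDt⟩ := hE k L' t htr hfin'
  have hall : ∀ b : k, SpF k L' t b := spf_root hR u a e he h1 h2 t ht htop
  have hst := hD k L' t D htr hfin' hDt hall
  exact ⟨L', inferInstance, inferInstance, IsScalarTower.toAlgHom k L L', t, ht,
    h3 k L' t D htr hfin' hDt hst⟩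

end Pool.DynLehmer.UN
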