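import Pool.Agent.Lib.MP_2194ec_nt.UN.Props

set_option autoImplicit false

/-!
# Periodic pairs of `z ^ q + c`: the degrees `[k(x_i, y_j) : k(x_i)]`
-/

namespace Pool.DynLehmer.UN
open Polynomial IntermediateField

namespace P1h

/-! ### General facts -/

section gen
variable {k L : Type} [Field k] [Field L] [Algebra k L]

/-- the degree of `E(u)` over `E` -/
theorem relfinrank_sup_adjoin (E : IntermediateField k L) {u : L} (hu : IsIntegral E u) :
    relfinrank E (E ⊔ adjoin k {u}) = (minpoly E u).natDegree := by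
  rw [← adjoin.finrank hu, relfinrank_eq_finrank_of_le le_sup_left]
  have h : extendScalars (le_sup_left : E ≤ E ⊔ adjoin k {u}) = adjoin E {u} := by
    apply restrictScalars_injective k
    rw [extendScalars_restrictScalars, restrictScalars_adjoin_eq_sup]
  rw [h]

/-- the degree of the minimal polynomial decreases -/
theorem natDegree_le {E E' : IntermediateField k L} (h : E ≤ E') {u : L} (hu : IsIntegral E u) :
    (minpoly E' u).natDegree ≤ (minpoly E u).natDegree := by
  have h1 : minpoly E' u ∣ (minpoly E u).map (inclusion h).toRingHom := by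
    refine minpoly.dvd E' u ?_
    rw [aeval_def, eval₂_map]
    exact minpoly.aeval E u
  calc _ ≤ ((minpoly E u).map (inclusion h).toRingHom).natDegree :=
        natDegree_le_of_dvd h1 (map_monic_ne_zero (minpoly.monic hu))
    _ ≤ _ := natDegree_map_le

/-- the map `z ^ q + c` -/
def ff (q : ℕ) (c : k) (z : L) : L := z ^ q + algebraMap k L c

theorem map_ff {L' : Type} [Field L'] [Algebra k L'] (φ : L →ₐ[k] L') (q : ℕ) (c : k) (z : L)
    (n : ℕ) : φ ((ff q c)^[n] z) = (ff q c)^[n] (φ z) := by
  induction n with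
  | zero => rfl
  | succ n ih =>
    rw [Function.iterate_succ_apply', Function.iterate_succ_apply', ← ih]
    show φ (_ ^ q + algebraMap k L c) = _ ^ q + algebraMap k L' c
    rw [map_add, map_pow, φ.commutes]

theorem trans_ff {q : ℕ} (hq : 1 ≤ q) (c : k) {z : L} (hz : Transcendental k z) (n : ℕ) :
    Transcendental k ((ff q c)^[n] z) := by
  induction n with
  | zero => exact hz
  | succ n ih =>
    rw [Function.iterate_succ_apply']
    intro h
    refine ih (IsAlgebraic.of_pow (n := q) hq ?_)
    have h1 := h.sub (isAlgebraic_algebraMap (A := L) c)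
    simpa [ff] using h1

/-- the embedding of the rational functions -/
noncomputable def io {z : L} (hz : Transcendental k z) : RatFunc k →ₐ[k] L :=
  IsFractionRing.liftAlgHom (K := RatFunc k) (g := (aeval z : k[X] →ₐ[k] L))
    (transcendental_iff_injective.1 hz)

theorem io_map {z : L} (hz : Transcendental k z) (f : k[X]) :
    io hz (algebraMap k[X] (RatFunc k) f) = aeval z f := by
  rw [io, IsFractionRing.liftAlgHom_apply, IsFractionRing.lift_algebraMap]
  rfl

theorem io_X {z : L} (hz : Transcendental k z) : io hz RatFunc.X = z := by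
  rw [← RatFunc.algebraMap_X, io_map, aeval_X]

/-- `[k(z) : k(z ^ q + c)] = q` -/
theorem relfinrank_ff (q : ℕ) (c : k) {z : L} (hz : Transcendental k z) :
    relfinrank (adjoin k {ff q c z}) (adjoin k {z}) = q := by
  have h1 : adjoin k {z} = (⊤ : IntermediateField k (RatFunc k)).map (io hz) := by
    rw [← RatFunc.adjoin_X, adjoin_map, Set.image_singleton, io_X]
  have h2 : adjoin k {ff q c z} =
      (adjoin k {algebraMap k[X] (RatFunc k) (X ^ q + C c)}).map (io hz) := by
    rw [adjoin_map, Set.image_singleton, io_map]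
    simp [ff]
  rw [h1, h2, relfinrank_map_map, relfinrank_top_right, RatFunc.finrank_eq_max_natDegree,
    RatFunc.num_algebraMap, RatFunc.denom_algebraMap, natDegree_one, Nat.max_zero,
    natDegree_X_pow_add_C]

end gen

/-! ### The degrees -/

section deg
variable {k L : Type} [Field k] [Field L] [Algebra k L] (q : ℕ) (c : k)

theorem it_mem {E : IntermediateField k L} {z : L} (hz : z ∈ E) (n : ℕ) :
    (ff q c)^[n] z ∈ E := by
  induction n with
  | zero => exact hz
  | succ n ih =>
    rw [Function.iterate_succ_apply']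
    exact add_mem (pow_mem ih q) (_root_.algebraMap_mem E c)

/-- the field `k(x_i)` -/
def A (x : L) (i : ℕ) : IntermediateField k L := adjoin k {(ff q c)^[i] x}

/-- the field `k(x_i, y_j)` -/
def B (x y : L) (i j : ℕ) : IntermediateField k L := A q c x i ⊔ A q c y j

theorem A_le (x : L) (i n : ℕ) : A q c x (i + n) ≤ A q c x i := by
  rw [A, adjoin_le_iff, Set.singleton_subset_iff, add_comm, Function.iterate_add_apply]
  exact it_mem q c (mem_adjoin_simple_self k _) n

theorem A_map {φ : L →ₐ[k] L} {M : ℕ} {x : L} (hφ : φ x = (ff q c)^[M] x) (i : ℕ) :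
    (A q c x i).map φ = A q c x (i + M) := by
  rw [A, adjoin_map, Set.image_singleton, map_ff, hφ, ← Function.iterate_add_apply]
  rfl

theorem rel_A {x : L} (hx : Transcendental k x) (hq : 1 ≤ q) (i : ℕ) :
    relfinrank (A q c x (i + 1)) (A q c x i) = q := by
  rw [A, A, Function.iterate_succ_apply']
  exact relfinrank_ff q c (trans_ff hq c hx i)

theorem rel_top {x : L} (hx : Transcendental k x) (hq : 1 ≤ q)
    (hfin : FiniteDimensional (adjoin k {x}) L) (i : ℕ) :
    relfinrank (A q c x i) ⊤ ≠ 0 := by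
  induction i with
  | zero =>
    rw [relfinrank_top_right]
    exact (Module.finrank_pos (R := adjoin k {x}) (M := L)).ne'
  | succ i ih =>
    rw [← relfinrank_mul_relfinrank (A_le q c x i 1) le_top, rel_A q c hx hq]
    exact mul_ne_zero (by omega) ih

theorem integral_A {x : L} (hx : Transcendental k x) (hq : 1 ≤ q)
    (hfin : FiniteDimensional (adjoin k {x}) L) (i : ℕ) (u : L) : IsIntegral (A q c x i) u := by
  have h := rel_top q c hx hq hfin i
  rw [relfinrank_top_right] at h
  have h2 : FiniteDimensional (A q c x i) L := Module.finite_of_finrank_pos (Nat.pos_of_ne_zero h)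
  exact IsIntegral.of_finite _ u

/-- the degree `[k(x_i, y_j) : k(x_i)]` -/
noncomputable def m (x y : L) (i j : ℕ) : ℕ := relfinrank (A q c x i) (B q c x y i j)

theorem m_ne {x : L} (y : L) (hx : Transcendental k x) (hq : 1 ≤ q)
    (hfin : FiniteDimensional (adjoin k {x}) L) (i j : ℕ) : m q c x y i j ≠ 0 := by
  have h := rel_top q c hx hq hfin i
  rw [← relfinrank_mul_relfinrank (le_sup_left : A q c x i ≤ B q c x y i j) le_top] at h
  exact left_ne_zero_of_mul h

theorem m_eq {x : L} (y : L) (hx : Transcendental k x) (hq : 1 ≤ q)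
    (hfin : FiniteDimensional (adjoin k {x}) L) (i j : ℕ) :
    m q c x y i j = (minpoly (A q c x i) ((ff q c)^[j] y)).natDegree :=
  relfinrank_sup_adjoin _ (integral_A q c hx hq hfin i _)

theorem m_j {x : L} (y : L) (hx : Transcendental k x) (hq : 1 ≤ q)
    (hfin : FiniteDimensional (adjoin k {x}) L) (i j n : ℕ) :
    m q c x y i (j + n) ≤ m q c x y i j := by
  have h1 : B q c x y i (j + n) ≤ B q c x y i j := sup_le_sup le_rfl (A_le q c y j n)
  have h2 := relfinrank_mul_relfinrank (le_sup_left : A q c x i ≤ B q c x y i (j + n)) h1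
  exact Nat.le_of_dvd (Nat.pos_of_ne_zero (m_ne q c y hx hq hfin i j)) ⟨_, h2.symm⟩

theorem m_i {x : L} (y : L) (hx : Transcendental k x) (hq : 1 ≤ q)
    (hfin : FiniteDimensional (adjoin k {x}) L) (i j n : ℕ) :
    m q c x y i j ≤ m q c x y (i + n) j := by
  rw [m_eq q c y hx hq hfin, m_eq q c y hx hq hfin]
  exact natDegree_le (A_le q c x i n) (integral_A q c hx hq hfin _ _)

theorem m_shift {φ : L →ₐ[k] L} {M : ℕ} {x y : L} (hφx : φ x = (ff q c)^[M] x)
    (hφy : φ y = (ff q c)^[M] y) (i j s : ℕ) :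
    m q c x y (i + s * M) (j + s * M) = m q c x y i j := by
  induction s with
  | zero => rw [zero_mul, add_zero, add_zero]
  | succ s ih =>
    rw [← ih, add_mul, one_mul, ← add_assoc, ← add_assoc]
    unfold m B
    rw [← A_map q c hφx, ← A_map q c hφy, ← IntermediateField.map_sup, relfinrank_map_map]

theorem stab {φ : L →ₐ[k] L} {M : ℕ} (hM : 1 ≤ M) {x y : L} (hφx : φ x = (ff q c)^[M] x)
    (hφy : φ y = (ff q c)^[M] y) (hx : Transcendental k x) (hq : 1 ≤ q)
    (hfin : FiniteDimensional (adjoin k {x}) L) :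
    ∃ J d : ℕ, ∀ i j, i + J ≤ j → m q c x y i j = d := by
  classical
  have hex : ∃ d : ℕ, ∃ j, m q c x y 0 j = d := ⟨_, 0, rfl⟩
  obtain ⟨j₀, hj₀⟩ := Nat.find_spec hex
  have hmin : ∀ j, Nat.find hex ≤ m q c x y 0 j := fun j => Nat.find_le ⟨j, rfl⟩
  have h0 : ∀ j, j₀ ≤ j → m q c x y 0 j = Nat.find hex := by
    intro j hj
    refine le_antisymm ?_ (hmin j)
    rw [← hj₀]
    obtain ⟨n, rfl⟩ := Nat.exists_eq_add_of_le hj
    exact m_j q c y hx hq hfin 0 j₀ n
  refine ⟨j₀ + M, Nat.find hex, fun i j hij => le_antisymm ?_ ?_⟩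
  · have h1 : i ≤ (i / M + 1) * M := by
      have := Nat.lt_div_mul_add (a := i) (b := M) (by omega)
      rw [add_mul, one_mul]
      omega
    have h2 : (i / M + 1) * M ≤ i + M := by
      have := Nat.div_mul_le_self i M
      rw [add_mul, one_mul]
      omega
    set t := (i / M + 1) * M with ht
    have h3 := m_i q c y hx hq hfin i j (t - i)
    rw [Nat.add_sub_cancel' h1] at h3
    have h4 := m_shift q c hφx hφy 0 (j - t) (i / M + 1)
    rw [← ht, zero_add, Nat.sub_add_cancel (by omega), h0 _ (by omega)] at h4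
    rw [h4] at h3
    exact h3
  · have h1 := m_i q c y hx hq hfin 0 j i
    rw [zero_add] at h1
    exact (hmin j).trans h1

theorem two {J d : ℕ} {x : L} (y : L) (hx : Transcendental k x) (hq : 1 ≤ q)
    (hfin : FiniteDimensional (adjoin k {x}) L) (hJ : ∀ i j, i + J ≤ j → m q c x y i j = d)
    (j : ℕ) :
    B q c x y j (j + J) = B q c x y (j + 1) (j + 1 + J) ⊔ A q c x j ∧
      relfinrank (B q c x y (j + 1) (j + 1 + J)) (B q c x y j (j + J)) = q := by
  have hd : d ≠ 0 := by
    rw [← hJ j (j + J) le_rfl]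
    exact m_ne q c y hx hq hfin _ _
  have e0 : j + 1 + J = j + J + 1 := by omega
  -- the field `k(x_j, y_(j+J+1))`
  have h1 : B q c x y j (j + J + 1) ≤ B q c x y j (j + J) :=
    sup_le_sup le_rfl (A_le q c y (j + J) 1)
  have h2 : relfinrank (A q c x j) (B q c x y j (j + J + 1)) *
      relfinrank (B q c x y j (j + J + 1)) (B q c x y j (j + J)) =
      relfinrank (A q c x j) (B q c x y j (j + J)) := relfinrank_mul_relfinrank le_sup_left h1
  have h3 : relfinrank (A q c x j) (B q c x y j (j + J + 1)) = d := hJ j (j + J + 1) (by omega)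
  have h4 : relfinrank (A q c x j) (B q c x y j (j + J)) = d := hJ j (j + J) le_rfl
  rw [h3, h4] at h2
  have h5 : relfinrank (B q c x y j (j + J + 1)) (B q c x y j (j + J)) = 1 :=
    Nat.eq_of_mul_eq_mul_left (Nat.pos_of_ne_zero hd) (by rw [h2, mul_one])
  have h6 : B q c x y j (j + J) = B q c x y j (j + J + 1) :=
    le_antisymm (relfinrank_eq_one_iff.1 h5) h1
  have h7 : B q c x y j (j + J) = B q c x y (j + 1) (j + 1 + J) ⊔ A q c x j := by
    rw [h6, e0, B, B, sup_comm (A q c x (j + 1)), sup_assoc, sup_eq_right.2 (A_le q c x j 1),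
      sup_comm]
  refine ⟨h7, ?_⟩
  have h8 : B q c x y (j + 1) (j + 1 + J) ≤ B q c x y j (j + J) := by
    rw [h7]
    exact le_sup_left
  have h9 : relfinrank (A q c x (j + 1)) (B q c x y (j + 1) (j + 1 + J)) *
      relfinrank (B q c x y (j + 1) (j + 1 + J)) (B q c x y j (j + J)) =
      relfinrank (A q c x (j + 1)) (B q c x y j (j + J)) :=
    relfinrank_mul_relfinrank le_sup_left h8
  have h10 : relfinrank (A q c x (j + 1)) (A q c x j) *
      relfinrank (A q c x j) (B q c x y j (j + J)) =
      relfinrank (A q c x (j + 1)) (B q c x y j (j + J)) :=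
    relfinrank_mul_relfinrank (A_le q c x j 1) le_sup_left
  have h11 : relfinrank (A q c x (j + 1)) (B q c x y (j + 1) (j + 1 + J)) = d :=
    hJ (j + 1) (j + 1 + J) le_rfl
  rw [h11, ← h10, rel_A q c hx hq, h4, mul_comm q] at h9
  exact Nat.eq_of_mul_eq_mul_left (Nat.pos_of_ne_zero hd) h9

end deg

/-! ### The tower -/

/-- The conclusion of the tower statements, for one degree `q`. -/
def TowerAt (q : ℕ) : Prop :=
  ∀ (k N : Type) [Field k] [IsAlgClosed k] [CharZero k] [Field N] [Algebra k N] (c : k)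
    (M : ℕ) (φ : N →ₐ[k] N) (E : ℕ → IntermediateField k N) (u : ℕ → N), c ≠ 0 →
    ¬ (q = 2 ∧ c = -2) → 1 ≤ M → Transcendental k (u 0) →
    FiniteDimensional (adjoin k {u 0}) N → E 0 = ⊤ →
    (∀ j, u (j + 1) = u j ^ q + algebraMap k N c) →
    (∀ j, E j = E (j + 1) ⊔ adjoin k {u j}) → (∀ j, u (j + 1) ∈ E (j + 1)) →
    (∀ j, (minpoly (E (j + 1)) (u j)).natDegree = q) → (∀ j, E (j + M) = (E j).map φ) →
    (∀ j, u (j + M) = φ (u j)) →
    ∀ j, E j = adjoin k {u j}

/-- From the tower: some iterate of `y` is in `k(x)`, for a field with an endomorphism. -/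
theorem final {q : ℕ} (hT : TowerAt q) (hq : 2 ≤ q) {k L : Type} [Field k] [IsAlgClosed k]
    [CharZero k] [Field L] [Algebra k L] {c : k} (hc : c ≠ 0) (hqc : ¬ (q = 2 ∧ c = -2)) {M : ℕ}
    (hM : 1 ≤ M) {φ : L →ₐ[k] L} {x y : L} (hφx : φ x = (ff q c)^[M] x)
    (hφy : φ y = (ff q c)^[M] y) (hx : Transcendental k x)
    (hfin : FiniteDimensional (adjoin k {x}) L) :
    ∃ n : ℕ, (ff q c)^[n] y ∈ adjoin k {x} := by
  have hq1 : 1 ≤ q := by omega
  obtain ⟨J, d, hJ⟩ := stab q c hM hφx hφy hx hq1 hfin
  have h2 := two q c y hx hq1 hfin hJ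
  refine ⟨J, ?_⟩
  -- the field
  let T : IntermediateField k L := B q c x y 0 (0 + J)
  have hle : ∀ j, B q c x y j (j + J) ≤ T := by
    intro j
    induction j with
    | zero => exact le_rfl
    | succ j ih =>
      refine le_trans ?_ ih
      rw [(h2 j).1]
      exact le_sup_left
  have hxm : ∀ j, (ff q c)^[j] x ∈ T := fun j =>
    hle j ((le_sup_left : A q c x j ≤ B q c x y j (j + J)) (mem_adjoin_simple_self k _))
  have hym : ∀ j, (ff q c)^[j + J] y ∈ T := fun j =>
    hle j ((le_sup_right : A q c y (j + J) ≤ B q c x y j (j + J)) (mem_adjoin_simple_self k _))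
  let u : ℕ → T := fun j => ⟨(ff q c)^[j] x, hxm j⟩
  let w : ℕ → T := fun j => ⟨(ff q c)^[j + J] y, hym j⟩
  let E : ℕ → IntermediateField k T := fun j => adjoin k {u j} ⊔ adjoin k {w j}
  have hinj : Function.Injective (IntermediateField.map T.val) :=
    IntermediateField.map_injective T.val
  have hAu : ∀ j, (adjoin k {u j}).map T.val = A q c x j := by
    intro j
    rw [adjoin_map, Set.image_singleton]
    rfl
  have hE : ∀ j, (E j).map T.val = B q c x y j (j + J) := by
    intro j
    rw [IntermediateField.map_sup, hAu, adjoin_map, Set.image_singleton]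
    rfl
  have htop : (⊤ : IntermediateField k T).map T.val = T := by
    rw [← AlgHom.fieldRange_eq_map, fieldRange_val]
  -- the endomorphism
  have hφT : ∀ z : T, φ (z : L) ∈ T := by
    intro z
    have h3 : T.map φ ≤ T := by
      have h4 : T.map φ = B q c x y (0 + M) (0 + J + M) := by
        show (B q c x y 0 (0 + J)).map φ = _
        unfold B
        rw [IntermediateField.map_sup, A_map q c hφx, A_map q c hφy]
      rw [h4]
      have h5 : 0 + J + M = (0 + M) + J := by omega
      rw [h5]
      exact hle (0 + M)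
    exact h3 ⟨z, z.2, rfl⟩
  let φT : T →ₐ[k] T := (φ.comp T.val).codRestrict T.toSubalgebra hφT
  have hφu : ∀ j, u (j + M) = φT (u j) := by
    intro j
    apply Subtype.ext
    show (ff q c)^[j + M] x = φ ((ff q c)^[j] x)
    rw [map_ff, hφx, ← Function.iterate_add_apply]
  have hφw : ∀ j, w (j + M) = φT (w j) := by
    intro j
    apply Subtype.ext
    show (ff q c)^[j + M + J] y = φ ((ff q c)^[j + J] y)
    have h3 : j + M + J = j + J + M := by omega
    rw [map_ff, hφy, ← Function.iterate_add_apply, h3]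
  have hu0 : Transcendental k (u 0) := by
    intro h
    have h3 := h.algHom T.val
    exact hx h3
  have hE0 : E 0 = ⊤ := hinj (by rw [hE, htop])
  have hrel : ∀ j, relfinrank (E (j + 1)) (E j) = q := by
    intro j
    rw [← relfinrank_map_map (f := T.val), hE, hE]
    exact (h2 j).2
  have hEs : ∀ j, E j = E (j + 1) ⊔ adjoin k {u j} := by
    intro j
    apply hinj
    have h3 : (E (j + 1) ⊔ adjoin k {u j}).map T.val =
        (E (j + 1)).map T.val ⊔ (adjoin k {u j}).map T.val := IntermediateField.map_sup _ _ _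
    rw [h3, hE, hE, hAu]
    exact (h2 j).1
  have hT0 : FiniteDimensional (adjoin k {u 0}) T := by
    refine Module.finite_of_finrank_pos (Nat.pos_of_ne_zero ?_)
    rw [← relfinrank_top_right, ← relfinrank_map_map (f := T.val), hAu, htop]
    exact m_ne q c y hx hq1 hfin 0 (0 + J)
  have hint : ∀ j, IsIntegral (E (j + 1)) (u j) := by
    intro j
    by_contra h
    have h3 := hrel j
    rw [hEs j] at h3
    have h4 : relfinrank (E (j + 1)) (E (j + 1) ⊔ adjoin k {u j}) = 0 := by
      rw [relfinrank_eq_finrank_of_le le_sup_left]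
      refine Module.finrank_of_not_finite fun hf => h ?_
      have h5 : u j ∈ extendScalars (le_sup_left : E (j + 1) ≤ E (j + 1) ⊔ adjoin k {u j}) :=
        (le_sup_right : adjoin k {u j} ≤ E (j + 1) ⊔ adjoin k {u j})
          (mem_adjoin_simple_self k _)
      have h6 := IsIntegral.of_finite (E (j + 1))
        (⟨u j, h5⟩ : extendScalars (le_sup_left : E (j + 1) ≤ E (j + 1) ⊔ adjoin k {u j}))
      exact h6.map (extendScalars
        (le_sup_left : E (j + 1) ≤ E (j + 1) ⊔ adjoin k {u j})).val
    omega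
  have key := hT k T c M φT E u hc hqc hM hu0 hT0 hE0
    (fun j => Subtype.ext (by
      show (ff q c)^[j + 1] x = _
      rw [Function.iterate_succ_apply']
      rfl))
    hEs (fun j => (le_sup_left : adjoin k {u (j + 1)} ≤ E (j + 1)) (mem_adjoin_simple_self k _))
    (fun j => by rw [← relfinrank_sup_adjoin _ (hint j), ← hEs j, hrel j])
    (fun j => by
      show adjoin k {u (j + M)} ⊔ adjoin k {w (j + M)} = (adjoin k {u j} ⊔ adjoin k {w j}).map φT
      rw [IntermediateField.map_sup, adjoin_map, adjoin_map, Set.image_singleton,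
        Set.image_singleton, hφu, hφw])
    hφu 0
  have h3 := congrArg (IntermediateField.map T.val) key
  rw [hE, hAu] at h3
  have h4 : (ff q c)^[0 + J] y ∈ A q c x 0 := by
    rw [← h3]
    exact (le_sup_right : A q c y (0 + J) ≤ B q c x y 0 (0 + J)) (mem_adjoin_simple_self k _)
  rw [zero_add] at h4
  exact h4

/-! ### The endomorphism -/

section endo
variable {k L : Type} [Field k] [Field L] [Algebra k L]

/-- Extension of a homomorphism of fields to an algebraic extension, with a given value. -/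
theorem lift {E L₁ L₂ : Type} [Field E] [Field L₁] [Field L₂] [IsAlgClosed L₂] (i₁ : E →+* L₁)
    (i₂ : E →+* L₂) (halg : @Algebra.IsAlgebraic E L₁ _ _ i₁.toAlgebra) (y : L₁) (y' : L₂)
    (h : ∀ f : Polynomial E, f.eval₂ i₁ y = 0 → f.eval₂ i₂ y' = 0) :
    ∃ φ : L₁ →+* L₂, (∀ e, φ (i₁ e) = i₂ e) ∧ φ y = y' := by
  let _ := i₁.toAlgebra
  let _ := i₂.toAlgebra
  have h1 : Polynomial.aeval y' (minpoly E y) = 0 := h _ (minpoly.aeval E y)
  obtain ⟨φ, hφ⟩ := IntermediateField.exists_algHom_of_splits_of_aeval (F := E) (E := L₁)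
    (K := L₂) (fun s => ⟨(Algebra.IsAlgebraic.isAlgebraic s).isIntegral, IsAlgClosed.splits _⟩) h1
  exact ⟨φ.toRingHom, fun e => φ.commutes e, hφ⟩

theorem io_alg {z : L} (hz : Transcendental k z)
    (halg : Algebra.IsAlgebraic (adjoin k {z}) L) :
    @Algebra.IsAlgebraic (RatFunc k) L _ _ (io hz).toRingHom.toAlgebra := by
  let _ := (io hz).toRingHom.toAlgebra
  have hle : adjoin k {z} ≤ (io hz).fieldRange := by
    rw [adjoin_le_iff, Set.singleton_subset_iff]
    exact ⟨RatFunc.X, io_X hz⟩
  have hmem : ∀ f : Polynomial k, Polynomial.aeval z f ∈ adjoin k {z} :=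
    fun f => algebra_adjoin_le_adjoin k {z} (Polynomial.aeval_mem_adjoin_singleton k z)
  have hge : (io hz).fieldRange ≤ adjoin k {z} := by
    rintro _ ⟨e, rfl⟩
    show io hz e ∈ adjoin k {z}
    rw [← RatFunc.num_div_denom e, map_div₀, io_map, io_map]
    exact div_mem (hmem _) (hmem _)
  refine ⟨fun w => ?_⟩
  obtain ⟨f, hf, hfw⟩ := halg.isAlgebraic w
  let ρ : RatFunc k →+* (adjoin k {z}) :=
    (io hz).toRingHom.codRestrict _ fun e => hge ⟨e, rfl⟩
  have hρ : Function.Surjective ρ := by
    rintro ⟨u, hu⟩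
    obtain ⟨e, he⟩ := hle hu
    exact ⟨e, Subtype.ext he⟩
  obtain ⟨g, hg⟩ := Polynomial.map_surjective ρ hρ f
  refine ⟨g, ?_, ?_⟩
  · rintro rfl
    rw [Polynomial.map_zero] at hg
    exact hf hg.symm
  · rw [← hfw, ← hg]
    show Polynomial.eval₂ (io hz).toRingHom w g =
      Polynomial.eval₂ (algebraMap (adjoin k {z}) L) w (g.map ρ)
    rw [Polynomial.eval₂_map]
    rfl

theorem key {x y x' y' : L} (hx : Transcendental k x) (hx' : Transcendental k x')
    (hrel : ∀ G : MvPolynomial (Fin 2) k, MvPolynomial.aeval ![x, y] G = 0 →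
      MvPolynomial.aeval ![x', y'] G = 0) (f : Polynomial (RatFunc k))
    (hf : f.eval₂ (io hx).toRingHom y = 0) : f.eval₂ (io hx').toRingHom y' = 0 := by
  obtain ⟨b, hb, hbf⟩ := IsLocalization.integerNormalization_spec
    (nonZeroDivisors (Polynomial k)) f
  set h := IsLocalization.integerNormalization (nonZeroDivisors (Polynomial k)) f with hh
  have e1 : ∀ (z : L) (hz : Transcendental k z) (w : L),
      h.eval₂ (Polynomial.aeval z : Polynomial k →ₐ[k] L).toRingHom w =
        Polynomial.aeval z b * f.eval₂ (io hz).toRingHom w := by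
    intro z hz w
    have e2 : (Polynomial.aeval z : Polynomial k →ₐ[k] L).toRingHom =
        (io hz).toRingHom.comp (algebraMap (Polynomial k) (RatFunc k)) := by
      ext g
      · exact (io_map hz (Polynomial.C g)).symm
      · exact (io_map hz Polynomial.X).symm
    rw [e2, ← Polynomial.eval₂_map, hbf, Algebra.smul_def, Polynomial.eval₂_mul]
    congr 1
    show Polynomial.eval₂ (io hz).toRingHom w (Polynomial.C (algebraMap _ (RatFunc k) b)) = _
    rw [Polynomial.eval₂_C]
    exact io_map hz b
  -- as a polynomial in two variables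
  have e3 : ∀ z w : L, MvPolynomial.aeval ![z, w]
      (h.eval₂ (Polynomial.aeval (MvPolynomial.X 0 : MvPolynomial (Fin 2) k) :
        Polynomial k →ₐ[k] MvPolynomial (Fin 2) k).toRingHom (MvPolynomial.X 1)) =
      h.eval₂ (Polynomial.aeval z : Polynomial k →ₐ[k] L).toRingHom w := by
    intro z w
    have e4 := Polynomial.hom_eval₂ h (Polynomial.aeval (MvPolynomial.X 0 :
      MvPolynomial (Fin 2) k) : Polynomial k →ₐ[k] MvPolynomial (Fin 2) k).toRingHom
      (MvPolynomial.aeval ![z, w] : MvPolynomial (Fin 2) k →ₐ[k] L).toRingHom (MvPolynomial.X 1)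
    have e5 : (MvPolynomial.aeval ![z, w] : MvPolynomial (Fin 2) k →ₐ[k] L).toRingHom.comp
        (Polynomial.aeval (MvPolynomial.X 0 : MvPolynomial (Fin 2) k) :
          Polynomial k →ₐ[k] MvPolynomial (Fin 2) k).toRingHom =
        (Polynomial.aeval z : Polynomial k →ₐ[k] L).toRingHom := by
      ext g
      · show MvPolynomial.aeval ![z, w] (Polynomial.aeval _ (Polynomial.C g)) =
          Polynomial.aeval z (Polynomial.C g)
        rw [Polynomial.aeval_C, Polynomial.aeval_C, AlgHom.commutes]
      · show MvPolynomial.aeval ![z, w] (Polynomial.aeval _ Polynomial.X) =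
          Polynomial.aeval z Polynomial.X
        rw [Polynomial.aeval_X, Polynomial.aeval_X, MvPolynomial.aeval_X]
        rfl
    have e6 : (MvPolynomial.aeval ![z, w] : MvPolynomial (Fin 2) k →ₐ[k] L).toRingHom
        (MvPolynomial.X 1) = w := MvPolynomial.aeval_X _ _
    rw [e5, e6] at e4
    exact e4
  have h1 := hrel _ (by rw [e3 x y, e1 x hx, hf, mul_zero])
  rw [e3, e1 x' hx'] at h1
  rcases mul_eq_zero.1 h1 with h2 | h2
  · exfalso
    exact nonZeroDivisors.ne_zero hb
      ((injective_iff_map_eq_zero _).1 (transcendental_iff_injective.1 hx') b h2)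
  · exact h2

/-- The endomorphism which maps `x` to `x'` and `y` to `y'`. -/
theorem endo {x y x' y' : L} (htop : adjoin k {x} ⊔ adjoin k {y} = ⊤)
    (hfin : FiniteDimensional (adjoin k {x}) L) (hx : Transcendental k x)
    (hx' : Transcendental k x') (hrel : ∀ G : MvPolynomial (Fin 2) k,
      MvPolynomial.aeval ![x, y] G = 0 → MvPolynomial.aeval ![x', y'] G = 0) :
    ∃ φ : L →ₐ[k] L, φ x = x' ∧ φ y = y' := by
  have halg : Algebra.IsAlgebraic (adjoin k {x}) L := Algebra.IsAlgebraic.of_finite _ _
  let i : L →ₐ[k] AlgebraicClosure L := IsScalarTower.toAlgHom k L (AlgebraicClosure L)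
  obtain ⟨φ₀, hφ₀, hφy⟩ := lift (io hx).toRingHom
    ((i : L →+* AlgebraicClosure L).comp (io hx').toRingHom) (io_alg hx halg) y (i y')
    (fun f hf => by
      have h1 := key hx hx' hrel f hf
      have h2 := Polynomial.hom_eval₂ f (io hx').toRingHom (i : L →+* AlgebraicClosure L) y'
      rw [h1, map_zero] at h2
      exact h2.symm)
  have hφx : φ₀ x = i x' := by
    have h1 := hφ₀ RatFunc.X
    have h2 : (io hx).toRingHom RatFunc.X = x := io_X hx
    have h3 : (io hx').toRingHom RatFunc.X = x' := io_X hx'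
    rw [h2] at h1
    rw [h1]
    exact congrArg i h3
  have hφk : ∀ r : k, φ₀ (algebraMap k L r) = algebraMap k (AlgebraicClosure L) r := by
    intro r
    have h1 := hφ₀ (algebraMap k (RatFunc k) r)
    have h2 : (io hx).toRingHom (algebraMap k (RatFunc k) r) = algebraMap k L r :=
      (io hx).commutes r
    have h3 : (io hx').toRingHom (algebraMap k (RatFunc k) r) = algebraMap k L r :=
      (io hx').commutes r
    rw [h2] at h1
    rw [h1, RingHom.comp_apply, h3]
    exact i.commutes r
  let φ₁ : L →ₐ[k] AlgebraicClosure L := { φ₀ with commutes' := hφk }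
  have hle : (⊤ : IntermediateField k L) ≤ i.fieldRange.comap φ₁ := by
    rw [← htop]
    refine sup_le ?_ ?_
    · rw [adjoin_le_iff, Set.singleton_subset_iff]
      exact ⟨x', hφx.symm⟩
    · rw [adjoin_le_iff, Set.singleton_subset_iff]
      exact ⟨y', hφy.symm⟩
  have hex : ∀ z : L, ∃ w : L, i w = φ₁ z := fun z => hle (mem_top : z ∈ ⊤)
  choose g hg using hex
  have hinj : Function.Injective i := i.toRingHom.injective
  refine ⟨{ toFun := g
            map_one' := hinj (by rw [hg, map_one, map_one])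
            map_mul' := fun a b => hinj (by rw [hg, map_mul, map_mul, hg, hg])
            map_zero' := hinj (by rw [hg, map_zero, map_zero])
            map_add' := fun a b => hinj (by rw [hg, map_add, map_add, hg, hg])
            commutes' := fun r => hinj (by
              show i (g (algebraMap k L r)) = i (algebraMap k L r)
              rw [hg, φ₁.commutes, i.commutes]) }, ?_, ?_⟩
  · exact hinj ((hg x).trans hφx)
  · exact hinj ((hg y).trans hφy)

end endo

/-! ### The rows -/

/-- From the tower: some iterate of `y` is in `k(x)`. -/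
theorem pairaAt {q : ℕ} (hT : TowerAt q) (hq : 2 ≤ q) (k N : Type) [Field k] [IsAlgClosed k]
    [CharZero k] [Field N] [Algebra k N] (c : k) (M : ℕ) (x y : N) (hc : c ≠ 0)
    (hqc : ¬ (q = 2 ∧ c = -2)) (hM : 1 ≤ M) (hx : Transcendental k x)
    (hy : IsAlgebraic (adjoin k {x}) y)
    (hrel : ∀ G : MvPolynomial (Fin 2) k, MvPolynomial.aeval ![x, y] G = 0 →
      MvPolynomial.aeval ![(ff q c)^[M] x, (ff q c)^[M] y] G = 0) :
    ∃ n : ℕ, (ff q c)^[n] y ∈ adjoin k {x} := by
  let T : IntermediateField k N := adjoin k {x} ⊔ adjoin k {y}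
  have hxm : x ∈ T := (le_sup_left : adjoin k {x} ≤ T) (mem_adjoin_simple_self k x)
  have hym : y ∈ T := (le_sup_right : adjoin k {y} ≤ T) (mem_adjoin_simple_self k y)
  let x₁ : T := ⟨x, hxm⟩
  let y₁ : T := ⟨y, hym⟩
  have hinj : Function.Injective (IntermediateField.map T.val) :=
    IntermediateField.map_injective T.val
  have htop : (⊤ : IntermediateField k T).map T.val = T := by
    rw [← AlgHom.fieldRange_eq_map, fieldRange_val]
  have hx1 : (adjoin k {x₁}).map T.val = adjoin k {x} := by
    rw [adjoin_map, Set.image_singleton]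
    rfl
  have hy1 : (adjoin k {y₁}).map T.val = adjoin k {y} := by
    rw [adjoin_map, Set.image_singleton]
    rfl
  have h1 : adjoin k {x₁} ⊔ adjoin k {y₁} = ⊤ := by
    apply hinj
    rw [IntermediateField.map_sup, hx1, hy1, htop]
  have hx₁ : Transcendental k x₁ := fun h => hx (h.algHom T.val)
  have h2 : FiniteDimensional (adjoin k {x₁}) T := by
    refine Module.finite_of_finrank_pos (Nat.pos_of_ne_zero ?_)
    rw [← relfinrank_top_right, ← relfinrank_map_map (f := T.val), hx1, htop]
    show relfinrank (adjoin k {x}) (adjoin k {x} ⊔ adjoin k {y}) ≠ 0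
    rw [relfinrank_sup_adjoin _ hy.isIntegral]
    exact (minpoly.natDegree_pos hy.isIntegral).ne'
  have hv : ∀ (z : T) (n : ℕ), (((ff q c)^[n] z : T) : N) = (ff q c)^[n] (z : N) :=
    fun z n => map_ff T.val q c z n
  obtain ⟨φ, hφx, hφy⟩ := endo (x' := (ff q c)^[M] x₁) (y' := (ff q c)^[M] y₁) h1 h2 hx₁
    (trans_ff (by omega) c hx₁ M) (fun G hG => by
      have h3 : ∀ a b : T, MvPolynomial.aeval ![(a : N), (b : N)] G =
          ((MvPolynomial.aeval ![a, b] G : T) : N) := by
        intro a b
        have h4 : (T.val.comp (MvPolynomial.aeval ![a, b] : MvPolynomial (Fin 2) k →ₐ[k] T)) =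
            MvPolynomial.aeval ![(a : N), (b : N)] := by
          refine MvPolynomial.algHom_ext fun i => ?_
          rw [AlgHom.comp_apply, MvPolynomial.aeval_X, MvPolynomial.aeval_X]
          fin_cases i <;> rfl
        exact (congrArg (fun ψ : MvPolynomial (Fin 2) k →ₐ[k] N => ψ G) h4).symm
      apply Subtype.ext
      rw [← h3, hv, hv]
      refine hrel G ?_
      have h5 := h3 x₁ y₁
      rw [hG] at h5
      exact h5)
  obtain ⟨n, hn⟩ := final hT hq hc hqc hM hφx hφy hx₁ h2
  refine ⟨n, ?_⟩
  rw [← hx1]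
  exact ⟨_, hn, hv y₁ n⟩

end P1h

/-- Row P1 for all degrees. -/
theorem pairaq (h : TowerqStatement) : PairaqStatement := by
  intro k N _ _ _ _ _ q c M x y hq hc hqc hM hx _ hy hrel
  exact P1h.pairaAt (fun k N _ _ _ _ _ c M φ E u h1 h2 => h k N q c M φ E u hq h1 h2) hq k N c M
    x y hc hqc hM hx hy hrel

/-- Row P1. -/
theorem paira (h : TowerStatement) : PairaStatement := by
  intro k N _ _ _ _ _ p c M x y hp hc hqc hM hx _ hy hrel
  refine P1h.pairaAt (fun k N _ _ _ _ _ c M φ E u h1 h2 h3 h4 h5 h6 h7 h8 h9 h10 h11 h12 =>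
    h k N p c M φ E u hp h1 h2 h3 h4 h5 h6 h7 h8 h9 (fun j hj => ?_) h11 h12) hp.two_le k N c M
    x y hc hqc hM hx hy hrel
  have h13 : (minpoly (E (j + 1)) (u j)).natDegree = 1 := by
    rw [minpoly.natDegree_eq_one_iff]
    exact ⟨⟨u j, hj⟩, rfl⟩
  rw [h10 j] at h13
  exact hp.one_lt.ne' h13

end Pool.DynLehmer.UN
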