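import Pool.Agent.Lib.MP_2194ec_nt.UN.PolDefs
import Pool.Agent.Lib.MP_2194ec_nt.UN.Pone
import Pool.Agent.Lib.MP_2194ec_nt.UN.Tower

set_option autoImplicit false

/-!
# Periodic pairs of a polynomial: the tower
-/

/-!
# Row Y1: the tower of a pair, for a polynomial `f`
-/

namespace Pool.DynLehmer.UN
open Polynomial IntermediateField

namespace Y1h

open P1h (relfinrank_sup_adjoin natDegree_le io io_map io_X endo)

/-! ### General facts -/

/-- the map `f` -/
noncomputable def gg {k L : Type} [Field k] [CommRing L] [Algebra k L] (f : k[X]) (z : L) : L :=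
  aeval z f

theorem map_gg {k L L' : Type} [Field k] [CommRing L] [Algebra k L] [CommRing L'] [Algebra k L']
    (φ : L →ₐ[k] L') (f : k[X]) (z : L) (n : ℕ) : φ ((gg f)^[n] z) = (gg f)^[n] (φ z) := by
  induction n with
  | zero => rfl
  | succ n ih =>
    rw [Function.iterate_succ_apply', Function.iterate_succ_apply', ← ih]
    exact (aeval_algHom_apply φ _ f).symm

section gen
variable {k L : Type} [Field k] [Field L] [Algebra k L]

theorem trans_gg {f : k[X]} (hf : 1 ≤ f.natDegree) {z : L} (hz : Transcendental k z) (n : ℕ) :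
    Transcendental k ((gg f)^[n] z) := by
  induction n with
  | zero => exact hz
  | succ n ih =>
    rw [Function.iterate_succ_apply']
    have h0 : f ≠ 0 := by
      rintro rfl
      simp at hf
    exact ih.aeval f (by omega) (mem_nonZeroDivisors_of_ne_zero (leadingCoeff_ne_zero.2 h0))

/-- `[k(z) : k(f z)] = deg f` -/
theorem relfinrank_gg (f : k[X]) {z : L} (hz : Transcendental k z) :
    relfinrank (adjoin k {gg f z}) (adjoin k {z}) = f.natDegree := by
  have h1 : adjoin k {z} = (⊤ : IntermediateField k (RatFunc k)).map (io hz) := by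
    rw [← RatFunc.adjoin_X, adjoin_map, Set.image_singleton, io_X]
  have h2 : adjoin k {gg f z} =
      (adjoin k {algebraMap k[X] (RatFunc k) f}).map (io hz) := by
    rw [adjoin_map, Set.image_singleton, io_map]
    rfl
  rw [h1, h2, relfinrank_map_map, relfinrank_top_right, RatFunc.finrank_eq_max_natDegree,
    RatFunc.num_algebraMap, RatFunc.denom_algebraMap, natDegree_one, Nat.max_zero]

theorem gg_mem (f : k[X]) {E : IntermediateField k L} {z : L} (hz : z ∈ E) : gg f z ∈ E := by
  have h := (⟨z, hz⟩ : E)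
  have h1 : aeval (E.val ⟨z, hz⟩) f = E.val (aeval (⟨z, hz⟩ : E) f) := aeval_algHom_apply E.val _ f
  have h2 : gg f z = E.val (aeval (⟨z, hz⟩ : E) f) := h1
  rw [h2]
  exact (aeval (⟨z, hz⟩ : E) f).2

end gen

/-! ### The degrees -/

section deg
variable {k L : Type} [Field k] [Field L] [Algebra k L] (f : k[X])

theorem it_mem {E : IntermediateField k L} {z : L} (hz : z ∈ E) (n : ℕ) :
    (gg f)^[n] z ∈ E := by
  induction n with
  | zero => exact hz
  | succ n ih =>
    rw [Function.iterate_succ_apply']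
    exact gg_mem f ih

/-- the field `k(x_i)` -/
def A (x : L) (i : ℕ) : IntermediateField k L := adjoin k {(gg f)^[i] x}

/-- the field `k(x_i, y_j)` -/
def B (x y : L) (i j : ℕ) : IntermediateField k L := A f x i ⊔ A f y j

theorem A_le (x : L) (i n : ℕ) : A f x (i + n) ≤ A f x i := by
  rw [A, adjoin_le_iff, Set.singleton_subset_iff, add_comm, Function.iterate_add_apply]
  exact it_mem f (mem_adjoin_simple_self k _) n

theorem A_map {φ : L →ₐ[k] L} {M : ℕ} {x : L} (hφ : φ x = (gg f)^[M] x) (i : ℕ) :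
    (A f x i).map φ = A f x (i + M) := by
  rw [A, adjoin_map, Set.image_singleton, map_gg, hφ, ← Function.iterate_add_apply]
  rfl

theorem rel_A {x : L} (hx : Transcendental k x) (hq : 1 ≤ f.natDegree) (i : ℕ) :
    relfinrank (A f x (i + 1)) (A f x i) = f.natDegree := by
  rw [A, A, Function.iterate_succ_apply']
  exact relfinrank_gg f (trans_gg hq hx i)

theorem rel_top {x : L} (hx : Transcendental k x) (hq : 1 ≤ f.natDegree)
    (hfin : FiniteDimensional (adjoin k {x}) L) (i : ℕ) :
    relfinrank (A f x i) ⊤ ≠ 0 := by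
  induction i with
  | zero =>
    rw [relfinrank_top_right]
    exact (Module.finrank_pos (R := adjoin k {x}) (M := L)).ne'
  | succ i ih =>
    rw [← relfinrank_mul_relfinrank (A_le f x i 1) le_top, rel_A f hx hq]
    exact mul_ne_zero (by omega) ih

theorem integral_A {x : L} (hx : Transcendental k x) (hq : 1 ≤ f.natDegree)
    (hfin : FiniteDimensional (adjoin k {x}) L) (i : ℕ) (u : L) : IsIntegral (A f x i) u := by
  have h := rel_top f hx hq hfin i
  rw [relfinrank_top_right] at h
  have h2 : FiniteDimensional (A f x i) L := Module.finite_of_finrank_pos (Nat.pos_of_ne_zero h)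
  exact IsIntegral.of_finite _ u

/-- the degree `[k(x_i, y_j) : k(x_i)]` -/
noncomputable def m (x y : L) (i j : ℕ) : ℕ := relfinrank (A f x i) (B f x y i j)

theorem m_ne {x : L} (y : L) (hx : Transcendental k x) (hq : 1 ≤ f.natDegree)
    (hfin : FiniteDimensional (adjoin k {x}) L) (i j : ℕ) : m f x y i j ≠ 0 := by
  have h := rel_top f hx hq hfin i
  rw [← relfinrank_mul_relfinrank (le_sup_left : A f x i ≤ B f x y i j) le_top] at h
  exact left_ne_zero_of_mul h

theorem m_eq {x : L} (y : L) (hx : Transcendental k x) (hq : 1 ≤ f.natDegree)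
    (hfin : FiniteDimensional (adjoin k {x}) L) (i j : ℕ) :
    m f x y i j = (minpoly (A f x i) ((gg f)^[j] y)).natDegree :=
  relfinrank_sup_adjoin _ (integral_A f hx hq hfin i _)

theorem m_j {x : L} (y : L) (hx : Transcendental k x) (hq : 1 ≤ f.natDegree)
    (hfin : FiniteDimensional (adjoin k {x}) L) (i j n : ℕ) :
    m f x y i (j + n) ≤ m f x y i j := by
  have h1 : B f x y i (j + n) ≤ B f x y i j := sup_le_sup le_rfl (A_le f y j n)
  have h2 := relfinrank_mul_relfinrank (le_sup_left : A f x i ≤ B f x y i (j + n)) h1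
  exact Nat.le_of_dvd (Nat.pos_of_ne_zero (m_ne f y hx hq hfin i j)) ⟨_, h2.symm⟩

theorem m_i {x : L} (y : L) (hx : Transcendental k x) (hq : 1 ≤ f.natDegree)
    (hfin : FiniteDimensional (adjoin k {x}) L) (i j n : ℕ) :
    m f x y i j ≤ m f x y (i + n) j := by
  rw [m_eq f y hx hq hfin, m_eq f y hx hq hfin]
  exact natDegree_le (A_le f x i n) (integral_A f hx hq hfin _ _)

theorem m_shift {φ : L →ₐ[k] L} {M : ℕ} {x y : L} (hφx : φ x = (gg f)^[M] x)
    (hφy : φ y = (gg f)^[M] y) (i j s : ℕ) :
    m f x y (i + s * M) (j + s * M) = m f x y i j := by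
  induction s with
  | zero => rw [zero_mul, add_zero, add_zero]
  | succ s ih =>
    rw [← ih, add_mul, one_mul, ← add_assoc, ← add_assoc]
    unfold m B
    rw [← A_map f hφx, ← A_map f hφy, ← IntermediateField.map_sup, relfinrank_map_map]

theorem stab {φ : L →ₐ[k] L} {M : ℕ} (hM : 1 ≤ M) {x y : L} (hφx : φ x = (gg f)^[M] x)
    (hφy : φ y = (gg f)^[M] y) (hx : Transcendental k x) (hq : 1 ≤ f.natDegree)
    (hfin : FiniteDimensional (adjoin k {x}) L) :
    ∃ J d : ℕ, ∀ i j, i + J ≤ j → m f x y i j = d := by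
  classical
  have hex : ∃ d : ℕ, ∃ j, m f x y 0 j = d := ⟨_, 0, rfl⟩
  obtain ⟨j₀, hj₀⟩ := Nat.find_spec hex
  have hmin : ∀ j, Nat.find hex ≤ m f x y 0 j := fun j => Nat.find_le ⟨j, rfl⟩
  have h0 : ∀ j, j₀ ≤ j → m f x y 0 j = Nat.find hex := by
    intro j hj
    refine le_antisymm ?_ (hmin j)
    rw [← hj₀]
    obtain ⟨n, rfl⟩ := Nat.exists_eq_add_of_le hj
    exact m_j f y hx hq hfin 0 j₀ n
  refine ⟨j₀ + M, Nat.find hex, fun i j hij => le_antisymm ?_ ?_⟩
  · have h1 : i ≤ (i / M + 1) * M := by
      have := Nat.lt_div_mul_add (a := i) (b := M) (by omega)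
      rw [add_mul, one_mul]
      omega
    have h2 : (i / M + 1) * M ≤ i + M := by
      have := Nat.div_mul_le_self i M
      rw [add_mul, one_mul]
      omega
    set t := (i / M + 1) * M with ht
    have h3 := m_i f y hx hq hfin i j (t - i)
    rw [Nat.add_sub_cancel' h1] at h3
    have h4 := m_shift f hφx hφy 0 (j - t) (i / M + 1)
    rw [← ht, zero_add, Nat.sub_add_cancel (by omega), h0 _ (by omega)] at h4
    rw [h4] at h3
    exact h3
  · have h1 := m_i f y hx hq hfin 0 j i
    rw [zero_add] at h1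
    exact (hmin j).trans h1

end deg

end Y1h

open Y1h P1h in
/-- Row Y1 -/
theorem y1 : Y1Statement := by
  intro k N _ _ _ _ _ f M x y hf hM hx hy hyx hrel
  have hq : 1 ≤ f.natDegree := by omega
  let T : IntermediateField k N := adjoin k {x} ⊔ adjoin k {y}
  have hxm : x ∈ T := (le_sup_left : adjoin k {x} ≤ T) (mem_adjoin_simple_self k x)
  have hym : y ∈ T := (le_sup_right : adjoin k {y} ≤ T) (mem_adjoin_simple_self k y)
  let x₁ : T := ⟨x, hxm⟩
  let y₁ : T := ⟨y, hym⟩
  have hx1 : ∀ i, (Y1h.A f x₁ i).map T.val = Y1h.A f x i := by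
    intro i
    unfold Y1h.A
    rw [adjoin_map, Set.image_singleton, Y1h.map_gg]
    rfl
  have hy1 : ∀ i, (Y1h.A f y₁ i).map T.val = Y1h.A f y i := by
    intro i
    unfold Y1h.A
    rw [adjoin_map, Set.image_singleton, Y1h.map_gg]
    rfl
  have htop : (⊤ : IntermediateField k T).map T.val = T := by
    rw [← AlgHom.fieldRange_eq_map, fieldRange_val]
  have hinj : Function.Injective (IntermediateField.map T.val) :=
    IntermediateField.map_injective T.val
  have h1 : adjoin k {x₁} ⊔ adjoin k {y₁} = ⊤ := by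
    apply hinj
    rw [IntermediateField.map_sup, htop]
    exact congrArg₂ (· ⊔ ·) (hx1 0) (hy1 0)
  have hx₁ : Transcendental k x₁ := fun h => hx (h.algHom T.val)
  have h2 : FiniteDimensional (adjoin k {x₁}) T := by
    refine Module.finite_of_finrank_pos (Nat.pos_of_ne_zero ?_)
    have hx1' : (adjoin k {x₁}).map T.val = adjoin k {x} := hx1 0
    rw [← relfinrank_top_right, ← relfinrank_map_map (f := T.val), hx1', htop]
    show relfinrank (adjoin k {x}) (adjoin k {x} ⊔ adjoin k {y}) ≠ 0
    rw [relfinrank_sup_adjoin _ hyx.isIntegral]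
    exact (minpoly.natDegree_pos hyx.isIntegral).ne'
  -- relations in an intermediate field
  have hG3 : ∀ (S : IntermediateField k N) (G : MvPolynomial (Fin 2) k) (a b : S),
      MvPolynomial.aeval ![(a : N), (b : N)] G =
        ((MvPolynomial.aeval ![a, b] G : S) : N) := by
    intro S G a b
    have h4 : (S.val.comp (MvPolynomial.aeval ![a, b] : MvPolynomial (Fin 2) k →ₐ[k] S)) =
        MvPolynomial.aeval ![(a : N), (b : N)] := by
      refine MvPolynomial.algHom_ext fun i => ?_
      rw [AlgHom.comp_apply, MvPolynomial.aeval_X, MvPolynomial.aeval_X]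
      fin_cases i <;> rfl
    exact (congrArg (fun ψ : MvPolynomial (Fin 2) k →ₐ[k] N => ψ G) h4).symm
  have hv : ∀ (S : IntermediateField k N) (z : S) (n : ℕ),
      (((gg f)^[n] z : S) : N) = (gg f)^[n] (z : N) :=
    fun S z n => Y1h.map_gg S.val f z n
  have hrel0 : ∀ G : MvPolynomial (Fin 2) k, MvPolynomial.aeval ![x, y] G = 0 →
      MvPolynomial.aeval ![(gg f)^[M] x, (gg f)^[M] y] G = 0 := hrel
  obtain ⟨φ, hφx, hφy⟩ := endo (x' := (gg f)^[M] x₁) (y' := (gg f)^[M] y₁) h1 h2 hx₁
    (trans_gg hq hx₁ M) (fun G hG => by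
      apply Subtype.ext
      rw [← hG3, hv, hv]
      refine hrel0 G ?_
      have h5 := hG3 T G x₁ y₁
      rw [hG] at h5
      exact h5)
  obtain ⟨J, d, hJ⟩ := Y1h.stab f hM hφx hφy hx₁ hq h2
  -- the degrees in `N`
  have hJN : ∀ i j, i + J ≤ j → relfinrank (Y1h.A f x i) (Y1h.A f x i ⊔ Y1h.A f y j) = d := by
    intro i j hij
    rw [← hx1, ← hy1, ← IntermediateField.map_sup, relfinrank_map_map]
    exact hJ i j hij
  -- the second point
  set v : N := (gg f)^[J * M] y with hvdef
  have hAv : ∀ l, Y1h.A f v l = Y1h.A f y (l + J * M) := by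
    intro l
    unfold Y1h.A
    rw [hvdef, ← Function.iterate_add_apply]
  have hvt : Transcendental k v := trans_gg hq hy _
  let S : IntermediateField k N := adjoin k {x} ⊔ adjoin k {v}
  have hxS : x ∈ S := (le_sup_left : adjoin k {x} ≤ S) (mem_adjoin_simple_self k x)
  have hvS : v ∈ S := (le_sup_right : adjoin k {v} ≤ S) (mem_adjoin_simple_self k v)
  let x₂ : S := ⟨x, hxS⟩
  let v₂ : S := ⟨v, hvS⟩
  have hx2 : ∀ i, (Y1h.A f x₂ i).map S.val = Y1h.A f x i := by
    intro i
    unfold Y1h.A
    rw [adjoin_map, Set.image_singleton, Y1h.map_gg]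
    rfl
  have hv2 : ∀ i, (Y1h.A f v₂ i).map S.val = Y1h.A f v i := by
    intro i
    unfold Y1h.A
    rw [adjoin_map, Set.image_singleton, Y1h.map_gg]
    rfl
  have htopS : (⊤ : IntermediateField k S).map S.val = S := by
    rw [← AlgHom.fieldRange_eq_map, fieldRange_val]
  have hinjS : Function.Injective (IntermediateField.map S.val) :=
    IntermediateField.map_injective S.val
  have h1S : adjoin k {x₂} ⊔ adjoin k {v₂} = ⊤ := by
    apply hinjS
    rw [IntermediateField.map_sup, htopS]
    exact congrArg₂ (· ⊔ ·) (hx2 0) (hv2 0)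
  have hx₂ : Transcendental k x₂ := fun h => hx (h.algHom S.val)
  have hv₂ : Transcendental k v₂ := fun h => hvt (h.algHom S.val)
  have hd0 : d ≠ 0 := by
    rw [← hJ 0 J (by omega)]
    exact m_ne f y₁ hx₁ hq h2 0 J
  have h2S : FiniteDimensional (adjoin k {x₂}) S := by
    refine Module.finite_of_finrank_pos (Nat.pos_of_ne_zero ?_)
    have hx2' : (adjoin k {x₂}).map S.val = adjoin k {x} := hx2 0
    rw [← relfinrank_top_right, ← relfinrank_map_map (f := S.val), hx2', htopS]
    have h3 : relfinrank (Y1h.A f x 0) (Y1h.A f x 0 ⊔ Y1h.A f v 0) = d := by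
      rw [hAv]
      refine hJN 0 (0 + J * M) ?_
      nlinarith
    have h4 : relfinrank (adjoin k {x}) S = d := h3
    rw [h4]
    exact hd0
  obtain ⟨ψ, hψx, hψv⟩ := endo (x' := (gg f)^[M] x₂) (y' := (gg f)^[M] v₂) h1S h2S hx₂
    (trans_gg hq hx₂ M) (fun G hG => by
      apply Subtype.ext
      rw [← hG3, hv, hv]
      -- the relation for `(x, y)`
      set G' : MvPolynomial (Fin 2) k := MvPolynomial.aeval
        ![(MvPolynomial.X 0 : MvPolynomial (Fin 2) k),
          (gg f)^[J * M] (MvPolynomial.X 1 : MvPolynomial (Fin 2) k)] G with hG'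
      have h5 : ∀ a b : N, MvPolynomial.aeval ![a, b] G' =
          MvPolynomial.aeval ![a, (gg f)^[J * M] b] G := by
        intro a b
        rw [hG', MvPolynomial.comp_aeval_apply]
        have h6 : (fun i => (MvPolynomial.aeval ![a, b] : MvPolynomial (Fin 2) k →ₐ[k] N)
            (![(MvPolynomial.X 0 : MvPolynomial (Fin 2) k),
              (gg f)^[J * M] (MvPolynomial.X 1 : MvPolynomial (Fin 2) k)] i)) =
            ![a, (gg f)^[J * M] b] := by
          funext i
          fin_cases i
          · simp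
          · show (MvPolynomial.aeval ![a, b] : MvPolynomial (Fin 2) k →ₐ[k] N)
              ((gg f)^[J * M] (MvPolynomial.X 1 : MvPolynomial (Fin 2) k)) = (gg f)^[J * M] b
            rw [Y1h.map_gg]
            simp
        rw [h6]
      have h7 : MvPolynomial.aeval ![x, y] G' = 0 := by
        rw [h5]
        have h8 := hG3 S G x₂ v₂
        rw [hG] at h8
        exact h8
      have h9 := hrel0 G' h7
      rw [h5, ← Function.iterate_add_apply, add_comm, Function.iterate_add_apply] at h9
      exact h9)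
  refine ⟨J, d, S, {
    φ := ψ
    u := fun j => (gg f)^[j] x₂
    v := fun j => (gg f)^[j] v₂
    tu := hx₂
    tv := hv₂
    fin := h2S
    top := ?_
    us := fun j => Function.iterate_succ_apply' _ _ _
    vs := fun j => Function.iterate_succ_apply' _ _ _
    φu := fun j => ?_
    φv := fun j => ?_
    deg := fun j l hjl => ?_ }, rfl, rfl⟩
  · show adjoin k {x₂, v₂} = ⊤
    rw [← h1S, ← adjoin_union]
    rfl
  · rw [Y1h.map_gg, hψx, ← Function.iterate_add_apply]
  · rw [Y1h.map_gg, hψv, ← Function.iterate_add_apply]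
  · have h3 := integral_A f hx₂ hq h2S j ((gg f)^[l] v₂)
    have h4 := relfinrank_sup_adjoin (Y1h.A f x₂ j) h3
    show (minpoly (Y1h.A f x₂ j) ((gg f)^[l] v₂)).natDegree = d
    rw [← h4]
    show relfinrank (Y1h.A f x₂ j) (Y1h.A f x₂ j ⊔ Y1h.A f v₂ l) = d
    rw [← relfinrank_map_map (f := S.val), IntermediateField.map_sup, hx2, hv2, hAv]
    refine hJN j (l + J * M) ?_
    nlinarith

end Pool.DynLehmer.UN

/-!
# Row Y1B: the fields `k(u j, v j)` of a tower
-/

namespace Pool.DynLehmer.UN
open Polynomial IntermediateField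

namespace Y1b86

section gen
variable {k L : Type} [Field k] [Field L] [Algebra k L]

/-- the degree of `E(u)` over `E` -/
theorem relfinrank_sup_adjoin (E : IntermediateField k L) {u : L} (hu : IsIntegral E u) :
    relfinrank E (E ⊔ adjoin k {u}) = (minpoly E u).natDegree := by
  rw [← adjoin.finrank hu, relfinrank_eq_finrank_of_le le_sup_left]
  have h : extendScalars (le_sup_left : E ≤ E ⊔ adjoin k {u}) = adjoin E {u} := by
    apply restrictScalars_injective k
    rw [extendScalars_restrictScalars, restrictScalars_adjoin_eq_sup]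
  rw [h]

/-- the embedding of the rational functions -/
noncomputable def io {z : L} (hz : Transcendental k z) : RatFunc k →ₐ[k] L :=
  IsFractionRing.liftAlgHom (K := RatFunc k) (g := (aeval z : k[X] →ₐ[k] L))
    (transcendental_iff_injective.1 hz)

theorem io_map {z : L} (hz : Transcendental k z) (f : k[X]) :
    io hz (algebraMap k[X] (RatFunc k) f) = aeval z f := by
  rw [io, IsFractionRing.liftAlgHom_apply, IsFractionRing.lift_algebraMap]
  rfl

theorem io_X {z : L} (hz : Transcendental k z) : io hz RatFunc.X = z := by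
  rw [← RatFunc.algebraMap_X, io_map, aeval_X]

/-- `[k(z) : k(f(z))] = deg f` -/
theorem relfinrank_f (f : k[X]) {z : L} (hz : Transcendental k z) :
    relfinrank (adjoin k {aeval z f}) (adjoin k {z}) = f.natDegree := by
  have h1 : adjoin k {z} = (⊤ : IntermediateField k (RatFunc k)).map (io hz) := by
    rw [← RatFunc.adjoin_X, adjoin_map, Set.image_singleton, io_X]
  have h2 : adjoin k {aeval z f} =
      (adjoin k {algebraMap k[X] (RatFunc k) f}).map (io hz) := by
    rw [adjoin_map, Set.image_singleton, io_map]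
  rw [h1, h2, relfinrank_map_map, relfinrank_top_right, RatFunc.finrank_eq_max_natDegree,
    RatFunc.num_algebraMap, RatFunc.denom_algebraMap, natDegree_one, Nat.max_zero]

theorem mem_adjoin_f (f : k[X]) {E : IntermediateField k L} {z : L} (hz : z ∈ E) :
    aeval z f ∈ E := by
  have h : aeval z f = ((aeval (⟨z, hz⟩ : E) f : E) : L) := by
    rw [← IntermediateField.coe_val, ← Polynomial.aeval_algHom_apply]
    rfl
  rw [h]
  exact SetLike.coe_mem _

theorem trans_f (f : k[X]) (hf : 1 ≤ f.natDegree) {z : L} (hz : Transcendental k z) :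
    Transcendental k (aeval z f) := by
  intro h
  obtain ⟨g, hg, hgz⟩ := h
  refine hz ⟨g.comp f, ?_, ?_⟩
  · intro h0
    rcases comp_eq_zero_iff.1 h0 with h1 | ⟨-, h1⟩
    · exact hg h1
    · rw [h1, natDegree_C] at hf
      omega
  · rw [aeval_comp]
    exact hgz

end gen

section tow
variable {k N : Type} [Field k] [Field N] [Algebra k N] {f : k[X]} {M m : ℕ} (T : Tow k N f M m)

/-- the field `k(u j)` -/
def A (j : ℕ) : IntermediateField k N := adjoin k {T.u j}

/-- the field `k(v j)` -/
def C' (j : ℕ) : IntermediateField k N := adjoin k {T.v j}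

theorem A_le (j : ℕ) : A T (j + 1) ≤ A T j := by
  rw [A, adjoin_le_iff, Set.singleton_subset_iff, T.us]
  exact mem_adjoin_f f (mem_adjoin_simple_self k _)

theorem C_le (j : ℕ) : C' T (j + 1) ≤ C' T j := by
  rw [C', adjoin_le_iff, Set.singleton_subset_iff, T.vs]
  exact mem_adjoin_f f (mem_adjoin_simple_self k _)

theorem tu (hf : 1 ≤ f.natDegree) (j : ℕ) : Transcendental k (T.u j) := by
  induction j with
  | zero => exact T.tu
  | succ j ih =>
    rw [T.us]
    exact trans_f f hf ih

theorem rel_A (hf : 1 ≤ f.natDegree) (j : ℕ) :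
    relfinrank (A T (j + 1)) (A T j) = f.natDegree := by
  rw [A, A, T.us]
  exact relfinrank_f f (tu T hf j)

theorem rel_top (hf : 1 ≤ f.natDegree) (j : ℕ) : relfinrank (A T j) ⊤ ≠ 0 := by
  induction j with
  | zero =>
    have := T.fin
    rw [relfinrank_top_right]
    exact (Module.finrank_pos (R := adjoin k {T.u 0}) (M := N)).ne'
  | succ j ih =>
    rw [← relfinrank_mul_relfinrank (A_le T j) le_top, rel_A T hf]
    exact mul_ne_zero (by omega) ih

theorem integral_A (hf : 1 ≤ f.natDegree) (j : ℕ) (z : N) : IsIntegral (A T j) z := by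
  have h := rel_top T hf j
  rw [relfinrank_top_right] at h
  have h2 : FiniteDimensional (A T j) N := Module.finite_of_finrank_pos (Nat.pos_of_ne_zero h)
  exact IsIntegral.of_finite _ z

theorem rel_B (hf : 1 ≤ f.natDegree) {i j : ℕ} (hij : i ≤ j) :
    relfinrank (A T i) (A T i ⊔ C' T j) = m := by
  rw [C', relfinrank_sup_adjoin _ (integral_A T hf i _)]
  exact T.deg i j hij

include T in
theorem m_ne (hf : 1 ≤ f.natDegree) : m ≠ 0 := by
  have h := rel_top T hf 0
  rw [← relfinrank_mul_relfinrank (le_sup_left : A T 0 ≤ A T 0 ⊔ C' T 0) le_top,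
    rel_B T hf le_rfl] at h
  exact left_ne_zero_of_mul h

theorem E_eq (j : ℕ) : adjoin k {T.u j, T.v j} = A T j ⊔ C' T j := by
  rw [A, C', ← adjoin_union]
  rfl

theorem two (hf : 1 ≤ f.natDegree) (j : ℕ) :
    A T j ⊔ C' T j = (A T (j + 1) ⊔ C' T (j + 1)) ⊔ A T j ∧
      relfinrank (A T (j + 1) ⊔ C' T (j + 1)) (A T j ⊔ C' T j) = f.natDegree := by
  have hm := m_ne T hf
  have h1 : A T j ⊔ C' T (j + 1) ≤ A T j ⊔ C' T j := sup_le_sup le_rfl (C_le T j)
  have h2 : relfinrank (A T j) (A T j ⊔ C' T (j + 1)) *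
      relfinrank (A T j ⊔ C' T (j + 1)) (A T j ⊔ C' T j) =
      relfinrank (A T j) (A T j ⊔ C' T j) := relfinrank_mul_relfinrank le_sup_left h1
  rw [rel_B T hf (Nat.le_succ j), rel_B T hf le_rfl] at h2
  have h5 : relfinrank (A T j ⊔ C' T (j + 1)) (A T j ⊔ C' T j) = 1 :=
    Nat.eq_of_mul_eq_mul_left (Nat.pos_of_ne_zero hm) (by rw [h2, mul_one])
  have h6 : A T j ⊔ C' T j = A T j ⊔ C' T (j + 1) :=
    le_antisymm (relfinrank_eq_one_iff.1 h5) h1
  have h7 : A T j ⊔ C' T j = (A T (j + 1) ⊔ C' T (j + 1)) ⊔ A T j := by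
    rw [h6, sup_comm (A T (j + 1)), sup_assoc, sup_eq_right.2 (A_le T j), sup_comm]
  refine ⟨h7, ?_⟩
  have h8 : A T (j + 1) ⊔ C' T (j + 1) ≤ A T j ⊔ C' T j := sup_le_sup (A_le T j) (C_le T j)
  have h9 : relfinrank (A T (j + 1)) (A T (j + 1) ⊔ C' T (j + 1)) *
      relfinrank (A T (j + 1) ⊔ C' T (j + 1)) (A T j ⊔ C' T j) =
      relfinrank (A T (j + 1)) (A T j ⊔ C' T j) :=
    relfinrank_mul_relfinrank le_sup_left h8
  have h10 : relfinrank (A T (j + 1)) (A T j) *
      relfinrank (A T j) (A T j ⊔ C' T j) =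
      relfinrank (A T (j + 1)) (A T j ⊔ C' T j) :=
    relfinrank_mul_relfinrank (A_le T j) le_sup_left
  rw [rel_B T hf le_rfl, ← h10, rel_A T hf, rel_B T hf le_rfl, mul_comm f.natDegree] at h9
  exact Nat.eq_of_mul_eq_mul_left (Nat.pos_of_ne_zero hm) h9

end tow

end Y1b86

open Y1b86 in
/-- Row Y1B. -/
theorem y1b : Y1bStatement := by
  intro k N _ _ _ _ _ f M m T hq hM
  have hf : 1 ≤ f.natDegree := by omega
  refine ⟨fun j => ?_, fun j => ?_, fun j => ?_⟩
  · rw [E_eq, E_eq]
    exact (two T hf j).1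
  · rw [E_eq]
    have hint : IsIntegral (A T (j + 1) ⊔ C' T (j + 1) : IntermediateField k N) (T.u j) := by
      have h1 := integral_A T hf (j + 1) (T.u j)
      have h2 := rel_top T hf (j + 1)
      rw [← relfinrank_mul_relfinrank (le_sup_left : A T (j + 1) ≤ A T (j + 1) ⊔ C' T (j + 1))
        le_top] at h2
      have h3 := right_ne_zero_of_mul h2
      rw [relfinrank_top_right] at h3
      have h4 : FiniteDimensional (A T (j + 1) ⊔ C' T (j + 1) : IntermediateField k N) N :=
        Module.finite_of_finrank_pos (Nat.pos_of_ne_zero h3)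
      exact IsIntegral.of_finite _ _
    have h5 := relfinrank_sup_adjoin (A T (j + 1) ⊔ C' T (j + 1)) hint
    rw [← h5]
    have h6 := two T hf j
    rw [← h6.2]
    congr 1
    exact h6.1.symm
  · rw [adjoin_map, Set.image_pair, T.φu, T.φv]

end Pool.DynLehmer.UN

/-!
# Row Y7: the tower of a pair is rational
-/

namespace Pool.DynLehmer.UN
open Polynomial IntermediateField

theorem tq_map_adjoin {k N : Type} [Field k] [Field N] [Algebra k N] (E : IntermediateField k N)
    (u : N) (hu : u ∈ E) :
    (adjoin k {(⟨u, hu⟩ : E)}).map E.val = adjoin k {u} := by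
  rw [adjoin_map]
  simp

theorem tq_fin_down {k N : Type} [Field k] [Field N] [Algebra k N] (E : IntermediateField k N)
    (u : N) (hu : u ∈ E) (H : FiniteDimensional (adjoin k {u}) N) :
    FiniteDimensional (adjoin k {(⟨u, hu⟩ : E)}) E := by
  let F' := adjoin k {(⟨u, hu⟩ : E)}
  let e : adjoin k {u} ≃ₐ[k] F' :=
    (equivOfEq (tq_map_adjoin E u hu).symm).trans (F'.equivMap E.val).symm
  have he : ∀ z : adjoin k {u}, ((e z : E) : N) = z := by
    intro z
    have h1 : (F'.equivMap E.val) (e z) = equivOfEq (tq_map_adjoin E u hu).symm z := by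
      simp [e]
    have h2 := congrArg (fun w : F'.map E.val => (w : N)) h1
    simpa using h2
  have : Module.Finite F' N :=
    Module.Finite.of_equiv_equiv (A₁ := adjoin k {u}) (B₁ := N) (A₂ := F') (B₂ := N)
      (e : adjoin k {u} ≃+* F') (RingEquiv.refl N) (by
        ext z
        exact he z)
  exact FiniteDimensional.left F' E N

theorem y7_fin_step {k N : Type} [Field k] [Field N] [Algebra k N] (u v : N) (f : k[X])
    (hf : 1 ≤ f.natDegree) (hv : v = aeval u f) (H : FiniteDimensional (adjoin k {u}) N) :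
    FiniteDimensional (adjoin k {v}) N := by
  let K1 := adjoin k {v}
  let K2' : IntermediateField K1 N := adjoin K1 {u}
  have hvu : v ∈ adjoin k {u} := by
    have h : aeval u f = algebraMap (adjoin k {u}) N
        (aeval (⟨u, mem_adjoin_simple_self k u⟩ : adjoin k {u}) f) := by
      rw [← aeval_algebraMap_apply]
      rfl
    rw [hv, h]
    exact SetLike.coe_mem _
  have heq : adjoin k {u} = K2'.restrictScalars k := by
    rw [adjoin_adjoin_left]
    apply le_antisymm
    · exact adjoin.mono k _ _ (by simp)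
    · rw [adjoin_le_iff]
      rintro z (hz | hz)
      · rw [Set.mem_singleton_iff.1 hz]; exact hvu
      · rw [Set.mem_singleton_iff.1 hz]; exact mem_adjoin_simple_self k u
  let e : adjoin k {u} ≃ₐ[k] (K2'.restrictScalars k) := equivOfEq heq
  have h2 : Module.Finite K2' N :=
    Module.Finite.of_equiv_equiv (A₁ := adjoin k {u}) (B₁ := N) (A₂ := K2') (B₂ := N)
      (e : adjoin k {u} ≃+* (K2'.restrictScalars k)) (RingEquiv.refl N) (by
        ext z
        rfl)
  have halg : IsAlgebraic K1 u := by
    refine ⟨f.map (algebraMap k K1) - C ⟨v, mem_adjoin_simple_self k v⟩, ?_, ?_⟩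
    · intro h0
      have h1 : (f.map (algebraMap k K1) - C ⟨v, mem_adjoin_simple_self k v⟩ : K1[X]).natDegree =
          f.natDegree := by
        rw [natDegree_sub_C, natDegree_map]
      rw [h0, natDegree_zero] at h1
      omega
    · have h4 : (algebraMap K1 N) ⟨v, mem_adjoin_simple_self k v⟩ = v := rfl
      rw [aeval_sub, aeval_C, h4, aeval_map_algebraMap, ← hv, sub_self]
  have h1 : FiniteDimensional K1 K2' := adjoin.finiteDimensional halg.isIntegral
  exact FiniteDimensional.trans K1 K2' N

theorem spE_transport {k L L' : Type} [Field k] [Field L] [Algebra k L] [Field L'] [Algebra k L']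
    (e : L ≃ₐ[k] L') (u : L) (a : k) (n : ℕ) (H : SpE k L u a n) : SpE k L' (e u) a n := by
  intro s hs h hc hu z
  obtain ⟨l, hl⟩ := H s hs (h.comp (e : L →+* L')) (fun b => by
    simpa using hc b) (by simpa using hu) (e.symm z)
  exact ⟨l, by simpa using hl⟩

theorem spE_one {k L : Type} [Field k] [Field L] [Algebra k L] (u : L) (a : k) :
    SpE k L u a 1 ↔ SpF k L u a := by
  unfold SpE SpF
  rw [Nat.cast_one]

theorem ram_pos {k : Type} [Field k] (f : k[X]) (hf : 1 ≤ f.natDegree) (a : k) :
    1 ≤ ram f a := by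
  have h0 : f - C (f.eval a) ≠ 0 := by
    intro h
    have h1 : (f - C (f.eval a)).natDegree = f.natDegree := natDegree_sub_C
    rw [h, natDegree_zero] at h1
    omega
  exact (rootMultiplicity_pos h0).2 (by simp [IsRoot])

theorem y7 (h1b : Y1bStatement) (h3 : Y3Statement) (h4 : Y4Statement) (hB : P2bStatement)
    (h5a : Y5aStatement) (h5b : Y5bStatement) (h6 : Y6Statement) : Y7Statement := by
  intro k N _ _ _ _ _ f M m T hq hM hex
  obtain ⟨hE1, hE2, hE3⟩ := h1b k N f M m T hq hM
  let E : ℕ → IntermediateField k N := fun j => adjoin k {T.u j, T.v j}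
  have hself : ∀ j, T.u j ∈ E j := fun j => subset_adjoin k _ (by simp)
  have hfinj : ∀ j, FiniteDimensional (adjoin k {T.u j}) N := by
    intro j
    induction j with
    | zero => exact T.fin
    | succ j ih => exact y7_fin_step (T.u j) (T.u (j + 1)) f (by omega) (T.us j) ih
  have htr : ∀ j, Transcendental k (T.u j) := by
    intro j
    induction j with
    | zero => exact T.tu
    | succ j ih =>
      rw [T.us j]
      intro h
      apply ih
      obtain ⟨P, hP0, hP⟩ := h
      refine ⟨P.comp f, ?_, ?_⟩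
      · intro h0
        rcases comp_eq_zero_iff.1 h0 with h0 | ⟨-, h0⟩
        · exact hP0 h0
        · rw [h0, natDegree_C] at hq
          omega
      · rw [aeval_comp]
        exact hP
  let U : ∀ j, E j := fun j => ⟨T.u j, hself j⟩
  have hfinE : ∀ j, FiniteDimensional (adjoin k {U j}) (E j) :=
    fun j => tq_fin_down (E j) (T.u j) (hself j) (hfinj j)
  have htrE : ∀ j, Transcendental k (U j) := by
    intro j h
    exact htr j (h.algebraMap (A := N))
  classical
  let r : ℕ → k → ℕ := fun j a => sInf {e : ℕ | 1 ≤ e ∧ SpE k (E j) (U j) a e}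
  have hne : ∀ j a, {e : ℕ | 1 ≤ e ∧ SpE k (E j) (U j) a e}.Nonempty :=
    fun j a => h4 k (E j) (U j) (htrE j) (hfinE j) a
  have hmem : ∀ j a, 1 ≤ r j a ∧ SpE k (E j) (U j) a (r j a) := fun j a => Nat.sInf_mem (hne j a)
  have hmin : ∀ j a e, 1 ≤ e → SpE k (E j) (U j) a e → r j a ≤ e :=
    fun j a e h1 h2 => Nat.sInf_le ⟨h1, h2⟩
  have hrfin : ∀ j, {a | r j a ≠ 1}.Finite := by
    intro j
    refine (hB k (E j) (U j) (htrE j) (hfinE j)).subset ?_
    intro a ha hsp
    apply ha
    exact le_antisymm (hmin j a 1 le_rfl ((spE_one _ _).2 hsp)) (hmem j a).1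
  have hrper : ∀ j, r (j + M) = r j := by
    intro j
    let e : E j ≃ₐ[k] E (j + M) := ((E j).equivMap T.φ).trans (equivOfEq (hE3 j).symm)
    have heU : e (U j) = U (j + M) := by
      apply Subtype.ext
      change T.φ (T.u j) = T.u (j + M)
      exact T.φu j
    have heU' : e.symm (U (j + M)) = U j := by rw [← heU]; simp
    funext a
    apply le_antisymm
    · refine hmin _ _ _ (hmem j a).1 ?_
      rw [← heU]
      exact spE_transport e (U j) a _ (hmem j a).2
    · refine hmin _ _ _ (hmem (j + M) a).1 ?_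
      rw [← heU']
      exact spE_transport e.symm (U (j + M)) a _ (hmem (j + M) a).2
  have hle : ∀ j, E (j + 1) ≤ E j := fun j => by
    have : E j = E (j + 1) ⊔ adjoin k {T.u j} := hE1 j
    rw [this]
    exact le_sup_left
  have hstep : ∀ (j : ℕ) (a : k), r (j + 1) (f.eval a) ≤ ram f a * r j a := by
    intro j a
    let _ : Algebra (E (j + 1)) (E j) := (inclusion (hle j)).toRingHom.toAlgebra
    have _ : IsScalarTower k (E (j + 1)) (E j) := IsScalarTower.of_algebraMap_eq (fun x => rfl)
    have _ : IsScalarTower (E (j + 1)) (E j) N := IsScalarTower.of_algebraMap_eq (fun x => rfl)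
    have h1 : algebraMap (E (j + 1)) (E j) (U (j + 1)) = aeval (U j) f := by
      apply Subtype.ext
      change T.u (j + 1) = (algebraMap (E j) N) (aeval (U j) f)
      rw [← aeval_algebraMap_apply]
      exact T.us j
    have h2 : (minpoly (E (j + 1)) (U j)).natDegree = f.natDegree := by
      rw [← hE2 j]
      congr 1
      exact (minpoly.algebraMap_eq (A := E (j + 1)) (algebraMap (E j) N).injective (U j)).symm
    have h4 : adjoin (E (j + 1)) {U j} = ⊤ := by
      rw [eq_top_iff]
      intro z _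
      let S : IntermediateField k N :=
        ((adjoin (E (j + 1)) {U j}).restrictScalars k).map (E j).val
      have hS : E j ≤ S := by
        have : E j = E (j + 1) ⊔ adjoin k {T.u j} := hE1 j
        rw [this]
        refine sup_le ?_ ?_
        · intro w hw
          refine ⟨algebraMap (E (j + 1)) (E j) ⟨w, hw⟩, ?_, rfl⟩
          exact (adjoin (E (j + 1)) {U j}).algebraMap_mem ⟨w, hw⟩
        · rw [adjoin_le_iff]
          intro w hw
          rw [Set.mem_singleton_iff.1 hw]
          exact ⟨U j, mem_adjoin_simple_self (E (j + 1)) (U j), rfl⟩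
      obtain ⟨w, hw, hwz⟩ := hS z.2
      have : w = z := Subtype.ext hwz
      rw [← this]
      exact hw
    have := h3 k (E (j + 1)) (E j) f (U j) (U (j + 1)) (by omega) h1 h4 h2 a (r j a)
      (hmem j a).1 (hmem j a).2
    exact hmin (j + 1) (f.eval a) _ (Nat.mul_pos (ram_pos f (by omega) a) (hmem j a).1) this
  rcases h5a k f M r hq hM (fun j a => (hmem j a).1) hrfin hrper hstep with hA | ⟨hA, hA'⟩
  · obtain ⟨a, ha⟩ := hA 0
    obtain ⟨L', i1, i2, ι, t, hι, ht⟩ := h6 k (E 0) (U 0) a (r 0 a) (htrE 0) (hfinE 0) (hmem 0 a).1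
      (fun b hb => by
        have h1 : r 0 b = 1 := by
          by_contra h
          exact hb (ha b h)
        have := (hmem 0 b).2
        rwa [h1] at this) (hmem 0 a).2
    let e : N ≃ₐ[k] E 0 :=
      (topEquiv (F := k) (E := N)).symm.trans (equivOfEq T.top.symm)
    refine ⟨a, r 0 a, L', i1, i2, ι.comp (e : N →ₐ[k] E 0), t, (hmem 0 a).1, ?_, ht⟩
    have h1 : e (T.u 0) = U 0 := by
      apply Subtype.ext
      rfl
    rw [← hι, ← h1]
    rfl
  · exact absurd (h5b k f r hq hA hA') hex

end Pool.DynLehmer.UN
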