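import Pool.Agent.Lib.MP_2194ec_nt.UN.PolIntegral
import Pool.Agent.Lib.MP_2194ec_nt.UN.PolSeries
import Pool.Agent.Lib.MP_2194ec_nt.UN.PolTower

set_option autoImplicit false

/-!
# Periodic pairs of a polynomial
-/

/-!
# Pairs of polynomials of the same degree whose relations are preserved
-/

namespace Pool.DynLehmer.UN.Y9h
open Polynomial

section Bound

variable {k : Type} [Field k]

/-- The degree of the image is at most `K` times the degree, up to a constant. -/
theorem bound (P Q P1 Q1 : k[X]) (K : ℕ) (hD : 1 ≤ P.natDegree)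
    (hP1 : P1.natDegree ≤ K * P.natDegree)
    (hrel : ∀ G : MvPolynomial (Fin 2) k, MvPolynomial.aeval ![P, Q] G = 0 →
      MvPolynomial.aeval ![P1, Q1] G = 0) :
    ∃ B : ℕ, ∀ G : MvPolynomial (Fin 2) k,
      (MvPolynomial.aeval ![P1, Q1] G).natDegree ≤
        K * (MvPolynomial.aeval ![P, Q] G).natDegree + B := by
  classical
  set D := P.natDegree with hDdef
  set e0 : MvPolynomial (Fin 2) k → k[X] := fun G => MvPolynomial.aeval ![P, Q] G with he0
  set e1 : MvPolynomial (Fin 2) k → k[X] := fun G => MvPolynomial.aeval ![P1, Q1] G with he1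
  -- minimal elements in each class
  have hmin : ∀ r : ℕ, ∃ G0 : MvPolynomial (Fin 2) k,
      ∀ G : MvPolynomial (Fin 2) k, e0 G ≠ 0 → (e0 G).natDegree % D = r →
        e0 G0 ≠ 0 ∧ (e0 G0).natDegree % D = r ∧ (e0 G0).natDegree ≤ (e0 G).natDegree := by
    intro r
    by_cases hex : ∃ n : ℕ, ∃ G : MvPolynomial (Fin 2) k, e0 G ≠ 0 ∧
        (e0 G).natDegree % D = r ∧ (e0 G).natDegree = n
    · obtain ⟨G0, h1, h2, h3⟩ := Nat.find_spec hex
      refine ⟨G0, fun G hG hGr => ⟨h1, h2, ?_⟩⟩
      rw [h3]
      exact Nat.find_min' hex ⟨G, hG, hGr, rfl⟩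
    · exact ⟨0, fun G hG hGr => absurd ⟨_, G, hG, hGr, rfl⟩ hex⟩
  choose Gm hGm using hmin
  refine ⟨(Finset.range D).sup fun r => (e1 (Gm r)).natDegree, ?_⟩
  set B := (Finset.range D).sup fun r => (e1 (Gm r)).natDegree with hB
  have hBle : ∀ r < D, (e1 (Gm r)).natDegree ≤ B := fun r hr =>
    Finset.le_sup (f := fun r => (e1 (Gm r)).natDegree) (Finset.mem_range.mpr hr)
  have hX0 : ∀ (c : k) (j : ℕ) (G : MvPolynomial (Fin 2) k),
      e0 (MvPolynomial.C c * MvPolynomial.X 0 ^ j * G) = C c * P ^ j * e0 G := by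
    intro c j G
    simp only [he0, map_mul, map_pow, MvPolynomial.aeval_X, MvPolynomial.algHom_C]
    rfl
  have hX1 : ∀ (c : k) (j : ℕ) (G : MvPolynomial (Fin 2) k),
      e1 (MvPolynomial.C c * MvPolynomial.X 0 ^ j * G) = C c * P1 ^ j * e1 G := by
    intro c j G
    simp only [he1, map_mul, map_pow, MvPolynomial.aeval_X, MvPolynomial.algHom_C]
    rfl
  have key : ∀ n : ℕ, ∀ G : MvPolynomial (Fin 2) k, (e0 G).natDegree = n →
      (e1 G).natDegree ≤ K * n + B := by
    intro n
    induction n using Nat.strong_induction_on with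
    | _ n ih =>
      intro G hGn
      by_cases hG : e0 G = 0
      · have : e1 G = 0 := hrel G hG
        rw [this]
        simp
      · obtain ⟨h1, h2, h3⟩ := hGm (n % D) G hG (by rw [hGn])
        set g := Gm (n % D) with hg
        have hdiv : ∃ j : ℕ, n = D * j + (e0 g).natDegree := by
          have h4 : D ∣ n - (e0 g).natDegree := by
            have := (Nat.modEq_iff_dvd' (by rw [← hGn]; exact h3)).mp
              (show (e0 g).natDegree ≡ n [MOD D] from h2)
            exact this
          obtain ⟨j, hj⟩ := h4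
          exact ⟨j, by omega⟩
        obtain ⟨j, hj⟩ := hdiv
        have hP0 : P ≠ 0 := by
          intro h
          rw [hDdef, h] at hD
          simp at hD
        set c : k := (e0 G).leadingCoeff / (P.leadingCoeff ^ j * (e0 g).leadingCoeff) with hc
        have hlc : P.leadingCoeff ^ j * (e0 g).leadingCoeff ≠ 0 :=
          mul_ne_zero (pow_ne_zero _ (leadingCoeff_ne_zero.mpr hP0)) (leadingCoeff_ne_zero.mpr h1)
        have hc0 : c ≠ 0 := div_ne_zero (leadingCoeff_ne_zero.mpr hG) hlc
        set T : MvPolynomial (Fin 2) k := MvPolynomial.C c * MvPolynomial.X 0 ^ j * g with hT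
        have hT0 : e0 T = C c * P ^ j * e0 g := hX0 c j g
        have hT1 : e1 T = C c * P1 ^ j * e1 g := hX1 c j g
        have hTdeg : (e0 T).natDegree = n := by
          rw [hT0, natDegree_mul (mul_ne_zero (C_ne_zero.mpr hc0) (pow_ne_zero _ hP0)) h1,
            natDegree_C_mul hc0, natDegree_pow, hj, mul_comm D j]
        have hTlc : (e0 T).leadingCoeff = (e0 G).leadingCoeff := by
          rw [hT0, leadingCoeff_mul, leadingCoeff_mul, leadingCoeff_C, leadingCoeff_pow, mul_assoc,
            hc, div_mul_cancel₀ _ hlc]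
        have hTne : e0 T ≠ 0 := by
          rw [hT0]
          exact mul_ne_zero (mul_ne_zero (C_ne_zero.mpr hc0) (pow_ne_zero _ hP0)) h1
        have hT1deg : (e1 T).natDegree ≤ K * n + B := by
          rw [hT1]
          have a1 : (C c * P1 ^ j * e1 g).natDegree ≤ (P1 ^ j).natDegree + (e1 g).natDegree :=
            (natDegree_mul_le).trans (by
              have := natDegree_C_mul_le c (P1 ^ j)
              omega)
          have a2 : (P1 ^ j).natDegree ≤ j * (K * D) :=
            (natDegree_pow_le).trans (Nat.mul_le_mul_left _ hP1)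
          have a3 : (e1 g).natDegree ≤ B := hBle _ (Nat.mod_lt _ (by omega))
          have a4 : j * (K * D) ≤ K * n := by
            rw [hj]
            nlinarith [Nat.zero_le (K * (e0 g).natDegree)]
          omega
        have hsub : e1 G = e1 (G - T) + e1 T := by
          simp only [he1, map_sub]
          ring
        have hsub0 : e0 (G - T) = e0 G - e0 T := by
          simp only [he0, map_sub]
        have hGT : (e1 (G - T)).natDegree ≤ K * n + B := by
          by_cases hz : e0 (G - T) = 0
          · have : e1 (G - T) = 0 := hrel _ hz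
            rw [this]
            simp
          · have hlt : (e0 (G - T)).natDegree < n := by
              have hd : (e0 G).degree = (e0 T).degree := by
                rw [degree_eq_natDegree hG, degree_eq_natDegree hTne, hGn, hTdeg]
              have := degree_sub_lt_left hd hG hTlc.symm
              rw [← hsub0] at this
              have h5 := natDegree_lt_natDegree hz this
              omega
            have := ih _ hlt (G - T) rfl
            have h6 : K * (e0 (G - T)).natDegree ≤ K * n := Nat.mul_le_mul_left _ hlt.le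
            omega
        rw [hsub]
        exact (natDegree_add_le _ _).trans (max_le hGT hT1deg)
  exact fun G => key _ G rfl

end Bound

section Geom

variable {k : Type} [Field k] [CharZero k]

/-- The degree of `F(Q) - F(R)` for `Q`, `R` with the same leading term. -/
theorem geom (F Q R : k[X]) (D : ℕ) (hD : 1 ≤ D) (hF : 1 ≤ F.natDegree) (hQ : Q.natDegree = D)
    (hR : R.natDegree = D) (hl : Q.leadingCoeff = R.leadingCoeff) (hne : Q - R ≠ 0) :
    (F.comp Q - F.comp R).natDegree = (F.natDegree - 1) * D + (Q - R).natDegree := by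
  classical
  set K := F.natDegree with hK
  set H : k[X] := ∑ i ∈ Finset.range (K + 1),
    C (F.coeff i) * ∑ j ∈ Finset.range i, Q ^ j * R ^ (i - 1 - j) with hH
  have hfac : F.comp Q - F.comp R = H * (Q - R) := by
    have e1 : ∀ S : k[X], F.comp S = ∑ i ∈ Finset.range (K + 1), C (F.coeff i) * S ^ i := by
      intro S
      rw [comp, eval₂_eq_sum_range]
    rw [e1, e1, hH, ← Finset.sum_sub_distrib, Finset.sum_mul]
    refine Finset.sum_congr rfl fun i _ => ?_
    rw [mul_assoc, (Commute.all Q R).geom_sum₂_mul]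
    ring
  have hQ0 : Q ≠ 0 := by
    intro h
    rw [h] at hQ
    simp at hQ
    omega
  have hQl : Q.leadingCoeff ≠ 0 := leadingCoeff_ne_zero.mpr hQ0
  have hF0 : F.coeff K ≠ 0 := by
    rw [hK, coeff_natDegree]
    apply leadingCoeff_ne_zero.mpr
    intro h
    rw [hK, h] at hF
    simp at hF
  have hterm : ∀ i j : ℕ, j < i → (Q ^ j * R ^ (i - 1 - j)).natDegree ≤ (i - 1) * D := by
    intro i j hj
    refine (natDegree_mul_le).trans ?_
    have a1 : (Q ^ j).natDegree ≤ j * D := (natDegree_pow_le).trans (by rw [hQ])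
    have a2 : (R ^ (i - 1 - j)).natDegree ≤ (i - 1 - j) * D :=
      (natDegree_pow_le).trans (by rw [hR])
    have a3 : j * D + (i - 1 - j) * D = (i - 1) * D := by
      rw [← add_mul]
      congr 1
      omega
    omega
  have hsum : ∀ i : ℕ, (C (F.coeff i) * ∑ j ∈ Finset.range i, Q ^ j * R ^ (i - 1 - j)).natDegree ≤
      (i - 1) * D := by
    intro i
    refine (natDegree_C_mul_le _ _).trans ?_
    apply natDegree_sum_le_of_forall_le
    intro j hj
    exact hterm i j (Finset.mem_range.mp hj)
  have hHle : H.natDegree ≤ (K - 1) * D := by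
    apply natDegree_sum_le_of_forall_le
    intro i hi
    refine (hsum i).trans (Nat.mul_le_mul_right _ ?_)
    have := Finset.mem_range.mp hi
    omega
  have hHc : H.coeff ((K - 1) * D) = F.coeff K * (K * Q.leadingCoeff ^ (K - 1)) := by
    rw [hH, finsetSum_coeff, Finset.sum_range_succ, Finset.sum_eq_zero, zero_add, coeff_C_mul,
      finsetSum_coeff]
    · congr 1
      rw [Finset.sum_congr rfl (g := fun _ => Q.leadingCoeff ^ (K - 1))]
      · simp
      · intro j hj
        have hj' := Finset.mem_range.mp hj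
        have e : (K - 1) * D = j * D + (K - 1 - j) * D := by
          rw [← add_mul]
          congr 1
          omega
        rw [e, coeff_mul_add_eq_of_natDegree_le (df := j * D) (dg := (K - 1 - j) * D)
          ((natDegree_pow_le).trans (by rw [hQ])) ((natDegree_pow_le).trans (by rw [hR]))]
        have c1 : (Q ^ j).coeff (j * D) = Q.leadingCoeff ^ j := by
          rw [← hQ, coeff_pow_mul_natDegree]
        have c2 : (R ^ (K - 1 - j)).coeff ((K - 1 - j) * D) = Q.leadingCoeff ^ (K - 1 - j) := by
          rw [← hR, coeff_pow_mul_natDegree, hl]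
        rw [c1, c2, ← pow_add]
        congr 1
        omega
    · intro i hi
      have hi' := Finset.mem_range.mp hi
      by_cases h0 : i = 0
      · subst h0
        simp
      · apply coeff_eq_zero_of_natDegree_lt
        refine lt_of_le_of_lt (hsum i) ?_
        exact Nat.mul_lt_mul_of_pos_right (by omega) (by omega)
  have hHne : H.coeff ((K - 1) * D) ≠ 0 := by
    rw [hHc]
    refine mul_ne_zero hF0 (mul_ne_zero ?_ (pow_ne_zero _ hQl))
    exact Nat.cast_ne_zero.mpr (by omega)
  have hHd : H.natDegree = (K - 1) * D := le_antisymm hHle (le_natDegree_of_ne_zero hHne)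
  have hH0 : H ≠ 0 := by
    intro h
    rw [h] at hHne
    simp at hHne
  rw [hfac, natDegree_mul hH0 hne, hHd]

end Geom

section Iter

variable {k : Type} [Field k]

theorem iter (f : k[X]) (M : ℕ) : ∃ F : k[X], F.natDegree = f.natDegree ^ M ∧
    ∀ z : k[X], (fun z => aeval z f)^[M] z = F.comp z := by
  induction M with
  | zero => exact ⟨X, by simp, fun z => by simp⟩
  | succ M ih =>
    obtain ⟨F, hF, h⟩ := ih
    refine ⟨f.comp F, by rw [natDegree_comp, hF, pow_succ, mul_comm], fun z => ?_⟩
    rw [Function.iterate_succ_apply', h, comp_assoc]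
    rfl

end Iter

end Pool.DynLehmer.UN.Y9h

namespace Pool.DynLehmer.UN
open Polynomial Y9h

theorem y9 : Y9Statement := by
  intro k _ _ _ f M P Q hf hM hP hPQ hrel
  obtain ⟨F, hFd, hF⟩ := iter f M
  set D := P.natDegree with hD
  have hK : 2 ≤ F.natDegree := by
    rw [hFd]
    calc 2 ≤ f.natDegree := hf
      _ = f.natDegree ^ 1 := (pow_one _).symm
      _ ≤ f.natDegree ^ M := Nat.pow_le_pow_right (by omega) hM
  set K := F.natDegree with hKdef
  have hP0 : P ≠ 0 := by
    intro h
    rw [hD, h] at hP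
    simp at hP
  have hQ0 : Q ≠ 0 := by
    intro h
    rw [h] at hPQ
    simp at hPQ
    omega
  set ω : k := Q.leadingCoeff / P.leadingCoeff with hω
  have hPl : P.leadingCoeff ≠ 0 := leadingCoeff_ne_zero.mpr hP0
  have hω0 : ω ≠ 0 := div_ne_zero (leadingCoeff_ne_zero.mpr hQ0) hPl
  set R : k[X] := C ω * P with hR
  have hRd : R.natDegree = D := natDegree_C_mul hω0
  have hRl : Q.leadingCoeff = R.leadingCoeff := by
    rw [hR, leadingCoeff_mul, leadingCoeff_C, hω, div_mul_cancel₀ _ hPl]
  have hR0 : R ≠ 0 := mul_ne_zero (C_ne_zero.mpr hω0) hP0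
  by_cases hw : (Q - R).natDegree = 0
  · obtain ⟨β, hβ⟩ := natDegree_eq_zero.mp hw
    exact ⟨ω, β, by rw [hβ]; ring⟩
  exfalso
  have hw0 : Q - R ≠ 0 := by
    intro h
    rw [h] at hw
    simp at hw
  set l := (Q - R).natDegree with hl
  have hlD : l < D := by
    have hd : Q.degree = R.degree := by
      rw [degree_eq_natDegree hQ0, degree_eq_natDegree hR0, hRd, ← hPQ]
    have := degree_sub_lt_left hd hQ0 hRl
    have h5 := natDegree_lt_natDegree hw0 this
    omega
  obtain ⟨B, hB⟩ := bound P Q (F.comp P) (F.comp Q) K hP (by rw [natDegree_comp]) (by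
    intro G hG
    have := hrel G hG
    rwa [hF, hF] at this)
  -- the image of `w`
  have hd : (F.comp Q - C ω * F.comp P).natDegree ≤ K * l := by
    by_contra hcon
    push Not at hcon
    have h1 := hB ((MvPolynomial.X 1 - MvPolynomial.C ω * MvPolynomial.X 0) ^ (B + 1))
    have e1 : MvPolynomial.aeval ![F.comp P, F.comp Q]
        ((MvPolynomial.X 1 - MvPolynomial.C ω * MvPolynomial.X 0) ^ (B + 1) :
          MvPolynomial (Fin 2) k) = (F.comp Q - C ω * F.comp P) ^ (B + 1) := by
      simp only [map_mul, map_pow, map_sub, MvPolynomial.aeval_X, MvPolynomial.algHom_C]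
      rfl
    have e0 : MvPolynomial.aeval ![P, Q]
        ((MvPolynomial.X 1 - MvPolynomial.C ω * MvPolynomial.X 0) ^ (B + 1) :
          MvPolynomial (Fin 2) k) = (Q - R) ^ (B + 1) := by
      simp only [map_mul, map_pow, map_sub, MvPolynomial.aeval_X, MvPolynomial.algHom_C]
      rfl
    rw [e1, e0, natDegree_pow, natDegree_pow, ← hl] at h1
    nlinarith [h1, hcon]
  -- lower bound
  have hlow : (K - 1) * D + l ≤ (F.comp Q - C ω * F.comp P).natDegree := by
    have hg := geom F Q R D hP (by omega) hPQ.symm hRd hRl hw0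
    rw [← hKdef, ← hl] at hg
    set R2 : k[X] := F.comp (C ω * X) - C ω * F with hR2
    have hR2c : R2.comp P = F.comp R - C ω * F.comp P := by
      rw [hR2, sub_comp, comp_assoc, mul_comp, C_comp, mul_comp, C_comp, X_comp]
    have hsum : F.comp Q - C ω * F.comp P = (F.comp Q - F.comp R) + R2.comp P := by
      rw [hR2c]
      ring
    have hR2d : R2.natDegree ≤ K := by
      rw [hR2]
      refine (natDegree_sub_le _ _).trans (max_le ?_ (natDegree_C_mul_le _ _))
      rw [natDegree_comp, natDegree_C_mul_X _ hω0, mul_one]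
    rw [hsum]
    rcases Nat.lt_or_ge R2.natDegree K with h | h
    · have h2 : (R2.comp P).natDegree ≤ (K - 1) * D := by
        rw [natDegree_comp]
        exact Nat.mul_le_mul_right _ (by omega)
      rw [natDegree_add_eq_left_of_natDegree_lt (by rw [hg]; omega), hg]
    · have h3 : R2.natDegree = K := le_antisymm hR2d h
      have h2 : (R2.comp P).natDegree = K * D := by
        rw [natDegree_comp, h3]
      have h4 : (K - 1) * D + D = K * D := by
        obtain ⟨K', hK'⟩ := Nat.exists_eq_add_of_le' (show 1 ≤ K by omega)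
        rw [hK', Nat.add_sub_cancel]
        ring
      rw [natDegree_add_eq_right_of_natDegree_lt (by rw [hg, h2]; omega), h2]
      omega
  have h1 : (K - 1) * D + l ≤ K * l := hlow.trans hd
  obtain ⟨K', hK'⟩ := Nat.exists_eq_add_of_le' (show 1 ≤ K by omega)
  rw [hK', Nat.add_sub_cancel] at h1
  have hK'1 : 1 ≤ K' := by omega
  nlinarith [h1, hlD, hK'1]

end Pool.DynLehmer.UN

/-!
# Row SYM of PLAN POLY: the symmetries of the iterates of a polynomial
-/

namespace Pool.DynLehmer.UN
open Polynomial

namespace Sy8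

variable {k : Type} [Field k]

/-- the iterates commute with `f` -/
theorem iter_comp (f : k[X]) (M : ℕ) (p : k[X]) : ((f.comp)^[M] X).comp p = (f.comp)^[M] p := by
  induction M with
  | zero => simp
  | succ M ih => rw [Function.iterate_succ_apply', Function.iterate_succ_apply', comp_assoc, ih]

theorem iter_comm (f : k[X]) (M : ℕ) : ((f.comp)^[M] X).comp f = f.comp ((f.comp)^[M] X) := by
  rw [iter_comp, ← Function.iterate_succ_apply' f.comp, Function.iterate_succ_apply]
  rw [comp_X]

theorem aeval_iter (f : k[X]) (M : ℕ) (p : k[X]) :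
    (fun z : k[X] => aeval z f)^[M] p = ((f.comp)^[M] X).comp p := by
  rw [iter_comp]
  rfl

theorem relP_comp (f F P Q : k[X]) (M : ℕ) (hF : F = (f.comp)^[M] X) (hP : F.comp P = P.comp F)
    (hQ : F.comp Q = Q.comp F) : RelP f M P Q := by
  intro G hG
  rw [aeval_iter, aeval_iter, ← hF, hP, hQ]
  have h1 := MvPolynomial.comp_aeval_apply (R := k) ![P, Q] (aeval F : k[X] →ₐ[k] k[X]) G
  rw [hG, map_zero] at h1
  have h2 : (fun i => (aeval F : k[X] →ₐ[k] k[X]) ((![P, Q] : Fin 2 → k[X]) i)) =
      ![P.comp F, Q.comp F] := by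
    funext i
    fin_cases i <;> rfl
  rw [h2] at h1
  exact h1.symm

/-- cancellation of a nonconstant polynomial -/
theorem comp_cancel {p q f : k[X]} (hf : 1 ≤ f.natDegree) (h : p.comp f = q.comp f) : p = q := by
  have h1 : (p - q).comp f = 0 := by rw [sub_comp, h, sub_self]
  rcases comp_eq_zero_iff.1 h1 with h2 | ⟨-, h2⟩
  · exact sub_eq_zero.1 h2
  · rw [h2, natDegree_C] at hf
    omega

theorem lin_comp (a b : k) (p : k[X]) : (C a * X + C b).comp p = C a * p + C b := by simp

/-- the symmetries are normalized by `f` -/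
theorem norm (h9 : Y9Statement) [IsAlgClosed k] [CharZero k] (f : k[X]) (hf : 2 ≤ f.natDegree)
    (σ : k × k) (hσ : σ ∈ SymP f) :
    ∃ τ ∈ SymP f, f.comp (C σ.1 * X + C σ.2) = C τ.1 * f + C τ.2 := by
  obtain ⟨hσ0, M, hM, hc⟩ := hσ
  set F := (f.comp)^[M] X with hF
  set L : k[X] := C σ.1 * X + C σ.2 with hL
  have hcomm : F.comp f = f.comp F := iter_comm f M
  have hL1 : L.comp F = C σ.1 * F + C σ.2 := lin_comp _ _ _
  have hc' : F.comp L = L.comp F := by rw [hc, hL1]
  have hdL : L.natDegree = 1 := natDegree_linear hσ0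
  have hQ : F.comp (f.comp L) = (f.comp L).comp F := by
    rw [← comp_assoc, hcomm, comp_assoc, hc', ← comp_assoc]
  obtain ⟨w, b, h1⟩ := h9 k f M f (f.comp L) hf hM (by omega)
    (by rw [natDegree_comp, hdL, mul_one]) (relP_comp f F f (f.comp L) M hF hcomm hQ)
  refine ⟨(w, b), ⟨?_, M, hM, ?_⟩, h1⟩
  · rintro (rfl : w = 0)
    have h2 := congrArg natDegree h1
    rw [natDegree_comp, hdL, mul_one, map_zero, zero_mul, zero_add, natDegree_C] at h2
    omega
  · show F.comp (C w * X + C b) = C w * F + C b
    apply comp_cancel (f := f) (by omega)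
    rw [comp_assoc, lin_comp, ← h1, ← comp_assoc, hcomm, comp_assoc, hc', ← comp_assoc, h1,
      add_comp, mul_comp, C_comp, C_comp, add_comp, mul_comp, C_comp, C_comp, hcomm]

/-- the two leading coefficients of `f (X + r)` -/
theorem coeff_top (f : k[X]) (m : ℕ) (hf : f.natDegree = m + 1) (r : k) :
    (taylor r f).coeff (m + 1) = f.coeff (m + 1) := by
  rw [taylor_coeff, eval_eq_sum_range' (n := 1)]
  · simp [hasseDeriv_coeff]
  · have := natDegree_hasseDeriv_le f (m + 1)
    omega

theorem coeff_next (f : k[X]) (m : ℕ) (hf : f.natDegree = m + 1) (r : k) :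
    (taylor r f).coeff m = f.coeff m + ((m + 1 : ℕ) : k) * f.coeff (m + 1) * r := by
  rw [taylor_coeff, eval_eq_sum_range' (n := 2)]
  · rw [Finset.sum_range_succ, Finset.sum_range_one, hasseDeriv_coeff, hasseDeriv_coeff]
    rw [zero_add, Nat.choose_self, pow_zero, pow_one, add_comm 1 m, Nat.choose_succ_self_right]
    simp
  · have := natDegree_hasseDeriv_le f m
    omega

theorem comp_lin_coeff (f : k[X]) (w b : k) (n : ℕ) :
    (f.comp (C w * X + C b)).coeff n = (taylor b f).coeff n * w ^ n := by
  have h1 : f.comp (C w * X + C b) = (taylor b f).comp (C w * X) := by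
    rw [taylor_apply, comp_assoc]
    congr 1
    simp
  rw [h1, comp_C_mul_X_coeff]

/-- the multiplier and the fixed point of a symmetry -/
theorem shape [CharZero k] (f : k[X]) (m : ℕ) (hm : 1 ≤ m) (hf : f.natDegree = m + 1) (w b t c : k)
    (hw : w ≠ 0) (h : f.comp (C w * X + C b) = C t * f + C c) :
    t = w ^ (m + 1) ∧ b = (1 - w) * (-(f.coeff m) / (((m + 1 : ℕ) : k) * f.coeff (m + 1))) := by
  have hlc : f.coeff (m + 1) ≠ 0 := by
    rw [← hf]
    exact leadingCoeff_ne_zero.2 (by rintro rfl; rw [natDegree_zero] at hf; omega)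
  have hm1 : ((m + 1 : ℕ) : k) ≠ 0 := Nat.cast_ne_zero.2 (by omega)
  have h1 := congrArg (fun p => coeff p (m + 1)) h
  have h2 := congrArg (fun p => coeff p m) h
  rw [comp_lin_coeff, coeff_top f m hf, coeff_add, coeff_C_mul, coeff_C, if_neg (by omega),
    add_zero] at h1
  rw [comp_lin_coeff, coeff_next f m hf, coeff_add, coeff_C_mul, coeff_C, if_neg (by omega),
    add_zero] at h2
  have ht : t = w ^ (m + 1) := by
    apply mul_right_cancel₀ hlc
    rw [← h1]
    ring
  refine ⟨ht, ?_⟩
  have h3 : ((m + 1 : ℕ) : k) * f.coeff (m + 1) * b = (w - 1) * f.coeff m := by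
    apply mul_right_cancel₀ (pow_ne_zero m hw)
    have : t = w * w ^ m := by rw [ht, pow_succ]; ring
    rw [this] at h2
    linear_combination h2
  have h4 : ((m + 1 : ℕ) : k) * f.coeff (m + 1) ≠ 0 := mul_ne_zero hm1 hlc
  field_simp
  linear_combination h3

end Sy8

open Sy8 in
theorem sym (h9 : Y9Statement) : SymStatement := by
  intro k _ _ _ f hf hE
  refine ⟨?_, fun σ hσ => norm h9 f hf σ hσ⟩
  obtain ⟨m, hm, hdeg⟩ : ∃ m, 1 ≤ m ∧ f.natDegree = m + 1 := ⟨f.natDegree - 1, by omega, by omega⟩
  set s : k := -(f.coeff m) / (((m + 1 : ℕ) : k) * f.coeff (m + 1)) with hs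
  set g := taylor s f with hg
  -- the relation for `g`
  have key : ∀ σ ∈ SymP f, σ.2 = (1 - σ.1) * s ∧ σ.1 ≠ 0 ∧
      ∃ τ ∈ SymP f, τ.1 = σ.1 ^ (m + 1) ∧ g.comp (C σ.1 * X) = C τ.1 * g + C τ.2 := by
    intro σ hσ
    obtain ⟨τ, hτ, h⟩ := norm h9 f hf σ hσ
    obtain ⟨h1, h2⟩ := shape f m hm hdeg σ.1 σ.2 τ.1 τ.2 hσ.1 h
    refine ⟨h2, hσ.1, τ, hτ, h1, ?_⟩
    have h3 := congrArg (fun p => p.comp (X + C s)) h
    simp only [add_comp, mul_comp, C_comp] at h3
    rw [hg, taylor_apply, ← h3, comp_assoc, comp_assoc]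
    congr 1
    rw [h2]
    simp only [add_comp, mul_comp, C_comp, X_comp]
    rw [map_mul, map_sub, map_one]
    ring
  -- all multipliers are roots of unity of a fixed order
  obtain ⟨n, hn, hroot⟩ : ∃ n, 1 ≤ n ∧ ∀ σ ∈ SymP f, σ.1 ^ n = 1 := by
    by_cases hcase : ∃ i, 1 ≤ i ∧ i < m + 1 ∧ g.coeff i ≠ 0
    · obtain ⟨i, hi, him, hgi⟩ := hcase
      refine ⟨m + 1 - i, by omega, fun σ hσ => ?_⟩
      obtain ⟨-, h0, τ, -, h1, h2⟩ := key σ hσ
      have h3 := congrArg (fun p => coeff p i) h2
      rw [comp_C_mul_X_coeff, coeff_add, coeff_C_mul, coeff_C, if_neg (by omega), add_zero,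
        mul_comm] at h3
      have h4 := mul_right_cancel₀ hgi h3
      rw [h1] at h4
      have h5 : σ.1 ^ (m + 1) = σ.1 ^ i * σ.1 ^ (m + 1 - i) := by
        rw [← pow_add]
        congr 1
        omega
      rw [h5] at h4
      have h6 : σ.1 ^ i * 1 = σ.1 ^ i * σ.1 ^ (m + 1 - i) := by rw [mul_one]; exact h4
      exact (mul_left_cancel₀ (pow_ne_zero i h0) h6).symm
    · push Not at hcase
      have hgd : g.natDegree = m + 1 := by rw [hg, natDegree_taylor, hdeg]
      have hform : g = C (g.coeff (m + 1)) * X ^ (m + 1) + C (g.coeff 0) := by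
        ext i
        rw [coeff_add, coeff_C_mul, coeff_X_pow, coeff_C]
        rcases Nat.eq_zero_or_pos i with rfl | hi
        · simp
        · rcases lt_trichotomy i (m + 1) with h | h | h
          · rw [hcase i hi h, if_neg (by omega), if_neg (by omega)]
            simp
          · subst h
            simp
          · rw [coeff_eq_zero_of_natDegree_lt (by omega), if_neg (by omega), if_neg (by omega)]
            simp
      have hne : g.coeff 0 ≠ s := by
        intro h0
        apply hE
        have hff : f = C (g.coeff (m + 1)) * (X - C s) ^ (m + 1) + C s := by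
          have h1 : f = g.comp (X - C s) := by
            rw [hg, taylor_apply, comp_assoc]
            simp
          rw [h1]
          conv_lhs => rw [hform]
          rw [h0]
          simp
        refine ⟨(X - C s) ^ 2, by rw [natDegree_pow, natDegree_X_sub_C], ?_⟩
        rw [hdeg]
        generalize g.coeff (m + 1) = a at hff
        rw [hff]
        simp only [derivative_add, derivative_mul, derivative_C, zero_mul, zero_add, add_zero,
          derivative_pow, derivative_sub, derivative_X, sub_zero, mul_one, sub_comp, pow_comp,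
          X_comp, C_comp, Nat.add_sub_cancel]
        rw [map_pow, map_natCast]
        ring
      refine ⟨m + 1, by omega, fun σ hσ => ?_⟩
      obtain ⟨-, h0, τ, hτ, h1, h2⟩ := key σ hσ
      obtain ⟨h3, -, -⟩ := key τ hτ
      have h4 := congrArg (fun p => coeff p 0) h2
      rw [comp_C_mul_X_coeff, coeff_add, coeff_C_mul, coeff_C, if_pos rfl, pow_zero, mul_one,
        h3] at h4
      have h5 : (1 - τ.1) * (g.coeff 0 - s) = 0 := by linear_combination h4
      rcases mul_eq_zero.1 h5 with h6 | h6
      · rw [← h1]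
        exact (sub_eq_zero.1 h6).symm
      · exact absurd (sub_eq_zero.1 h6) hne
  have hfin : {w : k | w ^ n = 1}.Finite := by
    classical
    have : {w : k | w ^ n = 1} ⊆ ((X ^ n - C 1 : k[X]).roots.toFinset : Set k) := by
      intro w hw
      have hn0 : 0 < n := hn
      rw [Finset.mem_coe, Multiset.mem_toFinset, mem_roots (X_pow_sub_C_ne_zero hn0 (1 : k))]
      simp only [IsRoot, eval_sub, eval_pow, eval_X, eval_C]
      rw [show w ^ n = 1 from hw, sub_self]
    exact (Finset.finite_toSet _).subset this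
  refine (hfin.image fun w => (w, (1 - w) * s)).subset fun σ hσ => ?_
  exact ⟨σ.1, hroot σ hσ, Prod.ext rfl (key σ hσ).1.symm⟩

end Pool.DynLehmer.UN

/-!
# Periodic pairs of a polynomial with equal degrees
-/

namespace Pool.DynLehmer.UN
open Polynomial IntermediateField

namespace PP

/-! ### Relations -/

section rel
variable {k : Type} [Field k] {N N' : Type} [CommRing N] [Algebra k N] [CommRing N'] [Algebra k N']

theorem aeval_it (f : k[X]) (n : ℕ) (z : N) :
    aeval z ((f.comp)^[n] X) = (fun z => aeval z f)^[n] z := by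
  induction n with
  | zero => simp
  | succ n ih => rw [Function.iterate_succ_apply', Function.iterate_succ_apply', aeval_comp, ih]

theorem map_it (φ : N →ₐ[k] N') (f : k[X]) (n : ℕ) (z : N) :
    φ ((fun z => aeval z f)^[n] z) = (fun z => aeval z f)^[n] (φ z) := by
  rw [← aeval_it, ← aeval_it, aeval_algHom_apply]

theorem sub2 (G : MvPolynomial (Fin 2) k) (a b : k[X]) : ∃ H : MvPolynomial (Fin 2) k,
    ∀ x y : N, MvPolynomial.aeval ![x, y] H = MvPolynomial.aeval ![aeval x a, aeval y b] G := by
  refine ⟨MvPolynomial.bind₁ ![aeval (MvPolynomial.X 0) a, aeval (MvPolynomial.X 1) b] G, ?_⟩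
  intro x y
  rw [MvPolynomial.aeval_bind₁]
  have h : (fun i => MvPolynomial.aeval ![x, y] ((![aeval (MvPolynomial.X 0) a,
      aeval (MvPolynomial.X 1) b] : Fin 2 → MvPolynomial (Fin 2) k) i)) =
      ![aeval x a, aeval y b] := by
    funext i
    fin_cases i
    · show MvPolynomial.aeval ![x, y] (aeval (MvPolynomial.X 0) a) = aeval x a
      rw [← aeval_algHom_apply, MvPolynomial.aeval_X]
      rfl
    · show MvPolynomial.aeval ![x, y] (aeval (MvPolynomial.X 1) b) = aeval y b
      rw [← aeval_algHom_apply, MvPolynomial.aeval_X]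
      rfl
  rw [h]

theorem aeval_map2 (φ : N →ₐ[k] N') (x y : N) (G : MvPolynomial (Fin 2) k) :
    MvPolynomial.aeval ![φ x, φ y] G = φ (MvPolynomial.aeval ![x, y] G) := by
  rw [MvPolynomial.comp_aeval_apply]
  have h : (![φ x, φ y] : Fin 2 → N') = fun i => φ ((![x, y] : Fin 2 → N) i) := by
    funext i
    fin_cases i <;> rfl
  rw [h]

theorem relp_inj {φ : N →ₐ[k] N'} (hφ : Function.Injective φ) {f : k[X]} {M : ℕ} {x y : N}
    (h : RelP f M (φ x) (φ y)) : RelP f M x y := by
  intro G hG
  have h1 := h G (by rw [aeval_map2, hG, map_zero])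
  rw [← map_it, ← map_it, aeval_map2] at h1
  exact hφ (by rw [h1, map_zero])

theorem relp_push {φ : N →ₐ[k] N'} (hφ : Function.Injective φ) {f : k[X]} {M : ℕ} {x y : N}
    (h : RelP f M x y) : RelP f M (φ x) (φ y) := by
  intro G hG
  rw [aeval_map2] at hG
  rw [← map_it, ← map_it, aeval_map2, h G (hφ (by rw [hG, map_zero])), map_zero]

theorem relp_it {f : k[X]} {M : ℕ} {x y : N} (h : RelP f M x y) (n : ℕ) :
    RelP f (n * M) x y := by
  intro G hG
  induction n with
  | zero => simpa using hG
  | succ n ih =>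
    obtain ⟨H, hH⟩ := sub2 (N := N) G ((f.comp)^[n * M] X) ((f.comp)^[n * M] X)
    have h1 := h H (by rw [hH, aeval_it, aeval_it]; exact ih)
    rw [hH, aeval_it, aeval_it, ← Function.iterate_add_apply, ← Function.iterate_add_apply] at h1
    rwa [Nat.succ_mul]

theorem relp_sh {f : k[X]} {M : ℕ} {x y : N} (h : RelP f M x y) (n : ℕ) :
    RelP f M ((fun z => aeval z f)^[n] x) ((fun z => aeval z f)^[n] y) := by
  intro G hG
  obtain ⟨H, hH⟩ := sub2 (N := N) G ((f.comp)^[n] X) ((f.comp)^[n] X)
  have h1 := h H (by rw [hH, aeval_it, aeval_it]; exact hG)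
  rw [hH, aeval_it, aeval_it, ← Function.iterate_add_apply, ← Function.iterate_add_apply] at h1
  rwa [← Function.iterate_add_apply, ← Function.iterate_add_apply, add_comm M n]

end rel

/-! ### Degrees -/

section deg
variable {k L : Type} [Field k] [Field L] [Algebra k L]

/-- the embedding of the rational functions -/
noncomputable def io {z : L} (hz : Transcendental k z) : RatFunc k →ₐ[k] L :=
  IsFractionRing.liftAlgHom (K := RatFunc k) (g := (aeval z : k[X] →ₐ[k] L))
    (transcendental_iff_injective.1 hz)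

theorem io_map {z : L} (hz : Transcendental k z) (f : k[X]) :
    io hz (algebraMap k[X] (RatFunc k) f) = aeval z f := by
  rw [io, IsFractionRing.liftAlgHom_apply, IsFractionRing.lift_algebraMap]
  rfl

theorem io_X {z : L} (hz : Transcendental k z) : io hz RatFunc.X = z := by
  rw [← RatFunc.algebraMap_X, io_map, aeval_X]

theorem io_top {z : L} (hz : Transcendental k z) :
    (⊤ : IntermediateField k (RatFunc k)).map (io hz) = adjoin k {z} := by
  rw [← RatFunc.adjoin_X, adjoin_map, Set.image_singleton, io_X]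

/-- `[k(z) : k(f(z))] = deg f` -/
theorem relfinrank_aeval (f : k[X]) {z : L} (hz : Transcendental k z) :
    relfinrank (adjoin k {aeval z f}) (adjoin k {z}) = f.natDegree := by
  have h2 : adjoin k {aeval z f} = (adjoin k {algebraMap k[X] (RatFunc k) f}).map (io hz) := by
    rw [adjoin_map, Set.image_singleton, io_map]
  rw [← io_top hz, h2, relfinrank_map_map, relfinrank_top_right, RatFunc.finrank_eq_max_natDegree,
    RatFunc.num_algebraMap, RatFunc.denom_algebraMap, natDegree_one, Nat.max_zero]

/-- polynomials are the integral elements of `k(t)` -/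
theorem itg_range {t g : L} (ht : Transcendental k t) (h1 : adjoin k {t} = ⊤) (h : Itg k t g) :
    ∃ Q : k[X], aeval t Q = g := by
  have h2 : g ∈ (⊤ : IntermediateField k (RatFunc k)).map (io ht) := by
    rw [io_top, h1]; exact mem_top
  obtain ⟨r, -, hr⟩ := h2
  have hr' : io ht r = g := hr
  have h3 : Itg k (RatFunc.X : RatFunc k) r := by
    have h4 := (itg_map_iff (io ht) RatFunc.X r).1
    rw [io_X, hr'] at h4
    exact h4 h
  have h5 : ((aeval (RatFunc.X : RatFunc k) : k[X] →ₐ[k] RatFunc k) : k[X] →+* RatFunc k) =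
      algebraMap k[X] (RatFunc k) := by
    apply Polynomial.ringHom_ext
    · intro a
      simp
    · simp
  have h6 : IsIntegral k[X] r := by
    rw [Itg, h5] at h3
    exact h3
  obtain ⟨Q, hQ⟩ := IsIntegrallyClosed.isIntegral_iff.1 h6
  exact ⟨Q, by rw [← hr', ← hQ, io_map]⟩

theorem trans_it {f : k[X]} (hf : 1 ≤ f.natDegree) {z : L} (hz : Transcendental k z) (n : ℕ) :
    Transcendental k ((fun z => aeval z f)^[n] z) := by
  induction n with
  | zero => exact hz
  | succ n ih =>
    rw [Function.iterate_succ_apply']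
    rintro ⟨g, hg, h⟩
    refine ih ⟨g.comp f, ?_, ?_⟩
    · intro h0
      rw [comp_eq_zero_iff] at h0
      rcases h0 with h0 | ⟨-, h0⟩
      · exact hg h0
      · rw [h0, natDegree_C] at hf
        omega
    · rw [aeval_comp]; exact h

end deg

/-! ### The pair -/

section main
variable {k N : Type} [Field k] [Field N] [Algebra k N]

/-- an element which is affine in `x` on the iterates is affine in `x` -/
theorem eq_of_it {f : k[X]} {M : ℕ} {x y : N} (hf : 1 ≤ f.natDegree) (hx : Transcendental k x)
    (hxy : IsAlgebraic (adjoin k {x}) y) (hR : RelP f M x y) (n : ℕ) (ω β : k)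
    (h : (fun z => aeval z f)^[n * M] y =
      algebraMap k N ω * (fun z => aeval z f)^[n * M] x + algebraMap k N β) :
    y = algebraMap k N ω * x + algebraMap k N β := by
  by_contra hne
  set z : N := y - (algebraMap k N ω * x + algebraMap k N β) with hz
  have hz0 : z ≠ 0 := sub_ne_zero.2 hne
  -- `z` is algebraic over `k[X]`
  let _ : Algebra k[X] N := ((aeval x : k[X] →ₐ[k] N) : k[X] →+* N).toAlgebra
  have hzK : IsAlgebraic (adjoin k {x}) z := by
    refine hxy.sub ?_
    exact isAlgebraic_algebraMap (A := N)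
      (⟨algebraMap k N ω * x + algebraMap k N β, add_mem (mul_mem (_root_.algebraMap_mem _ ω)
        (mem_adjoin_simple_self k x)) (_root_.algebraMap_mem _ β)⟩ : adjoin k {x})
  have hzA : IsAlgebraic k[X] z := by
    let x' : adjoin k {x} := ⟨x, mem_adjoin_simple_self k x⟩
    let _ : Algebra k[X] (adjoin k {x}) :=
      ((aeval x' : k[X] →ₐ[k] adjoin k {x}) : k[X] →+* adjoin k {x}).toAlgebra
    have hv : ∀ p : k[X], aeval x p = ((aeval x' p : adjoin k {x}) : N) :=
      fun p => aeval_algHom_apply (adjoin k {x}).val x' p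
    have hT : IsScalarTower k[X] (adjoin k {x}) N := IsScalarTower.of_algebraMap_eq hv
    have hF : Algebra.IsAlgebraic k[X] (adjoin k {x}) := by
      refine ⟨fun w => ?_⟩
      obtain ⟨r, s, hrs⟩ := (mem_adjoin_simple_iff k w.1).1 w.2
      have h1 : w = algebraMap k[X] (adjoin k {x}) r * (algebraMap k[X] (adjoin k {x}) s)⁻¹ := by
        apply Subtype.ext
        rw [hrs, div_eq_mul_inv, hv, hv]
        rfl
      rw [h1]
      exact (isAlgebraic_algebraMap r).mul (isAlgebraic_algebraMap s).inv
    exact hzK.restrictScalars k[X]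
  obtain ⟨q, hq0, hq⟩ := hzA.exists_nonzero_coeff_and_aeval_eq_zero
    (mem_nonZeroDivisors_of_ne_zero hz0)
  set G : MvPolynomial (Fin 2) k := q.eval₂
    ((aeval (MvPolynomial.X 0) : k[X] →ₐ[k] MvPolynomial (Fin 2) k) : k[X] →+* _)
    (MvPolynomial.X 1 - (MvPolynomial.C ω * MvPolynomial.X 0 + MvPolynomial.C β)) with hG
  have key : ∀ a b : N, MvPolynomial.aeval ![a, b] G = q.eval₂
      ((aeval a : k[X] →ₐ[k] N) : k[X] →+* N)
      (b - (algebraMap k N ω * a + algebraMap k N β)) := by
    intro a b
    rw [hG]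
    have h1 := hom_eval₂ q
      ((aeval (MvPolynomial.X 0) : k[X] →ₐ[k] MvPolynomial (Fin 2) k) : k[X] →+* _)
      ((MvPolynomial.aeval ![a, b] : MvPolynomial (Fin 2) k →ₐ[k] N) :
        MvPolynomial (Fin 2) k →+* N)
      (MvPolynomial.X 1 - (MvPolynomial.C ω * MvPolynomial.X 0 + MvPolynomial.C β))
    have h2 : ((MvPolynomial.aeval ![a, b] : MvPolynomial (Fin 2) k →ₐ[k] N) :
        MvPolynomial (Fin 2) k →+* N).comp
        ((aeval (MvPolynomial.X 0) : k[X] →ₐ[k] MvPolynomial (Fin 2) k) : k[X] →+* _) =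
        ((aeval a : k[X] →ₐ[k] N) : k[X] →+* N) := by
      apply Polynomial.ringHom_ext
      · intro c
        simp
      · simp
    rw [h2] at h1
    refine Eq.trans h1 ?_
    congr 1
    simp
  have h0 : MvPolynomial.aeval ![x, y] G = 0 := by
    rw [key]
    exact hq
  have h1 := relp_it hR n G h0
  rw [key, h, sub_self, eval₂_at_zero] at h1
  have h2 := trans_it hf hx (n * M)
  rw [transcendental_iff] at h2
  exact hq0 (h2 _ h1)

/-- the degree of `E(u)` over `E` -/
theorem relfinrank_sup_adjoin (E : IntermediateField k N) {u : N} (hu : IsIntegral E u) :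
    relfinrank E (E ⊔ adjoin k {u}) = (minpoly E u).natDegree := by
  rw [← adjoin.finrank hu, relfinrank_eq_finrank_of_le le_sup_left]
  have h : extendScalars (le_sup_left : E ≤ E ⊔ adjoin k {u}) = adjoin E {u} := by
    apply restrictScalars_injective k
    rw [extendScalars_restrictScalars, restrictScalars_adjoin_eq_sup]
  rw [h]

/-- the degrees of the two polynomials -/
theorem deg_pq {f : k[X]} {j : ℕ} {x y : N} (hy : Transcendental k y)
    (hxy : IsAlgebraic (adjoin k {x}) y)
    (hd : relfinrank (adjoin k {x}) (adjoin k {x, y}) =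
      relfinrank (adjoin k {y}) (adjoin k {x, y}))
    (N' : IntermediateField k N) (u v : N') (hu : (u : N) = x)
    (hv : (v : N) = (fun z => aeval z f)^[j] y) (htop : adjoin k {u, v} = ⊤)
    {L : Type} [Field L] [Algebra k L] (ι : N' →ₐ[k] L) (t : L) (ht : adjoin k {t} = ⊤)
    (htt : Transcendental k t) (A B : k[X]) (hA : aeval t A = ι u) (hB : aeval t B = ι v) :
    B.natDegree = f.natDegree ^ j * A.natDegree := by
  have hmapN : ∀ w : N', relfinrank (adjoin k {w}) ⊤ = relfinrank (adjoin k {(w : N)}) N' := by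
    intro w
    have h1 : (adjoin k {w}).map N'.val = adjoin k {(w : N)} := by
      rw [adjoin_map, Set.image_singleton]
      rfl
    have h2 : (⊤ : IntermediateField k N').map N'.val = N' := by
      rw [← AlgHom.fieldRange_eq_map, fieldRange_val]
    rw [← relfinrank_map_map (f := N'.val), h1, h2]
  have hmapL : ∀ (w : N') (R : k[X]), aeval t R = ι w → R.natDegree =
      relfinrank (adjoin k {w}) ⊤ *
        relfinrank ((⊤ : IntermediateField k N').map ι) (⊤ : IntermediateField k L) := by
    intro w R hR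
    have h1 : (adjoin k {w}).map ι = adjoin k {aeval t R} := by
      rw [adjoin_map, Set.image_singleton, hR]
    rw [← relfinrank_aeval R htt, ht, ← relfinrank_map_map (f := ι), h1]
    refine (relfinrank_mul_relfinrank ?_ le_top).symm
    rw [← h1]
    exact map_mono ι le_top
  have hN' : N' = adjoin k {x, (v : N)} := by
    have h2 : (⊤ : IntermediateField k N').map N'.val = N' := by
      rw [← AlgHom.fieldRange_eq_map, fieldRange_val]
    refine h2.symm.trans ?_
    rw [← htop, adjoin_map, Set.image_pair, ← hu]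
    rfl
  have hyv : adjoin k {(v : N)} ≤ adjoin k {y} := by
    rw [adjoin_simple_le_iff, hv, ← aeval_it]
    exact algebra_adjoin_le_adjoin k _ (aeval_mem_adjoin_singleton k y)
  have hK1 : adjoin k {y} ≤ adjoin k {x, y} := by
    rw [adjoin_simple_le_iff]
    exact subset_adjoin k _ (by simp)
  have hK2 : adjoin k {x} ≤ adjoin k {x, y} := by
    rw [adjoin_simple_le_iff]
    exact subset_adjoin k _ (by simp)
  have hNK : N' ≤ adjoin k {x, y} := by
    rw [hN', adjoin_le_iff]
    rintro w (rfl | rfl)
    · exact subset_adjoin k _ (by simp)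
    · exact hK1 (hyv (mem_adjoin_simple_self k _))
  have hxN : adjoin k {x} ≤ N' := by
    rw [adjoin_simple_le_iff, ← hu]
    exact u.2
  have hvN : adjoin k {(v : N)} ≤ N' := by
    rw [adjoin_simple_le_iff]
    exact v.2
  have e1 := relfinrank_mul_relfinrank hxN hNK
  have e2 := relfinrank_mul_relfinrank hvN hNK
  have e3 := relfinrank_mul_relfinrank hyv hK1
  have e4 : relfinrank (adjoin k {(v : N)}) (adjoin k {y}) = f.natDegree ^ j := by
    rw [hv, ← aeval_it, relfinrank_aeval _ hy, natDegree_iterate_comp, natDegree_X, mul_one]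
  have hD : relfinrank (adjoin k {x}) (adjoin k {x, y}) ≠ 0 := by
    have h1 : adjoin k {x, y} = adjoin k {x} ⊔ adjoin k {y} := by
      rw [Set.insert_eq, adjoin_union]
    rw [h1, relfinrank_sup_adjoin _ (isAlgebraic_iff_isIntegral.1 hxy)]
    exact (minpoly.natDegree_pos (isAlgebraic_iff_isIntegral.1 hxy)).ne'
  have hB0 : relfinrank N' (adjoin k {x, y}) ≠ 0 := by
    intro h0
    rw [h0, mul_zero] at e1
    exact hD e1.symm
  have e5 : relfinrank (adjoin k {(v : N)}) N' =
      f.natDegree ^ j * relfinrank (adjoin k {x}) N' := by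
    apply Nat.eq_of_mul_eq_mul_right (Nat.pos_of_ne_zero hB0)
    rw [e2, ← e3, e4, ← hd, ← e1, mul_assoc]
  rw [hmapL v B hB, hmapL u A hA, hmapN, hmapN, hu, e5, mul_assoc]

end main

end PP

/-- PAIRP: pairs with equal degrees. -/
theorem pairp (h1 : Y1Statement) (h7 : Y7Statement) (h8 : Y8Statement) (h9 : Y9Statement) :
    PairpStatement := by
  intro k N _ _ _ _ _ f M x y hf hP hM hx hy hxy hR hd
  obtain ⟨n, m, N', T, hu, hv⟩ := h1 k N f M x y hf hM hx hy hxy hR
  obtain ⟨a, e, L', _, _, ι, t, he, hιu, ht⟩ := h7 k N' f M m T hf hM hP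
  have hi := h8 k N' f M m T hf hM hP
  have hf1 : 1 ≤ f.natDegree := by omega
  have hιinj : Function.Injective ι := ι.toRingHom.injective
  set A : k[X] := C a + X ^ e with hAdef
  have hA : aeval t A = ι (T.u 0) := by rw [hιu, hAdef]; simp
  have hAdeg : A.natDegree = e := by
    rw [hAdef, add_comm, natDegree_X_pow_add_C]
  -- `t` is transcendental
  have htt : Transcendental k t := by
    intro hta
    have h2 : IsAlgebraic k (ι (T.u 0)) := by
      rw [hιu]
      exact (isAlgebraic_algebraMap a).add (hta.pow e)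
    exact T.tu ((isAlgebraic_algHom_iff ι hιinj).1 h2)
  -- the second polynomial
  have hi2 : Itg k t (ι (T.v 0)) := by
    refine itg_of_comp t _ A ?_
    rw [hA]
    exact (itg_map_iff ι _ _).2 hi
  obtain ⟨Q, hQ⟩ := PP.itg_range htt ht hi2
  have hdeg := PP.deg_pq (j := n * M) hy hxy hd N' (T.u 0) (T.v 0) hu hv T.top ι t ht htt A Q
    hA hQ
  set P : k[X] := ((f.comp)^[n * M] X).comp A with hPdef
  have hPdeg : P.natDegree = Q.natDegree := by
    rw [hPdef, natDegree_comp, natDegree_iterate_comp, natDegree_X, mul_one, hdeg]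
  have hPt : aeval t P = ι ((fun z => aeval z f)^[n * M] (T.u 0)) := by
    rw [hPdef, aeval_comp, hA, PP.aeval_it, PP.map_it]
  have hRPQ : RelP f M P Q := by
    refine PP.relp_inj (φ := (aeval t : k[X] →ₐ[k] L')) (transcendental_iff_injective.1 htt) ?_
    rw [hPt, hQ]
    refine PP.relp_push hιinj (PP.relp_inj (φ := N'.val) N'.val.toRingHom.injective ?_)
    have h4 : N'.val (T.u 0) = x := hu
    have h5 : N'.val (T.v 0) = (fun z => aeval z f)^[n * M] y := hv
    rw [PP.map_it, h4, h5]
    exact PP.relp_sh hR (n * M)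
  obtain ⟨ω, β, hω⟩ := h9 k f M P Q hf hM (by
    rw [hPdeg, hdeg, hAdeg]
    exact Nat.one_le_iff_ne_zero.2 (mul_ne_zero (pow_ne_zero _ (by omega)) (by omega)))
    hPdeg hRPQ
  have hrel : (fun z => aeval z f)^[n * M] y =
      algebraMap k N ω * (fun z => aeval z f)^[n * M] x + algebraMap k N β := by
    have h2 : ι (T.v 0) = ι (algebraMap k N' ω * (fun z => aeval z f)^[n * M] (T.u 0) +
        algebraMap k N' β) := by
      rw [← hQ, hω, map_add, map_mul, aeval_C, aeval_C, hPt, map_add, map_mul, ι.commutes,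
        ι.commutes]
    have h3 := congrArg N'.val (hιinj h2)
    rw [map_add, map_mul, PP.map_it, AlgHom.commutes, AlgHom.commutes] at h3
    have h4 : N'.val (T.u 0) = x := hu
    have h5 : N'.val (T.v 0) = (fun z => aeval z f)^[n * M] y := hv
    rwa [h4, h5] at h3
  have hyx := PP.eq_of_it hf1 hx hxy hR n ω β hrel
  have hω0 : ω ≠ 0 := by
    rintro rfl
    apply hy
    rw [hyx, map_zero, zero_mul, zero_add]
    exact isAlgebraic_algebraMap β
  refine ⟨(ω, β), ⟨hω0, M, hM, ?_⟩, hyx⟩
  have h2 : (fun z => aeval z f)^[M] y =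
      algebraMap k N ω * (fun z => aeval z f)^[M] x + algebraMap k N β := by
    have h3 := hR (MvPolynomial.X 1 - (MvPolynomial.C ω * MvPolynomial.X 0 + MvPolynomial.C β))
      (by rw [hyx]; simp)
    simpa [sub_eq_zero] using h3
  apply transcendental_iff_injective.1 hx
  rw [aeval_comp]
  simp only [map_add, map_mul, aeval_C, aeval_X]
  rw [PP.aeval_it, ← hyx, PP.aeval_it]
  exact h2

end Pool.DynLehmer.UN

/-! # Pairs of points with equal degrees -/

namespace Pool.DynLehmer.UN

theorem pairp_all : PairpStatement :=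
  pairp y1 (y7 y1b (Y3h74.y3 Y249.y2) y4 (P2b69.p2b p2h) y5a y5b (y6 p2r p2e p2d p3)) Y8.y8 y9

theorem sym_all : SymStatement := sym y9

end Pool.DynLehmer.UN
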