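import Pool.Agent.Lib.MP_2194ec_nt.GAL.R.Bez
import Pool.Agent.Lib.MP_2194ec_nt.GAL.R.Bif
import Pool.Agent.Lib.MP_2194ec_nt.GAL.R.Bih
import Pool.Agent.Lib.MP_2194ec_nt.GAL.R.Cntw
import Pool.Agent.Lib.MP_2194ec_nt.LW.Exc
import Pool.Agent.Lib.MP_2194ec_nt.LW.OneMap
import Pool.Agent.Lib.MP_2194ec_nt.LW.Push
import Pool.Agent.Lib.MP_2194ec_nt.UN.Generic
import Pool.Agent.Lib.MP_2194ec_nt.UN.PolDefs
import Pool.Agent.Lib.MP_2194ec_nt.UN.PolPairs
import Pool.Agent.Lib.MP_2194ec_nt.UN.Unicritical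

set_option autoImplicit false

/-!
# Periodic forms of a polynomial: statements of the rows
-/

namespace Pool.DynLehmer.UN
open MvPolynomial NumberField Pool.DynLehmer Pool.DynLehmer.SB Pool.DynLehmer.SP
  Pool.DynLehmer.GS Pool.DynLehmer.LP Pool.DynLehmer.LW
open scoped Classical

/-- the forms of the polynomial `f` of degree `q` -/
noncomputable def polF {K : Type} [Field K] (q : ℕ) (f : Polynomial K) :
    Fin 2 → MvPolynomial (Fin 2) K :=
  ![∑ i ∈ Finset.range (q + 1), C (f.coeff i) * X 0 ^ i * X 1 ^ (q - i), X 1 ^ q]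

/-- Row PG1: basic properties of `polF`. -/
def Pg1Statement : Prop :=
  ∀ (K : Type) [Field K] (f : Polynomial K), 1 ≤ f.natDegree →
    Mor f.natDegree (polF f.natDegree f) ∧
    (∀ (L : Type) [Field L] [Algebra K L] (x : L) (n : ℕ),
      (gAct (polF f.natDegree f) L)^[n] ![x, 1] = ![(fun z => Polynomial.aeval z f)^[n] x, 1]) ∧
    ∀ (L : Type) [Field L] (g : K →+* L),
      (fun i => map g (polF f.natDegree f i)) = polF f.natDegree (f.map g)

/-- Row PG2: the endomorphism (as GENB). -/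
def Pg2Statement : Prop :=
  ∀ (K : Type) [Field K] [CharZero K] (f : Polynomial K), 2 ≤ f.natDegree →
    ∀ (e : ℕ) (G : MvPolynomial (Fin 2 ⊕ Fin 2) K), PerForm (polF f.natDegree f) e G →
    ∀ (L : Type) [Field L] [Algebra K L] [IsAlgClosed L] (x y : L),
      Algebra.IsAlgebraic (IntermediateField.adjoin K {x}) L → Transcendental K x →
      Transcendental K y →
      (∀ (d₁ d₂ : ℕ) (H : MvPolynomial (Fin 2 ⊕ Fin 2) K), BiHom d₁ d₂ H →
        (GS.ev ![x, 1] ![y, 1] H = 0 ↔ G ∣ H)) →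
    ∃ (φ : L →ₐ[K] L) (m : ℕ), 1 ≤ m ∧
      φ x = (fun z => Polynomial.aeval z f)^[m] x ∧ φ y = (fun z => Polynomial.aeval z f)^[m] y

/-- Row PG3: a periodic root of a second form over the same `x`. -/
def Pg3Statement : Prop :=
  ∀ (K : Type) [Field K] [CharZero K] (f : Polynomial K), 2 ≤ f.natDegree →
    ∀ (e : ℕ) (G : MvPolynomial (Fin 2 ⊕ Fin 2) K), PerForm (polF f.natDegree f) e G →
    ∀ (L : Type) [Field L] [Algebra K L] [IsAlgClosed L] (φ : L →ₐ[K] L) (m : ℕ) (x : L),
      1 ≤ m → Transcendental K x → φ x = (fun z => Polynomial.aeval z f)^[m] x →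
    ∃ (y : L) (n : ℕ), 1 ≤ n ∧ Transcendental K y ∧ GS.ev ![x, 1] ![y, 1] G = 0 ∧
      φ^[n] x = (fun z => Polynomial.aeval z f)^[n * m] x ∧
      φ^[n] y = (fun z => Polynomial.aeval z f)^[n * m] y

/-- Row PG5: degrees at a generic zero of an irreducible form, and uniqueness of the form. -/
def Pg5Statement : Prop :=
  ∀ (K : Type) [Field K] (d₁ d₂ : ℕ) (G : MvPolynomial (Fin 2 ⊕ Fin 2) K), 1 ≤ d₁ → 1 ≤ d₂ →
    Irreducible G → BiHom d₁ d₂ G →
    ∀ (L : Type) [Field L] [Algebra K L] (x y : L), Transcendental K x →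
      GS.ev ![x, 1] ![y, 1] G = 0 → Transcendental K y ∧
      IntermediateField.relfinrank (IntermediateField.adjoin K {x})
        (IntermediateField.adjoin K {x, y}) = d₂ ∧
      IntermediateField.relfinrank (IntermediateField.adjoin K {y})
        (IntermediateField.adjoin K {x, y}) = d₁ ∧
      ∀ (c₁ c₂ : ℕ) (H : MvPolynomial (Fin 2 ⊕ Fin 2) K), BiHom c₁ c₂ H →
        GS.ev ![x, 1] ![y, 1] H = 0 → G ∣ H

/-- Row PG4 (from PAIRP, SYM, GENA, PG1, PG2, PG3, PG5): finitely many periodic forms of bounded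
degree. -/
def Pg4Statement : Prop :=
  ∀ (k : Type) [Field k] [IsAlgClosed k] [CharZero k] (f : Polynomial k), 2 ≤ f.natDegree →
    ¬ PExc f → ∀ e : ℕ, ∃ S : Finset (MvPolynomial (Fin 2 ⊕ Fin 2) k),
      ∀ G, PerForm (polF f.natDegree f) e G → ∃ G' ∈ S, Associated G G'

/-- Row PG6: the factors of an irreducible form over the algebraic closure have proportional
degrees. -/
def Pg6Statement : Prop :=
  ∀ (K : Type) [Field K] [CharZero K] (d₁ d₂ c₁ c₂ : ℕ) (G : MvPolynomial (Fin 2 ⊕ Fin 2) K)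
    (G₁ : MvPolynomial (Fin 2 ⊕ Fin 2) (AlgebraicClosure K)), 1 ≤ d₁ → 1 ≤ d₂ → Irreducible G →
    BiHom d₁ d₂ G → Irreducible G₁ → BiHom c₁ c₂ G₁ →
    G₁ ∣ map (algebraMap K (AlgebraicClosure K)) G → c₁ * d₂ = c₂ * d₁

/-- Row DESC: the exceptional condition descends. -/
def DescStatement : Prop :=
  ∀ (K L : Type) [Field K] [Field L] [CharZero K] [Algebra K L] (f : Polynomial K),
    2 ≤ f.natDegree → PExc (f.map (algebraMap K L)) → PExc f

/-- Row PG7 (from PG5): a periodic form which relates a wandering point to a conjugate has equal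
degrees. -/
def Pg7Statement : Prop :=
  ∀ (K : Type) [Field K] [CharZero K] (f : Polynomial K), 2 ≤ f.natDegree →
    ∀ (e : ℕ) (G : MvPolynomial (Fin 2 ⊕ Fin 2) K), PerForm (polF f.natDegree f) e G →
    ∀ (N : Type) [Field N] [Algebra K N] [FiniteDimensional K N] (u : Fin 2 → N)
      (g : N ≃ₐ[K] N), u ≠ 0 → WandP (polF f.natDegree f) u → GS.ev u (gal g u) G = 0 →
    ∀ d₁ d₂ : ℕ, BiHom d₁ d₂ G → d₁ = d₂

/-- Row SYM2 (from SYM): the symmetries are the rotations of order `n` about the centre. -/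
def Sym2Statement : Prop :=
  ∀ (k : Type) [Field k] [IsAlgClosed k] [CharZero k] (f : Polynomial k), 2 ≤ f.natDegree →
    ¬ PExc f → ∃ n : ℕ, 1 ≤ n ∧
      SymP f = {σ | σ.1 ^ n = 1 ∧
        σ.2 = (1 - σ.1) * (- f.coeff (f.natDegree - 1) / (f.natDegree * f.leadingCoeff))}

/-- Row PG8 (from PAIRP, GENA, PG1, PG2, PG5, PG6, SYM2): a periodic form with equal degrees divides the
form of the rotations. -/
def Pg8Statement : Prop :=
  ∀ (K : Type) [Field K] [CharZero K] (f : Polynomial K), 2 ≤ f.natDegree →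
    ¬ PExc (f.map (algebraMap K (AlgebraicClosure K))) → ∀ n : ℕ,
    SymP (f.map (algebraMap K (AlgebraicClosure K))) = {σ | σ.1 ^ n = 1 ∧
      σ.2 = (1 - σ.1) * algebraMap K (AlgebraicClosure K)
        (- f.coeff (f.natDegree - 1) / (f.natDegree * f.leadingCoeff))} →
    ∀ (e : ℕ) (G : MvPolynomial (Fin 2 ⊕ Fin 2) K), PerForm (polF f.natDegree f) e G →
    ∀ d : ℕ, BiHom d d G → ∀ (N : Type) [Field N] [Algebra K N] (x y : N),
      WandP (polF f.natDegree f) ![x, 1] →
      GS.ev ![x, 1] ![y, 1] G = 0 →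
      (y - algebraMap K N (- f.coeff (f.natDegree - 1) / (f.natDegree * f.leadingCoeff))) ^ n =
      (x - algebraMap K N (- f.coeff (f.natDegree - 1) / (f.natDegree * f.leadingCoeff))) ^ n

/-- Row PG9 (from PG1, PG7, PG8, SYM, SYM2): the conclusion of row EXC. -/
def Pg9Statement : Prop :=
  ∀ (K : Type) [Field K] [NumberField K] (f : Polynomial K), 2 ≤ f.natDegree →
    ¬ PExc (f.map (algebraMap K (AlgebraicClosure K))) →
    ∃ R : ℕ, 1 ≤ R ∧ ExcF K (polF f.natDegree f) R

end Pool.DynLehmer.UN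

set_option linter.unusedSectionVars false

/-!
# Polynomial maps of the projective line: iterates and the generic point of a periodic form
-/

namespace Pool.DynLehmer.UN
open Pool.DynLehmer Pool.DynLehmer.SB Pool.DynLehmer.SP
  Pool.DynLehmer.GS Pool.DynLehmer.LP Pool.DynLehmer.LW
open scoped Classical

namespace Pf96

section
variable {K : Type} [Field K]

theorem polF_zero (q : ℕ) (f : Polynomial K) : polF q f 0 = f.homogenize q := by
  show ∑ i ∈ Finset.range (q + 1), MvPolynomial.C (f.coeff i) * MvPolynomial.X 0 ^ i *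
    MvPolynomial.X 1 ^ (q - i) = _
  rw [Polynomial.homogenize, Finset.Nat.sum_antidiagonal_eq_sum_range_succ_mk]
  refine Finset.sum_congr rfl fun i _ => ?_
  show _ = MvPolynomial.monomial ((Finsupp.single 0 i).update 1 (q - i)) (f.coeff i)
  rw [MvPolynomial.monomial_eq, Finsupp.prod_fintype _ _ (fun _ => pow_zero _), Fin.prod_univ_two,
    ← mul_assoc]
  have h0 : ((Finsupp.single 0 i).update 1 (q - i) : Fin 2 →₀ ℕ) 0 = i := by simp
  have h1 : ((Finsupp.single 0 i).update 1 (q - i) : Fin 2 →₀ ℕ) 1 = q - i := by simp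
  rw [h0, h1]

theorem polF_one (q : ℕ) (f : Polynomial K) : polF q f 1 = MvPolynomial.X 1 ^ q := rfl

variable {L : Type} [Field L] [Algebra K L]

theorem gAct_polF {q : ℕ} {f : Polynomial K} (hf : f.natDegree ≤ q) (x : L) :
    gAct (polF q f) L ![x, 1] = ![Polynomial.aeval x f, 1] := by
  funext i
  fin_cases i
  · show MvPolynomial.aeval ![x, 1] (polF q f 0) = Polynomial.aeval x f
    rw [polF_zero, Polynomial.aeval_homogenize_of_eq_one hf]
    · rfl
    · rfl
  · show MvPolynomial.aeval ![x, 1] (MvPolynomial.X 1 ^ q : MvPolynomial (Fin 2) K) = 1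
    simp

theorem iter_polF {q : ℕ} {f : Polynomial K} (hf : f.natDegree ≤ q) (x : L) (n : ℕ) :
    (gAct (polF q f) L)^[n] ![x, 1] = ![(fun z => Polynomial.aeval z f)^[n] x, 1] := by
  induction n with
  | zero => rfl
  | succ n ih =>
    rw [Function.iterate_succ_apply', ih, gAct_polF hf, Function.iterate_succ_apply']

theorem mor_polF {q : ℕ} {f : Polynomial K} (hq : q ≠ 0) (hf : f.natDegree = q) :
    Mor q (polF q f) := by
  refine ⟨fun i => ?_, fun N _ _ P hP h => hP ?_⟩
  · fin_cases i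
    · show (polF q f 0).IsHomogeneous q
      rw [polF_zero]
      exact Polynomial.isHomogeneous_homogenize f
    · show (MvPolynomial.X 1 ^ q : MvPolynomial (Fin 2) K).IsHomogeneous q
      have h := (MvPolynomial.isHomogeneous_X K (1 : Fin 2)).pow q
      rwa [one_mul] at h
  · have h1 : P 1 ^ q = 0 := by
      have h2 := congrFun h 1
      have h3 : gAct (polF q f) N P 1 = P 1 ^ q := by
        show MvPolynomial.aeval P (MvPolynomial.X 1 ^ q : MvPolynomial (Fin 2) K) = P 1 ^ q
        simp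
      rw [h3] at h2
      exact h2
    have h4 : P 1 = 0 := pow_eq_zero_iff hq |>.1 h1
    have h5 : algebraMap K N (f.coeff q) * P 0 ^ q = 0 := by
      have h2 := congrFun h 0
      have h3 : gAct (polF q f) N P 0 = algebraMap K N (f.coeff q) * P 0 ^ q := by
        show MvPolynomial.aeval P (∑ i ∈ Finset.range (q + 1), MvPolynomial.C (f.coeff i) *
          MvPolynomial.X 0 ^ i * MvPolynomial.X 1 ^ (q - i) : MvPolynomial (Fin 2) K) = _
        rw [map_sum, Finset.sum_range_succ, Finset.sum_eq_zero, zero_add]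
        · rw [map_mul, map_mul, map_pow, map_pow, MvPolynomial.algHom_C, MvPolynomial.aeval_X,
            MvPolynomial.aeval_X, Nat.sub_self, pow_zero, mul_one]
        · intro i hi
          have hi' := Finset.mem_range.1 hi
          rw [map_mul, map_pow, MvPolynomial.aeval_X, h4, zero_pow (by omega : q - i ≠ 0), mul_zero]
      rw [h3] at h2
      exact h2
    have h6 : P 0 = 0 := by
      rcases mul_eq_zero.1 h5 with h | h
      · exfalso
        have h7 : f.coeff q = 0 := (map_eq_zero_iff _ (algebraMap K N).injective).1 h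
        rw [← hf] at h7
        have h8 : f = 0 := Polynomial.leadingCoeff_eq_zero.1 h7
        rw [h8, Polynomial.natDegree_zero] at hf
        exact hq hf.symm
      · exact pow_eq_zero_iff hq |>.1 h
    funext i
    fin_cases i
    · exact h6
    · exact h4

theorem map_polF {A : Type} [Field A] (φ : K →+* A) (q : ℕ) (f : Polynomial K) :
    (fun i => MvPolynomial.map φ (polF q f i)) = polF q (f.map φ) := by
  funext i
  fin_cases i
  · show MvPolynomial.map φ (polF q f 0) = polF q (f.map φ) 0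
    rw [polF_zero, polF_zero, Polynomial.homogenize_map]
  · show MvPolynomial.map φ (MvPolynomial.X 1 ^ q) = MvPolynomial.X 1 ^ q
    simp

/-- the iterates of `f` as polynomials -/
noncomputable def itp (f : Polynomial K) (n : ℕ) : Polynomial K := (f.comp)^[n] Polynomial.X

theorem itp_deg (f : Polynomial K) (n : ℕ) : (itp f n).natDegree = f.natDegree ^ n := by
  rw [itp, Polynomial.natDegree_iterate_comp, Polynomial.natDegree_X, mul_one]

theorem itp_aeval (f : Polynomial K) (n : ℕ) (x : L) :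
    Polynomial.aeval x (itp f n) = (fun z => Polynomial.aeval z f)^[n] x := by
  induction n with
  | zero =>
    rw [itp, Function.iterate_zero_apply, Function.iterate_zero_apply, Polynomial.aeval_X]
  | succ n ih =>
    rw [Function.iterate_succ_apply', ← ih, itp, Function.iterate_succ_apply',
      Polynomial.aeval_comp]
    rfl

theorem iter_inj {f : Polynomial K} (hf : 2 ≤ f.natDegree) {x : L} (hx : Transcendental K x)
    {m n : ℕ} (h : (fun z => Polynomial.aeval z f)^[m] x =
      (fun z => Polynomial.aeval z f)^[n] x) : m = n := by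
  rw [← itp_aeval, ← itp_aeval] at h
  have h1 : itp f m = itp f n := by
    by_contra hne
    exact hx ⟨itp f m - itp f n, sub_ne_zero.2 hne, by rw [map_sub, h, sub_self]⟩
  have h2 := congrArg Polynomial.natDegree h1
  rw [itp_deg, itp_deg] at h2
  exact Nat.pow_right_injective hf h2

theorem wand_trans {f : Polynomial K} (hf : 2 ≤ f.natDegree) {x : L} (hx : Transcendental K x) :
    WandP (polF f.natDegree f) ![x, 1] := by
  rintro ⟨m, n, hmn, a, ha, h⟩
  rw [iter_polF le_rfl, iter_polF le_rfl] at h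
  have h1 := congrFun h 1
  have h0 := congrFun h 0
  simp only [Pi.smul_apply, Matrix.cons_val_one, Matrix.cons_val_zero, smul_eq_mul, mul_one] at h1 h0
  rw [← h1, one_mul] at h0
  exact hmn (iter_inj hf hx h0).symm

theorem trans_it {f : Polynomial K} (hf : 1 ≤ f.natDegree) {x : L} (hx : Transcendental K x)
    (n : ℕ) : Transcendental K ((fun z => Polynomial.aeval z f)^[n] x) := by
  induction n with
  | zero => exact hx
  | succ k ih =>
    rw [Function.iterate_succ_apply']
    refine ih.aeval f (by omega) (mem_nonZeroDivisors_of_ne_zero fun h => ?_)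
    rw [Polynomial.leadingCoeff_eq_zero.1 h, Polynomial.natDegree_zero] at hf
    omega

/-- all relations between `x` and `y` hold for the images of `x` and `y` -/
theorem relP {f : Polynomial K} {φ : L →ₐ[K] L} {m : ℕ} {x y : L}
    (hx : φ x = (fun z => Polynomial.aeval z f)^[m] x)
    (hy : φ y = (fun z => Polynomial.aeval z f)^[m] y) (H : MvPolynomial (Fin 2) K)
    (hH : MvPolynomial.aeval ![x, y] H = 0) :
    MvPolynomial.aeval ![(fun z => Polynomial.aeval z f)^[m] x,
      (fun z => Polynomial.aeval z f)^[m] y] H = 0 := by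
  rw [← hx, ← hy]
  have h1 : (![φ x, φ y] : Fin 2 → L) = fun i => φ (![x, y] i) := by
    funext i
    fin_cases i <;> rfl
  rw [h1]
  have h2 : MvPolynomial.aeval (fun i => φ (![x, y] i)) H = φ (MvPolynomial.aeval ![x, y] H) :=
    (MvPolynomial.comp_aeval_apply (φ := φ) (f := ![x, y]) (p := H)).symm
  rw [h2, hH, map_zero]

end

/-- Row PG1: basic properties of `polF`. -/
theorem pg1 : Pg1Statement := by
  intro K _ f hf
  refine ⟨mor_polF (by omega) rfl, fun L _ _ x n => iter_polF le_rfl x n, fun L _ g => ?_⟩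
  rw [map_polF]

/-- Row PG2: the endomorphism of the generic point. -/
theorem pg2 : Pg2Statement := by
  intro K _ _ f hq e G hG L _ _ _ x y halg hx hy hev
  set q := f.natDegree with hf'
  have hf : f.natDegree = q := rfl
  obtain ⟨k, hk, hGk⟩ := hG.per
  obtain ⟨d₁, d₂, -, -, -, -, hGb⟩ := hG.hom
  have hG0 : GS.ev ![x, 1] ![y, 1] G = 0 := (hev d₁ d₂ G hGb).2 dvd_rfl
  have hG1 : GS.ev ((gAct (polF q f) L)^[k] ![x, 1]) ((gAct (polF q f) L)^[k] ![y, 1]) G = 0 := by
    rw [← Bif.ev_it]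
    obtain ⟨Q, hQ⟩ := hGk
    rw [hQ, GS.ev, map_mul]
    rw [GS.ev] at hG0
    rw [hG0, zero_mul]
  rw [iter_polF hf.le, iter_polF hf.le] at hG1
  have hrel : ∀ h : Polynomial (Polynomial K),
      h.eval₂ (Polynomial.aeval x : Polynomial K →ₐ[K] L).toRingHom y = 0 →
      h.eval₂ (Polynomial.aeval ((fun z => Polynomial.aeval z f)^[k] x) :
        Polynomial K →ₐ[K] L).toRingHom ((fun z => Polynomial.aeval z f)^[k] y) = 0 := by
    intro h hh
    obtain ⟨a₁, a₂, H, hH, hH'⟩ := Gb.homog (L := L) h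
    rw [← hH'] at hh ⊢
    obtain ⟨Q, hQ⟩ := (hev a₁ a₂ H hH).1 hh
    rw [hQ, GS.ev, map_mul]
    rw [GS.ev] at hG1
    rw [hG1, zero_mul]
  obtain ⟨φ, h1, h2⟩ := Gb.endo halg hx (trans_it (by omega) hx k) hrel
  exact ⟨φ, k, hk, h1, h2⟩

end Pf96

end Pool.DynLehmer.UN

set_option linter.unusedSectionVars false

/-!
# Row PG3: a periodic root of a second form over the same generic point
-/

namespace Pool.DynLehmer.UN
open MvPolynomial Pool.DynLehmer Pool.DynLehmer.SB Pool.DynLehmer.SP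
  Pool.DynLehmer.GS Pool.DynLehmer.LP Pool.DynLehmer.LW
open scoped Classical

namespace Pg3H72

variable {K : Type} [Field K] {L : Type} [Field L] [Algebra K L]

/-- divisibility by the iterates of the pullback -/
theorem dvd_it {F : Fin 2 → MvPolynomial (Fin 2) K} {G : MvPolynomial (Fin 2 ⊕ Fin 2) K} {k : ℕ}
    (h : G ∣ (bind₁ (dbl F))^[k] G) (m : ℕ) : G ∣ (bind₁ (dbl F))^[k * m] G := by
  induction m with
  | zero => exact dvd_rfl
  | succ m ih =>
    rw [Nat.mul_succ, Function.iterate_add_apply]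
    obtain ⟨c, hc⟩ := h
    rw [hc, iterate_map_mul]
    exact ih.mul_right _

theorem ev_of_dvd {P P' : Fin 2 → L} {G H : MvPolynomial (Fin 2 ⊕ Fin 2) K} (h : G ∣ H)
    (h0 : GS.ev P P' G = 0) : GS.ev P P' H = 0 := by
  obtain ⟨c, rfl⟩ := h
  rw [GS.ev, map_mul]
  rw [GS.ev] at h0
  rw [h0, zero_mul]

/-- the first form of a polynomial -/
theorem polF_zero (q : ℕ) (f : Polynomial K) : polF q f 0 = f.homogenize q := by
  show ∑ i ∈ Finset.range (q + 1), MvPolynomial.C (f.coeff i) * MvPolynomial.X 0 ^ i *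
    MvPolynomial.X 1 ^ (q - i) = _
  rw [Polynomial.homogenize, Finset.Nat.sum_antidiagonal_eq_sum_range_succ_mk]
  refine Finset.sum_congr rfl fun i _ => ?_
  show _ = MvPolynomial.monomial ((Finsupp.single 0 i).update 1 (q - i)) (f.coeff i)
  rw [MvPolynomial.monomial_eq, Finsupp.prod_fintype _ _ (fun _ => pow_zero _), Fin.prod_univ_two,
    ← mul_assoc]
  have h0 : ((Finsupp.single 0 i).update 1 (q - i) : Fin 2 →₀ ℕ) 0 = i := by simp
  have h1 : ((Finsupp.single 0 i).update 1 (q - i) : Fin 2 →₀ ℕ) 1 = q - i := by simp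
  rw [h0, h1]

theorem gAct_polF {q : ℕ} {f : Polynomial K} (hf : f.natDegree ≤ q) (x : L) :
    gAct (polF q f) L ![x, 1] = ![Polynomial.aeval x f, 1] := by
  funext i
  fin_cases i
  · show MvPolynomial.aeval ![x, 1] (polF q f 0) = Polynomial.aeval x f
    rw [polF_zero, Polynomial.aeval_homogenize_of_eq_one hf]
    · rfl
    · rfl
  · show MvPolynomial.aeval ![x, 1] (MvPolynomial.X 1 ^ q : MvPolynomial (Fin 2) K) = 1
    simp

theorem iter_polF {q : ℕ} {f : Polynomial K} (hf : f.natDegree ≤ q) (x : L) (n : ℕ) :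
    (gAct (polF q f) L)^[n] ![x, 1] = ![(fun z => Polynomial.aeval z f)^[n] x, 1] := by
  induction n with
  | zero => rfl
  | succ n ih =>
    rw [Function.iterate_succ_apply', ih, gAct_polF hf, Function.iterate_succ_apply']

/-- a form which vanishes at a transcendental point is zero -/
theorem hom_zero {x : L} (hx : Transcendental K x) {n : ℕ} {F : MvPolynomial (Fin 2) K}
    (hF : F.IsHomogeneous n) (h0 : aeval ![x, 1] F = 0) : F = 0 := by
  have h1 := Polynomial.homogenize_eq_of_isHomogeneous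
    (p := aeval (![Polynomial.X, 1] : Fin 2 → Polynomial K) F) hF rfl
  have h2 : Polynomial.aeval x (aeval (![Polynomial.X, 1] : Fin 2 → Polynomial K) F) = 0 := by
    rw [← h0]
    have h3 : (Polynomial.aeval x).comp (aeval (![Polynomial.X, 1] : Fin 2 → Polynomial K)) =
        (aeval ![x, 1] : MvPolynomial (Fin 2) K →ₐ[K] L) := by
      refine MvPolynomial.algHom_ext fun i => ?_
      rw [aeval_X]
      show Polynomial.aeval x (aeval (![Polynomial.X, 1] : Fin 2 → Polynomial K) (X i)) = _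
      rw [aeval_X]
      fin_cases i
      · exact Polynomial.aeval_X x
      · exact map_one _
    exact DFunLike.congr_fun h3 F
  have h4 : aeval (![Polynomial.X, 1] : Fin 2 → Polynomial K) F = 0 := by
    by_contra hne
    exact hx ⟨_, hne, h2⟩
  rw [← h1, h4, Polynomial.homogenize_zero]

/-- values under homomorphisms -/
theorem phi_hom (ψ : L →ₐ[K] L) (x : L) :
    (ψ : L →+* L).comp (Bez.phi (K := K) ![x, 1]) = Bez.phi ![ψ x, 1] := by
  have h3 : ψ.comp (aeval ![x, 1]) = (aeval ![ψ x, 1] : MvPolynomial (Fin 2) K →ₐ[K] L) := by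
    refine MvPolynomial.algHom_ext fun i => ?_
    rw [aeval_X]
    show ψ (aeval ![x, 1] (X i)) = _
    rw [aeval_X]
    fin_cases i
    · rfl
    · exact map_one _
  exact congrArg (fun φ : MvPolynomial (Fin 2) K →ₐ[K] L => (φ : MvPolynomial (Fin 2) K →+* L)) h3

theorem ev_root {d₁ d₂ : ℕ} {G : MvPolynomial (Fin 2 ⊕ Fin 2) K} (hG : BiHom d₁ d₂ G) (x y : L) :
    GS.ev ![x, 1] ![y, 1] G = ((Bez.dh G).map (Bez.phi ![x, 1])).eval y := by
  rw [Bez.ev_fin hG _ _ (one_ne_zero : (![y, 1] : Fin 2 → L) 1 ≠ 0)]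
  show (1 : L) ^ d₂ * Polynomial.eval (y / 1) _ = _
  rw [one_pow, one_mul, div_one]

/-- the fibre of `G` over a transcendental point -/
theorem fibre_ne {d₁ d₂ : ℕ} {G : MvPolynomial (Fin 2 ⊕ Fin 2) K} (hG : BiHom d₁ d₂ G)
    (h1 : 1 ≤ d₁) (hirr : Irreducible G) {x : L} (hx : Transcendental K x) (h2 : 1 ≤ d₂) :
    ((Bez.dh G).map (Bez.phi (K := K) ![x, 1])).natDegree ≠ 0 := by
  intro hz
  have h3 : ∀ l, l ≠ 0 → (Bez.dh G).coeff l = 0 := by
    intro l hl
    refine hom_zero hx (Bez.hom_coeff hG l) ?_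
    rw [← Bez.phi_apply, ← Polynomial.coeff_map]
    exact Polynomial.coeff_eq_zero_of_natDegree_lt (by omega)
  have h4 : Bez.dh G = Polynomial.C ((Bez.dh G).coeff 0) := by
    ext1 l
    rw [Polynomial.coeff_C]
    split_ifs with hl
    · rw [hl]
    · exact h3 l hl
  have h5 := Bez.homog_dh hG
  rw [h4, Polynomial.homogenize_C] at h5
  have h6 : X (Sum.inr 1) ∣ G := by
    have h7 : (Bez.e (X (Sum.inr 1) : MvPolynomial (Fin 2 ⊕ Fin 2) K)) ∣ Bez.e G := by
      rw [Bez.e_inr, ← h5]
      exact (dvd_pow_self _ (by omega)).mul_left _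
    obtain ⟨c, hc⟩ := h7
    refine ⟨Bez.e.symm c, Bez.e.injective ?_⟩
    rw [map_mul, hc, AlgEquiv.apply_symm_apply]
  obtain ⟨c, hc⟩ := h6
  rcases hirr.isUnit_or_isUnit hc with hu | hu
  · have h8 := hu.map (aeval (fun _ => (0 : K)) : MvPolynomial (Fin 2 ⊕ Fin 2) K →ₐ[K] K)
    rw [aeval_X] at h8
    exact not_isUnit_zero h8
  · obtain ⟨r, hr, rfl⟩ := MvPolynomial.isUnit_iff_eq_C_of_isReduced.1 hu
    have h9 : Finsupp.single (Sum.inr 1) 1 ∈ G.support := by
      rw [mem_support_iff, hc, mul_comm, coeff_C_mul, coeff_X, if_pos rfl, mul_one]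
      exact hr.ne_zero
    have h10 := (hG _ h9).1
    rw [Finsupp.single_eq_of_ne (by simp), Finsupp.single_eq_of_ne (by simp)] at h10
    omega

theorem bi_unique {a b c d : ℕ} {G : MvPolynomial (Fin 2 ⊕ Fin 2) K} (hG : BiHom a b G)
    (hG' : BiHom c d G) (h0 : G ≠ 0) : a = c ∧ b = d := by
  obtain ⟨t, ht⟩ : G.support.Nonempty := by
    rw [Finset.nonempty_iff_ne_empty]
    intro h
    exact h0 (support_eq_empty.1 h)
  have h1 := hG t ht
  have h2 := hG' t ht
  exact ⟨h1.1.symm.trans h2.1, h1.2.symm.trans h2.2⟩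

theorem bihom_inr {n : ℕ} {F : MvPolynomial (Fin 2) K} (hF : F.IsHomogeneous n) :
    BiHom 0 n (rename Sum.inr F : MvPolynomial (Fin 2 ⊕ Fin 2) K) := by
  intro t ht
  obtain ⟨m, rfl, hm⟩ := coeff_rename_ne_zero _ _ _ (mem_support_iff.1 ht)
  have h2 : m.degree = n := by
    rw [Finsupp.degree_eq_weight_one]
    exact hF hm
  rw [Finsupp.degree_eq_sum, Fin.sum_univ_two] at h2
  refine ⟨?_, ?_⟩
  · rw [Finsupp.mapDomain_of_notMem_range _ _ (by simp),
      Finsupp.mapDomain_of_notMem_range _ _ (by simp), Nat.add_zero]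
  · rw [Finsupp.mapDomain_apply Sum.inr_injective, Finsupp.mapDomain_apply Sum.inr_injective, h2]

/-- the second coordinate is transcendental -/
theorem trans_y {d₁ d₂ : ℕ} {G : MvPolynomial (Fin 2 ⊕ Fin 2) K} (hG : BiHom d₁ d₂ G)
    (h1 : 1 ≤ d₁) (h2 : 1 ≤ d₂) (hirr : Irreducible G) {x y : L} (hx : Transcendental K x)
    (h0 : GS.ev ![x, 1] ![y, 1] G = 0) : Transcendental K y := by
  rintro ⟨p, hp, hpy⟩
  have hF := Polynomial.isHomogeneous_homogenize (n := p.natDegree) p
  have hFne : (rename Sum.inr (p.homogenize p.natDegree) :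
      MvPolynomial (Fin 2 ⊕ Fin 2) K) ≠ 0 := by
    intro hz
    have h3 := rename_injective _ Sum.inr_injective (hz.trans (map_zero _).symm)
    rw [Polynomial.homogenize_eq_zero_iff le_rfl] at h3
    exact hp h3
  have hH := bihom_inr hF
  have hndvd : ¬ G ∣ rename Sum.inr (p.homogenize p.natDegree) := by
    intro hdvd
    obtain ⟨c', d', h3, h4, h5⟩ := BiHom.of_dvd hH hFne hdvd
    obtain ⟨h6, h7⟩ := bi_unique hG h5 hirr.ne_zero
    omega
  obtain ⟨R, hR, hRh, hR0⟩ := bez K d₁ d₂ _ _ G _ hG hH hirr h2 hndvd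
  refine hR (hom_zero hx hRh (hR0 L ![x, 1] ![y, 1] ?_ h0 ?_))
  · intro hz
    exact one_ne_zero (congrFun hz 1)
  · rw [GS.ev, aeval_rename]
    show aeval ![y, 1] _ = _
    rw [Polynomial.aeval_homogenize_of_eq_one le_rfl]
    · exact hpy
    · rfl

/-- the iterates of the endomorphism -/
theorem exists_pow (φ : L →ₐ[K] L) (n : ℕ) : ∃ ψ : L →ₐ[K] L, ∀ z, ψ z = φ^[n] z := by
  induction n with
  | zero => exact ⟨AlgHom.id K L, fun z => rfl⟩
  | succ n ih =>
    obtain ⟨ψ, hψ⟩ := ih
    refine ⟨ψ.comp φ, fun z => ?_⟩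
    rw [Function.iterate_succ_apply, ← hψ]
    rfl

theorem comm_it (φ : L →ₐ[K] L) (f : Polynomial K) (n : ℕ) (z : L) :
    φ ((fun z => Polynomial.aeval z f)^[n] z) = (fun z => Polynomial.aeval z f)^[n] (φ z) := by
  induction n with
  | zero => rfl
  | succ n ih =>
    rw [Function.iterate_succ_apply', Function.iterate_succ_apply', ← ih]
    exact (Polynomial.aeval_algHom_apply φ _ f).symm

/-- the iterates of a point which is moved along its orbit -/
theorem iter_pt (φ : L →ₐ[K] L) (f : Polynomial K) {m : ℕ} {z : L}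
    (hz : φ z = (fun z => Polynomial.aeval z f)^[m] z) (n : ℕ) :
    φ^[n] z = (fun z => Polynomial.aeval z f)^[n * m] z := by
  induction n with
  | zero => rw [Nat.zero_mul]; rfl
  | succ n ih =>
    rw [Function.iterate_succ_apply', ih, comm_it, hz, Nat.succ_mul, Function.iterate_add_apply]

/-- a map of a nonempty finite set to itself has a periodic point -/
theorem exists_periodic {S : Type} [Finite S] (T : S → S) (s : S) :
    ∃ (y : S) (j : ℕ), 1 ≤ j ∧ T^[j] y = y := by
  obtain ⟨a, b, hab, h⟩ := Finite.exists_ne_map_eq_of_infinite fun n : ℕ => T^[n] s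
  have key : ∀ a b : ℕ, a < b → T^[a] s = T^[b] s → ∃ (y : S) (j : ℕ), 1 ≤ j ∧ T^[j] y = y := by
    intro a b hab h
    refine ⟨T^[a] s, b - a, by omega, ?_⟩
    rw [← Function.iterate_add_apply, Nat.sub_add_cancel hab.le]
    exact h.symm
  rcases lt_or_gt_of_ne hab with h1 | h1
  · exact key a b h1 h
  · exact key b a h1 h.symm

end Pg3H72

/-- Row PG3. -/
theorem pg3 : Pg3Statement := by
  intro K _ _ f hf e G hG L _ _ _ φ m x hm hx hφ
  obtain ⟨d₁, d₂, h1, -, h2, -, hb⟩ := hG.hom
  obtain ⟨k, hk, hper⟩ := hG.per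
  set gx : Polynomial L := (Bez.dh G).map (Bez.phi (K := K) ![x, 1]) with hgx
  have hnd : gx.natDegree ≠ 0 := Pg3H72.fibre_ne hb h1 hG.irr hx h2
  have hgx0 : gx ≠ 0 := by
    intro hz
    rw [hz, Polynomial.natDegree_zero] at hnd
    exact hnd rfl
  obtain ⟨ψ, hψ⟩ := Pg3H72.exists_pow φ k
  have hψx : ψ x = (fun z => Polynomial.aeval z f)^[k * m] x := by
    rw [hψ, Pg3H72.iter_pt φ f hφ]
  have hroot : ∀ y : L, gx.IsRoot y → ∃ y' : L, gx.IsRoot y' ∧
      ψ y' = (fun z => Polynomial.aeval z f)^[k * m] y := by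
    intro y hy
    have h3 : GS.ev ![x, 1] ![y, 1] G = 0 := by
      rw [Pg3H72.ev_root hb]
      exact hy
    have h4 := Pg3H72.ev_of_dvd (Pg3H72.dvd_it hper m) h3
    rw [Bif.ev_it, Pg3H72.iter_polF le_rfl, Pg3H72.iter_polF le_rfl, ← hψx,
      Pg3H72.ev_root hb, ← Pg3H72.phi_hom, ← Polynomial.map_map] at h4
    have h5 : (fun z => Polynomial.aeval z f)^[k * m] y ∈ (gx.map (ψ : L →+* L)).roots :=
      (Polynomial.mem_roots (Polynomial.map_ne_zero hgx0)).2 h4
    rw [(IsAlgClosed.splits gx).roots_map, Multiset.mem_map] at h5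
    obtain ⟨y', hy', h6⟩ := h5
    exact ⟨y', (Polynomial.mem_roots hgx0).1 hy', h6⟩
  obtain ⟨y₀, hy₀⟩ := IsAlgClosed.exists_root gx
    (fun hz => hnd (Polynomial.natDegree_eq_of_degree_eq_some hz))
  have hfin : Finite {y : L // gx.IsRoot y} := by
    refine Set.Finite.to_subtype (s := {y : L | gx.IsRoot y}) ?_
    exact Polynomial.finite_setOfPred_isRoot hgx0
  choose! T hT1 hT2 using hroot
  obtain ⟨⟨y, hy⟩, j, hj, hTj⟩ := Pg3H72.exists_periodic
    (fun s : {y : L // gx.IsRoot y} => (⟨T s.1, hT1 s.1 s.2⟩ : {y : L // gx.IsRoot y})) ⟨y₀, hy₀⟩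
  have hit : ∀ (i : ℕ) (s : {y : L // gx.IsRoot y}),
      ψ^[i] ((fun s : {y : L // gx.IsRoot y} =>
        (⟨T s.1, hT1 s.1 s.2⟩ : {y : L // gx.IsRoot y}))^[i] s).1 =
        (fun z => Polynomial.aeval z f)^[i * (k * m)] s.1 := by
    intro i
    induction i with
    | zero => intro s; rw [Nat.zero_mul]; rfl
    | succ i ih =>
      intro s
      rw [Function.iterate_succ_apply' (f := ψ), Function.iterate_succ_apply]
      rw [ih, Pg3H72.comm_it]
      show _ = _
      rw [hT2 s.1 s.2, ← Function.iterate_add_apply]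
      congr 2
      ring
  have hψit : ∀ (i : ℕ) (z : L), ψ^[i] z = φ^[k * i] z := by
    intro i z
    have h8 : (ψ : L → L) = φ^[k] := funext hψ
    rw [h8, ← Function.iterate_mul]
  have h0 : GS.ev ![x, 1] ![y, 1] G = 0 := by
    rw [Pg3H72.ev_root hb]
    exact hy
  refine ⟨y, k * j, Nat.mul_pos hk hj, Pg3H72.trans_y hb h1 h2 hG.irr hx h0, h0,
    Pg3H72.iter_pt φ f hφ _, ?_⟩
  have h7 := hit j ⟨y, hy⟩
  have h8 : j * (k * m) = k * j * m := by ring
  rw [hTj, hψit, h8] at h7
  exact h7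

end Pool.DynLehmer.UN

/-! # Row PG5: degrees at a generic zero of an irreducible form -/

namespace Pool.DynLehmer.UN
open MvPolynomial Pool.DynLehmer Pool.DynLehmer.GS
open scoped Classical

namespace Pg5

variable {K : Type} [Field K]

/-- a form which vanishes at a transcendental point is zero -/
theorem form_zero {L : Type} [Field L] [Algebra K L] {x : L} (hx : Transcendental K x) {n : ℕ}
    {R : MvPolynomial (Fin 2) K} (hR : R.IsHomogeneous n) (h : aeval ![x, 1] R = 0) : R = 0 := by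
  have h1 := Polynomial.homogenize_eq_of_isHomogeneous hR rfl
  have h2 : Polynomial.aeval x (aeval ![Polynomial.X, 1] R : Polynomial K) = aeval ![x, 1] R := by
    have h3 : (Polynomial.aeval x : Polynomial K →ₐ[K] L).comp (aeval ![Polynomial.X, 1]) =
        (aeval ![x, 1] : MvPolynomial (Fin 2) K →ₐ[K] L) := by
      refine MvPolynomial.algHom_ext fun i => ?_
      fin_cases i <;> simp
    exact DFunLike.congr_fun h3 R
  rw [h] at h2
  have h4 : (aeval ![Polynomial.X, 1] R : Polynomial K) = 0 := by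
    by_contra hne
    exact hx ⟨_, hne, h2⟩
  rw [← h1, h4, Polynomial.homogenize_zero]

/-- the zero `(x, y)` of `G` is generic -/
theorem generic {d₁ d₂ : ℕ} {G : MvPolynomial (Fin 2 ⊕ Fin 2) K} (h2 : 1 ≤ d₂)
    (hG : Irreducible G) (hb : BiHom d₁ d₂ G) {L : Type} [Field L] [Algebra K L] {x y : L}
    (hx : Transcendental K x) (h0 : GS.ev ![x, 1] ![y, 1] G = 0) (c₁ c₂ : ℕ)
    (H : MvPolynomial (Fin 2 ⊕ Fin 2) K) (hH : BiHom c₁ c₂ H) :
    GS.ev ![x, 1] ![y, 1] H = 0 ↔ G ∣ H := by
  constructor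
  · intro h
    by_contra hd
    obtain ⟨R, hR0, hR, hv⟩ := bez K d₁ d₂ c₁ c₂ G H hb hH hG h2 hd
    refine hR0 (form_zero hx hR (hv L ![x, 1] ![y, 1] ?_ h0 h))
    intro hz
    exact one_ne_zero (congrFun hz 1)
  · rintro ⟨A, rfl⟩
    have h3 : GS.ev ![x, 1] ![y, 1] (G * A) =
        GS.ev ![x, 1] ![y, 1] G * GS.ev ![x, 1] ![y, 1] A := map_mul _ _ _
    rw [h3, h0, zero_mul]

/-- common denominators -/
theorem clear {L : Type} [Field L] [Algebra K L] (x : L)
    (c : ℕ → IntermediateField.adjoin K {x}) (N : ℕ) :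
    ∃ s : Polynomial K, Polynomial.aeval x s ≠ 0 ∧ ∀ i < N, ∃ r : Polynomial K,
      Polynomial.aeval x s * (c i : L) = Polynomial.aeval x r := by
  induction N with
  | zero => exact ⟨1, by simp, fun i hi => absurd hi (Nat.not_lt_zero i)⟩
  | succ N ih =>
    obtain ⟨s, hs, h⟩ := ih
    obtain ⟨r', s', h'⟩ := (IntermediateField.mem_adjoin_simple_iff K (c N : L)).1 (c N).2
    by_cases h0 : Polynomial.aeval x s' = 0
    · refine ⟨s, hs, fun i hi => ?_⟩
      rcases Nat.lt_succ_iff_lt_or_eq.1 hi with hi | rfl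
      · exact h i hi
      · exact ⟨0, by rw [h', h0]; simp⟩
    · refine ⟨s * s', by rw [map_mul]; exact mul_ne_zero hs h0, fun i hi => ?_⟩
      rcases Nat.lt_succ_iff_lt_or_eq.1 hi with hi | rfl
      · obtain ⟨r, hr⟩ := h i hi
        exact ⟨r * s', by rw [map_mul, map_mul, ← hr]; ring⟩
      · exact ⟨s * r', by rw [map_mul, map_mul, h']; field_simp⟩

theorem dh_inl (F : MvPolynomial (Fin 2) K) :
    Bez.dh (rename Sum.inl F : MvPolynomial (Fin 2 ⊕ Fin 2) K) = Polynomial.C F := by
  have h : (Bez.dh (K := K)).comp (rename Sum.inl) =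
      (Polynomial.CAlgHom : MvPolynomial (Fin 2) K →ₐ[K] Polynomial (MvPolynomial (Fin 2) K)) := by
    refine MvPolynomial.algHom_ext fun i => ?_
    simp [Bez.dh]
  exact DFunLike.congr_fun h F

/-- an equation of `y` over the field generated by `x` -/
theorem exists_eqn {d₁ d₂ : ℕ} {G : MvPolynomial (Fin 2 ⊕ Fin 2) K} (h2 : 1 ≤ d₂)
    (hG : G ≠ 0) (hb : BiHom d₁ d₂ G) {M : Type} [Field M] [Algebra K M] {x y : M}
    (h : ∀ (e₁ e₂ : ℕ) (H : MvPolynomial (Fin 2 ⊕ Fin 2) K), BiHom e₁ e₂ H →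
        (GS.ev ![x, 1] ![y, 1] H = 0 ↔ G ∣ H)) :
    ∃ g : Polynomial (IntermediateField.adjoin K {x}), g ≠ 0 ∧ g.natDegree ≤ d₂ ∧
      Polynomial.aeval y g = 0 := by
  set E := IntermediateField.adjoin K {x} with hE
  set x' : E := ⟨x, IntermediateField.mem_adjoin_simple_self K x⟩ with hx'
  have hcomp : (algebraMap E M).comp (Bez.phi (K := K) ![x', 1]) = Bez.phi ![x, 1] := by
    have h3 : (IsScalarTower.toAlgHom K E M).comp (aeval ![x', 1]) =
        (aeval ![x, 1] : MvPolynomial (Fin 2) K →ₐ[K] M) := by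
      refine MvPolynomial.algHom_ext fun i => ?_
      rw [aeval_X]
      show algebraMap E M (aeval ![x', 1] (X i)) = _
      rw [aeval_X]
      fin_cases i
      · rfl
      · exact map_one _
    exact congrArg (fun φ : MvPolynomial (Fin 2) K →ₐ[K] M => (φ : MvPolynomial (Fin 2) K →+* M)) h3
  have h0 : GS.ev ![x, 1] ![y, 1] G = 0 := (h d₁ d₂ G hb).2 dvd_rfl
  have hne1 : (![y, 1] : Fin 2 → M) 1 ≠ 0 := one_ne_zero
  rw [Bez.ev_fin hb _ _ hne1] at h0
  have h4 : (![y, 1] : Fin 2 → M) 1 = 1 := rfl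
  have h5 : (![y, 1] : Fin 2 → M) 0 = y := rfl
  rw [h4, h5, one_pow, one_mul, div_one] at h0
  refine ⟨(Bez.dh G).map (Bez.phi ![x', 1]), ?_,
    Polynomial.natDegree_map_le.trans (Bez.natDegree_dh hb), ?_⟩
  · intro hz
    have h6 : (Bez.dh G).map (Bez.phi ![x, 1] : Bez.A K →+* M) = 0 := by
      rw [← hcomp, ← Polynomial.map_map, hz, Polynomial.map_zero]
    have h7 : Bez.dh G = 0 := by
      ext1 l
      rw [Polynomial.coeff_zero]
      refine Gena69.trans_inl h2 hb h (Bez.hom_coeff hb l) ?_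
      have h8 := congrArg (fun f => Polynomial.coeff f l) h6
      simp only [Polynomial.coeff_map, Polynomial.coeff_zero] at h8
      exact h8
    have h9 := Bez.homog_dh hb
    rw [h7, Polynomial.homogenize_zero] at h9
    exact hG ((map_eq_zero_iff _ Bez.e.injective).1 h9.symm)
  · rw [← Polynomial.eval_map_algebraMap, Polynomial.map_map]
    rw [hcomp]
    exact h0

/-- the powers of `y` below `d₂` are independent over the field generated by `x` -/
theorem le_degree {d₁ d₂ : ℕ} {G : MvPolynomial (Fin 2 ⊕ Fin 2) K}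
    (hb : BiHom d₁ d₂ G) {M : Type} [Field M] [Algebra K M] {x y : M}
    (h : ∀ (e₁ e₂ : ℕ) (H : MvPolynomial (Fin 2 ⊕ Fin 2) K), BiHom e₁ e₂ H →
        (GS.ev ![x, 1] ![y, 1] H = 0 ↔ G ∣ H))
    (p : Polynomial (IntermediateField.adjoin K {x})) (hp : p.Monic)
    (h0 : Polynomial.aeval y p = 0) : d₂ ≤ p.natDegree := by
  set m := p.natDegree with hm
  obtain ⟨s, hs, hr⟩ := clear x (fun i => p.coeff i) (m + 1)
  choose! r hr using hr
  set D := (Finset.range (m + 1)).sup (fun i => (r i).natDegree) with hD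
  have hle : ∀ i < m + 1, (r i).natDegree ≤ D := fun i hi =>
    Finset.le_sup (f := fun i => (r i).natDegree) (Finset.mem_range.2 hi)
  set H : MvPolynomial (Fin 2 ⊕ Fin 2) K := ∑ i ∈ Finset.range (m + 1),
    rename Sum.inl ((r i).homogenize D) * (X (Sum.inr 0) ^ i * X (Sum.inr 1) ^ (m - i)) with hH
  have hbi : BiHom D m H := by
    refine BiHom.sum _ fun i hi => ?_
    have hi' : i ≤ m := Nat.lt_succ_iff.1 (Finset.mem_range.1 hi)
    have h3 := (Gena69.bihom_rinl (K := K) (Polynomial.isHomogeneous_homogenize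
      (n := D) (r i))).mul (((bihom_inr (K := K) 0).pow i).mul ((bihom_inr (K := K) 1).pow (m - i)))
    have e1 : D + (i * 0 + (m - i) * 0) = D := by omega
    have e2 : 0 + (i * 1 + (m - i) * 1) = m := by omega
    rw [e1, e2] at h3
    exact h3
  have hev : GS.ev ![x, 1] ![y, 1] H = 0 := by
    have h3 : GS.ev ![x, 1] ![y, 1] H = ∑ i ∈ Finset.range (m + 1),
        Polynomial.aeval x (r i) * y ^ i := by
      rw [hH]
      unfold GS.ev
      rw [map_sum]
      refine Finset.sum_congr rfl fun i hi => ?_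
      rw [map_mul, map_mul, map_pow, map_pow, aeval_X, aeval_X]
      have h4 := Gena69.ev_inl (K := K) ![x, 1] ![y, 1] ((r i).homogenize D)
      unfold GS.ev at h4
      have h6 : aeval ![x, 1] ((r i).homogenize D) = Polynomial.aeval x (r i) := by
        rw [Polynomial.aeval_homogenize_of_eq_one (hle i (Finset.mem_range.1 hi))]
        · rfl
        · rfl
      rw [h4, h6]
      show Polynomial.aeval x (r i) * (y ^ i * 1 ^ (m - i)) = _
      rw [one_pow, mul_one]
    rw [h3]
    have h5 : ∑ i ∈ Finset.range (m + 1), Polynomial.aeval x (r i) * y ^ i =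
        Polynomial.aeval x s * Polynomial.aeval y p := by
      rw [Polynomial.aeval_eq_sum_range (p := p), Finset.mul_sum]
      refine Finset.sum_congr rfl fun i hi => ?_
      rw [← hr i (Finset.mem_range.1 hi), mul_assoc]
      rfl
    rw [h5, h0, mul_zero]
  have hne : H ≠ 0 := by
    intro hz
    have h3 : (Bez.dh H).coeff m = (r m).homogenize D := by
      rw [hH, map_sum, Polynomial.finsetSum_coeff]
      have h4 : ∀ i ∈ Finset.range (m + 1), (Bez.dh (rename Sum.inl ((r i).homogenize D) *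
          (X (Sum.inr 0) ^ i * X (Sum.inr 1) ^ (m - i)) : MvPolynomial (Fin 2 ⊕ Fin 2) K)).coeff m =
          if m = i then (r i).homogenize D else 0 := by
        intro i _
        have h5 : Bez.dh (rename Sum.inl ((r i).homogenize D) *
          (X (Sum.inr 0) ^ i * X (Sum.inr 1) ^ (m - i)) : MvPolynomial (Fin 2 ⊕ Fin 2) K) =
          Polynomial.C ((r i).homogenize D) * Polynomial.X ^ i := by
          rw [map_mul, map_mul, map_pow, map_pow, dh_inl]
          simp [Bez.dh]
        rw [h5, Polynomial.coeff_C_mul_X_pow]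
      rw [Finset.sum_congr rfl h4, Finset.sum_ite_eq, if_pos (Finset.self_mem_range_succ m)]
    rw [hz, map_zero, Polynomial.coeff_zero] at h3
    have h6 : r m = 0 :=
      (Polynomial.homogenize_eq_zero_iff (hle m (Nat.lt_succ_self m))).1 h3.symm
    have h7 := hr m (Nat.lt_succ_self m)
    rw [h6, map_zero, hm, Polynomial.Monic.coeff_natDegree hp] at h7
    exact hs (by simpa using h7)
  exact (Gena69.le_of_dvd hb hbi hne ((h D m H hbi).1 hev)).2

/-- the degree of `y` over the field generated by `x` -/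
theorem degree {d₁ d₂ : ℕ} {G : MvPolynomial (Fin 2 ⊕ Fin 2) K} (h2 : 1 ≤ d₂)
    (hG : G ≠ 0) (hb : BiHom d₁ d₂ G) {M : Type} [Field M] [Algebra K M] {x y : M}
    (h : ∀ (e₁ e₂ : ℕ) (H : MvPolynomial (Fin 2 ⊕ Fin 2) K), BiHom e₁ e₂ H →
        (GS.ev ![x, 1] ![y, 1] H = 0 ↔ G ∣ H)) :
    IntermediateField.relfinrank (IntermediateField.adjoin K {x})
      (IntermediateField.adjoin K {x, y}) = d₂ := by
  have hle : IntermediateField.adjoin K {x} ≤ IntermediateField.adjoin K {x, y} :=
    IntermediateField.adjoin.mono K _ _ (Set.singleton_subset_iff.2 (Set.mem_insert x _))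
  rw [IntermediateField.relfinrank_eq_finrank_of_le hle, IntermediateField.extendScalars_adjoin hle]
  obtain ⟨g, hg0, hgd, hg⟩ := exists_eqn h2 hG hb h
  let E := IntermediateField.adjoin K {x}
  have hy : IsIntegral E y := by
    have : IsAlgebraic E y := ⟨g, hg0, hg⟩
    exact this.isIntegral
  have h3 : IntermediateField.adjoin E {x, y} = IntermediateField.adjoin E {y} := by
    refine le_antisymm (IntermediateField.adjoin_le_iff.2 ?_)
      (IntermediateField.adjoin.mono E _ _ (Set.singleton_subset_iff.2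
        (Set.mem_insert_of_mem x rfl)))
    rintro z (rfl | hz)
    · exact (IntermediateField.adjoin E {y}).algebraMap_mem
        ⟨z, IntermediateField.mem_adjoin_simple_self K z⟩
    · rw [Set.mem_singleton_iff.1 hz]
      exact IntermediateField.mem_adjoin_simple_self E y
  rw [h3, IntermediateField.adjoin.finrank hy]
  refine le_antisymm ?_ ?_
  · exact (Polynomial.natDegree_le_natDegree (minpoly.degree_le_of_ne_zero E y hg0 hg)).trans hgd
  · exact le_degree hb h (minpoly E y) (minpoly.monic hy) (minpoly.aeval E y)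

/-- Row PG5 -/
theorem pg5 : Pg5Statement := by
  intro K _ d₁ d₂ G h1 h2 hG hb L _ _ x y hx h0
  have hgen := generic h2 hG hb hx h0
  have hy : Transcendental K y :=
    Gena69.transcendental_of fun n F hF h0 => Gena69.trans_inr h1 hb hgen hF h0
  have h0' : GS.ev ![y, 1] ![x, 1] (rename Sum.swap G) = 0 := by
    rw [Bas.ev_swap]
    exact h0
  have hgen' := generic h1 (Bas.irreducible_swap hG) (Bas.biHom_swap hb) hy h0'
  refine ⟨hy, degree h2 hG.ne_zero hb hgen, ?_, fun c₁ c₂ H hH h => (hgen c₁ c₂ H hH).1 h⟩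
  rw [Set.pair_comm x y]
  exact degree h1 (Bas.irreducible_swap hG).ne_zero (Bas.biHom_swap hb) hgen'

end Pg5

end Pool.DynLehmer.UN

/-!
# Row PG6: the factors of an irreducible form over the algebraic closure have proportional degrees
-/

namespace Pool.DynLehmer.UN.Pg621
open MvPolynomial Pool.DynLehmer Pool.DynLehmer.GS
open scoped Classical

theorem bi_unique {K : Type} [Field K] {a b c d : ℕ} {G : MvPolynomial (Fin 2 ⊕ Fin 2) K}
    (hG : BiHom a b G) (hG' : BiHom c d G) (h0 : G ≠ 0) : a = c ∧ b = d := by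
  obtain ⟨t, ht⟩ : G.support.Nonempty := by
    rw [Finset.nonempty_iff_ne_empty]
    intro h
    exact h0 (support_eq_empty.1 h)
  have h1 := hG t ht
  have h2 := hG' t ht
  exact ⟨h1.1.symm.trans h2.1, h1.2.symm.trans h2.2⟩

theorem bihom_map {K L : Type} [Field K] [Field L] (f : K →+* L) {a b : ℕ}
    {G : MvPolynomial (Fin 2 ⊕ Fin 2) K} : BiHom a b (map f G) ↔ BiHom a b G := by
  unfold BiHom
  rw [support_map_of_injective G f.injective]

theorem eq_deg {K : Type} [Field K] {a b c d : ℕ} {G H : MvPolynomial (Fin 2 ⊕ Fin 2) K}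
    (hG : BiHom a b G) (hH : BiHom c d H) (h0 : G ≠ 0) (h0' : H ≠ 0) (hGH : G ∣ H) (hHG : H ∣ G) :
    a = c ∧ b = d := by
  obtain ⟨a', b', ha, hb, h1⟩ := BiHom.of_dvd hH h0' hGH
  obtain ⟨c', d', hc, hd, h2⟩ := BiHom.of_dvd hG h0 hHG
  have h3 := bi_unique hG h1 h0
  have h4 := bi_unique hH h2 h0'
  omega

/-- The product of the conjugates of a form is defined over the base field. -/
theorem exists_norm {K E : Type} [Field K] [Field E] [Algebra K E] [FiniteDimensional K E]
    [IsGalois K E] {c₁ c₂ : ℕ} (G : MvPolynomial (Fin 2 ⊕ Fin 2) E) :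
    ∃ P : MvPolynomial (Fin 2 ⊕ Fin 2) K,
      map (algebraMap K E) P = ∏ σ : E ≃ₐ[K] E, map (σ : E →+* E) G ∧
      (BiHom c₁ c₂ G → BiHom (Fintype.card (E ≃ₐ[K] E) * c₁) (Fintype.card (E ≃ₐ[K] E) * c₂) P) := by
  have hfix : ∀ τ : E ≃ₐ[K] E, map (τ : E →+* E) (∏ σ : E ≃ₐ[K] E, map (σ : E →+* E) G) =
      ∏ σ : E ≃ₐ[K] E, map (σ : E →+* E) G := by
    intro τ
    rw [map_prod]
    have h1 : ∀ σ : E ≃ₐ[K] E, map (τ : E →+* E) (map (σ : E →+* E) G) =
        map ((τ * σ : E ≃ₐ[K] E) : E →+* E) G := by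
      intro σ
      rw [map_map]
      rfl
    simp only [h1]
    exact Equiv.prod_comp (Equiv.mulLeft τ) (fun σ : E ≃ₐ[K] E => map (σ : E →+* E) G)
  obtain ⟨P, hP⟩ : (∏ σ : E ≃ₐ[K] E, map (σ : E →+* E) G) ∈
      Set.range (map (algebraMap K E) : MvPolynomial (Fin 2 ⊕ Fin 2) K →
        MvPolynomial (Fin 2 ⊕ Fin 2) E) := by
    rw [mem_range_map_iff_coeffs_subset]
    intro a ha
    rw [Finset.mem_coe, mem_coeffs_iff] at ha
    obtain ⟨t, _, rfl⟩ := ha
    have h1 : coeff t (∏ σ : E ≃ₐ[K] E, map (σ : E →+* E) G) ∈ (⊥ : IntermediateField K E) := by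
      rw [IsGalois.mem_bot_iff_fixed]
      intro τ
      have h2 := congrArg (coeff t) (hfix τ)
      rw [coeff_map] at h2
      exact h2
    exact IntermediateField.mem_bot.1 h1
  refine ⟨P, hP, fun hB => ?_⟩
  rw [← bihom_map (algebraMap K E), hP]
  have h3 := GS.Bif.BiHom.prod (Finset.univ : Finset (E ≃ₐ[K] E)) (a := fun _ => c₁) (b := fun _ => c₂)
    (G := fun σ => map (σ : E →+* E) G) (fun σ _ => (bihom_map (σ : E →+* E)).2 hB)
  simp only [Finset.sum_const, Finset.card_univ, smul_eq_mul] at h3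
  exact h3

/-- Row PG6. -/
theorem pg6 : ∀ (K : Type) [Field K] [CharZero K] (d₁ d₂ c₁ c₂ : ℕ)
    (G : MvPolynomial (Fin 2 ⊕ Fin 2) K)
    (G₁ : MvPolynomial (Fin 2 ⊕ Fin 2) (AlgebraicClosure K)), 1 ≤ d₁ → 1 ≤ d₂ → Irreducible G →
    BiHom d₁ d₂ G → Irreducible G₁ → BiHom c₁ c₂ G₁ →
    G₁ ∣ map (algebraMap K (AlgebraicClosure K)) G → c₁ * d₂ = c₂ * d₁ := by
  intro K _ _ d₁ d₂ c₁ c₂ G G₁ h1 h2 hG hB hG₁ hB₁ hdvd
  obtain ⟨H₁, hH₁⟩ := hdvd
  set S : Set (AlgebraicClosure K) := ↑G₁.coeffs ∪ ↑H₁.coeffs with hS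
  have hSfin : Finite S := by
    rw [hS]
    exact ((Finset.finite_toSet _).union (Finset.finite_toSet _)).to_subtype
  have hfd : FiniteDimensional K (IntermediateField.adjoin K S) := by
    apply IntermediateField.finiteDimensional_adjoin
    intro x _
    exact (Algebra.IsAlgebraic.isAlgebraic x).isIntegral
  set E : IntermediateField K (AlgebraicClosure K) :=
    IntermediateField.normalClosure K (IntermediateField.adjoin K S) (AlgebraicClosure K) with hE
  have hE0 : IntermediateField.adjoin K S ≤ E := IntermediateField.le_normalClosure _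
  have hGal : IsGalois K E := by
    have : Normal K E := normalClosure.normal K _ _
    exact ⟨⟩
  have hfdE : FiniteDimensional K E := normalClosure.is_finiteDimensional K _ _
  have hSE : S ⊆ Set.range (algebraMap E (AlgebraicClosure K)) := by
    intro x hx
    exact ⟨⟨x, hE0 (IntermediateField.subset_adjoin K S hx)⟩, rfl⟩
  obtain ⟨GE, hGE⟩ : G₁ ∈ Set.range (map (algebraMap E (AlgebraicClosure K)) :
      MvPolynomial (Fin 2 ⊕ Fin 2) E → MvPolynomial (Fin 2 ⊕ Fin 2) (AlgebraicClosure K)) := by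
    rw [mem_range_map_iff_coeffs_subset]
    exact Set.subset_union_left.trans hSE
  obtain ⟨HE, hHE⟩ : H₁ ∈ Set.range (map (algebraMap E (AlgebraicClosure K)) :
      MvPolynomial (Fin 2 ⊕ Fin 2) E → MvPolynomial (Fin 2 ⊕ Fin 2) (AlgebraicClosure K)) := by
    rw [mem_range_map_iff_coeffs_subset]
    exact Set.subset_union_right.trans hSE
  have hmul : GE * HE = map (algebraMap K E) G := by
    apply map_injective (algebraMap E (AlgebraicClosure K)) (algebraMap E (AlgebraicClosure K)).injective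
    rw [map_mul, hGE, hHE, map_map, ← IsScalarTower.algebraMap_eq, ← hH₁]
  obtain ⟨P, hP, hPB⟩ := exists_norm (K := K) (c₁ := c₁) (c₂ := c₂) GE
  obtain ⟨Q, hQ, _⟩ := exists_norm (K := K) (c₁ := 0) (c₂ := 0) HE
  have hBE : BiHom c₁ c₂ GE := by
    rw [← bihom_map (algebraMap E (AlgebraicClosure K)), hGE]
    exact hB₁
  have hPB' := hPB hBE
  set n := Fintype.card (E ≃ₐ[K] E) with hn
  have hn0 : 0 < n := Fintype.card_pos
  have hPQ : P * Q = G ^ n := by
    apply map_injective (algebraMap K E) (algebraMap K E).injective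
    rw [map_mul, hP, hQ, ← Finset.prod_mul_distrib, map_pow]
    have h3 : ∀ σ : E ≃ₐ[K] E, map (σ : E →+* E) GE * map (σ : E →+* E) HE =
        map (algebraMap K E) G := by
      intro σ
      have h4 : (σ : E →+* E).comp (algebraMap K E) = algebraMap K E :=
        RingHom.ext fun a => σ.commutes a
      rw [← map_mul, hmul, map_map, h4]
    simp only [h3, Finset.prod_const, Finset.card_univ]
    rfl
  have hG0 : G ≠ 0 := hG.ne_zero
  have hP0 : P ≠ 0 := by
    rintro rfl
    rw [zero_mul] at hPQ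
    exact pow_ne_zero n hG0 hPQ.symm
  have hprime : Prime G := hG.prime
  obtain ⟨j, _, hj⟩ := (dvd_prime_pow hprime n).1 ⟨Q, hPQ.symm⟩
  have h5 := eq_deg hPB' (hB.pow j) hP0 (pow_ne_zero j hG0) hj.dvd hj.symm.dvd
  have h6 : n * (c₁ * d₂) = n * (c₂ * d₁) := by
    rw [← mul_assoc, ← mul_assoc, h5.1, h5.2]
    ring
  exact Nat.eq_of_mul_eq_mul_left hn0 h6

end Pool.DynLehmer.UN.Pg621

/-!
# Row PG7: a periodic form which relates a wandering point to a conjugate
-/

namespace Pool.DynLehmer.UN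
open MvPolynomial NumberField Pool.DynLehmer Pool.DynLehmer.SB Pool.DynLehmer.SP
  Pool.DynLehmer.GS Pool.DynLehmer.LP Pool.DynLehmer.LW
open scoped Classical

namespace Pg775

/-- Algebraic over algebraic is algebraic, for adjoined elements. -/
theorem integral_step {K E : Type} [Field K] [Field E] [Algebra K E] (F₀ : IntermediateField K E)
    (a b : E) (ha : IsIntegral F₀ a)
    (hb : IntermediateField.relfinrank (IntermediateField.adjoin K {a})
      (IntermediateField.adjoin K {a, b}) ≠ 0) : IsIntegral F₀ b := by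
  have hle : IntermediateField.adjoin K {a} ≤ IntermediateField.adjoin K {a, b} :=
    IntermediateField.adjoin.mono _ _ _ (by simp)
  rw [IntermediateField.relfinrank_eq_finrank_of_le hle] at hb
  have hfd : FiniteDimensional (IntermediateField.adjoin K {a})
      (IntermediateField.extendScalars hle) := Module.finite_of_finrank_pos (Nat.pos_of_ne_zero hb)
  have hbm : b ∈ IntermediateField.extendScalars hle := by
    rw [IntermediateField.mem_extendScalars]
    exact IntermediateField.subset_adjoin K _ (by simp)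
  have h1 : IsIntegral (IntermediateField.adjoin K {a})
      (⟨b, hbm⟩ : IntermediateField.extendScalars hle) := Algebra.IsIntegral.isIntegral _
  have h2 : IsIntegral (IntermediateField.adjoin K {a}) b := by
    have := h1.algebraMap (B := E)
    exact this
  -- the algebraic closure of `F₀`
  let B : IntermediateField F₀ E := algebraicClosure F₀ E
  have haB : a ∈ B := mem_algebraicClosure_iff'.2 ha
  have hleB : ∀ z : IntermediateField.adjoin K {a}, (z : E) ∈ B := by
    intro z
    have h3 : IntermediateField.adjoin K {a} ≤ B.restrictScalars K := by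
      rw [IntermediateField.adjoin_le_iff]
      rintro w hw
      rw [Set.mem_singleton_iff.1 hw]
      exact haB
    exact h3 z.2
  let g : IntermediateField.adjoin K {a} →+* B :=
    (algebraMap (IntermediateField.adjoin K {a}) E).codRestrict B.toSubring hleB
  obtain ⟨p, hp, hp0⟩ := h2
  have h3 : IsIntegral B b := by
    refine ⟨p.map g, hp.map g, ?_⟩
    rw [Polynomial.eval₂_map]
    exact hp0
  have : Algebra.IsIntegral F₀ B := Algebra.IsAlgebraic.isIntegral
  exact isIntegral_trans b h3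

/-- Going around a cycle. -/
theorem cyc (h5 : Pg5Statement) {K E : Type} [Field K] [Field E] [Algebra K E] {d₁ d₂ : ℕ}
    {G : MvPolynomial (Fin 2 ⊕ Fin 2) K} (hd₁ : 1 ≤ d₁) (hd₂ : 1 ≤ d₂) (hG : Irreducible G)
    (hB : BiHom d₁ d₂ G) (x : ℕ → E) (r : ℕ) (hr : 1 ≤ r) (hper : ∀ i, x (i + r) = x i)
    (ht : Transcendental K (x 0)) (hrel : ∀ i, GS.ev ![x i, 1] ![x (i + 1), 1] G = 0) :
    d₁ = d₂ := by
  have htr : ∀ i, Transcendental K (x i) := by
    intro i
    induction i with
    | zero => exact ht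
    | succ i ih => exact (h5 K d₁ d₂ G hd₁ hd₂ hG hB E (x i) (x (i + 1)) ih (hrel i)).1
  have hA : ∀ i, IntermediateField.relfinrank (IntermediateField.adjoin K {x i})
      (IntermediateField.adjoin K {x i, x (i + 1)}) = d₂ := fun i =>
    (h5 K d₁ d₂ G hd₁ hd₂ hG hB E (x i) (x (i + 1)) (htr i) (hrel i)).2.1
  have hC : ∀ i, IntermediateField.relfinrank (IntermediateField.adjoin K {x (i + 1)})
      (IntermediateField.adjoin K {x i, x (i + 1)}) = d₁ := fun i =>
    (h5 K d₁ d₂ G hd₁ hd₂ hG hB E (x i) (x (i + 1)) (htr i) (hrel i)).2.2.1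
  set T : IntermediateField K E := IntermediateField.adjoin K (Set.range x) with hT
  have hsub : ∀ i, IntermediateField.adjoin K {x i, x (i + 1)} ≤ T := fun i =>
    IntermediateField.adjoin.mono _ _ _ (by
      rintro w (hw | hw)
      · exact ⟨i, hw.symm⟩
      · exact ⟨i + 1, (Set.mem_singleton_iff.1 hw).symm⟩)
  have hl : ∀ i, IntermediateField.adjoin K {x i} ≤ IntermediateField.adjoin K {x i, x (i + 1)} :=
    fun i => IntermediateField.adjoin.mono _ _ _ (by simp)
  have hl' : ∀ i, IntermediateField.adjoin K {x (i + 1)} ≤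
      IntermediateField.adjoin K {x i, x (i + 1)} :=
    fun i => IntermediateField.adjoin.mono _ _ _ (by simp)
  have hstep : ∀ i, IntermediateField.relfinrank (IntermediateField.adjoin K {x i}) T * d₁ =
      IntermediateField.relfinrank (IntermediateField.adjoin K {x (i + 1)}) T * d₂ := by
    intro i
    rw [← IntermediateField.relfinrank_mul_relfinrank (hl i) (hsub i),
      ← IntermediateField.relfinrank_mul_relfinrank (hl' i) (hsub i), hA, hC]
    ring
  have hind : ∀ n, IntermediateField.relfinrank (IntermediateField.adjoin K {x 0}) T * d₁ ^ n =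
      IntermediateField.relfinrank (IntermediateField.adjoin K {x n}) T * d₂ ^ n := by
    intro n
    induction n with
    | zero => rfl
    | succ n ih =>
      rw [pow_succ, ← mul_assoc, ih, pow_succ, mul_assoc, mul_comm (d₂ ^ n) d₁, ← mul_assoc,
        hstep n]
      ring
  have hD : IntermediateField.relfinrank (IntermediateField.adjoin K {x 0}) T ≠ 0 := by
    have hle : IntermediateField.adjoin K {x 0} ≤ T := (hl 0).trans (hsub 0)
    rw [IntermediateField.relfinrank_eq_finrank_of_le hle,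
      IntermediateField.extendScalars_adjoin hle]
    have hint : ∀ i, IsIntegral (IntermediateField.adjoin K {x 0}) (x i) := by
      intro i
      induction i with
      | zero =>
        exact isIntegral_algebraMap
          (x := (⟨x 0, IntermediateField.mem_adjoin_simple_self K (x 0)⟩ :
            IntermediateField.adjoin K {x 0}))
      | succ i ih => exact integral_step _ _ _ ih (by rw [hA i]; omega)
    have hfinr : (Set.range x).Finite := by
      refine ((Finset.range r).finite_toSet.image x).subset ?_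
      rintro _ ⟨i, rfl⟩
      refine ⟨i % r, by simpa using Nat.mod_lt _ hr, ?_⟩
      have h1 : ∀ n j, x (j + n * r) = x j := by
        intro n
        induction n with
        | zero => intro j; simp
        | succ n ih =>
          intro j
          rw [Nat.succ_mul, ← add_assoc, hper, ih]
      conv_rhs => rw [← Nat.mod_add_div i r, mul_comm, h1]
    have : Finite (Set.range x) := hfinr
    have : FiniteDimensional (IntermediateField.adjoin K {x 0})
        (IntermediateField.adjoin (IntermediateField.adjoin K {x 0}) (Set.range x)) :=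
      IntermediateField.finiteDimensional_adjoin (by
        rintro _ ⟨i, rfl⟩
        exact hint i)
    exact (Module.finrank_pos).ne'
  have h1 := hind r
  have h2 : x r = x 0 := by
    have := hper 0
    rwa [zero_add] at this
  rw [h2] at h1
  exact Nat.pow_left_injective (by omega) (Nat.eq_of_mul_eq_mul_left (Nat.pos_of_ne_zero hD) h1)

/-- A limit of a sequence of points. -/
theorem exists_limit {K N : Type} [Field K] [Field N] [Algebra K N] (z : ℕ → N)
    (hz : ∀ P : Polynomial K, P ≠ 0 → ∃ n, Polynomial.aeval (z n) P ≠ 0) :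
    ∃ (E : Type) (_ : Field E) (_ : Algebra K E) (π : (ℕ → N) →ₐ[K] E),
      Transcendental K (π z) := by
  let S : Submonoid (ℕ → N) :=
    { carrier := {a | ∃ P : Polynomial K, P ≠ 0 ∧ Polynomial.aeval z P = a}
      one_mem' := ⟨1, one_ne_zero, map_one _⟩
      mul_mem' := by
        rintro _ _ ⟨P, hP, rfl⟩ ⟨Q, hQ, rfl⟩
        exact ⟨P * Q, mul_ne_zero hP hQ, map_mul _ _ _⟩ }
  have hev : ∀ (P : Polynomial K) (n : ℕ), Polynomial.aeval z P n = Polynomial.aeval (z n) P := by
    intro P n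
    exact (Polynomial.aeval_algHom_apply (Pi.evalAlgHom K (fun _ : ℕ => N) n) z P).symm
  have hdis : Disjoint ((⊥ : Ideal (ℕ → N)) : Set (ℕ → N)) S := by
    rw [Set.disjoint_left]
    rintro a ha ⟨P, hP, hPa⟩
    obtain ⟨n, hn⟩ := hz P hP
    apply hn
    have h0 : a = 0 := ha
    rw [← hev, hPa, h0]
    rfl
  obtain ⟨P, hP, -, hPS⟩ := Ideal.exists_le_prime_disjoint ⊥ S hdis
  have hdom : IsDomain ((ℕ → N) ⧸ P) := Ideal.Quotient.isDomain P
  refine ⟨FractionRing ((ℕ → N) ⧸ P), inferInstance, inferInstance,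
    (IsScalarTower.toAlgHom K ((ℕ → N) ⧸ P) (FractionRing ((ℕ → N) ⧸ P))).comp
      (Ideal.Quotient.mkₐ K P), ?_⟩
  rintro ⟨Q, hQ, hQ0⟩
  rw [Polynomial.aeval_algHom_apply] at hQ0
  have h1 : Ideal.Quotient.mk P (Polynomial.aeval z Q) = 0 := by
    apply IsFractionRing.injective ((ℕ → N) ⧸ P) (FractionRing ((ℕ → N) ⧸ P))
    rw [map_zero]
    exact hQ0
  exact Set.disjoint_left.1 hPS (Ideal.Quotient.eq_zero_iff_mem.1 h1) ⟨Q, hQ, rfl⟩

/-- The relations hold for the limit. -/
theorem ev_limit {K N E : Type} [Field K] [Field N] [Algebra K N] [Field E] [Algebra K E]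
    (π : (ℕ → N) →ₐ[K] E) (z w : ℕ → N) (G : MvPolynomial (Fin 2 ⊕ Fin 2) K)
    (h : ∀ n, GS.ev ![z n, 1] ![w n, 1] G = 0) : GS.ev ![π z, 1] ![π w, 1] G = 0 := by
  have h1 : aeval (Sum.elim ![z, 1] ![w, 1] : Fin 2 ⊕ Fin 2 → (ℕ → N)) G = 0 := by
    funext n
    have h2 := comp_aeval_apply (Pi.evalAlgHom K (fun _ : ℕ => N) n)
      (f := (Sum.elim ![z, 1] ![w, 1] : Fin 2 ⊕ Fin 2 → (ℕ → N))) G
    have h3 : (fun i => (Pi.evalAlgHom K (fun _ : ℕ => N) n)
        ((Sum.elim ![z, 1] ![w, 1] : Fin 2 ⊕ Fin 2 → (ℕ → N)) i)) =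
        Sum.elim ![z n, 1] ![w n, 1] := by
      funext i
      rcases i with i | i <;> fin_cases i <;> rfl
    rw [h3] at h2
    exact h2.trans (h n)
  have h2 := comp_aeval_apply π
    (f := (Sum.elim ![z, 1] ![w, 1] : Fin 2 ⊕ Fin 2 → (ℕ → N))) G
  rw [h1, map_zero] at h2
  have h3 : (fun i => π ((Sum.elim ![z, 1] ![w, 1] : Fin 2 ⊕ Fin 2 → (ℕ → N)) i)) =
      Sum.elim ![π z, 1] ![π w, 1] := by
    funext i
    rcases i with i | i <;> fin_cases i
    · rfl
    · exact map_one π
    · rfl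
    · exact map_one π
  rw [h3] at h2
  exact h2.symm

end Pg775

open Pg775 in
/-- Row PG7. -/
theorem pg7 (h1 : Pg1Statement) (h5 : Pg5Statement) : Pg7Statement := by
  intro K _ _ f hf e G hG N _ _ _ u g hu hw hev d₁ d₂ hB
  obtain ⟨hM, hit, -⟩ := h1 K f (by omega)
  set F := polF f.natDegree f with hF
  set it : N → N := fun z => Polynomial.aeval z f with hitdef
  obtain ⟨D₁, D₂, hD₁, -, hD₂, -, hBD⟩ := hG.hom
  obtain ⟨t, ht⟩ := MvPolynomial.support_nonempty.2 hG.irr.ne_zero
  obtain rfl : d₁ = D₁ := (hB t ht).1.symm.trans (hBD t ht).1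
  obtain rfl : d₂ = D₂ := (hB t ht).2.symm.trans (hBD t ht).2
  obtain ⟨k, hk, hdvd⟩ := hG.per
  -- the point is not at infinity
  have hu1 : u 1 ≠ 0 := by
    intro h0
    have hu0 : u 0 ≠ 0 := (Bas.ne_zero_iff.1 hu).resolve_right (fun h => h h0)
    have hF1 : gAct F N u 1 = 0 := by
      show aeval u (X 1 ^ f.natDegree : MvPolynomial (Fin 2) K) = 0
      rw [map_pow, aeval_X, h0, zero_pow (by omega)]
    have hF0 : gAct F N u 0 ≠ 0 :=
      (Bas.ne_zero_iff.1 (hM.ne N u hu)).resolve_right (fun h => h hF1)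
    apply hw
    refine ⟨0, 1, zero_ne_one, gAct F N u 0 / u 0, div_ne_zero hF0 hu0, ?_⟩
    funext i
    fin_cases i
    · show gAct F N u 0 = gAct F N u 0 / u 0 * u 0
      rw [div_mul_cancel₀ _ hu0]
    · show gAct F N u 1 = gAct F N u 0 / u 0 * u 1
      rw [hF1, h0, mul_zero]
  set x : N := u 0 / u 1 with hx
  have hpu : Prl u ![x, 1] := by
    refine ⟨u 1, hu1, ?_⟩
    funext i
    fin_cases i
    · show u 0 = u 1 * (u 0 / u 1)
      rw [mul_div_cancel₀ _ hu1]
    · show u 1 = u 1 * 1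
      rw [mul_one]
  have hinj : ∀ m n : ℕ, it^[m] x = it^[n] x → m = n := by
    intro m n hmn
    by_contra hne
    apply hw
    have h2 : Prl ((gAct F N)^[n] u) ((gAct F N)^[m] u) := by
      refine Bas.prl_trans (Bas.prl_iter hM.hom hpu n) ?_
      rw [hit, ← hmn, ← hit]
      exact Bas.prl_symm (Bas.prl_iter hM.hom hpu m)
    exact ⟨m, n, hne, h2⟩
  -- the conjugates
  have hev0 : GS.ev ![x, 1] ![g x, 1] G = 0 := by
    refine (Bas.ev_prl hBD hpu ?_).1 hev
    have h2 := Bas.prl_map (g : N →+* N) hpu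
    have h3 : (fun i => (g : N →+* N) ((![x, 1] : Fin 2 → N) i)) = ![g x, 1] := by
      funext i
      fin_cases i
      · rfl
      · exact map_one g
    rw [h3] at h2
    exact h2
  let z : ℕ → ℕ → N := fun i n => it^[k * n] ((g ^ i : N ≃ₐ[K] N) x)
  have hevi : ∀ i n, GS.ev ![z i n, 1] ![z (i + 1) n, 1] G = 0 := by
    intro i n
    have h2 : GS.ev ![(g ^ i : N ≃ₐ[K] N) x, 1] ![(g ^ (i + 1) : N ≃ₐ[K] N) x, 1] G = 0 := by
      have h3 := comp_aeval_apply ((g ^ i : N ≃ₐ[K] N) : N →ₐ[K] N)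
        (f := (Sum.elim ![x, 1] ![g x, 1] : Fin 2 ⊕ Fin 2 → N)) G
      have h4 : aeval (Sum.elim ![x, 1] ![g x, 1] : Fin 2 ⊕ Fin 2 → N) G = 0 := hev0
      rw [h4, map_zero] at h3
      have h5 : (fun j => ((g ^ i : N ≃ₐ[K] N) : N →ₐ[K] N)
          ((Sum.elim ![x, 1] ![g x, 1] : Fin 2 ⊕ Fin 2 → N) j)) =
          Sum.elim ![(g ^ i : N ≃ₐ[K] N) x, 1] ![(g ^ (i + 1) : N ≃ₐ[K] N) x, 1] := by
        funext j
        rcases j with j | j <;> fin_cases j
        · rfl
        · exact map_one (g ^ i : N ≃ₐ[K] N)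
        · show (g ^ i : N ≃ₐ[K] N) (g x) = (g ^ (i + 1) : N ≃ₐ[K] N) x
          rw [pow_succ]
          rfl
        · exact map_one (g ^ i : N ≃ₐ[K] N)
      rw [h5] at h3
      exact h3.symm
    have h6 := Cntw.ev_orbit hdvd h2 n
    rw [hit, hit] at h6
    exact h6
  obtain ⟨E, _, _, π, hπ⟩ := Pg775.exists_limit (K := K) (z 0) (by
    intro P hP
    by_contra hcon
    push Not at hcon
    have h2 : Function.Injective (z 0) := by
      intro a b hab
      have h3 : k * a = k * b := hinj _ _ hab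
      exact Nat.eq_of_mul_eq_mul_left hk h3
    refine Set.infinite_range_of_injective h2 ((P.rootSet N).toFinite.subset ?_)
    rintro _ ⟨n, rfl⟩
    exact Polynomial.mem_rootSet.2 ⟨hP, hcon n⟩)
  refine cyc h5 hD₁ hD₂ hG.irr hBD (fun i => π (z i)) (orderOf g) (orderOf_pos g) ?_ hπ ?_
  · intro i
    have h2 : z (i + orderOf g) = z i := by
      funext n
      show it^[k * n] ((g ^ (i + orderOf g) : N ≃ₐ[K] N) x) = it^[k * n] ((g ^ i : N ≃ₐ[K] N) x)
      rw [pow_add, pow_orderOf_eq_one, mul_one]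
    show π (z (i + orderOf g)) = π (z i)
    rw [h2]
  · intro i
    exact ev_limit π (z i) (z (i + 1)) G (hevi i)

end Pool.DynLehmer.UN

/-!
# Row PG8: a periodic form with equal degrees divides the form of the rotations
-/

namespace Pool.DynLehmer.UN
open MvPolynomial NumberField Pool.DynLehmer Pool.DynLehmer.SB Pool.DynLehmer.SP
  Pool.DynLehmer.GS Pool.DynLehmer.LP Pool.DynLehmer.LW
open scoped Classical

namespace Pg8h

theorem biHom_sub {K : Type} [Field K] {a b : ℕ} {G H : MvPolynomial (Fin 2 ⊕ Fin 2) K}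
    (hG : BiHom a b G) (hH : BiHom a b H) : BiHom a b (G - H) := by
  intro t ht
  rcases Finset.mem_union.1 (MvPolynomial.support_sub _ G H ht) with h | h
  · exact hG t h
  · exact hH t h

theorem biHom_cong {K : Type} [Field K] {a b a' b' : ℕ} {G : MvPolynomial (Fin 2 ⊕ Fin 2) K}
    (hG : BiHom a b G) (ha : a = a') (hb : b = b') : BiHom a' b' G := by
  subst ha hb
  exact hG

/-- the form of the rotations -/
noncomputable def rotF {K : Type} [Field K] (z₀ : K) (n : ℕ) : MvPolynomial (Fin 2 ⊕ Fin 2) K :=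
  (X (Sum.inr 0) - C z₀ * X (Sum.inr 1)) ^ n * X (Sum.inl 1) ^ n -
    (X (Sum.inl 0) - C z₀ * X (Sum.inl 1)) ^ n * X (Sum.inr 1) ^ n

theorem biHom_rotF {K : Type} [Field K] (z₀ : K) (n : ℕ) : BiHom n n (rotF z₀ n) := by
  unfold rotF
  refine biHom_sub ?_ ?_
  · refine biHom_cong (GS.BiHom.mul (GS.BiHom.pow (biHom_sub (GS.bihom_inr 0)
      (GS.BiHom.C_mul (GS.bihom_inr 1) z₀)) n) (GS.BiHom.pow (GS.bihom_inl 1) n)) ?_ ?_
    · omega
    · omega
  · refine biHom_cong (GS.BiHom.mul (GS.BiHom.pow (biHom_sub (GS.bihom_inl 0)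
      (GS.BiHom.C_mul (GS.bihom_inl 1) z₀)) n) (GS.BiHom.pow (GS.bihom_inr 1) n)) ?_ ?_
    · omega
    · omega

theorem ev_rotF {K : Type} [Field K] {N : Type} [Field N] [Algebra K N] (z₀ : K) (n : ℕ)
    (x y : N) : GS.ev ![x, 1] ![y, 1] (rotF z₀ n) =
      (y - algebraMap K N z₀) ^ n - (x - algebraMap K N z₀) ^ n := by
  unfold rotF GS.ev
  simp

theorem ev_dvd {K : Type} [Field K] {N : Type} [Field N] [Algebra K N] {P P' : Fin 2 → N}
    {G H : MvPolynomial (Fin 2 ⊕ Fin 2) K} (h : G ∣ H) (h0 : GS.ev P P' G = 0) :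
    GS.ev P P' H = 0 := by
  obtain ⟨Q, rfl⟩ := h
  unfold GS.ev at *
  rw [map_mul, h0, zero_mul]

theorem biHom_unique {K : Type} [Field K] {a b a' b' : ℕ} {G : MvPolynomial (Fin 2 ⊕ Fin 2) K}
    (h0 : G ≠ 0) (h : BiHom a b G) (h' : BiHom a' b' G) : a = a' ∧ b = b' := by
  obtain ⟨t, ht⟩ := MvPolynomial.support_nonempty.2 h0
  have h1 := h t ht
  have h2 := h' t ht
  omega

end Pg8h

open Pg8h in
/-- Row PG8. -/
theorem pg8 (hP : PairpStatement) (hA : GenaStatement) (h1 : Pg1Statement) (h2 : Pg2Statement)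
    (h5 : Pg5Statement) (h6 : Pg6Statement) : Pg8Statement := by
  intro K _ _ f hf hex n hsym e G hG d hd N _ _ x y hx hxy
  set A := AlgebraicClosure K with hAd
  set fA := f.map (algebraMap K A) with hfA
  set z₀ : K := - f.coeff (f.natDegree - 1) / (f.natDegree * f.leadingCoeff) with hz₀
  have hfAd : fA.natDegree = f.natDegree := Polynomial.natDegree_map _
  have hfA2 : 2 ≤ fA.natDegree := by rw [hfAd]; exact hf
  -- the degree of `G` is positive
  obtain ⟨d₁, d₂, hd1, -, hd2, -, hB⟩ := hG.hom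
  obtain ⟨rfl, rfl⟩ : d₁ = d ∧ d₂ = d := biHom_unique hG.irr.ne_zero hB hd
  -- it is enough to show that `G` divides the form of the rotations
  suffices hdiv : G ∣ rotF z₀ n by
    have h := ev_dvd hdiv hxy
    rw [ev_rotF, sub_eq_zero] at h
    exact h
  -- a periodic factor over the algebraic closure
  obtain ⟨G₁, hG₁, hG₁G⟩ := Clo60.exists_factor (A := A) hG
  have hbc : Clo60.bcf A (polF f.natDegree f) = polF fA.natDegree fA := by
    have h := (h1 K f (by omega)).2.2 A (algebraMap K A)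
    rw [hfAd]
    exact h
  rw [hbc] at hG₁
  obtain ⟨c₁, c₂, hc1, -, hc2, -, hB₁⟩ := hG₁.hom
  have hcc : c₁ = c₂ := by
    have h := h6 K _ _ c₁ c₂ G G₁ hd1 hd1 hG.irr hB hG₁.irr hB₁ hG₁G
    exact Nat.eq_of_mul_eq_mul_right (by omega) h
  -- the generic point
  obtain ⟨L, iL, iA, x₁, y₁, hcl, halg, htx, hty, hgen⟩ := hA A c₁ c₂ G₁ hc1 hc2 hG₁.irr hB₁
  obtain ⟨φ, m, hm, hφx, hφy⟩ := h2 A fA hfA2 e G₁ hG₁ L x₁ y₁ halg htx hty hgen
  have hG₁0 : GS.ev ![x₁, 1] ![y₁, 1] G₁ = 0 := (hgen c₁ c₂ G₁ hB₁).2 (dvd_refl _)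
  obtain ⟨-, hr1, hr2, -⟩ := h5 A c₁ c₂ G₁ hc1 hc2 hG₁.irr hB₁ L x₁ y₁ htx hG₁0
  have hrel : RelP fA m x₁ y₁ := by
    intro H hH
    have h := congrArg φ hH
    rw [map_zero, MvPolynomial.comp_aeval_apply] at h
    have h3 : (fun i => φ (![x₁, y₁] i)) = ![(fun z => Polynomial.aeval z fA)^[m] x₁,
        (fun z => Polynomial.aeval z fA)^[m] y₁] := by
      funext i
      fin_cases i
      · exact hφx
      · exact hφy
    rw [h3] at h
    exact h
  obtain ⟨σ, hσ, hσy⟩ := hP A L fA m x₁ y₁ hfA2 hex hm htx hty (halg.isAlgebraic y₁) hrel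
    (by rw [hr1, hr2, hcc])
  rw [hsym] at hσ
  obtain ⟨hσ1, hσ2⟩ := hσ
  -- the rotation
  let _ : Algebra K L := ((algebraMap A L).comp (algebraMap K A)).toAlgebra
  have : IsScalarTower K A L := IsScalarTower.of_algebraMap_eq fun _ => rfl
  have hrot : (y₁ - algebraMap K L z₀) ^ n = (x₁ - algebraMap K L z₀) ^ n := by
    have h3 : y₁ - algebraMap K L z₀ = algebraMap A L σ.1 * (x₁ - algebraMap K L z₀) := by
      rw [hσy, hσ2, IsScalarTower.algebraMap_apply K A L, map_mul, map_sub, map_one]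
      ring
    rw [h3, mul_pow, ← map_pow, hσ1, map_one, one_mul]
  have hG0 : GS.ev ![x₁, 1] ![y₁, 1] G = 0 := by
    have h3 := ev_dvd hG₁G hG₁0
    unfold GS.ev at *
    rw [aeval_map_algebraMap] at h3
    exact h3
  have htxK : Transcendental K x₁ := fun h => htx (h.tower_top A)
  obtain ⟨-, -, -, hdv⟩ := h5 K _ _ G hd1 hd1 hG.irr hB L x₁ y₁ htxK hG0
  refine hdv n n _ (biHom_rotF z₀ n) ?_
  rw [ev_rotF, hrot, sub_self]

end Pool.DynLehmer.UN

/-!
# Row PG4: finitely many periodic forms of bounded degree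
-/

namespace Pool.DynLehmer.UN
open MvPolynomial NumberField Pool.DynLehmer Pool.DynLehmer.SB Pool.DynLehmer.SP
  Pool.DynLehmer.GS Pool.DynLehmer.LP Pool.DynLehmer.LW
open scoped Classical

namespace Pg4h

section field
open IntermediateField
variable {k L : Type} [Field k] [Field L] [Algebra k L]

/-- adjoining finitely many elements to `k(x)` gives a finite extension if all elements are
algebraic over `k(x)` -/
theorem relf_ne {x : L} (halg : Algebra.IsAlgebraic (adjoin k {x}) L) (T : Set L) (hT : T.Finite)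
    (h : adjoin k {x} ≤ adjoin k T) : relfinrank (adjoin k {x}) (adjoin k T) ≠ 0 := by
  rw [relfinrank_eq_finrank_of_le h]
  have h1 : extendScalars h = adjoin (adjoin k {x}) T := by
    refine le_antisymm ?_ ?_
    · intro z hz
      have hz' : z ∈ adjoin k T := hz
      have h2 : adjoin k T ≤ (adjoin (adjoin k {x}) T).restrictScalars k :=
        adjoin_le_iff.2 fun w hw => subset_adjoin (adjoin k {x}) T hw
      exact h2 hz'
    · refine adjoin_le_iff.2 fun w hw => ?_
      have h2 : w ∈ adjoin k T := subset_adjoin k T hw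
      exact h2
  rw [h1]
  have : Finite T := hT
  have hfin : FiniteDimensional (adjoin k {x}) (adjoin (adjoin k {x}) T) :=
    finiteDimensional_adjoin fun z _ => (Algebra.IsAlgebraic.isAlgebraic z).isIntegral
  exact Module.finrank_pos.ne'

/-- degrees of two curves with a common first coordinate -/
theorem degs {x y y' : L} {d₁ d₂ : ℕ} (halg : Algebra.IsAlgebraic (adjoin k {x}) L)
    (h1 : 1 ≤ d₁) (h2 : 1 ≤ d₂)
    (hx : relfinrank (adjoin k {x}) (adjoin k {x, y}) = d₂)
    (hy : relfinrank (adjoin k {y}) (adjoin k {x, y}) = d₁)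
    (hx' : relfinrank (adjoin k {x}) (adjoin k {x, y'}) = d₂)
    (hy' : relfinrank (adjoin k {y'}) (adjoin k {x, y'}) = d₁) :
    relfinrank (adjoin k {y}) (adjoin k {y, y'}) = relfinrank (adjoin k {y'}) (adjoin k {y, y'}) ∧
    relfinrank (adjoin k {y}) (adjoin k {y, y'}) ≠ 0 := by
  have hM : relfinrank (adjoin k {x}) (adjoin k {x, y, y'}) ≠ 0 :=
    relf_ne halg _ (by simp) (adjoin.mono _ _ _ (by simp))
  have e1 := relfinrank_mul_relfinrank
    (adjoin.mono k {x} {x, y} (by simp)) (adjoin.mono k {x, y} {x, y, y'} (by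
      intro z hz
      simp only [Set.mem_insert_iff, Set.mem_singleton_iff] at hz ⊢
      tauto))
  have e2 := relfinrank_mul_relfinrank
    (adjoin.mono k {y} {x, y} (by simp)) (adjoin.mono k {x, y} {x, y, y'} (by
      intro z hz
      simp only [Set.mem_insert_iff, Set.mem_singleton_iff] at hz ⊢
      tauto))
  have e3 := relfinrank_mul_relfinrank
    (adjoin.mono k {x} {x, y'} (by simp)) (adjoin.mono k {x, y'} {x, y, y'} (by
      intro z hz
      simp only [Set.mem_insert_iff, Set.mem_singleton_iff] at hz ⊢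
      tauto))
  have e4 := relfinrank_mul_relfinrank
    (adjoin.mono k {y'} {x, y'} (by simp)) (adjoin.mono k {x, y'} {x, y, y'} (by
      intro z hz
      simp only [Set.mem_insert_iff, Set.mem_singleton_iff] at hz ⊢
      tauto))
  have e5 := relfinrank_mul_relfinrank
    (adjoin.mono k {y} {y, y'} (by simp)) (adjoin.mono k {y, y'} {x, y, y'} (by
      intro z hz
      simp only [Set.mem_insert_iff, Set.mem_singleton_iff] at hz ⊢
      tauto))
  have e6 := relfinrank_mul_relfinrank
    (adjoin.mono k {y'} {y, y'} (by simp)) (adjoin.mono k {y, y'} {x, y, y'} (by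
      intro z hz
      simp only [Set.mem_insert_iff, Set.mem_singleton_iff] at hz ⊢
      tauto))
  rw [hx] at e1
  rw [hy] at e2
  rw [hx'] at e3
  rw [hy'] at e4
  set m := relfinrank (adjoin k {x}) (adjoin k {x, y, y'})
  set a := relfinrank (adjoin k {x, y}) (adjoin k {x, y, y'})
  set b := relfinrank (adjoin k {x, y'}) (adjoin k {x, y, y'})
  set c := relfinrank (adjoin k {y, y'}) (adjoin k {x, y, y'})
  have hab : a = b := Nat.eq_of_mul_eq_mul_left (by omega : 0 < d₂) (e1.trans e3.symm)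
  have ha : a ≠ 0 := by
    intro h
    rw [h, mul_zero] at e1
    exact hM e1.symm
  have h7 : d₁ * a ≠ 0 := Nat.mul_ne_zero (by omega) ha
  rw [← hab] at e4
  rw [← e2] at e5
  rw [← e4] at e6
  refine ⟨Nat.eq_of_mul_eq_mul_right (Nat.pos_of_ne_zero fun h => ?_) (e5.trans e6.symm),
    fun h => ?_⟩
  · rw [h, mul_zero] at e5
    exact h7 e5.symm
  · rw [h, zero_mul] at e5
    exact h7 e5.symm

theorem alg_of_ne {y y' : L}
    (h : relfinrank (adjoin k {y}) (adjoin k {y, y'}) ≠ 0) : IsAlgebraic (adjoin k {y}) y' := by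
  have hle : adjoin k {y} ≤ adjoin k {y, y'} := adjoin.mono k _ _ (by simp)
  rw [relfinrank_eq_finrank_of_le hle] at h
  have hfin : FiniteDimensional (adjoin k {y}) (extendScalars hle) :=
    FiniteDimensional.of_finrank_pos (Nat.pos_of_ne_zero h)
  have hy' : y' ∈ extendScalars hle := subset_adjoin k {y, y'} (by simp)
  have h1 : IsAlgebraic (adjoin k {y}) (⟨y', hy'⟩ : extendScalars hle) :=
    Algebra.IsAlgebraic.isAlgebraic _
  exact h1.algebraMap (A := L)

end field

/-- iterates of an endomorphism -/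
theorem phi_it {k L : Type} [Field k] [Field L] [Algebra k L] (f : Polynomial k) (φ : L →ₐ[k] L)
    (m : ℕ) (y : L) (h : φ y = (fun z => Polynomial.aeval z f)^[m] y) (n : ℕ) :
    φ^[n] y = (fun z => Polynomial.aeval z f)^[n * m] y := by
  have hc : ∀ (j : ℕ) (z : L), φ ((fun z => Polynomial.aeval z f)^[j] z) =
      (fun z => Polynomial.aeval z f)^[j] (φ z) := by
    intro j z
    induction j with
    | zero => rfl
    | succ j ih =>
      rw [Function.iterate_succ_apply', Function.iterate_succ_apply', ← ih]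
      exact (Polynomial.aeval_algHom_apply φ _ f).symm
  induction n with
  | zero => rw [zero_mul]; rfl
  | succ n ih =>
    rw [Function.iterate_succ_apply', ih, hc, h, ← Function.iterate_add_apply]
    congr 2
    ring

/-- relations of the images -/
theorem relP_of {k L : Type} [Field k] [Field L] [Algebra k L] (f : Polynomial k) (ψ : L →ₐ[k] L)
    (M : ℕ) (y y' : L) (h : ψ y = (fun z => Polynomial.aeval z f)^[M] y)
    (h' : ψ y' = (fun z => Polynomial.aeval z f)^[M] y') : RelP f M y y' := by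
  intro H hH
  have h1 := congrArg ψ hH
  rw [map_zero, MvPolynomial.comp_aeval_apply] at h1
  have h3 : (fun i => ψ (![y, y'] i)) = ![(fun z => Polynomial.aeval z f)^[M] y,
      (fun z => Polynomial.aeval z f)^[M] y'] := by
    funext i
    fin_cases i
    · exact h
    · exact h'
  rw [h3] at h1
  exact h1

/-- the iterates of an algebra homomorphism as a homomorphism -/
theorem iter_hom {k L : Type} [Field k] [Field L] [Algebra k L] (φ : L →ₐ[k] L) (n : ℕ) :
    ∃ ψ : L →ₐ[k] L, ∀ z, ψ z = φ^[n] z := by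
  induction n with
  | zero => exact ⟨AlgHom.id k L, fun z => rfl⟩
  | succ n ih =>
    obtain ⟨ψ, hψ⟩ := ih
    exact ⟨φ.comp ψ, fun z => by rw [Function.iterate_succ_apply', ← hψ]; rfl⟩

end Pg4h

open Pg4h in
/-- Row PG4. -/
theorem pg4 (hP : PairpStatement) (hS : SymStatement) (hA : GenaStatement) (h2 : Pg2Statement)
    (h3 : Pg3Statement) (h5 : Pg5Statement) : Pg4Statement := by
  intro k _ _ _ f hf hex e
  obtain ⟨hfin, -⟩ := hS k f hf hex
  -- forms of fixed degree
  have key : ∀ d : ℕ × ℕ, ∃ S : Finset (MvPolynomial (Fin 2 ⊕ Fin 2) k), ∀ G,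
      PerForm (polF f.natDegree f) e G → 1 ≤ d.1 → 1 ≤ d.2 → BiHom d.1 d.2 G →
      ∃ G' ∈ S, Associated G G' := by
    rintro ⟨d₁, d₂⟩
    by_cases hex0 : ∃ G₀, PerForm (polF f.natDegree f) e G₀ ∧ 1 ≤ d₁ ∧ 1 ≤ d₂ ∧ BiHom d₁ d₂ G₀
    · obtain ⟨G₀, hG₀, hd1, hd2, hB₀⟩ := hex0
      obtain ⟨L, iL, iA, x, y, hcl, halg, htx, hty, hgen⟩ := hA k d₁ d₂ G₀ hd1 hd2 hG₀.irr hB₀
      obtain ⟨φ, m, hm, hφx, hφy⟩ := h2 k f hf e G₀ hG₀ L x y halg htx hty hgen
      have hG₀0 : GS.ev ![x, 1] ![y, 1] G₀ = 0 := (hgen d₁ d₂ G₀ hB₀).2 (dvd_refl _)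
      obtain ⟨-, hr1, hr2, -⟩ := h5 k d₁ d₂ G₀ hd1 hd2 hG₀.irr hB₀ L x y htx hG₀0
      -- a form for each symmetry
      let Z : k × k → MvPolynomial (Fin 2 ⊕ Fin 2) k := fun σ =>
        if h : ∃ G, PerForm (polF f.natDegree f) e G ∧ BiHom d₁ d₂ G ∧
          GS.ev ![x, 1] ![algebraMap k L σ.1 * y + algebraMap k L σ.2, 1] G = 0
        then h.choose else 0
      refine ⟨hfin.toFinset.image Z, fun G hG _ _ hB => ?_⟩
      obtain ⟨y', n, hn, hty', hG0, hnx, hny⟩ := h3 k f hf e G hG L φ m x hm htx hφx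
      obtain ⟨-, hr1', hr2', hdv⟩ := h5 k d₁ d₂ G hd1 hd2 hG.irr hB L x y' htx hG0
      obtain ⟨hdeg, hne⟩ := degs halg hd1 hd2 hr1 hr2 hr1' hr2'
      obtain ⟨ψ, hψ⟩ := iter_hom φ n
      have hrel : RelP f (n * m) y y' := relP_of f ψ (n * m) y y'
        (by rw [hψ]; exact phi_it f φ m y hφy n) (by rw [hψ]; exact hny)
      obtain ⟨σ, hσ, hσy⟩ := hP k L f (n * m) y y' hf hex (Nat.mul_pos hn hm) hty hty'
        (alg_of_ne hne) hrel hdeg
      have hex1 : ∃ G, PerForm (polF f.natDegree f) e G ∧ BiHom d₁ d₂ G ∧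
          GS.ev ![x, 1] ![algebraMap k L σ.1 * y + algebraMap k L σ.2, 1] G = 0 :=
        ⟨G, hG, hB, by rw [← hσy]; exact hG0⟩
      obtain ⟨G', hZ, hp1, hp2, hp3⟩ : ∃ G', Z σ = G' ∧ PerForm (polF f.natDegree f) e G' ∧
          BiHom d₁ d₂ G' ∧
          GS.ev ![x, 1] ![algebraMap k L σ.1 * y + algebraMap k L σ.2, 1] G' = 0 :=
        ⟨hex1.choose, dif_pos hex1, hex1.choose_spec⟩
      rw [← hσy] at hp3
      refine ⟨Z σ, Finset.mem_image.2 ⟨σ, hfin.mem_toFinset.2 hσ, rfl⟩, ?_⟩
      rw [hZ]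
      obtain ⟨-, -, -, hdv'⟩ := h5 k d₁ d₂ G' hd1 hd2 hp1.irr hp2 L x y' htx hp3
      exact associated_of_dvd_dvd (hdv d₁ d₂ _ hp2 hp3) (hdv' d₁ d₂ G hB hG0)
    · exact ⟨∅, fun G hG hd1 hd2 hB => absurd ⟨G, hG, hd1, hd2, hB⟩ hex0⟩
  choose S hSd using key
  refine ⟨(Finset.range (e + 1) ×ˢ Finset.range (e + 1)).biUnion S, fun G hG => ?_⟩
  obtain ⟨d₁, d₂, hd1, hd1e, hd2, hd2e, hB⟩ := hG.hom
  obtain ⟨G', hG', ha⟩ := hSd (d₁, d₂) G hG hd1 hd2 hB
  exact ⟨G', Finset.mem_biUnion.2 ⟨(d₁, d₂), Finset.mem_product.2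
    ⟨Finset.mem_range.2 (by omega), Finset.mem_range.2 (by omega)⟩, hG'⟩, ha⟩

end Pool.DynLehmer.UN

set_option linter.unusedVariables false

/-!
# Row SYM2: the symmetries of a polynomial are rotations about its centre
-/

namespace Pool.DynLehmer.UN.Sy36
open Polynomial

variable {k : Type} [Field k]

theorem eval_iter (f : k[X]) (M : ℕ) (z : k) :
    ((f.comp)^[M] X).eval z = (fun z => f.eval z)^[M] z := by
  induction M with
  | zero => simp
  | succ M ih => rw [Function.iterate_succ_apply', Function.iterate_succ_apply', eval_comp, ih]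

theorem mem_iff [Infinite k] (f : k[X]) (σ : k × k) :
    σ ∈ SymP f ↔ σ.1 ≠ 0 ∧ ∃ M : ℕ, 1 ≤ M ∧
      Function.Commute (fun z => f.eval z)^[M] (fun z => σ.1 * z + σ.2) := by
  constructor
  · rintro ⟨h0, M, hM, h⟩
    refine ⟨h0, M, hM, fun z => ?_⟩
    have := congrArg (eval z) h
    simpa only [eval_comp, eval_iter, eval_add, eval_mul, eval_C, eval_X] using this
  · rintro ⟨h0, M, hM, h⟩
    refine ⟨h0, M, hM, Polynomial.funext fun z => ?_⟩
    have := h z
    simpa only [eval_comp, eval_iter, eval_add, eval_mul, eval_C, eval_X] using this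

theorem comp_split (f : k[X]) (ω β : k) :
    f.comp (C ω * X + C β) = (taylor β f).comp (C ω * X) := by
  rw [taylor_apply, comp_assoc]
  simp

/-- coefficients of `f (ω X + β)` -/
theorem coeff_top (f : k[X]) (ω β : k) :
    (f.comp (C ω * X + C β)).coeff f.natDegree = f.leadingCoeff * ω ^ f.natDegree := by
  rw [comp_split, comp_C_mul_X_coeff, taylor_coeff, hasseDeriv_natDegree_eq_C, eval_C]

theorem coeff_next (f : k[X]) (hf : 1 ≤ f.natDegree) (ω β : k) :
    (f.comp (C ω * X + C β)).coeff (f.natDegree - 1) =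
      f.leadingCoeff * (f.natDegree * ω ^ (f.natDegree - 1) * β) +
      f.coeff (f.natDegree - 1) * ω ^ (f.natDegree - 1) := by
  rw [comp_split, comp_C_mul_X_coeff, taylor_coeff]
  have h1 : (hasseDeriv (f.natDegree - 1) f).natDegree ≤ 1 :=
    (natDegree_hasseDeriv_le f (f.natDegree - 1)).trans (by omega)
  rw [eq_X_add_C_of_natDegree_le_one h1, hasseDeriv_coeff, hasseDeriv_coeff]
  have h2 : 1 + (f.natDegree - 1) = f.natDegree := by omega
  have h3 : f.natDegree.choose (f.natDegree - 1) = f.natDegree := by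
    conv_lhs => rw [← Nat.choose_symm (by omega : f.natDegree - 1 ≤ f.natDegree)]
    have : f.natDegree - (f.natDegree - 1) = 1 := by omega
    rw [this, Nat.choose_one_right]
  rw [h2, h3, zero_add, Nat.choose_self, ← leadingCoeff]
  simp only [eval_add, eval_mul, eval_C, eval_X, Nat.cast_one, one_mul]
  ring

theorem centre [IsAlgClosed k] [CharZero k] (hsym : SymStatement) (f : k[X])
    (hf : 2 ≤ f.natDegree) (hx : ¬ PExc f) (σ : k × k) (hσ : σ ∈ SymP f) :
    σ.2 = (1 - σ.1) * (- f.coeff (f.natDegree - 1) / (f.natDegree * f.leadingCoeff)) := by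
  obtain ⟨τ, -, h⟩ := (hsym k f hf hx).2 σ hσ
  have hl : f.leadingCoeff ≠ 0 := leadingCoeff_ne_zero.2 (fun h0 => by
    rw [h0, natDegree_zero] at hf; omega)
  have hq : (f.natDegree : k) ≠ 0 := by
    have : f.natDegree ≠ 0 := by omega
    exact_mod_cast this
  have h1 := congrArg (fun P : k[X] => P.coeff f.natDegree) h
  have h2 := congrArg (fun P : k[X] => P.coeff (f.natDegree - 1)) h
  simp only [coeff_top, coeff_next f (by omega), coeff_add, coeff_C_mul] at h1 h2
  rw [coeff_C_of_ne_zero (by omega), add_zero, ← leadingCoeff] at h1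
  rw [coeff_C_of_ne_zero (by omega), add_zero] at h2
  have hτ : τ.1 = σ.1 ^ f.natDegree := by
    have : f.leadingCoeff * σ.1 ^ f.natDegree = f.leadingCoeff * τ.1 := by rw [h1, mul_comm]
    exact (mul_left_cancel₀ hl this).symm
  have h0 : σ.1 ^ (f.natDegree - 1) ≠ 0 := pow_ne_zero _ hσ.1
  have hp : σ.1 ^ f.natDegree = σ.1 ^ (f.natDegree - 1) * σ.1 := by
    rw [← pow_succ]
    congr 1
    omega
  rw [hτ, hp] at h2
  have h3 : f.leadingCoeff * (f.natDegree * σ.2) = f.coeff (f.natDegree - 1) * (σ.1 - 1) := by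
    apply mul_left_cancel₀ h0
    linear_combination h2
  field_simp
  linear_combination h3

theorem comm_mul {f : k[X]} {M M' : ℕ} {g h : k → k}
    (hg : Function.Commute (fun z => f.eval z)^[M] g)
    (hh : Function.Commute (fun z => f.eval z)^[M'] h) :
    Function.Commute (fun z => f.eval z)^[M * M'] (g ∘ h) := by
  have h1 : Function.Commute (fun z => f.eval z)^[M * M'] g := by
    rw [Function.iterate_mul]
    exact hg.iterate_left M'
  have h2 : Function.Commute (fun z => f.eval z)^[M * M'] h := by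
    rw [mul_comm, Function.iterate_mul]
    exact hh.iterate_left M
  exact h1.comp_right h2

/-- the group of the linear parts -/
noncomputable def grp [Infinite k] (f : k[X]) (z0 : k) : Subgroup kˣ where
  carrier := {u | ((u : k), (1 - (u : k)) * z0) ∈ SymP f}
  one_mem' := by
    refine (mem_iff f _).2 ⟨by simp, 1, le_refl _, fun z => ?_⟩
    simp
  mul_mem' := by
    intro u v hu hv
    obtain ⟨-, M, hM, h1⟩ := (mem_iff f _).1 hu
    obtain ⟨-, M', hM', h2⟩ := (mem_iff f _).1 hv
    refine (mem_iff f _).2 ⟨(u * v).ne_zero, M * M', Nat.mul_pos hM hM', ?_⟩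
    have h3 := comm_mul h1 h2
    have h4 : ((fun z => (u : k) * z + (1 - (u : k)) * z0) ∘
        fun z => (v : k) * z + (1 - (v : k)) * z0) =
        fun z => ((u * v : kˣ) : k) * z + (1 - ((u * v : kˣ) : k)) * z0 := by
      funext z
      simp only [Function.comp_apply, Units.val_mul]
      ring
    rw [h4] at h3
    exact h3
  inv_mem' := by
    intro u hu
    obtain ⟨-, M, hM, h1⟩ := (mem_iff f _).1 hu
    refine (mem_iff f _).2 ⟨(u⁻¹).ne_zero, M, hM, fun z => ?_⟩
    have hu0 : (u : k) ≠ 0 := u.ne_zero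
    have h2 := h1 ((u⁻¹ : kˣ) * z + (1 - ((u⁻¹ : kˣ) : k)) * z0)
    have h3 : (u : k) * (((u⁻¹ : kˣ) : k) * z + (1 - ((u⁻¹ : kˣ) : k)) * z0) +
        (1 - (u : k)) * z0 = z := by
      rw [Units.val_inv_eq_inv_val]
      field_simp
      ring
    simp only [h3] at h2
    simp only []
    rw [h2, Units.val_inv_eq_inv_val]
    field_simp
    ring

theorem sym2 (hsym : SymStatement) :
    ∀ (k : Type) [Field k] [IsAlgClosed k] [CharZero k] (f : Polynomial k), 2 ≤ f.natDegree →
    ¬ PExc f → ∃ n : ℕ, 1 ≤ n ∧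
      SymP f = {σ | σ.1 ^ n = 1 ∧
        σ.2 = (1 - σ.1) * (- f.coeff (f.natDegree - 1) / (f.natDegree * f.leadingCoeff))} := by
  intro k _ _ _ f hf hx
  set z0 : k := - f.coeff (f.natDegree - 1) / (f.natDegree * f.leadingCoeff) with hz0
  have hcen : ∀ σ ∈ SymP f, σ.2 = (1 - σ.1) * z0 := fun σ hσ => centre hsym f hf hx σ hσ
  have hfin : Finite (grp f z0) := by
    have h1 : Finite (SymP f) := (hsym k f hf hx).1.to_subtype
    refine Finite.of_injective
      (fun u : grp f z0 => (⟨((u : kˣ), (1 - ((u : kˣ) : k)) * z0), u.2⟩ : SymP f)) ?_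
    intro u v huv
    have h2 := congrArg (fun s : SymP f => s.1.1) huv
    exact Subtype.ext (Units.ext h2)
  have hpos : 0 < Nat.card (grp f z0) := Nat.card_pos
  set n := Nat.card (grp f z0) with hn
  have : NeZero n := ⟨hpos.ne'⟩
  have hle : grp f z0 ≤ rootsOfUnity n k := by
    intro u hu
    rw [mem_rootsOfUnity]
    have := pow_card_eq_one' (x := (⟨u, hu⟩ : grp f z0))
    exact congrArg (fun v : grp f z0 => (v : kˣ)) this
  have hcard : Nat.card (rootsOfUnity n k) ≤ n := card_rootsOfUnity k n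
  have heq : grp f z0 = rootsOfUnity n k := Subgroup.eq_of_le_of_card_ge hle hcard
  refine ⟨n, hpos, ?_⟩
  ext σ
  show σ ∈ SymP f ↔ (σ.1 ^ n = 1 ∧ σ.2 = (1 - σ.1) * z0)
  constructor
  · intro hσ
    refine ⟨?_, hcen σ hσ⟩
    have h0 : σ.1 ≠ 0 := hσ.1
    have h1 : Units.mk0 σ.1 h0 ∈ grp f z0 := by
      show (((Units.mk0 σ.1 h0 : kˣ) : k), (1 - ((Units.mk0 σ.1 h0 : kˣ) : k)) * z0) ∈ SymP f
      rw [Units.val_mk0, ← hcen σ hσ]
      exact hσ
    have h2 := hle h1
    rw [mem_rootsOfUnity] at h2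
    have h3 := congrArg (fun v : kˣ => (v : k)) h2
    simpa using h3
  · rintro ⟨h1, h2⟩
    have h0 : σ.1 ≠ 0 := by
      intro h0
      rw [h0, zero_pow hpos.ne'] at h1
      exact zero_ne_one h1
    have h3 : Units.mk0 σ.1 h0 ∈ rootsOfUnity n k := by
      rw [mem_rootsOfUnity]
      ext
      simpa using h1
    rw [← heq] at h3
    have h4 : (((Units.mk0 σ.1 h0 : kˣ) : k), (1 - ((Units.mk0 σ.1 h0 : kˣ) : k)) * z0) ∈ SymP f :=
      h3
    rw [Units.val_mk0, ← h2] at h4
    exact h4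

end Pool.DynLehmer.UN.Sy36

/-! # Descent of `PExc` -/

namespace Pool.DynLehmer.UN
open Polynomial

namespace PexD74

/-- The condition `PExc` is a system of linear equations. -/
theorem lin {K : Type} [Field K] (f : K[X]) (a b c : K) :
    (C a * X ^ 2 + C b * X + C c) * (derivative f) ^ 2 =
      C ((f.natDegree : K) ^ 2) * (C a * X ^ 2 + C b * X + C c).comp f ↔
    ∀ n : ℕ, (X ^ 2 * (derivative f) ^ 2 - C ((f.natDegree : K) ^ 2) * f ^ 2).coeff n * a +
      (X * (derivative f) ^ 2 - C ((f.natDegree : K) ^ 2) * f).coeff n * b +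
      ((derivative f) ^ 2 - C ((f.natDegree : K) ^ 2)).coeff n * c = 0 := by
  rw [← sub_eq_zero, ← Polynomial.coeff_inj]
  have e : (C a * X ^ 2 + C b * X + C c) * (derivative f) ^ 2 -
      C ((f.natDegree : K) ^ 2) * (C a * X ^ 2 + C b * X + C c).comp f =
      C a * (X ^ 2 * (derivative f) ^ 2 - C ((f.natDegree : K) ^ 2) * f ^ 2) +
      C b * (X * (derivative f) ^ 2 - C ((f.natDegree : K) ^ 2) * f) +
      C c * ((derivative f) ^ 2 - C ((f.natDegree : K) ^ 2)) := by
    simp only [add_comp, mul_comp, C_comp, pow_comp, X_comp]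
    ring
  rw [e, funext_iff]
  refine forall_congr' fun n => ?_
  rw [coeff_add, coeff_add, coeff_C_mul, coeff_C_mul, coeff_C_mul, coeff_zero]
  constructor
  · intro h
    rw [← h]
    ring
  · intro h
    rw [← h]
    ring

/-- `PExc` over a larger field implies `PExc`. -/
theorem pexc_descent {K L : Type} [Field K] [Field L] [Algebra K L] (f : K[X])
    (h : PExc (f.map (algebraMap K L))) : PExc f := by
  obtain ⟨A, hA, hE⟩ := h
  have hAe : A = C (A.coeff 2) * X ^ 2 + C (A.coeff 1) * X + C (A.coeff 0) :=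
    eq_quadratic_of_degree_le_two (degree_le_of_natDegree_le hA.le)
  have h2 : A.coeff 2 ≠ 0 := by
    rw [← hA]
    refine leadingCoeff_ne_zero.2 ?_
    rintro rfl
    simp at hA
  rw [hAe, lin] at hE
  obtain ⟨π, hπ⟩ : ∃ π : L →ₗ[K] K, π (A.coeff 2) = 1 := by
    obtain ⟨g, hg⟩ := LinearMap.exists_leftInverse_of_injective
      (LinearMap.toSpanSingleton K L (A.coeff 2)) (LinearMap.ker_toSpanSingleton K h2)
    refine ⟨g, ?_⟩
    have := LinearMap.congr_fun hg 1
    simpa using this
  refine ⟨C (π (A.coeff 2)) * X ^ 2 + C (π (A.coeff 1)) * X + C (π (A.coeff 0)), ?_, ?_⟩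
  · exact natDegree_quadratic (by rw [hπ]; exact one_ne_zero)
  · rw [lin]
    intro n
    have h3 := hE n
    have e1 : (X ^ 2 * (derivative (f.map (algebraMap K L))) ^ 2 -
        C (((f.map (algebraMap K L)).natDegree : L) ^ 2) * (f.map (algebraMap K L)) ^ 2) =
        (X ^ 2 * (derivative f) ^ 2 - C ((f.natDegree : K) ^ 2) * f ^ 2).map (algebraMap K L) := by
      rw [natDegree_map]
      simp [derivative_map]
    have e2 : (X * (derivative (f.map (algebraMap K L))) ^ 2 -
        C (((f.map (algebraMap K L)).natDegree : L) ^ 2) * (f.map (algebraMap K L))) =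
        (X * (derivative f) ^ 2 - C ((f.natDegree : K) ^ 2) * f).map (algebraMap K L) := by
      rw [natDegree_map]
      simp [derivative_map]
    have e3 : ((derivative (f.map (algebraMap K L))) ^ 2 -
        C (((f.map (algebraMap K L)).natDegree : L) ^ 2)) =
        ((derivative f) ^ 2 - C ((f.natDegree : K) ^ 2)).map (algebraMap K L) := by
      rw [natDegree_map]
      simp [derivative_map]
    rw [e1, e2, e3, coeff_map, coeff_map, coeff_map, ← Algebra.smul_def, ← Algebra.smul_def,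
      ← Algebra.smul_def] at h3
    have h4 := congrArg π h3
    rw [map_add, map_add, map_smul, map_smul, map_smul, map_zero] at h4
    exact h4

end PexD74

end Pool.DynLehmer.UN

set_option linter.unusedSectionVars false

/-!
# Row PG9: the exceptional relation of a polynomial
-/

namespace Pool.DynLehmer.UN.Pn60
open MvPolynomial NumberField Filter Topology Pool.DynLehmer Pool.DynLehmer.SB Pool.DynLehmer.SP
  Pool.DynLehmer.GS Pool.DynLehmer.LP Pool.DynLehmer.LW Pool.DynLehmer.LW.ExcAux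
open scoped Classical

/-- a wandering point is not the point at infinity -/
theorem one_of_wand {K : Type} [Field K] {q : ℕ} (f : Polynomial K) (hq : 1 ≤ q)
    (hmor : Mor q (polF q f)) {N : Type} [Field N] [Algebra K N] (y : Pt N)
    (h : WandP (polF q f) y.val) : y.val = ![y.val 0, 1] := by
  rcases y.prop with h1 | ⟨h1, h2⟩
  · funext i
    fin_cases i
    · rfl
    · exact h1
  · exfalso
    have h3 : gAct (polF q f) N y.val 1 = 0 := by
      show aeval y.val (X 1 ^ q : MvPolynomial (Fin 2) K) = 0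
      rw [map_pow, aeval_X, h1, zero_pow (by omega)]
    have h4 : gAct (polF q f) N y.val ≠ 0 := hmor.ne N _ y.ne_zero
    have h5 : gAct (polF q f) N y.val 0 ≠ 0 := by
      intro h0
      apply h4
      funext i
      fin_cases i
      · exact h0
      · exact h3
    refine h ⟨0, 1, by omega, gAct (polF q f) N y.val 0, h5, ?_⟩
    rw [Function.iterate_one, Function.iterate_zero, id]
    funext i
    fin_cases i
    · show gAct (polF q f) N y.val 0 = gAct (polF q f) N y.val 0 * y.val 0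
      rw [h2, mul_one]
    · show gAct (polF q f) N y.val 1 = gAct (polF q f) N y.val 0 * y.val 1
      rw [h1, mul_zero, h3]

/-- **PG9** -/
theorem pg9 (h1 : Pg1Statement) (h7 : Pg7Statement) (h8 : Pg8Statement) (hs2 : Sym2Statement) :
    Pg9Statement := by
  intro K _ _ f hf hex
  have hmor : Mor f.natDegree (polF f.natDegree f) := (h1 K f (by omega)).1
  have hchar : CharZero (AlgebraicClosure K) :=
    charZero_of_injective_algebraMap (algebraMap K (AlgebraicClosure K)).injective
  have hdeg' : (f.map (algebraMap K (AlgebraicClosure K))).natDegree = f.natDegree :=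
    Polynomial.natDegree_map _
  obtain ⟨r, hr, hsym⟩ := hs2 (AlgebraicClosure K) (f.map (algebraMap K (AlgebraicClosure K)))
    (by rw [hdeg']; exact hf) hex
  set z0 : K := - f.coeff (f.natDegree - 1) / (f.natDegree * f.leadingCoeff) with hz0
  have hsym' : SymP (f.map (algebraMap K (AlgebraicClosure K))) = {σ | σ.1 ^ r = 1 ∧
      σ.2 = (1 - σ.1) * algebraMap K (AlgebraicClosure K) z0} := by
    rw [hsym, hdeg']
    have h5 : - (f.map (algebraMap K (AlgebraicClosure K))).coeff (f.natDegree - 1) /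
        (f.natDegree * (f.map (algebraMap K (AlgebraicClosure K))).leadingCoeff) =
        algebraMap K (AlgebraicClosure K) z0 := by
      rw [hz0, Polynomial.coeff_map, Polynomial.leadingCoeff_map, map_div₀, map_neg, map_mul,
        map_natCast]
    rw [h5]
  have hq1 : 1 ≤ f.natDegree := by omega
  refine ⟨r, hr, ?_⟩
  intro N _ _ _ _ x hx hW n
  have hfd : FiniteDimensional K N := Module.Finite.of_restrictScalars_finite ℚ K N
  have hne : ∀ (τ : N ≃ₐ[K] N) (m : ℕ), (gAct (polF f.natDegree f) N)^[m] (gal τ x) ≠ 0 :=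
    fun τ m => Bas.iter_ne hmor (galne hx τ) m
  have hmem : ∀ τ : N ≃ₐ[K] N, nz ((gAct (polF f.natDegree f) N)^[n] (gal τ x)) ∈
      orb (N ≃ₐ[K] N) (nz ((gAct (polF f.natDegree f) N)^[n] x)) := by
    intro τ
    rw [← smul_iter hmor hx]
    exact smul_mem_orb τ _
  refine ⟨fun y => (orb (N ≃ₐ[K] N) (nz ((gAct (polF f.natDegree f) N)^[n] x))).filter fun z =>
    Rel (polF f.natDegree f) y.val z.val, ?_, ?_⟩
  · intro y hy
    obtain ⟨σ, hσ⟩ := mem_orb.1 hy
    rw [smul_iter hmor hx] at hσ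
    have hyW : WandP (polF f.natDegree f) y.val := by
      rw [← hσ]
      exact Bas.wandP_prl hmor.hom (Bas.prl_symm (prl_nz (hne σ n)))
        (Bas.wandP_iter (E.wand_gal hW σ) n)
    have hy1 := one_of_wand f hq1 hmor y hyW
    refine ⟨?_, ?_, ?_, ?_⟩
    · set Q : Polynomial N := (Polynomial.X - Polynomial.C (algebraMap K N z0)) ^ r -
        Polynomial.C ((y.val 0 - algebraMap K N z0) ^ r) with hQ
      have hQm : ((Polynomial.X - Polynomial.C (algebraMap K N z0)) ^ r : Polynomial N).Monic :=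
        (Polynomial.monic_X_sub_C _).pow r
      have hQd : ((Polynomial.X - Polynomial.C (algebraMap K N z0)) ^ r : Polynomial N).natDegree
          = r := by
        rw [Polynomial.natDegree_pow, Polynomial.natDegree_X_sub_C, mul_one]
      have hQ1 : Q.natDegree = r := by
        rw [hQ, Polynomial.natDegree_sub_C, hQd]
      have hQ0 : Q ≠ 0 := by
        intro h0
        rw [h0, Polynomial.natDegree_zero] at hQ1
        omega
      have h6 : Q.roots.toFinset.card ≤ r := by
        calc Q.roots.toFinset.card ≤ Multiset.card Q.roots := Multiset.toFinset_card_le _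
          _ ≤ Q.natDegree := Polynomial.card_roots' Q
          _ = r := hQ1
      have key : ∀ z : Pt N, z ∈ orb (N ≃ₐ[K] N) (nz ((gAct (polF f.natDegree f) N)^[n] x)) →
          Rel (polF f.natDegree f) y.val z.val →
          z.val = ![z.val 0, 1] ∧ z.val 0 ∈ Q.roots.toFinset := by
        intro z hz hrel
        rw [← orb_eq_of_mem hy] at hz
        obtain ⟨g, hg⟩ := mem_orb.1 hz
        have hzv : z.val = gal g y.val := by
          rw [← hg]
          rfl
        have hz1 : z.val = ![z.val 0, 1] := by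
          rw [hzv, hy1]
          funext i
          fin_cases i
          · rfl
          · exact map_one g
        refine ⟨hz1, ?_⟩
        obtain ⟨e, G, hG, h0⟩ := hrel
        obtain ⟨d₁, d₂, -, -, -, -, hB⟩ := hG.hom
        have hd : d₁ = d₂ := by
          refine h7 K f hf e G hG N y.val g y.ne_zero hyW ?_ d₁ d₂ hB
          rw [← hzv]
          exact h0
        subst hd
        have h9 := h8 K f hf hex r hsym' e G hG d₁ hB N (y.val 0) (z.val 0)
          (by rw [← hy1]; exact hyW) (by rw [← hy1, ← hz1]; exact h0)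
        rw [Multiset.mem_toFinset, Polynomial.mem_roots hQ0, Polynomial.IsRoot.def, hQ,
          Polynomial.eval_sub, Polynomial.eval_pow, Polynomial.eval_sub, Polynomial.eval_X,
          Polynomial.eval_C, Polynomial.eval_C, sub_eq_zero]
        exact h9
      refine le_trans ?_ h6
      refine Finset.card_le_card_of_injOn (fun z : Pt N => z.val 0) ?_ ?_
      · intro z hz
        obtain ⟨hz1, hz2⟩ := Finset.mem_filter.1 (Finset.mem_coe.1 hz)
        exact Finset.mem_coe.2 (key z hz1 hz2).2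
      · intro z₁ hz₁ z₂ hz₂ h12
        obtain ⟨ha1, ha2⟩ := Finset.mem_filter.1 (Finset.mem_coe.1 hz₁)
        obtain ⟨hb1, hb2⟩ := Finset.mem_filter.1 (Finset.mem_coe.1 hz₂)
        apply Pt.ext'
        rw [(key z₁ ha1 ha2).1, (key z₂ hb1 hb2).1]
        have h12' : z₁.val 0 = z₂.val 0 := h12
        rw [h12']
    · refine Finset.mem_filter.2 ⟨hy, 1, _, per_dia hmor, ?_⟩
      exact (Cls.ev_hF_iff hmor 0 0 y.ne_zero y.ne_zero).2 (Bas.prl_refl _)
    · intro y' hy'
      obtain ⟨h1, h2⟩ := Finset.mem_filter.1 hy'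
      exact ⟨h1, Finset.mem_filter.2 ⟨hy, rel_symm h2⟩⟩
    · intro g y' hy'
      obtain ⟨h1, h2⟩ := Finset.mem_filter.1 hy'
      refine Finset.mem_filter.2 ⟨?_, rel_gal g h2⟩
      rw [← orb_eq_of_mem h1]
      exact smul_mem_orb g _
  · intro σ τ hnot m hm e G hG h0
    apply hnot
    refine Finset.mem_filter.2 ⟨hmem τ, ?_⟩
    obtain ⟨j, rfl⟩ := Nat.exists_eq_add_of_le hm
    exact rel_prl (prl_nz (hne σ _)) (prl_nz (hne τ _)) (rel_push push hq1 hmor ⟨e, G, hG, h0⟩ j)

end Pool.DynLehmer.UN.Pn60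

/-!
# The dynamical Lehmer bound for polynomials: assembly
-/

namespace Pool.DynLehmer.UN
open MvPolynomial NumberField Filter Topology Pool.DynLehmer Pool.DynLehmer.GS Pool.DynLehmer.LP
  Pool.DynLehmer.GAL Pool.DynLehmer.LW
open scoped Classical

/-- **The bound for polynomials** which are not conjugate to a power or to a Chebyshev
polynomial. -/
theorem polynomial_explicit (h1 : Pg1Statement) (h4 : Pg4Statement) (h9 : Pg9Statement)
    (hD : DescStatement) (K : Type) [Field K] [NumberField K] (p s : ℕ) (v : FinitePlace K)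
    (f : Polynomial K) (hdeg : f.natDegree = p ^ s) (hF : HypR p s v (polF (p ^ s) f))
    (hf : ¬ PExc f) : ∃ R : ℕ, 1 ≤ R ∧ ExplR K p s (polF (p ^ s) f) R := by
  have hq : 2 ≤ f.natDegree := by
    rw [hdeg]
    calc 2 ≤ p := hF.prime.two_le
      _ = p ^ 1 := (pow_one p).symm
      _ ≤ p ^ s := Nat.pow_le_pow_right hF.prime.pos hF.pos
  have hf' : ¬ PExc (f.map (algebraMap K (AlgebraicClosure K))) := fun h =>
    hf (hD K (AlgebraicClosure K) f hq h)
  have hchar : CharZero (AlgebraicClosure K) :=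
    charZero_of_injective_algebraMap (algebraMap K (AlgebraicClosure K)).injective
  have hdeg' : (f.map (algebraMap K (AlgebraicClosure K))).natDegree = f.natDegree :=
    Polynomial.natDegree_map _
  have hC : CntuF K (polF f.natDegree f) := by
    intro e
    have h5 := (h1 K f (by omega)).2.2 (AlgebraicClosure K) (algebraMap K (AlgebraicClosure K))
    rw [h5]
    have h6 := h4 (AlgebraicClosure K) (f.map (algebraMap K (AlgebraicClosure K)))
      (by rw [hdeg']; exact hq) hf' e
    rwa [hdeg'] at h6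
  obtain ⟨R, hR, hE⟩ := h9 K f hq hf'
  rw [hdeg] at hC hE
  exact ⟨R, hR, vh_explicitF mor _ K p s v _ hF R (vhstF K p s v _ hF hC R hR hE)⟩

/-- the forms of `z ^ q + c` -/
theorem polF_uni {K : Type} [Field K] {q : ℕ} (hq : 1 ≤ q) (c : K) :
    polF q (Polynomial.X ^ q + Polynomial.C c) = uniF q c := by
  have h1 : ∑ i ∈ Finset.range (q + 1), (C ((Polynomial.X ^ q + Polynomial.C c :
      Polynomial K).coeff i) * X 0 ^ i * X 1 ^ (q - i) : MvPolynomial (Fin 2) K) =
      X 0 ^ q + C c * X 1 ^ q := by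
    rw [Finset.sum_range_succ, Finset.sum_eq_single_of_mem 0 (Finset.mem_range.2 hq)]
    · simp only [Polynomial.coeff_add, Polynomial.coeff_X_pow, Polynomial.coeff_C, if_true,
        pow_zero, Nat.sub_zero, Nat.sub_self, mul_one]
      rw [if_neg (by omega), if_neg (by omega), zero_add, add_zero, map_one, one_mul, add_comm]
    · intro i hi hi0
      have hi' := Finset.mem_range.1 hi
      simp only [Polynomial.coeff_add, Polynomial.coeff_X_pow, Polynomial.coeff_C]
      rw [if_neg (by omega), if_neg hi0, add_zero, map_zero, zero_mul, zero_mul]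
  unfold polF uniF
  rw [h1]

/-- `polF` determines the polynomial -/
theorem polF_inj {K : Type} [Field K] [CharZero K] {q : ℕ} {f g : Polynomial K}
    (hf : f.natDegree ≤ q) (hg : g.natDegree ≤ q) (h : polF q f = polF q g) : f = g := by
  have key : ∀ (f : Polynomial K), f.natDegree ≤ q → ∀ x : K,
      aeval ![x, 1] (polF q f 0) = f.eval x := by
    intro f hf x
    have h1 : polF q f 0 = ∑ i ∈ Finset.range (q + 1), C (f.coeff i) * X 0 ^ i * X 1 ^ (q - i) :=
      rfl
    rw [h1, map_sum, Polynomial.eval_eq_sum_range' (Nat.lt_succ_of_le hf)]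
    refine Finset.sum_congr rfl fun i _ => ?_
    simp
  refine Polynomial.funext fun x => ?_
  rw [← key f hf x, ← key g hg x, h]

theorem pexc_pow {K : Type} [Field K] {q : ℕ} (hq : 1 ≤ q) :
    PExc (Polynomial.X ^ q + Polynomial.C 0 : Polynomial K) := by
  refine ⟨Polynomial.X ^ 2, Polynomial.natDegree_X_pow 2, ?_⟩
  rw [map_zero, add_zero, Polynomial.natDegree_X_pow, Polynomial.derivative_X_pow,
    Polynomial.pow_comp, Polynomial.X_comp, map_pow]
  obtain ⟨n, rfl⟩ : ∃ n, q = n + 1 := ⟨q - 1, by omega⟩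
  rw [Nat.add_sub_cancel]
  ring

theorem pexc_cheb {K : Type} [Field K] [CharZero K] :
    PExc (Polynomial.X ^ 2 + Polynomial.C (-2) : Polynomial K) := by
  refine ⟨Polynomial.X ^ 2 - Polynomial.C 4, Polynomial.natDegree_X_pow_sub_C, ?_⟩
  rw [Polynomial.natDegree_X_pow_add_C, Polynomial.derivative_add, Polynomial.derivative_C,
    Polynomial.derivative_X_pow, add_zero, Polynomial.sub_comp, Polynomial.pow_comp,
    Polynomial.X_comp, Polynomial.C_comp]
  have e1 : (Polynomial.C (-2) : Polynomial K) = -2 := by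
    rw [map_neg, Polynomial.C_ofNat]
  have e2 : (Polynomial.C 4 : Polynomial K) = 4 := Polynomial.C_ofNat 4
  have e3 : (Polynomial.C (((2 : ℕ) : K) ^ 2) : Polynomial K) = 4 := by
    rw [← Polynomial.C_ofNat]
    congr 1
    norm_num
  have e4 : (Polynomial.C (((2 : ℕ) : K)) : Polynomial K) = 2 := by
    rw [← Polynomial.C_ofNat]
    congr 1
  rw [e1, e2, e3, e4]
  ring

/-- the bound for polynomials, with `R = 1` for `z ^ q + c` -/
theorem polynomial_bound' (h1 : Pg1Statement) (h4 : Pg4Statement) (h9 : Pg9Statement)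
    (hD : DescStatement) (K : Type) [Field K] [NumberField K] (p s : ℕ) (v : FinitePlace K)
    (f : Polynomial K) (hdeg : f.natDegree = p ^ s) (hF : HypR p s v (polF (p ^ s) f))
    (hf : ¬ PExc f) : ∃ R : ℕ, 1 ≤ R ∧ ((∃ c : K, polF (p ^ s) f = polF (p ^ s)
      (Polynomial.X ^ (p ^ s) + Polynomial.C c)) → R = 1) ∧ ExplR K p s (polF (p ^ s) f) R := by
  have hq : 2 ≤ p ^ s := by
    calc 2 ≤ p := hF.prime.two_le
      _ = p ^ 1 := (pow_one p).symm
      _ ≤ p ^ s := Nat.pow_le_pow_right hF.prime.pos hF.pos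
  by_cases hu : ∃ c : K, polF (p ^ s) f = polF (p ^ s)
      (Polynomial.X ^ (p ^ s) + Polynomial.C c)
  · obtain ⟨c, hc⟩ := hu
    have h5 : f = Polynomial.X ^ (p ^ s) + Polynomial.C c :=
      polF_inj hdeg.le Polynomial.natDegree_X_pow_add_C.le hc
    rw [h5, polF_uni (by omega)] at hF
    refine ⟨1, le_rfl, fun _ => rfl, ?_⟩
    rw [h5, polF_uni (by omega)]
    refine unicritical_bound K p s v c hF ?_ ?_
    · rintro rfl
      exact hf (by rw [h5]; exact pexc_pow (by omega))
    · rintro ⟨h6, rfl⟩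
      rw [h6] at h5
      exact hf (by rw [h5]; exact pexc_cheb)
  · obtain ⟨R, hR, H⟩ := polynomial_explicit h1 h4 h9 hD K p s v f hdeg hF hf
    exact ⟨R, hR, fun h => absurd h hu, H⟩

end Pool.DynLehmer.UN

namespace Pool.DynLehmer.UN
open MvPolynomial NumberField Pool.DynLehmer Pool.DynLehmer.GS Pool.DynLehmer.LP
  Pool.DynLehmer.GAL Pool.DynLehmer.LW

theorem gena_all : GenaStatement :=
  fun _ _ _ d₁ d₂ G h1 h2 hG hb => Gena69.gena d₁ d₂ G h1 h2 hG hb

theorem pg6_all : Pg6Statement := Pg621.pg6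

theorem pg4_all : Pg4Statement :=
  pg4 pairp_all sym_all gena_all Pf96.pg2 pg3 Pg5.pg5

theorem pg9_all : Pg9Statement :=
  Pn60.pg9 Pf96.pg1 (pg7 Pf96.pg1 Pg5.pg5)
    (pg8 pairp_all gena_all Pf96.pg1 Pf96.pg2 Pg5.pg5 pg6_all) (Sy36.sym2 sym_all)

theorem desc_all : DescStatement := fun K L _ _ _ _ f _ h => PexD74.pexc_descent f h

/-- **The bound for polynomials** which are not conjugate to a power or to a Chebyshev
polynomial. -/
theorem polynomial_bound (K : Type) [Field K] [NumberField K] (p s : ℕ) (v : FinitePlace K)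
    (f : Polynomial K) (hdeg : f.natDegree = p ^ s) (hF : HypR p s v (polF (p ^ s) f))
    (hf : ¬ PExc f) : ∃ R : ℕ, 1 ≤ R ∧ ((∃ c : K, polF (p ^ s) f = polF (p ^ s)
      (Polynomial.X ^ (p ^ s) + Polynomial.C c)) → R = 1) ∧ ExplR K p s (polF (p ^ s) f) R :=
  polynomial_bound' Pf96.pg1 pg4_all pg9_all desc_all K p s v f hdeg hF hf

end Pool.DynLehmer.UN
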