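import Mathlib
import Pool.Agent.Lib.MP_2194ec_nt.GAL.R.Bas
import Pool.Agent.Lib.MP_2194ec_nt.GAL.R.Bez
import Pool.Agent.Lib.MP_2194ec_nt.GAL.R.Bih
import Pool.Agent.Lib.MP_2194ec_nt.GAL.R.Defs
import Pool.Agent.Lib.MP_2194ec_nt.GAL.R.Fib
import Pool.Agent.Lib.MP_2194ec_nt.GAL.R.Jac
import Pool.Agent.Lib.MP_2194ec_nt.GAL.R.Mor
import Pool.Agent.Lib.MP_2194ec_nt.GAL.R.Pre
import Pool.Agent.Lib.MP_2194ec_nt.GAL.R.Root
import Pool.Agent.Lib.MP_2194ec_nt.LP.Cls

set_option autoImplicit false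
set_option linter.unusedSectionVars false

/-!
# Maps with purely inseparable reduction over an algebraically closed field: statements
-/

namespace Pool.DynLehmer.UN.RV
open MvPolynomial Pool.DynLehmer Pool.DynLehmer.GS

/-- pairs of forms of degree `d` with good, purely inseparable reduction -/
structure Ty {Ω : Type} [Field Ω] (ab : AbsoluteValue Ω ℝ) (d : ℕ) (L : ℝ)
    (P : Fin 2 → MvPolynomial (Fin 2) Ω) : Prop where
  hom : ∀ i, (P i).IsHomogeneous d
  int : ∀ i t, ab (coeff t (P i)) ≤ 1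
  sm : ∀ i t, (∀ j, t ≠ Finsupp.single j d) → ab (coeff t (P i)) ≤ L
  det : ab (Matrix.det (Matrix.of fun i j => coeff (Finsupp.single j d) (P i))) = 1

/-- the norm of a vector -/
noncomputable def nm {Ω : Type} [Field Ω] (ab : AbsoluteValue Ω ℝ) (u : Fin 2 → Ω) : ℝ :=
  max (ab (u 0)) (ab (u 1))

/-- the distance of two vectors of norm one -/
noncomputable def ds {Ω : Type} [Field Ω] (ab : AbsoluteValue Ω ℝ) (u u' : Fin 2 → Ω) : ℝ :=
  ab (u 0 * u' 1 - u 1 * u' 0)

/-- `Q (j + 1) F = F (Q j)` up to constants -/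
def Sj {Ω : Type} [Field Ω] (F : Fin 2 → MvPolynomial (Fin 2) Ω)
    (Q : ℕ → Fin 2 → MvPolynomial (Fin 2) Ω) : Prop :=
  ∀ j, ∃ c : Ω, c ≠ 0 ∧ ∀ i, bind₁ F (Q (j + 1) i) = C c * bind₁ (Q j) (F i)

/-- Row DIST: distance estimates. -/
def DistStatement : Prop :=
  ∀ (Ω : Type) [Field Ω] (ab : AbsoluteValue Ω ℝ) (p r : ℕ) (L : ℝ)
    (P : Fin 2 → MvPolynomial (Fin 2) Ω), IsNonarchimedean ab → p.Prime → ab (p : Ω) ≤ L → L < 1 →
    Ty ab (p ^ r) L P →
    (∀ u, nm ab (gAct P Ω u) = nm ab u ^ p ^ r) ∧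
    (∀ u u', nm ab u = 1 → nm ab u' = 1 →
      ds ab (gAct P Ω u) (gAct P Ω u') ≤ max (ds ab u u' ^ p ^ r) (L * ds ab u u')) ∧
    ∀ u u', nm ab u = 1 → nm ab u' = 1 → L * ds ab u u' < ds ab u u' ^ p ^ r →
      ds ab (gAct P Ω u) (gAct P Ω u') = ds ab u u' ^ p ^ r

/-- Row WR: the value of the Jacobian at a point with a close second point in the fibre. -/
def WrStatement : Prop :=
  ∀ (Ω : Type) [Field Ω] (ab : AbsoluteValue Ω ℝ) (q : ℕ) (P : Fin 2 → MvPolynomial (Fin 2) Ω),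
    IsNonarchimedean ab → (∀ i, (P i).IsHomogeneous q) → (∀ i t, ab (coeff t (P i)) ≤ 1) →
    ∀ w w' : Fin 2 → Ω, nm ab w = 1 → nm ab w' = 1 → ds ab w w' ≠ 0 →
      Prl (gAct P Ω w') (gAct P Ω w) → ab (aeval w (Jac P)) ≤ ds ab w w'

/-- Row VAL (from DIST, WR): if `L ^ n` is small, `Q j` is constant on the fibres of `F`. -/
def ValStatement : Prop :=
  ∀ (Ω : Type) [Field Ω] [IsAlgClosed Ω] (ab : AbsoluteValue Ω ℝ) (p s n M : ℕ) (L LQ : ℝ)
    (F : Fin 2 → MvPolynomial (Fin 2) Ω) (Q : ℕ → Fin 2 → MvPolynomial (Fin 2) Ω),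
    IsNonarchimedean ab → p.Prime → 1 ≤ s → 1 ≤ M → 0 < L → ab (p : Ω) ≤ L → L < 1 →
    ab (p : Ω) ≤ LQ → LQ < 1 → Ty ab (p ^ s) L F → (∀ j, Ty ab ((p ^ s) ^ n) LQ (Q j)) →
    (∀ j, Q (j + M) = Q j) →
    (∀ j (u : Fin 2 → Ω), u ≠ 0 → Prl (gAct (Q (j + 1)) Ω (gAct F Ω u))
      (gAct F Ω (gAct (Q j) Ω u))) →
    ∀ j (u u' : Fin 2 → Ω), nm ab u = 1 → nm ab u' = 1 → Prl (gAct F Ω u') (gAct F Ω u) →
      ¬ Prl (gAct (Q j) Ω u') (gAct (Q j) Ω u) → ab (aeval (gAct (Q j) Ω u) (Jac F)) ≤ L ^ n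

/-- Row GRED (from DIST): the maps `Q j` have good, purely inseparable reduction. -/
def GredStatement : Prop :=
  ∀ (Ω : Type) [Field Ω] [IsAlgClosed Ω] (ab : AbsoluteValue Ω ℝ) (p s n n' M : ℕ) (L : ℝ)
    (F : Fin 2 → MvPolynomial (Fin 2) Ω) (Q R : ℕ → Fin 2 → MvPolynomial (Fin 2) Ω),
    IsNonarchimedean ab → p.Prime → 1 ≤ s → 1 ≤ M → ab (p : Ω) ≤ L → L < 1 →
    Ty ab (p ^ s) L F → (∀ j, Mor ((p ^ s) ^ n) (Q j)) → (∀ j, Mor ((p ^ s) ^ n') (R j)) →
    (∀ j, Q (j + M) = Q j) → (∀ j, R (j + M) = R j) → Sj F Q → Sj F R →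
    (∀ j, ∃ (j' : ℕ) (c : Ω), c ≠ 0 ∧ ∀ i, bind₁ (Q j) (R j' i) = C c * itF F (n + n') i) →
    ∃ LQ : ℝ, ab (p : Ω) ≤ LQ ∧ LQ < 1 ∧
      ∀ j, ∃ c : Ω, c ≠ 0 ∧ Ty ab ((p ^ s) ^ n) LQ (fun i => C c * Q j i)

/-- Row VGEN: from infinitely many points to the generic point. -/
def VgenStatement : Prop :=
  ∀ (Ω : Type) [Field Ω] [IsAlgClosed Ω] [CharZero Ω] (q D : ℕ)
    (F Q : Fin 2 → MvPolynomial (Fin 2) Ω), Mor q F → Mor D Q → 1 ≤ q →
    {x : Ω | ∀ u' : Fin 2 → Ω, u' ≠ 0 → Prl (gAct F Ω u') (gAct F Ω ![x, 1]) →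
      Prl (gAct Q Ω u') (gAct Q Ω ![x, 1])}.Infinite →
    ∀ (N : Type) [Field N] [Algebra Ω N] (z z' : Fin 2 → N), z' ≠ 0 → z 1 ≠ 0 →
      Transcendental Ω (z 0 / z 1) → Prl (gAct F N z') (gAct F N z) →
      Prl (gAct Q N z') (gAct Q N z)

/-- Row VINF (from GRED, VAL): for large `n`, `Q j` is constant on infinitely many fibres. -/
def VinfStatement : Prop :=
  ∀ (Ω : Type) [Field Ω] [IsAlgClosed Ω] [CharZero Ω] (ab : AbsoluteValue Ω ℝ) (p s : ℕ) (L : ℝ)
    (F : Fin 2 → MvPolynomial (Fin 2) Ω), IsNonarchimedean ab → p.Prime → 1 ≤ s →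
    ab (p : Ω) ≤ L → L < 1 → Ty ab (p ^ s) L F →
    ∃ n₁ : ℕ, ∀ (n n' M : ℕ) (Q R : ℕ → Fin 2 → MvPolynomial (Fin 2) Ω), n₁ ≤ n → 1 ≤ M →
      (∀ j, Mor ((p ^ s) ^ n) (Q j)) → (∀ j, Mor ((p ^ s) ^ n') (R j)) →
      (∀ j, Q (j + M) = Q j) → (∀ j, R (j + M) = R j) → Sj F Q → Sj F R →
      (∀ j, ∃ (j' : ℕ) (c : Ω), c ≠ 0 ∧ ∀ i, bind₁ (Q j) (R j' i) = C c * itF F (n + n') i) →
      ∀ j, {x : Ω | ∀ u' : Fin 2 → Ω, u' ≠ 0 → Prl (gAct F Ω u') (gAct F Ω ![x, 1]) →
        Prl (gAct (Q j) Ω u') (gAct (Q j) Ω ![x, 1])}.Infinite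

/-- Row VFIN (from VINF, VGEN, EXT): the bound for `n`. -/
def VfinStatement : Prop :=
  ∀ (K : Type) [Field K] [NumberField K] (p s : ℕ) (v : NumberField.FinitePlace K)
    (F₀ : Fin 2 → MvPolynomial (Fin 2) K), HypR p s v F₀ →
    ∃ n₁ : ℕ, ∀ F : Fin 2 → MvPolynomial (Fin 2) (AlgebraicClosure K),
      F = (fun i => map (algebraMap K (AlgebraicClosure K)) (F₀ i)) →
      ∀ (n n' M : ℕ) (Q R : ℕ → Fin 2 → MvPolynomial (Fin 2) (AlgebraicClosure K)),
      n₁ ≤ n → 1 ≤ M →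
      (∀ j, Mor ((p ^ s) ^ n) (Q j)) → (∀ j, Mor ((p ^ s) ^ n') (R j)) →
      (∀ j, Q (j + M) = Q j) → (∀ j, R (j + M) = R j) → Sj F Q → Sj F R →
      (∀ j, ∃ (j' : ℕ) (c : AlgebraicClosure K), c ≠ 0 ∧
        ∀ i, bind₁ (Q j) (R j' i) = C c * itF F (n + n') i) →
      ∀ (j : ℕ) (N : Type) [Field N] [Algebra (AlgebraicClosure K) N] (z z' : Fin 2 → N),
        z' ≠ 0 → z 1 ≠ 0 → Transcendental (AlgebraicClosure K) (z 0 / z 1) →
        Prl (gAct F N z') (gAct F N z) → Prl (gAct (Q j) N z') (gAct (Q j) N z)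

/-- Row EXT: an absolute value on the algebraic closure. -/
def ExtStatement : Prop :=
  ∀ (K : Type) [Field K] [NumberField K] (v : NumberField.FinitePlace K),
    ∃ ab : AbsoluteValue (AlgebraicClosure K) ℝ, IsNonarchimedean ab ∧
      ∀ x : K, ab (algebraMap K _ x) = v x

end Pool.DynLehmer.UN.RV

/-!
# Distance estimates for maps with purely inseparable reduction
-/

namespace Pool.DynLehmer.UN.RV
open MvPolynomial Pool.DynLehmer Pool.DynLehmer.GS

section na
variable {Ω : Type} [Field Ω] {ab : AbsoluteValue Ω ℝ}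

theorem na_sub (hna : IsNonarchimedean ab) (x y : Ω) : ab (x - y) ≤ max (ab x) (ab y) := by
  rw [sub_eq_add_neg]
  refine (hna x (-y)).trans ?_
  rw [ab.map_neg]

theorem na_sub_le (hna : IsNonarchimedean ab) {x y : Ω} {B : ℝ} (hx : ab x ≤ B) (hy : ab y ≤ B) :
    ab (x - y) ≤ B := (na_sub hna x y).trans (max_le hx hy)

theorem na_add_le (hna : IsNonarchimedean ab) {x y : Ω} {B : ℝ} (hx : ab x ≤ B) (hy : ab y ≤ B) :
    ab (x + y) ≤ B := (hna x y).trans (max_le hx hy)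

theorem na_sum_le (hna : IsNonarchimedean ab) {ι : Type*} (s : Finset ι) (f : ι → Ω) {B : ℝ}
    (hB : 0 ≤ B) (h : ∀ i ∈ s, ab (f i) ≤ B) : ab (∑ i ∈ s, f i) ≤ B := by
  classical
  induction s using Finset.induction_on with
  | empty => simpa using hB
  | insert i s hi ih =>
    rw [Finset.sum_insert hi]
    exact na_add_le hna (h i (Finset.mem_insert_self i s))
      (ih fun j hj => h j (Finset.mem_insert_of_mem hj))

theorem na_nat (hna : IsNonarchimedean ab) (n : ℕ) : ab (n : Ω) ≤ 1 := by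
  induction n with
  | zero => simp
  | succ n ih =>
    rw [Nat.cast_succ]
    exact na_add_le hna ih (by rw [map_one])

theorem na_eq (hna : IsNonarchimedean ab) {x y : Ω} (h : ab (x - y) < ab y) : ab x = ab y := by
  apply le_antisymm
  · have h1 : x = (x - y) + y := by ring
    calc ab x = ab ((x - y) + y) := by rw [← h1]
      _ ≤ max (ab (x - y)) (ab y) := hna _ _
      _ = ab y := max_eq_right h.le
  · by_contra h2
    push Not at h2
    have h1 : y = x - (x - y) := by ring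
    have h3 : ab y ≤ max (ab x) (ab (x - y)) := by
      calc ab y = ab (x - (x - y)) := by rw [← h1]
        _ ≤ _ := na_sub hna _ _
    exact absurd h3 (not_le.2 (max_lt h2 h))

theorem pow_le_one' {x : Ω} (hx : ab x ≤ 1) (n : ℕ) : ab (x ^ n) ≤ 1 := by
  rw [map_pow]; exact pow_le_one₀ (ab.nonneg x) hx

theorem mul_le_one' {x y : Ω} (hx : ab x ≤ 1) (hy : ab y ≤ 1) : ab (x * y) ≤ 1 := by
  rw [map_mul]; exact mul_le_one₀ hx (ab.nonneg y) hy

theorem mul_le_left' {x y : Ω} {B : ℝ} (hx : ab x ≤ 1) (hy : ab y ≤ B) : ab (x * y) ≤ B := by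
  rw [map_mul]
  calc ab x * ab y ≤ 1 * ab y := mul_le_mul_of_nonneg_right hx (ab.nonneg y)
    _ = ab y := one_mul _
    _ ≤ B := hy

theorem mul_le_right' {x y : Ω} {B : ℝ} (hx : ab x ≤ B) (hy : ab y ≤ 1) : ab (x * y) ≤ B := by
  rw [mul_comm]; exact mul_le_left' hy hx

theorem pow_sub_le (hna : IsNonarchimedean ab) {x y : Ω} {δ : ℝ} (hx : ab x ≤ 1) (hy : ab y ≤ 1)
    (h : ab (x - y) ≤ δ) (n : ℕ) : ab (x ^ n - y ^ n) ≤ δ := by
  have hδ : 0 ≤ δ := (ab.nonneg _).trans h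
  induction n with
  | zero => simpa using hδ
  | succ n ih =>
    have h1 : x ^ (n + 1) - y ^ (n + 1) = x * (x ^ n - y ^ n) + (x - y) * y ^ n := by ring
    rw [h1]
    exact na_add_le hna (mul_le_left' hx ih) (mul_le_right' h (pow_le_one' hy n))

theorem aeval_eq2 (P : MvPolynomial (Fin 2) Ω) (a : Fin 2 → Ω) :
    aeval a P = ∑ t ∈ P.support, coeff t P * (a 0 ^ t 0 * a 1 ^ t 1) := by
  rw [aeval_eq_eval, eval_eq']
  simp only [Fin.prod_univ_two]

theorem val_le (hna : IsNonarchimedean ab) {P : MvPolynomial (Fin 2) Ω} {B : ℝ}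
    (hP : ∀ t, ab (coeff t P) ≤ B) {a : Fin 2 → Ω} (ha : ∀ i, ab (a i) ≤ 1) :
    ab (aeval a P) ≤ B := by
  have hB : 0 ≤ B := (ab.nonneg _).trans (hP 0)
  rw [aeval_eq2]
  exact na_sum_le hna _ _ hB fun t _ =>
    mul_le_right' (hP t) (mul_le_one' (pow_le_one' (ha 0) _) (pow_le_one' (ha 1) _))

theorem lip (hna : IsNonarchimedean ab) {P : MvPolynomial (Fin 2) Ω} {B δ : ℝ}
    (hP : ∀ t, ab (coeff t P) ≤ B) {a b : Fin 2 → Ω} (ha : ∀ i, ab (a i) ≤ 1)
    (hb : ∀ i, ab (b i) ≤ 1) (h : ∀ i, ab (a i - b i) ≤ δ) :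
    ab (aeval a P - aeval b P) ≤ B * δ := by
  have hB : 0 ≤ B := (ab.nonneg _).trans (hP 0)
  have hδ : 0 ≤ δ := (ab.nonneg _).trans (h 0)
  rw [aeval_eq2, aeval_eq2, ← Finset.sum_sub_distrib]
  refine na_sum_le hna _ _ (mul_nonneg hB hδ) fun t _ => ?_
  rw [← mul_sub, map_mul]
  refine mul_le_mul (hP t) ?_ (ab.nonneg _) hB
  have h1 : a 0 ^ t 0 * a 1 ^ t 1 - b 0 ^ t 0 * b 1 ^ t 1 =
      a 0 ^ t 0 * (a 1 ^ t 1 - b 1 ^ t 1) + (a 0 ^ t 0 - b 0 ^ t 0) * b 1 ^ t 1 := by ring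
  rw [h1]
  exact na_add_le hna (mul_le_left' (pow_le_one' (ha 0) _) (pow_sub_le hna (ha 1) (hb 1) (h 1) _))
    (mul_le_right' (pow_sub_le hna (ha 0) (hb 0) (h 0) _) (pow_le_one' (hb 1) _))

theorem nm_le {u : Fin 2 → Ω} (hu : nm ab u = 1) (i : Fin 2) : ab (u i) ≤ 1 := by
  rw [← hu]
  fin_cases i
  · exact le_max_left _ _
  · exact le_max_right _ _

theorem ds_le (hna : IsNonarchimedean ab) {u u' : Fin 2 → Ω} (hu : nm ab u = 1)
    (hu' : nm ab u' = 1) : ds ab u u' ≤ 1 :=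
  na_sub_le hna (mul_le_one' (nm_le hu 0) (nm_le hu' 1)) (mul_le_one' (nm_le hu 1) (nm_le hu' 0))

theorem ds_nonneg (u u' : Fin 2 → Ω) : 0 ≤ ds ab u u' := ab.nonneg _

theorem exl {u u' : Fin 2 → Ω} (hu : nm ab u = 1) (hu' : nm ab u' = 1) :
    ∃ l : Ω, ab l ≤ 1 ∧ ∀ i, ab (u' i - l * u i) ≤ ds ab u u' := by
  have h0 : ab (u 0) = 1 ∨ ab (u 1) = 1 := by
    rcases le_total (ab (u 0)) (ab (u 1)) with h | h
    · right; rw [nm, max_eq_right h] at hu; exact hu
    · left; rw [nm, max_eq_left h] at hu; exact hu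
  rcases h0 with h | h
  · have hne : u 0 ≠ 0 := by
      intro h1; rw [h1, map_zero] at h; exact zero_ne_one h
    refine ⟨u' 0 / u 0, ?_, ?_⟩
    · rw [map_div₀, h, div_one]; exact nm_le hu' 0
    · intro i
      fin_cases i
      · show ab (u' 0 - u' 0 / u 0 * u 0) ≤ _
        rw [div_mul_cancel₀ _ hne, sub_self, map_zero]
        exact ds_nonneg u u'
      · show ab (u' 1 - u' 0 / u 0 * u 1) ≤ _
        have h1 : u' 1 - u' 0 / u 0 * u 1 = (u 0 * u' 1 - u 1 * u' 0) / u 0 := by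
          field_simp
        rw [h1, map_div₀, h, div_one]
        exact le_rfl
  · have hne : u 1 ≠ 0 := by
      intro h1; rw [h1, map_zero] at h; exact zero_ne_one h
    refine ⟨u' 1 / u 1, ?_, ?_⟩
    · rw [map_div₀, h, div_one]; exact nm_le hu' 1
    · intro i
      fin_cases i
      · show ab (u' 0 - u' 1 / u 1 * u 0) ≤ _
        have h1 : u' 0 - u' 1 / u 1 * u 0 = -((u 0 * u' 1 - u 1 * u' 0) / u 1) := by
          field_simp
          ring
        rw [h1, ab.map_neg, map_div₀, h, div_one]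
        exact le_rfl
      · show ab (u' 1 - u' 1 / u 1 * u 1) ≤ _
        rw [div_mul_cancel₀ _ hne, sub_self, map_zero]
        exact ds_nonneg u u'

/-- the corner coefficients -/
noncomputable def cf (d : ℕ) (P : Fin 2 → MvPolynomial (Fin 2) Ω) (i j : Fin 2) : Ω :=
  coeff (Finsupp.single j d) (P i)

/-- the rest -/
noncomputable def rs (d : ℕ) (P : Fin 2 → MvPolynomial (Fin 2) Ω) (i : Fin 2) :
    MvPolynomial (Fin 2) Ω :=
  P i - C (cf d P i 0) * X 0 ^ d - C (cf d P i 1) * X 1 ^ d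

theorem aeval_rs (d : ℕ) (P : Fin 2 → MvPolynomial (Fin 2) Ω) (i : Fin 2) (u : Fin 2 → Ω) :
    aeval u (P i) = cf d P i 0 * u 0 ^ d + cf d P i 1 * u 1 ^ d + aeval u (rs d P i) := by
  simp only [rs, map_sub, map_mul, map_pow, aeval_C, aeval_X, Algebra.algebraMap_self,
    RingHom.id_apply]
  ring

theorem coeff_rs {d : ℕ} {L : ℝ} {P : Fin 2 → MvPolynomial (Fin 2) Ω} (hd : 1 ≤ d) (hL : 0 ≤ L)
    (hP : Ty ab d L P) (i : Fin 2) (t : Fin 2 →₀ ℕ) : ab (coeff t (rs d P i)) ≤ L := by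
  classical
  have hne : (Finsupp.single (0 : Fin 2) d) ≠ Finsupp.single 1 d := by
    intro h
    have h1 := DFunLike.congr_fun h 0
    rw [Finsupp.single_eq_same, Finsupp.single_eq_of_ne (by decide)] at h1
    omega
  have e : coeff t (rs d P i) = coeff t (P i) - (if Finsupp.single 0 d = t then cf d P i 0 else 0) -
      (if Finsupp.single 1 d = t then cf d P i 1 else 0) := by
    rw [rs, coeff_sub, coeff_sub, coeff_C_mul, coeff_C_mul, coeff_X_pow, coeff_X_pow]
    split_ifs <;> simp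
  rw [e]
  by_cases h0 : Finsupp.single 0 d = t
  · rw [if_pos h0, if_neg (by rw [← h0]; exact hne.symm), sub_zero, ← h0]
    rw [cf, sub_self, map_zero]
    exact hL
  · rw [if_neg h0]
    by_cases h1 : Finsupp.single 1 d = t
    · rw [if_pos h1, ← h1, cf, sub_zero, sub_self, map_zero]
      exact hL
    · rw [if_neg h1, sub_zero, sub_zero]
      refine hP.sm i t fun j => ?_
      fin_cases j
      · exact fun h => h0 h.symm
      · exact fun h => h1 h.symm

theorem det_eq {d : ℕ} {L : ℝ} {P : Fin 2 → MvPolynomial (Fin 2) Ω} (hP : Ty ab d L P) :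
    ab (cf d P 0 0 * cf d P 1 1 - cf d P 0 1 * cf d P 1 0) = 1 := by
  have h := hP.det
  rw [Matrix.det_fin_two] at h
  exact h

theorem cf_le {d : ℕ} {L : ℝ} {P : Fin 2 → MvPolynomial (Fin 2) Ω} (hP : Ty ab d L P)
    (i j : Fin 2) : ab (cf d P i j) ≤ 1 := hP.int _ _

theorem hom_smul {d : ℕ} {P : MvPolynomial (Fin 2) Ω} (hP : P.IsHomogeneous d) (c : Ω)
    (u : Fin 2 → Ω) : aeval (fun i => c * u i) P = c ^ d * aeval u P := by
  rw [aeval_eq2, aeval_eq2, Finset.mul_sum]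
  refine Finset.sum_congr rfl fun t ht => ?_
  have h := hP (mem_support_iff.1 ht)
  have h1 : t 0 + t 1 = d := by
    rw [← h, Finsupp.weight_apply, Finsupp.sum_fintype _ _ (by simp), Fin.sum_univ_two]
    simp
  rw [mul_pow, mul_pow, ← h1, pow_add]
  ring

theorem nm_one {d : ℕ} {L : ℝ} {P : Fin 2 → MvPolynomial (Fin 2) Ω} (hna : IsNonarchimedean ab)
    (hd : 1 ≤ d) (hL : 0 ≤ L) (hL1 : L < 1) (hP : Ty ab d L P) {u : Fin 2 → Ω}
    (hu : nm ab u = 1) : nm ab (gAct P Ω u) = 1 := by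
  have hu1 := nm_le hu
  have hv : ∀ i, ab (aeval u (P i)) ≤ 1 := fun i => val_le hna (hP.int i) hu1
  have hr : ∀ i, ab (aeval u (rs d P i)) ≤ L := fun i => val_le hna (coeff_rs hd hL hP i) hu1
  apply le_antisymm (max_le (hv 0) (hv 1))
  by_contra hlt
  push Not at hlt
  have h0 : ab (aeval u (P 0)) < 1 := (le_max_left _ _).trans_lt hlt
  have h1 : ab (aeval u (P 1)) < 1 := (le_max_right _ _).trans_lt hlt
  set B := max L (max (ab (aeval u (P 0))) (ab (aeval u (P 1)))) with hB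
  have hB1 : B < 1 := max_lt hL1 (max_lt h0 h1)
  have hA : ∀ i, ab (cf d P i 0 * u 0 ^ d + cf d P i 1 * u 1 ^ d) ≤ B := by
    intro i
    have e : cf d P i 0 * u 0 ^ d + cf d P i 1 * u 1 ^ d =
        aeval u (P i) - aeval u (rs d P i) := by
      rw [aeval_rs d P i u]; ring
    rw [e]
    refine na_sub_le hna ?_ ((hr i).trans (le_max_left _ _))
    fin_cases i
    · exact (le_max_left _ _).trans (le_max_right _ _)
    · exact (le_max_right _ _).trans (le_max_right _ _)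
  have hD := det_eq hP
  have e0 : ab (u 0 ^ d) ≤ B := by
    have e : (cf d P 0 0 * cf d P 1 1 - cf d P 0 1 * cf d P 1 0) * u 0 ^ d =
        cf d P 1 1 * (cf d P 0 0 * u 0 ^ d + cf d P 0 1 * u 1 ^ d) -
        cf d P 0 1 * (cf d P 1 0 * u 0 ^ d + cf d P 1 1 * u 1 ^ d) := by ring
    have h2 := congrArg ab e
    rw [map_mul, hD, one_mul] at h2
    rw [h2]
    exact na_sub_le hna (mul_le_left' (cf_le hP 1 1) (hA 0)) (mul_le_left' (cf_le hP 0 1) (hA 1))
  have e1 : ab (u 1 ^ d) ≤ B := by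
    have e : (cf d P 0 0 * cf d P 1 1 - cf d P 0 1 * cf d P 1 0) * u 1 ^ d =
        cf d P 0 0 * (cf d P 1 0 * u 0 ^ d + cf d P 1 1 * u 1 ^ d) -
        cf d P 1 0 * (cf d P 0 0 * u 0 ^ d + cf d P 0 1 * u 1 ^ d) := by ring
    have h2 := congrArg ab e
    rw [map_mul, hD, one_mul] at h2
    rw [h2]
    exact na_sub_le hna (mul_le_left' (cf_le hP 0 0) (hA 1)) (mul_le_left' (cf_le hP 1 0) (hA 0))
  rw [map_pow] at e0 e1
  have h2 : ab (u 0) < 1 := by
    by_contra h3
    push Not at h3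
    exact absurd (e0.trans_lt hB1) (not_lt.2 (one_le_pow₀ h3))
  have h3 : ab (u 1) < 1 := by
    by_contra h3
    push Not at h3
    exact absurd (e1.trans_lt hB1) (not_lt.2 (one_le_pow₀ h3))
  rw [nm] at hu
  exact absurd hu (max_lt h2 h3).ne

theorem nm_smul (c : Ω) (u : Fin 2 → Ω) : nm ab (fun i => c * u i) = ab c * nm ab u := by
  rw [nm, nm, map_mul, map_mul, mul_max_of_nonneg _ _ (ab.nonneg c)]

theorem exists_nm (u : Fin 2 → Ω) : ∃ i, ab (u i) = nm ab u := by
  rcases le_total (ab (u 0)) (ab (u 1)) with h | h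
  · exact ⟨1, by rw [nm, max_eq_right h]⟩
  · exact ⟨0, by rw [nm, max_eq_left h]⟩

theorem nm_ne {u : Fin 2 → Ω} (hu : u ≠ 0) : 0 < nm ab u := by
  obtain ⟨i, hi⟩ := Function.ne_iff.1 hu
  have h : 0 < ab (u i) := ab.pos hi
  refine h.trans_le ?_
  fin_cases i
  · exact le_max_left _ _
  · exact le_max_right _ _

theorem nm_act {d : ℕ} {L : ℝ} {P : Fin 2 → MvPolynomial (Fin 2) Ω} (hna : IsNonarchimedean ab)
    (hd : 1 ≤ d) (hL : 0 ≤ L) (hL1 : L < 1) (hP : Ty ab d L P) (u : Fin 2 → Ω) :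
    nm ab (gAct P Ω u) = nm ab u ^ d := by
  by_cases hu : u = 0
  · have h0 : gAct P Ω u = 0 := by
      funext i
      have h1 := hom_smul (hP.hom i) (0 : Ω) u
      have h2 : (fun i => (0 : Ω) * u i) = u := by
        funext j; rw [hu, zero_mul]; rfl
      rw [h2, zero_pow (by omega), zero_mul] at h1
      exact h1
    rw [h0, hu]
    simp only [nm, Pi.zero_apply, map_zero, max_self]
    rw [zero_pow (by omega)]
  · obtain ⟨i, hi⟩ := exists_nm (ab := ab) u
    have hpos := nm_ne (ab := ab) hu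
    have hi0 : u i ≠ 0 := by
      intro h; rw [h, map_zero] at hi; rw [← hi] at hpos; exact lt_irrefl _ hpos
    set w : Fin 2 → Ω := fun j => (u i)⁻¹ * u j with hw
    have hw1 : nm ab w = 1 := by
      rw [hw, nm_smul, map_inv₀, hi, inv_mul_cancel₀ hpos.ne']
    have hu' : u = fun j => u i * w j := by
      funext j; rw [hw]; field_simp
    have h1 : gAct P Ω u = fun j => (u i) ^ d * gAct P Ω w j := by
      funext j
      show aeval u (P j) = _
      conv_lhs => rw [hu']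
      exact hom_smul (hP.hom j) _ _
    rw [h1, nm_smul, nm_one hna hd hL hL1 hP hw1, mul_one, map_pow, hi]

theorem pow_id (hna : IsNonarchimedean ab) {p : ℕ} (hp : p.Prime) (r : ℕ) {x y : Ω}
    (hx : ab x ≤ 1) (hy : ab y ≤ 1) :
    ab ((x + y) ^ p ^ r - y ^ p ^ r - x ^ p ^ r) ≤ ab (p : Ω) * ab x := by
  rw [add_pow_prime_pow_eq hp]
  have e : x ^ p ^ r + y ^ p ^ r + (p : Ω) * x * y * ∑ k ∈ Finset.Ioo 0 (p ^ r),
      x ^ (k - 1) * y ^ (p ^ r - k - 1) * ((p ^ r).choose k / p : ℕ) - y ^ p ^ r - x ^ p ^ r =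
      (p : Ω) * (x * (y * ∑ k ∈ Finset.Ioo 0 (p ^ r),
      x ^ (k - 1) * y ^ (p ^ r - k - 1) * ((p ^ r).choose k / p : ℕ))) := by ring
  rw [e, map_mul]
  refine mul_le_mul_of_nonneg_left ?_ (ab.nonneg _)
  refine mul_le_right' le_rfl (mul_le_one' hy ?_)
  exact na_sum_le hna _ _ zero_le_one fun k _ => mul_le_one' (mul_le_one' (pow_le_one' hx _)
    (pow_le_one' hy _)) (na_nat hna _)

/-- the main estimate -/
theorem wlem {p r : ℕ} {L : ℝ} {P : Fin 2 → MvPolynomial (Fin 2) Ω} (hna : IsNonarchimedean ab)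
    (hp : p.Prime) (hpL : ab (p : Ω) ≤ L) (hP : Ty ab (p ^ r) L P) {u u' : Fin 2 → Ω}
    (hu : nm ab u = 1) (hu' : nm ab u' = 1) :
    ab ((aeval u (P 0) * aeval u' (P 1) - aeval u (P 1) * aeval u' (P 0)) -
      (cf (p ^ r) P 0 0 * cf (p ^ r) P 1 1 - cf (p ^ r) P 0 1 * cf (p ^ r) P 1 0) *
        (u 0 * u' 1 - u 1 * u' 0) ^ p ^ r) ≤ L * ds ab u u' := by
  have hL : 0 ≤ L := (ab.nonneg _).trans hpL
  have hd : 1 ≤ p ^ r := Nat.one_le_iff_ne_zero.2 (pow_ne_zero _ hp.ne_zero)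
  set d := p ^ r with hdef
  obtain ⟨l, hl, hlu⟩ := exl hu hu'
  have a1 := nm_le hu
  have a2 := nm_le hu'
  set w : Fin 2 → Ω := fun i => l * u i with hw
  have a3 : ∀ i, ab (w i) ≤ 1 := fun i => mul_le_one' hl (a1 i)
  have r1 : ∀ i, ab (aeval u (rs d P i)) ≤ L := fun i => val_le hna (coeff_rs hd hL hP i) a1
  have r2 : ∀ i, ab (aeval u' (rs d P i) - aeval w (rs d P i)) ≤ L * ds ab u u' :=
    fun i => lip hna (coeff_rs hd hL hP i) a2 a3 hlu
  have r3 : ∀ i, ab (aeval u' (P i) - aeval w (P i)) ≤ 1 * ds ab u u' :=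
    fun i => lip hna (hP.int i) a2 a3 hlu
  have r4 : ∀ i, ab (cf d P i 0 * u 0 ^ d + cf d P i 1 * u 1 ^ d) ≤ 1 := fun i =>
    na_add_le hna (mul_le_one' (cf_le hP i 0) (pow_le_one' (a1 0) _))
      (mul_le_one' (cf_le hP i 1) (pow_le_one' (a1 1) _))
  have w1 : ∀ i, aeval w (P i) = l ^ d * aeval u (P i) := fun i => hom_smul (hP.hom i) l u
  have w2 : ∀ i, aeval w (rs d P i) = l ^ d * aeval u (rs d P i) := by
    intro i
    have h1 := aeval_rs d P i w
    have h2 := aeval_rs d P i u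
    rw [w1 i, h2] at h1
    have h3 : w 0 = l * u 0 := rfl
    have h4 : w 1 = l * u 1 := rfl
    rw [h3, h4, mul_pow, mul_pow] at h1
    linear_combination -h1
  have hpow : ab ((u 0 * u' 1) ^ d - (u 1 * u' 0) ^ d - (u 0 * u' 1 - u 1 * u' 0) ^ d) ≤
      L * ds ab u u' := by
    have h1 := pow_id hna hp r (x := u 0 * u' 1 - u 1 * u' 0) (y := u 1 * u' 0)
      (ds_le hna hu hu') (mul_le_one' (a1 1) (a2 0))
    rw [sub_add_cancel] at h1
    exact h1.trans (mul_le_mul_of_nonneg_right hpL (ab.nonneg _))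
  have e : (aeval u (P 0) * aeval u' (P 1) - aeval u (P 1) * aeval u' (P 0)) -
      (cf d P 0 0 * cf d P 1 1 - cf d P 0 1 * cf d P 1 0) * (u 0 * u' 1 - u 1 * u' 0) ^ d =
      (aeval u (rs d P 0) * (aeval u' (P 1) - aeval w (P 1)) -
        aeval u (rs d P 1) * (aeval u' (P 0) - aeval w (P 0))) +
      ((cf d P 0 0 * u 0 ^ d + cf d P 0 1 * u 1 ^ d) *
          (aeval u' (rs d P 1) - aeval w (rs d P 1)) -
        (cf d P 1 0 * u 0 ^ d + cf d P 1 1 * u 1 ^ d) *
          (aeval u' (rs d P 0) - aeval w (rs d P 0))) +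
      (cf d P 0 0 * cf d P 1 1 - cf d P 0 1 * cf d P 1 0) *
        ((u 0 * u' 1) ^ d - (u 1 * u' 0) ^ d - (u 0 * u' 1 - u 1 * u' 0) ^ d) := by
    rw [w1, w1, w2, w2, aeval_rs d P 0 u, aeval_rs d P 1 u, aeval_rs d P 0 u', aeval_rs d P 1 u',
      mul_pow, mul_pow]
    ring
  rw [e]
  have b1 : ∀ i j, ab (aeval u (rs d P i) * (aeval u' (P j) - aeval w (P j))) ≤
      L * ds ab u u' := by
    intro i j
    rw [map_mul]
    have h1 := mul_le_mul (r1 i) (r3 j) (ab.nonneg _) hL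
    rwa [one_mul] at h1
  refine na_add_le hna (na_add_le hna (na_sub_le hna (b1 0 1) (b1 1 0)) (na_sub_le hna
    (mul_le_left' (r4 0) (r2 1)) (mul_le_left' (r4 1) (r2 0)))) (mul_le_left' ?_ hpow)
  rw [det_eq hP]

end na

theorem dist : DistStatement := by
  intro Ω _ ab p r L P hna hp hpL hL1 hP
  have hL : 0 ≤ L := (ab.nonneg _).trans hpL
  have hd : 1 ≤ p ^ r := Nat.one_le_iff_ne_zero.2 (pow_ne_zero _ hp.ne_zero)
  refine ⟨fun u => nm_act hna hd hL hL1 hP u, ?_, ?_⟩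
  · intro u u' hu hu'
    have h1 := wlem hna hp hpL hP hu hu'
    show ab (aeval u (P 0) * aeval u' (P 1) - aeval u (P 1) * aeval u' (P 0)) ≤ _
    set W := aeval u (P 0) * aeval u' (P 1) - aeval u (P 1) * aeval u' (P 0)
    set D := (cf (p ^ r) P 0 0 * cf (p ^ r) P 1 1 - cf (p ^ r) P 0 1 * cf (p ^ r) P 1 0) *
      (u 0 * u' 1 - u 1 * u' 0) ^ p ^ r with hD
    have h2 : ab D = ds ab u u' ^ p ^ r := by
      rw [hD, map_mul, det_eq hP, one_mul, map_pow]; rfl
    have h3 : W = (W - D) + D := by ring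
    rw [h3]
    refine (hna _ _).trans (max_le (h1.trans (le_max_right _ _)) ?_)
    rw [h2]
    exact le_max_left _ _
  · intro u u' hu hu' hlt
    have h1 := wlem hna hp hpL hP hu hu'
    show ab (aeval u (P 0) * aeval u' (P 1) - aeval u (P 1) * aeval u' (P 0)) = _
    set W := aeval u (P 0) * aeval u' (P 1) - aeval u (P 1) * aeval u' (P 0)
    set D := (cf (p ^ r) P 0 0 * cf (p ^ r) P 1 1 - cf (p ^ r) P 0 1 * cf (p ^ r) P 1 0) *
      (u 0 * u' 1 - u 1 * u' 0) ^ p ^ r with hD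
    have h2 : ab D = ds ab u u' ^ p ^ r := by
      rw [hD, map_mul, det_eq hP, one_mul, map_pow]; rfl
    rw [← h2]
    exact na_eq hna (by rw [h2]; exact h1.trans_lt hlt)

end Pool.DynLehmer.UN.RV

/-!
# Good reduction from functional equations
-/

namespace Pool.DynLehmer.UN.RV
open MvPolynomial Pool.DynLehmer Pool.DynLehmer.GS

section one
variable {Ω : Type} [Field Ω] {ab : AbsoluteValue Ω ℝ}

/-! ### One variable -/

theorem coeff_mul_le (hna : IsNonarchimedean ab) {f g : Polynomial Ω}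
    (hf : ∀ k, ab (f.coeff k) ≤ 1) (hg : ∀ k, ab (g.coeff k) ≤ 1) (k : ℕ) :
    ab ((f * g).coeff k) ≤ 1 := by
  rw [Polynomial.coeff_mul]
  exact na_sum_le hna _ _ zero_le_one fun x _ => mul_le_one' (hf _) (hg _)

theorem coeff_prod_le (hna : IsNonarchimedean ab) {ι : Type*} (s : Finset ι)
    (f : ι → Polynomial Ω) (hf : ∀ i ∈ s, ∀ k, ab ((f i).coeff k) ≤ 1) (k : ℕ) :
    ab ((∏ i ∈ s, f i).coeff k) ≤ 1 := by
  classical
  induction s using Finset.induction_on generalizing k with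
  | empty =>
    rw [Finset.prod_empty, Polynomial.coeff_one]
    split_ifs <;> simp
  | insert i s hi ih =>
    rw [Finset.prod_insert hi]
    exact coeff_mul_le hna (hf i (Finset.mem_insert_self i s))
      (fun k => ih (fun j hj => hf j (Finset.mem_insert_of_mem hj)) k) k

/-- roots of unity of order prime to `p` have distance one -/
theorem dist_root (hna : IsNonarchimedean ab) {m : ℕ} (hm : ab (m : Ω) = 1) {x y : Ω}
    (hx : x ^ m = 1) (hy : y ^ m = 1) (hxy : x ≠ y) : ab (x - y) = 1 := by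
  have hm0 : m ≠ 0 := by
    rintro rfl
    rw [Nat.cast_zero, map_zero] at hm
    exact zero_ne_one hm
  have h1 : ∀ z : Ω, z ^ m = 1 → ab z = 1 := by
    intro z hz
    have h := congrArg ab hz
    rw [map_pow, map_one] at h
    exact (pow_eq_one_iff_of_nonneg (ab.nonneg z) hm0).1 h
  have hx1 := h1 x hx
  have hy1 := h1 y hy
  apply le_antisymm (na_sub_le hna hx1.le hy1.le)
  by_contra hlt
  push Not at hlt
  have hy0 : y ≠ 0 := by
    intro h; rw [h, map_zero] at hy1; exact zero_ne_one hy1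
  set t := x / y with ht
  have ht1 : t ≠ 1 := by
    intro h; rw [ht, div_eq_one_iff_eq hy0] at h; exact hxy h
  have htm : t ^ m = 1 := by rw [ht, div_pow, hx, hy, div_one]
  have htd : ab (t - 1) < 1 := by
    have e : t - 1 = (x - y) / y := by rw [ht]; field_simp
    rw [e, map_div₀, hy1, div_one]; exact hlt
  have hta : ab t ≤ 1 := (h1 t htm).le
  have hs : ∑ i ∈ Finset.range m, t ^ i = 0 := by
    have h2 := mul_geom_sum t m
    rw [htm, sub_self] at h2
    exact (mul_eq_zero.1 h2).resolve_left (sub_ne_zero.2 ht1)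
  have h3 : ab ((m : Ω)) ≤ ab (t - 1) := by
    have e : (m : Ω) = -∑ i ∈ Finset.range m, (t ^ i - 1 ^ i) := by
      rw [Finset.sum_sub_distrib, hs]
      simp
    rw [e, ab.map_neg]
    exact na_sum_le hna _ _ (ab.nonneg _) fun i _ =>
      pow_sub_le hna hta (by rw [map_one]) le_rfl i
  rw [hm] at h3
  exact absurd htd (not_lt.2 h3)

theorem ab_nat_one (hna : IsNonarchimedean ab) {p : ℕ} (hp : ab (p : Ω) < 1) (d : ℕ) :
    ab ((p * d + 1 : ℕ) : Ω) = 1 := by
  have h := na_eq hna (x := ((p * d + 1 : ℕ) : Ω)) (y := 1) (by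
    have e : ((p * d + 1 : ℕ) : Ω) - 1 = (p : Ω) * d := by push_cast; ring
    rw [e, map_one]
    exact (mul_le_right' le_rfl (na_nat hna d)).trans_lt hp)
  rw [h, map_one]

/-- the maximum principle -/
theorem maxp [IsAlgClosed Ω] (hna : IsNonarchimedean ab) {p : ℕ} (hp1 : 1 ≤ p)
    (hp : ab (p : Ω) < 1)
    {f : Polynomial Ω} (hf : ∀ x, ab x ≤ 1 → ab (f.eval x) ≤ 1) (k : ℕ) :
    ab (f.coeff k) ≤ 1 := by
  classical
  set m := p * (f.natDegree + 1) + 1 with hmdef
  have hm := ab_nat_one hna hp (f.natDegree + 1)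
  rw [← hmdef] at hm
  have hm0 : (m : Ω) ≠ 0 := by
    intro h; rw [h, map_zero] at hm; exact zero_ne_one hm
  have hmpos : 0 < m := by omega
  have hNe : NeZero (m : Ω) := ⟨hm0⟩
  obtain ⟨ζ, hζ⟩ := HasEnoughRootsOfUnity.exists_primitiveRoot Ω m
  set s := Polynomial.nthRootsFinset m (1 : Ω) with hs
  have hcard : s.card = m := hζ.card_nthRootsFinset
  have hmem : ∀ x ∈ s, x ^ m = 1 := fun x hx => (Polynomial.mem_nthRootsFinset hmpos _).1 hx
  have hle : ∀ x ∈ s, ab x ≤ 1 := by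
    intro x hx
    have h := congrArg ab (hmem x hx)
    rw [map_pow, map_one] at h
    exact ((pow_eq_one_iff_of_nonneg (ab.nonneg x) hmpos.ne').1 h).le
  have hdeg : f.degree < s.card := by
    rw [hcard]
    refine (Polynomial.degree_le_natDegree).trans_lt ?_
    have h1 : f.natDegree < m := by
      rw [hmdef]
      have h2 : 1 * (f.natDegree + 1) ≤ p * (f.natDegree + 1) :=
        Nat.mul_le_mul_right _ hp1
      omega
    exact_mod_cast h1
  have hI := Lagrange.eq_interpolate (s := s) (v := id) (f := f) (fun x _ y _ h => h) hdeg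
  rw [hI, Lagrange.interpolate_apply, Polynomial.finsetSum_coeff]
  refine na_sum_le hna _ _ zero_le_one fun x hx => ?_
  rw [Polynomial.coeff_C_mul]
  refine mul_le_one' (hf x (hle x hx)) ?_
  rw [Lagrange.basis]
  refine coeff_prod_le hna _ _ (fun y hy k => ?_) k
  have hy' := Finset.mem_erase.1 hy
  rw [Lagrange.basisDivisor, Polynomial.coeff_C_mul]
  refine mul_le_one' ?_ ?_
  · rw [map_inv₀]
    have h := dist_root hna hm (hmem x hx) (hmem y hy'.2) hy'.1.symm
    simp only [id]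
    rw [h, inv_one]
  · rw [Polynomial.coeff_sub, Polynomial.coeff_X, Polynomial.coeff_C]
    refine na_sub_le hna ?_ ?_
    · split_ifs <;> simp
    · split_ifs
      · exact hle y hy'.2
      · simp

/-- a polynomial without zeros in the ball -/
theorem root_lt [IsAlgClosed Ω] (hna : IsNonarchimedean ab) (n : ℕ) : ∀ f : Polynomial Ω,
    f.natDegree = n → (∀ x, ab x ≤ 1 → f.eval x ≠ 0) → ∀ k, 1 ≤ k →
    ab (f.coeff k) < ab (f.coeff 0) := by
  induction n with
  | zero =>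
    intro f hf h0 k hk
    rw [Polynomial.coeff_eq_zero_of_natDegree_lt (by omega), map_zero]
    apply ab.pos
    have h := h0 0 (by rw [map_zero]; exact zero_le_one)
    rwa [← Polynomial.coeff_zero_eq_eval_zero] at h
  | succ n ih =>
    intro f hf h0 k hk
    obtain ⟨r, hr⟩ := IsAlgClosed.exists_root f (by
      intro h
      rw [Polynomial.degree_eq_natDegree (by rintro rfl; simp at hf), hf] at h
      exact absurd h (by exact_mod_cast Nat.succ_ne_zero n))
    obtain ⟨g, rfl⟩ := Polynomial.dvd_iff_isRoot.2 hr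
    have hr1 : 1 < ab r := by
      by_contra h
      exact h0 r (not_lt.1 h) hr
    have hg0 : g ≠ 0 := by rintro rfl; simp at hf
    have hgd : g.natDegree = n := by
      rw [Polynomial.natDegree_mul (Polynomial.X_sub_C_ne_zero r) hg0,
        Polynomial.natDegree_X_sub_C] at hf
      omega
    have hg := ih g hgd (fun x hx h => h0 x hx (by rw [Polynomial.eval_mul, h, mul_zero]))
    have hgp : 0 < ab (g.coeff 0) := by
      apply ab.pos
      intro h
      have h1 := h0 0 (by rw [map_zero]; exact zero_le_one)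
      rw [Polynomial.eval_mul, ← Polynomial.coeff_zero_eq_eval_zero g, h, mul_zero] at h1
      exact h1 rfl
    obtain ⟨l, rfl⟩ : ∃ l, k = l + 1 := ⟨k - 1, by omega⟩
    rw [sub_mul, Polynomial.coeff_sub, Polynomial.coeff_sub, Polynomial.coeff_X_mul,
      Polynomial.coeff_C_mul, Polynomial.coeff_C_mul]
    have e0 : (Polynomial.X * g).coeff 0 = 0 := by simp
    rw [e0, zero_sub, ab.map_neg]
    refine (na_sub hna _ _).trans_lt (max_lt ?_ ?_)
    · have h1 : ab (g.coeff l) ≤ ab (g.coeff 0) := by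
        rcases Nat.eq_zero_or_pos l with h | h
        · rw [h]
        · exact (hg l h).le
      rw [map_mul]
      calc ab (g.coeff l) ≤ ab (g.coeff 0) := h1
        _ = 1 * ab (g.coeff 0) := (one_mul _).symm
        _ < ab r * ab (g.coeff 0) := mul_lt_mul_of_pos_right hr1 hgp
    · rw [map_mul, map_mul]
      exact mul_lt_mul_of_pos_left (hg (l + 1) hk) (zero_lt_one.trans hr1)

end one

section sys
variable {Ω : Type} [Field Ω] {ab : AbsoluteValue Ω ℝ}

/-! ### Systems of maps -/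

theorem act_bind (F Q : Fin 2 → MvPolynomial (Fin 2) Ω) (u : Fin 2 → Ω) (i : Fin 2) :
    aeval u (bind₁ F (Q i)) = gAct Q Ω (gAct F Ω u) i := by
  rw [aeval_bind₁]
  rfl

theorem per_mul {α : Type} {Q : ℕ → α} {M : ℕ} (h : ∀ j, Q (j + M) = Q j) (j m : ℕ) :
    Q (j + M * m) = Q j := by
  induction m with
  | zero => rfl
  | succ m ih => rw [Nat.mul_succ, ← add_assoc, h, ih]

theorem per_mod {α : Type} {Q : ℕ → α} {M : ℕ} (h : ∀ j, Q (j + M) = Q j) (j : ℕ) :
    Q (j % M) = Q j := by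
  have h1 := per_mul h (j % M) (j / M)
  rw [Nat.mod_add_div] at h1
  exact h1.symm

theorem scale [IsAlgClosed Ω] {q M : ℕ} (hq : 2 ≤ q) (hM : 1 ≤ M)
    {F : Fin 2 → MvPolynomial (Fin 2) Ω} (hF : ∀ i, (F i).IsHomogeneous q)
    {Q : ℕ → Fin 2 → MvPolynomial (Fin 2) Ω} (hQ : Sj F Q) (hper : ∀ j, Q (j + M) = Q j) :
    ∃ a : ℕ → Ω, (∀ j, a j ≠ 0) ∧ (∀ j, a (j + M) = a j) ∧
      ∀ j u, (fun i => a (j + 1) * gAct (Q (j + 1)) Ω (gAct F Ω u) i) =
        gAct F Ω (fun i => a j * gAct (Q j) Ω u i) := by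
  choose c0 hc0 hc1 using hQ
  set c : ℕ → Ω := fun j => c0 (j % M) with hc
  have hcp : ∀ j, c (j + M) = c j := by
    intro j; simp only [hc, Nat.add_mod_right]
  have hcn : ∀ j, c j ≠ 0 := fun j => hc0 _
  have hce : ∀ j u i, gAct (Q (j + 1)) Ω (gAct F Ω u) i = c j * gAct F Ω (gAct (Q j) Ω u) i := by
    intro j u i
    have h1 := congrArg (aeval u : MvPolynomial (Fin 2) Ω →ₐ[Ω] Ω) (hc1 (j % M) i)
    rw [act_bind, map_mul, act_bind, aeval_C] at h1
    have h2 : Q (j % M + 1) = Q (j + 1) := by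
      have h3 := per_mul hper (j % M + 1) (j / M)
      rw [← h3]
      congr 1
      have h4 := Nat.mod_add_div j M
      omega
    rw [h2, per_mod hper] at h1
    exact h1
  let sq : Ω → ℕ → Ω := fun a0 n => Nat.rec a0 (fun j x => x ^ q / c j) n
  have hK : ∀ n, ∃ K : Ω, K ≠ 0 ∧ ∀ a0, sq a0 n = a0 ^ q ^ n / K := by
    intro n
    induction n with
    | zero => exact ⟨1, one_ne_zero, fun a0 => by show a0 = _; simp⟩
    | succ n ih =>
      obtain ⟨K, hK, h⟩ := ih
      refine ⟨K ^ q * c n, mul_ne_zero (pow_ne_zero _ hK) (hcn n), fun a0 => ?_⟩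
      show (sq a0 n) ^ q / c n = _
      rw [h, div_pow, ← pow_mul, ← pow_succ, div_div]
  obtain ⟨K, hK0, hKM⟩ := hK M
  have hqM : 2 ≤ q ^ M := hq.trans (Nat.le_self_pow (by omega) q)
  obtain ⟨a0, ha0⟩ := IsAlgClosed.exists_pow_nat_eq K (n := q ^ M - 1) (by omega)
  have ha0n : a0 ≠ 0 := by
    rintro rfl
    rw [zero_pow (by omega)] at ha0
    exact hK0 ha0.symm
  have hsM : sq a0 M = a0 := by
    rw [hKM, div_eq_iff hK0, ← ha0, ← pow_succ']
    congr 1
    omega
  have hn : ∀ j, sq a0 j ≠ 0 := by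
    intro j
    induction j with
    | zero => exact ha0n
    | succ j ih => exact div_ne_zero (pow_ne_zero _ ih) (hcn j)
  refine ⟨sq a0, hn, ?_, ?_⟩
  · intro j
    induction j with
    | zero => rw [zero_add]; exact hsM
    | succ j ih =>
      have e : j + 1 + M = (j + M) + 1 := by omega
      rw [e]
      show (sq a0 (j + M)) ^ q / c (j + M) = (sq a0 j) ^ q / c j
      rw [ih, hcp]
  · intro j u
    funext i
    rw [hce]
    have h1 : gAct F Ω (fun i => sq a0 j * gAct (Q j) Ω u i) i =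
        sq a0 j ^ q * gAct F Ω (gAct (Q j) Ω u) i := hom_smul (hF i) _ _
    rw [h1]
    have h2 : sq a0 (j + 1) = sq a0 j ^ q / c j := rfl
    rw [h2, ← mul_assoc, div_mul_cancel₀ _ (hcn j)]

theorem le_one_of {x B : ℝ} {q : ℕ} (hq : 2 ≤ q) (h : ∀ t : ℕ, x ^ q ^ t ≤ B) : x ≤ 1 := by
  by_contra h1
  push Not at h1
  obtain ⟨n, hn⟩ := pow_unbounded_of_one_lt B h1
  have h2 : x ^ n ≤ x ^ q ^ n :=
    pow_le_pow_right₀ h1.le (Nat.lt_pow_self (by omega)).le
  exact absurd (hn.trans_le (h2.trans (h n))) (lt_irrefl _)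

theorem coeff_bdd (P : MvPolynomial (Fin 2) Ω) : ∃ B : ℝ, ∀ t, ab (coeff t P) ≤ B := by
  classical
  refine ⟨∑ t ∈ P.support, ab (coeff t P), fun t => ?_⟩
  by_cases ht : t ∈ P.support
  · exact Finset.single_le_sum (f := fun t => ab (coeff t P)) (fun i _ => ab.nonneg _) ht
  · rw [notMem_support_iff.1 ht, map_zero]
    exact Finset.sum_nonneg fun i _ => ab.nonneg _

/-- an exact system has norms at most one -/
theorem sys_le (hna : IsNonarchimedean ab) {q M : ℕ} (hq : 2 ≤ q) (hM : 1 ≤ M)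
    {F : Fin 2 → MvPolynomial (Fin 2) Ω} (hnF : ∀ u, nm ab (gAct F Ω u) = nm ab u ^ q)
    {Q : ℕ → Fin 2 → MvPolynomial (Fin 2) Ω} (hper : ∀ j, Q (j + M) = Q j)
    (hE : ∀ j u, gAct (Q (j + 1)) Ω (gAct F Ω u) = gAct F Ω (gAct (Q j) Ω u))
    (j : ℕ) {u : Fin 2 → Ω} (hu : nm ab u = 1) : nm ab (gAct (Q j) Ω u) ≤ 1 := by
  have hB : ∃ B : ℝ, ∀ j u, nm ab u = 1 → nm ab (gAct (Q j) Ω u) ≤ B := by
    choose b hb using fun P : MvPolynomial (Fin 2) Ω => coeff_bdd (ab := ab) P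
    refine ⟨∑ j ∈ Finset.range M, ∑ i, b (Q j i), fun j u hu => ?_⟩
    have hpos : ∀ P, 0 ≤ b P := fun P => (ab.nonneg _).trans (hb P 0)
    have h1 : ∀ i, b (Q j i) ≤ ∑ j ∈ Finset.range M, ∑ i, b (Q j i) := by
      intro i
      rw [← per_mod hper j]
      calc b (Q (j % M) i) ≤ ∑ i, b (Q (j % M) i) :=
            Finset.single_le_sum (f := fun i => b (Q (j % M) i)) (fun i _ => hpos _)
              (Finset.mem_univ i)
        _ ≤ _ := Finset.single_le_sum (f := fun j => ∑ i, b (Q j i))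
            (fun j _ => Finset.sum_nonneg fun i _ => hpos _)
            (Finset.mem_range.2 (Nat.mod_lt j (by omega)))
    exact max_le ((val_le hna (hb _) (nm_le hu)).trans (h1 0))
      ((val_le hna (hb _) (nm_le hu)).trans (h1 1))
  obtain ⟨B, hB⟩ := hB
  have hit : ∀ t, ∃ w, nm ab w = 1 ∧ nm ab (gAct (Q (j + t)) Ω w) =
      nm ab (gAct (Q j) Ω u) ^ q ^ t := by
    intro t
    induction t with
    | zero => exact ⟨u, hu, by simp⟩
    | succ t ih =>
      obtain ⟨w, hw, h⟩ := ih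
      refine ⟨gAct F Ω w, by rw [hnF, hw, one_pow], ?_⟩
      rw [← add_assoc, hE, hnF, h, ← pow_mul, ← pow_succ]
  refine le_one_of hq (B := B) fun t => ?_
  obtain ⟨w, hw, h⟩ := hit t
  rw [← h]
  exact hB _ w hw

theorem coef_up {D : ℕ} {P : MvPolynomial (Fin 2) Ω} (hP : P.IsHomogeneous D) (t : Fin 2 →₀ ℕ)
    (ht : t 0 + t 1 = D) :
    (aeval ![Polynomial.X, (1 : Polynomial Ω)] P).coeff (t 0) = coeff t P := by
  classical
  rw [aeval_def, eval₂_eq']
  simp only [Fin.prod_univ_two, Matrix.cons_val_zero, Matrix.cons_val_one, one_pow, mul_one,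
    Polynomial.algebraMap_eq, Polynomial.finsetSum_coeff, Polynomial.coeff_C_mul,
    Polynomial.coeff_X_pow, mul_ite, mul_zero]
  rw [← Finset.sum_filter]
  have huniq : ∀ s ∈ P.support, t 0 = s 0 → s = t := by
    intro s hs h
    have h1 := hP (mem_support_iff.1 hs)
    have h2 : s 0 + s 1 = D := by
      rw [← h1, Finsupp.weight_apply, Finsupp.sum_fintype _ _ (by simp), Fin.sum_univ_two]
      simp
    ext i
    fin_cases i
    · exact h.symm
    · show s 1 = t 1
      omega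
  by_cases hts : t ∈ P.support
  · have e : Finset.filter (fun s : Fin 2 →₀ ℕ => t 0 = s 0) P.support = {t} := by
      ext s
      rw [Finset.mem_filter, Finset.mem_singleton]
      exact ⟨fun h => huniq s h.1 h.2, fun h => by rw [h]; exact ⟨hts, rfl⟩⟩
    rw [e, Finset.sum_singleton]
  · have e : Finset.filter (fun s : Fin 2 →₀ ℕ => t 0 = s 0) P.support = ∅ := by
      rw [Finset.filter_eq_empty_iff]
      intro s hs h
      exact hts (by rw [← huniq s hs h]; exact hs)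
    rw [e, Finset.sum_empty, notMem_support_iff.1 hts]

theorem coef_up' {D : ℕ} {P : MvPolynomial (Fin 2) Ω} (hP : P.IsHomogeneous D) (t : Fin 2 →₀ ℕ)
    (ht : t 0 + t 1 = D) :
    (aeval ![(1 : Polynomial Ω), Polynomial.X] P).coeff (t 1) = coeff t P := by
  classical
  rw [aeval_def, eval₂_eq']
  simp only [Fin.prod_univ_two, Matrix.cons_val_zero, Matrix.cons_val_one, one_pow, one_mul,
    Polynomial.algebraMap_eq, Polynomial.finsetSum_coeff, Polynomial.coeff_C_mul,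
    Polynomial.coeff_X_pow, mul_ite, mul_zero, mul_one]
  rw [← Finset.sum_filter]
  have huniq : ∀ s ∈ P.support, t 1 = s 1 → s = t := by
    intro s hs h
    have h1 := hP (mem_support_iff.1 hs)
    have h2 : s 0 + s 1 = D := by
      rw [← h1, Finsupp.weight_apply, Finsupp.sum_fintype _ _ (by simp), Fin.sum_univ_two]
      simp
    ext i
    fin_cases i
    · show s 0 = t 0
      omega
    · exact h.symm
  by_cases hts : t ∈ P.support
  · have e : Finset.filter (fun s : Fin 2 →₀ ℕ => t 1 = s 1) P.support = {t} := by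
      ext s
      rw [Finset.mem_filter, Finset.mem_singleton]
      exact ⟨fun h => huniq s h.1 h.2, fun h => by rw [h]; exact ⟨hts, rfl⟩⟩
    rw [e, Finset.sum_singleton]
  · have e : Finset.filter (fun s : Fin 2 →₀ ℕ => t 1 = s 1) P.support = ∅ := by
      rw [Finset.filter_eq_empty_iff]
      intro s hs h
      exact hts (by rw [← huniq s hs h]; exact hs)
    rw [e, Finset.sum_empty, notMem_support_iff.1 hts]

theorem eval_up (P : MvPolynomial (Fin 2) Ω) (x : Ω) :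
    (aeval ![Polynomial.X, (1 : Polynomial Ω)] P).eval x = aeval ![x, 1] P := by
  have h := comp_aeval_apply (![Polynomial.X, (1 : Polynomial Ω)])
    (Polynomial.aeval x : Polynomial Ω →ₐ[Ω] Ω) P
  rw [Polynomial.coe_aeval_eq_eval] at h
  refine h.trans ?_
  congr 2
  funext i
  fin_cases i <;> simp

theorem eval_up' (P : MvPolynomial (Fin 2) Ω) (x : Ω) :
    (aeval ![(1 : Polynomial Ω), Polynomial.X] P).eval x = aeval ![1, x] P := by
  have h := comp_aeval_apply (![(1 : Polynomial Ω), Polynomial.X])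
    (Polynomial.aeval x : Polynomial Ω →ₐ[Ω] Ω) P
  rw [Polynomial.coe_aeval_eq_eval] at h
  refine h.trans ?_
  congr 2
  funext i
  fin_cases i <;> simp

theorem nm_x {x : Ω} (hx : ab x ≤ 1) : nm ab ![x, 1] = 1 := by
  show max (ab x) (ab 1) = 1
  rw [map_one]
  exact max_eq_right hx

theorem nm_y {x : Ω} (hx : ab x ≤ 1) : nm ab ![1, x] = 1 := by
  show max (ab 1) (ab x) = 1
  rw [map_one]
  exact max_eq_left hx

/-- the coefficients of forms with values at most one -/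
theorem int_of_le [IsAlgClosed Ω] (hna : IsNonarchimedean ab) {p : ℕ} (hp1 : 1 ≤ p)
    (hp : ab (p : Ω) < 1) {D : ℕ} {P : Fin 2 → MvPolynomial (Fin 2) Ω}
    (hP : ∀ i, (P i).IsHomogeneous D) (h : ∀ u, nm ab u = 1 → nm ab (gAct P Ω u) ≤ 1)
    (i : Fin 2) (t : Fin 2 →₀ ℕ) : ab (coeff t (P i)) ≤ 1 := by
  have hi : ∀ u : Fin 2 → Ω, nm ab u = 1 → ab (aeval u (P i)) ≤ 1 := by
    intro u hu
    refine le_trans ?_ (h u hu)
    fin_cases i
    · exact le_max_left _ _
    · exact le_max_right _ _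
  by_cases ht : t 0 + t 1 = D
  · rw [← coef_up (hP i) t ht]
    exact maxp hna hp1 hp (fun x hx => by rw [eval_up]; exact hi _ (nm_x hx)) _
  · have h0 : coeff t (P i) = 0 := by
      by_contra h0
      apply ht
      have h1 := hP i h0
      rw [← h1, Finsupp.weight_apply, Finsupp.sum_fintype _ _ (by simp), Fin.sum_univ_two]
      simp
    rw [h0, map_zero]
    exact zero_le_one

/-- integral forms do not increase the distance -/
theorem ds_int (hna : IsNonarchimedean ab) {D : ℕ} {P : Fin 2 → MvPolynomial (Fin 2) Ω}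
    (hP : ∀ i, (P i).IsHomogeneous D) (h : ∀ i t, ab (coeff t (P i)) ≤ 1) {u u' : Fin 2 → Ω}
    (hu : nm ab u = 1) (hu' : nm ab u' = 1) :
    ds ab (gAct P Ω u) (gAct P Ω u') ≤ ds ab u u' := by
  obtain ⟨l, hl, hlu⟩ := exl hu hu'
  have a1 := nm_le hu
  have a2 := nm_le hu'
  set w : Fin 2 → Ω := fun i => l * u i with hw
  have a3 : ∀ i, ab (w i) ≤ 1 := fun i => mul_le_one' hl (a1 i)
  have r3 : ∀ i, ab (aeval u' (P i) - aeval w (P i)) ≤ ds ab u u' := fun i => by
    have h1 := lip hna (h i) a2 a3 hlu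
    rwa [one_mul] at h1
  have w1 : ∀ i, aeval w (P i) = l ^ D * aeval u (P i) := fun i => hom_smul (hP i) l u
  show ab (aeval u (P 0) * aeval u' (P 1) - aeval u (P 1) * aeval u' (P 0)) ≤ _
  have e : aeval u (P 0) * aeval u' (P 1) - aeval u (P 1) * aeval u' (P 0) =
      aeval u (P 0) * (aeval u' (P 1) - aeval w (P 1)) -
        aeval u (P 1) * (aeval u' (P 0) - aeval w (P 0)) := by
    rw [w1, w1]; ring
  rw [e]
  exact na_sub_le hna (mul_le_left' (val_le hna (h 0) a1) (r3 1))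
    (mul_le_left' (val_le hna (h 1) a1) (r3 0))

theorem ds_smul (c c' : Ω) (u u' : Fin 2 → Ω) :
    ds ab (fun i => c * u i) (fun i => c' * u' i) = ab c * ab c' * ds ab u u' := by
  show ab (c * u 0 * (c' * u' 1) - c * u 1 * (c' * u' 0)) = _
  rw [ds, ← map_mul, ← map_mul]
  congr 1
  ring

/-- forms which keep distance one have purely inseparable reduction -/
theorem ty_of [IsAlgClosed Ω] (hna : IsNonarchimedean ab) {p : ℕ} (hp1 : 1 ≤ p)
    (hp : ab (p : Ω) < 1) {D : ℕ} {P : Fin 2 → MvPolynomial (Fin 2) Ω}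
    (hP : ∀ i, (P i).IsHomogeneous D) (h : ∀ u, nm ab u = 1 → nm ab (gAct P Ω u) ≤ 1)
    (h1 : ∀ u u', nm ab u = 1 → nm ab u' = 1 → ds ab u u' = 1 →
      ds ab (gAct P Ω u) (gAct P Ω u') = 1) :
    ab (cf D P 0 0 * cf D P 1 1 - cf D P 0 1 * cf D P 1 0) = 1 ∧
    ∀ i t, (∀ j, t ≠ Finsupp.single j D) → ab (coeff t (P i)) < 1 := by
  have hint := int_of_le hna hp1 hp hP h
  set w := gAct P Ω ![1, 0] with hw
  set w' := gAct P Ω ![0, 1] with hw'
  have hz : ab (0 : Ω) ≤ 1 := by rw [map_zero]; exact zero_le_one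
  have hn1 : nm ab ![(1 : Ω), 0] = 1 := nm_y hz
  have hn2 : nm ab ![(0 : Ω), 1] = 1 := nm_x hz
  have hww : ds ab w w' = 1 := h1 _ _ hn1 hn2 (by
    show ab ((1 : Ω) * 1 - 0 * 0) = 1
    simp)
  have hwi : ∀ i, ab (w i) ≤ 1 := fun i => val_le hna (hint i) (nm_le hn1)
  have hwi' : ∀ i, ab (w' i) ≤ 1 := fun i => val_le hna (hint i) (nm_le hn2)
  -- the two polynomials
  set f : Polynomial Ω := Polynomial.C (w 1) * aeval ![Polynomial.X, (1 : Polynomial Ω)] (P 0) -
    Polynomial.C (w 0) * aeval ![Polynomial.X, (1 : Polynomial Ω)] (P 1) with hf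
  set g : Polynomial Ω := Polynomial.C (w' 1) * aeval ![(1 : Polynomial Ω), Polynomial.X] (P 0) -
    Polynomial.C (w' 0) * aeval ![(1 : Polynomial Ω), Polynomial.X] (P 1) with hg
  have hf1 : ∀ x, ab x ≤ 1 → ab (f.eval x) = 1 := by
    intro x hx
    rw [hf, Polynomial.eval_sub, Polynomial.eval_mul, Polynomial.eval_mul, Polynomial.eval_C,
      Polynomial.eval_C, eval_up, eval_up]
    have h2 := h1 ![x, 1] ![1, 0] (nm_x hx) hn1 (by
      show ab (x * 0 - 1 * 1) = 1
      simp)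
    rw [← h2]
    show _ = ab (aeval ![x, 1] (P 0) * w 1 - aeval ![x, 1] (P 1) * w 0)
    congr 1
    ring
  have hg1 : ∀ x, ab x ≤ 1 → ab (g.eval x) = 1 := by
    intro x hx
    rw [hg, Polynomial.eval_sub, Polynomial.eval_mul, Polynomial.eval_mul, Polynomial.eval_C,
      Polynomial.eval_C, eval_up', eval_up']
    have h2 := h1 ![1, x] ![0, 1] (nm_y hx) hn2 (by
      show ab ((1 : Ω) * 1 - x * 0) = 1
      simp)
    rw [← h2]
    show _ = ab (aeval ![1, x] (P 0) * w' 1 - aeval ![1, x] (P 1) * w' 0)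
    congr 1
    ring
  have hfk : ∀ k, 1 ≤ k → ab (f.coeff k) < 1 := by
    intro k hk
    have h2 := root_lt hna _ f rfl (fun x hx h3 => by
      have h4 := hf1 x hx
      rw [h3, map_zero] at h4
      exact zero_ne_one h4) k hk
    rwa [Polynomial.coeff_zero_eq_eval_zero, hf1 0 hz] at h2
  have hgk : ∀ k, 1 ≤ k → ab (g.coeff k) < 1 := by
    intro k hk
    have h2 := root_lt hna _ g rfl (fun x hx h3 => by
      have h4 := hg1 x hx
      rw [h3, map_zero] at h4
      exact zero_ne_one h4) k hk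
    rwa [Polynomial.coeff_zero_eq_eval_zero, hg1 0 hz] at h2
  have hcf0 : ∀ i, cf D P i 0 = w i := by
    intro i
    rw [hw]
    show _ = aeval ![1, 0] (P i)
    rw [← eval_up', ← Polynomial.coeff_zero_eq_eval_zero, cf]
    have h2 := coef_up' (hP i) (Finsupp.single 0 D) (by simp)
    rw [← h2]
    simp
  have hcf1 : ∀ i, cf D P i 1 = w' i := by
    intro i
    rw [hw']
    show _ = aeval ![0, 1] (P i)
    rw [← eval_up, ← Polynomial.coeff_zero_eq_eval_zero, cf]
    have h2 := coef_up (hP i) (Finsupp.single 1 D) (by simp)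
    rw [← h2]
    simp
  have hdet : ab (w 0 * w' 1 - w 1 * w' 0) = 1 := hww
  refine ⟨?_, ?_⟩
  · rw [hcf0, hcf0, hcf1, hcf1, ← hdet]
    congr 1
    ring
  · intro i t ht
    by_cases htD : t 0 + t 1 = D
    · have ht0 : 1 ≤ t 0 := by
        by_contra h2
        refine ht 1 ?_
        ext j
        fin_cases j
        · show t 0 = (Finsupp.single 1 D) 0
          rw [Finsupp.single_eq_of_ne (by decide)]; omega
        · show t 1 = (Finsupp.single 1 D) 1
          rw [Finsupp.single_eq_same]; omega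
      have ht1 : 1 ≤ t 1 := by
        by_contra h2
        refine ht 0 ?_
        ext j
        fin_cases j
        · show t 0 = (Finsupp.single 0 D) 0
          rw [Finsupp.single_eq_same]; omega
        · show t 1 = (Finsupp.single 0 D) 1
          rw [Finsupp.single_eq_of_ne (by decide)]; omega
      have hfc : f.coeff (t 0) = w 1 * coeff t (P 0) - w 0 * coeff t (P 1) := by
        rw [hf, Polynomial.coeff_sub, Polynomial.coeff_C_mul, Polynomial.coeff_C_mul,
          coef_up (hP 0) t htD, coef_up (hP 1) t htD]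
      have hgc : g.coeff (t 1) = w' 1 * coeff t (P 0) - w' 0 * coeff t (P 1) := by
        rw [hg, Polynomial.coeff_sub, Polynomial.coeff_C_mul, Polynomial.coeff_C_mul,
          coef_up' (hP 0) t htD, coef_up' (hP 1) t htD]
      have b1 := hfk _ ht0
      have b2 := hgk _ ht1
      have key : ∀ z : Ω, ∀ a b : Ω, ab a ≤ 1 → ab b ≤ 1 →
          (w 0 * w' 1 - w 1 * w' 0) * z = a * f.coeff (t 0) - b * g.coeff (t 1) → ab z < 1 := by
        intro z a b ha hb hz
        have h2 := congrArg ab hz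
        rw [map_mul, hdet, one_mul] at h2
        rw [h2]
        refine (na_sub hna _ _).trans_lt (max_lt ?_ ?_)
        · exact (mul_le_left' ha le_rfl).trans_lt b1
        · exact (mul_le_left' hb le_rfl).trans_lt b2
      fin_cases i
      · refine key _ (-(w' 0)) (-(w 0)) (by rw [ab.map_neg]; exact hwi' 0)
          (by rw [ab.map_neg]; exact hwi 0) ?_
        rw [hfc, hgc]
        show (w 0 * w' 1 - w 1 * w' 0) * coeff t (P 0) = _
        ring
      · refine key _ (-(w' 1)) (-(w 1)) (by rw [ab.map_neg]; exact hwi' 1)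
          (by rw [ab.map_neg]; exact hwi 1) ?_
        rw [hfc, hgc]
        show (w 0 * w' 1 - w 1 * w' 0) * coeff t (P 1) = _
        ring
    · have h0 : coeff t (P i) = 0 := by
        by_contra h0
        apply htD
        have h2 := hP i h0
        rw [← h2, Finsupp.weight_apply, Finsupp.sum_fintype _ _ (by simp), Fin.sum_univ_two]
        simp
      rw [h0, map_zero]
      exact zero_lt_one

theorem fin_lt {ι : Type*} (s : Finset ι) (f : ι → ℝ) (h : ∀ i ∈ s, f i < 1) :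
    ∃ B : ℝ, B < 1 ∧ ∀ i ∈ s, f i ≤ B := by
  classical
  induction s using Finset.induction_on with
  | empty => exact ⟨0, zero_lt_one, fun i hi => absurd hi (Finset.notMem_empty i)⟩
  | insert a s ha ih =>
    obtain ⟨B, hB, h1⟩ := ih fun i hi => h i (Finset.mem_insert_of_mem hi)
    refine ⟨max (f a) B, max_lt (h a (Finset.mem_insert_self a s)) hB, fun i hi => ?_⟩
    rcases Finset.mem_insert.1 hi with rfl | hi
    · exact le_max_left _ _
    · exact (h1 i hi).trans (le_max_right _ _)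

theorem nm_le_pow {D : ℕ} {P : Fin 2 → MvPolynomial (Fin 2) Ω} (hP : ∀ i, (P i).IsHomogeneous D)
    (h : ∀ u, nm ab u = 1 → nm ab (gAct P Ω u) ≤ 1) {w : Fin 2 → Ω} (hw : w ≠ 0) :
    nm ab (gAct P Ω w) ≤ nm ab w ^ D := by
  obtain ⟨i, hi⟩ := exists_nm (ab := ab) w
  have hpos := nm_ne (ab := ab) hw
  have hi0 : w i ≠ 0 := by
    intro h; rw [h, map_zero] at hi; rw [← hi] at hpos; exact lt_irrefl _ hpos
  set v : Fin 2 → Ω := fun j => (w i)⁻¹ * w j with hv
  have hv1 : nm ab v = 1 := by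
    rw [hv, nm_smul, map_inv₀, hi, inv_mul_cancel₀ hpos.ne']
  have hw' : w = fun j => w i * v j := by
    funext j; rw [hv]; field_simp
  have h1 : gAct P Ω w = fun j => (w i) ^ D * gAct P Ω v j := by
    funext j
    show aeval w (P j) = _
    conv_lhs => rw [hw']
    exact hom_smul (hP j) _ _
  rw [h1, nm_smul, map_pow, hi]
  calc nm ab w ^ D * nm ab (gAct P Ω v) ≤ nm ab w ^ D * 1 :=
        mul_le_mul_of_nonneg_left (h v hv1) (pow_nonneg hpos.le _)
    _ = _ := mul_one _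

end sys

theorem gred : GredStatement := by
  intro Ω _ _ ab p s n n' M L F Q R hna hp hs hM hpL hL1 hF hQ hR hQp hRp hQS hRS hQR
  have hp1 : 1 ≤ p := hp.one_lt.le
  have hpl : ab (p : Ω) < 1 := hpL.trans_lt hL1
  have hq : 2 ≤ p ^ s := hp.two_le.trans (Nat.le_self_pow (by omega) p)
  obtain ⟨hnF, -, hF3⟩ := dist Ω ab p s L F hna hp hpL hL1 hF
  set q := p ^ s with hqdef
  obtain ⟨a, ha0, hap, hae⟩ := scale hq hM hF.hom hQS hQp
  obtain ⟨b, hb0, hbp, hbe⟩ := scale hq hM hF.hom hRS hRp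
  set Q' : ℕ → Fin 2 → MvPolynomial (Fin 2) Ω := fun j i => C (a j) * Q j i with hQ'
  set R' : ℕ → Fin 2 → MvPolynomial (Fin 2) Ω := fun j i => C (b j) * R j i with hR'
  have hQa : ∀ j u, gAct (Q' j) Ω u = fun i => a j * gAct (Q j) Ω u i := by
    intro j u; funext i
    show aeval u (C (a j) * Q j i) = _
    rw [map_mul, aeval_C]; rfl
  have hRa : ∀ j u, gAct (R' j) Ω u = fun i => b j * gAct (R j) Ω u i := by
    intro j u; funext i
    show aeval u (C (b j) * R j i) = _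
    rw [map_mul, aeval_C]; rfl
  have hQe : ∀ j u, gAct (Q' (j + 1)) Ω (gAct F Ω u) = gAct F Ω (gAct (Q' j) Ω u) := by
    intro j u; rw [hQa, hQa]; exact hae j u
  have hRe : ∀ j u, gAct (R' (j + 1)) Ω (gAct F Ω u) = gAct F Ω (gAct (R' j) Ω u) := by
    intro j u; rw [hRa, hRa]; exact hbe j u
  have hQ'p : ∀ j, Q' (j + M) = Q' j := by intro j; simp only [hQ', hap, hQp]
  have hR'p : ∀ j, R' (j + M) = R' j := by intro j; simp only [hR', hbp, hRp]
  have hQ1 : ∀ j u, nm ab u = 1 → nm ab (gAct (Q' j) Ω u) ≤ 1 :=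
    fun j u hu => sys_le hna hq hM hnF hQ'p hQe j hu
  have hR1 : ∀ j u, nm ab u = 1 → nm ab (gAct (R' j) Ω u) ≤ 1 :=
    fun j u hu => sys_le hna hq hM hnF hR'p hRe j hu
  have hQh : ∀ j i, (Q' j i).IsHomogeneous (q ^ n) := fun j i => ((hQ j).hom i).C_mul _
  have hRh : ∀ j i, (R' j i).IsHomogeneous (q ^ n') := fun j i => ((hR j).hom i).C_mul _
  have hQi : ∀ j i t, ab (coeff t (Q' j i)) ≤ 1 :=
    fun j => int_of_le hna hp1 hpl (hQh j) (hQ1 j)
  have hRi : ∀ j i t, ab (coeff t (R' j i)) ≤ 1 :=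
    fun j => int_of_le hna hp1 hpl (hRh j) (hR1 j)
  -- iterates
  have hQt : ∀ t j u, gAct (Q' (j + t)) Ω ((gAct F Ω)^[t] u) =
      (gAct F Ω)^[t] (gAct (Q' j) Ω u) := by
    intro t j u
    induction t with
    | zero => rfl
    | succ t ih =>
      rw [Function.iterate_succ_apply', Function.iterate_succ_apply', ← ih, ← add_assoc, hQe]
  have hRt : ∀ t j u, gAct (R' (j + t)) Ω ((gAct F Ω)^[t] u) =
      (gAct F Ω)^[t] (gAct (R' j) Ω u) := by
    intro t j u
    induction t with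
    | zero => rfl
    | succ t ih =>
      rw [Function.iterate_succ_apply', Function.iterate_succ_apply', ← ih, ← add_assoc, hRe]
  have hFt : ∀ t u, nm ab ((gAct F Ω)^[t] u) = nm ab u ^ q ^ t := by
    intro t u
    induction t with
    | zero => simp
    | succ t ih => rw [Function.iterate_succ_apply', hnF, ih, ← pow_mul, ← pow_succ]
  have hFd : ∀ t u u', nm ab u = 1 → nm ab u' = 1 → ds ab u u' = 1 →
      ds ab ((gAct F Ω)^[t] u) ((gAct F Ω)^[t] u') = 1 := by
    intro t u u' hu hu' hd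
    induction t with
    | zero => exact hd
    | succ t ih =>
      rw [Function.iterate_succ_apply', Function.iterate_succ_apply', hF3 _ _
        (by rw [hFt, hu, one_pow]) (by rw [hFt, hu', one_pow])
        (by rw [ih, mul_one, one_pow]; exact hL1), ih, one_pow]
  -- the composite
  have hcomp : ∀ j, ∃ (j' : ℕ) (ρ : Ω), ρ ≠ 0 ∧ ∀ u, gAct (R' j') Ω (gAct (Q' j) Ω u) =
      fun i => ρ * (gAct F Ω)^[n + n'] u i := by
    intro j
    obtain ⟨j', c, hc, h⟩ := hQR j
    refine ⟨j', b j' * a j ^ q ^ n' * c, mul_ne_zero (mul_ne_zero (hb0 _)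
      (pow_ne_zero _ (ha0 _))) hc, fun u => ?_⟩
    have h1 : ∀ i, gAct (R j') Ω (gAct (Q j) Ω u) i = c * (gAct F Ω)^[n + n'] u i := by
      intro i
      have h2 := congrArg (aeval u : MvPolynomial (Fin 2) Ω →ₐ[Ω] Ω) (h i)
      rw [act_bind, map_mul, aeval_C] at h2
      rw [h2, ← Bas.gAct_itF]
      rfl
    funext i
    rw [hRa, hQa]
    have h2 : gAct (R j') Ω (fun i => a j * gAct (Q j) Ω u i) i =
        a j ^ q ^ n' * gAct (R j') Ω (gAct (Q j) Ω u) i := hom_smul ((hR j').hom i) _ _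
    simp only [h2, h1]
    ring
  have hz : ab (0 : Ω) ≤ 1 := by rw [map_zero]; exact zero_le_one
  have hu0 : nm ab ![(1 : Ω), 0] = 1 := nm_y hz
  have hcomp1 : ∀ j, ∃ (j' : ℕ) (ρ : Ω), ab ρ = 1 ∧ ∀ u, gAct (R' j') Ω (gAct (Q' j) Ω u) =
      fun i => ρ * (gAct F Ω)^[n + n'] u i := by
    intro j
    obtain ⟨j', ρ, hρ, h⟩ := hcomp j
    refine ⟨j', ρ, ?_, h⟩
    have h1 : nm ab (gAct (R' j') Ω (gAct (Q' j) Ω ((gAct F Ω)^[M] ![1, 0]))) = ab ρ := by
      rw [h, nm_smul, hFt, hFt, hu0, one_pow, one_pow, mul_one]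
    have h2 : gAct (R' j') Ω (gAct (Q' j) Ω ((gAct F Ω)^[M] ![1, 0])) =
        (gAct F Ω)^[M] (gAct (R' j') Ω (gAct (Q' j) Ω ![1, 0])) := by
      rw [← hRt, ← hQt, hR'p, hQ'p]
    rw [h2, h, hFt, nm_smul, hFt, hu0, one_pow, mul_one] at h1
    have hpos := ab.pos hρ
    have hqM : 2 ≤ q ^ M := hq.trans (Nat.le_self_pow (by omega) q)
    obtain ⟨m, hm⟩ : ∃ m, q ^ M = m + 1 := ⟨q ^ M - 1, by omega⟩
    rw [hm, pow_succ] at h1
    have h3 : ab ρ ^ m = 1 := by
      have h4 : ab ρ ^ m * ab ρ = 1 * ab ρ := by rw [h1, one_mul]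
      exact mul_right_cancel₀ hpos.ne' h4
    exact (pow_eq_one_iff_of_nonneg hpos.le (by omega)).1 h3
  have hQ2 : ∀ j u, nm ab u = 1 → nm ab (gAct (Q' j) Ω u) = 1 := by
    intro j u hu
    obtain ⟨j', ρ, hρ, h⟩ := hcomp1 j
    apply le_antisymm (hQ1 j u hu)
    by_contra hlt
    push Not at hlt
    have hu1 : u ≠ 0 := by
      rintro rfl
      simp [nm] at hu
    have hne : gAct (Q' j) Ω u ≠ 0 := by
      intro h0
      apply (hQ j).ne Ω u hu1
      funext i
      have h1 := congrFun h0 i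
      rw [hQa] at h1
      exact (mul_eq_zero.1 h1).resolve_left (ha0 j)
    have h1 := nm_le_pow (hRh j') (hR1 j') hne
    rw [h, nm_smul, hρ, one_mul, hFt, hu, one_pow] at h1
    have h2 : nm ab (gAct (Q' j) Ω u) ^ q ^ n' < 1 :=
      pow_lt_one₀ (nm_ne hne).le hlt (pow_ne_zero _ (by omega))
    exact absurd h2 (not_lt.2 h1)
  have hQd : ∀ j u u', nm ab u = 1 → nm ab u' = 1 → ds ab u u' = 1 →
      ds ab (gAct (Q' j) Ω u) (gAct (Q' j) Ω u') = 1 := by
    intro j u u' hu hu' hd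
    obtain ⟨j', ρ, hρ, h⟩ := hcomp1 j
    apply le_antisymm (ds_le hna (hQ2 j u hu) (hQ2 j u' hu'))
    have h1 := ds_int hna (hRh j') (hRi j') (hQ2 j u hu) (hQ2 j u' hu')
    rwa [h, h, ds_smul, hρ, one_mul, one_mul, hFd _ _ _ hu hu' hd] at h1
  have hty : ∀ j, _ := fun j => ty_of hna hp1 hpl (hQh j) (hQ1 j) (hQd j)
  -- the bound for the coefficients
  have hB : ∀ j, ∃ B : ℝ, B < 1 ∧ ∀ i t, (∀ k, t ≠ Finsupp.single k (q ^ n)) →
      ab (coeff t (Q' j i)) ≤ max (ab (p : Ω)) B := by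
    classical
    intro j
    have h1 : ∀ i, ∃ B : ℝ, B < 1 ∧ ∀ t, (∀ k, t ≠ Finsupp.single k (q ^ n)) →
        ab (coeff t (Q' j i)) ≤ max (ab (p : Ω)) B := by
      intro i
      obtain ⟨B, hB, h2⟩ := fin_lt ((Q' j i).support.filter
        fun t => ∀ k, t ≠ Finsupp.single k (q ^ n)) (fun t => ab (coeff t (Q' j i)))
        (fun t ht => (hty j).2 i t (Finset.mem_filter.1 ht).2)
      refine ⟨B, hB, fun t ht => ?_⟩
      by_cases hts : t ∈ (Q' j i).support
      · exact (h2 t (Finset.mem_filter.2 ⟨hts, ht⟩)).trans (le_max_right _ _)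
      · rw [notMem_support_iff.1 hts, map_zero]
        exact (ab.nonneg _).trans (le_max_left _ _)
    choose B hB h2 using h1
    refine ⟨max (B 0) (B 1), max_lt (hB 0) (hB 1), fun i t ht => (h2 i t ht).trans ?_⟩
    refine max_le_max le_rfl ?_
    fin_cases i
    · exact le_max_left _ _
    · exact le_max_right _ _
  choose B hB1 hB2 using hB
  obtain ⟨B', hB', hBB⟩ := fin_lt (Finset.range M) B fun j _ => hB1 j
  refine ⟨max (ab (p : Ω)) B', le_max_left _ _, max_lt hpl hB', fun j => ⟨a j, ha0 j, ?_⟩⟩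
  have e : (fun i => C (a j) * Q j i) = Q' (j % M) := (per_mod hQ'p j).symm
  rw [e]
  refine ⟨hQh _, hQi _, fun i t ht => (hB2 _ i t ht).trans (max_le_max le_rfl
    (hBB _ (Finset.mem_range.2 (Nat.mod_lt j (by omega))))), ?_⟩
  have h1 := (hty (j % M)).1
  rw [Matrix.det_fin_two]
  exact h1

end Pool.DynLehmer.UN.RV

/-!
# Row WR: the value of the Jacobian determinant
-/

namespace Pool.DynLehmer.UN.RV
open MvPolynomial Pool.DynLehmer Pool.DynLehmer.GS

namespace W24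

section
variable {Ω : Type} [Field Ω] {ab : AbsoluteValue Ω ℝ}

/-- polynomials with integral coefficients -/
def Ip (ab : AbsoluteValue Ω ℝ) (f : Polynomial Ω) : Prop := ∀ n, ab (f.coeff n) ≤ 1

theorem ip_add (hna : IsNonarchimedean ab) {f g : Polynomial Ω} (hf : Ip ab f) (hg : Ip ab g) :
    Ip ab (f + g) := by
  intro n
  rw [Polynomial.coeff_add]
  exact na_add_le hna (hf n) (hg n)

theorem ip_mul (hna : IsNonarchimedean ab) {f g : Polynomial Ω} (hf : Ip ab f) (hg : Ip ab g) :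
    Ip ab (f * g) := by
  intro n
  rw [Polynomial.coeff_mul]
  exact na_sum_le hna _ _ zero_le_one fun x _ => mul_le_one' (hf _) (hg _)

theorem ip_C {a : Ω} (ha : ab a ≤ 1) : Ip ab (Polynomial.C a) := by
  intro n
  rw [Polynomial.coeff_C]
  split_ifs
  · exact ha
  · rw [map_zero]; exact zero_le_one

theorem ip_X : Ip ab (Polynomial.X : Polynomial Ω) := by
  intro n
  rw [Polynomial.coeff_X]
  split_ifs
  · rw [map_one]
  · rw [map_zero]; exact zero_le_one

theorem ip_pow (hna : IsNonarchimedean ab) {f : Polynomial Ω} (hf : Ip ab f) (m : ℕ) :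
    Ip ab (f ^ m) := by
  induction m with
  | zero => rw [pow_zero, ← Polynomial.C_1]; exact ip_C (by rw [map_one])
  | succ m ih => rw [pow_succ]; exact ip_mul hna ih hf

theorem ip_sum (hna : IsNonarchimedean ab) {ι : Type*} (s : Finset ι) (f : ι → Polynomial Ω)
    (h : ∀ i ∈ s, Ip ab (f i)) : Ip ab (∑ i ∈ s, f i) := by
  intro n
  rw [Polynomial.finsetSum_coeff]
  exact na_sum_le hna _ _ zero_le_one fun i hi => h i hi n

/-- the line through `w` in the direction `t` -/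
noncomputable def ln (w t : Fin 2 → Ω) : Fin 2 → Polynomial Ω :=
  fun i => Polynomial.C (w i) + Polynomial.C (t i) * Polynomial.X

theorem ip_ln (hna : IsNonarchimedean ab) {w t : Fin 2 → Ω} (hw : ∀ i, ab (w i) ≤ 1)
    (ht : ∀ i, ab (t i) ≤ 1) (i : Fin 2) : Ip ab (ln w t i) :=
  ip_add hna (ip_C (hw i)) (ip_mul hna (ip_C (ht i)) ip_X)

theorem ip_aeval (hna : IsNonarchimedean ab) {P : MvPolynomial (Fin 2) Ω}
    (hP : ∀ t, ab (coeff t P) ≤ 1) {w t : Fin 2 → Ω} (hw : ∀ i, ab (w i) ≤ 1)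
    (ht : ∀ i, ab (t i) ≤ 1) : Ip ab (aeval (ln w t) P) := by
  rw [aeval_def, eval₂_eq']
  refine ip_sum hna _ _ fun m _ => ?_
  rw [Fin.prod_univ_two, Polynomial.algebraMap_apply]
  exact ip_mul hna (ip_C (hP m)) (ip_mul hna (ip_pow hna (ip_ln hna hw ht 0) _)
    (ip_pow hna (ip_ln hna hw ht 1) _))

theorem eval_ln (w t : Fin 2 → Ω) (e : Ω) (P : MvPolynomial (Fin 2) Ω) :
    (aeval (ln w t) P).eval e = aeval (fun i => w i + t i * e) P := by
  rw [J19.eval_aeval]
  congr 2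
  funext i
  simp [ln]

/-- expansion to the first order -/
theorem expand (f : Polynomial Ω) (e : Ω) :
    f.eval e = f.coeff 0 + f.coeff 1 * e + e ^ 2 * (f.divX.divX).eval e := by
  conv_lhs => rw [← Polynomial.divX_mul_X_add f, ← Polynomial.divX_mul_X_add f.divX]
  simp only [Polynomial.eval_add, Polynomial.eval_mul, Polynomial.eval_C, Polynomial.eval_X,
    Polynomial.coeff_divX]
  ring

theorem eval_le (hna : IsNonarchimedean ab) {f : Polynomial Ω} (hf : Ip ab f) {e : Ω}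
    (he : ab e ≤ 1) : ab (f.eval e) ≤ 1 := by
  rw [Polynomial.eval_eq_sum_range]
  exact na_sum_le hna _ _ zero_le_one fun i _ => mul_le_one' (hf i) (pow_le_one' he i)

theorem ip_divX {f : Polynomial Ω} (hf : Ip ab f) : Ip ab f.divX := by
  intro n
  rw [Polynomial.coeff_divX]
  exact hf _

theorem cf_one (w t : Fin 2 → Ω) (P : MvPolynomial (Fin 2) Ω) :
    (aeval (ln w t) P : Polynomial Ω).coeff 1 =
      aeval w (pderiv 0 P) * t 0 + aeval w (pderiv 1 P) * t 1 := by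
  have h1 : (Polynomial.derivative (aeval (ln w t) P)).eval 0 =
      (aeval (ln w t) P : Polynomial Ω).coeff 1 := by
    rw [← Polynomial.coeff_zero_eq_eval_zero, Polynomial.coeff_derivative]
    push_cast
    ring
  rw [← h1, J19.deriv_aeval, Fin.sum_univ_two, Polynomial.eval_add, Polynomial.eval_mul,
    Polynomial.eval_mul, eval_ln, eval_ln]
  have h2 : (fun i => w i + t i * 0) = w := by funext i; ring
  rw [h2]
  simp [ln]

theorem cf_zero (w t : Fin 2 → Ω) (P : MvPolynomial (Fin 2) Ω) :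
    (aeval (ln w t) P : Polynomial Ω).coeff 0 = aeval w P := by
  rw [Polynomial.coeff_zero_eq_eval_zero, eval_ln]
  have h2 : (fun i => w i + t i * 0) = w := by funext i; ring
  rw [h2]

/-- a vector `t` with `w ∧ t` a unit -/
theorem exists_t {w : Fin 2 → Ω} (hw : nm ab w = 1) :
    ∃ t : Fin 2 → Ω, (∀ i, ab (t i) ≤ 1) ∧ ab (w 0 * t 1 - w 1 * t 0) = 1 := by
  rcases le_total (ab (w 0)) (ab (w 1)) with h | h
  · rw [nm, max_eq_right h] at hw
    refine ⟨![1, 0], ?_, ?_⟩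
    · intro i; fin_cases i
      · show ab (1 : Ω) ≤ 1; rw [map_one]
      · show ab (0 : Ω) ≤ 1; rw [map_zero]; exact zero_le_one
    · show ab (w 0 * 0 - w 1 * 1) = 1
      rw [mul_zero, mul_one, zero_sub, ab.map_neg, hw]
  · rw [nm, max_eq_left h] at hw
    refine ⟨![0, 1], ?_, ?_⟩
    · intro i; fin_cases i
      · show ab (0 : Ω) ≤ 1; rw [map_zero]; exact zero_le_one
      · show ab (1 : Ω) ≤ 1; rw [map_one]
    · show ab (w 0 * 1 - w 1 * 0) = 1
      rw [mul_zero, mul_one, sub_zero, hw]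

end

end W24

open W24

/-- Row WR. -/
theorem wr24 : WrStatement := by
  intro Ω _ ab q P hna hP hint w w' hw hw' hds hprl
  have a1 := nm_le hw
  have a2 := nm_le hw'
  obtain ⟨t, ht, hwt⟩ := exists_t hw
  set W : Ω := w 0 * t 1 - w 1 * t 0 with hW
  have hW0 : W ≠ 0 := by
    intro h; rw [h, map_zero] at hwt; exact zero_ne_one hwt
  -- coordinates
  set l : Ω := (w' 0 * t 1 - w' 1 * t 0) / W with hl
  set m : Ω := (w 0 * w' 1 - w 1 * w' 0) / W with hm
  have hlm : ∀ i, w' i = l * w i + m * t i := by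
    intro i
    rw [hl, hm]
    fin_cases i
    · show w' 0 = (w' 0 * t 1 - w' 1 * t 0) / W * w 0 + (w 0 * w' 1 - w 1 * w' 0) / W * t 0
      field_simp
      rw [hW]; ring
    · show w' 1 = (w' 0 * t 1 - w' 1 * t 0) / W * w 1 + (w 0 * w' 1 - w 1 * w' 0) / W * t 1
      field_simp
      rw [hW]; ring
  have hlab : ab l ≤ 1 := by
    rw [hl, map_div₀, hwt, div_one]
    exact na_sub_le hna (mul_le_one' (a2 0) (ht 1)) (mul_le_one' (a2 1) (ht 0))
  have hmab : ab m = ds ab w w' := by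
    rw [hm, map_div₀, hwt, div_one]; rfl
  have hq := na_nat hna q
  have hJW : aeval w (Jac P) * W = (q : Ω) * (aeval w (P 0) *
      (aeval w (pderiv 0 (P 1)) * t 0 + aeval w (pderiv 1 (P 1)) * t 1) -
      aeval w (P 1) * (aeval w (pderiv 0 (P 0)) * t 0 + aeval w (pderiv 1 (P 0)) * t 1)) := by
    have e : ∀ i, (q : Ω) * aeval w (P i) =
        w 0 * aeval w (pderiv 0 (P i)) + w 1 * aeval w (pderiv 1 (P i)) := by
      intro i
      have h := congrArg (fun f => aeval w f) (hP i).sum_X_mul_pderiv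
      rw [Fin.sum_univ_two, nsmul_eq_mul] at h
      simp only [map_add, map_mul, aeval_X, map_natCast] at h
      exact h.symm
    have e0 := e 0
    have e1 := e 1
    rw [Jac, map_sub, map_mul, map_mul, hW]
    linear_combination -(aeval w (pderiv 0 (P 1)) * t 0 + aeval w (pderiv 1 (P 1)) * t 1) * e0 +
      (aeval w (pderiv 0 (P 0)) * t 0 + aeval w (pderiv 1 (P 0)) * t 1) * e1
  have hJ : ab (aeval w (Jac P)) = ab (q : Ω) * ab (aeval w (P 0) *
      (aeval w (pderiv 0 (P 1)) * t 0 + aeval w (pderiv 1 (P 1)) * t 1) -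
      aeval w (P 1) * (aeval w (pderiv 0 (P 0)) * t 0 + aeval w (pderiv 1 (P 0)) * t 1)) := by
    have h := congrArg ab hJW
    rw [map_mul, map_mul, hwt, mul_one] at h
    exact h
  have hc0 : ∀ i, ab ((aeval (ln w t) (P i) : Polynomial Ω).coeff 1) ≤ 1 := fun i =>
    ip_aeval hna (hint i) a1 ht 1
  have hv0 : ∀ i, ab (aeval w (P i)) ≤ 1 := fun i => val_le hna (hint i) a1
  set D : Ω := aeval w (P 0) *
      (aeval w (pderiv 0 (P 1)) * t 0 + aeval w (pderiv 1 (P 1)) * t 1) -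
      aeval w (P 1) * (aeval w (pderiv 0 (P 0)) * t 0 + aeval w (pderiv 1 (P 0)) * t 1) with hD
  rcases lt_or_ge (ds ab w w') 1 with hlt | hge
  swap
  · rw [hJ]
    refine le_trans ?_ hge
    have h1 : ab D ≤ 1 := by
      rw [hD, ← cf_one, ← cf_one]
      exact na_sub_le hna (mul_le_one' (hv0 0) (hc0 1)) (mul_le_one' (hv0 1) (hc0 0))
    exact mul_le_one₀ hq (ab.nonneg _) h1
  have hl1 : ab l = 1 := by
    apply le_antisymm hlab
    by_contra hcon
    push Not at hcon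
    have h1 : nm ab w' < 1 := by
      have h2 : ∀ i, ab (w' i) < 1 := by
        intro i
        rw [hlm i]
        refine (hna _ _).trans_lt (max_lt ?_ ?_)
        · rw [map_mul]
          exact (mul_le_of_le_one_right (ab.nonneg _) (a1 i)).trans_lt hcon
        · rw [map_mul, hmab]
          exact (mul_le_of_le_one_right (ds_nonneg w w') (ht i)).trans_lt hlt
      exact max_lt (h2 0) (h2 1)
    exact absurd hw' h1.ne
  have hl0 : l ≠ 0 := by
    intro h; rw [h, map_zero] at hl1; exact zero_ne_one hl1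
  set e : Ω := m / l with he
  have heab : ab e = ds ab w w' := by rw [he, map_div₀, hl1, div_one, hmab]
  have he0 : e ≠ 0 := by
    intro h; rw [h, map_zero] at heab; exact hds heab.symm
  have hw'e : w' = fun i => l * (w i + t i * e) := by
    funext i
    rw [hlm i, he]
    field_simp
  have hval : ∀ i, aeval w' (P i) = l ^ q * aeval (fun i => w i + t i * e) (P i) := by
    intro i
    rw [hw'e]
    exact hom_smul (hP i) l _
  -- proportionality
  obtain ⟨c, hc, hcc⟩ := hprl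
  have g0 : aeval w' (P 0) = c * aeval w (P 0) := congrFun hcc 0
  have g1 : aeval w' (P 1) = c * aeval w (P 1) := congrFun hcc 1
  have hdet : aeval w (P 0) * aeval (fun i => w i + t i * e) (P 1) -
      aeval w (P 1) * aeval (fun i => w i + t i * e) (P 0) = 0 := by
    have h1 : l ^ q * (aeval w (P 0) * aeval (fun i => w i + t i * e) (P 1) -
        aeval w (P 1) * aeval (fun i => w i + t i * e) (P 0)) = 0 := by
      rw [hval] at g0 g1
      linear_combination aeval w (P 0) * g1 - aeval w (P 1) * g0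
    exact (mul_eq_zero.1 h1).resolve_left (pow_ne_zero _ hl0)
  rw [← eval_ln, ← eval_ln, expand (aeval (ln w t) (P 1)) e, expand (aeval (ln w t) (P 0)) e,
    cf_one, cf_one, cf_zero, cf_zero] at hdet
  set r0 : Ω := ((aeval (ln w t) (P 0) : Polynomial Ω).divX.divX).eval e with hr0
  set r1 : Ω := ((aeval (ln w t) (P 1) : Polynomial Ω).divX.divX).eval e with hr1
  have hee : ab e ≤ 1 := by rw [heab]; exact hlt.le
  have hr0' : ab r0 ≤ 1 := eval_le hna (ip_divX (ip_divX (ip_aeval hna (hint 0) a1 ht))) hee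
  have hr1' : ab r1 ≤ 1 := eval_le hna (ip_divX (ip_divX (ip_aeval hna (hint 1) a1 ht))) hee
  have hDe : D = e * (aeval w (P 1) * r0 - aeval w (P 0) * r1) := by
    have h1 : e * (D - e * (aeval w (P 1) * r0 - aeval w (P 0) * r1)) = 0 := by
      rw [hD]
      linear_combination hdet
    exact sub_eq_zero.1 ((mul_eq_zero.1 h1).resolve_left he0)
  rw [hJ, hDe, map_mul, heab]
  have h1 : ab (aeval w (P 1) * r0 - aeval w (P 0) * r1) ≤ 1 :=
    na_sub_le hna (mul_le_one' (hv0 1) hr0') (mul_le_one' (hv0 0) hr1')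
  calc ab (q : Ω) * (ds ab w w' * ab (aeval w (P 1) * r0 - aeval w (P 0) * r1))
      ≤ 1 * (ds ab w w' * 1) := mul_le_mul hq (mul_le_mul_of_nonneg_left h1 (ds_nonneg w w'))
        (mul_nonneg (ds_nonneg w w') (ab.nonneg _)) zero_le_one
    _ = ds ab w w' := by ring

end Pool.DynLehmer.UN.RV

/-! # The recursion of the `p`-adic bound for rational semiconjugacies -/

namespace Pool.DynLehmer.UN

namespace R69

variable {Γ : Type} [LinearOrderedCommGroupWithZero Γ]

/-- Archimedean value groups. -/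
def Arch (Γ : Type) [LinearOrderedCommGroupWithZero Γ] : Prop :=
  ∀ x y : Γ, x ≠ 0 → y < 1 → ∃ m : ℕ, y ^ m ≤ x

theorem rec_bound (hA : Arch Γ) {q n : ℕ} (hq : 2 ≤ q) {L : Γ} (hL0 : L ≠ 0) (hL : L < 1)
    {E N : ℕ → Γ} (hE0 : E 0 ≠ 0) (hE1 : E 0 ^ (q - 1) ≤ L)
    (hE : ∀ s, L < E (s + 1) ^ (q - 1) → E s = E (s + 1) ^ q)
    (hE' : ∀ s, E (s + 1) ^ (q - 1) ≤ L → E s ≤ L * E (s + 1))
    (hElt : ∀ s, E s < 1)
    (hN : ∀ s, N s ≤ max (L * N (s + 1)) (N (s + 1) ^ q))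
    {δ : Γ} (hδ : δ < 1) (hNE : ∀ s, δ ≤ E s ^ (q ^ n) → N s ≤ E s ^ (q ^ n)) :
    N 0 ≤ L ^ n := by
  have hL0' : 0 < L := zero_lt_iff.2 hL0
  -- the exit time
  obtain ⟨s₀, h0, h1⟩ : ∃ s, E s ^ (q - 1) ≤ L ∧ L < E (s + 1) ^ (q - 1) := by
    by_contra hcon
    push Not at hcon
    have h2 : ∀ s, E s ^ (q - 1) ≤ L := by
      intro s
      induction s with
      | zero => exact hE1
      | succ s ih => exact hcon s ih
    have h3 : ∀ s, E 0 ≤ L ^ s * E s := by
      intro s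
      induction s with
      | zero => simp
      | succ s ih =>
        refine ih.trans ?_
        calc L ^ s * E s ≤ L ^ s * (L * E (s + 1)) := by
              exact mul_le_mul' le_rfl (hE' s (h2 (s + 1)))
          _ = L ^ (s + 1) * E (s + 1) := by rw [pow_succ, mul_assoc]
    obtain ⟨m, hm⟩ := hA (E 0) L hE0 hL
    have h4 : E 0 < E 0 := by
      calc E 0 ≤ L ^ (m + 1) * E (m + 1) := h3 (m + 1)
        _ ≤ L ^ (m + 1) * 1 := mul_le_mul' le_rfl (hElt _).le
        _ = L ^ m * L := by rw [mul_one, pow_succ]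
        _ < L ^ m * 1 := by
            exact mul_lt_mul_of_pos_left hL (pow_pos hL0' m)
        _ = L ^ m := mul_one _
        _ ≤ E 0 := hm
    exact absurd h4 (lt_irrefl _)
  have h2 : ∀ i, L < E (s₀ + i + 1) ^ (q - 1) := by
    intro i
    induction i with
    | zero => exact h1
    | succ i ih =>
      by_contra hcon
      push Not at hcon
      have h3 : E (s₀ + i + 1) ≤ L * E (s₀ + i + 1 + 1) := hE' _ hcon
      have h4 : E (s₀ + i + 1) ≤ E (s₀ + i + 1 + 1) :=
        h3.trans ((mul_le_mul' hL.le le_rfl).trans (one_mul _).le)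
      exact absurd (ih.trans_le ((pow_le_pow_left₀ zero_le' h4 _).trans hcon)) (lt_irrefl _)
  have h3 : ∀ i j, E (s₀ + j) = E (s₀ + j + i) ^ (q ^ i) := by
    intro i
    induction i with
    | zero => intro j; simp
    | succ i ih =>
      intro j
      rw [ih j, hE (s₀ + j + i) (by rw [show s₀ + j + i + 1 = s₀ + (j + i) + 1 by ring]; exact h2 _),
        ← pow_mul, ← pow_succ']
      rfl
  have hs0 : E s₀ ≠ 0 := by
    have h4 : E (s₀ + 1) ≠ 0 := by
      intro h
      rw [h, zero_pow (by omega)] at h1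
      exact absurd h1 (not_lt.2 zero_le')
    rw [hE s₀ h1]
    exact pow_ne_zero _ h4
  -- a starting point
  obtain ⟨i, hi, hi2⟩ : ∃ i, n ≤ i ∧ δ ≤ E (s₀ + i) ^ (q ^ n) := by
    obtain ⟨m, hm⟩ := hA (E s₀) δ hs0 hδ
    refine ⟨n + m, by omega, ?_⟩
    by_contra hcon
    push Not at hcon
    have h5 := h3 (n + m) 0
    simp only [add_zero] at h5
    have h6 : m < q ^ m := Nat.lt_pow_self (by omega : 1 < q)
    have h7 : E s₀ < E s₀ := by
      calc E s₀ = (E (s₀ + (n + m)) ^ (q ^ n)) ^ (q ^ m) := by rw [← pow_mul, ← pow_add]; exact h5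
        _ < δ ^ (q ^ m) := pow_lt_pow_left₀ hcon zero_le' (by positivity)
        _ ≤ δ ^ m := pow_le_pow_right_of_le_one' hδ.le h6.le
        _ ≤ E s₀ := hm
    exact absurd h7 (lt_irrefl _)
  have hstart : N (s₀ + i) ≤ E (s₀ + i) ^ (q ^ n) := hNE _ hi2
  have h4 : ∀ l, l ≤ i - n → N (s₀ + (i - l)) ≤ E (s₀ + (i - l)) ^ (q ^ n) := by
    intro l
    induction l with
    | zero => intro _; simpa using hstart
    | succ l ih =>
      intro hl
      have ih' := ih (by omega)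
      obtain ⟨j, hj⟩ : ∃ j, i - l = j + 1 := ⟨i - l - 1, by omega⟩
      have hj' : i - (l + 1) = j := by omega
      have hnj : n ≤ j := by omega
      rw [hj] at ih'
      rw [hj']
      have h5 : E (s₀ + j) = E (s₀ + j + 1) ^ q := hE _ (h2 j)
      have h6 : E (s₀ + j + 1) ^ (q ^ n) = E (s₀ + (j - n) + 1) := by
        have h7 := h3 n (j - n + 1)
        rw [show s₀ + (j - n + 1) = s₀ + (j - n) + 1 by ring,
          show s₀ + (j - n) + 1 + n = s₀ + j + 1 by omega] at h7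
        exact h7.symm
      have h8 : N (s₀ + j + 1) ≤ E (s₀ + j + 1) ^ (q ^ n) := ih'
      refine (hN (s₀ + j)).trans (max_le ?_ ?_)
      · have h9 : L ≤ (E (s₀ + j + 1) ^ (q ^ n)) ^ (q - 1) := by
          rw [h6]
          exact (h2 (j - n)).le
        calc L * N (s₀ + j + 1) ≤ (E (s₀ + j + 1) ^ (q ^ n)) ^ (q - 1) *
              E (s₀ + j + 1) ^ (q ^ n) := mul_le_mul' h9 h8
          _ = (E (s₀ + j + 1) ^ (q ^ n)) ^ q := by
              rw [← pow_succ, show q - 1 + 1 = q by omega]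
          _ = E (s₀ + j) ^ (q ^ n) := by rw [h5, ← pow_mul, ← pow_mul, mul_comm]
      · calc N (s₀ + j + 1) ^ q ≤ (E (s₀ + j + 1) ^ (q ^ n)) ^ q :=
              pow_le_pow_left₀ zero_le' h8 _
          _ = E (s₀ + j) ^ (q ^ n) := by rw [h5, ← pow_mul, ← pow_mul, mul_comm]
  have h5 : N (s₀ + n) ≤ E s₀ := by
    have h6 := h4 (i - n) le_rfl
    rw [show i - (i - n) = n by omega] at h6
    have h7 := h3 n 0
    rw [add_zero] at h7
    rwa [← h7] at h6
  have h6 : ∀ l, l ≤ s₀ + n → N (s₀ + n - l) ≤ L ^ l * E s₀ := by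
    intro l
    induction l with
    | zero => intro _; simpa using h5
    | succ l ih =>
      intro hl
      have ih' := ih (by omega)
      obtain ⟨j, hj⟩ : ∃ j, s₀ + n - l = j + 1 := ⟨s₀ + n - l - 1, by omega⟩
      rw [show s₀ + n - (l + 1) = j by omega]
      rw [hj] at ih'
      have h7 : N (j + 1) ≤ E s₀ := ih'.trans
        ((mul_le_mul' (pow_le_one' hL.le l) le_rfl).trans (one_mul _).le)
      refine (hN j).trans (max_le ?_ ?_)
      · calc L * N (j + 1) ≤ L * (L ^ l * E s₀) := mul_le_mul' le_rfl ih'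
          _ = L ^ (l + 1) * E s₀ := by rw [pow_succ', mul_assoc]
      · calc N (j + 1) ^ q = N (j + 1) ^ (q - 1) * N (j + 1) := by
              rw [← pow_succ, show q - 1 + 1 = q by omega]
          _ ≤ L * (L ^ l * E s₀) :=
              mul_le_mul' ((pow_le_pow_left₀ zero_le' h7 _).trans h0) ih'
          _ = L ^ (l + 1) * E s₀ := by rw [pow_succ', mul_assoc]
  have h7 := h6 (s₀ + n) le_rfl
  rw [Nat.sub_self] at h7
  refine h7.trans ?_
  calc L ^ (s₀ + n) * E s₀ ≤ L ^ (s₀ + n) * 1 := mul_le_mul' le_rfl (hElt _).le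
    _ = L ^ (s₀ + n) := mul_one _
    _ ≤ L ^ n := pow_le_pow_right_of_le_one' hL.le (by omega)

end R69

end Pool.DynLehmer.UN

/-! # The `p`-adic bound for rational semiconjugacies, from distance estimates -/

namespace Pool.DynLehmer.UN

namespace R69

variable {Γ : Type} [LinearOrderedCommGroupWithZero Γ] {Ω : Type} [Field Ω]

/-- the norm of a vector -/
noncomputable def nrm (v : Valuation Ω Γ) (x : Fin 2 → Ω) : Γ := max (v (x 0)) (v (x 1))

/-- the chordal distance of vectors of norm one -/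
noncomputable def ds (v : Valuation Ω Γ) (x y : Fin 2 → Ω) : Γ := v (x 0 * y 1 - x 1 * y 0)

theorem ds_smul (v : Valuation Ω Γ) (a b : Ω) (x y : Fin 2 → Ω) :
    ds v (a • x) (b • y) = v a * v b * ds v x y := by
  unfold ds
  rw [← map_mul, ← map_mul]
  congr 1
  simp only [Pi.smul_apply, smul_eq_mul]
  ring

theorem ds_le (v : Valuation Ω Γ) {x y : Fin 2 → Ω} (hx : nrm v x = 1) (hy : nrm v y = 1) :
    ds v x y ≤ 1 := by
  have h0 : ∀ i, v (x i) ≤ 1 := by
    intro i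
    rw [← hx]
    fin_cases i
    · exact le_max_left _ _
    · exact le_max_right _ _
  have h1 : ∀ i, v (y i) ≤ 1 := by
    intro i
    rw [← hy]
    fin_cases i
    · exact le_max_left _ _
    · exact le_max_right _ _
  refine (Valuation.map_sub v _ _).trans (max_le ?_ ?_)
  · rw [map_mul]; exact mul_le_one' (h0 0) (h1 1)
  · rw [map_mul]; exact mul_le_one' (h0 1) (h1 0)

/-- The map `f` (given by forms of degree `q`) has purely inseparable good reduction: the
distance estimates. -/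
structure GoodF (v : Valuation Ω Γ) (q : ℕ) (L : Γ) (f : (Fin 2 → Ω) → (Fin 2 → Ω)) : Prop where
  norm : ∀ x, nrm v x = 1 → nrm v (f x) = 1
  big : ∀ x y, nrm v x = 1 → nrm v y = 1 → L < ds v x y ^ (q - 1) →
    ds v (f x) (f y) = ds v x y ^ q
  small : ∀ x y, nrm v x = 1 → nrm v y = 1 → ds v x y ^ (q - 1) ≤ L →
    ds v (f x) (f y) ≤ L * ds v x y
  surj : ∀ y, nrm v y = 1 → ∃ x, nrm v x = 1 ∧ ∃ c : Ω, v c = 1 ∧ f x = c • y

/-- The estimates for a map `g` of degree `D` with purely inseparable good reduction. -/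
structure GoodQ (v : Valuation Ω Γ) (D : ℕ) (δ : Γ) (g : (Fin 2 → Ω) → (Fin 2 → Ω)) : Prop where
  smul : ∀ (c : Ω) x, g (c • x) = c ^ D • g x
  norm : ∀ x, nrm v x = 1 → nrm v (g x) = 1
  dist : ∀ x y, nrm v x = 1 → nrm v y = 1 → ds v (g x) (g y) ≤ max (ds v x y ^ D) (δ * ds v x y)

theorem exists_orbit {v : Valuation Ω Γ} {q : ℕ} {L : Γ} {f : (Fin 2 → Ω) → (Fin 2 → Ω)}
    (hf : GoodF v q L f) {u : Fin 2 → Ω} (hu : nrm v u = 1) :
    ∃ U : ℕ → Fin 2 → Ω, U 0 = u ∧ (∀ s, nrm v (U s) = 1) ∧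
      ∀ s, ∃ c : Ω, v c = 1 ∧ f (U (s + 1)) = c • U s := by
  choose! g hg1 hg2 using hf.surj
  refine ⟨fun s => g^[s] u, rfl, ?_, fun s => ?_⟩
  · intro s
    induction s with
    | zero => exact hu
    | succ s ih =>
      show nrm v (g^[s + 1] u) = 1
      rw [Function.iterate_succ_apply']
      exact hg1 _ ih
  · have h : nrm v (g^[s] u) = 1 := by
      induction s with
      | zero => exact hu
      | succ s ih =>
        rw [Function.iterate_succ_apply']
        exact hg1 _ ih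
    simp only [Function.iterate_succ_apply']
    exact hg2 _ h

/-- Row VAL: if `f u` and `f u'` are the same point, then `Q u` and `Q u'` are at a distance of at
most `L ^ n`. Index `0` of `Q` is time `-1`, index `s` is time `-1 - s`. -/
theorem val_bound (hA : Arch Γ) {q n : ℕ} (hq : 2 ≤ q) {L : Γ} (hL0 : L ≠ 0) (hL : L < 1)
    {v : Valuation Ω Γ} {f : (Fin 2 → Ω) → (Fin 2 → Ω)} (hf : GoodF v q L f) {δ : Γ} (hδ : δ < 1)
    {Q : ℕ → (Fin 2 → Ω) → (Fin 2 → Ω)} (hQ : ∀ s, GoodQ v (q ^ n) δ (Q s))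
    (hfQ : ∀ s x, nrm v x = 1 → ∃ c : Ω, v c = 1 ∧ Q s (f x) = c • f (Q (s + 1) x))
    {u u' : Fin 2 → Ω} (hu : nrm v u = 1) (hu' : nrm v u' = 1) (h : ds v (f u) (f u') = 0) :
    ds v (Q 0 u) (Q 0 u') ≤ L ^ n := by
  by_cases h0 : ds v u u' = 0
  · have h1 := (hQ 0).dist u u' hu hu'
    rw [h0, mul_zero, zero_pow (by positivity), max_self] at h1
    exact h1.trans zero_le'
  obtain ⟨U, hU0, hU1, hU2⟩ := exists_orbit hf hu
  obtain ⟨U', hU0', hU1', hU2'⟩ := exists_orbit hf hu'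
  set E : ℕ → Γ := fun s => ds v (U s) (U' s) with hE
  set N : ℕ → Γ := fun s => ds v (Q s (U s)) (Q s (U' s)) with hN
  have hEs : ∀ s, ds v (f (U (s + 1))) (f (U' (s + 1))) = E s := by
    intro s
    obtain ⟨c, hc, hc'⟩ := hU2 s
    obtain ⟨d, hd, hd'⟩ := hU2' s
    rw [hc', hd', ds_smul, hc, hd, one_mul, one_mul]
  have hNs : ∀ s, ds v (f (Q (s + 1) (U (s + 1)))) (f (Q (s + 1) (U' (s + 1)))) = N s := by
    intro s
    obtain ⟨c, hc, hc'⟩ := hU2 s
    obtain ⟨d, hd, hd'⟩ := hU2' s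
    obtain ⟨a, ha, ha'⟩ := hfQ s (U (s + 1)) (hU1 _)
    obtain ⟨b, hb, hb'⟩ := hfQ s (U' (s + 1)) (hU1' _)
    have h1 : ds v (Q s (f (U (s + 1)))) (Q s (f (U' (s + 1)))) = N s := by
      rw [hc', hd', (hQ s).smul, (hQ s).smul, ds_smul, map_pow, map_pow, hc, hd, one_pow, one_mul,
        one_mul]
    rw [← h1, ha', hb', ds_smul, ha, hb, one_mul, one_mul]
  have h00 : E 0 ≠ 0 := by
    show ds v (U 0) (U' 0) ≠ 0
    rw [hU0, hU0']
    exact h0
  have h01 : E 0 ^ (q - 1) ≤ L := by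
    by_contra hcon
    push Not at hcon
    have h2 := hf.big (U 0) (U' 0) (hU1 0) (hU1' 0) hcon
    rw [hU0, hU0', h] at h2
    exact h0 (pow_eq_zero_iff (by omega : q ≠ 0) |>.1 h2.symm)
  have hElt : ∀ s, E s < 1 := by
    intro s
    induction s with
    | zero =>
      by_contra hcon
      have h2 : E 0 = 1 := le_antisymm (ds_le v (hU1 0) (hU1' 0)) (not_lt.1 hcon)
      rw [h2, one_pow] at h01
      exact absurd (h01.trans_lt hL) (lt_irrefl _)
    | succ s ih =>
      by_contra hcon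
      have h2 : E (s + 1) = 1 := le_antisymm (ds_le v (hU1 _) (hU1' _)) (not_lt.1 hcon)
      have h3 := hf.big (U (s + 1)) (U' (s + 1)) (hU1 _) (hU1' _) (by
        show L < E (s + 1) ^ (q - 1)
        rw [h2, one_pow]
        exact hL)
      rw [hEs] at h3
      rw [h3] at ih
      have h4 : ds v (U (s + 1)) (U' (s + 1)) = 1 := h2
      rw [h4, one_pow] at ih
      exact absurd ih (lt_irrefl _)
  have key := rec_bound (E := E) (N := N) hA hq (n := n) hL0 hL h00 h01 (fun s hs => by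
      rw [← hEs s]
      exact hf.big _ _ (hU1 _) (hU1' _) hs) (fun s hs => by
      rw [← hEs s]
      exact hf.small _ _ (hU1 _) (hU1' _) hs) hElt (fun s => by
      rw [← hNs s]
      have hn1 := (hQ (s + 1)).norm _ (hU1 (s + 1))
      have hn2 := (hQ (s + 1)).norm _ (hU1' (s + 1))
      rcases lt_or_ge L (ds v (Q (s + 1) (U (s + 1))) (Q (s + 1) (U' (s + 1))) ^ (q - 1)) with hs | hs
      · rw [hf.big _ _ hn1 hn2 hs]
        exact le_max_right _ _
      · exact (hf.small _ _ hn1 hn2 hs).trans (le_max_left _ _)) hδ (fun s hs => by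
      refine ((hQ s).dist _ _ (hU1 s) (hU1' s)).trans (max_le le_rfl ?_)
      calc δ * ds v (U s) (U' s) ≤ δ * 1 := mul_le_mul' le_rfl (ds_le v (hU1 s) (hU1' s))
        _ = δ := mul_one _
        _ ≤ E s ^ (q ^ n) := hs)
  have h5 : N 0 = ds v (Q 0 u) (Q 0 u') := by
    show ds v (Q 0 (U 0)) (Q 0 (U' 0)) = _
    rw [hU0, hU0']
  rw [← h5]
  exact key

end R69

end Pool.DynLehmer.UN

/-! # The distance estimates from the coefficients -/

namespace Pool.DynLehmer.UN

namespace R69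

variable {Γ : Type} [LinearOrderedCommGroupWithZero Γ] {Ω : Type} [Field Ω]

/-- the map given by the forms with coefficients `α`, `β` -/
noncomputable def fm (q : ℕ) (α β : ℕ → Ω) (x : Fin 2 → Ω) : Fin 2 → Ω :=
  ![∑ i ∈ Finset.range (q + 1), α i * (x 0 ^ i * x 1 ^ (q - i)),
    ∑ i ∈ Finset.range (q + 1), β i * (x 0 ^ i * x 1 ^ (q - i))]

/-- the conditions on the coefficients -/
structure Coef (v : Valuation Ω Γ) (q : ℕ) (L : Γ) (α β : ℕ → Ω) : Prop where
  a1 : ∀ i ≤ q, v (α i) ≤ 1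
  b1 : ∀ i ≤ q, v (β i) ≤ 1
  a2 : ∀ i, 0 < i → i < q → v (α i) ≤ L
  b2 : ∀ i, 0 < i → i < q → v (β i) ≤ L
  det : v (α q * β 0 - α 0 * β q) = 1

theorem nrm_le {v : Valuation Ω Γ} {x : Fin 2 → Ω} (hx : nrm v x = 1) (i : Fin 2) : v (x i) ≤ 1 := by
  rw [← hx]
  fin_cases i
  · exact le_max_left _ _
  · exact le_max_right _ _

/-- powers of integral elements -/
theorem v_pow_sub_pow {v : Valuation Ω Γ} {a b : Ω} (ha : v a ≤ 1) (hb : v b ≤ 1) (n : ℕ) :
    v (a ^ n - b ^ n) ≤ v (a - b) := by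
  rw [← (Commute.all a b).geom_sum₂_mul n, map_mul]
  have h : v (∑ i ∈ Finset.range n, a ^ i * b ^ (n - 1 - i)) ≤ 1 := by
    refine Valuation.map_sum_le v fun i _ => ?_
    rw [map_mul, map_pow, map_pow]
    exact mul_le_one' (pow_le_one' ha _) (pow_le_one' hb _)
  exact (mul_le_mul' h le_rfl).trans (one_mul _).le

/-- the Frobenius congruence -/
theorem v_frob {v : Valuation Ω Γ} {p s : ℕ} (hp : p.Prime) {L : Γ} (hpL : v (p : Ω) ≤ L)
    {a b : Ω} (ha : v a ≤ 1) (hb : v b ≤ 1) (hs : s ≠ 0) :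
    v (a ^ p ^ s - b ^ p ^ s - (a - b) ^ p ^ s) ≤ L * v (a - b) := by
  set e := a - b with he
  have hae : a = e + b := by rw [he]; ring
  have hve : v e ≤ 1 := (Valuation.map_sub v _ _).trans (max_le ha hb)
  have hq : 1 ≤ p ^ s := Nat.one_le_pow _ _ hp.pos
  obtain ⟨q', hq'⟩ : ∃ q', p ^ s = q' + 1 := ⟨p ^ s - 1, by omega⟩
  have h1 : a ^ p ^ s - b ^ p ^ s - e ^ p ^ s = ∑ i ∈ Finset.range q',
      e ^ (i + 1) * b ^ (p ^ s - (i + 1)) * ((p ^ s).choose (i + 1) : Ω) := by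
    rw [hae, add_pow, hq', Finset.sum_range_succ, Finset.sum_range_succ']
    simp only [Nat.choose_self, Nat.choose_zero_right, Nat.cast_one, mul_one, Nat.sub_self,
      Nat.sub_zero, pow_zero, one_mul]
    ring
  rw [h1]
  refine Valuation.map_sum_le v fun i hi => ?_
  have hi' := Finset.mem_range.1 hi
  obtain ⟨m, hm⟩ : p ∣ (p ^ s).choose (i + 1) := hp.dvd_choose_pow (by omega) (by omega)
  rw [hm, Nat.cast_mul, map_mul, map_mul, map_mul, map_pow, map_pow, pow_succ]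
  have hm1 : v (m : Ω) ≤ 1 := natCast_mem v.integer m
  calc v e ^ i * v e * v b ^ (p ^ s - (i + 1)) * (v (p : Ω) * v (m : Ω))
      ≤ 1 * v e * 1 * (L * 1) := by
        refine mul_le_mul' (mul_le_mul' (mul_le_mul' (pow_le_one' hve _) le_rfl)
          (pow_le_one' hb _)) (mul_le_mul' hpL hm1)
    _ = L * v e := by rw [one_mul, mul_one, mul_one, mul_comm]

/-- the main estimate -/
theorem main_est {v : Valuation Ω Γ} {p s : ℕ} (hp : p.Prime) (hs : s ≠ 0) {L : Γ}
    (hpL : v (p : Ω) ≤ L) {α β : ℕ → Ω} (h : Coef v (p ^ s) L α β) {x y : Fin 2 → Ω}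
    (hx : nrm v x = 1) (hy : nrm v y = 1) :
    v (fm (p ^ s) α β x 0 * fm (p ^ s) α β y 1 - fm (p ^ s) α β x 1 * fm (p ^ s) α β y 0 -
      (α (p ^ s) * β 0 - α 0 * β (p ^ s)) * (x 0 * y 1 - x 1 * y 0) ^ p ^ s) ≤ L * ds v x y := by
  set q := p ^ s with hq
  have hq1 : 2 ≤ q := hp.two_le.trans (Nat.le_self_pow hs p)
  set T : ℕ × ℕ → Ω := fun t => (x 0 ^ t.1 * x 1 ^ (q - t.1)) * (y 0 ^ t.2 * y 1 ^ (q - t.2)) -
    (x 0 ^ t.2 * x 1 ^ (q - t.2)) * (y 0 ^ t.1 * y 1 ^ (q - t.1)) with hT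
  set g : ℕ × ℕ → Ω := fun t => α t.1 * β t.2 * T t with hg
  have hW : fm q α β x 0 * fm q α β y 1 - fm q α β x 1 * fm q α β y 0 =
      ∑ t ∈ Finset.range (q + 1) ×ˢ Finset.range (q + 1), g t := by
    show (∑ i ∈ Finset.range (q + 1), α i * (x 0 ^ i * x 1 ^ (q - i))) *
      (∑ i ∈ Finset.range (q + 1), β i * (y 0 ^ i * y 1 ^ (q - i))) -
      (∑ i ∈ Finset.range (q + 1), β i * (x 0 ^ i * x 1 ^ (q - i))) *
      (∑ i ∈ Finset.range (q + 1), α i * (y 0 ^ i * y 1 ^ (q - i))) = _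
    rw [mul_comm (∑ i ∈ Finset.range (q + 1), β i * (x 0 ^ i * x 1 ^ (q - i))),
      Finset.sum_mul_sum, Finset.sum_mul_sum, Finset.sum_product, ← Finset.sum_sub_distrib]
    refine Finset.sum_congr rfl fun i _ => ?_
    rw [← Finset.sum_sub_distrib]
    refine Finset.sum_congr rfl fun j _ => ?_
    simp only [hg, hT]
    ring
  have hT1 : ∀ i j, j ≤ i → i ≤ q → v (T (i, j)) ≤ ds v x y := by
    intro i j hji hi
    have h1 : T (i, j) = (x 0 * y 0) ^ j * (x 1 * y 1) ^ (q - i) *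
        ((x 0 * y 1) ^ (i - j) - (x 1 * y 0) ^ (i - j)) := by
      obtain ⟨k, rfl⟩ := Nat.exists_eq_add_of_le hji
      obtain ⟨l, hl⟩ := Nat.exists_eq_add_of_le hi
      have e1 : q - (j + k) = l := by omega
      have e2 : q - j = k + l := by omega
      simp only [hT, e1, e2, Nat.add_sub_cancel_left]
      ring
    rw [h1, map_mul, map_mul, map_pow, map_pow]
    have h2 : v (x 0 * y 0) ≤ 1 := by
      rw [map_mul]; exact mul_le_one' (nrm_le hx 0) (nrm_le hy 0)
    have h3 : v (x 1 * y 1) ≤ 1 := by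
      rw [map_mul]; exact mul_le_one' (nrm_le hx 1) (nrm_le hy 1)
    have h4 : v ((x 0 * y 1) ^ (i - j) - (x 1 * y 0) ^ (i - j)) ≤ ds v x y := by
      refine v_pow_sub_pow ?_ ?_ _
      · rw [map_mul]; exact mul_le_one' (nrm_le hx 0) (nrm_le hy 1)
      · rw [map_mul]; exact mul_le_one' (nrm_le hx 1) (nrm_le hy 0)
    calc _ ≤ 1 * 1 * ds v x y :=
          mul_le_mul' (mul_le_mul' (pow_le_one' h2 _) (pow_le_one' h3 _)) h4
      _ = ds v x y := by rw [one_mul, one_mul]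
  have hTanti : ∀ i j, T (j, i) = - T (i, j) := by
    intro i j
    simp only [hT]
    ring
  have hT2 : ∀ i j, i ≤ q → j ≤ q → v (T (i, j)) ≤ ds v x y := by
    intro i j hi hj
    rcases le_total j i with hji | hji
    · exact hT1 i j hji hi
    · rw [hTanti, Valuation.map_neg]
      exact hT1 j i hji hj
  have hmem1 : (q, 0) ∈ Finset.range (q + 1) ×ˢ Finset.range (q + 1) := by simp
  have hmem2 : (0, q) ∈ (Finset.range (q + 1) ×ˢ Finset.range (q + 1)).erase (q, 0) := by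
    rw [Finset.mem_erase]
    refine ⟨?_, by simp⟩
    intro h5
    have := congrArg Prod.fst h5
    simp at this
    omega
  rw [hW, ← Finset.add_sum_erase _ _ hmem1, ← Finset.add_sum_erase _ _ hmem2]
  set R := ∑ t ∈ ((Finset.range (q + 1) ×ˢ Finset.range (q + 1)).erase (q, 0)).erase (0, q), g t
    with hR
  have hR1 : v R ≤ L * ds v x y := by
    refine Valuation.map_sum_le v fun t ht => ?_
    obtain ⟨i, j⟩ := t
    rw [Finset.mem_erase, Finset.mem_erase, Finset.mem_product, Finset.mem_range,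
      Finset.mem_range] at ht
    obtain ⟨ht1, ht2, ht3, ht4⟩ := ht
    have ht3' : i < q + 1 := ht3
    have ht4' : j < q + 1 := ht4
    show v (α i * β j * T (i, j)) ≤ _
    by_cases hij : i = j
    · have h6 : T (i, j) = 0 := by
        rw [hij]
        simp only [hT]
        ring
      rw [h6, mul_zero, map_zero]
      exact zero_le'
    have hne1 : ¬ (i = 0 ∧ j = q) := fun h5 => ht1 (by rw [h5.1, h5.2])
    have hne2 : ¬ (i = q ∧ j = 0) := fun h5 => ht2 (by rw [h5.1, h5.2])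
    rw [map_mul, map_mul]
    refine mul_le_mul' ?_ (hT2 i j (by omega) (by omega))
    by_cases h5 : 0 < i ∧ i < q
    · exact (mul_le_mul' (h.a2 i h5.1 h5.2) (h.b1 j (by omega))).trans (mul_one _).le
    · exact (mul_le_mul' (h.a1 i (by omega)) (h.b2 j (by omega) (by omega))).trans (one_mul _).le
  have hc : g (q, 0) + (g (0, q) + R) - (α q * β 0 - α 0 * β q) * (x 0 * y 1 - x 1 * y 0) ^ q =
      R + (α q * β 0 - α 0 * β q) * ((x 0 * y 1) ^ q - (x 1 * y 0) ^ q -
        (x 0 * y 1 - x 1 * y 0) ^ q) := by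
    simp only [hg, hT, Nat.sub_self, Nat.sub_zero, pow_zero]
    ring
  rw [hc]
  refine (Valuation.map_add v _ _).trans (max_le hR1 ?_)
  rw [map_mul, h.det, one_mul]
  refine v_frob hp hpL ?_ ?_ hs
  · rw [map_mul]; exact mul_le_one' (nrm_le hx 0) (nrm_le hy 1)
  · rw [map_mul]; exact mul_le_one' (nrm_le hx 1) (nrm_le hy 0)

theorem fm_smul (q : ℕ) (α β : ℕ → Ω) (c : Ω) (x : Fin 2 → Ω) :
    fm q α β (c • x) = c ^ q • fm q α β x := by
  have h : ∀ γ : ℕ → Ω, ∑ i ∈ Finset.range (q + 1), γ i * ((c • x) 0 ^ i * (c • x) 1 ^ (q - i)) =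
      c ^ q * ∑ i ∈ Finset.range (q + 1), γ i * (x 0 ^ i * x 1 ^ (q - i)) := by
    intro γ
    rw [Finset.mul_sum]
    refine Finset.sum_congr rfl fun i hi => ?_
    obtain ⟨j, hj⟩ := Nat.exists_eq_add_of_le (Nat.lt_succ_iff.1 (Finset.mem_range.1 hi))
    have e : q - i = j := by omega
    rw [e, hj]
    simp only [Pi.smul_apply, smul_eq_mul]
    ring
  funext i
  fin_cases i
  · exact h α
  · exact h β

theorem nrm_smul (v : Valuation Ω Γ) (c : Ω) (x : Fin 2 → Ω) : nrm v (c • x) = v c * nrm v x := by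
  unfold nrm
  simp only [Pi.smul_apply, smul_eq_mul, map_mul]
  rcases le_total (v (x 0)) (v (x 1)) with h | h
  · rw [max_eq_right h, max_eq_right (mul_le_mul' le_rfl h)]
  · rw [max_eq_left h, max_eq_left (mul_le_mul' le_rfl h)]

/-- every nonzero vector has a multiple of norm one -/
theorem exists_normal (v : Valuation Ω Γ) {x : Fin 2 → Ω} (hx : x ≠ 0) :
    ∃ c : Ω, c ≠ 0 ∧ nrm v (c • x) = 1 := by
  rcases le_total (v (x 0)) (v (x 1)) with h | h
  · have h1 : x 1 ≠ 0 := by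
      intro h1
      rw [h1, map_zero] at h
      have h0 : x 0 = 0 := v.zero_iff.1 (le_antisymm h zero_le')
      exact hx (funext fun i => by fin_cases i <;> [exact h0; exact h1])
    refine ⟨(x 1)⁻¹, inv_ne_zero h1, ?_⟩
    rw [nrm_smul, nrm, max_eq_right h, ← map_mul, inv_mul_cancel₀ h1, map_one]
  · have h1 : x 0 ≠ 0 := by
      intro h1
      rw [h1, map_zero] at h
      have h0 : x 1 = 0 := v.zero_iff.1 (le_antisymm h zero_le')
      exact hx (funext fun i => by fin_cases i <;> [exact h1; exact h0])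
    refine ⟨(x 0)⁻¹, inv_ne_zero h1, ?_⟩
    rw [nrm_smul, nrm, max_eq_left h, ← map_mul, inv_mul_cancel₀ h1, map_one]

/-- proportional vectors of norm one -/
theorem eq_smul_of_ds {v : Valuation Ω Γ} {x y : Fin 2 → Ω} (hx : nrm v x = 1) (hy : nrm v y = 1)
    (h : x 0 * y 1 - x 1 * y 0 = 0) : ∃ c : Ω, v c = 1 ∧ x = c • y := by
  have hy0 : y ≠ 0 := by
    rintro rfl
    simp [nrm] at hy
  obtain ⟨c, rfl⟩ : ∃ c : Ω, x = c • y := by
    by_cases h1 : y 1 = 0
    · have h0 : y 0 ≠ 0 := fun h0 => hy0 (funext fun i => by fin_cases i <;> [exact h0; exact h1])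
      refine ⟨x 0 / y 0, funext fun i => ?_⟩
      fin_cases i
      · show x 0 = x 0 / y 0 * y 0
        rw [div_mul_cancel₀ _ h0]
      · show x 1 = x 0 / y 0 * y 1
        rw [h1, mul_zero, zero_sub, neg_eq_zero, mul_eq_zero] at h
        rw [h1, mul_zero]
        exact h.resolve_right h0
    · refine ⟨x 1 / y 1, funext fun i => ?_⟩
      fin_cases i
      · show x 0 = x 1 / y 1 * y 0
        field_simp
        linear_combination h
      · show x 1 = x 1 / y 1 * y 1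
        rw [div_mul_cancel₀ _ h1]
  refine ⟨c, ?_, rfl⟩
  rw [nrm_smul, hy, mul_one] at hx
  exact hx

/-- The distance estimates. -/
theorem goodF [IsAlgClosed Ω] {v : Valuation Ω Γ} {p s : ℕ} (hp : p.Prime) (hs : s ≠ 0) {L : Γ}
    (hL : L < 1) (hpL : v (p : Ω) ≤ L) {α β : ℕ → Ω} (h : Coef v (p ^ s) L α β) :
    GoodF v (p ^ s) L (fm (p ^ s) α β) := by
  have hq1 : 2 ≤ p ^ s := hp.two_le.trans (Nat.le_self_pow hs p)
  have hbig : ∀ x y, nrm v x = 1 → nrm v y = 1 → L < ds v x y ^ (p ^ s - 1) →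
      ds v (fm (p ^ s) α β x) (fm (p ^ s) α β y) = ds v x y ^ (p ^ s) := by
    intro x y hx hy hd
    have h1 := main_est hp hs hpL h hx hy
    set D := (α (p ^ s) * β 0 - α 0 * β (p ^ s)) * (x 0 * y 1 - x 1 * y 0) ^ p ^ s with hD
    have h2 : v D = ds v x y ^ (p ^ s) := by rw [hD, map_mul, h.det, one_mul, map_pow]; rfl
    have h0 : ds v x y ≠ 0 := by
      intro h0
      rw [h0, zero_pow (by omega)] at hd
      exact absurd hd (not_lt.2 zero_le')
    have h3 : L * ds v x y < v D := by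
      rw [h2]
      calc L * ds v x y < ds v x y ^ (p ^ s - 1) * ds v x y :=
            mul_lt_mul_of_pos_right hd (zero_lt_iff.2 h0)
        _ = ds v x y ^ (p ^ s) := by rw [← pow_succ, show p ^ s - 1 + 1 = p ^ s by omega]
    rw [← h2]
    unfold ds
    have h4 := Valuation.map_add_eq_of_lt_left v (lt_of_le_of_lt h1 h3)
    rw [add_sub_cancel] at h4
    exact h4
  have hsmall : ∀ x y, nrm v x = 1 → nrm v y = 1 → ds v x y ^ (p ^ s - 1) ≤ L →
      ds v (fm (p ^ s) α β x) (fm (p ^ s) α β y) ≤ L * ds v x y := by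
    intro x y hx hy hd
    have h1 := main_est hp hs hpL h hx hy
    set D := (α (p ^ s) * β 0 - α 0 * β (p ^ s)) * (x 0 * y 1 - x 1 * y 0) ^ p ^ s with hD
    have h2 : v D = ds v x y ^ (p ^ s) := by rw [hD, map_mul, h.det, one_mul, map_pow]; rfl
    have h3 : v D ≤ L * ds v x y := by
      rw [h2]
      calc ds v x y ^ (p ^ s) = ds v x y ^ (p ^ s - 1) * ds v x y := by
            rw [← pow_succ, show p ^ s - 1 + 1 = p ^ s by omega]
        _ ≤ L * ds v x y := mul_le_mul' hd le_rfl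
    unfold ds
    have h4 := Valuation.map_add v (fm (p ^ s) α β x 0 * fm (p ^ s) α β y 1 -
      fm (p ^ s) α β x 1 * fm (p ^ s) α β y 0 - D) D
    rw [sub_add_cancel] at h4
    exact h4.trans (max_le h1 h3)
  have hnorm : ∀ x, nrm v x = 1 → nrm v (fm (p ^ s) α β x) = 1 := by
    intro x hx
    -- integrality
    have hle : ∀ i, v (fm (p ^ s) α β x i) ≤ 1 := by
      have h5 : ∀ γ : ℕ → Ω, (∀ i ≤ p ^ s, v (γ i) ≤ 1) →
          v (∑ i ∈ Finset.range (p ^ s + 1), γ i * (x 0 ^ i * x 1 ^ (p ^ s - i))) ≤ 1 := by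
        intro γ hγ
        refine Valuation.map_sum_le v fun i hi => ?_
        rw [map_mul, map_mul, map_pow, map_pow]
        exact mul_le_one' (hγ i (Nat.lt_succ_iff.1 (Finset.mem_range.1 hi)))
          (mul_le_one' (pow_le_one' (nrm_le hx 0) _) (pow_le_one' (nrm_le hx 1) _))
      intro i
      fin_cases i
      · exact h5 α h.a1
      · exact h5 β h.b1
    -- a vector at distance one
    obtain ⟨y, hy, hxy⟩ : ∃ y, nrm v y = 1 ∧ ds v x y = 1 := by
      rcases le_total (v (x 0)) (v (x 1)) with h6 | h6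
      · refine ⟨![1, 0], by simp [nrm], ?_⟩
        have h7 : v (x 1) = 1 := by rw [nrm, max_eq_right h6] at hx; exact hx
        simp [ds, h7]
      · refine ⟨![0, 1], by simp [nrm], ?_⟩
        have h7 : v (x 0) = 1 := by rw [nrm, max_eq_left h6] at hx; exact hx
        simp [ds, h7]
    have h8 := hbig x y hx hy (by rw [hxy, one_pow]; exact hL)
    rw [hxy, one_pow] at h8
    refine le_antisymm (max_le (hle 0) (hle 1)) ?_
    have hley : ∀ i, v (fm (p ^ s) α β y i) ≤ 1 := by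
      have h5 : ∀ γ : ℕ → Ω, (∀ i ≤ p ^ s, v (γ i) ≤ 1) →
          v (∑ i ∈ Finset.range (p ^ s + 1), γ i * (y 0 ^ i * y 1 ^ (p ^ s - i))) ≤ 1 := by
        intro γ hγ
        refine Valuation.map_sum_le v fun i hi => ?_
        rw [map_mul, map_mul, map_pow, map_pow]
        exact mul_le_one' (hγ i (Nat.lt_succ_iff.1 (Finset.mem_range.1 hi)))
          (mul_le_one' (pow_le_one' (nrm_le hy 0) _) (pow_le_one' (nrm_le hy 1) _))
      intro i
      fin_cases i
      · exact h5 α h.a1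
      · exact h5 β h.b1
    rw [← h8]
    refine (Valuation.map_sub v _ _).trans (max_le ?_ ?_)
    · rw [map_mul]
      exact (mul_le_mul' (le_max_left _ _) (hley 1)).trans (mul_one _).le
    · rw [map_mul]
      exact (mul_le_mul' (le_max_right _ _) (hley 0)).trans (mul_one _).le
  refine ⟨hnorm, hbig, hsmall, ?_⟩
  intro y hy
  -- a zero of the form `y 1 * F 0 - y 0 * F 1`
  obtain ⟨x, hx0, hx⟩ : ∃ x : Fin 2 → Ω, x ≠ 0 ∧
      fm (p ^ s) α β x 0 * y 1 - fm (p ^ s) α β x 1 * y 0 = 0 := by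
    set γ : ℕ → Ω := fun i => y 1 * α i - y 0 * β i with hγ
    have hsum : ∀ x : Fin 2 → Ω, fm (p ^ s) α β x 0 * y 1 - fm (p ^ s) α β x 1 * y 0 =
        ∑ i ∈ Finset.range (p ^ s + 1), γ i * (x 0 ^ i * x 1 ^ (p ^ s - i)) := by
      intro x
      show (∑ i ∈ Finset.range (p ^ s + 1), α i * (x 0 ^ i * x 1 ^ (p ^ s - i))) * y 1 -
        (∑ i ∈ Finset.range (p ^ s + 1), β i * (x 0 ^ i * x 1 ^ (p ^ s - i))) * y 0 = _
      rw [Finset.sum_mul, Finset.sum_mul, ← Finset.sum_sub_distrib]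
      refine Finset.sum_congr rfl fun i _ => ?_
      simp only [hγ]
      ring
    by_cases hq : γ (p ^ s) = 0
    · refine ⟨![1, 0], fun h5 => one_ne_zero (congrFun h5 0), ?_⟩
      rw [hsum, Finset.sum_range_succ, Finset.sum_eq_zero, hq]
      · simp
      · intro i hi
        have hi' := Finset.mem_range.1 hi
        have : (![1, 0] : Fin 2 → Ω) 1 = 0 := rfl
        rw [this, zero_pow (by omega), mul_zero, mul_zero]
    · set P : Polynomial Ω := ∑ i ∈ Finset.range (p ^ s + 1), Polynomial.C (γ i) *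
        Polynomial.X ^ i with hP
      have hPc : P.coeff (p ^ s) = γ (p ^ s) := by
        rw [hP, Polynomial.finsetSum_coeff]
        simp only [Polynomial.coeff_C_mul_X_pow]
        rw [Finset.sum_ite_eq, if_pos (Finset.self_mem_range_succ _)]
      have hPd : P.degree ≠ 0 := by
        intro h5
        have h6 : (p ^ s : ℕ) ≤ P.natDegree := Polynomial.le_natDegree_of_ne_zero (by rwa [hPc])
        have h7 : P.natDegree = 0 := Polynomial.natDegree_eq_zero_iff_degree_le_zero.2 h5.le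
        rw [h7] at h6
        omega
      obtain ⟨z, hz⟩ := IsAlgClosed.exists_root P hPd
      refine ⟨![z, 1], fun h5 => one_ne_zero (congrFun h5 1), ?_⟩
      rw [hsum]
      have h6 : P.eval z = ∑ i ∈ Finset.range (p ^ s + 1), γ i * z ^ i := by
        rw [hP, Polynomial.eval_finsetSum]
        simp
      rw [Polynomial.IsRoot, h6] at hz
      rw [← hz]
      refine Finset.sum_congr rfl fun i _ => ?_
      show γ i * (z ^ i * 1 ^ (p ^ s - i)) = _
      rw [one_pow, mul_one]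
  obtain ⟨c, hc0, hc⟩ := exists_normal v hx0
  refine ⟨c • x, hc, ?_⟩
  refine eq_smul_of_ds (hnorm _ hc) hy ?_
  rw [fm_smul]
  simp only [Pi.smul_apply, smul_eq_mul]
  linear_combination c ^ (p ^ s) * hx

end R69

end Pool.DynLehmer.UN

/-! # Row VAL: if `L ^ n` is small, `Q j` is constant on the fibres of `F` -/

namespace Pool.DynLehmer.UN.RV
open MvPolynomial Pool.DynLehmer Pool.DynLehmer.GS
open scoped NNReal

namespace V69

variable {Ω : Type} [Field Ω]

/-- the valuation of a nonarchimedean absolute value -/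
noncomputable def vl (ab : AbsoluteValue Ω ℝ) (h : IsNonarchimedean ab) : Valuation Ω ℝ≥0 where
  toFun x := ⟨ab x, ab.nonneg x⟩
  map_zero' := Subtype.ext (map_zero ab)
  map_one' := Subtype.ext (map_one ab)
  map_mul' x y := Subtype.ext (map_mul ab x y)
  map_add_le_max' x y := by
    have h0 := h x y
    rcases le_total (ab x) (ab y) with h1 | h1
    · rw [max_eq_right h1] at h0
      exact le_max_of_le_right (show (⟨ab (x + y), ab.nonneg (x + y)⟩ : ℝ≥0) ≤
        ⟨ab y, ab.nonneg y⟩ from h0)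
    · rw [max_eq_left h1] at h0
      exact le_max_of_le_left (show (⟨ab (x + y), ab.nonneg (x + y)⟩ : ℝ≥0) ≤
        ⟨ab x, ab.nonneg x⟩ from h0)

theorem coe_vl (ab : AbsoluteValue Ω ℝ) (h : IsNonarchimedean ab) (x : Ω) :
    ((vl ab h x : ℝ≥0) : ℝ) = ab x := rfl

theorem coe_nrm (ab : AbsoluteValue Ω ℝ) (h : IsNonarchimedean ab) (x : Fin 2 → Ω) :
    ((R69.nrm (vl ab h) x : ℝ≥0) : ℝ) = nm ab x := by
  unfold R69.nrm nm
  rw [NNReal.coe_max]
  rfl

theorem coe_ds (ab : AbsoluteValue Ω ℝ) (h : IsNonarchimedean ab) (x y : Fin 2 → Ω) :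
    ((R69.ds (vl ab h) x y : ℝ≥0) : ℝ) = ds ab x y := rfl

theorem nrm_one (ab : AbsoluteValue Ω ℝ) (h : IsNonarchimedean ab) (x : Fin 2 → Ω) :
    R69.nrm (vl ab h) x = 1 ↔ nm ab x = 1 := by
  rw [← coe_nrm ab h x]
  exact NNReal.coe_inj.symm

theorem arch : R69.Arch ℝ≥0 := by
  intro x y hx hy
  obtain ⟨m, hm⟩ := exists_pow_lt_of_lt_one (pos_iff_ne_zero.2 hx) hy
  exact ⟨m, hm.le⟩

/-- a form of positive degree: preimages -/
theorem exists_pre [IsAlgClosed Ω] {q : ℕ} (hq : 1 ≤ q) {F : Fin 2 → MvPolynomial (Fin 2) Ω}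
    (hF : ∀ i, (F i).IsHomogeneous q) (y : Fin 2 → Ω) :
    ∃ x : Fin 2 → Ω, x ≠ 0 ∧ gAct F Ω x 0 * y 1 - gAct F Ω x 1 * y 0 = 0 := by
  have hh : (C (y 1) * F 0 - C (y 0) * F 1 : MvPolynomial (Fin 2) Ω).IsHomogeneous q := by
    have h1 := (isHomogeneous_C (Fin 2) (y 1)).mul (hF 0)
    have h2 := (isHomogeneous_C (Fin 2) (y 0)).mul (hF 1)
    rw [zero_add] at h1 h2
    exact h1.sub h2
  obtain ⟨x, hx, h⟩ := J19.form_zero (K := Ω) (N := Ω) q hq _ hh
  refine ⟨x, hx, ?_⟩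
  rw [map_sub, map_mul, map_mul, aeval_C, aeval_C] at h
  show aeval x (F 0) * y 1 - aeval x (F 1) * y 0 = 0
  have e : ∀ a : Ω, algebraMap Ω Ω a = a := fun a => rfl
  rw [e, e] at h
  linear_combination h

theorem goodF [IsAlgClosed Ω] (hD : DistStatement) {ab : AbsoluteValue Ω ℝ}
    (h : IsNonarchimedean ab) {p s : ℕ} (hp : p.Prime) (hs : 1 ≤ s) {L : ℝ} (hL0 : 0 < L)
    (hpL : ab (p : Ω) ≤ L) (hL : L < 1) {F : Fin 2 → MvPolynomial (Fin 2) Ω}
    (hF : Ty ab (p ^ s) L F) : R69.GoodF (vl ab h) (p ^ s) ⟨L, hL0.le⟩ (gAct F Ω) := by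
  obtain ⟨h1, h2, h3⟩ := hD Ω ab p s L F h hp hpL hL hF
  have hq : 2 ≤ p ^ s := hp.two_le.trans (Nat.le_self_pow (by omega) p)
  have hnorm : ∀ x, R69.nrm (vl ab h) x = 1 → R69.nrm (vl ab h) (gAct F Ω x) = 1 := by
    intro x hx
    rw [nrm_one] at hx ⊢
    rw [h1, hx, one_pow]
  refine ⟨hnorm, ?_, ?_, ?_⟩
  · intro x y hx hy hd
    rw [nrm_one] at hx hy
    have hd' : L < ds ab x y ^ (p ^ s - 1) := hd
    have hpos : 0 < ds ab x y := by
      have h0 : 0 ≤ ds ab x y := ab.nonneg _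
      rcases h0.eq_or_lt with h0 | h0
      · rw [← h0, zero_pow (by omega)] at hd'
        exact absurd hd' (not_lt.2 hL0.le)
      · exact h0
    have h4 := h3 x y hx hy (by
      calc L * ds ab x y < ds ab x y ^ (p ^ s - 1) * ds ab x y :=
            mul_lt_mul_of_pos_right hd' hpos
        _ = ds ab x y ^ p ^ s := by rw [← pow_succ, show p ^ s - 1 + 1 = p ^ s by omega])
    exact NNReal.coe_injective h4
  · intro x y hx hy hd
    rw [nrm_one] at hx hy
    have hd' : ds ab x y ^ (p ^ s - 1) ≤ L := hd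
    have h4 := h2 x y hx hy
    have h5 : ds ab x y ^ p ^ s ≤ L * ds ab x y := by
      calc ds ab x y ^ p ^ s = ds ab x y ^ (p ^ s - 1) * ds ab x y := by
            rw [← pow_succ, show p ^ s - 1 + 1 = p ^ s by omega]
        _ ≤ L * ds ab x y := mul_le_mul_of_nonneg_right hd' (ab.nonneg _)
    exact h4.trans (max_le h5 le_rfl)
  · intro y hy
    obtain ⟨x, hx0, hx⟩ := exists_pre (by omega : 1 ≤ p ^ s) hF.hom y
    obtain ⟨c, hc0, hc⟩ := R69.exists_normal (vl ab h) hx0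
    refine ⟨c • x, hc, ?_⟩
    refine R69.eq_smul_of_ds (hnorm _ hc) hy ?_
    rw [Bas.gAct_smul' hF.hom]
    simp only [Pi.smul_apply, smul_eq_mul]
    linear_combination c ^ (p ^ s) * hx

theorem goodQ (hD : DistStatement) {ab : AbsoluteValue Ω ℝ}
    (h : IsNonarchimedean ab) {p s n : ℕ} (hp : p.Prime) {L : ℝ} (hL0 : 0 ≤ L)
    (hpL : ab (p : Ω) ≤ L) (hL : L < 1) {Q : Fin 2 → MvPolynomial (Fin 2) Ω}
    (hQ : Ty ab ((p ^ s) ^ n) L Q) :
    R69.GoodQ (vl ab h) ((p ^ s) ^ n) ⟨L, hL0⟩ (gAct Q Ω) := by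
  have hQ' := hQ
  rw [← pow_mul] at hQ'
  obtain ⟨h1, h2, -⟩ := hD Ω ab p (s * n) L Q h hp hpL hL hQ'
  rw [pow_mul] at h2
  refine ⟨fun c x => Bas.gAct_smul' hQ.hom c x, fun x hx => ?_, fun x y hx hy => ?_⟩
  · rw [nrm_one] at hx ⊢
    rw [h1, hx, one_pow]
  · rw [nrm_one] at hx hy
    have h3 := h2 x y hx hy
    rcases le_max_iff.1 h3 with h4 | h4
    · exact le_max_of_le_left h4
    · exact le_max_of_le_right h4

end V69

/-- Row VAL. -/
theorem val69 (hD : DistStatement) (hW : WrStatement) : ValStatement := by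
  intro Ω _ _ ab p s n M L LQ F Q hna hp hs hM hL0 hpL hL hpLQ hLQ hF hQ hper hfun j u u' hu hu'
    hpr hnpr
  have hq : 2 ≤ p ^ s := hp.two_le.trans (Nat.le_self_pow (by omega) p)
  have hLQ0 : 0 ≤ LQ := (ab.nonneg _).trans hpLQ
  set v := V69.vl ab hna with hv
  have gF := V69.goodF hD hna hp hs hL0 hpL hL hF
  have gQ : ∀ j, R69.GoodQ v ((p ^ s) ^ n) ⟨LQ, hLQ0⟩ (gAct (Q j) Ω) := fun j =>
    V69.goodQ hD hna hp hLQ0 hpLQ hLQ (hQ j)
  have hne : ∀ x : Fin 2 → Ω, R69.nrm v x = 1 → x ≠ 0 := by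
    rintro x hx rfl
    simp [R69.nrm] at hx
  have hun := (V69.nrm_one ab hna u).2 hu
  have hun' := (V69.nrm_one ab hna u').2 hu'
  -- the functional equation with unit constants
  have hfQ : ∀ (s : ℕ) (x : Fin 2 → Ω), R69.nrm v x = 1 → ∃ c : Ω, v c = 1 ∧
      gAct (Q (j + s * (M - 1))) Ω (gAct F Ω x) =
        c • gAct F Ω (gAct (Q (j + (s + 1) * (M - 1))) Ω x) := by
    intro s x hx
    obtain ⟨c, hc0, hc⟩ := hfun (j + (s + 1) * (M - 1)) x (hne x hx)
    have e1 : j + (s + 1) * (M - 1) + 1 = j + s * (M - 1) + M := by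
      obtain ⟨M', rfl⟩ : ∃ M', M = M' + 1 := ⟨M - 1, by omega⟩
      rw [Nat.add_sub_cancel]
      ring
    rw [e1, hper] at hc
    refine ⟨c, ?_, hc⟩
    have h1 : R69.nrm v (gAct (Q (j + s * (M - 1))) Ω (gAct F Ω x)) = 1 :=
      (gQ _).norm _ (gF.norm _ hx)
    rw [hc, R69.nrm_smul, gF.norm _ ((gQ _).norm _ hx), mul_one] at h1
    exact h1
  have hds : R69.ds v (gAct F Ω u) (gAct F Ω u') = 0 := by
    obtain ⟨c, _, hc⟩ := hpr
    rw [hc]
    unfold R69.ds
    rw [(Valuation.zero_iff v)]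
    simp only [Pi.smul_apply, smul_eq_mul]
    ring
  have key := R69.val_bound (f := gAct F Ω) V69.arch hq (n := n)
    (L := ⟨L, hL0.le⟩) (fun h0 => hL0.ne' (congrArg NNReal.toReal h0)) (show L < 1 from hL) gF
    (δ := ⟨LQ, hLQ0⟩) (show LQ < 1 from hLQ)
    (Q := fun s => gAct (Q (j + s * (M - 1))) Ω) (fun s => gQ _) hfQ hun hun' hds
  simp only [Nat.zero_mul, Nat.add_zero] at key
  have key' : ds ab (gAct (Q j) Ω u) (gAct (Q j) Ω u') ≤ L ^ n := key
  refine le_trans ?_ key'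
  have hw := (V69.nrm_one ab hna _).1 ((gQ j).norm _ hun)
  have hw' := (V69.nrm_one ab hna _).1 ((gQ j).norm _ hun')
  refine hW Ω ab (p ^ s) F hna hF.hom hF.int _ _ hw hw' ?_ ?_
  · intro h0
    refine hnpr ?_
    have h1 : ab (gAct (Q j) Ω u 0 * gAct (Q j) Ω u' 1 - gAct (Q j) Ω u 1 * gAct (Q j) Ω u' 0) = 0 :=
      h0
    have h2 := ab.eq_zero.1 h1
    obtain ⟨c, hc, hc'⟩ := R69.eq_smul_of_ds (v := v) (x := gAct (Q j) Ω u') (y := gAct (Q j) Ω u)
      ((gQ j).norm _ hun') ((gQ j).norm _ hun) (by linear_combination -h2)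
    refine ⟨c, ?_, hc'⟩
    rintro rfl
    rw [map_zero] at hc
    exact zero_ne_one hc
  · have h1 := hfun j u (hne u hun)
    have h2 := hfun j u' (hne u' hun')
    have h3 : Prl (gAct (Q (j + 1)) Ω (gAct F Ω u')) (gAct (Q (j + 1)) Ω (gAct F Ω u)) :=
      Bas.prl_gAct (hQ (j + 1)).hom hpr
    exact Bas.prl_trans (Bas.prl_symm h2) (Bas.prl_trans h3 h1)

end Pool.DynLehmer.UN.RV

/-!
# Row VINF: for large `n`, `Q j` is constant on infinitely many fibres of `F`
-/

namespace Pool.DynLehmer.UN.RV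
open MvPolynomial Pool.DynLehmer Pool.DynLehmer.GS

namespace H24

section basic
variable {Ω : Type} [Field Ω] {ab : AbsoluteValue Ω ℝ}

/-! ## The Jacobian determinant -/

theorem coeff_pderiv_le (hna : IsNonarchimedean ab) {P : MvPolynomial (Fin 2) Ω}
    (hP : ∀ t, ab (coeff t P) ≤ 1) (i : Fin 2) (t : Fin 2 →₀ ℕ) :
    ab (coeff t (pderiv i P)) ≤ 1 := by
  rw [coeff_pderiv]
  refine mul_le_one' (hP _) ?_
  have h := na_nat hna (t i + 1)
  push_cast at h
  exact h

theorem coeff_mul_le (hna : IsNonarchimedean ab) {P Q : MvPolynomial (Fin 2) Ω}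
    (hP : ∀ t, ab (coeff t P) ≤ 1) (hQ : ∀ t, ab (coeff t Q) ≤ 1) (t : Fin 2 →₀ ℕ) :
    ab (coeff t (P * Q)) ≤ 1 := by
  classical
  rw [coeff_mul]
  exact na_sum_le hna _ _ zero_le_one fun x _ => mul_le_one' (hP _) (hQ _)

theorem coeff_jac_le (hna : IsNonarchimedean ab) {F : Fin 2 → MvPolynomial (Fin 2) Ω}
    (hF : ∀ i t, ab (coeff t (F i)) ≤ 1) (t : Fin 2 →₀ ℕ) : ab (coeff t (Jac F)) ≤ 1 := by
  rw [Jac, coeff_sub]
  exact na_sub_le hna
    (coeff_mul_le hna (coeff_pderiv_le hna (hF 0) 0) (coeff_pderiv_le hna (hF 1) 1) t)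
    (coeff_mul_le hna (coeff_pderiv_le hna (hF 0) 1) (coeff_pderiv_le hna (hF 1) 0) t)

theorem jac_hom' {q : ℕ} {F : Fin 2 → MvPolynomial (Fin 2) Ω}
    (hF : ∀ i, (F i).IsHomogeneous q) : (Jac F).IsHomogeneous (2 * (q - 1)) := by
  have h : 2 * (q - 1) = (q - 1) + (q - 1) := by omega
  rw [h]
  exact (((hF 0).pderiv (i := 0)).mul ((hF 1).pderiv (i := 1))).sub
    (((hF 0).pderiv (i := 1)).mul ((hF 1).pderiv (i := 0)))

/-- the Jacobian determinant of two forms without common zeros is not zero -/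
theorem jac_ne' [IsAlgClosed Ω] [CharZero Ω] {q : ℕ} {F : Fin 2 → MvPolynomial (Fin 2) Ω}
    (hq : 1 ≤ q) (hF : ∀ i, (F i).IsHomogeneous q)
    (hne : ∀ P : Fin 2 → Ω, P ≠ 0 → gAct F Ω P ≠ 0) : Jac F ≠ 0 := by
  intro hJ
  have e0 := (hF 0).sum_X_mul_pderiv
  have e1 := (hF 1).sum_X_mul_pderiv
  rw [Fin.sum_univ_two, nsmul_eq_mul] at e0 e1
  have hJ' : pderiv 0 (F 0) * pderiv 1 (F 1) - pderiv 1 (F 0) * pderiv 0 (F 1) = 0 := hJ
  have hq0 : ((q : ℕ) : MvPolynomial (Fin 2) Ω) ≠ 0 := Nat.cast_ne_zero.2 (by omega)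
  have i1 : F 1 * pderiv 1 (F 0) = F 0 * pderiv 1 (F 1) := by
    apply mul_left_cancel₀ hq0
    linear_combination (-(X 0 : MvPolynomial (Fin 2) Ω)) * hJ' + pderiv 1 (F 1) * e0 -
      pderiv 1 (F 0) * e1
  have i0 : F 1 * pderiv 0 (F 0) = F 0 * pderiv 0 (F 1) := by
    apply mul_left_cancel₀ hq0
    linear_combination ((X 1 : MvPolynomial (Fin 2) Ω)) * hJ' + pderiv 0 (F 1) * e0 -
      pderiv 0 (F 0) * e1
  obtain ⟨P, hP, hP0⟩ := J19.form_zero (N := Ω) q hq (F 0) (hF 0)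
  obtain ⟨P', hP', hP1⟩ := J19.form_zero (N := Ω) q hq (F 1) (hF 1)
  have hP1' : aeval P (F 1) ≠ 0 := by
    intro h
    apply hne P hP
    funext i
    fin_cases i
    · exact hP0
    · exact h
  have hP0' : aeval P' (F 0) ≠ 0 := by
    intro h
    apply hne P' hP'
    funext i
    fin_cases i
    · exact h
    · exact hP1
  set L : Fin 2 → Polynomial Ω :=
    fun i => Polynomial.C (P i) + Polynomial.C (P' i - P i) * Polynomial.X with hL
  have hL0 : (fun i => (L i).eval 0) = P := by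
    funext i
    simp [hL]
  have hL1 : (fun i => (L i).eval 1) = P' := by
    funext i
    simp [hL]
  have e : aeval L (F 1) * Polynomial.derivative (aeval L (F 0)) =
      aeval L (F 0) * Polynomial.derivative (aeval L (F 1)) := by
    rw [J19.deriv_aeval, J19.deriv_aeval, Fin.sum_univ_two, Fin.sum_univ_two]
    have j0 := congrArg (fun f => aeval L f) i0
    have j1 := congrArg (fun f => aeval L f) i1
    simp only [map_mul] at j0 j1
    linear_combination Polynomial.derivative (L 0) * j0 + Polynomial.derivative (L 1) * j1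
  have hg := J19.quot_const (aeval L (F 0)) (aeval L (F 1)) e
    (by rw [J19.eval_aeval, hL0]; exact hP1') (by rw [J19.eval_aeval, hL0]; exact hP0)
  apply hP0'
  have h5 := J19.eval_aeval L (F 0) 1
  rw [hL1, hg, Polynomial.eval_zero] at h5
  exact h5.symm

/-- a map of the projective line is onto -/
theorem surj' [IsAlgClosed Ω] {q : ℕ} {F : Fin 2 → MvPolynomial (Fin 2) Ω} (hq : 1 ≤ q)
    (hF : Mor q F) {U : Fin 2 → Ω} (hU : U ≠ 0) :
    ∃ P : Fin 2 → Ω, P ≠ 0 ∧ Prl (gAct F Ω P) U := by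
  have h1 : (C (U 1) * F 0 - C (U 0) * F 1).IsHomogeneous q := by
    have h2 := (isHomogeneous_C (Fin 2) (U 1)).mul (hF.hom 0)
    have h3 := (isHomogeneous_C (Fin 2) (U 0)).mul (hF.hom 1)
    rw [zero_add] at h2 h3
    exact h2.sub h3
  obtain ⟨P, hP, h⟩ := J19.form_zero (N := Ω) q hq _ h1
  refine ⟨P, hP, ?_⟩
  rw [Bas.prl_iff_det (hF.ne Ω P hP) hU]
  have h2 : U 1 * gAct F Ω P 0 - U 0 * gAct F Ω P 1 = 0 := by
    have h3 : aeval P (C (U 1) * F 0 - C (U 0) * F 1) =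
        U 1 * gAct F Ω P 0 - U 0 * gAct F Ω P 1 := by
      rw [map_sub, map_mul, map_mul, algHom_C, algHom_C]
      rfl
    rw [← h3]
    exact h
  linear_combination h2

/-- scaling to norm one -/
theorem exists_scale {u : Fin 2 → Ω} (hu : u ≠ 0) : ∃ c : Ω, c ≠ 0 ∧ nm ab (c • u) = 1 := by
  obtain ⟨i, hi⟩ := exists_nm (ab := ab) u
  have hpos := nm_ne (ab := ab) hu
  have hi0 : u i ≠ 0 := by
    intro h; rw [h, map_zero] at hi; rw [← hi] at hpos; exact lt_irrefl _ hpos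
  refine ⟨(u i)⁻¹, inv_ne_zero hi0, ?_⟩
  have h1 : ((u i)⁻¹ • u : Fin 2 → Ω) = fun j => (u i)⁻¹ * u j := rfl
  rw [h1, nm_smul, map_inv₀, hi, inv_mul_cancel₀ hpos.ne']

theorem vec_ne (a : Ω) : (![a, 1] : Fin 2 → Ω) ≠ 0 := by
  intro h
  have := congrFun h 1
  simp at this

theorem nm_vec {a : Ω} (ha : ab a ≤ 1) : nm ab ![a, 1] = 1 := by
  show max (ab a) (ab (1 : Ω)) = 1
  rw [map_one, max_eq_right ha]

end basic

end H24

open H24

/-- Row VINF. -/
theorem vinf (hv : ValStatement) (hg : GredStatement) : VinfStatement := by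
  intro Ω _ _ _ ab p s L F hna hp hs hpL hL1 hF
  have hq : 1 ≤ p ^ s := Nat.one_le_pow _ _ hp.pos
  have hp0 : (p : Ω) ≠ 0 := Nat.cast_ne_zero.2 hp.ne_zero
  have hLpos : 0 < L := (ab.pos hp0).trans_le hpL
  have hneF : ∀ P : Fin 2 → Ω, P ≠ 0 → gAct F Ω P ≠ 0 := by
    intro P hP h
    have h1 := nm_act hna hq hLpos.le hL1 hF P
    have h2 := nm_ne (ab := ab) hP
    rw [h] at h1
    have h3 : nm ab (0 : Fin 2 → Ω) = 0 := by simp [nm]
    rw [h3] at h1
    exact absurd h1 (pow_pos h2 _).ne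
  have hJ0 : Jac F ≠ 0 := jac_ne' hq hF.hom hneF
  have hJh := jac_hom' hF.hom
  have hJc := coeff_jac_le hna hF.int
  -- powers of `p`
  have hpp : ∀ k : ℕ, ab ((p : Ω) ^ k) ≤ 1 := fun k => pow_le_one' (hpL.trans hL1.le) k
  have hinj : Function.Injective fun k : ℕ => (p : Ω) ^ k := by
    intro a b h
    have h1 : ((p ^ a : ℕ) : Ω) = ((p ^ b : ℕ) : Ω) := by push_cast; exact h
    exact Nat.pow_right_injective hp.two_le (Nat.cast_injective h1)
  -- a point which is not critical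
  obtain ⟨k₀, hk₀⟩ : ∃ k₀ : ℕ, aeval ![(p : Ω) ^ k₀, 1] (Jac F) ≠ 0 := by
    by_contra hne
    push Not at hne
    obtain ⟨Z, -, hZ⟩ := root Ω Ω _ _ hJ0 hJh
    have h1 : Set.Infinite (Set.range fun k : ℕ => (some ((p : Ω) ^ k) : Option Ω)) :=
      Set.infinite_range_of_injective fun a b h => hinj (Option.some_injective _ h)
    apply h1
    refine Z.finite_toSet.subset ?_
    rintro _ ⟨k, rfl⟩
    have h2 := hZ ![(p : Ω) ^ k, 1] (vec_ne _) (hne k)
    have h3 : pr ![(p : Ω) ^ k, 1] = some ((p : Ω) ^ k) := by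
      simp [pr]
    rw [h3] at h2
    exact h2
  set a₀ : Ω := (p : Ω) ^ k₀ with ha₀
  set c' : ℝ := ab (aeval ![a₀, 1] (Jac F)) with hc'
  have hcpos : 0 < c' := ab.pos hk₀
  have hc1 : c' ≤ 1 := val_le hna hJc (nm_le (nm_vec (hpp k₀)))
  -- the points close to it
  obtain ⟨k₁, hk₁⟩ : ∃ k₁ : ℕ, L ^ k₁ < c' := exists_pow_lt_of_lt_one hcpos hL1
  have hcl : ∀ k : ℕ, k₁ ≤ k → ab (a₀ + (p : Ω) ^ k) ≤ 1 ∧
      ab (aeval ![a₀ + (p : Ω) ^ k, 1] (Jac F)) = c' := by
    intro k hk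
    have h1 : ab ((p : Ω) ^ k) < c' := by
      rw [map_pow]
      calc ab (p : Ω) ^ k ≤ L ^ k := pow_le_pow_left₀ (ab.nonneg _) hpL k
        _ ≤ L ^ k₁ := pow_le_pow_of_le_one hLpos.le hL1.le hk
        _ < c' := hk₁
    have h2 : ab (a₀ + (p : Ω) ^ k) ≤ 1 := na_add_le hna (hpp k₀) (hpp k)
    refine ⟨h2, ?_⟩
    refine na_eq hna ?_
    refine (lip hna (B := 1) (δ := ab ((p : Ω) ^ k)) hJc (nm_le (nm_vec h2))
      (nm_le (nm_vec (hpp k₀))) ?_).trans_lt ?_
    · intro i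
      fin_cases i
      · show ab (a₀ + (p : Ω) ^ k - a₀) ≤ _
        rw [add_sub_cancel_left]
      · show ab ((1 : Ω) - 1) ≤ _
        rw [sub_self, map_zero]
        exact ab.nonneg _
    · rw [one_mul]; exact h1
  refine ⟨k₁, ?_⟩
  intro n n' M Q R hn hM hQ hR hQM hRM hSQ hSR hQR j
  obtain ⟨LQ, hLQ, hLQ1, hcst⟩ := hg Ω ab p s n n' M L F Q R hna hp hs hM hpL hL1 hF hQ hR hQM hRM
    hSQ hSR hQR
  choose c hc0 hcT using hcst
  have hLn : L ^ n < c' := (pow_le_pow_of_le_one hLpos.le hL1.le hn).trans_lt hk₁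
  have hqn : 1 ≤ (p ^ s) ^ n := Nat.one_le_pow _ _ hq
  have hqn' : (p ^ s) ^ n = p ^ (s * n) := (pow_mul p s n).symm
  -- normalised forms
  have hmod : ∀ j, Q j = Q (j % M) := by
    intro j
    have h1 : ∀ a b : ℕ, Q (b + M * a) = Q b := by
      intro a
      induction a with
      | zero => intro b; rfl
      | succ a ih =>
        intro b
        have e : b + M * (a + 1) = (b + M * a) + M := by ring
        rw [e, hQM, ih]
    conv_lhs => rw [← Nat.mod_add_div j M]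
    exact h1 _ _
  set Q' : ℕ → Fin 2 → MvPolynomial (Fin 2) Ω := fun j i => C (c (j % M)) * Q j i with hQ'
  have hQ'T : ∀ j, Ty ab ((p ^ s) ^ n) LQ (Q' j) := by
    intro j
    have h1 := hcT (j % M)
    rw [← hmod j] at h1
    exact h1
  have hQ'M : ∀ j, Q' (j + M) = Q' j := by
    intro j
    funext i
    show C (c ((j + M) % M)) * Q (j + M) i = C (c (j % M)) * Q j i
    rw [hQM, Nat.add_mod_right]
  have hact : ∀ (j : ℕ) (u : Fin 2 → Ω), gAct (Q' j) Ω u = c (j % M) • gAct (Q j) Ω u := by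
    intro j u
    funext i
    show aeval u (C (c (j % M)) * Q j i) = c (j % M) * aeval u (Q j i)
    rw [map_mul, algHom_C]
    rfl
  have hrel : ∀ j (u : Fin 2 → Ω), u ≠ 0 → Prl (gAct (Q' (j + 1)) Ω (gAct F Ω u))
      (gAct F Ω (gAct (Q' j) Ω u)) := by
    intro j u _
    obtain ⟨d, hd, hd'⟩ := hSQ j
    have e : gAct (Q (j + 1)) Ω (gAct F Ω u) = d • gAct F Ω (gAct (Q j) Ω u) := by
      funext i
      have h1 := congrArg (fun g => aeval u g) (hd' i)
      simp only [aeval_bind₁, map_mul, algHom_C] at h1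
      exact h1
    rw [hact, hact, e, Bas.gAct_smul' hF.hom]
    have h0 : c (j % M) ^ p ^ s ≠ 0 := pow_ne_zero _ (hc0 _)
    exact Bas.prl_trans (Bas.prl_smul _ (hc0 _)) (Bas.prl_trans (Bas.prl_smul _ hd)
      (Bas.prl_symm (Bas.prl_smul _ h0)))
  have hval := hv Ω ab p s n M L LQ F Q' hna hp hs hM hLpos hpL hL1 hLQ hLQ1 hF hQ'T hQ'M hrel j
  have hpQ : ∀ u : Fin 2 → Ω, Prl (gAct (Q' j) Ω u) (gAct (Q j) Ω u) := by
    intro u
    rw [hact]
    exact Bas.prl_smul _ (hc0 _)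
  -- the points over the points close to `a₀`
  have key : ∀ k : ℕ, ∃ u : Fin 2 → Ω, u ≠ 0 ∧
      Prl (gAct (Q j) Ω u) ![a₀ + (p : Ω) ^ (k₁ + k), 1] ∧
      ∀ u' : Fin 2 → Ω, u' ≠ 0 → Prl (gAct F Ω u') (gAct F Ω u) →
        Prl (gAct (Q j) Ω u') (gAct (Q j) Ω u) := by
    intro k
    obtain ⟨ha1, ha2⟩ := hcl (k₁ + k) (by omega)
    set a : Ω := a₀ + (p : Ω) ^ (k₁ + k) with ha
    obtain ⟨u₀, hu₀, hu₁⟩ := surj' hqn (hQ j) (vec_ne a)
    obtain ⟨e, he, he1⟩ := exists_scale (ab := ab) hu₀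
    set u : Fin 2 → Ω := e • u₀ with hu
    have hu0 : u ≠ 0 := smul_ne_zero he hu₀
    have hPu : Prl (gAct (Q j) Ω u) ![a, 1] :=
      Bas.prl_trans (Bas.prl_gAct (hQ j).hom (Bas.prl_smul _ he)) hu₁
    refine ⟨u, hu0, hPu, ?_⟩
    have hPu' : Prl (gAct (Q' j) Ω u) ![a, 1] := Bas.prl_trans (hpQ u) hPu
    have hval2 : ab (aeval (gAct (Q' j) Ω u) (Jac F)) = c' := by
      obtain ⟨d, hd, hd'⟩ := hPu'
      have h1 : nm ab (gAct (Q' j) Ω u) = 1 := by
        have hT := hQ'T j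
        have h2 := nm_act hna hqn ((ab.nonneg _).trans hLQ) hLQ1 hT u
        rw [h2, he1, one_pow]
      have h2 : ab d = 1 := by
        have h3 : nm ab (d • ![a, 1]) = ab d * nm ab ![a, 1] := nm_smul d ![a, 1]
        rw [← hd', h1, nm_vec ha1, mul_one] at h3
        exact h3.symm
      have h3 : aeval (gAct (Q' j) Ω u) (Jac F) = d ^ (2 * (p ^ s - 1)) * aeval ![a, 1] (Jac F) := by
        rw [hd']
        exact hom_smul hJh d ![a, 1]
      rw [h3, map_mul, map_pow, h2, one_pow, one_mul, ha2]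
    intro u' hu' hFu
    obtain ⟨e', he', he1'⟩ := exists_scale (ab := ab) hu'
    by_contra hcon
    have h1 := hval u (e' • u') he1 he1'
      (Bas.prl_trans (Bas.prl_gAct hF.hom (Bas.prl_smul _ he')) hFu) ?_
    · rw [hval2] at h1
      exact absurd h1 (not_le.2 hLn)
    · intro h2
      apply hcon
      have h3 : Prl (gAct (Q j) Ω (e' • u')) (gAct (Q j) Ω u') :=
        Bas.prl_gAct (hQ j).hom (Bas.prl_smul _ he')
      exact Bas.prl_trans (Bas.prl_symm h3) (Bas.prl_trans (Bas.prl_symm (hpQ _))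
        (Bas.prl_trans h2 (hpQ _)))
  choose u hu0 huP hufib using key
  -- infinitely many of them are affine
  intro hfin
  have hinf : (Set.univ : Set ℕ).Infinite := Set.infinite_univ
  have hmap : Set.MapsTo (fun k => pr (u k)) (Set.univ : Set ℕ)
      (insert none (some '' {x : Ω | ∀ u' : Fin 2 → Ω, u' ≠ 0 →
        Prl (gAct F Ω u') (gAct F Ω ![x, 1]) → Prl (gAct (Q j) Ω u') (gAct (Q j) Ω ![x, 1])})) := by
    intro k _
    show pr (u k) ∈ _
    by_cases h : u k 1 = 0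
    · left
      simp [pr, h]
    · right
      refine ⟨u k 0 / u k 1, ?_, by simp [pr, h]⟩
      have hux : Prl (u k) ![u k 0 / u k 1, 1] := by
        refine ⟨u k 1, h, ?_⟩
        funext i
        fin_cases i
        · show u k 0 = u k 1 * (u k 0 / u k 1)
          field_simp
        · show u k 1 = u k 1 * 1
          rw [mul_one]
      intro u' hu' hFu
      exact Bas.prl_trans (hufib k u' hu' (Bas.prl_trans hFu
        (Bas.prl_symm (Bas.prl_gAct hF.hom hux)))) (Bas.prl_gAct (hQ j).hom hux)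
  have hinjOn : Set.InjOn (fun k => pr (u k)) (Set.univ : Set ℕ) := by
    intro k _ k' _ h
    have h1 : Prl (u k) (u k') := Bas.prl_of_pr (hu0 k) (hu0 k') h
    have h2 : Prl ![a₀ + (p : Ω) ^ (k₁ + k), 1] ![a₀ + (p : Ω) ^ (k₁ + k'), 1] :=
      Bas.prl_trans (Bas.prl_symm (huP k)) (Bas.prl_trans (Bas.prl_gAct (hQ j).hom h1) (huP k'))
    obtain ⟨d, hd, hd'⟩ := h2
    have h3 : (1 : Ω) = d * 1 := congrFun hd' 1
    have h4 : a₀ + (p : Ω) ^ (k₁ + k) = d * (a₀ + (p : Ω) ^ (k₁ + k')) := congrFun hd' 0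
    rw [mul_one] at h3
    rw [← h3, one_mul, add_right_inj] at h4
    have h5 := hinj h4
    omega
  exact Set.infinite_of_injOn_mapsTo hinjOn hmap hinf ((hfin.image _).insert _)

end Pool.DynLehmer.UN.RV

/-!
# Row VGEN: from infinitely many points to the generic point
-/

namespace Pool.DynLehmer.UN.RV
open MvPolynomial Pool.DynLehmer Pool.DynLehmer.GS

namespace Vgen

/-- a form of bidegree `(0, d)` does not depend on the first point -/
theorem ev_zero_left {K : Type} [Field K] {N : Type} [Field N] [Algebra K N] {d : ℕ}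
    {G : MvPolynomial (Fin 2 ⊕ Fin 2) K} (hG : BiHom 0 d G) (P Q P' : Fin 2 → N) :
    GS.ev P P' G = GS.ev Q P' G := by
  unfold GS.ev
  rw [aeval_def, aeval_def, eval₂_eq', eval₂_eq']
  refine Finset.sum_congr rfl fun t ht => ?_
  have h := (hG t ht).1
  have h0 : t (Sum.inl 0) = 0 := by omega
  have h1 : t (Sum.inl 1) = 0 := by omega
  simp only [Fintype.prod_sum_type, Fin.prod_univ_two, h0, h1, Sum.elim_inl, Sum.elim_inr,
    pow_zero]

/-- a form of bidegree `(d, 0)` does not depend on the second point -/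
theorem ev_zero_right {K : Type} [Field K] {N : Type} [Field N] [Algebra K N] {d : ℕ}
    {G : MvPolynomial (Fin 2 ⊕ Fin 2) K} (hG : BiHom d 0 G) (P P' Q' : Fin 2 → N) :
    GS.ev P P' G = GS.ev P Q' G := by
  unfold GS.ev
  rw [aeval_def, aeval_def, eval₂_eq', eval₂_eq']
  refine Finset.sum_congr rfl fun t ht => ?_
  have h := (hG t ht).2
  have h0 : t (Sum.inr 0) = 0 := by omega
  have h1 : t (Sum.inr 1) = 0 := by omega
  simp only [Fintype.prod_sum_type, Fin.prod_univ_two, h0, h1, Sum.elim_inl, Sum.elim_inr,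
    pow_zero]

theorem vec_ne {N : Type} [Field N] (t : N) : (![t, 1] : Fin 2 → N) ≠ 0 := by
  intro h
  have := congrFun h 1
  simp at this

theorem pr_vec {N : Type} [Field N] (t : N) : pr (![t, 1] : Fin 2 → N) = some t := by
  unfold pr
  simp

/-- some point is not in a given fibre -/
theorem exists_off {K : Type} [Field K] {N : Type} [Field N] [Algebra K N] [Infinite N] {q : ℕ}
    {F : Fin 2 → MvPolynomial (Fin 2) K} (hq : 1 ≤ q) (hF : Mor q F) (U : Fin 2 → N) (hU : U ≠ 0) :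
    ∃ t : N, ¬ Prl (gAct F N ![t, 1]) U := by
  classical
  by_contra h
  push Not at h
  obtain ⟨Z, -, hZ⟩ := pre root K N q F hq hF U hU 1
  have h1 : ∀ t : N, some t ∈ Z := by
    intro t
    have h2 := hZ ![t, 1] (vec_ne t) (by simpa using h t)
    rwa [pr_vec] at h2
  have h2 : Set.Finite (Set.range (some : N → Option N)) :=
    Set.Finite.subset Z.finite_toSet (by rintro _ ⟨t, rfl⟩; exact h1 t)
  exact Set.infinite_range_of_injective (Option.some_injective N) h2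

end Vgen

open Vgen LP.Cls in
/-- Row VGEN. -/
theorem vgen : VgenStatement := by
  classical
  intro Ω _ _ _ q D F Q mF mQ hq hX N _ _ z z' hz' hz1 _ hzz
  have hcN : CharZero N := charZero_of_injective_algebraMap (algebraMap Ω N).injective
  have hz : z ≠ 0 := by
    intro h
    exact hz1 (by rw [h]; rfl)
  -- the two forms
  have hW : BiHom (q ^ 1) (q ^ 1) (hF F 1 1) := bihom_hF mF 1 1
  have hWQ : BiHom (D ^ 1) (D ^ 1) (hF Q 1 1) := bihom_hF mQ 1 1
  have evW : ∀ {M : Type} [Field M] [Algebra Ω M] {P P' : Fin 2 → M}, P ≠ 0 → P' ≠ 0 →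
      (GS.ev P P' (hF F 1 1) = 0 ↔ Prl (gAct F M P) (gAct F M P')) := by
    intro M _ _ P P' h h'
    have := ev_hF_iff mF 1 1 h h' (N := M)
    simpa using this
  have evWQ : ∀ {M : Type} [Field M] [Algebra Ω M] {P P' : Fin 2 → M}, P ≠ 0 → P' ≠ 0 →
      (GS.ev P P' (hF Q 1 1) = 0 ↔ Prl (gAct Q M P) (gAct Q M P')) := by
    intro M _ _ P P' h h'
    have := ev_hF_iff mQ 1 1 h h' (N := M)
    simpa using this
  have h0 : GS.ev z z' (hF F 1 1) = 0 := (evW hz hz').2 (Bas.prl_symm hzz)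
  have hW0 : hF F 1 1 ≠ 0 := by
    intro h
    obtain ⟨t, ht⟩ := exists_off (N := N) hq mF (gAct F N z) (mF.ne N z hz)
    refine ht ?_
    rw [← evW (vec_ne t) hz, h]
    unfold GS.ev
    exact map_zero _
  -- an irreducible factor
  obtain ⟨f, hf, hfW⟩ := WfDvdMonoid.exists_factors (hF F 1 1) hW0
  have hprod : GS.ev z z' f.prod = 0 := by
    obtain ⟨u, hu⟩ := hfW.symm
    have h1 : GS.ev z z' f.prod = GS.ev z z' (hF F 1 1) * GS.ev z z' (u : MvPolynomial (Fin 2 ⊕ Fin 2) Ω) := by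
      rw [← hu]
      exact map_mul _ _ _
    rw [h1, h0, zero_mul]
  obtain ⟨G, hG, hGz⟩ : ∃ G ∈ f, GS.ev z z' G = 0 := by
    unfold GS.ev at hprod ⊢
    rw [map_multiset_prod, Multiset.prod_eq_zero_iff, Multiset.mem_map] at hprod
    exact hprod
  have hGi : Irreducible G := hf G hG
  have hGd : G ∣ hF F 1 1 := (Multiset.dvd_prod hG).trans hfW.dvd
  have hGW : ∀ {M : Type} [Field M] [Algebra Ω M] {P P' : Fin 2 → M}, P ≠ 0 → P' ≠ 0 →
      GS.ev P P' G = 0 → Prl (gAct F M P) (gAct F M P') := by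
    intro M _ _ P P' h h' h1
    rw [← evW h h']
    obtain ⟨y, hy⟩ := hGd
    rw [hy]
    have h2 : GS.ev P P' (G * y) = GS.ev P P' G * GS.ev P P' y := map_mul _ _ _
    rw [h2, h1, zero_mul]
  obtain ⟨c, d, -, -, hGB⟩ := BiHom.of_dvd hW hW0 hGd
  have hd : 1 ≤ d := by
    by_contra hd
    obtain rfl : d = 0 := by omega
    obtain ⟨t, ht⟩ := exists_off (N := N) hq mF (gAct F N z) (mF.ne N z hz)
    refine ht (Bas.prl_symm (hGW hz (vec_ne t) ?_))
    rw [ev_zero_right hGB z _ z']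
    exact hGz
  have hc : 1 ≤ c := by
    by_contra hc
    obtain rfl : c = 0 := by omega
    obtain ⟨t, ht⟩ := exists_off (N := N) hq mF (gAct F N z') (mF.ne N z' hz')
    refine ht (hGW (vec_ne t) hz' ?_)
    rw [ev_zero_left hGB _ z z']
    exact hGz
  -- it divides the form of `Q`
  have hGQ : G ∣ hF Q 1 1 := by
    by_contra hdvd
    obtain ⟨R, hR, hRh, hRz⟩ := bez Ω c d _ _ G _ hGB hWQ hGi hd hdvd
    obtain ⟨Z, -, hZ⟩ := root Ω Ω _ R hR hRh
    refine hX (Set.Finite.subset ((Z.finite_toSet).preimage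
      (Option.some_injective Ω).injOn) ?_)
    intro x hx
    obtain ⟨-, hex⟩ := fib Ω c d G hGB hGi hc hd Ω ![x, 1] (vec_ne x)
    obtain ⟨u', hu', hu⟩ := hex inferInstance
    have h1 : Prl (gAct F Ω u') (gAct F Ω ![x, 1]) := Bas.prl_symm (hGW (vec_ne x) hu' hu)
    have h2 := hx u' hu' h1
    have h3 : GS.ev ![x, 1] u' (hF Q 1 1) = 0 := (evWQ (vec_ne x) hu').2 (Bas.prl_symm h2)
    have h4 := hZ ![x, 1] (vec_ne x) (hRz Ω ![x, 1] u' hu' hu h3)
    rw [pr_vec] at h4
    exact h4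
  obtain ⟨y, hy⟩ := hGQ
  refine Bas.prl_symm ((evWQ hz hz').1 ?_)
  rw [hy]
  have h2 : GS.ev z z' (G * y) = GS.ev z z' G * GS.ev z z' y := map_mul _ _ _
  rw [h2, hGz, zero_mul]

end Pool.DynLehmer.UN.RV

/-!
# Row EXT: an absolute value on the algebraic closure of a number field
-/

namespace Pool.DynLehmer.UN.RV
open NumberField

theorem exists_ext_nonarch36 {K C Ω : Type*} [Field K] [NontriviallyNormedField C]
    [IsUltrametricDist C] [CompleteSpace C] (e : K →+* C) [Field Ω] [Algebra K Ω]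
    [Algebra.IsAlgebraic K Ω] :
    ∃ μ : AbsoluteValue Ω ℝ, IsNonarchimedean μ ∧ ∀ x : K, μ (algebraMap K Ω x) = ‖e x‖ := by
  let _ : Algebra K (AlgebraicClosure C) := ((algebraMap C (AlgebraicClosure C)).comp e).toAlgebra
  let g : Ω →ₐ[K] AlgebraicClosure C := IsAlgClosed.lift
  refine ⟨{ toFun := fun y => spectralMulAlgNorm C (AlgebraicClosure C) (g y)
            map_mul' := fun x y => by rw [map_mul, map_mul]
            nonneg' := fun x => apply_nonneg _ _
            eq_zero' := fun x => ?_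
            add_le' := fun x y => by rw [map_add]; exact map_add_le_add _ _ _ }, ?_, ?_⟩
  · rw [map_eq_zero_iff_eq_zero, map_eq_zero]
  · intro x y
    show spectralMulAlgNorm C (AlgebraicClosure C) (g (x + y)) ≤ _
    rw [map_add]
    exact isNonarchimedean_spectralNorm (g x) (g y)
  · intro x
    show spectralMulAlgNorm C (AlgebraicClosure C) (g (algebraMap K Ω x)) = _
    rw [AlgHom.commutes]
    exact spectralNorm_extends (e x)

/-- Row EXT. -/
theorem ext : ExtStatement := by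
  intro K _ _ v
  let _ : NontriviallyNormedField (v.maximalIdeal.adicCompletion K) :=
    Valued.toNontriviallyNormedField _ _
  obtain ⟨μ, hμ1, hμ⟩ := exists_ext_nonarch36 (Ω := AlgebraicClosure K)
    (FinitePlace.embedding v.maximalIdeal) (K := K)
  refine ⟨μ, hμ1, fun x => ?_⟩
  have := hμ x
  rw [← FinitePlace.norm_embedding_eq]
  exact this

end Pool.DynLehmer.UN.RV

/-!
# Row VFIN: the bound for `n` over a number field
-/

namespace Pool.DynLehmer.UN.RV
open MvPolynomial Pool.DynLehmer Pool.DynLehmer.GS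

theorem ty_of_hyp {K Ω : Type} [Field K] [NumberField K] [Field Ω] [Algebra K Ω]
    (ab : AbsoluteValue Ω ℝ) {p s : ℕ} {v : NumberField.FinitePlace K}
    (hab : ∀ x : K, ab (algebraMap K Ω x) = v x) {F₀ : Fin 2 → MvPolynomial (Fin 2) K}
    (h : HypR p s v F₀) : ∃ L : ℝ, ab (p : Ω) ≤ L ∧ L < 1 ∧
      Ty ab (p ^ s) L (fun i => map (algebraMap K Ω) (F₀ i)) := by
  classical
  have hc : ∀ i t, ab (coeff t (map (algebraMap K Ω) (F₀ i))) = v (coeff t (F₀ i)) := by
    intro i t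
    rw [coeff_map, hab]
  -- the bound
  obtain ⟨L, hL1, hLp, hL⟩ : ∃ L : ℝ, L < 1 ∧ v (p : K) ≤ L ∧
      ∀ i t, (∀ j, t ≠ Finsupp.single j (p ^ s)) → v (coeff t (F₀ i)) ≤ L := by
    set T : Finset (Fin 2 →₀ ℕ) := (F₀ 0).support ∪ (F₀ 1).support with hT
    set S : Finset ℝ := insert (v (p : K)) (((Finset.univ : Finset (Fin 2)) ×ˢ
      (T.filter fun t => ∀ j, t ≠ Finsupp.single j (p ^ s))).image
        fun a => v (coeff a.2 (F₀ a.1))) with hS
    have hne : S.Nonempty := ⟨_, Finset.mem_insert_self _ _⟩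
    refine ⟨S.max' hne, ?_, S.le_max' _ (Finset.mem_insert_self _ _), ?_⟩
    · rw [Finset.max'_lt_iff]
      intro y hy
      rw [hS, Finset.mem_insert, Finset.mem_image] at hy
      rcases hy with rfl | ⟨a, ha, rfl⟩
      · exact h.above
      · rw [Finset.mem_product, Finset.mem_filter] at ha
        exact h.red a.1 a.2 ha.2.2
    · intro i t ht
      by_cases h0 : coeff t (F₀ i) = 0
      · rw [h0]
        refine le_trans ?_ (S.le_max' _ (Finset.mem_insert_self (v (p : K)) _))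
        rw [map_zero]
        exact apply_nonneg v _
      · refine S.le_max' _ ?_
        rw [hS, Finset.mem_insert, Finset.mem_image]
        refine Or.inr ⟨(i, t), ?_, rfl⟩
        rw [Finset.mem_product, Finset.mem_filter]
        refine ⟨Finset.mem_univ _, ?_, ht⟩
        rw [hT, Finset.mem_union]
        fin_cases i
        · exact Or.inl (mem_support_iff.2 h0)
        · exact Or.inr (mem_support_iff.2 h0)
  refine ⟨L, ?_, hL1, ?_, ?_, ?_, ?_⟩
  · have := hab (p : K)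
    rw [map_natCast] at this
    rw [this]
    exact hLp
  · intro i
    exact (h.hom i).map _
  · intro i t
    rw [hc]
    exact h.int i t
  · intro i t ht
    rw [hc]
    exact hL i t ht
  · have e : (Matrix.of fun i j => coeff (Finsupp.single j (p ^ s))
        (map (algebraMap K Ω) (F₀ i))) = (algebraMap K Ω).mapMatrix
        (Matrix.of fun i j => coeff (Finsupp.single j (p ^ s)) (F₀ i)) := by
      ext i j
      simp [coeff_map]
    rw [e, ← RingHom.map_det, hab]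
    exact h.det

theorem mor_map36 {K Ω : Type} [Field K] [Field Ω] [Algebra K Ω] {q : ℕ}
    {F : Fin 2 → MvPolynomial (Fin 2) K} (hF : Mor q F) :
    Mor q (fun i => map (algebraMap K Ω) (F i)) where
  hom i := (hF.hom i).map _
  ne N _ _ P hP := by
    let _ : Algebra K N := ((algebraMap Ω N).comp (algebraMap K Ω)).toAlgebra
    have : IsScalarTower K Ω N := IsScalarTower.of_algebraMap_eq fun _ => rfl
    have h := hF.ne N P hP
    intro h0
    apply h
    rw [← h0]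
    funext i
    show aeval P (F i) = aeval P (map (algebraMap K Ω) (F i))
    rw [aeval_map_algebraMap]

/-- Row VFIN. -/
theorem vfin (hinf : VinfStatement) (hgen : VgenStatement) : VfinStatement := by
  intro K _ _ p s v F₀ h
  obtain ⟨ab, hna, hab⟩ := ext K v
  obtain ⟨L, hLp, hL1, hTy⟩ := ty_of_hyp ab hab h
  obtain ⟨n₁, hn₁⟩ := hinf (AlgebraicClosure K) ab p s L _ hna h.prime h.pos hLp hL1 hTy
  have hMor : Mor (p ^ s) (fun i => map (algebraMap K (AlgebraicClosure K)) (F₀ i)) :=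
    mor_map36 (mor K p s v F₀ h)
  refine ⟨n₁, ?_⟩
  rintro F rfl n n' M Q R hn hM hQ hR hQM hRM hSQ hSR hcomp j N _ _ z z' hz' hz1 htr hprl
  exact hgen (AlgebraicClosure K) (p ^ s) ((p ^ s) ^ n) _ (Q j) hMor (hQ j)
    (Nat.one_le_pow _ _ h.prime.pos)
    (hn₁ n n' M Q R hn hM hQ hR hQM hRM hSQ hSR hcomp j) N z z' hz' hz1 htr hprl

end Pool.DynLehmer.UN.RV

/-! # The bound for the number of steps -/

namespace Pool.DynLehmer.UN.RV

theorem vfin_all : VfinStatement := vfin (vinf (val69 dist wr24) gred) vgen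

end Pool.DynLehmer.UN.RV
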