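import Mathlib
import Pool.Agent.Lib.MP_2194ec_nt.UN.PolDefs
import Pool.Agent.Lib.MP_2194ec_nt.UN.PolTower
import Pool.Agent.Lib.MP_2194ec_nt.UN.PolSeries
import Pool.Agent.Lib.MP_2194ec_nt.UN.PolIntegral
import Pool.Agent.Lib.MP_2194ec_nt.UN.Polynomial
import Pool.Agent.Lib.MP_2194ec_nt.GAL.R.Jac
import Pool.Agent.Lib.MP_2194ec_nt.GAL.R.Bas
import Pool.Agent.Lib.MP_2194ec_nt.UN.RatReduction

set_option autoImplicit false

/-!
# Periodic pairs of a rational map: ramification, the tower of a pair, pairs of equal degree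
-/

section

/-! # Ramification rows for rational maps -/

namespace Pool.DynLehmer.UN
open Polynomial IntermediateField

/-- unramified at `a` implies unramified after substitution of a series of order `e` -/
def SpuStatement : Prop :=
  ∀ (k L : Type) [Field k] [IsAlgClosed k] [CharZero k] [Field L] [Algebra k L] (u : L) (a : k),
    Transcendental k u → FiniteDimensional (adjoin k {u}) L → SpF k L u a →
    ∀ e : ℕ, 1 ≤ e → SpE k L u a e

/-- one step of the tower, in one chart -/
def RstepStatement : Prop :=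
  ∀ (k E' E : Type) [Field k] [IsAlgClosed k] [CharZero k] [Field E'] [Field E] [Algebra k E']
    [Algebra k E] [Algebra E' E] [IsScalarTower k E' E] (A B : k[X]) (w : E) (w' : E') (a : k),
    Transcendental k w' → FiniteDimensional (adjoin k {w'}) E' → IsCoprime A B →
    2 ≤ max A.natDegree B.natDegree → algebraMap E' E w' * aeval w B = aeval w A →
    adjoin E' {w} = ⊤ → (minpoly E' w).natDegree = max A.natDegree B.natDegree →
    B.eval a ≠ 0 →
    (SpF k E' w' (A.eval a / B.eval a) → SpF k E w a) ∧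
      ((derivative A * B - A * derivative B).eval a ≠ 0 → SpF k E w a →
        SpF k E' w' (A.eval a / B.eval a))

namespace R47

/-- power series in the algebraic closure of the Laurent series, as a ring homomorphism -/
noncomputable def pusH (k : Type) [Field k] :
    PowerSeries k →+* AlgebraicClosure (LaurentSeries k) :=
  (algebraMap (LaurentSeries k) (AlgebraicClosure (LaurentSeries k))).comp
    (HahnSeries.ofPowerSeries ℤ k)

theorem pus_eq {k : Type} [Field k] (s : PowerSeries k) : pus s = pusH k s := rfl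

/-- the elements whose image is a Laurent series -/
noncomputable def LS {k E : Type} [Field k] [Field E]
    (h : E →+* AlgebraicClosure (LaurentSeries k)) : Subfield E :=
  (algebraMap (LaurentSeries k) (AlgebraicClosure (LaurentSeries k))).fieldRange.comap h

theorem mem_LS {k E : Type} [Field k] [Field E]
    (h : E →+* AlgebraicClosure (LaurentSeries k)) (z : E) :
    z ∈ LS h ↔ ∃ l : LaurentSeries k, h z = algebraMap _ (AlgebraicClosure (LaurentSeries k)) l := by
  unfold LS
  rw [Subfield.mem_comap, RingHom.mem_fieldRange]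
  exact ⟨fun ⟨l, hl⟩ => ⟨l, hl.symm⟩, fun ⟨l, hl⟩ => ⟨l, hl.symm⟩⟩

/-- the substitution `t ↦ σ` on Laurent series -/
theorem exists_subst {k : Type} [Field k] (σ : PowerSeries k)
    (hσ : PowerSeries.constantCoeff σ = 0) (h0 : σ ≠ 0) :
    ∃ T : LaurentSeries k →+* LaurentSeries k,
      (∀ b, T (HahnSeries.ofPowerSeries ℤ k (PowerSeries.C b)) =
        HahnSeries.ofPowerSeries ℤ k (PowerSeries.C b)) ∧
      T (HahnSeries.ofPowerSeries ℤ k PowerSeries.X) = HahnSeries.ofPowerSeries ℤ k σ := by
  have h := PowerSeries.HasSubst.of_constantCoeff_zero' hσ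
  let T0 : PowerSeries k →+* PowerSeries k := (PowerSeries.substAlgHom (R := k) h).toRingHom
  have hC : ∀ b, T0 (PowerSeries.C b) = PowerSeries.C b := fun b =>
    (PowerSeries.substAlgHom (R := k) h).commutes b
  have hX : T0 PowerSeries.X = σ := by
    show PowerSeries.substAlgHom (R := k) h PowerSeries.X = σ
    rw [PowerSeries.coe_substAlgHom, PowerSeries.subst_X h]
  have hinj : Function.Injective T0 := by
    rw [injective_iff_map_eq_zero]
    intro f hf
    by_contra hf0
    obtain ⟨n, hn⟩ : ∃ n : ℕ, f.order = n := ⟨f.order.toNat, by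
      rw [ENat.natCast_toNat]
      rw [Ne, PowerSeries.order_eq_top]
      exact hf0⟩
    obtain ⟨h1, h2⟩ := PowerSeries.order_eq_nat.1 hn
    obtain ⟨w, hw⟩ := PowerSeries.X_pow_dvd_iff.2 h2
    have h3 : PowerSeries.constantCoeff w ≠ 0 := by
      intro h0
      apply h1
      rw [hw]
      have h4 := PowerSeries.coeff_X_pow_mul w n 0
      rw [zero_add] at h4
      rw [h4, PowerSeries.coeff_zero_eq_constantCoeff_apply, h0]
    have h5 : IsUnit w := PowerSeries.isUnit_iff_constantCoeff.2 (isUnit_iff_ne_zero.2 h3)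
    rw [hw, map_mul, map_pow, hX] at hf
    exact mul_ne_zero (pow_ne_zero n h0) (h5.map T0).ne_zero hf
  let g : PowerSeries k →+* LaurentSeries k := (HahnSeries.ofPowerSeries ℤ k).comp T0
  have hg : Function.Injective g := HahnSeries.ofPowerSeries_injective.comp hinj
  refine ⟨IsFractionRing.lift (A := PowerSeries k) (K := LaurentSeries k) (g := g) hg, ?_, ?_⟩
  · intro b
    have h1 := IsFractionRing.lift_algebraMap (K := LaurentSeries k) hg (PowerSeries.C b)
    refine Eq.trans ?_ (h1.trans ?_)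
    · rfl
    · show HahnSeries.ofPowerSeries ℤ k (T0 (PowerSeries.C b)) = _
      rw [hC]
  · have h1 := IsFractionRing.lift_algebraMap (K := LaurentSeries k) hg PowerSeries.X
    refine Eq.trans ?_ (h1.trans ?_)
    · rfl
    · show HahnSeries.ofPowerSeries ℤ k (T0 PowerSeries.X) = _
      rw [hX]

/-- the expansion at `a` -/
noncomputable def ev {k : Type} [Field k] (a : k) : k[X] →+* PowerSeries k :=
  (Polynomial.coeToPowerSeries.ringHom (R := k)).comp (Polynomial.compRingHom (X + C a))

theorem ev_C {k : Type} [Field k] (a b : k) : ev a (C b) = PowerSeries.C b := by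
  show (((C b : k[X]).comp (X + C a) : k[X]) : PowerSeries k) = _
  rw [C_comp, Polynomial.coe_C]

theorem ev_X {k : Type} [Field k] (a : k) : ev a X = PowerSeries.C a + PowerSeries.X := by
  show (((X : k[X]).comp (X + C a) : k[X]) : PowerSeries k) = _
  rw [X_comp, Polynomial.coe_add, Polynomial.coe_X, Polynomial.coe_C, add_comm]

theorem ev_inj {k : Type} [Field k] (a : k) : Function.Injective (ev a) := by
  rw [injective_iff_map_eq_zero]
  intro f hf
  have h1 : ((f.comp (X + C a) : k[X]) : PowerSeries k) = 0 := hf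
  rw [Polynomial.coe_eq_zero_iff] at h1
  have h2 : (f.comp (X + C a)).comp (X - C a) = 0 := by rw [h1, zero_comp]
  rw [comp_assoc] at h2
  simpa using h2

theorem spu : SpuStatement := by
  intro k L _ _ _ _ _ u a hu hfin hS e he s hs h hk hhu z
  have hs0 : s ≠ 0 := by
    rintro rfl
    rw [PowerSeries.order_zero] at hs
    exact ENat.natCast_ne_top _ hs.symm
  have hs00 : PowerSeries.constantCoeff s = 0 := by
    rw [← PowerSeries.coeff_zero_eq_constantCoeff_apply]
    exact (PowerSeries.order_eq_nat.1 hs).2 0 (by omega)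
  obtain ⟨T, hTC, hTX⟩ := exists_subst s hs00 hs0
  let K := adjoin k {u}
  have huK : u ∈ K := mem_adjoin_simple_self k u
  let u' : K := ⟨u, huK⟩
  obtain ⟨g, hgC, hgu⟩ : ∃ g : K →+* LaurentSeries k,
      (∀ b, g (algebraMap k K b) = HahnSeries.ofPowerSeries ℤ k (PowerSeries.C b)) ∧
      g u' = HahnSeries.ofPowerSeries ℤ k (PowerSeries.C a + PowerSeries.X) := by
    let a1 : Algebra k[X] K := ((aeval u' : k[X] →ₐ[k] K) : k[X] →+* K).toAlgebra
    have m1 : ∀ s : k[X], algebraMap k[X] K s = aeval u' s := fun _ => rfl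
    have m3 : ∀ s : k[X], ((aeval u' s : K) : L) = aeval u s := by
      intro s
      have h := Polynomial.aeval_algHom_apply K.val u' s
      exact h.symm
    have hinj' : Function.Injective (algebraMap k[X] K) := by
      intro x y hxy
      apply transcendental_iff_injective.1 hu
      have h1 := congrArg (fun z : K => (z : L)) hxy
      simp only [m1, m3] at h1
      exact h1
    have f0 : FaithfulSMul k[X] K := (faithfulSMul_iff_algebraMap_injective k[X] K).2 hinj'
    have f1 : IsFractionRing k[X] K := by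
      refine IsFractionRing.of_field k[X] K fun z => ?_
      obtain ⟨r, s, hrs⟩ := (mem_adjoin_simple_iff k (z : L)).1 z.2
      refine ⟨r, s, ?_⟩
      apply Subtype.ext
      rw [m1, m1]
      push_cast
      rw [m3, m3]
      exact hrs
    let g0 : k[X] →+* LaurentSeries k := (HahnSeries.ofPowerSeries ℤ k).comp (ev a)
    have hg0 : Function.Injective g0 := HahnSeries.ofPowerSeries_injective.comp (ev_inj a)
    refine ⟨IsFractionRing.lift (A := k[X]) (K := K) (g := g0) hg0, ?_, ?_⟩
    · intro b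
      have h1 := IsFractionRing.lift_algebraMap (K := K) hg0 (C b)
      rw [m1, aeval_C] at h1
      rw [h1]
      show HahnSeries.ofPowerSeries ℤ k (ev a (C b)) = _
      rw [ev_C]
    · have h1 := IsFractionRing.lift_algebraMap (K := K) hg0 X
      rw [m1, aeval_X] at h1
      rw [h1]
      show HahnSeries.ofPowerSeries ℤ k (ev a X) = _
      rw [ev_X]
  have hcomp : ∀ x : K, algebraMap (LaurentSeries k) (AlgebraicClosure (LaurentSeries k))
      (T (g x)) = h (x : L) := by
    rintro ⟨x, hx⟩
    refine adjoin_induction (F := k) (s := {u}) (p := fun z hz =>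
      algebraMap (LaurentSeries k) (AlgebraicClosure (LaurentSeries k)) (T (g ⟨z, hz⟩)) = h z)
      ?_ ?_ ?_ ?_ ?_ hx
    · intro x hx
      obtain rfl : x = u := hx
      show algebraMap _ _ (T (g u')) = _
      rw [hgu, hhu, map_add (HahnSeries.ofPowerSeries ℤ k), map_add T, hTC, hTX, pus_eq,
        map_add (pusH k), map_add]
      rfl
    · intro b
      show algebraMap _ _ (T (g (algebraMap k K b))) = _
      rw [hgC, hTC, hk]
      rfl
    · intro x y hx hy h1 h2
      have h3 : (⟨x + y, add_mem hx hy⟩ : K) = ⟨x, hx⟩ + ⟨y, hy⟩ := rfl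
      show algebraMap _ _ (T (g ⟨x + y, _⟩)) = _
      rw [h3, map_add g, map_add T, map_add (algebraMap _ _), h1, h2, map_add]
    · intro x hx h1
      have h3 : (⟨x⁻¹, inv_mem hx⟩ : K) = (⟨x, hx⟩ : K)⁻¹ := rfl
      show algebraMap _ _ (T (g ⟨x⁻¹, _⟩)) = _
      rw [h3, map_inv₀ g, map_inv₀ T, map_inv₀ (algebraMap _ _), h1, map_inv₀]
    · intro x y hx hy h1 h2
      have h3 : (⟨x * y, mul_mem hx hy⟩ : K) = ⟨x, hx⟩ * ⟨y, hy⟩ := rfl
      show algebraMap _ _ (T (g ⟨x * y, _⟩)) = _
      rw [h3, map_mul g, map_mul T, map_mul (algebraMap _ _), h1, h2, map_mul]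
  have hfd : FiniteDimensional K L := hfin
  have hint : IsIntegral K z := Algebra.IsIntegral.isIntegral z
  let P := minpoly K z
  have hroots : ∀ ρ : AlgebraicClosure (LaurentSeries k),
      (P.map g).eval₂ (algebraMap (LaurentSeries k) (AlgebraicClosure (LaurentSeries k))) ρ = 0 →
      ∃ l : LaurentSeries k, algebraMap _ (AlgebraicClosure (LaurentSeries k)) l = ρ := by
    intro ρ hρ
    let _ : Algebra K (AlgebraicClosure (LaurentSeries k)) :=
      ((algebraMap (LaurentSeries k) (AlgebraicClosure (LaurentSeries k))).comp g).toAlgebra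
    obtain ⟨φ, hφ⟩ := exists_algHom_of_splits_of_aeval (F := K) (E := L)
      (K := AlgebraicClosure (LaurentSeries k))
      (fun s => ⟨Algebra.IsIntegral.isIntegral s, IsAlgClosed.splits _⟩) (x := z) (y := ρ) (by
        rw [eval₂_map] at hρ
        exact hρ)
    have hφ2 : ∀ x : K, φ (x : L) = algebraMap _ (AlgebraicClosure (LaurentSeries k)) (g x) :=
      fun x => φ.commutes x
    obtain ⟨l, hl⟩ := hS PowerSeries.X (by exact_mod_cast PowerSeries.order_X) φ.toRingHom
      (fun b => by
        have h1 := hφ2 (algebraMap k K b)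
        rw [hgC] at h1
        exact h1) (by
        have h1 := hφ2 u'
        rw [hgu] at h1
        exact h1) z
    exact ⟨l, hl.symm.trans hφ⟩
  have hPm : (P.map g).Monic := (minpoly.monic hint).map g
  have hsp : (P.map g).Splits := by
    refine Splits.of_splits_map_of_injective (i := algebraMap (LaurentSeries k)
      (AlgebraicClosure (LaurentSeries k))) ?_ (IsAlgClosed.splits _) ?_
    · exact (algebraMap (LaurentSeries k) (AlgebraicClosure (LaurentSeries k))).injective
    · intro ρ hρ
      rw [mem_roots (Polynomial.map_ne_zero hPm.ne_zero)] at hρ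
      obtain ⟨l, hl⟩ := hroots ρ (by rw [← eval_map]; exact hρ)
      exact ⟨l, hl⟩
  have hsp2 : ((P.map g).map T).Splits := hsp.map T
  have hz : ((P.map g).map T).eval₂ (algebraMap (LaurentSeries k)
      (AlgebraicClosure (LaurentSeries k))) (h z) = 0 := by
    have h1 : ((algebraMap (LaurentSeries k) (AlgebraicClosure (LaurentSeries k))).comp T).comp g =
        h.comp (algebraMap K L) := RingHom.ext fun x => hcomp x
    rw [eval₂_map, eval₂_map, h1, ← hom_eval₂]
    have h2 : (P.eval₂ (algebraMap K L) z) = 0 := minpoly.aeval K z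
    rw [h2, map_zero]
  have hz2 : (((P.map g).map T).map (algebraMap (LaurentSeries k)
      (AlgebraicClosure (LaurentSeries k)))).IsRoot (h z) := by
    rw [IsRoot, eval_map]
    exact hz
  obtain ⟨l, hl⟩ := hsp2.mem_range_of_isRoot (hPm.map T).ne_zero hz2
  exact ⟨l, hl.symm⟩

theorem order_mul_unit {k : Type} [Field k] (s w : PowerSeries k)
    (hw : PowerSeries.constantCoeff w ≠ 0) : (s * w).order = s.order := by
  rw [PowerSeries.order_mul]
  have h1 : w.order = 0 := by
    have h := PowerSeries.order_eq_nat (φ := w) (n := 0)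
    rw [Nat.cast_zero] at h
    rw [h]
    exact ⟨by rw [PowerSeries.coeff_zero_eq_constantCoeff_apply]; exact hw, fun i hi => by omega⟩
  rw [h1, add_zero]

/-- inversion of series -/
theorem exists_inv {k : Type} [Field k] (P : PowerSeries k) (hP0 : PowerSeries.constantCoeff P = 0)
    (hP1 : PowerSeries.coeff 1 P ≠ 0) (s' : PowerSeries k)
    (hs' : PowerSeries.constantCoeff s' = 0) :
    ∃ s : PowerSeries k, PowerSeries.constantCoeff s = 0 ∧ s.order = s'.order ∧
      P.subst s = s' := by
  have hu : IsUnit (PowerSeries.coeff 1 P) := isUnit_iff_ne_zero.2 hP1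
  let Q := P.substInvOfIsUnit hu
  have hQ : P.subst Q = PowerSeries.X := PowerSeries.subst_substInvOfIsUnit_right P hP0 hu
  have hQs : PowerSeries.HasSubst Q := PowerSeries.HasSubst.substInvOfIsUnit P hu
  have hss' : PowerSeries.HasSubst s' := PowerSeries.HasSubst.of_constantCoeff_zero' hs'
  let s : PowerSeries k := Q.subst s'
  have hs0 : PowerSeries.constantCoeff s = 0 := PowerSeries.constantCoeff_subst_eq_zero hs' Q
    (PowerSeries.constantCoeff_substInvOfIsUnit P hu)
  have hss : PowerSeries.HasSubst s := PowerSeries.HasSubst.of_constantCoeff_zero' hs0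
  have h1 : P.subst s = s' := by
    have h2 := PowerSeries.subst_comp_subst_apply hQs hss' P
    rw [hQ, PowerSeries.subst_X hss'] at h2
    exact h2.symm
  obtain ⟨w, hw⟩ := PowerSeries.X_dvd_iff.2 hP0
  have hw0 : PowerSeries.constantCoeff w ≠ 0 := by
    intro h0
    apply hP1
    have h2 := PowerSeries.coeff_succ_X_mul 0 w
    rw [zero_add, PowerSeries.coeff_zero_eq_constantCoeff_apply, h0] at h2
    rw [hw, h2]
  have h2 : P.subst s = s * w.subst s := by
    rw [hw, PowerSeries.subst_mul hss, PowerSeries.subst_X hss]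
  have hws : PowerSeries.constantCoeff (w.subst s) ≠ 0 := by
    have h3 : w = PowerSeries.C (PowerSeries.constantCoeff w) +
        (w - PowerSeries.C (PowerSeries.constantCoeff w)) := by ring
    have h4 : w.subst s = (PowerSeries.C (PowerSeries.constantCoeff w)).subst s +
        (w - PowerSeries.C (PowerSeries.constantCoeff w)).subst s := by
      rw [← PowerSeries.subst_add hss, ← h3]
    have h5 : PowerSeries.constantCoeff
        ((w - PowerSeries.C (PowerSeries.constantCoeff w)).subst s) = 0 :=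
      PowerSeries.constantCoeff_subst_eq_zero hs0
        (w - PowerSeries.C (PowerSeries.constantCoeff w)) (by simp)
    rw [h4, map_add, h5, add_zero, PowerSeries.subst_C]
    intro h6
    apply hw0
    have h7 : PowerSeries.constantCoeff (PowerSeries.C (PowerSeries.constantCoeff w) :
        PowerSeries k) = 0 := h6
    rwa [PowerSeries.constantCoeff_C] at h7
  exact ⟨s, hs0, by rw [← order_mul_unit s _ hws, ← h2, h1], h1⟩

/-- evaluation at `a + s` -/
noncomputable def evs {k : Type} [Field k] (a : k) (s : PowerSeries k) : k[X] →+* PowerSeries k :=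
  Polynomial.eval₂RingHom (PowerSeries.C (R := k)) (PowerSeries.C a + s)

theorem constantCoeff_evs {k : Type} [Field k] (a : k) (s : PowerSeries k)
    (hs : PowerSeries.constantCoeff s = 0) (f : k[X]) :
    PowerSeries.constantCoeff (evs a s f) = f.eval a := by
  show PowerSeries.constantCoeff (f.eval₂ (PowerSeries.C (R := k)) (PowerSeries.C a + s)) = _
  rw [Polynomial.hom_eval₂, map_add, hs, add_zero, PowerSeries.constantCoeff_C]
  have h2 : (PowerSeries.constantCoeff (R := k)).comp (PowerSeries.C (R := k)) = RingHom.id k := by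
    ext x
    simp
  rw [h2]
  rfl

theorem subst_ev {k : Type} [Field k] (a : k) (s : PowerSeries k)
    (hs : PowerSeries.constantCoeff s = 0) (f : k[X]) :
    (ev a f).subst s = evs a s f := by
  have hss : PowerSeries.HasSubst s := PowerSeries.HasSubst.of_constantCoeff_zero' hs
  let T0 : PowerSeries k →+* PowerSeries k := (PowerSeries.substAlgHom (R := k) hss).toRingHom
  have hC : ∀ b, T0 (PowerSeries.C b) = PowerSeries.C b := fun b =>
    (PowerSeries.substAlgHom (R := k) hss).commutes b
  have hX : T0 PowerSeries.X = s := by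
    show PowerSeries.substAlgHom (R := k) hss PowerSeries.X = s
    rw [PowerSeries.coe_substAlgHom, PowerSeries.subst_X hss]
  have h1 : T0.comp (ev a) = evs a s := by
    apply Polynomial.ringHom_ext
    · intro b
      rw [RingHom.comp_apply, ev_C, hC]
      show _ = (C b : k[X]).eval₂ _ _
      rw [eval₂_C]
    · rw [RingHom.comp_apply, ev_X, map_add, hC, hX]
      show _ = (X : k[X]).eval₂ _ _
      rw [eval₂_X]
  have h2 := RingHom.congr_fun h1 f
  rw [← h2]
  show _ = PowerSeries.substAlgHom (R := k) hss (ev a f)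
  rw [PowerSeries.coe_substAlgHom]

theorem coeff_one_ev {k : Type} [Field k] (a : k) (f : k[X]) :
    PowerSeries.coeff 1 (ev a f) = (derivative f).eval a := by
  show PowerSeries.coeff 1 ((f.comp (X + C a) : k[X]) : PowerSeries k) = _
  rw [Polynomial.coeff_coe]
  have h := Polynomial.taylor_coeff_one a f
  rw [Polynomial.taylor_apply] at h
  exact h

theorem constantCoeff_ev {k : Type} [Field k] (a : k) (f : k[X]) :
    PowerSeries.constantCoeff (ev a f) = f.eval a := by
  rw [← PowerSeries.coeff_zero_eq_constantCoeff_apply]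
  show PowerSeries.coeff 0 ((f.comp (X + C a) : k[X]) : PowerSeries k) = _
  rw [Polynomial.coeff_coe]
  have h := Polynomial.taylor_coeff_zero a f
  rw [Polynomial.taylor_apply] at h
  exact h

theorem hom_aeval {k L : Type} [Field k] [Field L] [Algebra k L]
    (h : L →+* AlgebraicClosure (LaurentSeries k))
    (hk : ∀ b : k, h (algebraMap k L b) = pus (PowerSeries.C b)) (w : L) (a : k)
    (s : PowerSeries k) (hw : h w = pus (PowerSeries.C a + s)) (f : k[X]) :
    h (aeval w f) = pus (evs a s f) := by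
  have h1 : h.comp ((aeval w : k[X] →ₐ[k] L) : k[X] →+* L) = (pusH k).comp (evs a s) := by
    apply Polynomial.ringHom_ext
    · intro b
      show h (aeval w (C b)) = pusH k (evs a s (C b))
      rw [aeval_C, hk, pus_eq]
      congr 1
      show _ = (C b : k[X]).eval₂ _ _
      rw [eval₂_C]
    · show h (aeval w X) = pusH k (evs a s X)
      rw [aeval_X, hw, pus_eq]
      congr 1
      show _ = (X : k[X]).eval₂ _ _
      rw [eval₂_X]
  exact RingHom.congr_fun h1 f

theorem pusH_inj (k : Type) [Field k] : Function.Injective (pusH k) :=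
  (algebraMap (LaurentSeries k) (AlgebraicClosure (LaurentSeries k))).injective.comp
    HahnSeries.ofPowerSeries_injective

theorem rstep' (k E' E : Type) [Field k] [IsAlgClosed k] [CharZero k] [Field E'] [Field E]
    [Algebra k E'] [Algebra k E] [Algebra E' E] [IsScalarTower k E' E] (A B : k[X]) (w : E)
    (w' : E') (a : k) (hw' : Transcendental k w') (hfin : FiniteDimensional (adjoin k {w'}) E')
    (h2 : 1 ≤ max A.natDegree B.natDegree) (hAB : algebraMap E' E w' * aeval w B = aeval w A)
    (htop : adjoin E' {w} = ⊤) (hdeg : (minpoly E' w).natDegree = max A.natDegree B.natDegree)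
    (hBa : B.eval a ≠ 0) :
    (SpF k E' w' (A.eval a / B.eval a) → SpF k E w a) ∧
      ((derivative A * B - A * derivative B).eval a ≠ 0 → SpF k E w a →
        SpF k E' w' (A.eval a / B.eval a)) := by
  set b := A.eval a / B.eval a with hb
  have hnc : ∀ c : k, w' ≠ algebraMap k E' c := by
    rintro c rfl
    exact hw' (isAlgebraic_algebraMap c)
  constructor
  · intro hS s hs h hk hhw z
    have hs0 : PowerSeries.constantCoeff s = 0 := by
      rw [← PowerSeries.coeff_zero_eq_constantCoeff_apply]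
      exact (PowerSeries.order_eq_nat.1 (hs.trans Nat.cast_one.symm)).2 0 (by omega)
    have hBu : IsUnit (evs a s B) := PowerSeries.isUnit_iff_constantCoeff.2
      (isUnit_iff_ne_zero.2 (by rw [constantCoeff_evs a s hs0]; exact hBa))
    obtain ⟨Bi, hBi⟩ := hBu.exists_right_inv
    let r : PowerSeries k := evs a s A * Bi - PowerSeries.C b
    have hr0 : PowerSeries.constantCoeff r = 0 := by
      have h3 := congrArg PowerSeries.constantCoeff hBi
      rw [map_mul, constantCoeff_evs a s hs0, map_one] at h3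
      show PowerSeries.constantCoeff (evs a s A * Bi - PowerSeries.C b) = 0
      rw [map_sub, map_mul, constantCoeff_evs a s hs0, PowerSeries.constantCoeff_C, hb,
        sub_eq_zero, eq_div_iff hBa]
      linear_combination A.eval a * h3
    have hr : PowerSeries.C b + r = evs a s A * Bi := by
      show PowerSeries.C b + (evs a s A * Bi - PowerSeries.C b) = _
      ring
    have hw2 : h (algebraMap E' E w') = pus (PowerSeries.C b + r) := by
      have h3 := congrArg h hAB
      rw [map_mul, hom_aeval h hk w a s hhw, hom_aeval h hk w a s hhw] at h3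
      have h4 : pus (evs a s B) * pus Bi = 1 := by
        rw [pus_eq, pus_eq, ← map_mul, hBi, map_one]
      rw [hr, pus_eq, map_mul, ← pus_eq, ← pus_eq, ← h3, mul_assoc, h4, mul_one]
    have hrne : r ≠ 0 := by
      intro h0
      rw [h0, add_zero, ← hk b, IsScalarTower.algebraMap_apply k E' E] at hw2
      exact hnc b ((algebraMap E' E).injective (h.injective hw2))
    obtain ⟨e, he⟩ : ∃ e : ℕ, r.order = e := ⟨r.order.toNat, by
      rw [ENat.natCast_toNat]
      rw [Ne, PowerSeries.order_eq_top]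
      exact hrne⟩
    have he1 : 1 ≤ e := by
      by_contra hlt
      obtain rfl : e = 0 := by omega
      apply (PowerSeries.order_eq_nat.1 he).1
      rw [PowerSeries.coeff_zero_eq_constantCoeff_apply]
      exact hr0
    have h3 := spu k E' w' b hw' hfin hS e he1 r he (h.comp (algebraMap E' E)) (fun c => by
      rw [RingHom.comp_apply, ← IsScalarTower.algebraMap_apply k E' E, hk]) hw2
    let S := LS h
    have hz : z ∈ adjoin E' {w} := htop ▸ mem_top
    refine (mem_LS h z).1 ?_
    refine adjoin_induction (F := E') (s := {w}) (p := fun z _ => z ∈ LS h) ?_ ?_ ?_ ?_ ?_ hz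
    · intro x hx
      obtain rfl : x = w := hx
      rw [mem_LS, hhw]
      exact ⟨_, rfl⟩
    · exact fun x => (mem_LS h _).2 (h3 x)
    · exact fun x y _ _ hx hy => add_mem hx hy
    · exact fun x _ hx => inv_mem hx
    · exact fun x y _ _ hx hy => mul_mem hx hy
  · intro hcr hS s' hs' h' hk hhw z
    have hs0' : PowerSeries.constantCoeff s' = 0 := by
      rw [← PowerSeries.coeff_zero_eq_constantCoeff_apply]
      exact (PowerSeries.order_eq_nat.1 (hs'.trans Nat.cast_one.symm)).2 0 (by omega)
    have hBu : IsUnit (ev a B) := PowerSeries.isUnit_iff_constantCoeff.2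
      (isUnit_iff_ne_zero.2 (by rw [constantCoeff_ev]; exact hBa))
    obtain ⟨Bi, hBi⟩ := hBu.exists_right_inv
    obtain ⟨P, hPB⟩ : ∃ P : PowerSeries k, P * ev a B = ev a A - PowerSeries.C b * ev a B :=
      ⟨ev a A * Bi - PowerSeries.C b, by linear_combination ev a A * hBi⟩
    have hP0 : PowerSeries.constantCoeff P = 0 := by
      have h3 := congrArg PowerSeries.constantCoeff hPB
      rw [map_mul, map_sub, map_mul, constantCoeff_ev, constantCoeff_ev,
        PowerSeries.constantCoeff_C, hb, div_mul_cancel₀ _ hBa, sub_self] at h3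
      exact (mul_eq_zero.1 h3).resolve_right hBa
    have hco : ∀ f g : PowerSeries k, PowerSeries.coeff 1 (f * g) =
        PowerSeries.coeff 1 f * PowerSeries.constantCoeff g +
          PowerSeries.constantCoeff f * PowerSeries.coeff 1 g := by
      intro f g
      rw [PowerSeries.coeff_mul, Finset.Nat.antidiagonal_succ, Finset.sum_cons,
        Finset.Nat.antidiagonal_zero]
      simp
      ring
    have hP1 : PowerSeries.coeff 1 P ≠ 0 := by
      have h3 := congrArg (PowerSeries.coeff 1) hPB
      rw [map_sub, hco, hco, hP0, coeff_one_ev, coeff_one_ev, constantCoeff_ev,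
        PowerSeries.constantCoeff_C, PowerSeries.coeff_C, if_neg one_ne_zero] at h3
      intro h0
      rw [h0] at h3
      apply hcr
      rw [eval_sub, eval_mul, eval_mul]
      have h4 : b * B.eval a = A.eval a := by rw [hb, div_mul_cancel₀ _ hBa]
      linear_combination (-B.eval a) * h3 + (derivative B).eval a * h4
    obtain ⟨s, hs0, hso, hPs⟩ := exists_inv P hP0 hP1 s' hs0'
    have hss : PowerSeries.HasSubst s := PowerSeries.HasSubst.of_constantCoeff_zero' hs0
    have hkey : evs a s A = (PowerSeries.C b + s') * evs a s B := by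
      have h3 : (P * ev a B).subst s = (ev a A - PowerSeries.C b * ev a B).subst s := by rw [hPB]
      rw [PowerSeries.subst_mul hss, PowerSeries.subst_sub hss, PowerSeries.subst_mul hss, hPs,
        subst_ev a s hs0, subst_ev a s hs0, PowerSeries.subst_C] at h3
      have h4 : (MvPowerSeries.C b : PowerSeries k) = PowerSeries.C b := rfl
      rw [h4] at h3
      linear_combination -h3
    -- the minimal polynomial
    let R : E'[X] := A.map (algebraMap k E') - C w' * B.map (algebraMap k E')
    set q := max A.natDegree B.natDegree with hq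
    have hRq : R.coeff q ≠ 0 := by
      show (A.map (algebraMap k E') - C w' * B.map (algebraMap k E')).coeff q ≠ 0
      rw [coeff_sub, coeff_map, coeff_C_mul, coeff_map]
      intro h0
      by_cases hBq : B.coeff q = 0
      · rw [hBq, map_zero, mul_zero, sub_zero, map_eq_zero] at h0
        have h3 : q = A.natDegree ∨ q = B.natDegree := by
          rcases le_total A.natDegree B.natDegree with h5 | h5
          · right; rw [hq, max_eq_right h5]
          · left; rw [hq, max_eq_left h5]
        rcases h3 with h3 | h3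
        · rw [h3] at h0
          have h4 : A = 0 := leadingCoeff_eq_zero.1 h0
          have h5 : A.natDegree = 0 := by rw [h4, natDegree_zero]
          omega
        · rw [h3] at hBq
          have h4 : B = 0 := leadingCoeff_eq_zero.1 hBq
          have h5 : B.natDegree = 0 := by rw [h4, natDegree_zero]
          omega
      · apply hnc (A.coeff q / B.coeff q)
        rw [map_div₀, eq_div_iff (by rwa [Ne, map_eq_zero])]
        rw [sub_eq_zero] at h0
        exact h0.symm
    have hRd : R.natDegree ≤ q := by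
      refine (natDegree_sub_le _ _).trans (max_le ?_ ?_)
      · exact natDegree_map_le.trans (le_max_left _ _)
      · exact (natDegree_C_mul_le _ _).trans (natDegree_map_le.trans (le_max_right _ _))
    have hR0 : R ≠ 0 := by
      intro h0
      rw [h0, coeff_zero] at hRq
      exact hRq rfl
    have hRw : aeval w R = 0 := by
      show aeval w (A.map (algebraMap k E') - C w' * B.map (algebraMap k E')) = 0
      rw [map_sub, map_mul, aeval_C, aeval_map_algebraMap, aeval_map_algebraMap, hAB, sub_self]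
    have hint : IsIntegral E' w := isAlgebraic_iff_isIntegral.1 ⟨R, hR0, hRw⟩
    obtain ⟨c, hc⟩ := minpoly.dvd E' w hRw
    have hc0 : c ≠ 0 := by
      rintro rfl
      rw [mul_zero] at hc
      exact hR0 hc
    have hcd : c.natDegree = 0 := by
      have h3 := congrArg natDegree hc
      rw [natDegree_mul (minpoly.ne_zero hint) hc0, hdeg] at h3
      omega
    have hcC : c = C (c.coeff 0) := eq_C_of_natDegree_eq_zero hcd
    have hcc : c.coeff 0 ≠ 0 := by
      intro h0
      rw [h0, C_0] at hcC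
      exact hc0 hcC
    let _ : Algebra E' (AlgebraicClosure (LaurentSeries k)) := h'.toAlgebra
    have hkf : ∀ f : k[X], eval₂ (h'.comp (algebraMap k E')) (pus (PowerSeries.C a + s)) f =
        pus (evs a s f) := by
      intro f
      have h3 : h'.comp (algebraMap k E') = (pusH k).comp (PowerSeries.C (R := k)) :=
        RingHom.ext fun x => hk x
      rw [h3, pus_eq, ← hom_eval₂]
      rfl
    have hRa : R.eval₂ h' (pus (PowerSeries.C a + s)) = 0 := by
      show (A.map (algebraMap k E') - C w' * B.map (algebraMap k E')).eval₂ h' _ = 0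
      rw [eval₂_sub, eval₂_mul, eval₂_C, eval₂_map, eval₂_map, hkf, hkf, hhw, hkey, pus_eq, pus_eq,
        pus_eq, map_mul, sub_self]
    have hy : aeval (pus (PowerSeries.C a + s)) (minpoly E' w) = 0 := by
      have h3 : (minpoly E' w * c).eval₂ h' (pus (PowerSeries.C a + s)) = 0 := by
        rw [← hc]
        exact hRa
      rw [hcC, eval₂_mul, eval₂_C, mul_eq_zero] at h3
      exact h3.resolve_right fun h4 => hcc ((map_eq_zero h').1 h4)
    obtain ⟨φ, hφ⟩ := exists_algHom_of_adjoin_splits_of_aeval (F := E') (E := E)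
      (K := AlgebraicClosure (LaurentSeries k)) (S := {w})
      (fun s hs => by
        obtain rfl : s = w := hs
        exact ⟨hint, IsAlgClosed.splits _⟩) htop hy
    have hφ2 : ∀ x : E', φ (algebraMap E' E x) = h' x := fun x => φ.commutes x
    obtain ⟨l, hl⟩ := hS s (hso.trans hs') φ.toRingHom (fun c => by
      have h3 := hφ2 (algebraMap k E' c)
      rw [← IsScalarTower.algebraMap_apply k E' E, hk] at h3
      exact h3) hφ (algebraMap E' E z)
    exact ⟨l, (hφ2 z).symm.trans hl⟩

theorem rstep : RstepStatement := by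
  intro k E' E _ _ _ _ _ _ _ _ _ A B w w' a hw' hfin hcop h2 hAB htop hdeg hBa
  exact rstep' k E' E A B w w' a hw' hfin (by omega) hAB htop hdeg hBa

end R47

end Pool.DynLehmer.UN

end

section

/-! # Ramification rows for rational maps: the tower -/

namespace Pool.DynLehmer.UN
open Polynomial IntermediateField

/-- the map `A / B` on the projective line `Option k` (`none` is the point at infinity) -/
noncomputable def rmap {k : Type} [Field k] (A B : k[X]) : Option k → Option k
  | some a => open scoped Classical in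
    if B.eval a = 0 then none else some (A.eval a / B.eval a)
  | none => open scoped Classical in
    if B.coeff (max A.natDegree B.natDegree) = 0 then none else
      some (A.coeff (max A.natDegree B.natDegree) / B.coeff (max A.natDegree B.natDegree))

/-- the critical points of `A / B` -/
def rcrit {k : Type} [Field k] (A B : k[X]) : Option k → Prop
  | some a => (derivative A * B - A * derivative B).eval a = 0
  | none => A.coeff (max A.natDegree B.natDegree - 1) * B.coeff (max A.natDegree B.natDegree) =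
      A.coeff (max A.natDegree B.natDegree) * B.coeff (max A.natDegree B.natDegree - 1)

/-- there is a finite set `S` of at least two points with `F(S) ⊆ S` such that all points of
`F⁻¹(S)` which are not in `S` are critical -/
def RSpecial {k : Type} [Field k] (A B : k[X]) : Prop :=
  ∃ S : Set (Option k), S.Finite ∧ S.Nontrivial ∧ (∀ x ∈ S, rmap A B x ∈ S) ∧
    ∀ x, rmap A B x ∈ S → x ∈ S ∨ rcrit A B x

/-- Row RTOWER. -/
def RtowerStatement : Prop :=
  ∀ (k N : Type) [Field k] [IsAlgClosed k] [CharZero k] [Field N] [Algebra k N] (A B : k[X])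
    (M : ℕ) (φ : N →ₐ[k] N) (E : ℕ → IntermediateField k N) (u : ℕ → N), IsCoprime A B →
    2 ≤ max A.natDegree B.natDegree → ¬ RSpecial A B → 1 ≤ M → Transcendental k (u 0) →
    FiniteDimensional (adjoin k {u 0}) N → (∀ j, u (j + 1) * aeval (u j) B = aeval (u j) A) →
    (∀ j, E j = E (j + 1) ⊔ adjoin k {u j}) → (∀ j, u (j + 1) ∈ E (j + 1)) →
    (∀ j, (minpoly (E (j + 1)) (u j)).natDegree = max A.natDegree B.natDegree) →
    (∀ j, E (j + M) = (E j).map φ) → (∀ j, u (j + M) = φ (u j)) → ∀ j, E j = adjoin k {u j}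

namespace R47

/-- unramified at a point of the projective line -/
def Unr (k L : Type) [Field k] [Field L] [Algebra k L] (u : L) : Option k → Prop
  | some a => SpF k L u a
  | none => SpF k L u⁻¹ 0

theorem tr_inv {k L : Type} [Field k] [Field L] [Algebra k L] {u : L} (hu : Transcendental k u) :
    Transcendental k u⁻¹ := fun h => hu (by simpa using h.inv)

theorem adj_inv {k L : Type} [Field k] [Field L] [Algebra k L] (u : L) :
    adjoin k {u⁻¹} = adjoin k {u} := by
  apply le_antisymm
  · rw [adjoin_simple_le_iff]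
    exact inv_mem (mem_adjoin_simple_self k u)
  · rw [adjoin_simple_le_iff]
    have h := inv_mem (mem_adjoin_simple_self k u⁻¹)
    rwa [inv_inv] at h

theorem fin_congr {k L : Type} [Field k] [Field L] [Algebra k L] {u w : L}
    (h : adjoin k {u} = adjoin k {w}) (hu : FiniteDimensional (adjoin k {u}) L) :
    FiniteDimensional (adjoin k {w}) L := by
  rw [← h]
  exact hu

theorem deg_eq {E' E : Type} [Field E'] [Field E] [Algebra E' E] {w v : E}
    (hw : adjoin E' {w} = ⊤) (hv : adjoin E' {v} = ⊤) (hwi : IsIntegral E' w) :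
    (minpoly E' v).natDegree = (minpoly E' w).natDegree := by
  have h1 : FiniteDimensional E' (adjoin E' {w}) := adjoin.finiteDimensional hwi
  have h2 : FiniteDimensional E' E := by
    rw [hw] at h1
    exact Module.Finite.equiv (topEquiv (F := E') (E := E)).toLinearEquiv
  have hvi : IsIntegral E' v := Algebra.IsIntegral.isIntegral v
  rw [← adjoin.finrank hvi, ← adjoin.finrank hwi, hv, hw]

/-- evaluation of the reversed polynomial -/
theorem aeval_reflect {k L : Type} [Field k] [Field L] [Algebra k L] (u : L) (hu : u ≠ 0)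
    (q : ℕ) (f : k[X]) (hf : f.natDegree ≤ q) :
    aeval u⁻¹ (reflect q f) * u ^ q = aeval u f := by
  let _ : Invertible u := invertibleOfNonzero hu
  have h := eval₂_reflect_mul_pow (algebraMap k L) u q f hf
  rw [invOf_eq_inv] at h
  exact h

theorem natDegree_reflect_le {k : Type} [Field k] (q : ℕ) (f : k[X]) (hf : f.natDegree ≤ q) :
    (reflect q f).natDegree ≤ q := by
  rw [natDegree_le_iff_coeff_eq_zero]
  intro n hn
  rw [coeff_reflect, revAt_eq_self_of_lt hn]
  exact coeff_eq_zero_of_natDegree_lt (lt_of_le_of_lt hf hn)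

theorem coeff_refl {k : Type} [Field k] (q i : ℕ) (hi : i ≤ q) (f : k[X]) :
    (reflect q f).coeff i = f.coeff (q - i) := by
  rw [coeff_reflect, revAt_le hi]

theorem max_reflect {k : Type} [Field k] (A B : k[X]) (h : IsCoprime A B) :
    max (reflect (max A.natDegree B.natDegree) A).natDegree
      (reflect (max A.natDegree B.natDegree) B).natDegree = max A.natDegree B.natDegree := by
  set q := max A.natDegree B.natDegree
  apply le_antisymm
  · exact max_le (natDegree_reflect_le q A (le_max_left _ _))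
      (natDegree_reflect_le q B (le_max_right _ _))
  · have h0 : A.coeff 0 ≠ 0 ∨ B.coeff 0 ≠ 0 := by
      by_contra hcon
      push Not at hcon
      obtain ⟨a, b, hab⟩ := h
      have h1 := congrArg (fun f : k[X] => f.coeff 0) hab
      simp only [coeff_add, mul_coeff_zero, hcon.1, hcon.2, mul_zero, add_zero, coeff_one_zero]
        at h1
      exact zero_ne_one h1
    rcases h0 with h0 | h0
    · refine le_max_of_le_left (le_natDegree_of_ne_zero ?_)
      rw [coeff_refl q q le_rfl, Nat.sub_self]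
      exact h0
    · refine le_max_of_le_right (le_natDegree_of_ne_zero ?_)
      rw [coeff_refl q q le_rfl, Nat.sub_self]
      exact h0

theorem eval_zero_reflect {k : Type} [Field k] (q : ℕ) (f : k[X]) :
    (reflect q f).eval 0 = f.coeff q := by
  rw [← coeff_zero_eq_eval_zero, coeff_refl q 0 (Nat.zero_le q), Nat.sub_zero]

theorem eval_zero_der_reflect {k : Type} [Field k] (q : ℕ) (hq : 1 ≤ q) (f : k[X]) :
    (derivative (reflect q f)).eval 0 = f.coeff (q - 1) := by
  rw [← coeff_zero_eq_eval_zero, coeff_derivative, coeff_refl q (0 + 1) hq]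
  simp

/-- one step of the tower at all points of the projective line -/
theorem chart {k E' E : Type} [Field k] [IsAlgClosed k] [CharZero k] [Field E'] [Field E]
    [Algebra k E'] [Algebra k E] [Algebra E' E] [IsScalarTower k E' E] (A B : k[X]) (u : E)
    (u' : E') (hu : Transcendental k u) (hu' : Transcendental k u')
    (hfin : FiniteDimensional (adjoin k {u'}) E') (hcop : IsCoprime A B)
    (h2 : 1 ≤ max A.natDegree B.natDegree) (hAB : algebraMap E' E u' * aeval u B = aeval u A)
    (htop : adjoin E' {u} = ⊤) (hdeg : (minpoly E' u).natDegree = max A.natDegree B.natDegree)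
    (x : Option k) :
    (Unr k E' u' (rmap A B x) → Unr k E u x) ∧
      (¬ rcrit A B x → Unr k E u x → Unr k E' u' (rmap A B x)) := by
  have hu0 : u ≠ 0 := by
    rintro rfl
    exact hu isAlgebraic_zero
  have hu'0 : u' ≠ 0 := by
    rintro rfl
    exact hu' isAlgebraic_zero
  have hfin' : FiniteDimensional (adjoin k {u'⁻¹}) E' := fin_congr (adj_inv u').symm hfin
  have hint : IsIntegral E' u := by
    by_contra h
    rw [minpoly.eq_zero h, natDegree_zero] at hdeg
    omega
  have htop' : adjoin E' {u⁻¹} = ⊤ := by rw [adj_inv, htop]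
  have hdeg' : (minpoly E' u⁻¹).natDegree = max A.natDegree B.natDegree := by
    rw [deg_eq htop htop' hint, hdeg]
  have hBA : algebraMap E' E u'⁻¹ * aeval u A = aeval u B := by
    rw [← hAB, map_inv₀, ← mul_assoc, inv_mul_cancel₀ (by rwa [Ne, map_eq_zero]), one_mul]
  set q := max A.natDegree B.natDegree with hq
  have hqA : A.natDegree ≤ q := le_max_left _ _
  have hqB : B.natDegree ≤ q := le_max_right _ _
  have hrA := aeval_reflect u hu0 q A hqA
  have hrB := aeval_reflect u hu0 q B hqB
  have hup : u ^ q ≠ 0 := pow_ne_zero _ hu0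
  have hABr : algebraMap E' E u' * aeval u⁻¹ (reflect q B) = aeval u⁻¹ (reflect q A) := by
    apply mul_right_cancel₀ hup
    rw [mul_assoc, hrB, hrA, hAB]
  have hBAr : algebraMap E' E u'⁻¹ * aeval u⁻¹ (reflect q A) = aeval u⁻¹ (reflect q B) := by
    apply mul_right_cancel₀ hup
    rw [mul_assoc, hrB, hrA, hBA]
  have hcomm : max B.natDegree A.natDegree = q := max_comm _ _
  cases x with
  | some a =>
    by_cases hB : B.eval a = 0
    · have hA : A.eval a ≠ 0 := by
        intro hA
        obtain ⟨f, g, hfg⟩ := hcop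
        have h1 := congrArg (eval a) hfg
        rw [eval_add, eval_mul, eval_mul, hA, hB, mul_zero, mul_zero, add_zero, eval_one] at h1
        exact zero_ne_one h1
      have h1 : rmap A B (some a) = none := by
        simp [rmap, hB]
      rw [h1]
      have h3 := rstep' k E' E B A u u'⁻¹ a (tr_inv hu') hfin' (by rw [hcomm]; exact h2) hBA htop
        (by rw [hcomm]; exact hdeg) hA
      rw [hB, zero_div] at h3
      refine ⟨h3.1, fun hc => h3.2 fun h4 => hc ?_⟩
      show (derivative A * B - A * derivative B).eval a = 0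
      rw [← neg_eq_zero, ← h4, ← eval_neg]
      congr 1
      ring
    · have h1 : rmap A B (some a) = some (A.eval a / B.eval a) := by
        simp [rmap, hB]
      rw [h1]
      exact rstep' k E' E A B u u' a hu' hfin h2 hAB htop hdeg hB
  | none =>
    have hmr := max_reflect A B hcop
    rw [← hq] at hmr
    by_cases hB : B.coeff q = 0
    · have hA : A.coeff q ≠ 0 := by
        intro hA
        rcases le_total A.natDegree B.natDegree with h5 | h5
        · have h6 : q = B.natDegree := max_eq_right h5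
          rw [h6] at hB
          have h7 : B = 0 := leadingCoeff_eq_zero.1 hB
          rw [h7, natDegree_zero] at h6
          omega
        · have h6 : q = A.natDegree := max_eq_left h5
          rw [h6] at hA
          have h7 : A = 0 := leadingCoeff_eq_zero.1 hA
          rw [h7, natDegree_zero] at h6
          omega
      have h1 : rmap A B none = none := by
        simp [rmap, ← hq, hB]
      rw [h1]
      have h3 := rstep' k E' E (reflect q B) (reflect q A) u⁻¹ u'⁻¹ 0 (tr_inv hu') hfin'
        (by rw [max_comm, hmr]; exact h2) hBAr htop' (by rw [max_comm, hmr]; exact hdeg')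
        (by rw [eval_zero_reflect]; exact hA)
      rw [eval_zero_reflect, eval_zero_reflect, hB, zero_div] at h3
      refine ⟨h3.1, fun hc => h3.2 fun h4 => hc ?_⟩
      show A.coeff (q - 1) * B.coeff q = A.coeff q * B.coeff (q - 1)
      rw [eval_sub, eval_mul, eval_mul, eval_zero_der_reflect q h2, eval_zero_der_reflect q h2,
        eval_zero_reflect, eval_zero_reflect] at h4
      linear_combination -h4
    · have h1 : rmap A B none = some (A.coeff q / B.coeff q) := by
        simp [rmap, ← hq, hB]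
      rw [h1]
      have h3 := rstep' k E' E (reflect q A) (reflect q B) u⁻¹ u' 0 hu' hfin
        (by rw [hmr]; exact h2) hABr htop' (by rw [hmr]; exact hdeg')
        (by rw [eval_zero_reflect]; exact hB)
      rw [eval_zero_reflect, eval_zero_reflect] at h3
      refine ⟨h3.1, fun hc => h3.2 fun h4 => hc ?_⟩
      show A.coeff (q - 1) * B.coeff q = A.coeff q * B.coeff (q - 1)
      rw [eval_sub, eval_mul, eval_mul, eval_zero_der_reflect q h2, eval_zero_der_reflect q h2,
        eval_zero_reflect, eval_zero_reflect] at h4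
      linear_combination h4

theorem self_top {L : Type} [Field L] (w : L) : adjoin L {w} = ⊤ := by
  rw [eq_top_iff]
  intro z _
  exact (adjoin L {w}).algebraMap_mem z

theorem self_deg {L : Type} [Field L] (w : L) : (minpoly L w).natDegree = 1 := by
  have h := minpoly.eq_X_sub_C L w
  have h2 : (minpoly L (algebraMap L L w)) = minpoly L w := rfl
  rw [h2] at h
  rw [h, natDegree_X_sub_C]

/-- change of the coordinate -/
theorem moebius {k L : Type} [Field k] [IsAlgClosed k] [CharZero k] [Field L] [Algebra k L]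
    (A B : k[X]) (w w' : L) (a : k) (hw' : Transcendental k w')
    (hfin : FiniteDimensional (adjoin k {w'}) L) (h1 : max A.natDegree B.natDegree = 1)
    (hAB : w' * aeval w B = aeval w A) (hBa : B.eval a ≠ 0)
    (hW : (derivative A * B - A * derivative B).eval a ≠ 0) (h : SpF k L w a) :
    SpF k L w' (A.eval a / B.eval a) :=
  (rstep' k L L A B w w' a hw' hfin (by omega) hAB (self_top w) (by rw [self_deg, h1])
    hBa).2 hW h

/-- a function field which is unramified outside one point is rational -/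
theorem one_point {k L : Type} [Field k] [IsAlgClosed k] [CharZero k] [Field L] [Algebra k L]
    (u : L) (hu : Transcendental k u) (hfin : FiniteDimensional (adjoin k {u}) L) (x₀ : Option k)
    (h : ∀ x, x ≠ x₀ → Unr k L u x) : adjoin k {u} = ⊤ := by
  have key : ∀ w : L, Transcendental k w → FiniteDimensional (adjoin k {w}) L →
      (∀ a : k, SpF k L w a) → adjoin k {w} = ⊤ := by
    intro w hw hf ha
    obtain ⟨D, hD⟩ := p2e k L w hw hf
    exact p3 k L w D hw hf hD (p2d k L w D hw hf hD ha)
  cases x₀ with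
  | none => exact key u hu hfin fun a => h (some a) (by simp)
  | some c =>
    have huc : u - algebraMap k L c ≠ 0 := by
      intro h0
      rw [sub_eq_zero] at h0
      exact hu (h0 ▸ isAlgebraic_algebraMap c)
    have hu0 : u ≠ 0 := by
      rintro rfl
      exact hu isAlgebraic_zero
    let w : L := (u - algebraMap k L c)⁻¹
    have hadj : adjoin k {w} = adjoin k {u} := by
      show adjoin k {(u - algebraMap k L c)⁻¹} = _
      rw [adj_inv]
      apply le_antisymm
      · rw [adjoin_simple_le_iff]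
        exact sub_mem (mem_adjoin_simple_self k u) ((adjoin k {u}).algebraMap_mem c)
      · rw [adjoin_simple_le_iff]
        have h3 := add_mem (mem_adjoin_simple_self k (u - algebraMap k L c))
          ((adjoin k {u - algebraMap k L c}).algebraMap_mem c)
        rwa [sub_add_cancel] at h3
    have hwt : Transcendental k w := by
      apply tr_inv
      intro h3
      apply hu
      have h4 := h3.add (isAlgebraic_algebraMap (A := L) c)
      rwa [sub_add_cancel] at h4
    have hwf : FiniteDimensional (adjoin k {w}) L := fin_congr hadj.symm hfin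
    rw [← hadj]
    refine key w hwt hwf fun b => ?_
    by_cases hb : b = 0
    · subst hb
      have h3 : SpF k L u⁻¹ 0 := h none (by simp)
      have h4 := moebius X (1 - C c * X) u⁻¹ w 0 hwt hwf (by
          rw [natDegree_X]
          apply max_eq_left
          refine (natDegree_sub_le _ _).trans (max_le (by simp) ?_)
          exact (natDegree_C_mul_le _ _).trans natDegree_X_le) (by
          show (u - algebraMap k L c)⁻¹ * _ = _
          rw [map_sub, map_one, map_mul, aeval_C, aeval_X, inv_mul_eq_iff_eq_mul₀ huc]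
          field_simp) (by simp) (by simp) h3
      simpa using h4
    · have h3 : SpF k L u (c + 1 / b) := h (some (c + 1 / b)) (by
        intro h4
        have h5 : c + 1 / b = c := Option.some.inj h4
        rw [add_eq_left, one_div, inv_eq_zero] at h5
        exact hb h5)
      have h4 := moebius (1 : k[X]) (X - C c) u w (c + 1 / b) hwt hwf (by
          rw [natDegree_X_sub_C, natDegree_one]
          rfl) (by
          show (u - algebraMap k L c)⁻¹ * _ = _
          rw [map_sub, map_one, aeval_C, aeval_X, inv_mul_cancel₀ huc]) (by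
          rw [eval_sub, eval_X, eval_C, add_sub_cancel_left]
          exact one_div_ne_zero hb) (by
          simp) h3
      have h5 : (1 : k[X]).eval (c + 1 / b) / (X - C c).eval (c + 1 / b) = b := by
        rw [eval_one, eval_sub, eval_X, eval_C, add_sub_cancel_left, one_div_one_div]
      rwa [h5] at h4

theorem unr_finite {k L : Type} [Field k] [IsAlgClosed k] [CharZero k] [Field L] [Algebra k L]
    (u : L) (hu : Transcendental k u) (hfin : FiniteDimensional (adjoin k {u}) L) :
    {x : Option k | ¬ Unr k L u x}.Finite := by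
  have h1 : {a : k | ¬ SpF k L u a}.Finite := P2b69.p2b p2h k L u hu hfin
  refine ((h1.image some).union (Set.finite_singleton none)).subset ?_
  intro x hx
  cases x with
  | none => exact Or.inr rfl
  | some a => exact Or.inl ⟨a, hx, rfl⟩

theorem spF_map {k L L' : Type} [Field k] [Field L] [Algebra k L] [Field L'] [Algebra k L']
    (e : L ≃ₐ[k] L') (u : L) (a : k) (H : SpF k L u a) : SpF k L' (e u) a :=
  (spE_one _ _).1 (spE_transport e u a 1 ((spE_one _ _).2 H))

theorem unr_map {k L L' : Type} [Field k] [Field L] [Algebra k L] [Field L'] [Algebra k L']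
    (e : L ≃ₐ[k] L') (u : L) (x : Option k) : Unr k L' (e u) x ↔ Unr k L u x := by
  have key : ∀ {L L' : Type} [Field L] [Algebra k L] [Field L'] [Algebra k L']
      (e : L ≃ₐ[k] L') (u : L) (x : Option k), Unr k L u x → Unr k L' (e u) x := by
    intro L L' _ _ _ _ e u x h
    cases x with
    | some a => exact spF_map e u a h
    | none =>
      have h1 := spF_map e u⁻¹ 0 h
      rw [map_inv₀] at h1
      exact h1
  constructor
  · intro h
    have h1 := key e.symm (e u) x h
    rwa [e.symm_apply_apply] at h1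
  · exact key e u x

theorem fin_step {k N : Type} [Field k] [Field N] [Algebra k N] (u v : N) (A B : k[X])
    (h2 : 1 ≤ max A.natDegree B.natDegree) (hvt : Transcendental k v) (hB : aeval u B ≠ 0)
    (hv : v * aeval u B = aeval u A) (H : FiniteDimensional (adjoin k {u}) N) :
    FiniteDimensional (adjoin k {v}) N := by
  let K1 := adjoin k {v}
  let K2' : IntermediateField K1 N := adjoin K1 {u}
  have hmem : ∀ f : k[X], aeval u f ∈ adjoin k {u} := by
    intro f
    have h : aeval u f = algebraMap (adjoin k {u}) N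
        (aeval (⟨u, mem_adjoin_simple_self k u⟩ : adjoin k {u}) f) := by
      rw [← aeval_algebraMap_apply]
      rfl
    rw [h]
    exact SetLike.coe_mem _
  have hvu : v ∈ adjoin k {u} := by
    have h : v = aeval u A / aeval u B := by rw [← hv, mul_div_assoc, div_self hB, mul_one]
    rw [h]
    exact div_mem (hmem A) (hmem B)
  have heq : adjoin k {u} = K2'.restrictScalars k := by
    rw [adjoin_adjoin_left]
    apply le_antisymm
    · exact adjoin.mono k _ _ (by simp)
    · rw [adjoin_le_iff]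
      rintro z (hz | hz)
      · rw [Set.mem_singleton_iff.1 hz]; exact hvu
      · rw [Set.mem_singleton_iff.1 hz]; exact mem_adjoin_simple_self k u
  let e : adjoin k {u} ≃ₐ[k] (K2'.restrictScalars k) := equivOfEq heq
  have h2' : Module.Finite K2' N :=
    Module.Finite.of_equiv_equiv (A₁ := adjoin k {u}) (B₁ := N) (A₂ := K2') (B₂ := N)
      (e : adjoin k {u} ≃+* (K2'.restrictScalars k)) (RingEquiv.refl N) (by
        ext z
        rfl)
  have halg : IsAlgebraic K1 u := by
    let v' : K1 := ⟨v, mem_adjoin_simple_self k v⟩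
    refine ⟨A.map (algebraMap k K1) - C v' * B.map (algebraMap k K1), ?_, ?_⟩
    · intro h0
      have hco := congrArg (fun f : K1[X] => f.coeff (max A.natDegree B.natDegree)) h0
      simp only [coeff_sub, coeff_map, coeff_C_mul, coeff_zero] at hco
      set q := max A.natDegree B.natDegree with hq
      by_cases hBq : B.coeff q = 0
      · rw [hBq, map_zero, mul_zero, sub_zero, map_eq_zero] at hco
        rcases le_total A.natDegree B.natDegree with h5 | h5
        · have h6 : q = B.natDegree := max_eq_right h5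
          rw [h6] at hBq
          have h7 : B = 0 := leadingCoeff_eq_zero.1 hBq
          rw [h7, natDegree_zero] at h6
          omega
        · have h6 : q = A.natDegree := max_eq_left h5
          rw [h6] at hco
          have h7 : A = 0 := leadingCoeff_eq_zero.1 hco
          rw [h7, natDegree_zero] at h6
          omega
      · have h5 : v' = algebraMap k K1 (A.coeff q / B.coeff q) := by
          rw [map_div₀, eq_div_iff (by rwa [Ne, map_eq_zero])]
          rw [sub_eq_zero] at hco
          exact hco.symm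
        have h6 : v = algebraMap k N (A.coeff q / B.coeff q) :=
          congrArg (fun z : K1 => (z : N)) h5
        exact hvt (h6 ▸ isAlgebraic_algebraMap _)
    · have h4 : (algebraMap K1 N) v' = v := rfl
      rw [map_sub, map_mul, aeval_C, h4, aeval_map_algebraMap, aeval_map_algebraMap, hv, sub_self]
  have h1 : FiniteDimensional K1 K2' := adjoin.finiteDimensional halg.isIntegral
  exact FiniteDimensional.trans K1 K2' N

theorem rtower : RtowerStatement := by
  intro k N _ _ _ _ _ A B M φ E u hcop hq hns hM hu0 hfin0 hus hEs huE hdeg hEM huM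
  have hBu : ∀ z : N, Transcendental k z → aeval z B ≠ 0 := by
    intro z hz h0
    have hB0 : B = 0 := by
      by_contra hne
      exact hz ⟨B, hne, h0⟩
    rw [hB0, isCoprime_zero_right] at hcop
    rw [hB0, natDegree_zero, natDegree_eq_zero_of_isUnit hcop] at hq
    simp at hq
  have hstep : ∀ z v : N, Transcendental k z → v * aeval z B = aeval z A →
      Transcendental k v := by
    intro z v hz hv halg
    obtain ⟨P, hP0, hP⟩ := halg
    obtain ⟨c, hc⟩ := (IsAlgClosed.splits P).mem_range_of_isRoot hP0 (i := algebraMap k N)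
      (x := v) (by rw [IsRoot, eval_map]; exact hP)
    have h1 : A = C c * B := by
      by_contra hne
      apply hz
      refine ⟨A - C c * B, sub_ne_zero.2 hne, ?_⟩
      rw [map_sub, map_mul, aeval_C, hc, hv, sub_self]
    have h2 : IsUnit B := hcop.isUnit_of_dvd' ⟨C c, by rw [h1, mul_comm]⟩ dvd_rfl
    have h3 : B.natDegree = 0 := natDegree_eq_zero_of_isUnit h2
    have h4 : A.natDegree ≤ 0 := by
      rw [h1, ← h3]
      exact natDegree_C_mul_le _ _
    rw [h3] at hq
    have h5 : max A.natDegree 0 ≤ 0 := max_le h4 le_rfl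
    omega
  have hself : ∀ j, u j ∈ E j := by
    intro j
    rw [hEs j]
    exact (le_sup_right : adjoin k {u j} ≤ _) (mem_adjoin_simple_self k (u j))
  have htr : ∀ j, Transcendental k (u j) := by
    intro j
    induction j with
    | zero => exact hu0
    | succ j ih => exact hstep (u j) (u (j + 1)) ih (hus j)
  have hfinj : ∀ j, FiniteDimensional (adjoin k {u j}) N := by
    intro j
    induction j with
    | zero => exact hfin0
    | succ j ih =>
      exact fin_step (u j) (u (j + 1)) A B (by omega) (htr (j + 1)) (hBu _ (htr j)) (hus j) ih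
  let U : ∀ j, E j := fun j => ⟨u j, hself j⟩
  have hfinE : ∀ j, FiniteDimensional (adjoin k {U j}) (E j) :=
    fun j => tq_fin_down (E j) (u j) (hself j) (hfinj j)
  have htrE : ∀ j, Transcendental k (U j) := by
    intro j h
    exact htr j (h.algebraMap (A := N))
  have hper : ∀ j x, Unr k (E (j + M)) (U (j + M)) x ↔ Unr k (E j) (U j) x := by
    intro j x
    let e : E j ≃ₐ[k] E (j + M) := ((E j).equivMap φ).trans (equivOfEq (hEM j).symm)
    have heU : e (U j) = U (j + M) := by
      apply Subtype.ext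
      change φ (u j) = u (j + M)
      exact (huM j).symm
    rw [← heU]
    exact unr_map e (U j) x
  have hle : ∀ j, E (j + 1) ≤ E j := fun j => by
    rw [hEs j]
    exact le_sup_left
  have hchart : ∀ (j : ℕ) (x : Option k),
      (Unr k (E (j + 1)) (U (j + 1)) (rmap A B x) → Unr k (E j) (U j) x) ∧
      (¬ rcrit A B x → Unr k (E j) (U j) x → Unr k (E (j + 1)) (U (j + 1)) (rmap A B x)) := by
    intro j x
    let _ : Algebra (E (j + 1)) (E j) := (inclusion (hle j)).toRingHom.toAlgebra
    have _ : IsScalarTower k (E (j + 1)) (E j) := IsScalarTower.of_algebraMap_eq (fun x => rfl)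
    have _ : IsScalarTower (E (j + 1)) (E j) N := IsScalarTower.of_algebraMap_eq (fun x => rfl)
    have h1 : algebraMap (E (j + 1)) (E j) (U (j + 1)) * aeval (U j) B = aeval (U j) A := by
      apply Subtype.ext
      change u (j + 1) * (algebraMap (E j) N) (aeval (U j) B) =
        (algebraMap (E j) N) (aeval (U j) A)
      rw [← aeval_algebraMap_apply, ← aeval_algebraMap_apply]
      exact hus j
    have h2 : (minpoly (E (j + 1)) (U j)).natDegree = max A.natDegree B.natDegree := by
      rw [← hdeg j]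
      congr 1
      exact (minpoly.algebraMap_eq (A := E (j + 1)) (algebraMap (E j) N).injective (U j)).symm
    have h4 : adjoin (E (j + 1)) {U j} = ⊤ := by
      rw [eq_top_iff]
      intro z _
      let S : IntermediateField k N :=
        ((adjoin (E (j + 1)) {U j}).restrictScalars k).map (E j).val
      have hS : E j ≤ S := by
        rw [hEs j]
        refine sup_le ?_ ?_
        · intro w hw
          refine ⟨algebraMap (E (j + 1)) (E j) ⟨w, hw⟩, ?_, rfl⟩
          exact (adjoin (E (j + 1)) {U j}).algebraMap_mem ⟨w, hw⟩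
        · rw [adjoin_le_iff]
          intro w hw
          rw [Set.mem_singleton_iff.1 hw]
          exact ⟨U j, mem_adjoin_simple_self (E (j + 1)) (U j), rfl⟩
      obtain ⟨w, hw, hwz⟩ := hS z.2
      have : w = z := Subtype.ext hwz
      rw [← this]
      exact hw
    exact chart A B (U j) (U (j + 1)) (htrE j) (htrE (j + 1)) (hfinE (j + 1)) hcop (by omega) h1
      h4 h2 x
  -- the set of the ramified points
  let S : Set (Option k) := {x | ∃ j, ¬ Unr k (E j) (U j) x}
  have hSfin : S.Finite := by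
    have h1 : S ⊆ ⋃ j ∈ Finset.range M, {x | ¬ Unr k (E j) (U j) x} := by
      rintro x ⟨j, hj⟩
      have hp : Function.Periodic (fun j => Unr k (E j) (U j) x) M := fun j =>
        propext (hper j x)
      have h3 := hp.map_mod_nat j
      simp only [Set.mem_iUnion, Finset.mem_range]
      refine ⟨j % M, Nat.mod_lt _ (by omega), ?_⟩
      show ¬ Unr k (E (j % M)) (U (j % M)) x
      intro h4
      exact hj (h3 ▸ h4)
    refine Set.Finite.subset ?_ h1
    exact (Finset.range M).finite_toSet.biUnion fun j _ => unr_finite (U j) (htrE j) (hfinE j)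
  have hS1 : ∀ x ∈ S, rmap A B x ∈ S := by
    rintro x ⟨j, hj⟩
    exact ⟨j + 1, fun h => hj ((hchart j x).1 h)⟩
  have hS2 : ∀ x, rmap A B x ∈ S → x ∈ S ∨ rcrit A B x := by
    rintro x ⟨j, hj⟩
    by_contra hcon
    push Not at hcon
    obtain ⟨j', hj'⟩ : ∃ j', j + M = j' + 1 := ⟨j + M - 1, by omega⟩
    apply hj
    rw [← hper j, hj']
    refine (hchart j' x).2 hcon.2 ?_
    by_contra h
    exact hcon.1 ⟨j', h⟩
  have hsub : S.Subsingleton := by
    rw [← Set.not_nontrivial_iff]
    exact fun h => hns ⟨S, hSfin, h, hS1, hS2⟩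
  obtain ⟨x₀, hx₀⟩ : ∃ x₀, ∀ x, x ≠ x₀ → x ∉ S := by
    rcases Set.eq_empty_or_nonempty S with h | ⟨x₀, h⟩
    · exact ⟨none, fun x _ hx => by rw [h] at hx; exact hx⟩
    · exact ⟨x₀, fun x hx hxS => hx (hsub hxS h)⟩
  intro j
  have h1 : adjoin k {U j} = ⊤ := one_point (U j) (htrE j) (hfinE j) x₀ fun x hx => by
    by_contra h
    exact hx₀ x hx ⟨j, h⟩
  have h2 := tq_map_adjoin (E j) (u j) (hself j)
  rw [← h2]
  have h3 : adjoin k {(⟨u j, hself j⟩ : E j)} = ⊤ := h1
  rw [h3]
  apply le_antisymm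
  · intro z hz
    exact ⟨⟨z, hz⟩, mem_top, rfl⟩
  · rintro z ⟨w, -, rfl⟩
    exact w.2

end R47

end Pool.DynLehmer.UN

end

section

/-!
# Periodic pairs of a rational function `f`: degrees of the fields `k(x_i, y_j)`
-/

namespace Pool.DynLehmer.UN.Ra21
open Polynomial IntermediateField

section
variable {k L : Type} [Field k] [Field L] [Algebra k L]

/-- The relative degree of a field generated by finitely many algebraic elements is not `0`. -/
theorem rel_ne_zero (A : IntermediateField k L) (S : Set L) (hS : S.Finite)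
    (hA : A ≤ adjoin k S) (halg : ∀ x ∈ S, IsAlgebraic A x) : relfinrank A (adjoin k S) ≠ 0 := by
  rw [relfinrank_eq_finrank_of_le hA, extendScalars_adjoin]
  have : Finite S := hS
  have : FiniteDimensional A (adjoin A S) := by
    apply finiteDimensional_adjoin
    intro x hx
    exact (halg x hx).isIntegral
  exact Module.finrank_pos.ne'

theorem rel_sup_le (C A B : IntermediateField k L) (hA : C ≤ A) (hB : C ≤ B) :
    relfinrank C (A ⊔ B) ≤ relfinrank C A * relfinrank C B := by
  rw [relfinrank_eq_finrank_of_le (hA.trans le_sup_left), relfinrank_eq_finrank_of_le hA,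
    relfinrank_eq_finrank_of_le hB]
  have h := finrank_sup_le (extendScalars hA) (extendScalars hB)
  rw [extendScalars_sup] at h
  exact h

variable (f : RatFunc k)

/-- the embedding of the rational functions -/
noncomputable def io {z : L} (hz : Transcendental k z) : RatFunc k →ₐ[k] L :=
  IsFractionRing.liftAlgHom (K := RatFunc k) (g := (aeval z : k[X] →ₐ[k] L))
    (transcendental_iff_injective.1 hz)

theorem io_map {z : L} (hz : Transcendental k z) (f : k[X]) :
    io hz (algebraMap k[X] (RatFunc k) f) = aeval z f := by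
  rw [io, IsFractionRing.liftAlgHom_apply, IsFractionRing.lift_algebraMap]
  rfl

theorem io_X {z : L} (hz : Transcendental k z) : io hz RatFunc.X = z := by
  rw [← RatFunc.algebraMap_X, io_map, aeval_X]

/-- the value of a rational function -/
noncomputable def rv (f : RatFunc k) (z : L) : L := RatFunc.eval (algebraMap k L) z f

/-- the degree of a rational function -/
noncomputable def dg (f : RatFunc k) : ℕ := max f.num.natDegree f.denom.natDegree

theorem rv_eq (f : RatFunc k) (z : L) : rv f z = aeval z f.num / aeval z f.denom := by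
  unfold rv RatFunc.eval
  rw [aeval_def, aeval_def]

theorem io_rv {z : L} (hz : Transcendental k z) (f : RatFunc k) : io hz f = rv f z := by
  rw [rv_eq, ← io_map hz, ← io_map hz, ← map_div₀, RatFunc.num_div_denom]

/-- `[k(z) : k(f(z))] = deg f` -/
theorem rel_f {z : L} (hz : Transcendental k z) :
    relfinrank (adjoin k {rv f z}) (adjoin k {z}) = dg f := by
  have h1 : adjoin k {z} = (⊤ : IntermediateField k (RatFunc k)).map (io hz) := by
    rw [← RatFunc.adjoin_X, adjoin_map, Set.image_singleton, io_X]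
  have h2 : adjoin k {rv f z} = (adjoin k {f}).map (io hz) := by
    rw [adjoin_map, Set.image_singleton, io_rv]
  rw [h1, h2, relfinrank_map_map, relfinrank_top_right, RatFunc.finrank_eq_max_natDegree, dg]

theorem rv_mem (A : IntermediateField k L) (z : L) (hz : z ∈ A) : rv f z ∈ A := by
  have h1 := fun P : k[X] => Polynomial.aeval_algebraMap_apply L (⟨z, hz⟩ : A) P
  have h2 : ∀ P : k[X], aeval z P ∈ A := by
    intro P
    have h3 : aeval z P = ((aeval (⟨z, hz⟩ : A) P : A) : L) := h1 P
    rw [h3]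
    exact SetLike.coe_mem _
  rw [rv_eq]
  exact div_mem (h2 _) (h2 _)

theorem rv_hom {L' : Type} [Field L'] [Algebra k L'] (g : L →ₐ[k] L') (z : L) :
    g (rv f z) = rv f (g z) := by
  rw [rv_eq, rv_eq, map_div₀, Polynomial.aeval_algHom_apply, Polynomial.aeval_algHom_apply]

theorem trans_f (hf : dg f ≠ 0) (z : L) (hz : Transcendental k z) :
    Transcendental k (rv f z) := by
  intro h0
  apply hz
  have h1 : adjoin k {rv f z} ≤ adjoin k {z} := by
    rw [adjoin_simple_le_iff]
    exact rv_mem f _ _ (mem_adjoin_simple_self k z)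
  have h2 : IsAlgebraic (adjoin k {rv f z}) z := by
    have h3 := rel_f f hz
    rw [relfinrank_eq_finrank_of_le h1] at h3
    have h4 : FiniteDimensional (adjoin k {rv f z}) (extendScalars h1) :=
      Module.finite_of_finrank_pos (by rw [h3]; exact Nat.pos_of_ne_zero hf)
    have h5 := IsIntegral.of_finite (adjoin k {rv f z})
      (⟨z, mem_adjoin_simple_self k z⟩ : extendScalars h1)
    exact (h5.map (extendScalars h1).val).isAlgebraic
  have h6 : Algebra.IsAlgebraic k (adjoin k {rv f z}) :=
    isAlgebraic_adjoin_simple h0.isIntegral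
  exact h2.restrictScalars k

/-- the points `x_i` -/
noncomputable def it (x : L) (i : ℕ) : L := (rv f)^[i] x

theorem it_succ (x : L) (i : ℕ) : it f x (i + 1) = rv f (it f x i) := by
  unfold it
  rw [Function.iterate_succ_apply']

theorem it_add (x : L) (i j : ℕ) : it f (it f x j) i = it f x (j + i) := by
  unfold it
  rw [add_comm, Function.iterate_add_apply]

/-- the field `k(x_i)` -/
noncomputable def Ki (x : L) (i : ℕ) : IntermediateField k L := adjoin k {it f x i}

/-- the field `k(x_i, y_j)` -/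
noncomputable def Bij (x y : L) (i j : ℕ) : IntermediateField k L := adjoin k {it f x i, it f y j}

/-- the degree of `y_j` over `k(x_i)` -/
noncomputable def mij (x y : L) (i j : ℕ) : ℕ := relfinrank (Ki f x i) (Bij f x y i j)

theorem mem_Ki (x : L) (i : ℕ) : it f x i ∈ Ki f x i := mem_adjoin_simple_self k _

theorem memx_Bij (x y : L) (i j : ℕ) : it f x i ∈ Bij f x y i j :=
  subset_adjoin k _ (Set.mem_insert _ _)

theorem memy_Bij (x y : L) (i j : ℕ) : it f y j ∈ Bij f x y i j :=
  subset_adjoin k _ (Set.mem_insert_of_mem _ rfl)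

theorem fz_mem (A : IntermediateField k L) (z : L) (hz : z ∈ A) : rv f z ∈ A := rv_mem f A z hz

theorem Ki_le (x : L) (i : ℕ) (A : IntermediateField k L) (h : it f x i ∈ A) : Ki f x i ≤ A := by
  unfold Ki
  rw [adjoin_simple_le_iff]
  exact h

theorem Bij_le (x y : L) (i j : ℕ) (A : IntermediateField k L) (h : it f x i ∈ A)
    (h' : it f y j ∈ A) : Bij f x y i j ≤ A := by
  unfold Bij
  rw [adjoin_le_iff]
  intro z hz
  rcases hz with hz | hz
  · rw [hz]; exact h
  · rw [Set.mem_singleton_iff.1 hz]; exact h'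

theorem Ki_anti (x : L) (i : ℕ) : Ki f x (i + 1) ≤ Ki f x i := by
  apply Ki_le
  rw [it_succ]
  exact fz_mem f _ _ (mem_Ki f x i)

theorem Ki_le_Bij (x y : L) (i j : ℕ) : Ki f x i ≤ Bij f x y i j :=
  Ki_le f x i _ (memx_Bij f x y i j)

theorem Bij_anti_i (x y : L) (i j : ℕ) : Bij f x y (i + 1) j ≤ Bij f x y i j := by
  apply Bij_le
  · rw [it_succ]
    exact fz_mem f _ _ (memx_Bij f x y i j)
  · exact memy_Bij f x y i j

theorem Bij_anti_j (x y : L) (i j : ℕ) : Bij f x y i (j + 1) ≤ Bij f x y i j := by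
  apply Bij_le
  · exact memx_Bij f x y i j
  · rw [it_succ]
    exact fz_mem f _ _ (memy_Bij f x y i j)

theorem Bij_le_zero (x y : L) (i j : ℕ) : Bij f x y i j ≤ Bij f x y 0 0 := by
  induction i with
  | zero =>
    induction j with
    | zero => exact le_refl _
    | succ j ih => exact (Bij_anti_j f x y 0 j).trans ih
  | succ i ih => exact (Bij_anti_i f x y i j).trans ih

theorem Bij_eq_sup (x y : L) (i j : ℕ) :
    Bij f x y i j = Ki f x i ⊔ Bij f x y (i + 1) j := by
  apply le_antisymm
  · apply Bij_le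
    · exact (le_sup_left : _ ≤ Ki f x i ⊔ Bij f x y (i + 1) j) (mem_Ki f x i)
    · exact (le_sup_right : _ ≤ Ki f x i ⊔ Bij f x y (i + 1) j) (memy_Bij f x y (i + 1) j)
  · exact sup_le (Ki_le_Bij f x y i j) (Bij_anti_i f x y i j)

theorem trans_iter (hf : dg f ≠ 0) (i : ℕ) (z : L) (hz : Transcendental k z) :
    Transcendental k (it f z i) := by
  induction i with
  | zero => exact hz
  | succ n ih =>
    rw [it_succ]
    exact trans_f f hf _ ih

theorem d_eq (hf : dg f ≠ 0) (x : L) (hx : Transcendental k x) (i : ℕ) :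
    relfinrank (Ki f x (i + 1)) (Ki f x i) = dg f := by
  unfold Ki
  rw [it_succ]
  exact rel_f f (trans_iter f hf i x hx)

theorem T_base (x y : L) (hy : IsAlgebraic (adjoin k {x}) y) :
    relfinrank (Ki f x 0) (Bij f x y 0 0) ≠ 0 := by
  apply rel_ne_zero (Ki f x 0) {it f x 0, it f y 0} (Set.toFinite _) (Ki_le_Bij f x y 0 0)
  intro z hz
  rcases hz with hz | hz
  · rw [hz]
    exact isAlgebraic_algebraMap (⟨_, mem_Ki f x 0⟩ : Ki f x 0)
  · rw [Set.mem_singleton_iff.1 hz]
    exact hy

theorem T_ne_zero (hf : dg f ≠ 0) (x y : L) (hx : Transcendental k x) (hy : relfinrank (Ki f x 0) (Bij f x y 0 0) ≠ 0)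
    (i : ℕ) : relfinrank (Ki f x i) (Bij f x y 0 0) ≠ 0 := by
  induction i with
  | zero => exact hy
  | succ n ih =>
    rw [← relfinrank_mul_relfinrank (Ki_anti f x n)
      ((Ki_le_Bij f x y n 0).trans (Bij_le_zero f x y n 0))]
    rw [d_eq f hf x hx]
    exact mul_ne_zero hf ih

theorem m_ne_zero (hf : dg f ≠ 0) (x y : L) (hx : Transcendental k x) (hy : relfinrank (Ki f x 0) (Bij f x y 0 0) ≠ 0) (i j : ℕ) :
    mij f x y i j ≠ 0 := by
  have h1 := T_ne_zero f hf x y hx hy i
  rw [← relfinrank_mul_relfinrank (Ki_le_Bij f x y i j) (Bij_le_zero f x y i j)] at h1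
  exact left_ne_zero_of_mul h1

theorem rel_B_ne_zero (hf : dg f ≠ 0) (x y : L) (hx : Transcendental k x) (hy : relfinrank (Ki f x 0) (Bij f x y 0 0) ≠ 0) (i j : ℕ)
    (A : IntermediateField k L) (h1 : Ki f x i ≤ A) (h2 : A ≤ Bij f x y i j) :
    relfinrank A (Bij f x y i j) ≠ 0 := by
  have h3 := m_ne_zero f hf x y hx hy i j
  unfold mij at h3
  rw [← relfinrank_mul_relfinrank h1 h2] at h3
  exact right_ne_zero_of_mul h3

theorem m_anti_j (hf : dg f ≠ 0) (x y : L) (hx : Transcendental k x) (hy : relfinrank (Ki f x 0) (Bij f x y 0 0) ≠ 0) (i j : ℕ) :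
    mij f x y i (j + 1) ≤ mij f x y i j := by
  have h1 := relfinrank_mul_relfinrank (Ki_le_Bij f x y i (j + 1)) (Bij_anti_j f x y i j)
  have h2 := rel_B_ne_zero f hf x y hx hy i j _ (Ki_le_Bij f x y i (j + 1)) (Bij_anti_j f x y i j)
  unfold mij
  rw [← h1]
  exact Nat.le_mul_of_pos_right _ (Nat.pos_of_ne_zero h2)

theorem B_eq_of_m_eq (hf : dg f ≠ 0) (x y : L) (hx : Transcendental k x) (hy : relfinrank (Ki f x 0) (Bij f x y 0 0) ≠ 0) (i j : ℕ)
    (h : mij f x y i (j + 1) = mij f x y i j) : Bij f x y i j ≤ Bij f x y i (j + 1) := by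
  have h1 := relfinrank_mul_relfinrank (Ki_le_Bij f x y i (j + 1)) (Bij_anti_j f x y i j)
  have h2 := m_ne_zero f hf x y hx hy i (j + 1)
  rw [← relfinrank_eq_one_iff]
  unfold mij at h h2
  rw [← h] at h1
  exact Nat.eq_of_mul_eq_mul_left (Nat.pos_of_ne_zero h2) (by rw [h1, mul_one])

theorem m_mono_i (hf : dg f ≠ 0) (x y : L) (hx : Transcendental k x) (i j : ℕ) :
    mij f x y i j ≤ mij f x y (i + 1) j := by
  have h1 := relfinrank_mul_relfinrank (Ki_anti f x i) (Ki_le_Bij f x y i j)
  have h2 := rel_sup_le (Ki f x (i + 1)) (Ki f x i) (Bij f x y (i + 1) j) (Ki_anti f x i)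
    (Ki_le_Bij f x y (i + 1) j)
  rw [← Bij_eq_sup, ← h1] at h2
  exact Nat.le_of_mul_le_mul_left h2 (by rw [d_eq f hf x hx]; exact Nat.pos_of_ne_zero hf)

/-- the degree of one step of the tower -/
theorem rel_step (hf : dg f ≠ 0) (x y : L) (hx : Transcendental k x)
    (hy : relfinrank (Ki f x 0) (Bij f x y 0 0) ≠ 0) (i j j' : ℕ)
    (h : mij f x y (i + 1) j' = mij f x y i j) (hle : Bij f x y (i + 1) j' ≤ Bij f x y i j) :
    relfinrank (Bij f x y (i + 1) j') (Bij f x y i j) = dg f := by
  have h1 := relfinrank_mul_relfinrank (Ki_anti f x i) (Ki_le_Bij f x y i j)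
  have h2 := relfinrank_mul_relfinrank (Ki_le_Bij f x y (i + 1) j') hle
  have h3 := m_ne_zero f hf x y hx hy i j
  unfold mij at h h3
  rw [← h2, h, d_eq f hf x hx, mul_comm (dg f)] at h1
  exact (Nat.eq_of_mul_eq_mul_left (Nat.pos_of_ne_zero h3) h1).symm

end

section
variable {k L : Type} [Field k] [Field L] [Algebra k L] (f : RatFunc k) (φ : L →ₐ[k] L)

theorem phi_it {L' : Type} [Field L'] [Algebra k L'] (g : L →ₐ[k] L') (x : L) (i : ℕ) :
    g (it f x i) = it f (g x) i := by
  induction i with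
  | zero => rfl
  | succ n ih => rw [it_succ, it_succ, rv_hom, ih]

variable (M : ℕ) (x y : L) (hφx : φ x = it f x M) (hφy : φ y = it f y M)

include hφx in
theorem phi_x (i : ℕ) : φ (it f x i) = it f x (i + M) := by
  rw [phi_it, hφx, it_add, add_comm]

include hφx in
theorem Ki_map (i : ℕ) : (Ki f x i).map φ = Ki f x (i + M) := by
  unfold Ki
  rw [adjoin_map, Set.image_singleton, phi_x f φ M x hφx]

include hφx hφy in
theorem Bij_map (i j : ℕ) : (Bij f x y i j).map φ = Bij f x y (i + M) (j + M) := by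
  unfold Bij
  rw [adjoin_map, Set.image_pair, phi_x f φ M x hφx, phi_x f φ M y hφy]

include hφx hφy in
theorem m_shift (i j : ℕ) : mij f x y (i + M) (j + M) = mij f x y i j := by
  unfold mij
  rw [← Ki_map f φ M x hφx, ← Bij_map f φ M x y hφx hφy, relfinrank_map_map]

include hφx hφy in
/-- Far above the diagonal the degree is constant. -/
theorem exists_const (hf : dg f ≠ 0) (hx : Transcendental k x) (hM : 1 ≤ M) (hy : relfinrank (Ki f x 0) (Bij f x y 0 0) ≠ 0) :
    ∃ m J : ℕ, ∀ i j, i + J ≤ j → mij f x y i j = m := by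
  have hex : ∃ m, ∃ j, mij f x y 0 j = m := ⟨_, 0, rfl⟩
  classical
  obtain ⟨j₀, hj₀⟩ := Nat.find_spec hex
  set m := Nat.find hex with hm
  have hmin : ∀ i j, m ≤ mij f x y i j := by
    intro i j
    have h0 : mij f x y 0 j ≤ mij f x y i j := by
      induction i with
      | zero => exact le_refl _
      | succ n ih => exact ih.trans (m_mono_i f hf x y hx n j)
    exact (Nat.find_min' hex ⟨j, rfl⟩).trans h0
  have hantij : ∀ i j l, mij f x y i (j + l) ≤ mij f x y i j := by
    intro i j l
    induction l with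
    | zero => exact le_refl _
    | succ n ih => exact (m_anti_j f hf x y hx hy i (j + n)).trans ih
  have hmonoi : ∀ i j l, mij f x y i j ≤ mij f x y (i + l) j := by
    intro i j l
    induction l with
    | zero => exact le_refl _
    | succ n ih => exact ih.trans (m_mono_i f hf x y hx (i + n) j)
  have hq : ∀ q j, j₀ ≤ j → mij f x y (q * M) (j + q * M) = m := by
    intro q j hj
    induction q with
    | zero =>
      rw [Nat.zero_mul, add_zero]
      obtain ⟨l, rfl⟩ := Nat.exists_eq_add_of_le hj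
      apply le_antisymm _ (hmin _ _)
      rw [← hj₀]
      exact hantij 0 j₀ l
    | succ q ih =>
      rw [Nat.succ_mul, ← add_assoc, m_shift f φ M x y hφx hφy]
      exact ih
  refine ⟨m, M + j₀, fun i j hij => le_antisymm ?_ (hmin i j)⟩
  -- the next multiple of `M`
  have h1 : i ≤ (i / M + 1) * M := by
    have := Nat.lt_div_mul_add (a := i) (b := M) (by omega)
    rw [Nat.add_mul, one_mul]
    omega
  have h2 : (i / M + 1) * M ≤ i + M := by
    have := Nat.div_mul_le_self i M
    rw [Nat.add_mul, one_mul]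
    omega
  obtain ⟨l, hl⟩ := Nat.exists_eq_add_of_le h1
  have h3 := hmonoi i j l
  rw [← hl] at h3
  obtain ⟨l', hl'⟩ := Nat.exists_eq_add_of_le (show (i / M + 1) * M ≤ j by omega)
  rw [hl'] at h3 ⊢
  rw [add_comm _ l'] at h3 ⊢
  rw [hq _ l' (by omega)] at h3
  exact h3

end

end Pool.DynLehmer.UN.Ra21

end

section

/-! ### Relative degrees -/

namespace Pool.DynLehmer.UN.Ra21
open Polynomial IntermediateField

section
variable {k L : Type} [Field k] [Field L] [Algebra k L]

/-- the degree of `E(u)` over `E` -/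
theorem relfinrank_sup_adjoin (E : IntermediateField k L) {u : L} (hu : IsIntegral E u) :
    relfinrank E (E ⊔ adjoin k {u}) = (minpoly E u).natDegree := by
  rw [← adjoin.finrank hu, relfinrank_eq_finrank_of_le le_sup_left]
  have h : extendScalars (le_sup_left : E ≤ E ⊔ adjoin k {u}) = adjoin E {u} := by
    apply restrictScalars_injective k
    rw [extendScalars_restrictScalars, restrictScalars_adjoin_eq_sup]
  rw [h]

/-- an element of an extension of finite relative degree is integral -/
theorem integral_of_rel (E E' : IntermediateField k L) (h : E ≤ E') (h0 : relfinrank E E' ≠ 0)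
    (u : L) (hu : u ∈ E') : IsIntegral E u := by
  rw [relfinrank_eq_finrank_of_le h] at h0
  have hfin : FiniteDimensional E (extendScalars h) :=
    Module.finite_of_finrank_pos (Nat.pos_of_ne_zero h0)
  have h6 := IsIntegral.of_finite E (⟨u, hu⟩ : extendScalars h)
  exact h6.map (extendScalars h).val

end


end Pool.DynLehmer.UN.Ra21

end

section

/-!
# Periodic pairs of a rational function: the tower of a pair with an endomorphism
-/

namespace Pool.DynLehmer.UN.Ra21
open Polynomial IntermediateField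

/-- The tower of fields `E j = k(u_j, w_j)` over the orbits `u`, `w` of `f`, with an endomorphism
`φ` of period `M`. -/
structure TowS {k L : Type} [Field k] [Field L] [Algebra k L] (f : RatFunc k) (M : ℕ) (φ : L →ₐ[k] L)
    (E : ℕ → IntermediateField k L) (u w : ℕ → L) : Prop where
  tr : Transcendental k (u 0)
  fin : FiniteDimensional (adjoin k {u 0}) L
  top : E 0 = ⊤
  gen : ∀ j, E j = adjoin k {u j, w j}
  uf : ∀ j, u (j + 1) = rv f (u j)
  wf : ∀ j, w (j + 1) = rv f (w j)
  sup : ∀ j, E j = E (j + 1) ⊔ adjoin k {u j}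
  rel : ∀ j, relfinrank (E (j + 1)) (E j) = dg f
  deg : ∀ j, (minpoly (E (j + 1)) (u j)).natDegree = dg f
  per : ∀ j, E (j + M) = (E j).map φ
  pu : ∀ j, u (j + M) = φ (u j)
  pw : ∀ j, w (j + M) = φ (w j)

/-- Far above the diagonal the fields `k(x_j, y_(n + j))` form a tower. -/
theorem exists_tow {k L : Type} [Field k] [Field L] [Algebra k L] (f : RatFunc k) (M : ℕ) (x y : L)
    (φ : L →ₐ[k] L) (hf : dg f ≠ 0) (hM : 1 ≤ M) (hx : Transcendental k x)
    (hy : relfinrank (Ki f x 0) (Bij f x y 0 0) ≠ 0) (hφx : φ x = it f x M)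
    (hφy : φ y = it f y M) :
    ∃ (n : ℕ) (A : IntermediateField k L) (ψ : A →ₐ[k] A) (E : ℕ → IntermediateField k A)
      (u w : ℕ → A), TowS f M ψ E u w ∧ (∀ j, (u j : L) = it f x j) ∧
      (∀ j, (w j : L) = it f y (n + j)) ∧ (∀ z : A, ((ψ z : A) : L) = φ z) := by
  obtain ⟨m, J, hJ⟩ := exists_const f φ M x y hφx hφy hf hx hM hy
  set n := J * M with hn
  have hJM : J ≤ n := Nat.le_mul_of_pos_right J hM
  set A : IntermediateField k L := Bij f x y 0 n with hA
  have hle : ∀ i j, Bij f x y i (n + j) ≤ A := by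
    intro i j
    induction i with
    | zero =>
      induction j with
      | zero => exact le_refl _
      | succ j ih => exact (Bij_anti_j f x y 0 (n + j)).trans ih
    | succ i ih => exact (Bij_anti_i f x y i (n + j)).trans ih
  have hxA : ∀ j, it f x j ∈ A := fun j => hle j 0 (memx_Bij f x y j (n + 0))
  have hyA : ∀ j, it f y (n + j) ∈ A := fun j => hle 0 j (memy_Bij f x y 0 (n + j))
  set u : ℕ → A := fun j => ⟨it f x j, hxA j⟩ with hu
  set v : ℕ → A := fun j => ⟨it f y (n + j), hyA j⟩ with hv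
  have hAmap : A.map φ ≤ A := by
    have h1 : A.map φ = Bij f x y (0 + M) (n + M) := by
      rw [hA, Bij_map f φ M x y hφx hφy]
    rw [h1]
    exact hle _ _
  have hφA : ∀ z : A, φ z ∈ A := fun z => hAmap ⟨z, z.2, rfl⟩
  set ψ : A →ₐ[k] A := (φ.comp A.val).codRestrict A.toSubalgebra hφA with hψ
  have hψu : ∀ j, ψ (u j) = u (j + M) := by
    intro j
    apply Subtype.ext
    exact phi_x f φ M x hφx j
  have hψv : ∀ j, ψ (v j) = v (j + M) := by
    intro j
    apply Subtype.ext
    have := phi_x f φ M y hφy (n + j)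
    rw [add_assoc] at this
    exact this
  set E : ℕ → IntermediateField k A := fun j => adjoin k {u j, v j} with hE
  have hEmap : ∀ j, (E j).map A.val = Bij f x y j (n + j) := by
    intro j
    simp only [hE]
    rw [adjoin_map, Set.image_pair]
    rfl
  have hKmap : ∀ j, (adjoin k {u j}).map A.val = Ki f x j := by
    intro j
    rw [adjoin_map, Set.image_singleton]
    rfl
  have htop : E 0 = ⊤ := by
    apply IntermediateField.map_injective A.val
    rw [hEmap, ← AlgHom.fieldRange_eq_map, fieldRange_val]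
    rfl
  have hm : ∀ i j, mij f x y i (n + (i + j)) = m := by
    intro i j
    apply hJ
    omega
  have hfin : FiniteDimensional (adjoin k {u 0}) A := by
    have h1 := relfinrank_map_map (A := adjoin k {u 0}) (B := (⊤ : IntermediateField k A)) A.val
    rw [hKmap, ← htop, hEmap, htop, relfinrank_top_right] at h1
    have h2 := m_ne_zero f hf x y hx hy 0 (n + 0)
    unfold mij at h2
    rw [h1] at h2
    exact FiniteDimensional.of_finrank_pos (Nat.pos_of_ne_zero h2)
  have hxt : Transcendental k (u 0) := by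
    intro h0
    apply hx
    exact h0.algHom A.val
  have hsup : ∀ j, E j = E (j + 1) ⊔ adjoin k {u j} := by
    intro j
    apply IntermediateField.map_injective A.val
    rw [IntermediateField.map_sup, hEmap, hEmap, hKmap]
    apply le_antisymm
    · have h1 : Bij f x y j (n + j) ≤ Bij f x y j (n + j + 1) := by
        apply B_eq_of_m_eq f hf x y hx hy
        have h2 := hm j 0
        have h3 := hm j 1
        rw [add_zero] at h2
        rw [← add_assoc] at h3
        rw [h2, h3]
      refine h1.trans ?_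
      rw [Bij_eq_sup, sup_comm]
      exact le_refl _
    · apply sup_le
      · exact (Bij_anti_i f x y j (n + j + 1)).trans (Bij_anti_j f x y j (n + j))
      · exact Ki_le_Bij f x y j (n + j)
  have hrel : ∀ j, relfinrank (E (j + 1)) (E j) = dg f := by
    intro j
    rw [← relfinrank_map_map (f := A.val), hEmap, hEmap]
    apply rel_step f hf x y hx hy
    · have h2 := hm (j + 1) 0
      have h3 := hm j 0
      rw [add_zero] at h2 h3
      rw [h2, h3]
    · exact (Bij_anti_i f x y j (n + j + 1)).trans (Bij_anti_j f x y j (n + j))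
  refine ⟨n, A, ψ, E, u, v, ⟨hxt, hfin, htop, fun j => rfl, fun j => ?_, fun j => ?_, hsup, hrel,
    fun j => ?_, fun j => ?_, fun j => (hψu j).symm, fun j => (hψv j).symm⟩, fun j => rfl,
    fun j => rfl, fun z => rfl⟩
  · apply Subtype.ext
    have h1 : ((rv f (u j) : A) : L) = rv f (it f x j) := rv_hom f A.val (u j)
    exact (it_succ f x j).trans h1.symm
  · apply Subtype.ext
    have h1 : ((rv f (v j) : A) : L) = rv f (it f y (n + j)) := rv_hom f A.val (v j)
    exact (it_succ f y (n + j)).trans h1.symm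
  · have h1 : IsIntegral (E (j + 1)) (u j) := by
      apply integral_of_rel (E (j + 1)) (E j)
      · rw [hsup j]
        exact le_sup_left
      · rw [hrel j]
        exact hf
      · exact subset_adjoin k _ (Set.mem_insert _ _)
    rw [← relfinrank_sup_adjoin _ h1, ← hsup j, hrel j]
  · simp only [hE]
    rw [adjoin_map, Set.image_pair, hψu, hψv]

/-- A transcendental point is not a pole. -/
theorem den_ne {k L : Type} [Field k] [Field L] [Algebra k L] (f : RatFunc k) {z : L}
    (hz : Transcendental k z) : aeval z f.denom ≠ 0 := fun h =>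
  f.denom_ne_zero (by
    by_contra h0
    exact hz ⟨f.denom, h0, h⟩)

/-- PAIR1 for `f : RatFunc k`. -/
theorem pair1 (hT : RtowerStatement) {k N : Type} [Field k] [IsAlgClosed k] [CharZero k] [Field N]
    [Algebra k N] (f : RatFunc k) (hf : 2 ≤ dg f) (hs : ¬ RSpecial f.num f.denom) (M : ℕ)
    (φ : N →ₐ[k] N) (x y : N) (hM : 1 ≤ M) (hx : Transcendental k x)
    (hy : IsAlgebraic (adjoin k {x}) y) (hφx : φ x = (rv f)^[M] x) (hφy : φ y = (rv f)^[M] y) :
    ∃ n, ∀ j, (rv f)^[n + j] y ∈ adjoin k {(rv f)^[j] x} := by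
  have hf0 : dg f ≠ 0 := by omega
  obtain ⟨n, A, ψ, E, u, w, hS, hu, hw, hψ⟩ := exists_tow f M x y φ hf0 hM hx
    (T_base f x y hy) hφx hφy
  refine ⟨n, fun j => ?_⟩
  have htr : ∀ j, Transcendental k (u j) := by
    intro j h0
    apply trans_iter f hf0 j x hx
    rw [← hu j]
    exact h0.algHom A.val
  have h1 := hT k A f.num f.denom M ψ E u f.isCoprime_num_denom hf hs hM hS.tr hS.fin
    (fun j => by
      rw [hS.uf j, rv_eq, div_mul_cancel₀ _ (den_ne f (htr j))]) hS.sup
    (fun j => by rw [hS.gen]; exact subset_adjoin k _ (Set.mem_insert _ _)) hS.deg hS.per hS.pu j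
  have h2 : w j ∈ E j := by
    rw [hS.gen]
    exact subset_adjoin k _ (Set.mem_insert_of_mem _ rfl)
  rw [h1] at h2
  have h3 : A.val (w j) ∈ (adjoin k {u j}).map A.val := ⟨w j, h2, rfl⟩
  rw [adjoin_map, Set.image_singleton] at h3
  have h4 : A.val (u j) = (rv f)^[j] x := hu j
  have h5 : A.val (w j) = (rv f)^[n + j] y := hw j
  rw [h4, h5] at h3
  exact h3

end Pool.DynLehmer.UN.Ra21

end

section

set_option linter.unusedSectionVars false

/-!
# Rational maps at transcendental points and their periodic forms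
-/

namespace Pool.DynLehmer.UN
open MvPolynomial Pool.DynLehmer Pool.DynLehmer.SB Pool.DynLehmer.SP
  Pool.DynLehmer.GS Pool.DynLehmer.LP Pool.DynLehmer.LW
open scoped Classical

/-- the value of the rational map `(F₀ : F₁)` at the affine point `z` -/
noncomputable def fr {K : Type} [Field K] (F : Fin 2 → MvPolynomial (Fin 2) K) {L : Type} [Field L]
    [Algebra K L] (z : L) : L := aeval ![z, 1] (F 0) / aeval ![z, 1] (F 1)

/-- All relations between `x` and `y` hold for `F^M x` and `F^M y`. -/
def RelF {K L : Type} [Field K] [Field L] [Algebra K L] (F : Fin 2 → MvPolynomial (Fin 2) K)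
    (M : ℕ) (x y : L) : Prop :=
  ∀ G : MvPolynomial (Fin 2) K, aeval ![x, y] G = 0 → aeval ![(fr F)^[M] x, (fr F)^[M] y] G = 0

/-- the periodic pairs with equal degrees are zeros of finitely many forms -/
def FinPairs (k : Type) [Field k] (F : Fin 2 → MvPolynomial (Fin 2) k) : Prop :=
  ∃ Z : Finset (MvPolynomial (Fin 2 ⊕ Fin 2) k),
    (∀ H ∈ Z, ∃ d₁ d₂ : ℕ, 1 ≤ d₁ ∧ 1 ≤ d₂ ∧ Irreducible H ∧ BiHom d₁ d₂ H) ∧
    ∀ (L : Type) [Field L] [Algebra k L] (M : ℕ) (x y : L), 1 ≤ M → Transcendental k x →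
      Transcendental k y → IsAlgebraic (IntermediateField.adjoin k {x}) y → RelF F M x y →
      IntermediateField.relfinrank (IntermediateField.adjoin k {x})
        (IntermediateField.adjoin k {x, y}) =
        IntermediateField.relfinrank (IntermediateField.adjoin k {y})
          (IntermediateField.adjoin k {x, y}) →
      ∃ H ∈ Z, GS.ev ![x, 1] ![y, 1] H = 0

/-- the periodic pairs with equal degrees are zeros of finitely many forms; the endomorphism is
given -/
def FinPairsE (k : Type) [Field k] (F : Fin 2 → MvPolynomial (Fin 2) k) : Prop :=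
  ∃ Z : Finset (MvPolynomial (Fin 2 ⊕ Fin 2) k),
    (∀ H ∈ Z, ∃ d₁ d₂ : ℕ, 1 ≤ d₁ ∧ 1 ≤ d₂ ∧ Irreducible H ∧ BiHom d₁ d₂ H) ∧
    ∀ (L : Type) [Field L] [Algebra k L] [IsAlgClosed L] (φ : L →ₐ[k] L) (M : ℕ) (x y : L),
      1 ≤ M → Transcendental k x → Transcendental k y →
      Algebra.IsAlgebraic (IntermediateField.adjoin k {x}) L →
      φ x = (fr F)^[M] x → φ y = (fr F)^[M] y →
      IntermediateField.relfinrank (IntermediateField.adjoin k {x})
        (IntermediateField.adjoin k {x, y}) =
        IntermediateField.relfinrank (IntermediateField.adjoin k {y})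
          (IntermediateField.adjoin k {x, y}) →
      ∃ H ∈ Z, GS.ev ![x, 1] ![y, 1] H = 0

namespace Rb

variable {K : Type} [Field K] {L : Type} [Field L] [Algebra K L] {q : ℕ}
  {F : Fin 2 → MvPolynomial (Fin 2) K}

/-- no form `w F₁ - F₀` is zero, and `F₁` is not zero -/
theorem comb_ne (hF : Mor q F) (hq : 1 ≤ q) {E : Type} [Field E] [Algebra K E] (w : E) :
    map (algebraMap K E) (F 0) - C w * map (algebraMap K E) (F 1) ≠ 0 := by
  intro h
  obtain ⟨P, hP, h0⟩ := J19.form_zero (K := K) (N := AlgebraicClosure E) q hq (F 1) (hF.hom 1)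
  refine hF.ne (AlgebraicClosure E) P hP ?_
  funext i
  fin_cases i
  · have h1 := congrArg (aeval P) h
    rw [map_sub, map_mul, aeval_map_algebraMap, aeval_map_algebraMap, h0, mul_zero, sub_zero,
      map_zero] at h1
    exact h1
  · exact h0

theorem one_ne (hF : Mor q F) (hq : 1 ≤ q) : F 1 ≠ 0 := by
  intro h
  obtain ⟨P, hP, h0⟩ := J19.form_zero (K := K) (N := AlgebraicClosure K) q hq (F 0) (hF.hom 0)
  refine hF.ne (AlgebraicClosure K) P hP ?_
  funext i
  fin_cases i
  · exact h0
  · show aeval P (F 1) = 0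
    rw [h, map_zero]

theorem den_ne (hF : Mor q F) (hq : 1 ≤ q) {z : L} (hz : Transcendental K z) :
    aeval ![z, 1] (F 1) ≠ 0 := fun h => one_ne hF hq (Pg3H72.hom_zero hz (hF.hom 1) h)

theorem act_eq (hF : Mor q F) (hq : 1 ≤ q) {z : L} (hz : Transcendental K z) :
    gAct F L ![z, 1] = aeval ![z, 1] (F 1) • ![fr F z, 1] := by
  have h1 := den_ne hF hq hz
  funext i
  fin_cases i
  · show aeval ![z, 1] (F 0) = aeval ![z, 1] (F 1) * fr F z
    rw [fr, mul_div_cancel₀ _ h1]
  · show aeval ![z, 1] (F 1) = aeval ![z, 1] (F 1) * 1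
    rw [mul_one]

/-- the image of a transcendental point is transcendental -/
theorem trans_fr (hF : Mor q F) (hq : 1 ≤ q) {z : L} (hz : Transcendental K z) :
    Transcendental K (fr F z) := by
  intro hw
  let E := IntermediateField.adjoin K {fr F z}
  have hE : Algebra.IsAlgebraic K E := by
    refine IntermediateField.isAlgebraic_adjoin fun y hy => ?_
    rw [Set.mem_singleton_iff] at hy
    rw [hy]
    exact hw.isIntegral
  have hzE : Transcendental E z := fun h => hz (h.restrictScalars K)
  let w : E := ⟨fr F z, IntermediateField.mem_adjoin_simple_self K _⟩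
  refine comb_ne hF hq w (Pg3H72.hom_zero hzE (n := q) ?_ ?_)
  · have h1 := (isHomogeneous_C (Fin 2) w).mul ((hF.hom 1).map (algebraMap K E))
    rw [zero_add] at h1
    exact ((hF.hom 0).map (algebraMap K E)).sub h1
  · rw [map_sub, map_mul, aeval_map_algebraMap, aeval_map_algebraMap, aeval_C]
    show aeval ![z, 1] (F 0) - fr F z * aeval ![z, 1] (F 1) = 0
    rw [fr, div_mul_cancel₀ _ (den_ne hF hq hz), sub_self]

theorem trans_it (hF : Mor q F) (hq : 1 ≤ q) {z : L} (hz : Transcendental K z) (n : ℕ) :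
    Transcendental K ((fr F)^[n] z) := by
  induction n with
  | zero => exact hz
  | succ n ih =>
    rw [Function.iterate_succ_apply']
    exact trans_fr hF hq ih

/-- the iterates of a transcendental point -/
theorem iter_prl (hF : Mor q F) (hq : 1 ≤ q) {z : L} (hz : Transcendental K z) (n : ℕ) :
    Prl ((gAct F L)^[n] ![z, 1]) ![(fr F)^[n] z, 1] := by
  induction n with
  | zero => exact Bas.prl_refl _
  | succ n ih =>
    rw [Function.iterate_succ_apply', Function.iterate_succ_apply']
    refine Bas.prl_trans (Bas.prl_gAct hF.hom ih) ?_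
    rw [act_eq hF hq (trans_it hF hq hz n)]
    exact Bas.prl_smul _ (den_ne hF hq (trans_it hF hq hz n))

/-- homomorphisms commute with the map -/
theorem map_fr {L' : Type} [Field L'] [Algebra K L'] (φ : L →ₐ[K] L') (z : L) :
    φ (fr F z) = fr F (φ z) := by
  have h1 : ∀ G : MvPolynomial (Fin 2) K, φ (aeval ![z, 1] G) = aeval ![φ z, 1] G := by
    intro G
    rw [comp_aeval_apply]
    congr 2
    funext i
    fin_cases i
    · rfl
    · exact map_one φ
  rw [fr, map_div₀, h1, h1]
  rfl

theorem map_it {L' : Type} [Field L'] [Algebra K L'] (φ : L →ₐ[K] L') (n : ℕ) (z : L) :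
    φ ((fr F)^[n] z) = (fr F)^[n] (φ z) := by
  induction n with
  | zero => rfl
  | succ n ih => rw [Function.iterate_succ_apply', Function.iterate_succ_apply', ← ih, map_fr]

/-- the iterates of a point which is moved along its orbit -/
theorem iter_pt (φ : L →ₐ[K] L) {m : ℕ} {z : L} (hz : φ z = (fr F)^[m] z) (n : ℕ) :
    φ^[n] z = (fr F)^[n * m] z := by
  induction n with
  | zero => rw [Nat.zero_mul]; rfl
  | succ n ih =>
    rw [Function.iterate_succ_apply', ih, map_it, hz, Nat.succ_mul, Function.iterate_add_apply]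

/-- the iterates of a zero of a periodic form -/
theorem ev_it (hF : Mor q F) (hq : 1 ≤ q) {d₁ d₂ : ℕ} {G : MvPolynomial (Fin 2 ⊕ Fin 2) K}
    (hG : BiHom d₁ d₂ G) {k : ℕ} (hd : G ∣ (bind₁ (dbl F))^[k] G) {x y : L}
    (hx : Transcendental K x) (hy : Transcendental K y) (h0 : GS.ev ![x, 1] ![y, 1] G = 0) :
    GS.ev ![(fr F)^[k] x, 1] ![(fr F)^[k] y, 1] G = 0 := by
  have h1 := Pg3H72.ev_of_dvd hd h0
  rw [Bif.ev_it] at h1
  exact (Bas.ev_prl hG (iter_prl hF hq hx k) (iter_prl hF hq hy k)).1 h1

/-- relations of the images -/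
theorem relF_of (ψ : L →ₐ[K] L) (M : ℕ) (x y : L) (h : ψ x = (fr F)^[M] x)
    (h' : ψ y = (fr F)^[M] y) : RelF F M x y := by
  intro H hH
  have h1 := congrArg ψ hH
  rw [map_zero, MvPolynomial.comp_aeval_apply] at h1
  have h3 : (fun i => ψ (![x, y] i)) = ![(fr F)^[M] x, (fr F)^[M] y] := by
    funext i
    fin_cases i
    · exact h
    · exact h'
  rw [h3] at h1
  exact h1

theorem finPairsE {k : Type} [Field k] {F : Fin 2 → MvPolynomial (Fin 2) k} (h : FinPairs k F) :
    FinPairsE k F := by
  obtain ⟨Z, hZ, h⟩ := h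
  exact ⟨Z, hZ, fun L _ _ _ φ M x y hM hx hy halg h1 h2 hd =>
    h L M x y hM hx hy (halg.isAlgebraic y) (relF_of φ M x y h1 h2) hd⟩

/-- `L` is algebraic over `k(y)` -/
theorem alg_over {x y : L} (halg : Algebra.IsAlgebraic (IntermediateField.adjoin K {x}) L)
    (h : IsAlgebraic (IntermediateField.adjoin K {y}) x) :
    Algebra.IsAlgebraic (IntermediateField.adjoin K {y}) L := by
  let E := IntermediateField.adjoin K {y}
  let E' := IntermediateField.adjoin E {x}
  have h1 : Algebra.IsAlgebraic E E' := by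
    refine IntermediateField.isAlgebraic_adjoin fun z hz => ?_
    rw [Set.mem_singleton_iff] at hz
    rw [hz]
    exact h.isIntegral
  have h2 : Algebra.IsAlgebraic E' L := by
    refine ⟨fun z => ?_⟩
    have h3 := halg.isAlgebraic z
    have hle : IntermediateField.adjoin K {x} ≤ E'.restrictScalars K :=
      IntermediateField.adjoin_le_iff.2 fun w hw =>
        IntermediateField.subset_adjoin E {x} hw
    let i : IntermediateField.adjoin K {x} →+* E' := (IntermediateField.inclusion hle).toRingHom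
    exact h3.ringHom_of_comp_eq i (RingHom.id L) i.injective (RingHom.ext fun _ => rfl)
  exact Algebra.IsAlgebraic.trans E E' L

end Rb

open Rb

/-- PG2 for a rational map: the endomorphism of the generic point. -/
theorem pg2r {K : Type} [Field K] [CharZero K] {q : ℕ} {F : Fin 2 → MvPolynomial (Fin 2) K}
    (hF : Mor q F) (hq : 1 ≤ q) {e : ℕ} {G : MvPolynomial (Fin 2 ⊕ Fin 2) K}
    (hG : PerForm F e G) {L : Type} [Field L] [Algebra K L] [IsAlgClosed L] {x y : L}
    (halg : Algebra.IsAlgebraic (IntermediateField.adjoin K {x}) L) (hx : Transcendental K x)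
    (hy : Transcendental K y)
    (hev : ∀ (d₁ d₂ : ℕ) (H : MvPolynomial (Fin 2 ⊕ Fin 2) K), BiHom d₁ d₂ H →
      (GS.ev ![x, 1] ![y, 1] H = 0 ↔ G ∣ H)) :
    ∃ (φ : L →ₐ[K] L) (m : ℕ), 1 ≤ m ∧ φ x = (fr F)^[m] x ∧ φ y = (fr F)^[m] y := by
  obtain ⟨k, hk, hGk⟩ := hG.per
  obtain ⟨d₁, d₂, -, -, -, -, hGb⟩ := hG.hom
  have hG0 : GS.ev ![x, 1] ![y, 1] G = 0 := (hev d₁ d₂ G hGb).2 dvd_rfl
  have hG1 := Rb.ev_it hF hq hGb hGk hx hy hG0
  have hrel : ∀ h : Polynomial (Polynomial K),
      h.eval₂ (Polynomial.aeval x : Polynomial K →ₐ[K] L).toRingHom y = 0 →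
      h.eval₂ (Polynomial.aeval ((fr F)^[k] x) : Polynomial K →ₐ[K] L).toRingHom
        ((fr F)^[k] y) = 0 := by
    intro h hh
    obtain ⟨a₁, a₂, H, hH, hH'⟩ := Gb.homog (L := L) h
    rw [← hH'] at hh ⊢
    exact Pg3H72.ev_of_dvd ((hev a₁ a₂ H hH).1 hh) hG1
  obtain ⟨φ, h1, h2⟩ := Gb.endo halg hx (Rb.trans_it hF hq hx k) hrel
  exact ⟨φ, k, hk, h1, h2⟩

/-- PG3 for a rational map: a periodic root of a second form over the same `x`. -/
theorem pg3r {K : Type} [Field K] [CharZero K] {q : ℕ} {F : Fin 2 → MvPolynomial (Fin 2) K}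
    (hF : Mor q F) (hq : 1 ≤ q) {e : ℕ} {G : MvPolynomial (Fin 2 ⊕ Fin 2) K}
    (hG : PerForm F e G) {L : Type} [Field L] [Algebra K L] [IsAlgClosed L] (φ : L →ₐ[K] L)
    {m : ℕ} {x : L} (hx : Transcendental K x) (hφ : φ x = (fr F)^[m] x) :
    ∃ (y : L) (n : ℕ), 1 ≤ n ∧ Transcendental K y ∧ GS.ev ![x, 1] ![y, 1] G = 0 ∧
      φ^[n] x = (fr F)^[n * m] x ∧ φ^[n] y = (fr F)^[n * m] y := by
  obtain ⟨d₁, d₂, h1, -, h2, -, hb⟩ := hG.hom
  obtain ⟨k, hk, hper⟩ := hG.per
  set gx : Polynomial L := (Bez.dh G).map (Bez.phi (K := K) ![x, 1]) with hgx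
  have hnd : gx.natDegree ≠ 0 := Pg3H72.fibre_ne hb h1 hG.irr hx h2
  have hgx0 : gx ≠ 0 := by
    intro hz
    rw [hz, Polynomial.natDegree_zero] at hnd
    exact hnd rfl
  obtain ⟨ψ, hψ⟩ := Pg3H72.exists_pow φ k
  have hψx : ψ x = (fr F)^[k * m] x := by
    rw [hψ, Rb.iter_pt φ hφ]
  have hroot : ∀ y : L, gx.IsRoot y → ∃ y' : L, gx.IsRoot y' ∧
      ψ y' = (fr F)^[k * m] y := by
    intro y hy
    have h3 : GS.ev ![x, 1] ![y, 1] G = 0 := by
      rw [Pg3H72.ev_root hb]
      exact hy
    have hty := Pg3H72.trans_y hb h1 h2 hG.irr hx h3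
    have h4 := Rb.ev_it hF hq hb (Pg3H72.dvd_it hper m) hx hty h3
    rw [← hψx, Pg3H72.ev_root hb, ← Pg3H72.phi_hom, ← Polynomial.map_map] at h4
    have h5 : (fr F)^[k * m] y ∈ (gx.map (ψ : L →+* L)).roots :=
      (Polynomial.mem_roots (Polynomial.map_ne_zero hgx0)).2 h4
    rw [(IsAlgClosed.splits gx).roots_map, Multiset.mem_map] at h5
    obtain ⟨y', hy', h6⟩ := h5
    exact ⟨y', (Polynomial.mem_roots hgx0).1 hy', h6⟩
  obtain ⟨y₀, hy₀⟩ := IsAlgClosed.exists_root gx
    (fun hz => hnd (Polynomial.natDegree_eq_of_degree_eq_some hz))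
  have hfin : Finite {y : L // gx.IsRoot y} := by
    refine Set.Finite.to_subtype (s := {y : L | gx.IsRoot y}) ?_
    exact Polynomial.finite_setOfPred_isRoot hgx0
  choose! T hT1 hT2 using hroot
  obtain ⟨⟨y, hy⟩, j, hj, hTj⟩ := Pg3H72.exists_periodic
    (fun s : {y : L // gx.IsRoot y} => (⟨T s.1, hT1 s.1 s.2⟩ : {y : L // gx.IsRoot y})) ⟨y₀, hy₀⟩
  have hit : ∀ (i : ℕ) (s : {y : L // gx.IsRoot y}),
      ψ^[i] ((fun s : {y : L // gx.IsRoot y} =>
        (⟨T s.1, hT1 s.1 s.2⟩ : {y : L // gx.IsRoot y}))^[i] s).1 =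
        (fr F)^[i * (k * m)] s.1 := by
    intro i
    induction i with
    | zero => intro s; rw [Nat.zero_mul]; rfl
    | succ i ih =>
      intro s
      rw [Function.iterate_succ_apply' (f := ψ), Function.iterate_succ_apply]
      rw [ih, Rb.map_it]
      show _ = _
      rw [hT2 s.1 s.2, ← Function.iterate_add_apply]
      congr 2
      ring
  have hψit : ∀ (i : ℕ) (z : L), ψ^[i] z = φ^[k * i] z := by
    intro i z
    have h8 : (ψ : L → L) = φ^[k] := funext hψ
    rw [h8, ← Function.iterate_mul]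
  have h0 : GS.ev ![x, 1] ![y, 1] G = 0 := by
    rw [Pg3H72.ev_root hb]
    exact hy
  refine ⟨y, k * j, Nat.mul_pos hk hj, Pg3H72.trans_y hb h1 h2 hG.irr hx h0, h0,
    Rb.iter_pt φ hφ _, ?_⟩
  have h7 := hit j ⟨y, hy⟩
  have h8 : j * (k * m) = k * j * m := by ring
  rw [hTj, hψit, h8] at h7
  exact h7

/-- PG4 for a rational map: finitely many periodic forms of bounded degree. -/
theorem pg4r {k : Type} [Field k] [IsAlgClosed k] [CharZero k] {q : ℕ}
    {F : Fin 2 → MvPolynomial (Fin 2) k} (hF : Mor q F) (hq : 1 ≤ q) (hZ : FinPairsE k F) (e : ℕ) :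
    ∃ S : Finset (MvPolynomial (Fin 2 ⊕ Fin 2) k),
      ∀ G, PerForm F e G → ∃ G' ∈ S, Associated G G' := by
  obtain ⟨Z, hZb, hZp⟩ := hZ
  -- forms of fixed degree
  have key : ∀ d : ℕ × ℕ, ∃ S : Finset (MvPolynomial (Fin 2 ⊕ Fin 2) k), ∀ G,
      PerForm F e G → 1 ≤ d.1 → 1 ≤ d.2 → BiHom d.1 d.2 G → ∃ G' ∈ S, Associated G G' := by
    rintro ⟨d₁, d₂⟩
    by_cases hex0 : ∃ G₀, PerForm F e G₀ ∧ 1 ≤ d₁ ∧ 1 ≤ d₂ ∧ BiHom d₁ d₂ G₀
    · obtain ⟨G₀, hG₀, hd1, hd2, hB₀⟩ := hex0
      obtain ⟨L, iL, iA, x, y, hcl, halg, htx, hty, hgen⟩ := gena_all k d₁ d₂ G₀ hd1 hd2 hG₀.irr hB₀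
      obtain ⟨φ, m, hm, hφx, hφy⟩ := pg2r hF hq hG₀ halg htx hty hgen
      have hG₀0 : GS.ev ![x, 1] ![y, 1] G₀ = 0 := (hgen d₁ d₂ G₀ hB₀).2 (dvd_refl _)
      obtain ⟨-, hr1, hr2, -⟩ := Pg5.pg5 k d₁ d₂ G₀ hd1 hd2 hG₀.irr hB₀ L x y htx hG₀0
      -- the values of `y'`
      have hYf : {y' : L | ∃ H ∈ Z, GS.ev ![y, 1] ![y', 1] H = 0}.Finite := by
        have h1 : {y' : L | ∃ H ∈ Z, GS.ev ![y, 1] ![y', 1] H = 0} =
            ⋃ H ∈ Z, {y' : L | GS.ev ![y, 1] ![y', 1] H = 0} := by
          ext y'
          simp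
        rw [h1]
        refine Z.finite_toSet.biUnion fun H hH => ?_
        obtain ⟨c₁, c₂, hc1, hc2, hHi, hHb⟩ := hZb H hH
        have h2 : (Bez.dh H).map (Bez.phi (K := k) ![y, 1]) ≠ 0 := by
          intro h
          have h3 := Pg3H72.fibre_ne hHb hc1 hHi hty hc2
          rw [h, Polynomial.natDegree_zero] at h3
          exact h3 rfl
        refine (Polynomial.finite_setOfPred_isRoot h2).subset fun y' hy' => ?_
        have h4 : GS.ev ![y, 1] ![y', 1] H = 0 := hy'
        rw [Pg3H72.ev_root hHb] at h4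
        exact h4
      -- a form for each value
      let W : L → MvPolynomial (Fin 2 ⊕ Fin 2) k := fun y' =>
        if h : ∃ G, PerForm F e G ∧ BiHom d₁ d₂ G ∧ GS.ev ![x, 1] ![y', 1] G = 0
        then h.choose else 0
      refine ⟨hYf.toFinset.image W, fun G hG _ _ hB => ?_⟩
      obtain ⟨y', n, hn, hty', hG0, hnx, hny⟩ := pg3r hF hq hG φ htx hφx
      obtain ⟨-, hr1', hr2', hdv⟩ := Pg5.pg5 k d₁ d₂ G hd1 hd2 hG.irr hB L x y' htx hG0
      obtain ⟨hdeg, hne⟩ := Pg4h.degs halg hd1 hd2 hr1 hr2 hr1' hr2'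
      obtain ⟨ψ, hψ⟩ := Pg3H72.exists_pow φ n
      have hyL : Algebra.IsAlgebraic (IntermediateField.adjoin k {y}) L :=
        Rb.alg_over halg (Pg4h.alg_of_ne (by rw [Set.pair_comm, hr2]; omega))
      obtain ⟨H, hH, hH0⟩ := hZp L ψ (n * m) y y' (Nat.mul_pos hn hm) hty hty' hyL
        (by rw [hψ]; exact Rb.iter_pt φ hφy n) (by rw [hψ]; exact hny) hdeg
      have hex1 : ∃ G, PerForm F e G ∧ BiHom d₁ d₂ G ∧ GS.ev ![x, 1] ![y', 1] G = 0 :=
        ⟨G, hG, hB, hG0⟩
      obtain ⟨G', hG', hp1, hp2, hp3⟩ : ∃ G', W y' = G' ∧ PerForm F e G' ∧ BiHom d₁ d₂ G' ∧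
          GS.ev ![x, 1] ![y', 1] G' = 0 :=
        ⟨hex1.choose, dif_pos hex1, hex1.choose_spec⟩
      refine ⟨W y', Finset.mem_image.2 ⟨y', hYf.mem_toFinset.2 ⟨H, hH, hH0⟩, rfl⟩, ?_⟩
      rw [hG']
      obtain ⟨-, -, -, hdv'⟩ := Pg5.pg5 k d₁ d₂ G' hd1 hd2 hp1.irr hp2 L x y' htx hp3
      exact associated_of_dvd_dvd (hdv d₁ d₂ G' hp2 hp3) (hdv' d₁ d₂ G hB hG0)
    · exact ⟨∅, fun G hG hd1 hd2 hB => absurd ⟨G, hG, hd1, hd2, hB⟩ hex0⟩
  choose S hSd using key
  refine ⟨(Finset.range (e + 1) ×ˢ Finset.range (e + 1)).biUnion S, fun G hG => ?_⟩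
  obtain ⟨d₁, d₂, hd1, hd1e, hd2, hd2e, hB⟩ := hG.hom
  obtain ⟨G', hG', ha⟩ := hSd (d₁, d₂) G hG hd1 hd2 hB
  exact ⟨G', Finset.mem_biUnion.2 ⟨(d₁, d₂), Finset.mem_product.2
    ⟨Finset.mem_range.2 (by omega), Finset.mem_range.2 (by omega)⟩, hG'⟩, ha⟩

end Pool.DynLehmer.UN

end

section

/-!
# Periodic pairs of a rational function: `F^(n + j) y` is in `k(F^j x)`
-/

namespace Pool.DynLehmer.UN.Ra21
open Polynomial IntermediateField Pool.DynLehmer.GS Pool.DynLehmer.SP Pool.DynLehmer.LP

/-- numerator and denominator of a quotient of coprime polynomials -/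
theorem quot_facts {k : Type} [Field k] (A B : k[X]) (h : IsCoprime A B) (hB : B ≠ 0) :
    ∃ c : k, c ≠ 0 ∧
      A = C c * (algebraMap k[X] (RatFunc k) A / algebraMap k[X] (RatFunc k) B).num ∧
      B = C c * (algebraMap k[X] (RatFunc k) A / algebraMap k[X] (RatFunc k) B).denom := by
  set f := algebraMap k[X] (RatFunc k) A / algebraMap k[X] (RatFunc k) B with hf
  have h1 : f.num * B = A * f.denom := (RatFunc.num_mul_eq_mul_denom_iff hB).2 hf
  have h2 : B ∣ f.denom := by
    have h3 : B ∣ A * f.denom := ⟨f.num, by rw [← h1, mul_comm]⟩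
    exact h.symm.dvd_of_dvd_mul_left h3
  have h4 : f.denom ∣ B := RatFunc.denom_div_dvd A B
  obtain ⟨v, hv⟩ := associated_of_dvd_dvd h4 h2
  obtain ⟨c, hc, hcv⟩ := Polynomial.isUnit_iff.1 v.isUnit
  refine ⟨c, hc.ne_zero, ?_, ?_⟩
  · have h5 : A * f.denom = C c * f.num * f.denom := by
      rw [← h1, ← hv, ← hcv]
      ring
    exact mul_right_cancel₀ f.denom_ne_zero h5
  · rw [hcv, mul_comm]
    exact hv.symm

theorem dg_quot {k : Type} [Field k] (A B : k[X]) (h : IsCoprime A B) (hB : B ≠ 0) :
    dg (algebraMap k[X] (RatFunc k) A / algebraMap k[X] (RatFunc k) B) =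
      max A.natDegree B.natDegree := by
  obtain ⟨c, hc, h1, h2⟩ := quot_facts A B h hB
  have h3 := congrArg natDegree h1
  have h4 := congrArg natDegree h2
  rw [natDegree_C_mul hc] at h3 h4
  unfold dg
  rw [← h3, ← h4]

theorem rv_quot {k L : Type} [Field k] [Field L] [Algebra k L] (A B : k[X]) (h : IsCoprime A B)
    (hB : B ≠ 0) (z : L) :
    rv (algebraMap k[X] (RatFunc k) A / algebraMap k[X] (RatFunc k) B) z =
      aeval z A / aeval z B := by
  obtain ⟨c, hc, h1, h2⟩ := quot_facts A B h hB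
  have h3 := congrArg (aeval z) h1
  have h4 := congrArg (aeval z) h2
  rw [map_mul, aeval_C] at h3 h4
  rw [rv_eq, h3, h4, mul_div_mul_left]
  rw [Ne, FaithfulSMul.algebraMap_eq_zero_iff]
  exact hc

/-- PAIR1 for `A / B`. -/
theorem pair1AB (hT : RtowerStatement) {k N : Type} [Field k] [IsAlgClosed k] [CharZero k]
    [Field N] [Algebra k N] (A B : k[X]) (hAB : IsCoprime A B)
    (hf : 2 ≤ max A.natDegree B.natDegree) (hs : ¬ RSpecial A B) (M : ℕ)
    (φ : N →ₐ[k] N) (x y : N) (hM : 1 ≤ M) (hx : Transcendental k x)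
    (hy : IsAlgebraic (adjoin k {x}) y)
    (hφx : φ x = (fun z => aeval z A / aeval z B)^[M] x)
    (hφy : φ y = (fun z => aeval z A / aeval z B)^[M] y) :
    ∃ n, ∀ j, (fun z => aeval z A / aeval z B)^[n + j] y ∈
      adjoin k {(fun z : N => aeval z A / aeval z B)^[j] x} := by
  have hB : B ≠ 0 := by
    rintro rfl
    rw [isCoprime_zero_right] at hAB
    rw [natDegree_zero, Nat.max_zero, natDegree_eq_zero_of_isUnit hAB] at hf
    omega
  set f := algebraMap k[X] (RatFunc k) A / algebraMap k[X] (RatFunc k) B with hfdef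
  have hr : (fun z : N => aeval z A / aeval z B) = rv f :=
    funext fun z => (rv_quot A B hAB hB z).symm
  have hd : dg f = max A.natDegree B.natDegree := dg_quot A B hAB hB
  rw [hr] at hφx hφy ⊢
  have hf0 : dg f ≠ 0 := by omega
  obtain ⟨n, A', ψ, E, u, w, hS, hu, hw, hψ⟩ := exists_tow f M x y φ hf0 hM hx
    (T_base f x y hy) hφx hφy
  refine ⟨n, fun j => ?_⟩
  have htr : ∀ j, Transcendental k (u j) := by
    intro j h0
    apply trans_iter f hf0 j x hx
    rw [← hu j]
    exact h0.algHom A'.val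
  have hBne : ∀ j, aeval (u j) B ≠ 0 := fun j h0 => htr j ⟨B, hB, h0⟩
  have h1 := hT k A' A B M ψ E u hAB hf hs hM hS.tr hS.fin
    (fun j => by
      rw [hS.uf j, rv_quot A B hAB hB, div_mul_cancel₀ _ (hBne j)]) hS.sup
    (fun j => by rw [hS.gen]; exact subset_adjoin k _ (Set.mem_insert _ _))
    (fun j => by rw [hS.deg j, hd]) hS.per hS.pu j
  have h2 : w j ∈ E j := by
    rw [hS.gen]
    exact subset_adjoin k _ (Set.mem_insert_of_mem _ rfl)
  rw [h1] at h2
  have h3 : A'.val (w j) ∈ (adjoin k {u j}).map A'.val := ⟨w j, h2, rfl⟩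
  rw [adjoin_map, Set.image_singleton] at h3
  have h4 : A'.val (u j) = (rv f)^[j] x := hu j
  have h5 : A'.val (w j) = (rv f)^[n + j] y := hw j
  rw [h4, h5] at h3
  exact h3

/-- the polynomial `G(X, 1)` -/
noncomputable def dh {k : Type} [Field k] (G : MvPolynomial (Fin 2) k) : k[X] :=
  MvPolynomial.aeval ![X, 1] G

theorem aeval_dh {k L : Type} [Field k] [Field L] [Algebra k L] (G : MvPolynomial (Fin 2) k)
    (z : L) : aeval z (dh G) = MvPolynomial.aeval ![z, 1] G := by
  have h2 : (aeval z : k[X] →ₐ[k] L).comp (MvPolynomial.aeval ![X, 1]) =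
      (MvPolynomial.aeval ![z, 1] : MvPolynomial (Fin 2) k →ₐ[k] L) := by
    apply MvPolynomial.algHom_ext
    intro i
    rw [AlgHom.comp_apply, MvPolynomial.aeval_X, MvPolynomial.aeval_X]
    fin_cases i
    · exact aeval_X z
    · exact map_one _
  exact congrArg (fun f : MvPolynomial (Fin 2) k →ₐ[k] L => f G) h2

theorem fr_dh {k L : Type} [Field k] [Field L] [Algebra k L]
    (F : Fin 2 → MvPolynomial (Fin 2) k) :
    (fr F : L → L) = fun z => aeval z (dh (F 0)) / aeval z (dh (F 1)) := by
  funext z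
  rw [aeval_dh, aeval_dh]
  rfl

/-- PAIR1 for forms, from the facts on the two polynomials. -/
theorem pair1F (hT : RtowerStatement) {k N : Type} [Field k] [IsAlgClosed k] [CharZero k]
    [Field N] [Algebra k N] (F : Fin 2 → MvPolynomial (Fin 2) k)
    (hAB : IsCoprime (dh (F 0)) (dh (F 1)))
    (hf : 2 ≤ max (dh (F 0)).natDegree (dh (F 1)).natDegree)
    (hs : ¬ RSpecial (dh (F 0)) (dh (F 1))) (M : ℕ)
    (φ : N →ₐ[k] N) (x y : N) (hM : 1 ≤ M) (hx : Transcendental k x)
    (hy : IsAlgebraic (adjoin k {x}) y) (hφx : φ x = (fr F)^[M] x) (hφy : φ y = (fr F)^[M] y) :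
    ∃ n, ∀ j, (fr F)^[n + j] y ∈ adjoin k {(fr F)^[j] x} := by
  rw [fr_dh] at hφx hφy ⊢
  exact pair1AB hT (dh (F 0)) (dh (F 1)) hAB hf hs M φ x y hM hx hy hφx hφy

theorem dh_eq {k : Type} [Field k] (G : MvPolynomial (Fin 2) k) :
    dh G = ∑ t ∈ G.support, C (MvPolynomial.coeff t G) * X ^ (t 0) := by
  unfold dh
  rw [MvPolynomial.aeval_def, MvPolynomial.eval₂_eq']
  refine Finset.sum_congr rfl fun t _ => ?_
  rw [Fin.prod_univ_two]
  simp [Polynomial.algebraMap_eq]

theorem hom_sum {k : Type} [Field k] {q : ℕ} {G : MvPolynomial (Fin 2) k}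
    (hG : G.IsHomogeneous q) {t : Fin 2 →₀ ℕ} (ht : t ∈ G.support) : t 0 + t 1 = q := by
  have h1 := hG (MvPolynomial.mem_support_iff.1 ht)
  rw [Finsupp.weight_apply, Finsupp.sum_fintype _ _ (fun i => by simp), Fin.sum_univ_two] at h1
  simpa using h1

theorem natDegree_dh_le {k : Type} [Field k] {q : ℕ} {G : MvPolynomial (Fin 2) k}
    (hG : G.IsHomogeneous q) : (dh G).natDegree ≤ q := by
  rw [dh_eq]
  refine natDegree_sum_le_of_forall_le _ _ fun t ht => ?_
  refine (natDegree_C_mul_X_pow_le _ _).trans ?_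
  have := hom_sum hG ht
  omega

theorem coeff_dh {k : Type} [Field k] {q : ℕ} {G : MvPolynomial (Fin 2) k}
    (hG : G.IsHomogeneous q) : (dh G).coeff q = MvPolynomial.aeval ![(1 : k), 0] G := by
  rw [dh_eq, finsetSum_coeff, MvPolynomial.aeval_def, MvPolynomial.eval₂_eq']
  refine Finset.sum_congr rfl fun t ht => ?_
  rw [coeff_C_mul_X_pow, Fin.prod_univ_two]
  have h1 := hom_sum hG ht
  simp only [Matrix.cons_val_zero, Matrix.cons_val_one, one_pow, one_mul, Algebra.algebraMap_self,
    RingHom.id_apply]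
  by_cases h2 : t 1 = 0
  · rw [h2, pow_zero, mul_one, if_pos (by omega)]
  · rw [zero_pow h2, mul_zero, if_neg (by omega)]

theorem cop_dh {k : Type} [Field k] [IsAlgClosed k] {q : ℕ} {F : Fin 2 → MvPolynomial (Fin 2) k}
    (hF : Mor q F) : IsCoprime (dh (F 0)) (dh (F 1)) := by
  rw [isCoprime_iff_aeval_ne_zero_of_isAlgClosed k k]
  intro a
  by_contra hcon
  rw [not_or, not_not, not_not, aeval_dh, aeval_dh] at hcon
  refine hF.ne k ![a, 1] (fun h => one_ne_zero (congrFun h 1)) ?_
  funext i
  fin_cases i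
  · exact hcon.1
  · exact hcon.2

theorem deg_dh {k : Type} [Field k] {q : ℕ} {F : Fin 2 → MvPolynomial (Fin 2) k}
    (hF : Mor q F) (_hq : 1 ≤ q) : max (dh (F 0)).natDegree (dh (F 1)).natDegree = q := by
  refine le_antisymm (max_le (natDegree_dh_le (hF.hom 0)) (natDegree_dh_le (hF.hom 1))) ?_
  by_contra hcon
  rw [not_le, max_lt_iff] at hcon
  refine hF.ne k ![1, 0] (fun h => one_ne_zero (congrFun h 0)) ?_
  funext i
  fin_cases i
  · exact ((coeff_dh (hF.hom 0)).symm.trans (coeff_eq_zero_of_natDegree_lt hcon.1) :)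
  · exact ((coeff_dh (hF.hom 1)).symm.trans (coeff_eq_zero_of_natDegree_lt hcon.2) :)

/-- PAIR1 for forms. -/
theorem pair1Mor {k N : Type} [Field k] [IsAlgClosed k] [CharZero k]
    [Field N] [Algebra k N] {q : ℕ} (F : Fin 2 → MvPolynomial (Fin 2) k) (hF : Mor q F)
    (hq : 2 ≤ q) (hs : ¬ RSpecial (dh (F 0)) (dh (F 1))) (M : ℕ)
    (φ : N →ₐ[k] N) (x y : N) (hM : 1 ≤ M) (hx : Transcendental k x)
    (hy : IsAlgebraic (adjoin k {x}) y) (hφx : φ x = (fr F)^[M] x) (hφy : φ y = (fr F)^[M] y) :
    ∃ n, ∀ j, (fr F)^[n + j] y ∈ adjoin k {(fr F)^[j] x} :=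
  pair1F R47.rtower F (cop_dh hF) (by rw [deg_dh hF (by omega)]; exact hq) hs M φ x y hM hx hy
    hφx hφy

end Pool.DynLehmer.UN.Ra21

end

section

set_option linter.unusedSectionVars false

/-!
# Two forms and the rational function they define
-/

namespace Pool.DynLehmer.UN.R96
open Pool.DynLehmer Pool.DynLehmer.GS
open scoped Classical

/-- the polynomial `P(X, 1)` of a form -/
noncomputable def dh {k : Type} [Field k] (P : MvPolynomial (Fin 2) k) : Polynomial k :=
  MvPolynomial.aeval ![Polynomial.X, 1] P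

section
variable {k : Type} [Field k]

theorem aeval_dh {L : Type} [Field L] [Algebra k L] (z : L) (P : MvPolynomial (Fin 2) k) :
    MvPolynomial.aeval ![z, 1] P = Polynomial.aeval z (dh P) := by
  have h : ((Polynomial.aeval z : Polynomial k →ₐ[k] L)).comp
      (MvPolynomial.aeval ![Polynomial.X, 1]) = MvPolynomial.aeval ![z, 1] := by
    refine MvPolynomial.algHom_ext fun i => ?_
    rw [AlgHom.comp_apply, MvPolynomial.aeval_X, MvPolynomial.aeval_X]
    fin_cases i
    · exact Polynomial.aeval_X z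
    · exact map_one _
  exact (DFunLike.congr_fun h P).symm

theorem hom_dh {q : ℕ} {P : MvPolynomial (Fin 2) k} (hP : P.IsHomogeneous q) :
    (dh P).homogenize q = P := Polynomial.homogenize_eq_of_isHomogeneous hP rfl

theorem expand (q : ℕ) (f : Polynomial k) : f.homogenize q =
    ∑ i ∈ Finset.range (q + 1), MvPolynomial.C (f.coeff i) * MvPolynomial.X 0 ^ i *
      MvPolynomial.X 1 ^ (q - i) := by
  rw [Polynomial.homogenize, Finset.Nat.sum_antidiagonal_eq_sum_range_succ_mk]
  refine Finset.sum_congr rfl fun i _ => ?_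
  show MvPolynomial.monomial ((Finsupp.single 0 i).update 1 (q - i)) (f.coeff i) = _
  rw [MvPolynomial.monomial_eq, Finsupp.prod_fintype _ _ (fun _ => pow_zero _), Fin.prod_univ_two,
    ← mul_assoc]
  have h0 : ((Finsupp.single 0 i).update 1 (q - i) : Fin 2 →₀ ℕ) 0 = i := by simp
  have h1 : ((Finsupp.single 0 i).update 1 (q - i) : Fin 2 →₀ ℕ) 1 = q - i := by simp
  rw [h0, h1]

theorem natDegree_dh_le {q : ℕ} {P : MvPolynomial (Fin 2) k} (hP : P.IsHomogeneous q) :
    (dh P).natDegree ≤ q := by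
  rw [Polynomial.natDegree_le_iff_coeff_eq_zero]
  intro n hn
  rw [dh, ← hom_dh hP, expand, map_sum, Polynomial.finsetSum_coeff]
  refine Finset.sum_eq_zero fun i hi => ?_
  have hi' := Finset.mem_range.1 hi
  rw [map_mul, map_mul, map_pow, map_pow, MvPolynomial.aeval_X, MvPolynomial.aeval_X,
    MvPolynomial.algHom_C]
  show (Polynomial.C ((dh P).coeff i) * Polynomial.X ^ i * 1 ^ (q - i)).coeff n = 0
  rw [one_pow, mul_one, Polynomial.coeff_C_mul_X_pow, if_neg (by omega)]

/-- the value at infinity -/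
theorem aeval_inf {q : ℕ} {P : MvPolynomial (Fin 2) k} (hP : P.IsHomogeneous q) :
    MvPolynomial.aeval (![1, 0] : Fin 2 → k) P = (dh P).coeff q := by
  conv_lhs => rw [← hom_dh hP, expand, map_sum, Finset.sum_range_succ, Finset.sum_eq_zero (by
    intro i hi
    have hi' := Finset.mem_range.1 hi
    rw [map_mul, map_pow, MvPolynomial.aeval_X]
    show _ * (0 : k) ^ (q - i) = 0
    rw [zero_pow (by omega), mul_zero]), zero_add]
  rw [map_mul, map_mul, map_pow, map_pow, MvPolynomial.aeval_X, MvPolynomial.algHom_C,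
    Nat.sub_self, pow_zero, mul_one]
  show (dh P).coeff q * (1 : k) ^ q = _
  rw [one_pow, mul_one]

theorem pder_inf {q : ℕ} (hq : 1 ≤ q) {P : MvPolynomial (Fin 2) k} (hP : P.IsHomogeneous q) :
    MvPolynomial.aeval (![1, 0] : Fin 2 → k) (MvPolynomial.pderiv 1 P) = (dh P).coeff (q - 1) := by
  have h1 : ∀ i, MvPolynomial.aeval (![1, 0] : Fin 2 → k) (MvPolynomial.pderiv 1
      (MvPolynomial.C ((dh P).coeff i) * MvPolynomial.X 0 ^ i * MvPolynomial.X 1 ^ (q - i) :
        MvPolynomial (Fin 2) k)) = (dh P).coeff i * ((q - i : ℕ) * 0 ^ (q - i - 1)) := by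
    intro i
    rw [MvPolynomial.pderiv_mul, MvPolynomial.pderiv_mul, MvPolynomial.pderiv_C,
      MvPolynomial.pderiv_pow, MvPolynomial.pderiv_pow, MvPolynomial.pderiv_X_self,
      MvPolynomial.pderiv_X_of_ne (by decide : (0 : Fin 2) ≠ 1)]
    simp only [map_mul, map_pow, MvPolynomial.aeval_X, MvPolynomial.algHom_C, zero_mul,
      mul_zero, add_zero, zero_add, mul_one, map_natCast]
    show (dh P).coeff i * (1 : k) ^ i * (((q - i : ℕ) : k) * (0 : k) ^ (q - i - 1)) = _
    rw [one_pow, mul_one]
  conv_lhs => rw [← hom_dh hP, expand, map_sum, map_sum]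
  rw [Finset.sum_congr rfl fun i _ => h1 i, Finset.sum_eq_single (q - 1)]
  · have h2 : q - (q - 1) = 1 := by omega
    rw [h2]
    simp
  · intro i hi hne
    have hi' := Finset.mem_range.1 hi
    rcases Nat.lt_or_ge i q with h | h
    · rw [zero_pow (by omega), mul_zero, mul_zero]
    · have : q - i = 0 := by omega
      rw [this]
      simp
  · intro h
    exact absurd (Finset.mem_range.2 (by omega)) h

theorem pder0_dh (P : MvPolynomial (Fin 2) k) :
    dh (MvPolynomial.pderiv 0 P) = Polynomial.derivative (dh P) := by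
  rw [dh, dh, J19.deriv_aeval, Fin.sum_univ_two]
  show _ = _ * Polynomial.derivative (Polynomial.X : Polynomial k) +
    _ * Polynomial.derivative (1 : Polynomial k)
  rw [Polynomial.derivative_X, Polynomial.derivative_one, mul_one, mul_zero, add_zero]

/-- the value at an affine point -/
theorem gAct_aff (F : Fin 2 → MvPolynomial (Fin 2) k) (a : k) :
    gAct F k ![a, 1] = ![(dh (F 0)).eval a, (dh (F 1)).eval a] := by
  funext i
  fin_cases i
  · show MvPolynomial.aeval ![a, 1] (F 0) = _
    rw [aeval_dh, Polynomial.coe_aeval_eq_eval]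
    rfl
  · show MvPolynomial.aeval ![a, 1] (F 1) = _
    rw [aeval_dh, Polynomial.coe_aeval_eq_eval]
    rfl

theorem gAct_inf {q : ℕ} {F : Fin 2 → MvPolynomial (Fin 2) k} (hF : Mor q F) :
    gAct F k ![1, 0] = ![(dh (F 0)).coeff q, (dh (F 1)).coeff q] := by
  funext i
  fin_cases i
  · exact aeval_inf (hF.hom 0)
  · exact aeval_inf (hF.hom 1)

theorem ne_aff (a : k) : (![a, 1] : Fin 2 → k) ≠ 0 := fun h => by
  have := congrFun h 1
  simp at this

theorem ne_inf : (![1, 0] : Fin 2 → k) ≠ 0 := fun h => by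
  have := congrFun h 0
  simp at this

theorem natDegree_dh {q : ℕ} {F : Fin 2 → MvPolynomial (Fin 2) k} (hF : Mor q F) :
    max (dh (F 0)).natDegree (dh (F 1)).natDegree = q := by
  refine le_antisymm (max_le (natDegree_dh_le (hF.hom 0)) (natDegree_dh_le (hF.hom 1))) ?_
  by_contra hlt
  rw [not_le, max_lt_iff] at hlt
  refine hF.ne k ![1, 0] ne_inf ?_
  rw [gAct_inf hF, Polynomial.coeff_eq_zero_of_natDegree_lt hlt.1,
    Polynomial.coeff_eq_zero_of_natDegree_lt hlt.2]
  funext i
  fin_cases i <;> rfl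

theorem coprime_dh [IsAlgClosed k] {q : ℕ} {F : Fin 2 → MvPolynomial (Fin 2) k} (hF : Mor q F) :
    IsCoprime (dh (F 0)) (dh (F 1)) := by
  rw [Polynomial.isCoprime_iff_aeval_ne_zero_of_isAlgClosed k k]
  intro a
  by_contra h
  push Not at h
  rw [Polynomial.coe_aeval_eq_eval] at h
  refine hF.ne k ![a, 1] (ne_aff a) ?_
  rw [gAct_aff]
  funext i
  fin_cases i
  · exact h.1
  · exact h.2

/-- the map on the affine coordinates -/
theorem pr_rmap {q : ℕ} {F : Fin 2 → MvPolynomial (Fin 2) k} (hF : Mor q F)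
    {P : Fin 2 → k} (hP : P ≠ 0) : pr (gAct F k P) = rmap (dh (F 0)) (dh (F 1)) (pr P) := by
  by_cases h1 : P 1 = 0
  · have h2 : pr P = none := if_pos h1
    have h3 : Prl P ![1, 0] := Bas.prl_of_pr hP ne_inf (by rw [h2]; exact (if_pos rfl).symm)
    rw [Bas.pr_of_prl (Bas.prl_gAct hF.hom h3), h2, gAct_inf hF]
    unfold rmap pr
    rw [natDegree_dh hF]
    rfl
  · have h2 : pr P = some (P 0 / P 1) := if_neg h1
    have h3 : Prl P ![P 0 / P 1, 1] := Bas.prl_of_pr hP (ne_aff _) (by
      rw [h2]
      show _ = if (1 : k) = 0 then none else some (P 0 / P 1 / 1)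
      rw [if_neg one_ne_zero, div_one])
    rw [Bas.pr_of_prl (Bas.prl_gAct hF.hom h3), h2, gAct_aff]
    rfl

theorem euler {q : ℕ} {P : MvPolynomial (Fin 2) k} (hP : P.IsHomogeneous q) (x : Fin 2 → k) :
    x 0 * MvPolynomial.aeval x (MvPolynomial.pderiv 0 P) +
      x 1 * MvPolynomial.aeval x (MvPolynomial.pderiv 1 P) = q * MvPolynomial.aeval x P := by
  have h := congrArg (MvPolynomial.aeval x) (MvPolynomial.IsHomogeneous.sum_X_mul_pderiv hP)
  rw [Fin.sum_univ_two, map_add, map_mul, map_mul, MvPolynomial.aeval_X, MvPolynomial.aeval_X] at h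
  rw [h, nsmul_eq_mul, map_mul, map_natCast]

theorem hom_smul {n : ℕ} {G : MvPolynomial (Fin 2) k} (hG : G.IsHomogeneous n) (c : k)
    (x : Fin 2 → k) : MvPolynomial.aeval (c • x) G = c ^ n * MvPolynomial.aeval x G :=
  congrFun (gAct_smul (fun _ : Fin 2 => G) (fun _ => hG) c x) 0

theorem jac_smul {q : ℕ} {F : Fin 2 → MvPolynomial (Fin 2) k} (hF : Mor q F) (c : k)
    (x : Fin 2 → k) : MvPolynomial.aeval (c • x) (Jac F) =
      c ^ (q - 1) * c ^ (q - 1) * MvPolynomial.aeval x (Jac F) := by
  unfold Jac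
  simp only [map_sub, map_mul]
  rw [hom_smul ((hF.hom 0).pderiv), hom_smul ((hF.hom 1).pderiv), hom_smul ((hF.hom 0).pderiv),
    hom_smul ((hF.hom 1).pderiv)]
  ring

theorem jac_prl {q : ℕ} {F : Fin 2 → MvPolynomial (Fin 2) k} (hF : Mor q F) {P Q : Fin 2 → k}
    (h : Prl P Q) : MvPolynomial.aeval P (Jac F) = 0 ↔ MvPolynomial.aeval Q (Jac F) = 0 := by
  obtain ⟨c, hc, rfl⟩ := h
  rw [jac_smul hF, mul_eq_zero, or_iff_right]
  exact mul_ne_zero (pow_ne_zero _ hc) (pow_ne_zero _ hc)

/-- the critical points -/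
theorem rcrit_iff [CharZero k] {q : ℕ} (hq : 1 ≤ q) {F : Fin 2 → MvPolynomial (Fin 2) k}
    (hF : Mor q F) {P : Fin 2 → k} (hP : P ≠ 0) :
    rcrit (dh (F 0)) (dh (F 1)) (pr P) ↔ MvPolynomial.aeval P (Jac F) = 0 := by
  have hq0 : (q : k) ≠ 0 := Nat.cast_ne_zero.2 (by omega)
  by_cases h1 : P 1 = 0
  · have h2 : pr P = none := if_pos h1
    have h3 : Prl P ![1, 0] := Bas.prl_of_pr hP ne_inf (by rw [h2]; exact (if_pos rfl).symm)
    rw [jac_prl hF h3, h2]
    have e0 := euler (hF.hom 0) ![1, 0]
    have e1 := euler (hF.hom 1) ![1, 0]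
    rw [aeval_inf (hF.hom 0), pder_inf hq (hF.hom 0)] at e0
    rw [aeval_inf (hF.hom 1), pder_inf hq (hF.hom 1)] at e1
    simp only [Matrix.cons_val_zero, Matrix.cons_val_one, one_mul, zero_mul, add_zero] at e0 e1
    unfold rcrit Jac
    rw [map_sub, map_mul, map_mul, pder_inf hq (hF.hom 0), pder_inf hq (hF.hom 1), e0, e1]
    show (dh (F 0)).coeff (max (dh (F 0)).natDegree (dh (F 1)).natDegree - 1) *
      (dh (F 1)).coeff (max (dh (F 0)).natDegree (dh (F 1)).natDegree) =
      (dh (F 0)).coeff (max (dh (F 0)).natDegree (dh (F 1)).natDegree) *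
        (dh (F 1)).coeff (max (dh (F 0)).natDegree (dh (F 1)).natDegree - 1) ↔ _
    rw [natDegree_dh hF]
    constructor
    · intro h
      linear_combination (-(q : k)) * h
    · intro h
      refine mul_left_cancel₀ hq0 ?_
      linear_combination (-1 : k) * h
  · have h2 : pr P = some (P 0 / P 1) := if_neg h1
    have h3 : Prl P ![P 0 / P 1, 1] := Bas.prl_of_pr hP (ne_aff _) (by
      rw [h2]
      show _ = if (1 : k) = 0 then none else some (P 0 / P 1 / 1)
      rw [if_neg one_ne_zero, div_one])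
    rw [jac_prl hF h3, h2]
    set a := P 0 / P 1 with ha
    have e0 := euler (hF.hom 0) ![a, 1]
    have e1 := euler (hF.hom 1) ![a, 1]
    have d0 : MvPolynomial.aeval ![a, 1] (MvPolynomial.pderiv 0 (F 0)) =
        (Polynomial.derivative (dh (F 0))).eval a := by
      rw [aeval_dh, Polynomial.coe_aeval_eq_eval, pder0_dh]
    have d1 : MvPolynomial.aeval ![a, 1] (MvPolynomial.pderiv 0 (F 1)) =
        (Polynomial.derivative (dh (F 1))).eval a := by
      rw [aeval_dh, Polynomial.coe_aeval_eq_eval, pder0_dh]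
    have v0 : MvPolynomial.aeval ![a, 1] (F 0) = (dh (F 0)).eval a := by
      rw [aeval_dh, Polynomial.coe_aeval_eq_eval]
    have v1 : MvPolynomial.aeval ![a, 1] (F 1) = (dh (F 1)).eval a := by
      rw [aeval_dh, Polynomial.coe_aeval_eq_eval]
    simp only [Matrix.cons_val_zero, Matrix.cons_val_one, one_mul] at e0 e1
    rw [d0, v0] at e0
    rw [d1, v1] at e1
    have key : MvPolynomial.aeval ![a, 1] (Jac F) =
        q * (Polynomial.derivative (dh (F 0)) * dh (F 1) -
          dh (F 0) * Polynomial.derivative (dh (F 1))).eval a := by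
      unfold Jac
      rw [map_sub, map_mul, map_mul, d0, d1, Polynomial.eval_sub, Polynomial.eval_mul,
        Polynomial.eval_mul]
      linear_combination (Polynomial.derivative (dh (F 0))).eval a * e1 -
        (Polynomial.derivative (dh (F 1))).eval a * e0
    rw [key, mul_eq_zero, or_iff_right hq0]
    exact Iff.rfl

/-- a vector over a point of the projective line -/
noncomputable def rep : Option k → Fin 2 → k
  | some a => ![a, 1]
  | none => ![1, 0]

theorem rep_ne (o : Option k) : rep o ≠ 0 := by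
  rcases o with _ | a
  · exact ne_inf
  · exact ne_aff a

theorem pr_rep (o : Option k) : pr (rep o) = o := by
  rcases o with _ | a
  · exact if_pos rfl
  · show (if (1 : k) = 0 then none else some (a / 1)) = some a
    rw [if_neg one_ne_zero, div_one]

/-- **Row BRS**: a special rational function gives special forms. -/
theorem brs [CharZero k] {q : ℕ} (hq : 1 ≤ q) {F : Fin 2 → MvPolynomial (Fin 2) k}
    (hF : Mor q F) (h : RSpecial (dh (F 0)) (dh (F 1))) :
    ∃ S : Finset (Fin 2 → k), (∃ x ∈ S, ∃ y ∈ S, ¬ Prl x y) ∧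
      (∀ x ∈ S, x ≠ 0 ∧ ∃ y ∈ S, Prl (gAct F k x) y) ∧
      ∀ x, x ≠ 0 → (∃ y ∈ S, Prl (gAct F k x) y) →
        (∃ y ∈ S, Prl x y) ∨ MvPolynomial.aeval x (Jac F) = 0 := by
  obtain ⟨S, hfin, hnt, h1, h2⟩ := h
  have hmem : ∀ o, o ∈ S → rep o ∈ hfin.toFinset.image rep := fun o ho =>
    Finset.mem_image_of_mem _ (hfin.mem_toFinset.2 ho)
  refine ⟨hfin.toFinset.image rep, ?_, ?_, ?_⟩
  · obtain ⟨a, ha, b, hb, hab⟩ := hnt
    refine ⟨rep a, hmem a ha, rep b, hmem b hb, fun h3 => hab ?_⟩
    have h4 := Bas.pr_of_prl h3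
    rwa [pr_rep, pr_rep] at h4
  · intro x hx
    obtain ⟨o, ho, rfl⟩ := Finset.mem_image.1 hx
    have ho' := hfin.mem_toFinset.1 ho
    refine ⟨rep_ne o, rep (rmap (dh (F 0)) (dh (F 1)) o), hmem _ (h1 o ho'), ?_⟩
    refine Bas.prl_of_pr (hF.ne k _ (rep_ne o)) (rep_ne _) ?_
    rw [pr_rmap hF (rep_ne o), pr_rep, pr_rep]
  · rintro x hx ⟨y, hy, hxy⟩
    obtain ⟨o, ho, rfl⟩ := Finset.mem_image.1 hy
    have ho' := hfin.mem_toFinset.1 ho
    have h3 : rmap (dh (F 0)) (dh (F 1)) (pr x) ∈ S := by
      rw [← pr_rmap hF hx, Bas.pr_of_prl hxy, pr_rep]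
      exact ho'
    rcases h2 (pr x) h3 with h4 | h4
    · exact Or.inl ⟨rep (pr x), hmem _ h4, Bas.prl_of_pr hx (rep_ne _) (pr_rep _).symm⟩
    · exact Or.inr ((rcrit_iff hq hF hx).1 h4)

end

end Pool.DynLehmer.UN.R96

end

section

set_option linter.unusedSectionVars false

/-!
# Rational maps as pairs of coprime forms: degrees and proportionality
-/

namespace Pool.DynLehmer.UN.Ra72
open MvPolynomial Pool.DynLehmer Pool.DynLehmer.SB Pool.DynLehmer.SP
  Pool.DynLehmer.GS Pool.DynLehmer.LP Pool.DynLehmer.LW Pool.DynLehmer.UN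
open scoped Classical

variable {k : Type} [Field k] {L : Type} [Field L] [Algebra k L]

/-- the dehomogenized forms -/
noncomputable def dp (P : Fin 2 → MvPolynomial (Fin 2) k) (i : Fin 2) : Polynomial k :=
  aeval (![Polynomial.X, 1] : Fin 2 → Polynomial k) (P i)

theorem dp_hom {D : ℕ} {P : Fin 2 → MvPolynomial (Fin 2) k} (hP : Mor D P) (i : Fin 2) :
    (dp P i).homogenize D = P i := Polynomial.homogenize_eq_of_isHomogeneous (hP.hom i) rfl

theorem dp_aeval (P : Fin 2 → MvPolynomial (Fin 2) k) (i : Fin 2) (z : L) :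
    Polynomial.aeval z (dp P i) = aeval ![z, 1] (P i) := by
  have h3 : (Polynomial.aeval z).comp (aeval (![Polynomial.X, 1] : Fin 2 → Polynomial k)) =
      (aeval ![z, 1] : MvPolynomial (Fin 2) k →ₐ[k] L) := by
    refine MvPolynomial.algHom_ext fun i => ?_
    rw [aeval_X]
    show Polynomial.aeval z (aeval (![Polynomial.X, 1] : Fin 2 → Polynomial k) (X i)) = _
    rw [aeval_X]
    fin_cases i
    · exact Polynomial.aeval_X z
    · exact map_one _
  exact DFunLike.congr_fun h3 (P i)

/-- the value of a form at the point at infinity -/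
theorem hom_infty (p : Polynomial k) (D : ℕ) (P : Fin 2 → L) (h : P 1 = 0) :
    aeval P (p.homogenize D) = algebraMap k L (p.coeff D) * P 0 ^ D := by
  rw [Polynomial.homogenize, map_sum, Finset.sum_eq_single (D, 0)]
  · rw [aeval_monomial, Finsupp.update_eq_add_single (by simp), Finsupp.prod_fintype _ _
      (fun _ => pow_zero _), Fin.prod_univ_two]
    simp
  · intro a ha hne
    rw [aeval_monomial, Finsupp.update_eq_add_single (by simp), Finsupp.prod_fintype _ _
      (fun _ => pow_zero _), Fin.prod_univ_two, h]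
    have h1 : a.2 ≠ 0 := by
      intro h0
      have h2 := Finset.HasAntidiagonal.mem_antidiagonal.1 ha
      exact hne (Prod.ext (by simp only; omega) h0)
    simp [zero_pow h1]
  · intro hn
    exact absurd (Finset.HasAntidiagonal.mem_antidiagonal.2 (add_zero D)) hn

/-- the value of a form at an affine point -/
theorem hom_aff (p : Polynomial k) {D : ℕ} (hD : p.natDegree ≤ D) (P : Fin 2 → L) (h : P 1 ≠ 0) :
    aeval P (p.homogenize D) = Polynomial.aeval (P 0 / P 1) p * P 1 ^ D := by
  have h1 : aeval P (p.homogenize D) = eval P ((p.map (algebraMap k L)).homogenize D) := by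
    rw [Polynomial.homogenize_map, eval_map, aeval_def]
  rw [h1, Polynomial.eval_homogenize (by rw [Polynomial.natDegree_map]; exact hD) P h,
    Polynomial.eval_map_algebraMap]

theorem dp_le {D : ℕ} {P : Fin 2 → MvPolynomial (Fin 2) k} (hP : Mor D P) (i : Fin 2) :
    (dp P i).natDegree ≤ D := by
  rw [dp, (P i).as_sum, map_sum]
  refine Polynomial.natDegree_sum_le_of_forall_le _ _ fun m hm => ?_
  have h1 : m.degree = D := by
    rw [Finsupp.degree_eq_weight_one]
    exact hP.hom i (mem_support_iff.1 hm)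
  rw [Finsupp.degree_eq_sum, Fin.sum_univ_two] at h1
  rw [aeval_monomial, Finsupp.prod_fintype _ _ (fun _ => pow_zero _), Fin.prod_univ_two]
  have h2 : (![Polynomial.X, 1] : Fin 2 → Polynomial k) 0 = Polynomial.X := rfl
  have h3 : (![Polynomial.X, 1] : Fin 2 → Polynomial k) 1 = 1 := rfl
  rw [h2, h3, one_pow, mul_one]
  exact (Polynomial.natDegree_C_mul_X_pow_le _ _).trans (by omega)

theorem dp_max {D : ℕ} {P : Fin 2 → MvPolynomial (Fin 2) k} (hP : Mor D P) :
    max (dp P 0).natDegree (dp P 1).natDegree = D := by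
  refine le_antisymm (max_le (dp_le hP 0) (dp_le hP 1)) ?_
  by_contra hlt
  rw [not_le, max_lt_iff] at hlt
  refine hP.ne k ![1, 0] (fun h => one_ne_zero (congrFun h 0)) ?_
  funext i
  show aeval ![1, 0] (P i) = 0
  rw [← dp_hom hP i, hom_infty _ _ _ rfl]
  have h1 : (dp P i).natDegree < D := by
    fin_cases i
    · exact hlt.1
    · exact hlt.2
  rw [Polynomial.coeff_eq_zero_of_natDegree_lt h1, map_zero, zero_mul]

theorem dp_cop [IsAlgClosed k] {D : ℕ} {P : Fin 2 → MvPolynomial (Fin 2) k} (hP : Mor D P) :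
    IsCoprime (dp P 0) (dp P 1) := by
  rw [Polynomial.isCoprime_iff_aeval_ne_zero_of_isAlgClosed k k]
  intro a
  by_contra h
  push Not at h
  refine hP.ne k ![a, 1] (fun h => one_ne_zero (congrFun h 1)) ?_
  funext i
  show aeval ![a, 1] (P i) = 0
  rw [← dp_aeval]
  fin_cases i
  · exact h.1
  · exact h.2

/-- coprime polynomials give a map -/
theorem mor_of {a b : Polynomial k} (hab : IsCoprime a b) {D : ℕ}
    (hD : max a.natDegree b.natDegree = D) (hD1 : 1 ≤ D) :
    Mor D ![a.homogenize D, b.homogenize D] := by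
  have ha : a.natDegree ≤ D := hD ▸ le_max_left _ _
  have hb : b.natDegree ≤ D := hD ▸ le_max_right _ _
  refine ⟨fun i => ?_, fun N _ _ P hP h => ?_⟩
  · fin_cases i
    · exact Polynomial.isHomogeneous_homogenize a
    · exact Polynomial.isHomogeneous_homogenize b
  · have h0 : aeval P (a.homogenize D) = 0 := congrFun h 0
    have h1 : aeval P (b.homogenize D) = 0 := congrFun h 1
    by_cases h2 : P 1 = 0
    · have h3 : P 0 ≠ 0 := by
        intro h3
        refine hP (funext fun i => ?_)
        fin_cases i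
        · exact h3
        · exact h2
      rw [hom_infty _ _ _ h2] at h0 h1
      have h4 := (mul_eq_zero.1 h0).resolve_right (pow_ne_zero _ h3)
      have h5 := (mul_eq_zero.1 h1).resolve_right (pow_ne_zero _ h3)
      rw [map_eq_zero] at h4 h5
      rcases max_choice a.natDegree b.natDegree with h6 | h6
      · rw [h6] at hD
        rw [← hD, Polynomial.coeff_natDegree, Polynomial.leadingCoeff_eq_zero] at h4
        rw [h4, Polynomial.natDegree_zero] at hD
        omega
      · rw [h6] at hD
        rw [← hD, Polynomial.coeff_natDegree, Polynomial.leadingCoeff_eq_zero] at h5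
        rw [h5, Polynomial.natDegree_zero] at hD
        omega
    · rw [hom_aff _ ha _ h2] at h0
      rw [hom_aff _ hb _ h2] at h1
      have h4 := (mul_eq_zero.1 h0).resolve_right (pow_ne_zero _ h2)
      have h5 := (mul_eq_zero.1 h1).resolve_right (pow_ne_zero _ h2)
      rcases Polynomial.aeval_ne_zero_of_isCoprime hab (P 0 / P 1) with h | h
      · exact h h4
      · exact h h5

theorem fr_eq (P : Fin 2 → MvPolynomial (Fin 2) k) (z : L) :
    fr P z = Polynomial.aeval z (dp P 0) / Polynomial.aeval z (dp P 1) := by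
  rw [dp_aeval, dp_aeval]
  rfl

/-- two maps with the same value at a transcendental point are proportional -/
theorem prop_of_fr [IsAlgClosed k] {D D' : ℕ} {P Q : Fin 2 → MvPolynomial (Fin 2) k}
    (hP : Mor D P) (hQ : Mor D' Q) (hD : 1 ≤ D) (hD' : 1 ≤ D') {x : L} (hx : Transcendental k x)
    (h : fr P x = fr Q x) : D = D' ∧ ∃ c : k, c ≠ 0 ∧ ∀ i, Q i = C c * P i := by
  have hb := Rb.den_ne hP hD hx
  have hb' := Rb.den_ne hQ hD' hx
  rw [← dp_aeval] at hb hb'
  have ha : dp P 0 ≠ 0 := by
    intro h0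
    have h1 := Rb.trans_fr hP hD hx
    rw [fr_eq, h0, map_zero, zero_div] at h1
    exact h1 isAlgebraic_zero
  have hb0 : dp P 1 ≠ 0 := fun h0 => hb (by rw [h0, map_zero])
  have hinj := transcendental_iff_injective.1 hx
  have hmul : dp P 0 * dp Q 1 = dp Q 0 * dp P 1 := by
    apply hinj
    rw [map_mul, map_mul]
    rw [fr_eq, fr_eq, div_eq_div_iff hb hb'] at h
    exact h
  have h1 : dp P 0 ∣ dp Q 0 :=
    (dp_cop hP).dvd_of_dvd_mul_right ⟨dp Q 1, by rw [hmul]⟩
  have h2 : dp Q 0 ∣ dp P 0 :=
    (dp_cop hQ).dvd_of_dvd_mul_right ⟨dp P 1, by rw [hmul]⟩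
  obtain ⟨u, hu⟩ := associated_of_dvd_dvd h1 h2
  obtain ⟨c, hc, hcu⟩ := Polynomial.isUnit_iff.1 u.isUnit
  have hc0 : c ≠ 0 := hc.ne_zero
  rw [← hcu] at hu
  have hu' : dp Q 0 = Polynomial.C c * dp P 0 := by rw [← hu, mul_comm]
  have hv' : dp Q 1 = Polynomial.C c * dp P 1 := by
    apply mul_left_cancel₀ ha
    rw [hmul, hu']
    ring
  have hDD : D = D' := by
    rw [← dp_max hP, ← dp_max hQ, hu', hv', Polynomial.natDegree_C_mul hc0,
      Polynomial.natDegree_C_mul hc0]
  refine ⟨hDD, c, hc0, fun i => ?_⟩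
  rw [← dp_hom hQ i, ← dp_hom hP i, hDD]
  have h3 : dp Q i = Polynomial.C c * dp P i := by
    fin_cases i
    · exact hu'
    · exact hv'
  rw [h3, Polynomial.homogenize_C_mul]

open IntermediateField in
/-- a transcendental element of `k(x)` is a rational function of `x` -/
theorem exists_forms {x v : L} (hx : Transcendental k x) (hv : Transcendental k v)
    (hm : v ∈ adjoin k {x}) : ∃ (D : ℕ) (Q : Fin 2 → MvPolynomial (Fin 2) k), 1 ≤ D ∧ Mor D Q ∧
      fr Q x = v ∧ relfinrank (adjoin k {v}) (adjoin k {x}) = D := by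
  have h1 : adjoin k {x} = (⊤ : IntermediateField k (RatFunc k)).map (Y1b86.io hx) := by
    rw [← RatFunc.adjoin_X, adjoin_map, Set.image_singleton, Y1b86.io_X]
  rw [h1] at hm
  obtain ⟨g, -, hg⟩ := hm
  have hg' : Y1b86.io hx g = v := hg
  have h2 : adjoin k {v} = (adjoin k {g}).map (Y1b86.io hx) := by
    rw [adjoin_map, Set.image_singleton, hg']
  have h3 : relfinrank (adjoin k {v}) (adjoin k {x}) =
      max g.num.natDegree g.denom.natDegree := by
    rw [h1, h2, relfinrank_map_map, relfinrank_top_right, RatFunc.finrank_eq_max_natDegree]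
  have hgC : ¬ ∃ c, g = RatFunc.C c := by
    rintro ⟨c, rfl⟩
    refine hv ?_
    rw [← hg']
    have : RatFunc.C c = algebraMap k (RatFunc k) c := rfl
    rw [this, AlgHom.commutes]
    exact isAlgebraic_algebraMap c
  have hD : 1 ≤ max g.num.natDegree g.denom.natDegree := by
    by_contra hlt
    have h0 : max g.num.natDegree g.denom.natDegree = 0 := by omega
    exact hgC ((RatFunc.eq_C_iff g).2 (Nat.max_eq_zero_iff.1 h0))
  refine ⟨_, _, hD, mor_of g.isCoprime_num_denom rfl hD, ?_, h3⟩
  have h4 : g.num.natDegree ≤ max g.num.natDegree g.denom.natDegree := le_max_left _ _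
  have h5 : g.denom.natDegree ≤ max g.num.natDegree g.denom.natDegree := le_max_right _ _
  show aeval ![x, 1] (g.num.homogenize _) / aeval ![x, 1] (g.denom.homogenize _) = v
  rw [hom_aff _ h4 _ (one_ne_zero : (![x, 1] : Fin 2 → L) 1 ≠ 0),
    hom_aff _ h5 _ (one_ne_zero : (![x, 1] : Fin 2 → L) 1 ≠ 0)]
  have h6 : (![x, 1] : Fin 2 → L) 1 = 1 := rfl
  have h7 : (![x, 1] : Fin 2 → L) 0 = x := rfl
  rw [h6, h7, div_one, one_pow, mul_one, mul_one, ← Y1b86.io_map hx, ← Y1b86.io_map hx,
    ← map_div₀, RatFunc.num_div_denom, hg']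

open IntermediateField in
theorem fr_mem (P : Fin 2 → MvPolynomial (Fin 2) k) {E : IntermediateField k L} {z : L}
    (hz : z ∈ E) : fr P z ∈ E := by
  rw [fr_eq]
  exact div_mem (Y1b86.mem_adjoin_f _ hz) (Y1b86.mem_adjoin_f _ hz)

open IntermediateField in
/-- the degree of a map -/
theorem relf [IsAlgClosed k] {D : ℕ} {P : Fin 2 → MvPolynomial (Fin 2) k} (hP : Mor D P)
    (hD : 1 ≤ D) {x : L} (hx : Transcendental k x) :
    relfinrank (adjoin k {fr P x}) (adjoin k {x}) = D := by
  obtain ⟨D', Q, hD', hQ, hQx, h1⟩ := exists_forms hx (Rb.trans_fr hP hD hx)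
    (fr_mem P (mem_adjoin_simple_self k x))
  rw [h1]
  exact (prop_of_fr hP hQ hD hD' hx hQx.symm).1.symm

end Pool.DynLehmer.UN.Ra72

end

section

set_option linter.unusedSectionVars false

/-!
# Periodic pairs of equal degrees lie on finitely many correspondences
-/

namespace Pool.DynLehmer.UN.Ra72
open MvPolynomial Pool.DynLehmer Pool.DynLehmer.SB Pool.DynLehmer.SP
  Pool.DynLehmer.GS Pool.DynLehmer.LP Pool.DynLehmer.LW Pool.DynLehmer.UN
open scoped Classical

variable {k : Type} [Field k] {L : Type} [Field L] [Algebra k L]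

/-! ### Compositions -/

theorem gAct_comp (A B : Fin 2 → MvPolynomial (Fin 2) k) (P : Fin 2 → L) :
    gAct (fun i => bind₁ B (A i)) L P = gAct A L (gAct B L P) := by
  funext i
  show aeval P (bind₁ B (A i)) = aeval (gAct B L P) (A i)
  rw [aeval_bind₁]
  rfl

theorem mor_comp {a b : ℕ} {A B : Fin 2 → MvPolynomial (Fin 2) k} (hA : Mor a A) (hB : Mor b B) :
    Mor (b * a) (fun i => bind₁ B (A i)) where
  hom i := (hA.hom i).eval₂ _ _ (fun r => isHomogeneous_C _ r) hB.hom
  ne N _ _ P hP := by
    rw [gAct_comp]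
    exact hA.ne N _ (hB.ne N P hP)

theorem fr_of_prl {P : Fin 2 → MvPolynomial (Fin 2) k} {z w : L}
    (h : Prl (gAct P L ![z, 1]) ![w, 1]) : fr P z = w := by
  obtain ⟨c, hc, h⟩ := h
  have h0 : aeval ![z, 1] (P 0) = c * w := congrFun h 0
  have h1 : aeval ![z, 1] (P 1) = c * 1 := congrFun h 1
  rw [fr, h0, h1, mul_one, mul_div_cancel_left₀ _ hc]

theorem fr_of_prl' {P : Fin 2 → MvPolynomial (Fin 2) k} {z z' : L}
    (h : Prl (gAct P L ![z', 1]) (gAct P L ![z, 1])) : fr P z' = fr P z := by
  obtain ⟨c, hc, h⟩ := h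
  have h0 : aeval ![z', 1] (P 0) = c * aeval ![z, 1] (P 0) := congrFun h 0
  have h1 : aeval ![z', 1] (P 1) = c * aeval ![z, 1] (P 1) := congrFun h 1
  rw [fr, fr, h0, h1, mul_div_mul_left _ _ hc]

theorem fr_comp {a b : ℕ} {A B : Fin 2 → MvPolynomial (Fin 2) k} (hA : Mor a A) (hB : Mor b B)
    (hb : 1 ≤ b) (ha : 1 ≤ a) {z : L} (hz : Transcendental k z) :
    fr (fun i => bind₁ B (A i)) z = fr A (fr B z) := by
  apply fr_of_prl
  rw [gAct_comp, Rb.act_eq hB hb hz]
  refine Bas.prl_trans (Bas.prl_gAct hA.hom (Bas.prl_smul _ (Rb.den_ne hB hb hz))) ?_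
  rw [Rb.act_eq hA ha (Rb.trans_fr hB hb hz)]
  exact Bas.prl_smul _ (Rb.den_ne hA ha (Rb.trans_fr hB hb hz))

variable {q : ℕ} {F : Fin 2 → MvPolynomial (Fin 2) k}

theorem fr_itF (hF : Mor q F) (hq : 1 ≤ q) (n : ℕ) {z : L} (hz : Transcendental k z) :
    fr (itF F n) z = (fr F)^[n] z := by
  apply fr_of_prl
  rw [Bas.gAct_itF]
  exact Rb.iter_prl hF hq hz n

theorem it_mem {E : IntermediateField k L} {z : L} (hz : z ∈ E) (n : ℕ) : (fr F)^[n] z ∈ E := by
  induction n with
  | zero => exact hz
  | succ n ih =>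
    rw [Function.iterate_succ_apply']
    exact fr_mem F ih

open IntermediateField

theorem alg_down {x w : L} (halg : Algebra.IsAlgebraic (adjoin k {x}) L)
    (hx : IsAlgebraic (adjoin k {w}) x) : Algebra.IsAlgebraic (adjoin k {w}) L := by
  let A := algebraicClosure (adjoin k {w}) L
  have hle : (adjoin k {x}).toSubalgebra ≤ (A.restrictScalars k).toSubalgebra := by
    have h1 : adjoin k {x} ≤ A.restrictScalars k := by
      refine adjoin_le_iff.2 ?_
      rintro _ rfl
      exact mem_algebraicClosure_iff.2 hx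
    exact h1
  have h2 : Algebra.IsAlgebraic A L := ⟨fun z =>
    IsAlgebraic.tower_top_of_subalgebra_le hle (halg.isAlgebraic z)⟩
  exact Algebra.IsAlgebraic.trans (adjoin k {w}) A L

/-- an element which is constant on the fibres of `F` -/
theorem mem_of_fixed [CharZero k] [IsAlgClosed k] [IsAlgClosed L] (hF : Mor q F) (hq : 1 ≤ q) {z : L}
    (hz : Transcendental k z) (halg : Algebra.IsAlgebraic (adjoin k {z}) L)
    (P : Fin 2 → MvPolynomial (Fin 2) k)
    (h : ∀ z' : L, Transcendental k z' → fr F z' = fr F z → fr P z' = fr P z) :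
    fr P z ∈ adjoin k {fr F z} := by
  have hle : adjoin k {fr F z} ≤ adjoin k {z} :=
    adjoin_le_iff.2 (by rintro _ rfl; exact fr_mem F (mem_adjoin_simple_self k z))
  have h1 := relf hF hq hz
  rw [relfinrank_eq_finrank_of_le hle] at h1
  have hfin : FiniteDimensional (adjoin k {fr F z}) (extendScalars hle) :=
    FiniteDimensional.of_finrank_pos (by omega)
  have hzm : z ∈ extendScalars hle := mem_adjoin_simple_self k z
  have h2 : IsAlgebraic (adjoin k {fr F z}) z := by
    have h3 : IsAlgebraic (adjoin k {fr F z}) (⟨z, hzm⟩ : extendScalars hle) :=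
      Algebra.IsAlgebraic.isAlgebraic _
    exact h3.algebraMap (A := L)
  have h3 := alg_down halg h2
  have : CharZero (adjoin k {fr F z}) := charZero_of_injective_algebraMap
    (algebraMap k (adjoin k {fr F z})).injective
  have : IsAlgClosure (adjoin k {fr F z}) L := ⟨inferInstance, h3⟩
  obtain ⟨w, hw⟩ := (InfiniteGalois.mem_range_algebraMap_iff_fixed (k := adjoin k {fr F z})
    (fr P z)).2 (fun σ => by
      have hσ : ∀ (Q : Fin 2 → MvPolynomial (Fin 2) k) (t : L), σ (fr Q t) = fr Q (σ t) :=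
        fun Q t => Rb.map_fr ((σ : L →ₐ[adjoin k {fr F z}] L).restrictScalars k) t
      rw [hσ]
      refine h _ (fun h4 => hz ?_) ?_
      · have h5 := h4.algHom ((σ.symm : L →ₐ[adjoin k {fr F z}] L).restrictScalars k)
        have h6 : ((σ.symm : L →ₐ[adjoin k {fr F z}] L).restrictScalars k) (σ z) = z :=
          σ.symm_apply_apply z
        rwa [h6] at h5
      rw [← hσ]
      exact σ.commutes (⟨fr F z, mem_adjoin_simple_self k _⟩ : adjoin k {fr F z}))
  rw [← hw]
  exact w.2

/-- the point is algebraic over its images -/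
theorem alg_it [IsAlgClosed k] (hF : Mor q F) (hq : 1 ≤ q) {x : L} (hx : Transcendental k x)
    (halg : Algebra.IsAlgebraic (adjoin k {x}) L) (j : ℕ) :
    Algebra.IsAlgebraic (adjoin k {(fr F)^[j] x}) L := by
  have hle : adjoin k {(fr F)^[j] x} ≤ adjoin k {x} :=
    adjoin_le_iff.2 (by rintro _ rfl; exact it_mem (mem_adjoin_simple_self k x) j)
  have h1 := relf (Bas.mor_itF hF j) (Nat.one_le_pow _ _ hq) hx
  rw [fr_itF hF hq j hx, relfinrank_eq_finrank_of_le hle] at h1
  have hfin : FiniteDimensional (adjoin k {(fr F)^[j] x}) (extendScalars hle) :=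
    FiniteDimensional.of_finrank_pos (by rw [h1]; exact Nat.pow_pos hq)
  have hzm : x ∈ extendScalars hle := mem_adjoin_simple_self k x
  refine alg_down halg ?_
  have h3 : IsAlgebraic (adjoin k {(fr F)^[j] x}) (⟨x, hzm⟩ : extendScalars hle) :=
    Algebra.IsAlgebraic.isAlgebraic _
  exact h3.algebraMap (A := L)

theorem mem_of_map (φ : L →ₐ[k] L) {x u : L} (h : φ u ∈ adjoin k {φ x}) : u ∈ adjoin k {x} := by
  have h1 : adjoin k {φ x} = (adjoin k {x}).map φ := by
    rw [adjoin_map, Set.image_singleton]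
  rw [h1] at h
  obtain ⟨w, hw, hwu⟩ := h
  have h2 : w = u := φ.injective hwu
  rw [← h2]
  exact hw

/-! ### The functional equations -/

/-- two maps of the same degree with the same value at a transcendental point -/
theorem prop_of {D : ℕ} [IsAlgClosed k] {P Q : Fin 2 → MvPolynomial (Fin 2) k} (hP : Mor D P)
    (hQ : Mor D Q) (hD : 1 ≤ D) {x : L} (hx : Transcendental k x) (h : fr P x = fr Q x) :
    ∃ c : k, c ≠ 0 ∧ ∀ i, P i = C c * Q i :=
  (prop_of_fr hQ hP hD hD hx h.symm).2

section pair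

variable [IsAlgClosed k] {φ : L →ₐ[k] L} {M n : ℕ} {x y : L}

/-- the degree of `y (n + j)` as a function of `x j` -/
theorem deg_pair (hF : Mor q F) (hq : 1 ≤ q) (hx : Transcendental k x) (hy : Transcendental k y)
    (hdeg : relfinrank (adjoin k {x}) (adjoin k {x, y}) =
      relfinrank (adjoin k {y}) (adjoin k {x, y}))
    (hne : relfinrank (adjoin k {x}) (adjoin k {x, y}) ≠ 0) {j : ℕ}
    (hm : (fr F)^[n + j] y ∈ adjoin k {(fr F)^[j] x}) :
    relfinrank (adjoin k {(fr F)^[n + j] y}) (adjoin k {(fr F)^[j] x}) = q ^ n := by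
  have ha : ∀ {z : L} (_ : Transcendental k z) (i : ℕ),
      relfinrank (adjoin k {(fr F)^[i] z}) (adjoin k {z}) = q ^ i := by
    intro z hz i
    rw [← fr_itF hF hq i hz]
    exact relf (Bas.mor_itF hF i) (Nat.one_le_pow _ _ hq) hz
  have hle : ∀ (z : L) (i : ℕ), adjoin k {(fr F)^[i] z} ≤ adjoin k {z} := by
    intro z i
    refine adjoin_le_iff.2 ?_
    rintro _ rfl
    exact it_mem (mem_adjoin_simple_self k z) i
  have l1 : adjoin k {x} ≤ adjoin k {x, y} := adjoin.mono k _ _ (by simp)
  have l2 : adjoin k {y} ≤ adjoin k {x, y} := adjoin.mono k _ _ (by simp)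
  have l3 : adjoin k {(fr F)^[n + j] y} ≤ adjoin k {(fr F)^[j] x} := by
    refine adjoin_le_iff.2 ?_
    rintro _ rfl
    exact hm
  have e1 := relfinrank_mul_relfinrank l3 (hle x j)
  have e2 := relfinrank_mul_relfinrank (l3.trans (hle x j)) l1
  have e3 := relfinrank_mul_relfinrank (hle y (n + j)) l2
  rw [ha hx] at e1
  rw [ha hy, ← hdeg] at e3
  rw [← e1, ← e3, pow_add, mul_assoc, mul_assoc] at e2
  exact Nat.eq_of_mul_eq_mul_right (Nat.mul_pos (Nat.pow_pos hq) (Nat.pos_of_ne_zero hne)) e2

/-- the maps `Q j` with `Q j (x j) = y (n + j)` -/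
theorem exists_Q (hF : Mor q F) (hq : 1 ≤ q) (hx : Transcendental k x)
    (hy : Transcendental k y) (hφx : φ x = (fr F)^[M] x) (hφy : φ y = (fr F)^[M] y)
    (hdeg : relfinrank (adjoin k {x}) (adjoin k {x, y}) =
      relfinrank (adjoin k {y}) (adjoin k {x, y}))
    (hne : relfinrank (adjoin k {x}) (adjoin k {x, y}) ≠ 0)
    (hm : ∀ j, (fr F)^[n + j] y ∈ adjoin k {(fr F)^[j] x}) :
    ∃ Q : ℕ → Fin 2 → MvPolynomial (Fin 2) k, (∀ j, Mor (q ^ n) (Q j)) ∧
      (∀ j, Q (j + M) = Q j) ∧ (∀ j, fr (Q j) ((fr F)^[j] x) = (fr F)^[n + j] y) ∧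
      RV.Sj F Q := by
  have hex : ∀ j, ∃ Q : Fin 2 → MvPolynomial (Fin 2) k, Mor (q ^ n) Q ∧
      fr Q ((fr F)^[j] x) = (fr F)^[n + j] y := by
    intro j
    obtain ⟨D, Q, hD, hQ, hQx, hrel⟩ := exists_forms (Rb.trans_it hF hq hx j)
      (Rb.trans_it hF hq hy (n + j)) (hm j)
    rw [deg_pair hF hq hx hy hdeg hne (hm j)] at hrel
    exact ⟨Q, hrel ▸ hQ, hQx⟩
  choose Q₀ hQ₀ hQ₀x using hex
  have hQx : ∀ j, fr (Q₀ (j % M)) ((fr F)^[j] x) = (fr F)^[n + j] y := by
    intro j
    obtain ⟨ψ, hψ⟩ := Pg3H72.exists_pow φ (j / M)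
    have h1 := congrArg ψ (hQ₀x (j % M))
    rw [Rb.map_fr, Rb.map_it, Rb.map_it, hψ, hψ, Rb.iter_pt φ hφx, Rb.iter_pt φ hφy,
      ← Function.iterate_add_apply, ← Function.iterate_add_apply] at h1
    have h2 : j % M + j / M * M = j := by
      rw [mul_comm]
      exact Nat.mod_add_div j M
    rw [add_assoc, h2] at h1
    exact h1
  refine ⟨fun j => Q₀ (j % M), fun j => hQ₀ _, fun j => ?_, hQx, fun j => ?_⟩
  · show Q₀ ((j + M) % M) = Q₀ (j % M)
    rw [Nat.add_mod_right]
  · have hn : 1 ≤ q ^ n := Nat.one_le_pow _ _ hq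
    have hxj := Rb.trans_it hF hq hx j
    refine prop_of (P := fun i => bind₁ F (Q₀ ((j + 1) % M) i))
      (Q := fun i => bind₁ (Q₀ (j % M)) (F i)) (mor_comp (hQ₀ _) hF) ?_ ?_ hxj ?_
    · rw [mul_comm]
      exact mor_comp hF (hQ₀ _)
    · exact Nat.mul_pos hq hn
    · rw [fr_comp (hQ₀ _) hF hq hn hxj, fr_comp hF (hQ₀ _) hn hq hxj, hQx,
        ← Function.iterate_succ_apply' (fr F), ← Function.iterate_succ_apply' (fr F)]
      exact hQx (j + 1)

end pair

/-! ### The theorem -/

/-- PAIR1 for a given map. -/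
def Pair1F (F : Fin 2 → MvPolynomial (Fin 2) k) : Prop :=
  ∀ (L : Type) [Field L] [Algebra k L] (φ : L →ₐ[k] L) (M : ℕ) (x y : L), 1 ≤ M →
    Transcendental k x → Transcendental k y → IsAlgebraic (adjoin k {x}) y →
    φ x = (fr F)^[M] x → φ y = (fr F)^[M] y →
    ∃ n : ℕ, ∀ j : ℕ, (fr F)^[n + j] y ∈ adjoin k {(fr F)^[j] x}

/-- VFIN for a given map. -/
def VfinF (q : ℕ) (F : Fin 2 → MvPolynomial (Fin 2) k) : Prop :=
  ∃ n₁ : ℕ, ∀ (n n' M : ℕ) (Q R : ℕ → Fin 2 → MvPolynomial (Fin 2) k), n₁ ≤ n → 1 ≤ M →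
    (∀ j, Mor (q ^ n) (Q j)) → (∀ j, Mor (q ^ n') (R j)) →
    (∀ j, Q (j + M) = Q j) → (∀ j, R (j + M) = R j) → RV.Sj F Q → RV.Sj F R →
    (∀ j, ∃ (j' : ℕ) (c : k), c ≠ 0 ∧
      ∀ i, bind₁ (Q j) (R j' i) = C c * itF F (n + n') i) →
    ∀ (j : ℕ) (N : Type) [Field N] [Algebra k N] (z z' : Fin 2 → N),
      z' ≠ 0 → z 1 ≠ 0 → Transcendental k (z 0 / z 1) →
      Prl (gAct F N z') (gAct F N z) → Prl (gAct (Q j) N z') (gAct (Q j) N z)

/-- FQT for a given map. -/
def FqtF (F : Fin 2 → MvPolynomial (Fin 2) k) : Prop :=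
  ∀ D : ℕ, 1 ≤ D → ∃ S : Finset (Fin 2 → MvPolynomial (Fin 2) k),
    ∀ Q : ℕ → Fin 2 → MvPolynomial (Fin 2) k, (∀ j, Mor D (Q j)) → RV.Sj F Q →
      ∃ P ∈ S, ∃ c : k, c ≠ 0 ∧ ∀ i, Q 0 i = C c * P i

theorem mid [IsAlgClosed k] [CharZero k] (hq : 1 ≤ q) (hF : Mor q F) (h1 : Pair1F F)
    (hV : VfinF q F) (hT : FqtF F) :
    ∃ (n₁ : ℕ) (T : Finset (Fin 2 → MvPolynomial (Fin 2) k)), (∀ P ∈ T, Mor (q ^ n₁) P) ∧
      ∀ (L : Type) [Field L] [Algebra k L] [IsAlgClosed L] (φ : L →ₐ[k] L) (M : ℕ) (x y : L),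
        1 ≤ M → Transcendental k x → Transcendental k y →
        Algebra.IsAlgebraic (adjoin k {x}) L → φ x = (fr F)^[M] x → φ y = (fr F)^[M] y →
        relfinrank (adjoin k {x}) (adjoin k {x, y}) =
          relfinrank (adjoin k {y}) (adjoin k {x, y}) →
        ∃ P ∈ T, (fr F)^[n₁] y = fr P x := by
  obtain ⟨n₁, hV⟩ := hV
  obtain ⟨S, hS⟩ := hT (q ^ n₁) (Nat.one_le_pow _ _ hq)
  refine ⟨n₁, S.filter fun P => Mor (q ^ n₁) P, fun P hP => (Finset.mem_filter.1 hP).2, ?_⟩
  intro L _ _ _ φ M x y hM hx hy halg hφx hφy hdeg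
  have l1 : adjoin k {x} ≤ adjoin k {x, y} := adjoin.mono k _ _ (by simp)
  have hne : relfinrank (adjoin k {x}) (adjoin k {x, y}) ≠ 0 :=
    Pg4h.relf_ne halg {x, y} (Set.toFinite _) l1
  have hset : ({x, y} : Set L) = {y, x} := Set.pair_comm x y
  have hxy : IsAlgebraic (adjoin k {y}) x := by
    apply Pg4h.alg_of_ne
    rw [← hset, ← hdeg]
    exact hne
  have hex := h1 L φ M x y hM hx hy (halg.isAlgebraic y) hφx hφy
  obtain ⟨n', hn'⟩ := h1 L φ M y x hM hy hx hxy hφy hφx
  -- the minimal `n`
  obtain ⟨n, hn, hmin⟩ : ∃ n, (∀ j : ℕ, (fr F)^[n + j] y ∈ adjoin k {(fr F)^[j] x}) ∧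
      ∀ m < n, ¬ ∀ j : ℕ, (fr F)^[m + j] y ∈ adjoin k {(fr F)^[j] x} :=
    ⟨Nat.find hex, Nat.find_spec hex, fun m hm => Nat.find_min hex hm⟩
  have hle : n ≤ n₁ := by
    by_contra hlt
    obtain ⟨Q, hQ, hQM, hQx, hQS⟩ := exists_Q hF hq hx hy hφx hφy hdeg hne hn
    obtain ⟨R, hR, hRM, hRy, hRS⟩ := exists_Q hF hq hy hx hφy hφx
      (by rw [← hset]; exact hdeg.symm) (by rw [← hset, ← hdeg]; exact hne) hn'
    have hq1 : 1 ≤ q ^ n := Nat.one_le_pow _ _ hq
    have hq2 : 1 ≤ q ^ n' := Nat.one_le_pow _ _ hq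
    have hrel : ∀ j, ∃ (j' : ℕ) (c : k), c ≠ 0 ∧
        ∀ i, bind₁ (Q j) (R j' i) = C c * itF F (n + n') i := by
      intro j
      have hxj := Rb.trans_it hF hq hx j
      refine ⟨n + j, prop_of (P := fun i => bind₁ (Q j) (R (n + j) i)) (Q := itF F (n + n'))
        (mor_comp (hR _) (hQ _)) ?_ (Nat.mul_pos hq1 hq2) hxj ?_⟩
      · rw [← pow_add]
        exact Bas.mor_itF hF _
      · have h3 : n' + (n + j) = n + n' + j := by omega
        rw [fr_comp (hR _) (hQ _) hq1 hq2 hxj, hQx, hRy, fr_itF hF hq _ hxj,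
          ← Function.iterate_add_apply, h3]
    have hval := hV n n' M Q R (by omega) hM hQ hR hQM hRM hQS hRS hrel
    have hmem : ∀ j : ℕ, (fr F)^[n + j] y ∈ adjoin k {(fr F)^[j + 1] x} := by
      intro j
      have hxj := Rb.trans_it hF hq hx j
      have halgj := alg_it hF hq hx halg j
      rw [← hQx, Function.iterate_succ_apply']
      refine mem_of_fixed hF hq hxj halgj (Q j) fun z' hzt hz' => ?_
      apply fr_of_prl'
      refine hval j L ![(fr F)^[j] x, 1] ![z', 1] (fun h => one_ne_zero (congrFun h 1))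
        one_ne_zero ?_ ?_
      · show Transcendental k ((fr F)^[j] x / 1)
        rw [div_one]
        exact hxj
      · rw [Rb.act_eq hF hq hzt, hz']
        refine Bas.prl_trans (Bas.prl_smul _ (Rb.den_ne hF hq hzt)) ?_
        rw [Rb.act_eq hF hq hxj]
        exact Bas.prl_symm (Bas.prl_smul _ (Rb.den_ne hF hq hxj))
    refine hmin (n - 1) (by omega) fun j => ?_
    rcases Nat.eq_zero_or_pos j with hj | hj
    · subst hj
      have h2 := hmem (M - 1)
      have h3 : n + (M - 1) = n - 1 + M := by omega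
      rw [Nat.sub_add_cancel hM, h3, Function.iterate_add_apply, ← hφy, ← hφx,
        ← Rb.map_it] at h2
      exact mem_of_map φ h2
    · have h2 := hmem (j - 1)
      rw [Nat.sub_add_cancel hj] at h2
      have h3 : n + (j - 1) = n - 1 + j := by omega
      rw [h3] at h2
      exact h2
  have hn1 : ∀ j : ℕ, (fr F)^[n₁ + j] y ∈ adjoin k {(fr F)^[j] x} := by
    intro j
    have h2 := it_mem (F := F) (hn j) (n₁ - n)
    rw [← Function.iterate_add_apply] at h2
    have h3 : n₁ - n + (n + j) = n₁ + j := by omega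
    rw [h3] at h2
    exact h2
  obtain ⟨Q, hQ, -, hQx, hQS⟩ := exists_Q hF hq hx hy hφx hφy hdeg hne hn1
  obtain ⟨P, hP, c, hc, hcP⟩ := hS Q hQ hQS
  have hact : ∀ (N : Type) [Field N] [Algebra k N] (u : Fin 2 → N),
      gAct (Q 0) N u = algebraMap k N c • gAct P N u := by
    intro N _ _ u
    funext i
    show aeval u (Q 0 i) = algebraMap k N c * aeval u (P i)
    rw [hcP, map_mul, aeval_C]
  have hPM : Mor (q ^ n₁) P := by
    refine ⟨fun i => ?_, fun N _ _ u hu h0 => (hQ 0).ne N u hu ?_⟩
    · have h2 : P i = C c⁻¹ * Q 0 i := by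
        rw [hcP, ← mul_assoc, ← C_mul, inv_mul_cancel₀ hc, C_1, one_mul]
      rw [h2]
      have h3 := (isHomogeneous_C (Fin 2) c⁻¹).mul ((hQ 0).hom i)
      rwa [zero_add] at h3
    · rw [hact, h0, smul_zero]
  refine ⟨P, Finset.mem_filter.2 ⟨hP, hPM⟩, ?_⟩
  have h2 := hQx 0
  rw [add_zero, Function.iterate_zero_apply] at h2
  rw [← h2]
  have hc' : algebraMap k L c ≠ 0 := by
    rw [ne_eq, map_eq_zero]
    exact hc
  have h3 := hact L ![x, 1]
  have h4 : aeval ![x, 1] (Q 0 0) = algebraMap k L c * aeval ![x, 1] (P 0) := congrFun h3 0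
  have h5 : aeval ![x, 1] (Q 0 1) = algebraMap k L c * aeval ![x, 1] (P 1) := congrFun h3 1
  rw [fr, fr, h4, h5, mul_div_mul_left _ _ hc']

end Pool.DynLehmer.UN.Ra72

end

section

/-!
# PAIR1 for a map which is not special
-/

namespace Pool.DynLehmer.UN.Ra21
open Pool.DynLehmer.GS Pool.DynLehmer.SP Pool.DynLehmer.LP

theorem pair1F_of {k : Type} [Field k] [IsAlgClosed k] [CharZero k] {q : ℕ}
    {F : Fin 2 → MvPolynomial (Fin 2) k} (hq : 2 ≤ q) (hF : Mor q F)
    (hs : ¬ ∃ S : Finset (Fin 2 → k), (∃ x ∈ S, ∃ y ∈ S, ¬ Prl x y) ∧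
      (∀ x ∈ S, x ≠ 0 ∧ ∃ y ∈ S, Prl (gAct F k x) y) ∧
      ∀ x, x ≠ 0 → (∃ y ∈ S, Prl (gAct F k x) y) →
        (∃ y ∈ S, Prl x y) ∨ MvPolynomial.aeval x (Jac F) = 0) : Ra72.Pair1F F := by
  intro L _ _ φ M x y hM hx hy hyx hφx hφy
  exact pair1Mor F hF hq (fun h => hs (R96.brs (by omega) hF h)) M φ x y hM hx hyx hφx hφy

end Pool.DynLehmer.UN.Ra21

end

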