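import Pool.Agent.Lib.MP_2194ec_nt.GAL.R.Bas
import Pool.Agent.Lib.MP_2194ec_nt.GAL.R.Jac
import Pool.Agent.Lib.MP_2194ec_nt.GAL.R.Ldg
import Pool.Agent.Lib.MP_2194ec_nt.GAL.R.Ldm
import Pool.Agent.Lib.MP_2194ec_nt.GAL.R.Mor
import Pool.Agent.Lib.MP_2194ec_nt.GAL.R.Root
import Pool.Agent.Lib.MP_2194ec_nt.LP.Vpfin
import Pool.Agent.Lib.MP_2194ec_nt.LW.OneMap
import Pool.Agent.Lib.MP_2194ec_nt.RamL
import Pool.Agent.Lib.MP_2194ec_nt.UN.Polynomial
import Pool.Agent.Lib.MP_2194ec_nt.UN.RatPairs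
import Pool.Agent.Lib.MP_2194ec_nt.UN.RatReduction

set_option autoImplicit false
set_option linter.unusedSectionVars false

/-!
# Maps with finitely many periodic forms of equal degrees
-/

namespace Pool.DynLehmer.UN.Rf60
open MvPolynomial NumberField Filter Topology Pool.DynLehmer Pool.DynLehmer.SB Pool.DynLehmer.SP
  Pool.DynLehmer.GS Pool.DynLehmer.LP Pool.DynLehmer.LW Pool.DynLehmer.LW.ExcAux
open scoped Classical

/-- All periodic forms of equal degrees lie in a finite set. -/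
def FinqF (k : Type) [Field k] (F : Fin 2 → MvPolynomial (Fin 2) k) : Prop :=
  ∃ S : Finset (MvPolynomial (Fin 2 ⊕ Fin 2) k), ∀ (e : ℕ) (G : MvPolynomial (Fin 2 ⊕ Fin 2) k),
    PerForm F e G → ∀ d : ℕ, BiHom d d G → ∃ G' ∈ S, Associated G G'

/-- two irreducible forms with a common factor over an extension are associated -/
theorem assoc_of_common {K A : Type} [Field K] [Field A] [CharZero A] [Algebra K A]
    {d₁ d₂ e₁ e₂ c₁ c₂ : ℕ} {G H : MvPolynomial (Fin 2 ⊕ Fin 2) K}
    {G₁ : MvPolynomial (Fin 2 ⊕ Fin 2) A} (hd₁ : 1 ≤ d₁) (hd₂ : 1 ≤ d₂) (he₁ : 1 ≤ e₁)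
    (he₂ : 1 ≤ e₂) (hc₁ : 1 ≤ c₁) (hc₂ : 1 ≤ c₂) (hG : Irreducible G) (hGB : BiHom d₁ d₂ G)
    (hH : Irreducible H) (hHB : BiHom e₁ e₂ H) (hG₁ : Irreducible G₁) (hG₁B : BiHom c₁ c₂ G₁)
    (h1 : G₁ ∣ map (algebraMap K A) G) (h2 : G₁ ∣ map (algebraMap K A) H) : Associated G H := by
  obtain ⟨L, iL, iA, x₁, y₁, hcl, halg, htx, hty, hgen⟩ := gena_all A c₁ c₂ G₁ hc₁ hc₂ hG₁ hG₁B
  have hG₁0 : GS.ev ![x₁, 1] ![y₁, 1] G₁ = 0 := (hgen c₁ c₂ G₁ hG₁B).2 (dvd_refl _)
  let _ : Algebra K L := ((algebraMap A L).comp (algebraMap K A)).toAlgebra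
  have : IsScalarTower K A L := IsScalarTower.of_algebraMap_eq fun _ => rfl
  have key : ∀ U : MvPolynomial (Fin 2 ⊕ Fin 2) K, G₁ ∣ map (algebraMap K A) U →
      GS.ev ![x₁, 1] ![y₁, 1] U = 0 := by
    intro U hU
    have h3 := Pg8h.ev_dvd hU hG₁0
    unfold GS.ev at *
    rw [aeval_map_algebraMap] at h3
    exact h3
  have htxK : Transcendental K x₁ := fun h => htx (h.tower_top A)
  obtain ⟨-, -, -, hdvG⟩ := Pg5.pg5 K _ _ G hd₁ hd₂ hG hGB L x₁ y₁ htxK (key G h1)
  obtain ⟨-, -, -, hdvH⟩ := Pg5.pg5 K _ _ H he₁ he₂ hH hHB L x₁ y₁ htxK (key H h2)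
  exact associated_of_dvd_dvd (hdvG _ _ H hHB (key H h2)) (hdvH _ _ G hGB (key G h1))

/-- the finiteness descends -/
theorem finq_desc {K : Type} [Field K] [CharZero K] {F : Fin 2 → MvPolynomial (Fin 2) K}
    (h : FinqF (AlgebraicClosure K) (Clo60.bcf (AlgebraicClosure K) F)) : FinqF K F := by
  obtain ⟨S, hS⟩ := h
  have hchar : CharZero (AlgebraicClosure K) :=
    charZero_of_injective_algebraMap (algebraMap K (AlgebraicClosure K)).injective
  let P : MvPolynomial (Fin 2 ⊕ Fin 2) (AlgebraicClosure K) → MvPolynomial (Fin 2 ⊕ Fin 2) K → Prop :=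
    fun G₁ G => ∃ e d : ℕ, PerForm F e G ∧ BiHom d d G ∧ ∃ G₂ : MvPolynomial (Fin 2 ⊕ Fin 2)
      (AlgebraicClosure K), Associated G₂ G₁ ∧ PerForm (Clo60.bcf (AlgebraicClosure K) F) e G₂ ∧
      G₂ ∣ map (algebraMap K (AlgebraicClosure K)) G
  refine ⟨S.image fun G₁ => if h : ∃ G, P G₁ G then h.choose else 0, ?_⟩
  intro e G hG d hd
  obtain ⟨G₂, hG₂, hdv⟩ := Clo60.exists_factor (A := AlgebraicClosure K) hG
  obtain ⟨d₁, d₂, hd1, -, hd2, -, hB⟩ := hG.hom
  obtain ⟨rfl, rfl⟩ : d₁ = d ∧ d₂ = d := Pg8h.biHom_unique hG.irr.ne_zero hB hd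
  obtain ⟨c₁, c₂, hc1, -, hc2, -, hB₁⟩ := hG₂.hom
  have hcc : c₁ = c₂ := by
    have h := pg6_all K _ _ c₁ c₂ G G₂ hd1 hd1 hG.irr hB hG₂.irr hB₁ hdv
    exact Nat.eq_of_mul_eq_mul_right (by omega) h
  subst hcc
  obtain ⟨G₁, hG₁S, hass⟩ := hS e G₂ hG₂ c₁ hB₁
  have hex : ∃ G, P G₁ G := ⟨G, e, d₂, hG, hB, G₂, hass, hG₂, hdv⟩
  refine ⟨_, Finset.mem_image_of_mem _ hG₁S, ?_⟩
  rw [dif_pos hex]
  obtain ⟨e', d', hG', hd', G₃, hass', hG₃, hdv'⟩ := hex.choose_spec
  obtain ⟨d₁', d₂', hd1', -, hd2', -, hB'⟩ := hG'.hom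
  have h2 : G₂ ∣ map (algebraMap K (AlgebraicClosure K)) hex.choose :=
    (hass.trans hass'.symm).dvd.trans hdv'
  exact assoc_of_common hd1 hd2 hd1' hd2' hc1 hc1 hG.irr hB hG'.irr hB' hG₂.irr hB₁ hdv h2

/-- **PG7** for an arbitrary map: a periodic form which relates a wandering point to a conjugate
has equal degrees. -/
theorem pg7r {K : Type} [Field K] [CharZero K] {q : ℕ} {F : Fin 2 → MvPolynomial (Fin 2) K}
    (hM : Mor q F) {e : ℕ} {G : MvPolynomial (Fin 2 ⊕ Fin 2) K} (hG : PerForm F e G)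
    {N : Type} [Field N] [Algebra K N] [FiniteDimensional K N] {u : Fin 2 → N} {g : N ≃ₐ[K] N}
    (hu : u ≠ 0) (hw : WandP F u) (hev : GS.ev u (gal g u) G = 0) {d₁ d₂ : ℕ}
    (hB : BiHom d₁ d₂ G) : d₁ = d₂ := by
  obtain ⟨D₁, D₂, hD₁, -, hD₂, -, hBD⟩ := hG.hom
  obtain ⟨rfl, rfl⟩ : d₁ = D₁ ∧ d₂ = D₂ := Pg8h.biHom_unique hG.irr.ne_zero hB hBD
  obtain ⟨k, hk, hdvd⟩ := hG.per
  have hgu : ∀ i : ℕ, gal (g ^ i) u ≠ 0 := fun i h0 => hu (by
    funext j
    have h1 : (g ^ i : N ≃ₐ[K] N) (u j) = 0 := congrFun h0 j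
    exact (EmbeddingLike.map_eq_zero_iff (f := (g ^ i : N ≃ₐ[K] N))).1 h1)
  have hne : ∀ i n : ℕ, (gAct F N)^[n] (gal (g ^ i) u) ≠ 0 := fun i n =>
    Bas.iter_ne hM (hgu i) n
  have hgal : ∀ i n : ℕ, (gAct F N)^[n] (gal (g ^ i) u) = gal (g ^ i) ((gAct F N)^[n] u) :=
    fun i n => SP.CasebAux.gAct_iter_gal F (g ^ i) n u
  -- the point passes through infinity at most once
  obtain ⟨n₀, hn₀⟩ : ∃ n₀ : ℕ, ∀ n, n₀ ≤ n → (gAct F N)^[n] u 1 ≠ 0 := by
    by_cases h : ∃ m, (gAct F N)^[m] u 1 = 0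
    · obtain ⟨m, hm⟩ := h
      refine ⟨m + 1, fun n hn h0 => ?_⟩
      have h1 := Bas.iter_ne hM hu m
      have h2 := Bas.iter_ne hM hu n
      have h3 : (gAct F N)^[m] u 0 ≠ 0 := (Bas.ne_zero_iff.1 h1).resolve_right (fun h => h hm)
      have h4 : (gAct F N)^[n] u 0 ≠ 0 := (Bas.ne_zero_iff.1 h2).resolve_right (fun h => h h0)
      apply hw
      refine ⟨m, n, by omega, (gAct F N)^[n] u 0 / (gAct F N)^[m] u 0, div_ne_zero h4 h3, ?_⟩
      funext i
      fin_cases i
      · show (gAct F N)^[n] u 0 = (gAct F N)^[n] u 0 / (gAct F N)^[m] u 0 * (gAct F N)^[m] u 0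
        rw [div_mul_cancel₀ _ h3]
      · show (gAct F N)^[n] u 1 = (gAct F N)^[n] u 0 / (gAct F N)^[m] u 0 * (gAct F N)^[m] u 1
        rw [hm, h0, mul_zero]
    · push Not at h
      exact ⟨0, fun n _ => h n⟩
  let w : ℕ → N := fun n => (gAct F N)^[k * (n + n₀)] u 0 / (gAct F N)^[k * (n + n₀)] u 1
  have hge : ∀ n : ℕ, n₀ ≤ k * (n + n₀) := fun n =>
    (Nat.le_add_left n₀ n).trans (Nat.le_mul_of_pos_left _ hk)
  have hw1 : ∀ n : ℕ, (gAct F N)^[k * (n + n₀)] u 1 ≠ 0 := fun n => hn₀ _ (hge n)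
  have hprl : ∀ i n : ℕ, Prl ((gAct F N)^[k * (n + n₀)] (gal (g ^ i) u))
      ![(g ^ i : N ≃ₐ[K] N) (w n), 1] := by
    intro i n
    rw [hgal]
    refine ⟨(g ^ i : N ≃ₐ[K] N) ((gAct F N)^[k * (n + n₀)] u 1), ?_, ?_⟩
    · rw [Ne, EmbeddingLike.map_eq_zero_iff]
      exact hw1 n
    · funext j
      fin_cases j
      · show (g ^ i : N ≃ₐ[K] N) ((gAct F N)^[k * (n + n₀)] u 0) =
          (g ^ i : N ≃ₐ[K] N) ((gAct F N)^[k * (n + n₀)] u 1) * (g ^ i : N ≃ₐ[K] N) (w n)
        rw [← map_mul, mul_div_cancel₀ _ (hw1 n)]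
      · show (g ^ i : N ≃ₐ[K] N) ((gAct F N)^[k * (n + n₀)] u 1) =
          (g ^ i : N ≃ₐ[K] N) ((gAct F N)^[k * (n + n₀)] u 1) * 1
        rw [mul_one]
  have hinj : ∀ m n : ℕ, w m = w n → m = n := by
    intro m n hmn
    by_contra hne'
    apply hw
    have h1 := hprl 0 m
    have h2 := hprl 0 n
    have h3 : ∀ n, (gAct F N)^[n] (gal (g ^ 0) u) = (gAct F N)^[n] u := by
      intro n
      rw [hgal]
      rfl
    rw [h3] at h1 h2
    rw [hmn] at h1
    refine ⟨k * (m + n₀), k * (n + n₀), ?_, Bas.prl_trans h2 (Bas.prl_symm h1)⟩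
    intro h4
    have h5 := Nat.eq_of_mul_eq_mul_left hk h4
    omega
  let z : ℕ → ℕ → N := fun i n => (g ^ i : N ≃ₐ[K] N) (w n)
  have hevi : ∀ i n, GS.ev ![z i n, 1] ![z (i + 1) n, 1] G = 0 := by
    intro i n
    have h2 : GS.ev (gal (g ^ i) u) (gal (g ^ (i + 1)) u) G = 0 := by
      have h3 : gal (g ^ (i + 1)) u = gal (g ^ i) (gal g u) := by
        funext j
        show (g ^ (i + 1) : N ≃ₐ[K] N) (u j) = (g ^ i : N ≃ₐ[K] N) (g (u j))
        rw [pow_succ]
        rfl
      rw [h3]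
      have h4 := comp_aeval_apply ((g ^ i : N ≃ₐ[K] N) : N →ₐ[K] N)
        (f := (Sum.elim u (gal g u) : Fin 2 ⊕ Fin 2 → N)) G
      have h5 : aeval (Sum.elim u (gal g u) : Fin 2 ⊕ Fin 2 → N) G = 0 := hev
      rw [h5, map_zero] at h4
      have h6 : (fun j => ((g ^ i : N ≃ₐ[K] N) : N →ₐ[K] N)
          ((Sum.elim u (gal g u) : Fin 2 ⊕ Fin 2 → N) j)) =
          Sum.elim (gal (g ^ i) u) (gal (g ^ i) (gal g u)) := by
        funext j
        rcases j with j | j <;> rfl
      rw [h6] at h4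
      exact h4.symm
    have h6 := Cntw.ev_orbit hdvd h2 (n + n₀)
    exact (Bas.ev_prl hBD (hprl i n) (hprl (i + 1) n)).1 h6
  obtain ⟨E, _, _, π, hπ⟩ := Pg775.exists_limit (K := K) (z 0) (by
    intro P hP
    by_contra hcon
    push Not at hcon
    have h2 : Function.Injective (z 0) := by
      intro a b hab
      exact hinj _ _ hab
    refine Set.infinite_range_of_injective h2 ((P.rootSet N).toFinite.subset ?_)
    rintro _ ⟨n, rfl⟩
    exact Polynomial.mem_rootSet.2 ⟨hP, hcon n⟩)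
  refine Pg775.cyc Pg5.pg5 hD₁ hD₂ hG.irr hBD (fun i => π (z i)) (orderOf g) (orderOf_pos g) ?_
    hπ ?_
  · intro i
    have h2 : z (i + orderOf g) = z i := by
      funext n
      show (g ^ (i + orderOf g) : N ≃ₐ[K] N) (w n) = (g ^ i : N ≃ₐ[K] N) (w n)
      rw [pow_add, pow_orderOf_eq_one, mul_one]
    show π (z (i + orderOf g)) = π (z i)
    rw [h2]
  · intro i
    exact Pg775.ev_limit π (z i) (z (i + 1)) G (hevi i)

/-- the exceptional relation of a map with finitely many periodic forms of equal degrees -/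
theorem excr {K : Type} [Field K] [NumberField K] {q : ℕ} (hq : 1 ≤ q)
    {F : Fin 2 → MvPolynomial (Fin 2) K} (hmor : Mor q F) (hfin : FinqF K F) :
    ∃ R : ℕ, 1 ≤ R ∧ ExcF K F R := by
  obtain ⟨S, hS⟩ := hfin
  let D : MvPolynomial (Fin 2 ⊕ Fin 2) K → ℕ := fun G' =>
    if h : ∃ (d e : ℕ) (G : MvPolynomial (Fin 2 ⊕ Fin 2) K), PerForm F e G ∧ BiHom d d G ∧
      Associated G G' then h.choose else 0
  refine ⟨∑ G ∈ S, D G + 1, by omega, ?_⟩
  intro N _ _ _ _ x hx hW n
  have hfd : FiniteDimensional K N := Module.Finite.of_restrictScalars_finite ℚ K N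
  have hne : ∀ (τ : N ≃ₐ[K] N) (m : ℕ), (gAct F N)^[m] (gal τ x) ≠ 0 :=
    fun τ m => Bas.iter_ne hmor (galne hx τ) m
  have hmem : ∀ τ : N ≃ₐ[K] N, nz ((gAct F N)^[n] (gal τ x)) ∈
      orb (N ≃ₐ[K] N) (nz ((gAct F N)^[n] x)) := by
    intro τ
    rw [← smul_iter hmor hx]
    exact smul_mem_orb τ _
  refine ⟨fun y => (orb (N ≃ₐ[K] N) (nz ((gAct F N)^[n] x))).filter fun z =>
    Rel F y.val z.val, ?_, ?_⟩
  · intro y hy
    obtain ⟨σ, hσ⟩ := mem_orb.1 hy
    rw [smul_iter hmor hx] at hσ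
    have hyW : WandP F y.val := by
      rw [← hσ]
      exact Bas.wandP_prl hmor.hom (Bas.prl_symm (prl_nz (hne σ n)))
        (Bas.wandP_iter (E.wand_gal hW σ) n)
    refine ⟨?_, ?_, ?_, ?_⟩
    · have hfibre : ∀ G' : MvPolynomial (Fin 2 ⊕ Fin 2) K, ∃ Z : Finset (Option N),
          Z.card ≤ D G' ∧ ∀ e G, PerForm F e G → ∀ d, BiHom d d G → Associated G G' →
          ∀ P' : Fin 2 → N, P' ≠ 0 → GS.ev y.val P' G = 0 → pr P' ∈ Z := by
        intro G'
        by_cases h : ∃ (d e : ℕ) (G : MvPolynomial (Fin 2 ⊕ Fin 2) K), PerForm F e G ∧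
            BiHom d d G ∧ Associated G G'
        · obtain ⟨e, G, hG, hd, hass⟩ := h.choose_spec
          obtain ⟨d₁, d₂, hd1, -, hd2, -, hB⟩ := hG.hom
          obtain ⟨h5, h6⟩ : d₁ = h.choose ∧ d₂ = h.choose :=
            Pg8h.biHom_unique hG.irr.ne_zero hB hd
          obtain ⟨⟨Z, hZ1, hZ2⟩, -⟩ := fib K _ _ G hB hG.irr hd1 hd2 N y.val y.ne_zero
          refine ⟨Z, ?_, fun e' G₂ _ _ _ hass' P' hP' h0 => hZ2 P' hP' ?_⟩
          · show Z.card ≤ (if h : ∃ (d e : ℕ) (G : MvPolynomial (Fin 2 ⊕ Fin 2) K),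
              PerForm F e G ∧ BiHom d d G ∧ Associated G G' then h.choose else 0)
            rw [dif_pos h, ← h6]
            exact hZ1
          · exact Pg8h.ev_dvd (hass'.trans hass.symm).dvd h0
        · push Not at h
          exact ⟨∅, by simp, fun e G hG d hd hass => absurd hass (h d e G hG hd)⟩
      choose Z hZ1 hZ2 using hfibre
      have hcard : (S.biUnion Z).card ≤ ∑ G ∈ S, D G + 1 := by
        calc (S.biUnion Z).card ≤ ∑ G ∈ S, (Z G).card := Finset.card_biUnion_le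
          _ ≤ ∑ G ∈ S, D G := Finset.sum_le_sum fun G _ => hZ1 G
          _ ≤ _ := Nat.le_succ _
      refine le_trans ?_ hcard
      refine Finset.card_le_card_of_injOn (fun z : Pt N => pr z.val) ?_ ?_
      · intro z hz
        obtain ⟨hz1, e, G, hG, h0⟩ := Finset.mem_filter.1 (Finset.mem_coe.1 hz)
        rw [← orb_eq_of_mem hy] at hz1
        obtain ⟨g, hg⟩ := mem_orb.1 hz1
        have hzv : z.val = gal g y.val := by
          rw [← hg]
          rfl
        obtain ⟨d₁, d₂, hd1, -, hd2, -, hB⟩ := hG.hom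
        have hd : d₁ = d₂ := by
          refine pg7r hmor hG y.ne_zero hyW (g := g) ?_ hB
          rw [← hzv]
          exact h0
        subst hd
        obtain ⟨G', hG'S, hass⟩ := hS e G hG _ hB
        exact Finset.mem_coe.2 (Finset.mem_biUnion.2
          ⟨G', hG'S, hZ2 G' e G hG _ hB hass z.val z.ne_zero h0⟩)
      · intro z₁ _ z₂ _ h12
        have h2 := (nz_eq_iff z₁.ne_zero z₂.ne_zero).2 (Bas.prl_of_pr z₁.ne_zero z₂.ne_zero h12)
        rwa [nz_val, nz_val] at h2
    · refine Finset.mem_filter.2 ⟨hy, 1, _, per_dia hmor, ?_⟩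
      exact (Cls.ev_hF_iff hmor 0 0 y.ne_zero y.ne_zero).2 (Bas.prl_refl _)
    · intro y' hy'
      obtain ⟨h1, h2⟩ := Finset.mem_filter.1 hy'
      exact ⟨h1, Finset.mem_filter.2 ⟨hy, rel_symm h2⟩⟩
    · intro g y' hy'
      obtain ⟨h1, h2⟩ := Finset.mem_filter.1 hy'
      refine Finset.mem_filter.2 ⟨?_, rel_gal g h2⟩
      rw [← orb_eq_of_mem h1]
      exact smul_mem_orb g _
  · intro σ τ hnot m hm e G hG h0
    apply hnot
    refine Finset.mem_filter.2 ⟨hmem τ, ?_⟩
    obtain ⟨j, rfl⟩ := Nat.exists_eq_add_of_le hm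
    exact rel_prl (prl_nz (hne σ _)) (prl_nz (hne τ _)) (rel_push push hq hmor ⟨e, G, hG, h0⟩ j)

/-- **Assembly**: the bound for a map with finitely many periodic forms of bounded degree and
finitely many periodic forms of equal degrees over the algebraic closure. -/
theorem rat_explicit {K : Type} [Field K] [NumberField K] {p s : ℕ} {v : FinitePlace K}
    {F : Fin 2 → MvPolynomial (Fin 2) K} (hF : HypR p s v F) (hC : CntuF K F)
    (hfin : FinqF (AlgebraicClosure K)
      (fun i => map (algebraMap K (AlgebraicClosure K)) (F i))) :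
    ∃ R : ℕ, 1 ≤ R ∧ ExplR K p s F R := by
  have hq1 : 1 ≤ p ^ s := Nat.one_le_pow _ _ hF.prime.pos
  obtain ⟨R, hR, hE⟩ := excr hq1 (mor K p s v F hF) (finq_desc hfin)
  exact ⟨R, hR, vh_explicitF mor _ K p s v F hF R (vhstF K p s v F hF hC R hR hE)⟩

end Pool.DynLehmer.UN.Rf60

/-!
# From the finiteness of the pairs to the bound
-/

namespace Pool.DynLehmer.UN
open MvPolynomial NumberField Pool.DynLehmer Pool.DynLehmer.SB Pool.DynLehmer.SP
  Pool.DynLehmer.GS Pool.DynLehmer.LP Pool.DynLehmer.LW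
open scoped Classical

/-- the periodic forms with equal degrees are finitely many if the pairs are on finitely many
forms -/
theorem finq_of_pairs {k : Type} [Field k] [CharZero k] {q : ℕ}
    {F : Fin 2 → MvPolynomial (Fin 2) k} (hF : Mor q F) (hq : 1 ≤ q) (hZ : FinPairsE k F) :
    Rf60.FinqF k F := by
  obtain ⟨Z, hZb, hZp⟩ := hZ
  refine ⟨Z, fun e G hG d hd => ?_⟩
  obtain ⟨e₁, e₂, hd1, -, hd2, -, hB⟩ := hG.hom
  obtain ⟨h1, h2⟩ : e₁ = d ∧ e₂ = d := Pg8h.biHom_unique hG.irr.ne_zero hB hd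
  rw [h1] at hd1
  obtain ⟨L, iL, iA, x, y, hcl, halg, htx, hty, hgen⟩ := gena_all k d d G hd1 hd1 hG.irr hd
  obtain ⟨φ, m, hm, hφx, hφy⟩ := pg2r hF hq hG halg htx hty hgen
  have hG0 : GS.ev ![x, 1] ![y, 1] G = 0 := (hgen d d G hd).2 (dvd_refl _)
  obtain ⟨-, hr1, hr2, -⟩ := Pg5.pg5 k d d G hd1 hd1 hG.irr hd L x y htx hG0
  obtain ⟨H, hH, hH0⟩ := hZp L φ m x y hm htx hty halg hφx hφy (by rw [hr1, hr2])
  obtain ⟨c₁, c₂, -, -, hHi, hHb⟩ := hZb H hH
  exact ⟨H, hH, hG.irr.associated_of_dvd hHi ((hgen c₁ c₂ H hHb).1 hH0)⟩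

theorem mor_base {K : Type} [Field K] {q : ℕ} {F : Fin 2 → MvPolynomial (Fin 2) K}
    (hF : Mor q F) (A : Type) [Field A] [Algebra K A] :
    Mor q (fun i => map (algebraMap K A) (F i)) := by
  refine ⟨fun i => (hF.hom i).map _, fun N _ _ P hP h => ?_⟩
  let _ : Algebra K N := ((algebraMap A N).comp (algebraMap K A)).toAlgebra
  have : IsScalarTower K A N := IsScalarTower.of_algebraMap_eq fun _ => rfl
  refine hF.ne N P hP ?_
  funext i
  have h1 := congrFun h i
  show aeval P (F i) = 0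
  have h2 : aeval P (map (algebraMap K A) (F i)) = 0 := h1
  rwa [aeval_map_algebraMap] at h2

/-- the bound, if the periodic pairs with equal degrees are on finitely many forms -/
theorem rat_of_pairs {K : Type} [Field K] [NumberField K] {p s : ℕ} {v : FinitePlace K}
    {F : Fin 2 → MvPolynomial (Fin 2) K} (hF : HypR p s v F)
    (h : FinPairsE (AlgebraicClosure K) (fun i => map (algebraMap K (AlgebraicClosure K)) (F i))) :
    ∃ R : ℕ, 1 ≤ R ∧ ExplR K p s F R := by
  have hq1 : 1 ≤ p ^ s := Nat.one_le_pow _ _ hF.prime.pos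
  have hchar : CharZero (AlgebraicClosure K) :=
    charZero_of_injective_algebraMap (algebraMap K (AlgebraicClosure K)).injective
  have hM := mor_base (mor K p s v F hF) (AlgebraicClosure K)
  exact Rf60.rat_explicit hF (fun e => pg4r hM hq1 h e) (finq_of_pairs hM hq1 h)

/-- the periodic pairs with equal degrees satisfy `F^n y = P(x)` for finitely many `(n, P)` -/
def FinMaps (k : Type) [Field k] (F : Fin 2 → MvPolynomial (Fin 2) k) : Prop :=
  ∃ T : Finset (ℕ × (Fin 2 → MvPolynomial (Fin 2) k)), (∀ P ∈ T, ∃ D : ℕ, 1 ≤ D ∧ Mor D P.2) ∧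
    ∀ (L : Type) [Field L] [Algebra k L] [IsAlgClosed L] (φ : L →ₐ[k] L) (M : ℕ) (x y : L),
      1 ≤ M → Transcendental k x → Transcendental k y →
      Algebra.IsAlgebraic (IntermediateField.adjoin k {x}) L →
      φ x = (fr F)^[M] x → φ y = (fr F)^[M] y →
      IntermediateField.relfinrank (IntermediateField.adjoin k {x})
        (IntermediateField.adjoin k {x, y}) =
        IntermediateField.relfinrank (IntermediateField.adjoin k {y})
          (IntermediateField.adjoin k {x, y}) →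
      ∃ P ∈ T, (fr F)^[P.1] y = fr P.2 x

namespace Rc

variable {k : Type} [Field k]

theorem zero_right {L : Type} [Field L] [Algebra k L] {c : ℕ} {H : MvPolynomial (Fin 2 ⊕ Fin 2) k}
    (hH : BiHom c 0 H) {x : L} (hx : Transcendental k x) {P' : Fin 2 → L}
    (h0 : GS.ev ![x, 1] P' H = 0) : H = 0 := by
  rw [Bez.ev_eq hH, Finset.sum_range_one] at h0
  simp only [pow_zero, Nat.sub_self, mul_one] at h0
  have h1 := Pg3H72.hom_zero hx (Bez.hom_coeff hH 0) h0
  have h2 : Bez.dh H = 0 := by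
    rw [Polynomial.eq_C_of_natDegree_le_zero (Bez.natDegree_dh hH), h1, Polynomial.C_0]
  have h3 := Bez.homog_dh hH
  rw [h2, Polynomial.homogenize_zero] at h3
  exact Bez.e.injective (h3.symm.trans (map_zero _).symm)

theorem zero_left {L : Type} [Field L] [Algebra k L] {c : ℕ} {H : MvPolynomial (Fin 2 ⊕ Fin 2) k}
    (hH : BiHom 0 c H) {y : L} (hy : Transcendental k y) {P : Fin 2 → L}
    (h0 : GS.ev P ![y, 1] H = 0) : H = 0 := by
  rw [← Bas.ev_swap] at h0
  have h1 := zero_right (Bas.biHom_swap hH) hy h0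
  exact rename_injective _ (Equiv.sumComm (Fin 2) (Fin 2)).injective (h1.trans (map_zero _).symm)

/-- the form of the pairs with `F^n y = P(x)` -/
noncomputable def gr (F : Fin 2 → MvPolynomial (Fin 2) k) (P : ℕ × (Fin 2 → MvPolynomial (Fin 2) k)) :
    MvPolynomial (Fin 2 ⊕ Fin 2) k :=
  rename Sum.inl (P.2 1) * rename Sum.inr (itF F P.1 0) -
    rename Sum.inl (P.2 0) * rename Sum.inr (itF F P.1 1)

theorem bihom_gr {q : ℕ} {F : Fin 2 → MvPolynomial (Fin 2) k} (hF : Mor q F) {n D : ℕ}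
    {Q : Fin 2 → MvPolynomial (Fin 2) k} (hQ : Mor D Q) : BiHom D (q ^ n) (gr F (n, Q)) := by
  have h := fun i j => (Gena69.bihom_rinl (hQ.hom i)).mul (Gena69.bihom_rinr (Bas.itF_hom hF.hom n j))
  have h1 : ∀ i j, BiHom D (q ^ n) (rename Sum.inl (Q i) * rename Sum.inr (itF F n j) :
      MvPolynomial (Fin 2 ⊕ Fin 2) k) := fun i j => by
    have h2 := h i j
    rwa [add_zero, zero_add] at h2
  exact Pg8h.biHom_sub (h1 1 0) (h1 0 1)

theorem ev_gr {F : Fin 2 → MvPolynomial (Fin 2) k} {n : ℕ} {Q : Fin 2 → MvPolynomial (Fin 2) k}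
    {L : Type} [Field L] [Algebra k L] (P P' : Fin 2 → L) : GS.ev P P' (gr F (n, Q)) =
      gAct Q L P 1 * gAct (itF F n) L P' 0 - gAct Q L P 0 * gAct (itF F n) L P' 1 := by
  unfold gr GS.ev
  rw [map_sub, map_mul, map_mul, aeval_rename, aeval_rename, aeval_rename, aeval_rename]
  rfl

theorem ev_gr_zero {q : ℕ} {F : Fin 2 → MvPolynomial (Fin 2) k} (hF : Mor q F) (hq : 1 ≤ q)
    {n D : ℕ} {Q : Fin 2 → MvPolynomial (Fin 2) k} (hQ : Mor D Q) (hD : 1 ≤ D) {L : Type} [Field L]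
    [Algebra k L] {x y : L} (hx : Transcendental k x) (hy : Transcendental k y)
    (h : (fr F)^[n] y = fr Q x) : GS.ev ![x, 1] ![y, 1] (gr F (n, Q)) = 0 := by
  rw [ev_gr, Rb.act_eq hQ hD hx, Bas.gAct_itF]
  obtain ⟨c, hc, h1⟩ := Rb.iter_prl hF hq hy n
  rw [h1, h]
  simp only [Pi.smul_apply, smul_eq_mul, Matrix.cons_val_zero, Matrix.cons_val_one]
  ring

theorem gr_ne {q : ℕ} {F : Fin 2 → MvPolynomial (Fin 2) k} (hF : Mor q F) (hq : 1 ≤ q)
    {n D : ℕ} {Q : Fin 2 → MvPolynomial (Fin 2) k} (hQ : Mor D Q) (hD : 1 ≤ D) :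
    gr F (n, Q) ≠ 0 := by
  intro h
  have hx : Transcendental k (RatFunc.X : RatFunc k) := RatFunc.transcendental_X
  have hd := Rb.den_ne hQ hD hx
  have hinf : Infinite (RatFunc k) := Infinite.of_injective
    (algebraMap (Polynomial k) (RatFunc k)) (RatFunc.algebraMap_injective k)
  refine Rb.comb_ne (Bas.mor_itF hF n) (Nat.one_le_pow _ _ hq) (fr Q (RatFunc.X : RatFunc k)) ?_
  refine MvPolynomial.funext fun P' => ?_
  have h1 := ev_gr (F := F) (n := n) (Q := Q) ![(RatFunc.X : RatFunc k), 1] P'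
  rw [h, Rb.act_eq hQ hD hx] at h1
  have h2 : GS.ev ![(RatFunc.X : RatFunc k), 1] P' (0 : MvPolynomial (Fin 2 ⊕ Fin 2) k) = 0 :=
    map_zero _
  rw [h2] at h1
  simp only [Pi.smul_apply, smul_eq_mul, Matrix.cons_val_zero, Matrix.cons_val_one, mul_one] at h1
  have h3 : aeval ![(RatFunc.X : RatFunc k), 1] (Q 1) * (gAct (itF F n) (RatFunc k) P' 0 -
      fr Q (RatFunc.X : RatFunc k) * gAct (itF F n) (RatFunc k) P' 1) = 0 := by
    rw [mul_sub, ← mul_assoc]
    exact h1.symm
  have h4 := (mul_eq_zero.1 h3).resolve_left hd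
  rw [map_sub, map_mul, eval_map, eval_map, eval_C, map_zero]
  exact h4

end Rc

/-- Row LAST. -/
theorem finPairsE_of_maps {k : Type} [Field k] {q : ℕ} {F : Fin 2 → MvPolynomial (Fin 2) k}
    (hF : Mor q F) (hq : 1 ≤ q) (h : FinMaps k F) : FinPairsE k F := by
  obtain ⟨T, hT, h⟩ := h
  refine ⟨(T.biUnion fun P => (UniqueFactorizationMonoid.factors (Rc.gr F P)).toFinset).filter
    fun H => ∃ d₁ d₂ : ℕ, 1 ≤ d₁ ∧ 1 ≤ d₂ ∧ Irreducible H ∧ BiHom d₁ d₂ H,
    fun H hH => (Finset.mem_filter.1 hH).2, ?_⟩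
  intro L _ _ _ φ M x y hM hx hy halg hφx hφy hdeg
  obtain ⟨⟨n, Q⟩, hP, he⟩ := h L φ M x y hM hx hy halg hφx hφy hdeg
  obtain ⟨D, hD, hQ⟩ := hT _ hP
  have h0 := Rc.ev_gr_zero hF hq hQ hD hx hy he
  have hne : Rc.gr F (n, Q) ≠ 0 := Rc.gr_ne hF hq hQ hD
  obtain ⟨u, hu⟩ := UniqueFactorizationMonoid.factors_prod hne
  have h1 : GS.ev ![x, 1] ![y, 1] (UniqueFactorizationMonoid.factors (Rc.gr F (n, Q))).prod = 0 := by
    have h2 : (UniqueFactorizationMonoid.factors (Rc.gr F (n, Q))).prod =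
        Rc.gr F (n, Q) * ((u⁻¹ : (MvPolynomial (Fin 2 ⊕ Fin 2) k)ˣ) :
          MvPolynomial (Fin 2 ⊕ Fin 2) k) := (Units.eq_mul_inv_iff_mul_eq u).2 hu
    rw [h2, GS.ev, map_mul]
    rw [GS.ev] at h0
    rw [h0, zero_mul]
  rw [GS.ev, map_multiset_prod, Multiset.prod_eq_zero_iff, Multiset.mem_map] at h1
  obtain ⟨H, hH, hH0⟩ := h1
  have hirr := UniqueFactorizationMonoid.irreducible_of_factor H hH
  obtain ⟨c₁, c₂, -, -, hb⟩ := BiHom.of_dvd (Rc.bihom_gr hF hQ) hne
    (UniqueFactorizationMonoid.dvd_of_mem_factors hH)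
  have hc1 : c₁ ≠ 0 := by
    rintro rfl
    exact hirr.ne_zero (Rc.zero_left hb hy hH0)
  have hc2 : c₂ ≠ 0 := by
    rintro rfl
    exact hirr.ne_zero (Rc.zero_right hb hx hH0)
  exact ⟨H, Finset.mem_filter.2 ⟨Finset.mem_biUnion.2 ⟨_, hP, Multiset.mem_toFinset.2 hH⟩, c₁, c₂,
    by omega, by omega, hirr, hb⟩, hH0⟩

/-- the bound, if the periodic pairs with equal degrees satisfy `F^n y = P(x)` for finitely many
`(n, P)` -/
theorem rat_of_maps {K : Type} [Field K] [NumberField K] {p s : ℕ} {v : FinitePlace K}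
    {F : Fin 2 → MvPolynomial (Fin 2) K} (hF : HypR p s v F)
    (h : FinMaps (AlgebraicClosure K) (fun i => map (algebraMap K (AlgebraicClosure K)) (F i))) :
    ∃ R : ℕ, 1 ≤ R ∧ ExplR K p s F R :=
  rat_of_pairs hF (finPairsE_of_maps (mor_base (mor K p s v F hF) (AlgebraicClosure K))
    (Nat.one_le_pow _ _ hF.prime.pos) h)

/-- as `FinMaps`, without the endomorphism -/
def FinMapsR (k : Type) [Field k] (F : Fin 2 → MvPolynomial (Fin 2) k) : Prop :=
  ∃ T : Finset (ℕ × (Fin 2 → MvPolynomial (Fin 2) k)), (∀ P ∈ T, ∃ D : ℕ, 1 ≤ D ∧ Mor D P.2) ∧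
    ∀ (L : Type) [Field L] [Algebra k L] (M : ℕ) (x y : L), 1 ≤ M → Transcendental k x →
      Transcendental k y → IsAlgebraic (IntermediateField.adjoin k {x}) y → RelF F M x y →
      IntermediateField.relfinrank (IntermediateField.adjoin k {x})
        (IntermediateField.adjoin k {x, y}) =
        IntermediateField.relfinrank (IntermediateField.adjoin k {y})
          (IntermediateField.adjoin k {x, y}) →
      ∃ P ∈ T, (fr F)^[P.1] y = fr P.2 x

theorem finMaps_of_rel {k : Type} [Field k] {F : Fin 2 → MvPolynomial (Fin 2) k}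
    (h : FinMapsR k F) : FinMaps k F := by
  obtain ⟨T, hT, h⟩ := h
  exact ⟨T, hT, fun L _ _ _ φ M x y hM hx hy halg h1 h2 hd =>
    h L M x y hM hx hy (halg.isAlgebraic y) (Rb.relF_of φ M x y h1 h2) hd⟩

theorem rat_of_mapsR {K : Type} [Field K] [NumberField K] {p s : ℕ} {v : FinitePlace K}
    {F : Fin 2 → MvPolynomial (Fin 2) K} (hF : HypR p s v F)
    (h : FinMapsR (AlgebraicClosure K) (fun i => map (algebraMap K (AlgebraicClosure K)) (F i))) :
    ∃ R : ℕ, 1 ≤ R ∧ ExplR K p s F R :=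
  rat_of_maps hF (finMaps_of_rel h)

end Pool.DynLehmer.UN

set_option linter.unusedSectionVars false

/-!
# Rational maps which commute with a map of the projective line: finiteness for a given degree

Let `F` be a map of degree `q ≥ 2` which is not special.  The maps `Q 0` of degree `D` for which
there are maps `Q j` of degree `D` with `Q (j + 1) ∘ F = F ∘ Q j` form a finite set.
-/

namespace Pool.DynLehmer.UN
open MvPolynomial Pool.DynLehmer Pool.DynLehmer.GS
open scoped Classical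

/-- There is a finite set `S` with at least two points, `F(S) ⊆ S`, such that all points of
`F⁻¹(S) - S` are critical. -/
def SpecF {k : Type} [Field k] (F : Fin 2 → MvPolynomial (Fin 2) k) : Prop :=
  ∃ S : Finset (Fin 2 → k), (∃ x ∈ S, ∃ y ∈ S, ¬ Prl x y) ∧
    (∀ x ∈ S, x ≠ 0 ∧ ∃ y ∈ S, Prl (gAct F k x) y) ∧
    ∀ x : Fin 2 → k, x ≠ 0 → (∃ y ∈ S, Prl (gAct F k x) y) →
      (∃ y ∈ S, Prl x y) ∨ aeval x (Jac F) = 0

/-- Row FQT: finitely many maps of degree `D`. -/
def FqtStatement : Prop :=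
  ∀ (k : Type) [Field k] [IsAlgClosed k] [CharZero k] (q D : ℕ)
    (F : Fin 2 → MvPolynomial (Fin 2) k), 2 ≤ q → 1 ≤ D → Mor q F → ¬ SpecF F →
    ∃ S : Finset (Fin 2 → MvPolynomial (Fin 2) k), ∀ Q : ℕ → Fin 2 → MvPolynomial (Fin 2) k,
      (∀ j, Mor D (Q j)) →
      (∀ j, ∃ c : k, c ≠ 0 ∧ ∀ i, bind₁ F (Q (j + 1) i) = C c * bind₁ (Q j) (F i)) →
      ∃ P ∈ S, ∃ c : k, c ≠ 0 ∧ ∀ i, Q 0 i = C c * P i

namespace Fqt49

section points
variable {k : Type} [Field k]

/-- a representative of a point -/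
noncomputable def rp (z : Option k) : Fin 2 → k := z.elim ![1, 0] fun a => ![a, 1]

theorem rp_ne (z : Option k) : rp z ≠ 0 := by
  rcases z with _ | a
  · intro h
    have := congrFun h 0
    simp [rp] at this
  · intro h
    have := congrFun h 1
    simp [rp] at this

theorem pr_rp (z : Option k) : pr (rp z) = z := by
  rcases z with _ | a
  · simp [rp, pr]
  · simp [rp, pr]

theorem prl_rp {P : Fin 2 → k} (hP : P ≠ 0) : Prl P (rp (pr P)) :=
  Bas.prl_of_pr hP (rp_ne _) (pr_rp _).symm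

theorem hom_prl {R : MvPolynomial (Fin 2) k} {n : ℕ} (hR : R.IsHomogeneous n) {P Q : Fin 2 → k}
    (h : Prl P Q) : aeval P R = 0 ↔ aeval Q R = 0 := by
  obtain ⟨c, hc, rfl⟩ := h
  have h1 : aeval (c • Q) R = c ^ n * aeval Q R := by
    have h := congrFun (gAct_smul (fun _ : Fin 2 => R) (fun _ => hR) c Q) 0
    simpa [gAct] using h
  rw [h1, mul_eq_zero]
  exact ⟨fun h => h.resolve_left (pow_ne_zero _ hc), Or.inr⟩

end points

/-! ## Homogeneous substitution -/

theorem hom_smul {R S : Type} [CommRing R] [CommRing S] [Algebra R S] {P : MvPolynomial (Fin 2) R}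
    {n : ℕ} (hP : P.IsHomogeneous n) (c : S) (x : Fin 2 → S) :
    aeval (fun i => c * x i) P = c ^ n * aeval x P := by
  rw [aeval_def, eval₂_eq', aeval_def, eval₂_eq', Finset.mul_sum]
  refine Finset.sum_congr rfl fun t ht => ?_
  have h1 : t 0 + t 1 = n := by
    have h2 := hP (mem_support_iff.1 ht)
    rw [Finsupp.weight_apply, Finsupp.sum_fintype _ _ (by simp)] at h2
    simpa using h2
  rw [Fin.prod_univ_two, Fin.prod_univ_two, ← h1, mul_pow, mul_pow, pow_add]
  ring

/-! ## A map of degree at least two has two critical points -/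

section crit
variable {k : Type} [Field k] [IsAlgClosed k] [CharZero k]

/-- the coefficient of `t ^ n` of a form of degree `n` at `V + t P` -/
theorem coeff_line {R : MvPolynomial (Fin 2) k} {n : ℕ} (hR : R.IsHomogeneous n)
    (V P : Fin 2 → k) :
    (aeval (fun j => Polynomial.C (V j) + Polynomial.X * Polynomial.C (P j)) R :
      Polynomial k).coeff n = aeval P R := by
  have hd : ∀ j, (Polynomial.C (V j) + Polynomial.X * Polynomial.C (P j)).natDegree ≤ 1 := by
    intro j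
    refine (Polynomial.natDegree_add_le _ _).trans (max_le ?_ ?_)
    · rw [Polynomial.natDegree_C]; exact Nat.zero_le _
    · refine Polynomial.natDegree_mul_le.trans ?_
      rw [Polynomial.natDegree_X, Polynomial.natDegree_C]
  have hc : ∀ j, (Polynomial.C (V j) + Polynomial.X * Polynomial.C (P j)).coeff 1 = P j := by
    intro j
    simp [Polynomial.coeff_C]
  have hp : ∀ j (t : ℕ), ((Polynomial.C (V j) + Polynomial.X * Polynomial.C (P j)) ^ t).coeff t =
      P j ^ t := by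
    intro j t
    have h := Polynomial.coeff_pow_of_natDegree_le (m := t) (hd j)
    rw [mul_one, hc] at h
    exact h
  have hpd : ∀ j (t : ℕ),
      ((Polynomial.C (V j) + Polynomial.X * Polynomial.C (P j)) ^ t).natDegree ≤ t := by
    intro j t
    refine Polynomial.natDegree_pow_le.trans ?_
    calc t * _ ≤ t * 1 := Nat.mul_le_mul_left _ (hd j)
      _ = t := mul_one t
  rw [aeval_def, eval₂_eq', Polynomial.finsetSum_coeff, aeval_def, eval₂_eq']
  refine Finset.sum_congr rfl fun t ht => ?_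
  have h1 : t 0 + t 1 = n := by
    have h2 := hR (mem_support_iff.1 ht)
    rw [Finsupp.weight_apply, Finsupp.sum_fintype _ _ (by simp)] at h2
    simpa using h2
  rw [Fin.prod_univ_two, Fin.prod_univ_two, Polynomial.algebraMap_apply, Polynomial.coeff_C_mul,
    ← h1, Polynomial.coeff_mul_add_eq_of_natDegree_le (hpd 0 _) (hpd 1 _), hp, hp]

/-- If `P₀` is the only point over `P₀`, there is a critical point different from `P₀`. -/
theorem crit_ne {q : ℕ} {F : Fin 2 → MvPolynomial (Fin 2) k} (hq : 2 ≤ q) (hF : Mor q F)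
    {P₀ : Fin 2 → k} (h0 : P₀ ≠ 0) (h1 : ∀ P : Fin 2 → k, P ≠ 0 → Prl (gAct F k P) P₀ → Prl P P₀)
    (h2 : Prl (gAct F k P₀) P₀) :
    ∃ P : Fin 2 → k, P ≠ 0 ∧ aeval P (Jac F) = 0 ∧ ¬ Prl P P₀ := by
  obtain ⟨V, hV⟩ : ∃ V : Fin 2 → k, P₀ 0 * V 1 - P₀ 1 * V 0 ≠ 0 := by
    by_cases h : P₀ 0 = 0
    · refine ⟨![1, 0], ?_⟩
      have h3 : P₀ 1 ≠ 0 := fun h3 => h0 (by funext i; fin_cases i; exacts [h, h3])
      show P₀ 0 * 0 - P₀ 1 * 1 ≠ 0
      rw [mul_zero, mul_one, zero_sub]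
      exact neg_ne_zero.2 h3
    · refine ⟨![0, 1], ?_⟩
      show P₀ 0 * 1 - P₀ 1 * 0 ≠ 0
      rw [mul_one, mul_zero, sub_zero]
      exact h
  let L : Fin 2 → Polynomial k := fun j => Polynomial.C (V j) + Polynomial.X * Polynomial.C (P₀ j)
  let a : Fin 2 → Polynomial k := fun i => aeval L (F i)
  have hLt : ∀ t : k, (fun j => (L j).eval t) = fun j => V j + t * P₀ j := by
    intro t
    funext j
    show (Polynomial.C (V j) + Polynomial.X * Polynomial.C (P₀ j)).eval t = V j + t * P₀ j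
    rw [Polynomial.eval_add, Polynomial.eval_mul, Polynomial.eval_C, Polynomial.eval_C,
      Polynomial.eval_X]
  have hat : ∀ (t : k) (i : Fin 2), (a i).eval t = gAct F k (fun j => V j + t * P₀ j) i := by
    intro t i
    show (aeval L (F i)).eval t = aeval (fun j => V j + t * P₀ j) (F i)
    rw [J19.eval_aeval, hLt]
  have hnp : ∀ t : k, (fun j => V j + t * P₀ j) ≠ 0 ∧ ¬ Prl (fun j => V j + t * P₀ j) P₀ := by
    intro t
    have h3 : (fun j => V j + t * P₀ j) ≠ 0 := by
      intro h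
      have e0 : V 0 + t * P₀ 0 = 0 := congrFun h 0
      have e1 : V 1 + t * P₀ 1 = 0 := congrFun h 1
      apply hV
      linear_combination P₀ 0 * e1 - P₀ 1 * e0
    refine ⟨h3, fun h => ?_⟩
    have h4 := (Bas.prl_iff_det h3 h0).1 h
    apply hV
    have h5 : (V 0 + t * P₀ 0) * P₀ 1 = (V 1 + t * P₀ 1) * P₀ 0 := h4
    linear_combination -h5
  -- the form which vanishes on the fibre of `P₀`
  let h : Polynomial k := Polynomial.C (P₀ 1) * a 0 - Polynomial.C (P₀ 0) * a 1
  have hh : ∀ t : k, ¬ h.IsRoot t := by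
    intro t ht
    have h3 : P₀ 1 * (a 0).eval t - P₀ 0 * (a 1).eval t = 0 := by
      have h4 : h.eval t = 0 := ht
      simpa [h] using h4
    rw [hat, hat] at h3
    have h5 : gAct F k (fun j => V j + t * P₀ j) ≠ 0 := hF.ne k _ (hnp t).1
    apply (hnp t).2
    apply h1 _ (hnp t).1
    rw [Bas.prl_iff_det h5 h0]
    linear_combination h3
  have hh' : Polynomial.derivative h = 0 := by
    by_cases hd : h.degree = 0
    · rw [Polynomial.eq_C_of_degree_eq_zero hd, Polynomial.derivative_C]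
    · obtain ⟨t, ht⟩ := IsAlgClosed.exists_root h hd
      exact absurd ht (hh t)
  -- a second form
  let g : Polynomial k := Polynomial.C (V 1) * a 0 - Polynomial.C (V 0) * a 1
  have hgc : g.coeff q ≠ 0 := by
    have h3 : g.coeff q = V 1 * gAct F k P₀ 0 - V 0 * gAct F k P₀ 1 := by
      simp only [g, Polynomial.coeff_sub, Polynomial.coeff_C_mul]
      have e : ∀ i, (a i).coeff q = gAct F k P₀ i := fun i => coeff_line (hF.hom i) V P₀
      rw [e, e]
    obtain ⟨c, hc, hcc⟩ := h2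
    rw [h3, hcc]
    intro h4
    have h5 : V 1 * (c * P₀ 0) - V 0 * (c * P₀ 1) = 0 := h4
    have h6 : c * (P₀ 0 * V 1 - P₀ 1 * V 0) = 0 := by linear_combination h5
    exact (mul_ne_zero hc hV) h6
  have hg' : (Polynomial.derivative g).degree ≠ 0 := by
    intro hd
    have h3 := Polynomial.eq_C_of_degree_eq_zero hd
    have h4 : (Polynomial.derivative g).coeff (q - 1) = 0 := by
      rw [h3, Polynomial.coeff_C, if_neg (by omega)]
    rw [Polynomial.coeff_derivative, show q - 1 + 1 = q by omega] at h4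
    rcases mul_eq_zero.1 h4 with h5 | h5
    · exact hgc h5
    · have h6 : ((q - 1 : ℕ) : k) + 1 = ((q - 1 + 1 : ℕ) : k) := by push_cast; ring
      rw [h6] at h5
      exact (Nat.cast_ne_zero.2 (by omega)) h5
  obtain ⟨t, ht⟩ := IsAlgClosed.exists_root _ hg'
  refine ⟨fun j => V j + t * P₀ j, (hnp t).1, ?_, (hnp t).2⟩
  have e1 : P₀ 1 * (Polynomial.derivative (a 0)).eval t -
      P₀ 0 * (Polynomial.derivative (a 1)).eval t = 0 := by
    have h3 := congrArg (Polynomial.eval t) hh'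
    simpa [h] using h3
  have e2 : V 1 * (Polynomial.derivative (a 0)).eval t -
      V 0 * (Polynomial.derivative (a 1)).eval t = 0 := by
    have h3 : (Polynomial.derivative g).eval t = 0 := ht
    simpa [g] using h3
  have e3 : (Polynomial.derivative (a 0)).eval t = 0 := by
    have h3 : (P₀ 0 * V 1 - P₀ 1 * V 0) * (Polynomial.derivative (a 0)).eval t = 0 := by
      linear_combination P₀ 0 * e2 - V 0 * e1
    exact (mul_eq_zero.1 h3).resolve_left hV
  have e4 : (Polynomial.derivative (a 1)).eval t = 0 := by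
    have h3 : (P₀ 0 * V 1 - P₀ 1 * V 0) * (Polynomial.derivative (a 1)).eval t = 0 := by
      linear_combination P₀ 1 * e2 - V 1 * e1
    exact (mul_eq_zero.1 h3).resolve_left hV
  have e5 : ∀ i, (Polynomial.derivative (a i)).eval t =
      aeval (fun j => V j + t * P₀ j) (pderiv 0 (F i)) * P₀ 0 +
      aeval (fun j => V j + t * P₀ j) (pderiv 1 (F i)) * P₀ 1 := by
    intro i
    have h3 : Polynomial.derivative (a i) = _ := J19.deriv_aeval L (F i)
    rw [h3, Fin.sum_univ_two, Polynomial.eval_add, Polynomial.eval_mul, Polynomial.eval_mul,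
      J19.eval_aeval, J19.eval_aeval, hLt]
    simp [L]
  rw [e5 0] at e3
  rw [e5 1] at e4
  show aeval (fun j => V j + t * P₀ j) (pderiv 0 (F 0) * pderiv 1 (F 1) -
    pderiv 1 (F 0) * pderiv 0 (F 1)) = 0
  rw [map_sub, map_mul, map_mul]
  by_cases h3 : P₀ 0 = 0
  · have h4 : P₀ 1 ≠ 0 := fun h4 => h0 (by funext i; fin_cases i; exacts [h3, h4])
    have h5 : P₀ 1 * (aeval (fun j => V j + t * P₀ j) (pderiv 0 (F 0)) *
        aeval (fun j => V j + t * P₀ j) (pderiv 1 (F 1)) -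
        aeval (fun j => V j + t * P₀ j) (pderiv 1 (F 0)) *
        aeval (fun j => V j + t * P₀ j) (pderiv 0 (F 1))) = 0 := by
      linear_combination aeval (fun j => V j + t * P₀ j) (pderiv 0 (F 0)) * e4 -
        aeval (fun j => V j + t * P₀ j) (pderiv 0 (F 1)) * e3
    exact (mul_eq_zero.1 h5).resolve_left h4
  · have h5 : P₀ 0 * (aeval (fun j => V j + t * P₀ j) (pderiv 0 (F 0)) *
        aeval (fun j => V j + t * P₀ j) (pderiv 1 (F 1)) -
        aeval (fun j => V j + t * P₀ j) (pderiv 1 (F 0)) *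
        aeval (fun j => V j + t * P₀ j) (pderiv 0 (F 1))) = 0 := by
      linear_combination aeval (fun j => V j + t * P₀ j) (pderiv 1 (F 1)) * e3 -
        aeval (fun j => V j + t * P₀ j) (pderiv 1 (F 0)) * e4
    exact (mul_eq_zero.1 h5).resolve_left h3

end crit

/-! ## Critical points of the iterates -/

section main
variable {k : Type} [Field k] [IsAlgClosed k] [CharZero k]

/-- the critical points of the `m`-th iterate -/
def Tm (F : Fin 2 → MvPolynomial (Fin 2) k) (m : ℕ) : Set (Option k) :=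
  {z | aeval (rp z) (Jac (itF F m)) = 0}

theorem jac_hom {q : ℕ} {F : Fin 2 → MvPolynomial (Fin 2) k} (hq : 1 ≤ q) (hF : Mor q F) :
    Jac F ≠ 0 ∧ (Jac F).IsHomogeneous (2 * (q - 1)) :=
  ⟨(jac k q F hq hF).1, (jac k q F hq hF).2.1⟩

theorem mem_Tm {q : ℕ} {F : Fin 2 → MvPolynomial (Fin 2) k} (hq : 1 ≤ q) (hF : Mor q F) (m : ℕ)
    {P : Fin 2 → k} (hP : P ≠ 0) : pr P ∈ Tm F m ↔ aeval P (Jac (itF F m)) = 0 := by
  have hj := jac_hom (Nat.one_le_pow _ _ hq) (Bas.mor_itF hF m)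
  exact (hom_prl hj.2 (prl_rp hP)).symm

theorem Tm_iff {q : ℕ} {F : Fin 2 → MvPolynomial (Fin 2) k} (hq : 1 ≤ q) (hF : Mor q F) (m : ℕ)
    {P : Fin 2 → k} (hP : P ≠ 0) :
    pr P ∈ Tm F m ↔ ∃ i < m, aeval ((gAct F k)^[i] P) (Jac F) = 0 := by
  rw [mem_Tm hq hF m hP]
  exact (jac k q F hq hF).2.2 k P m hP

theorem Tm_finite {q : ℕ} {F : Fin 2 → MvPolynomial (Fin 2) k} (hq : 1 ≤ q) (hF : Mor q F)
    (m : ℕ) : (Tm F m).Finite := by
  have hj := jac_hom (Nat.one_le_pow _ _ hq) (Bas.mor_itF hF m)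
  obtain ⟨Z, -, hZ⟩ := root k k _ _ hj.1 hj.2
  refine Z.finite_toSet.subset fun z hz => ?_
  have h1 := hZ (rp z) (rp_ne z) hz
  rwa [pr_rp] at h1

/-- A map of the projective line is onto. -/
theorem surj {q : ℕ} {F : Fin 2 → MvPolynomial (Fin 2) k} (hq : 1 ≤ q) (hF : Mor q F)
    {U : Fin 2 → k} (hU : U ≠ 0) : ∃ P : Fin 2 → k, P ≠ 0 ∧ Prl (gAct F k P) U := by
  have h1 : (C (U 1) * F 0 - C (U 0) * F 1).IsHomogeneous q := by
    have h2 := (isHomogeneous_C (Fin 2) (U 1)).mul (hF.hom 0)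
    have h3 := (isHomogeneous_C (Fin 2) (U 0)).mul (hF.hom 1)
    rw [zero_add] at h2 h3
    exact h2.sub h3
  obtain ⟨P, hP, h⟩ := J19.form_zero (N := k) q hq _ h1
  refine ⟨P, hP, ?_⟩
  rw [Bas.prl_iff_det (hF.ne k P hP) hU]
  have h2 : U 1 * gAct F k P 0 - U 0 * gAct F k P 1 = 0 := by
    have h3 : aeval P (C (U 1) * F 0 - C (U 0) * F 1) = U 1 * gAct F k P 0 - U 0 * gAct F k P 1 := by
      rw [map_sub, map_mul, map_mul, algHom_C, algHom_C]
      rfl
    rw [← h3]
    exact h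
  linear_combination h2

/-- If the critical points of the iterates are finitely many, `F` is special. -/
theorem spec_of_bdd {q : ℕ} {F : Fin 2 → MvPolynomial (Fin 2) k} (hq : 2 ≤ q) (hF : Mor q F)
    {B : ℕ} (hB : ∀ m, (Tm F m).ncard ≤ B) : SpecF F := by
  have hq1 : 1 ≤ q := by omega
  have hmono : ∀ m, Tm F m ⊆ Tm F (m + 1) := by
    intro m z hz
    have h1 : pr (rp z) ∈ Tm F m := by rw [pr_rp]; exact hz
    rw [Tm_iff hq1 hF m (rp_ne z)] at h1
    obtain ⟨i, hi, h⟩ := h1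
    have h2 : pr (rp z) ∈ Tm F (m + 1) := (Tm_iff hq1 hF (m + 1) (rp_ne z)).2 ⟨i, by omega, h⟩
    rwa [pr_rp] at h2
  -- the sets are eventually constant
  obtain ⟨m, hm1, hm⟩ : ∃ m, 1 ≤ m ∧ Tm F (m + 1) = Tm F m := by
    by_contra hne
    push Not at hne
    have h1 : ∀ m, m ≤ (Tm F (m + 1)).ncard := by
      intro m
      induction m with
      | zero => exact Nat.zero_le _
      | succ m ih =>
        have h2 : Tm F (m + 1) ⊂ Tm F (m + 1 + 1) :=
          (hmono (m + 1)).ssubset_of_ne fun h => hne (m + 1) (by omega) h.symm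
        have h3 := Set.ncard_lt_ncard h2 (Tm_finite hq1 hF _)
        omega
    have h2 := h1 (B + 1)
    have h3 := hB (B + 1 + 1)
    omega
  have hfin := Tm_finite hq1 hF m
  have hcrit : ∀ P : Fin 2 → k, P ≠ 0 → aeval P (Jac F) = 0 → pr P ∈ Tm F m := fun P hP h =>
    (Tm_iff hq1 hF m hP).2 ⟨0, by omega, h⟩
  have hback : ∀ P : Fin 2 → k, P ≠ 0 → pr (gAct F k P) ∈ Tm F m → pr P ∈ Tm F m := by
    intro P hP h
    rw [Tm_iff hq1 hF m (hF.ne k P hP)] at h
    obtain ⟨i, hi, h⟩ := h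
    rw [← hm, Tm_iff hq1 hF (m + 1) hP]
    exact ⟨i + 1, by omega, by rw [Function.iterate_succ_apply]; exact h⟩
  -- `F` maps the set to itself
  have hpre : ∀ z : Tm F m, ∃ w : Tm F m, pr (gAct F k (rp w)) = z := by
    rintro ⟨z, hz⟩
    obtain ⟨P, hP, hPz⟩ := surj hq1 hF (rp_ne z)
    have h1 : pr (gAct F k P) = z := by rw [Bas.pr_of_prl hPz, pr_rp]
    refine ⟨⟨pr P, hback P hP (by rw [h1]; exact hz)⟩, ?_⟩
    show pr (gAct F k (rp (pr P))) = z
    rw [← h1]
    exact Bas.pr_of_prl (Bas.prl_gAct hF.hom (Bas.prl_symm (prl_rp hP)))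
  choose g hg using hpre
  have : Finite (Tm F m) := hfin
  have hginj : Function.Injective g := by
    intro a b h
    apply Subtype.ext
    rw [← hg a, ← hg b, h]
  have hgsur : Function.Surjective g := Finite.surjective_of_injective hginj
  have hfwd : ∀ z ∈ Tm F m, pr (gAct F k (rp z)) ∈ Tm F m := by
    intro z hz
    obtain ⟨w, hw⟩ := hgsur ⟨z, hz⟩
    have h1 := hg w
    rw [hw] at h1
    have h2 : pr (gAct F k (rp z)) = w := h1
    rw [h2]
    exact w.2
  -- one critical point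
  have hjF := jac_hom hq1 hF
  obtain ⟨P₁, hP₁, hc₁⟩ := J19.form_zero (N := k) (2 * (q - 1)) (by omega) _ hjF.2
  refine ⟨(hfin.toFinset).image rp, ?_, ?_, ?_⟩
  · by_contra hno
    push Not at hno
    have hall : ∀ P : Fin 2 → k, P ≠ 0 → pr P ∈ Tm F m → Prl P P₁ := by
      intro P hP h
      have h1 := hno (rp (pr P)) (Finset.mem_image_of_mem _ (hfin.mem_toFinset.2 h)) (rp (pr P₁))
        (Finset.mem_image_of_mem _ (hfin.mem_toFinset.2 (hcrit P₁ hP₁ hc₁)))
      exact Bas.prl_trans (prl_rp hP) (Bas.prl_trans h1 (Bas.prl_symm (prl_rp hP₁)))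
    have h2 : Prl (gAct F k P₁) P₁ := by
      apply hall _ (hF.ne k P₁ hP₁)
      have h3 := hfwd (pr P₁) (hcrit P₁ hP₁ hc₁)
      rwa [Bas.pr_of_prl (Bas.prl_gAct hF.hom (Bas.prl_symm (prl_rp hP₁)))] at h3
    obtain ⟨P, hP, hc, hne⟩ := crit_ne hq hF hP₁ (fun P hP h => by
      apply hall P hP
      apply hback P hP
      rw [Bas.pr_of_prl h]
      exact hcrit P₁ hP₁ hc₁) h2
    exact hne (hall P hP (hcrit P hP hc))
  · intro x hx
    obtain ⟨z, hz, rfl⟩ := Finset.mem_image.1 hx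
    refine ⟨rp_ne z, rp (pr (gAct F k (rp z))), ?_, prl_rp (hF.ne k _ (rp_ne z))⟩
    exact Finset.mem_image_of_mem _ (hfin.mem_toFinset.2 (hfwd z (hfin.mem_toFinset.1 hz)))
  · rintro x hx ⟨y, hy, hxy⟩
    left
    obtain ⟨z, hz, rfl⟩ := Finset.mem_image.1 hy
    have h1 : pr (gAct F k x) = z := by rw [Bas.pr_of_prl hxy, pr_rp]
    have h2 : pr x ∈ Tm F m := hback x hx (by rw [h1]; exact hfin.mem_toFinset.1 hz)
    exact ⟨rp (pr x), Finset.mem_image_of_mem _ (hfin.mem_toFinset.2 h2), prl_rp hx⟩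

/-! ## The maps `Q` -/

/-- the relations of the sequence -/
theorem seq_rel {q : ℕ} {F : Fin 2 → MvPolynomial (Fin 2) k} (hF : Mor q F)
    {Q : ℕ → Fin 2 → MvPolynomial (Fin 2) k}
    (hQ : ∀ j, ∃ c : k, c ≠ 0 ∧ ∀ i, bind₁ F (Q (j + 1) i) = C c * bind₁ (Q j) (F i)) (m : ℕ) :
    ∃ c : k, c ≠ 0 ∧ ∀ i, bind₁ (itF F m) (Q m i) = C c * bind₁ (Q 0) (itF F m i) := by
  induction m with
  | zero =>
    refine ⟨1, one_ne_zero, fun i => ?_⟩
    have h1 : (itF F 0 : Fin 2 → MvPolynomial (Fin 2) k) = X := by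
      funext i
      rfl
    rw [h1, C_1, one_mul, bind₁_X_right]
    exact aeval_X_left_apply _
  | succ m ih =>
    obtain ⟨c, hc, h⟩ := ih
    obtain ⟨c', hc', h'⟩ := hQ m
    refine ⟨c' * c ^ q, mul_ne_zero hc' (pow_ne_zero _ hc), fun i => ?_⟩
    have h1 : (itF F (m + 1) : Fin 2 → MvPolynomial (Fin 2) k) =
        fun i => bind₁ (itF F m) (F i) := funext fun i => Bas.itF_succ m i
    have h2 : bind₁ (itF F (m + 1)) (Q (m + 1) i) = bind₁ (itF F m) (bind₁ F (Q (m + 1) i)) := by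
      rw [h1, bind₁_bind₁]
    have h3 : bind₁ (itF F m) (bind₁ (Q m) (F i)) =
        bind₁ (fun l => bind₁ (itF F m) (Q m l)) (F i) := bind₁_bind₁ _ _ _
    have h4 : bind₁ (fun l => bind₁ (itF F m) (Q m l)) (F i) =
        (C c) ^ q * bind₁ (fun l => bind₁ (Q 0) (itF F m l)) (F i) := by
      have h5 : (fun l => bind₁ (itF F m) (Q m l)) =
          fun l => C c * bind₁ (Q 0) (itF F m l) := funext h
      rw [h5]
      exact hom_smul (hF.hom i) (C c) _
    have h5 : bind₁ (Q 0) (bind₁ (itF F m) (F i)) =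
        bind₁ (fun l => bind₁ (Q 0) (itF F m l)) (F i) := bind₁_bind₁ _ _ _
    rw [h2, h' i, map_mul, bind₁_C_right, h3, h4, ← h5, ← Bas.itF_succ m i, map_mul, map_pow,
      mul_assoc]

/-- a critical point of an iterate is critical for `Q 0` or goes to such a point -/
theorem crit_or {q D : ℕ} {F : Fin 2 → MvPolynomial (Fin 2) k} (hq : 1 ≤ q) (hF : Mor q F)
    {Q : ℕ → Fin 2 → MvPolynomial (Fin 2) k} (hD : ∀ j, Mor D (Q j))
    (hQ : ∀ j, ∃ c : k, c ≠ 0 ∧ ∀ i, bind₁ F (Q (j + 1) i) = C c * bind₁ (Q j) (F i)) (m : ℕ)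
    {P : Fin 2 → k} (hP : P ≠ 0) (h : pr P ∈ Tm F m) :
    pr (gAct (Q 0) k P) ∈ Tm F m ∨ aeval P (Jac (Q 0)) = 0 := by
  obtain ⟨c, hc, hc'⟩ := seq_rel hF hQ m
  rw [mem_Tm hq hF m hP] at h
  have h1 : Jac (fun i => bind₁ (itF F m) (Q m i)) =
      bind₁ (itF F m) (Jac (Q m)) * Jac (itF F m) := J19.jac_bind _ _
  have h2 : Jac (fun i => C c * bind₁ (Q 0) (itF F m i)) =
      C c ^ 2 * (bind₁ (Q 0) (Jac (itF F m)) * Jac (Q 0)) := by
    have h3 : Jac (fun i => C c * bind₁ (Q 0) (itF F m i)) =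
        C c ^ 2 * Jac (fun i => bind₁ (Q 0) (itF F m i)) := by
      simp only [Jac, pderiv_C_mul]
      ring
    rw [h3, J19.jac_bind]
  have h3 : (fun i => bind₁ (itF F m) (Q m i)) = fun i => C c * bind₁ (Q 0) (itF F m i) :=
    funext hc'
  rw [h3, h2] at h1
  have h4 := congrArg (aeval P) h1
  rw [map_mul, map_mul, map_mul, h, mul_zero, map_pow, algHom_C, aeval_bind₁] at h4
  have h5 : aeval (gAct (Q 0) k P) (Jac (itF F m)) * aeval P (Jac (Q 0)) = 0 :=
    (mul_eq_zero.1 h4).resolve_left (pow_ne_zero _ hc)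
  rcases mul_eq_zero.1 h5 with h6 | h6
  · exact Or.inl ((mem_Tm hq hF m ((hD 0).ne k P hP)).2 h6)
  · exact Or.inr h6

/-- maps of degree `D` which agree at more than `2 D` points -/
theorem eq_of_agree {D : ℕ} {Q R : Fin 2 → MvPolynomial (Fin 2) k} (hQ : Mor D Q) (hR : Mor D R)
    {A : Set (Option k)} (hA : A.Finite → 2 * D < A.ncard)
    (h : ∀ z ∈ A, pr (gAct Q k (rp z)) = pr (gAct R k (rp z))) :
    ∃ c : k, c ≠ 0 ∧ ∀ i, Q i = C c * R i := by
  -- the determinant vanishes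
  have hdet : Q 0 * R 1 = Q 1 * R 0 := by
    by_contra hne
    have h1 : Q 0 * R 1 - Q 1 * R 0 ≠ 0 := sub_ne_zero.2 hne
    have h2 : (Q 0 * R 1 - Q 1 * R 0).IsHomogeneous (D + D) :=
      ((hQ.hom 0).mul (hR.hom 1)).sub ((hQ.hom 1).mul (hR.hom 0))
    obtain ⟨Z, hZ, hZ'⟩ := root k k _ _ h1 h2
    have h3 : A ⊆ Z := by
      intro z hz
      have h4 := (Bas.prl_iff_det (hQ.ne k _ (rp_ne z)) (hR.ne k _ (rp_ne z))).1
        (Bas.prl_of_pr (hQ.ne k _ (rp_ne z)) (hR.ne k _ (rp_ne z)) (h z hz))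
      have h5 := hZ' (rp z) (rp_ne z) (by
        rw [map_sub, map_mul, map_mul]
        have h6 : gAct Q k (rp z) 0 * gAct R k (rp z) 1 = gAct Q k (rp z) 1 * gAct R k (rp z) 0 := h4
        exact sub_eq_zero.2 h6)
      rwa [pr_rp] at h5
    have h4 : A.Finite := Z.finite_toSet.subset h3
    have h5 := Set.ncard_le_ncard h3 Z.finite_toSet
    rw [Set.ncard_coe_finset] at h5
    have := hA h4
    omega
  -- dehomogenize
  let a : (Fin 2 → MvPolynomial (Fin 2) k) → Fin 2 → Polynomial k := fun Q i =>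
    aeval ![(Polynomial.X : Polynomial k), 1] (Q i)
  have hev : ∀ (Q : Fin 2 → MvPolynomial (Fin 2) k) (i : Fin 2) (t : k),
      (a Q i).eval t = gAct Q k ![t, 1] i := by
    intro Q i t
    show (aeval ![(Polynomial.X : Polynomial k), 1] (Q i)).eval t = aeval ![t, 1] (Q i)
    rw [J19.eval_aeval]
    congr 2
    funext i
    fin_cases i <;> simp
  have hcop : ∀ {Q : Fin 2 → MvPolynomial (Fin 2) k}, Mor D Q → IsCoprime (a Q 0) (a Q 1) := by
    intro Q hQ
    rw [Polynomial.isCoprime_iff_aeval_ne_zero_of_isAlgClosed k k]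
    intro t
    by_contra hne
    push Not at hne
    have h1 : gAct Q k ![t, 1] ≠ 0 := hQ.ne k _ (by
      intro h
      have := congrFun h 1
      simp at this)
    apply h1
    have e0 : (a Q 0).eval t = 0 := by
      have := hne.1
      rwa [Polynomial.aeval_def, Polynomial.eval₂_eq_eval_map, Algebra.algebraMap_self,
        Polynomial.map_id] at this
    have e1 : (a Q 1).eval t = 0 := by
      have := hne.2
      rwa [Polynomial.aeval_def, Polynomial.eval₂_eq_eval_map, Algebra.algebraMap_self,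
        Polynomial.map_id] at this
    funext i
    fin_cases i
    · exact (hev Q 0 t).symm.trans e0
    · exact (hev Q 1 t).symm.trans e1
  have hda : a Q 0 * a R 1 = a Q 1 * a R 0 := by
    have h1 := congrArg (aeval ![(Polynomial.X : Polynomial k), 1]) hdet
    rw [map_mul, map_mul] at h1
    exact h1
  -- the quotients
  have hquot : ∀ {Q R : Fin 2 → MvPolynomial (Fin 2) k}, Mor D R →
      a Q 0 * a R 1 = a Q 1 * a R 0 → ∃ h : Polynomial k, ∀ i, a Q i = h * a R i := by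
    intro Q R hR hda
    obtain ⟨u, v, huv⟩ := hcop hR
    refine ⟨u * a Q 0 + v * a Q 1, fun i => ?_⟩
    fin_cases i
    · show a Q 0 = (u * a Q 0 + v * a Q 1) * a R 0
      linear_combination (-(a Q 0)) * huv + v * hda
    · show a Q 1 = (u * a Q 0 + v * a Q 1) * a R 1
      linear_combination (-(a Q 1)) * huv - u * hda
  obtain ⟨h₁, hh₁⟩ := hquot hR hda
  obtain ⟨h₂, hh₂⟩ := hquot (Q := R) (R := Q) hQ (by rw [mul_comm, ← hda, mul_comm])
  have hunit : h₁ * h₂ = 1 := by
    have h3 : ∀ i, (h₁ * h₂ - 1) * a Q i = 0 := by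
      intro i
      have e1 := hh₁ i
      have e2 := hh₂ i
      rw [e2] at e1
      linear_combination -e1
    have h4 : ∃ i, a Q i ≠ 0 := by
      by_contra hne
      push Not at hne
      have h5 := hcop hQ
      rw [hne 0, hne 1] at h5
      exact not_isCoprime_zero_zero h5
    obtain ⟨i, hi⟩ := h4
    exact sub_eq_zero.1 ((mul_eq_zero.1 (h3 i)).resolve_right hi)
  obtain ⟨c, hc, hc'⟩ := Polynomial.isUnit_iff.1 (IsUnit.of_mul_eq_one h₂ hunit)
  refine ⟨c, hc.ne_zero, fun i => ?_⟩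
  by_contra hne
  have h1 : Q i - C c * R i ≠ 0 := sub_ne_zero.2 hne
  have h2 : (Q i - C c * R i).IsHomogeneous D := by
    have h3 := (isHomogeneous_C (Fin 2) c).mul (hR.hom i)
    rw [zero_add] at h3
    exact (hQ.hom i).sub h3
  obtain ⟨Z, -, hZ⟩ := root k k _ _ h1 h2
  have hinf : Infinite k := IsAlgClosed.instInfinite
  have h3 : Set.range (fun t : k => (some t : Option k)) ⊆ Z := by
    rintro _ ⟨t, rfl⟩
    have h4 := hZ ![t, 1] (by
      intro h
      have := congrFun h 1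
      simp at this) (by
      have e1 := congrArg (Polynomial.eval t) (hh₁ i)
      rw [Polynomial.eval_mul, hev, hev, ← hc', Polynomial.eval_C] at e1
      rw [map_sub, map_mul, algHom_C]
      exact sub_eq_zero.2 e1)
    have h5 : pr (![t, 1] : Fin 2 → k) = some t := by
      simp [pr]
    rwa [h5] at h4
  exact Set.infinite_range_of_injective (Option.some_injective k) (Z.finite_toSet.subset h3)

theorem fqt : FqtStatement := by
  intro k _ _ _ q D F hq hD hF hS
  have hq1 : 1 ≤ q := by omega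
  obtain ⟨m, hm⟩ : ∃ m, 4 * D < (Tm F m).ncard := by
    by_contra hne
    push Not at hne
    exact hS (spec_of_bdd hq hF hne)
  have hfin := Tm_finite hq1 hF m
  -- maps on the finite set
  let W : Type := (Tm F m) → Option (Tm F m)
  have : Finite (Tm F m) := hfin
  have : Finite W := inferInstance
  let Good : W → (Fin 2 → MvPolynomial (Fin 2) k) → Prop := fun w Q =>
    Mor D Q ∧ (2 * D < {z : Tm F m | w z ≠ none}.ncard) ∧
      ∀ z : Tm F m, ∀ y : Tm F m, w z = some y → pr (gAct Q k (rp z)) = y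
  have : Fintype W := Fintype.ofFinite W
  let S : Finset (Fin 2 → MvPolynomial (Fin 2) k) :=
    (Finset.univ : Finset W).image fun w => if h : ∃ Q, Good w Q then h.choose else 0
  refine ⟨S, fun Q hDQ hQ => ?_⟩
  let w : W := fun z => if h : pr (gAct (Q 0) k (rp z)) ∈ Tm F m then some ⟨_, h⟩ else none
  have hgood : Good w (Q 0) := by
    refine ⟨hDQ 0, ?_, ?_⟩
    · -- few points are critical for `Q 0`
      have hj := jac_hom hD (hDQ 0)
      obtain ⟨Z, hZ, hZ'⟩ := root k k _ _ hj.1 hj.2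
      have h1 : (Subtype.val '' {z : Tm F m | w z ≠ none}) ∪ (Z : Set (Option k)) ⊇ Tm F m := by
        intro z hz
        rcases crit_or hq1 hF hDQ hQ m (rp_ne z) (by rw [pr_rp]; exact hz) with h | h
        · left
          refine ⟨⟨z, hz⟩, ?_, rfl⟩
          show w ⟨z, hz⟩ ≠ none
          simp only [w]
          rw [dif_pos h]
          exact Option.some_ne_none _
        · right
          have h2 := hZ' (rp z) (rp_ne z) h
          rwa [pr_rp] at h2
      have h2 : (Subtype.val '' {z : Tm F m | w z ≠ none}).ncard =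
          {z : Tm F m | w z ≠ none}.ncard :=
        Set.ncard_image_of_injective _ Subtype.val_injective
      have h3 : (Tm F m).ncard ≤ (Subtype.val '' {z : Tm F m | w z ≠ none}).ncard +
          (Z : Set (Option k)).ncard := by
        refine (Set.ncard_le_ncard h1 ?_).trans (Set.ncard_union_le _ _)
        exact ((Set.toFinite _).image _).union Z.finite_toSet
      rw [Set.ncard_coe_finset, h2] at h3
      omega
    · intro z y hy
      simp only [w] at hy
      split_ifs at hy with h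
      · rw [← Option.some_injective _ hy]
  have hex : ∃ Q, Good w Q := ⟨Q 0, hgood⟩
  refine ⟨hex.choose, Finset.mem_image.2 ⟨w, Finset.mem_univ _, dif_pos hex⟩, ?_⟩
  obtain ⟨g1, g2, g3⟩ := hgood
  obtain ⟨g1', g2', g3'⟩ := hex.choose_spec
  refine eq_of_agree (A := Subtype.val '' {z : Tm F m | w z ≠ none}) g1 g1' (fun _ => ?_) ?_
  · rw [Set.ncard_image_of_injective _ Subtype.val_injective]
    exact g2
  · rintro _ ⟨z, hz, rfl⟩
    obtain ⟨y, hy⟩ := Option.ne_none_iff_exists'.1 hz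
    rw [g3 z y hy, g3' z y hy]

end main

end Fqt49

end Pool.DynLehmer.UN

set_option linter.unusedSectionVars false

/-!
# The bound for rational maps which are not special: assembly
-/

namespace Pool.DynLehmer.UN.Ra72
open MvPolynomial NumberField Pool.DynLehmer Pool.DynLehmer.SB Pool.DynLehmer.SP
  Pool.DynLehmer.GS Pool.DynLehmer.LP Pool.DynLehmer.LW Pool.DynLehmer.UN
open scoped Classical

/-- PAIR1. -/
def Pair1Statement : Prop :=
  ∀ (k : Type) [Field k] [IsAlgClosed k] [CharZero k] (q : ℕ)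
    (F : Fin 2 → MvPolynomial (Fin 2) k), 2 ≤ q → Mor q F → ¬ SpecF F → Pair1F F

theorem finMaps_of {k : Type} [Field k] [IsAlgClosed k] [CharZero k] {q : ℕ}
    {F : Fin 2 → MvPolynomial (Fin 2) k} (hq : 1 ≤ q) (hF : Mor q F) (h1 : Pair1F F)
    (hV : VfinF q F) (hT : FqtF F) : FinMaps k F := by
  obtain ⟨n₁, T, hTM, H⟩ := mid hq hF h1 hV hT
  refine ⟨T.image fun P => (n₁, P), fun P hP => ?_, ?_⟩
  · obtain ⟨P', hP', rfl⟩ := Finset.mem_image.1 hP
    exact ⟨q ^ n₁, Nat.one_le_pow _ _ hq, hTM P' hP'⟩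
  · intro L _ _ _ φ M x y hM hx hy halg hφx hφy hdeg
    obtain ⟨P, hP, h⟩ := H L φ M x y hM hx hy halg hφx hφy hdeg
    exact ⟨(n₁, P), Finset.mem_image_of_mem _ hP, h⟩

/-- **The bound for maps which are not special.** -/
theorem rational_bound_of (hp : Pair1Statement) (hv : RV.VfinStatement) {K : Type} [Field K]
    [NumberField K] {p s : ℕ} {v : FinitePlace K} {F : Fin 2 → MvPolynomial (Fin 2) K}
    (hF : HypR p s v F)
    (hS : ¬ SpecF (fun i => map (algebraMap K (AlgebraicClosure K)) (F i))) :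
    ∃ R : ℕ, 1 ≤ R ∧ ExplR K p s F R := by
  have hq : 2 ≤ p ^ s := by
    calc 2 ≤ p := hF.prime.two_le
      _ = p ^ 1 := (pow_one p).symm
      _ ≤ p ^ s := Nat.pow_le_pow_right hF.prime.pos hF.pos
  have hchar : CharZero (AlgebraicClosure K) :=
    charZero_of_injective_algebraMap (algebraMap K (AlgebraicClosure K)).injective
  have hM := mor_base (mor K p s v F hF) (AlgebraicClosure K)
  refine rat_of_maps hF (finMaps_of (by omega) hM (hp _ _ _ hq hM hS) ?_ ?_)
  · obtain ⟨n₁, H⟩ := hv K p s v F hF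
    exact ⟨n₁, fun n n' M Q R h1 h2 h3 h4 h5 h6 h7 h8 h9 j N _ _ z z' =>
      H _ rfl n n' M Q R h1 h2 h3 h4 h5 h6 h7 h8 h9 j N z z'⟩
  · intro D hD
    exact Fqt49.fqt _ _ D _ hq hD hM hS

end Pool.DynLehmer.UN.Ra72

/-!
# A near Lehmer bound for all wandering points of the projective line

For a map `F` of the projective line of degree `q = p ^ s` over a number field `K` which has purely
inseparable good reduction at a place above `p` there is `c > 0` such that the canonical height of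
every wandering point of degree `D` over `K` is at least `c / D * exp (- √(log D) / c)`.
-/

namespace Pool.DynLehmer.UN.Nr85
open MvPolynomial NumberField Filter Topology Pool.DynLehmer Pool.DynLehmer.GS Pool.DynLehmer.LP
open scoped Classical

/-- the lower bound in the form with one constant -/
theorem exp_bound {A B : ℝ} (hA : 0 < A) (hB : 0 < B) : ∃ c : ℝ, 0 < c ∧
    ∀ D : ℝ, 1 ≤ D → c / D * Real.exp (-(√(Real.log D) / c)) ≤
      A / (D * 1) * Real.exp (-(B * 1 * (1 + (Real.log D) ^ ((1 : ℝ) / (1 + 1))))) := by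
  refine ⟨min (A * Real.exp (-B)) (1 / B), lt_min (by positivity) (by positivity), fun D hD => ?_⟩
  set c : ℝ := min (A * Real.exp (-B)) (1 / B) with hcdef
  have hc : 0 < c := lt_min (by positivity) (by positivity)
  have hD0 : 0 < D := by linarith
  have h1 : (Real.log D) ^ ((1 : ℝ) / (1 + 1)) = √(Real.log D) := by
    rw [Real.sqrt_eq_rpow]
    norm_num
  rw [h1]
  have h2 : A / (D * 1) * Real.exp (-(B * 1 * (1 + √(Real.log D)))) =
      A * Real.exp (-B) / D * Real.exp (-(B * √(Real.log D))) := by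
    have h3 : -(B * 1 * (1 + √(Real.log D))) = -B + -(B * √(Real.log D)) := by ring
    rw [h3, Real.exp_add]
    field_simp
  rw [h2]
  have h4 : c ≤ A * Real.exp (-B) := min_le_left _ _
  have h5 : B ≤ 1 / c := by
    rw [le_div_iff₀ hc, mul_comm, ← le_div_iff₀ hB]
    exact min_le_right _ _
  have h6 : B * √(Real.log D) ≤ √(Real.log D) / c := by
    rw [div_eq_mul_one_div, mul_comm]
    exact mul_le_mul_of_nonneg_left h5 (Real.sqrt_nonneg _)
  refine mul_le_mul (div_le_div_of_nonneg_right h4 hD0.le) (Real.exp_le_exp.2 (by linarith))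
    (Real.exp_pos _).le (by positivity)

/-- the lower bound for a smaller constant -/
theorem near_mono {c₀ c D : ℝ} (h₀ : 0 < c₀) (h : c₀ ≤ c) (hD : 0 ≤ D) :
    c₀ / D * Real.exp (-(√(Real.log D) / c₀)) ≤ c / D * Real.exp (-(√(Real.log D) / c)) := by
  have hc : 0 < c := h₀.trans_le h
  have h1 : √(Real.log D) / c ≤ √(Real.log D) / c₀ :=
    div_le_div_of_nonneg_left (Real.sqrt_nonneg _) h₀ h
  exact mul_le_mul (div_le_div_of_nonneg_right h hD) (Real.exp_le_exp.2 (by linarith))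
    (Real.exp_pos _).le (by positivity)

/-- a prime of `K` over `v` is unramified over `K` -/
theorem unram {K : Type} [Field K] [NumberField K] (v : FinitePlace K) (Q : Ideal (𝓞 K))
    (hQ : Q.LiesOver v.maximalIdeal.asIdeal) :
    ¬ (v.maximalIdeal.asIdeal.map (algebraMap (𝓞 K) (𝓞 K)) ≤ Q ^ (1 + 1)) := by
  have h1 : (algebraMap (𝓞 K) (𝓞 K)) = RingHom.id _ := by
    ext x
    rfl
  have h2 : v.maximalIdeal.asIdeal = Q := by
    have h3 := hQ.over
    rw [h3]
    unfold Ideal.under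
    rw [h1]
    exact Ideal.comap_id Q
  rw [h1, Ideal.map_id, ← h2]
  intro h4
  have h5 := Ideal.pow_lt_self v.maximalIdeal.asIdeal v.maximalIdeal.ne_bot
    v.maximalIdeal.isPrime.ne_top (1 + 1) (by norm_num)
  exact absurd h4 (not_le_of_gt h5)

/-- A point of the projective line has a representative over the field generated by it. -/
theorem exists_rep {K N : Type} [Field K] [Field N] [Algebra K N] (x : Fin 2 → N) (hx : x ≠ 0) :
    ∃ y : Fin 2 → IntermediateField.adjoin K {x 0 / x 1}, y ≠ 0 ∧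
      Prl x (fun i => ((y i : IntermediateField.adjoin K {x 0 / x 1}) : N)) := by
  by_cases h1 : x 1 = 0
  · have h0 : x 0 ≠ 0 := by
      intro h0
      apply hx
      funext i
      fin_cases i
      · exact h0
      · exact h1
    refine ⟨![1, 0], fun h => one_ne_zero (congrFun h 0), x 0, h0, ?_⟩
    funext i
    fin_cases i
    · exact (mul_one (x 0)).symm
    · show x 1 = x 0 * 0
      rw [h1, mul_zero]
  · refine ⟨![⟨x 0 / x 1, IntermediateField.mem_adjoin_simple_self K _⟩, 1],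
      fun h => one_ne_zero (congrFun h 1), x 1, h1, ?_⟩
    funext i
    fin_cases i
    · show x 0 = x 1 * (x 0 / x 1)
      rw [mul_div_cancel₀ _ h1]
    · exact (mul_one (x 1)).symm

/-- **The near Lehmer bound** for maps of the projective line with purely inseparable good
reduction: it holds for all wandering points. -/
theorem near_lehmer (K : Type) [Field K] [NumberField K] (p s : ℕ) (v : FinitePlace K)
    (F : Fin 2 → MvPolynomial (Fin 2) K) (hR : HypR p s v F) :
    ∃ c : ℝ, 0 < c ∧ ∀ (N : Type) [Field N] [NumberField N] [Algebra K N] (x : Fin 2 → N), x ≠ 0 →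
      WandP F x → ∃ h : ℝ, HasHt (p ^ s) F x h ∧
        c / (dg K x : ℝ) * Real.exp (-(√(Real.log (dg K x : ℝ)) / c)) ≤ h := by
  have hM : Mor (p ^ s) F := Pool.DynLehmer.GS.mor K p s v F hR
  have hq : 2 ≤ p ^ s := hR.prime.two_le.trans
    (Nat.le_self_pow (by have := hR.pos; omega) p)
  obtain ⟨A, B, hA, hB, H⟩ := rel_galois2 (ι := Fin 2) (by simp) hq F hR.hom
    (fun z hz => by
      by_contra hne
      exact hM.ne (AlgebraicClosure K) z hne (funext hz))
    hR.prime hR.pos v F hR.hom hR.above hR.int hR.red hR.det (fun i j => mul_comm _ _) 1 le_rfl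
  obtain ⟨c, hc, Hc⟩ := exp_bound (A := A) (B := B) hA hB
  refine ⟨c, hc, ?_⟩
  intro N _ _ _ x hx hw
  have hfd : FiniteDimensional K N := Module.Finite.of_restrictScalars_finite ℚ K N
  have hNL : NumberField (IntermediateField.adjoin K {x 0 / x 1}) :=
    NumberField.of_module_finite K _
  obtain ⟨y, hy, hxy⟩ := exists_rep (K := K) x hx
  have hwy : WandP F y := by
    have h1 : WandP F (fun i => ((y i : IntermediateField.adjoin K {x 0 / x 1}) : N)) :=
      Bas.wandP_prl hR.hom (Bas.prl_symm hxy) hw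
    exact (Bas.wandP_map (F := F) (IntermediateField.adjoin K {x 0 / x 1}).val).1 h1
  obtain ⟨h, hh, hle⟩ := H 1 le_rfl K (fun g => by
      refine (Set.ncard_le_one (Set.toFinite _)).2 fun a _ b _ => ?_
      exact AlgEquiv.ext fun z => (a.commutes z).trans (b.commutes z).symm) 1 le_rfl
    (fun Q _ hQ => unram v Q hQ) (IntermediateField.adjoin K {x 0 / x 1}) y hy hwy
  refine ⟨h, ?_, ?_⟩
  · refine VpAux.hasHt_prl hR.hom (Bas.prl_symm hxy) ?_
    unfold HasHt
    refine hh.congr fun n => ?_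
    congr 1
    have h1 := gAct_iter_map F (IntermediateField.adjoin K {x 0 / x 1}).val n y
    change (gAct F N)^[n] (fun i => ((y i : IntermediateField.adjoin K {x 0 / x 1}) : N)) = _ at h1
    rw [h1]
    exact (logHeight_hom ((IntermediateField.adjoin K {x 0 / x 1}).val :
      (IntermediateField.adjoin K {x 0 / x 1}) →+* N) _).symm
  · refine le_trans (Hc _ ?_) (le_trans (le_of_eq ?_) hle)
    · exact_mod_cast (Module.finrank_pos : 0 < Module.finrank K
        (IntermediateField.adjoin K {x 0 / x 1}))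
    · unfold dg
      norm_num [Fintype.card_fin]

end Pool.DynLehmer.UN.Nr85

/-!
# The near Lehmer bound with everything written out
-/

namespace Pool.DynLehmer.UN.Rn60
open MvPolynomial NumberField Filter Topology Pool.DynLehmer Pool.DynLehmer.GS Pool.DynLehmer.LP
  Pool.DynLehmer.GAL Pool.DynLehmer.LW
open scoped Classical

theorem near_explicit (K : Type) [Field K] [NumberField K] (p s : ℕ) (v : NumberField.FinitePlace K)
    (F : Fin 2 → MvPolynomial (Fin 2) K) (hyp : HypR p s v F) :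
    ∃ c : ℝ, 0 < c ∧ ∀ (L : Type) [Field L] [NumberField L] [Algebra K L] (a : L),
      (∀ m n : ℕ, Prl ((gAct F L)^[m] ![a, 1]) ((gAct F L)^[n] ![a, 1]) → m = n) →
      ∃ h : ℝ,
        Filter.Tendsto (fun n : ℕ =>
          ((1 : ℝ) / (Module.finrank ℚ L : ℝ)) *
            ((∑ w : NumberField.InfinitePlace L, (NumberField.InfinitePlace.mult w : ℝ) *
                Real.log (⨆ j, w ((gAct F L)^[n] ![a, 1] j))) +
             ∑ᶠ u : NumberField.FinitePlace L,
                Real.log (⨆ j, u ((gAct F L)^[n] ![a, 1] j)))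
            / ((p ^ s : ℕ) : ℝ) ^ n) Filter.atTop (nhds h) ∧
        c / (Module.finrank K (IntermediateField.adjoin K {a}) : ℝ) * Real.exp
          (-(√(Real.log (Module.finrank K (IntermediateField.adjoin K {a}) : ℝ)) / c)) ≤ h := by
  have hM := mor K p s v F hyp
  obtain ⟨c, hc, H⟩ := Nr85.near_lehmer K p s v F hyp
  refine ⟨c, hc, ?_⟩
  intro L _ _ _ a ha
  have hfd : FiniteDimensional K L := Module.Finite.of_restrictScalars_finite ℚ K L
  have hdg0 : dg K ![a, 1] = Module.finrank K (IntermediateField.adjoin K {a}) := by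
    unfold dg
    have h1 : (![a, 1] : Fin 2 → L) 0 / (![a, 1] : Fin 2 → L) 1 = a := by
      change a / 1 = a
      rw [div_one]
    rw [h1]
  have h0 : (![a, 1] : Fin 2 → L) ≠ 0 := fun h0 => one_ne_zero (congrFun h0 1 : (1 : L) = 0)
  obtain ⟨h, hlim, hle⟩ := H L ![a, 1] h0 (by
    rintro ⟨m, n, hmn, u, hu, h⟩
    exact hmn (ha n m ⟨u, hu, h⟩).symm)
  rw [hdg0] at hle
  refine ⟨h, Tendsto.congr (fun n => ?_) hlim, hle⟩
  have hne : (gAct F L)^[n] ![a, 1] ≠ 0 := E.gAct_iter_ne' hM n h0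
  rw [logHeight_eq_sum hne, one_div, inv_mul_eq_div]

end Pool.DynLehmer.UN.Rn60

set_option linter.unusedSectionVars false

/-!
# The bound for maps which are not special
-/

namespace Pool.DynLehmer.UN.Rt60
open MvPolynomial NumberField Filter Topology Pool.DynLehmer Pool.DynLehmer.GS Pool.DynLehmer.LP
  Pool.DynLehmer.GAL Pool.DynLehmer.LW
open scoped Classical

/-- `F` is special over the algebraic closure, with local degrees -/
def SpM {K : Type} [Field K] (F : Fin 2 → MvPolynomial (Fin 2) K) : Prop :=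
  ∃ S : Finset (Fin 2 → AlgebraicClosure K), (∃ x ∈ S, ∃ y ∈ S, ¬ Prl x y) ∧
    (∀ x ∈ S, x ≠ 0 ∧ ∃ y ∈ S, Prl (gAct F (AlgebraicClosure K) x) y) ∧
    ∀ x, x ≠ 0 → (∃ y ∈ S, Prl (gAct F (AlgebraicClosure K) x) y) →
      (∃ y ∈ S, Prl x y) ∨ 2 ≤ ld F x

theorem jac_bcf {K A : Type} [Field K] [Field A] [Algebra K A] (F : Fin 2 → MvPolynomial (Fin 2) K) :
    Jac (Clo60.bcf A F) = map (algebraMap K A) (Jac F) := by
  unfold Jac Clo60.bcf
  rw [map_sub, map_mul, map_mul, pderiv_map, pderiv_map, pderiv_map, pderiv_map]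

theorem two_le_ld {K Ω : Type} [Field K] [Field Ω] [CharZero Ω] [Algebra K Ω] {q : ℕ}
    {F : Fin 2 → MvPolynomial (Fin 2) K} (hq : 1 ≤ q) (hF : Mor q F) {U : Fin 2 → Ω} (hU : U ≠ 0) :
    2 ≤ ld F U ↔ aeval U (Jac F) = 0 := by
  obtain ⟨V, hV⟩ := Ldm.exists_ind hU
  obtain ⟨W, hW⟩ := Ldm.exists_ind (hF.ne Ω U hU)
  obtain ⟨h1, -, h2, -⟩ := LDG.ldg K Ω q F hq hF U V W hV hW
  constructor
  · intro h
    by_contra h3
    have := h2.2 h3
    omega
  · intro h
    have h3 : ld F U ≠ 1 := fun h4 => h2.1 h4 h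
    omega

theorem spm_of_spec {K : Type} [Field K] [CharZero K] {q : ℕ}
    {F : Fin 2 → MvPolynomial (Fin 2) K} (hq : 1 ≤ q) (hF : Mor q F)
    (h : SpecF (Clo60.bcf (AlgebraicClosure K) F)) : SpM F := by
  have hchar : CharZero (AlgebraicClosure K) :=
    charZero_of_injective_algebraMap (algebraMap K (AlgebraicClosure K)).injective
  have hg : ∀ x : Fin 2 → AlgebraicClosure K,
      gAct (Clo60.bcf (AlgebraicClosure K) F) (AlgebraicClosure K) x =
        gAct F (AlgebraicClosure K) x := by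
    intro x
    funext i
    exact aeval_map_algebraMap _ x (F i)
  obtain ⟨S, h1, h2, h3⟩ := h
  refine ⟨S, h1, fun x hx => ⟨(h2 x hx).1, ?_⟩, fun x hx h4 => ?_⟩
  · have := (h2 x hx).2
    rwa [hg] at this
  · rw [← hg] at h4
    refine (h3 x hx h4).imp_right fun h5 => ?_
    rw [two_le_ld hq hF hx]
    rw [jac_bcf, aeval_map_algebraMap] at h5
    exact h5

/-- powers are special -/
theorem spm_pow {K : Type} [Field K] [CharZero K] {q : ℕ} (hq : 1 ≤ q) : SpM (uniF q (0 : K)) := by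
  have hchar : CharZero (AlgebraicClosure K) :=
    charZero_of_injective_algebraMap (algebraMap K (AlgebraicClosure K)).injective
  have hg : ∀ x : Fin 2 → AlgebraicClosure K, gAct (uniF q (0 : K)) (AlgebraicClosure K) x =
      ![x 0 ^ q, x 1 ^ q] := by
    intro x
    funext i
    fin_cases i
    · show aeval x (X 0 ^ q + C (0 : K) * X 1 ^ q) = x 0 ^ q
      rw [map_zero, zero_mul, add_zero, map_pow, aeval_X]
    · show aeval x (X 1 ^ q : MvPolynomial (Fin 2) K) = x 1 ^ q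
      rw [map_pow, aeval_X]
  refine ⟨{![0, 1], ![1, 0]}, ⟨![0, 1], by simp, ![1, 0], by simp, ?_⟩, ?_, ?_⟩
  · rintro ⟨c, hc, h⟩
    have := congrFun h 1
    simp at this
  · intro x hx
    rw [Finset.mem_insert, Finset.mem_singleton] at hx
    rcases hx with rfl | rfl
    · refine ⟨fun h => by have := congrFun h 1; simp at this, ![0, 1], by simp, 1, one_ne_zero, ?_⟩
      rw [hg, one_smul]
      funext i
      fin_cases i
      · show (0 : AlgebraicClosure K) ^ q = 0
        rw [zero_pow (by omega)]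
      · show (1 : AlgebraicClosure K) ^ q = 1
        rw [one_pow]
    · refine ⟨fun h => by have := congrFun h 0; simp at this, ![1, 0], by simp, 1, one_ne_zero, ?_⟩
      rw [hg, one_smul]
      funext i
      fin_cases i
      · show (1 : AlgebraicClosure K) ^ q = 1
        rw [one_pow]
      · show (0 : AlgebraicClosure K) ^ q = 0
        rw [zero_pow (by omega)]
  · rintro x hx ⟨y, hy, c, hc, h⟩
    left
    rw [hg] at h
    rw [Finset.mem_insert, Finset.mem_singleton] at hy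
    rcases hy with rfl | rfl
    · have h0 : x 0 ^ q = 0 := by
        have := congrFun h 0
        simpa using this
      have h00 : x 0 = 0 := eq_zero_of_pow_eq_zero h0
      have h1 : x 1 ≠ 0 := fun h1 => hx (by
        funext i
        fin_cases i
        · exact h00
        · exact h1)
      refine ⟨![0, 1], by simp, x 1, h1, ?_⟩
      funext i
      fin_cases i
      · show x 0 = x 1 * 0
        rw [h00, mul_zero]
      · show x 1 = x 1 * 1
        rw [mul_one]
    · have h0 : x 1 ^ q = 0 := by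
        have := congrFun h 1
        simpa using this
      have h00 : x 1 = 0 := eq_zero_of_pow_eq_zero h0
      have h1 : x 0 ≠ 0 := fun h1 => hx (by
        funext i
        fin_cases i
        · exact h1
        · exact h00)
      refine ⟨![1, 0], by simp, x 0, h1, ?_⟩
      funext i
      fin_cases i
      · show x 0 = x 0 * 1
        rw [mul_one]
      · show x 1 = x 0 * 0
        rw [h00, mul_zero]

/-- `z ^ 2 - 2` is special -/
theorem spm_cheb {K : Type} [Field K] [CharZero K] (hM : Mor 2 (uniF 2 (-2 : K))) :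
    SpM (uniF 2 (-2 : K)) := by
  have hchar : CharZero (AlgebraicClosure K) :=
    charZero_of_injective_algebraMap (algebraMap K (AlgebraicClosure K)).injective
  have hg : ∀ x : Fin 2 → AlgebraicClosure K, gAct (uniF 2 (-2 : K)) (AlgebraicClosure K) x =
      ![x 0 ^ 2 - 2 * x 1 ^ 2, x 1 ^ 2] := by
    intro x
    funext i
    fin_cases i
    · show aeval x (X 0 ^ 2 + C (-2 : K) * X 1 ^ 2) = x 0 ^ 2 - 2 * x 1 ^ 2
      rw [map_add, map_mul, map_pow, map_pow, aeval_X, aeval_X, aeval_C, map_neg, map_ofNat]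
      ring
    · show aeval x (X 1 ^ 2 : MvPolynomial (Fin 2) K) = x 1 ^ 2
      rw [map_pow, aeval_X]
  have h2 : (2 : AlgebraicClosure K) ≠ 0 := two_ne_zero
  refine ⟨{![2, 1], ![-2, 1]}, ⟨![2, 1], by simp, ![-2, 1], by simp, ?_⟩, ?_, ?_⟩
  · rintro ⟨c, hc, h⟩
    have h0 : (2 : AlgebraicClosure K) = c * -2 := congrFun h 0
    have h1 : (1 : AlgebraicClosure K) = c * 1 := congrFun h 1
    rw [mul_one] at h1
    rw [← h1, one_mul] at h0
    have h4 : (4 : AlgebraicClosure K) = 0 := by linear_combination h0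
    norm_num at h4
  · intro x hx
    rw [Finset.mem_insert, Finset.mem_singleton] at hx
    rcases hx with rfl | rfl
    · refine ⟨fun h => by have := congrFun h 1; simp at this, ![2, 1], by simp, 1, one_ne_zero, ?_⟩
      rw [hg, one_smul]
      funext i
      fin_cases i
      · show (2 : AlgebraicClosure K) ^ 2 - 2 * 1 ^ 2 = 2
        norm_num
      · show (1 : AlgebraicClosure K) ^ 2 = 1
        norm_num
    · refine ⟨fun h => by have := congrFun h 1; simp at this, ![2, 1], by simp, 1, one_ne_zero, ?_⟩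
      rw [hg, one_smul]
      funext i
      fin_cases i
      · show (-2 : AlgebraicClosure K) ^ 2 - 2 * 1 ^ 2 = 2
        norm_num
      · show (1 : AlgebraicClosure K) ^ 2 = 1
        norm_num
  · rintro x hx ⟨y, hy, c, hc, h⟩
    rw [hg] at h
    have hy' : y = ![2, 1] ∨ y = ![-2, 1] := by
      rw [Finset.mem_insert, Finset.mem_singleton] at hy
      exact hy
    have h1 : x 1 ^ 2 = c := by
      have := congrFun h 1
      rcases hy' with rfl | rfl <;> simpa using this
    have hx1 : x 1 ≠ 0 := by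
      intro h0
      rw [h0] at h1
      apply hc
      rw [← h1]
      ring
    rcases hy' with rfl | rfl
    · left
      have h0 : x 0 ^ 2 - 2 * x 1 ^ 2 = c * 2 := congrFun h 0
      have h3 : (x 0 - 2 * x 1) * (x 0 + 2 * x 1) = 0 := by
        rw [← h1] at h0
        linear_combination h0
      rcases mul_eq_zero.1 h3 with h4 | h4
      · refine ⟨![2, 1], by simp, x 1, hx1, ?_⟩
        funext i
        fin_cases i
        · show x 0 = x 1 * 2
          linear_combination h4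
        · show x 1 = x 1 * 1
          rw [mul_one]
      · refine ⟨![-2, 1], by simp, x 1, hx1, ?_⟩
        funext i
        fin_cases i
        · show x 0 = x 1 * -2
          linear_combination h4
        · show x 1 = x 1 * 1
          rw [mul_one]
    · right
      have h0 : x 0 ^ 2 - 2 * x 1 ^ 2 = c * -2 := congrFun h 0
      have h3 : x 0 = 0 := by
        rw [← h1] at h0
        have h5 : x 0 ^ 2 = 0 := by linear_combination h0
        exact eq_zero_of_pow_eq_zero h5
      rw [two_le_ld (by norm_num) hM hx]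
      have hJ : Jac (uniF 2 (-2 : K)) = C 4 * X 0 * X 1 := by
        unfold Jac uniF
        have e1 : (![X 0 ^ 2 + C (-2 : K) * X 1 ^ 2, X 1 ^ 2] : Fin 2 → MvPolynomial (Fin 2) K) 0 =
            X 0 ^ 2 + C (-2 : K) * X 1 ^ 2 := rfl
        have e2 : (![X 0 ^ 2 + C (-2 : K) * X 1 ^ 2, X 1 ^ 2] : Fin 2 → MvPolynomial (Fin 2) K) 1 =
            X 1 ^ 2 := rfl
        have e3 : pderiv (0 : Fin 2) (X 0 : MvPolynomial (Fin 2) K) = 1 := pderiv_X_self 0
        have e4 : pderiv (1 : Fin 2) (X 1 : MvPolynomial (Fin 2) K) = 1 := pderiv_X_self 1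
        have e5 : pderiv (0 : Fin 2) (X 1 : MvPolynomial (Fin 2) K) = 0 :=
          pderiv_X_of_ne (by decide)
        have e6 : pderiv (1 : Fin 2) (X 0 : MvPolynomial (Fin 2) K) = 0 :=
          pderiv_X_of_ne (by decide)
        rw [e1, e2, map_add, map_add, pderiv_C_mul, pderiv_C_mul, pderiv_pow, pderiv_pow,
          pderiv_pow, pderiv_pow, e3, e4, e5, e6]
        have e7 : (C 4 : MvPolynomial (Fin 2) K) = 4 := map_ofNat C 4
        rw [e7]
        push_cast
        ring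
      rw [hJ, map_mul, map_mul, aeval_X, aeval_X, h3]
      ring

/-- Row VFIN, closed. -/
theorem vfin_all : RV.VfinStatement :=
  RV.vfin_all

/-- Row PAIR1, closed. -/
theorem pair1_all : Ra72.Pair1Statement :=
  fun _ _ _ _ _ _ hq hF hs => Ra21.pair1F_of hq hF hs

end Pool.DynLehmer.UN.Rt60

namespace Pool.DynLehmer.UN
open MvPolynomial NumberField Filter Topology Pool.DynLehmer Pool.DynLehmer.GS Pool.DynLehmer.LP
  Pool.DynLehmer.GAL Pool.DynLehmer.LW
open scoped Classical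

/-- **The bound for maps which are not special**, with `R = 1` for `z ^ q + c`. -/
theorem rational_bound (K : Type) [Field K]
    [NumberField K] (p s : ℕ) (v : FinitePlace K) (F : Fin 2 → MvPolynomial (Fin 2) K)
    (hF : HypR p s v F) (hns : ¬ Rt60.SpM F) : ∃ R : ℕ, 1 ≤ R ∧ ((∃ c : K, F = polF (p ^ s)
      (Polynomial.X ^ (p ^ s) + Polynomial.C c)) → R = 1) ∧ ExplR K p s F R := by
  have hq : 2 ≤ p ^ s := by
    calc 2 ≤ p := hF.prime.two_le
      _ = p ^ 1 := (pow_one p).symm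
      _ ≤ p ^ s := Nat.pow_le_pow_right hF.prime.pos hF.pos
  have hmor : Mor (p ^ s) F := mor K p s v F hF
  by_cases hu : ∃ c : K, F = polF (p ^ s) (Polynomial.X ^ (p ^ s) + Polynomial.C c)
  · obtain ⟨c, hc⟩ := hu
    rw [polF_uni (by omega)] at hc
    subst hc
    refine ⟨1, le_rfl, fun _ => rfl, unicritical_bound K p s v c hF ?_ ?_⟩
    · rintro rfl
      exact hns (Rt60.spm_pow (by omega))
    · rintro ⟨h6, rfl⟩
      apply hns
      rw [h6] at hmor ⊢
      exact Rt60.spm_cheb hmor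
  · have hns' : ¬ SpecF (fun i => map (algebraMap K (AlgebraicClosure K)) (F i)) := fun h =>
      hns (Rt60.spm_of_spec (by omega) hmor h)
    obtain ⟨R, hR, H⟩ := Ra72.rational_bound_of Rt60.pair1_all Rt60.vfin_all hF hns'
    exact ⟨R, hR, fun h => absurd h hu, H⟩

end Pool.DynLehmer.UN
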