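import Pool.Agent.Lib.MP_2194ec_nt.GAL.R.Fib
import Pool.Agent.Lib.MP_2194ec_nt.GAL.R.Mor
import Pool.Agent.Lib.MP_2194ec_nt.LW.ClD
import Pool.Agent.Lib.MP_2194ec_nt.LW.Cntu
import Pool.Agent.Lib.MP_2194ec_nt.LW.OneMap
import Pool.Agent.Lib.MP_2194ec_nt.UN.Generic
import Pool.Agent.Lib.MP_2194ec_nt.UN.Hahn
import Pool.Agent.Lib.MP_2194ec_nt.UN.Pairs
import Pool.Agent.Lib.MP_2194ec_nt.UN.Pone
import Pool.Agent.Lib.MP_2194ec_nt.UN.Props
import Pool.Agent.Lib.MP_2194ec_nt.UN.Tower

set_option autoImplicit false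
set_option linter.unusedSectionVars false

/-!
# The periodic forms of `z ^ p + c` are the graphs of the iterates
-/

namespace Pool.DynLehmer.UN
open MvPolynomial NumberField Pool.DynLehmer Pool.DynLehmer.SB Pool.DynLehmer.SP
  Pool.DynLehmer.GS Pool.DynLehmer.LP Pool.DynLehmer.LW
open scoped Classical

namespace Gra60

theorem gAct_uniF {K : Type} [Field K] (p : ℕ) (c : K) {L : Type} [Field L] [Algebra K L]
    (x : L) : gAct (uniF p c) L ![x, 1] = ![x ^ p + algebraMap K L c, 1] := by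
  funext i
  fin_cases i
  · show aeval ![x, 1] (X 0 ^ p + C c * X 1 ^ p : MvPolynomial (Fin 2) K) = x ^ p + algebraMap K L c
    simp
  · show aeval ![x, 1] (X 1 ^ p : MvPolynomial (Fin 2) K) = 1
    simp

theorem iter_uniF {K : Type} [Field K] (p : ℕ) (c : K) {L : Type} [Field L] [Algebra K L]
    (x : L) (n : ℕ) : (gAct (uniF p c) L)^[n] ![x, 1] =
      ![(fun z => z ^ p + algebraMap K L c)^[n] x, 1] := by
  induction n with
  | zero => rfl
  | succ n ih =>
    rw [Function.iterate_succ_apply', ih, gAct_uniF, Function.iterate_succ_apply']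

theorem mor_uniF {K : Type} [Field K] {p : ℕ} (hp : p ≠ 0) (c : K) : Mor p (uniF p c) := by
  refine ⟨fun i => ?_, fun N _ _ P hP h => hP ?_⟩
  · fin_cases i
    · show (X 0 ^ p + C c * X 1 ^ p : MvPolynomial (Fin 2) K).IsHomogeneous p
      have h1 : (X 0 ^ p : MvPolynomial (Fin 2) K).IsHomogeneous p := by
        have h := (isHomogeneous_X K (0 : Fin 2)).pow p
        rwa [one_mul] at h
      have h2 : (X 1 ^ p : MvPolynomial (Fin 2) K).IsHomogeneous p := by
        have h := (isHomogeneous_X K (1 : Fin 2)).pow p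
        rwa [one_mul] at h
      refine h1.add ?_
      have h3 := (isHomogeneous_C (Fin 2) c).mul h2
      rwa [zero_add] at h3
    · show (X 1 ^ p : MvPolynomial (Fin 2) K).IsHomogeneous p
      have h := (isHomogeneous_X K (1 : Fin 2)).pow p
      rwa [one_mul] at h
  · have h1 : P 1 ^ p = 0 := by
      have h2 := congrFun h 1
      have h3 : gAct (uniF p c) N P 1 = P 1 ^ p := by
        show aeval P (X 1 ^ p : MvPolynomial (Fin 2) K) = P 1 ^ p
        simp
      rw [h3] at h2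
      exact h2
    have h4 : P 1 = 0 := pow_eq_zero_iff hp |>.1 h1
    have h5 : P 0 ^ p = 0 := by
      have h2 := congrFun h 0
      have h3 : gAct (uniF p c) N P 0 = P 0 ^ p + algebraMap K N c * P 1 ^ p := by
        show aeval P (X 0 ^ p + C c * X 1 ^ p : MvPolynomial (Fin 2) K) = _
        simp
      rw [h3, h1, mul_zero, add_zero] at h2
      exact h2
    have h6 : P 0 = 0 := pow_eq_zero_iff hp |>.1 h5
    funext i
    fin_cases i
    · exact h6
    · exact h4

theorem map_uniF {K L : Type} [Field K] [Field L] (f : K →+* L) (p : ℕ) (c : K) :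
    (fun i => map f (uniF p c i)) = uniF p (f c) := by
  funext i
  fin_cases i
  · show map f (X 0 ^ p + C c * X 1 ^ p) = X 0 ^ p + C (f c) * X 1 ^ p
    simp
  · show map f (X 1 ^ p) = X 1 ^ p
    simp

/-- `PairStatement` for the degree `q`. -/
def PairAt (q : ℕ) : Prop :=
  ∀ (k N : Type) [Field k] [IsAlgClosed k] [CharZero k] [Field N] [Algebra k N] (c : k)
    (M : ℕ) (x y : N), c ≠ 0 → ¬ (q = 2 ∧ c = -2) → 1 ≤ M → Transcendental k x →
    Transcendental k y → IsAlgebraic (IntermediateField.adjoin k {x}) y →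
    (∀ G : MvPolynomial (Fin 2) k, MvPolynomial.aeval ![x, y] G = 0 →
      MvPolynomial.aeval ![(fun z => z ^ q + algebraMap k N c)^[M] x,
        (fun z => z ^ q + algebraMap k N c)^[M] y] G = 0) →
    ∃ l : ℕ, y = (fun z => z ^ q + algebraMap k N c)^[l] x ∨
      x = (fun z => z ^ q + algebraMap k N c)^[l] y

theorem pairAt_of_prime (h : PairStatement) {p : ℕ} (hp : p.Prime) : PairAt p :=
  fun k N _ _ _ _ _ c M x y hc hc2 hM hx hy halg hrel =>
    h k N p c M x y hp hc hc2 hM hx hy halg hrel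

/-- Row GRA, over an algebraically closed field: every periodic form divides the form of the graph
of an iterate. -/
theorem gra (hGena : GenaStatement) (hGenb : GenbStatement) {p : ℕ} (hp : 2 ≤ p)
    (hPair : PairAt p) (k : Type) [Field k] [IsAlgClosed k]
    [CharZero k] (c : k) (hc : c ≠ 0) (hc2 : ¬ (p = 2 ∧ c = -2)) (e : ℕ)
    (G : MvPolynomial (Fin 2 ⊕ Fin 2) k) (hG : PerForm (uniF p c) e G) :
    ∃ l : ℕ, G ∣ Cls.hF (uniF p c) l 0 ∨ G ∣ Cls.hF (uniF p c) 0 l := by
  obtain ⟨d₁, d₂, h1, -, h2, -, hB⟩ := hG.hom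
  obtain ⟨L, _, _, x, y, _, hLx, hx, hy, hev⟩ := hGena k d₁ d₂ G h1 h2 hG.irr hB
  obtain ⟨φ, m, hm, hφx, hφy⟩ := hGenb k p c hp e G hG L x y hLx hx hy hev
  have hM : Mor p (uniF p c) := mor_uniF (by omega) c
  -- `y` is algebraic over `k(x)`
  have halg : IsAlgebraic (IntermediateField.adjoin k {x}) y := hLx.isAlgebraic y
  have hrel : ∀ H : MvPolynomial (Fin 2) k, aeval ![x, y] H = 0 →
      aeval ![(fun z => z ^ p + algebraMap k L c)^[m] x,
        (fun z => z ^ p + algebraMap k L c)^[m] y] H = 0 := by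
    intro H hH
    rw [← hφx, ← hφy]
    have h1 : (![φ x, φ y] : Fin 2 → L) = fun i => φ (![x, y] i) := by
      funext i
      fin_cases i <;> rfl
    rw [h1]
    have h2 : aeval (fun i => φ (![x, y] i)) H = φ (aeval ![x, y] H) :=
      (MvPolynomial.comp_aeval_apply (φ := φ) (f := ![x, y]) (p := H)).symm
    rw [h2, hH, map_zero]
  obtain ⟨l, hl | hl⟩ := hPair k L c m x y hc hc2 hm hx hy halg hrel
  · refine ⟨l, Or.inl ((hev _ _ _ (Cls.bihom_hF hM l 0)).1 ?_)⟩
    rw [Cls.ev_hF, iter_uniF, iter_uniF, ← hl]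
    simp
  · refine ⟨l, Or.inr ((hev _ _ _ (Cls.bihom_hF hM 0 l)).1 ?_)⟩
    rw [Cls.ev_hF, iter_uniF, iter_uniF, ← hl]
    simp

end Gra60

end Pool.DynLehmer.UN

set_option linter.unusedSectionVars false

/-!
# A periodic form has a periodic factor over the algebraic closure
-/

namespace Pool.DynLehmer.UN
open MvPolynomial NumberField Pool.DynLehmer Pool.DynLehmer.SB Pool.DynLehmer.SP
  Pool.DynLehmer.GS Pool.DynLehmer.LP Pool.DynLehmer.LW
open scoped Classical

namespace Clo60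

variable {K : Type} [Field K] {A : Type} [Field A] [Algebra K A]

/-- base change of forms -/
noncomputable def bcf (A : Type) [Field A] [Algebra K A] (F : Fin 2 → MvPolynomial (Fin 2) K) :
    Fin 2 → MvPolynomial (Fin 2) A := fun i => map (algebraMap K A) (F i)

theorem map_dbl_iter (F : Fin 2 → MvPolynomial (Fin 2) K) (n : ℕ)
    (G : MvPolynomial (Fin 2 ⊕ Fin 2) K) : map (algebraMap K A) ((bind₁ (dbl F))^[n] G) =
      (bind₁ (dbl (bcf A F)))^[n] (map (algebraMap K A) G) := by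
  induction n with
  | zero => rfl
  | succ n ih =>
    rw [Function.iterate_succ_apply', Function.iterate_succ_apply', ← ih, map_bind₁]
    congr 2
    funext a
    rcases a with a | a
    · show map (algebraMap K A) (rename Sum.inl (F a)) = rename Sum.inl (bcf A F a)
      rw [map_rename]
      rfl
    · show map (algebraMap K A) (rename Sum.inr (F a)) = rename Sum.inr (bcf A F a)
      rw [map_rename]
      rfl

theorem ev_map (P P' : Fin 2 → A) (G : MvPolynomial (Fin 2 ⊕ Fin 2) K) :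
    GS.ev P P' (map (algebraMap K A) G) = GS.ev P P' G :=
  aeval_map_algebraMap A (Sum.elim P P') G

/-- infinitely many points -/
theorem pts_infinite [Infinite A] (Z : Finset (Option A)) (h : ∀ P : Fin 2 → A, P ≠ 0 →
    pr P ∈ Z) : False := by
  have h1 : Function.Injective (fun a : A => (some a : Option A)) := Option.some_injective A
  refine Set.infinite_range_of_injective h1 (Z.finite_toSet.subset ?_)
  rintro _ ⟨a, rfl⟩
  have h2 := h ![a, 1] (by
    intro h0
    have := congrFun h0 1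
    simp at this)
  have h3 : pr (![a, 1] : Fin 2 → A) = some a := by
    simp [pr]
  rw [h3] at h2
  exact h2

theorem unit_of_00 {G : MvPolynomial (Fin 2 ⊕ Fin 2) K} (hG : BiHom 0 0 G) (h0 : G ≠ 0) :
    IsUnit G := by
  have h1 : G = C (coeff 0 G) := by
    ext t
    rw [coeff_C]
    split_ifs with h
    · rw [h]
    · by_contra hne
      have h2 := hG t (mem_support_iff.2 hne)
      apply h
      symm
      ext i
      rcases i with i | i <;> fin_cases i
      · exact (by omega : t (Sum.inl 0) = 0)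
      · exact (by omega : t (Sum.inl 1) = 0)
      · exact (by omega : t (Sum.inr 0) = 0)
      · exact (by omega : t (Sum.inr 1) = 0)
  rw [h1]
  refine (isUnit_iff_ne_zero.2 fun h => h0 ?_).map C
  rw [h1, h, map_zero]

/-- a periodic form has a periodic factor over an algebraically closed field -/
theorem exists_factor [IsAlgClosed A] {F : Fin 2 → MvPolynomial (Fin 2) K} {e : ℕ}
    {G : MvPolynomial (Fin 2 ⊕ Fin 2) K} (hG : PerForm F e G) :
    ∃ G₁ : MvPolynomial (Fin 2 ⊕ Fin 2) A, PerForm (bcf A F) e G₁ ∧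
      G₁ ∣ map (algebraMap K A) G := by
  have : Infinite A := IsAlgClosed.instInfinite
  obtain ⟨d₁, d₂, h1, h1e, h2, h2e, hB⟩ := hG.hom
  obtain ⟨k, hk, hdvd⟩ := hG.per
  have hinj : Function.Injective (map (algebraMap K A) :
      MvPolynomial (Fin 2 ⊕ Fin 2) K → MvPolynomial (Fin 2 ⊕ Fin 2) A) :=
    map_injective _ (algebraMap K A).injective
  set Gb : MvPolynomial (Fin 2 ⊕ Fin 2) A := map (algebraMap K A) G with hGb
  have hGb0 : Gb ≠ 0 := fun h => hG.irr.ne_zero (hinj (h.trans (map_zero _).symm))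
  have hBb : BiHom d₁ d₂ Gb := by
    intro t ht
    refine hB t (mem_support_iff.2 fun h0 => (mem_support_iff.1 ht) ?_)
    rw [hGb, coeff_map, h0, map_zero]
  have hGbu : ¬ IsUnit Gb := by
    intro hu
    obtain ⟨t, ht⟩ := MvPolynomial.support_nonempty.2 hGb0
    rw [MvPolynomial.isUnit_iff_eq_C_of_isReduced] at hu
    obtain ⟨r, -, hr⟩ := hu
    have h3 : t = 0 := by
      by_contra hne
      apply mem_support_iff.1 ht
      rw [hr, coeff_C, if_neg (fun h => hne h.symm)]
    have h4 := (hBb t ht).1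
    rw [h3] at h4
    simp at h4
    omega
  let β : MvPolynomial (Fin 2 ⊕ Fin 2) A →* MvPolynomial (Fin 2 ⊕ Fin 2) A :=
    { toFun := (bind₁ (dbl (bcf A F)))^[k]
      map_one' := iterate_map_one _ k
      map_mul' := iterate_map_mul _ k }
  have hβ : (β : MvPolynomial (Fin 2 ⊕ Fin 2) A → _) = (bind₁ (dbl (bcf A F)))^[k] := rfl
  have hGbd : Gb ∣ β Gb := by
    rw [hβ, hGb, ← map_dbl_iter]
    exact map_dvd (map (algebraMap K A)) hdvd
  obtain ⟨G₁, n, hirr, hd, hn, hper⟩ := Cl.exists_periodic β hGb0 hGbu hGbd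
  rw [hβ, ← Function.iterate_mul] at hper
  obtain ⟨c, d, hc, hd', hcd⟩ := hBb.of_dvd hGb0 hd
  have hzero : ∀ P P' : Fin 2 → A, GS.ev P P' G₁ = 0 → GS.ev P P' G = 0 := by
    intro P P' h0
    obtain ⟨W, hW⟩ := hd
    rw [← ev_map, ← hGb, hW, Un60.ev_mul, h0, zero_mul]
  have hc1 : 1 ≤ c := by
    by_contra hcc
    obtain rfl : c = 0 := by omega
    have hd1 : 1 ≤ d := by
      by_contra hdd
      obtain rfl : d = 0 := by omega
      exact hirr.not_isUnit (unit_of_00 hcd hirr.ne_zero)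
    obtain ⟨P', hP', hz⟩ := Un60.zero_inr hd1 hcd
    obtain ⟨⟨Z, -, hZ⟩, -⟩ := fib K d₂ d₁ _ (Bas.biHom_swap hB) (Bas.irreducible_swap hG.irr) h2
      h1 A P' hP'
    exact pts_infinite Z fun P hP => hZ P hP (by
      rw [Bas.ev_swap]
      exact hzero P P' (hz P))
  have hd1 : 1 ≤ d := by
    by_contra hdd
    obtain rfl : d = 0 := by omega
    obtain ⟨P, hP, hz⟩ := Un60.zero_inl hc1 hcd
    obtain ⟨⟨Z, -, hZ⟩, -⟩ := fib K d₁ d₂ _ hB hG.irr h1 h2 A P hP
    exact pts_infinite Z fun P' hP' => hZ P' hP' (hzero P P' (hz P'))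
  exact ⟨G₁, ⟨hirr, ⟨c, d, hc1, by omega, hd1, by omega, hcd⟩, ⟨k * n, Nat.mul_pos hk hn, hper⟩⟩,
    hd⟩

end Clo60

end Pool.DynLehmer.UN

set_option linter.unusedSectionVars false

/-!
# The periodic forms of `z ^ q + c` over a number field
-/

namespace Pool.DynLehmer.UN
open MvPolynomial NumberField Pool.DynLehmer Pool.DynLehmer.SB Pool.DynLehmer.SP
  Pool.DynLehmer.GS Pool.DynLehmer.LP Pool.DynLehmer.LW
open scoped Classical

namespace Fin60

/-- the iterates of `z ^ q + c` as polynomials -/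
noncomputable def itp {K : Type} [Field K] (q : ℕ) (c : K) (n : ℕ) : Polynomial K :=
  ((Polynomial.X ^ q + Polynomial.C c : Polynomial K).comp)^[n] Polynomial.X

theorem itp_deg {K : Type} [Field K] {q : ℕ} (hq : 0 < q) (c : K) (n : ℕ) :
    (itp q c n).natDegree = q ^ n := by
  rw [itp, Polynomial.natDegree_iterate_comp, Polynomial.natDegree_X_pow_add_C,
    Polynomial.natDegree_X, mul_one]

theorem itp_aeval {K L : Type} [Field K] [Field L] [Algebra K L] (q : ℕ) (c : K) (n : ℕ)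
    (x : L) : Polynomial.aeval x (itp q c n) = (fun z => z ^ q + algebraMap K L c)^[n] x := by
  induction n with
  | zero =>
    rw [itp, Function.iterate_zero_apply, Function.iterate_zero_apply, Polynomial.aeval_X]
  | succ n ih =>
    rw [Function.iterate_succ_apply', ← ih, itp, Function.iterate_succ_apply',
      Polynomial.aeval_comp]
    rw [map_add, map_pow, Polynomial.aeval_X, Polynomial.aeval_C]
    rfl

theorem iter_inj {K L : Type} [Field K] [Field L] [Algebra K L] {q : ℕ} (hq : 2 ≤ q) (c : K)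
    {x : L} (hx : Transcendental K x) {m n : ℕ}
    (h : (fun z => z ^ q + algebraMap K L c)^[m] x = (fun z => z ^ q + algebraMap K L c)^[n] x) :
    m = n := by
  rw [← itp_aeval, ← itp_aeval] at h
  have h1 : itp q c m = itp q c n := by
    by_contra hne
    exact hx ⟨itp q c m - itp q c n, sub_ne_zero.2 hne, by rw [map_sub, h, sub_self]⟩
  have h2 := congrArg Polynomial.natDegree h1
  rw [itp_deg (by omega), itp_deg (by omega)] at h2
  exact Nat.pow_right_injective hq h2

theorem wand_trans {K L : Type} [Field K] [Field L] [Algebra K L] {q : ℕ} (hq : 2 ≤ q) (c : K)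
    {x : L} (hx : Transcendental K x) : WandP (uniF q c) ![x, 1] := by
  rintro ⟨m, n, hmn, a, ha, h⟩
  rw [Gra60.iter_uniF, Gra60.iter_uniF] at h
  have h1 := congrFun h 1
  have h0 := congrFun h 0
  simp only [Pi.smul_apply, Matrix.cons_val_one, Matrix.cons_val_zero, smul_eq_mul, mul_one] at h1 h0
  rw [← h1, one_mul] at h0
  exact hmn (iter_inj hq c hx h0).symm

/-- row CNTU for `z ^ q + c` -/
theorem cntuU (hGena : GenaStatement) (hGenb : GenbStatement) {q : ℕ} (hq : 2 ≤ q)
    (hPair : Gra60.PairAt q) (K : Type) [Field K] [CharZero K] (c : K) (hc : c ≠ 0)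
    (hc2 : ¬ (q = 2 ∧ c = -2)) : CntuF K (uniF q c) := by
  intro e
  have hchar : CharZero (AlgebraicClosure K) :=
    charZero_of_injective_algebraMap (algebraMap K (AlgebraicClosure K)).injective
  set c' : AlgebraicClosure K := algebraMap K (AlgebraicClosure K) c with hc'
  have h1 : (fun i => map (algebraMap K (AlgebraicClosure K)) (uniF q c i)) = uniF q c' :=
    Gra60.map_uniF (algebraMap K (AlgebraicClosure K)) q c
  have h2 : c' ≠ 0 := by
    rw [hc']
    exact (map_ne_zero_iff _ (algebraMap K (AlgebraicClosure K)).injective).2 hc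
  have h3 : ¬ (q = 2 ∧ c' = -2) := by
    rintro ⟨hq2, h⟩
    apply hc2
    refine ⟨hq2, (algebraMap K (AlgebraicClosure K)).injective ?_⟩
    rw [← hc', h, map_neg, map_ofNat]
  rw [h1]
  exact Un60.fin_of_dvd hq (Gra60.mor_uniF (by omega) c')
    (fun e G hG => Gra60.gra hGena hGenb hq hPair _ c' h2 h3 e G hG) e

/-- every periodic form of `z ^ q + c` divides a form `F^a(X) ∧ F^b(Y)` -/
theorem dvdU (hGena : GenaStatement) (hGenb : GenbStatement) {q : ℕ} (hq : 2 ≤ q)
    (hPair : Gra60.PairAt q) (K : Type) [Field K] [CharZero K] (c : K) (hc : c ≠ 0)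
    (hc2 : ¬ (q = 2 ∧ c = -2)) (e : ℕ) (G : MvPolynomial (Fin 2 ⊕ Fin 2) K)
    (hG : PerForm (uniF q c) e G) : ∃ a b : ℕ, G ∣ Cls.hF (uniF q c) a b := by
  let A := AlgebraicClosure K
  have hchar : CharZero A :=
    charZero_of_injective_algebraMap (algebraMap K A).injective
  set c' : A := algebraMap K A c with hc'
  have h1 : Clo60.bcf A (uniF q c) = uniF q c' := Gra60.map_uniF (algebraMap K A) q c
  have h2 : c' ≠ 0 := by
    rw [hc']
    exact (map_ne_zero_iff _ (algebraMap K A).injective).2 hc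
  have h3 : ¬ (q = 2 ∧ c' = -2) := by
    rintro ⟨hq2, h⟩
    apply hc2
    refine ⟨hq2, (algebraMap K A).injective ?_⟩
    rw [← hc', h, map_neg, map_ofNat]
  have hM : Mor q (uniF q c) := Gra60.mor_uniF (by omega) c
  have hM' : Mor q (uniF q c') := Gra60.mor_uniF (by omega) c'
  obtain ⟨G₁, hG₁, hd⟩ := Clo60.exists_factor (A := A) hG
  rw [h1] at hG₁
  obtain ⟨d₁, d₂, hd1, -, hd2, -, hB⟩ := hG₁.hom
  obtain ⟨L, _, _, x, y, _, -, hx, -, hev⟩ := hGena A d₁ d₂ G₁ hd1 hd2 hG₁.irr hB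
  let _ : Algebra K L := ((algebraMap A L).comp (algebraMap K A)).toAlgebra
  have htow : IsScalarTower K A L := IsScalarTower.of_algebraMap_eq fun _ => rfl
  have hxK : Transcendental K x := by
    intro h
    exact hx (h.extendScalars (algebraMap K A).injective)
  have hevK : ∀ (P P' : Fin 2 → L) (H : MvPolynomial (Fin 2 ⊕ Fin 2) K),
      GS.ev P P' (map (algebraMap K A) H) = GS.ev P P' H := fun P P' H =>
    aeval_map_algebraMap A (Sum.elim P P') H
  have h4 : GS.ev ![x, 1] ![y, 1] G₁ = 0 := (hev _ _ _ hB).2 dvd_rfl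
  have h5 : GS.ev ![x, 1] ![y, 1] G = 0 := by
    obtain ⟨W, hW⟩ := hd
    rw [← hevK, hW, Un60.ev_mul, h4, zero_mul]
  have hne : ∀ a : L, (![a, 1] : Fin 2 → L) ≠ 0 := by
    intro a h
    have := congrFun h 1
    simp at this
  have hact : ∀ (n : ℕ) (a : L), (gAct (uniF q c') L)^[n] ![a, 1] =
      (gAct (uniF q c) L)^[n] ![a, 1] := by
    intro n a
    rw [Gra60.iter_uniF, Gra60.iter_uniF]
    rfl
  have hw : WandP (uniF q c) ![x, 1] := wand_trans hq c hxK
  obtain ⟨l, hl⟩ := Gra60.gra hGena hGenb hq hPair A c' h2 h3 e G₁ hG₁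
  have hz : ∀ {a b : ℕ}, G₁ ∣ Cls.hF (uniF q c') a b → G ∣ Cls.hF (uniF q c) a b := by
    intro a b h
    have h6 : GS.ev ![x, 1] ![y, 1] (Cls.hF (uniF q c') a b) = 0 := by
      obtain ⟨W, hW⟩ := h
      rw [hW, Un60.ev_mul, h4, zero_mul]
    have h7 := (Cls.ev_hF_iff hM' a b (hne x) (hne y)).1 h6
    rw [hact, hact] at h7
    exact Cls.dvd_hF root bez hM hG (hne x) (hne y) hw h5 h7
  rcases hl with h | h
  · exact ⟨_, _, hz h⟩
  · exact ⟨_, _, hz h⟩

/-- the conclusion of row CLSF for `z ^ q + c`, with `R = 1` -/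
theorem clsfU (hGena : GenaStatement) (hGenb : GenbStatement) (K : Type) [Field K]
    [NumberField K] (p s : ℕ) (v : FinitePlace K) (c : K)
    (hPair : Gra60.PairAt (p ^ s)) (hF : HypR p s v (uniF (p ^ s) c)) (hc : c ≠ 0)
    (hc2 : ¬ (p ^ s = 2 ∧ c = -2)) : ClsfF K p s (uniF (p ^ s) c) 1 := by
  have hq : 2 ≤ p ^ s := by
    calc 2 ≤ p := hF.prime.two_le
      _ = p ^ 1 := (pow_one p).symm
      _ ≤ p ^ s := Nat.pow_le_pow_right hF.prime.pos hF.pos
  exact clsfF_of_gra K p s v _ hF fun e G hG => dvdU hGena hGenb hq hPair K c hc hc2 e G hG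

end Fin60

end Pool.DynLehmer.UN

/-!
# The dynamical Lehmer bound for the maps `z ^ q + c`: assembly
-/

namespace Pool.DynLehmer.UN
open MvPolynomial NumberField Filter Topology Pool.DynLehmer Pool.DynLehmer.GS Pool.DynLehmer.LP
  Pool.DynLehmer.GAL Pool.DynLehmer.LW
open scoped Classical

/-- The explicit form of the conclusion of Theorem VH. -/
def ExplR (K : Type) [Field K] [NumberField K] (p s : ℕ) (F : Fin 2 → MvPolynomial (Fin 2) K)
    (R : ℕ) : Prop :=
        ∀ A : ℕ, 1 ≤ A → ∃ (R' : ℕ) (c : ℝ), 0 < c ∧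
        ∀ (L : Type) [Field L] [NumberField L] [Algebra K L] [IsGalois K L] (a : L),
          (∀ m n : ℕ, Prl ((gAct F L)^[m] ![a, 1]) ((gAct F L)^[n] ![a, 1]) → m = n) →
          (∃ h : ℝ,
            Filter.Tendsto (fun n : ℕ =>
              ((1 : ℝ) / (Module.finrank ℚ L : ℝ)) *
                ((∑ w : NumberField.InfinitePlace L, (NumberField.InfinitePlace.mult w : ℝ) *
                    Real.log (⨆ j, w ((gAct F L)^[n] ![a, 1] j))) +
                 ∑ᶠ u : NumberField.FinitePlace L,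
                    Real.log (⨆ j, u ((gAct F L)^[n] ![a, 1] j)))
                / ((p ^ s : ℕ) : ℝ) ^ n) Filter.atTop (nhds h) ∧
            c / (Module.finrank K (IntermediateField.adjoin K {a}) : ℝ) ≤ h) ∨
          ∃ (n D : ℕ) (b : L), b = (gAct F L)^[n] ![a, 1] 0 / (gAct F L)^[n] ![a, 1] 1 ∧
            D = Module.finrank K (IntermediateField.adjoin K {b}) ∧ A < D ∧
            ((p ^ s) ^ n) ^ A * D ^ (A - 1) ≤
              (Module.finrank K (IntermediateField.adjoin K {a})) ^ A ∧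
            (Smo (MulAction.stabilizer (L ≃ₐ[K] L) b) A R' ∧
              Pas (MulAction.stabilizer (L ≃ₐ[K] L) b) A R) ∧
            (∃ T : Finset L, T.card ≤ R ∧ (∀ σ : L ≃ₐ[K] L, σ b ∈ T → σ⁻¹ b ∈ T) ∧
              ∀ (k : ℕ) (σ : Fin k → (L ≃ₐ[K] L)), 2 ≤ k → k ≤ A →
                (∀ i j, i ≠ j → (σ i)⁻¹ (σ j b) ∉ T) →
                D ^ (k * A - 1) < (Module.finrank K
                  (IntermediateField.adjoin K (Set.range fun i => σ i b))) ^ A) ∧
            ∀ H : Subgroup (L ≃ₐ[K] L), (∀ σ : L ≃ₐ[K] L, σ b = b → ∀ τ ∈ H, σ * τ * σ⁻¹ ∈ H) →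
              R < {x | ∃ σ ∈ H, σ b = x}.ncard →
              D ^ (A - 1) < {x | ∃ σ ∈ H, σ b = x}.ncard ^ A ∧
              ¬ ∃ (l : ℕ) (G : ℕ → Subgroup (L ≃ₐ[K] L)),
                  (∀ σ ∈ G 0, ∀ x ∈ {x | ∃ σ ∈ H, σ b = x}, σ x = x) ∧ G l = H ∧
                  ∀ i < l, G i ≤ G (i + 1) ∧
                    (∀ σ ∈ G (i + 1), ∀ τ ∈ G i, σ * τ * σ⁻¹ ∈ G i) ∧
                    ((∀ σ ∈ G (i + 1), ∀ τ ∈ G (i + 1), σ * τ * σ⁻¹ * τ⁻¹ ∈ G i) ∨
                      (G i).relIndex (G (i + 1)) ≤ D ^ A)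

theorem genaSt : GenaStatement := fun _ _ _ d₁ d₂ G h1 h2 hG hb => Gena69.gena d₁ d₂ G h1 h2 hG hb

/-- **The bound for the maps `z ^ q + c`**, `q` a power of `p`, `c ≠ 0`, `(q, c) ≠ (2, -2)`. -/
theorem unicritical_explicit (K : Type) [Field K] [NumberField K] (p s : ℕ) (v : FinitePlace K)
    (c : K) (hPair : Gra60.PairAt (p ^ s)) (hF : HypR p s v (uniF (p ^ s) c)) (hc : c ≠ 0)
    (hc2 : ¬ (p ^ s = 2 ∧ c = -2)) : ExplR K p s (uniF (p ^ s) c) 1 := by
  have hq : 2 ≤ p ^ s := by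
    calc 2 ≤ p := hF.prime.two_le
      _ = p ^ 1 := (pow_one p).symm
      _ ≤ p ^ s := Nat.pow_le_pow_right hF.prime.pos hF.pos
  exact vh_explicitF mor _ K p s v _ hF 1
    (vhstF' K p s v _ hF (Fin60.cntuU genaSt genb hq hPair K c hc hc2) 1 le_rfl
      (Fin60.clsfU genaSt genb K p s v c hPair hF hc hc2))

end Pool.DynLehmer.UN

/-!
# The dynamical Lehmer bound for the maps `z ^ q + c`
-/

namespace Pool.DynLehmer.UN
open MvPolynomial NumberField Filter Topology Pool.DynLehmer Pool.DynLehmer.GS Pool.DynLehmer.LP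
  Pool.DynLehmer.GAL Pool.DynLehmer.LW

/-- **Periodic pairs of `z ^ q + c`**: they are on the orbit of each other. -/
theorem pairqSt : PairqStatement := pairbq (pairaq (towerq P51.p3))

/-- **The bound for the maps `z ^ q + c`**, `q` a power of `p`, `c ≠ 0`, `(q, c) ≠ (2, -2)`. -/
theorem unicritical_bound (K : Type) [Field K] [NumberField K] (p s : ℕ) (v : FinitePlace K)
    (c : K) (hF : HypR p s v (uniF (p ^ s) c)) (hc : c ≠ 0) (hc2 : ¬ (p ^ s = 2 ∧ c = -2)) :
    ExplR K p s (uniF (p ^ s) c) 1 := by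
  have hq : 2 ≤ p ^ s := by
    calc 2 ≤ p := hF.prime.two_le
      _ = p ^ 1 := (pow_one p).symm
      _ ≤ p ^ s := Nat.pow_le_pow_right hF.prime.pos hF.pos
  exact unicritical_explicit K p s v c
    (fun k N _ _ _ _ _ c M x y hc hc2 hM hx hy halg hrel =>
      pairqSt k N (p ^ s) c M x y hq hc hc2 hM hx hy halg hrel) hF hc hc2

end Pool.DynLehmer.UN
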